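import Mathlib

section

/-!
Moments of polynomials of small degree in independent signs.
-/

set_option autoImplicit false
set_option linter.unusedSectionVars false

namespace Pool.Agent.MP_9cec2c_lc.Flat

open Finset

/-- The sign of a bit. -/
def sg (b : Bool) : ℝ := if b = true then -1 else 1

@[simp] theorem sg_true : sg true = -1 := rfl

@[simp] theorem sg_false : sg false = 1 := rfl

theorem sg_mul_self (b : Bool) : sg b * sg b = 1 := by
  cases b <;> simp

/-- The average over the cube. -/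
noncomputable def Ex {ι : Type} [Fintype ι] [DecidableEq ι] (f : (ι → Bool) → ℝ) : ℝ :=
  (∑ x, f x) / 2 ^ Fintype.card ι

theorem Ex_mono {ι : Type} [Fintype ι] [DecidableEq ι] {f g : (ι → Bool) → ℝ}
    (h : ∀ x, f x ≤ g x) : Ex f ≤ Ex g := by
  unfold Ex
  exact div_le_div_of_nonneg_right (sum_le_sum fun x _ => h x) (by positivity)

theorem Ex_nonneg {ι : Type} [Fintype ι] [DecidableEq ι] {f : (ι → Bool) → ℝ}
    (h : ∀ x, 0 ≤ f x) : 0 ≤ Ex f := by
  unfold Ex
  exact div_nonneg (sum_nonneg fun x _ => h x) (by positivity)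

theorem Ex_add {ι : Type} [Fintype ι] [DecidableEq ι] (f g : (ι → Bool) → ℝ) :
    Ex (fun x => f x + g x) = Ex f + Ex g := by
  unfold Ex
  rw [sum_add_distrib, add_div]

theorem Ex_mul {ι : Type} [Fintype ι] [DecidableEq ι] (c : ℝ) (f : (ι → Bool) → ℝ) :
    Ex (fun x => c * f x) = c * Ex f := by
  unfold Ex
  rw [← mul_sum, mul_div_assoc]

theorem Ex_sum {ι κ : Type} [Fintype ι] [DecidableEq ι] (s : Finset κ)
    (f : κ → (ι → Bool) → ℝ) : Ex (fun x => ∑ k ∈ s, f k x) = ∑ k ∈ s, Ex (f k) := by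
  unfold Ex
  rw [sum_comm, sum_div]

theorem Ex_const {ι : Type} [Fintype ι] [DecidableEq ι] (c : ℝ) :
    Ex (fun _ : ι → Bool => c) = c := by
  unfold Ex
  rw [sum_const, card_univ, Fintype.card_fun, Fintype.card_bool, nsmul_eq_mul]
  push_cast
  field_simp

/-- The average over the first coordinate. -/
theorem Ex_cons {n : ℕ} (f : (Fin (n + 1) → Bool) → ℝ) :
    Ex f = Ex (fun x => (f (Fin.cons false x) + f (Fin.cons true x)) / 2) := by
  unfold Ex
  rw [← (Fin.consEquiv fun _ : Fin (n + 1) => Bool).sum_comp]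
  rw [Fintype.sum_prod_type, Fintype.sum_bool, ← sum_add_distrib, ← sum_div]
  simp only [Fintype.card_fin]
  rw [pow_succ]
  field_simp
  refine sum_congr rfl fun x _ => add_comm _ _

/-- The even part in the first coordinate. -/
noncomputable def ev {n : ℕ} (f : (Fin (n + 1) → Bool) → ℝ) (x : Fin n → Bool) : ℝ :=
  (f (Fin.cons false x) + f (Fin.cons true x)) / 2

/-- The odd part in the first coordinate. -/
noncomputable def od {n : ℕ} (f : (Fin (n + 1) → Bool) → ℝ) (x : Fin n → Bool) : ℝ :=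
  (f (Fin.cons false x) - f (Fin.cons true x)) / 2

/-- The functions of degree at most `d`. -/
def LowDeg : (n d : ℕ) → ((Fin n → Bool) → ℝ) → Prop
  | 0, _, _ => True
  | n + 1, 0, f => LowDeg n 0 (ev f) ∧ ∀ x, od f x = 0
  | n + 1, d + 1, f => LowDeg n (d + 1) (ev f) ∧ LowDeg n d (od f)

/-- Hölder's inequality in the form needed here. -/
theorem holder_pow {ι : Type} [Fintype ι] [DecidableEq ι] {G H : (ι → Bool) → ℝ}
    (hG : ∀ x, 0 ≤ G x) (hH : ∀ x, 0 ≤ H x) {A B : ℝ} (hA : 0 < A) (hB : 0 < B) {q j : ℕ}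
    (hj : j ≤ q) (hq : 0 < q) (h1 : Ex (fun x => G x ^ q) ≤ A ^ q)
    (h2 : Ex (fun x => H x ^ q) ≤ B ^ q) :
    Ex (fun x => G x ^ (q - j) * H x ^ j) ≤ A ^ (q - j) * B ^ j := by
  have hq' : (0 : ℝ) < q := by exact_mod_cast hq
  have key : ∀ x, G x ^ (q - j) * H x ^ j ≤ A ^ (q - j) * B ^ j *
      (((q - j : ℕ) : ℝ) / q * (A ^ q)⁻¹ * G x ^ q + (j : ℝ) / q * (B ^ q)⁻¹ * H x ^ q) := by
    intro x
    have h3 := Real.geom_mean_le_arith_mean2_weighted (w₁ := ((q - j : ℕ) : ℝ) / q)
      (w₂ := (j : ℝ) / q) (p₁ := (G x / A) ^ q) (p₂ := (H x / B) ^ q) (by positivity)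
      (by positivity) (pow_nonneg (div_nonneg (hG x) hA.le) q)
      (pow_nonneg (div_nonneg (hH x) hB.le) q) (by
        rw [← add_div, ← Nat.cast_add, Nat.sub_add_cancel hj, div_self hq'.ne'])
    have h4 : ∀ (y : ℝ) (i : ℕ), 0 ≤ y → (y ^ q) ^ ((i : ℝ) / q) = y ^ i := by
      intro y i hy
      rw [← Real.rpow_natCast y q, ← Real.rpow_mul hy, mul_div_cancel₀ _ hq'.ne',
        Real.rpow_natCast]
    rw [h4 _ _ (div_nonneg (hG x) hA.le), h4 _ _ (div_nonneg (hH x) hB.le)] at h3
    have h5 : G x ^ (q - j) * H x ^ j =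
        A ^ (q - j) * B ^ j * ((G x / A) ^ (q - j) * (H x / B) ^ j) := by
      rw [div_pow, div_pow]
      field_simp
    rw [h5]
    refine (mul_le_mul_of_nonneg_left h3 (by positivity)).trans (le_of_eq ?_)
    rw [div_pow, div_pow]
    ring
  refine (Ex_mono key).trans ?_
  rw [Ex_mul, Ex_add, Ex_mul, Ex_mul]
  refine (mul_le_mul_of_nonneg_left (add_le_add
    (mul_le_mul_of_nonneg_left h1 (by positivity))
    (mul_le_mul_of_nonneg_left h2 (by positivity))) (by positivity)).trans (le_of_eq ?_)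
  have h6 : ((q - j : ℕ) : ℝ) / q * (A ^ q)⁻¹ * A ^ q + (j : ℝ) / q * (B ^ q)⁻¹ * B ^ q = 1 := by
    rw [mul_assoc, mul_assoc, inv_mul_cancel₀ (pow_pos hA q).ne',
      inv_mul_cancel₀ (pow_pos hB q).ne', mul_one, mul_one, ← add_div, ← Nat.cast_add,
      Nat.sub_add_cancel hj, div_self hq'.ne']
  rw [h6, mul_one]

theorem choose_two_le (q j : ℕ) : (2 * q).choose (2 * j) ≤ q.choose j * (2 * q - 1) ^ j := by
  induction j with
  | zero => simp
  | succ j ih =>
    rcases Nat.lt_or_ge q (j + 1) with hlt | hge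
    · rw [Nat.choose_eq_zero_of_lt (by omega)]
      exact Nat.zero_le _
    have h1 : (2 * q).choose (2 * j + 1) * (2 * j + 1) = (2 * q).choose (2 * j) * (2 * q - 2 * j) :=
      Nat.choose_succ_right_eq _ _
    have h2 : (2 * q).choose (2 * j + 1 + 1) * (2 * j + 1 + 1) =
        (2 * q).choose (2 * j + 1) * (2 * q - (2 * j + 1)) := Nat.choose_succ_right_eq _ _
    have h3 : q.choose (j + 1) * (j + 1) = q.choose j * (q - j) := Nat.choose_succ_right_eq _ _
    have e1 : 2 * (j + 1) = 2 * j + 1 + 1 := by ring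
    rw [e1]
    obtain ⟨r, hr⟩ : ∃ r, q = j + 1 + r := ⟨q - (j + 1), by omega⟩
    have e2 : 2 * q - 2 * j = 2 * (r + 1) := by omega
    have e3 : 2 * q - (2 * j + 1) = 2 * r + 1 := by omega
    have e4 : q - j = r + 1 := by omega
    have e5 : 2 * r + 1 ≤ 2 * q - 1 := by omega
    rw [e2] at h1
    rw [e3] at h2
    rw [e4] at h3
    refine Nat.le_of_mul_le_mul_right (c := (2 * j + 1) * (2 * (j + 1))) ?_ (by positivity)
    calc (2 * q).choose (2 * j + 1 + 1) * ((2 * j + 1) * (2 * (j + 1)))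
        = (2 * q).choose (2 * j + 1 + 1) * (2 * j + 1 + 1) * (2 * j + 1) := by ring
      _ = (2 * q).choose (2 * j + 1) * (2 * j + 1) * (2 * r + 1) := by rw [h2]; ring
      _ = (2 * q).choose (2 * j) * (2 * (r + 1)) * (2 * r + 1) := by rw [h1]
      _ ≤ (q.choose j * (2 * q - 1) ^ j) * (2 * (r + 1)) * (2 * q - 1) :=
          Nat.mul_le_mul (Nat.mul_le_mul_right _ ih) e5
      _ = (q.choose j * (r + 1)) * (2 * q - 1) ^ (j + 1) * 2 := by ring
      _ = (q.choose (j + 1) * (j + 1)) * (2 * q - 1) ^ (j + 1) * 2 := by rw [h3]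
      _ = q.choose (j + 1) * (2 * q - 1) ^ (j + 1) * (1 * (2 * (j + 1))) := by ring
      _ ≤ q.choose (j + 1) * (2 * q - 1) ^ (j + 1) * ((2 * j + 1) * (2 * (j + 1))) :=
          Nat.mul_le_mul_left _ (Nat.mul_le_mul_right _ (by omega))

theorem sum_even_odd (F : ℕ → ℝ) (q : ℕ) : ∑ i ∈ range (2 * q + 1), F i =
    ∑ j ∈ range (q + 1), F (2 * j) + ∑ j ∈ range q, F (2 * j + 1) := by
  induction q with
  | zero => simp
  | succ q ih =>
    have h : 2 * (q + 1) + 1 = 2 * q + 1 + 1 + 1 := by ring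
    have h2 : 2 * q + 1 + 1 = 2 * (q + 1) := by ring
    have h3 : ∑ j ∈ range (q + 1 + 1), F (2 * j) =
        ∑ j ∈ range (q + 1), F (2 * j) + F (2 * (q + 1)) := sum_range_succ _ _
    have h4 : ∑ j ∈ range (q + 1), F (2 * j + 1) =
        ∑ j ∈ range q, F (2 * j + 1) + F (2 * q + 1) := sum_range_succ _ _
    rw [h, sum_range_succ, sum_range_succ, ih, h3, h4, h2]
    ring

/-- The two point inequality. -/
theorem two_point (a b : ℝ) (q : ℕ) : ((a + b) ^ (2 * q) + (a - b) ^ (2 * q)) / 2 ≤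
    ∑ j ∈ range (q + 1), (q.choose j : ℝ) * ((2 * q - 1 : ℕ) : ℝ) ^ j *
      ((a ^ 2) ^ (q - j) * (b ^ 2) ^ j) := by
  have h1 : ((a + b) ^ (2 * q) + (a - b) ^ (2 * q)) / 2 =
      ∑ j ∈ range (q + 1), ((2 * q).choose (2 * j) : ℝ) * ((a ^ 2) ^ (q - j) * (b ^ 2) ^ j) := by
    have h2 : (a + b) ^ (2 * q) = ∑ i ∈ range (2 * q + 1),
        b ^ i * a ^ (2 * q - i) * ((2 * q).choose i : ℝ) := by
      rw [add_comm, add_pow]
    have h3 : (a - b) ^ (2 * q) = ∑ i ∈ range (2 * q + 1),
        (-b) ^ i * a ^ (2 * q - i) * ((2 * q).choose i : ℝ) := by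
      rw [sub_eq_add_neg, add_comm, add_pow]
    rw [h2, h3, sum_even_odd, sum_even_odd]
    have h4 : ∑ j ∈ range q, (-b) ^ (2 * j + 1) * a ^ (2 * q - (2 * j + 1)) *
        ((2 * q).choose (2 * j + 1) : ℝ) =
        -∑ j ∈ range q, b ^ (2 * j + 1) * a ^ (2 * q - (2 * j + 1)) *
        ((2 * q).choose (2 * j + 1) : ℝ) := by
      rw [← sum_neg_distrib]
      refine sum_congr rfl fun j _ => ?_
      rw [pow_succ, pow_mul, neg_sq, ← pow_mul, pow_succ]
      ring
    have h5 : ∑ j ∈ range (q + 1), (-b) ^ (2 * j) * a ^ (2 * q - 2 * j) *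
        ((2 * q).choose (2 * j) : ℝ) =
        ∑ j ∈ range (q + 1), b ^ (2 * j) * a ^ (2 * q - 2 * j) *
        ((2 * q).choose (2 * j) : ℝ) := by
      refine sum_congr rfl fun j _ => ?_
      rw [pow_mul, neg_sq, ← pow_mul]
    rw [h4, h5]
    have h6 : ∀ X Y : ℝ, (X + Y + (X + -Y)) / 2 = X := fun X Y => by ring
    rw [h6]
    refine sum_congr rfl fun j hj => ?_
    have hj' : j ≤ q := Nat.lt_succ_iff.1 (mem_range.1 hj)
    have h7 : 2 * q - 2 * j = 2 * (q - j) := by omega
    rw [h7, pow_mul, pow_mul]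
    ring
  rw [h1]
  refine sum_le_sum fun j _ => mul_le_mul_of_nonneg_right ?_ (by positivity)
  exact_mod_cast choose_two_le q j

theorem f_cons {n : ℕ} (f : (Fin (n + 1) → Bool) → ℝ) (x : Fin n → Bool) :
    f (Fin.cons false x) = ev f x + od f x ∧ f (Fin.cons true x) = ev f x - od f x := by
  unfold ev od
  constructor <;> ring

theorem Ex_sq_cons {n : ℕ} (f : (Fin (n + 1) → Bool) → ℝ) :
    Ex (fun x => f x ^ 2) = Ex (fun x => ev f x ^ 2) + Ex (fun x => od f x ^ 2) := by
  rw [Ex_cons, ← Ex_add]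
  congr 1
  funext x
  rw [(f_cons f x).1, (f_cons f x).2]
  ring

/-- **Moments of polynomials of small degree.** -/
theorem hyper {q : ℕ} (hq : 0 < q) : ∀ (n d : ℕ) (f : (Fin n → Bool) → ℝ), LowDeg n d f →
    Ex (fun x => f x ^ (2 * q)) ≤ (((2 * q - 1 : ℕ) : ℝ) ^ d * Ex (fun x => f x ^ 2)) ^ q := by
  obtain ⟨c, hc⟩ : ∃ c, c = ((2 * q - 1 : ℕ) : ℝ) := ⟨_, rfl⟩
  have hc1 : 1 ≤ c := by
    rw [hc]
    exact_mod_cast (by omega : 1 ≤ 2 * q - 1)
  have hc0 : 0 < c := by linarith
  rw [← hc]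
  intro n
  induction n with
  | zero =>
    intro d f _
    have h0 : ∀ g : (Fin 0 → Bool) → ℝ, Ex g = g Fin.elim0 := by
      intro g
      have h1 : g = fun _ => g Fin.elim0 := by
        funext x
        congr 1
        exact Subsingleton.elim _ _
      rw [h1, Ex_const]
    rw [h0, h0, pow_mul]
    refine pow_le_pow_left₀ (sq_nonneg _) ?_ q
    have h2 : 1 ≤ c ^ d := one_le_pow₀ hc1
    nlinarith [sq_nonneg (f Fin.elim0)]
  | succ n ih =>
    intro d f hf
    obtain ⟨hg, hh⟩ : Ex (fun x => ev f x ^ (2 * q)) ≤ (c ^ d * Ex (fun x => ev f x ^ 2)) ^ q ∧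
        Ex (fun x => od f x ^ (2 * q)) ≤ (c ^ d * (c⁻¹ * Ex (fun x => od f x ^ 2))) ^ q := by
      cases d with
      | zero =>
        obtain ⟨h1, h2⟩ := hf
        refine ⟨ih 0 _ h1, ?_⟩
        have h3 : (fun x => od f x ^ (2 * q)) = fun _ => 0 := by
          funext x
          rw [h2 x, zero_pow (by omega)]
        rw [h3, Ex_const]
        refine pow_nonneg (mul_nonneg (by positivity) (mul_nonneg (by positivity) ?_)) _
        exact Ex_nonneg fun x => sq_nonneg _
      | succ d =>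
        obtain ⟨h1, h2⟩ := hf
        refine ⟨ih (d + 1) _ h1, ?_⟩
        have h3 := ih d _ h2
        have h4 : c ^ (d + 1) * (c⁻¹ * Ex (fun x => od f x ^ 2)) =
            c ^ d * Ex (fun x => od f x ^ 2) := by
          rw [pow_succ]
          field_simp
        rw [h4]
        exact h3
    obtain ⟨A, hA⟩ : ∃ A, A = c ^ d * Ex (fun x => ev f x ^ 2) := ⟨_, rfl⟩
    obtain ⟨B, hB⟩ : ∃ B, B = c ^ d * Ex (fun x => od f x ^ 2) := ⟨_, rfl⟩
    have hA0 : 0 ≤ A := by
      rw [hA]
      exact mul_nonneg (by positivity) (Ex_nonneg fun x => sq_nonneg _)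
    have hB0 : 0 ≤ B := by
      rw [hB]
      exact mul_nonneg (by positivity) (Ex_nonneg fun x => sq_nonneg _)
    have hAB : c ^ d * Ex (fun x => f x ^ 2) = A + B := by
      rw [Ex_sq_cons, hA, hB, mul_add]
    have hh' : Ex (fun x => od f x ^ (2 * q)) ≤ (c⁻¹ * B) ^ q := by
      have h4 : c⁻¹ * B = c ^ d * (c⁻¹ * Ex (fun x => od f x ^ 2)) := by
        rw [hB]
        ring
      rw [h4]
      exact hh
    rw [← hA] at hg
    rw [hAB]
    -- reduce to positive bounds
    have key : ∀ A' B' : ℝ, 0 < A' → 0 < B' → A ≤ A' → B ≤ B' →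
        Ex (fun x => f x ^ (2 * q)) ≤ (A' + B') ^ q := by
      intro A' B' hA' hB' hAA hBB
      have hg1 : Ex (fun x => (ev f x ^ 2) ^ q) ≤ A' ^ q := by
        simp only [← pow_mul]
        exact hg.trans (pow_le_pow_left₀ hA0 hAA q)
      have hh1 : Ex (fun x => (od f x ^ 2) ^ q) ≤ (c⁻¹ * B') ^ q := by
        simp only [← pow_mul]
        exact hh'.trans (pow_le_pow_left₀ (mul_nonneg (by positivity) hB0)
          (mul_le_mul_of_nonneg_left hBB (by positivity)) q)
      have hcB : 0 < c⁻¹ * B' := by positivity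
      calc Ex (fun x => f x ^ (2 * q))
          = Ex (fun x => ((ev f x + od f x) ^ (2 * q) + (ev f x - od f x) ^ (2 * q)) / 2) := by
            rw [Ex_cons]
            congr 1
            funext x
            rw [(f_cons f x).1, (f_cons f x).2]
        _ ≤ Ex (fun x => ∑ j ∈ range (q + 1), (q.choose j : ℝ) * c ^ j *
              ((ev f x ^ 2) ^ (q - j) * (od f x ^ 2) ^ j)) := by
            refine Ex_mono fun x => ?_
            rw [hc]
            exact two_point _ _ _
        _ = ∑ j ∈ range (q + 1), (q.choose j : ℝ) * c ^ j *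
              Ex (fun x => (ev f x ^ 2) ^ (q - j) * (od f x ^ 2) ^ j) := by
            rw [Ex_sum]
            refine sum_congr rfl fun j _ => ?_
            rw [Ex_mul]
        _ ≤ ∑ j ∈ range (q + 1), (q.choose j : ℝ) * c ^ j *
              (A' ^ (q - j) * (c⁻¹ * B') ^ j) := by
            refine sum_le_sum fun j hj => mul_le_mul_of_nonneg_left ?_ (by positivity)
            exact holder_pow (fun x => sq_nonneg _) (fun x => sq_nonneg _) hA' hcB
              (Nat.lt_succ_iff.1 (mem_range.1 hj)) hq hg1 hh1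
        _ = ∑ j ∈ range (q + 1), B' ^ j * A' ^ (q - j) * (q.choose j : ℝ) := by
            refine sum_congr rfl fun j _ => ?_
            rw [mul_pow, inv_pow]
            have : c ^ j * (c ^ j)⁻¹ = 1 := mul_inv_cancel₀ (pow_pos hc0 j).ne'
            calc (q.choose j : ℝ) * c ^ j * (A' ^ (q - j) * ((c ^ j)⁻¹ * B' ^ j))
                = (c ^ j * (c ^ j)⁻¹) * (B' ^ j * A' ^ (q - j) * (q.choose j : ℝ)) := by ring
              _ = _ := by rw [this, one_mul]
        _ = (A' + B') ^ q := by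
            rw [add_comm A' B', add_pow]
    refine le_of_forall_pos_le_add fun ε hε => ?_
    have hcont : Filter.Tendsto (fun δ : ℝ => (A + δ + (B + δ)) ^ q) (nhdsWithin 0 (Set.Ioi 0))
        (nhds ((A + 0 + (B + 0)) ^ q)) := by
      refine Filter.Tendsto.mono_left ?_ nhdsWithin_le_nhds
      refine Continuous.tendsto ?_ 0
      fun_prop
    have hlt : (A + 0 + (B + 0)) ^ q < (A + B) ^ q + ε := by
      rw [add_zero, add_zero]
      linarith
    have h8 := hcont.eventually (gt_mem_nhds hlt)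
    obtain ⟨δ, hδ1, hδ2⟩ := (h8.and self_mem_nhdsWithin).exists
    exact (key (A + δ) (B + δ) (by
      have : 0 < δ := hδ2
      linarith) (by
      have : 0 < δ := hδ2
      linarith) (by
      have : 0 < δ := hδ2
      linarith) (by
      have : 0 < δ := hδ2
      linarith)).trans hδ1.le

end Pool.Agent.MP_9cec2c_lc.Flat
end

section

/-!
The tail of a quadratic form in independent signs.
-/

set_option autoImplicit false
set_option linter.unusedSectionVars false

namespace Pool.Agent.MP_9cec2c_lc.Flat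

open Finset

/-- A quadratic form in signs. -/
noncomputable def quad {n : ℕ} (M : Fin n → Fin n → ℝ) (x : Fin n → Bool) : ℝ :=
  ∑ u, ∑ w, M u w * (sg (x u) * sg (x w))

/-- A linear form in signs. -/
noncomputable def lin {n : ℕ} (b : Fin n → ℝ) (x : Fin n → Bool) : ℝ := ∑ u, b u * sg (x u)

theorem lin_cons {n : ℕ} (b : Fin (n + 1) → ℝ) (s : Bool) (x : Fin n → Bool) :
    lin b (Fin.cons s x) = b 0 * sg s + lin (fun u => b u.succ) x := by
  unfold lin
  rw [Fin.sum_univ_succ]
  simp only [Fin.cons_zero, Fin.cons_succ]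

theorem quad_cons {n : ℕ} (M : Fin (n + 1) → Fin (n + 1) → ℝ) (s : Bool) (x : Fin n → Bool) :
    quad M (Fin.cons s x) = M 0 0 + sg s * lin (fun w => M 0 w.succ + M w.succ 0) x +
      quad (fun u w => M u.succ w.succ) x := by
  unfold quad lin
  rw [Fin.sum_univ_succ, Fin.sum_univ_succ]
  simp only [Fin.cons_zero, Fin.cons_succ, Fin.sum_univ_succ, sum_add_distrib, mul_sum, add_mul,
    mul_add]
  have h1 : M 0 0 * (sg s * sg s) = M 0 0 := by rw [sg_mul_self, mul_one]
  have h2 : ∑ i : Fin n, M 0 i.succ * (sg s * sg (x i)) =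
      ∑ i : Fin n, sg s * (M 0 i.succ * sg (x i)) := sum_congr rfl fun i _ => by ring
  have h3 : ∑ i : Fin n, M i.succ 0 * (sg (x i) * sg s) =
      ∑ i : Fin n, sg s * (M i.succ 0 * sg (x i)) := sum_congr rfl fun i _ => by ring
  rw [h1, h2, h3]
  ring

theorem LowDeg_const (c : ℝ) : ∀ n d : ℕ, LowDeg n d (fun _ => c) := by
  intro n
  induction n with
  | zero => intro d; trivial
  | succ n ih =>
    have h1 : ev (fun _ : Fin (n + 1) → Bool => c) = fun _ => c := by
      funext x
      unfold ev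
      ring
    have h2 : od (fun _ : Fin (n + 1) → Bool => c) = fun _ => 0 := by
      funext x
      unfold od
      ring
    intro d
    cases d with
    | zero =>
      refine ⟨?_, fun x => congrFun h2 x⟩
      rw [h1]
      exact ih 0
    | succ d =>
      have h0 : ∀ (m e : ℕ), LowDeg m e (fun _ => 0) := by
        intro m
        induction m with
        | zero => intro e; trivial
        | succ m ihm =>
          intro e
          have h3 : ev (fun _ : Fin (m + 1) → Bool => (0 : ℝ)) = fun _ => 0 := by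
            funext x
            unfold ev
            ring
          have h4 : od (fun _ : Fin (m + 1) → Bool => (0 : ℝ)) = fun _ => 0 := by
            funext x
            unfold od
            ring
          cases e with
          | zero =>
            refine ⟨?_, fun x => congrFun h4 x⟩
            rw [h3]
            exact ihm 0
          | succ e =>
            refine ⟨?_, ?_⟩
            · rw [h3]
              exact ihm _
            · rw [h4]
              exact ihm _
      refine ⟨?_, ?_⟩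
      · rw [h1]
        exact ih _
      · rw [h2]
        exact h0 _ _

theorem ev_lin {n : ℕ} (b : Fin (n + 1) → ℝ) : ev (lin b) = lin fun u => b u.succ := by
  funext x
  unfold ev
  rw [lin_cons, lin_cons, sg_true, sg_false]
  ring

theorem od_lin {n : ℕ} (b : Fin (n + 1) → ℝ) : od (lin b) = fun _ => b 0 := by
  funext x
  unfold od
  rw [lin_cons, lin_cons, sg_true, sg_false]
  ring

theorem LowDeg_lin : ∀ (n : ℕ) (b : Fin n → ℝ), LowDeg n 1 (lin b) := by
  intro n
  induction n with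
  | zero => intro b; trivial
  | succ n ih =>
    intro b
    refine ⟨?_, ?_⟩
    · rw [ev_lin]
      exact ih _
    · rw [od_lin]
      exact LowDeg_const _ _ _

theorem ev_quad {n : ℕ} (M : Fin (n + 1) → Fin (n + 1) → ℝ) (h0 : M 0 0 = 0) :
    ev (quad M) = quad fun u w => M u.succ w.succ := by
  funext x
  unfold ev
  rw [quad_cons, quad_cons, sg_true, sg_false, h0]
  ring

theorem od_quad {n : ℕ} (M : Fin (n + 1) → Fin (n + 1) → ℝ) :
    od (quad M) = lin fun w => M 0 w.succ + M w.succ 0 := by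
  funext x
  unfold od
  rw [quad_cons, quad_cons, sg_true, sg_false]
  ring

theorem LowDeg_quad : ∀ (n : ℕ) (M : Fin n → Fin n → ℝ), (∀ u, M u u = 0) →
    LowDeg n 2 (quad M) := by
  intro n
  induction n with
  | zero => intro M _; trivial
  | succ n ih =>
    intro M h0
    refine ⟨?_, ?_⟩
    · rw [ev_quad M (h0 0)]
      exact ih _ fun u => h0 _
    · rw [od_quad]
      exact LowDeg_lin _ _

theorem Ex_lin_sq : ∀ (n : ℕ) (b : Fin n → ℝ), Ex (fun x => lin b x ^ 2) = ∑ u, b u ^ 2 := by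
  intro n
  induction n with
  | zero =>
    intro b
    have h : (fun x : Fin 0 → Bool => lin b x ^ 2) = fun _ => 0 := by
      funext x
      unfold lin
      simp
    rw [h, Ex_const]
    simp
  | succ n ih =>
    intro b
    rw [Ex_sq_cons, ev_lin, od_lin, ih, Ex_const, Fin.sum_univ_succ, add_comm]

theorem Ex_quad_sq : ∀ (n : ℕ) (M : Fin n → Fin n → ℝ), (∀ u, M u u = 0) →
    Ex (fun x => quad M x ^ 2) ≤ 2 * ∑ u, ∑ w, M u w ^ 2 := by
  intro n
  induction n with
  | zero =>
    intro M _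
    have h : (fun x : Fin 0 → Bool => quad M x ^ 2) = fun _ => 0 := by
      funext x
      unfold quad
      simp
    rw [h, Ex_const]
    simp
  | succ n ih =>
    intro M h0
    rw [Ex_sq_cons, ev_quad M (h0 0), od_quad, Ex_lin_sq]
    have h1 := ih (fun u w => M u.succ w.succ) fun u => h0 _
    have h2 : ∑ w : Fin n, (M 0 w.succ + M w.succ 0) ^ 2 ≤
        2 * (∑ w : Fin n, M 0 w.succ ^ 2 + ∑ w : Fin n, M w.succ 0 ^ 2) := by
      rw [← sum_add_distrib, mul_sum]
      refine sum_le_sum fun w _ => ?_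
      nlinarith [sq_nonneg (M 0 w.succ - M w.succ 0)]
    have h3 : ∑ u : Fin (n + 1), ∑ w : Fin (n + 1), M u w ^ 2 =
        M 0 0 ^ 2 + ∑ w : Fin n, M 0 w.succ ^ 2 + (∑ w : Fin n, M w.succ 0 ^ 2 +
          ∑ u : Fin n, ∑ w : Fin n, M u.succ w.succ ^ 2) := by
      rw [Fin.sum_univ_succ, Fin.sum_univ_succ, ← sum_add_distrib]
      congr 1
      refine sum_congr rfl fun u _ => ?_
      rw [Fin.sum_univ_succ]
    rw [h3]
    nlinarith [sq_nonneg (M 0 0)]

/-- Markov's inequality for even moments. -/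
theorem card_tail {n : ℕ} (f : (Fin n → Bool) → ℝ) {t : ℝ} (ht : 0 < t) (q : ℕ) :
    ((univ.filter fun x : Fin n → Bool => t < f x ^ 2).card : ℝ) * t ^ q ≤
      2 ^ n * Ex (fun x => f x ^ (2 * q)) := by
  classical
  unfold Ex
  rw [Fintype.card_fin, mul_div_cancel₀ _ (by positivity : (2 : ℝ) ^ n ≠ 0), ← nsmul_eq_mul,
    ← sum_const]
  refine (sum_le_sum (g := fun x => f x ^ (2 * q)) fun x hx => ?_).trans
    (sum_le_sum_of_subset_of_nonneg (filter_subset _ _) fun x _ _ => ?_)
  · rw [pow_mul]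
    exact pow_le_pow_left₀ ht.le (mem_filter.1 hx).2.le q
  · rw [pow_mul]
    exact pow_nonneg (sq_nonneg _) q

/-- **The tail of a quadratic form in signs.** -/
theorem quad_tail {n : ℕ} (M : Fin n → Fin n → ℝ) (h0 : ∀ u, M u u = 0) {H : ℝ}
    (hH : ∑ u, ∑ w, M u w ^ 2 ≤ H) {q : ℕ} (hq : 0 < q) :
    ((univ.filter fun x : Fin n → Bool => (6 * q : ℝ) ^ 2 * H < quad M x ^ 2).card : ℝ) ≤
      2 ^ n * (2 / 9) ^ q := by
  classical
  have hS0 : 0 ≤ ∑ u, ∑ w, M u w ^ 2 :=
    sum_nonneg fun u _ => sum_nonneg fun w _ => sq_nonneg _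
  have hq' : (1 : ℝ) ≤ q := by exact_mod_cast hq
  rcases hS0.trans hH |>.eq_or_lt with hz | hpos
  · -- the form is zero
    have hM : ∀ u w, M u w = 0 := by
      intro u w
      have h1 : ∑ u, ∑ w, M u w ^ 2 = 0 := le_antisymm (hH.trans hz.symm.le) hS0
      have h2 := (sum_eq_zero_iff_of_nonneg fun u _ => sum_nonneg fun w _ =>
        sq_nonneg (M u w)).1 h1 u (mem_univ u)
      have h3 := (sum_eq_zero_iff_of_nonneg fun w _ => sq_nonneg (M u w)).1 h2 w (mem_univ w)
      exact pow_eq_zero_iff (two_ne_zero) |>.1 h3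
    have h4 : (univ.filter fun x : Fin n → Bool => (6 * q : ℝ) ^ 2 * H < quad M x ^ 2) = ∅ := by
      refine filter_eq_empty_iff.2 fun x _ => ?_
      have h5 : quad M x = 0 := by
        unfold quad
        refine sum_eq_zero fun u _ => sum_eq_zero fun w _ => ?_
        rw [hM, zero_mul]
      rw [h5, ← hz]
      norm_num
    rw [h4, card_empty, Nat.cast_zero]
    positivity
  · obtain ⟨t, ht⟩ : ∃ t : ℝ, t = (6 * q : ℝ) ^ 2 * H := ⟨_, rfl⟩
    have ht0 : 0 < t := by
      rw [ht]
      positivity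
    rw [← ht]
    have h1 := card_tail (quad M) ht0 q
    have h2 := hyper hq n 2 _ (LowDeg_quad n M h0)
    have h3 : ((2 * q - 1 : ℕ) : ℝ) ≤ 2 * q := by
      have : 2 * q - 1 ≤ 2 * q := by omega
      exact_mod_cast this
    have h4 : ((2 * q - 1 : ℕ) : ℝ) ^ 2 * Ex (fun x => quad M x ^ 2) ≤ 2 / 9 * t := by
      have h5 := Ex_quad_sq n M h0
      have h6 : ((2 * q - 1 : ℕ) : ℝ) ^ 2 ≤ (2 * q : ℝ) ^ 2 :=
        pow_le_pow_left₀ (Nat.cast_nonneg _) h3 2
      calc ((2 * q - 1 : ℕ) : ℝ) ^ 2 * Ex (fun x => quad M x ^ 2)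
          ≤ (2 * q : ℝ) ^ 2 * (2 * H) :=
            mul_le_mul h6 (h5.trans (by linarith)) (Ex_nonneg fun x => sq_nonneg _) (by positivity)
        _ = 2 / 9 * t := by
            rw [ht]
            ring
    have h5 : (0 : ℝ) ≤ ((2 * q - 1 : ℕ) : ℝ) ^ 2 * Ex (fun x => quad M x ^ 2) :=
      mul_nonneg (by positivity) (Ex_nonneg fun x => sq_nonneg _)
    have h6 := h2.trans (pow_le_pow_left₀ h5 h4 q)
    rw [mul_pow] at h6
    refine le_of_mul_le_mul_right ?_ (pow_pos ht0 q)
    calc _ ≤ 2 ^ n * Ex (fun x => quad M x ^ (2 * q)) := h1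
      _ ≤ 2 ^ n * ((2 / 9) ^ q * t ^ q) := mul_le_mul_of_nonneg_left h6 (by positivity)
      _ = _ := by ring

end Pool.Agent.MP_9cec2c_lc.Flat
end

section

/-!
FLAT, random matrices, part 4: numbers. The error in the self-consistent equation.
-/

namespace Pool.Agent.MP_9cec2c_lc.Flat

open Finset Matrix

/-- The error in the self-consistent equation is small. `y = p ^ 2 / n`. -/
theorem self_bound {n p K y t s h g d : ℝ} (hn : 0 < n) (hK : 1 ≤ K) (hp : 100 * K ≤ p)
    (hy : y = p ^ 2 / n) (hyt : y ≤ t) (ht : t ≤ 21 / 10 * n) (hh0 : 0 ≤ h)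
    (hh : h ^ 2 ≤ (s + 2 / y) / y) (hg : 0 < g) (hd : d ≤ 6 / 5 / y * g)
    (hstar : |1 / g - (t - s)| ≤ K * h + (K + 1) * (d / g) + K / t) :
    s ≤ 22 / 10 * n ∧ |1 / g - (t - s)| ≤ (2 * K / p) * n := by
  have hp0 : 0 < p := by linarith
  have hK0 : 0 < K := by linarith
  have hy0 : 0 < y := by rw [hy]; positivity
  have hyinv : 1 / y = n / p ^ 2 := by rw [hy]; field_simp
  -- the small quantity `x = n / p^2`
  set x := n / p ^ 2 with hx
  have hx0 : 0 < x := by positivity
  have hxp : x * p ^ 2 = n := by rw [hx]; field_simp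
  have hpp : 100 * K * (100 * K) ≤ p ^ 2 := by
    rw [sq]
    exact mul_le_mul hp hp (by positivity) hp0.le
  have hK2x : 10000 * K ^ 2 * x ≤ n := by
    rw [← hxp]
    have : 10000 * K ^ 2 * x = (100 * K * (100 * K)) * x := by ring
    rw [this, mul_comm x]
    exact mul_le_mul_of_nonneg_right hpp hx0.le
  have hKx : 10000 * K * x ≤ n := by
    have h1 : K ≤ K ^ 2 := by
      rw [sq]; exact le_mul_of_one_le_left hK0.le hK
    have h2 : 10000 * K * x ≤ 10000 * K ^ 2 * x := by
      have := mul_le_mul_of_nonneg_right h1 hx0.le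
      linarith
    linarith
  have hxn : 10000 * x ≤ n := by
    have h1 : x ≤ K * x := le_mul_of_one_le_left hx0.le hK
    linarith
  have hh2 : h ^ 2 ≤ (s + 2 * x) * x := by
    have : (s + 2 / y) / y = (s + 2 * (1 / y)) * (1 / y) := by ring
    rw [this, hyinv] at hh
    exact hh
  have hdg : d / g ≤ 6 / 5 * x := by
    rw [div_le_iff₀ hg]
    have : 6 / 5 / y * g = 6 / 5 * (1 / y) * g := by ring
    rw [this, hyinv] at hd
    exact hd
  have hKt : K / t ≤ K * x := by
    rw [← hyinv, div_eq_mul_one_div]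
    exact mul_le_mul_of_nonneg_left (one_div_le_one_div_of_le hy0 hyt) (by linarith)
  have hsx : 0 ≤ s + 2 * x := by
    by_contra hcon
    push Not at hcon
    have h1 : (s + 2 * x) * x < 0 := mul_neg_of_neg_of_pos hcon hx0
    have h2 := sq_nonneg h
    linarith
  have hstar2 : |1 / g - (t - s)| ≤ K * h + (17 / 5 * K) * x := by
    have h1 : (K + 1) * (d / g) ≤ (K + 1) * (6 / 5 * x) :=
      mul_le_mul_of_nonneg_left hdg (by linarith)
    have h2 : x ≤ K * x := le_mul_of_one_le_left hx0.le hK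
    have h3 : (K + 1) * (6 / 5 * x) = 6 / 5 * (K * x) + 6 / 5 * x := by ring
    have h4 : (17 / 5 * K) * x = 17 / 5 * (K * x) := by ring
    rw [h4]
    rw [h3] at h1
    linarith
  have hpos : 0 < 1 / g := by positivity
  have hs1 : s - t < K * h + (17 / 5 * K) * x := by
    have h1 := (abs_le.1 hstar2).2
    linarith
  -- `K h ≤ (s + 2x + n) / 200`
  have hKh : K * h ≤ (s + 2 * x + n) / 200 := by
    have h1 : (K * h) ^ 2 ≤ ((s + 2 * x + n) / 200) ^ 2 := by
      have h2 : (K * h) ^ 2 ≤ K ^ 2 * ((s + 2 * x) * x) := by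
        rw [mul_pow]
        exact mul_le_mul_of_nonneg_left hh2 (sq_nonneg _)
      have h3 : K ^ 2 * x ≤ n / 10000 := by linarith
      have h5 : K ^ 2 * ((s + 2 * x) * x) ≤ (s + 2 * x) * (n / 10000) := by
        have : K ^ 2 * ((s + 2 * x) * x) = (s + 2 * x) * (K ^ 2 * x) := by ring
        rw [this]
        exact mul_le_mul_of_nonneg_left h3 hsx
      have h6 : (s + 2 * x) * (n / 10000) ≤ ((s + 2 * x + n) / 200) ^ 2 := by
        have h7 : ((s + 2 * x + n) / 200) ^ 2 - (s + 2 * x) * (n / 10000)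
            = (s + 2 * x - n) ^ 2 / 40000 := by ring
        have h8 : 0 ≤ (s + 2 * x - n) ^ 2 / 40000 := by positivity
        linarith
      linarith
    exact (abs_le_of_sq_le_sq' h1 (by linarith)).2
  have h17 : (17 / 5 * K) * x ≤ n / 2000 := by
    have : (17 / 5 * K) * x = 17 / 5 * (K * x) := by ring
    rw [this]
    have h2 : 10000 * (K * x) ≤ n := by linarith
    linarith
  have hs : s ≤ 22 / 10 * n := by linarith
  refine ⟨hs, hstar2.trans ?_⟩
  -- final error
  have hz : n / p = x * p := by rw [hx]; field_simp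
  have h1 : h ≤ 3 / 2 * (n / p) := by
    have h2 : h ^ 2 ≤ (3 / 2 * (n / p)) ^ 2 := by
      have h3 : (3 / 2 * (n / p)) ^ 2 = 9 / 4 * n * x := by
        rw [hz]
        have : (3 / 2 * (x * p)) ^ 2 = 9 / 4 * (x * p ^ 2) * x := by ring
        rw [this, hxp]
      rw [h3]
      have h4 : (s + 2 * x) * x ≤ (9 / 4 * n) * x :=
        mul_le_mul_of_nonneg_right (by linarith) hx0.le
      linarith
    exact (abs_le_of_sq_le_sq' h2 (by positivity)).2
  have h2 : (17 / 5 * K) * x ≤ 1 / 2 * K * (n / p) := by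
    rw [hz]
    have h3 : 0 < K * x := by positivity
    have h4 : (17 / 5 * K) * x = 17 / 5 * (K * x) := by ring
    have h5 : 1 / 2 * K * (x * p) = 1 / 2 * p * (K * x) := by ring
    rw [h4, h5]
    exact mul_le_mul_of_nonneg_right (by linarith) h3.le
  have h3 : (2 * K / p) * n = K * (3 / 2 * (n / p)) + 1 / 2 * K * (n / p) := by ring
  have h4 : K * h ≤ K * (3 / 2 * (n / p)) := mul_le_mul_of_nonneg_left h1 hK0.le
  rw [h3]
  linarith

end Pool.Agent.MP_9cec2c_lc.Flat
end

section

/-!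
Finite fields of characteristic `p` with a primitive `r`-th root of unity, `r` prime to `p`.
-/

set_option autoImplicit false

namespace Pool.Agent.MP_9cec2c_lc.Flat

/-- For every prime `p` and every `r` prime to `p` there is a finite field of characteristic `p` with a
primitive `r`-th root of unity. -/
theorem exists_field (p r : ℕ) [Fact p.Prime] (hr : 0 < r) (h : Nat.Coprime p r) :
    ∃ (K : Type) (_ : Field K) (_ : Fintype K) (_ : CharP K p) (ω : K), IsPrimitiveRoot ω r := by
  classical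
  have h0 : Nat.totient r ≠ 0 := (Nat.totient_pos.2 hr).ne'
  letI : Fintype (GaloisField p (Nat.totient r)) := Fintype.ofFinite _
  refine ⟨GaloisField p (Nat.totient r), inferInstance, inferInstance, inferInstance, ?_⟩
  obtain ⟨g, hg⟩ := IsCyclic.exists_generator (α := (GaloisField p (Nat.totient r))ˣ)
  have hc : Fintype.card (GaloisField p (Nat.totient r)) = p ^ Nat.totient r := by
    rw [← Nat.card_eq_fintype_card]
    exact GaloisField.card p _ h0
  have hord : orderOf g = p ^ Nat.totient r - 1 := by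
    rw [orderOf_eq_card_of_forall_mem_zpowers hg, Nat.card_eq_fintype_card, Fintype.card_units, hc]
  have hdvd : r ∣ p ^ Nat.totient r - 1 := by
    have h1 := Nat.ModEq.pow_totient h
    exact (Nat.modEq_iff_dvd' (Nat.one_le_pow _ _ (Fact.out : p.Prime).pos)).1 h1.symm
  obtain ⟨k, hk⟩ := hdvd
  have hprim : IsPrimitiveRoot g (p ^ Nat.totient r - 1) := by
    rw [← hord]
    exact IsPrimitiveRoot.orderOf g
  have hpos : 0 < p ^ Nat.totient r - 1 := by
    have h1 : 1 < p ^ Nat.totient r := Nat.one_lt_pow h0 (Fact.out : p.Prime).one_lt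
    omega
  have h2 : IsPrimitiveRoot (g ^ k) r := hprim.pow hpos (by rw [hk, mul_comm])
  exact ⟨((g ^ k : (GaloisField p (Nat.totient r))ˣ) : GaloisField p (Nat.totient r)),
    IsPrimitiveRoot.coe_units_iff.2 h2⟩

end Pool.Agent.MP_9cec2c_lc.Flat
end
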