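import Mathlib
import Pool.Agent.Lib.MP_9cec2c_lc.CDDefs
import Pool.Agent.Lib.MP_9cec2c_lc.Mg.G002

section

/-!
FLAT, configurations: symmetric sign matrices of size `N` with zero diagonal, coded by functions
`Edge N → ZMod 2` on the edges `{u,w}`, `u < w`, of the complete graph `K_N`; the moves
(flip of one entry, flip of an initial segment of a row).
-/

namespace Pool.Agent.MP_9cec2c_lc.Flat

/-- Configurations: a sign `(-1)^(a e)` on every edge. -/
abbrev Cfg (N : ℕ) : Type := Edge N → ZMod 2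

/-- The sign `(-1)^z`. -/
def sgn2 (z : ZMod 2) : ℝ := if z = 0 then 1 else -1

/-- The symmetric sign matrix of a configuration (zero diagonal). -/
def Smat {N : ℕ} (a : Cfg N) : Matrix (Fin N) (Fin N) ℝ :=
  fun u w => if h : u = w then 0 else sgn2 (a (mkEdge u w h))

/-- The flip of the entries `{v,u}`, `u ∈ A`, of row (and column) `v`. -/
def mvRow {N : ℕ} (v : Fin N) (A : Finset (Fin N)) : Cfg N :=
  fun e => if (e.1.1 = v ∧ e.1.2 ∈ A) ∨ (e.1.2 = v ∧ e.1.1 ∈ A) then 1 else 0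

/-- The initial segment `{u : u < j}`. -/
def initSet (N j : ℕ) : Finset (Fin N) := Finset.univ.filter (fun u => u.val < j)

/-- The moves: flip one entry, or flip an initial segment of a row. -/
def IsMove {N : ℕ} (m : Cfg N) : Prop :=
  (∃ v u : Fin N, m = mvRow v {u}) ∨ (∃ (v : Fin N) (j : ℕ), m = mvRow v (initSet N j))

theorem mkEdge_symm {N : ℕ} (u w : Fin N) (h : u ≠ w) : mkEdge u w h = mkEdge w u (Ne.symm h) := by
  unfold mkEdge
  rcases lt_or_gt_of_ne h with h1 | h1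
  · rw [dif_pos h1, dif_neg (not_lt.2 h1.le)]
  · rw [dif_neg (not_lt.2 h1.le), dif_pos h1]

theorem mkEdge_of_lt {N : ℕ} (u w : Fin N) (h : u < w) : mkEdge u w (ne_of_lt h) = ⟨(u, w), h⟩ := by
  unfold mkEdge
  rw [dif_pos h]

theorem mkEdge_edge {N : ℕ} (e : Edge N) : mkEdge e.1.1 e.1.2 (ne_of_lt e.2) = e := by
  rw [mkEdge_of_lt _ _ e.2]

theorem sgn2_zero : sgn2 0 = 1 := by simp [sgn2]

theorem sgn2_one : sgn2 1 = -1 := by simp [sgn2]

theorem zmod2_cases (z : ZMod 2) : z = 0 ∨ z = 1 := by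
  revert z
  decide

theorem sgn2_add (x z : ZMod 2) : sgn2 (x + z) = sgn2 x * sgn2 z := by
  rcases zmod2_cases x with rfl | rfl <;> rcases zmod2_cases z with rfl | rfl
  · simp [sgn2]
  · simp [sgn2]
  · simp [sgn2]
  · have h : (1 : ZMod 2) + 1 = 0 := by decide
    rw [h]
    simp [sgn2]

theorem sgn2_mul_self (z : ZMod 2) : sgn2 z * sgn2 z = 1 := by
  rcases zmod2_cases z with rfl | rfl <;> simp [sgn2]

theorem sgn2_cases (z : ZMod 2) : sgn2 z = 1 ∨ sgn2 z = -1 := by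
  rcases zmod2_cases z with rfl | rfl <;> simp [sgn2]

theorem Smat_diag {N : ℕ} (a : Cfg N) (u : Fin N) : Smat a u u = 0 := by
  simp [Smat]

theorem Smat_of_ne {N : ℕ} (a : Cfg N) (u w : Fin N) (h : u ≠ w) :
    Smat a u w = sgn2 (a (mkEdge u w h)) := by
  simp [Smat, h]

theorem Smat_symm {N : ℕ} (a : Cfg N) (u w : Fin N) : Smat a u w = Smat a w u := by
  by_cases h : u = w
  · rw [h]
  · rw [Smat_of_ne a u w h, Smat_of_ne a w u (Ne.symm h), mkEdge_symm]

theorem Smat_transpose {N : ℕ} (a : Cfg N) : (Smat a).transpose = Smat a := by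
  ext u w
  exact Smat_symm a w u

theorem Smat_sq {N : ℕ} (a : Cfg N) (u w : Fin N) (h : u ≠ w) : Smat a u w * Smat a u w = 1 := by
  rw [Smat_of_ne a u w h]
  exact sgn2_mul_self _

theorem Smat_cases {N : ℕ} (a : Cfg N) (u w : Fin N) (h : u ≠ w) :
    Smat a u w = 1 ∨ Smat a u w = -1 := by
  rw [Smat_of_ne a u w h]
  exact sgn2_cases _

theorem mvRow_mkEdge {N : ℕ} (v : Fin N) (A : Finset (Fin N)) (u w : Fin N) (h : u ≠ w) :
    mvRow v A (mkEdge u w h) = if (u = v ∧ w ∈ A) ∨ (w = v ∧ u ∈ A) then 1 else 0 := by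
  unfold mvRow mkEdge
  rcases lt_or_gt_of_ne h with h1 | h1
  · rw [dif_pos h1]
  · rw [dif_neg (not_lt.2 h1.le)]
    simp only [or_comm]

/-- A move in row `v` does not change the entries outside row and column `v`. -/
theorem Smat_add_mvRow_off {N : ℕ} (a : Cfg N) (v : Fin N) (A : Finset (Fin N)) (u w : Fin N)
    (hu : u ≠ v) (hw : w ≠ v) : Smat (a + mvRow v A) u w = Smat a u w := by
  by_cases h : u = w
  · simp [Smat, h]
  · rw [Smat_of_ne _ u w h, Smat_of_ne _ u w h, Pi.add_apply, mvRow_mkEdge]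
    simp [hu, hw]

/-- A move in row `v` multiplies the entries `{v,u}`, `u ∈ A`, by `-1`. -/
theorem Smat_add_mvRow_row {N : ℕ} (a : Cfg N) (v : Fin N) (A : Finset (Fin N)) (u : Fin N)
    (hu : u ≠ v) : Smat (a + mvRow v A) v u = (if u ∈ A then -1 else 1) * Smat a v u := by
  rw [Smat_of_ne _ v u (Ne.symm hu), Smat_of_ne _ v u (Ne.symm hu), Pi.add_apply, sgn2_add,
    mvRow_mkEdge]
  by_cases hA : u ∈ A
  · simp [hA, sgn2_one]
  · simp [hA, hu, sgn2_zero]

/-- The full flip of row `v` is the conjugation with the diagonal sign matrix of `v`. -/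
theorem Smat_add_mvRow_univ {N : ℕ} (a : Cfg N) (v : Fin N) (u w : Fin N) :
    Smat (a + mvRow v Finset.univ) u w
      = (if u = v then -1 else 1) * Smat a u w * (if w = v then -1 else 1) := by
  by_cases h : u = w
  · subst h
    simp [Smat_diag]
  · by_cases hu : u = v
    · subst hu
      have hw : w ≠ u := Ne.symm h
      rw [Smat_add_mvRow_row a u _ w hw]
      simp [hw]
    · by_cases hw : w = v
      · subst hw
        rw [Smat_symm, Smat_add_mvRow_row a w _ u hu, Smat_symm a w u]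
        simp [hu]
      · rw [Smat_add_mvRow_off a v _ u w hu hw]
        simp [hu, hw]

theorem mvRow_add_self {N : ℕ} (v : Fin N) (A : Finset (Fin N)) : mvRow v A + mvRow v A = 0 := by
  ext e
  rcases zmod2_cases (mvRow v A e) with h | h
  · simp [h]
  · rw [Pi.add_apply, h]
    exact (by decide : (1 : ZMod 2) + 1 = 0)

theorem cfg_add_self {N : ℕ} (a : Cfg N) : a + a = 0 := by
  ext e
  rcases zmod2_cases (a e) with h | h
  · simp [h]
  · rw [Pi.add_apply, h]
    exact (by decide : (1 : ZMod 2) + 1 = 0)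

/-- `mvRow v` is additive on disjoint sets. -/
theorem mvRow_insert {N : ℕ} (v u : Fin N) (A : Finset (Fin N)) (hu : u ∉ A) :
    mvRow v (insert u A) = mvRow v A + mvRow v {u} := by
  ext e
  rw [Pi.add_apply]
  unfold mvRow
  by_cases h1 : e.1.1 = v
  · by_cases h2 : e.1.2 = v
    · exact absurd (h1.trans h2.symm) (ne_of_lt e.2)
    · by_cases h3 : e.1.2 = u
      · have h4 : ¬ u = v := fun h => h2 (h3.trans h)
        simp [h1, h3, hu, h4]
      · simp [h1, h2, h3]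
  · by_cases h2 : e.1.2 = v
    · by_cases h3 : e.1.1 = u
      · have h4 : ¬ u = v := fun h => h1 (h3.trans h)
        simp [h2, h3, hu, h4]
      · simp [h1, h2, h3]
    · simp [h1, h2]

theorem mvRow_self {N : ℕ} (v : Fin N) : mvRow v {v} = 0 := by
  ext e
  unfold mvRow
  have h := ne_of_lt e.2
  by_cases h1 : e.1.1 = v
  · have h2 : e.1.2 ≠ v := fun h2 => h (h1.trans h2.symm)
    simp [h1, h2]
  · simp [h1]

theorem mvRow_empty {N : ℕ} (v : Fin N) : mvRow v ∅ = 0 := by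
  ext e
  simp [mvRow]

theorem initSet_zero (N : ℕ) : initSet N 0 = ∅ := by
  ext u
  simp [initSet]

theorem initSet_succ (N : ℕ) (u : Fin N) : initSet N (u.val + 1) = insert u (initSet N u.val) := by
  ext w
  simp only [initSet, Finset.mem_filter, Finset.mem_univ, true_and, Finset.mem_insert]
  constructor
  · intro h
    rcases Nat.lt_succ_iff_lt_or_eq.1 h with h1 | h1
    · exact Or.inr h1
    · exact Or.inl (Fin.ext h1)
  · rintro (h | h)
    · rw [h]; exact Nat.lt_succ_self _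
    · exact Nat.lt_succ_of_lt h

theorem initSet_full (N : ℕ) : initSet N N = Finset.univ := by
  ext u
  simp [initSet]

theorem not_mem_initSet_self (N : ℕ) (u : Fin N) : u ∉ initSet N u.val := by
  simp [initSet]

theorem card_cfg (N : ℕ) : Fintype.card (Cfg N) = 2 ^ Fintype.card (Edge N) := by
  rw [Fintype.card_fun, ZMod.card]

/-- All moves, as a finite set (with repetitions removed). -/
noncomputable def moves (N : ℕ) : Finset (Cfg N) :=
  (Finset.univ.image (fun q : Fin N × Fin N => mvRow q.1 {q.2})) ∪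
    (Finset.univ.image (fun q : Fin N × Fin (N + 1) => mvRow q.1 (initSet N q.2.val)))

theorem mem_moves {N : ℕ} (m : Cfg N) (h : IsMove m) : m ∈ moves N := by
  unfold moves
  rw [Finset.mem_union]
  rcases h with ⟨v, u, rfl⟩ | ⟨v, j, rfl⟩
  · left
    exact Finset.mem_image.2 ⟨(v, u), Finset.mem_univ _, rfl⟩
  · right
    by_cases hj : j < N + 1
    · exact Finset.mem_image.2 ⟨(v, ⟨j, hj⟩), Finset.mem_univ _, rfl⟩
    · refine Finset.mem_image.2 ⟨(v, ⟨N, Nat.lt_succ_self N⟩), Finset.mem_univ _, ?_⟩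
      have h1 : initSet N j = initSet N N := by
        rw [initSet_full]
        ext u
        simp only [initSet, Finset.mem_filter, Finset.mem_univ, true_and, iff_true]
        omega
      simp only [h1]

theorem card_moves (N : ℕ) : (moves N).card ≤ 2 * N * N + N := by
  unfold moves
  refine (Finset.card_union_le _ _).trans ?_
  refine (Nat.add_le_add Finset.card_image_le Finset.card_image_le).trans ?_
  simp only [Finset.card_univ, Fintype.card_prod, Fintype.card_fin]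
  nlinarith

/-- Every move changes entries of one row (and column) only. -/
theorem isMove_row {N : ℕ} (m : Cfg N) (h : IsMove m) : ∃ v A, m = mvRow v A := by
  rcases h with ⟨v, u, h⟩ | ⟨v, j, h⟩
  · exact ⟨v, _, h⟩
  · exact ⟨v, _, h⟩

/-- `psi` is a unit top eigenvector of the symmetric matrix `S` with eigenvalue `l`, and the
quadratic form of `S` is at most `l - g` on the orthogonal complement. -/
def TopPair {N : ℕ} (S : Matrix (Fin N) (Fin N) ℝ) (l g : ℝ) (psi : Fin N → ℝ) : Prop :=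
  (∑ v, psi v ^ 2 = 1) ∧ (∀ u, ∑ v, S u v * psi v = l * psi u) ∧
    ∀ w : Fin N → ℝ, ∑ v, psi v * w v = 0 →
      ∑ u, ∑ v, w u * S u v * w v ≤ (l - g) * ∑ v, w v ^ 2

end Pool.Agent.MP_9cec2c_lc.Flat
end

section

/-!
FLAT for all moduli, configurations: Hermitian matrices of size `N` with zero diagonal and entries
that are `m`-th roots of unity, coded by functions `Edge N → ZMod m`; the moves.
-/

set_option autoImplicit false
set_option linter.unusedSectionVars false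

namespace Pool.Agent.MP_9cec2c_lc.Flat

open Finset

/-- Configurations: an element of `ZMod m` on every edge. -/
abbrev Cfg2 (N m : ℕ) : Type := Edge N → ZMod m

variable {N m : ℕ} [NeZero m]

/-- The phase of an element of `ZMod m`. -/
noncomputable def ph (z : ZMod m) : ℂ := ZMod.stdAddChar z

theorem ph_zero : ph (0 : ZMod m) = 1 := AddChar.map_zero_eq_one _

theorem ph_add (z w : ZMod m) : ph (z + w) = ph z * ph w := AddChar.map_add_eq_mul _ _ _

theorem norm_ph (z : ZMod m) : ‖ph z‖ = 1 := by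
  unfold ph
  rw [ZMod.stdAddChar_apply]
  exact Circle.norm_coe _

theorem ph_ne_zero (z : ZMod m) : ph z ≠ 0 := by
  intro h
  have h1 := norm_ph z
  rw [h, norm_zero] at h1
  exact zero_ne_one h1

theorem conj_mul_ph (z : ZMod m) : (starRingEnd ℂ) (ph z) * ph z = 1 := by
  rw [mul_comm, Complex.mul_conj, Complex.normSq_eq_norm_sq, norm_ph]
  norm_num

theorem ph_mul_conj (z : ZMod m) : ph z * (starRingEnd ℂ) (ph z) = 1 := by
  rw [mul_comm, conj_mul_ph]

theorem ph_neg (z : ZMod m) : ph (-z) = (starRingEnd ℂ) (ph z) := by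
  have h1 : ph (-z) * ph z = 1 := by
    rw [← ph_add, neg_add_cancel, ph_zero]
  have h2 := conj_mul_ph z
  exact mul_right_cancel₀ (ph_ne_zero z) (h1.trans h2.symm)

theorem ph_nsmul (j : ℕ) (z : ZMod m) : ph (j • z) = ph z ^ j := by
  induction j with
  | zero => rw [zero_smul, ph_zero, pow_zero]
  | succ j ih => rw [succ_nsmul, ph_add, ih, pow_succ]

/-- The Hermitian matrix of a configuration. -/
noncomputable def Smat2 (a : Cfg2 N m) : Matrix (Fin N) (Fin N) ℂ :=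
  fun u w => if h : u < w then ph (a ⟨(u, w), h⟩)
    else if h' : w < u then (starRingEnd ℂ) (ph (a ⟨(w, u), h'⟩)) else 0

theorem Smat2_lt (a : Cfg2 N m) {u w : Fin N} (h : u < w) : Smat2 a u w = ph (a ⟨(u, w), h⟩) := by
  unfold Smat2
  rw [dif_pos h]

theorem Smat2_gt (a : Cfg2 N m) {u w : Fin N} (h : w < u) :
    Smat2 a u w = (starRingEnd ℂ) (ph (a ⟨(w, u), h⟩)) := by
  unfold Smat2
  rw [dif_neg (not_lt.2 h.le), dif_pos h]

theorem Smat2_diag (a : Cfg2 N m) (u : Fin N) : Smat2 a u u = 0 := by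
  unfold Smat2
  rw [dif_neg (lt_irrefl u), dif_neg (lt_irrefl u)]

theorem Smat2_conj (a : Cfg2 N m) (u w : Fin N) : (starRingEnd ℂ) (Smat2 a u w) = Smat2 a w u := by
  rcases lt_trichotomy u w with h | h | h
  · rw [Smat2_lt a h, Smat2_gt a h]
  · rw [h, Smat2_diag, map_zero]
  · rw [Smat2_gt a h, Smat2_lt a h, Complex.conj_conj]

theorem Smat2_isHermitian (a : Cfg2 N m) : (Smat2 a).IsHermitian := by
  ext u w
  rw [Matrix.conjTranspose_apply]
  exact Smat2_conj a w u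

theorem norm_Smat2 (a : Cfg2 N m) {u w : Fin N} (h : u ≠ w) : ‖Smat2 a u w‖ = 1 := by
  rcases lt_or_gt_of_ne h with h | h
  · rw [Smat2_lt a h, norm_ph]
  · rw [Smat2_gt a h, RCLike.norm_conj, norm_ph]

theorem norm_Smat2_le (a : Cfg2 N m) (u w : Fin N) : ‖Smat2 a u w‖ ≤ 1 := by
  by_cases h : u = w
  · rw [h, Smat2_diag, norm_zero]
    exact zero_le_one
  · exact (norm_Smat2 a h).le

theorem Smat2_mul_conj (a : Cfg2 N m) {u w : Fin N} (h : u ≠ w) :
    Smat2 a u w * Smat2 a w u = 1 := by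
  rw [← Smat2_conj a u w, Complex.mul_conj, Complex.normSq_eq_norm_sq, norm_Smat2 a h]
  norm_num

/-- The multiplication of the entries `(v,u)`, `u ∈ A`, of row `v` by the phase of `κ` (and of the
entries `(u,v)` by the conjugate phase). -/
def mvRow2 (v : Fin N) (A : Finset (Fin N)) (κ : ZMod m) : Cfg2 N m :=
  fun e => if e.1.1 = v ∧ e.1.2 ∈ A then κ else if e.1.2 = v ∧ e.1.1 ∈ A then -κ else 0

/-- A move in row `v` does not change the entries outside row and column `v`. -/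
theorem Smat2_add_off (a : Cfg2 N m) (v : Fin N) (A : Finset (Fin N)) (κ : ZMod m) {u w : Fin N}
    (hu : u ≠ v) (hw : w ≠ v) : Smat2 (a + mvRow2 v A κ) u w = Smat2 a u w := by
  rcases lt_trichotomy u w with h | h | h
  · rw [Smat2_lt _ h, Smat2_lt _ h, Pi.add_apply]
    congr 1
    unfold mvRow2
    rw [if_neg fun h1 => hu h1.1, if_neg fun h1 => hw h1.1, add_zero]
  · rw [h, Smat2_diag, Smat2_diag]
  · rw [Smat2_gt _ h, Smat2_gt _ h, Pi.add_apply]
    congr 2
    unfold mvRow2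
    rw [if_neg fun h1 => hw h1.1, if_neg fun h1 => hu h1.1, add_zero]

/-- A move in row `v` multiplies the entries `(v,u)`, `u ∈ A`, by the phase of `κ`. -/
theorem Smat2_add_row (a : Cfg2 N m) (v : Fin N) (A : Finset (Fin N)) (κ : ZMod m) {u : Fin N}
    (hu : u ≠ v) : Smat2 (a + mvRow2 v A κ) v u = (if u ∈ A then ph κ else 1) * Smat2 a v u := by
  rcases lt_or_gt_of_ne hu with h | h
  · -- u < v
    rw [Smat2_gt _ h, Smat2_gt _ h, Pi.add_apply]
    unfold mvRow2
    rw [if_neg fun h1 => hu h1.1]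
    by_cases hA : u ∈ A
    · rw [if_pos ⟨rfl, hA⟩, if_pos hA, ph_add, map_mul, ph_neg, Complex.conj_conj, mul_comm]
    · rw [if_neg fun h1 => hA h1.2, if_neg hA, add_zero, one_mul]
  · -- v < u
    rw [Smat2_lt _ h, Smat2_lt _ h, Pi.add_apply]
    unfold mvRow2
    by_cases hA : u ∈ A
    · rw [if_pos ⟨rfl, hA⟩, if_pos hA, ph_add, mul_comm]
    · rw [if_neg fun h1 => hA h1.2, if_neg fun h1 => hu h1.1, if_neg hA, add_zero, one_mul]

/-- The entries of column `v` after a move in row `v`. -/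
theorem Smat2_add_col (a : Cfg2 N m) (v : Fin N) (A : Finset (Fin N)) (κ : ZMod m) {u : Fin N}
    (hu : u ≠ v) : Smat2 (a + mvRow2 v A κ) u v =
      (if u ∈ A then (starRingEnd ℂ) (ph κ) else 1) * Smat2 a u v := by
  rw [← Smat2_conj, Smat2_add_row a v A κ hu, map_mul, Smat2_conj]
  congr 1
  by_cases hA : u ∈ A
  · rw [if_pos hA, if_pos hA]
  · rw [if_neg hA, if_neg hA, map_one]

/-- The full move of row `v` is the conjugation with a diagonal matrix. -/
theorem Smat2_add_univ (a : Cfg2 N m) (v : Fin N) (κ : ZMod m) (u w : Fin N) :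
    Smat2 (a + mvRow2 v univ κ) u w = (if u = v then ph κ else 1) * Smat2 a u w *
      (if w = v then (starRingEnd ℂ) (ph κ) else 1) := by
  by_cases h : u = w
  · subst h
    rw [Smat2_diag, Smat2_diag, mul_zero, zero_mul]
  · by_cases hu : u = v
    · subst hu
      rw [Smat2_add_row a u _ κ (Ne.symm h), if_pos (mem_univ _), if_pos rfl,
        if_neg (Ne.symm h), mul_one]
    · by_cases hw : w = v
      · subst hw
        rw [Smat2_add_col a w _ κ hu, if_pos (mem_univ _), if_neg hu, if_pos rfl, one_mul, mul_comm]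
      · rw [Smat2_add_off a v _ κ hu hw, if_neg hu, if_neg hw, one_mul, mul_one]

theorem mvRow2_add (v : Fin N) (A : Finset (Fin N)) (κ κ' : ZMod m) :
    mvRow2 v A (κ + κ') = mvRow2 v A κ + mvRow2 v A κ' := by
  ext e
  rw [Pi.add_apply]
  unfold mvRow2
  by_cases h1 : e.1.1 = v ∧ e.1.2 ∈ A
  · rw [if_pos h1, if_pos h1, if_pos h1]
  · by_cases h2 : e.1.2 = v ∧ e.1.1 ∈ A
    · rw [if_neg h1, if_neg h1, if_neg h1, if_pos h2, if_pos h2, if_pos h2, neg_add]
    · rw [if_neg h1, if_neg h1, if_neg h1, if_neg h2, if_neg h2, if_neg h2, add_zero]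

theorem mvRow2_zero (v : Fin N) (A : Finset (Fin N)) : mvRow2 v A (0 : ZMod m) = 0 := by
  ext e
  unfold mvRow2
  rw [neg_zero, ite_self, ite_self]
  rfl

theorem mvRow2_nsmul (v : Fin N) (A : Finset (Fin N)) (κ : ZMod m) (j : ℕ) :
    mvRow2 v A (j • κ) = j • mvRow2 v A κ := by
  induction j with
  | zero => rw [zero_smul, zero_smul, mvRow2_zero]
  | succ j ih => rw [succ_nsmul, succ_nsmul, mvRow2_add, ih]

theorem mvRow2_insert (v u : Fin N) (A : Finset (Fin N)) (hu : u ∉ A) (κ : ZMod m) :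
    mvRow2 v (insert u A) κ = mvRow2 v A κ + mvRow2 v {u} κ := by
  ext e
  rw [Pi.add_apply]
  unfold mvRow2
  by_cases h1 : e.1.1 = v
  · by_cases h2 : e.1.2 = v
    · exact absurd (h1.trans h2.symm) (ne_of_lt e.2)
    · by_cases h3 : e.1.2 = u
      · have h4 : ¬ u = v := fun h => h2 (h3.trans h)
        simp [h1, h3, hu, h4]
      · simp [h1, h2, h3]
  · by_cases h2 : e.1.2 = v
    · by_cases h3 : e.1.1 = u
      · have h4 : ¬ u = v := fun h => h1 (h3.trans h)
        simp [h2, h3, hu, h4]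
      · simp [h1, h2, h3]
    · simp [h1, h2]

theorem mvRow2_self (v : Fin N) (κ : ZMod m) : mvRow2 v {v} κ = 0 := by
  ext e
  unfold mvRow2
  have h := ne_of_lt e.2
  by_cases h1 : e.1.1 = v
  · have h2 : e.1.2 ≠ v := fun h2 => h (h1.trans h2.symm)
    simp [h1, h2]
  · simp [h1]

theorem mvRow2_empty (v : Fin N) (κ : ZMod m) : mvRow2 v ∅ κ = 0 := by
  ext e
  simp [mvRow2]

/-- The generator of the subgroup of order `r`. -/
def gen (m r : ℕ) : ZMod m := ((m / r : ℕ) : ZMod m)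

/-- The moves: multiply one entry, or an initial segment of a row, by an `r`-th root of unity. -/
def IsMove2 (r : ℕ) (x : Cfg2 N m) : Prop :=
  ∃ k : ℕ, k < r ∧ ((∃ v u : Fin N, x = mvRow2 v {u} (k • gen m r)) ∨
    ∃ (v : Fin N) (j : ℕ), x = mvRow2 v (initSet N j) (k • gen m r))

/-- All moves. -/
noncomputable def moves2 (N m r : ℕ) [NeZero m] : Finset (Cfg2 N m) :=
  (univ.image fun q : (Fin N × Fin N) × Fin r => mvRow2 q.1.1 {q.1.2} (q.2.val • gen m r)) ∪
    univ.image fun q : (Fin N × Fin (N + 1)) × Fin r =>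
      mvRow2 q.1.1 (initSet N q.1.2.val) (q.2.val • gen m r)

theorem mem_moves2 {r : ℕ} (x : Cfg2 N m) (h : IsMove2 r x) : x ∈ moves2 N m r := by
  unfold moves2
  rw [mem_union]
  obtain ⟨k, hk, h⟩ := h
  rcases h with ⟨v, u, rfl⟩ | ⟨v, j, rfl⟩
  · left
    exact mem_image.2 ⟨((v, u), ⟨k, hk⟩), mem_univ _, rfl⟩
  · right
    by_cases hj : j < N + 1
    · exact mem_image.2 ⟨((v, ⟨j, hj⟩), ⟨k, hk⟩), mem_univ _, rfl⟩
    · refine mem_image.2 ⟨((v, ⟨N, Nat.lt_succ_self N⟩), ⟨k, hk⟩), mem_univ _, ?_⟩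
      have h1 : initSet N j = initSet N N := by
        rw [initSet_full]
        ext u
        simp only [initSet, mem_filter, mem_univ, true_and, iff_true]
        omega
      simp only [h1]

theorem card_moves2 (r : ℕ) : (moves2 N m r).card ≤ (2 * N * N + N) * r := by
  unfold moves2
  refine (card_union_le _ _).trans ?_
  refine (Nat.add_le_add card_image_le card_image_le).trans ?_
  simp only [card_univ, Fintype.card_prod, Fintype.card_fin]
  nlinarith

theorem isMove2_row {r : ℕ} (x : Cfg2 N m) (h : IsMove2 r x) : ∃ v A κ, x = mvRow2 v A κ := by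
  obtain ⟨k, _, h⟩ := h
  rcases h with ⟨v, u, h⟩ | ⟨v, j, h⟩
  · exact ⟨v, _, _, h⟩
  · exact ⟨v, _, _, h⟩

theorem card_cfg2 : Fintype.card (Cfg2 N m) = m ^ Fintype.card (Edge N) := by
  rw [Fintype.card_fun, ZMod.card]

/-- `psi` is a unit top eigenvector of the Hermitian matrix `S` with eigenvalue `l`, and the
quadratic form of `S` is at most `l - g` on the orthogonal complement. -/
def TopPair2 {N : ℕ} (S : Matrix (Fin N) (Fin N) ℂ) (l g : ℝ) (psi : Fin N → ℂ) : Prop :=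
  (∑ v, ‖psi v‖ ^ 2 = 1) ∧ (∀ u, ∑ v, S u v * psi v = l * psi u) ∧
    ∀ w : Fin N → ℂ, ∑ v, (starRingEnd ℂ) (psi v) * w v = 0 →
      (∑ u, ∑ v, (starRingEnd ℂ) (w u) * S u v * w v).re ≤ (l - g) * ∑ v, ‖w v‖ ^ 2

end Pool.Agent.MP_9cec2c_lc.Flat
end

section

/-!
FLAT for all moduli, gauge: an exactly covariant choice of the frames (top eigenvectors with a
positive spectator value), the neighbourhoods of the good set, and the transport between two
configurations, an element of `ZMod r`.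
-/

set_option autoImplicit false
set_option linter.unusedSectionVars false

namespace Pool.Agent.MP_9cec2c_lc.Flat

namespace Herm

open Finset

variable {N m r : ℕ} [NeZero m] [NeZero r]

/-! ### The subgroup of order `r` -/

theorem nsmul_gen (hrm : r ∣ m) : r • gen m r = 0 := by
  unfold gen
  rw [nsmul_eq_mul, ← Nat.cast_mul, Nat.mul_div_cancel' hrm, ZMod.natCast_self]

/-- The embedding of `ZMod r` into `ZMod m`. -/
noncomputable def iot (hrm : r ∣ m) : ZMod r →+ ZMod m :=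
  ZMod.lift r ⟨zmultiplesHom (ZMod m) (gen m r), by
    rw [zmultiplesHom_apply, natCast_zsmul]
    exact nsmul_gen hrm⟩

theorem iot_natCast (hrm : r ∣ m) (k : ℕ) : iot hrm (k : ZMod r) = k • gen m r := by
  unfold iot
  have h := ZMod.lift_coe r ⟨zmultiplesHom (ZMod m) (gen m r), by
    rw [zmultiplesHom_apply, natCast_zsmul]
    exact nsmul_gen hrm⟩ (k : ℤ)
  rw [Int.cast_natCast] at h
  rw [h]
  show (k : ℤ) • gen m r = k • gen m r
  exact natCast_zsmul _ _

theorem iot_injective (hrm : r ∣ m) : Function.Injective (iot (m := m) hrm) := by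
  rw [injective_iff_map_eq_zero]
  intro k hk
  have h1 : ((k.val : ℕ) : ZMod r) = k := ZMod.natCast_zmod_val k
  rw [← h1, iot_natCast] at hk
  have h2 : ((k.val * (m / r) : ℕ) : ZMod m) = 0 := by
    rw [Nat.cast_mul, ← nsmul_eq_mul]
    exact hk
  rw [ZMod.natCast_eq_zero_iff] at h2
  have hr : 0 < r := Nat.pos_of_ne_zero (NeZero.ne r)
  have hm : 0 < m := Nat.pos_of_ne_zero (NeZero.ne m)
  have h3 : 0 < m / r := Nat.div_pos (Nat.le_of_dvd hm hrm) hr
  have h4 : k.val * (m / r) < m := by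
    calc k.val * (m / r) < r * (m / r) := Nat.mul_lt_mul_of_pos_right (ZMod.val_lt k) h3
      _ = m := Nat.mul_div_cancel' hrm
  have h5 : k.val * (m / r) = 0 := Nat.eq_zero_of_dvd_of_lt h2 h4
  have h6 : k.val = 0 := by
    rcases Nat.mul_eq_zero.1 h5 with h | h
    · exact h
    · omega
  rw [← h1, h6, Nat.cast_zero]

theorem ph_iot_pow (hrm : r ∣ m) (k : ZMod r) : ph (iot (m := m) hrm k) ^ r = 1 := by
  rw [← ph_nsmul, ← map_nsmul, nsmul_eq_mul, ZMod.natCast_self, zero_mul, map_zero, ph_zero]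

/-! ### Gauge transformations -/

/-- The gauge transformation of the configurations with parameter `τ`. -/
noncomputable def gau (hrm : r ∣ m) (τ : Fin N → ZMod r) : Cfg2 N m :=
  fun e => iot hrm (τ e.1.1) - iot hrm (τ e.1.2)

theorem gau_add (hrm : r ∣ m) (τ τ' : Fin N → ZMod r) :
    gau (m := m) hrm (τ + τ') = gau hrm τ + gau hrm τ' := by
  funext e
  show iot hrm (τ e.1.1 + τ' e.1.1) - iot hrm (τ e.1.2 + τ' e.1.2) =
    iot hrm (τ e.1.1) - iot hrm (τ e.1.2) + (iot hrm (τ' e.1.1) - iot hrm (τ' e.1.2))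
  rw [map_add, map_add]
  ring

theorem gau_const (hrm : r ∣ m) (c : ZMod r) : gau (m := m) hrm (fun _ : Fin N => c) = 0 := by
  funext e
  exact sub_self _

theorem gau_zero (hrm : r ∣ m) : gau (m := m) hrm (0 : Fin N → ZMod r) = 0 := gau_const hrm 0

theorem gau_neg (hrm : r ∣ m) (τ : Fin N → ZMod r) : gau (m := m) hrm (-τ) = -gau hrm τ := by
  have h := gau_add (m := m) hrm τ (-τ)
  rw [add_neg_cancel, gau_zero] at h
  exact (neg_eq_of_add_eq_zero_right h.symm).symm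

/-- The full move of row `v` is a gauge transformation. -/
theorem mvRow2_univ (hrm : r ∣ m) (v : Fin N) (k : ZMod r) :
    mvRow2 v univ (iot (m := m) hrm k) = gau hrm (Pi.single v k) := by
  funext e
  show (if e.1.1 = v ∧ e.1.2 ∈ univ then iot hrm k
    else if e.1.2 = v ∧ e.1.1 ∈ univ then -iot hrm k else 0) =
    iot hrm ((Pi.single v k : Fin N → ZMod r) e.1.1) -
      iot hrm ((Pi.single v k : Fin N → ZMod r) e.1.2)
  have hne := ne_of_lt e.2
  by_cases h1 : e.1.1 = v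
  · have h2 : e.1.2 ≠ v := fun h => hne (h1.trans h.symm)
    rw [if_pos ⟨h1, mem_univ _⟩, h1, Pi.single_eq_same, Pi.single_eq_of_ne h2, map_zero, sub_zero]
  · rw [if_neg fun h => h1 h.1, Pi.single_eq_of_ne h1, map_zero, zero_sub]
    by_cases h2 : e.1.2 = v
    · rw [if_pos ⟨h2, mem_univ _⟩, h2, Pi.single_eq_same]
    · rw [if_neg fun h => h2 h.1, Pi.single_eq_of_ne h2, map_zero, neg_zero]

/-- The gauge transformation of the vectors. -/
noncomputable def gact (hrm : r ∣ m) (τ : Fin N → ZMod r) (ψ : Fin N → ℂ) : Fin N → ℂ :=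
  fun u => ph (iot hrm (τ u)) * ψ u

theorem gact_add (hrm : r ∣ m) (τ τ' : Fin N → ZMod r) (ψ : Fin N → ℂ) :
    gact (m := m) hrm (τ + τ') ψ = gact (m := m) hrm τ (gact (m := m) hrm τ' ψ) := by
  funext u
  show ph (iot hrm (τ u + τ' u)) * ψ u = ph (iot hrm (τ u)) * (ph (iot hrm (τ' u)) * ψ u)
  rw [map_add, ph_add, mul_assoc]

theorem norm_gact (hrm : r ∣ m) (τ : Fin N → ZMod r) (ψ : Fin N → ℂ) (v : Fin N) :
    ‖gact (m := m) hrm τ ψ v‖ = ‖ψ v‖ := by
  show ‖ph (iot hrm (τ v)) * ψ v‖ = ‖ψ v‖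
  rw [norm_mul, norm_ph, one_mul]

theorem Smat2_add_gau (hrm : r ∣ m) (b : Cfg2 N m) (τ : Fin N → ZMod r) (u w : Fin N) :
    Smat2 (b + gau hrm τ) u w =
      ph (iot hrm (τ u)) * Smat2 b u w * (starRingEnd ℂ) (ph (iot hrm (τ w))) := by
  rcases lt_trichotomy u w with h | h | h
  · rw [Smat2_lt _ h, Smat2_lt _ h, Pi.add_apply]
    show ph (b ⟨(u, w), h⟩ + (iot hrm (τ u) - iot hrm (τ w))) = _
    rw [ph_add, sub_eq_add_neg, ph_add, ph_neg]
    ring
  · rw [h, Smat2_diag, Smat2_diag, mul_zero, zero_mul]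
  · rw [Smat2_gt _ h, Smat2_gt _ h, Pi.add_apply]
    show (starRingEnd ℂ) (ph (b ⟨(w, u), h⟩ + (iot hrm (τ w) - iot hrm (τ u)))) = _
    rw [ph_add, sub_eq_add_neg, ph_add, ph_neg, map_mul, map_mul, Complex.conj_conj]
    ring

theorem _root_.Pool.Agent.MP_9cec2c_lc.Flat.TopPair2.gauge (hrm : r ∣ m) {b : Cfg2 N m} {l g : ℝ}
    {ψ : Fin N → ℂ} (h : TopPair2 (Smat2 b) l g ψ) (τ : Fin N → ZMod r) :
    TopPair2 (Smat2 (b + gau hrm τ)) l g (gact (m := m) hrm τ ψ) := by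
  obtain ⟨h1, h2, h3⟩ := h
  refine ⟨?_, ?_, ?_⟩
  · rw [← h1]
    exact sum_congr rfl fun v _ => by rw [norm_gact]
  · intro u
    have e1 : ∀ v, Smat2 (b + gau hrm τ) u v * gact (m := m) hrm τ ψ v =
        ph (iot hrm (τ u)) * (Smat2 b u v * ψ v) := by
      intro v
      rw [Smat2_add_gau]
      show ph (iot hrm (τ u)) * Smat2 b u v * (starRingEnd ℂ) (ph (iot hrm (τ v))) *
        (ph (iot hrm (τ v)) * ψ v) = _
      have h := conj_mul_ph (iot (m := m) hrm (τ v))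
      calc ph (iot hrm (τ u)) * Smat2 b u v * (starRingEnd ℂ) (ph (iot hrm (τ v))) *
          (ph (iot hrm (τ v)) * ψ v) = ph (iot hrm (τ u)) * (Smat2 b u v * ψ v) *
            ((starRingEnd ℂ) (ph (iot hrm (τ v))) * ph (iot hrm (τ v))) := by ring
        _ = ph (iot hrm (τ u)) * (Smat2 b u v * ψ v) := by rw [h, mul_one]
    rw [sum_congr rfl fun v _ => e1 v, ← mul_sum, h2 u]
    show ph (iot hrm (τ u)) * (l * ψ u) = l * (ph (iot hrm (τ u)) * ψ u)
    ring
  · intro w hw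
    -- the vector transformed back
    obtain ⟨w', hw'⟩ : ∃ w' : Fin N → ℂ, w' = fun v =>
      (starRingEnd ℂ) (ph (iot (m := m) hrm (τ v))) * w v := ⟨_, rfl⟩
    have hw0 : ∑ v, (starRingEnd ℂ) (ψ v) * w' v = 0 := by
      rw [← hw]
      refine sum_congr rfl fun v _ => ?_
      rw [hw']
      show (starRingEnd ℂ) (ψ v) * ((starRingEnd ℂ) (ph (iot (m := m) hrm (τ v))) * w v) =
        (starRingEnd ℂ) (ph (iot hrm (τ v)) * ψ v) * w v
      rw [map_mul]
      ring
    have e1 : ∑ u, ∑ v, (starRingEnd ℂ) (w u) * Smat2 (b + gau hrm τ) u v * w v =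
        ∑ u, ∑ v, (starRingEnd ℂ) (w' u) * Smat2 b u v * w' v := by
      refine sum_congr rfl fun u _ => sum_congr rfl fun v _ => ?_
      rw [Smat2_add_gau, hw']
      show (starRingEnd ℂ) (w u) * (ph (iot hrm (τ u)) * Smat2 b u v *
        (starRingEnd ℂ) (ph (iot hrm (τ v)))) * w v =
        (starRingEnd ℂ) ((starRingEnd ℂ) (ph (iot hrm (τ u))) * w u) * Smat2 b u v *
          ((starRingEnd ℂ) (ph (iot hrm (τ v))) * w v)
      rw [map_mul, Complex.conj_conj]
      ring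
    have e2 : ∑ v, ‖w v‖ ^ 2 = ∑ v, ‖w' v‖ ^ 2 := by
      refine sum_congr rfl fun v _ => ?_
      rw [hw']
      show ‖w v‖ ^ 2 = ‖(starRingEnd ℂ) (ph (iot (m := m) hrm (τ v))) * w v‖ ^ 2
      rw [norm_mul, RCLike.norm_conj, norm_ph, one_mul]
    rw [e1, e2]
    exact h3 _ hw0

/-! ### Uniqueness of the top eigenvector -/

theorem norm_sq_eq (z : ℂ) : ((‖z‖ ^ 2 : ℝ) : ℂ) = (starRingEnd ℂ) z * z := by
  rw [mul_comm, Complex.mul_conj, Complex.normSq_eq_norm_sq]

theorem _root_.Pool.Agent.MP_9cec2c_lc.Flat.TopPair2.unique {b : Cfg2 N m} {l g l' g' : ℝ}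
    {ψ ψ' : Fin N → ℂ} (hg : 0 < g) (hg' : 0 < g') (h : TopPair2 (Smat2 b) l g ψ)
    (h' : TopPair2 (Smat2 b) l' g' ψ') : ∃ z : ℂ, ‖z‖ = 1 ∧ ∀ v, ψ' v = z * ψ v := by
  -- one direction
  have key : ∀ {l g l' g' : ℝ} {ψ ψ' : Fin N → ℂ}, TopPair2 (Smat2 b) l g ψ →
      TopPair2 (Smat2 b) l' g' ψ' → ∀ c : ℂ, c = ∑ v, (starRingEnd ℂ) (ψ v) * ψ' v →
      (∑ v, ‖ψ' v - c * ψ v‖ ^ 2 = 1 - ‖c‖ ^ 2) ∧ (l : ℂ) * c = l' * c ∧
        l' * (1 - ‖c‖ ^ 2) ≤ (l - g) * (1 - ‖c‖ ^ 2) := by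
    intro l g l' g' ψ ψ' h h' c hc
    obtain ⟨h1, h2, h3⟩ := h
    obtain ⟨h1', h2', -⟩ := h'
    have hc' : ∑ v, (starRingEnd ℂ) (ψ' v) * ψ v = (starRingEnd ℂ) c := by
      rw [hc, map_sum]
      refine sum_congr rfl fun v _ => ?_
      rw [map_mul, Complex.conj_conj, mul_comm]
    have k1 : ∑ v, (starRingEnd ℂ) (ψ v) * ψ v = 1 := by
      rw [sum_congr rfl fun v _ => (norm_sq_eq (ψ v)).symm, ← Complex.ofReal_sum, h1,
        Complex.ofReal_one]
    have k1' : ∑ v, (starRingEnd ℂ) (ψ' v) * ψ' v = 1 := by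
      rw [sum_congr rfl fun v _ => (norm_sq_eq (ψ' v)).symm, ← Complex.ofReal_sum, h1',
        Complex.ofReal_one]
    have hcc : (starRingEnd ℂ) c * c = ((‖c‖ ^ 2 : ℝ) : ℂ) := (norm_sq_eq c).symm
    -- the norm
    have n1 : ((∑ v, ‖ψ' v - c * ψ v‖ ^ 2 : ℝ) : ℂ) = ((1 - ‖c‖ ^ 2 : ℝ) : ℂ) := by
      rw [Complex.ofReal_sum]
      have e : ∀ v, ((‖ψ' v - c * ψ v‖ ^ 2 : ℝ) : ℂ) =
          (starRingEnd ℂ) (ψ' v) * ψ' v - c * ((starRingEnd ℂ) (ψ' v) * ψ v) -
            (starRingEnd ℂ) c * ((starRingEnd ℂ) (ψ v) * ψ' v) +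
              (starRingEnd ℂ) c * c * ((starRingEnd ℂ) (ψ v) * ψ v) := by
        intro v
        rw [norm_sq_eq, map_sub, map_mul]
        ring
      rw [sum_congr rfl fun v _ => e v, sum_add_distrib, sum_sub_distrib, sum_sub_distrib,
        ← mul_sum, ← mul_sum, ← mul_sum, k1, k1', hc', ← hc, mul_comm c, hcc]
      push_cast
      ring
    have n2 : ∑ v, ‖ψ' v - c * ψ v‖ ^ 2 = 1 - ‖c‖ ^ 2 := Complex.ofReal_injective n1
    -- the mixed forms
    have m1 : ∑ u, ∑ v, (starRingEnd ℂ) (ψ u) * Smat2 b u v * ψ' v = l' * c := by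
      have : ∀ u, ∑ v, (starRingEnd ℂ) (ψ u) * Smat2 b u v * ψ' v =
          l' * ((starRingEnd ℂ) (ψ u) * ψ' u) := by
        intro u
        have e : ∀ v, (starRingEnd ℂ) (ψ u) * Smat2 b u v * ψ' v =
          (starRingEnd ℂ) (ψ u) * (Smat2 b u v * ψ' v) := fun v => by ring
        rw [sum_congr rfl fun v _ => e v, ← mul_sum, h2' u]
        ring
      rw [sum_congr rfl fun u _ => this u, ← mul_sum, ← hc]
    have m2 : ∑ u, ∑ v, (starRingEnd ℂ) (ψ' u) * Smat2 b u v * ψ v =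
        l * (starRingEnd ℂ) c := by
      have : ∀ u, ∑ v, (starRingEnd ℂ) (ψ' u) * Smat2 b u v * ψ v =
          l * ((starRingEnd ℂ) (ψ' u) * ψ u) := by
        intro u
        have e : ∀ v, (starRingEnd ℂ) (ψ' u) * Smat2 b u v * ψ v =
          (starRingEnd ℂ) (ψ' u) * (Smat2 b u v * ψ v) := fun v => by ring
        rw [sum_congr rfl fun v _ => e v, ← mul_sum, h2 u]
        ring
      rw [sum_congr rfl fun u _ => this u, ← mul_sum, hc']
    have m3 : ∑ u, ∑ v, (starRingEnd ℂ) (ψ u) * Smat2 b u v * ψ' v =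
        (starRingEnd ℂ) (∑ u, ∑ v, (starRingEnd ℂ) (ψ' u) * Smat2 b u v * ψ v) := by
      rw [map_sum, sum_comm]
      refine sum_congr rfl fun v _ => ?_
      rw [map_sum]
      refine sum_congr rfl fun u _ => ?_
      rw [map_mul, map_mul, Complex.conj_conj, Smat2_conj]
      ring
    have hlc : (l : ℂ) * c = l' * c := by
      rw [← m1, m3, m2, map_mul, Complex.conj_conj, Complex.conj_ofReal]
    have q1 : ∑ u, ∑ v, (starRingEnd ℂ) (ψ u) * Smat2 b u v * ψ v = l := by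
      have : ∀ u, ∑ v, (starRingEnd ℂ) (ψ u) * Smat2 b u v * ψ v =
          l * ((starRingEnd ℂ) (ψ u) * ψ u) := by
        intro u
        have e : ∀ v, (starRingEnd ℂ) (ψ u) * Smat2 b u v * ψ v =
          (starRingEnd ℂ) (ψ u) * (Smat2 b u v * ψ v) := fun v => by ring
        rw [sum_congr rfl fun v _ => e v, ← mul_sum, h2 u]
        ring
      rw [sum_congr rfl fun u _ => this u, ← mul_sum, k1, mul_one]
    have q2 : ∑ u, ∑ v, (starRingEnd ℂ) (ψ' u) * Smat2 b u v * ψ' v = l' := by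
      have : ∀ u, ∑ v, (starRingEnd ℂ) (ψ' u) * Smat2 b u v * ψ' v =
          l' * ((starRingEnd ℂ) (ψ' u) * ψ' u) := by
        intro u
        have e : ∀ v, (starRingEnd ℂ) (ψ' u) * Smat2 b u v * ψ' v =
          (starRingEnd ℂ) (ψ' u) * (Smat2 b u v * ψ' v) := fun v => by ring
        rw [sum_congr rfl fun v _ => e v, ← mul_sum, h2' u]
        ring
      rw [sum_congr rfl fun u _ => this u, ← mul_sum, k1', mul_one]
    have f1 : ∑ u, ∑ v, (starRingEnd ℂ) (ψ' u - c * ψ u) * Smat2 b u v * (ψ' v - c * ψ v) =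
        ((l' * (1 - ‖c‖ ^ 2) : ℝ) : ℂ) := by
      have e : ∀ u v, (starRingEnd ℂ) (ψ' u - c * ψ u) * Smat2 b u v * (ψ' v - c * ψ v) =
          (starRingEnd ℂ) (ψ' u) * Smat2 b u v * ψ' v -
            (starRingEnd ℂ) c * ((starRingEnd ℂ) (ψ u) * Smat2 b u v * ψ' v) -
            c * ((starRingEnd ℂ) (ψ' u) * Smat2 b u v * ψ v) +
            (starRingEnd ℂ) c * c * ((starRingEnd ℂ) (ψ u) * Smat2 b u v * ψ v) := by
        intro u v
        rw [map_sub, map_mul]
        ring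
      simp only [e, sum_add_distrib, sum_sub_distrib, ← mul_sum]
      rw [q1, q2, m1, m2, hcc]
      have e3 : (starRingEnd ℂ) c * ((l' : ℂ) * c) = l' * ((‖c‖ ^ 2 : ℝ) : ℂ) := by
        rw [← hcc]
        ring
      have e4 : c * ((l : ℂ) * (starRingEnd ℂ) c) = l' * ((‖c‖ ^ 2 : ℝ) : ℂ) := by
        calc c * ((l : ℂ) * (starRingEnd ℂ) c) = (l * c) * (starRingEnd ℂ) c := by ring
          _ = l' * ((starRingEnd ℂ) c * c) := by rw [hlc]; ring
          _ = l' * ((‖c‖ ^ 2 : ℝ) : ℂ) := by rw [hcc]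
      have e5 : ((‖c‖ ^ 2 : ℝ) : ℂ) * l = l' * ((‖c‖ ^ 2 : ℝ) : ℂ) := by
        rw [← hcc]
        calc (starRingEnd ℂ) c * c * l = (starRingEnd ℂ) c * (l * c) := by ring
          _ = l' * ((starRingEnd ℂ) c * c) := by rw [hlc]; ring
      rw [e3, e4, e5]
      push_cast
      ring
    have i1 := h3 (fun v => ψ' v - c * ψ v) (by
      have e : ∀ v, (starRingEnd ℂ) (ψ v) * (ψ' v - c * ψ v) =
        (starRingEnd ℂ) (ψ v) * ψ' v - c * ((starRingEnd ℂ) (ψ v) * ψ v) := fun v => by ring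
      rw [sum_congr rfl fun v _ => e v, sum_sub_distrib, ← mul_sum, k1, ← hc]
      ring)
    simp only [f1, n2, Complex.ofReal_re] at i1
    exact ⟨n2, hlc, i1⟩
  obtain ⟨c, hc⟩ : ∃ c, c = ∑ v, (starRingEnd ℂ) (ψ v) * ψ' v := ⟨_, rfl⟩
  obtain ⟨k1, -, k3⟩ := key h h' c hc
  obtain ⟨-, -, k3'⟩ := key h' h ((starRingEnd ℂ) c) (by
    rw [hc, map_sum]
    refine sum_congr rfl fun v _ => ?_
    rw [map_mul, Complex.conj_conj, mul_comm])
  rw [RCLike.norm_conj] at k3'
  have hnn : 0 ≤ 1 - ‖c‖ ^ 2 := by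
    rw [← k1]
    exact sum_nonneg fun v _ => sq_nonneg _
  have hc1 : 1 - ‖c‖ ^ 2 = 0 := by
    by_contra hne
    have hpos : 0 < 1 - ‖c‖ ^ 2 := lt_of_le_of_ne hnn (Ne.symm hne)
    have j1 : l' ≤ l - g := le_of_mul_le_mul_right k3 hpos
    have j2 : l ≤ l' - g' := le_of_mul_le_mul_right k3' hpos
    linarith
  have hcn : ‖c‖ = 1 := by
    have h4 : ‖c‖ ^ 2 = 1 := by linarith
    have h5 : 0 ≤ ‖c‖ := norm_nonneg c
    nlinarith
  refine ⟨c, hcn, fun v => ?_⟩
  rw [hc1] at k1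
  have h6 := (sum_eq_zero_iff_of_nonneg fun v _ => sq_nonneg ‖ψ' v - c * ψ v‖).1 k1 v (mem_univ v)
  have h7 : ‖ψ' v - c * ψ v‖ = 0 := pow_eq_zero_iff (two_ne_zero) |>.1 h6
  rw [norm_eq_zero, sub_eq_zero] at h7
  exact h7

/-! ### Frames -/

/-- A spectator function: homogeneous of degree `r` and invariant under the gauge group. -/
structure Spectator (hrm : r ∣ m) (T : (Fin N → ℂ) → ℂ) : Prop where
  smul : ∀ (z : ℂ) (ψ : Fin N → ℂ), T (fun v => z * ψ v) = z ^ r * T ψ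
  gauge : ∀ (τ : Fin N → ZMod r) (ψ : Fin N → ℂ), T (gact (m := m) hrm τ ψ) = T ψ

/-- A complex number that is real and positive. -/
def Pos (z : ℂ) : Prop := ∃ t : ℝ, 0 < t ∧ z = t

/-- A frame over `b`: a unit top eigenvector, for a simple top eigenvalue, with a positive value of
the spectator function. -/
def Frame (T : (Fin N → ℂ) → ℂ) (b : Cfg2 N m) (ψ : Fin N → ℂ) : Prop :=
  (∃ l g : ℝ, 0 < g ∧ TopPair2 (Smat2 b) l g ψ) ∧ Pos (T ψ)

variable {T : (Fin N → ℂ) → ℂ}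

theorem Frame.gauge {hrm : r ∣ m} (hT : Spectator (m := m) hrm T) {b : Cfg2 N m} {ψ : Fin N → ℂ}
    (h : Frame T b ψ) (τ : Fin N → ZMod r) :
    Frame T (b + gau hrm τ) (gact (m := m) hrm τ ψ) := by
  obtain ⟨⟨l, g, hg, h1⟩, h2⟩ := h
  exact ⟨⟨l, g, hg, h1.gauge hrm τ⟩, by rw [hT.gauge]; exact h2⟩

/-- A power of the root of unity times a frame is a frame. -/
theorem Frame.smul {hrm : r ∣ m} (hT : Spectator (m := m) hrm T) {b : Cfg2 N m} {ψ : Fin N → ℂ}
    (h : Frame T b ψ) (k : ZMod r) : Frame T b (fun v => ph (iot (m := m) hrm k) * ψ v) := by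
  have h1 := h.gauge hT (fun _ => k)
  rw [gau_const, add_zero] at h1
  exact h1

/-- A root of unity of order dividing `r` is a phase. -/
theorem exists_phase (hrm : r ∣ m) {z : ℂ} (hz : z ^ r = 1) :
    ∃ k : ZMod r, z = ph (iot (m := m) hrm k) := by
  classical
  -- the phases are `r` different roots of `X ^ r = 1`
  have hinj : Function.Injective fun k : ZMod r => ph (iot (m := m) hrm k) := by
    intro k l hkl
    exact iot_injective hrm (ZMod.injective_stdAddChar hkl)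
  have hr : 0 < r := Nat.pos_of_ne_zero (NeZero.ne r)
  have h1 : (univ.image fun k : ZMod r => ph (iot (m := m) hrm k)) ⊆
      (Polynomial.nthRoots r (1 : ℂ)).toFinset := by
    intro x hx
    obtain ⟨k, -, rfl⟩ := mem_image.1 hx
    rw [Multiset.mem_toFinset, Polynomial.mem_nthRoots hr]
    exact ph_iot_pow hrm k
  have h2 : (univ.image fun k : ZMod r => ph (iot (m := m) hrm k)).card = r := by
    rw [card_image_of_injective _ hinj, card_univ, ZMod.card]
  have h3 : (Polynomial.nthRoots r (1 : ℂ)).toFinset.card ≤ r :=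
    (Multiset.toFinset_card_le _).trans (Polynomial.card_nthRoots r 1)
  have h4 := eq_of_subset_of_card_le h1 (by omega)
  have h5 : z ∈ (Polynomial.nthRoots r (1 : ℂ)).toFinset := by
    rw [Multiset.mem_toFinset, Polynomial.mem_nthRoots hr]
    exact hz
  rw [← h4] at h5
  obtain ⟨k, -, hk⟩ := mem_image.1 h5
  exact ⟨k, hk.symm⟩

/-- Two frames over one configuration differ by a root of unity. -/
theorem Frame.unique {hrm : r ∣ m} (hT : Spectator (m := m) hrm T) {b : Cfg2 N m}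
    {ψ ψ' : Fin N → ℂ} (h : Frame T b ψ) (h' : Frame T b ψ') :
    ∃ k : ZMod r, ∀ v, ψ' v = ph (iot (m := m) hrm k) * ψ v := by
  obtain ⟨⟨l, g, hg, h1⟩, t, ht, h2⟩ := h
  obtain ⟨⟨l', g', hg', h1'⟩, t', ht', h2'⟩ := h'
  obtain ⟨z, hz, h3⟩ := h1.unique hg hg' h1'
  have h4 : ψ' = fun v => z * ψ v := funext h3
  rw [h4, hT.smul, h2] at h2'
  have hr : r ≠ 0 := NeZero.ne r
  have h5 : z ^ r = ((t' / t : ℝ) : ℂ) := by
    have ht0 : (t : ℂ) ≠ 0 := by exact_mod_cast ht.ne'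
    rw [Complex.ofReal_div, eq_div_iff ht0]
    exact h2'
  have h6 : t' / t = 1 := by
    have h7 : ‖z ^ r‖ = 1 := by rw [norm_pow, hz, one_pow]
    rw [h5, Complex.norm_real, Real.norm_eq_abs, abs_of_pos (div_pos ht' ht)] at h7
    exact h7
  rw [h6, Complex.ofReal_one] at h5
  obtain ⟨k, hk⟩ := exists_phase (m := m) hrm h5
  exact ⟨k, fun v => by rw [h3, hk]⟩

/-! ### The choice of the frames -/

open Classical in
/-- A choice of a frame. -/
noncomputable def psi0 (T : (Fin N → ℂ) → ℂ) (b : Cfg2 N m) : Fin N → ℂ :=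
  if h : ∃ ψ, Frame T b ψ then Classical.choose h else 0

theorem psi0_spec {b : Cfg2 N m} {ψ : Fin N → ℂ} (h : Frame T b ψ) : Frame T b (psi0 T b) := by
  have h' : ∃ ψ, Frame T b ψ := ⟨ψ, h⟩
  unfold psi0
  rw [dif_pos h']
  exact Classical.choose_spec h'

/-- The exponent of the entry `(v0, v)`. -/
def ent (v0 : Fin N) (b : Cfg2 N m) (v : Fin N) : ZMod m :=
  if h : v0 < v then b ⟨(v0, v), h⟩ else if h' : v < v0 then -b ⟨(v, v0), h'⟩ else 0

theorem ent_gau (hrm : r ∣ m) (v0 : Fin N) (b : Cfg2 N m) (τ : Fin N → ZMod r) (v : Fin N) :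
    ent v0 (b + gau hrm τ) v = ent v0 b v + iot hrm (τ v0 - τ v) := by
  unfold ent
  rcases lt_trichotomy v0 v with h | h | h
  · rw [dif_pos h, dif_pos h, Pi.add_apply, map_sub]
    rfl
  · subst h
    rw [dif_neg (lt_irrefl _), dif_neg (lt_irrefl _), dif_neg (lt_irrefl _),
      dif_neg (lt_irrefl _), sub_self, map_zero, add_zero]
  · rw [dif_neg (not_lt.2 h.le), dif_pos h, dif_neg (not_lt.2 h.le), dif_pos h, Pi.add_apply,
      map_sub]
    show -(b ⟨(v, v0), h⟩ + (iot hrm (τ v) - iot hrm (τ v0))) = _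
    ring

/-- The representative of a class modulo the subgroup of order `r`. -/
noncomputable def rep (hrm : r ∣ m) (x : ZMod m) : ZMod m :=
  Quotient.out (QuotientAddGroup.mk x : ZMod m ⧸ (iot (m := m) hrm).range)

theorem exists_del (hrm : r ∣ m) (x : ZMod m) : ∃ k : ZMod r, iot hrm k = x - rep hrm x := by
  have h1 : (QuotientAddGroup.mk (rep hrm x) : ZMod m ⧸ (iot (m := m) hrm).range) =
      QuotientAddGroup.mk x := Quotient.out_eq' _
  rw [QuotientAddGroup.eq] at h1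
  obtain ⟨k, hk⟩ := h1
  exact ⟨k, by rw [hk]; ring⟩

/-- The part of `x` in the subgroup of order `r`. -/
noncomputable def del (hrm : r ∣ m) (x : ZMod m) : ZMod r := Classical.choose (exists_del hrm x)

theorem iot_del (hrm : r ∣ m) (x : ZMod m) : iot hrm (del hrm x) = x - rep hrm x :=
  Classical.choose_spec (exists_del hrm x)

theorem del_add (hrm : r ∣ m) (x : ZMod m) (k : ZMod r) :
    del hrm (x + iot hrm k) = del hrm x + k := by
  apply iot_injective (m := m) hrm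
  rw [map_add, iot_del, iot_del]
  have h1 : rep hrm (x + iot hrm k) = rep hrm x := by
    unfold rep
    congr 1
    rw [QuotientAddGroup.eq]
    refine ⟨-k, ?_⟩
    rw [map_neg]
    ring
  rw [h1]
  ring

/-- The gauge parameter of a configuration, relative to the slice. -/
noncomputable def tau (hrm : r ∣ m) (v0 : Fin N) (b : Cfg2 N m) : Fin N → ZMod r :=
  fun v => del hrm (ent v0 b v0) - del hrm (ent v0 b v)

theorem tau_gau (hrm : r ∣ m) (v0 : Fin N) (b : Cfg2 N m) (τ : Fin N → ZMod r) :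
    tau hrm v0 (b + gau hrm τ) = (fun _ => -τ v0) + (τ + tau hrm v0 b) := by
  funext v
  show del hrm (ent v0 (b + gau hrm τ) v0) - del hrm (ent v0 (b + gau hrm τ) v) =
    -τ v0 + (τ v + (del hrm (ent v0 b v0) - del hrm (ent v0 b v)))
  rw [ent_gau, ent_gau, del_add, del_add]
  ring

/-- The covariant choice of the frames. -/
noncomputable def psi (hrm : r ∣ m) (T : (Fin N → ℂ) → ℂ) (v0 : Fin N) (b : Cfg2 N m) :
    Fin N → ℂ := gact (m := m) hrm (tau hrm v0 b) (psi0 T (b - gau hrm (tau hrm v0 b)))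

/-- The choice is covariant. -/
theorem psi_gau (hrm : r ∣ m) (v0 : Fin N) (b : Cfg2 N m) (τ : Fin N → ZMod r) (u : Fin N) :
    psi hrm T v0 (b + gau hrm τ) u =
      ph (iot (m := m) hrm (-τ v0)) * gact (m := m) hrm τ (psi hrm T v0 b) u := by
  have h1 : b + gau hrm τ - gau hrm (tau hrm v0 (b + gau hrm τ)) =
      b - gau hrm (tau hrm v0 b) := by
    rw [tau_gau, gau_add, gau_add, gau_const]
    abel
  unfold psi
  rw [h1, tau_gau, gact_add, gact_add]
  rfl

theorem psi_spec {hrm : r ∣ m} (hT : Spectator (m := m) hrm T) (v0 : Fin N) {b : Cfg2 N m}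
    {ψ : Fin N → ℂ} (h : Frame T b ψ) : Frame T b (psi hrm T v0 b) := by
  have h1 := h.gauge hT (-tau hrm v0 b)
  rw [gau_neg, ← sub_eq_add_neg] at h1
  have h2 := (psi0_spec h1).gauge hT (tau hrm v0 b)
  rw [sub_add_cancel] at h2
  exact h2

/-! ### Distances -/

/-- The square of the distance of two vectors. -/
noncomputable def ds (x y : Fin N → ℂ) : ℝ := ∑ v, ‖x v - y v‖ ^ 2

theorem ds_eq (x y : Fin N → ℂ) :
    ds x y = ‖(WithLp.toLp 2 x : EuclideanSpace ℂ (Fin N)) - WithLp.toLp 2 y‖ ^ 2 := by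
  rw [EuclideanSpace.norm_eq, Real.sq_sqrt (sum_nonneg fun v _ => sq_nonneg _)]
  rfl

theorem ds_le_iff {x y : Fin N → ℂ} {ε : ℝ} (hε : 0 ≤ ε) :
    ds x y ≤ ε ^ 2 ↔ ‖(WithLp.toLp 2 x : EuclideanSpace ℂ (Fin N)) - WithLp.toLp 2 y‖ ≤ ε := by
  rw [ds_eq]
  exact pow_le_pow_iff_left₀ (norm_nonneg _) hε two_ne_zero

theorem ds_comm (x y : Fin N → ℂ) : ds x y = ds y x :=
  sum_congr rfl fun v _ => by rw [norm_sub_rev]

theorem ds_triangle {x y z : Fin N → ℂ} {ε δ : ℝ} (hε : 0 ≤ ε) (hδ : 0 ≤ δ)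
    (h1 : ds x y ≤ ε ^ 2) (h2 : ds y z ≤ δ ^ 2) : ds x z ≤ (ε + δ) ^ 2 := by
  rw [ds_le_iff hε] at h1
  rw [ds_le_iff hδ] at h2
  rw [ds_le_iff (add_nonneg hε hδ)]
  exact (norm_sub_le_norm_sub_add_norm_sub _ _ _).trans (add_le_add h1 h2)

theorem ds_smul {z : ℂ} (hz : ‖z‖ = 1) (x y : Fin N → ℂ) :
    ds (fun v => z * x v) (fun v => z * y v) = ds x y := by
  refine sum_congr rfl fun v _ => ?_
  rw [← mul_sub, norm_mul, hz, one_mul]

theorem ds_gact (hrm : r ∣ m) (τ : Fin N → ZMod r) (x y : Fin N → ℂ) :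
    ds (gact (m := m) hrm τ x) (gact (m := m) hrm τ y) = ds x y := by
  refine sum_congr rfl fun v _ => ?_
  show ‖ph (iot hrm (τ v)) * x v - ph (iot hrm (τ v)) * y v‖ ^ 2 = _
  rw [← mul_sub, norm_mul, norm_ph, one_mul]

/-- The constant `ε` is small with respect to the distances of the `r`-th roots of unity. -/
def Small (hrm : r ∣ m) (ε : ℝ) : Prop :=
  0 ≤ ε ∧ ∀ k : ZMod r, k ≠ 0 → 4 * ε < ‖1 - ph (iot (m := m) hrm k)‖

theorem exists_small (hrm : r ∣ m) : ∃ ε : ℝ, 0 < ε ∧ Small (m := m) hrm ε := by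
  classical
  have h1 : ∀ k : ZMod r, k ≠ 0 → 0 < ‖1 - ph (iot (m := m) hrm k)‖ := by
    intro k hk
    rw [norm_pos_iff, sub_ne_zero]
    intro h
    apply hk
    have h2 : ph (0 : ZMod m) = ph (iot hrm k) := by rw [ph_zero]; exact h
    have h3 : (0 : ZMod m) = iot hrm k := ZMod.injective_stdAddChar h2
    exact iot_injective (m := m) hrm (by rw [← h3, map_zero])
  by_cases hne : (univ.filter fun k : ZMod r => k ≠ 0).Nonempty
  · obtain ⟨k, hk, hmin⟩ := (univ.filter fun k : ZMod r => k ≠ 0).exists_min_image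
      (fun k => ‖1 - ph (iot (m := m) hrm k)‖) hne
    have h2 := h1 k (mem_filter.1 hk).2
    refine ⟨‖1 - ph (iot (m := m) hrm k)‖ / 5, by positivity, by positivity, fun l hl => ?_⟩
    have h3 := hmin l (mem_filter.2 ⟨mem_univ l, hl⟩)
    linarith
  · rw [not_nonempty_iff_eq_empty] at hne
    refine ⟨1, one_pos, zero_le_one, fun k hk => ?_⟩
    have : k ∈ univ.filter fun k : ZMod r => k ≠ 0 := mem_filter.2 ⟨mem_univ k, hk⟩
    rw [hne] at this
    exact absurd this (notMem_empty k)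

/-- The phase between two close frames is unique. -/
theorem phase_unique {hrm : r ∣ m} {ε : ℝ} (hε : Small (m := m) hrm ε) {x y : Fin N → ℂ}
    (hx : ∑ v, ‖x v‖ ^ 2 = 1) {k l : ZMod r}
    (hk : ds y (fun v => ph (iot (m := m) hrm k) * x v) ≤ (2 * ε) ^ 2)
    (hl : ds y (fun v => ph (iot (m := m) hrm l) * x v) ≤ (2 * ε) ^ 2) : k = l := by
  by_contra hne
  have h2ε : 0 ≤ 2 * ε := by linarith [hε.1]
  rw [ds_comm] at hk
  have h1 := ds_triangle h2ε h2ε hk hl
  have h2 : ds (fun v => ph (iot (m := m) hrm k) * x v) (fun v => ph (iot (m := m) hrm l) * x v) =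
      ‖1 - ph (iot (m := m) hrm (l - k))‖ ^ 2 := by
    have e : ∀ v, ‖ph (iot (m := m) hrm k) * x v - ph (iot (m := m) hrm l) * x v‖ ^ 2 =
        ‖1 - ph (iot (m := m) hrm (l - k))‖ ^ 2 * ‖x v‖ ^ 2 := by
      intro v
      have h3 : ph (iot (m := m) hrm l) =
          ph (iot (m := m) hrm k) * ph (iot (m := m) hrm (l - k)) := by
        rw [← ph_add, ← map_add, add_sub_cancel]
      rw [h3]
      have h4 : ph (iot (m := m) hrm k) * x v -
          ph (iot (m := m) hrm k) * ph (iot (m := m) hrm (l - k)) * x v =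
          ph (iot (m := m) hrm k) * ((1 - ph (iot (m := m) hrm (l - k))) * x v) := by ring
      rw [h4, norm_mul, norm_ph, one_mul, norm_mul, mul_pow]
    unfold ds
    rw [sum_congr rfl fun v _ => e v, ← mul_sum, hx, mul_one]
  rw [h2] at h1
  have h3 : ‖1 - ph (iot (m := m) hrm (l - k))‖ ≤ 2 * ε + 2 * ε :=
    (pow_le_pow_iff_left₀ (norm_nonneg _) (by linarith) two_ne_zero).1 h1
  have h4 := hε.2 (l - k) (sub_ne_zero.2 (Ne.symm hne))
  linarith

/-! ### The neighbourhoods of the good set -/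

/-- The conclusion of the random matrix part, for the set `Gam`: the frames over the configurations
at most `L` moves away from a configuration in `Gam` are close to each other, and have small
entries. -/
def GoodSet (T : (Fin N → ℂ) → ℂ) (r L : ℕ) (ε : ℝ) (Gam : Finset (Cfg2 N m)) : Prop :=
  ∀ a ∈ Gam, ∀ l : List (Cfg2 N m), (∀ x ∈ l, IsMove2 r x) → l.length ≤ L →
    ∃ ψa ψb : Fin N → ℂ, Frame T a ψa ∧ Frame T (a + l.sum) ψb ∧ ds ψb ψa ≤ ε ^ 2 ∧
      ∀ v, ‖ψb v‖ ^ 2 ≤ ε ^ 2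

/-- The gauge closure of the set of the configurations at most `i` moves away from `Gam`. -/
def Nbh (hrm : r ∣ m) (Gam : Finset (Cfg2 N m)) (i : ℕ) : Set (Cfg2 N m) :=
  {b | ∃ (τ : Fin N → ZMod r) (a : Cfg2 N m) (l : List (Cfg2 N m)), a ∈ Gam ∧
    (∀ x ∈ l, IsMove2 r x) ∧ l.length ≤ i ∧ b + gau hrm τ = a + l.sum}

theorem subset_Nbh (hrm : r ∣ m) (Gam : Finset (Cfg2 N m)) : ∀ a ∈ Gam, a ∈ Nbh hrm Gam 0 := by
  intro a ha
  refine ⟨0, a, [], ha, by simp, by simp, ?_⟩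
  rw [gau_zero]
  simp

theorem Nbh_mono (hrm : r ∣ m) (Gam : Finset (Cfg2 N m)) {i j : ℕ} (h : i ≤ j) :
    Nbh hrm Gam i ⊆ Nbh hrm Gam j := by
  rintro b ⟨τ, a, l, h1, h2, h3, h4⟩
  exact ⟨τ, a, l, h1, h2, h3.trans h, h4⟩

theorem Nbh_add (hrm : r ∣ m) (Gam : Finset (Cfg2 N m)) {i : ℕ} {b : Cfg2 N m}
    (hb : b ∈ Nbh hrm Gam i) {l : List (Cfg2 N m)} (hl : ∀ x ∈ l, IsMove2 r x) :
    b + l.sum ∈ Nbh hrm Gam (i + l.length) := by
  obtain ⟨τ, a, l', h1, h2, h3, h4⟩ := hb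
  refine ⟨τ, a, l' ++ l, h1, ?_, ?_, ?_⟩
  · intro x hx
    rcases List.mem_append.1 hx with h | h
    · exact h2 x h
    · exact hl x h
  · rw [List.length_append]
    omega
  · rw [List.sum_append, ← add_assoc, ← h4]
    abel

theorem Nbh_gau (hrm : r ∣ m) (Gam : Finset (Cfg2 N m)) {i : ℕ} {b : Cfg2 N m}
    (hb : b ∈ Nbh hrm Gam i) (τ' : Fin N → ZMod r) : b + gau hrm τ' ∈ Nbh hrm Gam i := by
  obtain ⟨τ, a, l, h1, h2, h3, h4⟩ := hb
  refine ⟨-τ' + τ, a, l, h1, h2, h3, ?_⟩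
  rw [gau_add, gau_neg, ← h4]
  abel

variable {L : ℕ} {Gam : Finset (Cfg2 N m)} {ε : ℝ}

theorem frame_of_mem {hrm : r ∣ m} (hT : Spectator (m := m) hrm T) (v0 : Fin N)
    (hG : GoodSet T r L ε Gam) {b : Cfg2 N m} (hb : b ∈ Nbh hrm Gam L) :
    Frame T b (psi hrm T v0 b) := by
  obtain ⟨τ, a, l, h1, h2, h3, h4⟩ := hb
  obtain ⟨ψa, ψb, -, hb, -, -⟩ := hG a h1 l h2 h3
  rw [← h4] at hb
  have h5 := hb.gauge hT (-τ)
  rw [gau_neg, add_neg_cancel_right] at h5
  exact psi_spec hT v0 h5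

theorem Frame.norm {b : Cfg2 N m} {ψ : Fin N → ℂ} (h : Frame T b ψ) : ∑ v, ‖ψ v‖ ^ 2 = 1 := by
  obtain ⟨⟨l, g, -, h1⟩, -⟩ := h
  exact h1.1

/-- Delocalization. -/
theorem psi_small {hrm : r ∣ m} (hT : Spectator (m := m) hrm T) (v0 : Fin N)
    (hG : GoodSet T r L ε Gam) {b : Cfg2 N m} (hb : b ∈ Nbh hrm Gam L) (v : Fin N) :
    ‖psi hrm T v0 b v‖ ^ 2 ≤ ε ^ 2 := by
  obtain ⟨τ, a, l, h1, h2, h3, h4⟩ := hb
  obtain ⟨ψa, ψb, -, hb, -, hs⟩ := hG a h1 l h2 h3
  have h5 : ‖psi hrm T v0 b v‖ = ‖psi hrm T v0 (b + gau hrm τ) v‖ := by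
    rw [psi_gau, norm_mul, norm_ph, one_mul, norm_gact]
  obtain ⟨k, hk⟩ := hb.unique hT (psi_spec hT v0 hb)
  rw [h5, h4, hk, norm_mul, norm_ph, one_mul]
  exact hs v

/-- The points of a ball are close to its centre. -/
theorem near_centre {hrm : r ∣ m} (hT : Spectator (m := m) hrm T) (v0 : Fin N)
    (hG : GoodSet T r L ε Gam) {a : Cfg2 N m} (ha : a ∈ Gam) {l : List (Cfg2 N m)}
    (hl : ∀ x ∈ l, IsMove2 r x) (hL : l.length ≤ L) :
    ∃ k : ZMod r, ds (psi hrm T v0 (a + l.sum))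
      (fun v => ph (iot (m := m) hrm k) * psi hrm T v0 a v) ≤ ε ^ 2 := by
  obtain ⟨ψa, ψb, h1, h2, h3, -⟩ := hG a ha l hl hL
  obtain ⟨k, hk⟩ := (psi_spec hT v0 h1).unique hT h1
  obtain ⟨k', hk'⟩ := h2.unique hT (psi_spec hT v0 h2)
  refine ⟨k' + k, ?_⟩
  have e1 : (fun v => ph (iot (m := m) hrm (k' + k)) * psi hrm T v0 a v) =
      fun v => ph (iot (m := m) hrm k') * ψa v := by
    funext v
    rw [hk v, map_add, ph_add, mul_assoc]
  have e2 : psi hrm T v0 (a + l.sum) = fun v => ph (iot (m := m) hrm k') * ψb v := funext hk'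
  rw [e1, e2, ds_smul (norm_ph _)]
  exact h3

open Classical in
/-- The transport from `b` to `c`: the frame over `c` is close to the phase of this element times
the frame over `b`. -/
noncomputable def sig (hrm : r ∣ m) (T : (Fin N → ℂ) → ℂ) (ε : ℝ) (v0 : Fin N)
    (b c : Cfg2 N m) : ZMod r :=
  if h : ∃ k : ZMod r, ds (psi hrm T v0 c)
      (fun v => ph (iot (m := m) hrm k) * psi hrm T v0 b v) ≤ (2 * ε) ^ 2
  then Classical.choose h else 0

/-- The transport is determined by one close pair. -/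
theorem sig_eq {hrm : r ∣ m} (hε : Small (m := m) hrm ε) (v0 : Fin N) {b c : Cfg2 N m}
    (hb : Frame T b (psi hrm T v0 b)) {k : ZMod r}
    (hk : ds (psi hrm T v0 c) (fun v => ph (iot (m := m) hrm k) * psi hrm T v0 b v) ≤
      (2 * ε) ^ 2) : sig hrm T ε v0 b c = k := by
  have h : ∃ k : ZMod r, ds (psi hrm T v0 c)
      (fun v => ph (iot (m := m) hrm k) * psi hrm T v0 b v) ≤ (2 * ε) ^ 2 := ⟨k, hk⟩
  unfold sig
  rw [dif_pos h]
  exact phase_unique hε hb.norm (Classical.choose_spec h) hk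

theorem sig_gau (hrm : r ∣ m) (v0 : Fin N) (b c : Cfg2 N m) (τ : Fin N → ZMod r) :
    sig hrm T ε v0 (b + gau hrm τ) (c + gau hrm τ) = sig hrm T ε v0 b c := by
  have h1 : ∀ k : ZMod r, ds (psi hrm T v0 (c + gau hrm τ))
      (fun v => ph (iot (m := m) hrm k) * psi hrm T v0 (b + gau hrm τ) v) =
      ds (psi hrm T v0 c) (fun v => ph (iot (m := m) hrm k) * psi hrm T v0 b v) := by
    intro k
    have e1 : psi hrm T v0 (c + gau hrm τ) = fun v =>
      ph (iot (m := m) hrm (-τ v0)) * gact (m := m) hrm τ (psi hrm T v0 c) v :=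
      funext fun v => psi_gau hrm v0 c τ v
    have e2 : (fun v => ph (iot (m := m) hrm k) * psi hrm T v0 (b + gau hrm τ) v) = fun v =>
        ph (iot (m := m) hrm (-τ v0)) * gact (m := m) hrm τ
          (fun v => ph (iot (m := m) hrm k) * psi hrm T v0 b v) v := by
      funext v
      rw [psi_gau]
      show ph (iot hrm k) * (ph (iot hrm (-τ v0)) * (ph (iot hrm (τ v)) * psi hrm T v0 b v)) =
        ph (iot hrm (-τ v0)) * (ph (iot hrm (τ v)) * (ph (iot hrm k) * psi hrm T v0 b v))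
      ring
    rw [e1, e2, ds_smul (norm_ph _), ds_gact]
  unfold sig
  simp only [h1]

theorem sig_self {hrm : r ∣ m} (hε : Small (m := m) hrm ε) (v0 : Fin N) {b : Cfg2 N m}
    (hb : Frame T b (psi hrm T v0 b)) : sig hrm T ε v0 b b = 0 := by
  refine sig_eq hε v0 hb ?_
  rw [map_zero, ph_zero]
  simp only [one_mul]
  unfold ds
  rw [sum_congr rfl fun v _ => by rw [sub_self, norm_zero, zero_pow two_ne_zero], sum_const_zero]
  positivity

/-- In a ball, the transport is the difference of the transports from the centre. -/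
theorem sig_ball {hrm : r ∣ m} (hT : Spectator (m := m) hrm T) (hε : Small (m := m) hrm ε)
    (v0 : Fin N) (hG : GoodSet T r L ε Gam) {a : Cfg2 N m} (ha : a ∈ Gam)
    {l l' : List (Cfg2 N m)} (hl : ∀ x ∈ l, IsMove2 r x) (hL : l.length ≤ L) {k k' : ZMod r}
    (hk : ds (psi hrm T v0 (a + l.sum))
      (fun v => ph (iot (m := m) hrm k) * psi hrm T v0 a v) ≤ ε ^ 2)
    (hk' : ds (psi hrm T v0 (a + l'.sum))
      (fun v => ph (iot (m := m) hrm k') * psi hrm T v0 a v) ≤ ε ^ 2) :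
    sig hrm T ε v0 (a + l.sum) (a + l'.sum) = k' - k := by
  have haN := subset_Nbh hrm Gam a ha
  have h1 := frame_of_mem hT v0 hG (Nbh_mono hrm Gam (by simpa using hL) (Nbh_add hrm Gam haN hl))
  refine sig_eq hε v0 h1 ?_
  have h2 : ds (fun v => ph (iot (m := m) hrm k') * psi hrm T v0 a v)
      (fun v => ph (iot (m := m) hrm (k' - k)) * psi hrm T v0 (a + l.sum) v) ≤ ε ^ 2 := by
    have e1 : (fun v => ph (iot (m := m) hrm k') * psi hrm T v0 a v) = fun v =>
        ph (iot (m := m) hrm (k' - k)) * (ph (iot (m := m) hrm k) * psi hrm T v0 a v) := by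
      funext v
      rw [← mul_assoc, ← ph_add, ← map_add, sub_add_cancel]
    rw [e1, ds_smul (norm_ph _), ds_comm]
    exact hk
  have h3 := ds_triangle hε.1 hε.1 hk' h2
  rw [two_mul]
  exact h3

/-- The transport has no holonomy in a ball. -/
theorem sig_cocycle {hrm : r ∣ m} (hT : Spectator (m := m) hrm T) (hε : Small (m := m) hrm ε)
    (v0 : Fin N) (hG : GoodSet T r L ε Gam) {i : ℕ} {c : Cfg2 N m} (hc : c ∈ Nbh hrm Gam i)
    {l l' : List (Cfg2 N m)} (hl : ∀ x ∈ l, IsMove2 r x) (hl' : ∀ x ∈ l', IsMove2 r x)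
    (hL : i + l.length + l'.length ≤ L) :
    sig hrm T ε v0 (c + l.sum + l'.sum) (c + l.sum) + sig hrm T ε v0 (c + l.sum) c =
      sig hrm T ε v0 (c + l.sum + l'.sum) c := by
  obtain ⟨τ, a, l₀, h1, h2, h3, h4⟩ := hc
  have e1 : c + l.sum + gau hrm τ = a + (l₀ ++ l).sum := by
    rw [List.sum_append, ← add_assoc, ← h4]
    abel
  have e2 : c + l.sum + l'.sum + gau hrm τ = a + (l₀ ++ l ++ l').sum := by
    rw [List.sum_append, List.sum_append, ← add_assoc, ← add_assoc, ← h4]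
    abel
  have m1 : ∀ x ∈ l₀ ++ l, IsMove2 r x := by
    intro x hx
    rcases List.mem_append.1 hx with h | h
    · exact h2 x h
    · exact hl x h
  have m2 : ∀ x ∈ l₀ ++ l ++ l', IsMove2 r x := by
    intro x hx
    rcases List.mem_append.1 hx with h | h
    · exact m1 x h
    · exact hl' x h
  have n0 : l₀.length ≤ L := by omega
  have n1 : (l₀ ++ l).length ≤ L := by
    rw [List.length_append]
    omega
  have n2 : (l₀ ++ l ++ l').length ≤ L := by
    rw [List.length_append, List.length_append]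
    omega
  obtain ⟨k₀, hk₀⟩ := near_centre hT v0 hG h1 h2 n0
  obtain ⟨k₁, hk₁⟩ := near_centre hT v0 hG h1 m1 n1
  obtain ⟨k₂, hk₂⟩ := near_centre hT v0 hG h1 m2 n2
  rw [← sig_gau hrm v0 (c + l.sum + l'.sum) (c + l.sum) τ, ← sig_gau hrm v0 (c + l.sum) c τ,
    ← sig_gau hrm v0 (c + l.sum + l'.sum) c τ, e1, e2, h4,
    sig_ball hT hε v0 hG h1 m2 n2 hk₂ hk₁, sig_ball hT hε v0 hG h1 m1 n1 hk₁ hk₀,
    sig_ball hT hε v0 hG h1 m2 n2 hk₂ hk₀]
  ring

/-- The full move of a row. -/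
theorem sig_row {hrm : r ∣ m} (hT : Spectator (m := m) hrm T) (hε : Small (m := m) hrm ε)
    (v0 : Fin N) (hG : GoodSet T r L ε Gam) {b : Cfg2 N m} (hb : b ∈ Nbh hrm Gam L) (v : Fin N)
    (k : ZMod r) : sig hrm T ε v0 b (b + mvRow2 v univ (iot hrm k)) = if v = v0 then -k else 0 := by
  refine sig_eq hε v0 (frame_of_mem hT v0 hG hb) ?_
  have h2 := psi_small hT v0 hG hb v
  have h3 : ds (gact (m := m) hrm (Pi.single v k) (psi hrm T v0 b)) (psi hrm T v0 b) ≤
      (2 * ε) ^ 2 := by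
    have e : ∀ u, ‖gact (m := m) hrm (Pi.single v k) (psi hrm T v0 b) u -
        psi hrm T v0 b u‖ ^ 2 ≤ if u = v then (2 * ε) ^ 2 else 0 := by
      intro u
      show ‖ph (iot hrm ((Pi.single v k : Fin N → ZMod r) u)) * psi hrm T v0 b u -
        psi hrm T v0 b u‖ ^ 2 ≤ _
      by_cases h : u = v
      · rw [if_pos h, h, Pi.single_eq_same]
        have e1 : ph (iot (m := m) hrm k) * psi hrm T v0 b v - psi hrm T v0 b v =
            (ph (iot (m := m) hrm k) - 1) * psi hrm T v0 b v := by ring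
        have e2 : ‖ph (iot (m := m) hrm k) - 1‖ ≤ 2 := by
          refine (norm_sub_le _ _).trans ?_
          rw [norm_ph, norm_one]
          norm_num
        rw [e1, norm_mul, mul_pow, mul_pow]
        exact mul_le_mul (pow_le_pow_left₀ (norm_nonneg _) e2 2) h2 (by positivity) (by norm_num)
      · rw [if_neg h, Pi.single_eq_of_ne h, map_zero, ph_zero, one_mul, sub_self, norm_zero,
          zero_pow two_ne_zero]
    refine (sum_le_sum fun u _ => e u).trans ?_
    rw [sum_ite_eq' univ v, if_pos (mem_univ v)]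
  have h4 : psi hrm T v0 (b + mvRow2 v univ (iot hrm k)) = fun u =>
      ph (iot (m := m) hrm (-(Pi.single v k : Fin N → ZMod r) v0)) *
        gact (m := m) hrm (Pi.single v k) (psi hrm T v0 b) u := by
    funext u
    rw [mvRow2_univ, psi_gau]
  have h5 : (if v = v0 then -k else 0) = -(Pi.single v k : Fin N → ZMod r) v0 := by
    by_cases h : v = v0
    · subst h
      rw [if_pos rfl, Pi.single_eq_same]
    · rw [if_neg h, Pi.single_eq_of_ne (Ne.symm h), neg_zero]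
  rw [h4, h5, ds_smul (norm_ph _)]
  exact h3

/-! ### Families of moves -/

section Families

variable {V : Type} [Fintype V]

/-- The size of the support of `S`. -/
def supp (S : V → ZMod r) : ℕ := (univ.filter fun v => S v ≠ 0).card

/-- The sum of the multiples of the moves, as the sum of a list. -/
theorem exists_list {mv : V → Cfg2 N m} (hmv : ∀ v (k : ZMod r), IsMove2 r (k.val • mv v))
    (S : V → ZMod r) : ∃ l : List (Cfg2 N m), (∀ x ∈ l, IsMove2 r x) ∧ l.length = supp S ∧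
      l.sum = ∑ v, (S v).val • mv v := by
  classical
  refine ⟨(univ.filter fun v => S v ≠ 0).toList.map fun v => (S v).val • mv v, ?_, ?_, ?_⟩
  · intro x hx
    obtain ⟨v, -, rfl⟩ := List.mem_map.1 hx
    exact hmv v (S v)
  · rw [List.length_map, length_toList]
    rfl
  · rw [sum_map_toList, sum_filter]
    refine sum_congr rfl fun v _ => ?_
    by_cases h : S v = 0
    · rw [if_neg (by simpa using h), h, ZMod.val_zero, zero_smul]
    · rw [if_pos h]

theorem Nbh_move (hrm : r ∣ m) (Gam : Finset (Cfg2 N m)) {mv : V → Cfg2 N m}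
    (hmv : ∀ v (k : ZMod r), IsMove2 r (k.val • mv v)) {i : ℕ} {c : Cfg2 N m}
    (hc : c ∈ Nbh hrm Gam i) (S : V → ZMod r) :
    c + ∑ v, (S v).val • mv v ∈ Nbh hrm Gam (i + supp S) := by
  obtain ⟨l, h1, h2, h3⟩ := exists_list hmv S
  rw [← h2, ← h3]
  exact Nbh_add hrm Gam hc h1

theorem sig_move {hrm : r ∣ m} (hT : Spectator (m := m) hrm T) (hε : Small (m := m) hrm ε)
    (v0 : Fin N) (hG : GoodSet T r L ε Gam) {mv : V → Cfg2 N m}
    (hmv : ∀ v (k : ZMod r), IsMove2 r (k.val • mv v)) {i : ℕ} {c : Cfg2 N m}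
    (hc : c ∈ Nbh hrm Gam i) (S S' : V → ZMod r) (hL : i + supp S + supp S' ≤ L) :
    sig hrm T ε v0 (c + ∑ v, (S' v).val • mv v + ∑ v, (S v).val • mv v)
        (c + ∑ v, (S' v).val • mv v) +
        sig hrm T ε v0 (c + ∑ v, (S' v).val • mv v) c =
      sig hrm T ε v0 (c + ∑ v, (S' v).val • mv v + ∑ v, (S v).val • mv v) c := by
  obtain ⟨l, h1, h2, h3⟩ := exists_list hmv S
  obtain ⟨l', h1', h2', h3'⟩ := exists_list hmv S'
  rw [← h3, ← h3']
  exact sig_cocycle hT hε v0 hG hc h1' h1 (by omega)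

end Families

/-! ### The spectator function of a vector of phases -/

/-- The spectator function `∑ c u ψ u ^ r`. -/
theorem spectator_sum (hrm : r ∣ m) (c : Fin N → ℂ) :
    Spectator (m := m) hrm (fun ψ : Fin N → ℂ => ∑ u, c u * ψ u ^ r) := by
  constructor
  · intro z ψ
    show ∑ u, c u * (z * ψ u) ^ r = z ^ r * ∑ u, c u * ψ u ^ r
    rw [mul_sum]
    refine sum_congr rfl fun u _ => ?_
    rw [mul_pow]
    ring
  · intro τ ψ
    show ∑ u, c u * (ph (iot hrm (τ u)) * ψ u) ^ r = ∑ u, c u * ψ u ^ r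
    refine sum_congr rfl fun u _ => ?_
    rw [mul_pow, ph_iot_pow, one_mul]

end Herm

end Pool.Agent.MP_9cec2c_lc.Flat
end

section

/-!
FLAT, FM7: the quadratic form of a row, for a matrix that does not depend on the row; the number of
the configurations near a bad set.
-/

set_option autoImplicit false
set_option linter.unusedSectionVars false

namespace Pool.Agent.MP_9cec2c_lc.Flat

open Finset

variable {N : ℕ}

/-- The set of a bit string. -/
def bset (x : Fin N → Bool) : Finset (Fin N) := univ.filter fun u => x u = true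

theorem mem_bset (x : Fin N → Bool) (u : Fin N) : u ∈ bset x ↔ x u = true := by
  unfold bset
  rw [mem_filter]
  exact ⟨fun h => h.2, fun h => ⟨mem_univ _, h⟩⟩

/-- The row `v` after a move in row `v`. -/
theorem Smat_row_bset (a : Cfg N) (v : Fin N) (x : Fin N → Bool) (u : Fin N) :
    Smat (a + mvRow v (bset x)) v u = sg (x u) * Smat a v u := by
  by_cases hu : u = v
  · rw [hu, Smat_diag, Smat_diag, mul_zero]
  · rw [Smat_add_mvRow_row a v _ u hu]
    congr 1
    unfold sg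
    exact if_congr (mem_bset x u) rfl rfl

theorem Smat_abs_le (a : Cfg N) (u w : Fin N) : Smat a u w ^ 2 ≤ 1 := by
  by_cases h : u = w
  · rw [h, Smat_diag]
    norm_num
  · rw [pow_two, Smat_sq a u w h]

/-- The sum over the configurations is invariant under a move. -/
theorem card_shift (m : Cfg N) (p : Cfg N → Prop) [DecidablePred p] :
    (univ.filter fun a : Cfg N => p (a + m)).card = (univ.filter fun a : Cfg N => p a).card := by
  classical
  refine card_bij (fun a _ => a + m) (fun a ha => ?_) (fun a _ b _ h => add_right_cancel h)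
    (fun b hb => ⟨b + m, ?_, ?_⟩)
  · rw [mem_filter] at ha ⊢
    exact ⟨mem_univ _, ha.2⟩
  · rw [mem_filter] at hb ⊢
    refine ⟨mem_univ _, ?_⟩
    rw [add_assoc, cfg_add_self, add_zero]
    exact hb.2
  · rw [add_assoc, cfg_add_self, add_zero]

/-- The centered quadratic form of the row `v` in the matrix `R`. -/
noncomputable def rowForm (v : Fin N) (R : Fin N → Fin N → ℝ) (a : Cfg N) : ℝ :=
  ∑ u, ∑ w, Smat a v u * R u w * Smat a v w - ∑ u ∈ univ.erase v, R u u

/-- The matrix of the row form. -/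
noncomputable def rowMat (v : Fin N) (R : Fin N → Fin N → ℝ) (a : Cfg N) (u w : Fin N) : ℝ :=
  if u = w then 0 else Smat a v u * R u w * Smat a v w

theorem rowForm_shift (v : Fin N) (R : Fin N → Fin N → ℝ) (a : Cfg N) (x : Fin N → Bool) :
    rowForm v R (a + mvRow v (bset x)) = quad (rowMat v R a) x := by
  classical
  unfold rowForm quad rowMat
  have h1 : ∑ u, ∑ w, Smat (a + mvRow v (bset x)) v u * R u w * Smat (a + mvRow v (bset x)) v w =
      ∑ u, ∑ w, (if u = w then 0 else Smat a v u * R u w * Smat a v w) * (sg (x u) * sg (x w)) +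
      ∑ u, Smat a v u * R u u * Smat a v u := by
    rw [← sum_add_distrib]
    refine sum_congr rfl fun u _ => ?_
    have h2 : Smat a v u * R u u * Smat a v u =
        ∑ w, if u = w then Smat a v u * R u w * Smat a v w else 0 := by
      rw [sum_ite_eq univ u fun w => Smat a v u * R u w * Smat a v w, if_pos (mem_univ u)]
    rw [h2, ← sum_add_distrib]
    refine sum_congr rfl fun w _ => ?_
    rw [Smat_row_bset, Smat_row_bset]
    by_cases huw : u = w
    · rw [if_pos huw, if_pos huw, ← huw]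
      have := sg_mul_self (x u)
      calc sg (x u) * Smat a v u * R u u * (sg (x u) * Smat a v u)
          = (sg (x u) * sg (x u)) * (Smat a v u * R u u * Smat a v u) := by ring
        _ = _ := by rw [this]; ring
    · rw [if_neg huw, if_neg huw]
      ring
  have h3 : ∑ u, Smat a v u * R u u * Smat a v u = ∑ u ∈ univ.erase v, R u u := by
    rw [← sum_erase_add _ _ (mem_univ v), Smat_diag, zero_mul, zero_mul, add_zero]
    refine sum_congr rfl fun u hu => ?_
    have h4 := Smat_sq a v u (ne_of_mem_erase hu).symm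
    calc Smat a v u * R u u * Smat a v u = (Smat a v u * Smat a v u) * R u u := by ring
      _ = R u u := by rw [h4, one_mul]
  rw [h1, h3]
  ring

theorem rowMat_sq_le (v : Fin N) (R : Fin N → Fin N → ℝ) (a : Cfg N) :
    ∑ u, ∑ w, rowMat v R a u w ^ 2 ≤ ∑ u, ∑ w, R u w ^ 2 := by
  refine sum_le_sum fun u _ => sum_le_sum fun w _ => ?_
  unfold rowMat
  by_cases huw : u = w
  · rw [if_pos huw]
    nlinarith [sq_nonneg (R u w)]
  · rw [if_neg huw]
    have h1 := Smat_abs_le a v u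
    have h2 := Smat_abs_le a v w
    have h3 : (Smat a v u * R u w * Smat a v w) ^ 2 =
        (Smat a v u ^ 2 * Smat a v w ^ 2) * R u w ^ 2 := by ring
    rw [h3]
    have h4 : Smat a v u ^ 2 * Smat a v w ^ 2 ≤ 1 * 1 :=
      mul_le_mul h1 h2 (sq_nonneg _) zero_le_one
    nlinarith [sq_nonneg (R u w)]

/-- **The quadratic form of a row is close to the trace**, for a matrix that does not depend on
the row. -/
theorem row_tail (v : Fin N) (R : Cfg N → Fin N → Fin N → ℝ)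
    (hR : ∀ a A, R (a + mvRow v A) = R a) {q : ℕ} (hq : 0 < q) :
    ((univ.filter fun a : Cfg N => (6 * q : ℝ) ^ 2 * ∑ u, ∑ w, R a u w ^ 2 <
      rowForm v (R a) a ^ 2).card : ℝ) ≤ 2 ^ Fintype.card (Edge N) * (2 / 9) ^ q := by
  classical
  obtain ⟨p, hp⟩ : ∃ p : Cfg N → Prop, p = fun a => (6 * q : ℝ) ^ 2 * ∑ u, ∑ w, R a u w ^ 2 <
      rowForm v (R a) a ^ 2 := ⟨_, rfl⟩
  have h1 : ∑ x : Fin N → Bool, ((univ.filter fun a : Cfg N => p (a + mvRow v (bset x))).card : ℝ) =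
      2 ^ N * ((univ.filter fun a : Cfg N => p a).card : ℝ) := by
    rw [sum_congr rfl fun x _ => by rw [card_shift (mvRow v (bset x)) p]]
    rw [sum_const, card_univ, Fintype.card_fun, Fintype.card_bool, Fintype.card_fin, nsmul_eq_mul]
    push_cast
    ring
  have h2 : ∑ x : Fin N → Bool, ((univ.filter fun a : Cfg N => p (a + mvRow v (bset x))).card : ℝ) =
      ∑ a : Cfg N, ((univ.filter fun x : Fin N → Bool => p (a + mvRow v (bset x))).card : ℝ) := by
    have h3 : ∀ x : Fin N → Bool,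
        ((univ.filter fun a : Cfg N => p (a + mvRow v (bset x))).card : ℝ) =
        ∑ a : Cfg N, if p (a + mvRow v (bset x)) then (1 : ℝ) else 0 := by
      intro x
      rw [card_filter]
      push_cast
      rfl
    have h4 : ∀ a : Cfg N,
        ((univ.filter fun x : Fin N → Bool => p (a + mvRow v (bset x))).card : ℝ) =
        ∑ x : Fin N → Bool, if p (a + mvRow v (bset x)) then (1 : ℝ) else 0 := by
      intro a
      rw [card_filter]
      push_cast
      rfl
    rw [sum_congr rfl fun x _ => h3 x, sum_congr rfl fun a _ => h4 a, sum_comm]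
  have h3 : ∀ a : Cfg N,
      ((univ.filter fun x : Fin N → Bool => p (a + mvRow v (bset x))).card : ℝ) ≤
        2 ^ N * (2 / 9) ^ q := by
    intro a
    have h4 := quad_tail (rowMat v (R a) a) (fun u => by unfold rowMat; rw [if_pos rfl])
      (rowMat_sq_le v (R a) a) hq
    refine le_trans (le_of_eq ?_) h4
    congr 2
    ext x
    rw [mem_filter, mem_filter, hp]
    simp only [mem_univ, true_and]
    rw [hR a (bset x), rowForm_shift]
  have h4 : (2 : ℝ) ^ N * ((univ.filter fun a : Cfg N => p a).card : ℝ) ≤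
      2 ^ N * (2 ^ Fintype.card (Edge N) * (2 / 9) ^ q) := by
    rw [← h1, h2]
    refine (sum_le_sum fun a _ => h3 a).trans (le_of_eq ?_)
    rw [sum_const, card_univ, card_cfg, nsmul_eq_mul]
    push_cast
    ring
  have h5 := le_of_mul_le_mul_left h4 (by positivity)
  rw [hp] at h5
  exact h5

/-- The configurations from which at most `r` moves lead to a bad one. -/
theorem card_near (bad : Finset (Cfg N)) (r : ℕ) : ∃ B : Finset (Cfg N),
    B.card ≤ (2 * N * N + N + 1) ^ r * bad.card ∧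
    ∀ (a : Cfg N) (l : List (Cfg N)), (∀ m ∈ l, IsMove m) → l.length ≤ r →
      a + l.sum ∈ bad → a ∈ B := by
  classical
  induction r with
  | zero =>
    refine ⟨bad, by rw [pow_zero, one_mul], fun a l _ hl h => ?_⟩
    have h1 : l = [] := List.eq_nil_of_length_eq_zero (Nat.le_zero.1 hl)
    rw [h1, List.sum_nil, add_zero] at h
    exact h
  | succ r ih =>
    obtain ⟨B, hB, hBm⟩ := ih
    refine ⟨B ∪ (moves N).biUnion fun m => B.image fun b => b + m, ?_, fun a l hl hlr h => ?_⟩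
    · refine (card_union_le _ _).trans ?_
      have h1 : ((moves N).biUnion fun m => B.image fun b => b + m).card ≤
          (moves N).card * B.card := card_biUnion_le_card_mul _ _ _ fun m _ => card_image_le
      have h2 := card_moves N
      calc B.card + ((moves N).biUnion fun m => B.image fun b => b + m).card
          ≤ B.card + (2 * N * N + N) * B.card :=
            Nat.add_le_add_left (h1.trans (Nat.mul_le_mul_right _ h2)) _
        _ = (2 * N * N + N + 1) * B.card := by ring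
        _ ≤ (2 * N * N + N + 1) * ((2 * N * N + N + 1) ^ r * bad.card) :=
            Nat.mul_le_mul_left _ hB
        _ = (2 * N * N + N + 1) ^ (r + 1) * bad.card := by ring
    · cases l with
      | nil =>
        rw [List.sum_nil, add_zero] at h
        exact mem_union_left _ (hBm a [] (fun m hm => absurd hm List.not_mem_nil)
          (Nat.zero_le _) (by rwa [List.sum_nil, add_zero]))
      | cons m l =>
        refine mem_union_right _ (mem_biUnion.2 ⟨m, mem_moves m (hl m List.mem_cons_self), ?_⟩)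
        refine mem_image.2 ⟨a + m, ?_, ?_⟩
        · refine hBm (a + m) l (fun m' hm' => hl m' (List.mem_cons_of_mem _ hm')) ?_ ?_
          · rw [List.length_cons] at hlr
            omega
          · rw [List.sum_cons, ← add_assoc] at h
            exact h
        · rw [add_assoc, cfg_add_self, add_zero]

end Pool.Agent.MP_9cec2c_lc.Flat
end

section

/-!
# FLAT, random matrix part (Hermitian case), FN0: definitions and first facts
`V` is the set of indices, `N = card V`, `n = sqrt N`. Matrices are `Matrix V V ℂ`, vectors `V → ℂ`.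
-/

set_option autoImplicit false
set_option linter.unusedSectionVars false
set_option linter.unusedDecidableInType false

open Matrix Finset Pool.Agent.MP_9cec2c_lc.Flat

namespace Pool.Agent.MP_9cec2c_lc.Flat.Herm

variable {V : Type} [Fintype V] [DecidableEq V]

/-- The square of the length of a vector. -/
noncomputable def nsq (φ : V → ℂ) : ℝ := ∑ v, ‖φ v‖ ^ 2

/-- The (real) quadratic form of a matrix. -/
noncomputable def qf (A : Matrix V V ℂ) (φ : V → ℂ) : ℝ := (star φ ⬝ᵥ (A *ᵥ φ)).re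

/-- The square of the Hilbert-Schmidt norm. -/
noncomputable def hs2 (A : Matrix V V ℂ) : ℝ := ∑ i, ∑ j, ‖A i j‖ ^ 2

/-- The square of the length of column `v`. -/
noncomputable def colsq (G : Matrix V V ℂ) (v : V) : ℝ := ∑ i, ‖G i v‖ ^ 2

/-- Hermitian matrix. -/
abbrev Sym (A : Matrix V V ℂ) : Prop := A.IsHermitian

/-- Hermitian matrix with entries of absolute value 1 off the diagonal and 0 on the diagonal. -/
structure IsSign (S : Matrix V V ℂ) : Prop where
  symm : Sym S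
  diag : ∀ u, S u u = 0
  nrm : ∀ u w, u ≠ w → ‖S u w‖ = 1

/-- The largest value of the quadratic form on unit vectors. -/
noncomputable def lamMax (S : Matrix V V ℂ) : ℝ := sSup {r | ∃ φ : V → ℂ, nsq φ = 1 ∧ qf S φ = r}

/-- `ψ` is a unit eigenvector of `S` for the eigenvalue `lam`, and on the orthogonal complement of `ψ`
the quadratic form is at most `lam - g`. -/
structure TP (S : Matrix V V ℂ) (lam : ℝ) (ψ : V → ℂ) (g : ℝ) : Prop where
  eig : S *ᵥ ψ = (lam : ℂ) • ψ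
  unit : nsq ψ = 1
  gap : ∀ φ : V → ℂ, star ψ ⬝ᵥ φ = 0 → qf S φ ≤ (lam - g) * nsq φ

/-- `S` with row `v` and column `v` replaced by 0. -/
def minor (S : Matrix V V ℂ) (v : V) : Matrix V V ℂ := fun i j => if i = v ∨ j = v then 0 else S i j

/-- The vector `S e_v`. -/
def row (S : Matrix V V ℂ) (v : V) : V → ℂ := fun u => S u v

/-- The matrix `θ - S`. -/
noncomputable def shift (S : Matrix V V ℂ) (θ : ℝ) : Matrix V V ℂ := (θ : ℂ) • (1 : Matrix V V ℂ) - S

/-- The resolvent of `S` at `θ` (`Matrix.inv`: 0 if `θ - S` is singular). -/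
noncomputable def rsv (S : Matrix V V ℂ) (θ : ℝ) : Matrix V V ℂ := (shift S θ)⁻¹

/-- The rank one matrix `φ φ^*`. -/
noncomputable def rk1 (φ : V → ℂ) : Matrix V V ℂ := fun i j => φ i * star (φ j)

/-- The resolvent of the minor on the complement of `e_v`, computed from the full resolvent `G`:
`G - (G e_v)(G e_v)^* / G_vv`. -/
noncomputable def Mv (G : Matrix V V ℂ) (v : V) : Matrix V V ℂ := fun i j => G i j - G i v * G v j / G v v

/-- `M` is Hermitian and `0 ≤ M ≤ 1/y` as quadratic forms, in the form `y M² ≤ M`. -/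
structure PosBy (y : ℝ) (M : Matrix V V ℂ) : Prop where
  symm : Sym M
  le : ∀ φ : V → ℂ, y * nsq (M *ᵥ φ) ≤ qf M φ

/-- Event (O2) at `v`, `θ`: the quadratic form of the resolvent `B` of the minor at the row `v` is close to
its trace (without the `v`, `v` entry). `B` depends on the minor only, the row is independent of it. -/
def Conc (S : Matrix V V ℂ) (K : ℝ) (v : V) (θ : ℝ) : Prop :=
  (qf (rsv (minor S v) θ) (row S v) -
      ((rsv (minor S v) θ).trace.re - (rsv (minor S v) θ v v).re)) ^ 2 ≤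
    K ^ 2 * hs2 (rsv (minor S v) θ)

/-- The parameters: `n = sqrt N`, `P = 10^6 K^2`, `P ≤ n / 10^4`, `0 ≤ δ ≤ 10^-4`. The grid of values of `θ`
is `k * (P / n)`, `k ≤ 3 N`. -/
structure Par (V : Type) [Fintype V] (n K P δ : ℝ) : Prop where
  n0 : 0 < n
  sq : n ^ 2 = Fintype.card V
  K1 : 1 ≤ K
  P_eq : P = 10 ^ 6 * K ^ 2
  Pn : 10 ^ 4 * P ≤ n
  δ0 : 0 ≤ δ
  δ1 : δ ≤ 1 / 10 ^ 4

/-- The event `O`: the top eigenvalue is at most `(2 + δ) n`, and (O2) for all `v` and all `θ` in the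
grid. -/
structure OO (S : Matrix V V ℂ) (n K P δ : ℝ) : Prop where
  sgn : IsSign S
  top : lamMax S ≤ (2 + δ) * n
  conc : ∀ (v : V) (k : ℕ), k ≤ 3 * Fintype.card V → Conc S K v (k * (P / n))

/-- `S` with the entry `(u,w)` multiplied by `i` and the entry `(w,u)` multiplied by `-i`. -/
noncomputable def flip (S : Matrix V V ℂ) (u w : V) : Matrix V V ℂ :=
  fun i j => if i = u ∧ j = w then Complex.I * S i j
    else if i = w ∧ j = u then -Complex.I * S i j else S i j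

/-- Twice the sum over all ordered pairs `u ≠ w` of the second order increments of the top eigenvalue (the
first order terms have sum `- 2 lamMax S`). -/
noncomputable def FF (S : Matrix V V ℂ) : ℝ :=
  2 * (∑ u, ∑ w ∈ univ.erase u, (lamMax (flip S u w) - lamMax S)) + 4 * lamMax S

/-! ## Facts on vectors -/

theorem norm_sq_star (z : ℂ) : ‖z‖ ^ 2 = (star z * z).re := by
  rw [← Complex.normSq_eq_norm_sq, Complex.star_def, mul_comm, Complex.mul_conj, Complex.ofReal_re]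

theorem star_mul_self (z : ℂ) : star z * z = ((‖z‖ ^ 2 : ℝ) : ℂ) := by
  rw [Complex.star_def, mul_comm, Complex.mul_conj, Complex.normSq_eq_norm_sq]

theorem star_dot_self (φ : V → ℂ) : star φ ⬝ᵥ φ = ((nsq φ : ℝ) : ℂ) := by
  unfold dotProduct nsq
  push_cast
  refine sum_congr rfl fun v _ => ?_
  rw [Pi.star_apply, star_mul_self]
  push_cast
  rfl

theorem nsq_nonneg (φ : V → ℂ) : 0 ≤ nsq φ := sum_nonneg fun _ _ => sq_nonneg _

theorem nsq_eq_zero {φ : V → ℂ} : nsq φ = 0 ↔ φ = 0 := by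
  unfold nsq
  rw [sum_eq_zero_iff_of_nonneg fun _ _ => sq_nonneg _]
  constructor
  · intro h
    funext v
    have h1 := h v (mem_univ v)
    rw [sq_eq_zero_iff, norm_eq_zero] at h1
    exact h1
  · rintro rfl v _
    rw [Pi.zero_apply, norm_zero]
    norm_num

theorem nsq_smul (c : ℂ) (φ : V → ℂ) : nsq (c • φ) = ‖c‖ ^ 2 * nsq φ := by
  unfold nsq
  rw [mul_sum]
  refine sum_congr rfl fun v _ => ?_
  rw [Pi.smul_apply, smul_eq_mul, norm_mul, mul_pow]

theorem nsq_neg (φ : V → ℂ) : nsq (-φ) = nsq φ := by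
  unfold nsq
  refine sum_congr rfl fun v _ => ?_
  rw [Pi.neg_apply, norm_neg]

theorem dot_star (φ χ : V → ℂ) : star φ ⬝ᵥ χ = star (star χ ⬝ᵥ φ) := by
  unfold dotProduct
  rw [star_sum]
  refine sum_congr rfl fun v _ => ?_
  rw [Pi.star_apply, Pi.star_apply, StarMul.star_mul, star_star]

theorem star_dot_comm (φ χ : V → ℂ) : star (star φ ⬝ᵥ χ) = star χ ⬝ᵥ φ := by
  rw [dot_star χ φ]

theorem nsq_add (φ χ : V → ℂ) : nsq (φ + χ) = nsq φ + 2 * (star φ ⬝ᵥ χ).re + nsq χ := by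
  have h1 : ((nsq (φ + χ) : ℝ) : ℂ) = star φ ⬝ᵥ φ + star φ ⬝ᵥ χ + (star χ ⬝ᵥ φ + star χ ⬝ᵥ χ) := by
    rw [← star_dot_self, star_add, add_dotProduct, dotProduct_add, dotProduct_add]
  have h2 := congrArg Complex.re h1
  rw [Complex.ofReal_re, Complex.add_re, Complex.add_re, Complex.add_re, star_dot_self,
    star_dot_self, Complex.ofReal_re, Complex.ofReal_re, dot_star χ φ] at h2
  rw [h2, Complex.star_def, Complex.conj_re]
  ring

theorem nsq_sub (φ χ : V → ℂ) : nsq (φ - χ) = nsq φ - 2 * (star φ ⬝ᵥ χ).re + nsq χ := by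
  rw [sub_eq_add_neg, nsq_add, nsq_neg, dotProduct_neg, Complex.neg_re]
  ring

theorem nsq_comb (a b : ℂ) (φ χ : V → ℂ) :
    nsq (a • φ + b • χ) = ‖a‖ ^ 2 * nsq φ + 2 * (star a * b * (star φ ⬝ᵥ χ)).re + ‖b‖ ^ 2 * nsq χ := by
  rw [nsq_add, nsq_smul, nsq_smul, star_smul, smul_dotProduct, dotProduct_smul, smul_eq_mul,
    smul_eq_mul, mul_assoc]

/-- The inequality of Cauchy and Schwarz. -/
theorem dot_sq_le (φ χ : V → ℂ) : ‖star φ ⬝ᵥ χ‖ ^ 2 ≤ nsq φ * nsq χ := by
  rcases (nsq_nonneg φ).eq_or_lt with h | h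
  · have h1 := nsq_eq_zero.1 h.symm
    rw [h1, star_zero, zero_dotProduct, norm_zero]
    have := nsq_nonneg χ
    rw [← h1, ← h]
    nlinarith
  · obtain ⟨c, hc⟩ : ∃ c, c = star φ ⬝ᵥ χ := ⟨_, rfl⟩
    have h1 := nsq_nonneg ((nsq φ : ℂ) • χ - c • φ)
    rw [nsq_sub, nsq_smul, nsq_smul, star_smul, smul_dotProduct, dotProduct_smul, dot_star χ φ,
      ← hc, smul_eq_mul, smul_eq_mul, Complex.star_def, Complex.conj_ofReal,
      Complex.re_ofReal_mul] at h1
    have h2 : (c * (starRingEnd ℂ) c).re = ‖c‖ ^ 2 := by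
      rw [Complex.mul_conj, Complex.ofReal_re, Complex.normSq_eq_norm_sq]
    rw [h2, Complex.norm_real, Real.norm_eq_abs, sq_abs] at h1
    rw [← hc]
    have h3 : 0 ≤ nsq φ * (nsq φ * nsq χ - ‖c‖ ^ 2) := by nlinarith
    have h4 := nonneg_of_mul_nonneg_right h3 h
    linarith

/-! ## Facts on quadratic forms -/

theorem sym_iff {A : Matrix V V ℂ} : Sym A ↔ ∀ i j, star (A i j) = A j i := by
  constructor
  · intro h i j
    rw [← conjTranspose_apply, h.eq]
  · intro h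
    ext i j
    rw [conjTranspose_apply]
    exact h j i

/-- Hermitian matrices move across the scalar product. -/
theorem dot_mulVec_comm {A : Matrix V V ℂ} (hA : A.IsHermitian) (φ χ : V → ℂ) :
    star φ ⬝ᵥ (A *ᵥ χ) = star (A *ᵥ φ) ⬝ᵥ χ := by
  rw [star_mulVec, hA.eq, ← dotProduct_mulVec]

/-- The form of a Hermitian matrix is real. -/
theorem dot_mulVec_self {A : Matrix V V ℂ} (hA : A.IsHermitian) (φ : V → ℂ) :
    star φ ⬝ᵥ (A *ᵥ φ) = ((qf A φ : ℝ) : ℂ) := by
  have h1 : star (star φ ⬝ᵥ (A *ᵥ φ)) = star φ ⬝ᵥ (A *ᵥ φ) := by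
    rw [← dot_star, ← dot_mulVec_comm hA]
  apply Complex.ext
  · rw [Complex.ofReal_re]
    rfl
  · rw [Complex.ofReal_im]
    have h2 := congrArg Complex.im h1
    rw [Complex.star_def, Complex.conj_im] at h2
    linarith

theorem qf_ofReal {A : Matrix V V ℂ} (hA : Sym A) (φ : V → ℂ) :
    star φ ⬝ᵥ (A *ᵥ φ) = (qf A φ : ℂ) := dot_mulVec_self hA φ

/-- Real and complex scalars act in the same way. -/
theorem ofReal_smul_eq (c : ℝ) (A : Matrix V V ℂ) : (c : ℂ) • A = c • A := rfl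

theorem qf_zero (A : Matrix V V ℂ) : qf A 0 = 0 := by
  unfold qf
  rw [mulVec_zero, dotProduct_zero, Complex.zero_re]

theorem qf_smul (A : Matrix V V ℂ) (c : ℂ) (φ : V → ℂ) : qf A (c • φ) = ‖c‖ ^ 2 * qf A φ := by
  unfold qf
  rw [mulVec_smul, star_smul, smul_dotProduct, dotProduct_smul, smul_eq_mul, smul_eq_mul,
    ← mul_assoc, star_mul_self, Complex.re_ofReal_mul]

/-- `qf` on a sum, `A` Hermitian. -/
theorem qf_add {A : Matrix V V ℂ} (hA : A.IsHermitian) (φ χ : V → ℂ) :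
    qf A (φ + χ) = qf A φ + 2 * (star φ ⬝ᵥ (A *ᵥ χ)).re + qf A χ := by
  have h1 : (star χ ⬝ᵥ (A *ᵥ φ)).re = (star φ ⬝ᵥ (A *ᵥ χ)).re := by
    rw [dot_star, ← dot_mulVec_comm hA, Complex.star_def, Complex.conj_re]
  unfold qf
  rw [star_add, add_dotProduct, mulVec_add, dotProduct_add, dotProduct_add, Complex.add_re,
    Complex.add_re, Complex.add_re, h1]
  ring

theorem qf_sub {A : Matrix V V ℂ} (hA : A.IsHermitian) (φ χ : V → ℂ) :
    qf A (φ - χ) = qf A φ - 2 * (star φ ⬝ᵥ (A *ᵥ χ)).re + qf A χ := by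
  have h1 : qf A (-χ) = qf A χ := by
    have h2 := qf_smul A (-1) χ
    rw [norm_neg, norm_one, one_pow, one_mul, neg_one_smul] at h2
    exact h2
  rw [sub_eq_add_neg, qf_add hA, h1, mulVec_neg, dotProduct_neg, Complex.neg_re]
  ring

/-- `qf` on a linear combination, `A` Hermitian. -/
theorem qf_comb {A : Matrix V V ℂ} (hA : A.IsHermitian) (a b : ℂ) (φ χ : V → ℂ) :
    qf A (a • φ + b • χ) = ‖a‖ ^ 2 * qf A φ + 2 * (star a * b * (star φ ⬝ᵥ (A *ᵥ χ))).re +
      ‖b‖ ^ 2 * qf A χ := by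
  rw [qf_add hA, qf_smul, qf_smul, mulVec_smul, star_smul, smul_dotProduct, dotProduct_smul,
    smul_eq_mul, smul_eq_mul, mul_assoc]

theorem mulVec_shift (S : Matrix V V ℂ) (θ : ℝ) (φ : V → ℂ) :
    shift S θ *ᵥ φ = (θ : ℂ) • φ - S *ᵥ φ := by
  unfold shift
  rw [sub_mulVec, smul_mulVec, one_mulVec]

theorem sym_shift {S : Matrix V V ℂ} (hS : Sym S) (θ : ℝ) : Sym (shift S θ) := by
  unfold shift
  refine IsHermitian.sub ?_ hS
  unfold IsHermitian
  rw [conjTranspose_smul, conjTranspose_one, Complex.star_def, Complex.conj_ofReal]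

theorem qf_shift (S : Matrix V V ℂ) (θ : ℝ) (φ : V → ℂ) :
    qf (shift S θ) φ = θ * nsq φ - qf S φ := by
  unfold qf
  rw [mulVec_shift, dotProduct_sub, dotProduct_smul, star_dot_self, smul_eq_mul, Complex.sub_re,
    ← Complex.ofReal_mul, Complex.ofReal_re]

theorem mulVec_rk1 (ψ φ : V → ℂ) : rk1 ψ *ᵥ φ = (star ψ ⬝ᵥ φ) • ψ := by
  funext i
  rw [Pi.smul_apply, smul_eq_mul]
  unfold mulVec dotProduct rk1
  rw [sum_mul]
  refine sum_congr rfl fun j _ => ?_
  rw [Pi.star_apply]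
  ring

theorem sym_rk1 (ψ : V → ℂ) : Sym (rk1 ψ) := by
  ext i j
  rw [conjTranspose_apply]
  unfold rk1
  rw [StarMul.star_mul, star_star]

theorem qf_rk1 (ψ φ : V → ℂ) : qf (rk1 ψ) φ = ‖star ψ ⬝ᵥ φ‖ ^ 2 := by
  unfold qf
  rw [mulVec_rk1, dotProduct_smul, smul_eq_mul, dot_star φ ψ, norm_sq_star, mul_comm]

theorem qf_sub_mat (A B : Matrix V V ℂ) (φ : V → ℂ) : qf (A - B) φ = qf A φ - qf B φ := by
  unfold qf
  rw [sub_mulVec, dotProduct_sub, Complex.sub_re]

theorem qf_smul_mat (c : ℝ) (A : Matrix V V ℂ) (φ : V → ℂ) : qf ((c : ℂ) • A) φ = c * qf A φ := by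
  unfold qf
  rw [smul_mulVec, dotProduct_smul, smul_eq_mul, Complex.re_ofReal_mul]

theorem qf_single (A : Matrix V V ℂ) (v : V) : qf A (Pi.single v 1) = (A v v).re := by
  unfold qf
  rw [mulVec_single_one]
  have h1 : star (Pi.single v (1 : ℂ) : V → ℂ) = Pi.single v 1 := by
    rw [Pi.star_single, star_one]
  rw [h1, single_one_dotProduct]
  rfl

/-- The set of the values of the form is bounded. -/
theorem qf_le_bound (S : Matrix V V ℂ) (φ : V → ℂ) (h : nsq φ = 1) :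
    qf S φ ≤ ∑ i, ∑ j, ‖S i j‖ := by
  have h1 : ∀ v, ‖φ v‖ ≤ 1 := by
    intro v
    have h2 : ‖φ v‖ ^ 2 ≤ 1 := by
      rw [← h]
      exact single_le_sum (f := fun v => ‖φ v‖ ^ 2) (fun _ _ => sq_nonneg _) (mem_univ v)
    exact (sq_le_one_iff₀ (norm_nonneg _)).1 h2
  unfold qf
  refine (Complex.re_le_norm _).trans ?_
  unfold dotProduct
  refine (norm_sum_le _ _).trans (sum_le_sum fun i _ => ?_)
  rw [norm_mul, Pi.star_apply, norm_star]
  unfold mulVec dotProduct
  calc ‖φ i‖ * ‖∑ j, S i j * φ j‖ ≤ 1 * ∑ j, ‖S i j‖ := by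
        refine mul_le_mul (h1 i) ?_ (norm_nonneg _) zero_le_one
        refine (norm_sum_le _ _).trans (sum_le_sum fun j _ => ?_)
        rw [norm_mul]
        exact mul_le_of_le_one_right (norm_nonneg _) (h1 j)
    _ = ∑ j, ‖S i j‖ := one_mul _

theorem bddAbove_qf (S : Matrix V V ℂ) : BddAbove {r | ∃ φ : V → ℂ, nsq φ = 1 ∧ qf S φ = r} := by
  refine ⟨∑ i, ∑ j, ‖S i j‖, ?_⟩
  rintro r ⟨φ, h, rfl⟩
  exact qf_le_bound S φ h

/-- The form is bounded by `lamMax`. -/
theorem qf_le_lamMax (S : Matrix V V ℂ) (φ : V → ℂ) : qf S φ ≤ lamMax S * nsq φ := by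
  rcases (nsq_nonneg φ).eq_or_lt with h | h
  · have h1 := nsq_eq_zero.1 h.symm
    rw [← h, mul_zero, h1, qf_zero]
  · obtain ⟨c, hc⟩ : ∃ c : ℝ, c = (Real.sqrt (nsq φ))⁻¹ := ⟨_, rfl⟩
    have hs : Real.sqrt (nsq φ) ^ 2 = nsq φ := Real.sq_sqrt h.le
    have hc2 : c ^ 2 = (nsq φ)⁻¹ := by rw [hc, inv_pow, hs]
    have h1 : nsq ((c : ℂ) • φ) = 1 := by
      rw [nsq_smul, Complex.norm_real, Real.norm_eq_abs, sq_abs, hc2, inv_mul_cancel₀ h.ne']
    have h2 : qf S ((c : ℂ) • φ) ≤ lamMax S := le_csSup (bddAbove_qf S) ⟨_, h1, rfl⟩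
    rw [qf_smul, Complex.norm_real, Real.norm_eq_abs, sq_abs, hc2] at h2
    rw [inv_mul_le_iff₀ h] at h2
    linarith

/-! ## The top eigenvector -/

/-- Cauchy-Schwarz for a nonnegative Hermitian form. -/
theorem cauchy_form {M : Matrix V V ℂ} (hM : Sym M) (h0 : ∀ φ, 0 ≤ qf M φ)
    (φ χ : V → ℂ) : ‖star φ ⬝ᵥ (M *ᵥ χ)‖ ^ 2 ≤ qf M φ * qf M χ := by
  obtain ⟨c, hc⟩ : ∃ c, c = star φ ⬝ᵥ (M *ᵥ χ) := ⟨_, rfl⟩
  have ha := h0 φ
  have hb := h0 χ
  -- the value of the form on `s φ - t (conj c) χ`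
  have key : ∀ s t : ℝ, 0 ≤ s ^ 2 * qf M φ - 2 * (s * t) * ‖c‖ ^ 2 + t ^ 2 * ‖c‖ ^ 2 * qf M χ := by
    intro s t
    have h1 := h0 ((s : ℂ) • φ + (-((t : ℂ) * star c)) • χ)
    rw [qf_comb hM, ← hc, Complex.norm_real, Real.norm_eq_abs, sq_abs, norm_neg, norm_mul,
      Complex.norm_real, Real.norm_eq_abs, mul_pow, sq_abs, norm_star] at h1
    have h2 : star (s : ℂ) * (-((t : ℂ) * star c)) * c = ((-(s * t * ‖c‖ ^ 2) : ℝ) : ℂ) := by
      have h3 := star_mul_self c
      have h5 : star (s : ℂ) = (s : ℂ) := Complex.conj_ofReal s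
      have h4 : (s : ℂ) * (-((t : ℂ) * star c)) * c = -((s : ℂ) * t * (star c * c)) := by ring
      rw [h5, h4, h3]
      push_cast
      ring
    rw [h2, Complex.ofReal_re] at h1
    linarith
  rw [← hc]
  have hcc : 0 ≤ ‖c‖ ^ 2 := sq_nonneg _
  rcases hb.eq_or_lt with h | h
  · rcases ha.eq_or_lt with h' | h'
    · have h1 := key 1 1
      rw [← h, ← h'] at h1
      rw [← h, ← h']
      linarith
    · have h1 := key (‖c‖ ^ 2) (qf M φ)
      rw [← h] at h1
      rw [← h]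
      have h2 : 0 ≤ -(‖c‖ ^ 2 * ‖c‖ ^ 2 * qf M φ) := by nlinarith
      by_contra hcon
      have h3 : 0 < ‖c‖ ^ 2 := by linarith
      have h4 : 0 < ‖c‖ ^ 2 * ‖c‖ ^ 2 * qf M φ := by positivity
      linarith
  · have h1 := key (qf M χ) 1
    have h2 : 0 ≤ qf M χ * (qf M φ * qf M χ - ‖c‖ ^ 2) := by nlinarith
    have h3 := nonneg_of_mul_nonneg_right h2 h
    linarith

theorem norm_le_one_of_nsq {φ : V → ℂ} (h : nsq φ = 1) (i : V) : ‖φ i‖ ≤ 1 := by
  have h2 : ‖φ i‖ ^ 2 ≤ 1 := by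
    rw [← h]
    exact single_le_sum (f := fun v => ‖φ v‖ ^ 2) (fun _ _ => sq_nonneg _) (mem_univ i)
  exact (sq_le_one_iff₀ (norm_nonneg _)).1 h2

theorem nsq_single (v : V) : nsq (Pi.single v (1 : ℂ) : V → ℂ) = 1 := by
  unfold nsq
  rw [sum_eq_single v]
  · rw [Pi.single_eq_same, norm_one, one_pow]
  · intro b _ hb
    rw [Pi.single_eq_of_ne hb, norm_zero]
    norm_num
  · intro h
    exact absurd (mem_univ v) h

/-- Existence of the top eigenvector. -/
theorem exists_top [Nonempty V] {S : Matrix V V ℂ} (hS : Sym S) :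
    ∃ ψ, TP S (lamMax S) ψ 0 := by
  have hcomp : IsCompact {φ : V → ℂ | nsq φ = 1} := by
    refine Metric.isCompact_of_isClosed_isBounded ?_ ?_
    · refine isClosed_eq ?_ continuous_const
      unfold nsq
      fun_prop
    · refine (Metric.isBounded_iff_subset_closedBall 0).2 ⟨1, fun φ hφ => ?_⟩
      rw [mem_closedBall_zero_iff, pi_norm_le_iff_of_nonneg zero_le_one]
      exact fun i => norm_le_one_of_nsq hφ i
  have hne : {φ : V → ℂ | nsq φ = 1}.Nonempty :=
    ⟨Pi.single (Classical.arbitrary V) 1, nsq_single _⟩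
  have hcont : ContinuousOn (fun φ : V → ℂ => qf S φ) {φ : V → ℂ | nsq φ = 1} := by
    refine Continuous.continuousOn ?_
    unfold qf mulVec dotProduct
    refine Complex.continuous_re.comp ?_
    refine continuous_finsetSum _ fun i _ => ?_
    refine Continuous.mul ?_ ?_
    · exact continuous_star.comp (continuous_apply i)
    · exact continuous_finsetSum _ fun j _ => continuous_const.mul (continuous_apply j)
  obtain ⟨ψ, hψ, hmax⟩ := hcomp.exists_isMaxOn hne hcont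
  have hψ1 : nsq ψ = 1 := hψ
  have hlam : qf S ψ = lamMax S := by
    apply le_antisymm
    · exact le_csSup (bddAbove_qf S) ⟨ψ, hψ, rfl⟩
    · refine csSup_le ⟨_, ψ, hψ, rfl⟩ ?_
      rintro r ⟨φ, hφ, rfl⟩
      exact hmax hφ
  have h0 : ∀ φ, 0 ≤ qf (shift S (lamMax S)) φ := by
    intro φ
    rw [qf_shift]
    linarith [qf_le_lamMax S φ]
  have h1 : qf (shift S (lamMax S)) ψ = 0 := by
    rw [qf_shift, hψ1, hlam]
    ring
  have h2 : shift S (lamMax S) *ᵥ ψ = 0 := by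
    have h3 := cauchy_form (sym_shift hS _) h0 (shift S (lamMax S) *ᵥ ψ) ψ
    rw [h1, mul_zero, star_dot_self, Complex.norm_real, Real.norm_eq_abs, sq_abs] at h3
    have h4 : nsq (shift S (lamMax S) *ᵥ ψ) = 0 := by
      exact pow_eq_zero_iff (two_ne_zero) |>.1 (le_antisymm h3 (sq_nonneg _))
    exact nsq_eq_zero.1 h4
  refine ⟨ψ, ?_, hψ1, ?_⟩
  · rw [mulVec_shift] at h2
    exact (sub_eq_zero.1 h2).symm
  · intro φ _
    rw [sub_zero]
    exact qf_le_lamMax S φ

/-- A sign matrix has `0 ≤ lamMax S ≤ N`. -/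
theorem lamMax_nonneg [Nonempty V] {S : Matrix V V ℂ} (hS : IsSign S) : 0 ≤ lamMax S := by
  have h := qf_le_lamMax S (Pi.single (Classical.arbitrary V) 1)
  rw [qf_single, hS.diag, Complex.zero_re, nsq_single, mul_one] at h
  exact h

theorem IsSign.norm_le_one {S : Matrix V V ℂ} (hS : IsSign S) (i j : V) : ‖S i j‖ ≤ 1 := by
  by_cases hij : i = j
  · rw [hij, hS.diag, norm_zero]
    exact zero_le_one
  · exact (hS.nrm i j hij).le

theorem lamMax_le_card [Nonempty V] {S : Matrix V V ℂ} (hS : IsSign S) : lamMax S ≤ Fintype.card V := by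
  refine csSup_le ?_ ?_
  · exact ⟨_, Pi.single (Classical.arbitrary V) 1, nsq_single _, rfl⟩
  · rintro r ⟨φ, hφ, rfl⟩
    have h1 : qf S φ ≤ (∑ i, ‖φ i‖) ^ 2 := by
      unfold qf
      refine (Complex.re_le_norm _).trans ?_
      unfold dotProduct mulVec dotProduct
      rw [sq, Finset.sum_mul_sum]
      refine (norm_sum_le _ _).trans (Finset.sum_le_sum fun i _ => ?_)
      rw [Finset.mul_sum]
      refine (norm_sum_le _ _).trans (Finset.sum_le_sum fun j _ => ?_)
      rw [norm_mul, norm_mul, Pi.star_apply, norm_star]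
      have h3 := hS.norm_le_one i j
      calc ‖φ i‖ * (‖S i j‖ * ‖φ j‖) = ‖S i j‖ * (‖φ i‖ * ‖φ j‖) := by ring
        _ ≤ 1 * (‖φ i‖ * ‖φ j‖) := mul_le_mul_of_nonneg_right h3 (by positivity)
        _ = ‖φ i‖ * ‖φ j‖ := one_mul _
    have h2 : (∑ i, ‖φ i‖) ^ 2 ≤ Fintype.card V * ∑ i, ‖φ i‖ ^ 2 := by
      have := sq_sum_le_card_mul_sum_sq (s := (Finset.univ : Finset V)) (f := fun i => ‖φ i‖)
      simpa using this
    have h3 : ∑ i, ‖φ i‖ ^ 2 = 1 := hφ
    rw [h3, mul_one] at h2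
    exact h1.trans h2

/-! ## Decomposition along a unit vector -/

theorem perp_of_unit {ψ φ : V → ℂ} (h : nsq ψ = 1) :
    star ψ ⬝ᵥ (φ - (star ψ ⬝ᵥ φ) • ψ) = 0 := by
  rw [dotProduct_sub, dotProduct_smul, star_dot_self, h, smul_eq_mul, Complex.ofReal_one, mul_one,
    sub_self]

theorem qf_decomp {A : Matrix V V ℂ} (hA : Sym A) {ψ : V → ℂ} {lam : ℝ}
    (he : A *ᵥ ψ = (lam : ℂ) • ψ) (h : nsq ψ = 1) (φ : V → ℂ) :
    qf A φ = lam * ‖star ψ ⬝ᵥ φ‖ ^ 2 + qf A (φ - (star ψ ⬝ᵥ φ) • ψ) := by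
  have h1 : φ = (1 : ℂ) • (φ - (star ψ ⬝ᵥ φ) • ψ) + (star ψ ⬝ᵥ φ) • ψ := by
    rw [one_smul, sub_add_cancel]
  have h2 := qf_comb hA 1 (star ψ ⬝ᵥ φ) (φ - (star ψ ⬝ᵥ φ) • ψ) ψ
  rw [← h1] at h2
  have h3 : star (φ - (star ψ ⬝ᵥ φ) • ψ) ⬝ᵥ (A *ᵥ ψ) = 0 := by
    rw [he, dotProduct_smul, dot_star, perp_of_unit h, star_zero, smul_zero]
  have h4 : qf A ψ = lam := by
    unfold qf
    rw [he, dotProduct_smul, star_dot_self, h, smul_eq_mul, Complex.ofReal_one, mul_one,
      Complex.ofReal_re]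
  rw [h2, h3, h4, mul_zero, Complex.zero_re, norm_one]
  ring

theorem dot_decomp {ψ : V → ℂ} (h : nsq ψ = 1) (φ : V → ℂ) :
    nsq φ = ‖star ψ ⬝ᵥ φ‖ ^ 2 + nsq (φ - (star ψ ⬝ᵥ φ) • ψ) := by
  have h1 : φ = (φ - (star ψ ⬝ᵥ φ) • ψ) + (star ψ ⬝ᵥ φ) • ψ := by
    rw [sub_add_cancel]
  have h2 := nsq_add (φ - (star ψ ⬝ᵥ φ) • ψ) ((star ψ ⬝ᵥ φ) • ψ)
  rw [← h1] at h2
  have h3 : star (φ - (star ψ ⬝ᵥ φ) • ψ) ⬝ᵥ ((star ψ ⬝ᵥ φ) • ψ) = 0 := by
    rw [dotProduct_smul, dot_star _ ψ, perp_of_unit h, star_zero, smul_zero]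
  rw [h3, nsq_smul, h, Complex.zero_re] at h2
  linarith

theorem TP.qf_le {S : Matrix V V ℂ} (hS : Sym S) {lam g : ℝ} {ψ : V → ℂ}
    (h : TP S lam ψ g) (φ : V → ℂ) :
    qf S φ ≤ lam * ‖star ψ ⬝ᵥ φ‖ ^ 2 + (lam - g) * (nsq φ - ‖star ψ ⬝ᵥ φ‖ ^ 2) := by
  rw [qf_decomp hS h.eig h.unit φ, dot_decomp h.unit φ, add_sub_cancel_left]
  have := h.gap _ (perp_of_unit h.unit (φ := φ))
  linarith

theorem TP.qf_psi {S : Matrix V V ℂ} {lam g : ℝ} {ψ : V → ℂ} (h : TP S lam ψ g) : qf S ψ = lam := by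
  unfold qf
  rw [h.eig, dotProduct_smul, star_dot_self, h.unit, smul_eq_mul, Complex.ofReal_one, mul_one,
    Complex.ofReal_re]

theorem dot_psi_sq_le {ψ : V → ℂ} (h : nsq ψ = 1) (φ : V → ℂ) : ‖star ψ ⬝ᵥ φ‖ ^ 2 ≤ nsq φ := by
  have := dot_sq_le ψ φ
  rwa [h, one_mul] at this

/-- The eigenvalue of a top pair is `lamMax`. -/
theorem TP.lam_eq {S : Matrix V V ℂ} (hS : Sym S) {lam g : ℝ} {ψ : V → ℂ}
    (h : TP S lam ψ g) (hg : 0 ≤ g) : lam = lamMax S := by
  apply le_antisymm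
  · exact le_csSup (bddAbove_qf S) ⟨ψ, h.unit, h.qf_psi⟩
  · refine csSup_le ⟨_, ψ, h.unit, rfl⟩ ?_
    rintro r ⟨φ, hφ, rfl⟩
    have h1 := h.qf_le hS φ
    have h2 := dot_psi_sq_le h.unit φ
    rw [hφ] at h1 h2
    nlinarith

theorem TP.mono {S : Matrix V V ℂ} {lam g g' : ℝ} {ψ : V → ℂ}
    (h : TP S lam ψ g) (hg : g' ≤ g) : TP S lam ψ g' := by
  refine ⟨h.eig, h.unit, fun φ hφ => (h.gap φ hφ).trans ?_⟩
  exact mul_le_mul_of_nonneg_right (by linarith) (nsq_nonneg φ)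

/-- A phase times a top vector is a top vector. -/
theorem TP.phase {S : Matrix V V ℂ} {lam g : ℝ} {ψ : V → ℂ}
    (h : TP S lam ψ g) {z : ℂ} (hz : ‖z‖ = 1) : TP S lam (z • ψ) g := by
  refine ⟨?_, ?_, fun φ hφ => h.gap φ ?_⟩
  · rw [mulVec_smul, h.eig, smul_comm]
  · rw [nsq_smul, hz, h.unit]
    norm_num
  · rw [star_smul, smul_dotProduct] at hφ
    refine (smul_eq_zero.1 hφ).resolve_left ?_
    rw [star_eq_zero]
    intro h0
    rw [h0, norm_zero] at hz
    exact zero_ne_one hz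

/-- The predicate of `FLCfg2` is the same. -/
theorem topPair2_iff {N : ℕ} (S : Matrix (Fin N) (Fin N) ℂ) (l g : ℝ) (ψ : Fin N → ℂ) :
    TopPair2 S l g ψ ↔ TP S l ψ g := by
  have e1 : ∀ w : Fin N → ℂ,
      (∑ u, ∑ v, (starRingEnd ℂ) (w u) * S u v * w v).re = qf S w := by
    intro w
    unfold qf dotProduct mulVec dotProduct
    refine congrArg Complex.re (Finset.sum_congr rfl fun i _ => ?_)
    rw [Finset.mul_sum]
    refine Finset.sum_congr rfl fun j _ => ?_
    rw [Pi.star_apply, Complex.star_def, mul_assoc]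
  have e3 : ∀ w : Fin N → ℂ, ∑ v, (starRingEnd ℂ) (ψ v) * w v = star ψ ⬝ᵥ w := by
    intro w
    rfl
  unfold TopPair2
  constructor
  · rintro ⟨h1, h2, h3⟩
    refine ⟨funext h2, h1, fun φ hφ => ?_⟩
    have h4 := h3 φ (by rw [e3]; exact hφ)
    rw [e1] at h4
    exact h4
  · rintro ⟨h1, h2, h3⟩
    refine ⟨h2, fun u => congrFun h1 u, fun w hw => ?_⟩
    rw [e1]
    exact h3 w (by rw [← e3]; exact hw)

theorem topPair_iff {N : ℕ} (S : Matrix (Fin N) (Fin N) ℂ) (l g : ℝ) (ψ : Fin N → ℂ) :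
    TopPair2 S l g ψ ↔ TP S l ψ g := topPair2_iff S l g ψ

theorem isSign_Smat2 {N m : ℕ} [NeZero m] (a : Cfg2 N m) : IsSign (Smat2 a) :=
  ⟨Smat2_isHermitian a, Smat2_diag a, fun _ _ h => norm_Smat2 a h⟩

theorem isSign_Smat {N m : ℕ} [NeZero m] (a : Cfg2 N m) : IsSign (Smat2 a) := isSign_Smat2 a

/-! ## Inverses and nonnegative matrices -/

/-- An injective matrix is invertible. -/
theorem mul_inv_of_inj {A : Matrix V V ℂ} (h : ∀ φ : V → ℂ, A *ᵥ φ = 0 → φ = 0) : A * A⁻¹ = 1 := by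
  have h1 : Function.Injective A.mulVec := by
    intro a b hab
    have := h (a - b) (by rw [mulVec_sub]; exact sub_eq_zero.2 hab)
    exact sub_eq_zero.1 this
  have h2 : IsUnit A := Matrix.mulVec_injective_iff_isUnit.1 h1
  exact Matrix.mul_nonsing_inv A ((Matrix.isUnit_iff_isUnit_det A).1 h2)

theorem inv_sym {A : Matrix V V ℂ} (hA : Sym A) : Sym A⁻¹ := hA.inv

theorem PosBy.nonneg {y : ℝ} {M : Matrix V V ℂ} (h : PosBy y M) (hy : 0 ≤ y) (φ : V → ℂ) :
    0 ≤ qf M φ :=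
  (mul_nonneg hy (nsq_nonneg _)).trans (h.le φ)

/-- `M ≤ 1/y`. -/
theorem PosBy.qf_le {y : ℝ} {M : Matrix V V ℂ} (h : PosBy y M) (hy : 0 < y) (φ : V → ℂ) :
    y * qf M φ ≤ nsq φ := by
  have h1 := h.le φ
  have h2 : qf M φ ^ 2 ≤ nsq φ * nsq (M *ᵥ φ) := by
    refine le_trans ?_ (dot_sq_le φ (M *ᵥ φ))
    rw [dot_mulVec_self h.symm, Complex.norm_real, Real.norm_eq_abs, sq_abs]
  have h3 := h.nonneg hy.le φ
  have h4 := nsq_nonneg φ
  have h5 := nsq_nonneg (M *ᵥ φ)
  rcases h3.eq_or_lt with h6 | h6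
  · rw [← h6, mul_zero]; exact h4
  · have h7 : y * qf M φ * qf M φ ≤ nsq φ * qf M φ := by nlinarith
    exact le_of_mul_le_mul_right h7 h6

theorem mulVec_single' (M : Matrix V V ℂ) (v : V) : M *ᵥ (Pi.single v 1) = fun i => M i v := by
  rw [mulVec_single_one]
  rfl

theorem PosBy.colsq_le {y : ℝ} {M : Matrix V V ℂ} (h : PosBy y M) (v : V) :
    y * colsq M v ≤ (M v v).re := by
  have h1 := h.le (Pi.single v 1)
  rw [qf_single, mulVec_single'] at h1
  exact h1

theorem hs2_eq (M : Matrix V V ℂ) : hs2 M = ∑ v, colsq M v := by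
  unfold hs2 colsq
  exact Finset.sum_comm

theorem trace_re (M : Matrix V V ℂ) : M.trace.re = ∑ v, (M v v).re := by
  unfold Matrix.trace
  rw [Complex.re_sum]
  rfl

theorem PosBy.hs_le {y : ℝ} {M : Matrix V V ℂ} (h : PosBy y M) : y * hs2 M ≤ M.trace.re := by
  rw [hs2_eq, Finset.mul_sum, trace_re]
  exact Finset.sum_le_sum fun v _ => h.colsq_le v

theorem PosBy.diag_nonneg {y : ℝ} {M : Matrix V V ℂ} (h : PosBy y M) (hy : 0 ≤ y) (u : V) :
    0 ≤ (M u u).re := by
  refine (mul_nonneg hy ?_).trans (h.colsq_le u)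
  exact Finset.sum_nonneg fun i _ => sq_nonneg _

/-- The diagonal of a Hermitian matrix is real. -/
theorem diag_eq {A : Matrix V V ℂ} (hA : Sym A) (v : V) : A v v = (((A v v).re : ℝ) : ℂ) := by
  have h1 := hA.apply v v
  apply Complex.ext
  · rw [Complex.ofReal_re]
  · rw [Complex.ofReal_im]
    have h2 := congrArg Complex.im h1
    rw [Complex.star_def, Complex.conj_im] at h2
    linarith

theorem diag_ofReal {A : Matrix V V ℂ} (hA : Sym A) (v : V) : A v v = ((A v v).re : ℂ) :=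
  diag_eq hA v

theorem trace_ofReal {A : Matrix V V ℂ} (hA : Sym A) : A.trace = (A.trace.re : ℂ) := by
  rw [trace_re, Complex.ofReal_sum]
  unfold Matrix.trace
  exact sum_congr rfl fun v _ => diag_ofReal hA v

/-- THE MAIN ALGEBRAIC FACT, both above and below the top eigenvalue. `S` Hermitian with top pair
`(lam, ψ)` and gap at least `g`; `θ ≠ lam` and `θ ≥ lam - g + y`, `y > 0`. Then `θ - S` is invertible, and
`H := G - (θ - lam)⁻¹ ψ ψ^*`, `G = rsv S θ`, has `H ψ = 0`, `(θ - S) H = 1 - ψ ψ^*`, and `0 ≤ H ≤ 1/y` in the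
form `y H² ≤ H`. -/
theorem rsv_main {S : Matrix V V ℂ} (hS : Sym S) {lam g θ y : ℝ} {ψ : V → ℂ} (h : TP S lam ψ g)
    (hθ : θ ≠ lam) (hy : 0 < y) (hθ' : lam - g + y ≤ θ) :
    shift S θ * rsv S θ = 1 ∧ rsv S θ * shift S θ = 1 ∧ Sym (rsv S θ) ∧
    shift S θ * (rsv S θ - (θ - lam)⁻¹ • rk1 ψ) = 1 - rk1 ψ ∧
    (rsv S θ - (θ - lam)⁻¹ • rk1 ψ) *ᵥ ψ = 0 ∧
    PosBy y (rsv S θ - (θ - lam)⁻¹ • rk1 ψ) := by
  have hθ0 : θ - lam ≠ 0 := sub_ne_zero.2 hθ
  have hAψ : shift S θ *ᵥ ψ = (θ - lam) • ψ := by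
    rw [mulVec_shift, h.eig, ← sub_smul, ← Complex.ofReal_sub]
    rfl
  have hsym := sym_shift hS θ
  have hpos : ∀ φ : V → ℂ, star ψ ⬝ᵥ φ = 0 → y * nsq φ ≤ qf (shift S θ) φ := by
    intro φ hφ
    rw [qf_shift]
    have h1 := h.gap φ hφ
    have h2 := nsq_nonneg φ
    nlinarith
  have hinj : ∀ φ : V → ℂ, shift S θ *ᵥ φ = 0 → φ = 0 := by
    intro φ hφ
    have h2 : star ψ ⬝ᵥ φ = 0 := by
      have h3 : star ψ ⬝ᵥ (shift S θ *ᵥ φ) = 0 := by
        rw [hφ, dotProduct_zero]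
      rw [dot_mulVec_comm hsym, hAψ, star_smul, smul_dotProduct, star_trivial] at h3
      exact (smul_eq_zero.1 h3).resolve_left hθ0
    have h3 := hpos φ h2
    have h4 : qf (shift S θ) φ = 0 := by
      unfold qf
      rw [hφ, dotProduct_zero, Complex.zero_re]
    rw [h4] at h3
    have h5 : nsq φ = 0 := by
      have := nsq_nonneg φ
      nlinarith
    exact nsq_eq_zero.1 h5
  have hAG : shift S θ * rsv S θ = 1 := mul_inv_of_inj hinj
  have hGA : rsv S θ * shift S θ = 1 := mul_eq_one_comm.1 hAG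
  have hGs : Sym (rsv S θ) := inv_sym hsym
  have hGψ : rsv S θ *ᵥ ψ = (θ - lam)⁻¹ • ψ := by
    have h1 : rsv S θ *ᵥ (shift S θ *ᵥ ψ) = ψ := by
      rw [mulVec_mulVec, hGA, one_mulVec]
    rw [hAψ, mulVec_smul] at h1
    rw [← h1, smul_smul, h1]
    rw [inv_mul_cancel₀ hθ0, one_smul]
  have hHψ : (rsv S θ - (θ - lam)⁻¹ • rk1 ψ) *ᵥ ψ = 0 := by
    rw [sub_mulVec, smul_mulVec, hGψ, mulVec_rk1, star_dot_self, h.unit, Complex.ofReal_one,
      one_smul, sub_self]
  have hArk : shift S θ * rk1 ψ = (θ - lam) • rk1 ψ := by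
    ext i j
    have h1 := congrFun hAψ i
    simp only [mulVec, dotProduct, Pi.smul_apply] at h1
    simp only [Matrix.mul_apply, rk1, Matrix.smul_apply]
    calc ∑ x, shift S θ i x * (ψ x * star (ψ j)) = (∑ x, shift S θ i x * ψ x) * star (ψ j) := by
          rw [Finset.sum_mul]
          exact Finset.sum_congr rfl fun x _ => by ring
      _ = (θ - lam) • (ψ i * star (ψ j)) := by rw [h1, smul_mul_assoc]
  have hAH : shift S θ * (rsv S θ - (θ - lam)⁻¹ • rk1 ψ) = 1 - rk1 ψ := by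
    rw [Matrix.mul_sub, hAG, Matrix.mul_smul, hArk, smul_smul, inv_mul_cancel₀ hθ0, one_smul]
  have hHs : Sym (rsv S θ - (θ - lam)⁻¹ • rk1 ψ) := by
    refine hGs.sub ?_
    unfold Matrix.IsHermitian
    rw [conjTranspose_smul, sym_rk1 ψ, star_trivial]
  refine ⟨hAG, hGA, hGs, hAH, hHψ, hHs, fun φ => ?_⟩
  set H := rsv S θ - (θ - lam)⁻¹ • rk1 ψ with hH
  have h1 : star ψ ⬝ᵥ (H *ᵥ φ) = 0 := by
    rw [dot_mulVec_comm hHs, hHψ, star_zero, zero_dotProduct]
  have h2 := hpos _ h1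
  have h3 : qf (shift S θ) (H *ᵥ φ) = qf H φ := by
    have h4 : (1 - rk1 ψ) *ᵥ φ = φ - (star ψ ⬝ᵥ φ) • ψ := by
      rw [sub_mulVec, one_mulVec, mulVec_rk1]
    have h5 : star (H *ᵥ φ) ⬝ᵥ ψ = 0 := by
      rw [dot_star, h1, star_zero]
    unfold qf
    rw [mulVec_mulVec, hAH, h4, dotProduct_sub, dotProduct_smul, h5,
      smul_zero, sub_zero, dot_mulVec_comm hHs]
  rwa [h3] at h2

/-- `rsv_main` with the complex scalar. -/
theorem rsv_main' {S : Matrix V V ℂ} (hS : Sym S) {lam g θ y : ℝ} {ψ : V → ℂ} (h : TP S lam ψ g)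
    (hθ : θ ≠ lam) (hy : 0 < y) (hθ' : lam - g + y ≤ θ) :
    shift S θ * rsv S θ = 1 ∧ rsv S θ * shift S θ = 1 ∧ Sym (rsv S θ) ∧
    shift S θ * (rsv S θ - (((θ - lam)⁻¹ : ℝ) : ℂ) • rk1 ψ) = 1 - rk1 ψ ∧
    (rsv S θ - (((θ - lam)⁻¹ : ℝ) : ℂ) • rk1 ψ) *ᵥ ψ = 0 ∧
    PosBy y (rsv S θ - (((θ - lam)⁻¹ : ℝ) : ℂ) • rk1 ψ) := rsv_main hS h hθ hy hθ'

/-- The form of the resolvent. -/
theorem qf_rsv {S : Matrix V V ℂ} (hS : Sym S) {θ : ℝ} (h1 : shift S θ * rsv S θ = 1)
    (φ : V → ℂ) : qf (shift S θ) (rsv S θ *ᵥ φ) = qf (rsv S θ) φ := by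
  have h2 : Sym (rsv S θ) := inv_sym (sym_shift hS θ)
  unfold qf
  rw [mulVec_mulVec, h1, one_mulVec, ← dot_mulVec_comm h2]

/-- Above the top eigenvalue the full resolvent is positive: `y G² ≤ G` for `θ ≥ lamMax S + y`. -/
theorem rsv_posBy [Nonempty V] {S : Matrix V V ℂ} (hS : Sym S) {θ y : ℝ} (hy : 0 < y)
    (hθ : lamMax S + y ≤ θ) :
    shift S θ * rsv S θ = 1 ∧ PosBy y (rsv S θ) := by
  obtain ⟨ψ, h⟩ := exists_top hS
  obtain ⟨h1, h2, h3, -, -, -⟩ := rsv_main hS h (θ := θ) (by linarith) hy (by linarith)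
  refine ⟨h1, h3, fun φ => ?_⟩
  rw [← qf_rsv hS h1, qf_shift]
  have h5 := qf_le_lamMax S (rsv S θ *ᵥ φ)
  have h6 := nsq_nonneg (rsv S θ *ᵥ φ)
  nlinarith

/-- The resolvent decreases above the top eigenvalue: `lamMax S < θ ≤ θ'` gives `G(θ') ≤ G(θ)`. -/
theorem rsv_mono [Nonempty V] {S : Matrix V V ℂ} (hS : Sym S) {θ θ' : ℝ} (h : lamMax S < θ)
    (hθ : θ ≤ θ') (φ : V → ℂ) : qf (rsv S θ') φ ≤ qf (rsv S θ) φ := by
  obtain ⟨h1, h2⟩ := rsv_posBy hS (sub_pos.2 h) (θ := θ) (by linarith)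
  obtain ⟨h1', h2'⟩ := rsv_posBy hS (sub_pos.2 h) (θ := θ') (by linarith)
  have hsym := sym_shift hS θ
  have hnn : ∀ χ, 0 ≤ qf (shift S θ) χ := by
    intro χ
    rw [qf_shift]
    have := qf_le_lamMax S χ
    have := nsq_nonneg χ
    nlinarith
  have h3 := cauchy_form hsym hnn (rsv S θ *ᵥ φ) (rsv S θ' *ᵥ φ)
  have h4 : star (rsv S θ *ᵥ φ) ⬝ᵥ (shift S θ *ᵥ (rsv S θ' *ᵥ φ)) = ((qf (rsv S θ') φ : ℝ) : ℂ) := by
    rw [dot_mulVec_comm hsym, mulVec_mulVec, h1, one_mulVec, dot_mulVec_self h2'.symm]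
  have h5 : qf (shift S θ) (rsv S θ *ᵥ φ) = qf (rsv S θ) φ := qf_rsv hS h1 φ
  have h6 : qf (shift S θ) (rsv S θ' *ᵥ φ) ≤ qf (rsv S θ') φ := by
    rw [← qf_rsv hS h1', qf_shift, qf_shift]
    have := nsq_nonneg (rsv S θ' *ᵥ φ)
    nlinarith
  rw [h4, h5, Complex.norm_real, Real.norm_eq_abs, sq_abs] at h3
  have h8 := h2.nonneg (sub_pos.2 h).le φ
  have h9 := h2'.nonneg (sub_pos.2 h).le φ
  rcases h9.eq_or_lt with h10 | h10
  · rw [← h10]; exact h8
  · have h11 : qf (rsv S θ') φ * qf (rsv S θ') φ ≤ qf (rsv S θ) φ * qf (rsv S θ') φ := by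
      nlinarith
    exact le_of_mul_le_mul_right h11 h10

end Pool.Agent.MP_9cec2c_lc.Flat.Herm
end
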