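import Mathlib

section

/-!
Functions on the cube, their degrees, products, and indicator functions of zero sets.
-/

set_option autoImplicit false
set_option linter.unusedSectionVars false

namespace Pool.Agent.MP_9cec2c_lc.Frege

open Finset

/-- The functions on the cube. -/
abbrev Fun (K V : Type) : Type := (V → Bool) → K

variable (K : Type) [Field K] {V : Type}

/-- The product of the variables in `M`. -/
def mon (M : Finset V) : Fun K V := fun x => if ∀ v ∈ M, x v = true then 1 else 0

variable (V)

/-- The functions of degree at most `d`. -/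
def Pol (d : ℕ) : Submodule K (Fun K V) :=
  Submodule.span K {f | ∃ M : Finset V, M.card ≤ d ∧ f = mon K M}

variable {K V}

theorem mon_mem {M : Finset V} {d : ℕ} (h : M.card ≤ d) : mon K M ∈ Pol K V d :=
  Submodule.subset_span ⟨M, h, rfl⟩

theorem Pol_mono {d d' : ℕ} (h : d ≤ d') : Pol K V d ≤ Pol K V d' := by
  apply Submodule.span_mono
  rintro f ⟨M, h1, h2⟩
  exact ⟨M, h1.trans h, h2⟩

theorem mon_empty : mon K (∅ : Finset V) = 1 := by
  funext x
  unfold mon
  rw [if_pos fun v hv => absurd hv (notMem_empty v)]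
  rfl

theorem one_mem (d : ℕ) : (1 : Fun K V) ∈ Pol K V d := by
  rw [← mon_empty]
  exact mon_mem (by rw [card_empty]; exact Nat.zero_le _)

theorem mon_mul [DecidableEq V] (M M' : Finset V) : mon K M * mon K M' = mon K (M ∪ M') := by
  funext x
  rw [Pi.mul_apply]
  unfold mon
  by_cases h : ∀ v ∈ M, x v = true <;> by_cases h' : ∀ v ∈ M', x v = true
  · rw [if_pos h, if_pos h', if_pos, mul_one]
    intro v hv
    rcases mem_union.1 hv with h1 | h1
    · exact h v h1
    · exact h' v h1
  · rw [if_neg h', mul_zero, if_neg]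
    exact fun h1 => h' fun v hv => h1 v (mem_union_right _ hv)
  · rw [if_neg h, zero_mul, if_neg]
    exact fun h1 => h fun v hv => h1 v (mem_union_left _ hv)
  · rw [if_neg h, zero_mul, if_neg]
    exact fun h1 => h fun v hv => h1 v (mem_union_left _ hv)

theorem mul_mem {d d' : ℕ} {f g : Fun K V} (hf : f ∈ Pol K V d)
    (hg : g ∈ Pol K V d') : f * g ∈ Pol K V (d + d') := by
  classical
  unfold Pol at hf
  induction hf using Submodule.span_induction with
  | mem f hf =>
    obtain ⟨M, hM, rfl⟩ := hf
    unfold Pol at hg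
    induction hg using Submodule.span_induction with
    | mem g hg =>
      obtain ⟨M', hM', rfl⟩ := hg
      rw [mon_mul]
      exact mon_mem ((card_union_le M M').trans (Nat.add_le_add hM hM'))
    | zero =>
      rw [mul_zero]
      exact Submodule.zero_mem _
    | add g h _ _ hg hh =>
      rw [mul_add]
      exact Submodule.add_mem _ hg hh
    | smul c g _ hg =>
      rw [mul_smul_comm]
      exact Submodule.smul_mem _ c hg
  | zero =>
    rw [zero_mul]
    exact Submodule.zero_mem _
  | add f h _ _ hf hh =>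
    rw [add_mul]
    exact Submodule.add_mem _ hf hh
  | smul c f _ hf =>
    rw [smul_mul_assoc]
    exact Submodule.smul_mem _ c hf

theorem pow_mem {t : ℕ} {q : Fun K V} (hq : q ∈ Pol K V t) (m : ℕ) :
    q ^ m ∈ Pol K V (m * t) := by
  induction m with
  | zero =>
    rw [pow_zero]
    exact one_mem _
  | succ m ih =>
    rw [pow_succ, Nat.succ_mul]
    exact mul_mem ih hq

theorem prod_mem {ι : Type} (s : Finset ι) {t : ℕ} {q : ι → Fun K V}
    (hq : ∀ j ∈ s, q j ∈ Pol K V t) : ∏ j ∈ s, q j ∈ Pol K V (s.card * t) := by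
  classical
  induction s using Finset.induction_on with
  | empty =>
    rw [prod_empty]
    exact one_mem _
  | insert j s hj ih =>
    rw [prod_insert hj, card_insert_of_notMem hj, add_mul, one_mul, add_comm]
    exact mul_mem (hq j (mem_insert_self _ _)) (ih fun i hi => hq i (mem_insert_of_mem hi))

/-- The functions that only depend on the variables in `Z` have degree at most `Z.card`. -/
theorem mem_Pol_of_depends [Fintype V] (Z : Finset V) {f : Fun K V}
    (hf : ∀ x y : V → Bool, (∀ v ∈ Z, x v = y v) → f x = f y) : f ∈ Pol K V Z.card := by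
  classical
  have key : ∀ Z : Finset V, ∀ f : Fun K V,
      (∀ x y : V → Bool, (∀ v ∈ Z, x v = y v) → f x = f y) → f ∈ Pol K V Z.card := by
    intro Z
    induction Z using Finset.induction_on with
    | empty =>
      intro f hf
      have h1 : f = f (fun _ => false) • (1 : Fun K V) := by
        funext x
        rw [Pi.smul_apply, Pi.one_apply, smul_eq_mul, mul_one]
        exact hf _ _ fun v hv => absurd hv (notMem_empty v)
      rw [h1]
      exact Submodule.smul_mem _ _ (one_mem _)
    | insert v Z hv ih =>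
      intro f hf
      rw [card_insert_of_notMem hv]
      have h1 : f = (fun x => f (Function.update x v false)) +
          mon K {v} * ((fun x => f (Function.update x v true)) -
            fun x => f (Function.update x v false)) := by
        funext x
        rw [Pi.add_apply, Pi.mul_apply, Pi.sub_apply]
        unfold mon
        cases hx : x v
        · rw [if_neg (by simp [hx]), zero_mul, add_zero]
          congr 1
          rw [← hx, Function.update_eq_self]
        · rw [if_pos (by simp [hx]), one_mul, add_sub_cancel]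
          congr 1
          rw [← hx, Function.update_eq_self]
      have h2 : ∀ b : Bool, (fun x : V → Bool => f (Function.update x v b)) ∈
          Pol K V Z.card := by
        intro b
        apply ih
        intro x y hxy
        apply hf
        intro u hu
        by_cases huv : u = v
        · rw [huv, Function.update_self, Function.update_self]
        · rw [Function.update_of_ne huv, Function.update_of_ne huv]
          exact hxy u ((mem_insert.1 hu).resolve_left huv)
      rw [h1]
      refine Submodule.add_mem _ (Pol_mono (Nat.le_succ _) (h2 false)) ?_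
      rw [add_comm Z.card 1]
      exact mul_mem (mon_mem (by rw [card_singleton])) (Submodule.sub_mem _ (h2 true) (h2 false))
  exact key Z f hf

variable [Fintype K]

/-- The indicator function of the zeros of `q`. -/
def cf (q : Fun K V) : Fun K V := 1 - q ^ (Fintype.card K - 1)

theorem card_sub_pos : 0 < Fintype.card K - 1 := by
  have := Fintype.one_lt_card (α := K)
  omega

theorem cf_apply (q : Fun K V) (x : V → Bool) [Decidable (q x = 0)] :
    cf q x = if q x = 0 then 1 else 0 := by
  unfold cf
  rw [Pi.sub_apply, Pi.one_apply, Pi.pow_apply]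
  by_cases h : q x = 0
  · rw [if_pos h, h, zero_pow card_sub_pos.ne', sub_zero]
  · rw [if_neg h, FiniteField.pow_card_sub_one_eq_one _ h, sub_self]

theorem cf_mul_self (q : Fun K V) : cf q * q = 0 := by
  classical
  funext x
  rw [Pi.mul_apply, cf_apply, Pi.zero_apply]
  by_cases h : q x = 0
  · rw [h, mul_zero]
  · rw [if_neg h, zero_mul]

theorem cf_mem {t : ℕ} {q : Fun K V} (hq : q ∈ Pol K V t) :
    cf q ∈ Pol K V ((Fintype.card K - 1) * t) :=
  Submodule.sub_mem _ (one_mem _) (pow_mem hq _)

/-- A function with values 0 and 1. -/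
def Bin (g : Fun K V) : Prop := ∀ x, g x = 0 ∨ g x = 1

omit [Fintype K] in
theorem Bin.mul_self {g : Fun K V} (h : Bin g) : g * g = g := by
  funext x
  rw [Pi.mul_apply]
  rcases h x with h | h
  · rw [h, mul_zero]
  · rw [h, mul_one]

theorem bin_cf (q : Fun K V) : Bin (cf q) := by
  classical
  intro x
  rw [cf_apply]
  by_cases h : q x = 0
  · rw [if_pos h]
    exact Or.inr rfl
  · rw [if_neg h]
    exact Or.inl rfl

omit [Fintype K] in
theorem bin_one_sub {g : Fun K V} (h : Bin g) : Bin (1 - g) := by
  intro x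
  rw [Pi.sub_apply, Pi.one_apply]
  rcases h x with h | h
  · rw [h, sub_zero]
    exact Or.inr rfl
  · rw [h, sub_self]
    exact Or.inl rfl

omit [Fintype K] in
theorem bin_prod {ι : Type} (s : Finset ι) {q : ι → Fun K V} (hq : ∀ j ∈ s, Bin (q j)) :
    Bin (∏ j ∈ s, q j) := by
  classical
  induction s using Finset.induction_on with
  | empty =>
    intro x
    rw [prod_empty]
    exact Or.inr rfl
  | insert j s hj ih =>
    intro x
    rw [prod_insert hj, Pi.mul_apply]
    rcases hq j (mem_insert_self _ _) x with h | h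
    · rw [h, zero_mul]
      exact Or.inl rfl
    · rw [h, one_mul]
      exact ih (fun i hi => hq i (mem_insert_of_mem hi)) x

end Pool.Agent.MP_9cec2c_lc.Frege
end

section

/-!
Ranks of linear maps on a subspace, and the halving lemma.
-/

set_option autoImplicit false
set_option linter.unusedSectionVars false

namespace Pool.Agent.MP_9cec2c_lc.Frege

open Finset

section maps

variable {K : Type} [Field K]
variable {V W1 W2 : Type} [AddCommGroup V] [Module K V] [FiniteDimensional K V]
  [AddCommGroup W1] [Module K W1] [AddCommGroup W2] [Module K W2]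

theorem finrank_map_add (S : Submodule K V) (f : V →ₗ[K] W1) :
    Module.finrank K (S.map f) + Module.finrank K (S ⊓ LinearMap.ker f : Submodule K V) =
      Module.finrank K S := by
  have h1 := LinearMap.finrank_range_add_finrank_ker (f.domRestrict S)
  rw [LinearMap.range_domRestrict] at h1
  have h2 : Module.finrank K (LinearMap.ker (f.domRestrict S)) =
      Module.finrank K ((LinearMap.ker (f.domRestrict S)).map S.subtype) :=
    (Submodule.finrank_map_subtype_eq _ _).symm
  have h3 : (LinearMap.ker (f.domRestrict S)).map S.subtype = S ⊓ LinearMap.ker f := by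
    ext x
    constructor
    · rintro ⟨⟨y, hy⟩, hy2, rfl⟩
      exact ⟨hy, hy2⟩
    · rintro ⟨hx1, hx2⟩
      exact ⟨⟨x, hx1⟩, hx2, rfl⟩
  rw [h3] at h2
  omega

/-- A map with a larger kernel has a smaller rank. -/
theorem finrank_map_le_of_ker (S : Submodule K V) (f : V →ₗ[K] W1) (g : V →ₗ[K] W2)
    (h : ∀ x ∈ S, f x = 0 → g x = 0) :
    Module.finrank K (S.map g) ≤ Module.finrank K (S.map f) := by
  have h1 := finrank_map_add S f
  have h2 := finrank_map_add S g
  have h3 : Module.finrank K (S ⊓ LinearMap.ker f : Submodule K V) ≤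
      Module.finrank K (S ⊓ LinearMap.ker g : Submodule K V) :=
    Submodule.finrank_mono fun x hx => ⟨hx.1, h x hx.1 hx.2⟩
  omega

/-- The rank drops by the rank on a subspace that is killed. -/
theorem finrank_map_add_le (S T : Submodule K V) (f : V →ₗ[K] W1) (g : V →ₗ[K] W2)
    (hTS : T ≤ S) (hT : ∀ x ∈ T, g x = 0) (h : ∀ x ∈ S, f x = 0 → g x = 0) :
    Module.finrank K (S.map g) + Module.finrank K (T.map f) ≤ Module.finrank K (S.map f) := by
  have h1 := finrank_map_add S f
  have h2 := finrank_map_add S g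
  have h3 := finrank_map_add T f
  have h4 := Submodule.finrank_sup_add_finrank_inf_eq (S ⊓ LinearMap.ker f) T
  have h5 : (S ⊓ LinearMap.ker f) ⊓ T = T ⊓ LinearMap.ker f := by
    ext x
    constructor
    · rintro ⟨⟨_, hx2⟩, hx3⟩
      exact ⟨hx3, hx2⟩
    · rintro ⟨hx1, hx2⟩
      exact ⟨⟨hTS hx1, hx2⟩, hx1⟩
  have h6 : Module.finrank K ((S ⊓ LinearMap.ker f) ⊔ T : Submodule K V) ≤
      Module.finrank K (S ⊓ LinearMap.ker g : Submodule K V) := by
    refine Submodule.finrank_mono (sup_le ?_ ?_)
    · exact fun x hx => ⟨hx.1, h x hx.1 hx.2⟩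
    · exact fun x hx => ⟨hTS hx, hT x hx⟩
  rw [h5] at h4
  omega

/-- The rank of a difference of two maps. -/
theorem finrank_map_sub_le (S : Submodule K V) (f g : V →ₗ[K] W1) :
    Module.finrank K (S.map (f - g)) ≤
      Module.finrank K (S.map f) + Module.finrank K (S.map g) := by
  have h1 : S.map (f - g) ≤ S.map f ⊔ S.map g := by
    rintro x ⟨y, hy, rfl⟩
    rw [LinearMap.sub_apply]
    exact Submodule.sub_mem _ (Submodule.mem_sup_left (Submodule.mem_map_of_mem hy))
      (Submodule.mem_sup_right (Submodule.mem_map_of_mem hy))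
  exact (Submodule.finrank_mono h1).trans (Submodule.finrank_add_le_finrank_add_finrank _ _)

/-- A common zero of many maps. -/
theorem exists_common_zero {σ : Type} (s : Finset σ) (S : Submodule K V)
    (g : σ → V →ₗ[K] W2)
    (hlt : ∑ i ∈ s, Module.finrank K (S.map (g i)) < Module.finrank K S) :
    ∃ x ∈ S, x ≠ 0 ∧ ∀ i ∈ s, g i x = 0 := by
  classical
  have key1 : ∀ s : Finset σ, ∀ S : Submodule K V,
      ∑ i ∈ s, Module.finrank K (S.map (g i)) < Module.finrank K S →
      ∃ x ∈ S, x ≠ 0 ∧ ∀ i ∈ s, g i x = 0 := by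
    intro s
    induction s using Finset.induction_on with
    | empty =>
      intro S h
      rw [sum_empty] at h
      have h1 : S ≠ ⊥ := by
        rintro rfl
        rw [finrank_bot] at h
        exact lt_irrefl _ h
      obtain ⟨x, hx, hx0⟩ := Submodule.exists_mem_ne_zero_of_ne_bot h1
      exact ⟨x, hx, hx0, fun i hi => absurd hi (notMem_empty i)⟩
    | insert a s ha ih =>
      intro S h
      rw [sum_insert ha] at h
      obtain ⟨T, hT⟩ : ∃ T : Submodule K V, T = S ⊓ LinearMap.ker (g a) := ⟨_, rfl⟩
      have hTS : T ≤ S := by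
        rw [hT]
        exact inf_le_left
      have h1 := finrank_map_add S (g a)
      rw [← hT] at h1
      have h5 : ∑ i ∈ s, Module.finrank K (T.map (g i)) ≤
          ∑ i ∈ s, Module.finrank K (S.map (g i)) :=
        sum_le_sum fun i _ => Submodule.finrank_mono (Submodule.map_mono hTS)
      obtain ⟨x, hx, hfx, hgx⟩ := ih T (by omega)
      refine ⟨x, hTS hx, hfx, fun i hi => ?_⟩
      rcases mem_insert.1 hi with rfl | hi
      · rw [hT] at hx
        exact hx.2
      · exact hgx i hi
  exact key1 s S hlt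

end maps

section half

variable {K : Type} [Field K] [Fintype K]
variable {V U : Type} [AddCommGroup V] [Module K V] [FiniteDimensional K V]
  [AddCommGroup U] [Module K U] {β : Type} [Fintype β] [DecidableEq β]

/-- The maps `x ↦ ∑ j, a j * S j i x`, for `i` in `s`, where `j` runs through `s`. -/
noncomputable def comb (S : β → β → V →ₗ[K] U) (s : Finset β) (a : β → K) : V →ₗ[K] (β → U) :=
  LinearMap.pi fun i => if i ∈ s then ∑ j ∈ s, a j • S j i else 0

/-- The maps `S i i`, for `i` in `s`. -/
noncomputable def diag (S : β → β → V →ₗ[K] U) (s : Finset β) : V →ₗ[K] (β → U) :=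
  LinearMap.pi fun i => if i ∈ s then S i i else 0

theorem comb_eq_zero {S : β → β → V →ₗ[K] U} {s : Finset β} {a : β → K} {x : V} :
    comb S s a x = 0 ↔ ∀ i ∈ s, ∑ j ∈ s, a j • S j i x = 0 := by
  unfold comb
  constructor
  · intro h i hi
    have h1 := congrFun h i
    rw [LinearMap.pi_apply, if_pos hi, LinearMap.sum_apply] at h1
    exact h1
  · intro h
    funext i
    rw [LinearMap.pi_apply]
    by_cases hi : i ∈ s
    · rw [if_pos hi, LinearMap.sum_apply]
      exact h i hi
    · rw [if_neg hi]
      rfl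

theorem diag_eq_zero {S : β → β → V →ₗ[K] U} {s : Finset β} {x : V} :
    diag S s x = 0 ↔ ∀ i ∈ s, S i i x = 0 := by
  unfold diag
  constructor
  · intro h i hi
    have h1 := congrFun h i
    rw [LinearMap.pi_apply, if_pos hi] at h1
    exact h1
  · intro h
    funext i
    rw [LinearMap.pi_apply]
    by_cases hi : i ∈ s
    · rw [if_pos hi]
      exact h i hi
    · rw [if_neg hi]
      rfl

/-- The halving lemma. On average over `a`, the maps `∑ j, a j * S j i` have together at least half
of the rank of the maps `S i i`. -/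
theorem halving (S : β → β → V →ₗ[K] U) (s : Finset β) :
    ∀ B : Submodule K V, (∀ x ∈ B, ∀ i j, S j j x = 0 → S j i x = 0 ∧ S i j x = 0) →
      Fintype.card (β → K) * Module.finrank K (B.map (diag S s)) ≤
        2 * ∑ a : β → K, Module.finrank K (B.map (comb S s a)) := by
  induction s using Finset.induction_on with
  | empty =>
    intro B _
    have h1 : B.map (diag S ∅) = ⊥ := by
      rw [eq_bot_iff]
      rintro y ⟨x, -, rfl⟩
      rw [Submodule.mem_bot, diag_eq_zero]
      exact fun i hi => absurd hi (notMem_empty i)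
    rw [h1, finrank_bot, mul_zero]
    exact Nat.zero_le _
  | insert c s hc ih =>
    intro B hB
    obtain ⟨B', hB'⟩ : ∃ B' : Submodule K V, B' = B ⊓ LinearMap.ker (S c c) := ⟨_, rfl⟩
    have hB'B : B' ≤ B := by
      rw [hB']
      exact inf_le_left
    have hB'c : ∀ x ∈ B', S c c x = 0 := by
      intro x hx
      rw [hB'] at hx
      exact hx.2
    obtain ⟨Y, hY⟩ : ∃ Y : (β → K) → V →ₗ[K] U, Y = fun a =>
      ∑ j ∈ insert c s, a j • S j c := ⟨_, rfl⟩
    have ih' := ih B' fun x hx => hB x (hB'B hx)
    -- the rank on the part that is killed by `S c c`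
    have h1 : ∀ a : β → K, Module.finrank K (B.map (Y a)) +
        Module.finrank K (B'.map (comb S s a)) ≤
        Module.finrank K (B.map (comb S (insert c s) a)) := by
      intro a
      have h2 : Module.finrank K (B.map (Y a)) +
          Module.finrank K (B'.map (comb S (insert c s) a)) ≤
          Module.finrank K (B.map (comb S (insert c s) a)) := by
        refine finrank_map_add_le B B' _ _ hB'B (fun x hx => ?_) fun x hx h => ?_
        · rw [hY]
          show (∑ j ∈ insert c s, a j • S j c) x = 0
          rw [LinearMap.sum_apply]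
          refine sum_eq_zero fun j _ => ?_
          rw [LinearMap.smul_apply, (hB x (hB'B hx) j c (hB'c x hx)).2, smul_zero]
        · rw [hY]
          show (∑ j ∈ insert c s, a j • S j c) x = 0
          rw [LinearMap.sum_apply]
          exact comb_eq_zero.1 h c (mem_insert_self _ _)
      have h3 : Module.finrank K (B'.map (comb S s a)) ≤
          Module.finrank K (B'.map (comb S (insert c s) a)) := by
        refine finrank_map_le_of_ker _ _ _ fun x hx h => ?_
        rw [comb_eq_zero] at h ⊢
        intro i hi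
        have h4 := h i (mem_insert_of_mem hi)
        rw [sum_insert hc, (hB x (hB'B hx) i c (hB'c x hx)).1, smul_zero, zero_add] at h4
        exact h4
      omega
    -- the rank of `S c c`
    have h2 : Fintype.card (β → K) * Module.finrank K (B.map (S c c)) ≤
        2 * ∑ a : β → K, Module.finrank K (B.map (Y a)) := by
      obtain ⟨δ, hδ⟩ : ∃ δ : β → K, δ = Pi.single c 1 := ⟨_, rfl⟩
      have h3 : ∑ a : β → K, Module.finrank K (B.map (Y (a + δ))) =
          ∑ a : β → K, Module.finrank K (B.map (Y a)) :=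
        Fintype.sum_equiv (Equiv.addRight δ) _ _ fun a => rfl
      have h4 : ∀ a : β → K, Module.finrank K (B.map (S c c)) ≤
          Module.finrank K (B.map (Y (a + δ))) + Module.finrank K (B.map (Y a)) := by
        intro a
        have h5 : S c c = Y (a + δ) - Y a := by
          rw [hY]
          show S c c = ∑ j ∈ insert c s, (a + δ) j • S j c - ∑ j ∈ insert c s, a j • S j c
          rw [← sum_sub_distrib, sum_eq_single_of_mem c (mem_insert_self _ _)]
          · rw [hδ, Pi.add_apply, Pi.single_eq_same, add_smul, one_smul, add_sub_cancel_left]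
          · intro j _ hj
            rw [hδ, Pi.add_apply, Pi.single_eq_of_ne hj, add_zero, sub_self]
        calc Module.finrank K (B.map (S c c))
            = Module.finrank K (B.map (Y (a + δ) - Y a)) := by rw [← h5]
          _ ≤ _ := finrank_map_sub_le _ _ _
      calc Fintype.card (β → K) * Module.finrank K (B.map (S c c))
          = ∑ _a : β → K, Module.finrank K (B.map (S c c)) := by
            rw [sum_const, smul_eq_mul, card_univ]
        _ ≤ ∑ a : β → K, (Module.finrank K (B.map (Y (a + δ))) +
            Module.finrank K (B.map (Y a))) := sum_le_sum fun a _ => h4 a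
        _ = 2 * ∑ a : β → K, Module.finrank K (B.map (Y a)) := by
            rw [sum_add_distrib, h3, two_mul]
    -- the rank of all the maps
    have h3 : Module.finrank K (B.map (diag S (insert c s))) ≤
        Module.finrank K (B.map (S c c)) + Module.finrank K (B'.map (diag S s)) := by
      have h4 := finrank_map_add B (diag S (insert c s))
      have h5 := finrank_map_add B (S c c)
      have h6 := finrank_map_add B' (diag S s)
      rw [← hB'] at h5
      have h7 : B' ⊓ LinearMap.ker (diag S s) ≤ B ⊓ LinearMap.ker (diag S (insert c s)) := by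
        rintro x ⟨hx1, hx2⟩
        refine ⟨hB'B hx1, ?_⟩
        rw [SetLike.mem_coe, LinearMap.mem_ker, diag_eq_zero] at hx2 ⊢
        intro i hi
        rcases mem_insert.1 hi with rfl | hi
        · exact hB'c x hx1
        · exact hx2 i hi
      have h8 := Submodule.finrank_mono h7
      omega
    calc Fintype.card (β → K) * Module.finrank K (B.map (diag S (insert c s)))
        ≤ Fintype.card (β → K) * (Module.finrank K (B.map (S c c)) +
          Module.finrank K (B'.map (diag S s))) := Nat.mul_le_mul_left _ h3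
      _ = Fintype.card (β → K) * Module.finrank K (B.map (S c c)) +
          Fintype.card (β → K) * Module.finrank K (B'.map (diag S s)) := mul_add _ _ _
      _ ≤ 2 * ∑ a : β → K, Module.finrank K (B.map (Y a)) +
          2 * ∑ a : β → K, Module.finrank K (B'.map (comb S s a)) := Nat.add_le_add h2 ih'
      _ = 2 * ∑ a : β → K, (Module.finrank K (B.map (Y a)) +
          Module.finrank K (B'.map (comb S s a))) := by rw [sum_add_distrib, mul_add]
      _ ≤ 2 * ∑ a : β → K, Module.finrank K (B.map (comb S (insert c s) a)) :=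
          Nat.mul_le_mul_left _ (sum_le_sum fun a _ => h1 a)

end half

end Pool.Agent.MP_9cec2c_lc.Frege
end

section

/-!
Worlds: filtered vector spaces on which functions of small degree act. The approximation of a
disjunction by a product, up to an error that vanishes on a large part of the world.
-/

set_option autoImplicit false
set_option linter.unusedSectionVars false

namespace Pool.Agent.MP_9cec2c_lc.Frege

open Finset

/-- A world of height `A`: the functions act on `W`, the functions of degree at most `e` map the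
level `a` to the level `a + e`, and products act as compositions, all this up to level `A`. -/
structure World {K V W : Type} [Field K] [AddCommGroup W] [Module K W] (M : ℕ → Submodule K W)
    (act : Fun K V →ₗ[K] W →ₗ[K] W) (A : ℕ) : Prop where
  act_mem : ∀ (a e : ℕ) (P : Fun K V) (w : W), a + e ≤ A → P ∈ Pol K V e → w ∈ M a →
    act P w ∈ M (a + e)
  act_one : ∀ (a : ℕ) (w : W), a ≤ A → w ∈ M a → act 1 w = w
  act_mul : ∀ (a e e' : ℕ) (P Q : Fun K V) (w : W), a + e + e' ≤ A → P ∈ Pol K V e →
    Q ∈ Pol K V e' → w ∈ M a → act (P * Q) w = act P (act Q w)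

variable {K V W : Type} [Field K] [AddCommGroup W] [Module K W]
  {M : ℕ → Submodule K W} {act : Fun K V →ₗ[K] W →ₗ[K] W} {A : ℕ}

theorem World.mono (hW : World M act A) {a b : ℕ} (hab : a ≤ b) (hb : b ≤ A) : M a ≤ M b := by
  intro w hw
  have h := hW.act_mem a (b - a) 1 w (by omega) (one_mem _) hw
  rw [hW.act_one a w (hab.trans hb) hw] at h
  rwa [Nat.add_sub_of_le hab] at h

/-- The maps `act (g i * h)`. -/
noncomputable def tot {β : Type} (act : Fun K V →ₗ[K] W →ₗ[K] W) (g : β → Fun K V)
    (h : Fun K V) : W →ₗ[K] (β → W) := LinearMap.pi fun i => act (g i * h)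

theorem tot_eq_zero {β : Type} {g : β → Fun K V} {h : Fun K V} {w : W} :
    tot act g h w = 0 ↔ ∀ i, act (g i * h) w = 0 := by
  unfold tot
  exact ⟨fun h i => congrFun h i, fun h => funext h⟩

variable [FiniteDimensional K W]

/-- The rank of the maps `act (g i * h)` on the level `a`. -/
noncomputable def rk {β : Type} (M : ℕ → Submodule K W) (act : Fun K V →ₗ[K] W →ₗ[K] W)
    (g : β → Fun K V) (h : Fun K V) (a : ℕ) : ℕ :=
  Module.finrank K ((M a).map (tot act g h))

variable [Fintype K] {β : Type} [Fintype β] [DecidableEq β]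

theorem rk_le (g : β → Fun K V) (h : Fun K V) (a : ℕ) :
    rk M act g h a ≤ Module.finrank K (M a) := by
  have := finrank_map_add (M a) (tot act g h)
  unfold rk
  omega

/-- Multiplication by `cf q` does not increase the rank. -/
theorem rk_mul_le (hW : World M act A) {g : β → Fun K V} {h q : Fun K V} {s t a : ℕ}
    (hg : ∀ i, g i ∈ Pol K V t) (hh : h ∈ Pol K V s) (hq : q ∈ Pol K V t)
    (hA : a + (Fintype.card K - 1) * t + (t + s) ≤ A) :
    rk M act g (h * cf q) a ≤ rk M act g h a := by
  refine finrank_map_le_of_ker _ _ _ fun x hx h0 => ?_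
  rw [tot_eq_zero] at h0 ⊢
  intro i
  have h1 : g i * (h * cf q) = cf q * (g i * h) := by ring
  rw [h1, hW.act_mul a _ _ _ _ x hA (cf_mem hq) (mul_mem (hg i) hh) hx, h0 i, map_zero]

/-- The rank drops when the functions are multiplied by `cf q`. -/
theorem rk_drop (hW : World M act A) {g : β → Fun K V} {h q : Fun K V} {s t a : ℕ}
    (hg : ∀ i, g i ∈ Pol K V t) (hh : h ∈ Pol K V s) (hq : q ∈ Pol K V t)
    (hA : a + t + (Fintype.card K - 1) * t + (t + s) ≤ A) :
    rk M act g (h * cf q) (a + t) + rk M act g (h * q) a ≤ rk M act g h (a + t) := by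
  have h1 : rk M act g (h * q) a ≤
      Module.finrank K (((M a).map (act q)).map (tot act g h)) := by
    rw [← Submodule.map_comp]
    refine finrank_map_le_of_ker _ _ _ fun x hx h0 => ?_
    rw [LinearMap.comp_apply, tot_eq_zero] at h0
    rw [tot_eq_zero]
    intro i
    have h2 : g i * (h * q) = (g i * h) * q := by ring
    rw [h2, hW.act_mul a _ _ _ _ x (by omega) (mul_mem (hg i) hh) hq hx]
    exact h0 i
  have h2 : Module.finrank K ((M (a + t)).map (tot act g (h * cf q))) +
      Module.finrank K (((M a).map (act q)).map (tot act g h)) ≤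
      Module.finrank K ((M (a + t)).map (tot act g h)) := by
    refine finrank_map_add_le _ _ _ _ ?_ ?_ ?_
    · rintro x ⟨y, hy, rfl⟩
      exact hW.act_mem a t q y (by omega) hq hy
    · rintro x ⟨y, hy, rfl⟩
      rw [tot_eq_zero]
      intro i
      have h3 : g i * (h * cf q) * q = 0 := by
        calc g i * (h * cf q) * q = g i * h * (cf q * q) := by ring
          _ = 0 := by rw [cf_mul_self, mul_zero]
      rw [← hW.act_mul a _ _ _ _ y (by omega) (mul_mem (hg i) (mul_mem hh (cf_mem hq))) hq hy,
        h3, map_zero, LinearMap.zero_apply]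
    · intro x hx h0
      rw [tot_eq_zero] at h0 ⊢
      intro i
      have h1 : g i * (h * cf q) = cf q * (g i * h) := by ring
      rw [h1, hW.act_mul (a + t) _ _ _ _ x hA (cf_mem hq) (mul_mem (hg i) hh) hx, h0 i, map_zero]
  unfold rk at h1 ⊢
  omega

/-- A random combination of the functions `g i`. -/
def rcomb (g : β → Fun K V) (c : β → K) : Fun K V := ∑ j, c j • g j

/-- The halving lemma for worlds. -/
theorem rk_half (hW : World M act A) {g : β → Fun K V} {h : Fun K V} {s t a : ℕ}
    (hg : ∀ i, g i ∈ Pol K V t) (hb : ∀ i, Bin (g i)) (hh : h ∈ Pol K V s)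
    (hA : a + t + (t + s) ≤ A) :
    Fintype.card (β → K) * rk M act g h a ≤
      2 * ∑ c : β → K, rk M act g (h * rcomb g c) a := by
  obtain ⟨S, hS⟩ : ∃ S : β → β → W →ₗ[K] W, S = fun j i => act (g j * (g i * h)) := ⟨_, rfl⟩
  have h1 := halving S univ (M a) ?_
  · have h2 : diag S univ = tot act g h := by
      unfold diag tot
      congr 1
      funext i
      rw [if_pos (mem_univ i), hS]
      show act (g i * (g i * h)) = act (g i * h)
      rw [← mul_assoc, (hb i).mul_self]
    have h3 : ∀ c : β → K, comb S univ c = tot act g (h * rcomb g c) := by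
      intro c
      unfold comb tot
      congr 1
      funext i
      rw [if_pos (mem_univ i), hS]
      show ∑ j, c j • act (g j * (g i * h)) = act (g i * (h * rcomb g c))
      have h4 : g i * (h * rcomb g c) = ∑ j, c j • (g j * (g i * h)) := by
        unfold rcomb
        rw [mul_sum, mul_sum]
        refine sum_congr rfl fun j _ => ?_
        rw [mul_smul_comm, mul_smul_comm]
        congr 1
        ring
      rw [h4, map_sum]
      refine sum_congr rfl fun j _ => ?_
      rw [map_smul]
    rw [h2] at h1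
    refine h1.trans (le_of_eq ?_)
    congr 1
    refine sum_congr rfl fun c _ => ?_
    rw [h3 c]
    rfl
  · intro x hx i j h0
    have h0' : act (g j * h) x = 0 := by
      rw [hS] at h0
      have h5 : g j * (g j * h) = g j * h := by rw [← mul_assoc, (hb j).mul_self]
      rw [← h5]
      exact h0
    have h5 : act (g i * (g j * h)) x = 0 := by
      rw [hW.act_mul a _ _ _ _ x hA (hg i) (mul_mem (hg j) hh) hx, h0', map_zero]
    rw [hS]
    refine ⟨?_, h5⟩
    show act (g j * (g i * h)) x = 0
    have h6 : g j * (g i * h) = g i * (g j * h) := by ring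
    rw [h6]
    exact h5

/-! ### The potential -/

/-- The potential: a weighted sum of the ranks on the levels `a₀, a₀ + t, ..., a₀ + m t`. -/
noncomputable def pot (M : ℕ → Submodule K W) (act : Fun K V →ₗ[K] W →ₗ[K] W)
    (g : β → Fun K V) (a₀ t m : ℕ) (Λ : ℝ) (h : Fun K V) : ℝ :=
  ∑ j ∈ range (m + 1), (rk M act g h (a₀ + j * t) : ℝ) / Λ ^ j

theorem pot_step (hW : World M act A) {g : β → Fun K V} {h : Fun K V} {s t a₀ m : ℕ} {Λ : ℝ}
    (hΛ : 0 < Λ) (hg : ∀ i, g i ∈ Pol K V t) (hb : ∀ i, Bin (g i)) (hh : h ∈ Pol K V s)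
    (hA : a₀ + m * t + (Fintype.card K - 1) * t + (t + s) ≤ A) :
    ∃ c : β → K, pot M act g a₀ t m Λ (h * cf (rcomb g c)) ≤
      (1 - 1 / (2 * Λ)) * pot M act g a₀ t m Λ h +
        1 / (2 * Λ) * (rk M act g h (a₀ + m * t) / Λ ^ m) := by
  have hqt : ∀ c : β → K, rcomb g c ∈ Pol K V t := fun c =>
    Submodule.sum_mem _ fun i _ => Submodule.smul_mem _ _ (hg i)
  have hct : t ≤ (Fintype.card K - 1) * t := Nat.le_mul_of_pos_left t card_sub_pos
  have hlev : ∀ j ≤ m, j * t ≤ m * t := fun j hj => Nat.mul_le_mul_right t hj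
  obtain ⟨D, hD⟩ : ∃ D : ℕ → (β → K) → ℝ, D = fun j c =>
    (rk M act g (h * rcomb g c) (a₀ + j * t) : ℝ) := ⟨_, rfl⟩
  obtain ⟨R, hR⟩ : ∃ R : ℕ → ℝ, R = fun j => (rk M act g h (a₀ + j * t) : ℝ) := ⟨_, rfl⟩
  -- one choice
  have h1 : ∀ c, pot M act g a₀ t m Λ (h * cf (rcomb g c)) + ∑ j ∈ range m, D j c / Λ ^ (j + 1) ≤
      pot M act g a₀ t m Λ h := by
    intro c
    unfold pot
    rw [sum_range_succ', sum_range_succ' (fun j => (rk M act g h (a₀ + j * t) : ℝ) / Λ ^ j)]
    have h2 : (rk M act g (h * cf (rcomb g c)) (a₀ + 0 * t) : ℝ) / Λ ^ 0 ≤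
        (rk M act g h (a₀ + 0 * t) : ℝ) / Λ ^ 0 := by
      refine div_le_div_of_nonneg_right ?_ (pow_nonneg hΛ.le _)
      exact_mod_cast rk_mul_le hW hg hh (hqt c) (by omega)
    have h3 : ∑ j ∈ range m, (rk M act g (h * cf (rcomb g c)) (a₀ + (j + 1) * t) : ℝ) /
        Λ ^ (j + 1) + ∑ j ∈ range m, D j c / Λ ^ (j + 1) ≤
        ∑ j ∈ range m, (rk M act g h (a₀ + (j + 1) * t) : ℝ) / Λ ^ (j + 1) := by
      rw [← sum_add_distrib]
      refine sum_le_sum fun j hj => ?_
      rw [← add_div]
      refine div_le_div_of_nonneg_right ?_ (pow_nonneg hΛ.le _)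
      have hjm := hlev (j + 1) (mem_range.1 hj)
      have h4 : a₀ + (j + 1) * t = a₀ + j * t + t := by ring
      rw [h4, hD]
      have h5 := rk_drop hW (a := a₀ + j * t) hg hh (hqt c) (by omega)
      show (rk M act g (h * cf (rcomb g c)) (a₀ + j * t + t) : ℝ) +
        (rk M act g (h * rcomb g c) (a₀ + j * t) : ℝ) ≤ _
      exact_mod_cast h5
    linarith
  -- the average
  have h2 : ∀ j < m, (Fintype.card (β → K) : ℝ) * R j ≤ 2 * ∑ c, D j c := by
    intro j hj
    have hjm := hlev (j + 1) hj
    have h4 : (j + 1) * t = j * t + t := by ring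
    have h3 := rk_half hW (a := a₀ + j * t) hg hb hh (by omega)
    rw [hR, hD]
    show (Fintype.card (β → K) : ℝ) * (rk M act g h (a₀ + j * t) : ℝ) ≤
      2 * ∑ c, (rk M act g (h * rcomb g c) (a₀ + j * t) : ℝ)
    exact_mod_cast h3
  have hN : (0 : ℝ) < Fintype.card (β → K) := by
    exact_mod_cast Fintype.card_pos
  by_contra hcon
  push Not at hcon
  have h3 : ∑ _c : β → K, ((1 - 1 / (2 * Λ)) * pot M act g a₀ t m Λ h +
        1 / (2 * Λ) * (rk M act g h (a₀ + m * t) / Λ ^ m)) <
      ∑ c : β → K, pot M act g a₀ t m Λ (h * cf (rcomb g c)) :=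
    sum_lt_sum_of_nonempty ⟨0, mem_univ _⟩ fun c _ => hcon c
  have h4 : ∑ c : β → K, (pot M act g a₀ t m Λ (h * cf (rcomb g c)) +
      ∑ j ∈ range m, D j c / Λ ^ (j + 1)) ≤ ∑ _c : β → K, pot M act g a₀ t m Λ h :=
    sum_le_sum fun c _ => h1 c
  rw [sum_add_distrib, sum_comm] at h4
  have h5 : ∑ j ∈ range m, (Fintype.card (β → K) : ℝ) * (R j / Λ ^ j) * (1 / (2 * Λ)) ≤
      ∑ j ∈ range m, ∑ c : β → K, D j c / Λ ^ (j + 1) := by
    refine sum_le_sum fun j hj => ?_
    rw [← sum_div]
    have h6 := h2 j (mem_range.1 hj)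
    have h7 : (Fintype.card (β → K) : ℝ) * (R j / Λ ^ j) * (1 / (2 * Λ)) =
        (Fintype.card (β → K) : ℝ) * R j / 2 / Λ ^ (j + 1) := by
      rw [pow_succ]
      field_simp
    rw [h7]
    refine div_le_div_of_nonneg_right ?_ (pow_nonneg hΛ.le _)
    linarith
  have h6 : pot M act g a₀ t m Λ h = ∑ j ∈ range m, R j / Λ ^ j + R m / Λ ^ m := by
    unfold pot
    rw [sum_range_succ, hR]
  have h7 : ∑ j ∈ range m, (Fintype.card (β → K) : ℝ) * (R j / Λ ^ j) * (1 / (2 * Λ)) =
      (Fintype.card (β → K) : ℝ) * (1 / (2 * Λ)) * (pot M act g a₀ t m Λ h - R m / Λ ^ m) := by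
    rw [← sum_mul, ← mul_sum, h6]
    ring
  rw [sum_const, nsmul_eq_mul, card_univ] at h3 h4
  have h8 : (rk M act g h (a₀ + m * t) : ℝ) = R m := by rw [hR]
  rw [h8] at h3
  rw [h7] at h5
  have h9 : (Fintype.card (β → K) : ℝ) * ((1 - 1 / (2 * Λ)) * pot M act g a₀ t m Λ h +
      1 / (2 * Λ) * (R m / Λ ^ m)) = (Fintype.card (β → K) : ℝ) * pot M act g a₀ t m Λ h -
      (Fintype.card (β → K) : ℝ) * (1 / (2 * Λ)) * (pot M act g a₀ t m Λ h - R m / Λ ^ m) := by
    ring
  rw [h9] at h3
  linarith

/-- The function `h` is a product of `k` factors `cf q` with `q` in the span of `G`. -/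
def Hor (k : ℕ) (G : Set (Fun K V)) (h : Fun K V) : Prop :=
  ∃ q : Fin k → Fun K V, (∀ j, q j ∈ Submodule.span K G) ∧ h = ∏ j, cf (q j)

theorem Hor.mem {k t : ℕ} {G : Set (Fun K V)} {h : Fun K V} (hh : Hor k G h)
    (hG : ∀ g ∈ G, g ∈ Pol K V t) : h ∈ Pol K V (k * ((Fintype.card K - 1) * t)) := by
  obtain ⟨q, hq, rfl⟩ := hh
  have h1 : Submodule.span K G ≤ Pol K V t := Submodule.span_le.2 hG
  have h2 := prod_mem (univ : Finset (Fin k)) fun j _ => cf_mem (h1 (hq j))
  rwa [card_univ, Fintype.card_fin] at h2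

theorem Hor.bin {k : ℕ} {G : Set (Fun K V)} {h : Fun K V} (hh : Hor k G h) : Bin h := by
  obtain ⟨q, -, rfl⟩ := hh
  exact bin_prod _ fun j _ => bin_cf _

theorem hor_one (k : ℕ) (G : Set (Fun K V)) : Hor k G 1 := by
  refine ⟨fun _ => 0, fun _ => Submodule.zero_mem _, ?_⟩
  have h1 : cf (0 : Fun K V) = 1 := by
    unfold cf
    rw [zero_pow card_sub_pos.ne', sub_zero]
  show (1 : Fun K V) = ∏ _j : Fin k, cf 0
  rw [h1, prod_const_one]

/-- The approximation of a disjunction: the product of few factors `cf q`, with `q` in the span of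
the functions `g i`, makes the maps `act (g i * h)` vanish on almost all of the level `a₀`. -/
theorem exists_hor (hW : World M act A) {g : β → Fun K V} {t a₀ m : ℕ} {Λ C : ℝ}
    (hΛ : 1 / 2 ≤ Λ) (hC : 0 ≤ C) (hg : ∀ i, g i ∈ Pol K V t) (hb : ∀ i, Bin (g i)) (k : ℕ)
    (hA : a₀ + (m + 1 + k * (Fintype.card K - 1)) * t ≤ A)
    (hgrow : ∀ j ≤ m, (Module.finrank K (M (a₀ + j * t)) : ℝ) ≤
      C * (Λ / 2) ^ j * Module.finrank K (M a₀)) :
    ∃ h, Hor k (Set.range g) h ∧ (rk M act g h a₀ : ℝ) ≤
      (2 * C * (1 - 1 / (2 * Λ)) ^ k + C / 2 ^ m) * Module.finrank K (M a₀) := by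
  classical
  have hΛ0 : 0 < Λ := by linarith
  obtain ⟨r, hr⟩ : ∃ r : ℝ, r = Module.finrank K (M a₀) := ⟨_, rfl⟩
  have hr0 : 0 ≤ r := by
    rw [hr]
    exact Nat.cast_nonneg _
  obtain ⟨θ, hθ⟩ : ∃ θ : ℝ, θ = 1 - 1 / (2 * Λ) := ⟨_, rfl⟩
  have hθ0 : 0 ≤ θ := by
    rw [hθ, sub_nonneg, div_le_one (by positivity)]
    linarith
  have hθ1 : 1 / (2 * Λ) = 1 - θ := by rw [hθ]; ring
  have hθ2 : θ ≤ 1 := by
    have : 0 < 1 / (2 * Λ) := by positivity
    linarith
  have hgr : ∀ (h : Fun K V), ∀ j ≤ m, (rk M act g h (a₀ + j * t) : ℝ) / Λ ^ j ≤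
      C / 2 ^ j * r := by
    intro h j hj
    rw [div_le_iff₀ (pow_pos hΛ0 j)]
    calc (rk M act g h (a₀ + j * t) : ℝ) ≤ Module.finrank K (M (a₀ + j * t)) := by
          exact_mod_cast rk_le g h _
      _ ≤ C * (Λ / 2) ^ j * Module.finrank K (M a₀) := hgrow j hj
      _ = C / 2 ^ j * r * Λ ^ j := by
          rw [hr, div_pow]
          ring
  have key : ∀ k : ℕ, a₀ + (m + 1 + k * (Fintype.card K - 1)) * t ≤ A →
      ∃ h, Hor k (Set.range g) h ∧ pot M act g a₀ t m Λ h ≤ 2 * C * θ ^ k * r + C / 2 ^ m * r := by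
    intro k
    induction k with
    | zero =>
      intro _
      refine ⟨1, hor_one _ _, ?_⟩
      have h1 : pot M act g a₀ t m Λ 1 ≤ ∑ j ∈ range (m + 1), C * r * (1 / 2) ^ j := by
        unfold pot
        refine sum_le_sum fun j hj => ?_
        refine (hgr 1 j (Nat.lt_succ_iff.1 (mem_range.1 hj))).trans (le_of_eq ?_)
        rw [one_div, inv_pow]
        ring
      have h2 : ∑ j ∈ range (m + 1), ((1 : ℝ) / 2) ^ j ≤ 2 := by
        have h3 := geom_sum_eq (show (1 / 2 : ℝ) ≠ 1 by norm_num) (m + 1)
        rw [h3]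
        have h4 : (0 : ℝ) < (1 / 2) ^ (m + 1) := by positivity
        have h5 : ((1 / 2 : ℝ) ^ (m + 1) - 1) / (1 / 2 - 1) = 2 * (1 - (1 / 2) ^ (m + 1)) := by
          ring
        rw [h5]
        linarith
      rw [← mul_sum] at h1
      have h3 : C * r * ∑ j ∈ range (m + 1), ((1 : ℝ) / 2) ^ j ≤ C * r * 2 :=
        mul_le_mul_of_nonneg_left h2 (mul_nonneg hC hr0)
      have h4 : 0 ≤ C / 2 ^ m * r := by positivity
      rw [pow_zero]
      linarith
    | succ k ih =>
      intro hk
      have e1 : (k + 1) * (Fintype.card K - 1) =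
          k * (Fintype.card K - 1) + (Fintype.card K - 1) := by ring
      have e2 : (m + 1 + (k * (Fintype.card K - 1) + (Fintype.card K - 1))) * t =
          m * t + t + k * ((Fintype.card K - 1) * t) + (Fintype.card K - 1) * t := by ring
      have e3 : (m + 1 + k * (Fintype.card K - 1)) * t =
          m * t + t + k * ((Fintype.card K - 1) * t) := by ring
      rw [e1, e2] at hk
      rw [e3] at ih
      obtain ⟨h, hh, hpot⟩ := ih (by omega)
      have hhm := hh.mem (t := t) (by
        rintro _ ⟨i, rfl⟩
        exact hg i)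
      obtain ⟨c, hc⟩ := pot_step hW (a₀ := a₀) (m := m) hΛ0 hg hb hhm (by omega)
      obtain ⟨q, hq, hhq⟩ := hh
      refine ⟨h * cf (rcomb g c), ⟨Fin.snoc q (rcomb g c), fun j => ?_, ?_⟩, hc.trans ?_⟩
      · refine Fin.lastCases ?_ (fun j => ?_) j
        · rw [Fin.snoc_last]
          exact Submodule.sum_mem _ fun i _ => Submodule.smul_mem _ _
            (Submodule.subset_span ⟨i, rfl⟩)
        · rw [Fin.snoc_castSucc]
          exact hq j
      · rw [Fin.prod_univ_castSucc, Fin.snoc_last, hhq]
        congr 1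
        refine prod_congr rfl fun j _ => ?_
        rw [Fin.snoc_castSucc]
      · have h1 := hgr h m le_rfl
        rw [← hθ, hθ1]
        calc θ * pot M act g a₀ t m Λ h + (1 - θ) * (rk M act g h (a₀ + m * t) / Λ ^ m)
            ≤ θ * (2 * C * θ ^ k * r + C / 2 ^ m * r) + (1 - θ) * (C / 2 ^ m * r) :=
              add_le_add (mul_le_mul_of_nonneg_left hpot hθ0)
                (mul_le_mul_of_nonneg_left h1 (by linarith))
          _ = 2 * C * θ ^ (k + 1) * r + C / 2 ^ m * r := by ring
  obtain ⟨h, hh, hpot⟩ := key k hA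
  refine ⟨h, hh, ?_⟩
  have h1 : (rk M act g h a₀ : ℝ) ≤ pot M act g a₀ t m Λ h := by
    unfold pot
    have h2 : (rk M act g h a₀ : ℝ) = (rk M act g h (a₀ + 0 * t) : ℝ) / Λ ^ 0 := by
      rw [zero_mul, add_zero, pow_zero, div_one]
    rw [h2]
    exact single_le_sum (f := fun j => (rk M act g h (a₀ + j * t) : ℝ) / Λ ^ j)
      (fun j _ => by positivity) (mem_range.2 (Nat.succ_pos m))
  rw [← hθ, ← hr]
  linarith

end Pool.Agent.MP_9cec2c_lc.Frege
end
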