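import Mathlib
import Pool.Agent.Lib.MP_9cec2c_lc.Mg.G001
import Pool.Agent.Lib.MP_9cec2c_lc.Mg.G058
import Pool.Agent.Lib.MP_9cec2c_lc.FADefs

section

/-!
FLAT, the formula: the Tseitin contradiction modulo 2 on the complete graph `K_N`, with a parity
variable for every initial segment of the star of every vertex (a 3-CNF with `O(N^2)` clauses).
-/

namespace Pool.Agent.MP_9cec2c_lc.Flat

open Finset

section Parity

variable {V : Type} [DecidableEq V]

/-- The clause which forbids the assignment with set of true variables `A` on the set `C`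
(a literal `(i, s)` is true at `x` if `x i = s`). -/
def forbid (C A : Finset V) : Finset (V × Bool) := C.image (fun i => (i, decide (i ∉ A)))

/-- The clauses of the linear equation `sum of C = c` modulo 2. -/
def parityClauses (C : Finset V) (c : ZMod 2) : Finset (Finset (V × Bool)) :=
  (C.powerset.filter (fun A => (A.card : ZMod 2) ≠ c)).image (forbid C)

/-- The value in `ZMod 2` of a bit. -/
def bz (s : Bool) : ZMod 2 := if s = true then 1 else 0

theorem card_forbid (C A : Finset V) : (forbid C A).card ≤ C.card := card_image_le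

theorem card_parityClauses (C : Finset V) (c : ZMod 2) :
    (parityClauses C c).card ≤ 2 ^ C.card := by
  refine card_image_le.trans ?_
  refine (card_filter_le _ _).trans ?_
  rw [card_powerset]

theorem forbid_sat {C A : Finset V} (x : V → Bool)
    (hA : A = C.filter (fun i => x i = true)) :
    ∀ l ∈ forbid C A, x l.1 ≠ l.2 := by
  intro l hl
  rcases mem_image.1 hl with ⟨i, hi, rfl⟩
  by_cases hx : x i = true
  · have h1 : i ∈ A := by rw [hA]; exact mem_filter.2 ⟨hi, hx⟩
    simp [hx, h1]
  · have h1 : i ∉ A := by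
      rw [hA]
      intro h
      exact hx (mem_filter.1 h).2
    simp [hx, h1]

omit [DecidableEq V] in
theorem sum_bz_eq_card (C : Finset V) (x : V → Bool) :
    ∑ i ∈ C, bz (x i) = ((C.filter (fun i => x i = true)).card : ZMod 2) := by
  unfold bz
  rw [← sum_filter, sum_const, nsmul_eq_mul, mul_one]

/-- An assignment which satisfies all clauses of an equation satisfies the equation. -/
theorem parity_of_sat (C : Finset V) (c : ZMod 2) (x : V → Bool)
    (h : ∀ K ∈ parityClauses C c, ∃ l ∈ K, x l.1 = l.2) : ∑ i ∈ C, bz (x i) = c := by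
  by_contra hne
  rw [sum_bz_eq_card] at hne
  have h1 : forbid C (C.filter (fun i => x i = true)) ∈ parityClauses C c :=
    mem_image.2 ⟨_, mem_filter.2 ⟨mem_powerset.2 (filter_subset _ _), hne⟩, rfl⟩
  obtain ⟨l, hl, hx⟩ := h _ h1
  exact forbid_sat x rfl l hl hx

end Parity

/-- The Tseitin contradiction: `y_{v,0} = 0`, `y_{v,u+1} = y_{v,u} + x_{vu}`, `y_{v,N} = b_v`. -/
def tseitin (N : ℕ) (b : Fin N → ZMod 2) : Finset (Finset (TVar N × Bool)) :=
  (univ.biUnion (fun v : Fin N => parityClauses {Sum.inr (v, 0)} 0)) ∪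
  (univ.biUnion (fun q : Fin N × Fin N => parityClauses (stepSet q.1 q.2) 0)) ∪
  (univ.biUnion (fun v : Fin N => parityClauses {Sum.inr (v, Fin.last N)} (b v)))

theorem card_stepSet {N : ℕ} (v u : Fin N) : (stepSet v u).card ≤ 3 := by
  unfold stepSet
  split_ifs
  · exact (card_le_two).trans (by norm_num)
  · exact card_le_three

theorem tseitin_width (N : ℕ) (b : Fin N → ZMod 2) : ∀ K ∈ tseitin N b, K.card ≤ 3 := by
  intro K hK
  have key : ∀ (C : Finset (TVar N)) (c : ZMod 2), C.card ≤ 3 → K ∈ parityClauses C c →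
      K.card ≤ 3 := by
    intro C c hC hK
    rcases mem_image.1 hK with ⟨A, _, rfl⟩
    exact (card_forbid C A).trans hC
  unfold tseitin at hK
  rw [mem_union, mem_union, mem_biUnion, mem_biUnion, mem_biUnion] at hK
  rcases hK with (⟨v, _, h⟩ | ⟨q, _, h⟩) | ⟨v, _, h⟩
  · exact key _ _ (by simp) h
  · exact key _ _ (card_stepSet _ _) h
  · exact key _ _ (by simp) h

theorem tseitin_card (N : ℕ) (b : Fin N → ZMod 2) : (tseitin N b).card ≤ 8 * N ^ 2 + 4 * N := by
  unfold tseitin
  refine (card_union_le _ _).trans ?_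
  refine (Nat.add_le_add_right (card_union_le _ _) _).trans ?_
  have h1 : (univ.biUnion (fun v : Fin N =>
      parityClauses ({Sum.inr (v, 0)} : Finset (TVar N)) 0)).card ≤ N * 2 := by
    refine (card_biUnion_le_card_mul _ _ 2 (fun v _ => ?_)).trans ?_
    · exact (card_parityClauses _ _).trans (by simp)
    · simp
  have h2 : (univ.biUnion (fun q : Fin N × Fin N =>
      parityClauses (stepSet q.1 q.2) 0)).card ≤ N * N * 8 := by
    refine (card_biUnion_le_card_mul _ _ 8 (fun v _ => ?_)).trans ?_
    · exact (card_parityClauses _ _).trans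
        ((Nat.pow_le_pow_right (by norm_num) (card_stepSet _ _)).trans (by norm_num))
    · simp
  have h3 : (univ.biUnion (fun v : Fin N =>
      parityClauses ({Sum.inr (v, Fin.last N)} : Finset (TVar N)) (b v))).card ≤ N * 2 := by
    refine (card_biUnion_le_card_mul _ _ 2 (fun v _ => ?_)).trans ?_
    · exact (card_parityClauses _ _).trans (by simp)
    · simp
  nlinarith [h1, h2, h3]

/-- The sum over all vertices of the sums over the stars vanishes modulo 2. -/
theorem sum_star_zero {N : ℕ} (f : Edge N → ZMod 2) :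
    ∑ v : Fin N, ∑ u : Fin N, (if h : v = u then 0 else f (mkEdge v u h)) = 0 := by
  set g : Fin N × Fin N → ZMod 2 := fun q => if h : q.1 = q.2 then 0 else f (mkEdge q.1 q.2 h)
    with hg
  have h1 : ∑ v : Fin N, ∑ u : Fin N, (if h : v = u then 0 else f (mkEdge v u h))
      = ∑ q : Fin N × Fin N, g q := by
    rw [Fintype.sum_prod_type]
  rw [h1]
  refine Finset.sum_involution (fun q _ => (q.2, q.1)) ?_ ?_ ?_ ?_
  · rintro ⟨v, u⟩ _
    simp only [hg]
    by_cases h : v = u
    · subst h; simp
    · have h' : ¬ u = v := fun hh => h hh.symm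
      rw [dif_neg h, dif_neg h', mkEdge_symm v u h]
      rcases zmod2_cases (f (mkEdge u v h')) with h2 | h2
      · rw [h2]; rfl
      · rw [h2]; exact (by decide : (1 : ZMod 2) + 1 = 0)
  · rintro ⟨v, u⟩ _ hne heq
    simp only [Prod.mk.injEq] at heq
    apply hne
    simp only [hg]
    rw [dif_pos heq.2]
  · intro q _
    exact mem_univ _
  · rintro ⟨v, u⟩ _
    rfl

/-- If the sum of the charges is odd, the formula is unsatisfiable. -/
theorem tseitin_unsat (N : ℕ) (b : Fin N → ZMod 2) (hb : ∑ v, b v = 1) (x : TVar N → Bool) :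
    ∃ K ∈ tseitin N b, ∀ l ∈ K, x l.1 ≠ l.2 := by
  by_contra hcon
  push Not at hcon
  have hmem1 : ∀ v : Fin N, ∀ K ∈ parityClauses ({Sum.inr (v, 0)} : Finset (TVar N)) 0,
      K ∈ tseitin N b := by
    intro v K hK
    exact mem_union_left _ (mem_union_left _ (mem_biUnion.2 ⟨v, mem_univ _, hK⟩))
  have hmem2 : ∀ v u : Fin N, ∀ K ∈ parityClauses (stepSet v u) 0, K ∈ tseitin N b := by
    intro v u K hK
    exact mem_union_left _ (mem_union_right _ (mem_biUnion.2 ⟨(v, u), mem_univ _, hK⟩))
  have hmem3 : ∀ v : Fin N, ∀ K ∈ parityClauses ({Sum.inr (v, Fin.last N)} : Finset (TVar N)) (b v),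
      K ∈ tseitin N b := by
    intro v K hK
    exact mem_union_right _ (mem_biUnion.2 ⟨v, mem_univ _, hK⟩)
  have e1 : ∀ v : Fin N, bz (x (Sum.inr (v, 0))) = 0 := by
    intro v
    have := parity_of_sat _ _ x (fun K hK => hcon K (hmem1 v K hK))
    simpa using this
  have e3 : ∀ v : Fin N, bz (x (Sum.inr (v, Fin.last N))) = b v := by
    intro v
    have := parity_of_sat _ _ x (fun K hK => hcon K (hmem3 v K hK))
    simpa using this
  have e2 : ∀ v u : Fin N, bz (x (Sum.inr (v, u.succ))) = bz (x (Sum.inr (v, u.castSucc)))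
      + (if h : v = u then 0 else bz (x (Sum.inl (mkEdge v u h)))) := by
    intro v u
    have h0 := parity_of_sat _ _ x (fun K hK => hcon K (hmem2 v u K hK))
    have hne : (Sum.inr (v, u.castSucc) : TVar N) ≠ Sum.inr (v, u.succ) := by
      intro h
      have h1 := (Prod.mk.inj (Sum.inr.inj h)).2
      have h2 := congrArg Fin.val h1
      simp at h2
    unfold stepSet at h0
    by_cases h : v = u
    · rw [dif_pos h] at h0 ⊢
      rw [sum_pair hne] at h0
      rcases zmod2_cases (bz (x (Sum.inr (v, u.castSucc)))) with h3 | h3 <;>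
        rcases zmod2_cases (bz (x (Sum.inr (v, u.succ)))) with h4 | h4 <;>
        rw [h3, h4] at h0 <;> rw [h3, h4] <;> revert h0 <;> decide
    · rw [dif_neg h] at h0 ⊢
      rw [sum_insert (by simp [hne]), sum_pair (by simp)] at h0
      rcases zmod2_cases (bz (x (Sum.inr (v, u.castSucc)))) with h3 | h3 <;>
        rcases zmod2_cases (bz (x (Sum.inr (v, u.succ)))) with h4 | h4 <;>
        rcases zmod2_cases (bz (x (Sum.inl (mkEdge v u h)))) with h5 | h5 <;>
        rw [h3, h4, h5] at h0 <;> rw [h3, h4, h5] <;> revert h0 <;> decide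
  -- sums of initial segments
  have e4 : ∀ v : Fin N, ∀ j : ℕ, ∀ hj : j < N + 1,
      bz (x (Sum.inr (v, ⟨j, hj⟩)))
        = ∑ u ∈ univ.filter (fun u : Fin N => u.val < j),
            (if h : v = u then 0 else bz (x (Sum.inl (mkEdge v u h)))) := by
    intro v j
    induction j with
    | zero =>
      intro hj
      have h5 : (univ.filter (fun u : Fin N => u.val < 0)) = ∅ := by
        ext u; simp
      rw [h5, sum_empty]
      exact e1 v
    | succ j ih =>
      intro hj
      have hjN : j < N := by omega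
      have h6 := e2 v ⟨j, hjN⟩
      have h7 : (univ.filter (fun u : Fin N => u.val < j + 1))
          = insert (⟨j, hjN⟩ : Fin N) (univ.filter (fun u : Fin N => u.val < j)) := by
        ext u
        simp only [mem_filter, mem_univ, true_and, mem_insert, Fin.ext_iff]
        omega
      have h8 : (⟨j, hjN⟩ : Fin N) ∉ univ.filter (fun u : Fin N => u.val < j) := by
        simp
      rw [h7, sum_insert h8, ← ih (by omega)]
      have h9 : (⟨j, hjN⟩ : Fin N).succ = ⟨j + 1, hj⟩ := rfl
      have h10 : (⟨j, hjN⟩ : Fin N).castSucc = ⟨j, by omega⟩ := rfl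
      rw [h9, h10] at h6
      rw [h6, add_comm]
  have e5 : ∀ v : Fin N, b v
      = ∑ u : Fin N, (if h : v = u then 0 else bz (x (Sum.inl (mkEdge v u h)))) := by
    intro v
    have h1 := e4 v N (Nat.lt_succ_self N)
    have h2 : (⟨N, Nat.lt_succ_self N⟩ : Fin (N + 1)) = Fin.last N := rfl
    rw [h2, e3 v] at h1
    rw [h1]
    refine sum_congr ?_ (fun _ _ => rfl)
    ext u
    simp
  have e6 : ∑ v, b v = 0 := by
    rw [sum_congr rfl (fun v _ => e5 v)]
    exact sum_star_zero (fun e => bz (x (Sum.inl e)))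
  rw [hb] at e6
  exact absurd e6 (by decide)

/-- The move of a variable. -/
def mvVar {N : ℕ} : TVar N → Cfg N
  | Sum.inl e => mvRow e.1.1 {e.1.2}
  | Sum.inr q => mvRow q.1 (initSet N q.2.val)

theorem mvVar_isMove {N : ℕ} (i : TVar N) : IsMove (mvVar i) := by
  rcases i with e | q
  · exact Or.inl ⟨e.1.1, e.1.2, rfl⟩
  · exact Or.inr ⟨q.1, q.2.val, rfl⟩

theorem mvRow_swap {N : ℕ} (u w : Fin N) (h : u ≠ w) : mvRow u {w} = mvRow w {u} := by
  ext e
  unfold mvRow
  have h0 := ne_of_lt e.2
  simp only [mem_singleton]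
  by_cases h1 : e.1.1 = u
  · by_cases h2 : e.1.2 = w
    · simp [h1, h2]
    · simp [h1, h2, h]
  · by_cases h2 : e.1.1 = w
    · by_cases h3 : e.1.2 = u
      · simp [h2, h3]
      · have h4 : ¬ w = u := fun hh => h hh.symm
        simp [h2, h3, h4]
    · simp [h1, h2]

theorem mvVar_edge {N : ℕ} (v u : Fin N) (h : v ≠ u) :
    mvVar (Sum.inl (mkEdge v u h) : TVar N) = mvRow v {u} := by
  unfold mvVar mkEdge
  by_cases h1 : v < u
  · rw [dif_pos h1]
  · rw [dif_neg h1]
    exact (mvRow_swap v u h).symm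

/-- The moves of the variables of a step equation sum to zero. -/
theorem sum_mvVar_step {N : ℕ} (v u : Fin N) : ∑ i ∈ stepSet v u, mvVar i = 0 := by
  have hne : (Sum.inr (v, u.castSucc) : TVar N) ≠ Sum.inr (v, u.succ) := by
    intro h
    have h1 := (Prod.mk.inj (Sum.inr.inj h)).2
    have h2 := congrArg Fin.val h1
    simp at h2
  have hs : mvVar (Sum.inr (v, u.succ) : TVar N)
      = mvVar (Sum.inr (v, u.castSucc) : TVar N) + mvRow v {u} := by
    have h1 : mvVar (Sum.inr (v, u.succ) : TVar N) = mvRow v (initSet N (u.val + 1)) := rfl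
    have h2 : mvVar (Sum.inr (v, u.castSucc) : TVar N) = mvRow v (initSet N u.val) := rfl
    rw [h1, h2, initSet_succ, mvRow_insert v u _ (not_mem_initSet_self N u)]
  unfold stepSet
  by_cases h : v = u
  · rw [dif_pos h, sum_pair hne, hs, ← h, mvRow_self, add_zero]
    exact cfg_add_self _
  · rw [dif_neg h, sum_insert (by simp [hne]), sum_pair (by simp), hs, mvVar_edge v u h,
      add_assoc, cfg_add_self, add_zero]
    exact cfg_add_self _

theorem mvVar_first {N : ℕ} (v : Fin N) : mvVar (Sum.inr (v, 0) : TVar N) = 0 := by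
  have h1 : mvVar (Sum.inr (v, 0) : TVar N) = mvRow v (initSet N 0) := rfl
  rw [h1, initSet_zero, mvRow_empty]

theorem mvVar_last {N : ℕ} (v : Fin N) :
    mvVar (Sum.inr (v, Fin.last N) : TVar N) = mvRow v univ := by
  have h1 : mvVar (Sum.inr (v, Fin.last N) : TVar N) = mvRow v (initSet N N) := rfl
  rw [h1, initSet_full]

end Pool.Agent.MP_9cec2c_lc.Flat
end

section

/-!
Twisted worlds: functions on a finite abelian group of configurations, supported on a growing
family of good sets, on which the characters of `V → ZMod r` act by twisted translations.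
-/

set_option autoImplicit false
set_option linter.unusedSectionVars false

namespace Pool.Agent.MP_9cec2c_lc.Flat

open Finset

/-! ### Characters of `V → ZMod r` with values in a field -/

section Char

variable {K : Type} [Field K] {r : ℕ} [NeZero r]

/-- The character `z ↦ ω ^ z` of `ZMod r`. -/
def ew (ω : K) (z : ZMod r) : K := ω ^ z.val

theorem ew_zero (ω : K) : ew ω (0 : ZMod r) = 1 := by
  unfold ew
  rw [ZMod.val_zero, pow_zero]

theorem ew_add {ω : K} (hω : IsPrimitiveRoot ω r) (a b : ZMod r) :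
    ew ω (a + b) = ew ω a * ew ω b := by
  unfold ew
  rw [← pow_add, ZMod.val_add]
  exact (pow_eq_pow_mod _ hω.pow_eq_one).symm

theorem ew_neg_mul {ω : K} (hω : IsPrimitiveRoot ω r) (a : ZMod r) : ew ω (-a) * ew ω a = 1 := by
  rw [← ew_add hω, neg_add_cancel, ew_zero]

theorem ew_ne_zero {ω : K} (hω : IsPrimitiveRoot ω r) (a : ZMod r) : ew ω a ≠ 0 := by
  intro h
  have := ew_neg_mul hω a
  rw [h, mul_zero] at this
  exact zero_ne_one this

theorem ew_ne_one {ω : K} (hω : IsPrimitiveRoot ω r) {a : ZMod r} (ha : a ≠ 0) : ew ω a ≠ 1 := by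
  unfold ew
  apply hω.pow_ne_one_of_pos_of_lt
  · exact fun h => ha ((ZMod.val_eq_zero a).1 h)
  · exact ZMod.val_lt a

theorem ew_injective {ω : K} (hω : IsPrimitiveRoot ω r) {a b : ZMod r} (h : ew ω a = ew ω b) :
    a = b := by
  by_contra hne
  have h1 : a - b ≠ 0 := sub_ne_zero.2 hne
  apply ew_ne_one hω h1
  have h2 : ew ω (a - b) * ew ω b = ew ω b := by
    rw [← ew_add hω, sub_add_cancel, h]
  exact mul_right_cancel₀ (ew_ne_zero hω b) (h2.trans (one_mul _).symm)

variable {V : Type} [Fintype V]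

/-- The pairing of `V → ZMod r` with itself. -/
def pr (T x : V → ZMod r) : ZMod r := ∑ v, T v * x v

theorem pr_add_left (T T' x : V → ZMod r) : pr (T + T') x = pr T x + pr T' x := by
  unfold pr
  rw [← sum_add_distrib]
  exact sum_congr rfl fun v _ => by rw [Pi.add_apply, add_mul]

theorem pr_add_right (T x x' : V → ZMod r) : pr T (x + x') = pr T x + pr T x' := by
  unfold pr
  rw [← sum_add_distrib]
  exact sum_congr rfl fun v _ => by rw [Pi.add_apply, mul_add]

theorem pr_neg_left (T x : V → ZMod r) : pr (-T) x = - pr T x := by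
  unfold pr
  rw [← sum_neg_distrib]
  exact sum_congr rfl fun v _ => by rw [Pi.neg_apply, neg_mul]

theorem pr_zero_left (x : V → ZMod r) : pr 0 x = 0 := by
  unfold pr
  exact sum_eq_zero fun v _ => by rw [Pi.zero_apply, zero_mul]

theorem pr_zero_right (T : V → ZMod r) : pr T 0 = 0 := by
  unfold pr
  exact sum_eq_zero fun v _ => by rw [Pi.zero_apply, mul_zero]

variable [DecidableEq V]

theorem pr_single_right (T : V → ZMod r) (v : V) (k : ZMod r) :
    pr T (Pi.single v k) = T v * k := by
  unfold pr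
  rw [sum_eq_single v]
  · rw [Pi.single_eq_same]
  · intro u _ hu
    rw [Pi.single_eq_of_ne hu, mul_zero]
  · intro h
    exact absurd (mem_univ v) h

theorem pr_single_left (x : V → ZMod r) (v : V) (k : ZMod r) :
    pr (Pi.single v k) x = k * x v := by
  unfold pr
  rw [sum_eq_single v]
  · rw [Pi.single_eq_same]
  · intro u _ hu
    rw [Pi.single_eq_of_ne hu, zero_mul]
  · intro h
    exact absurd (mem_univ v) h

/-- The character of `V → ZMod r` with index `T`. -/
def chr (ω : K) (T : V → ZMod r) : (V → ZMod r) → K := fun x => ew ω (pr T x)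

theorem chr_zero (ω : K) : chr ω (0 : V → ZMod r) = 1 := by
  funext x
  show ew ω (pr 0 x) = 1
  rw [pr_zero_left, ew_zero]

theorem chr_add {ω : K} (hω : IsPrimitiveRoot ω r) (T T' : V → ZMod r) :
    chr ω (T + T') = chr ω T * chr ω T' := by
  funext x
  show ew ω (pr (T + T') x) = ew ω (pr T x) * ew ω (pr T' x)
  rw [pr_add_left, ew_add hω]

/-- Orthogonality. -/
theorem sum_chr {ω : K} (hω : IsPrimitiveRoot ω r) {T : V → ZMod r} (hT : T ≠ 0) :
    ∑ x, chr ω T x = 0 := by
  obtain ⟨v, hv⟩ : ∃ v, T v ≠ 0 := by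
    by_contra hcon
    push Not at hcon
    exact hT (funext hcon)
  have h1 : ew ω (T v) * ∑ x, chr ω T x = ∑ x, chr ω T x := by
    rw [mul_sum]
    rw [← Equiv.sum_comp (Equiv.addRight (Pi.single v (1 : ZMod r) : V → ZMod r))
      (fun x => chr ω T x)]
    refine sum_congr rfl fun x _ => ?_
    show ew ω (T v) * ew ω (pr T x) = ew ω (pr T (x + Pi.single v 1))
    rw [pr_add_right, pr_single_right, mul_one, ew_add hω, mul_comm]
  have h2 : (ew ω (T v) - 1) * ∑ x, chr ω T x = 0 := by
    rw [sub_mul, h1, one_mul, sub_self]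
  rcases mul_eq_zero.1 h2 with h3 | h3
  · exact absurd (sub_eq_zero.1 h3) (ew_ne_one hω hv)
  · exact h3

/-- The Fourier coefficient. -/
noncomputable def coef (ω : K) (T : V → ZMod r) : ((V → ZMod r) → K) →ₗ[K] K where
  toFun P := ((Fintype.card (V → ZMod r) : K))⁻¹ * ∑ x, P x * chr ω (-T) x
  map_add' P Q := by
    rw [← mul_add, ← sum_add_distrib]
    congr 1
    exact sum_congr rfl fun x _ => by rw [Pi.add_apply, add_mul]
  map_smul' c P := by
    rw [RingHom.id_apply, smul_eq_mul, mul_left_comm, mul_sum (f := fun x => P x * chr ω (-T) x)]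
    congr 1
    exact sum_congr rfl fun x _ => by rw [Pi.smul_apply, smul_eq_mul, mul_assoc]

theorem card_ne_zero {ω : K} (hω : IsPrimitiveRoot ω r) :
    ((Fintype.card (V → ZMod r) : ℕ) : K) ≠ 0 := by
  have h1 : ((r : ℕ) : K) ≠ 0 := hω.neZero'.out
  rw [Fintype.card_fun, ZMod.card, Nat.cast_pow]
  exact pow_ne_zero _ h1

theorem coef_chr {ω : K} (hω : IsPrimitiveRoot ω r) (T T' : V → ZMod r) :
    coef ω T (chr ω T') = if T = T' then 1 else 0 := by
  have h1 : coef ω T (chr ω T') =
      ((Fintype.card (V → ZMod r) : K))⁻¹ * ∑ x, chr ω (T' + -T) x := by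
    show ((Fintype.card (V → ZMod r) : K))⁻¹ * ∑ x, chr ω T' x * chr ω (-T) x = _
    rw [chr_add hω]
    rfl
  rw [h1]
  by_cases h : T = T'
  · rw [if_pos h, h, add_neg_cancel, chr_zero]
    have h2 : ∑ x : V → ZMod r, (1 : (V → ZMod r) → K) x = (Fintype.card (V → ZMod r) : K) := by
      simp
    rw [h2]
    exact inv_mul_cancel₀ (card_ne_zero hω)
  · rw [if_neg h, sum_chr hω, mul_zero]
    intro h2
    exact h ((sub_eq_zero.1 ((sub_eq_add_neg T' T).trans h2)).symm)

/-- The number of nonzero entries. -/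
def twt (T : V → ZMod r) : ℕ := (univ.filter fun v => T v ≠ 0).card

theorem twt_add (T T' : V → ZMod r) : twt (T + T') ≤ twt T + twt T' := by
  unfold twt
  refine (card_le_card ?_).trans (card_union_le _ _)
  intro v hv
  rw [mem_union, mem_filter, mem_filter]
  rw [mem_filter] at hv
  by_contra hcon
  push Not at hcon
  apply hv.2
  rw [Pi.add_apply, hcon.1 (mem_univ v), hcon.2 (mem_univ v), add_zero]

theorem twt_single (v : V) (k : ZMod r) : twt (Pi.single v k : V → ZMod r) ≤ 1 := by
  unfold twt
  rw [card_le_one]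
  intro a ha b hb
  rw [mem_filter] at ha hb
  have key : ∀ u : V, (Pi.single v k : V → ZMod r) u ≠ 0 → u = v := by
    intro u hu
    by_contra h
    exact hu (Pi.single_eq_of_ne h _)
  rw [key a ha.2, key b hb.2]

theorem twt_neg (T : V → ZMod r) : twt (-T) = twt T := by
  unfold twt
  congr 1
  ext v
  simp

theorem twt_zero : twt (0 : V → ZMod r) = 0 := by
  unfold twt
  simp

/-- The span of the characters of weight at most `e`. -/
def Chr (ω : K) (V : Type) [Fintype V] [DecidableEq V] (e : ℕ) :
    Submodule K ((V → ZMod r) → K) :=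
  Submodule.span K {P | ∃ T : V → ZMod r, twt T ≤ e ∧ P = chr ω T}

theorem Chr_mono (ω : K) {e e' : ℕ} (h : e ≤ e') :
    (Chr ω V e : Submodule K ((V → ZMod r) → K)) ≤ Chr ω V e' := by
  apply Submodule.span_mono
  rintro P ⟨T, h1, h2⟩
  exact ⟨T, h1.trans h, h2⟩

theorem chr_mem (ω : K) {T : V → ZMod r} {e : ℕ} (h : twt T ≤ e) : chr ω T ∈ Chr ω V e :=
  Submodule.subset_span ⟨T, h, rfl⟩

theorem one_mem_Chr (ω : K) (e : ℕ) : (1 : (V → ZMod r) → K) ∈ Chr ω V e := by
  rw [← chr_zero ω]
  exact chr_mem ω (by rw [twt_zero]; exact Nat.zero_le _)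

theorem mul_mem_Chr {ω : K} (hω : IsPrimitiveRoot ω r) {e e' : ℕ} {P Q : (V → ZMod r) → K}
    (hP : P ∈ Chr ω V e) (hQ : Q ∈ Chr ω V e') : P * Q ∈ Chr ω V (e + e') := by
  unfold Chr at hP
  induction hP using Submodule.span_induction with
  | mem P hP =>
    obtain ⟨T, hT, rfl⟩ := hP
    unfold Chr at hQ
    induction hQ using Submodule.span_induction with
    | mem Q hQ =>
      obtain ⟨T', hT', rfl⟩ := hQ
      rw [← chr_add hω]
      exact chr_mem ω ((twt_add T T').trans (Nat.add_le_add hT hT'))
    | zero =>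
      rw [mul_zero]
      exact Submodule.zero_mem _
    | add g h _ _ hg hh =>
      rw [mul_add]
      exact Submodule.add_mem _ hg hh
    | smul c g _ hg =>
      rw [mul_smul_comm]
      exact Submodule.smul_mem _ c hg
  | zero =>
    rw [zero_mul]
    exact Submodule.zero_mem _
  | add f h _ _ hf hh =>
    rw [add_mul]
    exact Submodule.add_mem _ hf hh
  | smul c f _ hf =>
    rw [smul_mul_assoc]
    exact Submodule.smul_mem _ c hf

/-- Functions of one coordinate have degree at most one. -/
theorem one_coord_mem {ω : K} (hω : IsPrimitiveRoot ω r) (v : V) (g : ZMod r → K) :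
    (fun x : V → ZMod r => g (x v)) ∈ Chr ω V 1 := by
  have h0 : ((r : ℕ) : K) ≠ 0 := hω.neZero'.out
  have key : ∀ z : ZMod r, ∑ k : ZMod r, ew ω (k * z) = if z = 0 then (r : K) else 0 := by
    intro z
    by_cases hz : z = 0
    · rw [if_pos hz, hz]
      simp [ew_zero, ZMod.card]
    · rw [if_neg hz]
      have h1 : ew ω z * ∑ k : ZMod r, ew ω (k * z) = ∑ k : ZMod r, ew ω (k * z) := by
        rw [mul_sum]
        rw [← Equiv.sum_comp (Equiv.addRight (1 : ZMod r)) (fun k => ew ω (k * z))]
        refine sum_congr rfl fun k _ => ?_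
        show ew ω z * ew ω (k * z) = ew ω ((k + 1) * z)
        rw [add_mul, one_mul, ew_add hω, mul_comm]
      have h2 : (ew ω z - 1) * ∑ k : ZMod r, ew ω (k * z) = 0 := by
        rw [sub_mul, h1, one_mul, sub_self]
      rcases mul_eq_zero.1 h2 with h3 | h3
      · exact absurd (sub_eq_zero.1 h3) (ew_ne_one hω hz)
      · exact h3
  have h1 : (fun x : V → ZMod r => g (x v)) =
      ∑ k : ZMod r, ((r : K)⁻¹ * ∑ z : ZMod r, g z * ew ω (k * (-z))) •
        chr ω (Pi.single v k : V → ZMod r) := by
    funext x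
    rw [Finset.sum_apply]
    have h2 : ∀ k : ZMod r, (((r : K)⁻¹ * ∑ z : ZMod r, g z * ew ω (k * (-z))) •
        chr ω (Pi.single v k : V → ZMod r)) x =
        (r : K)⁻¹ * ∑ z : ZMod r, g z * ew ω (k * (x v - z)) := by
      intro k
      rw [Pi.smul_apply, smul_eq_mul, mul_assoc, sum_mul]
      congr 1
      refine sum_congr rfl fun z _ => ?_
      show g z * ew ω (k * -z) * ew ω (pr (Pi.single v k) x) = _
      rw [pr_single_left, mul_assoc, ← ew_add hω]
      congr 2
      ring
    rw [sum_congr rfl fun k _ => h2 k, ← mul_sum, sum_comm]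
    have h3 : ∀ z : ZMod r, ∑ k : ZMod r, g z * ew ω (k * (x v - z)) =
        if x v = z then g z * (r : K) else 0 := by
      intro z
      rw [← mul_sum, key]
      by_cases hz : x v = z
      · rw [if_pos hz, if_pos (sub_eq_zero.2 hz)]
      · rw [if_neg hz, if_neg (sub_ne_zero.2 hz), mul_zero]
    rw [sum_congr rfl fun z _ => h3 z, sum_ite_eq, if_pos (mem_univ _)]
    field_simp
  rw [h1]
  refine Submodule.sum_mem _ fun k _ => Submodule.smul_mem _ _ ?_
  exact chr_mem ω (twt_single v k)

end Char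

/-! ### Boolean encodings -/

section Enc

variable {K : Type} [Field K] {r : ℕ} [NeZero r] {V U : Type} [Fintype V] [DecidableEq V]

/-- The Boolean point encoded by a point of `V → ZMod r`: each Boolean variable `u` is a function of
one coordinate `pt u`. -/
def enc (pt : U → V) (val : U → ZMod r → Bool) (x : V → ZMod r) : U → Bool :=
  fun u => val u (x (pt u))

theorem enc_mem {ω : K} (hω : IsPrimitiveRoot ω r) (pt : U → V) (val : U → ZMod r → Bool)
    {e : ℕ} {P : Frege.Fun K U} (hP : P ∈ Frege.Pol K U e) :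
    (fun x => P (enc pt val x)) ∈ Chr ω V e := by
  classical
  have key : ∀ M : Finset U, (fun x => Frege.mon K M (enc pt val x)) ∈ Chr ω V M.card := by
    intro M
    induction M using Finset.induction_on with
    | empty =>
      rw [Frege.mon_empty]
      exact one_mem_Chr ω _
    | insert u M hu ih =>
      have h1 : (fun x => Frege.mon K (insert u M) (enc pt val x)) =
          (fun x : V → ZMod r => (if val u (x (pt u)) = true then (1 : K) else 0)) *
            (fun x => Frege.mon K M (enc pt val x)) := by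
        funext x
        rw [Pi.mul_apply]
        unfold Frege.mon
        by_cases h : val u (x (pt u)) = true <;> by_cases h' : ∀ v ∈ M, enc pt val x v = true
        · rw [if_pos h, if_pos h', if_pos, mul_one]
          intro v hv
          rcases mem_insert.1 hv with h2 | h2
          · rw [h2]; exact h
          · exact h' v h2
        · rw [if_neg h', mul_zero, if_neg]
          exact fun h2 => h' fun v hv => h2 v (mem_insert_of_mem hv)
        · rw [if_neg h, zero_mul, if_neg]
          exact fun h2 => h (h2 u (mem_insert_self _ _))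
        · rw [if_neg h, zero_mul, if_neg]
          exact fun h2 => h (h2 u (mem_insert_self _ _))
      rw [h1, card_insert_of_notMem hu, add_comm]
      exact mul_mem_Chr hω (one_coord_mem hω (pt u) fun z => if val u z = true then (1 : K) else 0)
        ih
  unfold Frege.Pol at hP
  induction hP using Submodule.span_induction with
  | mem P hP =>
    obtain ⟨M, hM, rfl⟩ := hP
    exact Chr_mono ω hM (key M)
  | zero => exact Submodule.zero_mem _
  | add f h _ _ hf hh => exact Submodule.add_mem _ hf hh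
  | smul c f _ hf => exact Submodule.smul_mem _ c hf

end Enc

/-! ### Twisted translations -/

section Twist

variable {K : Type} [Field K] {r : ℕ} [NeZero r] {V A : Type} [Fintype V] [DecidableEq V]
  [AddCommGroup A]

/-- The move of `T : V → ZMod r`. -/
def tot (mv : V → A) (T : V → ZMod r) : A := ∑ v, (T v).val • mv v

theorem tot_add {mv : V → A} (hr : ∀ v, r • mv v = 0) (T T' : V → ZMod r) :
    tot mv (T + T') = tot mv T + tot mv T' := by
  unfold tot
  rw [← sum_add_distrib]
  refine sum_congr rfl fun v _ => ?_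
  rw [← add_smul, Pi.add_apply, ZMod.val_add]
  have h1 : ((T v).val + (T' v).val) = ((T v).val + (T' v).val) % r +
      r * (((T v).val + (T' v).val) / r) := (Nat.mod_add_div _ _).symm
  conv_rhs => rw [h1, add_smul, mul_comm, mul_smul, hr, smul_zero, add_zero]

theorem tot_zero (mv : V → A) : tot mv (0 : V → ZMod r) = 0 := by
  unfold tot
  exact sum_eq_zero fun v _ => by rw [Pi.zero_apply, ZMod.val_zero, zero_smul]

theorem tot_neg {mv : V → A} (hr : ∀ v, r • mv v = 0) (T : V → ZMod r) :
    tot mv (-T) = - tot mv T := by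
  rw [eq_neg_iff_add_eq_zero, ← tot_add hr, neg_add_cancel, tot_zero]

theorem tot_single (mv : V → A) (v : V) (k : ZMod r) :
    tot mv (Pi.single v k : V → ZMod r) = k.val • mv v := by
  unfold tot
  rw [sum_eq_single v]
  · rw [Pi.single_eq_same]
  · intro u _ hu
    rw [Pi.single_eq_of_ne hu, ZMod.val_zero, zero_smul]
  · intro h
    exact absurd (mem_univ v) h

/-- The twisted translation. -/
def tr (mv : V → A) (sig : A → A → K) (T : V → ZMod r) : (A → K) →ₗ[K] (A → K) where
  toFun f a := sig a (a + tot mv T) * f (a + tot mv T)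
  map_add' f g := by
    funext a
    rw [Pi.add_apply, Pi.add_apply, mul_add]
  map_smul' c f := by
    funext a
    rw [RingHom.id_apply, Pi.smul_apply, Pi.smul_apply, smul_eq_mul, smul_eq_mul, mul_left_comm]

theorem tr_apply (mv : V → A) (sig : A → A → K) (T : V → ZMod r) (f : A → K) (a : A) :
    tr mv sig T f a = sig a (a + tot mv T) * f (a + tot mv T) := rfl

/-- The action of the functions on `V → ZMod r`. -/
noncomputable def actX (ω : K) (mv : V → A) (sig : A → A → K) :
    ((V → ZMod r) → K) →ₗ[K] (A → K) →ₗ[K] (A → K) :=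
  ∑ T : V → ZMod r, (coef ω T).smulRight (tr mv sig T)

theorem actX_apply (ω : K) (mv : V → A) (sig : A → A → K) (P : (V → ZMod r) → K) :
    actX ω mv sig P = ∑ T : V → ZMod r, coef ω T P • tr mv sig T := by
  unfold actX
  rw [LinearMap.sum_apply]
  exact sum_congr rfl fun T _ => by rw [LinearMap.smulRight_apply]

theorem actX_chr {ω : K} (hω : IsPrimitiveRoot ω r) (mv : V → A) (sig : A → A → K)
    (T : V → ZMod r) : actX ω mv sig (chr ω T) = tr mv sig T := by
  rw [actX_apply, sum_eq_single T]
  · rw [coef_chr hω, if_pos rfl, one_smul]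
  · intro T' _ hT'
    rw [coef_chr hω, if_neg hT', zero_smul]
  · intro h
    exact absurd (mem_univ T) h

/-- The action of the functions on the cube. -/
noncomputable def act {U : Type} (ω : K) (pt : U → V) (val : U → ZMod r → Bool) (mv : V → A)
    (sig : A → A → K) : Frege.Fun K U →ₗ[K] (A → K) →ₗ[K] (A → K) :=
  (actX ω mv sig).comp (LinearMap.funLeft K K (enc pt val))

theorem act_apply {U : Type} (ω : K) (pt : U → V) (val : U → ZMod r → Bool) (mv : V → A)
    (sig : A → A → K) (P : Frege.Fun K U) :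
    act ω pt val mv sig P = actX ω mv sig (fun x => P (enc pt val x)) := rfl

/-- The data of a twisted world: the transports `sig`, and the good sets `G i` of height `L`. -/
structure Twist (r : ℕ) [NeZero r] (mv : V → A) (sig : A → A → K) (G : ℕ → Set A) (L : ℕ) :
    Prop where
  torsion : ∀ v, r • mv v = 0
  near : ∀ (i : ℕ) (c : A) (T : V → ZMod r), c ∈ G i → i + twt T ≤ L → c + tot mv T ∈ G (i + twt T)
  mono : ∀ (i j : ℕ), i ≤ j → j ≤ L → G i ⊆ G j
  refl : ∀ (c : A), c ∈ G L → sig c c = 1
  cocycle : ∀ (i : ℕ) (c : A) (T T' : V → ZMod r), c ∈ G i → i + twt T + twt T' ≤ L →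
    sig (c + tot mv T' + tot mv T) (c + tot mv T') * sig (c + tot mv T') c =
      sig (c + tot mv T' + tot mv T) c

/-- The levels of the world: functions supported in `G i` which are covariant under the gauge
group. -/
def lev {Γ : Type} (D : Γ → A) (kap : Γ → K) (G : ℕ → Set A) (i : ℕ) : Submodule K (A → K) where
  carrier := {f | (∀ b, b ∉ G i → f b = 0) ∧ ∀ b v, f (b + D v) = kap v * f b}
  zero_mem' := ⟨fun _ _ => rfl, fun _ _ => (mul_zero _).symm⟩
  add_mem' := by
    intro f g hf hg
    refine ⟨fun b hb => ?_, fun b v => ?_⟩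
    · rw [Pi.add_apply, hf.1 b hb, hg.1 b hb, add_zero]
    · rw [Pi.add_apply, Pi.add_apply, hf.2 b v, hg.2 b v, mul_add]
  smul_mem' := by
    intro c f hf
    refine ⟨fun b hb => ?_, fun b v => ?_⟩
    · rw [Pi.smul_apply, hf.1 b hb, smul_zero]
    · rw [Pi.smul_apply, Pi.smul_apply, hf.2 b v, smul_eq_mul, smul_eq_mul, mul_left_comm]

theorem mem_lev {Γ : Type} {D : Γ → A} {kap : Γ → K} {G : ℕ → Set A} {i : ℕ} {f : A → K} :
    f ∈ lev D kap G i ↔ (∀ b, b ∉ G i → f b = 0) ∧ ∀ b v, f (b + D v) = kap v * f b := Iff.rfl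

variable {mv : V → A} {sig : A → A → K} {G : ℕ → Set A} {L : ℕ} {Γ : Type} {D : Γ → A}
  {kap : Γ → K}

/-- Transports stay in the world. -/
theorem Twist.tr_mem (h : Twist r mv sig G L)
    (hsig : ∀ b c v, sig (b + D v) (c + D v) = sig b c) {i : ℕ} {T : V → ZMod r}
    (hi : i + twt T ≤ L) {f : A → K} (hf : f ∈ lev D kap G i) :
    tr mv sig T f ∈ lev D kap G (i + twt T) := by
  rw [mem_lev] at hf ⊢
  refine ⟨fun b hb => ?_, fun b v => ?_⟩
  · rw [tr_apply, hf.1, mul_zero]
    intro hc
    apply hb
    have h1 := h.near i _ (-T) hc (by rw [twt_neg]; exact hi)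
    rwa [tot_neg h.torsion, add_neg_cancel_right, twt_neg] at h1
  · rw [tr_apply, tr_apply]
    have h1 : b + D v + tot mv T = b + tot mv T + D v := by abel
    rw [h1, hf.2, hsig, mul_left_comm]

theorem Twist.tr_add (h : Twist r mv sig G L) {i : ℕ} {T T' : V → ZMod r}
    (hi : i + twt T + twt T' ≤ L) {f : A → K} (hf : f ∈ lev D kap G i) :
    tr mv sig (T + T') f = tr mv sig T (tr mv sig T' f) := by
  rw [mem_lev] at hf
  funext a
  rw [tr_apply, tr_apply, tr_apply, tot_add h.torsion, ← add_assoc]
  by_cases hc : a + tot mv T + tot mv T' ∈ G i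
  · have h1 := h.cocycle i _ (-T) (-T') hc (by rw [twt_neg, twt_neg]; exact hi)
    rw [tot_neg h.torsion, tot_neg h.torsion, add_neg_cancel_right, add_neg_cancel_right] at h1
    rw [← h1, mul_assoc]
  · rw [hf.1 _ hc, mul_zero, mul_zero, mul_zero]

theorem Twist.tr_zero (h : Twist r mv sig G L) {i : ℕ} {T : V → ZMod r} (hT : tot mv T = 0)
    (hi : i ≤ L) {f : A → K} (hf : f ∈ lev D kap G i) : tr mv sig T f = f := by
  rw [mem_lev] at hf
  funext a
  rw [tr_apply, hT, add_zero]
  by_cases ha : a ∈ G i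
  · rw [h.refl a (h.mono i L hi le_rfl ha), one_mul]
  · rw [hf.1 a ha, mul_zero]

/-- The transport along a gauge transformation. -/
theorem Twist.tr_gauge (h : Twist r mv sig G L) {i : ℕ} {T : V → ZMod r} {v : Γ}
    (hT : tot mv T = D v) {ε : K} (hε : ∀ c, c ∈ G L → sig c (c + D v) = ε)
    (hi : i ≤ L) {f : A → K} (hf : f ∈ lev D kap G i) : tr mv sig T f = (ε * kap v) • f := by
  rw [mem_lev] at hf
  funext a
  rw [tr_apply, hT, hf.2, Pi.smul_apply, smul_eq_mul, mul_assoc]
  by_cases ha : a ∈ G i
  · rw [hε a (h.mono i L hi le_rfl ha)]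
  · rw [hf.1 a ha, mul_zero, mul_zero, mul_zero]

theorem Twist.lev_mono (h : Twist r mv sig G L) {i j : ℕ} (hij : i ≤ j) (hj : j ≤ L) :
    lev D kap G i ≤ lev D kap G j := by
  intro f hf
  rw [mem_lev] at hf ⊢
  exact ⟨fun b hb => hf.1 b fun hb' => hb (h.mono i j hij hj hb'), hf.2⟩

theorem Twist.actX_mem {ω : K} (hω : IsPrimitiveRoot ω r) (h : Twist r mv sig G L)
    (hsig : ∀ b c v, sig (b + D v) (c + D v) = sig b c) {i e : ℕ} (hi : i + e ≤ L)
    {P : (V → ZMod r) → K} (hP : P ∈ Chr ω V e) {f : A → K} (hf : f ∈ lev D kap G i) :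
    actX ω mv sig P f ∈ lev D kap G (i + e) := by
  unfold Chr at hP
  induction hP using Submodule.span_induction with
  | mem P hP =>
    obtain ⟨T, hT, rfl⟩ := hP
    rw [actX_chr hω]
    exact h.lev_mono (Nat.add_le_add_left hT i) hi
      (h.tr_mem hsig ((Nat.add_le_add_left hT i).trans hi) hf)
  | zero =>
    rw [map_zero, LinearMap.zero_apply]
    exact Submodule.zero_mem _
  | add P Q _ _ h1 h2 =>
    rw [map_add, LinearMap.add_apply]
    exact Submodule.add_mem _ h1 h2
  | smul c P _ h1 =>
    rw [map_smul, LinearMap.smul_apply]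
    exact Submodule.smul_mem _ c h1

theorem Twist.actX_mul {ω : K} (hω : IsPrimitiveRoot ω r) (h : Twist r mv sig G L)
    {i e e' : ℕ} (hi : i + e + e' ≤ L) {P Q : (V → ZMod r) → K} (hP : P ∈ Chr ω V e)
    (hQ : Q ∈ Chr ω V e') {f : A → K} (hf : f ∈ lev D kap G i) :
    actX ω mv sig (P * Q) f = actX ω mv sig P (actX ω mv sig Q f) := by
  unfold Chr at hP
  induction hP using Submodule.span_induction with
  | mem P hP =>
    obtain ⟨T, hT, rfl⟩ := hP
    unfold Chr at hQ
    induction hQ using Submodule.span_induction with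
    | mem Q hQ =>
      obtain ⟨T', hT', rfl⟩ := hQ
      rw [← chr_add hω, actX_chr hω, actX_chr hω, actX_chr hω]
      exact h.tr_add (by omega) hf
    | zero => rw [mul_zero, map_zero, LinearMap.zero_apply, map_zero]
    | add Q Q' _ _ h1 h2 =>
      rw [mul_add, map_add, LinearMap.add_apply, h1, h2, map_add, LinearMap.add_apply, map_add]
    | smul c Q _ h1 =>
      rw [mul_smul_comm, map_smul, LinearMap.smul_apply, h1, map_smul, LinearMap.smul_apply,
        map_smul]
  | zero => rw [zero_mul, map_zero, LinearMap.zero_apply, LinearMap.zero_apply]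
  | add P P' _ _ h1 h2 =>
    rw [add_mul, map_add, LinearMap.add_apply, h1, h2, map_add, LinearMap.add_apply]
  | smul c P _ h1 =>
    rw [smul_mul_assoc, map_smul, LinearMap.smul_apply, h1, map_smul, LinearMap.smul_apply]

/-- The twisted world is a world. -/
theorem Twist.world {U : Type} {ω : K} (hω : IsPrimitiveRoot ω r) (h : Twist r mv sig G L)
    (hsig : ∀ b c v, sig (b + D v) (c + D v) = sig b c) (pt : U → V) (val : U → ZMod r → Bool) :
    Frege.World (lev D kap G) (act ω pt val mv sig) L where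
  act_mem a e P w ha hP hw := h.actX_mem hω hsig ha (enc_mem hω pt val hP) hw
  act_one a w ha hw := by
    have h1 : act ω pt val mv sig 1 = tr mv sig (0 : V → ZMod r) := by
      rw [act_apply, ← actX_chr hω, chr_zero]
      rfl
    rw [h1]
    exact h.tr_zero (tot_zero mv) ha hw
  act_mul a e e' P Q w ha hP hQ hw := by
    rw [act_apply, act_apply, act_apply]
    exact h.actX_mul hω ha (enc_mem hω pt val hP) (enc_mem hω pt val hQ) hw

/-- The local equations: if the transport along `T` multiplies the vector `f` by `ω ^ b`, then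
every function which is supported on a level set `pr T x = c` with `c ≠ b` kills `f`. -/
theorem Twist.act_kill {U : Type} {ω : K} (hω : IsPrimitiveRoot ω r) (h : Twist r mv sig G L)
    (pt : U → V) (val : U → ZMod r → Bool)
    {i e : ℕ} {T : V → ZMod r} (hi : i + e + twt T ≤ L) {P : Frege.Fun K U}
    (hP : P ∈ Frege.Pol K U e) {f : A → K} (hf : f ∈ lev D kap G i) {b : ZMod r}
    (hT : tr mv sig T f = ew ω b • f)
    {c : ZMod r} (hc : c ≠ b) (hPc : ∀ x, P (enc pt val x) ≠ 0 → pr T x = c) :
    act ω pt val mv sig P f = 0 := by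
  rw [act_apply]
  obtain ⟨Q, hQ⟩ : ∃ Q : (V → ZMod r) → K, Q = fun x => P (enc pt val x) := ⟨_, rfl⟩
  rw [← hQ]
  have hQ1 : Q ∈ Chr ω V e := by rw [hQ]; exact enc_mem hω pt val hP
  have h1 : Q * chr ω T = ew ω c • Q := by
    funext x
    rw [Pi.mul_apply, Pi.smul_apply, smul_eq_mul]
    by_cases hx : Q x = 0
    · rw [hx, zero_mul, mul_zero]
    · have h2 : pr T x = c := by
        apply hPc
        rw [hQ] at hx
        exact hx
      show Q x * ew ω (pr T x) = ew ω c * Q x
      rw [h2, mul_comm]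
  have h2 := h.actX_mul hω hi hQ1 (chr_mem ω (le_refl (twt T))) hf
  rw [h1, actX_chr hω, hT, map_smul, LinearMap.smul_apply, map_smul] at h2
  have h3 : (ew ω c - ew ω b) • actX ω mv sig Q f = 0 := by
    rw [sub_smul, h2, sub_self]
  rcases smul_eq_zero.1 h3 with h4 | h4
  · exact absurd (ew_injective hω (sub_eq_zero.1 h4)) hc
  · exact h4

end Twist

end Pool.Agent.MP_9cec2c_lc.Flat
end

section

/-!
The approximation of formulas by functions of small degree, and a vector on which all errors
vanish.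
-/

set_option autoImplicit false
set_option linter.unusedSectionVars false

namespace Pool.Agent.MP_9cec2c_lc.Frege

open Finset

variable {K V W : Type} [Field K] [AddCommGroup W] [Module K W] [Fintype K] [Fintype V]
  [FiniteDimensional K W]

/-- The maps `act (g * h)`, for `g` in `G`. -/
noncomputable def kill (act : Fun K V →ₗ[K] W →ₗ[K] W) (G : Set (Fun K V)) (h : Fun K V) :
    W →ₗ[K] (Fun K V → W) :=
  open Classical in LinearMap.pi fun g => if g ∈ G then act (g * h) else 0

theorem kill_eq_zero {act : Fun K V →ₗ[K] W →ₗ[K] W} {G : Set (Fun K V)} {h : Fun K V} {w : W} :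
    kill act G h w = 0 ↔ ∀ g ∈ G, act (g * h) w = 0 := by
  classical
  unfold kill
  constructor
  · intro h0 g hg
    have h1 := congrFun h0 g
    rw [LinearMap.pi_apply, if_pos hg] at h1
    exact h1
  · intro h0
    funext g
    rw [LinearMap.pi_apply]
    by_cases hg : g ∈ G
    · rw [if_pos hg]
      exact h0 g hg
    · rw [if_neg hg]
      rfl

/-- The product `h` is a good approximation of the statement that all functions in `G` vanish. -/
def IsGood (M : ℕ → Submodule K W) (act : Fun K V →ₗ[K] W →ₗ[K] W) (a₀ N k : ℕ)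
    (G : Set (Fun K V)) (h : Fun K V) : Prop :=
  Hor k G h ∧ N * Module.finrank K ((M a₀).map (kill act G h)) < Module.finrank K (M a₀)

/-- A good approximation, if there is one. -/
noncomputable def hor (M : ℕ → Submodule K W) (act : Fun K V →ₗ[K] W →ₗ[K] W) (a₀ N k : ℕ)
    (G : Set (Fun K V)) : Fun K V :=
  open Classical in if h : ∃ h, IsGood M act a₀ N k G h then Classical.choose h else 1

variable {M : ℕ → Submodule K W} {act : Fun K V →ₗ[K] W →ₗ[K] W} {A a₀ N k : ℕ}

theorem hor_hor (G : Set (Fun K V)) : Hor k G (hor M act a₀ N k G) := by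
  unfold hor
  split_ifs with h
  · exact (Classical.choose_spec h).1
  · exact hor_one k G

theorem hor_good {G : Set (Fun K V)} (h : ∃ h, IsGood M act a₀ N k G h) :
    IsGood M act a₀ N k G (hor M act a₀ N k G) := by
  unfold hor
  rw [dif_pos h]
  exact Classical.choose_spec h

theorem exists_good (hW : World M act A) {t m : ℕ} {Λ C : ℝ} (hΛ : 1 / 2 ≤ Λ) (hC : 0 ≤ C)
    {G : Set (Fun K V)} (hG : ∀ g ∈ G, g ∈ Pol K V t) (hb : ∀ g ∈ G, Bin g)
    (hA : a₀ + (m + 1 + k * (Fintype.card K - 1)) * t ≤ A)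
    (hgrow : ∀ j ≤ m, (Module.finrank K (M (a₀ + j * t)) : ℝ) ≤
      C * (Λ / 2) ^ j * Module.finrank K (M a₀)) (hpos : 0 < Module.finrank K (M a₀))
    (hN : N * (2 * C * (1 - 1 / (2 * Λ)) ^ k + C / 2 ^ m) < 1) :
    ∃ h, IsGood M act a₀ N k G h := by
  classical
  have : Fintype G := Fintype.ofFinite G
  obtain ⟨h, hh, hrk⟩ := exists_hor (β := G) (g := fun g => g.1) hW (a₀ := a₀) (m := m) hΛ hC
    (fun i => hG i.1 i.2) (fun i => hb i.1 i.2) k hA hgrow
  rw [Subtype.range_coe] at hh
  refine ⟨h, hh, ?_⟩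
  have h1 : Module.finrank K ((M a₀).map (kill act G h)) ≤
      rk M act (fun g : G => g.1) h a₀ := by
    refine finrank_map_le_of_ker _ _ _ fun x _ h0 => ?_
    rw [tot_eq_zero] at h0
    rw [kill_eq_zero]
    exact fun g hg => h0 ⟨g, hg⟩
  have h2 : (N : ℝ) * Module.finrank K ((M a₀).map (kill act G h)) <
      Module.finrank K (M a₀) := by
    have h3 : (Module.finrank K ((M a₀).map (kill act G h)) : ℝ) ≤
        rk M act (fun g : G => g.1) h a₀ := by exact_mod_cast h1
    have h4 : (0 : ℝ) < Module.finrank K (M a₀) := by exact_mod_cast hpos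
    calc (N : ℝ) * Module.finrank K ((M a₀).map (kill act G h))
        ≤ N * ((2 * C * (1 - 1 / (2 * Λ)) ^ k + C / 2 ^ m) * Module.finrank K (M a₀)) :=
          mul_le_mul_of_nonneg_left (h3.trans hrk) (Nat.cast_nonneg _)
      _ = N * (2 * C * (1 - 1 / (2 * Λ)) ^ k + C / 2 ^ m) * Module.finrank K (M a₀) := by ring
      _ < 1 * Module.finrank K (M a₀) := mul_lt_mul_of_pos_right hN h4
      _ = Module.finrank K (M a₀) := one_mul _
  exact_mod_cast h2

/-! ### The approximation of a formula -/

/-- The approximation of a formula. -/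
noncomputable def app (M : ℕ → Submodule K W) (act : Fun K V →ₗ[K] W →ₗ[K] W) (a₀ N k : ℕ) :
    Form V → Fun K V
  | .var v => mon K {v}
  | .neg φ => 1 - app M act a₀ N k φ
  | .disj _ F => 1 - hor M act a₀ N k (Set.range fun i => app M act a₀ N k (F i))
  | .count r _ F => cf (∑ i, app M act a₀ N k (F i) - (r : Fun K V))

theorem app_bin (φ : Form V) : Bin (app M act a₀ N k φ) := by
  induction φ with
  | var v =>
    intro x
    rw [app]
    unfold mon
    split_ifs
    · exact Or.inr rfl
    · exact Or.inl rfl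
  | neg φ ih =>
    rw [app]
    exact bin_one_sub ih
  | disj m F _ =>
    rw [app]
    exact bin_one_sub (hor_hor _).bin
  | count r m F _ =>
    rw [app]
    exact bin_cf _

theorem app_mem (hk : 1 ≤ k) (φ : Form V) :
    app M act a₀ N k φ ∈ Pol K V ((k * (Fintype.card K - 1)) ^ φ.depth) := by
  obtain ⟨τ, hτ⟩ : ∃ τ, τ = k * (Fintype.card K - 1) := ⟨_, rfl⟩
  have hc : 0 < Fintype.card K - 1 := card_sub_pos
  have hτ1 : Fintype.card K - 1 ≤ τ := by
    rw [hτ]
    exact Nat.le_mul_of_pos_left _ hk
  have hτ0 : 0 < τ := hc.trans_le hτ1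
  rw [← hτ]
  induction φ with
  | var v =>
    rw [app, Form.depth, pow_zero]
    exact mon_mem (by rw [card_singleton])
  | neg φ ih =>
    rw [app, Form.depth]
    exact Submodule.sub_mem _ (one_mem _) ih
  | disj m F ih =>
    rw [app, Form.depth]
    refine Submodule.sub_mem _ (one_mem _) ?_
    obtain ⟨s, hs⟩ : ∃ s, s = univ.sup fun i => (F i).depth := ⟨_, rfl⟩
    have h1 : ∀ g ∈ Set.range (fun i => app M act a₀ N k (F i)), g ∈ Pol K V (τ ^ s) := by
      rintro _ ⟨i, rfl⟩
      refine Pol_mono (Nat.pow_le_pow_right hτ0 ?_) (ih i)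
      rw [hs]
      exact le_sup (f := fun i => (F i).depth) (mem_univ i)
    have h2 := (hor_hor (M := M) (act := act) (a₀ := a₀) (N := N) (k := k)
      (Set.range (fun i => app M act a₀ N k (F i)))).mem h1
    refine Pol_mono (le_of_eq ?_) h2
    rw [← hs, pow_add, pow_one, ← mul_assoc, ← hτ]
  | count r m F ih =>
    rw [app, Form.depth]
    obtain ⟨s, hs⟩ : ∃ s, s = univ.sup fun i => (F i).depth := ⟨_, rfl⟩
    have h1 : ∑ i, app M act a₀ N k (F i) - (r : Fun K V) ∈ Pol K V (τ ^ s) := by
      refine Submodule.sub_mem _ (Submodule.sum_mem _ fun i _ => ?_) ?_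
      · refine Pol_mono (Nat.pow_le_pow_right hτ0 ?_) (ih i)
        rw [hs]
        exact le_sup (f := fun i => (F i).depth) (mem_univ i)
      · have h2 : (r : Fun K V) = (r : K) • (1 : Fun K V) := by
          funext x
          rw [Pi.smul_apply, Pi.one_apply, smul_eq_mul, mul_one]
          rfl
        rw [h2]
        exact Submodule.smul_mem _ _ (one_mem _)
    refine Pol_mono ?_ (cf_mem h1)
    rw [← hs, pow_add, pow_one]
    exact Nat.mul_le_mul_right _ hτ1

/-- The sum of the values is the number of the functions with value 1. -/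
theorem sum_bin {m : ℕ} {g : Fin m → Fun K V} (hg : ∀ i, Bin (g i)) (x : V → Bool) :
    (∑ i, g i) x = ({i | g i x = 1}.ncard : K) := by
  classical
  have h1 : {i | g i x = 1} = ((univ.filter fun i => g i x = 1 : Finset (Fin m)) : Set (Fin m)) := by
    ext i
    simp
  rw [h1, Set.ncard_coe_finset, Finset.sum_apply, card_filter, Nat.cast_sum]
  refine sum_congr rfl fun i _ => ?_
  rcases hg i x with h | h
  · rw [h, if_neg zero_ne_one, Nat.cast_zero]
  · rw [h, if_pos rfl, Nat.cast_one]

/-- At each point the formulas with value 1 respect negations and counting gates. -/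
theorem app_respects {p : ℕ} [CharP K p] (x : V → Bool) :
    Respects p {φ | app M act a₀ N k φ x = 1} := by
  classical
  constructor
  · intro φ
    show app M act a₀ N k (.neg φ) x = 1 ↔ ¬ app M act a₀ N k φ x = 1
    rw [app, Pi.sub_apply, Pi.one_apply]
    rcases app_bin (M := M) (act := act) (a₀ := a₀) (N := N) (k := k) φ x with h | h
    · rw [h, sub_zero]
      simp
    · rw [h, sub_self]
      simp
  · intro r m F
    show app M act a₀ N k (.count r m F) x = 1 ↔
      Nat.ModEq p {i | app M act a₀ N k (F i) x = 1}.ncard r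
    rw [app, cf_apply, Pi.sub_apply, sum_bin fun i => app_bin _]
    have h1 : (r : Fun K V) x = (r : K) := rfl
    rw [h1, ← CharP.natCast_eq_natCast K p]
    by_cases h : (({i | app M act a₀ N k (F i) x = 1}.ncard : ℕ) : K) = (r : K)
    · rw [if_pos (sub_eq_zero.2 h)]
      exact ⟨fun _ => h, fun _ => rfl⟩
    · rw [if_neg (fun h2 => h (sub_eq_zero.1 h2))]
      exact ⟨fun h2 => absurd h2 zero_ne_one, fun h2 => absurd h2 h⟩

/-! ### The vector -/

/-- The formulas that occur. -/
def occ {l : ℕ} (L : Fin l → Cedent V) : Set (Form V) := {ψ | ∃ i, ∃ φ ∈ L i, ψ ∈ φ.parts}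

omit [Fintype V] in
theorem finite_parts (φ : Form V) : φ.parts.Finite := by
  induction φ with
  | var v =>
    rw [Form.parts]
    exact Set.finite_singleton _
  | neg φ ih =>
    rw [Form.parts]
    exact ih.insert _
  | disj m F ih =>
    rw [Form.parts]
    exact (Set.finite_iUnion ih).insert _
  | count r m F ih =>
    rw [Form.parts]
    exact (Set.finite_iUnion ih).insert _

omit [Fintype V] in
theorem finite_occ {l : ℕ} (L : Fin l → Cedent V) : (occ L).Finite := by
  have h1 : occ L = ⋃ i, ⋃ φ ∈ L i, φ.parts := by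
    ext ψ
    simp [occ]
  rw [h1]
  exact Set.finite_iUnion fun i => (L i).finite_toSet.biUnion fun φ _ => finite_parts φ

omit [Fintype V] in
theorem self_mem_parts (φ : Form V) : φ ∈ φ.parts := by
  cases φ with
  | var v =>
    rw [Form.parts]
    rfl
  | neg φ =>
    rw [Form.parts]
    exact Set.mem_insert _ _
  | disj m F =>
    rw [Form.parts]
    exact Set.mem_insert _ _
  | count r m F =>
    rw [Form.parts]
    exact Set.mem_insert _ _

omit [Fintype V] in
theorem parts_trans {φ ψ χ : Form V} (h : ψ ∈ φ.parts) (h' : χ ∈ ψ.parts) : χ ∈ φ.parts := by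
  induction φ with
  | var v =>
    rw [Form.parts, Set.mem_singleton_iff] at h
    rw [← h]
    exact h'
  | neg φ ih =>
    rw [Form.parts, Set.mem_insert_iff] at h
    rcases h with rfl | h
    · exact h'
    · rw [Form.parts]
      exact Set.mem_insert_of_mem _ (ih h)
  | disj m F ih =>
    rw [Form.parts, Set.mem_insert_iff] at h
    rcases h with rfl | h
    · exact h'
    · obtain ⟨i, hi⟩ := Set.mem_iUnion.1 h
      rw [Form.parts]
      exact Set.mem_insert_of_mem _ (Set.mem_iUnion.2 ⟨i, ih i hi⟩)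
  | count r m F ih =>
    rw [Form.parts, Set.mem_insert_iff] at h
    rcases h with rfl | h
    · exact h'
    · obtain ⟨i, hi⟩ := Set.mem_iUnion.1 h
      rw [Form.parts]
      exact Set.mem_insert_of_mem _ (Set.mem_iUnion.2 ⟨i, ih i hi⟩)

omit [Fintype V] in
theorem depth_parts {φ ψ : Form V} (h : ψ ∈ φ.parts) : ψ.depth ≤ φ.depth := by
  induction φ with
  | var v =>
    rw [Form.parts, Set.mem_singleton_iff] at h
    rw [h]
  | neg φ ih =>
    rw [Form.parts, Set.mem_insert_iff] at h
    rcases h with rfl | h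
    · exact le_rfl
    · rw [Form.depth]
      exact ih h
  | disj m F ih =>
    rw [Form.parts, Set.mem_insert_iff] at h
    rcases h with rfl | h
    · exact le_rfl
    · obtain ⟨i, hi⟩ := Set.mem_iUnion.1 h
      have h1 := ih i hi
      have h2 := le_sup (f := fun i => (F i).depth) (mem_univ i)
      rw [Form.depth]
      omega
  | count r m F ih =>
    rw [Form.parts, Set.mem_insert_iff] at h
    rcases h with rfl | h
    · exact le_rfl
    · obtain ⟨i, hi⟩ := Set.mem_iUnion.1 h
      have h1 := ih i hi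
      have h2 := le_sup (f := fun i => (F i).depth) (mem_univ i)
      rw [Form.depth]
      omega

/-- The functions of the disjuncts of a disjunction. -/
def inputs (P : Form V → Fun K V) : Form V → Set (Fun K V)
  | .disj _ F => Set.range fun i => P (F i)
  | _ => ∅

/-- A vector on which all errors vanish. -/
theorem exists_vector {k₁ k₂ l : ℕ} (L : Fin l → Cedent V) (hN : size L ≤ N)
    (hpos : 0 < Module.finrank K (M a₀))
    (h₁ : ∀ ψ ∈ occ L, ∃ h, IsGood M act a₀ N k₁ (inputs (app M act a₀ N k₁) ψ) h)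
    (h₂ : ∀ i, ∃ h, IsGood M act a₀ N k₂ (app M act a₀ N k₁ '' (L i : Set (Form V))) h) :
    ∃ f ∈ M a₀, f ≠ 0 ∧
      (∀ m (F : Fin m → Form V), Form.disj m F ∈ occ L → ∀ i,
        act (app M act a₀ N k₁ (F i) *
          hor M act a₀ N k₁ (Set.range fun i => app M act a₀ N k₁ (F i))) f = 0) ∧
      ∀ i, ∀ φ ∈ L i, act (app M act a₀ N k₁ φ *
        hor M act a₀ N k₂ (app M act a₀ N k₁ '' (L i : Set (Form V)))) f = 0 := by
  classical
  have : Fintype (occ L) := (finite_occ L).fintype
  obtain ⟨g, hg⟩ : ∃ g : (Fin l) ⊕ (occ L) → W →ₗ[K] (Fun K V → W), g = Sum.elim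
      (fun i => kill act (app M act a₀ N k₁ '' (L i : Set (Form V)))
        (hor M act a₀ N k₂ (app M act a₀ N k₁ '' (L i : Set (Form V)))))
      (fun ψ => kill act (inputs (app M act a₀ N k₁) ψ.1)
        (hor M act a₀ N k₁ (inputs (app M act a₀ N k₁) ψ.1))) := ⟨_, rfl⟩
  have hgood : ∀ s, N * Module.finrank K ((M a₀).map (g s)) < Module.finrank K (M a₀) := by
    rintro (i | ψ)
    · rw [hg]
      exact (hor_good (h₂ i)).2
    · rw [hg]
      exact (hor_good (h₁ ψ.1 ψ.2)).2
  have hcard : Fintype.card ((Fin l) ⊕ (occ L)) ≤ N := by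
    rw [Fintype.card_sum, Fintype.card_fin, ← Nat.card_eq_fintype_card (α := occ L)]
    exact hN
  have hsum : ∑ s, Module.finrank K ((M a₀).map (g s)) < Module.finrank K (M a₀) := by
    rcases isEmpty_or_nonempty ((Fin l) ⊕ (occ L)) with hE | hE
    · rw [univ_eq_empty, sum_empty]
      exact hpos
    · have h3 : N * ∑ s, Module.finrank K ((M a₀).map (g s)) <
          N * Module.finrank K (M a₀) := by
        calc N * ∑ s, Module.finrank K ((M a₀).map (g s))
            = ∑ s, N * Module.finrank K ((M a₀).map (g s)) := mul_sum _ _ _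
          _ < ∑ _s : (Fin l) ⊕ (occ L), Module.finrank K (M a₀) :=
              sum_lt_sum_of_nonempty univ_nonempty fun s _ => hgood s
          _ = Fintype.card ((Fin l) ⊕ (occ L)) * Module.finrank K (M a₀) := by
              rw [sum_const, smul_eq_mul, card_univ]
          _ ≤ N * Module.finrank K (M a₀) := Nat.mul_le_mul_right _ hcard
      exact Nat.lt_of_mul_lt_mul_left h3
  obtain ⟨f, hf, hf0, hfg⟩ := exists_common_zero univ (M a₀) g hsum
  refine ⟨f, hf, hf0, fun m F hF i => ?_, fun i φ hφ => ?_⟩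
  · have h3 := hfg (Sum.inr ⟨_, hF⟩) (mem_univ _)
    rw [hg] at h3
    exact kill_eq_zero.1 h3 _ ⟨i, rfl⟩
  · have h3 := hfg (Sum.inl i) (mem_univ _)
    rw [hg] at h3
    exact kill_eq_zero.1 h3 _ ⟨φ, hφ, rfl⟩

end Pool.Agent.MP_9cec2c_lc.Frege
end

section

/-!
Soundness of the rules modulo a space of functions that is closed under products of small degree.
-/

set_option autoImplicit false
set_option linter.unusedSectionVars false

namespace Pool.Agent.MP_9cec2c_lc.Frege

open Finset

variable {K V : Type} [Field K] [Fintype K]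

/-- The space `J` is closed under products up to degree `B`. -/
def Closed (J : Submodule K (Fun K V)) (B : ℕ) : Prop :=
  ∀ (e e' : ℕ) (u v : Fun K V), e + e' ≤ B → u ∈ Pol K V e → v ∈ Pol K V e' → u ∈ J → u * v ∈ J

variable {J : Submodule K (Fun K V)} {B : ℕ}

theorem pull_one (hJ : Closed J B) {G : Set (Fun K V)} {t : ℕ}
    (hG : ∀ g ∈ G, g ∈ Pol K V t) {u : Fun K V} {e : ℕ} (hu : u ∈ Pol K V e)
    (h1 : ∀ g ∈ G, g * u ∈ J) : ∀ (k : ℕ) (h : Fun K V), Hor k G h →
      e + k * ((Fintype.card K - 1) * t) ≤ B → (1 - h) * u ∈ J := by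
  have hspan : ∀ q ∈ Submodule.span K G, q * u ∈ J := by
    intro q hq
    induction hq using Submodule.span_induction with
    | mem g hg => exact h1 g hg
    | zero =>
      rw [zero_mul]
      exact J.zero_mem
    | add a b _ _ ha hb =>
      rw [add_mul]
      exact J.add_mem ha hb
    | smul c a _ ha =>
      rw [smul_mul_assoc]
      exact J.smul_mem c ha
  have hdeg : Submodule.span K G ≤ Pol K V t := Submodule.span_le.2 hG
  intro k
  induction k with
  | zero =>
    rintro h ⟨q, -, rfl⟩ _
    rw [Fin.prod_univ_zero, sub_self, zero_mul]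
    exact J.zero_mem
  | succ k ih =>
    rintro h ⟨q, hq, rfl⟩ hB
    obtain ⟨c, hc⟩ : ∃ c, Fintype.card K - 1 = c + 1 :=
      ⟨Fintype.card K - 1 - 1, by have := card_sub_pos (K := K); omega⟩
    have e1 : (k + 1) * ((Fintype.card K - 1) * t) =
        k * ((Fintype.card K - 1) * t) + (c * t + t) := by
      rw [hc]
      ring
    rw [e1] at hB
    rw [Fin.prod_univ_castSucc]
    obtain ⟨h', hh'⟩ : ∃ h', h' = ∏ j : Fin k, cf (q j.castSucc) := ⟨_, rfl⟩
    have hor' : Hor k G h' := ⟨fun j => q j.castSucc, fun j => hq _, hh'⟩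
    have h2 := ih h' hor' (by omega)
    rw [← hh']
    have h3 : (1 - h' * cf (q (Fin.last k))) * u =
        (1 - h') * u + (q (Fin.last k) * u) * (h' * q (Fin.last k) ^ c) := by
      unfold cf
      rw [hc, pow_succ]
      ring
    rw [h3]
    refine J.add_mem h2 (hJ (t + e) (k * ((Fintype.card K - 1) * t) + c * t) _ _ (by omega)
      (mul_mem (hdeg (hq _)) hu) (mul_mem (hor'.mem hG) (pow_mem (hdeg (hq _)) c))
      (hspan _ (hq _)))

theorem pull (hJ : Closed J B) {G : Set (Fun K V)} {t : ℕ}
    (hG : ∀ g ∈ G, g ∈ Pol K V t) {u : Fun K V} {e : ℕ} (hu : u ∈ Pol K V e)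
    (h1 : ∀ g ∈ G, g * u ∈ J) {k : ℕ} {h : Fun K V} (hh : Hor k G h)
    (hB : e + k * ((Fintype.card K - 1) * t) ≤ B) (h2 : h * u ∈ J) : u ∈ J := by
  have h3 := J.add_mem (pull_one hJ hG hu h1 k h hh hB) h2
  have h4 : (1 - h) * u + h * u = u := by ring
  rwa [h4] at h3

theorem pull_prod (hJ : Closed J B) {P : Form V → Fun K V} {t : ℕ} {u : Fun K V} {e : ℕ}
    (hu : u ∈ Pol K V e) (s : Finset (Form V)) (hP : ∀ φ ∈ s, P φ ∈ Pol K V t)
    (h1 : ∀ φ ∈ s, P φ * u ∈ J) (hB : e + s.card * t ≤ B) :
    (1 - ∏ φ ∈ s, (1 - P φ)) * u ∈ J := by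
  classical
  induction s using Finset.induction_on with
  | empty =>
    rw [prod_empty, sub_self, zero_mul]
    exact J.zero_mem
  | insert φ s hφ ih =>
    rw [card_insert_of_notMem hφ] at hB
    have e1 : (s.card + 1) * t = s.card * t + t := by ring
    rw [e1] at hB
    rw [prod_insert hφ]
    have h2 := ih (fun ψ hψ => hP ψ (mem_insert_of_mem hψ))
      (fun ψ hψ => h1 ψ (mem_insert_of_mem hψ)) (by omega)
    have h3 : (1 - (1 - P φ) * ∏ ψ ∈ s, (1 - P ψ)) * u =
        (1 - ∏ ψ ∈ s, (1 - P ψ)) * u + (P φ * u) * ∏ ψ ∈ s, (1 - P ψ) := by ring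
    rw [h3]
    refine J.add_mem h2 (hJ (t + e) (s.card * t) _ _ (by omega)
      (mul_mem (hP φ (mem_insert_self _ _)) hu) (prod_mem s fun ψ hψ => ?_)
      (h1 φ (mem_insert_self _ _)))
    exact Submodule.sub_mem _ (one_mem _) (hP ψ (mem_insert_of_mem hψ))

/-- Soundness. -/
theorem sound {p b l t k₁ k₂ : ℕ} (hJ : Closed J B) {P : Form V → Fun K V}
    {H : Cedent V → Fun K V} {L : Fin l → Cedent V} {Φ : Set (Cedent V)}
    (hneg : ∀ φ, P (.neg φ) = 1 - P φ) (hbin : ∀ φ, Bin (P φ))
    (hresp : ∀ x, Respects p {φ | P φ x = 1})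
    (hdeg : ∀ φ ∈ occ L, P φ ∈ Pol K V t)
    (hd : ∀ m (F : Fin m → Form V), Form.disj m F ∈ occ L →
      Hor k₁ (Set.range fun i => P (F i)) (1 - P (.disj m F)))
    (hd' : ∀ m (F : Fin m → Form V), Form.disj m F ∈ occ L → ∀ i,
      P (F i) * (1 - P (.disj m F)) ∈ J)
    (hH : ∀ Γ : Cedent V, Hor k₂ (P '' (Γ : Set (Form V))) (H Γ))
    (hH' : ∀ i, ∀ φ ∈ L i, P φ * H (L i) ∈ J)
    (hax : ∀ i, L i ∈ Φ → H (L i) ∈ J)
    (hB₁ : 2 * (k₂ * ((Fintype.card K - 1) * t)) + 2 * t ≤ B)
    (hB₂ : k₂ * ((Fintype.card K - 1) * t) + k₁ * ((Fintype.card K - 1) * t) ≤ B)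
    (hB₃ : k₂ * ((Fintype.card K - 1) * t) + b * t ≤ B)
    (hL : ∀ i, Step p b Φ {Δ | ∃ j, j < i ∧ L j = Δ} (L i)) : ∀ i, H (L i) ∈ J := by
  classical
  obtain ⟨E, hE⟩ : ∃ E, E = k₂ * ((Fintype.card K - 1) * t) := ⟨_, rfl⟩
  obtain ⟨E₁, hE₁⟩ : ∃ E₁, E₁ = k₁ * ((Fintype.card K - 1) * t) := ⟨_, rfl⟩
  rw [← hE] at hB₁ hB₂ hB₃
  rw [← hE₁] at hB₂
  have hoc : ∀ i, ∀ φ ∈ L i, φ ∈ occ L := fun i φ hφ => ⟨i, φ, hφ, self_mem_parts φ⟩
  have hdegL : ∀ i, ∀ g ∈ P '' (L i : Set (Form V)), g ∈ Pol K V t := by
    rintro i _ ⟨φ, hφ, rfl⟩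
    exact hdeg φ (hoc i φ hφ)
  have hHdeg : ∀ i, H (L i) ∈ Pol K V E := by
    intro i
    rw [hE]
    exact (hH (L i)).mem (hdegL i)
  -- a premise can be used for any function on which its formulas vanish
  have use : ∀ (j : Fin l) (u : Fun K V) (e : ℕ), u ∈ Pol K V e → e + E ≤ B →
      H (L j) ∈ J → (∀ φ ∈ L j, P φ * u ∈ J) → u ∈ J := by
    intro j u e hu he hj h1
    refine pull hJ (hdegL j) hu ?_ (hH (L j)) (by rw [← hE]; exact he)
      (hJ E e _ _ (by omega) (hHdeg j) hu hj)
    rintro _ ⟨φ, hφ, rfl⟩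
    exact h1 φ hφ
  have key : ∀ n : ℕ, ∀ i : Fin l, (i : ℕ) = n → H (L i) ∈ J := by
    intro n
    induction n using Nat.strong_induction_on with
    | _ n ih =>
      intro i hin
      have prev : ∀ Δ, (∃ j, j < i ∧ L j = Δ) → ∃ j, L j = Δ ∧ H (L j) ∈ J := by
        rintro Δ ⟨j, hj, rfl⟩
        exact ⟨j, rfl, ih j (by rw [← hin]; exact hj) j rfl⟩
      have hst := hL i
      have star := hH' i
      have degu := hHdeg i
      have doc := hoc i
      have hax' := hax i
      obtain ⟨u, hu⟩ : ∃ u, u = H (L i) := ⟨_, rfl⟩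
      have tautu : (L i).card ≤ b → (∀ ν, Respects p ν → ∃ φ ∈ L i, φ ∈ ν) → H (L i) ∈ J := by
        intro hb ht
        have h1 := pull_prod hJ degu (L i) (fun φ hφ => hdeg φ (doc φ hφ)) star
          (by
            have := Nat.mul_le_mul_right t hb
            omega)
        have h2 : ∏ φ ∈ L i, (1 - P φ) = 0 := by
          funext x
          obtain ⟨φ, hφ, hφx⟩ := ht _ (hresp x)
          rw [Finset.prod_apply, Pi.zero_apply]
          refine prod_eq_zero hφ ?_
          rw [Pi.sub_apply, Pi.one_apply, sub_eq_zero]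
          exact hφx.symm
        rwa [h2, sub_zero, one_mul] at h1
      rw [← hu] at star degu hax' tautu ⊢
      obtain ⟨Γ, hΓ⟩ : ∃ Γ, Γ = L i := ⟨_, rfl⟩
      rw [← hΓ] at hst star doc hax' tautu
      clear hΓ hu
      cases hst with
      | ax _ h => exact hax' h
      | taut _ hb h => exact tautu hb h
      | weak _ Δ h hs =>
        obtain ⟨j, rfl, hj⟩ := prev Δ h
        exact use j u E degu (by omega) hj fun φ hφ => star φ (hs hφ)
      | cut _ φ h h' =>
        obtain ⟨j, hjL, hj⟩ := prev _ h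
        obtain ⟨j', hjL', hj'⟩ := prev _ h'
        have hφ : P φ ∈ Pol K V t := hdeg φ (hoc j φ (by rw [hjL]; exact mem_insert_self _ _))
        have h1 : u * (1 - P φ) ∈ J := by
          refine use j _ (E + t) (mul_mem degu (Submodule.sub_mem _ (one_mem _) hφ)) (by omega)
            hj fun ψ hψ => ?_
          rw [hjL, mem_insert] at hψ
          rcases hψ with rfl | hψ
          · have h2 : P ψ * (u * (1 - P ψ)) = u * (P ψ - P ψ * P ψ) := by ring
            rw [h2, (hbin ψ).mul_self, sub_self, mul_zero]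
            exact J.zero_mem
          · rw [← mul_assoc]
            exact hJ (t + E) t _ _ (by omega) (mul_mem (hdeg ψ (doc ψ hψ)) degu)
              (Submodule.sub_mem _ (one_mem _) hφ) (star ψ hψ)
        have h2 : u * P φ ∈ J := by
          refine use j' _ (E + t) (mul_mem degu hφ) (by omega) hj' fun ψ hψ => ?_
          rw [hjL', mem_insert] at hψ
          rcases hψ with rfl | hψ
          · have h2 : P (.neg φ) * (u * P φ) = u * (P φ - P φ * P φ) := by
              rw [hneg]
              ring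
            rw [h2, (hbin φ).mul_self, sub_self, mul_zero]
            exact J.zero_mem
          · rw [← mul_assoc]
            exact hJ (t + E) t _ _ (by omega) (mul_mem (hdeg ψ (doc ψ hψ)) degu) hφ (star ψ hψ)
        have h3 : u = u * (1 - P φ) + u * P φ := by ring
        rw [h3]
        exact J.add_mem h1 h2
      | right Γ m F i' h =>
        obtain ⟨j, hjL, hj⟩ := prev _ h
        have hdo : Form.disj m F ∈ occ L := doc _ (mem_insert_self _ _)
        have hdd : P (.disj m F) ∈ Pol K V t := hdeg _ hdo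
        have hFo : F i' ∈ occ L := hoc j _ (by rw [hjL]; exact mem_insert_self _ _)
        have hFd : P (F i') ∈ Pol K V t := hdeg _ hFo
        refine use j u E degu (by omega) hj fun ψ hψ => ?_
        rw [hjL, mem_insert] at hψ
        rcases hψ with rfl | hψ
        · have h1 : P (F i') * u = (P (F i') * (1 - P (.disj m F))) * u +
              (P (.disj m F) * u) * P (F i') := by ring
          rw [h1]
          refine J.add_mem ?_ ?_
          · exact hJ (t + t) E _ _ (by omega)
              (mul_mem hFd (Submodule.sub_mem _ (one_mem _) hdd)) degu (hd' m F hdo i')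
          · exact hJ (t + E) t _ _ (by omega) (mul_mem hdd degu) hFd
              (star _ (mem_insert_self _ _))
        · exact star ψ (mem_insert_of_mem hψ)
      | left Γ m F h =>
        have hno : Form.neg (Form.disj m F) ∈ occ L := doc _ (mem_insert_self _ _)
        have hdo : Form.disj m F ∈ occ L := by
          obtain ⟨j, φ, hφ, hφ'⟩ := hno
          refine ⟨j, φ, hφ, parts_trans hφ' ?_⟩
          rw [Form.parts]
          exact Set.mem_insert_of_mem _ (self_mem_parts _)
        have hdd : P (.disj m F) ∈ Pol K V t := hdeg _ hdo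
        have hFo : ∀ i, F i ∈ occ L := by
          intro i
          obtain ⟨j, φ, hφ, hφ'⟩ := hdo
          refine ⟨j, φ, hφ, parts_trans hφ' ?_⟩
          rw [Form.parts]
          exact Set.mem_insert_of_mem _ (Set.mem_iUnion.2 ⟨i, self_mem_parts _⟩)
        have hFd : ∀ i, P (F i) ∈ Pol K V t := fun i => hdeg _ (hFo i)
        have h1 : ∀ i, P (F i) * u ∈ J := by
          intro i
          obtain ⟨j, hjL, hj⟩ := prev _ (h i)
          refine use j _ (t + E) (mul_mem (hFd i) degu) (by omega) hj fun ψ hψ => ?_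
          rw [hjL, mem_insert] at hψ
          rcases hψ with rfl | hψ
          · have h2 : P (.neg (F i)) * (P (F i) * u) = (P (F i) - P (F i) * P (F i)) * u := by
              rw [hneg]
              ring
            rw [h2, (hbin (F i)).mul_self, sub_self, zero_mul]
            exact J.zero_mem
          · have h2 : P ψ * (P (F i) * u) = (P ψ * u) * P (F i) := by ring
            rw [h2]
            exact hJ (t + E) t _ _ (by omega)
              (mul_mem (hdeg ψ (doc ψ (mem_insert_of_mem hψ))) degu) (hFd i)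
              (star ψ (mem_insert_of_mem hψ))
        have h2 : P (.disj m F) * u ∈ J := by
          have h3 := pull_one hJ (G := Set.range fun i => P (F i)) (t := t) (by
            rintro _ ⟨i, rfl⟩
            exact hFd i) degu (by
            rintro _ ⟨i, rfl⟩
            exact h1 i) k₁ _ (hd m F hdo) (by rw [← hE₁]; exact hB₂)
          rwa [sub_sub_cancel] at h3
        have h3 : P (.neg (.disj m F)) * u ∈ J := star _ (mem_insert_self _ _)
        rw [hneg] at h3
        have h4 : u = (1 - P (.disj m F)) * u + P (.disj m F) * u := by ring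
        rw [h4]
        exact J.add_mem h3 h2
  exact fun i => key i i rfl

end Pool.Agent.MP_9cec2c_lc.Frege
end
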