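import Pool.Agent.Lib.MP_9cec2c_lc.Mg.G059

section

/-!
Instances of schemes by constants: outside a small set of points of the cube, the values of the
formulas in an instance of a scheme are those of an instance by constants.
-/

set_option autoImplicit false
set_option linter.unusedSectionVars false

namespace Pool.Agent.MP_9cec2c_lc.FG

open Finset Frege

variable {K V : Type} [Field K] [Fintype K] {A k d : ℕ} {Z : Submodule K (Fun K V)}
  {H : List (Fun K V) → Fun K V}

/-- The values of the formulas of a list. -/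
noncomputable def pos (H : List (Fun K V) → Fun K V) (Λ : List (Form V)) : List (Fun K V) :=
  Λ.map (pv H)

/-- The values of the negations of the formulas of a list. -/
noncomputable def neg (H : List (Fun K V) → Fun K V) (Λ : List (Form V)) : List (Fun K V) :=
  Λ.map fun φ => 1 - pv H φ

theorem neg_eq (Λ : List (Form V)) : neg H Λ = (pos H Λ).map (1 - ·) := by
  unfold neg pos
  rw [List.map_map]
  rfl

theorem pos_eq (Λ : List (Form V)) : pos H Λ = (neg H Λ).map (1 - ·) := by
  unfold neg pos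
  rw [List.map_map]
  refine List.map_congr_left fun φ _ => ?_
  show pv H φ = 1 - (1 - pv H φ)
  ring

theorem pos_bin (hH : Choice k H) (Λ : List (Form V)) : ∀ g ∈ pos H Λ, Bin g := by
  intro g hg
  obtain ⟨φ, -, rfl⟩ := List.mem_map.1 hg
  exact (bin_all hH φ).1

theorem neg_bin (hH : Choice k H) (Λ : List (Form V)) : ∀ g ∈ neg H Λ, Bin g := by
  intro g hg
  obtain ⟨φ, -, rfl⟩ := List.mem_map.1 hg
  exact bin_one_sub (bin_all hH φ).1

theorem pos_mem (hH : Choice k H) (hk : 1 ≤ k) {Λ : List (Form V)} (hd : ∀ φ ∈ Λ, φ.depth ≤ d) :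
    ∀ g ∈ pos H Λ, g ∈ Pol K V (deg K k d) := by
  intro g hg
  obtain ⟨φ, hφ, rfl⟩ := List.mem_map.1 hg
  exact pv_mem hH hk (hd φ hφ)

theorem neg_mem (hH : Choice k H) (hk : 1 ≤ k) {Λ : List (Form V)} (hd : ∀ φ ∈ Λ, φ.depth ≤ d) :
    ∀ g ∈ neg H Λ, g ∈ Pol K V (deg K k d) := by
  intro g hg
  obtain ⟨φ, hφ, rfl⟩ := List.mem_map.1 hg
  exact Submodule.sub_mem _ (Frege.one_mem _) (pv_mem hH hk (hd φ hφ))

/-- The formulas of a list are clean and of depth at most `d`. -/
def Fine (Z : Submodule K (Fun K V)) (H : List (Fun K V) → Fun K V) (d : ℕ)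
    (Λ : List (Form V)) : Prop := ∀ φ ∈ Λ, φ.depth ≤ d ∧ CleanForm Z H φ

theorem orl_disjL (Λ : List (Form V)) : ∀ g, g ∈ orl H (disjL Λ) ↔ ∃ φ ∈ Λ, g ∈ orl H φ := by
  intro g
  unfold disjL
  rw [orl_disj, List.mem_flatMap]
  constructor
  · rintro ⟨i, -, hi⟩
    exact ⟨_, List.get_mem Λ i, hi⟩
  · rintro ⟨φ, hφ, hg⟩
    obtain ⟨i, hi⟩ := List.get_of_mem hφ
    exact ⟨i, List.mem_finRange i, by rwa [hi]⟩

theorem andl_conjL (Λ : List (Form V)) :
    ∀ g, g ∈ (andl H (conjL Λ)).map (1 - ·) ↔ ∃ φ ∈ Λ, g ∈ (andl H φ).map (1 - ·) := by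
  intro g
  unfold conjL
  rw [andl_conj, List.mem_map]
  constructor
  · rintro ⟨g', hg', rfl⟩
    rw [List.mem_flatMap] at hg'
    obtain ⟨i, -, hi⟩ := hg'
    exact ⟨_, List.get_mem Λ i, List.mem_map.2 ⟨g', hi, rfl⟩⟩
  · rintro ⟨φ, hφ, hg⟩
    obtain ⟨g', hg', rfl⟩ := List.mem_map.1 hg
    obtain ⟨i, hi⟩ := List.get_of_mem hφ
    exact ⟨g', List.mem_flatMap.2 ⟨i, List.mem_finRange i, by rwa [hi]⟩, rfl⟩

/-- The value of a disjunction agrees with the choice for the list of its members. -/
theorem Kill.cov_disj (hZ : Kill A Z) (hH : Choice k H) (hk : 1 ≤ k) {Λ : List (Form V)}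
    (hΛ : Fine Z H d Λ) (hd : (disjL Λ).depth ≤ d) (hc : CleanForm Z H (disjL Λ))
    (hC : Clean Z H (pos H Λ)) (hA : 4 * deg K k (d + 1) ≤ A) :
    Cov Z (4 * deg K k (d + 1)) {x | pv H (disjL Λ) x ≠ 1 - H (pos H Λ) x} := by
  have hT1 : deg K k d ≤ deg K k (d + 1) := deg_mono hk (Nat.le_add_right d 1)
  have b1 := orl_bin hH (disjL Λ)
  have b2 := pos_bin hH Λ
  have m1 := orl_mem hH hk hd
  have m2 := pos_mem hH hk (fun φ hφ => (hΛ φ hφ).1)
  refine (hZ.cov_ne hH b1 m1 b2 m2 ?_ ?_ hA).mono le_rfl ?_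
  · intro g hg
    obtain ⟨φ, hφ, rfl⟩ := List.mem_map.1 hg
    refine hZ.pv_of_orl hH hk (hΛ φ hφ).1 (hH.mem_deg b1 m1) (by omega) fun g hg => ?_
    exact hc.1 trivial g ((orl_disjL Λ g).2 ⟨φ, hφ, hg⟩)
  · intro g hg
    obtain ⟨φ, hφ, hgφ⟩ := (orl_disjL Λ g).1 hg
    exact hZ.orl_of_pv hH hk (hΛ φ hφ).1 (hΛ φ hφ).2 (hH.mem_deg b2 m2) (by omega)
      (hC _ (List.mem_map.2 ⟨φ, hφ, rfl⟩)) g hgφ
  · intro x hx h
    refine hx ?_
    show pv H (disjL Λ) x = 1 - H (pos H Λ) x
    rw [← h]
    rfl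

/-- The value of a conjunction agrees with the choice for the list of its members. -/
theorem Kill.cov_conj (hZ : Kill A Z) (hH : Choice k H) (hk : 1 ≤ k) {Λ : List (Form V)}
    (hΛ : Fine Z H d Λ) (hd : (conjL Λ).depth ≤ d) (hc : CleanForm Z H (conjL Λ))
    (hC : Clean Z H (neg H Λ)) (hA : 4 * deg K k (d + 1) ≤ A) :
    Cov Z (4 * deg K k (d + 1)) {x | pv H (conjL Λ) x ≠ H (neg H Λ) x} := by
  have hT1 : deg K k d ≤ deg K k (d + 1) := deg_mono hk (Nat.le_add_right d 1)
  have b1 := andl_bin hH (conjL Λ)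
  have b2 := neg_bin hH Λ
  have m1 := andl_mem hH hk hd
  have m2 := neg_mem hH hk (fun φ hφ => (hΛ φ hφ).1)
  refine (hZ.cov_ne hH b1 m1 b2 m2 ?_ ?_ hA).mono le_rfl ?_
  · intro g hg
    obtain ⟨φ, hφ, rfl⟩ := List.mem_map.1 hg
    refine hZ.pv_of_andl hH hk (hΛ φ hφ).1 (hH.mem_deg b1 m1) (by omega) fun g hg => ?_
    exact hc.2 trivial g ((andl_conjL Λ g).2 ⟨φ, hφ, hg⟩)
  · intro g hg
    obtain ⟨φ, hφ, hgφ⟩ := (andl_conjL Λ g).1 hg
    exact hZ.andl_of_pv hH hk (hΛ φ hφ).1 (hΛ φ hφ).2 (hH.mem_deg b2 m2) (by omega)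
      (hC _ (List.mem_map.2 ⟨φ, hφ, rfl⟩)) g hgφ
  · intro x hx h
    refine hx ?_
    show pv H (conjL Λ) x = H (neg H Λ) x
    rw [← h]
    rfl

/-! ### The number of true formulas of a list -/

open Classical in
/-- The number of true formulas. -/
noncomputable def ct (p : ℕ) (x : V → Bool) (Λ : List (Form V)) : ℕ :=
  (Λ.map fun φ => if φ.eval p x then 1 else 0).sum

theorem sum_flatMap {α : Type} [AddCommMonoid α] {m : ℕ} (f : Fin m → List α) :
    ((List.finRange m).flatMap f).sum = ∑ i, (f i).sum := by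
  rw [List.flatMap_def, List.sum_flatten, List.map_map, ← List.sum_ofFn, List.ofFn_eq_map]
  rfl

theorem ct_flatMap (p : ℕ) (x : V → Bool) {m : ℕ} (Λ : Fin m → List (Form V)) :
    ct p x ((List.finRange m).flatMap Λ) = ∑ i, ct p x (Λ i) := by
  classical
  unfold ct
  rw [List.map_flatMap, sum_flatMap]

theorem ncard_get (p : ℕ) (x : V → Bool) (Λ : List (Form V)) :
    {i | (Λ.get i).eval p x}.ncard = ct p x Λ := by
  classical
  unfold ct
  have h1 : (Λ.map fun φ => if φ.eval p x then 1 else 0).sum =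
      ∑ i : Fin Λ.length, if (Λ.get i).eval p x then 1 else 0 := by
    rw [← List.sum_ofFn]
    congr 1
    rw [List.ofFn_eq_map]
    conv_lhs => rw [← List.map_get_finRange Λ]
    rw [List.map_map]
    rfl
  rw [h1, sum_boole]
  rw [Set.ncard_eq_toFinset_card']
  simp

end Pool.Agent.MP_9cec2c_lc.FG
end

section

/-!
Instances of schemes by constants: outside a small set of points of the cube, the values of the
formulas in an instance of a scheme are those of an instance by constants.
-/

set_option autoImplicit false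
set_option linter.unusedSectionVars false

namespace Pool.Agent.MP_9cec2c_lc.FG

open Finset Frege

variable {K V : Type} [Field K] [Fintype K] {A k d p : ℕ} {Z : Submodule K (Fun K V)}
  {H : List (Fun K V) → Fun K V}

/-- The values of the formulas of `Λ` at the point `x` are the truth values of `Λ'`. -/
structure Rel (p : ℕ) (H : List (Fun K V) → Fun K V) (x : V → Bool) (Λ Λ' : List (Form V)) :
    Prop where
  len : Λ'.length = Λ.length
  or : H (pos H Λ) x = 1 ↔ ∀ φ ∈ Λ', ¬ φ.eval p x
  and : H (neg H Λ) x = 1 ↔ ∀ φ ∈ Λ', φ.eval p x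
  sum : ((pos H Λ).map fun g => g x).sum = ((ct p x Λ' : ℕ) : K)

theorem rel_single (hH : Choice k H) {x : V → Bool} {φ φ' : Form V}
    (h : pv H φ x = 1 ↔ φ'.eval p x) : Rel p H x [φ] [φ'] := by
  classical
  have hb := (bin_all hH φ).1
  have h1 : H (pos H [φ]) x = 1 - pv H φ x := by
    show H [pv H φ] x = _
    rw [hH.one _ hb]
    rfl
  have h2 : H (neg H [φ]) x = pv H φ x := by
    show H [1 - pv H φ] x = _
    rw [hH.one _ (bin_one_sub hb)]
    show 1 - (1 - pv H φ x) = _
    ring
  refine ⟨rfl, ?_, ?_, ?_⟩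
  · rw [h1]
    constructor
    · intro h3 ψ hψ
      rw [List.mem_singleton.1 hψ, ← h]
      intro h4
      rw [h4, sub_self] at h3
      exact zero_ne_one h3
    · intro h3
      have h4 := h3 φ' (List.mem_singleton.2 rfl)
      rw [← h] at h4
      rw [(hb x).resolve_right h4, sub_zero]
  · rw [h2, h]
    constructor
    · intro h3 ψ hψ
      rwa [List.mem_singleton.1 hψ]
    · intro h3
      exact h3 φ' (List.mem_singleton.2 rfl)
  · show pv H φ x + 0 = _
    unfold ct
    rw [List.map_cons, List.map_nil, List.sum_cons, List.sum_nil, add_zero, add_zero]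
    by_cases h3 : φ'.eval p x
    · rw [if_pos h3, h.2 h3, Nat.cast_one]
    · rw [if_neg h3, Nat.cast_zero]
      exact (hb x).resolve_right fun h4 => h3 (h.1 h4)

theorem pos_map_neg (Λ : List (Form V)) : pos H (Λ.map .neg) = neg H Λ := by
  unfold pos neg
  rw [List.map_map]
  rfl

theorem neg_map_neg (Λ : List (Form V)) : neg H (Λ.map .neg) = pos H Λ := by
  rw [neg_eq, pos_map_neg, ← pos_eq]

theorem ct_map_neg (x : V → Bool) (Λ : List (Form V)) :
    ct p x (Λ.map .neg) + ct p x Λ = Λ.length := by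
  classical
  unfold ct
  induction Λ with
  | nil => rfl
  | cons φ Λ ih =>
    rw [List.map_cons, List.map_cons, List.map_cons, List.sum_cons, List.sum_cons,
      List.length_cons, ← ih]
    have h1 : (if (Form.neg φ).eval p x then 1 else 0) + (if φ.eval p x then 1 else 0) = 1 := by
      by_cases h : φ.eval p x
      · have h2 : ¬ (Form.neg φ).eval p x := fun h3 => h3 h
        rw [if_pos h, if_neg h2]
      · have h2 : (Form.neg φ).eval p x := h
        rw [if_neg h, if_pos h2]
    omega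

theorem sum_pos_neg (x : V → Bool) (Λ : List (Form V)) :
    ((neg H Λ).map fun g => g x).sum = (Λ.length : K) - ((pos H Λ).map fun g => g x).sum := by
  unfold pos neg
  induction Λ with
  | nil =>
    show (0 : K) = ((0 : ℕ) : K) - 0
    rw [Nat.cast_zero, sub_zero]
  | cons φ Λ ih =>
    rw [List.map_cons, List.map_cons, List.sum_cons, ih, List.map_cons, List.map_cons,
      List.sum_cons, List.length_cons, Nat.cast_add, Nat.cast_one]
    show (1 - pv H φ x) + _ = _
    ring

theorem Rel.map_neg {x : V → Bool} {Λ Λ' : List (Form V)} (h : Rel p H x Λ Λ') :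
    Rel p H x (Λ.map .neg) (Λ'.map .neg) := by
  refine ⟨by rw [List.length_map, List.length_map, h.len], ?_, ?_, ?_⟩
  · rw [pos_map_neg, h.and]
    constructor
    · intro h1 φ hφ h2
      obtain ⟨ψ, hψ, rfl⟩ := List.mem_map.1 hφ
      exact h2 (h1 ψ hψ)
    · intro h1 φ hφ
      by_contra h2
      exact h1 _ (List.mem_map.2 ⟨φ, hφ, rfl⟩) h2
  · rw [neg_map_neg, h.or]
    constructor
    · intro h1 φ hφ
      obtain ⟨ψ, hψ, rfl⟩ := List.mem_map.1 hφ
      exact h1 ψ hψ
    · intro h1 φ hφ h2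
      exact h1 _ (List.mem_map.2 ⟨φ, hφ, rfl⟩) h2
  · rw [pos_map_neg, sum_pos_neg, h.sum, ← h.len, ← ct_map_neg (p := p) x Λ', Nat.cast_add,
      add_sub_cancel_right]

/-! ### The instance by constants -/

open Classical in
/-- The constant with truth value `b`. -/
noncomputable def const (b : Prop) : Form V := if b then conjL [] else disjL []

theorem eval_const (x : V → Bool) (b : Prop) : (const b : Form V).eval p x ↔ b := by
  classical
  unfold const
  by_cases h : b
  · rw [if_pos h]
    refine ⟨fun _ => h, fun _ => ?_⟩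
    intro i
    exact absurd i.2 (Nat.not_lt_zero _)
  · rw [if_neg h]
    refine ⟨fun h1 => ?_, fun h1 => absurd h1 h⟩
    obtain ⟨i, -⟩ := h1
    exact absurd i.2 (Nat.not_lt_zero _)

open Classical in
/-- The list of constants that replaces the list `Λ` at the point `x`. -/
noncomputable def repair (H : List (Fun K V) → Fun K V) (x : V → Bool) (Λ : List (Form V)) :
    List (Form V) :=
  if H (neg H Λ) x = 1 then Λ.map fun _ => const True
  else if H (pos H Λ) x = 1 then Λ.map fun _ => const False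
  else Λ.map fun φ => const (pv H φ x = 1)

theorem ct_const_true (x : V → Bool) (Λ : List (Form V)) :
    ct p x (Λ.map fun _ => (const True : Form V)) = Λ.length := by
  classical
  unfold ct
  induction Λ with
  | nil => rfl
  | cons φ Λ ih =>
    rw [List.map_cons, List.map_cons, List.sum_cons, ih, if_pos ((eval_const x True).2 trivial),
      List.length_cons, add_comm]

theorem ct_const_false (x : V → Bool) (Λ : List (Form V)) :
    ct p x (Λ.map fun _ => (const False : Form V)) = 0 := by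
  classical
  unfold ct
  induction Λ with
  | nil => rfl
  | cons φ Λ ih =>
    rw [List.map_cons, List.map_cons, List.sum_cons, ih, if_neg fun h => (eval_const x False).1 h]

theorem rel_repair (hH : Choice k H) {x : V → Bool} {Λ : List (Form V)}
    (h1 : H (pos H Λ) x = 1 → ((pos H Λ).map fun g => g x).sum = 0)
    (h2 : H (neg H Λ) x = 1 → ((neg H Λ).map fun g => g x).sum = 0)
    (h3 : H (pos H Λ) x = 1 → H (neg H Λ) x = 1 → Λ = []) :
    Rel p H x Λ (repair H x Λ) := by
  classical
  by_cases hn : H (neg H Λ) x = 1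
  · have hr : repair H x Λ = Λ.map fun _ => const True := by
      unfold repair
      rw [if_pos hn]
    rw [hr]
    refine ⟨List.length_map _, ?_, ?_, ?_⟩
    · constructor
      · intro h φ hφ
        rw [h3 h hn] at hφ
        exact absurd hφ List.not_mem_nil
      · intro h
        rcases Λ with _ | ⟨ψ, Λ⟩
        · show H [] x = 1
          rw [hH.nil]
          rfl
        · exact absurd ((eval_const x True).2 trivial)
            (h (const True) (List.mem_map.2 ⟨ψ, List.mem_cons_self, rfl⟩))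
    · refine ⟨fun _ φ hφ => ?_, fun _ => hn⟩
      obtain ⟨ψ, -, rfl⟩ := List.mem_map.1 hφ
      exact (eval_const x True).2 trivial
    · have h4 := h2 hn
      rw [sum_pos_neg, sub_eq_zero] at h4
      rw [ct_const_true, ← h4]
  · by_cases hp : H (pos H Λ) x = 1
    · have hr : repair H x Λ = Λ.map fun _ => const False := by
        unfold repair
        rw [if_neg hn, if_pos hp]
      rw [hr]
      refine ⟨List.length_map _, ?_, ?_, ?_⟩
      · refine ⟨fun _ φ hφ => ?_, fun _ => hp⟩
        obtain ⟨ψ, -, rfl⟩ := List.mem_map.1 hφ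
        exact fun h => (eval_const x False).1 h
      · refine ⟨fun h => absurd h hn, fun h => ?_⟩
        rcases Λ with _ | ⟨ψ, Λ⟩
        · show H [] x = 1
          rw [hH.nil]
          rfl
        · exact absurd (h (const False) (List.mem_map.2 ⟨ψ, List.mem_cons_self, rfl⟩))
            fun h => (eval_const x False).1 h
      · rw [h1 hp, ct_const_false, Nat.cast_zero]
    · have hr : repair H x Λ = Λ.map fun φ => const (pv H φ x = 1) := by
        unfold repair
        rw [if_neg hn, if_neg hp]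
      rw [hr]
      refine ⟨List.length_map _, ?_, ?_, ?_⟩
      · refine ⟨fun h => absurd h hp, fun h => ?_⟩
        refine hH.apply_eq_one (pos_bin hH Λ) fun g hg => ?_
        obtain ⟨φ, hφ, rfl⟩ := List.mem_map.1 hg
        refine ((bin_all hH φ).1 x).resolve_right fun h4 => ?_
        exact h _ (List.mem_map.2 ⟨φ, hφ, rfl⟩) ((eval_const x _).2 h4)
      · refine ⟨fun h => absurd h hn, fun h => ?_⟩
        refine hH.apply_eq_one (neg_bin hH Λ) fun g hg => ?_
        obtain ⟨φ, hφ, rfl⟩ := List.mem_map.1 hg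
        have h4 := (eval_const x _).1 (h _ (List.mem_map.2 ⟨φ, hφ, rfl⟩))
        show 1 - pv H φ x = 0
        rw [h4, sub_self]
      · clear hr h1 h2 h3 hn hp
        unfold ct pos
        induction Λ with
        | nil =>
          show (0 : K) = ((0 : ℕ) : K)
          rw [Nat.cast_zero]
        | cons φ Λ ih =>
          rw [List.map_cons, List.map_cons, List.map_cons, List.map_cons, List.sum_cons, ih,
            List.sum_cons, Nat.cast_add]
          congr 1
          by_cases h4 : pv H φ x = 1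
          · rw [if_pos ((eval_const x _).2 h4), h4, Nat.cast_one]
          · rw [if_neg fun h5 => h4 ((eval_const x _).1 h5), Nat.cast_zero]
            exact ((bin_all hH φ).1 x).resolve_right h4

/-- The subschemes of a scheme. -/
def Scheme.subs : Scheme → List Scheme
  | .form i => [.form i]
  | .list i => [.list i]
  | .neg P => .neg P :: P.subs
  | .conj m P => .conj m P :: (List.finRange m).flatMap fun i => (P i).subs
  | .disj m P => .disj m P :: (List.finRange m).flatMap fun i => (P i).subs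
  | .count r m P => .count r m P :: (List.finRange m).flatMap fun i => (P i).subs

/-- The cost of a scheme. -/
def Scheme.cost : Scheme → ℕ
  | .form _ => 0
  | .list _ => 6
  | .neg P => P.cost
  | .conj m P => (∑ i, (P i).cost) + (3 * m + 5)
  | .disj m P => (∑ i, (P i).cost) + (3 * m + 5)
  | .count _ _ P => ∑ i, (P i).cost

/-- The list that is approximated at a node of a scheme. -/
def Scheme.args (σ : ℕ → Form V) (τ : ℕ → List (Form V)) : Scheme → List (Form V)
  | .form _ => []
  | .list i => τ i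
  | .neg _ => []
  | .conj m P => (List.finRange m).flatMap fun i => (P i).inst σ τ
  | .disj m P => (List.finRange m).flatMap fun i => (P i).inst σ τ
  | .count _ _ _ => []

theorem Scheme.self_mem_subs (P : Scheme) : P ∈ P.subs := by
  cases P <;> unfold Scheme.subs <;> first
    | exact List.mem_singleton.2 rfl
    | exact List.mem_cons_self

/-- All lists at the nodes of the scheme are clean. -/
def NodeFine (Z : Submodule K (Fun K V)) (H : List (Fun K V) → Fun K V) (d : ℕ)
    (σ : ℕ → Form V) (τ : ℕ → List (Form V)) (P : Scheme) : Prop :=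
  ∀ Q ∈ P.subs, Fine Z H d (Q.inst σ τ) ∧ Clean Z H (pos H (Q.args σ τ)) ∧
    Clean Z H (neg H (Q.args σ τ))

theorem clean_single (hH : Choice k H) {g : Fun K V} (hg : Bin g) : Clean Z H [g] := by
  intro g' hg'
  rw [List.mem_singleton.1 hg', hH.one g hg, mul_sub, mul_one, hg.mul_self, sub_self]
  exact Z.zero_mem

variable {σ : ℕ → Form V} {τ : ℕ → List (Form V)}

theorem NodeFine.clean (hH : Choice k H) {P : Scheme} (h : NodeFine Z H d σ τ P) :
    Clean Z H (pos H (P.inst σ τ)) ∧ Clean Z H (neg H (P.inst σ τ)) := by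
  have key : ∀ φ : Form V, Clean Z H (pos H [φ]) ∧ Clean Z H (neg H [φ]) := fun φ =>
    ⟨clean_single hH (bin_all hH φ).1, clean_single hH (bin_one_sub (bin_all hH φ).1)⟩
  induction P with
  | form i => exact key _
  | list i => exact (h _ (Scheme.self_mem_subs _)).2
  | neg P ih =>
    have h1 : NodeFine Z H d σ τ P := fun Q hQ => h Q (List.mem_cons_of_mem _ hQ)
    have h2 : (Scheme.neg P).inst σ τ = (P.inst σ τ).map .neg := rfl
    rw [h2, pos_map_neg, neg_map_neg]
    exact ⟨(ih h1).2, (ih h1).1⟩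
  | conj m P ih => exact key _
  | disj m P ih => exact key _
  | count r m P ih => exact key _

/-- The instance of a scheme by constants at the point `x`. -/
noncomputable def cinst (H : List (Fun K V) → Fun K V) (σ : ℕ → Form V) (τ : ℕ → List (Form V))
    (x : V → Bool) (P : Scheme) : List (Form V) :=
  P.inst (fun i => const (pv H (σ i) x = 1)) fun i => repair H x (τ i)

theorem pos_flatMap {m : ℕ} (Λ : Fin m → List (Form V)) :
    pos H ((List.finRange m).flatMap Λ) = (List.finRange m).flatMap fun i => pos H (Λ i) := by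
  unfold pos
  rw [List.map_flatMap]

theorem neg_flatMap {m : ℕ} (Λ : Fin m → List (Form V)) :
    neg H ((List.finRange m).flatMap Λ) = (List.finRange m).flatMap fun i => neg H (Λ i) := by
  unfold neg
  rw [List.map_flatMap]

theorem forall_get {Λ : List (Form V)} {q : Form V → Prop} :
    (∀ i, q (Λ.get i)) ↔ ∀ φ ∈ Λ, q φ := by
  constructor
  · intro h φ hφ
    obtain ⟨i, hi⟩ := List.get_of_mem hφ
    rw [← hi]
    exact h i
  · intro h i
    exact h _ (List.get_mem Λ i)

/-- Outside a covered set, the values of the formulas of an instance of a scheme are the truth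
values of an instance by constants. -/
theorem Kill.node [CharP K p] (hZ : Kill A Z) (hH : Choice k H) (hk : 1 ≤ k) {P : Scheme}
    (h : NodeFine Z H d σ τ P) (hA : P.cost * deg K k (d + 1) ≤ A)
    (hA4 : 4 * deg K k (d + 1) ≤ A) :
    ∃ B, Cov Z (P.cost * deg K k (d + 1)) B ∧
      ∀ x ∉ B, Rel p H x (P.inst σ τ) (cinst H σ τ x P) := by
  classical
  obtain ⟨T, hT⟩ : ∃ T, T = deg K k (d + 1) := ⟨_, rfl⟩
  induction P with
  | form i =>
    refine ⟨∅, cov_empty.mono (Nat.zero_le _) subset_rfl, fun x _ => ?_⟩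
    exact rel_single hH (eval_const x _).symm
  | list i =>
    obtain ⟨h1, h2, h3⟩ := h _ (Scheme.self_mem_subs _)
    have hd : ∀ φ ∈ τ i, φ.depth ≤ d := fun φ hφ => (h1 φ hφ).1
    have c1 := hZ.cov_sum hH hk (pos_bin hH _) (pos_mem hH hk hd) h2 (by omega)
    have c2 := hZ.cov_sum hH hk (neg_bin hH _) (neg_mem hH hk hd) h3 (by omega)
    have c3 := hZ.cov_both hH (pos_bin hH _) (pos_mem hH hk hd) h2
      (by rw [← neg_eq]; exact h3) (by omega) hk
    have hc : (Scheme.list i).cost = 6 := rfl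
    rw [hc] at hA ⊢
    refine ⟨_, (hZ.union (hZ.union c1 c2 (by omega)) c3 (by omega)).mono (by omega)
      subset_rfl, fun x hx => ?_⟩
    rw [Set.mem_union, Set.mem_union, not_or, not_or] at hx
    obtain ⟨⟨x1, x2⟩, x3⟩ := hx
    have y1 := not_not.1 x1
    have y2 := not_not.1 x2
    have y3 := not_not.1 x3
    refine rel_repair hH y1 y2 fun a1 a2 => ?_
    rw [neg_eq] at a2
    exact List.map_eq_nil_iff.1 (y3 a1 a2)
  | neg P ih =>
    obtain ⟨B, hB, hx⟩ := ih (fun Q hQ => h Q (List.mem_cons_of_mem _ hQ)) hA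
    exact ⟨B, hB, fun x hxB => (hx x hxB).map_neg⟩
  | conj m P ih =>
    have hc : (Scheme.conj m P).cost = (∑ i, (P i).cost) + (3 * m + 5) := rfl
    rw [hc] at hA ⊢
    have hsub : ∀ i, NodeFine Z H d σ τ (P i) := fun i Q hQ => h Q
      (List.mem_cons_of_mem _ (List.mem_flatMap.2 ⟨i, List.mem_finRange i, hQ⟩))
    have hsum : ∑ i, (P i).cost * T = (∑ i, (P i).cost) * T := (Finset.sum_mul _ _ _).symm
    have hle : ∀ i, (P i).cost * T ≤ ∑ i, (P i).cost * T := fun i =>
      single_le_sum (f := fun i => (P i).cost * T) (fun _ _ => Nat.zero_le _) (mem_univ i)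
    rw [← hT] at hA hA4 ih ⊢
    have e1 : ((∑ i, (P i).cost) + (3 * m + 5)) * T =
        (∑ i, (P i).cost) * T + ((3 * m + 1) * T + 4 * T) := by ring
    rw [e1] at hA ⊢
    have ih' := fun i => ih i (hsub i) (by have := hle i; omega)
    choose B hB hrel using ih'
    obtain ⟨h1, -, h3⟩ := h _ (Scheme.self_mem_subs _)
    have hΛ : Fine Z H d ((Scheme.conj m P).args σ τ) := by
      intro φ hφ
      obtain ⟨i, -, hi⟩ := List.mem_flatMap.1 hφ
      exact (hsub i _ (Scheme.self_mem_subs _)).1 φ hi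
    obtain ⟨hd, hcl⟩ := h1 _ (List.mem_singleton.2 rfl)
    have cB := hZ.iUnion hB (by rw [hsum]; omega)
    have c1 := hZ.cov_concat hH hk (L := fun i => neg H ((P i).inst σ τ)) (d := d)
      (fun i => neg_bin hH _) (fun i => neg_mem hH hk fun φ hφ =>
        ((hsub i _ (Scheme.self_mem_subs _)).1 φ hφ).1)
      (fun i => ((hsub i).clean hH).2) (by rw [← neg_flatMap]; exact h3)
      (by rw [← hT]; omega) (by rw [← hT]; omega)
    have c2 := hZ.cov_conj hH hk hΛ hd hcl h3 (by rw [← hT]; omega)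
    rw [← hT] at c1 c2
    rw [hsum] at cB
    refine ⟨_, (hZ.union cB (hZ.union c1 c2 (by omega)) (by omega)), fun x hx => ?_⟩
    rw [Set.mem_union, Set.mem_union, not_or, not_or] at hx
    obtain ⟨x0, x1, x2⟩ := hx
    have y1 := not_not.1 x1
    have y2 := not_not.1 x2
    have y0 : ∀ i, x ∉ B i := fun i hi => x0 (Set.mem_iUnion.2 ⟨i, hi⟩)
    refine rel_single hH ?_
    change pv H (conjL ((Scheme.conj m P).args σ τ)) x = 1 ↔
      (conjL ((List.finRange m).flatMap fun i => cinst H σ τ x (P i))).eval p x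
    rw [y2]
    have e2 : neg H ((Scheme.conj m P).args σ τ) =
        (List.finRange m).flatMap fun i => neg H ((P i).inst σ τ) := neg_flatMap _
    rw [e2, y1]
    constructor
    · intro hi
      refine forall_get.2 fun φ hφ => ?_
      obtain ⟨i, -, hi'⟩ := List.mem_flatMap.1 hφ
      exact (hrel i x (y0 i)).and.1 (hi i) φ hi'
    · intro hi i
      refine (hrel i x (y0 i)).and.2 fun φ hφ => ?_
      exact forall_get.1 hi φ (List.mem_flatMap.2 ⟨i, List.mem_finRange i, hφ⟩)
  | disj m P ih =>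
    have hc : (Scheme.disj m P).cost = (∑ i, (P i).cost) + (3 * m + 5) := rfl
    rw [hc] at hA ⊢
    have hsub : ∀ i, NodeFine Z H d σ τ (P i) := fun i Q hQ => h Q
      (List.mem_cons_of_mem _ (List.mem_flatMap.2 ⟨i, List.mem_finRange i, hQ⟩))
    have hsum : ∑ i, (P i).cost * T = (∑ i, (P i).cost) * T := (Finset.sum_mul _ _ _).symm
    have hle : ∀ i, (P i).cost * T ≤ ∑ i, (P i).cost * T := fun i =>
      single_le_sum (f := fun i => (P i).cost * T) (fun _ _ => Nat.zero_le _) (mem_univ i)
    rw [← hT] at hA hA4 ih ⊢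
    have e1 : ((∑ i, (P i).cost) + (3 * m + 5)) * T =
        (∑ i, (P i).cost) * T + ((3 * m + 1) * T + 4 * T) := by ring
    rw [e1] at hA ⊢
    have ih' := fun i => ih i (hsub i) (by have := hle i; omega)
    choose B hB hrel using ih'
    obtain ⟨h1, h3, -⟩ := h _ (Scheme.self_mem_subs _)
    have hΛ : Fine Z H d ((Scheme.disj m P).args σ τ) := by
      intro φ hφ
      obtain ⟨i, -, hi⟩ := List.mem_flatMap.1 hφ
      exact (hsub i _ (Scheme.self_mem_subs _)).1 φ hi
    obtain ⟨hd, hcl⟩ := h1 _ (List.mem_singleton.2 rfl)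
    have cB := hZ.iUnion hB (by rw [hsum]; omega)
    have c1 := hZ.cov_concat hH hk (L := fun i => pos H ((P i).inst σ τ)) (d := d)
      (fun i => pos_bin hH _) (fun i => pos_mem hH hk fun φ hφ =>
        ((hsub i _ (Scheme.self_mem_subs _)).1 φ hφ).1)
      (fun i => ((hsub i).clean hH).1) (by rw [← pos_flatMap]; exact h3)
      (by rw [← hT]; omega) (by rw [← hT]; omega)
    have c2 := hZ.cov_disj hH hk hΛ hd hcl h3 (by rw [← hT]; omega)
    rw [← hT] at c1 c2
    rw [hsum] at cB
    refine ⟨_, (hZ.union cB (hZ.union c1 c2 (by omega)) (by omega)), fun x hx => ?_⟩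
    rw [Set.mem_union, Set.mem_union, not_or, not_or] at hx
    obtain ⟨x0, x1, x2⟩ := hx
    have y1 := not_not.1 x1
    have y2 := not_not.1 x2
    have y0 : ∀ i, x ∉ B i := fun i hi => x0 (Set.mem_iUnion.2 ⟨i, hi⟩)
    refine rel_single hH ?_
    change pv H (disjL ((Scheme.disj m P).args σ τ)) x = 1 ↔
      (disjL ((List.finRange m).flatMap fun i => cinst H σ τ x (P i))).eval p x
    rw [y2]
    have e2 : pos H ((Scheme.disj m P).args σ τ) =
        (List.finRange m).flatMap fun i => pos H ((P i).inst σ τ) := pos_flatMap _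
    rw [e2]
    have hb := hH.bin (L := (List.finRange m).flatMap fun i => pos H ((P i).inst σ τ))
      (by rw [← e2]; exact pos_bin hH _) x
    constructor
    · intro hi
      have h5 : ¬ ∀ i, H (pos H ((P i).inst σ τ)) x = 1 := by
        rw [← y1]
        intro h6
        rw [h6, sub_self] at hi
        exact zero_ne_one hi
      push Not at h5
      obtain ⟨i, hi5⟩ := h5
      rw [Ne, (hrel i x (y0 i)).or] at hi5
      push Not at hi5
      obtain ⟨φ, hφ, hev⟩ := hi5
      have hmem : φ ∈ (List.finRange m).flatMap fun i => cinst H σ τ x (P i) :=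
        List.mem_flatMap.2 ⟨i, List.mem_finRange i, hφ⟩
      obtain ⟨j, hj⟩ := List.get_of_mem hmem
      exact ⟨j, by
        show (((List.finRange m).flatMap fun i => cinst H σ τ x (P i)).get j).eval p x
        rw [hj]
        exact hev⟩
    · rintro ⟨j, hj⟩
      have hmem := List.get_mem ((List.finRange m).flatMap fun i => cinst H σ τ x (P i)) j
      obtain ⟨i, -, hi⟩ := List.mem_flatMap.1 hmem
      have h5 : H (pos H ((P i).inst σ τ)) x ≠ 1 := by
        intro h6
        exact (hrel i x (y0 i)).or.1 h6 _ hi hj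
      have h6 : H ((List.finRange m).flatMap fun i => pos H ((P i).inst σ τ)) x ≠ 1 := by
        intro h7
        exact h5 (y1.1 h7 i)
      rw [hb.resolve_right h6, sub_zero]
  | count r m P ih =>
    have hc : (Scheme.count r m P).cost = ∑ i, (P i).cost := rfl
    rw [hc] at hA ⊢
    have hsub : ∀ i, NodeFine Z H d σ τ (P i) := fun i Q hQ => h Q
      (List.mem_cons_of_mem _ (List.mem_flatMap.2 ⟨i, List.mem_finRange i, hQ⟩))
    have hsum : ∑ i, (P i).cost * T = (∑ i, (P i).cost) * T := (Finset.sum_mul _ _ _).symm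
    have hle : ∀ i, (P i).cost * T ≤ ∑ i, (P i).cost * T := fun i =>
      single_le_sum (f := fun i => (P i).cost * T) (fun _ _ => Nat.zero_le _) (mem_univ i)
    rw [← hT] at hA hA4 ih ⊢
    have ih' := fun i => ih i (hsub i) (by have := hle i; omega)
    choose B hB hrel using ih'
    have cB := hZ.iUnion hB (by rw [hsum]; omega)
    rw [hsum] at cB
    refine ⟨_, cB, fun x hx => ?_⟩
    have y0 : ∀ i, x ∉ B i := fun i hi => hx (Set.mem_iUnion.2 ⟨i, hi⟩)
    refine rel_single hH ?_
    obtain ⟨Λ, hΛ⟩ : ∃ Λ, Λ = (List.finRange m).flatMap fun i => (P i).inst σ τ := ⟨_, rfl⟩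
    obtain ⟨Λ', hΛ'⟩ : ∃ Λ', Λ' = (List.finRange m).flatMap fun i => cinst H σ τ x (P i) :=
      ⟨_, rfl⟩
    have h1 : ((pos H Λ).map fun g => g x).sum = ((ct p x Λ' : ℕ) : K) := by
      rw [hΛ, hΛ', ct_flatMap, pos_flatMap, List.map_flatMap, sum_flatMap, Nat.cast_sum]
      exact sum_congr rfl fun i _ => (hrel i x (y0 i)).sum
    have h2 : ((pos H Λ).map fun g => g x).sum = ∑ i, pv H (Λ.get i) x := by
      unfold pos
      rw [List.map_map, ← List.sum_ofFn, List.ofFn_eq_map]
      conv_lhs => rw [← List.map_get_finRange Λ]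
      rw [List.map_map]
      rfl
    have h3 : pv H (countL r Λ) x = if (∑ i, pv H (Λ.get i) x) - (r : K) = 0 then 1 else 0 := by
      unfold countL
      rw [pv_count, cf_apply]
      have h4 : ((∑ i, pv H (Λ.get i)) - (r : Fun K V)) x = (∑ i, pv H (Λ.get i) x) - (r : K) := by
        rw [Pi.sub_apply, Finset.sum_apply]
        rfl
      rw [h4]
    have h5 : ((Scheme.count r m P).inst σ τ) = [countL r Λ] := by rw [hΛ]; rfl
    show pv H (countL r ((List.finRange m).flatMap fun i => (P i).inst σ τ)) x = 1 ↔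
      (countL r ((List.finRange m).flatMap fun i => cinst H σ τ x (P i))).eval p x
    rw [← hΛ, ← hΛ', h3, ← h2, h1]
    have h6 : (countL r Λ').eval p x ↔ Nat.ModEq p (ct p x Λ') r := by
      rw [← ncard_get]
      exact Iff.rfl
    rw [h6]
    by_cases h7 : ((ct p x Λ' : ℕ) : K) - (r : K) = 0
    · rw [if_pos h7]
      refine ⟨fun _ => ?_, fun _ => rfl⟩
      rw [sub_eq_zero] at h7
      exact (CharP.natCast_eq_natCast K p).1 h7
    · rw [if_neg h7]
      refine ⟨fun h8 => absurd h8 zero_ne_one, fun h8 => ?_⟩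
      exact absurd (sub_eq_zero.2 ((CharP.natCast_eq_natCast K p).2 h8)) h7

end Pool.Agent.MP_9cec2c_lc.FG
end

section

/-!
Soundness of the rules: the negation of the value of the conclusion acts as zero.
-/

set_option autoImplicit false
set_option linter.unusedSectionVars false

namespace Pool.Agent.MP_9cec2c_lc.FG

open Finset Frege

variable {K V : Type} [Field K] [Fintype K] {A k d p : ℕ} {Z : Submodule K (Fun K V)}
  {H : List (Fun K V) → Fun K V} {σ : ℕ → Form V} {τ : ℕ → List (Form V)}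

/-- The cost of a rule. -/
def Rule.cost (R : Rule) : ℕ := (R.premises.map fun P => P.cost + 1).sum + R.conclusion.cost

/-- The premises of a rule. -/
theorem Kill.prems [CharP K p] (hZ : Kill A Z) (hH : Choice k H) (hk : 1 ≤ k)
    (hA4 : 4 * deg K k (d + 1) ≤ A) (Ps : List Scheme)
    (hN : ∀ P ∈ Ps, NodeFine Z H d σ τ P)
    (hA : (Ps.map fun P => P.cost + 1).sum * deg K k (d + 1) ≤ A)
    (h0 : ∀ P ∈ Ps, ∀ ψ ∈ P.inst σ τ, 1 - pv H ψ ∈ Z) :
    ∃ B, Cov Z ((Ps.map fun P => P.cost + 1).sum * deg K k (d + 1)) B ∧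
      ∀ x ∉ B, ∀ P ∈ Ps, ∀ φ ∈ cinst H σ τ x P, φ.eval p x := by
  obtain ⟨T, hT⟩ : ∃ T, T = deg K k (d + 1) := ⟨_, rfl⟩
  induction Ps with
  | nil =>
    exact ⟨∅, cov_empty.mono (Nat.zero_le _) subset_rfl, fun x _ P hP =>
      absurd hP List.not_mem_nil⟩
  | cons P Ps ih =>
    rw [List.map_cons, List.sum_cons] at hA ⊢
    rw [← hT] at hA hA4 ih ⊢
    have e1 : (P.cost + 1 + (Ps.map fun P => P.cost + 1).sum) * T =
        P.cost * T + T + (Ps.map fun P => P.cost + 1).sum * T := by ring
    rw [e1] at hA ⊢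
    obtain ⟨B, hB, hx⟩ := ih (fun Q hQ => hN Q (List.mem_cons_of_mem _ hQ)) (by omega)
      (fun Q hQ => h0 Q (List.mem_cons_of_mem _ hQ))
    have hNP := hN P List.mem_cons_self
    obtain ⟨B', hB', hx'⟩ := hZ.node (p := p) hH hk hNP (by rw [← hT]; omega)
      (by rw [← hT]; omega)
    rw [← hT] at hB'
    have hd : ∀ φ ∈ P.inst σ τ, φ.depth ≤ d := fun φ hφ =>
      ((hNP _ (Scheme.self_mem_subs _)).1 φ hφ).1
    have hm := hH.mem_deg (neg_bin hH (P.inst σ τ)) (neg_mem hH hk hd)
    have h1 : 1 - H (neg H (P.inst σ τ)) ∈ Z := by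
      have h2 := hZ.list hH (neg_bin hH (P.inst σ τ)) (neg_mem hH hk hd)
        (Frege.one_mem (K := K) (V := V) 0) (by rw [← deg_succ, ← hT]; omega) (by
          intro g hg
          obtain ⟨ψ, hψ, rfl⟩ := List.mem_map.1 hg
          rw [mul_one]
          exact h0 P List.mem_cons_self ψ hψ)
      rwa [mul_one] at h2
    have c1 := cov_of (bin_one_sub (hH.bin (neg_bin hH (P.inst σ τ))))
      (Submodule.sub_mem _ (Frege.one_mem _) hm) h1
    rw [← hT] at c1
    refine ⟨_, hZ.union (hZ.union hB' c1 (by omega)) hB (by omega), fun x hxB => ?_⟩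
    rw [Set.mem_union, Set.mem_union, not_or, not_or] at hxB
    obtain ⟨⟨x1, x2⟩, x3⟩ := hxB
    intro Q hQ
    rcases List.mem_cons.1 hQ with rfl | hQ
    · have h3 : H (neg H (Q.inst σ τ)) x = 1 := by
        have h4 : (1 - H (neg H (Q.inst σ τ))) x = 0 := by
          by_contra h5
          exact x2 h5
        rw [Pi.sub_apply, Pi.one_apply, sub_eq_zero] at h4
        exact h4.symm
      exact (hx' x x1).and.1 h3
    · exact hx x x3 Q hQ

/-- Soundness of a rule. -/
theorem Kill.rule [CharP K p] (hZ : Kill A Z) (hH : Choice k H) (hk : 1 ≤ k) {R : Rule}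
    (hR : R.Sound p) (hN : ∀ P ∈ R.premises, NodeFine Z H d σ τ P)
    (hNc : NodeFine Z H d σ τ R.conclusion)
    (hA : (R.cost + 5) * deg K k (d + 1) ≤ A)
    (h0 : ∀ P ∈ R.premises, ∀ ψ ∈ P.inst σ τ, 1 - pv H ψ ∈ Z) {φ : Form V}
    (hφ : R.conclusion.inst σ τ = [φ]) : 1 - pv H φ ∈ Z := by
  obtain ⟨T, hT⟩ : ∃ T, T = deg K k (d + 1) := ⟨_, rfl⟩
  have e1 : (R.cost + 5) * T = (R.premises.map fun P => P.cost + 1).sum * T +
      R.conclusion.cost * T + 5 * T := by
    unfold Rule.cost
    ring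
  have hA' : (R.premises.map fun P => P.cost + 1).sum * T + R.conclusion.cost * T + 5 * T ≤ A := by
    rw [← e1, hT]
    exact hA
  obtain ⟨B, hB, hx⟩ := hZ.prems (p := p) hH hk (by rw [← hT]; omega) R.premises hN
    (by rw [← hT]; omega) h0
  obtain ⟨B', hB', hx'⟩ := hZ.node (p := p) hH hk hNc (by rw [← hT]; omega)
    (by rw [← hT]; omega)
  have hd : φ.depth ≤ d :=
    ((hNc _ (Scheme.self_mem_subs _)).1 φ (by rw [hφ]; exact List.mem_singleton.2 rfl)).1
  have hT1 : deg K k d ≤ T := hT ▸ deg_mono hk (Nat.le_add_right d 1)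
  rw [← hT] at hB hB'
  refine hZ.mem_of_cov (hZ.union hB hB' (by omega)) (e := deg K k d)
    (Submodule.sub_mem _ (Frege.one_mem _) (pv_mem hH hk hd)) (fun x hxB => ?_) (by omega)
  rw [Set.mem_union, not_or] at hxB
  have h1 := hR V _ _ x (hx x hxB.1)
  have h2 := (hx' x hxB.2).and.2 h1
  rw [hφ] at h2
  have h3 : H (neg H [φ]) = 1 - (1 - pv H φ) := hH.one _ (bin_one_sub (bin_all hH φ).1)
  rw [h3, Pi.sub_apply, Pi.one_apply, sub_eq_self] at h2
  exact h2

/-! ### Subformulas -/

theorem self_mem_parts (φ : Form V) : φ ∈ φ.parts := by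
  cases φ with
  | var v => exact Set.mem_singleton _
  | _ => exact Set.mem_insert _ _

theorem parts_trans {φ ψ χ : Form V} (h : φ ∈ ψ.parts) (h' : ψ ∈ χ.parts) : φ ∈ χ.parts := by
  induction χ with
  | var v =>
    rw [Set.mem_singleton_iff.1 h'] at h
    exact h
  | neg χ ih =>
    rcases Set.mem_insert_iff.1 h' with rfl | h1
    · exact h
    · exact Set.mem_insert_of_mem _ (ih h1)
  | conj m F ih =>
    rcases Set.mem_insert_iff.1 h' with rfl | h1
    · exact h
    · obtain ⟨i, hi⟩ := Set.mem_iUnion.1 h1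
      exact Set.mem_insert_of_mem _ (Set.mem_iUnion.2 ⟨i, ih i hi⟩)
  | disj m F ih =>
    rcases Set.mem_insert_iff.1 h' with rfl | h1
    · exact h
    · obtain ⟨i, hi⟩ := Set.mem_iUnion.1 h1
      exact Set.mem_insert_of_mem _ (Set.mem_iUnion.2 ⟨i, ih i hi⟩)
  | count r m F ih =>
    rcases Set.mem_insert_iff.1 h' with rfl | h1
    · exact h
    · obtain ⟨i, hi⟩ := Set.mem_iUnion.1 h1
      exact Set.mem_insert_of_mem _ (Set.mem_iUnion.2 ⟨i, ih i hi⟩)

theorem parts_finite (φ : Form V) : φ.parts.Finite := by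
  induction φ with
  | var v => exact Set.finite_singleton _
  | neg χ ih => exact ih.insert _
  | conj m F ih => exact (Set.finite_iUnion ih).insert _
  | disj m F ih => exact (Set.finite_iUnion ih).insert _
  | count r m F ih => exact (Set.finite_iUnion ih).insert _

theorem depth_parts {φ ψ : Form V} (h : φ ∈ ψ.parts) : φ.depth ≤ ψ.depth := by
  classical
  induction ψ with
  | var v => rw [Set.mem_singleton_iff.1 h]
  | neg χ ih =>
    rcases Set.mem_insert_iff.1 h with rfl | h1
    · exact le_rfl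
    · exact ih h1
  | conj m F ih =>
    rcases Set.mem_insert_iff.1 h with rfl | h1
    · exact le_rfl
    · obtain ⟨i, hi⟩ := Set.mem_iUnion.1 h1
      have h2 := le_sup (f := fun i => (F i).depth + if (F i).IsConj then 0 else 1) (mem_univ i)
      exact (ih i hi).trans ((Nat.le_add_right _ _).trans h2)
  | disj m F ih =>
    rcases Set.mem_insert_iff.1 h with rfl | h1
    · exact le_rfl
    · obtain ⟨i, hi⟩ := Set.mem_iUnion.1 h1
      have h2 := le_sup (f := fun i => (F i).depth + if (F i).IsDisj then 0 else 1) (mem_univ i)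
      exact (ih i hi).trans ((Nat.le_add_right _ _).trans h2)
  | count r m F ih =>
    rcases Set.mem_insert_iff.1 h with rfl | h1
    · exact le_rfl
    · obtain ⟨i, hi⟩ := Set.mem_iUnion.1 h1
      have h2 := le_sup (f := fun i => (F i).depth + 1) (mem_univ i)
      exact (ih i hi).trans ((Nat.le_add_right _ _).trans h2)

/-- The formulas of an instance of a subscheme are subformulas of those of the scheme. -/
theorem inst_parts {P Q : Scheme} (hQ : Q ∈ P.subs) {φ : Form V} (hφ : φ ∈ Q.inst σ τ) :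
    ∃ χ ∈ P.inst σ τ, φ ∈ χ.parts := by
  have key : ∀ (Λ : List (Form V)) (χ : Form V), χ ∈ Λ → φ ∈ χ.parts →
      φ ∈ (conjL Λ).parts ∧ φ ∈ (disjL Λ).parts ∧ ∀ r, φ ∈ (countL r Λ).parts := by
    intro Λ χ hχ hφ
    obtain ⟨i, hi⟩ := List.get_of_mem hχ
    have h1 : φ ∈ ⋃ i, (Λ.get i).parts := Set.mem_iUnion.2 ⟨i, by rwa [hi]⟩
    exact ⟨Set.mem_insert_of_mem _ h1, Set.mem_insert_of_mem _ h1,
      fun r => Set.mem_insert_of_mem _ h1⟩
  induction P with
  | form i =>
    rw [List.mem_singleton.1 hQ] at hφ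
    exact ⟨φ, hφ, self_mem_parts φ⟩
  | list i =>
    rw [List.mem_singleton.1 hQ] at hφ
    exact ⟨φ, hφ, self_mem_parts φ⟩
  | neg P ih =>
    rcases List.mem_cons.1 hQ with rfl | h1
    · exact ⟨φ, hφ, self_mem_parts φ⟩
    · obtain ⟨χ, h2, h3⟩ := ih h1
      exact ⟨.neg χ, List.mem_map.2 ⟨χ, h2, rfl⟩, Set.mem_insert_of_mem _ h3⟩
  | conj m P ih =>
    rcases List.mem_cons.1 hQ with rfl | h1
    · exact ⟨φ, hφ, self_mem_parts φ⟩
    · obtain ⟨i, hi, hi'⟩ := List.mem_flatMap.1 h1
      obtain ⟨χ, h2, h3⟩ := ih i hi'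
      exact ⟨_, List.mem_singleton.2 rfl, (key _ χ (List.mem_flatMap.2 ⟨i, hi, h2⟩) h3).1⟩
  | disj m P ih =>
    rcases List.mem_cons.1 hQ with rfl | h1
    · exact ⟨φ, hφ, self_mem_parts φ⟩
    · obtain ⟨i, hi, hi'⟩ := List.mem_flatMap.1 h1
      obtain ⟨χ, h2, h3⟩ := ih i hi'
      exact ⟨_, List.mem_singleton.2 rfl, (key _ χ (List.mem_flatMap.2 ⟨i, hi, h2⟩) h3).2.1⟩
  | count r m P ih =>
    rcases List.mem_cons.1 hQ with rfl | h1
    · exact ⟨φ, hφ, self_mem_parts φ⟩
    · obtain ⟨i, hi, hi'⟩ := List.mem_flatMap.1 h1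
      obtain ⟨χ, h2, h3⟩ := ih i hi'
      exact ⟨_, List.mem_singleton.2 rfl, (key _ χ (List.mem_flatMap.2 ⟨i, hi, h2⟩) h3).2.2 r⟩

end Pool.Agent.MP_9cec2c_lc.FG
end

section

/-!
The choice of the approximations and of the vector on which they are correct. The axioms.
-/

set_option autoImplicit false
set_option linter.unusedSectionVars false

namespace Pool.Agent.MP_9cec2c_lc.FG

open Finset Frege

section choice

variable {K V W : Type} [Field K] [AddCommGroup W] [Module K W] [Fintype K]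
  [FiniteDimensional K W] {M : ℕ → Submodule K W} {act : Fun K V →ₗ[K] W →ₗ[K] W} {A a₀ k : ℕ}
  {ρ : ℝ}

/-- The function `h` is a good approximation for the list `L`. -/
def Apx (M : ℕ → Submodule K W) (act : Fun K V →ₗ[K] W →ₗ[K] W) (a₀ k : ℕ) (ρ : ℝ)
    (L : List (Fun K V)) (h : Fun K V) : Prop :=
  Hor k {g | g ∈ L} h ∧ (rk M act L.get h a₀ : ℝ) ≤ ρ * Module.finrank K (M a₀) ∧
    ∀ g, L = [g] → h = 1 - g

open Classical in
/-- The choice of an approximation for the list `L`. -/
noncomputable def apx (M : ℕ → Submodule K W) (act : Fun K V →ₗ[K] W →ₗ[K] W) (a₀ k : ℕ) (ρ : ℝ)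
    (L : List (Fun K V)) : Fun K V :=
  if h : ∃ h, Apx M act a₀ k ρ L h then h.choose else 1

theorem apx_spec {L : List (Fun K V)} (h : ∃ h, Apx M act a₀ k ρ L h) :
    Apx M act a₀ k ρ L (apx M act a₀ k ρ L) := by
  classical
  unfold apx
  rw [dif_pos h]
  exact h.choose_spec

theorem hor_single (hk : 1 ≤ k) {g : Fun K V} (hg : Bin g) : Hor k {g' | g' ∈ [g]} (1 - g) := by
  classical
  obtain ⟨k', rfl⟩ : ∃ k', k = k' + 1 := ⟨k - 1, by omega⟩
  refine ⟨Fin.cons g fun _ => 0, fun j => ?_, ?_⟩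
  · refine Fin.cases ?_ (fun j => ?_) j
    · rw [Fin.cons_zero]
      exact Submodule.subset_span (List.mem_singleton.2 rfl)
    · rw [Fin.cons_succ]
      exact Submodule.zero_mem _
  · rw [Fin.prod_univ_succ, Fin.cons_zero]
    have h1 : cf (0 : Fun K V) = 1 := by
      unfold cf
      rw [zero_pow card_sub_pos.ne', sub_zero]
    have h2 : (∏ i : Fin k', cf ((Fin.cons g fun _ => 0 : Fin (k' + 1) → Fun K V) i.succ)) = 1 := by
      refine prod_eq_one fun j _ => ?_
      rw [Fin.cons_succ, h1]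
    rw [h2, mul_one]
    funext x
    rw [cf_apply, Pi.sub_apply, Pi.one_apply]
    rcases hg x with h | h
    · rw [if_pos h, h, sub_zero]
    · rw [if_neg (by rw [h]; exact one_ne_zero), h, sub_self]

theorem exists_apx_single (hk : 1 ≤ k) (hρ : 0 ≤ ρ) {g : Fun K V} (hg : Bin g) :
    ∃ h, Apx M act a₀ k ρ [g] h := by
  refine ⟨1 - g, hor_single hk hg, ?_, fun g' hg' => ?_⟩
  · have h1 : rk M act [g].get (1 - g) a₀ = 0 := by
      unfold rk
      have h2 : tot act [g].get (1 - g) = 0 := by
        refine LinearMap.ext fun w => ?_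
        refine (tot_eq_zero (act := act)).2 fun i => ?_
        have h3 : [g].get i = g := List.mem_singleton.1 (List.get_mem [g] i)
        rw [h3, mul_sub, mul_one, hg.mul_self, sub_self, map_zero, LinearMap.zero_apply]
      rw [h2, Submodule.map_zero, finrank_bot]
    rw [h1, Nat.cast_zero]
    positivity
  · rw [List.singleton_inj.1 hg']

theorem apx_choice (hk : 1 ≤ k) (hρ : 0 ≤ ρ) : Choice k (apx M act a₀ k ρ : List (Fun K V) → _) := by
  classical
  constructor
  · intro L _
    by_cases h : ∃ h, Apx M act a₀ k ρ L h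
    · exact (apx_spec h).1
    · unfold apx
      rw [dif_neg h]
      exact hor_one _ _
  · intro g hg
    exact (apx_spec (exists_apx_single hk hρ hg)).2.2 g rfl

theorem exists_apx (hW : World M act A) {t m : ℕ} {Λ C : ℝ} (hΛ : 1 / 2 ≤ Λ) (hC : 0 ≤ C)
    (hk : 1 ≤ k) {L : List (Fun K V)} (hb : ∀ g ∈ L, Bin g) (ht : ∀ g ∈ L, g ∈ Pol K V t)
    (hA : a₀ + (m + 1 + k * (Fintype.card K - 1)) * t ≤ A)
    (hgrow : ∀ j ≤ m, (Module.finrank K (M (a₀ + j * t)) : ℝ) ≤
      C * (Λ / 2) ^ j * Module.finrank K (M a₀)) :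
    ∃ h, Apx M act a₀ k (2 * C * (1 - 1 / (2 * Λ)) ^ k + C / 2 ^ m) L h := by
  classical
  have hΛ0 : 0 < Λ := by linarith
  have hθ : 0 ≤ 1 - 1 / (2 * Λ) := by
    rw [sub_nonneg, div_le_one (by positivity)]
    linarith
  by_cases h1 : ∃ g, L = [g]
  · obtain ⟨g, rfl⟩ := h1
    exact exists_apx_single hk (by positivity) (hb g (List.mem_singleton.2 rfl))
  · obtain ⟨h, hh, hr⟩ := exists_hor hW (g := L.get) hΛ hC (fun i => ht _ (List.get_mem L i))
      (fun i => hb _ (List.get_mem L i)) k hA hgrow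
    refine ⟨h, ?_, hr, fun g hg => absurd ⟨g, hg⟩ h1⟩
    have h2 : Set.range L.get = {g | g ∈ L} := by
      ext g
      constructor
      · rintro ⟨i, rfl⟩
        exact List.get_mem L i
      · intro hg
        exact List.get_of_mem hg
    rwa [h2] at hh

/-- A vector on which finitely many approximations are correct. -/
theorem exists_vector (𝓛 : Finset (List (Fun K V)))
    (h𝓛 : ∀ L ∈ 𝓛, ∃ h, Apx M act a₀ k ρ L h) (hρ : 𝓛.card * ρ < 1)
    (hpos : 0 < Module.finrank K (M a₀)) :
    ∃ f ∈ M a₀, f ≠ 0 ∧ ∀ L ∈ 𝓛, ∀ g ∈ L, act (g * apx M act a₀ k ρ L) f = 0 := by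
  classical
  obtain ⟨F, hF⟩ : ∃ F : List (Fun K V) → W →ₗ[K] (Fun K V → W), F = fun L =>
    LinearMap.pi fun g => if g ∈ L then act (g * apx M act a₀ k ρ L) else 0 := ⟨_, rfl⟩
  have hF0 : ∀ L w, F L w = 0 ↔ ∀ g ∈ L, act (g * apx M act a₀ k ρ L) w = 0 := by
    intro L w
    rw [hF]
    constructor
    · intro h g hg
      have h1 := congrFun h g
      rw [LinearMap.pi_apply, if_pos hg] at h1
      exact h1
    · intro h
      funext g
      rw [LinearMap.pi_apply]
      by_cases hg : g ∈ L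
      · rw [if_pos hg, h g hg]
        rfl
      · rw [if_neg hg]
        rfl
  have hle : ∀ L ∈ 𝓛, (Module.finrank K ((M a₀).map (F L)) : ℝ) ≤
      ρ * Module.finrank K (M a₀) := by
    intro L hL
    refine le_trans ?_ (apx_spec (h𝓛 L hL)).2.1
    have h1 : Module.finrank K ((M a₀).map (F L)) ≤
        Module.finrank K ((M a₀).map (tot act L.get (apx M act a₀ k ρ L))) := by
      refine finrank_map_le_of_ker _ _ _ fun x _ h0 => ?_
      rw [tot_eq_zero] at h0
      rw [hF0]
      intro g hg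
      obtain ⟨i, hi⟩ := List.get_of_mem hg
      rw [← hi]
      exact h0 i
    exact_mod_cast h1
  have hlt : ∑ L ∈ 𝓛, Module.finrank K ((M a₀).map (F L)) < Module.finrank K (M a₀) := by
    have h1 : (∑ L ∈ 𝓛, Module.finrank K ((M a₀).map (F L)) : ℝ) ≤
        ∑ _L ∈ 𝓛, ρ * Module.finrank K (M a₀) := sum_le_sum hle
    rw [sum_const, nsmul_eq_mul] at h1
    have h2 : (𝓛.card : ℝ) * (ρ * Module.finrank K (M a₀)) < Module.finrank K (M a₀) := by
      rw [← mul_assoc]
      have h3 : (0 : ℝ) < Module.finrank K (M a₀) := by exact_mod_cast hpos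
      calc (𝓛.card : ℝ) * ρ * Module.finrank K (M a₀) < 1 * Module.finrank K (M a₀) :=
            mul_lt_mul_of_pos_right hρ h3
        _ = _ := one_mul _
    have h3 := h1.trans_lt h2
    exact_mod_cast h3
  obtain ⟨f, hf, hf0, hf1⟩ := exists_common_zero 𝓛 (M a₀) F hlt
  exact ⟨f, hf, hf0, fun L hL => (hF0 L f).1 (hf1 L hL)⟩

/-- The functions that act as zero on a vector. -/
theorem kill_of_world (hW : World M act A) {f : W} (ha : a₀ ≤ A) (hf : f ∈ M a₀) (hf0 : f ≠ 0) :
    Kill (A - a₀) (LinearMap.ker (act.flip f)) := by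
  constructor
  · intro e e' P Q hP hQ hQ0 hA
    rw [LinearMap.mem_ker, LinearMap.flip_apply] at hQ0 ⊢
    rw [hW.act_mul a₀ e e' P Q f (by omega) hP hQ hf, hQ0, map_zero]
  · rw [LinearMap.mem_ker, LinearMap.flip_apply, hW.act_one a₀ f ha hf]
    exact hf0

end choice

/-! ### Clauses -/

variable {K V : Type} [Field K] [Fintype K] {A k d p w : ℕ} {Z : Submodule K (Fun K V)}
  {H : List (Fun K V) → Fun K V}

open Classical in
/-- The indicator function of the assignments that falsify a clause. -/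
noncomputable def fals (K : Type) [Field K] {V : Type} (C : List (V × Bool)) : Fun K V :=
  fun x => if ∀ l ∈ C, x l.1 ≠ l.2 then 1 else 0

theorem lit_apply (l : V × Bool) (x : V → Bool) :
    (1 - pv H (lit l)) x = if x l.1 ≠ l.2 then 1 else 0 := by
  obtain ⟨v, b⟩ := l
  cases b
  · show 1 - (1 - (if x v = true then (1 : K) else 0)) = _
    by_cases h : x v = true
    · rw [if_pos h, if_pos (by rw [h]; exact Bool.noConfusion)]
      ring
    · rw [if_neg h, if_neg (by simpa using h)]
      ring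
  · show 1 - (if x v = true then (1 : K) else 0) = _
    by_cases h : x v = true
    · rw [if_pos h, if_neg (by simpa using h)]
      ring
    · rw [if_neg h, if_pos h]
      ring

theorem fals_eq (C : List (V × Bool)) :
    fals K C = (C.map fun l => 1 - pv H (lit l)).prod := by
  classical
  funext x
  induction C with
  | nil =>
    rw [List.map_nil, List.prod_nil]
    exact if_pos fun l hl => absurd hl List.not_mem_nil
  | cons l C ih =>
    rw [List.map_cons, List.prod_cons, Pi.mul_apply, ← ih, lit_apply]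
    unfold fals
    by_cases h1 : x l.1 ≠ l.2
    · rw [if_pos h1, one_mul]
      by_cases h2 : ∀ l ∈ C, x l.1 ≠ l.2
      · rw [if_pos h2, if_pos]
        intro l' hl'
        rcases List.mem_cons.1 hl' with rfl | hl'
        · exact h1
        · exact h2 l' hl'
      · rw [if_neg h2, if_neg]
        exact fun h3 => h2 fun l' hl' => h3 l' (List.mem_cons_of_mem _ hl')
    · rw [if_neg h1, zero_mul, if_neg]
      exact fun h3 => h1 (h3 l List.mem_cons_self)

theorem lit_not_disj (l : V × Bool) : ¬ (lit l).IsDisj := by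
  obtain ⟨v, b⟩ := l
  cases b <;> exact id

theorem orl_clause (C : List (V × Bool)) (g : Fun K V) :
    g ∈ orl H (clause C) ↔ ∃ l ∈ C, g = pv H (lit l) := by
  unfold clause
  rw [orl_disjL]
  constructor
  · rintro ⟨φ, hφ, hg⟩
    obtain ⟨l, hl, rfl⟩ := List.mem_map.1 hφ
    rw [orl_of_not (lit_not_disj l)] at hg
    exact ⟨l, hl, List.mem_singleton.1 hg⟩
  · rintro ⟨l, hl, rfl⟩
    refine ⟨_, List.mem_map.2 ⟨l, hl, rfl⟩, ?_⟩
    rw [orl_of_not (lit_not_disj l)]
    exact List.mem_singleton.2 rfl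

theorem lit_mem (hH : Choice k H) (hk : 1 ≤ k) (l : V × Bool) : pv H (lit l) ∈ Pol K V 1 := by
  have h1 := pv_mem (d := 0) hH hk (φ := lit l) (by
    obtain ⟨v, b⟩ := l
    cases b <;> exact le_rfl)
  rwa [show deg K k 0 = 1 from pow_zero _] at h1

/-- If the falsification of a clause acts as zero, then so does the negation of its value. -/
theorem Kill.clause (hZ : Kill A Z) (hH : Choice k H) (hk : 1 ≤ k) {C : List (V × Bool)}
    (hc : Clean Z H (orl H (FG.clause C))) (hw : C.length ≤ w) (h0 : fals K C ∈ Z)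
    (hA : k * (Fintype.card K - 1) + 1 + w ≤ A) : 1 - pv H (FG.clause C) ∈ Z := by
  have hd : ∀ g ∈ orl H (FG.clause C), g ∈ Pol K V 1 := by
    intro g hg
    obtain ⟨l, -, rfl⟩ := (orl_clause C g).1 hg
    exact lit_mem hH hk l
  have hm : H (orl H (FG.clause C)) ∈ Pol K V (k * (Fintype.card K - 1)) := by
    have h1 := hH.mem (orl_bin hH _) hd
    rwa [mul_one] at h1
  have hP : ∀ C' : List (V × Bool), (C'.map fun l => 1 - pv H (lit l)).prod ∈
      Pol K V C'.length := by
    intro C'
    induction C' with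
    | nil => exact Frege.one_mem _
    | cons l C' ih =>
      rw [List.map_cons, List.prod_cons, List.length_cons, add_comm]
      exact Frege.mul_mem (Submodule.sub_mem _ (Frege.one_mem _) (lit_mem hH hk l)) ih
  have key : ∀ C' : List (V × Bool), (∀ l ∈ C', l ∈ C) → C'.length ≤ w →
      H (orl H (FG.clause C)) * (1 - (C'.map fun l => 1 - pv H (lit l)).prod) ∈ Z := by
    intro C'
    induction C' with
    | nil =>
      intro _ _
      rw [List.map_nil, List.prod_nil, sub_self, mul_zero]
      exact Z.zero_mem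
    | cons l C' ih =>
      intro hl hlen
      rw [List.length_cons] at hlen
      have h1 := ih (fun l' hl' => hl l' (List.mem_cons_of_mem _ hl')) (by omega)
      rw [List.map_cons, List.prod_cons]
      have h2 : H (orl H (FG.clause C)) * (1 - (1 - pv H (lit l)) *
          (C'.map fun l => 1 - pv H (lit l)).prod) =
          H (orl H (FG.clause C)) * (1 - (C'.map fun l => 1 - pv H (lit l)).prod) +
          (C'.map fun l => 1 - pv H (lit l)).prod * (pv H (lit l) * H (orl H (FG.clause C))) := by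
        ring
      rw [h2]
      refine Z.add_mem h1 (hZ.mul _ _ _ _ (hP C') (Frege.mul_mem (lit_mem hH hk l) hm) ?_ ?_)
      · exact hc _ ((orl_clause C _).2 ⟨l, hl l List.mem_cons_self, rfl⟩)
      · omega
  have h1 := key C (fun _ h => h) hw
  rw [← fals_eq] at h1
  have h2 : H (orl H (FG.clause C)) * fals K C ∈ Z := by
    refine hZ.mul _ w _ _ hm ?_ h0 (by omega)
    rw [fals_eq (H := H)]
    exact Pol_mono hw (hP C)
  have h3 : 1 - pv H (FG.clause C) = H (orl H (FG.clause C)) * (1 - fals K C) +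
      H (orl H (FG.clause C)) * fals K C := by
    have h4 : pv H (FG.clause C) = 1 - H (orl H (FG.clause C)) := pv_of_disj trivial
    rw [h4]
    ring
  rw [h3]
  exact Z.add_mem h1 h2

/-- If all clauses hold, then the formula in conjunctive normal form holds. -/
theorem Kill.cnf (hZ : Kill A Z) (hH : Choice k H) (hk : 1 ≤ k) {F : List (List (V × Bool))}
    (hd : (FG.cnf F).depth ≤ d) (hA : deg K k (d + 1) ≤ A)
    (h0 : ∀ C ∈ F, 1 - pv H (FG.clause C) ∈ Z) : 1 - pv H (FG.cnf F) ∈ Z := by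
  have h1 := hZ.pv_of_andl (φ := FG.cnf F) hH hk hd (Frege.one_mem (K := K) (V := V) 0)
    (by rwa [add_zero]) (by
      intro g hg
      obtain ⟨φ, hφ, hgφ⟩ := (andl_conjL _ g).1 hg
      obtain ⟨C, hC, rfl⟩ := List.mem_map.1 hφ
      rw [andl_of_not (show ¬ (FG.clause C).IsConj from id), List.map_cons, List.map_nil] at hgφ
      rw [List.mem_singleton.1 hgφ, mul_one]
      exact h0 C hC)
  rwa [mul_one] at h1

end Pool.Agent.MP_9cec2c_lc.FG
end

section

/-!
A finite set of sound schematic rules, and its soundness.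
-/

set_option autoImplicit false
set_option linter.unusedSectionVars false
set_option linter.unusedSimpArgs false

namespace Pool.Agent.MP_9cec2c_lc.FG

open Finset

variable {V : Type} {p : ℕ}

/-! ### Truth values of connectives of lists -/

theorem eval_disjL (x : V → Bool) (Λ : List (Form V)) :
    (disjL Λ).eval p x ↔ ∃ φ ∈ Λ, φ.eval p x := by
  constructor
  · rintro ⟨i, hi⟩
    exact ⟨_, List.get_mem Λ i, hi⟩
  · rintro ⟨φ, hφ, h⟩
    obtain ⟨i, hi⟩ := List.get_of_mem hφ
    exact ⟨i, by rwa [hi]⟩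

theorem eval_conjL (x : V → Bool) (Λ : List (Form V)) :
    (conjL Λ).eval p x ↔ ∀ φ ∈ Λ, φ.eval p x := by
  constructor
  · intro h φ hφ
    obtain ⟨i, hi⟩ := List.get_of_mem hφ
    rw [← hi]
    exact h i
  · intro h i
    exact h _ (List.get_mem Λ i)

theorem eval_countL (x : V → Bool) (r : ℕ) (Λ : List (Form V)) :
    (countL r Λ).eval p x ↔ Nat.ModEq p (ct p x Λ) r := by
  rw [← ncard_get]
  exact Iff.rfl

theorem ct_append (x : V → Bool) (Λ Λ' : List (Form V)) :
    ct p x (Λ ++ Λ') = ct p x Λ + ct p x Λ' := by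
  unfold ct
  rw [List.map_append, List.sum_append]

theorem ct_nil (x : V → Bool) : ct p x ([] : List (Form V)) = 0 := rfl

open Classical in
theorem ct_single (x : V → Bool) (φ : Form V) : ct p x [φ] = if φ.eval p x then 1 else 0 := by
  unfold ct
  rw [List.map_cons, List.map_nil, List.sum_cons, List.sum_nil, add_zero]

/-! ### The rules -/

/-- The disjunction of schemes. -/
def orS (Ps : List Scheme) : Scheme := .disj Ps.length Ps.get

/-- The conjunction of schemes. -/
def andS (Ps : List Scheme) : Scheme := .conj Ps.length Ps.get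

/-- The counting gate over schemes. -/
def modS (r : ℕ) (Ps : List Scheme) : Scheme := .count r Ps.length Ps.get

theorem flatMap_get {α β : Type} (l : List α) (f : α → List β) :
    ((List.finRange l.length).flatMap fun i => f (l.get i)) = l.flatMap f := by
  conv_rhs => rw [← List.map_get_finRange l]
  rw [List.flatMap_map]

theorem inst_orS (σ : ℕ → Form V) (τ : ℕ → List (Form V)) (Ps : List Scheme) :
    (orS Ps).inst σ τ = [disjL (Ps.flatMap fun P => P.inst σ τ)] := by
  have h : (orS Ps).inst σ τ =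
      [disjL ((List.finRange Ps.length).flatMap fun i => (Ps.get i).inst σ τ)] := rfl
  rw [h, flatMap_get Ps fun P => P.inst σ τ]

theorem inst_andS (σ : ℕ → Form V) (τ : ℕ → List (Form V)) (Ps : List Scheme) :
    (andS Ps).inst σ τ = [conjL (Ps.flatMap fun P => P.inst σ τ)] := by
  have h : (andS Ps).inst σ τ =
      [conjL ((List.finRange Ps.length).flatMap fun i => (Ps.get i).inst σ τ)] := rfl
  rw [h, flatMap_get Ps fun P => P.inst σ τ]

theorem inst_modS (σ : ℕ → Form V) (τ : ℕ → List (Form V)) (r : ℕ) (Ps : List Scheme) :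
    (modS r Ps).inst σ τ = [countL r (Ps.flatMap fun P => P.inst σ τ)] := by
  have h : (modS r Ps).inst σ τ =
      [countL r ((List.finRange Ps.length).flatMap fun i => (Ps.get i).inst σ τ)] := rfl
  rw [h, flatMap_get Ps fun P => P.inst σ τ]

/-- The formula metavariables. -/
abbrev fA : Scheme := .form 0
/-- The formula metavariables. -/
abbrev fB : Scheme := .form 1
/-- The list metavariables. -/
abbrev lG : Scheme := .list 0
/-- The list metavariables. -/
abbrev lM : Scheme := .list 1
/-- The list metavariables. -/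
abbrev lN : Scheme := .list 2

/-- Excluded middle. -/
def rEm : Rule := ⟨[], orS [lG, fA, lM, .neg fA]⟩
/-- Excluded middle. -/
def rEm' : Rule := ⟨[], orS [lG, .neg fA, lM, fA]⟩
/-- Double negation. -/
def rNeg : Rule := ⟨[orS [lG, fA]], orS [lG, .neg (.neg fA)]⟩
/-- A disjunction with a true member is true. -/
def rOr : Rule := ⟨[orS [lG, fA]], orS [lG, orS [lM, fA, lN]]⟩
/-- The empty disjunction is false. -/
def rOr0 : Rule := ⟨[], orS [lG, .neg (orS [])]⟩
/-- A disjunction of false formulas is false. -/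
def rOr1 : Rule := ⟨[orS [lG, .neg (orS [lM])], orS [lG, .neg fA]], orS [lG, .neg (orS [lM, fA])]⟩
/-- The empty conjunction is true. -/
def rAnd0 : Rule := ⟨[], orS [lG, andS []]⟩
/-- A conjunction of true formulas is true. -/
def rAnd1 : Rule := ⟨[orS [lG, andS [lM]], orS [lG, fA]], orS [lG, andS [lM, fA]]⟩
/-- A conjunction with a false member is false. -/
def rAnd : Rule := ⟨[orS [lG, .neg fA]], orS [lG, .neg (andS [lM, fA, lN])]⟩
/-- The empty counting gate. -/
def rMod0 : Rule := ⟨[], orS [lG, modS 0 []]⟩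
/-- One more true formula under a counting gate. -/
def rMod1 (p s : ℕ) : Rule :=
  ⟨[orS [lG, modS s [lM]], orS [lG, fA]], orS [lG, modS ((s + 1) % p) [lM, fA]]⟩
/-- One more false formula under a counting gate. -/
def rMod2 (s : ℕ) : Rule :=
  ⟨[orS [lG, modS s [lM]], orS [lG, .neg fA]], orS [lG, modS s [lM, fA]]⟩
/-- Two counting gates exclude one another. -/
def rMod3 (s t : ℕ) : Rule := ⟨[orS [lG, modS s [lM]]], orS [lG, .neg (modS t [lM])]⟩
/-- Distinction of two cases. -/
def rCut : Rule := ⟨[orS [fA, lG], orS [.neg fA, lG]], orS [lG]⟩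
/-- Everything follows from a contradiction. -/
def rAbs : Rule := ⟨[orS [lG, .neg fA], fA], orS [lG, fB]⟩
/-- A disjunction with one member. -/
def rOne : Rule := ⟨[orS [fA]], fA⟩

/-- A finite set of rules. -/
def stdRules (p : ℕ) : Set Rule :=
  {R | R ∈ [rEm, rEm', rNeg, rOr, rOr0, rOr1, rAnd0, rAnd1, rAnd, rMod0, rCut, rAbs, rOne]} ∪
    {R | ∃ s < p, ∃ t < p, R = rMod1 p s ∨ R = rMod2 s ∨ (s ≠ t ∧ R = rMod3 s t)}

theorem stdRules_finite (p : ℕ) : (stdRules p).Finite := by
  refine Set.Finite.union (List.finite_toSet _) ?_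
  have h1 : ({R | ∃ s < p, ∃ t < p, R = rMod1 p s ∨ R = rMod2 s ∨ (s ≠ t ∧ R = rMod3 s t)} :
      Set Rule) ⊆ ((fun s => rMod1 p s) '' Set.Iio p ∪ (fun s => rMod2 s) '' Set.Iio p) ∪
        (fun st : ℕ × ℕ => rMod3 st.1 st.2) '' (Set.Iio p ×ˢ Set.Iio p) := by
    rintro R ⟨s, hs, t, ht, h | h | ⟨-, h⟩⟩
    · exact Or.inl (Or.inl ⟨s, hs, h.symm⟩)
    · exact Or.inl (Or.inr ⟨s, hs, h.symm⟩)
    · exact Or.inr ⟨(s, t), ⟨hs, ht⟩, h.symm⟩
  exact ((((Set.finite_Iio p).image _).union ((Set.finite_Iio p).image _)).union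
    (((Set.finite_Iio p).prod (Set.finite_Iio p)).image _)).subset h1

theorem stdRules_sound (p : ℕ) : ∀ R ∈ stdRules p, R.Sound p := by
  classical
  have hinst : ∀ (V : Type) (σ : ℕ → Form V) (τ : ℕ → List (Form V)), fA.inst σ τ = [σ 0] ∧
      fB.inst σ τ = [σ 1] ∧ lG.inst σ τ = τ 0 ∧ lM.inst σ τ = τ 1 ∧ lN.inst σ τ = τ 2 ∧
      ∀ P : Scheme, (Scheme.neg P).inst σ τ = (P.inst σ τ).map .neg :=
    fun V σ τ => ⟨rfl, rfl, rfl, rfl, rfl, fun _ => rfl⟩
  have hneg : ∀ (V : Type) (x : V → Bool) (φ : Form V), (Form.neg φ).eval p x ↔ ¬ φ.eval p x :=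
    fun _ _ _ => Iff.rfl
  rintro R (hR | ⟨s, hs, t, ht, h | h | ⟨hst, h⟩⟩)
  · have hR' : R ∈ [rEm, rEm', rNeg, rOr, rOr0, rOr1, rAnd0, rAnd1, rAnd, rMod0, rCut, rAbs,
      rOne] := hR
    intro V σ τ x
    obtain ⟨iA, iB, iG, iM, iN, iNeg⟩ := hinst V σ τ
    have hx := hneg V x
    simp only [List.mem_cons, List.not_mem_nil, or_false] at hR'
    rcases hR' with rfl | rfl | rfl | rfl | rfl | rfl | rfl | rfl | rfl | rfl | rfl | rfl | rfl
    · simp only [rEm, inst_orS, List.flatMap_cons, List.flatMap_nil, iA, iG, iM, iNeg,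
        List.map_cons, List.map_nil, List.mem_singleton, forall_eq, eval_disjL, List.mem_append,
        List.append_nil]
      intro _
      by_cases h : (σ 0).eval p x
      · exact ⟨σ 0, by tauto, h⟩
      · exact ⟨.neg (σ 0), by tauto, h⟩
    · simp only [rEm', inst_orS, List.flatMap_cons, List.flatMap_nil, iA, iG, iM, iNeg,
        List.map_cons, List.map_nil, List.mem_singleton, forall_eq, eval_disjL, List.mem_append,
        List.append_nil]
      intro _
      by_cases h : (σ 0).eval p x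
      · exact ⟨σ 0, by tauto, h⟩
      · exact ⟨.neg (σ 0), by tauto, h⟩
    · simp only [rNeg, inst_orS, List.flatMap_cons, List.flatMap_nil, iA, iG, iNeg,
        List.map_cons, List.map_nil, List.mem_singleton, forall_eq, eval_disjL, List.mem_append,
        List.append_nil]
      rintro ⟨φ, h | rfl, hφ⟩
      · exact ⟨φ, Or.inl h, hφ⟩
      · exact ⟨_, Or.inr rfl, fun h => h hφ⟩
    · simp only [rOr, inst_orS, List.flatMap_cons, List.flatMap_nil, iA, iG, iM, iN,
        List.mem_singleton, forall_eq, eval_disjL, List.mem_append, List.append_nil]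
      rintro ⟨φ, h | rfl, hφ⟩
      · exact ⟨φ, Or.inl h, hφ⟩
      · exact ⟨_, Or.inr rfl, (eval_disjL x _).2 ⟨σ 0, by simp, hφ⟩⟩
    · simp only [rOr0, inst_orS, List.flatMap_cons, List.flatMap_nil, iG, iNeg, List.map_cons,
        List.map_nil, List.mem_singleton, forall_eq, eval_disjL, List.mem_append,
        List.append_nil]
      intro _
      refine ⟨_, Or.inr rfl, fun h => ?_⟩
      obtain ⟨φ, hφ, -⟩ := (eval_disjL x _).1 h
      exact absurd hφ List.not_mem_nil
    · simp only [rOr1, inst_orS, List.flatMap_cons, List.flatMap_nil, iA, iG, iM, iNeg,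
        List.map_cons, List.map_nil, List.mem_cons, List.not_mem_nil, or_false,
        List.mem_singleton, forall_eq, eval_disjL, List.mem_append, List.append_nil,
        forall_eq_or_imp]
      rintro ⟨⟨φ, h | rfl, hφ⟩, ⟨ψ, h' | rfl, hψ⟩⟩
      · exact ⟨φ, Or.inl h, hφ⟩
      · exact ⟨φ, Or.inl h, hφ⟩
      · exact ⟨ψ, Or.inl h', hψ⟩
      · refine ⟨_, Or.inr rfl, fun h => ?_⟩
        obtain ⟨χ, hχ, hχ'⟩ := (eval_disjL x _).1 h
        rcases List.mem_append.1 hχ with h1 | h1
        · exact hφ ((eval_disjL x _).2 ⟨χ, h1, hχ'⟩)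
        · rw [List.mem_singleton.1 h1] at hχ'
          exact hψ hχ'
    · simp only [rAnd0, inst_orS, inst_andS, List.flatMap_cons, List.flatMap_nil, iG,
        List.mem_singleton, forall_eq, eval_disjL, List.mem_append, List.append_nil]
      intro _
      exact ⟨_, Or.inr rfl, (eval_conjL x _).2 fun φ hφ => absurd hφ List.not_mem_nil⟩
    · simp only [rAnd1, inst_orS, inst_andS, List.flatMap_cons, List.flatMap_nil, iA, iG, iM,
        List.mem_cons, List.not_mem_nil, or_false,
        List.mem_singleton, forall_eq, eval_disjL, List.mem_append, List.append_nil,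
        forall_eq_or_imp]
      rintro ⟨⟨φ, h | rfl, hφ⟩, ⟨ψ, h' | rfl, hψ⟩⟩
      · exact ⟨φ, Or.inl h, hφ⟩
      · exact ⟨φ, Or.inl h, hφ⟩
      · exact ⟨ψ, Or.inl h', hψ⟩
      · refine ⟨_, Or.inr rfl, (eval_conjL x _).2 fun χ hχ => ?_⟩
        rcases List.mem_append.1 hχ with h1 | h1
        · exact (eval_conjL x _).1 hφ χ h1
        · rwa [List.mem_singleton.1 h1]
    · simp only [rAnd, inst_orS, inst_andS, List.flatMap_cons, List.flatMap_nil, iA, iG, iM, iN,
        iNeg, List.map_cons, List.map_nil,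
        List.mem_singleton, forall_eq, eval_disjL, List.mem_append, List.append_nil]
      rintro ⟨φ, h | rfl, hφ⟩
      · exact ⟨φ, Or.inl h, hφ⟩
      · exact ⟨_, Or.inr rfl, fun h => hφ ((eval_conjL x _).1 h (σ 0) (by simp))⟩
    · simp only [rMod0, inst_orS, inst_modS, List.flatMap_cons, List.flatMap_nil, iG,
        List.mem_singleton, forall_eq, eval_disjL, List.mem_append, List.append_nil]
      intro _
      refine ⟨_, Or.inr rfl, (eval_countL x 0 _).2 ?_⟩
      rw [ct_nil]
    · simp only [rCut, inst_orS, List.flatMap_cons, List.flatMap_nil, iA, iG, iNeg,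
        List.map_cons, List.map_nil, List.mem_cons, List.not_mem_nil, or_false,
        List.mem_singleton, forall_eq, eval_disjL, List.mem_append, List.append_nil,
        forall_eq_or_imp]
      rintro ⟨⟨φ, rfl | h, hφ⟩, ⟨ψ, rfl | h', hψ⟩⟩
      · exact absurd hφ hψ
      · exact ⟨ψ, h', hψ⟩
      · exact ⟨φ, h, hφ⟩
      · exact ⟨φ, h, hφ⟩
    · simp only [rAbs, inst_orS, List.flatMap_cons, List.flatMap_nil, iA, iB, iG, iNeg,
        List.map_cons, List.map_nil, List.mem_cons, List.not_mem_nil, or_false,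
        List.mem_singleton, forall_eq, eval_disjL, List.mem_append, List.append_nil,
        forall_eq_or_imp]
      rintro ⟨⟨φ, h | rfl, hφ⟩, hψ⟩
      · exact ⟨φ, Or.inl h, hφ⟩
      · exact absurd hψ hφ
    · simp only [rOne, inst_orS, List.flatMap_cons, List.flatMap_nil, iA,
        List.mem_singleton, forall_eq, eval_disjL, List.append_nil]
      rintro ⟨φ, rfl, hφ⟩
      exact hφ
  · subst h
    intro V σ τ x
    obtain ⟨iA, iB, iG, iM, iN, iNeg⟩ := hinst V σ τ
    simp only [rMod1, inst_orS, inst_modS, List.flatMap_cons, List.flatMap_nil, iA, iG, iM,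
      List.mem_cons, List.not_mem_nil, or_false,
      List.mem_singleton, forall_eq, eval_disjL, List.mem_append, List.append_nil,
      forall_eq_or_imp]
    rintro ⟨⟨φ, h | rfl, hφ⟩, ⟨ψ, h' | rfl, hψ⟩⟩
    · exact ⟨φ, Or.inl h, hφ⟩
    · exact ⟨φ, Or.inl h, hφ⟩
    · exact ⟨ψ, Or.inl h', hψ⟩
    · refine ⟨_, Or.inr rfl, (eval_countL x _ _).2 ?_⟩
      have h1 := (eval_countL x _ _).1 hφ
      rw [ct_append, ct_single, if_pos hψ]
      exact (Nat.ModEq.add_right 1 h1).trans (Nat.mod_modEq _ _).symm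
  · subst h
    intro V σ τ x
    obtain ⟨iA, iB, iG, iM, iN, iNeg⟩ := hinst V σ τ
    simp only [rMod2, inst_orS, inst_modS, List.flatMap_cons, List.flatMap_nil, iA, iG, iM,
      iNeg, List.map_cons, List.map_nil, List.mem_cons, List.not_mem_nil, or_false,
      List.mem_singleton, forall_eq, eval_disjL, List.mem_append, List.append_nil,
      forall_eq_or_imp]
    rintro ⟨⟨φ, h | rfl, hφ⟩, ⟨ψ, h' | rfl, hψ⟩⟩
    · exact ⟨φ, Or.inl h, hφ⟩
    · exact ⟨φ, Or.inl h, hφ⟩
    · exact ⟨ψ, Or.inl h', hψ⟩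
    · refine ⟨_, Or.inr rfl, (eval_countL x _ _).2 ?_⟩
      have h1 := (eval_countL x _ _).1 hφ
      rwa [ct_append, ct_single, if_neg hψ, add_zero]
  · subst h
    intro V σ τ x
    obtain ⟨iA, iB, iG, iM, iN, iNeg⟩ := hinst V σ τ
    simp only [rMod3, inst_orS, inst_modS, List.flatMap_cons, List.flatMap_nil, iG, iM,
      iNeg, List.map_cons, List.map_nil,
      List.mem_singleton, forall_eq, eval_disjL, List.mem_append, List.append_nil]
    rintro ⟨φ, h | rfl, hφ⟩
    · exact ⟨φ, Or.inl h, hφ⟩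
    · refine ⟨_, Or.inr rfl, fun h => ?_⟩
      have h1 := (eval_countL x _ _).1 hφ
      have h2 := (eval_countL x _ _).1 h
      have h3 := h1.symm.trans h2
      unfold Nat.ModEq at h3
      rw [Nat.mod_eq_of_lt hs, Nat.mod_eq_of_lt ht] at h3
      exact hst h3

end Pool.Agent.MP_9cec2c_lc.FG
end
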