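import Mathlib
import Pool.Agent.Lib.MP_9cec2c_lc.CDDefs

section

/-!
FM8a: closed walks whose edge weights sum to zero; the recursion for their number.

`V` is a finite vertex set, `φ : V → V → G` gives every oriented step a value in an abelian
group with `φ v u = - φ u v`; a walk is a list of vertices and `wt φ l` is the sum of the values
of its steps.  `T n` is the number of closed walks with `n` steps (lists of `n + 1` vertices
with the same first and last vertex) of weight zero.  The recursion:
`T (n+2) ≤ ∑_{i+j=n} T i * T j + ((n+1)^3 + (n+1)) * T n`.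
-/

namespace Pool.Agent.MP_9cec2c_lc.Flat

open Finset

section Walks

variable {V G : Type*} [AddCommGroup G]

/-- The weight of a walk: the sum of the values of its steps. -/
def wt (φ : V → V → G) : List V → G
  | [] => 0
  | [_] => 0
  | a :: b :: l => φ a b + wt φ (b :: l)

@[simp] lemma wt_nil (φ : V → V → G) : wt φ [] = 0 := rfl
@[simp] lemma wt_singleton (φ : V → V → G) (a : V) : wt φ [a] = 0 := rfl
@[simp] lemma wt_cons_cons (φ : V → V → G) (a b : V) (l : List V) :
    wt φ (a :: b :: l) = φ a b + wt φ (b :: l) := rfl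

/-- Split a walk at a vertex. -/
lemma wt_split (φ : V → V → G) (A : List V) (z : V) (B : List V) :
    wt φ (A ++ z :: B) = wt φ (A ++ [z]) + wt φ (z :: B) := by
  induction A with
  | nil => simp
  | cons a A ih =>
    cases A with
    | nil => simp
    | cons b A =>
      simp only [List.cons_append, wt_cons_cons] at ih ⊢
      rw [ih]; abel

lemma wt_reverse (φ : V → V → G) (hs : ∀ u v, φ v u = - φ u v) (l : List V) :
    wt φ l.reverse = - wt φ l := by
  induction l with
  | nil => simp
  | cons a l ih =>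
    cases l with
    | nil => simp
    | cons b l =>
      rw [wt_cons_cons, neg_add, ← ih, List.reverse_cons, List.reverse_cons, List.append_assoc]
      simp only [List.cons_append, List.nil_append]
      rw [wt_split]
      rw [wt_cons_cons, wt_singleton, add_zero, hs a b, add_comm]

/-- The hypotheses on the step values. -/
structure Good (φ : V → V → G) : Prop where
  neg : ∀ u v, φ v u = - φ u v
  local' : ∀ P Q : List V, wt φ P + wt φ Q = 0 → wt φ P ≠ 0 → ∃ z, z ∈ P ∧ z ∈ Q
  recur : ∀ (u w : V) (l : List V), wt φ (u :: w :: l) = 0 →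
    (∃ A B, w :: l = A ++ w :: u :: B) ∨
    ((∀ g : G, g + g = 0) ∧ ∃ A B, w :: l = A ++ u :: w :: B)

/-- A closed walk (list of vertices) of weight zero. -/
def IsC (φ : V → V → G) (l : List V) : Prop := l.head? = l.getLast? ∧ wt φ l = 0

lemma head?_append_cons (A : List V) (z : V) (B B' : List V) :
    (A ++ z :: B).head? = (A ++ z :: B').head? := by
  cases A <;> simp

lemma getLast?_append_cons₀ (A : List V) (z : V) (B : List V) :
    (A ++ z :: B).getLast? = (z :: B).getLast? := by
  simp [List.getLast?_append, List.getLast?_cons]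

lemma getLast?_append_cons' (A A' : List V) (z : V) (B : List V) :
    (A ++ z :: B).getLast? = (A' ++ z :: B).getLast? := by
  rw [getLast?_append_cons₀, getLast?_append_cons₀]

/-- Splice of two closed walks at a common vertex `z`. -/
lemma splice (φ : V → V → G) (A B C D : List V) (z : V)
    (hP : (A ++ z :: B).head? = (A ++ z :: B).getLast?)
    (hQ : (C ++ z :: D).head? = (C ++ z :: D).getLast?) :
    ∃ (E : List V) (w : V), z :: B = E ++ [w] ∧ (A ++ z :: D).head? = some w ∧
      (C ++ (E ++ (A ++ z :: D))).head? = (C ++ (E ++ (A ++ z :: D))).getLast? ∧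
      wt φ (C ++ (E ++ (A ++ z :: D))) = wt φ (A ++ z :: B) + wt φ (C ++ z :: D) := by
  obtain ⟨E, w, hE⟩ : ∃ (E : List V) (w : V), z :: B = E ++ [w] :=
    ⟨(z :: B).dropLast, (z :: B).getLast (by simp), (List.dropLast_append_getLast _).symm⟩
  have hlast : (A ++ z :: B).getLast? = some w := by
    rw [hE, ← List.append_assoc]; simp
  have hw : (A ++ z :: D).head? = some w := by
    rw [head?_append_cons A z D B, hP, hlast]
  obtain ⟨F, hF⟩ : ∃ F, A ++ z :: D = w :: F := by
    cases h : (A ++ z :: D) with
    | nil => simp at h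
    | cons x F => rw [h] at hw; simp at hw; exact ⟨F, by rw [hw]⟩
  obtain ⟨H, hH⟩ : ∃ H, E ++ w :: F = z :: H := by
    cases E with
    | nil => simp at hE; exact ⟨F, by simp [hE.1]⟩
    | cons x E => simp at hE; exact ⟨E ++ w :: F, by simp [hE.1]⟩
  refine ⟨E, w, hE, hw, ?_, ?_⟩
  · have h1 : (C ++ (E ++ (A ++ z :: D))).head? = (C ++ z :: D).head? := by
      rw [hF, hH]; exact head?_append_cons _ _ _ _
    have h2 : (C ++ (E ++ (A ++ z :: D))).getLast? = (C ++ z :: D).getLast? := by
      rw [← List.append_assoc, ← List.append_assoc]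
      exact getLast?_append_cons' _ _ _ _
    rw [h1, h2, hQ]
  · rw [hF, hH, wt_split φ C z H, ← hH, wt_split φ E w F, ← hE, ← hF, wt_split φ A z D,
      wt_split φ A z B, wt_split φ C z D]
    abel

/-- All lists of length `n`. -/
noncomputable def lists (V : Type*) [Fintype V] (n : ℕ) : Finset (List V) :=
  (Finset.univ : Finset (List.Vector V n)).map ⟨List.Vector.toList, List.Vector.toList_injective⟩

variable [Fintype V]

@[simp] lemma mem_lists {n : ℕ} {l : List V} : l ∈ lists V n ↔ l.length = n := by
  unfold lists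
  constructor
  · intro h
    obtain ⟨v, -, rfl⟩ := Finset.mem_map.1 h
    exact v.toList_length
  · intro h
    exact Finset.mem_map.2 ⟨⟨l, h⟩, Finset.mem_univ _, rfl⟩

open Classical in
/-- Closed walks of weight zero with `n` steps. -/
noncomputable def CW (φ : V → V → G) (n : ℕ) : Finset (List V) :=
  (lists V (n + 1)).filter (IsC φ)

lemma mem_CW {φ : V → V → G} {n : ℕ} {l : List V} :
    l ∈ CW φ n ↔ l.length = n + 1 ∧ IsC φ l := by
  classical
  unfold CW
  rw [Finset.mem_filter, mem_lists]

open Classical in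
/-- Pairs of closed walks of total weight zero. -/
noncomputable def PW (φ : V → V → G) (i j : ℕ) : Finset (List V × List V) :=
  ((lists V (i + 1)) ×ˢ (lists V (j + 1))).filter
    (fun p => p.1.head? = p.1.getLast? ∧ p.2.head? = p.2.getLast? ∧ wt φ p.1 + wt φ p.2 = 0)

lemma mem_PW {φ : V → V → G} {i j : ℕ} {p : List V × List V} :
    p ∈ PW φ i j ↔ (p.1.length = i + 1 ∧ p.2.length = j + 1) ∧
      p.1.head? = p.1.getLast? ∧ p.2.head? = p.2.getLast? ∧ wt φ p.1 + wt φ p.2 = 0 := by
  classical
  unfold PW
  rw [Finset.mem_filter, Finset.mem_product, mem_lists, mem_lists]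

/-- The inverse of the splice. -/
def unsplice [Inhabited V] (i a c : ℕ) (R : List V) : List V × List V :=
  let R' := R.drop c
  let R'' := R'.drop (i - a)
  (R''.take a ++ R'.take (i - a) ++ [R''.headI], R.take c ++ R''.drop a)

/-- Pairs of total weight zero: either both are of weight zero or they can be spliced. -/
lemma PW_subset [Inhabited V] (φ : V → V → G) (hg : Good φ) (i j : ℕ) [DecidableEq V] :
    PW φ i j ⊆ (CW φ i ×ˢ CW φ j) ∪
      ((Finset.range (i + 1) ×ˢ Finset.range (j + 1)).biUnion
        (fun ac => (CW φ (i + j)).image (unsplice i ac.1 ac.2))) := by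
  classical
  rintro ⟨P, Q⟩ h
  rw [mem_PW] at h
  obtain ⟨⟨hlP, hlQ⟩, hP, hQ, hw⟩ := h
  simp only at hlP hlQ hP hQ hw
  by_cases h0 : wt φ P = 0
  · refine Finset.mem_union_left _ (Finset.mem_product.2 ⟨mem_CW.2 ⟨hlP, hP, h0⟩,
      mem_CW.2 ⟨hlQ, hQ, ?_⟩⟩)
    rw [h0, zero_add] at hw; exact hw
  · refine Finset.mem_union_right _ ?_
    obtain ⟨z, hzP, hzQ⟩ := hg.local' P Q hw h0
    obtain ⟨A, B, rfl⟩ := List.append_of_mem hzP
    obtain ⟨C, D, rfl⟩ := List.append_of_mem hzQ
    obtain ⟨E, w, hE, hw', hcl, hwt⟩ := splice φ A B C D z hP hQ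
    simp only [List.length_append, List.length_cons] at hlP hlQ
    have hBE : E.length = B.length := by
      have := congrArg List.length hE
      simp at this; omega
    refine Finset.mem_biUnion.2 ⟨(A.length, C.length), Finset.mem_product.2
      ⟨Finset.mem_range.2 (by omega), Finset.mem_range.2 (by omega)⟩, Finset.mem_image.2
      ⟨C ++ (E ++ (A ++ z :: D)), mem_CW.2 ⟨?_, hcl, ?_⟩, ?_⟩⟩
    · simp only [List.length_append, List.length_cons]; omega
    · rw [hwt, hw]
    · unfold unsplice
      simp only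
      have hiA : i - A.length = E.length := by omega
      rw [hiA]
      rw [List.drop_left, List.drop_left, List.take_left, List.take_left, List.take_left,
        List.drop_left]
      have hhead : (A ++ z :: D).headI = w := by
        cases h : (A ++ z :: D) with
        | nil => simp at h
        | cons x F => rw [h] at hw'; simp at hw'; simp [hw']
      rw [hhead, List.append_assoc, ← hE]

lemma card_PW_le [Inhabited V] (φ : V → V → G) (hg : Good φ) (i j : ℕ) :
    (PW φ i j).card ≤ (CW φ i).card * (CW φ j).card +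
      (i + 1) * (j + 1) * (CW φ (i + j)).card := by
  classical
  refine (Finset.card_le_card (PW_subset φ hg i j)).trans ?_
  refine (Finset.card_union_le _ _).trans ?_
  refine Nat.add_le_add (le_of_eq (Finset.card_product _ _)) ?_
  refine (Finset.card_biUnion_le).trans ?_
  refine (Finset.sum_le_sum (fun ac _ => Finset.card_image_le)).trans ?_
  rw [Finset.sum_const, Finset.card_product, Finset.card_range, Finset.card_range, smul_eq_mul]

/-- The inverse of the reversal step. -/
def unrev [Inhabited V] (a : ℕ) (R : List V) : List V :=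
  let A := (R.tail.take a).reverse
  R.headI :: (A ++ R.headI :: (A ++ [R.headI]).headI :: R.tail.drop a)

/-- First step decomposition. -/
lemma CW_subset [Inhabited V] (φ : V → V → G) (hg : Good φ) (n : ℕ) [DecidableEq V] :
    CW φ (n + 2) ⊆
      ((antidiagonal n).biUnion
        (fun ij => (PW φ ij.1 ij.2).image (fun p => p.2.headI :: (p.1 ++ p.2)))) ∪
      ((Finset.range (n + 1)).biUnion (fun a => (CW φ n).image (unrev a))) := by
  classical
  intro c hc
  rw [mem_CW] at hc
  obtain ⟨hlen, hcl, hw⟩ := hc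
  obtain ⟨u, w, l, rfl⟩ : ∃ u w l, c = u :: w :: l := by
    match c, hlen with
    | [], h => simp at h
    | [_], h => simp at h
    | a :: b :: l, _ => exact ⟨a, b, l, rfl⟩
  have hlast : (w :: l).getLast? = some u := by
    have : (u :: w :: l).getLast? = (w :: l).getLast? := by
      rw [List.getLast?_cons_cons]
    rw [← this, ← hcl]; simp
  rcases hg.recur u w l hw with ⟨A, B, hAB⟩ | ⟨h2, A, B, hAB⟩
  · -- opposite direction
    refine Finset.mem_union_left _ (Finset.mem_biUnion.2 ⟨(A.length, B.length), ?_, ?_⟩)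
    · rw [HasAntidiagonal.mem_antidiagonal]
      have := congrArg List.length hAB
      simp only [List.length_cons, List.length_append] at this hlen ⊢
      omega
    · refine Finset.mem_image.2 ⟨(A ++ [w], u :: B), mem_PW.2 ⟨⟨by simp, by simp⟩, ?_, ?_, ?_⟩, ?_⟩
      · show (A ++ [w]).head? = (A ++ [w]).getLast?
        have h1 : (A ++ [w]).head? = (A ++ w :: u :: B).head? := head?_append_cons _ _ _ _
        rw [h1, ← hAB]; simp
      · show (u :: B).head? = (u :: B).getLast?
        have h1 : (A ++ w :: u :: B).getLast? = (u :: B).getLast? := by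
          rw [show A ++ w :: u :: B = (A ++ [w]) ++ u :: B by simp, getLast?_append_cons₀]
        rw [← h1, ← hAB, hlast]; simp
      · show wt φ (A ++ [w]) + wt φ (u :: B) = 0
        rw [← hw, wt_cons_cons, hAB, wt_split φ A w (u :: B), wt_cons_cons, hg.neg u w]
        abel
      · show (u :: B).headI :: ((A ++ [w]) ++ (u :: B)) = u :: w :: l
        rw [hAB]; simp
  · refine Finset.mem_union_right _ (Finset.mem_biUnion.2 ⟨A.length, ?_, ?_⟩)
    · rw [Finset.mem_range]
      have := congrArg List.length hAB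
      simp only [List.length_cons, List.length_append] at this hlen ⊢
      omega
    · have hwA : (A ++ [u]).head? = some w := by
        rw [head?_append_cons A u [] (w :: B), ← hAB]; simp
      have hwA' : (A ++ [u]).headI = w := by
        cases h : (A ++ [u]) with
        | nil => simp at h
        | cons x F => rw [h] at hwA; simp at hwA; simp [hwA]
      obtain ⟨F, hF⟩ : ∃ F, A ++ [u] = w :: F := by
        cases h : (A ++ [u]) with
        | nil => simp at h
        | cons x F => rw [h] at hwA; simp at hwA; exact ⟨F, by rw [hwA]⟩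
      have hrev : u :: A.reverse = F.reverse ++ [w] := by
        have := congrArg List.reverse hF
        simpa using this
      refine Finset.mem_image.2 ⟨u :: (A.reverse ++ B), mem_CW.2 ⟨?_, ?_, ?_⟩, ?_⟩
      · have := congrArg List.length hAB
        simp only [List.length_cons, List.length_append, List.length_reverse] at this hlen ⊢
        omega
      · have h1 : (A ++ u :: w :: B).getLast? = (w :: B).getLast? := by
          rw [show A ++ u :: w :: B = (A ++ [u]) ++ w :: B by simp, getLast?_append_cons₀]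
        have h2 : (u :: (A.reverse ++ B)).getLast? = (w :: B).getLast? := by
          rw [← List.cons_append, hrev]
          rw [show F.reverse ++ [w] ++ B = F.reverse ++ w :: B by simp, getLast?_append_cons₀]
        rw [h2, ← h1, ← hAB, hlast]; simp
      · rw [← List.cons_append, hrev, show F.reverse ++ [w] ++ B = F.reverse ++ w :: B by simp,
          wt_split, ← hrev, ← hw, wt_cons_cons, hAB, wt_split, wt_cons_cons]
        have h3 : wt φ (u :: A.reverse) = - wt φ (A ++ [u]) := by
          rw [← wt_reverse φ hg.neg]; simp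
        have h4 : - wt φ (A ++ [u]) = wt φ (A ++ [u]) := by
          have := h2 (wt φ (A ++ [u]))
          rw [neg_eq_iff_add_eq_zero]; exact this
        rw [h3, h4]
        have := h2 (φ u w)
        rw [show φ u w + (wt φ (A ++ [u]) + (φ u w + wt φ (w :: B))) =
          (φ u w + φ u w) + (wt φ (A ++ [u]) + wt φ (w :: B)) by abel, this, zero_add]
      · unfold unrev
        simp only [List.tail_cons, List.headI_cons]
        rw [List.take_left' (by simp), List.drop_left' (by simp), List.reverse_reverse, hwA',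
          hAB]

theorem card_CW_le [Inhabited V] (φ : V → V → G) (hg : Good φ) (n : ℕ) :
    (CW φ (n + 2)).card ≤ ∑ ij ∈ antidiagonal n,
      ((CW φ ij.1).card * (CW φ ij.2).card) + ((n + 1) ^ 3 + (n + 1)) * (CW φ n).card := by
  classical
  refine (Finset.card_le_card (CW_subset φ hg n)).trans ?_
  refine (Finset.card_union_le _ _).trans ?_
  have h1 : ((Finset.range (n + 1)).biUnion (fun a => (CW φ n).image (unrev a))).card ≤
      (n + 1) * (CW φ n).card := by
    refine (Finset.card_biUnion_le).trans ?_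
    refine (Finset.sum_le_sum (fun ac _ => Finset.card_image_le)).trans ?_
    rw [Finset.sum_const, Finset.card_range, smul_eq_mul]
  have h2 : ((antidiagonal n).biUnion
        (fun ij => (PW φ ij.1 ij.2).image (fun p => p.2.headI :: (p.1 ++ p.2)))).card ≤
      ∑ ij ∈ antidiagonal n, ((CW φ ij.1).card * (CW φ ij.2).card) +
        (n + 1) ^ 3 * (CW φ n).card := by
    refine (Finset.card_biUnion_le).trans ?_
    have : ∀ ij ∈ antidiagonal n,
        ((PW φ ij.1 ij.2).image (fun p => p.2.headI :: (p.1 ++ p.2))).card ≤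
        (CW φ ij.1).card * (CW φ ij.2).card + (n + 1) ^ 2 * (CW φ n).card := by
      intro ij hij
      rw [HasAntidiagonal.mem_antidiagonal] at hij
      refine (Finset.card_image_le).trans ((card_PW_le φ hg _ _).trans ?_)
      rw [hij]
      refine Nat.add_le_add_left (Nat.mul_le_mul_right _ ?_) _
      rw [pow_two]
      exact Nat.mul_le_mul (by omega) (by omega)
    refine (Finset.sum_le_sum this).trans ?_
    rw [Finset.sum_add_distrib, Finset.sum_const, Nat.card_antidiagonal, smul_eq_mul]
    refine Nat.add_le_add_left (le_of_eq ?_) _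
    ring
  calc _ ≤ (∑ ij ∈ antidiagonal n, ((CW φ ij.1).card * (CW φ ij.2).card) +
        (n + 1) ^ 3 * (CW φ n).card) + (n + 1) * (CW φ n).card := Nat.add_le_add h2 h1
    _ = _ := by ring

lemma card_CW_zero (φ : V → V → G) : (CW φ 0).card = Fintype.card V := by
  classical
  have : CW φ 0 = (Finset.univ : Finset V).image (fun v => [v]) := by
    ext l
    rw [mem_CW]
    simp only [Finset.mem_image, Finset.mem_univ, true_and]
    constructor
    · rintro ⟨h, -⟩
      obtain ⟨a, rfl⟩ := List.length_eq_one_iff.1 h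
      exact ⟨a, rfl⟩
    · rintro ⟨a, rfl⟩
      exact ⟨rfl, by simp [IsC]⟩
  rw [this, Finset.card_image_of_injective _ (fun a b h => by simpa using h), Finset.card_univ]

lemma card_CW_odd [Inhabited V] (φ : V → V → G) (hg : Good φ) (n : ℕ) (hn : Odd n) :
    (CW φ n).card = 0 := by
  classical
  induction n using Nat.strong_induction_on with
  | _ n ih =>
    rcases n with _ | _ | n
    · simp at hn
    · rw [Finset.card_eq_zero, Finset.eq_empty_iff_forall_notMem]
      intro l hl
      rw [mem_CW] at hl
      obtain ⟨hlen, hcl, hw⟩ := hl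
      obtain ⟨u, w, rfl⟩ := List.length_eq_two.1 hlen
      rcases hg.recur u w [] hw with ⟨A, B, hAB⟩ | ⟨h2, A, B, hAB⟩
      · have := congrArg List.length hAB
        simp at this; omega
      · have := congrArg List.length hAB
        simp at this; omega
    · have hn' : Odd n := by
        rcases hn with ⟨k, hk⟩
        exact ⟨k - 1, by omega⟩
      have h := card_CW_le φ hg n
      rw [ih n (by omega) hn', mul_zero, add_zero] at h
      rw [Finset.sum_eq_zero] at h
      · exact Nat.le_zero.1 h
      · intro ij hij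
        rw [HasAntidiagonal.mem_antidiagonal] at hij
        rcases Nat.even_or_odd ij.1 with h1 | h1
        · have h2 : Odd ij.2 := by
            rw [← hij] at hn'
            exact (Nat.odd_add'.1 hn').2 h1
          rw [ih ij.2 (by omega) h2, mul_zero]
        · rw [ih ij.1 (by omega) h1, zero_mul]

/-- Recursion for the even lengths. -/
theorem card_CW_even_le [Inhabited V] (φ : V → V → G) (hg : Good φ) (q : ℕ) :
    (CW φ (2 * (q + 1))).card ≤ ∑ ij ∈ antidiagonal q,
      ((CW φ (2 * ij.1)).card * (CW φ (2 * ij.2)).card) +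
        8 * (q + 1) ^ 3 * (CW φ (2 * q)).card := by
  classical
  have h := card_CW_le φ hg (2 * q)
  refine h.trans (Nat.add_le_add ?_ (Nat.mul_le_mul_right _ ?_))
  · have hsub : (antidiagonal q).image (fun ij : ℕ × ℕ => (2 * ij.1, 2 * ij.2)) ⊆
        antidiagonal (2 * q) := by
      intro x hx
      obtain ⟨ij, hij, rfl⟩ := Finset.mem_image.1 hx
      rw [HasAntidiagonal.mem_antidiagonal] at hij ⊢
      simp only
      omega
    rw [← Finset.sum_subset hsub, Finset.sum_image]
    · intro a _ b _ hab
      simp only [Prod.mk.injEq] at hab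
      exact Prod.ext (by omega) (by omega)
    · intro x hx hx'
      rw [HasAntidiagonal.mem_antidiagonal] at hx
      rcases Nat.even_or_odd x.1 with h1 | h1
      · exfalso
        apply hx'
        obtain ⟨k, hk⟩ := h1
        exact Finset.mem_image.2 ⟨(k, q - k), by rw [HasAntidiagonal.mem_antidiagonal]; omega,
          Prod.ext (by simp only; omega) (by simp only; omega)⟩
      · rw [card_CW_odd φ hg x.1 h1, zero_mul]
  · nlinarith [Nat.zero_le q, sq_nonneg q]

/-- The main bound. -/
theorem card_CW_bound [Inhabited V] (φ : V → V → G) (hg : Good φ) (q : ℕ) :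
    ((CW φ (2 * q)).card : ℝ) ≤ (catalan q : ℝ) * (Fintype.card V : ℝ) ^ (q + 1) *
      (1 + 8 * (q : ℝ) ^ 3 / (Fintype.card V : ℝ)) ^ q := by
  classical
  set N : ℝ := (Fintype.card V : ℝ) with hN
  have hN0 : (0 : ℝ) < N := by
    have : 0 < Fintype.card V := Fintype.card_pos
    rw [hN]
    exact_mod_cast this
  induction q using Nat.strong_induction_on with
  | _ q ih =>
    rcases q with _ | q
    · simp [card_CW_zero, hN]
    · set X : ℝ := 1 + 8 * ((q : ℝ) + 1) ^ 3 / N with hX
      have hX1 : 1 ≤ X := by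
        have : 0 ≤ 8 * ((q : ℝ) + 1) ^ 3 / N := by positivity
        linarith
      have hXi : ∀ i ≤ q, ∀ k : ℕ, (1 + 8 * (i : ℝ) ^ 3 / N) ^ k ≤ X ^ k := by
        intro i hi k
        have : (i : ℝ) ≤ (q : ℝ) + 1 := by
          have : (i : ℝ) ≤ (q : ℝ) := by exact_mod_cast hi
          linarith
        apply pow_le_pow_left₀ (by positivity)
        rw [hX]
        gcongr
      have hrec : ((CW φ (2 * (q + 1))).card : ℝ) ≤ ∑ ij ∈ antidiagonal q,
          (((CW φ (2 * ij.1)).card : ℝ) * ((CW φ (2 * ij.2)).card : ℝ)) +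
          8 * ((q : ℝ) + 1) ^ 3 * ((CW φ (2 * q)).card : ℝ) := by
        have := card_CW_even_le φ hg q
        exact_mod_cast this
      have hcat : (catalan (q + 1) : ℝ) = ∑ ij ∈ antidiagonal q,
          ((catalan ij.1 : ℝ) * (catalan ij.2 : ℝ)) := by
        rw [catalan_succ']; push_cast; rfl
      have hcatle : (catalan q : ℝ) ≤ (catalan (q + 1) : ℝ) := by
        rw [hcat]
        have : (catalan q : ℝ) = (catalan ((0, q) : ℕ × ℕ).1 : ℝ) * (catalan ((0, q) : ℕ × ℕ).2 : ℝ) := by
          simp
        rw [this]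
        exact Finset.single_le_sum (f := fun ij : ℕ × ℕ => (catalan ij.1 : ℝ) * (catalan ij.2 : ℝ))
          (fun _ _ => by positivity) (by simp [HasAntidiagonal.mem_antidiagonal])
      have h1 : ∑ ij ∈ antidiagonal q,
          (((CW φ (2 * ij.1)).card : ℝ) * ((CW φ (2 * ij.2)).card : ℝ)) ≤
          (catalan (q + 1) : ℝ) * N ^ (q + 2) * X ^ q := by
        rw [hcat, Finset.sum_mul, Finset.sum_mul]
        refine Finset.sum_le_sum (fun ij hij => ?_)
        rw [HasAntidiagonal.mem_antidiagonal] at hij
        have ha := ih ij.1 (by omega)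
        have hb := ih ij.2 (by omega)
        have ha' := ha.trans (mul_le_mul_of_nonneg_left (hXi ij.1 (by omega) ij.1) (by positivity))
        have hb' := hb.trans (mul_le_mul_of_nonneg_left (hXi ij.2 (by omega) ij.2) (by positivity))
        refine (mul_le_mul ha' hb' (by positivity) (by positivity)).trans (le_of_eq ?_)
        rw [← hij]
        ring
      have h2 : ((CW φ (2 * q)).card : ℝ) ≤ (catalan (q + 1) : ℝ) * N ^ (q + 1) * X ^ q := by
        refine (ih q (by omega)).trans ?_
        refine mul_le_mul ?_ (hXi q le_rfl q) (by positivity) (by positivity)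
        exact mul_le_mul_of_nonneg_right hcatle (by positivity)
      have h3 : ((CW φ (2 * (q + 1))).card : ℝ) ≤ (catalan (q + 1) : ℝ) * N ^ (q + 2) * X ^ q +
          8 * ((q : ℝ) + 1) ^ 3 * ((catalan (q + 1) : ℝ) * N ^ (q + 1) * X ^ q) := by
        refine hrec.trans (add_le_add h1 (mul_le_mul_of_nonneg_left h2 (by positivity)))
      refine h3.trans (le_of_eq ?_)
      have h4 : N * X = N + 8 * ((q : ℝ) + 1) ^ 3 := by
        rw [hX]; field_simp
      push_cast
      rw [show (1 : ℝ) + 8 * ((q : ℝ) + 1) ^ 3 / N = X from rfl]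
      rw [show (catalan (q + 1) : ℝ) * N ^ (q + 1 + 1) * X ^ (q + 1) =
        (catalan (q + 1) : ℝ) * N ^ (q + 1) * X ^ q * (N * X) by ring, h4]
      ring

lemma catalan_le_four_pow (q : ℕ) : catalan q ≤ 4 ^ q := by
  rw [catalan_eq_centralBinom_div]
  exact (Nat.div_le_self _ _).trans (Nat.centralBinom_le_four_pow q)

theorem card_CW_bound' [Inhabited V] (φ : V → V → G) (hg : Good φ) (q : ℕ) :
    ((CW φ (2 * q)).card : ℝ) ≤ 4 ^ q * (Fintype.card V : ℝ) ^ (q + 1) *
      (1 + 8 * (q : ℝ) ^ 3 / (Fintype.card V : ℝ)) ^ q := by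
  refine (card_CW_bound φ hg q).trans ?_
  have : (catalan q : ℝ) ≤ 4 ^ q := by exact_mod_cast catalan_le_four_pow q
  gcongr

end Walks

end Pool.Agent.MP_9cec2c_lc.Flat
end

section

/-!
FLAT, FM9b: numbers.
-/

namespace Pool.Agent.MP_9cec2c_lc.Flat

/-- The choice of the parameter `K = 6 q`. -/
theorem num_choice : ∃ N0 : ℕ, ∀ N : ℕ, N0 ≤ N → ∀ L : ℕ, (L : ℝ) ≤ (N : ℝ) ^ (1 / 100 : ℝ) →
    ∃ q : ℕ, 0 < q ∧ 100 * ((L : ℝ) + 4) * Real.log N ≤ 6 * q ∧ (L : ℝ) ^ 2 ≤ 6 * q ∧
      10 ^ 100 * (6 * (q : ℝ)) ^ 30 ≤ N := by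
  refine ⟨(10 ^ 5) ^ 200, fun N hN L hL => ?_⟩
  have hN1 : ((10 ^ 5 : ℝ)) ^ 200 ≤ (N : ℝ) := by exact_mod_cast hN
  have hN0 : (0 : ℝ) ≤ (N : ℝ) := Nat.cast_nonneg N
  set s : ℝ := (N : ℝ) ^ (1 / 200 : ℝ) with hs
  have hs0 : 0 ≤ s := Real.rpow_nonneg hN0 _
  have hs200 : s ^ 200 = N := by
    rw [hs, ← Real.rpow_natCast, ← Real.rpow_mul hN0]
    norm_num
  have hs2 : (N : ℝ) ^ (1 / 100 : ℝ) = s ^ 2 := by
    rw [hs, ← Real.rpow_natCast, ← Real.rpow_mul hN0]
    norm_num
  have hs5 : (10 : ℝ) ^ 5 ≤ s := by
    by_contra hc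
    have hc' : s < 10 ^ 5 := not_le.1 hc
    have : s ^ 200 < (10 ^ 5 : ℝ) ^ 200 := pow_lt_pow_left₀ hc' hs0 (by norm_num)
    linarith
  have hspos : 0 < s := lt_of_lt_of_le (by norm_num) hs5
  have hs1 : 1 ≤ s := le_trans (by norm_num) hs5
  have hlog : Real.log N ≤ 200 * s := by
    rw [← hs200, Real.log_pow]
    have := Real.log_le_sub_one_of_pos hspos
    push_cast
    linarith
  have hlog0 : 0 ≤ Real.log N := Real.log_nonneg (by
    rw [← hs200]; exact one_le_pow₀ hs1)
  rw [hs2] at hL
  refine ⟨⌈s ^ 4⌉₊, ?_, ?_, ?_, ?_⟩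
  · exact Nat.ceil_pos.2 (by positivity)
  · have h1 : s ^ 4 ≤ (⌈s ^ 4⌉₊ : ℝ) := Nat.le_ceil _
    have h2 : (L : ℝ) + 4 ≤ 5 * s ^ 2 := by nlinarith
    have h3 : 100 * ((L : ℝ) + 4) * Real.log N ≤ 100 * (5 * s ^ 2) * (200 * s) := by
      apply mul_le_mul _ hlog hlog0 (by positivity)
      exact mul_le_mul_of_nonneg_left h2 (by norm_num)
    have h4 : 100 * (5 * s ^ 2) * (200 * s) ≤ 6 * s ^ 4 := by
      have : 100 * (5 * s ^ 2) * (200 * s) = s ^ 3 * 10 ^ 5 := by ring
      rw [this]
      have h5 : s ^ 3 * 10 ^ 5 ≤ s ^ 3 * s := mul_le_mul_of_nonneg_left hs5 (by positivity)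
      nlinarith [pow_pos hspos 4]
    linarith
  · have h1 : s ^ 4 ≤ (⌈s ^ 4⌉₊ : ℝ) := Nat.le_ceil _
    have h2 : (L : ℝ) ^ 2 ≤ (s ^ 2) ^ 2 := pow_le_pow_left₀ (Nat.cast_nonneg L) hL 2
    have h3 : (s ^ 2) ^ 2 = s ^ 4 := by ring
    nlinarith [pow_pos hspos 4]
  · have h1 : (⌈s ^ 4⌉₊ : ℝ) < s ^ 4 + 1 := Nat.ceil_lt_add_one (by positivity)
    have h2 : (1 : ℝ) ≤ s ^ 4 := one_le_pow₀ hs1
    have h3 : 6 * (⌈s ^ 4⌉₊ : ℝ) ≤ 12 * s ^ 4 := by linarith
    calc 10 ^ 100 * (6 * (⌈s ^ 4⌉₊ : ℝ)) ^ 30 ≤ 10 ^ 100 * (12 * s ^ 4) ^ 30 := by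
          apply mul_le_mul_of_nonneg_left _ (by norm_num)
          exact pow_le_pow_left₀ (by positivity) h3 30
      _ = (10 ^ 100 * 12 ^ 30) * s ^ 120 := by ring
      _ ≤ s ^ 80 * s ^ 120 := by
          apply mul_le_mul_of_nonneg_right _ (by positivity)
          calc (10 : ℝ) ^ 100 * 12 ^ 30 ≤ (10 ^ 5) ^ 80 := by norm_num
            _ ≤ s ^ 80 := pow_le_pow_left₀ (by norm_num) hs5 80
      _ = s ^ 200 := by ring
      _ = N := hs200

theorem exp_three_half : Real.exp (3 / 2) ≤ 9 / 2 := by
  have h : Real.exp 1 < 2.7182818286 := Real.exp_one_lt_d9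
  have h1 : Real.exp (3 / 2) ^ 2 = Real.exp 1 ^ 3 := by
    rw [← Real.exp_nat_mul, ← Real.exp_nat_mul]
    norm_num
  have h2 : Real.exp 1 ^ 3 ≤ 2.7182818286 ^ 3 := pow_le_pow_left₀ (Real.exp_pos _).le h.le 3
  have h3 : Real.exp (3 / 2) ^ 2 ≤ (9 / 2) ^ 2 := by
    rw [h1]
    refine h2.trans (by norm_num)
  exact le_of_sq_le_sq₀ h3 (by norm_num)
where
  le_of_sq_le_sq₀ {a b : ℝ} (h : a ^ 2 ≤ b ^ 2) (hb : 0 ≤ b) : a ≤ b := by
    nlinarith [sq_nonneg (a - b), sq_nonneg (a + b)]

theorem tail_le (q : ℕ) : ((2 : ℝ) / 9) ^ q ≤ Real.exp (-(3 / 2) * q) := by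
  have h := exp_three_half
  have h1 : (2 : ℝ) / 9 ≤ Real.exp (-(3 / 2)) := by
    rw [Real.exp_neg, ← one_div, div_le_div_iff₀ (by norm_num) (Real.exp_pos _)]
    linarith
  calc ((2 : ℝ) / 9) ^ q ≤ (Real.exp (-(3 / 2))) ^ q := pow_le_pow_left₀ (by norm_num) h1 q
    _ = Real.exp (-(3 / 2) * q) := by rw [← Real.exp_nat_mul]; ring_nf

theorem one_add_pow_le_exp (t : ℝ) (ht : 0 ≤ t) (q : ℕ) : (1 + t) ^ q ≤ Real.exp (t * q) := by
  calc (1 + t) ^ q ≤ (Real.exp t) ^ q := by
        apply pow_le_pow_left₀ (by linarith)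
        linarith [Real.add_one_le_exp t]
    _ = Real.exp (t * q) := by rw [← Real.exp_nat_mul]; ring_nf

theorem inv_one_add_pow_le (t : ℝ) (ht : 0 ≤ t) (ht1 : t ≤ 1) (q : ℕ) :
    (1 + t)⁻¹ ^ q ≤ Real.exp (-(t / 2) * q) := by
  have h1 : (1 + t)⁻¹ ≤ Real.exp (-(t / 2)) := by
    have h2 : (1 + t)⁻¹ ≤ 1 - t / 2 := by
      rw [inv_le_iff_one_le_mul₀ (by linarith)]
      nlinarith
    linarith [Real.add_one_le_exp (-(t / 2))]
  calc (1 + t)⁻¹ ^ q ≤ (Real.exp (-(t / 2))) ^ q :=
        pow_le_pow_left₀ (inv_nonneg.2 (by linarith)) h1 q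
    _ = Real.exp (-(t / 2) * q) := by rw [← Real.exp_nat_mul]; ring_nf

/-- The number of lists of moves, times a polynomial, is beaten by the tail. -/
theorem union_num (N L q : ℕ) (hN : 2 ≤ N)
    (hq : 100 * ((L : ℝ) + 4) * Real.log N ≤ 6 * q) :
    ((2 * N * N + N + 1 : ℕ) : ℝ) ^ (L + 3) * Real.exp (-(3 / 2) * q) ≤ ((N : ℝ) ^ 20)⁻¹ := by
  have hN' : (2 : ℝ) ≤ N := by exact_mod_cast hN
  have hNpos : (0 : ℝ) < N := by linarith
  have hlog0 : 0 ≤ Real.log N := Real.log_nonneg (by linarith)
  have hlog2 : Real.log 2 ≤ Real.log N := Real.log_le_log (by norm_num) hN'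
  have h1 : ((2 * N * N + N + 1 : ℕ) : ℝ) ≤ (N : ℝ) ^ 4 := by
    push_cast
    have h2 : (N : ℝ) ^ 4 = N * N * (N * N) := by ring
    have h3 : (4 : ℝ) ≤ N * N := by nlinarith
    have h4 : (4 : ℝ) * (N * N) ≤ N * N * (N * N) := by nlinarith
    nlinarith
  have h5 : ((N : ℝ) ^ 4) ^ (L + 3) = Real.exp (4 * (L + 3) * Real.log N) := by
    rw [← pow_mul, ← Real.exp_log (pow_pos hNpos (4 * (L + 3))), Real.log_pow]
    push_cast
    ring_nf
  have h6 : ((N : ℝ) ^ 20)⁻¹ = Real.exp (-(20 * Real.log N)) := by
    rw [Real.exp_neg, ← Real.exp_log (pow_pos hNpos 20), Real.log_pow]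
    push_cast
    ring_nf
  rw [h6]
  calc ((2 * N * N + N + 1 : ℕ) : ℝ) ^ (L + 3) * Real.exp (-(3 / 2) * q)
      ≤ ((N : ℝ) ^ 4) ^ (L + 3) * Real.exp (-(3 / 2) * q) := by
        apply mul_le_mul_of_nonneg_right _ (Real.exp_pos _).le
        exact pow_le_pow_left₀ (Nat.cast_nonneg _) h1 _
    _ = Real.exp (4 * (L + 3) * Real.log N + (-(3 / 2) * q)) := by rw [h5, Real.exp_add]
    _ ≤ Real.exp (-(20 * Real.log N)) := by
        apply Real.exp_le_exp.2
        have hL : (0 : ℝ) ≤ (L : ℝ) * Real.log N := mul_nonneg (Nat.cast_nonneg _) hlog0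
        nlinarith

end Pool.Agent.MP_9cec2c_lc.Flat
end

section

/-!
Networks: from the values of the edges of a network to incomplete partitions into sets of size
`k * s`. A value `a` in `ZMod s` of an edge is represented by a set with `k * a` points at one end
and `k * s - k * a` points at the other end; the remaining points at a node can be partitioned if
the equation of the node holds.
-/

set_option autoImplicit false
set_option linter.unusedSectionVars false

namespace Pool.Agent.MP_9cec2c_lc.CP

open Finset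

section part

variable {α : Type} [DecidableEq α]

/-- A partition of a finite set into sets of size `r`. -/
theorem exists_part {r : ℕ} (S : Finset α) (hS : r ∣ S.card) :
    ∃ f : α → Finset α, (∀ z ∈ S, z ∈ f z ∧ f z ⊆ S ∧ (f z).card = r) ∧
      ∀ z ∈ S, ∀ z' ∈ f z, f z' = f z := by
  obtain ⟨n, hn⟩ := hS
  induction n generalizing S with
  | zero =>
    rw [mul_zero, card_eq_zero] at hn
    subst hn
    exact ⟨fun _ => ∅, fun z hz => absurd hz (notMem_empty z),
      fun z hz => absurd hz (notMem_empty z)⟩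
  | succ n ih =>
    obtain ⟨T, hT, hTc⟩ := exists_subset_card_eq (s := S) (n := r) (by rw [hn, mul_add]; omega)
    obtain ⟨f, h1, h2⟩ := ih (S \ T) (by
      rw [card_sdiff_of_subset hT, hn, hTc, mul_add, mul_one, Nat.add_sub_cancel])
    refine ⟨fun z => if z ∈ T then T else f z, fun z hz => ?_, fun z hz z' hz' => ?_⟩
    · by_cases h : z ∈ T
      · simp only [if_pos h]
        exact ⟨h, hT, hTc⟩
      · simp only [if_neg h]
        have h3 := h1 z (mem_sdiff.2 ⟨hz, h⟩)
        exact ⟨h3.1, h3.2.1.trans sdiff_subset, h3.2.2⟩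
    · by_cases h : z ∈ T
      · simp only [if_pos h] at hz' ⊢
        simp only [if_pos hz']
      · simp only [if_neg h] at hz' ⊢
        have h3 := h1 z (mem_sdiff.2 ⟨hz, h⟩)
        have h4 := mem_sdiff.1 (h3.2.1 hz')
        simp only [if_neg h4.2]
        exact h2 z (mem_sdiff.2 ⟨hz, h⟩) z' hz'

open Classical in
/-- The block of `z` in a fixed partition of `S` into sets of size `r`, if there is one. -/
noncomputable def part (r : ℕ) (S : Finset α) (z : α) : Finset α :=
  if h : 0 < r ∧ r ∣ S.card ∧ z ∈ S then (exists_part S h.2.1).choose z else ∅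

theorem part_mem {r : ℕ} (hr : 0 < r) {S : Finset α} (hS : r ∣ S.card) {z : α} (hz : z ∈ S) :
    z ∈ part r S z ∧ part r S z ⊆ S ∧ (part r S z).card = r := by
  unfold part
  rw [dif_pos ⟨hr, hS, hz⟩]
  exact (exists_part S hS).choose_spec.1 z hz

theorem part_or (r : ℕ) (S : Finset α) (z : α) :
    part r S z = ∅ ∨ (r ∣ S.card ∧ z ∈ S ∧ 0 < r) := by
  by_cases h : 0 < r ∧ r ∣ S.card ∧ z ∈ S
  · exact Or.inr ⟨h.2.1, h.2.2, h.1⟩
  · left
    unfold part
    rw [dif_neg h]

theorem part_eq {r : ℕ} {S : Finset α} {z z' : α} (hz : z' ∈ part r S z) :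
    part r S z' = part r S z := by
  rcases part_or r S z with h | ⟨h1, h2, h3⟩
  · rw [h] at hz
    exact absurd hz (notMem_empty z')
  · have h4 := (part_mem h3 h1 h2).2.1 hz
    unfold part at hz ⊢
    rw [dif_pos ⟨h3, h1, h2⟩] at hz
    rw [dif_pos ⟨h3, h1, h4⟩, dif_pos ⟨h3, h1, h2⟩]
    exact (exists_part S h1).choose_spec.2 z h2 z' hz

end part

/-- For every state `x` the sets `bl x z` are the blocks of a partition of a part of the points;
`bl x z` is empty if `z` is not covered. -/
structure IsBl {X P : Type} (bl : X → P → Finset P) : Prop where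
  mem_or : ∀ x z, bl x z = ∅ ∨ z ∈ bl x z
  eq_of_mem : ∀ x z z', z' ∈ bl x z → bl x z' = bl x z

/-- Incomplete partitions into sets of size `r` that are computed at the nodes `q`: the block of a point
`z` only depends on the state at the node of `z` (`eqv q x y` says that `x` and `y` are the same at
`q`), and it is empty only if the state is bad there. -/
structure Good {X Q P : Type} (eqv : Q → X → X → Prop) (bad : Q → X → Prop) (r w : ℕ)
    (node : P → Option Q) (bl : X → P → Finset P) : Prop where
  isBl : IsBl bl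
  loc : ∀ z x y, (∀ q, node z = some q → eqv q x y) → bl x z = bl y z
  kill : ∀ x z, bl x z = ∅ → ∃ q, node z = some q ∧ bad q x
  card : ∀ x z, bl x z ≠ ∅ → (bl x z).card = r
  width : ∀ z, ∃ S : Finset (Finset P), S.card ≤ w ∧ ∀ x, bl x z ∈ S

section transport

variable {X Q P P' : Type} {eqv : Q → X → X → Prop} {bad : Q → X → Prop} {r w : ℕ}
  {node : P → Option Q} {bl : X → P → Finset P}

/-- Renaming the points. -/
theorem Good.map (h : Good eqv bad r w node bl) (e : P' ≃ P) :
    Good eqv bad r w (fun z => node (e z)) (fun x z => (bl x (e z)).map e.symm.toEmbedding) := by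
  classical
  refine ⟨⟨fun x z => ?_, fun x z z' hz => ?_⟩, fun z x y hxy => ?_, fun x z hz => ?_,
    fun x z hz => ?_, fun z => ?_⟩
  · rcases h.isBl.mem_or x (e z) with h1 | h1
    · left
      rw [h1, map_empty]
    · right
      rw [mem_map]
      exact ⟨e z, h1, e.symm_apply_apply z⟩
  · obtain ⟨z'', h1, h2⟩ := mem_map.1 hz
    have h3 : e z' = z'' := by
      rw [← h2]
      exact e.apply_symm_apply z''
    show (bl x (e z')).map _ = (bl x (e z)).map _
    rw [h3, h.isBl.eq_of_mem x (e z) z'' h1]
  · show (bl x (e z)).map _ = (bl y (e z)).map _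
    rw [h.loc (e z) x y hxy]
  · rw [map_eq_empty] at hz
    exact h.kill x (e z) hz
  · rw [card_map]
    refine h.card x (e z) fun h1 => hz ?_
    show (bl x (e z)).map _ = ∅
    rw [h1, map_empty]
  · obtain ⟨S, hS, hS'⟩ := h.width (e z)
    refine ⟨S.image fun B => B.map e.symm.toEmbedding, card_image_le.trans hS, fun x => ?_⟩
    exact mem_image_of_mem _ (hS' x)

/-- Adding fixed blocks. -/
theorem Good.addFixed (h : Good eqv bad r w node bl) (hr : 0 < r) (hw : 1 ≤ w) (t : ℕ) :
    Good eqv bad r w (Sum.elim node fun _ : Fin t × Fin r => none)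
      (fun x => Sum.elim (fun z => (bl x z).map Function.Embedding.inl)
        fun c => (univ : Finset (Fin r)).map
          ⟨fun j => (Sum.inr (c.1, j) : P ⊕ (Fin t × Fin r)), fun j j' hj => by
            simpa using hj⟩) := by
  classical
  refine ⟨⟨fun x z => ?_, fun x z z' hz => ?_⟩, fun z x y hxy => ?_, fun x z hz => ?_,
    fun x z hz => ?_, fun z => ?_⟩
  · rcases z with z | ⟨a, j⟩
    · rcases h.isBl.mem_or x z with h1 | h1
      · left
        show (bl x z).map _ = ∅
        rw [h1, map_empty]
      · right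
        exact mem_map.2 ⟨z, h1, rfl⟩
    · right
      exact mem_map.2 ⟨j, mem_univ _, rfl⟩
  · rcases z with z | ⟨a, j⟩
    · obtain ⟨z'', h1, rfl⟩ := mem_map.1 hz
      show (bl x z'').map _ = (bl x z).map _
      rw [h.isBl.eq_of_mem x z z'' h1]
    · obtain ⟨j', -, rfl⟩ := mem_map.1 hz
      rfl
  · rcases z with z | ⟨a, j⟩
    · show (bl x z).map _ = (bl y z).map _
      rw [h.loc z x y hxy]
    · rfl
  · rcases z with z | ⟨a, j⟩
    · have h1 : (bl x z).map _ = ∅ := hz
      rw [map_eq_empty] at h1
      exact h.kill x z h1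
    · exfalso
      have h1 : (univ : Finset (Fin r)).map _ = ∅ := hz
      rw [map_eq_empty] at h1
      have h2 := mem_univ (⟨0, hr⟩ : Fin r)
      rw [h1] at h2
      exact absurd h2 (notMem_empty _)
  · rcases z with z | ⟨a, j⟩
    · show ((bl x z).map _).card = r
      rw [card_map]
      refine h.card x z fun h1 => hz ?_
      show (bl x z).map _ = ∅
      rw [h1, map_empty]
    · show ((univ : Finset (Fin r)).map _).card = r
      rw [card_map, card_univ, Fintype.card_fin]
  · rcases z with z | ⟨a, j⟩
    · obtain ⟨S, hS, hS'⟩ := h.width z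
      refine ⟨S.image fun B => B.map Function.Embedding.inl, card_image_le.trans hS, fun x => ?_⟩
      exact mem_image_of_mem _ (hS' x)
    · refine ⟨{(univ : Finset (Fin r)).map
          ⟨fun j => (Sum.inr (a, j) : P ⊕ (Fin t × Fin r)), fun j j' hj => by
            simpa using hj⟩}, by rw [card_singleton]; exact hw, fun x => mem_singleton_self _⟩

end transport

end Pool.Agent.MP_9cec2c_lc.CP
end

section

/-!
The clauses of 'the sets `blk v` with true `v` form a partition of the set of points', and the
counting principles.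
-/

set_option autoImplicit false

namespace Pool.Agent.MP_9cec2c_lc.FG

open Finset

section

variable {V P : Type} [Fintype V] [DecidableEq V] [Fintype P] [DecidableEq P]

/-- The point `z` lies in one of the chosen sets. -/
def pointClause (blk : V → Finset P) (z : P) : Finset (V × Bool) :=
  (univ.filter fun v => z ∈ blk v).image fun v => (v, true)

/-- Different chosen sets are disjoint. -/
def pairClauses (blk : V → Finset P) : Finset (Finset (V × Bool)) :=
  (univ.filter fun e : V × V => e.1 ≠ e.2 ∧ ¬ Disjoint (blk e.1) (blk e.2)).image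
    fun e => {(e.1, false), (e.2, false)}

/-- Choose some of the sets `blk v`, where the variable `v` says that `blk v` is chosen: each point
lies in a chosen set, and different chosen sets are disjoint. -/
def exactCover (blk : V → Finset P) : Finset (Finset (V × Bool)) :=
  (univ.image fun z => pointClause blk z) ∪ pairClauses blk

end

/-- The clauses which say that some of the sets in `H` form a partition of the points
`0, ..., M - 1`; the variables are the sets in `H`. If `H` consists of all sets of `r` points, this is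
(the negation of) the counting principle modulo `r` on `M` points. -/
noncomputable def partitionCNF {M : ℕ} (H : Finset (Finset (Fin M))) :
    List (List ({B // B ∈ H} × Bool)) :=
  listCNF (exactCover Subtype.val)

end Pool.Agent.MP_9cec2c_lc.FG
end

section

/-!
The incomplete partition of a network.
-/

set_option autoImplicit false
set_option linter.unusedSectionVars false

namespace Pool.Agent.MP_9cec2c_lc.CP

open Finset

section count

theorem card_lt (n m : ℕ) (h : m ≤ n) : (univ.filter fun j : Fin n => j.val < m).card = m := by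
  have h1 : (univ.filter fun j : Fin n => j.val < m) =
      (univ : Finset (Fin m)).map (Fin.castLEEmb h) := by
    ext j
    rw [mem_filter, mem_map]
    constructor
    · rintro ⟨-, hj⟩
      exact ⟨⟨j.val, hj⟩, mem_univ _, rfl⟩
    · rintro ⟨i, -, rfl⟩
      exact ⟨mem_univ _, i.2⟩
  rw [h1, card_map, card_univ, Fintype.card_fin]

theorem card_not_lt (n m : ℕ) (h : m ≤ n) :
    (univ.filter fun j : Fin n => ¬ j.val < m).card = n - m := by
  have h1 := card_filter_add_card_filter_not (s := (univ : Finset (Fin n)))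
    (fun j : Fin n => j.val < m)
  rw [card_lt n m h, card_univ, Fintype.card_fin] at h1
  omega

end count

variable {V Q : Type} [Fintype V] [DecidableEq V] [Fintype Q] [DecidableEq Q]

/-- The points: `k * s - 1` points at both ends of each edge, and `ext q` more points at the node
`q`. -/
abbrev Pt (V Q : Type) (r : ℕ) (ext : Q → ℕ) : Type :=
  (V × Bool × Fin (r - 1)) ⊕ (Σ q : Q, Fin (ext q))

section

variable (src tgt : V → Q) (s k : ℕ) [NeZero s] (ext : Q → ℕ)

/-- The node of a point. -/
def nd {r : ℕ} {ext : Q → ℕ} : Pt V Q r ext → Q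
  | Sum.inl (i, true, _) => src i
  | Sum.inl (i, false, _) => tgt i
  | Sum.inr q => q.1

/-- The edge of a point. -/
def ed {r : ℕ} {ext : Q → ℕ} : Pt V Q r ext → Option V
  | Sum.inl (i, _, _) => some i
  | Sum.inr _ => none

/-- The number of points that the block of an edge with the value `a` has at its two ends. -/
def sz (b : Bool) (a : ZMod s) : ℕ := if b then k * s - k * a.val else k * a.val

/-- The point lies in the block of its edge. -/
def Matched {s : ℕ} (k : ℕ) {r : ℕ} {ext : Q → ℕ} (x : V → ZMod s) : Pt V Q r ext → Prop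
  | Sum.inl (i, b, j) => x i ≠ 0 ∧ j.val < sz s k b (x i)
  | Sum.inr _ => False

open Classical in
/-- The points at the node `q` that are not matched by edges. -/
noncomputable def left {s : ℕ} (k : ℕ) {r : ℕ} {ext : Q → ℕ} (x : V → ZMod s) (q : Q) :
    Finset (Pt V Q r ext) :=
  univ.filter fun z => nd src tgt z = q ∧ ¬ Matched k x z

open Classical in
/-- The blocks. -/
noncomputable def nbl {s : ℕ} (k : ℕ) {r : ℕ} {ext : Q → ℕ} (x : V → ZMod s)
    (z : Pt V Q r ext) : Finset (Pt V Q r ext) :=
  if Matched k x z then univ.filter fun z' => ed z' = ed z ∧ Matched k x z'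
  else part r (left src tgt k x (nd src tgt z)) z

end

section blocks

variable {src tgt : V → Q} {s k r : ℕ} [NeZero s] {ext : Q → ℕ}

theorem mem_left {x : V → ZMod s} {q : Q} {z : Pt V Q r ext} :
    z ∈ left src tgt k x q ↔ nd src tgt z = q ∧ ¬ Matched k x z := by
  classical
  unfold left
  rw [mem_filter]
  exact and_iff_right (mem_univ _)

theorem nbl_pos {x : V → ZMod s} {z z' : Pt V Q r ext} (h : Matched k x z) :
    z' ∈ nbl src tgt k x z ↔ ed z' = ed z ∧ Matched k x z' := by
  classical
  unfold nbl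
  rw [if_pos h, mem_filter]
  exact and_iff_right (mem_univ _)

theorem nbl_neg {x : V → ZMod s} {z : Pt V Q r ext} (h : ¬ Matched k x z) :
    nbl src tgt k x z = part r (left src tgt k x (nd src tgt z)) z := by
  unfold nbl
  rw [if_neg h]

theorem nbl_isBl (hr : 0 < r) : IsBl (nbl src tgt k : (V → ZMod s) → Pt V Q r ext → _) := by
  classical
  refine ⟨fun x z => ?_, fun x z z' hz => ?_⟩
  · by_cases h : Matched k x z
    · exact Or.inr ((nbl_pos h).2 ⟨rfl, h⟩)
    · rw [nbl_neg h]
      rcases part_or r (left src tgt k x (nd src tgt z)) z with h1 | ⟨h1, h2, -⟩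
      · exact Or.inl h1
      · exact Or.inr (part_mem hr h1 h2).1
  · by_cases h : Matched k x z
    · obtain ⟨h1, h2⟩ := (nbl_pos h).1 hz
      ext z''
      rw [nbl_pos h, nbl_pos h2, h1]
    · rw [nbl_neg h] at hz ⊢
      rcases part_or r (left src tgt k x (nd src tgt z)) z with h1 | ⟨h1, h2, -⟩
      · rw [h1] at hz
        exact absurd hz (notMem_empty _)
      · have h3 := (part_mem hr h1 h2).2.1 hz
        obtain ⟨h4, h5⟩ := mem_left.1 h3
        rw [nbl_neg h5, h4]
        exact part_eq hz

/-- The states are the same at the node `q`. -/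
def Same (src tgt : V → Q) (q : Q) (x y : V → ZMod s) : Prop :=
  ∀ i, (src i = q ∨ tgt i = q) → x i = y i

theorem matched_congr {x y : V → ZMod s} {z : Pt V Q r ext}
    (h : Same src tgt (nd src tgt z) x y) : Matched k x z ↔ Matched k y z := by
  rcases z with ⟨i, b, j⟩ | q
  · have h1 : x i = y i := by
      apply h i
      cases b
      · exact Or.inr rfl
      · exact Or.inl rfl
    show (x i ≠ 0 ∧ j.val < sz s k b (x i)) ↔ (y i ≠ 0 ∧ j.val < sz s k b (y i))
    rw [h1]
  · exact Iff.rfl

theorem nbl_congr {x y : V → ZMod s} {z : Pt V Q r ext}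
    (h : Same src tgt (nd src tgt z) x y) : nbl src tgt k x z = nbl src tgt k y z := by
  classical
  have h1 := matched_congr (k := k) h
  by_cases hm : Matched k x z
  · have hm' := h1.1 hm
    ext z'
    rw [nbl_pos hm, nbl_pos hm']
    refine and_congr_right fun he => ?_
    rcases z with ⟨i, b, j⟩ | q
    · rcases z' with ⟨i', b', j'⟩ | q'
      · have he' : i' = i := Option.some.inj he
        have hi : x i' = y i' := by
          rw [he']
          apply h i
          cases b
          · exact Or.inr rfl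
          · exact Or.inl rfl
        show (x i' ≠ 0 ∧ j'.val < sz s k b' (x i')) ↔ (y i' ≠ 0 ∧ j'.val < sz s k b' (y i'))
        rw [hi]
      · exact Iff.rfl
    · exact absurd hm id
  · have hm' := fun h2 => hm (h1.2 h2)
    rw [nbl_neg hm, nbl_neg hm']
    congr 1
    ext z'
    rw [mem_left, mem_left]
    refine and_congr_right fun he => not_congr ?_
    exact matched_congr (by rw [he]; exact h)

end blocks

end Pool.Agent.MP_9cec2c_lc.CP
end

section

/-!
The sizes of the blocks of a network.
-/

set_option autoImplicit false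
set_option linter.unusedSectionVars false

namespace Pool.Agent.MP_9cec2c_lc.CP

open Finset

section numbers

variable {s k : ℕ} [NeZero s]

theorem val_pos {a : ZMod s} (ha : a ≠ 0) : 1 ≤ a.val := by
  rw [Nat.one_le_iff_ne_zero]
  exact fun h => ha ((ZMod.val_eq_zero a).1 h)

theorem sz_le (hk : 0 < k) (b : Bool) {a : ZMod s} (ha : a ≠ 0) : sz s k b a ≤ k * s - 1 := by
  have h1 := val_pos ha
  have h2 := ZMod.val_lt a
  have h3 : k * 1 ≤ k * a.val := Nat.mul_le_mul_left k h1
  have h4 : k * (a.val + 1) ≤ k * s := Nat.mul_le_mul_left k h2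
  rw [mul_add] at h4
  unfold sz
  split_ifs
  · omega
  · omega

/-- The number of matched points at one end of an edge. -/
theorem card_matched (hk : 0 < k) (b : Bool) {a : ZMod s} (ha : a ≠ 0) :
    (univ.filter fun j : Fin (k * s - 1) => a ≠ 0 ∧ j.val < sz s k b a).card = sz s k b a := by
  have h1 : (univ.filter fun j : Fin (k * s - 1) => a ≠ 0 ∧ j.val < sz s k b a) =
      univ.filter fun j : Fin (k * s - 1) => j.val < sz s k b a := by
    ext j
    simp [ha]
  rw [h1, card_lt _ _ (sz_le hk b ha)]

theorem sz_add (a : ZMod s) : sz s k true a + sz s k false a = k * s := by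
  have h2 := ZMod.val_lt a
  have h4 : k * a.val ≤ k * s := Nat.mul_le_mul_left k h2.le
  unfold sz
  simp only [if_true, Bool.false_eq_true, if_false]
  omega

/-- The number of the other points at one end of an edge. -/
theorem cast_unmatched (hk : 0 < k) (b : Bool) (a : ZMod s) :
    (((univ.filter fun j : Fin (k * s - 1) => ¬ (a ≠ 0 ∧ j.val < sz s k b a)).card : ℕ) :
      ZMod (k * s)) = (if b then 1 else -1) * ((k * a.val : ℕ) : ZMod (k * s)) - 1 := by
  have hs : 0 < s := Nat.pos_of_ne_zero (NeZero.ne s)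
  have hks : 1 ≤ k * s := Nat.mul_pos hk hs
  have h0 : ((k * s : ℕ) : ZMod (k * s)) = 0 := ZMod.natCast_self _
  by_cases ha : a = 0
  · have h1 : (univ.filter fun j : Fin (k * s - 1) => ¬ (a ≠ 0 ∧ j.val < sz s k b a)) = univ := by
      ext j
      simp [ha]
    rw [h1, card_univ, Fintype.card_fin, Nat.cast_sub hks, h0, ha, ZMod.val_zero, mul_zero]
    simp
  · have h1 := card_filter_add_card_filter_not (s := (univ : Finset (Fin (k * s - 1))))
      (fun j : Fin (k * s - 1) => a ≠ 0 ∧ j.val < sz s k b a)
    rw [card_matched hk b ha, card_univ, Fintype.card_fin] at h1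
    have h2 : (univ.filter fun j : Fin (k * s - 1) => ¬ (a ≠ 0 ∧ j.val < sz s k b a)).card =
        k * s - 1 - sz s k b a := by omega
    rw [h2, Nat.cast_sub (sz_le hk b ha), Nat.cast_sub hks, h0]
    have h3 : k * a.val ≤ k * s := Nat.mul_le_mul_left k (ZMod.val_lt a).le
    cases b
    · unfold sz
      simp only [Bool.false_eq_true, if_false, Nat.cast_one]
      ring
    · unfold sz
      simp only [if_true, Nat.cast_one]
      rw [Nat.cast_sub h3, h0]
      ring

end numbers

variable {V Q : Type} [Fintype V] [DecidableEq V] [Fintype Q] [DecidableEq Q]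

section sums

variable {r : ℕ} {ext : Q → ℕ}

/-- Counting points. -/
theorem card_filter_pt (p : Pt V Q r ext → Prop) [DecidablePred p] :
    (univ.filter p).card = ∑ i : V, ((univ.filter fun j => p (Sum.inl (i, true, j))).card +
      (univ.filter fun j => p (Sum.inl (i, false, j))).card) +
      ∑ q : Q, (univ.filter fun j : Fin (ext q) => p (Sum.inr ⟨q, j⟩)).card := by
  rw [card_filter, Fintype.sum_sum_type, Fintype.sum_prod_type, Fintype.sum_sigma]
  congr 1
  · refine sum_congr rfl fun i _ => ?_
    rw [Fintype.sum_prod_type, Fintype.sum_bool, card_filter, card_filter]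
  · exact sum_congr rfl fun q _ => by rw [card_filter]

end sums

variable {src tgt : V → Q} {s k : ℕ} [NeZero s] {ext : Q → ℕ}

/-- The sum of the values of the edges at a node: with the sign 1 for `src` and -1 for `tgt`. -/
def nodeSum (src tgt : V → Q) (x : V → ZMod s) (q : Q) : ZMod s :=
  ∑ i, ((if src i = q then x i else 0) - if tgt i = q then x i else 0)

/-- The degree of a node. -/
def deg (src tgt : V → Q) (q : Q) : ℕ :=
  ∑ i, ((if src i = q then 1 else 0) + if tgt i = q then 1 else 0)

theorem sum_deg (src tgt : V → Q) : ∑ q, deg src tgt q = 2 * Fintype.card V := by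
  unfold deg
  rw [sum_comm]
  have h1 : ∀ i : V, ∑ q, ((if src i = q then 1 else 0) + if tgt i = q then 1 else 0) = 2 := by
    intro i
    rw [sum_add_distrib, sum_ite_eq, sum_ite_eq, if_pos (mem_univ _), if_pos (mem_univ _)]
  rw [sum_congr rfl fun i _ => h1 i, sum_const, card_univ, smul_eq_mul, mul_comm]

/-- The size of the block of an edge. -/
theorem card_nbl_matched (hk : 0 < k) {x : V → ZMod s} {z : Pt V Q (k * s) ext}
    (h : Matched k x z) : (nbl src tgt k x z).card = k * s := by
  classical
  rcases z with ⟨i, b, j⟩ | q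
  · have hx : x i ≠ 0 := h.1
    have h1 : nbl src tgt k x (Sum.inl (i, b, j) : Pt V Q (k * s) ext) =
        univ.filter fun z' => ed z' = some i ∧ Matched k x z' := by
      ext z'
      rw [nbl_pos h, mem_filter]
      exact (and_iff_right (mem_univ _)).symm
    rw [h1, card_filter_pt]
    have h2 : ∀ q : Q, (univ.filter fun j : Fin (ext q) =>
        ed (Sum.inr ⟨q, j⟩ : Pt V Q (k * s) ext) = some i ∧
          Matched k x (Sum.inr ⟨q, j⟩ : Pt V Q (k * s) ext)).card = 0 := by
      intro q
      rw [card_eq_zero, filter_eq_empty_iff]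
      rintro j - ⟨-, h3⟩
      exact h3
    rw [sum_congr rfl fun q _ => h2 q, sum_const_zero, add_zero]
    rw [sum_eq_single i]
    · have h3 : ∀ c : Bool, (univ.filter fun j : Fin (k * s - 1) =>
          ed (Sum.inl (i, c, j) : Pt V Q (k * s) ext) = some i ∧
            Matched k x (Sum.inl (i, c, j) : Pt V Q (k * s) ext)).card = sz s k c (x i) := by
        intro c
        rw [← card_matched hk c hx]
        congr 1
        ext j
        rw [mem_filter, mem_filter]
        refine and_congr_right fun _ => ?_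
        exact and_iff_right rfl
      rw [h3, h3, sz_add]
    · intro i' _ hi'
      have h3 : ∀ c : Bool, (univ.filter fun j : Fin (k * s - 1) =>
          ed (Sum.inl (i', c, j) : Pt V Q (k * s) ext) = some i ∧
            Matched k x (Sum.inl (i', c, j) : Pt V Q (k * s) ext)).card = 0 := by
        intro c
        rw [card_eq_zero, filter_eq_empty_iff]
        rintro j - ⟨h4, -⟩
        exact hi' (Option.some.inj h4)
      rw [h3, h3, add_zero]
    · intro h3
      exact absurd (mem_univ i) h3
  · exact absurd h id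

/-- The number of the points at a node that are not matched by edges. -/
theorem cast_card_left (hk : 0 < k) (x : V → ZMod s) (q : Q) :
    (((left src tgt k x q : Finset (Pt V Q (k * s) ext)).card : ℕ) : ZMod (k * s)) =
      ((∑ i, ((if src i = q then ((k * (x i).val : ℕ) : ZMod (k * s)) else 0) -
        if tgt i = q then ((k * (x i).val : ℕ) : ZMod (k * s)) else 0)) - deg src tgt q) +
          ext q := by
  classical
  have h1 : (left src tgt k x q : Finset (Pt V Q (k * s) ext)) =
      univ.filter fun z => nd src tgt z = q ∧ ¬ Matched k x z := by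
    ext z
    rw [mem_left, mem_filter]
    exact (and_iff_right (mem_univ _)).symm
  rw [h1, card_filter_pt, Nat.cast_add]
  congr 1
  · unfold deg
    rw [Nat.cast_sum, Nat.cast_sum, ← sum_sub_distrib]
    refine sum_congr rfl fun i _ => ?_
    have h2 : ∀ c : Bool, (((univ.filter fun j : Fin (k * s - 1) =>
        nd src tgt (Sum.inl (i, c, j) : Pt V Q (k * s) ext) = q ∧
          ¬ Matched k x (Sum.inl (i, c, j) : Pt V Q (k * s) ext)).card : ℕ) : ZMod (k * s)) =
        if (if c then src i else tgt i) = q then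
          (if c then 1 else -1) * ((k * (x i).val : ℕ) : ZMod (k * s)) - 1 else 0 := by
      intro c
      by_cases hc : (if c then src i else tgt i) = q
      · rw [if_pos hc, ← cast_unmatched hk c (x i)]
        congr 2
        ext j
        rw [mem_filter, mem_filter]
        refine and_congr_right fun _ => ?_
        have h3 : nd src tgt (Sum.inl (i, c, j) : Pt V Q (k * s) ext) = q := by
          rw [← hc]
          cases c
          · rfl
          · rfl
        exact and_iff_right h3
      · rw [if_neg hc]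
        have h3 : (univ.filter fun j : Fin (k * s - 1) =>
            nd src tgt (Sum.inl (i, c, j) : Pt V Q (k * s) ext) = q ∧
              ¬ Matched k x (Sum.inl (i, c, j) : Pt V Q (k * s) ext)) = ∅ := by
          rw [filter_eq_empty_iff]
          rintro j - ⟨h4, -⟩
          apply hc
          rw [← h4]
          cases c
          · rfl
          · rfl
        rw [h3, card_empty, Nat.cast_zero]
    rw [Nat.cast_add, h2, h2]
    simp only [if_true, Bool.false_eq_true, if_false, one_mul]
    by_cases h3 : src i = q <;> by_cases h4 : tgt i = q <;> simp only [h3, h4, if_true, if_false]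
    · push_cast
      ring
    · push_cast
      ring
    · push_cast
      ring
    · push_cast
      ring
  · have h2 : ∀ q' : Q, (univ.filter fun j : Fin (ext q') =>
        nd src tgt (Sum.inr ⟨q', j⟩ : Pt V Q (k * s) ext) = q ∧
          ¬ Matched k x (Sum.inr ⟨q', j⟩ : Pt V Q (k * s) ext)).card =
        if q' = q then ext q' else 0 := by
      intro q'
      by_cases hq : q' = q
      · rw [if_pos hq]
        have h3 : (univ.filter fun j : Fin (ext q') =>
            nd src tgt (Sum.inr ⟨q', j⟩ : Pt V Q (k * s) ext) = q ∧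
              ¬ Matched k x (Sum.inr ⟨q', j⟩ : Pt V Q (k * s) ext)) = univ := by
          rw [filter_eq_self]
          intro j _
          exact ⟨hq, fun h4 => h4⟩
        rw [h3, card_univ, Fintype.card_fin]
      · rw [if_neg hq, card_eq_zero, filter_eq_empty_iff]
        rintro j - ⟨h3, -⟩
        exact hq h3
    rw [sum_congr rfl fun q' _ => h2 q', sum_ite_eq', if_pos (mem_univ _)]

/-- If the equation of the node holds, the remaining points can be partitioned. -/
theorem dvd_card_left (hk : 0 < k) {chg : Q → ZMod s}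
    (hext : ∀ q, (ext q : ZMod (k * s)) = deg src tgt q - ((k * (chg q).val : ℕ) : ZMod (k * s)))
    {x : V → ZMod s} {q : Q} (h : nodeSum src tgt x q = chg q) :
    k * s ∣ (left src tgt k x q : Finset (Pt V Q (k * s) ext)).card := by
  rw [← ZMod.natCast_eq_zero_iff, cast_card_left hk, hext]
  obtain ⟨n, hn⟩ : ∃ n : ℤ, n = ∑ i, ((if src i = q then ((x i).val : ℤ) else 0) -
    if tgt i = q then ((x i).val : ℤ) else 0) := ⟨_, rfl⟩
  have h1 : (∑ i, ((if src i = q then ((k * (x i).val : ℕ) : ZMod (k * s)) else 0) -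
      if tgt i = q then ((k * (x i).val : ℕ) : ZMod (k * s)) else 0)) =
      ((k * n : ℤ) : ZMod (k * s)) := by
    rw [hn, mul_sum, Int.cast_sum]
    refine sum_congr rfl fun i _ => ?_
    split_ifs <;> push_cast <;> ring
  have h2 : ((n : ℤ) : ZMod s) = chg q := by
    rw [← h, hn, nodeSum, Int.cast_sum]
    refine sum_congr rfl fun i _ => ?_
    split_ifs <;> simp
  have h3 : (s : ℤ) ∣ n - (chg q).val := by
    rw [← ZMod.intCast_zmod_eq_zero_iff_dvd, Int.cast_sub, h2, Int.cast_natCast,
      ZMod.natCast_zmod_val, sub_self]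
  obtain ⟨t, ht⟩ := h3
  rw [h1]
  have h4 : ((k * n : ℤ) : ZMod (k * s)) = ((k * (chg q).val : ℕ) : ZMod (k * s)) := by
    have h5 : (k : ℤ) * n = ((k * (chg q).val : ℕ) : ℤ) + ((k * s : ℕ) : ℤ) * t := by
      push_cast
      have : n = (chg q).val + s * t := by linarith
      rw [this]
      ring
    rw [h5, Int.cast_add, Int.cast_mul, Int.cast_natCast, Int.cast_natCast, ZMod.natCast_self,
      zero_mul, add_zero]
  rw [h4]
  ring

/-- The number of points. -/
theorem cast_card_pt (hk : 0 < k) {chg : Q → ZMod s}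
    (hext : ∀ q, (ext q : ZMod (k * s)) = deg src tgt q - ((k * (chg q).val : ℕ) : ZMod (k * s))) :
    ((Fintype.card (Pt V Q (k * s) ext) : ℕ) : ZMod (k * s)) =
      -((k * ∑ q, (chg q).val : ℕ) : ZMod (k * s)) := by
  have hs : 0 < s := Nat.pos_of_ne_zero (NeZero.ne s)
  have hks : 1 ≤ k * s := Nat.mul_pos hk hs
  rw [Fintype.card_sum, Fintype.card_prod, Fintype.card_prod, Fintype.card_bool, Fintype.card_fin,
    Fintype.card_sigma]
  have h1 : ((∑ q, Fintype.card (Fin (ext q)) : ℕ) : ZMod (k * s)) =
      ((2 * Fintype.card V : ℕ) : ZMod (k * s)) - ((k * ∑ q, (chg q).val : ℕ) : ZMod (k * s)) := by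
    rw [← sum_deg src tgt, mul_sum, Nat.cast_sum, Nat.cast_sum, Nat.cast_sum, ← sum_sub_distrib]
    refine sum_congr rfl fun q _ => ?_
    rw [Fintype.card_fin, hext]
  rw [Nat.cast_add, h1, Nat.cast_mul, Nat.cast_mul, Nat.cast_sub hks, ZMod.natCast_self]
  push_cast
  ring

/-- The incomplete partitions of a network. -/
theorem nbl_good (hk : 0 < k) {chg : Q → ZMod s}
    (hext : ∀ q, (ext q : ZMod (k * s)) = deg src tgt q - ((k * (chg q).val : ℕ) : ZMod (k * s)))
    {D : ℕ} (hD : ∀ q, ∃ I : Finset V, I.card ≤ D ∧ ∀ i, (src i = q ∨ tgt i = q) → i ∈ I) :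
    Good (Same src tgt) (fun q x => nodeSum src tgt x q ≠ chg q) (k * s) (s ^ D)
      (fun z : Pt V Q (k * s) ext => some (nd src tgt z)) (nbl src tgt k) := by
  classical
  have hs : 0 < s := Nat.pos_of_ne_zero (NeZero.ne s)
  have hks : 0 < k * s := Nat.mul_pos hk hs
  refine ⟨nbl_isBl hks, fun z x y hxy => nbl_congr (hxy _ rfl), fun x z hz => ?_,
    fun x z hz => ?_, fun z => ?_⟩
  · refine ⟨_, rfl, fun h => ?_⟩
    by_cases hm : Matched k x z
    · have h1 : z ∈ nbl src tgt k x z := (nbl_pos hm).2 ⟨rfl, hm⟩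
      rw [hz] at h1
      exact absurd h1 (notMem_empty _)
    · rw [nbl_neg hm] at hz
      have h1 := (part_mem hks (dvd_card_left hk hext h) (mem_left.2 ⟨rfl, hm⟩)).1
      rw [hz] at h1
      exact absurd h1 (notMem_empty _)
  · by_cases hm : Matched k x z
    · exact card_nbl_matched hk hm
    · rw [nbl_neg hm] at hz ⊢
      rcases part_or (k * s) (left src tgt k x (nd src tgt z)) z with h1 | ⟨h1, h2, -⟩
      · exact absurd h1 hz
      · exact (part_mem hks h1 h2).2.2
  · obtain ⟨I, hI, hI'⟩ := hD (nd src tgt z)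
    obtain ⟨ext', hext'⟩ : ∃ ext' : (I → ZMod s) → V → ZMod s,
        ext' = fun ρ v => if h : v ∈ I then ρ ⟨v, h⟩ else 0 := ⟨_, rfl⟩
    refine ⟨(univ : Finset (I → ZMod s)).image fun ρ => nbl src tgt k (ext' ρ) z, ?_, fun x => ?_⟩
    · refine card_image_le.trans ?_
      rw [card_univ, Fintype.card_fun, ZMod.card, Fintype.card_coe]
      exact Nat.pow_le_pow_right hs hI
    · refine mem_image.2 ⟨fun i => x i, mem_univ _, nbl_congr fun i hi => ?_⟩
      rw [hext']
      simp only [dif_pos (hI' i hi)]

/-- **Incomplete partitions of `M` points from a network.** -/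
theorem exists_good (hk : 0 < k) (chg : Q → ZMod s)
    {D : ℕ} (hD : ∀ q, ∃ I : Finset V, I.card ≤ D ∧ ∀ i, (src i = q ∨ tgt i = q) → i ∈ I)
    {m : ℕ} (hM : 2 * (k * s) * Fintype.card V + k * s * Fintype.card Q ≤ k * m)
    (hsum : ∑ q, chg q = -(m : ZMod s)) :
    ∃ (node : Fin (k * m) → Option Q) (bl : (V → ZMod s) → Fin (k * m) → Finset (Fin (k * m))),
      Good (Same src tgt) (fun q x => nodeSum src tgt x q ≠ chg q) (k * s) (s ^ D) node bl := by
  classical
  have hs : 0 < s := Nat.pos_of_ne_zero (NeZero.ne s)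
  have hks : 0 < k * s := Nat.mul_pos hk hs
  have : NeZero (k * s) := ⟨hks.ne'⟩
  obtain ⟨ext, hext0⟩ : ∃ ext : Q → ℕ, ext = fun q =>
    ((deg src tgt q : ZMod (k * s)) - ((k * (chg q).val : ℕ) : ZMod (k * s))).val := ⟨_, rfl⟩
  have hext : ∀ q, (ext q : ZMod (k * s)) =
      deg src tgt q - ((k * (chg q).val : ℕ) : ZMod (k * s)) := by
    intro q
    rw [hext0]
    simp only
    rw [ZMod.natCast_zmod_val]
  have hle : Fintype.card (Pt V Q (k * s) ext) ≤ k * m := by
    refine le_trans ?_ hM
    rw [Fintype.card_sum, Fintype.card_prod, Fintype.card_prod, Fintype.card_bool,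
      Fintype.card_fin, Fintype.card_sigma]
    refine Nat.add_le_add ?_ ?_
    · calc Fintype.card V * (2 * (k * s - 1)) ≤ Fintype.card V * (2 * (k * s)) :=
            Nat.mul_le_mul_left _ (Nat.mul_le_mul_left _ (Nat.sub_le _ _))
        _ = 2 * (k * s) * Fintype.card V := by ring
    · calc ∑ q, Fintype.card (Fin (ext q)) ≤ ∑ _q : Q, k * s := by
            refine sum_le_sum fun q _ => ?_
            rw [Fintype.card_fin, hext0]
            exact (ZMod.val_lt _).le
        _ = k * s * Fintype.card Q := by rw [sum_const, card_univ, smul_eq_mul, mul_comm]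
  have hdvd : k * s ∣ k * m - Fintype.card (Pt V Q (k * s) ext) := by
    rw [← ZMod.natCast_eq_zero_iff, Nat.cast_sub hle, cast_card_pt (src := src) (tgt := tgt) hk
      hext, sub_neg_eq_add, ← Nat.cast_add, ZMod.natCast_eq_zero_iff, ← mul_add]
    refine mul_dvd_mul_left k ?_
    rw [← ZMod.natCast_eq_zero_iff, Nat.cast_add, Nat.cast_sum]
    have h1 : ∑ q, (((chg q).val : ℕ) : ZMod s) = ∑ q, chg q :=
      sum_congr rfl fun q _ => ZMod.natCast_zmod_val _
    rw [h1, hsum, add_neg_cancel]
  obtain ⟨t, ht⟩ := hdvd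
  have hcard : Fintype.card (Fin (k * m)) =
      Fintype.card (Pt V Q (k * s) ext ⊕ (Fin t × Fin (k * s))) := by
    rw [Fintype.card_fin, Fintype.card_sum, Fintype.card_prod, Fintype.card_fin, Fintype.card_fin,
      mul_comm t]
    omega
  have hG := nbl_good (src := src) (tgt := tgt) hk hext hD
  have hG2 := (hG.addFixed hks (Nat.one_le_pow _ _ hs) t).map (Fintype.equivOfCardEq hcard)
  exact ⟨_, _, hG2⟩

end Pool.Agent.MP_9cec2c_lc.CP
end
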