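import Mathlib
import Pool.Agent.Lib.MP_9cec2c_lc.TTDefs

section

/-!
The numbers.
-/

set_option autoImplicit false

namespace Pool.Agent.MP_9cec2c_lc.TT

open Filter

/-- TASK TTNum2 (1). From the trivial bound.

PROOF. `m ≤ Δ * n ≤ 2 * Δ * z`, so `exp (w ^ (x / 20)) < 6 * Δ * z`; and `6 * Δ * exp (c * w ^ (c / (d + 1))) ≤
exp (w ^ (x / 20))` for large `w` if `c ≤ x / 40` and `c ≤ 1`: `c * w ^ (c / (d + 1)) ≤ w ^ (x / 40)` and
`w ^ (x / 20) = (w ^ (x / 40)) ^ 2 ≥ w ^ (x / 40) + log (6 * Δ + 1)` for large `w`. -/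
theorem exists_num_triv {x : ℝ} (hx : 0 < x) (Δ : ℕ) :
    ∃ w₀ : ℕ, ∀ w : ℕ, w₀ ≤ w → ∀ m n z : ℕ, Real.exp ((w : ℝ) ^ (x / 20)) < 3 * m → m ≤ Δ * n →
      n ≤ 2 * z → ∀ c : ℝ, 0 < c → c ≤ 1 → c ≤ x / 40 → ∀ d : ℕ,
        Real.exp (c * (w : ℝ) ^ (c / (d + 1))) ≤ z := by
  have ht : Tendsto (fun w : ℕ => (w : ℝ) ^ (x / 40)) atTop atTop :=
    (tendsto_rpow_atTop (by positivity : 0 < x / 40)).comp tendsto_natCast_atTop_atTop
  obtain ⟨w₁, hw₁⟩ := eventually_atTop.1
    (ht.eventually_ge_atTop (2 + Real.log (6 * (Δ : ℝ) + 1)))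
  refine ⟨max w₁ 1, ?_⟩
  intro w hw m n z hm hmn hnz c hc hc1 hcx d
  have hww : w₁ ≤ w := (le_max_left _ _).trans hw
  have hw1 : 1 ≤ w := (le_max_right _ _).trans hw
  have hw1' : (1 : ℝ) ≤ (w : ℝ) := by exact_mod_cast hw1
  have hw0 : (0 : ℝ) ≤ (w : ℝ) := by linarith
  have hT := hw₁ w hww
  have hlog : 0 ≤ Real.log (6 * (Δ : ℝ) + 1) := Real.log_nonneg (by
    have : (0 : ℝ) ≤ (Δ : ℝ) := Nat.cast_nonneg _
    linarith)
  have hsq : (w : ℝ) ^ (x / 20) = (w : ℝ) ^ (x / 40) * (w : ℝ) ^ (x / 40) := by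
    rw [← Real.rpow_add (by linarith)]
    congr 1
    ring
  have hge : (w : ℝ) ^ (x / 40) + Real.log (6 * (Δ : ℝ) + 1) ≤ (w : ℝ) ^ (x / 20) := by
    rw [hsq]
    nlinarith
  have hd1 : (1 : ℝ) ≤ (d : ℝ) + 1 := by
    have : (0 : ℝ) ≤ (d : ℝ) := Nat.cast_nonneg _
    linarith
  have hexp : c / ((d : ℝ) + 1) ≤ x / 40 := (div_le_self hc.le hd1).trans hcx
  have hcle : c * (w : ℝ) ^ (c / ((d : ℝ) + 1)) ≤ (w : ℝ) ^ (x / 40) := by
    have h1 : (w : ℝ) ^ (c / ((d : ℝ) + 1)) ≤ (w : ℝ) ^ (x / 40) :=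
      Real.rpow_le_rpow_of_exponent_le hw1' hexp
    have h2 : (0 : ℝ) ≤ (w : ℝ) ^ (c / ((d : ℝ) + 1)) := Real.rpow_nonneg hw0 _
    nlinarith
  refine (Real.exp_le_exp.2 hcle).trans ?_
  have hΔ : (0 : ℝ) ≤ (Δ : ℝ) := Nat.cast_nonneg _
  have h3 : Real.exp ((w : ℝ) ^ (x / 40)) * (6 * (Δ : ℝ) + 1) ≤ Real.exp ((w : ℝ) ^ (x / 20)) := by
    have h4 : Real.exp ((w : ℝ) ^ (x / 40)) * (6 * (Δ : ℝ) + 1) =
        Real.exp ((w : ℝ) ^ (x / 40) + Real.log (6 * (Δ : ℝ) + 1)) := by
      rw [Real.exp_add, Real.exp_log (by linarith)]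
    rw [h4]
    exact Real.exp_le_exp.2 hge
  have h5 : (m : ℝ) ≤ Δ * n := by exact_mod_cast hmn
  have h6 : (n : ℝ) ≤ 2 * z := by exact_mod_cast hnz
  have h7 : (3 : ℝ) * m ≤ 6 * Δ * z := by nlinarith
  have hz : (0 : ℝ) ≤ (z : ℝ) := Nat.cast_nonneg _
  have h8 : Real.exp ((w : ℝ) ^ (x / 40)) * (6 * (Δ : ℝ) + 1) ≤ (z : ℝ) * (6 * (Δ : ℝ) + 1) := by
    nlinarith
  exact le_of_mul_le_mul_right h8 (by linarith)

/-- TASK TTNum2 (2). Small `w`.

PROOF. `w ^ (c / (d + 1)) ≤ w₀ + 1` (for `w ≤ 1` it is at most 1, for `1 ≤ w` the exponent is at most 1), so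
`c * w ^ (..) ≤ Real.log 2`. -/
theorem exists_num_small (w₀ : ℕ) {c : ℝ} (hc : 0 < c) (hc1 : c ≤ 1)
    (hcw : c * (w₀ + 1) ≤ Real.log 2) {w : ℕ} (hw : w ≤ w₀) (d : ℕ) {z : ℕ} (hz : 2 ≤ z) :
    Real.exp (c * (w : ℝ) ^ (c / (d + 1))) ≤ z := by
  have hd1 : (1 : ℝ) ≤ (d : ℝ) + 1 := by
    have : (0 : ℝ) ≤ (d : ℝ) := Nat.cast_nonneg _
    linarith
  have he : 0 < c / ((d : ℝ) + 1) := by positivity
  have he1 : c / ((d : ℝ) + 1) ≤ 1 := (div_le_self hc.le hd1).trans hc1
  have hww : (w : ℝ) ≤ (w₀ : ℝ) := by exact_mod_cast hw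
  have h1 : (w : ℝ) ^ (c / ((d : ℝ) + 1)) ≤ (w₀ : ℝ) + 1 := by
    rcases Nat.eq_zero_or_pos w with h0 | h0
    · subst h0
      rw [Nat.cast_zero, Real.zero_rpow he.ne']
      positivity
    · have hw1 : (1 : ℝ) ≤ (w : ℝ) := by exact_mod_cast h0
      have h2 := Real.rpow_le_rpow_of_exponent_le hw1 he1
      rw [Real.rpow_one] at h2
      linarith
  have h2 : c * (w : ℝ) ^ (c / ((d : ℝ) + 1)) ≤ Real.log 2 :=
    (mul_le_mul_of_nonneg_left h1 hc.le).trans hcw
  refine (Real.exp_le_exp.2 h2).trans ?_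
  rw [Real.exp_log (by norm_num)]
  exact_mod_cast hz

/-- TASK TTNum2 (3). The bound is monotone in `c`.

PROOF. For `w = 0` both sides are `exp 0` (`Real.zero_rpow`, positive exponents); for `1 ≤ w` use
`Real.rpow_le_rpow_of_exponent_le` and `mul_le_mul`. -/
theorem bound_mono {c c' : ℝ} (hc : 0 < c) (hcc : c ≤ c') (w d : ℕ) :
    Real.exp (c * (w : ℝ) ^ (c / (d + 1))) ≤ Real.exp (c' * (w : ℝ) ^ (c' / (d + 1))) := by
  have hc' : 0 < c' := lt_of_lt_of_le hc hcc
  have hd1 : (0 : ℝ) < (d : ℝ) + 1 := by positivity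
  apply Real.exp_le_exp.2
  rcases Nat.eq_zero_or_pos w with h0 | h0
  · subst h0
    rw [Nat.cast_zero, Real.zero_rpow (by positivity), Real.zero_rpow (by positivity), mul_zero,
      mul_zero]
  · have hw1 : (1 : ℝ) ≤ (w : ℝ) := by exact_mod_cast h0
    have h1 : c / ((d : ℝ) + 1) ≤ c' / ((d : ℝ) + 1) := by gcongr
    exact mul_le_mul hcc (Real.rpow_le_rpow_of_exponent_le hw1 h1) (by positivity) hc'.le

end Pool.Agent.MP_9cec2c_lc.TT
end

section

/-!
Families of pairwise disjoint sets which cover a set of points, and the number of small sets of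
points covered by a family.
-/

set_option autoImplicit false
set_option linter.unusedSectionVars false

namespace Pool.Agent.MP_9cec2c_lc.CE

open Finset

variable {V P : Type} [Fintype V] [DecidableEq V] [Fintype P] [DecidableEq P]

/-- The members of `B` are disjoint, meet `T` and cover `T`. -/
def IsFam (blk : V → Finset P) (T : Finset P) (B : Finset V) : Prop :=
  (∀ u ∈ B, ∀ v ∈ B, u ≠ v → Disjoint (blk u) (blk v)) ∧ (∀ u ∈ B, ¬ Disjoint (blk u) T) ∧
    ∀ z ∈ T, ∃ u ∈ B, z ∈ blk u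

open Classical in
/-- All families for `T`. -/
noncomputable def fam (blk : V → Finset P) (T : Finset P) : Finset (Finset V) :=
  univ.filter (IsFam blk T)

variable {blk : V → Finset P} {T : Finset P} {B : Finset V}

theorem mem_fam : B ∈ fam blk T ↔ IsFam blk T B := by
  classical
  unfold fam
  rw [mem_filter]
  exact and_iff_right (mem_univ _)

theorem fam_empty : fam blk (∅ : Finset P) = {∅} := by
  ext B
  rw [mem_fam, mem_singleton]
  constructor
  · rintro ⟨-, h, -⟩
    rw [Finset.eq_empty_iff_forall_notMem]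
    intro u hu
    exact h u hu (disjoint_empty_right _)
  · rintro rfl
    exact ⟨fun u hu => absurd hu (notMem_empty u), fun u hu => absurd hu (notMem_empty u),
      fun z hz => absurd hz (notMem_empty z)⟩

theorem fam_in (h : B ∈ fam blk T) {z : P} (hz : ∃ u ∈ B, z ∈ blk u) :
    B ∈ fam blk (insert z T) := by
  rw [mem_fam] at h ⊢
  obtain ⟨h1, h2, h3⟩ := h
  refine ⟨h1, fun u hu hd => h2 u hu (hd.mono_right (subset_insert z T)), fun y hy => ?_⟩
  rcases mem_insert.1 hy with rfl | hy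
  · exact hz
  · exact h3 y hy

theorem fam_new (h : B ∈ fam blk T) {z : P} {u : V} (hz : z ∈ blk u)
    (hd : ∀ v ∈ B, Disjoint (blk u) (blk v)) : insert u B ∈ fam blk (insert z T) := by
  rw [mem_fam] at h ⊢
  obtain ⟨h1, h2, h3⟩ := h
  refine ⟨fun v hv w hw hvw => ?_, fun v hv => ?_, fun y hy => ?_⟩
  · rcases mem_insert.1 hv with hv1 | hv1
    · rcases mem_insert.1 hw with hw1 | hw1
      · exact absurd (hv1.trans hw1.symm) hvw
      · rw [hv1]
        exact hd w hw1
    · rcases mem_insert.1 hw with hw1 | hw1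
      · rw [hw1]
        exact (hd v hv1).symm
      · exact h1 v hv1 w hw1 hvw
  · rcases mem_insert.1 hv with rfl | hv
    · exact not_disjoint_iff.2 ⟨z, hz, mem_insert_self z T⟩
    · exact fun hd => h2 v hv (hd.mono_right (subset_insert z T))
  · rcases mem_insert.1 hy with rfl | hy
    · exact ⟨u, mem_insert_self u B, hz⟩
    · obtain ⟨w, hw, hw'⟩ := h3 y hy
      exact ⟨w, mem_insert_of_mem hw, hw'⟩

theorem exists_image (h : B ∈ fam blk T) : ∃ f : {z // z ∈ T} → V, B = univ.image f := by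
  rw [mem_fam] at h
  obtain ⟨h1, h2, h3⟩ := h
  choose f hf hf' using fun z : {z // z ∈ T} => h3 z.1 z.2
  refine ⟨f, ?_⟩
  ext u
  rw [mem_image]
  constructor
  · intro hu
    obtain ⟨z, hz, hz'⟩ := not_disjoint_iff.1 (h2 u hu)
    refine ⟨⟨z, hz'⟩, mem_univ _, ?_⟩
    by_contra hne
    exact disjoint_left.1 (h1 _ (hf ⟨z, hz'⟩) u hu hne) (hf' ⟨z, hz'⟩) hz
  · rintro ⟨z, -, rfl⟩
    exact hf z

theorem fam_card (h : B ∈ fam blk T) : B.card ≤ T.card := by
  obtain ⟨f, rfl⟩ := exists_image h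
  refine card_image_le.trans ?_
  rw [card_univ, Fintype.card_coe]

theorem card_fam (blk : V → Finset P) (T : Finset P) :
    (fam blk T).card ≤ Fintype.card V ^ T.card := by
  classical
  have h1 : fam blk T ⊆ (univ : Finset ({z // z ∈ T} → V)).image fun f => univ.image f := by
    intro B hB
    obtain ⟨f, rfl⟩ := exists_image hB
    exact mem_image_of_mem _ (mem_univ f)
  refine (card_le_card h1).trans (card_image_le.trans ?_)
  rw [card_univ, Fintype.card_fun, Fintype.card_coe]

/-- Two families for `T` have members that intersect and are different. -/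
theorem fam_pair {B' : Finset V} (h : B ∈ fam blk T) (h' : B' ∈ fam blk T) (hne : B ≠ B') :
    ∃ u ∈ B, ∃ v ∈ B', u ≠ v ∧ ¬ Disjoint (blk u) (blk v) := by
  have key : ∀ B B' : Finset V, B ∈ fam blk T → B' ∈ fam blk T → ∀ u ∈ B, u ∉ B' →
      ∃ v ∈ B', u ≠ v ∧ ¬ Disjoint (blk u) (blk v) := by
    intro B B' h h' u hu hu'
    obtain ⟨z, hz, hz'⟩ := not_disjoint_iff.1 ((mem_fam.1 h).2.1 u hu)
    obtain ⟨v, hv, hzv⟩ := (mem_fam.1 h').2.2 z hz'
    exact ⟨v, hv, fun huv => hu' (huv ▸ hv), not_disjoint_iff.2 ⟨z, hz, hzv⟩⟩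
  by_cases h1 : B ⊆ B'
  · have h2 : ¬ B' ⊆ B := fun h2 => hne (Subset.antisymm h1 h2)
    obtain ⟨v, hv, hv'⟩ := not_subset.1 h2
    obtain ⟨u, hu, huv, hd⟩ := key B' B h' h v hv hv'
    exact ⟨u, hu, v, hv, huv.symm, fun h3 => hd h3.symm⟩
  · obtain ⟨u, hu, hu'⟩ := not_subset.1 h1
    obtain ⟨v, hv, huv, hd⟩ := key B B' h h' u hu hu'
    exact ⟨u, hu, v, hv, huv, hd⟩

/-- Binomial coefficients that are divisible by `p`. -/
theorem dvd_choose {p a n i : ℕ} (hp : p.Prime) (hn : p ^ a ∣ n) (hi : 1 ≤ i) (hia : i < p ^ a) :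
    p ∣ n.choose i := by
  rcases Nat.eq_zero_or_pos n with rfl | hn0
  · rw [Nat.choose_eq_zero_of_lt (by omega)]
    exact dvd_zero p
  by_contra hcon
  obtain ⟨n', rfl⟩ : ∃ n', n = n' + 1 := ⟨n - 1, by omega⟩
  obtain ⟨i', rfl⟩ : ∃ i', i = i' + 1 := ⟨i - 1, by omega⟩
  have h1 := Nat.add_one_mul_choose_eq n' i'
  have h2 : p ^ a ∣ (n' + 1).choose (i' + 1) * (i' + 1) := by
    have h3 : (n' + 1).choose (i' + 1) * (i' + 1) = (n' + 1) * n'.choose i' := h1.symm
    rw [h3]
    exact Dvd.dvd.mul_right hn _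
  have h3 : Nat.Coprime (p ^ a) ((n' + 1).choose (i' + 1)) :=
    Nat.Coprime.pow_left a ((Nat.Prime.coprime_iff_not_dvd hp).2 hcon)
  have h4 := h3.dvd_of_dvd_mul_left h2
  have h5 := Nat.le_of_dvd (Nat.succ_pos i') h4
  omega

theorem not_dvd_choose {p : ℕ} (hp : p.Prime) : ∀ (j m : ℕ), ¬ p ∣ m →
    ¬ p ∣ (p ^ j * m).choose (p ^ j) := by
  have : Fact p.Prime := ⟨hp⟩
  intro j
  induction j with
  | zero =>
    intro m hm
    rwa [pow_zero, one_mul, Nat.choose_one_right]
  | succ j ih =>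
    intro m hm h
    refine ih m hm ?_
    have h1 : (p ^ (j + 1) * m).choose (p ^ (j + 1)) ≡ (p ^ j * m).choose (p ^ j) [MOD p] := by
      have h2 := Choose.choose_modEq_choose_mod_mul_choose_div_nat (p := p)
        (n := p ^ (j + 1) * m) (k := p ^ (j + 1))
      have h3 : p ^ (j + 1) * m = p * (p ^ j * m) := by ring
      have h4 : p ^ (j + 1) = p * p ^ j := by ring
      have h5 : (p ^ (j + 1) * m) % p = 0 := by rw [h3, Nat.mul_mod_right]
      have h6 : (p ^ (j + 1)) % p = 0 := by rw [h4, Nat.mul_mod_right]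
      have h7 : (p ^ (j + 1) * m) / p = p ^ j * m := by
        rw [h3, Nat.mul_div_cancel_left _ hp.pos]
      have h8 : (p ^ (j + 1)) / p = p ^ j := by
        rw [h4, Nat.mul_div_cancel_left _ hp.pos]
      rw [h5, h6, h7, h8, Nat.choose_self, one_mul] at h2
      exact h2
    exact (Nat.ModEq.dvd_iff h1 dvd_rfl).1 h

open Classical in
/-- The number of sets of `t` points for a family is divisible by `p`. -/
theorem fam_count {p a t : ℕ} (hp : p.Prime) (ht : 1 ≤ t) (hta : t < p ^ a)
    (hblk : ∀ u, p ^ a ∣ (blk u).card) (B : Finset V) :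
    p ∣ ((univ.powersetCard t).filter fun T => B ∈ fam blk T).card := by
  by_cases hB : ∀ u ∈ B, ∀ v ∈ B, u ≠ v → Disjoint (blk u) (blk v)
  swap
  · have h1 : ((univ.powersetCard t).filter fun T => B ∈ fam blk T) = ∅ := by
      rw [filter_eq_empty_iff]
      intro T _ hT
      exact hB (mem_fam.1 hT).1
    rw [h1, card_empty]
    exact dvd_zero p
  rcases B.eq_empty_or_nonempty with rfl | ⟨u, hu⟩
  · have h1 : ((univ.powersetCard t).filter fun T => (∅ : Finset V) ∈ fam blk T) = ∅ := by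
      rw [filter_eq_empty_iff]
      intro T hT hT'
      have h2 := (mem_powersetCard.1 hT).2
      obtain ⟨z, hz⟩ := card_pos.1 (by omega : 0 < T.card)
      obtain ⟨u, hu, -⟩ := (mem_fam.1 hT').2.2 z hz
      exact absurd hu (notMem_empty u)
    rw [h1, card_empty]
    exact dvd_zero p
  obtain ⟨F, hF⟩ : ∃ F, F = (univ.powersetCard t).filter fun T => B ∈ fam blk T := ⟨_, rfl⟩
  rw [← hF]
  rw [card_eq_sum_card_image (fun T => T \ blk u) F]
  refine dvd_sum fun R hR => ?_
  obtain ⟨T₀, hT₀, hT₀R⟩ := mem_image.1 hR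
  rw [hF, mem_filter, mem_powersetCard, mem_fam] at hT₀
  obtain ⟨⟨-, hc₀⟩, -, hmeet, hcov⟩ := hT₀
  have hRd : Disjoint R (blk u) := by
    rw [← hT₀R]
    exact sdiff_disjoint
  have hlt : R.card < t := by
    obtain ⟨z, hz, hz'⟩ := not_disjoint_iff.1 (hmeet u hu)
    rw [← hc₀, ← hT₀R]
    refine card_lt_card ⟨sdiff_subset, fun hss => ?_⟩
    exact (mem_sdiff.1 (hss hz')).2 hz
  have hfib : F.filter (fun T => T \ blk u = R) =
      ((blk u).powersetCard (t - R.card)).image fun X => R ∪ X := by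
    ext T
    rw [mem_filter, hF, mem_filter, mem_powersetCard, mem_fam, mem_image]
    constructor
    · rintro ⟨⟨⟨-, hc⟩, -⟩, hTR⟩
      refine ⟨T ∩ blk u, mem_powersetCard.2 ⟨inter_subset_right, ?_⟩, ?_⟩
      · have h1 := card_sdiff_add_card_inter T (blk u)
        rw [hTR, hc] at h1
        omega
      · rw [← hTR]
        exact sdiff_union_inter T (blk u)
    · rintro ⟨X, hX, rfl⟩
      obtain ⟨hX1, hX2⟩ := mem_powersetCard.1 hX
      have hdX : Disjoint R X := hRd.mono_right hX1
      refine ⟨⟨⟨subset_univ _, ?_⟩, hB, fun v hv => ?_, fun z hz => ?_⟩, ?_⟩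
      · rw [card_union_of_disjoint hdX, hX2]
        omega
      · by_cases hvu : v = u
        · rw [hvu]
          have h1 : X.Nonempty := card_pos.1 (by omega)
          obtain ⟨z, hz⟩ := h1
          exact not_disjoint_iff.2 ⟨z, hX1 hz, mem_union_right _ hz⟩
        · obtain ⟨z, hz, hz'⟩ := not_disjoint_iff.1 (hmeet v hv)
          refine not_disjoint_iff.2 ⟨z, hz, mem_union_left _ ?_⟩
          rw [← hT₀R, mem_sdiff]
          exact ⟨hz', fun h2 => disjoint_left.1 (hB v hv u hu hvu) hz h2⟩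
      · rcases mem_union.1 hz with hz | hz
        · rw [← hT₀R, mem_sdiff] at hz
          exact hcov z hz.1
        · exact ⟨u, hu, hX1 hz⟩
      · rw [union_sdiff_distrib, sdiff_eq_self_of_disjoint hRd, sdiff_eq_empty_iff_subset.2 hX1,
          union_empty]
  rw [hfib, card_image_of_injOn, card_powersetCard]
  · exact dvd_choose hp (hblk u) (by omega) (by omega)
  · intro X hX Y hY hXY
    have hX' := (mem_powersetCard.1 (mem_coe.1 hX)).1
    have hY' := (mem_powersetCard.1 (mem_coe.1 hY)).1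
    have h1 : ∀ X : Finset P, X ⊆ blk u → (R ∪ X) ∩ blk u = X := by
      intro X hX
      rw [union_inter_distrib_right, disjoint_iff_inter_eq_empty.1 hRd, empty_union,
        inter_eq_left.2 hX]
    have hXY' : R ∪ X = R ∪ Y := hXY
    rw [← h1 X hX', hXY', h1 Y hY']

end Pool.Agent.MP_9cec2c_lc.CE
end

section

/-!
The partition principle for a Tseitin formula: every edge has `r` points at each of its two ends, and
every vertex `v` has `s v` more points. If the edge `e` has the value `a`, then its block consists of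
the first `a` points at its source and the last `r - a` points at its target; the other points at a
vertex form one block.
-/

set_option autoImplicit false
set_option linter.unusedSectionVars false

namespace Pool.Agent.MP_9cec2c_lc.TU

open Finset TT

variable {V E : Type} [Fintype V] [Fintype E] [DecidableEq V] [DecidableEq E]

/-- The solutions of the equation of the vertex `v`. -/
abbrev Sol (src tgt : E → V) (r : ℕ) [NeZero r] (s : V → ZMod r) (v : V) : Type :=
  {a : inc src tgt v → ZMod r // ∑ i : inc src tgt v, coef src tgt r v i * a i = s v}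

/-- The blocks. -/
abbrev Blk (src tgt : E → V) (r : ℕ) [NeZero r] (s : V → ZMod r) : Type :=
  (E × ZMod r) ⊕ (Σ v : V, Sol src tgt r s v)

/-- The points. -/
abbrev Pt (V E : Type) (r : ℕ) (s : V → ZMod r) : Type := (E × Bool × Fin r) ⊕ (Σ v : V, Fin (s v).val)

/-- The values, extended by zero. -/
def ext {r : ℕ} {C : Finset E} (a : C → ZMod r) (e : E) : ZMod r :=
  if h : e ∈ C then a ⟨e, h⟩ else 0

variable {src tgt : E → V} {r : ℕ} [NeZero r] {s : V → ZMod r}

/-- The point lies in the block. -/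
def InB : Blk src tgt r s → Pt V E r s → Prop
  | .inl (e, a), .inl (e', true, j) => e' = e ∧ j.val < a.val
  | .inl (e, a), .inl (e', false, j) => e' = e ∧ a.val ≤ j.val
  | .inl _, .inr _ => False
  | .inr ⟨v, a⟩, .inl (e, true, j) => src e = v ∧ (ext a.1 e).val ≤ j.val
  | .inr ⟨v, a⟩, .inl (e, false, j) => tgt e = v ∧ j.val < (ext a.1 e).val
  | .inr ⟨v, _⟩, .inr ⟨v', _⟩ => v' = v

open Classical in
/-- The points of a block. -/
noncomputable def blk (u : Blk src tgt r s) : Finset (Pt V E r s) := univ.filter (InB u)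

/-- The edges of a block with their values. -/
noncomputable def lits : Blk src tgt r s → List (E × ZMod r)
  | .inl l => [l]
  | .inr ⟨v, a⟩ => (univ : Finset (inc src tgt v)).toList.map fun i : inc src tgt v =>
      ((i : E), a.1 i)

end Pool.Agent.MP_9cec2c_lc.TU
end

section

/-!
The sizes of the blocks.
-/

set_option autoImplicit false
set_option linter.unusedSectionVars false

namespace Pool.Agent.MP_9cec2c_lc.TU

open Finset TT

variable {V E : Type} [Fintype V] [Fintype E] [DecidableEq V] [DecidableEq E]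
  {src tgt : E → V} {r : ℕ} [NeZero r] {s : V → ZMod r}

private theorem TUCard_lt (r x : ℕ) (hx : x ≤ r) :
    ∑ j : Fin r, (if j.val < x then 1 else 0) = x := by
  have h1 : ∑ j : Fin r, (if j.val < x then 1 else 0) =
      ∑ j ∈ range r, (if j < x then 1 else 0) :=
    Fin.sum_univ_eq_sum_range (fun j => if j < x then 1 else 0) r
  rw [h1, ← Finset.card_filter]
  have h2 : (range r).filter (fun j => j < x) = range x := by
    ext j
    simp only [mem_filter, mem_range]
    omega
  rw [h2, card_range]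

private theorem TUCard_ge (r x : ℕ) (hx : x ≤ r) :
    ∑ j : Fin r, (if x ≤ j.val then 1 else 0) = r - x := by
  have h1 : ∑ j : Fin r, (if j.val < x then 1 else 0) +
      ∑ j : Fin r, (if x ≤ j.val then 1 else 0) = r := by
    rw [← Finset.sum_add_distrib]
    have h2 : ∀ j : Fin r, (if j.val < x then 1 else 0) + (if x ≤ j.val then 1 else 0) = 1 := by
      intro j
      by_cases h : j.val < x
      · rw [if_pos h, if_neg (not_le.mpr h)]
      · rw [if_neg h, if_pos (not_lt.mp h)]
    rw [Finset.sum_congr rfl fun j _ => h2 j]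
    simp
  rw [TUCard_lt r x hx] at h1
  omega

open Classical in
private theorem TUCard_split (u : Blk src tgt r s) : (blk u).card =
    ∑ e : E, (∑ j : Fin r, (if InB u (.inl (e, true, j)) then 1 else 0) +
      ∑ j : Fin r, (if InB u (.inl (e, false, j)) then 1 else 0)) +
    ∑ v : V, ∑ j : Fin (s v).val, (if InB u (.inr ⟨v, j⟩) then 1 else 0) := by
  rw [blk, Finset.card_filter, Fintype.sum_sum_type, Fintype.sum_prod_type, Fintype.sum_sigma]
  congr 1
  refine Finset.sum_congr rfl fun e _ => ?_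
  rw [Fintype.sum_prod_type, Fintype.sum_bool]

/-- TASK TUCard (1). The size of a block is divisible by `r`.

PROOF. `u = inl (e, a)`: the points are `(e, true, j)`, `j < a.val`, and `(e, false, j)`, `a.val ≤ j`, in total
`a.val + (r - a.val) = r`. `u = inr ⟨v, a⟩`: the number is
`∑ e, ((if src e = v then r - (ext a.1 e).val else 0) + (if tgt e = v then (ext a.1 e).val else 0)) + (s v).val`; as an element of
`ZMod r` this is `- ∑ e, coef src tgt r v e * ext a.1 e + s v`, and the sum is `∑ i : inc src tgt v, coef src tgt r v i * a.1 i = s v`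
(`coef` vanishes outside `inc src tgt v`; `Finset.sum_coe_sort`). Use `(ZMod.natCast_eq_zero_iff _ _).1`. Suggestion: split `univ` of
`Pt V E r s` by `Fintype.sum_sum_type`, `Fintype.sum_prod_type` after writing the cardinality as
`∑ z, if InB u z then 1 else 0` (`card_filter`); `Fin` sums by `Fin.sum_univ_eq_sum_range` and `card_filter`. -/
theorem card_blk (u : Blk src tgt r s) : r ∣ (blk u).card := by
  classical
  rw [TUCard_split u]
  rcases u with ⟨e, a⟩ | ⟨v, a⟩
  · have ha : a.val ≤ r := (ZMod.val_lt a).le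
    have h1 : ∀ e' : E, (∑ j : Fin r, (if InB (src := src) (tgt := tgt) (s := s) (.inl (e, a))
        (.inl (e', true, j)) then 1 else 0) +
        ∑ j : Fin r, (if InB (src := src) (tgt := tgt) (s := s) (.inl (e, a))
        (.inl (e', false, j)) then 1 else 0)) = if e' = e then r else 0 := by
      intro e'
      have a1 : ∀ j : Fin r, (if InB (src := src) (tgt := tgt) (s := s) (.inl (e, a))
          (.inl (e', true, j)) then 1 else 0) = if e' = e ∧ j.val < a.val then 1 else 0 :=
        fun j => if_congr Iff.rfl rfl rfl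
      have a2 : ∀ j : Fin r, (if InB (src := src) (tgt := tgt) (s := s) (.inl (e, a))
          (.inl (e', false, j)) then 1 else 0) = if e' = e ∧ a.val ≤ j.val then 1 else 0 :=
        fun j => if_congr Iff.rfl rfl rfl
      rw [Finset.sum_congr rfl fun j _ => a1 j, Finset.sum_congr rfl fun j _ => a2 j]
      by_cases he : e' = e
      · simp only [he, true_and, if_true]
        rw [TUCard_lt r _ ha, TUCard_ge r _ ha]
        omega
      · simp only [he, false_and, if_false, Finset.sum_const_zero, add_zero]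
    have h2 : ∀ v' : V, ∑ j : Fin (s v').val, (if InB (src := src) (tgt := tgt) (.inl (e, a))
        (.inr ⟨v', j⟩) then 1 else 0) = 0 := by
      intro v'
      refine Finset.sum_eq_zero fun j _ => ?_
      exact if_neg fun h => h
    rw [Finset.sum_congr rfl fun e' _ => h1 e', Finset.sum_congr rfl fun v' _ => h2 v',
      Finset.sum_ite_eq' univ e fun _ => r, if_pos (mem_univ e), Finset.sum_const_zero, add_zero]
  · have h1 : ∀ e' : E, (∑ j : Fin r, (if InB (.inr ⟨v, a⟩ : Blk src tgt r s)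
        (.inl (e', true, j)) then 1 else 0) +
        ∑ j : Fin r, (if InB (.inr ⟨v, a⟩ : Blk src tgt r s)
        (.inl (e', false, j)) then 1 else 0)) =
        (if src e' = v then r - (ext a.1 e').val else 0) +
          (if tgt e' = v then (ext a.1 e').val else 0) := by
      intro e'
      have ha : (ext a.1 e').val ≤ r := (ZMod.val_lt _).le
      have a1 : ∀ j : Fin r, (if InB (.inr ⟨v, a⟩ : Blk src tgt r s)
          (.inl (e', true, j)) then 1 else 0) =
          if src e' = v ∧ (ext a.1 e').val ≤ j.val then 1 else 0 :=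
        fun j => if_congr Iff.rfl rfl rfl
      have a2 : ∀ j : Fin r, (if InB (.inr ⟨v, a⟩ : Blk src tgt r s)
          (.inl (e', false, j)) then 1 else 0) =
          if tgt e' = v ∧ j.val < (ext a.1 e').val then 1 else 0 :=
        fun j => if_congr Iff.rfl rfl rfl
      rw [Finset.sum_congr rfl fun j _ => a1 j, Finset.sum_congr rfl fun j _ => a2 j]
      congr 1
      · by_cases he : src e' = v
        · simp only [he, true_and, if_true]
          exact TUCard_ge r _ ha
        · simp only [he, false_and, if_false, Finset.sum_const_zero]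
      · by_cases he : tgt e' = v
        · simp only [he, true_and, if_true]
          exact TUCard_lt r _ ha
        · simp only [he, false_and, if_false, Finset.sum_const_zero]
    have h2 : ∀ v' : V, ∑ j : Fin (s v').val, (if InB (.inr ⟨v, a⟩ : Blk src tgt r s)
        (.inr ⟨v', j⟩) then 1 else 0) = if v' = v then (s v').val else 0 := by
      intro v'
      have a1 : ∀ j : Fin (s v').val, (if InB (.inr ⟨v, a⟩ : Blk src tgt r s)
          (.inr ⟨v', j⟩) then 1 else 0) = if v' = v then 1 else 0 :=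
        fun j => if_congr Iff.rfl rfl rfl
      rw [Finset.sum_congr rfl fun j _ => a1 j]
      by_cases he : v' = v
      · simp [he]
      · simp [he]
    rw [Finset.sum_congr rfl fun e' _ => h1 e', Finset.sum_congr rfl fun v' _ => h2 v',
      Finset.sum_ite_eq' univ v fun v' => (s v').val, if_pos (mem_univ v)]
    rw [← ZMod.natCast_eq_zero_iff]
    push_cast
    have h3 : ∀ e' : E, (((if src e' = v then ((r - (ext a.1 e').val : ℕ) : ZMod r) else 0) +
        (if tgt e' = v then (((ext a.1 e').val : ℕ) : ZMod r) else 0))) =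
        -(coef src tgt r v e' * ext a.1 e') := by
      intro e'
      have ha : (ext a.1 e').val ≤ r := (ZMod.val_lt _).le
      rw [Nat.cast_sub ha, ZMod.natCast_self, ZMod.natCast_zmod_val, zero_sub, coef]
      by_cases hs : src e' = v <;> by_cases ht : tgt e' = v <;> simp [hs, ht]
    have h4 : ∑ e' : E, coef src tgt r v e' * ext a.1 e' = s v := by
      refine Eq.trans ?_ a.2
      have h5 : ∑ i : inc src tgt v, coef src tgt r v i * a.1 i =
          ∑ i : inc src tgt v, coef src tgt r v i * ext a.1 (i : E) := by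
        refine Finset.sum_congr rfl fun i _ => ?_
        rw [ext, dif_pos i.2]
      rw [h5, Finset.sum_coe_sort (inc src tgt v) fun i => coef src tgt r v i * ext a.1 i]
      symm
      refine Finset.sum_subset (Finset.subset_univ _) fun e' _ he' => ?_
      rw [ext, dif_neg he', mul_zero]
    rw [Finset.sum_congr rfl fun e' _ => h3 e', Finset.sum_neg_distrib, h4,
      ZMod.natCast_zmod_val, neg_add_cancel]

end Pool.Agent.MP_9cec2c_lc.TU
end

section

/-!
Different blocks with a common point contradict each other; every point is in a block which agrees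
with a given solution.
-/

set_option autoImplicit false
set_option linter.unusedSectionVars false

namespace Pool.Agent.MP_9cec2c_lc.TU

open Finset TT

variable {V E : Type} [Fintype V] [Fintype E] [DecidableEq V] [DecidableEq E]
  {src tgt : E → V} {r : ℕ} [NeZero r] {s : V → ZMod r}

private theorem TUPair_mem {u : Blk src tgt r s} {z : Pt V E r s} : z ∈ blk u ↔ InB u z := by
  classical
  unfold blk
  rw [mem_filter]
  exact ⟨fun h => h.2, fun h => ⟨mem_univ z, h⟩⟩

private theorem TUPair_lits {v : V} {b : Sol src tgt r s v} (i : inc src tgt v) :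
    ((i : E), b.1 i) ∈ lits (Sum.inr ⟨v, b⟩ : Blk src tgt r s) := by
  unfold lits
  rw [List.mem_map]
  exact ⟨i, by simp, rfl⟩

private theorem TUPair_lits_ext {v : V} {b : Sol src tgt r s v} {e : E} (he : e ∈ inc src tgt v) :
    (e, ext b.1 e) ∈ lits (Sum.inr ⟨v, b⟩ : Blk src tgt r s) := by
  have h := TUPair_lits (src := src) (tgt := tgt) (b := b) ⟨e, he⟩
  unfold ext
  rw [dif_pos he]
  exact h

private theorem TUPair_inc_src (e : E) : e ∈ inc src tgt (src e) := by
  unfold inc
  rw [mem_filter]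
  exact ⟨mem_univ e, Or.inl rfl⟩

private theorem TUPair_inc_tgt (e : E) : e ∈ inc src tgt (tgt e) := by
  unfold inc
  rw [mem_filter]
  exact ⟨mem_univ e, Or.inr rfl⟩

private theorem TUPair_mixed {e : E} {a : ZMod r} {v : V} {b : Sol src tgt r s v} {z : Pt V E r s}
    (h1 : InB (Sum.inl (e, a) : Blk src tgt r s) z)
    (h2 : InB (Sum.inr ⟨v, b⟩ : Blk src tgt r s) z) :
    e ∈ inc src tgt v ∧ a ≠ ext b.1 e := by
  rcases z with ⟨e', t, j⟩ | z
  · cases t with
    | true =>
      obtain ⟨h3, h4⟩ := (h1 : e' = e ∧ j.val < a.val)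
      obtain ⟨h5, h6⟩ := (h2 : src e' = v ∧ (ext b.1 e').val ≤ j.val)
      subst h3
      subst h5
      refine ⟨TUPair_inc_src e', fun h => ?_⟩
      rw [h] at h4
      omega
    | false =>
      obtain ⟨h3, h4⟩ := (h1 : e' = e ∧ a.val ≤ j.val)
      obtain ⟨h5, h6⟩ := (h2 : tgt e' = v ∧ j.val < (ext b.1 e').val)
      subst h3
      subst h5
      refine ⟨TUPair_inc_tgt e', fun h => ?_⟩
      rw [h] at h4
      omega
  · exact absurd h1 (fun h => h)

private theorem TUPair_vertex {v v' : V} {b : Sol src tgt r s v} {b' : Sol src tgt r s v'}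
    {z : Pt V E r s} (h1 : InB (Sum.inr ⟨v, b⟩ : Blk src tgt r s) z)
    (h2 : InB (Sum.inr ⟨v', b'⟩ : Blk src tgt r s) z) : v = v' := by
  rcases z with ⟨e, t, j⟩ | ⟨w, j⟩
  · cases t with
    | true =>
      exact (h1 : src e = v ∧ (ext b.1 e).val ≤ j.val).1.symm.trans
        (h2 : src e = v' ∧ (ext b'.1 e).val ≤ j.val).1
    | false =>
      exact (h1 : tgt e = v ∧ j.val < (ext b.1 e).val).1.symm.trans
        (h2 : tgt e = v' ∧ j.val < (ext b'.1 e).val).1
  · exact (h1 : w = v).symm.trans (h2 : w = v')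

/-- TASK TUPair (1). Different blocks with a common point give different values to some edge.

PROOF. Let `z` be a common point. `inl (e, a)`, `inl (e', a')`: `e = e'`, so `a ≠ a'`. `inl (e, a)`, `inr ⟨v, b⟩`: `z = inl (e, _, j)`, and
`e ∈ inc src tgt v`; if `z` is at the source then `j < a.val` and `(ext b.1 e).val ≤ j`, so `a ≠ b e`; if `z` is at the target then
`a.val ≤ j < (ext b.1 e).val`, so again `a ≠ b e`. `inr ⟨v, b⟩`, `inr ⟨v', b'⟩`: in all cases `v = v'`, so `b ≠ b'`, and some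
`i` has `b i ≠ b' i`. Members of `lits`: `List.mem_map`, `Finset.mem_toList`. -/
theorem pair_lits {u u' : Blk src tgt r s} (h : u ≠ u') (hd : ¬ Disjoint (blk u) (blk u')) :
    ∃ (e : E) (a a' : ZMod r), a ≠ a' ∧ (e, a) ∈ lits u ∧ (e, a') ∈ lits u' := by
  rw [Finset.not_disjoint_iff] at hd
  obtain ⟨z, hz, hz'⟩ := hd
  rw [TUPair_mem] at hz hz'
  rcases u with ⟨e, a⟩ | ⟨v, b⟩ <;> rcases u' with ⟨e', a'⟩ | ⟨v', b'⟩
  · have he : e = e' := by
      rcases z with ⟨e'', t, j⟩ | z
      · cases t with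
        | true =>
          exact (hz : e'' = e ∧ j.val < a.val).1.symm.trans (hz' : e'' = e' ∧ j.val < a'.val).1
        | false =>
          exact (hz : e'' = e ∧ a.val ≤ j.val).1.symm.trans (hz' : e'' = e' ∧ a'.val ≤ j.val).1
      · exact absurd hz (fun h => h)
    subst he
    refine ⟨e, a, a', fun ha => h (by rw [ha]), ?_, ?_⟩
    · exact List.mem_singleton.2 rfl
    · exact List.mem_singleton.2 rfl
  · obtain ⟨h1, h2⟩ := TUPair_mixed hz hz'
    exact ⟨e, a, _, h2, List.mem_singleton.2 rfl, TUPair_lits_ext h1⟩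
  · obtain ⟨h1, h2⟩ := TUPair_mixed hz' hz
    exact ⟨e', _, a', h2.symm, TUPair_lits_ext h1, List.mem_singleton.2 rfl⟩
  · have hv := TUPair_vertex hz hz'
    subst hv
    have hb : b.1 ≠ b'.1 := fun hb => h (by rw [Subtype.ext hb])
    obtain ⟨i, hi⟩ := Function.ne_iff.1 hb
    exact ⟨i, b.1 i, b'.1 i, hi, TUPair_lits i, TUPair_lits i⟩

/-- TASK TUPair (2). Every point belongs to a vertex `v` such that the point is in a block which agrees with any given solution
of the equation of `v`.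

PROOF. `z = inl (e, true, j)`: `v = src e`; if `j < (α e).val` then the block is `inl (e, α e)`, otherwise `inr ⟨v, fun i => α i, _⟩` (for
`e ∈ inc src tgt v`: `ext (fun i => α i) e = α e`). `z = inl (e, false, j)`: `v = tgt e`, and similarly. `z = inr ⟨v, j⟩`:
the block `inr ⟨v, fun i => α i, _⟩`. -/
theorem exists_block (z : Pt V E r s) : ∃ v, ∀ α : E → ZMod r,
    ∑ i : inc src tgt v, coef src tgt r v i * α i = s v →
      ∃ u : Blk src tgt r s, z ∈ blk u ∧ ∀ l ∈ lits u, l.1 ∈ inc src tgt v ∧ l.2 = α l.1 := by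
  have key : ∀ (v : V) (α : E → ZMod r)
      (hα : ∑ i : inc src tgt v, coef src tgt r v i * α i = s v),
      ∀ l ∈ lits (Sum.inr ⟨v, ⟨fun i => α i, hα⟩⟩ : Blk src tgt r s),
        l.1 ∈ inc src tgt v ∧ l.2 = α l.1 := by
    intro v α hα l hl
    unfold lits at hl
    rw [List.mem_map] at hl
    obtain ⟨i, -, rfl⟩ := hl
    exact ⟨i.2, rfl⟩
  have hext : ∀ (v : V) (α : E → ZMod r) (e : E), e ∈ inc src tgt v →
      ext (fun i : inc src tgt v => α i) e = α e := by
    intro v α e he
    unfold ext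
    rw [dif_pos he]
  rcases z with ⟨e, t, j⟩ | ⟨v, j⟩
  · cases t with
    | true =>
      refine ⟨src e, fun α hα => ?_⟩
      rcases lt_or_ge j.val (α e).val with h | h
      · refine ⟨Sum.inl (e, α e), TUPair_mem.2 ⟨rfl, h⟩, fun l hl => ?_⟩
        obtain rfl := List.mem_singleton.1 hl
        exact ⟨TUPair_inc_src e, rfl⟩
      · refine ⟨Sum.inr ⟨src e, ⟨fun i => α i, hα⟩⟩, TUPair_mem.2 ⟨rfl, ?_⟩, key _ α hα⟩
        rw [hext _ α e (TUPair_inc_src e)]
        exact h
    | false =>
      refine ⟨tgt e, fun α hα => ?_⟩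
      rcases lt_or_ge j.val (α e).val with h | h
      · refine ⟨Sum.inr ⟨tgt e, ⟨fun i => α i, hα⟩⟩, TUPair_mem.2 ⟨rfl, ?_⟩, key _ α hα⟩
        rw [hext _ α e (TUPair_inc_tgt e)]
        exact h
      · refine ⟨Sum.inl (e, α e), TUPair_mem.2 ⟨rfl, h⟩, fun l hl => ?_⟩
        obtain rfl := List.mem_singleton.1 hl
        exact ⟨TUPair_inc_tgt e, rfl⟩
  · refine ⟨v, fun α hα => ?_⟩
    exact ⟨Sum.inr ⟨v, ⟨fun i => α i, hα⟩⟩, TUPair_mem.2 rfl, key _ α hα⟩

/-- TASK TUPair (3). -/
theorem length_lits {Δ : ℕ} (hΔ : ∀ v, (inc src tgt v).card ≤ Δ) (u : Blk src tgt r s) :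
    (lits u).length ≤ Δ + 1 := by
  rcases u with ⟨e, a⟩ | ⟨v, b⟩
  · change ([(e, a)] : List (E × ZMod r)).length ≤ Δ + 1
    simp
  · have h1 : (lits (Sum.inr ⟨v, b⟩ : Blk src tgt r s)).length = (inc src tgt v).card := by
      unfold lits
      rw [List.length_map, Finset.length_toList, Finset.card_univ, Fintype.card_coe]
    rw [h1]
    exact (hΔ v).trans (Nat.le_succ Δ)

end Pool.Agent.MP_9cec2c_lc.TU
end

section

/-!
The numbers of points and of blocks.
-/

set_option autoImplicit false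
set_option linter.unusedSectionVars false

namespace Pool.Agent.MP_9cec2c_lc.TU

open Finset TT

variable {V E : Type} [Fintype V] [Fintype E] [DecidableEq V] [DecidableEq E]
  {src tgt : E → V} {r : ℕ} [NeZero r] {s : V → ZMod r}

/-- TASK TUPt (1). `Fintype.card_sum`, `Fintype.card_prod`, `Fintype.card_sigma`, `Fintype.card_fin`. -/
theorem card_pt : Fintype.card (Pt V E r s) = 2 * r * Fintype.card E + ∑ v, (s v).val := by
  rw [Fintype.card_sum, Fintype.card_prod, Fintype.card_prod, Fintype.card_bool, Fintype.card_fin,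
    Fintype.card_sigma]
  simp only [Fintype.card_fin]
  ring

/-- TASK TUPt (2). `ZMod.val_lt`. -/
theorem card_pt_le :
    Fintype.card (Pt V E r s) ≤ 2 * r * (Fintype.card V + Fintype.card E) := by
  rw [card_pt (E := E) (s := s)]
  have h1 : ∑ v, (s v).val ≤ Fintype.card V * r := by
    calc ∑ v, (s v).val ≤ ∑ _v : V, r := Finset.sum_le_sum fun v _ => (ZMod.val_lt (s v)).le
      _ = Fintype.card V * r := by rw [Finset.sum_const, Finset.card_univ, smul_eq_mul]
  nlinarith [Nat.zero_le (Fintype.card V * r)]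

/-- TASK TUPt (3). `Fintype.card_sum`, `Fintype.card_sigma`, `Fintype.card_subtype_le`, `Fintype.card_fun`. -/
theorem card_Blk_le {Δ : ℕ} (hΔ : ∀ v, (inc src tgt v).card ≤ Δ) :
    Fintype.card (Blk src tgt r s) ≤
      (r + r ^ Δ) * (Fintype.card V + Fintype.card E) := by
  have hr : 1 ≤ r := Nat.one_le_iff_ne_zero.2 (NeZero.ne r)
  have h1 : ∀ v, Fintype.card (Sol src tgt r s v) ≤ r ^ Δ := by
    intro v
    calc Fintype.card (Sol src tgt r s v) ≤ Fintype.card (inc src tgt v → ZMod r) :=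
          Fintype.card_le_of_injective Subtype.val Subtype.val_injective
      _ = r ^ (inc src tgt v).card := by
          rw [Fintype.card_fun, ZMod.card, Fintype.card_coe]
      _ ≤ r ^ Δ := Nat.pow_le_pow_right hr (hΔ v)
  rw [Fintype.card_sum, Fintype.card_prod, ZMod.card, Fintype.card_sigma]
  have h2 : ∑ v, Fintype.card (Sol src tgt r s v) ≤ Fintype.card V * r ^ Δ := by
    calc ∑ v, Fintype.card (Sol src tgt r s v) ≤ ∑ _v : V, r ^ Δ :=
          Finset.sum_le_sum fun v _ => h1 v
      _ = Fintype.card V * r ^ Δ := by rw [Finset.sum_const, Finset.card_univ, smul_eq_mul]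
  nlinarith [Nat.zero_le (Fintype.card V * r), Nat.zero_le (Fintype.card E * r ^ Δ)]

/-- TASK TUPt (4). The number of points is not divisible by the `p`-part of `r`, if `p` divides the order of the total charge.

PROOF. Let `n` be the number of points. By `card_pt` `(n : ZMod r) = ∑ v, s v`. Suppose `q = p ^ a`, `a = r.factorization p`, divides
`n`. Since `q ∣ r`, `q ∣ gcd r n`, and `addOrderOf ((n : ℕ) : ZMod r) = r / gcd r n` (`ZMod.addOrderOf_coe`), so the order divides
`r / q`, which is prime to `p` (`Nat.coprime_ordCompl`). -/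
theorem not_dvd_pt {p : ℕ} (hp : p.Prime) (h : p ∣ addOrderOf (∑ v, s v)) :
    ¬ p ^ r.factorization p ∣ Fintype.card (Pt V E r s) := by
  intro hq
  have hr0 : r ≠ 0 := NeZero.ne r
  set n := Fintype.card (Pt V E r s) with hn
  have h1 : ((n : ℕ) : ZMod r) = ∑ v, s v := by
    rw [hn, card_pt]
    push_cast
    rw [ZMod.natCast_self, mul_zero, zero_mul, zero_add]
    refine Finset.sum_congr rfl fun v _ => ?_
    rw [ZMod.natCast_val, ZMod.cast_id', id]
  rw [← h1, ZMod.addOrderOf_coe n hr0] at h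
  have h2 : p ^ r.factorization p ∣ r := Nat.ordProj_dvd r p
  have h3 : p ^ r.factorization p ∣ r.gcd n := Nat.dvd_gcd h2 hq
  obtain ⟨g, hg⟩ := h3
  have h4 : r.gcd n ∣ r := Nat.gcd_dvd_left r n
  have hg0 : 0 < r.gcd n := Nat.gcd_pos_of_pos_left n (Nat.pos_of_ne_zero hr0)
  have h5 : r / r.gcd n ∣ r / p ^ r.factorization p := by
    rw [hg, ← Nat.div_div_eq_div_mul]
    exact Nat.div_dvd_of_dvd (by
      rw [hg] at h4
      exact Nat.dvd_div_of_mul_dvd h4)
  have h6 : p ∣ r / p ^ r.factorization p := h.trans h5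
  exact Nat.not_dvd_ordCompl hp hr0 h6

end Pool.Agent.MP_9cec2c_lc.TU
end
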