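import Pool.Agent.Lib.MP_9cec2c_lc.Mg.G001

section

/-!
FLAT for all moduli: the quadratic form of a row, for a matrix that does not depend on the row; the
number of the configurations near a bad set.
-/

set_option autoImplicit false
set_option linter.unusedSectionVars false

namespace Pool.Agent.MP_9cec2c_lc.Flat

open Finset

variable {N m : ℕ} [NeZero m]

/-- The element of order 2. -/
def half (m : ℕ) : ZMod m := ((m / 2 : ℕ) : ZMod m)

theorem half_add_half (hm : Even m) : half m + half m = 0 := by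
  unfold half
  obtain ⟨k, hk⟩ := hm
  have h1 : m / 2 = k := by omega
  rw [h1, ← Nat.cast_add, ← hk]
  exact ZMod.natCast_self m

theorem half_ne_zero (hm : Even m) : half m ≠ 0 := by
  unfold half
  have hm0 : 0 < m := Nat.pos_of_ne_zero (NeZero.ne m)
  obtain ⟨k, hk⟩ := hm
  have h1 : m / 2 = k := by omega
  rw [h1]
  intro h
  have h2 := (ZMod.natCast_eq_zero_iff k m).1 h
  have h3 := Nat.le_of_dvd (by omega) h2
  omega

theorem ph_half (hm : Even m) : ph (half m) = -1 := by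
  have h1 : ph (half m) * ph (half m) = 1 := by
    rw [← ph_add, half_add_half hm, ph_zero]
  rcases mul_self_eq_one_iff.1 h1 with h2 | h2
  · exfalso
    apply half_ne_zero hm
    have h3 : Function.Injective (ZMod.stdAddChar : AddChar (ZMod m) ℂ) := ZMod.injective_stdAddChar
    apply h3
    show ph (half m) = ph 0
    rw [h2, ph_zero]
  · exact h2

/-- The row `v` after a sign move in row `v`. -/
theorem Smat2_row_bset (hm : Even m) (a : Cfg2 N m) (v : Fin N) (x : Fin N → Bool) (u : Fin N) :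
    Smat2 (a + mvRow2 v (bset x) (half m)) v u = (sg (x u) : ℂ) * Smat2 a v u := by
  by_cases hu : u = v
  · rw [hu, Smat2_diag, Smat2_diag, mul_zero]
  · rw [Smat2_add_row a v _ _ hu, ph_half hm]
    congr 1
    unfold sg
    by_cases h : x u = true
    · rw [if_pos ((mem_bset x u).2 h), if_pos h]
      push_cast
      rfl
    · rw [if_neg fun h1 => h ((mem_bset x u).1 h1), if_neg h]
      push_cast
      rfl

theorem Smat2_col_bset (hm : Even m) (a : Cfg2 N m) (v : Fin N) (x : Fin N → Bool) (u : Fin N) :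
    Smat2 (a + mvRow2 v (bset x) (half m)) u v = (sg (x u) : ℂ) * Smat2 a u v := by
  rw [← Smat2_conj, Smat2_row_bset hm, map_mul, Smat2_conj, Complex.conj_ofReal]

/-- The number of the configurations with a property is invariant under a move. -/
theorem card_shift2 (y : Cfg2 N m) (p : Cfg2 N m → Prop) [DecidablePred p] :
    (univ.filter fun a : Cfg2 N m => p (a + y)).card = (univ.filter fun a : Cfg2 N m => p a).card := by
  classical
  refine card_bij (fun a _ => a + y) (fun a ha => ?_) (fun a _ b _ h => add_right_cancel h)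
    (fun b hb => ⟨b - y, ?_, ?_⟩)
  · rw [mem_filter] at ha ⊢
    exact ⟨mem_univ _, ha.2⟩
  · rw [mem_filter] at hb ⊢
    refine ⟨mem_univ _, ?_⟩
    rw [sub_add_cancel]
    exact hb.2
  · rw [sub_add_cancel]

/-- The centered quadratic form of the column `v` in the matrix `R` (real part). -/
noncomputable def rowForm2 (v : Fin N) (R : Fin N → Fin N → ℂ) (a : Cfg2 N m) : ℝ :=
  (∑ u, ∑ w, Smat2 a v u * R u w * Smat2 a w v - ∑ u ∈ univ.erase v, R u u).re

/-- The matrix of the form. -/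
noncomputable def rowMat2 (v : Fin N) (R : Fin N → Fin N → ℂ) (a : Cfg2 N m) (u w : Fin N) : ℝ :=
  if u = w then 0 else (Smat2 a v u * R u w * Smat2 a w v).re

theorem rowForm2_shift (hm : Even m) (v : Fin N) (R : Fin N → Fin N → ℂ) (a : Cfg2 N m)
    (x : Fin N → Bool) :
    rowForm2 v R (a + mvRow2 v (bset x) (half m)) = quad (rowMat2 v R a) x := by
  classical
  have h1 : ∑ u, ∑ w, Smat2 (a + mvRow2 v (bset x) (half m)) v u * R u w *
      Smat2 (a + mvRow2 v (bset x) (half m)) w v =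
      ∑ u, ∑ w, (if u = w then 0 else Smat2 a v u * R u w * Smat2 a w v) *
        ((sg (x u) * sg (x w) : ℝ) : ℂ) + ∑ u, Smat2 a v u * R u u * Smat2 a u v := by
    rw [← sum_add_distrib]
    refine sum_congr rfl fun u _ => ?_
    have h2 : Smat2 a v u * R u u * Smat2 a u v =
        ∑ w, if u = w then Smat2 a v u * R u w * Smat2 a w v else 0 := by
      rw [sum_ite_eq univ u fun w => Smat2 a v u * R u w * Smat2 a w v, if_pos (mem_univ u)]
    rw [h2, ← sum_add_distrib]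
    refine sum_congr rfl fun w _ => ?_
    rw [Smat2_row_bset hm, Smat2_col_bset hm]
    by_cases huw : u = w
    · rw [if_pos huw, if_pos huw, ← huw]
      have h3 : ((sg (x u) : ℝ) : ℂ) * ((sg (x u) : ℝ) : ℂ) = 1 := by
        rw [← Complex.ofReal_mul, sg_mul_self, Complex.ofReal_one]
      calc (sg (x u) : ℂ) * Smat2 a v u * R u u * ((sg (x u) : ℂ) * Smat2 a u v)
          = ((sg (x u) : ℂ) * (sg (x u) : ℂ)) * (Smat2 a v u * R u u * Smat2 a u v) := by ring
        _ = _ := by rw [h3]; ring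
    · rw [if_neg huw, if_neg huw]
      push_cast
      ring
  have h3 : ∑ u, Smat2 a v u * R u u * Smat2 a u v = ∑ u ∈ univ.erase v, R u u := by
    rw [← sum_erase_add _ _ (mem_univ v), Smat2_diag, zero_mul, zero_mul, add_zero]
    refine sum_congr rfl fun u hu => ?_
    have h4 := Smat2_mul_conj a (ne_of_mem_erase hu).symm
    calc Smat2 a v u * R u u * Smat2 a u v = (Smat2 a v u * Smat2 a u v) * R u u := by ring
      _ = R u u := by rw [h4, one_mul]
  unfold rowForm2 quad rowMat2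
  rw [h1, h3, add_sub_cancel_right, Complex.re_sum]
  refine sum_congr rfl fun u _ => ?_
  rw [Complex.re_sum]
  refine sum_congr rfl fun w _ => ?_
  rw [Complex.re_mul_ofReal]
  by_cases huw : u = w
  · rw [if_pos huw, if_pos huw, Complex.zero_re]
  · rw [if_neg huw, if_neg huw]

theorem rowMat2_sq_le (v : Fin N) (R : Fin N → Fin N → ℂ) (a : Cfg2 N m) :
    ∑ u, ∑ w, rowMat2 v R a u w ^ 2 ≤ ∑ u, ∑ w, ‖R u w‖ ^ 2 := by
  refine sum_le_sum fun u _ => sum_le_sum fun w _ => ?_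
  unfold rowMat2
  by_cases huw : u = w
  · rw [if_pos huw]
    have := sq_nonneg ‖R u w‖
    nlinarith
  · rw [if_neg huw]
    have h1 := Complex.abs_re_le_norm (Smat2 a v u * R u w * Smat2 a w v)
    have h2 : ‖Smat2 a v u * R u w * Smat2 a w v‖ ≤ ‖R u w‖ := by
      rw [norm_mul, norm_mul]
      have h3 := norm_Smat2_le a v u
      have h4 := norm_Smat2_le a w v
      calc ‖Smat2 a v u‖ * ‖R u w‖ * ‖Smat2 a w v‖ ≤ 1 * ‖R u w‖ * 1 := by
            refine mul_le_mul (mul_le_mul_of_nonneg_right h3 (norm_nonneg _)) h4 (norm_nonneg _) ?_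
            rw [one_mul]
            exact norm_nonneg _
        _ = ‖R u w‖ := by ring
    rw [← sq_abs]
    exact pow_le_pow_left₀ (abs_nonneg _) (h1.trans h2) 2

/-- **The quadratic form of a row is close to the trace**, for a matrix that does not depend on
the row. -/
theorem row_tail2 (hm : Even m) (v : Fin N) (R : Cfg2 N m → Fin N → Fin N → ℂ)
    (hR : ∀ a A κ, R (a + mvRow2 v A κ) = R a) {q : ℕ} (hq : 0 < q) :
    ((univ.filter fun a : Cfg2 N m => (6 * q : ℝ) ^ 2 * ∑ u, ∑ w, ‖R a u w‖ ^ 2 <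
      rowForm2 v (R a) a ^ 2).card : ℝ) ≤ (m : ℝ) ^ Fintype.card (Edge N) * (2 / 9) ^ q := by
  classical
  obtain ⟨p, hp⟩ : ∃ p : Cfg2 N m → Prop, p = fun a => (6 * q : ℝ) ^ 2 * ∑ u, ∑ w, ‖R a u w‖ ^ 2 <
      rowForm2 v (R a) a ^ 2 := ⟨_, rfl⟩
  have h1 : ∑ x : Fin N → Bool,
      ((univ.filter fun a : Cfg2 N m => p (a + mvRow2 v (bset x) (half m))).card : ℝ) =
      2 ^ N * ((univ.filter fun a : Cfg2 N m => p a).card : ℝ) := by
    rw [sum_congr rfl fun x _ => by rw [card_shift2 (mvRow2 v (bset x) (half m)) p]]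
    rw [sum_const, card_univ, Fintype.card_fun, Fintype.card_bool, Fintype.card_fin, nsmul_eq_mul]
    push_cast
    ring
  have h2 : ∑ x : Fin N → Bool,
      ((univ.filter fun a : Cfg2 N m => p (a + mvRow2 v (bset x) (half m))).card : ℝ) =
      ∑ a : Cfg2 N m,
        ((univ.filter fun x : Fin N → Bool => p (a + mvRow2 v (bset x) (half m))).card : ℝ) := by
    have h3 : ∀ x : Fin N → Bool,
        ((univ.filter fun a : Cfg2 N m => p (a + mvRow2 v (bset x) (half m))).card : ℝ) =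
        ∑ a : Cfg2 N m, if p (a + mvRow2 v (bset x) (half m)) then (1 : ℝ) else 0 := by
      intro x
      rw [card_filter]
      push_cast
      rfl
    have h4 : ∀ a : Cfg2 N m,
        ((univ.filter fun x : Fin N → Bool => p (a + mvRow2 v (bset x) (half m))).card : ℝ) =
        ∑ x : Fin N → Bool, if p (a + mvRow2 v (bset x) (half m)) then (1 : ℝ) else 0 := by
      intro a
      rw [card_filter]
      push_cast
      rfl
    rw [sum_congr rfl fun x _ => h3 x, sum_congr rfl fun a _ => h4 a, sum_comm]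
  have h3 : ∀ a : Cfg2 N m,
      ((univ.filter fun x : Fin N → Bool => p (a + mvRow2 v (bset x) (half m))).card : ℝ) ≤
        2 ^ N * (2 / 9) ^ q := by
    intro a
    have h4 := quad_tail (rowMat2 v (R a) a) (fun u => by unfold rowMat2; rw [if_pos rfl])
      (rowMat2_sq_le v (R a) a) hq
    refine le_trans (le_of_eq ?_) h4
    congr 2
    ext x
    rw [mem_filter, mem_filter, hp]
    simp only [mem_univ, true_and]
    rw [hR a (bset x), rowForm2_shift hm]
  have h4 : (2 : ℝ) ^ N * ((univ.filter fun a : Cfg2 N m => p a).card : ℝ) ≤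
      2 ^ N * ((m : ℝ) ^ Fintype.card (Edge N) * (2 / 9) ^ q) := by
    rw [← h1, h2]
    refine (sum_le_sum fun a _ => h3 a).trans (le_of_eq ?_)
    rw [sum_const, card_univ, card_cfg2, nsmul_eq_mul]
    push_cast
    ring
  have h5 := le_of_mul_le_mul_left h4 (by positivity)
  rw [hp] at h5
  exact h5

/-- The configurations from which at most `s` moves lead to a bad one. -/
theorem card_near2 (r : ℕ) (bad : Finset (Cfg2 N m)) (s : ℕ) : ∃ B : Finset (Cfg2 N m),
    B.card ≤ ((2 * N * N + N) * r + 1) ^ s * bad.card ∧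
    ∀ (a : Cfg2 N m) (l : List (Cfg2 N m)), (∀ x ∈ l, IsMove2 r x) → l.length ≤ s →
      a + l.sum ∈ bad → a ∈ B := by
  classical
  induction s with
  | zero =>
    refine ⟨bad, by rw [pow_zero, one_mul], fun a l _ hl h => ?_⟩
    have h1 : l = [] := List.eq_nil_of_length_eq_zero (Nat.le_zero.1 hl)
    rw [h1, List.sum_nil, add_zero] at h
    exact h
  | succ s ih =>
    obtain ⟨B, hB, hBm⟩ := ih
    refine ⟨B ∪ (moves2 N m r).biUnion fun x => B.image fun b => b - x, ?_,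
      fun a l hl hlr h => ?_⟩
    · refine (card_union_le _ _).trans ?_
      have h1 : ((moves2 N m r).biUnion fun x => B.image fun b => b - x).card ≤
          (moves2 N m r).card * B.card := card_biUnion_le_card_mul _ _ _ fun x _ => card_image_le
      have h2 := card_moves2 (N := N) (m := m) r
      calc B.card + ((moves2 N m r).biUnion fun x => B.image fun b => b - x).card
          ≤ B.card + ((2 * N * N + N) * r) * B.card :=
            Nat.add_le_add_left (h1.trans (Nat.mul_le_mul_right _ h2)) _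
        _ = ((2 * N * N + N) * r + 1) * B.card := by ring
        _ ≤ ((2 * N * N + N) * r + 1) * (((2 * N * N + N) * r + 1) ^ s * bad.card) :=
            Nat.mul_le_mul_left _ hB
        _ = ((2 * N * N + N) * r + 1) ^ (s + 1) * bad.card := by ring
    · cases l with
      | nil =>
        rw [List.sum_nil, add_zero] at h
        exact mem_union_left _ (hBm a [] (fun x hx => absurd hx List.not_mem_nil)
          (Nat.zero_le _) (by rwa [List.sum_nil, add_zero]))
      | cons x l =>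
        refine mem_union_right _ (mem_biUnion.2 ⟨x, mem_moves2 x (hl x List.mem_cons_self), ?_⟩)
        refine mem_image.2 ⟨a + x, ?_, ?_⟩
        · refine hBm (a + x) l (fun x' hx' => hl x' (List.mem_cons_of_mem _ hx')) ?_ ?_
          · rw [List.length_cons] at hlr
            omega
          · rw [List.sum_cons, ← add_assoc] at h
            exact h
        · rw [add_sub_cancel_right]

end Pool.Agent.MP_9cec2c_lc.Flat
end

section

/-!
FLAT for all moduli: linear forms in the spectator phases.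
-/

set_option autoImplicit false
set_option linter.unusedSectionVars false

namespace Pool.Agent.MP_9cec2c_lc.Flat

open Finset

variable {N m : ℕ} [NeZero m]

/-- A linear form in the phases of `c`. -/
noncomputable def Tc (c : Fin N → ZMod m) (β : Fin N → ℂ) : ℂ := ∑ u, ph (c u) * β u

/-- Change of the signs of the phases. -/
def cs (c : Fin N → ZMod m) (x : Fin N → Bool) (u : Fin N) : ZMod m :=
  c u + if x u = true then half m else 0

theorem ph_cs (hm : Even m) (c : Fin N → ZMod m) (x : Fin N → Bool) (u : Fin N) :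
    ph (cs c x u) = (sg (x u) : ℂ) * ph (c u) := by
  unfold cs sg
  rw [ph_add]
  by_cases h : x u = true
  · rw [if_pos h, if_pos h, ph_half hm]
    push_cast
    ring
  · rw [if_neg h, if_neg h, ph_zero]
    push_cast
    ring

theorem Tc_cs_re (hm : Even m) (c : Fin N → ZMod m) (β : Fin N → ℂ) (x : Fin N → Bool) :
    (Tc (cs c x) β).re = lin (fun u => (ph (c u) * β u).re) x := by
  unfold Tc lin
  rw [Complex.re_sum]
  refine sum_congr rfl fun u _ => ?_
  rw [ph_cs hm, mul_assoc, Complex.re_ofReal_mul, mul_comm]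

theorem Tc_cs_im (hm : Even m) (c : Fin N → ZMod m) (β : Fin N → ℂ) (x : Fin N → Bool) :
    (Tc (cs c x) β).im = lin (fun u => (ph (c u) * β u).im) x := by
  unfold Tc lin
  rw [Complex.im_sum]
  refine sum_congr rfl fun u _ => ?_
  rw [ph_cs hm, mul_assoc, Complex.im_ofReal_mul, mul_comm]

theorem sum_cs (F : (Fin N → ZMod m) → ℝ) :
    ∑ c : Fin N → ZMod m, ∑ x : Fin N → Bool, F (cs c x) = 2 ^ N * ∑ c, F c := by
  classical
  rw [sum_comm]
  have h1 : ∀ x : Fin N → Bool, ∑ c : Fin N → ZMod m, F (cs c x) = ∑ c, F c := by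
    intro x
    have h2 := Equiv.sum_comp
      (Equiv.addRight (fun u => if x u = true then half m else (0 : ZMod m))) F
    rw [← h2]
    rfl
  rw [sum_congr rfl fun x _ => h1 x, sum_const, card_univ, Fintype.card_fun, Fintype.card_bool,
    Fintype.card_fin, nsmul_eq_mul]
  push_cast
  ring

theorem sum_le_of_cs {F : (Fin N → ZMod m) → ℝ} {B : ℝ}
    (h : ∀ c, ∑ x : Fin N → Bool, F (cs c x) ≤ 2 ^ N * B) :
    ∑ c, F c ≤ (m : ℝ) ^ N * B := by
  have h1 := sum_cs F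
  have h2 : (2 : ℝ) ^ N * ∑ c, F c ≤ 2 ^ N * ((m : ℝ) ^ N * B) := by
    rw [← h1]
    refine (sum_le_sum fun c _ => h c).trans (le_of_eq ?_)
    rw [sum_const, card_univ, Fintype.card_fun, ZMod.card, Fintype.card_fin, nsmul_eq_mul]
    push_cast
    ring
  exact le_of_mul_le_mul_left h2 (by positivity)

theorem sum_eq_of_cs {F : (Fin N → ZMod m) → ℝ} {B : ℝ}
    (h : ∀ c, ∑ x : Fin N → Bool, F (cs c x) = 2 ^ N * B) :
    ∑ c, F c = (m : ℝ) ^ N * B := by
  have h1 := sum_cs F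
  have h2 : (2 : ℝ) ^ N * ∑ c, F c = 2 ^ N * ((m : ℝ) ^ N * B) := by
    rw [← h1, sum_congr rfl fun c _ => h c]
    rw [sum_const, card_univ, Fintype.card_fun, ZMod.card, Fintype.card_fin, nsmul_eq_mul]
    push_cast
    ring
  exact mul_left_cancel₀ (by positivity) h2

/-- The tail of a linear form in signs. -/
theorem lin_tail {n : ℕ} (b : Fin n → ℝ) {H : ℝ} (hH : ∑ u, b u ^ 2 ≤ H) {q : ℕ} (hq : 0 < q) :
    ((univ.filter fun x : Fin n → Bool => 4 * q * H < lin b x ^ 2).card : ℝ) ≤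
      2 ^ n * (1 / 2) ^ q := by
  classical
  have hS0 : 0 ≤ ∑ u, b u ^ 2 := sum_nonneg fun u _ => sq_nonneg _
  have hq' : (1 : ℝ) ≤ q := by exact_mod_cast hq
  rcases (hS0.trans hH).eq_or_lt with hz | hpos
  · have hb : ∀ u, b u = 0 := by
      intro u
      have h1 : ∑ u, b u ^ 2 = 0 := le_antisymm (hH.trans hz.symm.le) hS0
      have h2 := (sum_eq_zero_iff_of_nonneg fun u _ => sq_nonneg (b u)).1 h1 u (mem_univ u)
      exact pow_eq_zero_iff (two_ne_zero) |>.1 h2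
    have h4 : (univ.filter fun x : Fin n → Bool => 4 * q * H < lin b x ^ 2) = ∅ := by
      refine filter_eq_empty_iff.2 fun x _ => ?_
      have h5 : lin b x = 0 := by
        unfold lin
        refine sum_eq_zero fun u _ => ?_
        rw [hb, zero_mul]
      rw [h5, ← hz]
      norm_num
    rw [h4, card_empty, Nat.cast_zero]
    positivity
  · obtain ⟨t, ht⟩ : ∃ t : ℝ, t = 4 * q * H := ⟨_, rfl⟩
    have ht0 : 0 < t := by
      rw [ht]
      positivity
    rw [← ht]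
    have h1 := card_tail (lin b) ht0 q
    have h2 := hyper hq n 1 _ (LowDeg_lin n b)
    rw [Ex_lin_sq, pow_one] at h2
    have h3 : ((2 * q - 1 : ℕ) : ℝ) ≤ 2 * q := by
      have : 2 * q - 1 ≤ 2 * q := by omega
      exact_mod_cast this
    have h4 : ((2 * q - 1 : ℕ) : ℝ) * ∑ u, b u ^ 2 ≤ 1 / 2 * t := by
      calc ((2 * q - 1 : ℕ) : ℝ) * ∑ u, b u ^ 2 ≤ (2 * q) * H :=
            mul_le_mul h3 hH hS0 (by positivity)
        _ = 1 / 2 * t := by
            rw [ht]
            ring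
    have h5 : (0 : ℝ) ≤ ((2 * q - 1 : ℕ) : ℝ) * ∑ u, b u ^ 2 :=
      mul_nonneg (Nat.cast_nonneg _) hS0
    have h6 := h2.trans (pow_le_pow_left₀ h5 h4 q)
    rw [mul_pow] at h6
    refine le_of_mul_le_mul_right ?_ (pow_pos ht0 q)
    calc _ ≤ 2 ^ n * Ex (fun x => lin b x ^ (2 * q)) := h1
      _ ≤ 2 ^ n * ((1 / 2) ^ q * t ^ q) := mul_le_mul_of_nonneg_left h6 (by positivity)
      _ = _ := by ring

theorem sum_re_im_sq (c : Fin N → ZMod m) (β : Fin N → ℂ) :
    ∑ u, (ph (c u) * β u).re ^ 2 + ∑ u, (ph (c u) * β u).im ^ 2 = ∑ u, ‖β u‖ ^ 2 := by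
  rw [← sum_add_distrib]
  refine sum_congr rfl fun u _ => ?_
  have h1 : ‖ph (c u) * β u‖ ^ 2 = ‖β u‖ ^ 2 := by rw [norm_mul, norm_ph, one_mul]
  rw [← h1, ← Complex.normSq_eq_norm_sq, Complex.normSq_apply]
  ring

theorem norm_sq_re_im (z : ℂ) : ‖z‖ ^ 2 = z.re ^ 2 + z.im ^ 2 := by
  rw [← Complex.normSq_eq_norm_sq, Complex.normSq_apply]
  ring

/-- **The tail of a linear form in the spectator phases.** -/
theorem Tc_tail (hm : Even m) (β : Fin N → ℂ) {q : ℕ} (hq : 0 < q) :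
    ((univ.filter fun c : Fin N → ZMod m => 8 * q * ∑ u, ‖β u‖ ^ 2 < ‖Tc c β‖ ^ 2).card : ℝ) ≤
      (m : ℝ) ^ N * (2 * (1 / 2) ^ q) := by
  classical
  have h1 : ((univ.filter fun c : Fin N → ZMod m =>
      8 * q * ∑ u, ‖β u‖ ^ 2 < ‖Tc c β‖ ^ 2).card : ℝ) =
      ∑ c : Fin N → ZMod m, if 8 * q * ∑ u, ‖β u‖ ^ 2 < ‖Tc c β‖ ^ 2 then (1 : ℝ) else 0 := by
    rw [card_filter]
    push_cast
    rfl
  rw [h1]
  refine sum_le_of_cs fun c => ?_
  have h2 := lin_tail (fun u => (ph (c u) * β u).re) (H := ∑ u, ‖β u‖ ^ 2) (by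
    rw [← sum_re_im_sq c β]
    exact le_add_of_nonneg_right (sum_nonneg fun u _ => sq_nonneg _)) hq
  have h3 := lin_tail (fun u => (ph (c u) * β u).im) (H := ∑ u, ‖β u‖ ^ 2) (by
    rw [← sum_re_im_sq c β]
    exact le_add_of_nonneg_left (sum_nonneg fun u _ => sq_nonneg _)) hq
  rw [card_filter] at h2 h3
  push_cast at h2 h3
  calc ∑ x : Fin N → Bool, (if 8 * q * ∑ u, ‖β u‖ ^ 2 < ‖Tc (cs c x) β‖ ^ 2 then (1 : ℝ) else 0)
      ≤ ∑ x : Fin N → Bool, ((if 4 * q * ∑ u, ‖β u‖ ^ 2 <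
          lin (fun u => (ph (c u) * β u).re) x ^ 2 then (1 : ℝ) else 0) +
          (if 4 * q * ∑ u, ‖β u‖ ^ 2 < lin (fun u => (ph (c u) * β u).im) x ^ 2
            then (1 : ℝ) else 0)) := by
        refine sum_le_sum fun x _ => ?_
        by_cases h4 : 8 * q * ∑ u, ‖β u‖ ^ 2 < ‖Tc (cs c x) β‖ ^ 2
        · rw [if_pos h4]
          rw [norm_sq_re_im, Tc_cs_re hm, Tc_cs_im hm] at h4
          by_cases h5 : 4 * q * ∑ u, ‖β u‖ ^ 2 < lin (fun u => (ph (c u) * β u).re) x ^ 2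
          · rw [if_pos h5]
            have : (0 : ℝ) ≤ if 4 * q * ∑ u, ‖β u‖ ^ 2 <
              lin (fun u => (ph (c u) * β u).im) x ^ 2 then (1 : ℝ) else 0 := by
              split_ifs <;> norm_num
            linarith
          · rw [if_neg h5, if_pos (by linarith), zero_add]
        · rw [if_neg h4]
          have h5 : (0 : ℝ) ≤ if 4 * q * ∑ u, ‖β u‖ ^ 2 <
              lin (fun u => (ph (c u) * β u).im) x ^ 2 then (1 : ℝ) else 0 := by
            split_ifs <;> norm_num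
          have h6 : (0 : ℝ) ≤ if 4 * q * ∑ u, ‖β u‖ ^ 2 <
              lin (fun u => (ph (c u) * β u).re) x ^ 2 then (1 : ℝ) else 0 := by
            split_ifs <;> norm_num
          linarith
    _ ≤ 2 ^ N * (1 / 2) ^ q + 2 ^ N * (1 / 2) ^ q := by
        rw [sum_add_distrib]
        exact add_le_add h2 h3
    _ = 2 ^ N * (2 * (1 / 2) ^ q) := by ring

theorem sum_eq_Ex {n : ℕ} (f : (Fin n → Bool) → ℝ) : ∑ x, f x = 2 ^ n * Ex f := by
  unfold Ex
  rw [Fintype.card_fin, mul_div_cancel₀ _ (by positivity : (2 : ℝ) ^ n ≠ 0)]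

/-- The second moment. -/
theorem Tc_second (hm : Even m) (β : Fin N → ℂ) :
    ∑ c : Fin N → ZMod m, ‖Tc c β‖ ^ 2 = (m : ℝ) ^ N * ∑ u, ‖β u‖ ^ 2 := by
  refine sum_eq_of_cs fun c => ?_
  have h1 : ∀ x : Fin N → Bool, ‖Tc (cs c x) β‖ ^ 2 =
      lin (fun u => (ph (c u) * β u).re) x ^ 2 + lin (fun u => (ph (c u) * β u).im) x ^ 2 := by
    intro x
    rw [norm_sq_re_im, Tc_cs_re hm, Tc_cs_im hm]
  rw [sum_congr rfl fun x _ => h1 x, sum_add_distrib, sum_eq_Ex, sum_eq_Ex, Ex_lin_sq, Ex_lin_sq,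
    ← mul_add, sum_re_im_sq]

/-- The fourth moment. -/
theorem Tc_fourth (hm : Even m) (β : Fin N → ℂ) :
    ∑ c : Fin N → ZMod m, (‖Tc c β‖ ^ 2) ^ 2 ≤ (m : ℝ) ^ N * (18 * (∑ u, ‖β u‖ ^ 2) ^ 2) := by
  refine sum_le_of_cs fun c => ?_
  have h1 : ∀ x : Fin N → Bool, (‖Tc (cs c x) β‖ ^ 2) ^ 2 ≤
      2 * lin (fun u => (ph (c u) * β u).re) x ^ (2 * 2) +
        2 * lin (fun u => (ph (c u) * β u).im) x ^ (2 * 2) := by
    intro x
    rw [norm_sq_re_im, Tc_cs_re hm, Tc_cs_im hm, pow_mul, pow_mul]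
    nlinarith [sq_nonneg (lin (fun u => (ph (c u) * β u).re) x ^ 2 -
      lin (fun u => (ph (c u) * β u).im) x ^ 2)]
  refine (sum_le_sum fun x _ => h1 x).trans ?_
  rw [sum_add_distrib, ← mul_sum, ← mul_sum, sum_eq_Ex, sum_eq_Ex]
  have h2 := hyper (q := 2) (by norm_num) N 1 _ (LowDeg_lin N fun u => (ph (c u) * β u).re)
  have h3 := hyper (q := 2) (by norm_num) N 1 _ (LowDeg_lin N fun u => (ph (c u) * β u).im)
  rw [Ex_lin_sq] at h2 h3
  have h4 := sum_re_im_sq c β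
  obtain ⟨A, hA⟩ : ∃ A, A = ∑ u, (ph (c u) * β u).re ^ 2 := ⟨_, rfl⟩
  obtain ⟨B, hB⟩ : ∃ B, B = ∑ u, (ph (c u) * β u).im ^ 2 := ⟨_, rfl⟩
  have hA0 : 0 ≤ A := by
    rw [hA]
    exact sum_nonneg fun u _ => sq_nonneg _
  have hB0 : 0 ≤ B := by
    rw [hB]
    exact sum_nonneg fun u _ => sq_nonneg _
  rw [← hA, ← hB] at h4
  rw [← hA] at h2
  rw [← hB] at h3
  rw [← h4]
  have h5 : ((2 * 2 - 1 : ℕ) : ℝ) = 3 := by norm_num
  rw [h5, pow_one] at h2 h3
  have h6 : (0 : ℝ) < 2 ^ N := by positivity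
  calc 2 * (2 ^ N * Ex fun x => lin (fun u => (ph (c u) * β u).re) x ^ (2 * 2)) +
        2 * (2 ^ N * Ex fun x => lin (fun u => (ph (c u) * β u).im) x ^ (2 * 2))
      ≤ 2 * (2 ^ N * (3 * A) ^ 2) + 2 * (2 ^ N * (3 * B) ^ 2) := by gcongr
    _ = 2 ^ N * (18 * (A ^ 2 + B ^ 2)) := by ring
    _ ≤ 2 ^ N * (18 * (A + B) ^ 2) := by
        refine mul_le_mul_of_nonneg_left ?_ h6.le
        nlinarith [mul_nonneg hA0 hB0]

/-- **Anti-concentration of a linear form in the spectator phases.** -/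
theorem Tc_large (hm : Even m) (β : Fin N → ℂ) :
    (m : ℝ) ^ N ≤ 32 * ((univ.filter fun c : Fin N → ZMod m =>
      ∑ u, ‖β u‖ ^ 2 ≤ 4 * ‖Tc c β‖ ^ 2).card : ℝ) := by
  classical
  obtain ⟨s, hs⟩ : ∃ s, s = ∑ u, ‖β u‖ ^ 2 := ⟨_, rfl⟩
  obtain ⟨G, hG⟩ : ∃ G, G = univ.filter fun c : Fin N → ZMod m => s ≤ 4 * ‖Tc c β‖ ^ 2 := ⟨_, rfl⟩
  rw [← hs, ← hG]
  have hs0 : 0 ≤ s := by
    rw [hs]
    exact sum_nonneg fun u _ => sq_nonneg _
  have hM : (0 : ℝ) < (m : ℝ) ^ N := by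
    have : (0 : ℝ) < m := by exact_mod_cast Nat.pos_of_ne_zero (NeZero.ne m)
    positivity
  have hcardall : (Fintype.card (Fin N → ZMod m) : ℝ) = (m : ℝ) ^ N := by
    rw [Fintype.card_fun, ZMod.card, Fintype.card_fin]
    push_cast
    rfl
  rcases hs0.eq_or_lt with hz | hpos
  · have h1 : G = univ := by
      rw [hG]
      refine filter_true_of_mem fun c _ => ?_
      rw [← hz]
      positivity
    rw [h1, card_univ, hcardall]
    linarith
  · have h2 := Tc_second hm β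
    have h4 := Tc_fourth hm β
    rw [← hs] at h2 h4
    have h5 : ∑ c : Fin N → ZMod m, ‖Tc c β‖ ^ 2 ≤ ∑ c ∈ G, ‖Tc c β‖ ^ 2 + (m : ℝ) ^ N * (s / 4) := by
      rw [← sum_filter_add_sum_filter_not univ (fun c : Fin N → ZMod m => s ≤ 4 * ‖Tc c β‖ ^ 2),
        ← hG]
      refine add_le_add le_rfl ?_
      refine (sum_le_sum (g := fun _ => s / 4) fun c hc => ?_).trans ?_
      · have := (mem_filter.1 hc).2
        push Not at this
        linarith
      · rw [sum_const, nsmul_eq_mul]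
        refine mul_le_mul_of_nonneg_right ?_ (by positivity)
        rw [← hcardall]
        exact_mod_cast card_le_univ _
    have h6 : (∑ c ∈ G, ‖Tc c β‖ ^ 2) ^ 2 ≤ (G.card : ℝ) * ((m : ℝ) ^ N * (18 * s ^ 2)) := by
      have h7 := sq_sum_le_card_mul_sum_sq (s := G) (f := fun c => ‖Tc c β‖ ^ 2)
      refine h7.trans (mul_le_mul_of_nonneg_left ?_ (Nat.cast_nonneg _))
      refine le_trans ?_ h4
      exact sum_le_sum_of_subset_of_nonneg (subset_univ _) fun c _ _ => by positivity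
    rw [h2] at h5
    have h8 : (m : ℝ) ^ N * (3 / 4 * s) ≤ ∑ c ∈ G, ‖Tc c β‖ ^ 2 := by linarith
    have h9 : ((m : ℝ) ^ N * (3 / 4 * s)) ^ 2 ≤ (G.card : ℝ) * ((m : ℝ) ^ N * (18 * s ^ 2)) :=
      (pow_le_pow_left₀ (by positivity) h8 2).trans h6
    have h10 : (m : ℝ) ^ N * s ^ 2 * ((m : ℝ) ^ N * (9 / 16)) ≤
        (m : ℝ) ^ N * s ^ 2 * (18 * (G.card : ℝ)) := by
      calc (m : ℝ) ^ N * s ^ 2 * ((m : ℝ) ^ N * (9 / 16)) = ((m : ℝ) ^ N * (3 / 4 * s)) ^ 2 := by ring
        _ ≤ (G.card : ℝ) * ((m : ℝ) ^ N * (18 * s ^ 2)) := h9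
        _ = _ := by ring
    have h11 := le_of_mul_le_mul_left h10 (by positivity)
    linarith

/-! ### Powers of the coordinates of a unit vector -/

theorem norm_pow_sub_pow (r : ℕ) {z w : ℂ} {M : ℝ} (hz : ‖z‖ ≤ M) (hw : ‖w‖ ≤ M) :
    ‖z ^ r - w ^ r‖ ≤ r * M ^ (r - 1) * ‖z - w‖ := by
  have hM : 0 ≤ M := (norm_nonneg z).trans hz
  induction r with
  | zero => simp
  | succ r ih =>
    have h1 : z ^ (r + 1) - w ^ (r + 1) = z ^ r * (z - w) + (z ^ r - w ^ r) * w := by ring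
    rw [h1]
    refine (norm_add_le _ _).trans ?_
    rw [norm_mul, norm_mul, norm_pow, Nat.add_sub_cancel]
    have h2 : ‖z‖ ^ r ≤ M ^ r := pow_le_pow_left₀ (norm_nonneg _) hz r
    have h3 : ‖z ^ r - w ^ r‖ * ‖w‖ ≤ r * M ^ r * ‖z - w‖ := by
      rcases Nat.eq_zero_or_pos r with h0 | h0
      · rw [h0]
        simp
      · have h4 : M ^ r = M ^ (r - 1) * M := by
          rw [← pow_succ]
          congr 1
          omega
        calc ‖z ^ r - w ^ r‖ * ‖w‖ ≤ (r * M ^ (r - 1) * ‖z - w‖) * M :=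
              mul_le_mul ih hw (norm_nonneg _) (by positivity)
          _ = r * M ^ r * ‖z - w‖ := by rw [h4]; ring
    calc ‖z‖ ^ r * ‖z - w‖ + ‖z ^ r - w ^ r‖ * ‖w‖
        ≤ M ^ r * ‖z - w‖ + r * M ^ r * ‖z - w‖ :=
          add_le_add (mul_le_mul_of_nonneg_right h2 (norm_nonneg _)) h3
      _ = ((r + 1 : ℕ) : ℝ) * M ^ r * ‖z - w‖ := by
          push_cast
          ring

/-- The power mean inequality for a unit vector. -/
theorem one_le_sum_pow {r : ℕ} (hr : 0 < r) {psi : Fin N → ℂ} (h : ∑ u, ‖psi u‖ ^ 2 = 1) :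
    1 ≤ (N : ℝ) ^ (r - 1) * ∑ u, ‖psi u ^ r‖ ^ 2 := by
  obtain ⟨s, hs⟩ : ∃ s, r = s + 1 := ⟨r - 1, by omega⟩
  have h2 := pow_sum_div_card_le_sum_pow (s := (univ : Finset (Fin N)))
    (f := fun u => ‖psi u‖ ^ 2) (n := s) (fun u _ => sq_nonneg _)
  rw [h, one_pow, card_univ, Fintype.card_fin] at h2
  have hN : 0 < N := by
    rcases Nat.eq_zero_or_pos N with h0 | h0
    · subst h0
      simp at h
    · exact h0
  have hN' : (0 : ℝ) < (N : ℝ) ^ s := by positivity
  rw [div_le_iff₀ hN'] at h2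
  rw [hs, Nat.add_sub_cancel, mul_comm]
  refine h2.trans (le_of_eq ?_)
  congr 1
  refine sum_congr rfl fun u _ => ?_
  rw [norm_pow, ← pow_mul, ← pow_mul, mul_comm]

/-- The change of the powers. -/
theorem sum_pow_sub_le {r : ℕ} (hr : 0 < r) {psi psi' : Fin N → ℂ} {D η : ℝ} (hD : 0 ≤ D)
    (h : ∑ u, ‖psi u‖ ^ 2 = 1) (h1 : ∀ u, ‖psi u‖ ^ 2 ≤ D / N) (h2 : ∀ u, ‖psi' u‖ ^ 2 ≤ D / N)
    (hη : ∑ u, ‖psi' u - psi u‖ ^ 2 ≤ η) :
    ∑ u, ‖psi' u ^ r - psi u ^ r‖ ^ 2 ≤ r ^ 2 * D ^ (r - 1) * η * ∑ u, ‖psi u ^ r‖ ^ 2 := by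
  have hN : 0 < N := by
    rcases Nat.eq_zero_or_pos N with h0 | h0
    · subst h0
      simp at h
    · exact h0
  have hN' : (0 : ℝ) < N := by exact_mod_cast hN
  have hη0 : 0 ≤ η := le_trans (sum_nonneg fun u _ => sq_nonneg _) hη
  have h3 : ∀ u, ‖psi' u ^ r - psi u ^ r‖ ^ 2 ≤
      r ^ 2 * (D / N) ^ (r - 1) * ‖psi' u - psi u‖ ^ 2 := by
    intro u
    have hs : ∀ z : ℂ, ‖z‖ ^ 2 ≤ D / N → ‖z‖ ≤ Real.sqrt (D / N) := fun z hz =>
      Real.le_sqrt_of_sq_le hz
    have h4 := norm_pow_sub_pow r (hs _ (h2 u)) (hs _ (h1 u))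
    have h5 := pow_le_pow_left₀ (norm_nonneg _) h4 2
    refine h5.trans (le_of_eq ?_)
    have h6 : (Real.sqrt (D / N) ^ (r - 1)) ^ 2 = (D / N) ^ (r - 1) := by
      rw [← pow_mul, mul_comm, pow_mul, Real.sq_sqrt (by positivity)]
    calc (r * Real.sqrt (D / N) ^ (r - 1) * ‖psi' u - psi u‖) ^ 2
        = r ^ 2 * (Real.sqrt (D / N) ^ (r - 1)) ^ 2 * ‖psi' u - psi u‖ ^ 2 := by ring
      _ = _ := by rw [h6]
  have h4 := one_le_sum_pow hr h
  calc ∑ u, ‖psi' u ^ r - psi u ^ r‖ ^ 2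
      ≤ ∑ u, r ^ 2 * (D / N) ^ (r - 1) * ‖psi' u - psi u‖ ^ 2 := sum_le_sum fun u _ => h3 u
    _ = r ^ 2 * (D / N) ^ (r - 1) * ∑ u, ‖psi' u - psi u‖ ^ 2 := by rw [mul_sum]
    _ ≤ r ^ 2 * (D / N) ^ (r - 1) * η := mul_le_mul_of_nonneg_left hη (by positivity)
    _ = r ^ 2 * D ^ (r - 1) * η * (1 / (N : ℝ) ^ (r - 1)) := by
        rw [div_pow]
        ring
    _ ≤ r ^ 2 * D ^ (r - 1) * η * ∑ u, ‖psi u ^ r‖ ^ 2 := by
        refine mul_le_mul_of_nonneg_left ?_ (by positivity)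
        rw [div_le_iff₀ (by positivity), mul_comm]
        exact h4

end Pool.Agent.MP_9cec2c_lc.Flat
end

section

/-!
FLAT for all moduli: normalization of the phases of the top eigenvectors with the spectator
phases, along sequences of moves; existence of good spectator phases.
-/

set_option autoImplicit false
set_option linter.unusedSectionVars false

namespace Pool.Agent.MP_9cec2c_lc.Flat

open Finset

variable {N m : ℕ} [NeZero m]

/-! ### The Euclidean norm -/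

/-- The Euclidean norm. -/
noncomputable def nr (ψ : Fin N → ℂ) : ℝ := ‖(WithLp.toLp 2 ψ : EuclideanSpace ℂ (Fin N))‖

theorem nr_nonneg (ψ : Fin N → ℂ) : 0 ≤ nr ψ := norm_nonneg _

theorem nr_sq (ψ : Fin N → ℂ) : nr ψ ^ 2 = ∑ v, ‖ψ v‖ ^ 2 := by
  unfold nr
  rw [EuclideanSpace.norm_sq_eq]

theorem nr_add_le (ψ φ : Fin N → ℂ) : nr (fun v => ψ v + φ v) ≤ nr ψ + nr φ := by
  unfold nr
  have h : (WithLp.toLp 2 (fun v => ψ v + φ v) : EuclideanSpace ℂ (Fin N)) =
      WithLp.toLp 2 ψ + WithLp.toLp 2 φ := rfl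
  rw [h]
  exact norm_add_le _ _

theorem nr_smul (z : ℂ) (ψ : Fin N → ℂ) : nr (fun v => z * ψ v) = ‖z‖ * nr ψ := by
  unfold nr
  have h : (WithLp.toLp 2 (fun v => z * ψ v) : EuclideanSpace ℂ (Fin N)) =
      z • WithLp.toLp 2 ψ := rfl
  rw [h]
  exact norm_smul _ _

theorem nr_le_of_sq {ψ : Fin N → ℂ} {x : ℝ} (hx : 0 ≤ x) (h : ∑ v, ‖ψ v‖ ^ 2 ≤ x ^ 2) : nr ψ ≤ x :=
  abs_le_of_sq_le_sq' (by rw [nr_sq]; exact h) hx |>.2

theorem sq_le_of_nr {ψ : Fin N → ℂ} {x : ℝ} (h : nr ψ ≤ x) : ∑ v, ‖ψ v‖ ^ 2 ≤ x ^ 2 := by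
  rw [← nr_sq]
  exact pow_le_pow_left₀ (nr_nonneg _) h 2

/-! ### Top pairs -/

theorem TopPair2.smul {S : Matrix (Fin N) (Fin N) ℂ} {l g : ℝ} {ψ : Fin N → ℂ}
    (h : TopPair2 S l g ψ) {z : ℂ} (hz : ‖z‖ = 1) : TopPair2 S l g (fun u => z * ψ u) := by
  obtain ⟨h1, h2, h3⟩ := h
  refine ⟨?_, ?_, ?_⟩
  · rw [← h1]
    refine sum_congr rfl fun v _ => ?_
    rw [norm_mul, hz, one_mul]
  · intro u
    have e : ∀ v, S u v * (z * ψ v) = z * (S u v * ψ v) := fun v => by ring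
    rw [sum_congr rfl fun v _ => e v, ← mul_sum, h2 u]
    ring
  · intro w hw
    refine h3 w ?_
    have e : ∀ v, (starRingEnd ℂ) (z * ψ v) * w v =
        (starRingEnd ℂ) z * ((starRingEnd ℂ) (ψ v) * w v) := fun v => by
      rw [map_mul]
      ring
    rw [sum_congr rfl fun v _ => e v, ← mul_sum] at hw
    rcases mul_eq_zero.1 hw with h | h
    · exfalso
      have h4 : ‖(starRingEnd ℂ) z‖ = 0 := by rw [h, norm_zero]
      rw [RCLike.norm_conj, hz] at h4
      exact one_ne_zero h4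
    · exact h

theorem TopPair2.mono {S : Matrix (Fin N) (Fin N) ℂ} {l g g' : ℝ} {ψ : Fin N → ℂ}
    (h : TopPair2 S l g ψ) (hg : g' ≤ g) : TopPair2 S l g' ψ := by
  obtain ⟨h1, h2, h3⟩ := h
  refine ⟨h1, h2, fun w hw => (h3 w hw).trans ?_⟩
  exact mul_le_mul_of_nonneg_right (by linarith) (sum_nonneg fun v _ => sq_nonneg _)

theorem norm_sq_conj_mul (z : ℂ) : ((‖z‖ ^ 2 : ℝ) : ℂ) = (starRingEnd ℂ) z * z := by
  rw [mul_comm, Complex.mul_conj, Complex.normSq_eq_norm_sq]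

/-- The component of a second unit eigenvector orthogonal to the first. -/
theorem topPair2_aux {S : Matrix (Fin N) (Fin N) ℂ} {l g l' : ℝ} {ψ ψ' : Fin N → ℂ}
    (h : TopPair2 S l g ψ) (h1' : ∑ v, ‖ψ' v‖ ^ 2 = 1) (h2' : ∀ u, ∑ v, S u v * ψ' v = l' * ψ' u)
    {c : ℂ} (hc : ∑ v, (starRingEnd ℂ) (ψ v) * ψ' v = c) :
    ∑ v, ‖ψ' v - c * ψ v‖ ^ 2 = 1 - ‖c‖ ^ 2 ∧ l' * (1 - ‖c‖ ^ 2) ≤ (l - g) * (1 - ‖c‖ ^ 2) := by
  obtain ⟨h1, h2, h3⟩ := h
  obtain ⟨w, hw⟩ : ∃ w : Fin N → ℂ, w = fun v => ψ' v - c * ψ v := ⟨_, rfl⟩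
  have hwv : ∀ v, ψ' v - c * ψ v = w v := fun v => by rw [hw]
  have u1 : ∑ v, (starRingEnd ℂ) (ψ v) * ψ v = 1 := by
    have := congrArg (fun x : ℝ => (x : ℂ)) h1
    simp only [Complex.ofReal_sum, Complex.ofReal_one] at this
    rw [← this]
    exact sum_congr rfl fun v _ => (norm_sq_conj_mul _).symm
  have u2 : ∑ v, (starRingEnd ℂ) (ψ' v) * ψ' v = 1 := by
    have := congrArg (fun x : ℝ => (x : ℂ)) h1'
    simp only [Complex.ofReal_sum, Complex.ofReal_one] at this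
    rw [← this]
    exact sum_congr rfl fun v _ => (norm_sq_conj_mul _).symm
  have u3 : ∑ v, (starRingEnd ℂ) (ψ' v) * ψ v = (starRingEnd ℂ) c := by
    rw [← hc, map_sum]
    refine sum_congr rfl fun v _ => ?_
    rw [map_mul, Complex.conj_conj, mul_comm]
  have orth : ∑ v, (starRingEnd ℂ) (ψ v) * w v = 0 := by
    have e : ∀ v, (starRingEnd ℂ) (ψ v) * w v =
        (starRingEnd ℂ) (ψ v) * ψ' v - c * ((starRingEnd ℂ) (ψ v) * ψ v) := fun v => by
      rw [← hwv]
      ring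
    rw [sum_congr rfl fun v _ => e v, sum_sub_distrib, ← mul_sum, u1, hc, mul_one, sub_self]
  have cc : (starRingEnd ℂ) c * c = ((‖c‖ ^ 2 : ℝ) : ℂ) := (norm_sq_conj_mul c).symm
  have nw : ((∑ v, ‖w v‖ ^ 2 : ℝ) : ℂ) = ((1 - ‖c‖ ^ 2 : ℝ) : ℂ) := by
    rw [Complex.ofReal_sum]
    have e : ∀ v, ((‖w v‖ ^ 2 : ℝ) : ℂ) = (starRingEnd ℂ) (ψ' v) * ψ' v -
        c * ((starRingEnd ℂ) (ψ' v) * ψ v) - (starRingEnd ℂ) c * ((starRingEnd ℂ) (ψ v) * ψ' v) +
        (starRingEnd ℂ) c * c * ((starRingEnd ℂ) (ψ v) * ψ v) := fun v => by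
      rw [norm_sq_conj_mul, ← hwv, map_sub, map_mul]
      ring
    rw [sum_congr rfl fun v _ => e v, sum_add_distrib, sum_sub_distrib, sum_sub_distrib,
      ← mul_sum, ← mul_sum, ← mul_sum, u1, u2, u3, hc, mul_comm c, cc]
    push_cast
    ring
  have nw' : ∑ v, ‖w v‖ ^ 2 = 1 - ‖c‖ ^ 2 := by exact_mod_cast nw
  have form : ∑ u, ∑ v, (starRingEnd ℂ) (w u) * S u v * w v =
      ((l' * (1 - ‖c‖ ^ 2) : ℝ) : ℂ) := by
    have e : ∀ u, ∑ v, (starRingEnd ℂ) (w u) * S u v * w v =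
        l' * ((starRingEnd ℂ) (ψ' u) * ψ' u) - c * l * ((starRingEnd ℂ) (ψ' u) * ψ u) -
        (starRingEnd ℂ) c * l' * ((starRingEnd ℂ) (ψ u) * ψ' u) +
        (starRingEnd ℂ) c * c * l * ((starRingEnd ℂ) (ψ u) * ψ u) := by
      intro u
      have e1 : ∀ v, (starRingEnd ℂ) (w u) * S u v * w v =
          (starRingEnd ℂ) (w u) * (S u v * ψ' v) - (starRingEnd ℂ) (w u) * c * (S u v * ψ v) :=
        fun v => by
          rw [← hwv v]
          ring
      rw [sum_congr rfl fun v _ => e1 v, sum_sub_distrib, ← mul_sum, ← mul_sum, h2 u, h2' u,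
        ← hwv, map_sub, map_mul]
      ring
    rw [sum_congr rfl fun u _ => e u, sum_add_distrib, sum_sub_distrib, sum_sub_distrib,
      ← mul_sum, ← mul_sum, ← mul_sum, ← mul_sum, u1, u2, u3, hc]
    have : (l' : ℂ) * 1 - c * l * (starRingEnd ℂ) c - (starRingEnd ℂ) c * l' * c +
        (starRingEnd ℂ) c * c * l * 1 = l' - l' * ((starRingEnd ℂ) c * c) := by ring
    rw [this, cc]
    push_cast
    ring
  have h4 := h3 w orth
  rw [form, nw', Complex.ofReal_re] at h4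
  refine ⟨?_, h4⟩
  rw [← nw']
  exact sum_congr rfl fun v _ => by rw [hwv]

/-- The top eigenvector is unique up to a phase. -/
theorem TopPair2.uniq {S : Matrix (Fin N) (Fin N) ℂ} {l g l' g' : ℝ} {ψ ψ' : Fin N → ℂ}
    (hg : 0 < g) (hg' : 0 < g') (h : TopPair2 S l g ψ) (h' : TopPair2 S l' g' ψ') :
    ∃ z : ℂ, ‖z‖ = 1 ∧ ∀ u, ψ' u = z * ψ u := by
  obtain ⟨c, hc⟩ : ∃ c, ∑ v, (starRingEnd ℂ) (ψ v) * ψ' v = c := ⟨_, rfl⟩
  have hc' : ∑ v, (starRingEnd ℂ) (ψ' v) * ψ v = (starRingEnd ℂ) c := by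
    rw [← hc, map_sum]
    refine sum_congr rfl fun v _ => ?_
    rw [map_mul, Complex.conj_conj, mul_comm]
  obtain ⟨a1, a2⟩ := topPair2_aux h h'.1 h'.2.1 hc
  obtain ⟨b1, b2⟩ := topPair2_aux h' h.1 h.2.1 hc'
  rw [RCLike.norm_conj] at b1 b2
  have a0 : 0 ≤ 1 - ‖c‖ ^ 2 := by
    rw [← a1]
    exact sum_nonneg fun v _ => sq_nonneg _
  rcases a0.eq_or_lt with h0 | h0
  · refine ⟨c, ?_, fun u => ?_⟩
    · have : ‖c‖ ^ 2 = 1 := by linarith
      exact (pow_eq_one_iff_of_nonneg (norm_nonneg _) two_ne_zero).1 this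
    · rw [← h0] at a1
      have h4 := (sum_eq_zero_iff_of_nonneg fun v _ => sq_nonneg _).1 a1 u (mem_univ u)
      have h5 := norm_eq_zero.1 ((pow_eq_zero_iff two_ne_zero).1 h4)
      exact sub_eq_zero.1 h5
  · exfalso
    have c1 := le_of_mul_le_mul_right a2 h0
    have c2 := le_of_mul_le_mul_right b2 h0
    linarith

/-! ### Scalars -/

/-- A unit scalar whose `r`-th power makes `A` positive. -/
theorem exists_root {r : ℕ} (hr : 0 < r) (A : ℂ) : ∃ z : ℂ, ‖z‖ = 1 ∧ z ^ r * A = (‖A‖ : ℂ) := by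
  refine ⟨Complex.exp (Complex.I * ((-(A.arg / r) : ℝ) : ℂ)), Complex.norm_exp_I_mul_ofReal _, ?_⟩
  have hr' : (r : ℂ) ≠ 0 := by exact_mod_cast hr.ne'
  rw [← Complex.exp_nat_mul]
  have h1 : (r : ℂ) * (Complex.I * ((-(A.arg / r) : ℝ) : ℂ)) = -(A.arg * Complex.I) := by
    push_cast
    field_simp
  rw [h1, Complex.exp_neg]
  have h2 := Complex.norm_mul_exp_arg_mul_I A
  rw [inv_mul_eq_div, div_eq_iff (Complex.exp_ne_zero _)]
  exact h2.symm

/-- A unit scalar near `1` whose `r`-th power makes `w` positive, for `w` near `1`. -/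
theorem exists_root_near {r : ℕ} (hr : 0 < r) {w : ℂ} {η : ℝ} (h : ‖w - 1‖ ≤ η) (hη : η ≤ 1 / 2) :
    ∃ z : ℂ, ‖z‖ = 1 ∧ z ^ r * w = (‖w‖ : ℂ) ∧ ‖1 - z‖ ≤ 4 * η := by
  have hw0 : w ≠ 0 := by
    rintro rfl
    rw [zero_sub, norm_neg, norm_one] at h
    linarith
  have hn : 0 < ‖w‖ := norm_pos_iff.2 hw0
  have hr1 : (1 : ℝ) ≤ r := by exact_mod_cast hr
  refine ⟨Complex.exp (Complex.I * ((-(w.arg / r) : ℝ) : ℂ)), Complex.norm_exp_I_mul_ofReal _,
    ?_, ?_⟩
  · have hr' : (r : ℂ) ≠ 0 := by exact_mod_cast hr.ne'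
    rw [← Complex.exp_nat_mul]
    have h1 : (r : ℂ) * (Complex.I * ((-(w.arg / r) : ℝ) : ℂ)) = -(w.arg * Complex.I) := by
      push_cast
      field_simp
    rw [h1, Complex.exp_neg]
    have h2 := Complex.norm_mul_exp_arg_mul_I w
    rw [inv_mul_eq_div, div_eq_iff (Complex.exp_ne_zero _)]
    exact h2.symm
  · rw [norm_sub_rev]
    refine (Real.norm_exp_I_mul_ofReal_sub_one_le).trans ?_
    rw [norm_neg, norm_div, RCLike.norm_natCast, Real.norm_eq_abs]
    have h3 : |w.arg| / r ≤ |w.arg| := div_le_self (abs_nonneg _) hr1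
    refine h3.trans ?_
    -- the argument of w
    obtain ⟨u, hu⟩ : ∃ u : ℂ, u = w / ‖w‖ := ⟨_, rfl⟩
    have hn' : (‖w‖ : ℂ) ≠ 0 := by exact_mod_cast hn.ne'
    have hu1 : ‖u‖ = 1 := by
      rw [hu, norm_div, Complex.norm_real, norm_norm, div_self hn.ne']
    have hu0 : u ≠ 0 := by
      intro h0
      rw [h0, norm_zero] at hu1
      exact zero_ne_one hu1
    have harg : w.arg = u.arg := by
      have : w = (‖w‖ : ℝ) * u := by
        rw [hu]
        field_simp
      conv_lhs => rw [this]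
      exact Complex.arg_real_mul u hn
    have h4 := Complex.angle_le_mul_norm_sub hu1 (norm_one : ‖(1 : ℂ)‖ = 1)
    rw [Complex.angle_one_right hu0, ← harg] at h4
    have h5 : ‖u - 1‖ ≤ 2 * η := by
      have e : u - 1 = (u - w) + (w - 1) := by ring
      have h6 : ‖u - w‖ ≤ ‖w - 1‖ := by
        have e2 : u - w = (1 - ‖w‖ : ℝ) * u := by
          rw [hu]
          push_cast
          field_simp
        rw [e2, norm_mul, hu1, mul_one, Complex.norm_real, Real.norm_eq_abs]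
        have := abs_norm_sub_norm_le (1 : ℂ) w
        rw [norm_one, norm_sub_rev] at this
        exact this
      rw [e]
      refine (norm_add_le _ _).trans ?_
      linarith
    have hpi : Real.pi / 2 ≤ 2 := by
      have := Real.pi_lt_d2
      linarith
    have hη0 : 0 ≤ η := (norm_nonneg _).trans h
    calc |w.arg| ≤ Real.pi / 2 * ‖u - 1‖ := h4
      _ ≤ 2 * (2 * η) := mul_le_mul hpi h5 (norm_nonneg _) (by norm_num)
      _ = 4 * η := by ring

/-! ### The normalization -/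

/-- The linear form `T_c` of the `r`-th powers. -/
noncomputable def Tr2 (r : ℕ) (c : Fin N → ZMod m) (ψ : Fin N → ℂ) : ℂ :=
  Tc c (fun u => ψ u ^ r)

theorem Tr2_smul (r : ℕ) (c : Fin N → ZMod m) (z : ℂ) (ψ : Fin N → ℂ) :
    Tr2 r c (fun u => z * ψ u) = z ^ r * Tr2 r c ψ := by
  unfold Tr2 Tc
  rw [mul_sum]
  refine sum_congr rfl fun u _ => ?_
  show ph (c u) * (z * ψ u) ^ r = z ^ r * (ph (c u) * ψ u ^ r)
  rw [mul_pow]
  ring

/-- `ψ` is normalized: `T_c (ψ ^ r)` is a positive real number. -/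
def PosT (r : ℕ) (c : Fin N → ZMod m) (ψ : Fin N → ℂ) : Prop :=
  ∃ t : ℝ, 0 < t ∧ Tr2 r c ψ = (t : ℂ)

/-- The good sets: after at most `L` moves, the top eigenvectors are simple, can be normalized
with `c`, and move by at most `ε`. -/
def GoodSet2 (r L : ℕ) (c : Fin N → ZMod m) (ε : ℝ) (Gam : Finset (Cfg2 N m)) : Prop :=
  ∀ a ∈ Gam, ∀ l : List (Cfg2 N m), (∀ x ∈ l, IsMove2 r x) → l.length ≤ L →
    ∃ (ψa ψb : Fin N → ℂ) (la lb g : ℝ), 0 < g ∧ TopPair2 (Smat2 a) la g ψa ∧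
      TopPair2 (Smat2 (a + l.sum)) lb g ψb ∧ PosT r c ψa ∧ PosT r c ψb ∧
      ∑ v, ‖ψa v - ψb v‖ ^ 2 ≤ ε ^ 2 ∧ ∀ v, ‖ψb v‖ ^ 2 ≤ ε ^ 2 / 100

/-- Output of the random matrix part at one configuration: after at most `L` moves the top
eigenvector is simple and delocalized, and one more move turns it little. -/
def SGood2 (r L : ℕ) (D η : ℝ) (a : Cfg2 N m) : Prop :=
  ∀ l : List (Cfg2 N m), (∀ x ∈ l, IsMove2 r x) → l.length ≤ L →
    ∃ (lam g : ℝ) (ψ : Fin N → ℂ), 0 < g ∧ TopPair2 (Smat2 (a + l.sum)) lam g ψ ∧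
      (∀ v, ‖ψ v‖ ^ 2 ≤ D / N) ∧
      ∀ x, IsMove2 r x → l.length + 1 ≤ L → ∃ (lam' g' : ℝ) (ψ' : Fin N → ℂ), 0 < g' ∧
        TopPair2 (Smat2 (a + l.sum + x)) lam' g' ψ' ∧ ∑ v, ‖ψ' v - ψ v‖ ^ 2 ≤ η

open Classical in
/-- A top eigenvector (if it is simple). -/
noncomputable def tpv (b : Cfg2 N m) : Fin N → ℂ :=
  if h : ∃ (ψ : Fin N → ℂ) (lam g : ℝ), 0 < g ∧ TopPair2 (Smat2 b) lam g ψ then h.choose else 0

theorem tpv_spec {b : Cfg2 N m} {lam g : ℝ} {ψ : Fin N → ℂ} (hg : 0 < g)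
    (h : TopPair2 (Smat2 b) lam g ψ) :
    ∃ lam' g', 0 < g' ∧ TopPair2 (Smat2 b) lam' g' (tpv b) := by
  unfold tpv
  rw [dif_pos ⟨ψ, lam, g, hg, h⟩]
  exact (⟨ψ, lam, g, hg, h⟩ : ∃ (ψ : Fin N → ℂ) (lam g : ℝ), 0 < g ∧
    TopPair2 (Smat2 b) lam g ψ).choose_spec

theorem tpv_unique {b : Cfg2 N m} {lam g : ℝ} {ψ : Fin N → ℂ} (hg : 0 < g)
    (h : TopPair2 (Smat2 b) lam g ψ) : ∃ z : ℂ, ‖z‖ = 1 ∧ ∀ u, ψ u = z * tpv b u := by
  obtain ⟨lam', g', hg', h'⟩ := tpv_spec hg h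
  exact TopPair2.uniq hg' hg h' h

open Classical in
/-- The phase which aligns the top eigenvector of `b + x` with the one of `b`. -/
noncomputable def alg (η : ℝ) (b x : Cfg2 N m) : ℂ :=
  if h : ∃ z : ℂ, ‖z‖ = 1 ∧ ∑ v, ‖z * tpv (b + x) v - tpv b v‖ ^ 2 ≤ η then h.choose else 1

theorem alg_norm (η : ℝ) (b x : Cfg2 N m) : ‖alg η b x‖ = 1 := by
  unfold alg
  split_ifs with h
  · exact h.choose_spec.1
  · exact norm_one

theorem alg_spec {η : ℝ} {b x : Cfg2 N m} {lam g lam' g' : ℝ} {ψ ψ' : Fin N → ℂ} (hg : 0 < g)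
    (h : TopPair2 (Smat2 b) lam g ψ) (hg' : 0 < g') (h' : TopPair2 (Smat2 (b + x)) lam' g' ψ')
    (hη : ∑ v, ‖ψ' v - ψ v‖ ^ 2 ≤ η) :
    ∑ v, ‖alg η b x * tpv (b + x) v - tpv b v‖ ^ 2 ≤ η := by
  obtain ⟨z, hz, hzψ⟩ := tpv_unique hg h
  obtain ⟨z', hz', hzψ'⟩ := tpv_unique hg' h'
  have hz0 : z ≠ 0 := by
    intro h0
    rw [h0, norm_zero] at hz
    exact zero_ne_one hz
  have hex : ∃ z : ℂ, ‖z‖ = 1 ∧ ∑ v, ‖z * tpv (b + x) v - tpv b v‖ ^ 2 ≤ η := by
    refine ⟨z⁻¹ * z', by rw [norm_mul, norm_inv, hz, hz', inv_one, mul_one], ?_⟩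
    refine (le_of_eq (sum_congr rfl fun v _ => ?_)).trans hη
    have e : ψ' v - ψ v = z * (z⁻¹ * z' * tpv (b + x) v - tpv b v) := by
      rw [hzψ, hzψ', mul_sub, ← mul_assoc, ← mul_assoc, mul_inv_cancel₀ hz0, one_mul]
    rw [e, norm_mul, hz, one_mul]
  unfold alg
  rw [dif_pos hex]
  exact hex.choose_spec.2

/-- The coefficients of the change of `T_c` under the move `x`. -/
noncomputable def dcoef (r : ℕ) (η : ℝ) (b x : Cfg2 N m) : Fin N → ℂ :=
  fun u => (alg η b x * tpv (b + x) u) ^ r - tpv b u ^ r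

/-! ### Neighbourhoods -/

open Classical in
/-- The configurations reached by at most `s` moves. -/
noncomputable def nbh (r : ℕ) (a : Cfg2 N m) : ℕ → Finset (Cfg2 N m)
  | 0 => {a}
  | s + 1 => nbh r a s ∪ (nbh r a s ×ˢ moves2 N m r).image fun p => p.1 + p.2

theorem mem_nbh {r : ℕ} (a : Cfg2 N m) (l : List (Cfg2 N m)) (hl : ∀ x ∈ l, IsMove2 r x) :
    ∀ s, l.length ≤ s → a + l.sum ∈ nbh r a s := by
  classical
  induction l using List.reverseRecOn with
  | nil =>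
    intro s _
    rw [List.sum_nil, add_zero]
    induction s with
    | zero => exact mem_singleton_self _
    | succ s ih => exact mem_union_left _ (ih (Nat.zero_le _))
  | append_singleton l x ih =>
    intro s hs
    rw [List.length_append, List.length_singleton] at hs
    obtain ⟨s', rfl⟩ : ∃ s', s = s' + 1 := ⟨s - 1, by omega⟩
    have h1 := ih (fun y hy => hl y (List.mem_append_left _ hy)) s' (by omega)
    refine mem_union_right _ (mem_image.2 ⟨(a + l.sum, x), mem_product.2 ⟨h1, ?_⟩, ?_⟩)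
    · exact mem_moves2 x (hl x (by simp))
    · rw [List.sum_append, List.sum_singleton, add_assoc]

theorem card_nbh (r : ℕ) (a : Cfg2 N m) (s : ℕ) :
    (nbh r a s).card ≤ ((2 * N * N + N) * r + 1) ^ s := by
  classical
  induction s with
  | zero => exact (card_singleton a).le
  | succ s ih =>
    show (nbh r a s ∪ (nbh r a s ×ˢ moves2 N m r).image fun p => p.1 + p.2).card ≤ _
    refine (card_union_le _ _).trans ?_
    have h1 : ((nbh r a s ×ˢ moves2 N m r).image fun p => p.1 + p.2).card ≤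
        (nbh r a s).card * ((2 * N * N + N) * r) := by
      refine card_image_le.trans ?_
      rw [card_product]
      exact Nat.mul_le_mul_left _ (card_moves2 r)
    calc (nbh r a s).card + ((nbh r a s ×ˢ moves2 N m r).image fun p => p.1 + p.2).card
        ≤ (nbh r a s).card + (nbh r a s).card * ((2 * N * N + N) * r) := Nat.add_le_add_left h1 _
      _ = (nbh r a s).card * ((2 * N * N + N) * r + 1) := by ring
      _ ≤ ((2 * N * N + N) * r + 1) ^ s * ((2 * N * N + N) * r + 1) := Nat.mul_le_mul_right _ ih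
      _ = _ := (pow_succ _ _).symm

/-! ### Good spectator phases for one configuration -/

/-- The spectator phases `c` are good for `a`. -/
def CGood (r L q : ℕ) (η : ℝ) (a : Cfg2 N m) (c : Fin N → ZMod m) : Prop :=
  (∑ u, ‖tpv a u ^ r‖ ^ 2 ≤ 4 * ‖Tr2 r c (tpv a)‖ ^ 2) ∧
    ∀ b ∈ nbh r a L, ∀ x ∈ moves2 N m r,
      ‖Tc c (dcoef r η b x)‖ ^ 2 ≤ 8 * q * ∑ u, ‖dcoef r η b x u‖ ^ 2

open Classical in
/-- Most spectator phases are good. -/
theorem card_cgood (hm : Even m) {r L q : ℕ} (hq : 0 < q) (η : ℝ) (a : Cfg2 N m)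
    (hnum : 128 * (((2 * N * N + N) * r + 1 : ℕ) : ℝ) ^ (L + 1) * (1 / 2) ^ q ≤ 1) :
    (m : ℝ) ^ N ≤ 64 * ((univ.filter fun c : Fin N → ZMod m => CGood r L q η a c).card : ℝ) := by
  obtain ⟨A, hA⟩ : ∃ A : Finset (Fin N → ZMod m), A = univ.filter fun c : Fin N → ZMod m =>
      ∑ u, ‖tpv a u ^ r‖ ^ 2 ≤ 4 * ‖Tr2 r c (tpv a)‖ ^ 2 := ⟨_, rfl⟩
  obtain ⟨B, hB⟩ : ∃ B : Finset (Fin N → ZMod m), B = (nbh r a L ×ˢ moves2 N m r).biUnion
      fun p => univ.filter fun c : Fin N → ZMod m =>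
        8 * q * ∑ u, ‖dcoef r η p.1 p.2 u‖ ^ 2 < ‖Tc c (dcoef r η p.1 p.2)‖ ^ 2 := ⟨_, rfl⟩
  have hAc : (m : ℝ) ^ N ≤ 32 * (A.card : ℝ) := by
    rw [hA]
    exact Tc_large hm _
  have hM : (0 : ℝ) < (m : ℝ) ^ N := by
    have : (0 : ℝ) < m := by exact_mod_cast Nat.pos_of_ne_zero (NeZero.ne m)
    positivity
  obtain ⟨Q, hQ⟩ : ∃ Q : ℕ, Q = (2 * N * N + N) * r + 1 := ⟨_, rfl⟩
  have hBc : (B.card : ℝ) ≤ (m : ℝ) ^ N * (1 / 64) := by
    have h1 : (B.card : ℝ) ≤ ∑ p ∈ nbh r a L ×ˢ moves2 N m r,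
        ((univ.filter fun c : Fin N → ZMod m =>
          8 * q * ∑ u, ‖dcoef r η p.1 p.2 u‖ ^ 2 < ‖Tc c (dcoef r η p.1 p.2)‖ ^ 2).card : ℝ) := by
      rw [hB]
      exact_mod_cast card_biUnion_le
    have h2 : ∑ p ∈ nbh r a L ×ˢ moves2 N m r,
        ((univ.filter fun c : Fin N → ZMod m =>
          8 * q * ∑ u, ‖dcoef r η p.1 p.2 u‖ ^ 2 < ‖Tc c (dcoef r η p.1 p.2)‖ ^ 2).card : ℝ) ≤
        ∑ _p ∈ nbh r a L ×ˢ moves2 N m r, (m : ℝ) ^ N * (2 * (1 / 2) ^ q) :=
      sum_le_sum fun p _ => Tc_tail hm _ hq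
    rw [sum_const, nsmul_eq_mul, card_product] at h2
    have h3 : (((nbh r a L).card * (moves2 N m r).card : ℕ) : ℝ) ≤ (Q : ℝ) ^ (L + 1) := by
      have h4 : (nbh r a L).card * (moves2 N m r).card ≤ Q ^ (L + 1) := by
        rw [pow_succ]
        refine Nat.mul_le_mul ?_ ?_
        · rw [hQ]
          exact card_nbh r a L
        · rw [hQ]
          exact (card_moves2 r).trans (Nat.le_succ _)
      exact_mod_cast h4
    rw [← hQ] at hnum
    calc (B.card : ℝ) ≤ _ := h1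
      _ ≤ _ := h2
      _ ≤ (Q : ℝ) ^ (L + 1) * ((m : ℝ) ^ N * (2 * (1 / 2) ^ q)) :=
          mul_le_mul_of_nonneg_right h3 (by positivity)
      _ = (m : ℝ) ^ N * (1 / 64) * (128 * (Q : ℝ) ^ (L + 1) * (1 / 2) ^ q) := by ring
      _ ≤ (m : ℝ) ^ N * (1 / 64) * 1 := mul_le_mul_of_nonneg_left hnum (by positivity)
      _ = _ := mul_one _
  have hsub : A \ B ⊆ univ.filter fun c : Fin N → ZMod m => CGood r L q η a c := by
    intro c hc
    obtain ⟨hc1, hc2⟩ := mem_sdiff.1 hc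
    refine mem_filter.2 ⟨mem_univ _, ?_, ?_⟩
    · rw [hA] at hc1
      exact (mem_filter.1 hc1).2
    · intro b hb x hx
      by_contra hcon
      rw [not_le] at hcon
      apply hc2
      rw [hB]
      exact mem_biUnion.2 ⟨(b, x), mem_product.2 ⟨hb, hx⟩, mem_filter.2 ⟨mem_univ _, hcon⟩⟩
  have h5 : (A.card : ℝ) ≤ ((univ.filter fun c : Fin N → ZMod m => CGood r L q η a c).card : ℝ) +
      B.card := by
    have h6 : A.card ≤ (A \ B).card + B.card := by
      rw [← card_union_of_disjoint sdiff_disjoint]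
      exact card_le_card (by
        rw [sdiff_union_self_eq_union]
        exact subset_union_left)
    have h7 := card_le_card hsub
    exact_mod_cast h6.trans (Nat.add_le_add_right h7 _)
  linarith

/-! ### Chains of moves -/

theorem Tc_sub (c : Fin N → ZMod m) (β γ : Fin N → ℂ) :
    Tc c (fun u => β u - γ u) = Tc c β - Tc c γ := by
  unfold Tc
  rw [← sum_sub_distrib]
  exact sum_congr rfl fun u _ => mul_sub _ _ _

/-- The sum of the `r`-th powers of a delocalized unit vector. -/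
theorem sum_pow_le {r : ℕ} (hr : 0 < r) {ψ : Fin N → ℂ} {D : ℝ}
    (h : ∑ u, ‖ψ u‖ ^ 2 = 1) (h1 : ∀ u, ‖ψ u‖ ^ 2 ≤ D / N) :
    ∑ u, ‖ψ u ^ r‖ ^ 2 ≤ (D / N) ^ (r - 1) := by
  obtain ⟨s, hs⟩ : ∃ s, r = s + 1 := ⟨r - 1, by omega⟩
  rw [hs, Nat.add_sub_cancel]
  calc ∑ u, ‖ψ u ^ (s + 1)‖ ^ 2 = ∑ u, (‖ψ u‖ ^ 2) ^ s * ‖ψ u‖ ^ 2 := by
        refine sum_congr rfl fun u _ => ?_
        rw [norm_pow, ← pow_mul, ← pow_mul, ← pow_add]
        congr 1
        ring
    _ ≤ ∑ u, (D / N) ^ s * ‖ψ u‖ ^ 2 := by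
        refine sum_le_sum fun u _ => mul_le_mul_of_nonneg_right ?_ (sq_nonneg _)
        exact pow_le_pow_left₀ (sq_nonneg _) (h1 u) s
    _ = (D / N) ^ s := by rw [← mul_sum, h, mul_one]

/-- The top eigenvector along a sequence of moves, with its drift and the drift of `T_c`. -/
theorem chain2 {r L q : ℕ} (hr : 0 < r) {D η : ℝ} (hD : 0 ≤ D) (hη : 0 ≤ η) {a : Cfg2 N m}
    {c : Fin N → ZMod m} (hS : SGood2 r L D η a) (hC : CGood r L q η a c)
    (l : List (Cfg2 N m)) (hl : ∀ x ∈ l, IsMove2 r x) (hL : l.length ≤ L) :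
    ∃ z : ℂ, ‖z‖ = 1 ∧ nr (fun v => z * tpv (a + l.sum) v - tpv a v) ≤ l.length * Real.sqrt η ∧
      ‖Tr2 r c (fun v => z * tpv (a + l.sum) v) - Tr2 r c (tpv a)‖ ≤ l.length *
        Real.sqrt (8 * q * r ^ 2 * D ^ (r - 1) * η * (D / N) ^ (r - 1)) := by
  induction l using List.reverseRecOn with
  | nil =>
    refine ⟨1, norm_one, ?_, ?_⟩
    · rw [List.sum_nil, add_zero, List.length_nil, Nat.cast_zero, zero_mul]
      refine nr_le_of_sq le_rfl (le_of_eq ?_)
      have e : ∀ v, ‖(1 : ℂ) * tpv a v - tpv a v‖ ^ 2 = 0 := fun v => by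
        rw [one_mul, sub_self, norm_zero]
        norm_num
      rw [sum_congr rfl fun v _ => e v, sum_const_zero]
      norm_num
    · rw [List.sum_nil, add_zero, List.length_nil, Nat.cast_zero, zero_mul, Tr2_smul, one_pow,
        one_mul, sub_self, norm_zero]
  | append_singleton l x ih =>
    rw [List.length_append, List.length_singleton] at hL
    have hl' : ∀ y ∈ l, IsMove2 r y := fun y hy => hl y (List.mem_append_left _ hy)
    have hx : IsMove2 r x := hl x (by simp)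
    obtain ⟨z, hz, hz1, hz2⟩ := ih hl' (by omega)
    obtain ⟨b, hb⟩ : ∃ b, b = a + l.sum := ⟨_, rfl⟩
    have hbx : a + (l ++ [x]).sum = b + x := by
      rw [List.sum_append, List.sum_singleton, ← add_assoc, hb]
    obtain ⟨lam, g, ψ, hg, htp, hdel, hstep⟩ := hS l hl' (by omega)
    obtain ⟨lam', g', ψ', hg', htp', hclose⟩ := hstep x hx hL
    rw [← hb] at htp htp' hz1 hz2
    obtain ⟨y, hy⟩ : ∃ y, y = alg η b x := ⟨_, rfl⟩
    have hy1 : ‖y‖ = 1 := by
      rw [hy]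
      exact alg_norm _ _ _
    have halg : ∑ v, ‖y * tpv (b + x) v - tpv b v‖ ^ 2 ≤ η := by
      rw [hy]
      exact alg_spec hg htp hg' htp' hclose
    -- unit, delocalized
    obtain ⟨w, hw, hwψ⟩ := tpv_unique hg htp
    have ub : ∑ v, ‖tpv b v‖ ^ 2 = 1 := by
      obtain ⟨_, _, _, h5⟩ := tpv_spec hg htp
      exact h5.1
    have db : ∀ v, ‖tpv b v‖ ^ 2 ≤ D / N := fun v => by
      have := hdel v
      rw [hwψ, norm_mul, hw, one_mul] at this
      exact this
    have dbx : ∀ v, ‖y * tpv (b + x) v‖ ^ 2 ≤ D / N := by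
      obtain ⟨lam2, g2, ψ2, hg2, htp2, hdel2, _⟩ := hS (l ++ [x]) hl (by
        rw [List.length_append, List.length_singleton]
        exact hL)
      rw [hbx] at htp2
      obtain ⟨w2, hw2, hwψ2⟩ := tpv_unique hg2 htp2
      intro v
      have := hdel2 v
      rw [hwψ2, norm_mul, hw2, one_mul] at this
      rw [norm_mul, hy1, one_mul]
      exact this
    refine ⟨z * y, by rw [norm_mul, hz, hy1, mul_one], ?_, ?_⟩
    · rw [hbx, List.length_append, List.length_singleton]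
      have e : (fun v => z * y * tpv (b + x) v - tpv a v) =
          fun v => z * (y * tpv (b + x) v - tpv b v) + (z * tpv b v - tpv a v) := by
        funext v
        ring
      rw [e]
      refine (nr_add_le _ _).trans ?_
      rw [nr_smul, hz, one_mul]
      have h6 : nr (fun v => y * tpv (b + x) v - tpv b v) ≤ Real.sqrt η :=
        nr_le_of_sq (Real.sqrt_nonneg _) (by rw [Real.sq_sqrt hη]; exact halg)
      push_cast
      linarith
    · rw [hbx, List.length_append, List.length_singleton]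
      have hmem : b ∈ nbh r a L := by
        rw [hb]
        exact mem_nbh a l hl' L (by omega)
      have hbd := hC.2 b hmem x (mem_moves2 x hx)
      have hd : Tc c (dcoef r η b x) = Tr2 r c (fun v => y * tpv (b + x) v) - Tr2 r c (tpv b) := by
        unfold dcoef Tr2
        rw [Tc_sub, hy]
      have hds : ∑ u, ‖dcoef r η b x u‖ ^ 2 ≤ r ^ 2 * D ^ (r - 1) * η * (D / N) ^ (r - 1) := by
        have h7 := sum_pow_sub_le hr hD ub db dbx halg
        have h8 := sum_pow_le hr ub db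
        unfold dcoef
        rw [← hy]
        refine h7.trans (mul_le_mul_of_nonneg_left h8 (by positivity))
      have hT : ‖Tr2 r c (fun v => y * tpv (b + x) v) - Tr2 r c (tpv b)‖ ≤
          Real.sqrt (8 * q * r ^ 2 * D ^ (r - 1) * η * (D / N) ^ (r - 1)) := by
        rw [← hd]
        refine Real.le_sqrt_of_sq_le (hbd.trans ?_)
        calc 8 * (q : ℝ) * ∑ u, ‖dcoef r η b x u‖ ^ 2
            ≤ 8 * q * (r ^ 2 * D ^ (r - 1) * η * (D / N) ^ (r - 1)) :=
              mul_le_mul_of_nonneg_left hds (by positivity)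
          _ = _ := by ring
      have e : Tr2 r c (fun v => z * y * tpv (b + x) v) - Tr2 r c (tpv a) =
          z ^ r * (Tr2 r c (fun v => y * tpv (b + x) v) - Tr2 r c (tpv b)) +
          (Tr2 r c (fun v => z * tpv b v) - Tr2 r c (tpv a)) := by
        have e1 : (fun v => z * y * tpv (b + x) v) = fun v => z * (y * tpv (b + x) v) := by
          funext v
          ring
        rw [e1, Tr2_smul, Tr2_smul r c z (tpv b)]
        ring
      rw [e]
      refine (norm_add_le _ _).trans ?_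
      rw [norm_mul, norm_pow, hz, one_pow, one_mul]
      push_cast
      linarith

/-- Normalized top eigenvectors before and after a sequence of moves. -/
theorem good_pair {r L q : ℕ} (hr : 0 < r) {D η ε ε' : ℝ} (hD : 0 ≤ D) (hη : 0 ≤ η)
    {a : Cfg2 N m} {c : Fin N → ZMod m} (hS : SGood2 r L D η a) (hC : CGood r L q η a c)
    (hε' : L * Real.sqrt (32 * q * r ^ 2 * D ^ (2 * (r - 1)) * η) ≤ ε') (hε'2 : ε' ≤ 1 / 2)
    (hsum : L * Real.sqrt η + 4 * ε' ≤ ε) (hdel : D / N ≤ ε ^ 2 / 100)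
    (l : List (Cfg2 N m)) (hl : ∀ x ∈ l, IsMove2 r x) (hL : l.length ≤ L) :
    ∃ (ψa ψb : Fin N → ℂ) (la lb g : ℝ), 0 < g ∧ TopPair2 (Smat2 a) la g ψa ∧
      TopPair2 (Smat2 (a + l.sum)) lb g ψb ∧ PosT r c ψa ∧ PosT r c ψb ∧
      ∑ v, ‖ψa v - ψb v‖ ^ 2 ≤ ε ^ 2 ∧ ∀ v, ‖ψb v‖ ^ 2 ≤ ε ^ 2 / 100 := by
  obtain ⟨z, hz, hz1, hz2⟩ := chain2 hr hD hη hS hC l hl hL
  obtain ⟨b, hb⟩ : ∃ b, b = a + l.sum := ⟨_, rfl⟩
  rw [← hb] at hz1 hz2 ⊢
  -- top pairs
  obtain ⟨lam, g, ψ, hg, htp, hdelb, _⟩ := hS l hl hL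
  rw [← hb] at htp
  obtain ⟨lb, gb, hgb, hTb⟩ := tpv_spec hg htp
  obtain ⟨w, hw, hwψ⟩ := tpv_unique hg htp
  obtain ⟨lam0, g0, ψ0, hg0, htp0, _, _⟩ := hS [] (by simp) (Nat.zero_le _)
  rw [List.sum_nil, add_zero] at htp0
  obtain ⟨la, ga, hga, hTa⟩ := tpv_spec hg0 htp0
  have hN : 0 < N := by
    rcases Nat.eq_zero_or_pos N with h0 | h0
    · subst h0
      have := hTa.1
      simp at this
    · exact h0
  have hN' : (0 : ℝ) < N := by exact_mod_cast hN
  -- T_c at a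
  obtain ⟨A, hA⟩ : ∃ A, A = Tr2 r c (tpv a) := ⟨_, rfl⟩
  obtain ⟨B, hB⟩ : ∃ B, B = Tr2 r c (fun v => z * tpv b v) := ⟨_, rfl⟩
  rw [← hA, ← hB] at hz2
  have hA2 : 1 ≤ 4 * (N : ℝ) ^ (r - 1) * ‖A‖ ^ 2 := by
    have h1 := one_le_sum_pow hr hTa.1
    have h2 := hC.1
    rw [← hA] at h2
    calc (1 : ℝ) ≤ (N : ℝ) ^ (r - 1) * ∑ u, ‖tpv a u ^ r‖ ^ 2 := h1
      _ ≤ (N : ℝ) ^ (r - 1) * (4 * ‖A‖ ^ 2) := mul_le_mul_of_nonneg_left h2 (by positivity)
      _ = _ := by ring
  have hA0 : A ≠ 0 := by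
    rintro rfl
    rw [norm_zero] at hA2
    norm_num at hA2
  have hAn : 0 < ‖A‖ := norm_pos_iff.2 hA0
  have hBA : ‖B - A‖ ≤ ε' * ‖A‖ := by
    refine hz2.trans ?_
    have h3 : Real.sqrt (8 * q * r ^ 2 * D ^ (r - 1) * η * (D / N) ^ (r - 1)) ≤
        Real.sqrt (32 * q * r ^ 2 * D ^ (2 * (r - 1)) * η) * ‖A‖ := by
      refine Real.sqrt_le_iff.2 ⟨by positivity, ?_⟩
      rw [mul_pow, Real.sq_sqrt (by positivity)]
      calc 8 * (q : ℝ) * r ^ 2 * D ^ (r - 1) * η * (D / N) ^ (r - 1)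
          = 8 * q * r ^ 2 * D ^ (2 * (r - 1)) * η * (1 / (N : ℝ) ^ (r - 1)) := by
            rw [div_pow, two_mul, pow_add]
            ring
        _ ≤ 8 * q * r ^ 2 * D ^ (2 * (r - 1)) * η * (4 * ‖A‖ ^ 2) := by
            refine mul_le_mul_of_nonneg_left ?_ (by positivity)
            rw [div_le_iff₀ (by positivity)]
            linarith
        _ = _ := by ring
    calc (l.length : ℝ) * Real.sqrt (8 * q * r ^ 2 * D ^ (r - 1) * η * (D / N) ^ (r - 1))
        ≤ L * (Real.sqrt (32 * q * r ^ 2 * D ^ (2 * (r - 1)) * η) * ‖A‖) := by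
          refine mul_le_mul (by exact_mod_cast hL) h3 (Real.sqrt_nonneg _) (Nat.cast_nonneg _)
      _ = L * Real.sqrt (32 * q * r ^ 2 * D ^ (2 * (r - 1)) * η) * ‖A‖ := by ring
      _ ≤ ε' * ‖A‖ := mul_le_mul_of_nonneg_right hε' hAn.le
  -- scalars
  obtain ⟨z0, hz0, hz0A⟩ := exists_root hr A
  have hw1 : ‖B / A - 1‖ ≤ ε' := by
    have e : B / A - 1 = (B - A) / A := by field_simp
    rw [e, norm_div, div_le_iff₀ hAn]
    exact hBA
  obtain ⟨z1, hz1', hz1B, hz1n⟩ := exists_root_near hr hw1 hε'2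
  have hB0 : B ≠ 0 := by
    rintro rfl
    rw [zero_div, zero_sub, norm_neg, norm_one] at hw1
    linarith
  have hε'0 : 0 ≤ ε' := (norm_nonneg _).trans hw1
  refine ⟨fun v => z0 * tpv a v, fun v => z0 * z1 * z * tpv b v, la, lb, min ga gb,
    lt_min hga hgb, (hTa.smul hz0).mono (min_le_left _ _), ?_, ?_, ?_, ?_, ?_⟩
  · exact (hTb.smul (by rw [norm_mul, norm_mul, hz0, hz1', hz, mul_one, mul_one])).mono
      (min_le_right _ _)
  · exact ⟨‖A‖, hAn, by rw [Tr2_smul, ← hA, hz0A]⟩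
  · refine ⟨‖B‖, norm_pos_iff.2 hB0, ?_⟩
    have e1 : (fun v => z0 * z1 * z * tpv b v) = fun v => z0 * z1 * (z * tpv b v) := by
      funext v
      ring
    rw [e1, Tr2_smul, ← hB, mul_pow]
    have e2 : z0 ^ r * z1 ^ r * B = (z0 ^ r * A) * (z1 ^ r * (B / A)) := by
      field_simp
    rw [e2, hz0A, hz1B, norm_div]
    push_cast
    have : (‖A‖ : ℂ) ≠ 0 := by exact_mod_cast hAn.ne'
    field_simp
  · refine sq_le_of_nr ?_
    have e : (fun v => z0 * tpv a v - z0 * z1 * z * tpv b v) =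
        fun v => (-z0 * z1) * (z * tpv b v - tpv a v) + (z0 * (1 - z1)) * tpv a v := by
      funext v
      ring
    rw [e]
    refine (nr_add_le _ _).trans ?_
    rw [nr_smul, nr_smul, norm_mul, norm_neg, hz0, hz1', norm_mul, hz0, one_mul, one_mul, one_mul]
    have h4 : nr (tpv a) = 1 := by
      have := nr_sq (tpv a)
      rw [hTa.1] at this
      exact (pow_eq_one_iff_of_nonneg (nr_nonneg _) two_ne_zero).1 this
    rw [h4, mul_one]
    have h5 : (l.length : ℝ) * Real.sqrt η ≤ L * Real.sqrt η :=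
      mul_le_mul_of_nonneg_right (by exact_mod_cast hL) (Real.sqrt_nonneg _)
    linarith
  · intro v
    have h6 := hdelb v
    rw [hwψ, norm_mul, hw, one_mul] at h6
    show ‖z0 * z1 * z * tpv b v‖ ^ 2 ≤ ε ^ 2 / 100
    rw [norm_mul, norm_mul, norm_mul, hz0, hz1', hz, one_mul, one_mul, one_mul]
    exact h6.trans hdel

open Classical in
/-- **Existence of good spectator phases.** -/
theorem exists_spectator (hm : Even m) {r L q : ℕ} (hr : 0 < r) (hq : 0 < q) {D η ε ε' : ℝ}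
    (hD : 0 ≤ D) (hη : 0 ≤ η)
    (hnum : 128 * (((2 * N * N + N) * r + 1 : ℕ) : ℝ) ^ (L + 1) * (1 / 2) ^ q ≤ 1)
    (hε' : L * Real.sqrt (32 * q * r ^ 2 * D ^ (2 * (r - 1)) * η) ≤ ε') (hε'2 : ε' ≤ 1 / 2)
    (hsum : L * Real.sqrt η + 4 * ε' ≤ ε) (hdel : D / N ≤ ε ^ 2 / 100)
    (Gam0 : Finset (Cfg2 N m)) (hS : ∀ a ∈ Gam0, SGood2 r L D η a) :
    ∃ (c : Fin N → ZMod m) (Gam : Finset (Cfg2 N m)), Gam ⊆ Gam0 ∧
      (Gam0.card : ℝ) ≤ 64 * Gam.card ∧ GoodSet2 r L c ε Gam := by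
  have hM : (0 : ℝ) < (m : ℝ) ^ N := by
    have : (0 : ℝ) < m := by exact_mod_cast Nat.pos_of_ne_zero (NeZero.ne m)
    positivity
  have h1 : ∑ c : Fin N → ZMod m, ((Gam0.filter fun a => CGood r L q η a c).card : ℝ) =
      ∑ a ∈ Gam0, ((univ.filter fun c : Fin N → ZMod m => CGood r L q η a c).card : ℝ) := by
    have e1 : ∀ c : Fin N → ZMod m, ((Gam0.filter fun a => CGood r L q η a c).card : ℝ) =
        ∑ a ∈ Gam0, if CGood r L q η a c then (1 : ℝ) else 0 := fun c => by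
      rw [card_filter]
      push_cast
      rfl
    have e2 : ∀ a, ((univ.filter fun c : Fin N → ZMod m => CGood r L q η a c).card : ℝ) =
        ∑ c : Fin N → ZMod m, if CGood r L q η a c then (1 : ℝ) else 0 := fun a => by
      rw [card_filter]
      push_cast
      rfl
    rw [sum_congr rfl fun c _ => e1 c, sum_congr rfl fun a _ => e2 a, sum_comm]
  have h2 : ∃ c : Fin N → ZMod m, (Gam0.card : ℝ) ≤
      64 * ((Gam0.filter fun a => CGood r L q η a c).card : ℝ) := by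
    by_contra hcon
    push Not at hcon
    have h3 : ∑ c : Fin N → ZMod m, 64 * ((Gam0.filter fun a => CGood r L q η a c).card : ℝ) <
        ∑ _c : Fin N → ZMod m, (Gam0.card : ℝ) :=
      sum_lt_sum_of_nonempty univ_nonempty fun c _ => hcon c
    rw [← mul_sum, h1, sum_const, card_univ, Fintype.card_fun, ZMod.card, Fintype.card_fin,
      nsmul_eq_mul] at h3
    have h4 : ∑ _a ∈ Gam0, (m : ℝ) ^ N ≤ ∑ a ∈ Gam0,
        64 * ((univ.filter fun c : Fin N → ZMod m => CGood r L q η a c).card : ℝ) :=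
      sum_le_sum fun a _ => card_cgood hm hq η a hnum
    rw [← mul_sum, sum_const, nsmul_eq_mul] at h4
    push_cast at h3
    linarith
  obtain ⟨c, hc⟩ := h2
  refine ⟨c, Gam0.filter fun a => CGood r L q η a c, filter_subset _ _, hc, ?_⟩
  intro a ha l hl hL
  obtain ⟨ha1, ha2⟩ := mem_filter.1 ha
  exact good_pair hr hD hη (hS a ha1) ha2 hε' hε'2 hsum hdel l hl hL

end Pool.Agent.MP_9cec2c_lc.Flat
end

section

/-!
# FN1: rank one algebra (resolvent of a minor from the full resolvent), Hermitian case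
`G` is Hermitian with `(θ - S) G = 1` and `G_vv ≠ 0` (a real number); `x = row S v`;
`M = Mv G v = G - (G e_v)(G e_v)^* / G_vv`.
-/

set_option autoImplicit false
set_option linter.unusedSectionVars false
set_option linter.unusedDecidableInType false

open Matrix Finset

namespace Pool.Agent.MP_9cec2c_lc.Flat.Herm

variable {V : Type} [Fintype V] [DecidableEq V]

/-- `M e_v = 0` (and `M` is Hermitian). -/
theorem Mv_col {G : Matrix V V ℂ} {v : V} (hv : G v v ≠ 0) (i : V) : Mv G v i v = 0 := by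
  unfold Mv
  field_simp
  ring

theorem Mv_row {G : Matrix V V ℂ} {v : V} (hv : G v v ≠ 0) (j : V) : Mv G v v j = 0 := by
  unfold Mv
  field_simp
  ring

theorem Mv_sym {G : Matrix V V ℂ} (hG : Sym G) (v : V) : Sym (Mv G v) := by
  ext i j
  rw [conjTranspose_apply]
  unfold Mv
  rw [star_sub, star_div₀, star_mul', hG.apply i j, hG.apply v j, hG.apply i v, hG.apply v v,
    mul_comm (G v j)]

/-- `(θ - S) M = 1 - e_v (G e_v)^* / G_vv`. -/
theorem shift_mul_Mv {A G : Matrix V V ℂ} (hinv : A * G = 1) (v i j : V) :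
    (A * Mv G v) i j = (1 : Matrix V V ℂ) i j - (1 : Matrix V V ℂ) i v * (G v j / G v v) := by
  rw [← hinv]
  simp only [Matrix.mul_apply, Mv]
  rw [sum_mul, ← sum_sub_distrib]
  refine sum_congr rfl fun k _ => ?_
  ring

theorem shift_apply (S : Matrix V V ℂ) (θ : ℝ) (i j : V) :
    shift S θ i j = (θ : ℂ) * (1 : Matrix V V ℂ) i j - S i j := by
  unfold shift
  rw [Matrix.sub_apply, Matrix.smul_apply, smul_eq_mul]

/-- The entries of the rank one matrix `e_v e_v^*`. -/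
theorem rk1_single (v i j : V) :
    rk1 (Pi.single v (1 : ℂ) : V → ℂ) i j = (1 : Matrix V V ℂ) i v * (1 : Matrix V V ℂ) v j := by
  unfold rk1
  by_cases hi : i = v
  · subst hi
    by_cases hj : i = j
    · subst hj
      rw [Pi.single_eq_same, star_one, Matrix.one_apply_eq]
    · rw [Pi.single_eq_of_ne (Ne.symm hj), star_zero, Matrix.one_apply_ne hj, mul_zero, mul_zero]
  · rw [Pi.single_eq_of_ne hi, Matrix.one_apply_ne hi, zero_mul, zero_mul]

/-- The resolvent of the minor: `(θ - minor S v)⁻¹ = M + θ⁻¹ e_v e_v^*`.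
Proof. `(θ - S) M = 1 - e_v (G e_v)^* / G_vv`. Row `i ≠ v` of `θ - minor S v` is row `i` of `θ - S` except in
column `v`, where `M` has row 0; so `(θ - minor S v) M = 1 - e_v e_v^*`, and
`(θ - minor S v) e_v = θ e_v`. -/
theorem rsv_minor {S : Matrix V V ℂ} (hS : IsSign S) {θ : ℝ} (hθ : θ ≠ 0) {G : Matrix V V ℂ}
    (hG : Sym G) (hinv : shift S θ * G = 1) {v : V} (hv : G v v ≠ 0) :
    rsv (minor S v) θ = Mv G v + ((θ⁻¹ : ℝ) : ℂ) • rk1 (Pi.single v 1) := by
  have hθ' : (θ : ℂ) ≠ 0 := by exact_mod_cast hθ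
  unfold rsv
  apply Matrix.inv_eq_right_inv
  ext i j
  rw [Matrix.mul_apply]
  by_cases hi : i = v
  · subst hi
    have h1 : ∀ k, shift (minor S i) θ i k = if k = i then (θ : ℂ) else 0 := fun k => by
      rw [shift_apply]
      unfold minor
      rw [if_pos (Or.inl rfl), sub_zero]
      by_cases hk : k = i
      · subst hk
        rw [if_pos rfl, Matrix.one_apply_eq, mul_one]
      · rw [if_neg hk, Matrix.one_apply_ne (Ne.symm hk), mul_zero]
    simp only [h1, ite_mul, zero_mul]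
    rw [sum_ite_eq' univ i, if_pos (mem_univ _)]
    rw [Matrix.add_apply, Matrix.smul_apply, rk1_single, smul_eq_mul, Mv_row hv,
      Matrix.one_apply_eq, zero_add, one_mul, Complex.ofReal_inv, mul_inv_cancel_left₀ hθ']
  · have h1 := shift_mul_Mv hinv v i j
    rw [Matrix.mul_apply] at h1
    have h2 : (1 : Matrix V V ℂ) i v = 0 := Matrix.one_apply_ne hi
    rw [h2, zero_mul, sub_zero] at h1
    rw [← h1]
    refine sum_congr rfl fun k _ => ?_
    by_cases hk : k = v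
    · subst hk
      have h3 : shift (minor S k) θ i k = 0 := by
        rw [shift_apply, Matrix.one_apply_ne hi]
        unfold minor
        rw [if_pos (Or.inr rfl), mul_zero, sub_zero]
      rw [h3, zero_mul, Mv_row hv, mul_zero]
    · have h3 : shift (minor S v) θ i k = shift S θ i k := by
        rw [shift_apply, shift_apply]
        unfold minor
        rw [if_neg (not_or.2 ⟨hi, hk⟩)]
      rw [h3, Matrix.add_apply, Matrix.smul_apply, rk1_single, Matrix.one_apply_ne hk, zero_mul,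
        smul_zero, add_zero]

theorem row_self {S : Matrix V V ℂ} (hS : IsSign S) (v : V) : row S v v = 0 := hS.diag v

theorem inv_comm {A G : Matrix V V ℂ} (h : A * G = 1) : G * A = 1 := mul_eq_one_comm.1 h

/-- `G x = θ G e_v - e_v`. -/
theorem mulVec_row {S : Matrix V V ℂ} {θ : ℝ} {G : Matrix V V ℂ}
    (hinv : shift S θ * G = 1) (v i : V) :
    ∑ j, G i j * S j v = θ * G i v - (1 : Matrix V V ℂ) i v := by
  have h1 := inv_comm hinv
  have h2 : (G * shift S θ) i v = (1 : Matrix V V ℂ) i v := by rw [h1]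
  rw [Matrix.mul_apply] at h2
  have h3 : ∑ j, G i j * shift S θ j v = θ * G i v - ∑ j, G i j * S j v := by
    have : ∀ j, G i j * shift S θ j v =
        (if j = v then (θ : ℂ) * G i v else 0) - G i j * S j v := fun j => by
      unfold shift
      simp only [Matrix.sub_apply, Matrix.smul_apply, smul_eq_mul, Matrix.one_apply]
      by_cases h : j = v
      · subst h; simp; ring
      · simp [h]
    rw [sum_congr rfl fun j _ => this j, sum_sub_distrib, sum_ite_eq' univ v, if_pos (mem_univ _)]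
  rw [h3] at h2
  rw [← h2]
  ring

/-- `x^* M x = θ - 1 / G_vv`.
Proof. `(θ - S) e_v = θ e_v - x`, so `G x = θ G e_v - e_v`, `x^* G x = θ x^* G e_v = θ (G x)_v^* = θ (θ G_vv - 1)`
(`x_v = 0`), and `|(G x)_v|^2 / G_vv = (θ G_vv - 1)^2 / G_vv`. -/
theorem qf_Mv_row {S : Matrix V V ℂ} (hS : IsSign S) {θ : ℝ} {G : Matrix V V ℂ}
    (hG : Sym G) (hinv : shift S θ * G = 1) {v : V} (hv : G v v ≠ 0) :
    qf (Mv G v) (row S v) = θ - 1 / (G v v).re := by
  have hx : ∀ i, ∑ j, G i j * S j v = θ * G i v - (1 : Matrix V V ℂ) i v :=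
    mulVec_row hinv v
  have hvv : ∑ j, G v j * S j v = θ * G v v - 1 := by
    rw [hx, Matrix.one_apply_eq]
  have h1 : ∀ i, ∑ j, Mv G v i j * S j v =
      (θ * G i v - (1 : Matrix V V ℂ) i v) - G i v / G v v * (θ * G v v - 1) := fun i => by
    rw [← hvv, ← hx i, mul_sum, ← sum_sub_distrib]
    refine sum_congr rfl fun j _ => ?_
    unfold Mv
    ring
  have h2 : qf (Mv G v) (row S v) = (∑ i, star (S i v) * ∑ j, Mv G v i j * S j v).re := rfl
  have h3 : ∀ i, star (S i v) * ∑ j, Mv G v i j * S j v =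
      star (G v i * S i v) * (1 / G v v) := fun i => by
    rw [h1 i, star_mul', hG.apply i v]
    by_cases hi : i = v
    · subst hi
      rw [hS.diag, star_zero, zero_mul, mul_zero, zero_mul]
    · rw [Matrix.one_apply_ne hi]
      field_simp
      ring
  have h4 : star (∑ i, G v i * S i v) = θ * G v v - 1 := by
    rw [hvv, star_sub, star_mul', star_one, hG.apply v v, Complex.star_def, Complex.conj_ofReal]
  rw [h2, sum_congr rfl fun i _ => h3 i, ← sum_mul, ← star_sum, h4]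
  have h5 := diag_eq hG v
  have h6 : (θ * G v v - 1) * (1 / G v v) = ((θ - 1 / (G v v).re : ℝ) : ℂ) := by
    have h7 : ((G v v).re : ℂ) ≠ 0 := by rw [← h5]; exact hv
    rw [h5]
    push_cast
    rw [Complex.ofReal_re]
    field_simp
  rw [h6, Complex.ofReal_re]

/-- `tr M = tr G - |G e_v|^2 / G_vv`. -/
theorem trace_Mv {G : Matrix V V ℂ} (hG : Sym G) (v : V) :
    (Mv G v).trace.re = G.trace.re - colsq G v / (G v v).re := by
  unfold Matrix.trace colsq
  rw [Complex.re_sum, Complex.re_sum, sum_div, ← sum_sub_distrib]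
  refine sum_congr rfl fun i _ => ?_
  simp only [Matrix.diag_apply, Mv]
  rw [← hG.apply v i, diag_eq hG v, mul_comm, star_mul_self, Complex.sub_re,
    ← Complex.ofReal_div, Complex.ofReal_re, Complex.ofReal_re]

theorem hs2_nonneg (A : Matrix V V ℂ) : 0 ≤ hs2 A := by
  unfold hs2
  positivity

theorem colsq_nonneg (A : Matrix V V ℂ) (v : V) : 0 ≤ colsq A v := by
  unfold colsq
  positivity

/-- triangle inequality for the Hilbert-Schmidt norm -/
theorem hs_add_le (A B : Matrix V V ℂ) : √(hs2 (A + B)) ≤ √(hs2 A) + √(hs2 B) := by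
  have h1 : ∀ C : Matrix V V ℂ, hs2 C = ∑ p : V × V, ‖C p.1 p.2‖ ^ 2 := fun C => by
    unfold hs2
    rw [Fintype.sum_prod_type]
  have hA : 0 ≤ hs2 A := hs2_nonneg A
  have hB : 0 ≤ hs2 B := hs2_nonneg B
  rw [Real.sqrt_le_left (by positivity)]
  rw [add_sq, Real.sq_sqrt hA, Real.sq_sqrt hB]
  have h2 := Real.sum_mul_le_sqrt_mul_sqrt (univ : Finset (V × V)) (fun p => ‖A p.1 p.2‖)
    (fun p => ‖B p.1 p.2‖)
  rw [← h1 A, ← h1 B] at h2
  have h3 : hs2 (A + B) ≤ hs2 A + 2 * ∑ p : V × V, ‖A p.1 p.2‖ * ‖B p.1 p.2‖ + hs2 B := by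
    rw [h1, h1, h1, mul_sum, ← sum_add_distrib, ← sum_add_distrib]
    refine sum_le_sum fun p _ => ?_
    rw [Matrix.add_apply]
    have h4 := norm_add_le (A p.1 p.2) (B p.1 p.2)
    have h5 := norm_nonneg (A p.1 p.2 + B p.1 p.2)
    nlinarith
  linarith

/-- the rank one matrix `a b^t` -/
def out2 (a b : V → ℂ) : Matrix V V ℂ := fun i j => a i * b j

theorem hs_prod (a b : V → ℂ) : hs2 (out2 a b) = (∑ i, ‖a i‖ ^ 2) * ∑ j, ‖b j‖ ^ 2 := by
  unfold hs2 out2
  rw [sum_mul_sum]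
  exact sum_congr rfl fun i _ => sum_congr rfl fun j _ => by rw [norm_mul]; ring

theorem norm_diag {G : Matrix V V ℂ} (hG : Sym G) (v : V) : ‖G v v‖ = |(G v v).re| := by
  conv_lhs => rw [diag_eq hG v]
  rw [Complex.norm_real, Real.norm_eq_abs]

/-- `hs2 (rsv (minor S v) θ)` is at most `(sqrt (hs2 G) + colsq G v / |G_vv| + 1 / θ)^2` (`0 < θ`):
triangle inequality for the Hilbert-Schmidt norm. -/
theorem hs_minor {S : Matrix V V ℂ} (hS : IsSign S) {θ : ℝ} (hθ : 0 < θ) {G : Matrix V V ℂ}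
    (hG : Sym G) (hinv : shift S θ * G = 1) {v : V} (hv : G v v ≠ 0) :
    hs2 (rsv (minor S v) θ) ≤ (√(hs2 G) + colsq G v / |(G v v).re| + 1 / θ) ^ 2 := by
  rw [rsv_minor hS hθ.ne' hG hinv hv]
  have h0 : 0 ≤ hs2 (Mv G v + ((θ⁻¹ : ℝ) : ℂ) • rk1 (Pi.single v 1)) := hs2_nonneg _
  have hc0 : 0 ≤ colsq G v := colsq_nonneg G v
  rw [← Real.sq_sqrt h0]
  refine pow_le_pow_left₀ (Real.sqrt_nonneg _) ?_ 2
  have hM : Mv G v = G + out2 (fun i => -(G i v / G v v)) (fun j => G v j) := by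
    ext i j
    simp only [Mv, Matrix.add_apply, out2]
    ring
  have h1 : √(hs2 (out2 (fun i => -(G i v / G v v)) (fun j => G v j))) =
      colsq G v / |(G v v).re| := by
    rw [hs_prod]
    have e1 : ∑ i, ‖-(G i v / G v v)‖ ^ 2 = colsq G v / |(G v v).re| ^ 2 := by
      unfold colsq
      rw [sum_div]
      exact sum_congr rfl fun i _ => by rw [norm_neg, norm_div, norm_diag hG, div_pow]
    have e2 : ∑ j, ‖G v j‖ ^ 2 = colsq G v := by
      unfold colsq
      exact sum_congr rfl fun j _ => by rw [← hG.apply v j, norm_star]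
    rw [e1, e2]
    have e3 : colsq G v / |(G v v).re| ^ 2 * colsq G v = (colsq G v / |(G v v).re|) ^ 2 := by
      rw [div_pow]
      ring
    rw [e3, Real.sqrt_sq (by positivity)]
  have h2 : √(hs2 (((θ⁻¹ : ℝ) : ℂ) • rk1 (Pi.single v 1) : Matrix V V ℂ)) = 1 / θ := by
    have e0 : hs2 (((θ⁻¹ : ℝ) : ℂ) • rk1 (Pi.single v 1) : Matrix V V ℂ) = θ⁻¹ ^ 2 := by
      unfold hs2
      rw [sum_eq_single v, sum_eq_single v]
      · rw [Matrix.smul_apply, rk1_single, Matrix.one_apply_eq, smul_eq_mul, mul_one, mul_one,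
          Complex.norm_real, Real.norm_eq_abs, sq_abs]
      · intro j _ hj
        rw [Matrix.smul_apply, rk1_single, Matrix.one_apply_ne (Ne.symm hj), mul_zero, smul_zero,
          norm_zero]
        norm_num
      · intro h; exact absurd (mem_univ _) h
      · intro i _ hi
        refine sum_eq_zero fun j _ => ?_
        rw [Matrix.smul_apply, rk1_single, Matrix.one_apply_ne hi, zero_mul, smul_zero, norm_zero]
        norm_num
      · intro h; exact absurd (mem_univ _) h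
    rw [e0, Real.sqrt_sq (by positivity), one_div]
  calc √(hs2 (Mv G v + ((θ⁻¹ : ℝ) : ℂ) • rk1 (Pi.single v 1)))
      ≤ √(hs2 (Mv G v)) + √(hs2 (((θ⁻¹ : ℝ) : ℂ) • rk1 (Pi.single v 1))) := hs_add_le _ _
    _ ≤ (√(hs2 G) + √(hs2 (out2 (fun i => -(G i v / G v v)) (fun j => G v j)))) + 1 / θ := by
        rw [h2]
        have := hs_add_le G (out2 (fun i => -(G i v / G v v)) (fun j => G v j))
        rw [← hM] at this
        linarith
    _ = √(hs2 G) + colsq G v / |(G v v).re| + 1 / θ := by rw [h1]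

/-- A positive diagonal entry. -/
theorem ne_of_re_pos {z : ℂ} (h : 0 < z.re) : z ≠ 0 := by
  intro h0
  rw [h0, Complex.zero_re] at h
  exact lt_irrefl 0 h

/-- Event (O2) for any sign matrix with the same minor. -/
theorem conc_Mv {S S' : Matrix V V ℂ} (hS : IsSign S) (hS' : IsSign S') {v : V}
    (hm : minor S' v = minor S v) {θ : ℝ} (hθ : 0 < θ) {G : Matrix V V ℂ}
    (hG : Sym G) (hinv : shift S θ * G = 1) (hv : 0 < (G v v).re) {K : ℝ} (hK : 0 ≤ K)
    (hc : Conc S' K v θ) :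
    |qf (Mv G v) (row S' v) - (G.trace.re - colsq G v / (G v v).re)| ≤
      K * (√(hs2 G) + colsq G v / (G v v).re + 1 / θ) := by
  have hv0 := ne_of_re_pos hv
  have hhs := hs_minor hS hθ hG hinv hv0
  unfold Conc at hc
  rw [hm] at hc
  have hrk : ∀ i, ((((θ⁻¹ : ℝ) : ℂ) • rk1 (Pi.single v 1) : Matrix V V ℂ) *ᵥ row S' v) i = 0 := by
    intro i
    simp only [Matrix.mulVec, dotProduct, Matrix.smul_apply, rk1_single, smul_eq_mul]
    refine sum_eq_zero fun j _ => ?_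
    by_cases hj : v = j
    · subst hj
      rw [row_self hS', mul_zero]
    · rw [Matrix.one_apply_ne hj, mul_zero, mul_zero, zero_mul]
  have h1 : qf (rsv (minor S v) θ) (row S' v) = qf (Mv G v) (row S' v) := by
    rw [rsv_minor hS hθ.ne' hG hinv hv0]
    unfold qf
    rw [Matrix.add_mulVec, dotProduct_add]
    have : star (row S' v) ⬝ᵥ
        ((((θ⁻¹ : ℝ) : ℂ) • rk1 (Pi.single v 1) : Matrix V V ℂ) *ᵥ row S' v) = 0 := by
      unfold dotProduct
      exact sum_eq_zero fun i _ => by rw [hrk i, mul_zero]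
    rw [this, add_zero]
  have h2 : (rsv (minor S v) θ).trace.re - (rsv (minor S v) θ v v).re =
      G.trace.re - colsq G v / (G v v).re := by
    rw [rsv_minor hS hθ.ne' hG hinv hv0, ← trace_Mv hG v, Matrix.trace_add, Complex.add_re]
    have e1 : (((θ⁻¹ : ℝ) : ℂ) • rk1 (Pi.single v 1) : Matrix V V ℂ).trace = ((θ⁻¹ : ℝ) : ℂ) := by
      unfold Matrix.trace
      simp only [Matrix.diag_apply, Matrix.smul_apply, rk1_single, smul_eq_mul]
      rw [sum_eq_single v]
      · rw [Matrix.one_apply_eq, mul_one, mul_one]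
      · intro b _ hb
        rw [Matrix.one_apply_ne hb, zero_mul, mul_zero]
      · intro h; exact absurd (mem_univ _) h
    rw [e1, Matrix.add_apply, Matrix.smul_apply, rk1_single, Matrix.one_apply_eq, Mv_row hv0,
      smul_eq_mul, mul_one, mul_one, zero_add, Complex.ofReal_re]
    ring
  rw [h1, h2] at hc
  set X : ℝ := √(hs2 G) + colsq G v / (G v v).re + 1 / θ with hX
  rw [abs_of_pos hv, ← hX] at hhs
  have hc0 : 0 ≤ colsq G v := colsq_nonneg G v
  have hX0 : 0 ≤ X := by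
    rw [hX]
    positivity
  apply abs_le_of_sq_le_sq _ (mul_nonneg hK hX0)
  refine hc.trans ?_
  rw [mul_pow]
  exact mul_le_mul_of_nonneg_left hhs (sq_nonneg K)

/-- The inequality (*): event (O2) in terms of the full resolvent, `G_vv > 0`. -/
theorem star' {S : Matrix V V ℂ} (hS : IsSign S) {θ : ℝ} (hθ : 0 < θ) {G : Matrix V V ℂ}
    (hG : Sym G) (hinv : shift S θ * G = 1) {v : V} (hv : 0 < (G v v).re) {K : ℝ} (hK : 0 ≤ K)
    (hc : Conc S K v θ) :
    |1 / (G v v).re - (θ - G.trace.re)| ≤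
      K * √(hs2 G) + (K + 1) * (colsq G v / (G v v).re) + K / θ := by
  have h := conc_Mv hS hS rfl hθ hG hinv hv hK hc
  rw [qf_Mv_row hS hG hinv (ne_of_re_pos hv)] at h
  have hc0 : 0 ≤ colsq G v / (G v v).re := div_nonneg (colsq_nonneg G v) hv.le
  have h1 := abs_le.1 h
  have h2 : K / θ = K * (1 / θ) := by ring
  rw [h2, abs_le]
  constructor <;> nlinarith [h1.1, h1.2]

/-- The same for a matrix `S'` with the same minor: `T' = x'^* M x' ≤ tr G + error`. -/
theorem star'' {S S' : Matrix V V ℂ} (hS : IsSign S) (hS' : IsSign S') {v : V}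
    (hm : minor S' v = minor S v) {θ : ℝ} (hθ : 0 < θ) {G : Matrix V V ℂ}
    (hG : Sym G) (hinv : shift S θ * G = 1) (hv : 0 < (G v v).re) {K : ℝ} (hK : 0 ≤ K)
    (hc : Conc S' K v θ) :
    qf (Mv G v) (row S' v) ≤
      G.trace.re + (K * √(hs2 G) + (K + 1) * (colsq G v / (G v v).re) + K / θ) := by
  have h := conc_Mv hS hS' hm hθ hG hinv hv hK hc
  have hc0 : 0 ≤ colsq G v / (G v v).re := div_nonneg (colsq_nonneg G v) hv.le
  have h1 := abs_le.1 h
  have h2 : K / θ = K * (1 / θ) := by ring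
  rw [h2]
  nlinarith [h1.1, h1.2]

/-- COMPLETING THE SQUARE. `S'` has the same minor as `S` at `v`, `x' = row S' v`, `T' = x'^* M x'`. For every
`z`, with `c = z_v` and `w = z - c e_v - c M x'`: `w_v = 0` and
`z^* (θ - S') z = (θ - T') |c|^2 + w^* (θ - S) w`. -/
theorem complete_square {S S' : Matrix V V ℂ} (hS : IsSign S) (hS' : IsSign S') {v : V}
    (hm : minor S' v = minor S v) {θ : ℝ} {G : Matrix V V ℂ}
    (hG : Sym G) (hinv : shift S θ * G = 1) (hv : G v v ≠ 0) (z : V → ℂ) :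
    qf (shift S' θ) z = (θ - qf (Mv G v) (row S' v)) * ‖z v‖ ^ 2 +
      qf (shift S θ) (z - z v • Pi.single v 1 - z v • (Mv G v *ᵥ row S' v)) := by
  set e : V → ℂ := Pi.single v 1 with he
  set x : V → ℂ := row S' v with hx
  set c : ℂ := z v with hc
  set M : Matrix V V ℂ := Mv G v with hM
  set z0 : V → ℂ := z - c • e with hz0
  have hz0v : z0 v = 0 := by
    rw [hz0, he]
    simp [hc]
  have hz0v' : (star z0) v = 0 := by
    rw [Pi.star_apply, hz0v, star_zero]
  have hxv : x v = 0 := row_self hS' v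
  have huv : (M *ᵥ x) v = 0 := by
    simp only [Matrix.mulVec, dotProduct]
    exact sum_eq_zero fun j _ => by rw [hM, Mv_row hv, zero_mul]
  have hAS : Sym (shift S θ) := sym_shift hS.symm θ
  have hAS' : Sym (shift S' θ) := sym_shift hS'.symm θ
  have hMs : Sym M := Mv_sym hG v
  -- same minor
  have hF2 : qf (shift S' θ) z0 = qf (shift S θ) z0 := by
    unfold qf
    congr 1
    simp only [Matrix.mulVec, dotProduct, mul_sum]
    refine sum_congr rfl fun i _ => sum_congr rfl fun j _ => ?_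
    by_cases hi : i = v
    · subst hi; rw [hz0v']; ring
    · by_cases hj : j = v
      · subst hj; rw [hz0v]; ring
      · have h1 : S' i j = S i j := by
          have := congrFun (congrFun hm i) j
          unfold minor at this
          simpa [hi, hj] using this
        unfold shift
        simp only [Matrix.sub_apply, h1]
  -- `A (M x) = x - _ e`
  have hF1 : ∀ i, i ≠ v → (shift S θ *ᵥ (M *ᵥ x)) i = x i := fun i hi => by
    rw [Matrix.mulVec_mulVec]
    simp only [Matrix.mulVec, dotProduct]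
    rw [← Finset.sum_congr rfl (g := fun j => (shift S θ * M) i j * x j) (fun j _ => rfl)]
    have h1 : ∀ j, (shift S θ * M) i j * x j = (1 : Matrix V V ℂ) i j * x j := fun j => by
      rw [hM, shift_mul_Mv hinv, Matrix.one_apply_ne hi]
      ring
    rw [sum_congr rfl fun j _ => h1 j, sum_eq_single i]
    · rw [Matrix.one_apply_eq, one_mul]
    · intro b _ hb
      rw [Matrix.one_apply_ne hb.symm, zero_mul]
    · intro h; exact absurd (mem_univ _) h
  have hF3 : ∀ y : V → ℂ, y v = 0 →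
      star y ⬝ᵥ (shift S θ *ᵥ (M *ᵥ x)) = star y ⬝ᵥ x := fun y hy => by
    unfold dotProduct
    refine sum_congr rfl fun i _ => ?_
    by_cases hi : i = v
    · subst hi; rw [Pi.star_apply, hy, star_zero]; ring
    · rw [hF1 i hi]
  -- left side
  have hz : z = z0 + c • e := by
    rw [hz0]
    ext i
    simp
  have hee : qf (shift S' θ) e = θ := by
    rw [he, qf_single]
    simp [shift, hS'.diag]
  have hze : star z0 ⬝ᵥ (shift S' θ *ᵥ (c • e)) = - (c * (star z0 ⬝ᵥ x)) := by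
    rw [mulVec_smul, dotProduct_smul, smul_eq_mul, ← mul_neg, ← dotProduct_neg]
    congr 1
    unfold dotProduct
    refine sum_congr rfl fun i _ => ?_
    by_cases hi : i = v
    · subst hi; rw [hz0v']; ring
    · rw [he, hx]
      simp [shift, hi, row]
  have hL : qf (shift S' θ) z = qf (shift S θ) z0 - 2 * (c * (star z0 ⬝ᵥ x)).re +
      ‖c‖ ^ 2 * θ := by
    rw [hz, qf_add hAS', hF2, qf_smul, hee, hze, Complex.neg_re]
    ring
  have hR : qf (shift S θ) (z0 - c • (M *ᵥ x)) =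
      qf (shift S θ) z0 - 2 * (c * (star z0 ⬝ᵥ x)).re + ‖c‖ ^ 2 * qf M x := by
    rw [qf_sub hAS, mulVec_smul, dotProduct_smul, smul_eq_mul, hF3 z0 hz0v, qf_smul]
    have h2 : qf (shift S θ) (M *ᵥ x) = qf M x := by
      have h3 : qf (shift S θ) (M *ᵥ x) =
        (star (M *ᵥ x) ⬝ᵥ (shift S θ *ᵥ (M *ᵥ x))).re := rfl
      rw [h3, hF3 _ huv, ← dot_mulVec_comm hMs]
      rfl
    rw [h2]
  rw [hL, hR]
  ring

end Pool.Agent.MP_9cec2c_lc.Flat.Herm
end

section

/-!
# FN7: probability of the event (O2), Hermitian case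
-/

set_option autoImplicit false

open Matrix Finset

namespace Pool.Agent.MP_9cec2c_lc.Flat.Herm

variable {N m : ℕ} [NeZero m]

theorem minor_move (v : Fin N) (a : Cfg2 N m) (A : Finset (Fin N)) (κ : ZMod m) :
    minor (Smat2 (a + mvRow2 v A κ)) v = minor (Smat2 a) v := by
  funext i j
  unfold minor
  by_cases h : i = v ∨ j = v
  · rw [if_pos h, if_pos h]
  · rw [if_neg h, if_neg h]
    push Not at h
    exact Smat2_add_off a v A κ h.1 h.2

theorem rowForm2_eq (v : Fin N) (B : Matrix (Fin N) (Fin N) ℂ) (a : Cfg2 N m) :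
    rowForm2 v B a = qf B (row (Smat2 a) v) - (B.trace.re - (B v v).re) := by
  unfold rowForm2
  rw [Complex.sub_re]
  congr 1
  · unfold qf row
    refine congrArg Complex.re ?_
    simp only [dotProduct, mulVec, mul_sum]
    refine sum_congr rfl fun u _ => sum_congr rfl fun w _ => ?_
    rw [Pi.star_apply, Complex.star_def, Smat2_conj]
    ring
  · have h1 : B.trace = ∑ u ∈ univ.erase v, B u u + B v v := by
      unfold Matrix.trace
      rw [← sum_erase_add _ _ (mem_univ v)]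
      rfl
    rw [h1, Complex.add_re]
    ring

/-- For fixed `v`, `θ`. `rsv (minor S v) θ` does not depend on row `v`; resample the signs of row `v`: quadratic
Rademacher chaos, second moment at most `2 hs2 B`, hypercontractivity with exponent `2q`: the frequency is at
most `(2 (2q-1)^2 / K^2)^q ≤ (2/9)^q`. -/
theorem prob_conc {N m : ℕ} [NeZero m] (hm : 2 ∣ m) (v : Fin N) (θ : ℝ) {q : ℕ} (hq : 1 ≤ q)
    {K : ℝ} (hK : 6 * q ≤ K) :
    ({a : Cfg2 N m | ¬ Conc (Smat2 a) K v θ}.ncard : ℝ) ≤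
      (2 / 9) ^ q * (m : ℝ) ^ Fintype.card (Edge N) := by
  classical
  have h1 := row_tail2 (even_iff_two_dvd.2 hm) v (fun a : Cfg2 N m => rsv (minor (Smat2 a) v) θ) (fun a A κ => by
    show rsv (minor (Smat2 (a + mvRow2 v A κ)) v) θ = rsv (minor (Smat2 a) v) θ
    rw [minor_move]) (q := q) (by omega)
  rw [mul_comm]
  refine le_trans ?_ h1
  rw [← Set.ncard_coe_finset]
  have h2 : {a : Cfg2 N m | ¬ Conc (Smat2 a) K v θ} ⊆ ((univ.filter fun a : Cfg2 N m =>
      (6 * q : ℝ) ^ 2 * ∑ u, ∑ w, ‖rsv (minor (Smat2 a) v) θ u w‖ ^ 2 <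
        rowForm2 v (rsv (minor (Smat2 a) v) θ) a ^ 2 : Finset (Cfg2 N m)) : Set (Cfg2 N m)) := by
    intro a ha
    rw [mem_coe, mem_filter]
    refine ⟨mem_univ _, ?_⟩
    have h3 : ¬ Conc (Smat2 a) K v θ := ha
    unfold Conc hs2 at h3
    push Not at h3
    rw [rowForm2_eq]
    refine lt_of_le_of_lt ?_ h3
    refine mul_le_mul_of_nonneg_right ?_ (sum_nonneg fun u _ => sum_nonneg fun w _ => sq_nonneg _)
    exact pow_le_pow_left₀ (by positivity) hK 2
  exact_mod_cast Set.ncard_le_ncard h2 (Finset.finite_toSet _)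

end Pool.Agent.MP_9cec2c_lc.Flat.Herm
end
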