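import Mathlib
import Pool.Agent.Lib.MP_9cec2c_lc.Mg.G001
import Pool.Agent.Lib.MP_9cec2c_lc.Mg.G006

section

/-!
FM8b: the mod 2 instance of the closed walk bound and the trace expansion:
`∑ a : Cfg N, trace (Smat a ^ (2 q)) ≤ 2 ^ #edges * (4 ^ q * N ^ (q+1) * (1 + 8 q^3 / N) ^ q)`.
-/

namespace Pool.Agent.MP_9cec2c_lc.Flat

open Finset

section Phi2

variable {V : Type*} [DecidableEq V]

/-- The step value: the indicator of the edge, modulo 2. -/
def phi2 (u v : V) : Sym2 V → ZMod 2 := Pi.single s(u, v) 1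

lemma wt_phi2_ne_zero (l : List V) (e : Sym2 V) (h : wt phi2 l e ≠ 0) :
    ∃ A x y B, l = A ++ x :: y :: B ∧ s(x, y) = e := by
  induction l with
  | nil => simp at h
  | cons a l ih =>
    cases l with
    | nil => simp at h
    | cons b l =>
      by_cases he : s(a, b) = e
      · exact ⟨[], a, b, l, rfl, he⟩
      · rw [wt_cons_cons, Pi.add_apply] at h
        have h1 : phi2 a b e = 0 := by
          unfold phi2
          exact Pi.single_eq_of_ne (Ne.symm he) 1
        rw [h1, zero_add] at h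
        obtain ⟨A, x, y, B, h2, h3⟩ := ih h
        exact ⟨a :: A, x, y, B, by rw [h2]; rfl, h3⟩

omit [DecidableEq V] in
lemma phi2_exp (g : Sym2 V → ZMod 2) : g + g = 0 := by
  ext e
  rcases zmod2_cases (g e) with h | h
  · simp [h]
  · rw [Pi.add_apply, h]
    exact (by decide : (1 : ZMod 2) + 1 = 0)

lemma good_phi2 : Good (phi2 (V := V)) where
  neg := by
    intro u v
    have h1 : phi2 v u = phi2 u v := by
      unfold phi2; rw [Sym2.eq_swap]
    rw [h1]
    exact eq_neg_of_add_eq_zero_left (phi2_exp _)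
  local' := by
    intro P Q hPQ hP
    obtain ⟨e, he⟩ := Function.ne_iff.1 hP
    rw [Pi.zero_apply] at he
    have hQ : wt phi2 Q e ≠ 0 := by
      intro h
      have := congrFun hPQ e
      rw [Pi.add_apply, h, add_zero, Pi.zero_apply] at this
      exact he this
    obtain ⟨A, x, y, B, h1, h2⟩ := wt_phi2_ne_zero P e he
    obtain ⟨A', x', y', B', h1', h2'⟩ := wt_phi2_ne_zero Q e hQ
    rw [← h2', Sym2.eq_iff] at h2
    rcases h2 with ⟨hx, hy⟩ | ⟨hx, hy⟩
    · exact ⟨x, by rw [h1]; simp, by rw [h1', hx]; simp⟩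
    · exact ⟨x, by rw [h1]; simp, by rw [h1', hx]; simp⟩
  recur := by
    intro u w l h
    have he : wt phi2 (w :: l) s(u, w) ≠ 0 := by
      intro h0
      have := congrFun h s(u, w)
      rw [wt_cons_cons, Pi.add_apply, h0, add_zero, Pi.zero_apply] at this
      unfold phi2 at this
      rw [Pi.single_eq_same] at this
      exact one_ne_zero this
    obtain ⟨A, x, y, B, h1, h2⟩ := wt_phi2_ne_zero _ _ he
    rw [Sym2.eq_iff] at h2
    rcases h2 with ⟨hx, hy⟩ | ⟨hx, hy⟩
    · exact Or.inr ⟨phi2_exp, A, B, by rw [h1, hx, hy]⟩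
    · exact Or.inl ⟨A, B, by rw [h1, hx, hy]⟩

end Phi2

section Expansion

variable {V : Type*} {R : Type*} [CommRing R]

/-- The product of the entries along a walk. -/
def prodW (M : Matrix V V R) : List V → R
  | [] => 1
  | [_] => 1
  | a :: b :: l => M a b * prodW M (b :: l)

@[simp] lemma prodW_nil (M : Matrix V V R) : prodW M [] = 1 := rfl
@[simp] lemma prodW_singleton (M : Matrix V V R) (a : V) : prodW M [a] = 1 := rfl
@[simp] lemma prodW_cons_cons (M : Matrix V V R) (a b : V) (l : List V) :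
    prodW M (a :: b :: l) = M a b * prodW M (b :: l) := rfl

variable [Fintype V]

lemma sum_lists_succ {β : Type*} [AddCommMonoid β] (n : ℕ) (f : List V → β) :
    ∑ l ∈ lists V (n + 1), f l = ∑ v : V, ∑ l ∈ lists V n, f (v :: l) := by
  classical
  rw [← Finset.sum_product']
  refine (Finset.sum_bij' (fun p _ => p.1 :: p.2) (fun l hl => ?_) ?_ ?_ ?_ ?_ ?_).symm
  · exact (l.head (by
      intro h; rw [mem_lists, h] at hl; simp at hl), l.tail)
  · rintro ⟨v, l⟩ h
    rw [Finset.mem_product, mem_lists] at h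
    rw [mem_lists]
    simp [h.2]
  · intro l hl
    have hl' := mem_lists.1 hl
    refine Finset.mem_product.2 ⟨Finset.mem_univ _, mem_lists.2 ?_⟩
    simp [hl']
  · rintro ⟨v, l⟩ h
    simp
  · intro l hl
    simp
  · rintro ⟨v, l⟩ h
    rfl

lemma sum_lists_zero {β : Type*} [AddCommMonoid β] (f : List V → β) :
    ∑ l ∈ lists V 0, f l = f [] := by
  classical
  have : lists V 0 = {[]} := by
    ext l
    rw [mem_lists, Finset.mem_singleton, List.length_eq_zero_iff]
  rw [this, Finset.sum_singleton]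

variable [DecidableEq V]

lemma pow_apply_eq (M : Matrix V V R) (n : ℕ) (u v : V) :
    (M ^ n) u v = ∑ l ∈ lists V n,
      if (u :: l).getLast? = some v then prodW M (u :: l) else 0 := by
  induction n generalizing u with
  | zero =>
    rw [sum_lists_zero, pow_zero, Matrix.one_apply]
    simp
  | succ n ih =>
    rw [pow_succ', Matrix.mul_apply, sum_lists_succ]
    refine Finset.sum_congr rfl (fun w _ => ?_)
    rw [ih, Finset.mul_sum]
    refine Finset.sum_congr rfl (fun l _ => ?_)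
    rw [List.getLast?_cons_cons, prodW_cons_cons, mul_ite, mul_zero]

lemma trace_pow_eq (M : Matrix V V R) (n : ℕ) :
    (M ^ n).trace = ∑ l ∈ lists V (n + 1), if l.head? = l.getLast? then prodW M l else 0 := by
  rw [sum_lists_succ, Matrix.trace]
  refine Finset.sum_congr rfl (fun u _ => ?_)
  rw [Matrix.diag_apply, pow_apply_eq]
  refine Finset.sum_congr rfl (fun l _ => ?_)
  rw [List.head?_cons]
  simp only [eq_comm]

end Expansion

section Main

variable {N : ℕ}

lemma prodW_eq_zero {V R : Type*} [CommRing R] (M : Matrix V V R) (A : List V) (x y : V) (B : List V)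
    (h : M x y = 0) : prodW M (A ++ x :: y :: B) = 0 := by
  induction A with
  | nil => simp [h]
  | cons a A ih =>
    cases A with
    | nil =>
      simp only [List.cons_append, List.nil_append, prodW_cons_cons] at ih ⊢
      rw [ih, mul_zero]
    | cons b A =>
      simp only [List.cons_append, prodW_cons_cons] at ih ⊢
      rw [ih, mul_zero]

lemma abs_prodW_Smat (a : Cfg N) (l : List (Fin N)) : |prodW (Smat a) l| ≤ 1 := by
  induction l with
  | nil => simp
  | cons x l ih =>
    cases l with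
    | nil => simp
    | cons y l =>
      rw [prodW_cons_cons, abs_mul]
      have : |Smat a x y| ≤ 1 := by
        by_cases h : x = y
        · rw [h, Smat_diag]; simp
        · rcases Smat_cases a x y h with h | h <;> rw [h] <;> simp
      calc _ ≤ 1 * 1 := mul_le_mul this ih (abs_nonneg _) zero_le_one
        _ = 1 := one_mul 1

lemma mkEdge_eq_iff (u w x y : Fin N) (h : u ≠ w) (h' : x ≠ y) :
    mkEdge u w h = mkEdge x y h' ↔ s(u, w) = s(x, y) := by
  rw [Sym2.eq_iff]
  unfold mkEdge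
  rcases lt_or_gt_of_ne h with h1 | h1 <;> rcases lt_or_gt_of_ne h' with h2 | h2
  · rw [dif_pos h1, dif_pos h2]
    simp only [Subtype.mk.injEq, Prod.mk.injEq]
    constructor
    · intro h; exact Or.inl h
    · rintro (h | ⟨h3, h4⟩)
      · exact h
      · subst h3; subst h4; exact absurd h1 (not_lt.2 h2.le)
  · rw [dif_pos h1, dif_neg (not_lt.2 h2.le)]
    simp only [Subtype.mk.injEq, Prod.mk.injEq]
    constructor
    · intro h; exact Or.inr h
    · rintro (⟨h3, h4⟩ | h)
      · subst h3; subst h4; exact absurd h1 (not_lt.2 h2.le)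
      · exact h
  · rw [dif_neg (not_lt.2 h1.le), dif_pos h2]
    simp only [Subtype.mk.injEq, Prod.mk.injEq]
    constructor
    · rintro ⟨h3, h4⟩; exact Or.inr ⟨h4, h3⟩
    · rintro (⟨h3, h4⟩ | ⟨h3, h4⟩)
      · subst h3; subst h4; exact absurd h1 (not_lt.2 h2.le)
      · exact ⟨h4, h3⟩
  · rw [dif_neg (not_lt.2 h1.le), dif_neg (not_lt.2 h2.le)]
    simp only [Subtype.mk.injEq, Prod.mk.injEq]
    constructor
    · rintro ⟨h3, h4⟩; exact Or.inl ⟨h4, h3⟩
    · rintro (⟨h3, h4⟩ | ⟨h3, h4⟩)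
      · exact ⟨h4, h3⟩
      · subst h3; subst h4; exact absurd h1 (not_lt.2 h2.le)

lemma Smat_add_single (a : Cfg N) (x y : Fin N) (hxy : x ≠ y) (u w : Fin N) :
    Smat (a + Pi.single (mkEdge x y hxy) 1) u w = sgn2 (phi2 u w s(x, y)) * Smat a u w := by
  by_cases h : u = w
  · subst h; rw [Smat_diag, Smat_diag, mul_zero]
  · rw [Smat_of_ne _ u w h, Smat_of_ne _ u w h, Pi.add_apply, sgn2_add, mul_comm]
    congr 2
    unfold phi2
    by_cases h1 : s(u, w) = s(x, y)
    · rw [(mkEdge_eq_iff u w x y h hxy).2 h1, Pi.single_eq_same, h1, Pi.single_eq_same]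
    · rw [Pi.single_eq_of_ne (fun h2 => h1 ((mkEdge_eq_iff u w x y h hxy).1 h2)),
        Pi.single_eq_of_ne (Ne.symm h1)]

lemma prodW_add_single (a : Cfg N) (x y : Fin N) (hxy : x ≠ y) (l : List (Fin N)) :
    prodW (Smat (a + Pi.single (mkEdge x y hxy) 1)) l =
      sgn2 (wt phi2 l s(x, y)) * prodW (Smat a) l := by
  induction l with
  | nil => simp [sgn2_zero]
  | cons u l ih =>
    cases l with
    | nil => simp [sgn2_zero]
    | cons w l =>
      rw [prodW_cons_cons, prodW_cons_cons, wt_cons_cons, Pi.add_apply, sgn2_add, ih,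
        Smat_add_single]
      ring

lemma sum_prodW_le (l : List (Fin N)) :
    ∑ a : Cfg N, prodW (Smat a) l ≤
      if wt phi2 l = 0 then (Fintype.card (Cfg N) : ℝ) else 0 := by
  split_ifs with h
  · refine (Finset.sum_le_sum (fun a _ => (le_abs_self _).trans (abs_prodW_Smat a l))).trans ?_
    rw [Finset.sum_const, Finset.card_univ, nsmul_eq_mul, mul_one]
  · obtain ⟨e, he⟩ := Function.ne_iff.1 h
    rw [Pi.zero_apply] at he
    obtain ⟨A, x, y, B, h1, h2⟩ := wt_phi2_ne_zero l e he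
    by_cases hxy : x = y
    · refine le_of_eq (Finset.sum_eq_zero (fun a _ => ?_))
      rw [h1]
      exact prodW_eq_zero _ _ _ _ _ (by rw [hxy]; exact Smat_diag a y)
    · have h3 : ∑ a : Cfg N, prodW (Smat (a + Pi.single (mkEdge x y hxy) 1)) l =
          ∑ a : Cfg N, prodW (Smat a) l :=
        Fintype.sum_equiv (Equiv.addRight (Pi.single (mkEdge x y hxy) 1)) _ _ (fun a => rfl)
      have h4 : ∀ a : Cfg N, prodW (Smat (a + Pi.single (mkEdge x y hxy) 1)) l =
          - prodW (Smat a) l := by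
        intro a
        rw [prodW_add_single, h2]
        rcases zmod2_cases (wt phi2 l e) with h5 | h5
        · exact absurd h5 he
        · rw [h5, sgn2_one, neg_one_mul]
      rw [Finset.sum_congr rfl (fun a _ => h4 a), Finset.sum_neg_distrib] at h3
      linarith

theorem sum_trace_le (N n : ℕ) :
    ∑ a : Cfg N, ((Smat a) ^ n).trace ≤
      (Fintype.card (Cfg N) : ℝ) * ((CW (phi2 (V := Fin N)) n).card : ℝ) := by
  classical
  calc ∑ a : Cfg N, ((Smat a) ^ n).trace
      = ∑ a : Cfg N, ∑ l ∈ lists (Fin N) (n + 1),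
          if l.head? = l.getLast? then prodW (Smat a) l else 0 :=
        Finset.sum_congr rfl (fun a _ => trace_pow_eq _ n)
    _ = ∑ l ∈ lists (Fin N) (n + 1), ∑ a : Cfg N,
          if l.head? = l.getLast? then prodW (Smat a) l else 0 := Finset.sum_comm
    _ ≤ ∑ l ∈ lists (Fin N) (n + 1),
          if IsC phi2 l then (Fintype.card (Cfg N) : ℝ) else 0 := by
        refine Finset.sum_le_sum (fun l _ => ?_)
        by_cases h1 : l.head? = l.getLast?
        · simp only [h1, if_true]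
          refine (sum_prodW_le l).trans (le_of_eq ?_)
          simp [IsC, h1]
        · simp only [h1, if_false]
          simp [IsC, h1]
    _ = (Fintype.card (Cfg N) : ℝ) * ((CW (phi2 (V := Fin N)) n).card : ℝ) := by
        rw [← Finset.sum_filter, Finset.sum_const, nsmul_eq_mul, mul_comm]
        unfold CW
        congr!

/-- Main bound of FM8: the average of `trace (S^(2q))`. -/
theorem sum_trace_pow_le (N q : ℕ) (hN : 0 < N) :
    ∑ a : Cfg N, ((Smat a) ^ (2 * q)).trace ≤
      (Fintype.card (Cfg N) : ℝ) * (4 ^ q * (N : ℝ) ^ (q + 1) *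
        (1 + 8 * (q : ℝ) ^ 3 / (N : ℝ)) ^ q) := by
  have : Inhabited (Fin N) := ⟨⟨0, hN⟩⟩
  have h := card_CW_bound' (phi2 (V := Fin N)) good_phi2 q
  rw [Fintype.card_fin] at h
  exact (sum_trace_le N (2 * q)).trans (mul_le_mul_of_nonneg_left h (by positivity))

end Main

end Pool.Agent.MP_9cec2c_lc.Flat
end

section

/-!
FM8c: consequences of the trace bound: tails of the largest eigenvalue and its average.
-/

namespace Pool.Agent.MP_9cec2c_lc.Flat

open Finset

section LinAlg

variable {N : ℕ}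

lemma sum_sq_eq_trace (B : Matrix (Fin N) (Fin N) ℝ) :
    ∑ u, ∑ v, B u v ^ 2 = (B * B.transpose).trace := by
  rw [Matrix.trace]
  refine Finset.sum_congr rfl (fun u _ => ?_)
  rw [Matrix.diag_apply, Matrix.mul_apply]
  refine Finset.sum_congr rfl (fun v _ => ?_)
  rw [Matrix.transpose_apply, pow_two]

/-- `|B w|^2 ≤ ‖B‖_HS^2 |w|^2`. -/
lemma sum_mulVec_sq_le (B : Matrix (Fin N) (Fin N) ℝ) (w : Fin N → ℝ) :
    ∑ u, (B.mulVec w) u ^ 2 ≤ (B * B.transpose).trace * ∑ v, w v ^ 2 := by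
  rw [← sum_sq_eq_trace, Finset.sum_mul]
  refine Finset.sum_le_sum (fun u _ => ?_)
  exact Finset.sum_mul_sq_le_sq_mul_sq Finset.univ (fun v => B u v) w

lemma transpose_pow_symm (S : Matrix (Fin N) (Fin N) ℝ) (hS : S.transpose = S) (q : ℕ) :
    (S ^ q).transpose = S ^ q := by
  rw [Matrix.transpose_pow, hS]

lemma pow_mul_transpose (S : Matrix (Fin N) (Fin N) ℝ) (hS : S.transpose = S) (q : ℕ) :
    S ^ q * (S ^ q).transpose = S ^ (2 * q) := by
  rw [transpose_pow_symm S hS, ← pow_add, two_mul]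

lemma trace_pow_even_nonneg (S : Matrix (Fin N) (Fin N) ℝ) (hS : S.transpose = S) (q : ℕ) :
    0 ≤ (S ^ (2 * q)).trace := by
  rw [← pow_mul_transpose S hS, ← sum_sq_eq_trace]
  positivity

lemma pow_mulVec_eig (S : Matrix (Fin N) (Fin N) ℝ) (l : ℝ) (psi : Fin N → ℝ)
    (h : S.mulVec psi = l • psi) (q : ℕ) : (S ^ q).mulVec psi = (l ^ q) • psi := by
  induction q with
  | zero => simp
  | succ q ih =>
    rw [pow_succ, ← Matrix.mulVec_mulVec, h, Matrix.mulVec_smul, ih, smul_smul, pow_succ,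
      mul_comm]

/-- (T1) every eigenvalue satisfies `l^(2q) ≤ trace (S^(2q))`. -/
theorem eig_pow_le_trace (S : Matrix (Fin N) (Fin N) ℝ) (hS : S.transpose = S) (l : ℝ)
    (psi : Fin N → ℝ) (h1 : ∑ v, psi v ^ 2 = 1) (h2 : ∀ u, ∑ v, S u v * psi v = l * psi u)
    (q : ℕ) : l ^ (2 * q) ≤ (S ^ (2 * q)).trace := by
  have h3 : S.mulVec psi = l • psi := by
    ext u
    rw [Matrix.mulVec, dotProduct, h2 u, Pi.smul_apply, smul_eq_mul]
  have h4 := sum_mulVec_sq_le (S ^ q) psi
  rw [h1, mul_one, pow_mul_transpose S hS, pow_mulVec_eig S l psi h3 q] at h4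
  refine le_trans (le_of_eq ?_) h4
  have : ∀ u, ((l ^ q) • psi) u ^ 2 = l ^ (2 * q) * psi u ^ 2 := by
    intro u
    rw [Pi.smul_apply, smul_eq_mul, mul_pow, ← pow_mul, mul_comm q 2]
  rw [Finset.sum_congr rfl (fun u _ => this u), ← Finset.mul_sum, h1, mul_one]

/-- The moments of `S` at `w`. -/
def mom (S : Matrix (Fin N) (Fin N) ℝ) (w : Fin N → ℝ) (k : ℕ) : ℝ :=
  ∑ u, w u * ((S ^ k).mulVec w) u

lemma mom_add (S : Matrix (Fin N) (Fin N) ℝ) (hS : S.transpose = S) (w : Fin N → ℝ) (j k : ℕ) :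
    mom S w (j + k) = ∑ u, ((S ^ j).mulVec w) u * ((S ^ k).mulVec w) u := by
  have h1 : mom S w (j + k) = w ⬝ᵥ ((S ^ (j + k)).mulVec w) := rfl
  have h2 : ∑ u, ((S ^ j).mulVec w) u * ((S ^ k).mulVec w) u =
    ((S ^ j).mulVec w) ⬝ᵥ ((S ^ k).mulVec w) := rfl
  rw [h1, h2, pow_add, ← Matrix.mulVec_mulVec, Matrix.dotProduct_mulVec]
  congr 1
  rw [← Matrix.mulVec_transpose, transpose_pow_symm S hS]

lemma mom_sq_le (S : Matrix (Fin N) (Fin N) ℝ) (hS : S.transpose = S) (w : Fin N → ℝ) (j k : ℕ) :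
    mom S w (j + k) ^ 2 ≤ mom S w (2 * j) * mom S w (2 * k) := by
  rw [mom_add S hS, two_mul, two_mul, mom_add S hS, mom_add S hS]
  have := Finset.sum_mul_sq_le_sq_mul_sq (Finset.univ) ((S ^ j).mulVec w) ((S ^ k).mulVec w)
  refine this.trans (le_of_eq ?_)
  simp only [pow_two]

lemma mom_even_nonneg (S : Matrix (Fin N) (Fin N) ℝ) (hS : S.transpose = S) (w : Fin N → ℝ)
    (j : ℕ) : 0 ≤ mom S w (2 * j) := by
  rw [two_mul, mom_add S hS]
  exact Finset.sum_nonneg (fun u _ => mul_self_nonneg _)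

lemma mom_zero (S : Matrix (Fin N) (Fin N) ℝ) (w : Fin N → ℝ) :
    mom S w 0 = ∑ v, w v ^ 2 := by
  unfold mom
  rw [pow_zero, Matrix.one_mulVec]
  exact Finset.sum_congr rfl (fun u _ => (pow_two _).symm)

lemma mom_one (S : Matrix (Fin N) (Fin N) ℝ) (w : Fin N → ℝ) :
    mom S w 1 = ∑ u, ∑ v, w u * S u v * w v := by
  unfold mom
  rw [pow_one]
  refine Finset.sum_congr rfl (fun u _ => ?_)
  rw [Matrix.mulVec, dotProduct, Finset.mul_sum]
  exact Finset.sum_congr rfl (fun v _ => by ring)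

lemma mom_ratio (S : Matrix (Fin N) (Fin N) ℝ) (hS : S.transpose = S) (w : Fin N → ℝ) (q : ℕ) :
    mom S w 2 * mom S w (2 * q) ≤ mom S w 0 * mom S w (2 * (q + 1)) := by
  induction q with
  | zero => rw [mul_zero, zero_add, mul_one, mul_comm]
  | succ q ih =>
    have h0 := mom_even_nonneg S hS w q
    have h1 := mom_even_nonneg S hS w (q + 1)
    have h2 := mom_even_nonneg S hS w (q + 2)
    have h3 : mom S w (2 * (q + 1)) ^ 2 ≤ mom S w (2 * q) * mom S w (2 * (q + 2)) := by
      have := mom_sq_le S hS w q (q + 2)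
      rwa [show q + (q + 2) = 2 * (q + 1) by ring] at this
    have h4 : 0 ≤ mom S w 0 := by
      have := mom_even_nonneg S hS w 0
      simpa using this
    have h5 : 0 ≤ mom S w 2 := by
      have := mom_even_nonneg S hS w 1
      simpa using this
    rcases h0.lt_or_eq with h | h
    · have h6 : mom S w (2 * q) * (mom S w 2 * mom S w (2 * (q + 1))) ≤
          mom S w (2 * q) * (mom S w 0 * mom S w (2 * (q + 1 + 1))) := by
        calc mom S w (2 * q) * (mom S w 2 * mom S w (2 * (q + 1)))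
            = (mom S w 2 * mom S w (2 * q)) * mom S w (2 * (q + 1)) := by ring
          _ ≤ (mom S w 0 * mom S w (2 * (q + 1))) * mom S w (2 * (q + 1)) :=
              mul_le_mul_of_nonneg_right ih h1
          _ = mom S w 0 * (mom S w (2 * (q + 1)) ^ 2) := by ring
          _ ≤ mom S w 0 * (mom S w (2 * q) * mom S w (2 * (q + 2))) :=
              mul_le_mul_of_nonneg_left h3 h4
          _ = mom S w (2 * q) * (mom S w 0 * mom S w (2 * (q + 1 + 1))) := by ring
      exact le_of_mul_le_mul_left h6 h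
    · rw [← h, zero_mul] at h3
      have h7 : mom S w (2 * (q + 1)) = 0 := by
        have := le_antisymm h3 (sq_nonneg _)
        exact pow_eq_zero_iff (two_ne_zero) |>.1 this
      rw [h7, mul_zero]
      exact mul_nonneg h4 h2

lemma mom_two_pow_le (S : Matrix (Fin N) (Fin N) ℝ) (hS : S.transpose = S) (w : Fin N → ℝ)
    (q : ℕ) : mom S w 2 ^ (q + 1) ≤ mom S w 0 ^ q * mom S w (2 * (q + 1)) := by
  have h5 : 0 ≤ mom S w 2 := by
    have := mom_even_nonneg S hS w 1
    simpa using this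
  have h4 : 0 ≤ mom S w 0 := by
    have := mom_even_nonneg S hS w 0
    simpa using this
  induction q with
  | zero => simp
  | succ q ih =>
    calc mom S w 2 ^ (q + 1 + 1) = mom S w 2 * mom S w 2 ^ (q + 1) := by ring
      _ ≤ mom S w 2 * (mom S w 0 ^ q * mom S w (2 * (q + 1))) := mul_le_mul_of_nonneg_left ih h5
      _ = mom S w 0 ^ q * (mom S w 2 * mom S w (2 * (q + 1))) := by ring
      _ ≤ mom S w 0 ^ q * (mom S w 0 * mom S w (2 * (q + 1 + 1))) :=
          mul_le_mul_of_nonneg_left (mom_ratio S hS w (q + 1)) (by positivity)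
      _ = _ := by ring

lemma mom_even_le_trace (S : Matrix (Fin N) (Fin N) ℝ) (hS : S.transpose = S) (w : Fin N → ℝ)
    (q : ℕ) : mom S w (2 * q) ≤ (S ^ (2 * q)).trace * mom S w 0 := by
  have h := sum_mulVec_sq_le (S ^ q) w
  rw [pow_mul_transpose S hS] at h
  rw [mom_zero, two_mul, mom_add S hS, ← two_mul]
  refine le_trans (le_of_eq ?_) h
  exact Finset.sum_congr rfl (fun u _ => (pow_two _).symm)

/-- (T2) bound of the quadratic form by the trace of an even power. -/
theorem form_pow_le_trace (S : Matrix (Fin N) (Fin N) ℝ) (hS : S.transpose = S)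
    (w : Fin N → ℝ) (q : ℕ) (hq : 1 ≤ q) :
    (∑ u, ∑ v, w u * S u v * w v) ^ (2 * q) ≤ (S ^ (2 * q)).trace * (∑ v, w v ^ 2) ^ (2 * q) := by
  obtain ⟨q, rfl⟩ : ∃ p, q = p + 1 := ⟨q - 1, by omega⟩
  rw [← mom_one, ← mom_zero S w]
  have h5 : 0 ≤ mom S w 2 := by
    have := mom_even_nonneg S hS w 1
    simpa using this
  have h4 : 0 ≤ mom S w 0 := by
    have := mom_even_nonneg S hS w 0
    simpa using this
  have h1 : mom S w 1 ^ 2 ≤ mom S w 0 * mom S w 2 := by
    have := mom_sq_le S hS w 0 1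
    simpa using this
  calc mom S w 1 ^ (2 * (q + 1)) = (mom S w 1 ^ 2) ^ (q + 1) := by rw [pow_mul]
    _ ≤ (mom S w 0 * mom S w 2) ^ (q + 1) := pow_le_pow_left₀ (sq_nonneg _) h1 _
    _ = mom S w 0 ^ (q + 1) * mom S w 2 ^ (q + 1) := by rw [mul_pow]
    _ ≤ mom S w 0 ^ (q + 1) * (mom S w 0 ^ q * mom S w (2 * (q + 1))) :=
        mul_le_mul_of_nonneg_left (mom_two_pow_le S hS w q) (by positivity)
    _ ≤ mom S w 0 ^ (q + 1) * (mom S w 0 ^ q * ((S ^ (2 * (q + 1))).trace * mom S w 0)) := by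
        refine mul_le_mul_of_nonneg_left ?_ (by positivity)
        exact mul_le_mul_of_nonneg_left (mom_even_le_trace S hS w (q + 1)) (by positivity)
    _ = _ := by ring

/-- (T2') if `trace (S^(2q)) ≤ R^(2q)` then `|w^T S w| ≤ R |w|^2`. -/
theorem form_le_of_trace (S : Matrix (Fin N) (Fin N) ℝ) (hS : S.transpose = S)
    (q : ℕ) (hq : 1 ≤ q) (R : ℝ) (hR : 0 ≤ R) (h : (S ^ (2 * q)).trace ≤ R ^ (2 * q))
    (w : Fin N → ℝ) : |∑ u, ∑ v, w u * S u v * w v| ≤ R * ∑ v, w v ^ 2 := by
  have h0 : 0 ≤ ∑ v, w v ^ 2 := Finset.sum_nonneg (fun v _ => sq_nonneg _)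
  have h1 := form_pow_le_trace S hS w q hq
  have h2 : (∑ u, ∑ v, w u * S u v * w v) ^ (2 * q) ≤ (R * ∑ v, w v ^ 2) ^ (2 * q) := by
    rw [mul_pow]
    exact h1.trans (mul_le_mul_of_nonneg_right h (by positivity))
  rw [← (even_two_mul q).pow_abs] at h2
  exact le_of_pow_le_pow_left₀ (by omega) (mul_nonneg hR h0) h2

theorem eig_le_of_trace (S : Matrix (Fin N) (Fin N) ℝ) (hS : S.transpose = S)
    (q : ℕ) (hq : 1 ≤ q) (R : ℝ) (hR : 0 ≤ R) (h : (S ^ (2 * q)).trace ≤ R ^ (2 * q))
    (l : ℝ) (psi : Fin N → ℝ) (h1 : ∑ v, psi v ^ 2 = 1)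
    (h2 : ∀ u, ∑ v, S u v * psi v = l * psi u) : |l| ≤ R := by
  have h3 := (eig_pow_le_trace S hS l psi h1 h2 q).trans h
  rw [← (even_two_mul q).pow_abs] at h3
  exact le_of_pow_le_pow_left₀ (by omega) hR h3

end LinAlg

section Tails

variable {N : ℕ}

lemma rpow_helper (N q : ℕ) (δ : ℝ) :
    ((2 + δ) * Real.sqrt N) ^ (2 * q) = 4 ^ q * (N : ℝ) ^ q * (1 + δ / 2) ^ (2 * q) := by
  have h1 : (2 + δ) * Real.sqrt N = 2 * Real.sqrt N * (1 + δ / 2) := by ring
  rw [h1, mul_pow, mul_pow, pow_mul 2 2 q, pow_mul (Real.sqrt N) 2 q,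
    Real.sq_sqrt (Nat.cast_nonneg N)]
  norm_num

open Classical in
/-- (O1) number of configurations with a large trace. -/
theorem card_trace_gt_le (N q : ℕ) (hN : 0 < N) (δ : ℝ) (hδ : 0 ≤ δ) :
    ((Finset.univ.filter (fun a : Cfg N =>
      ((2 + δ) * Real.sqrt N) ^ (2 * q) < ((Smat a) ^ (2 * q)).trace)).card : ℝ) ≤
    N * (1 + 8 * (q : ℝ) ^ 3 / N) ^ q * ((1 + δ / 2) ^ (2 * q))⁻¹ *
      (Fintype.card (Cfg N) : ℝ) := by
  set F := (Finset.univ.filter (fun a : Cfg N =>
      ((2 + δ) * Real.sqrt N) ^ (2 * q) < ((Smat a) ^ (2 * q)).trace)) with hF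
  have hNr : (0 : ℝ) < N := by exact_mod_cast hN
  have hR : 0 < ((2 + δ) * Real.sqrt N) ^ (2 * q) := by
    have : 0 < Real.sqrt N := Real.sqrt_pos.2 hNr
    positivity
  have h1 : (F.card : ℝ) * ((2 + δ) * Real.sqrt N) ^ (2 * q) ≤
      ∑ a : Cfg N, ((Smat a) ^ (2 * q)).trace := by
    rw [← nsmul_eq_mul, ← Finset.sum_const]
    refine (Finset.sum_le_sum (fun a ha => (Finset.mem_filter.1 ha).2.le)).trans ?_
    exact Finset.sum_le_sum_of_subset_of_nonneg (Finset.subset_univ _)
      (fun a _ _ => trace_pow_even_nonneg _ (Smat_transpose a) q)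
  have h2 := h1.trans (sum_trace_pow_le N q hN)
  rw [← le_div_iff₀ hR] at h2
  refine h2.trans (le_of_eq ?_)
  rw [rpow_helper]
  have h3 : (1 + δ / 2) ^ (2 * q) ≠ 0 := by positivity
  have h4 : (N : ℝ) ^ (q + 1) = (N : ℝ) * (N : ℝ) ^ q := by ring
  rw [h4]
  field_simp

/-- The average of any function dominated by the trace (for instance the largest eigenvalue). -/
theorem sum_le_of_pow_le_trace (N q : ℕ) (hN : 0 < N) (hq : 1 ≤ q) (lam : Cfg N → ℝ)
    (hlam : ∀ a, lam a ^ (2 * q) ≤ ((Smat a) ^ (2 * q)).trace) (R : ℝ) (hR : 0 ≤ R)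
    (h : 4 ^ q * (N : ℝ) ^ (q + 1) * (1 + 8 * (q : ℝ) ^ 3 / (N : ℝ)) ^ q ≤ R ^ (2 * q)) :
    ∑ a : Cfg N, lam a ≤ (Fintype.card (Cfg N) : ℝ) * R := by
  have hc : (0 : ℝ) < (Fintype.card (Cfg N) : ℝ) := by
    have : 0 < Fintype.card (Cfg N) := Fintype.card_pos
    exact_mod_cast this
  set C : ℝ := (Fintype.card (Cfg N) : ℝ) with hC
  have h1 : (∑ a : Cfg N, C⁻¹ * lam a) ^ (2 * q) ≤ ∑ a : Cfg N, C⁻¹ * lam a ^ (2 * q) := by
    refine Real.pow_arith_mean_le_arith_mean_pow_of_even _ _ _ (fun _ _ => by positivity) ?_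
      (even_two_mul q)
    rw [Finset.sum_const, Finset.card_univ, nsmul_eq_mul, ← hC]
    exact mul_inv_cancel₀ hc.ne'
  have h2 : ∑ a : Cfg N, C⁻¹ * lam a ^ (2 * q) ≤ R ^ (2 * q) := by
    rw [← Finset.mul_sum]
    have h3 := (Finset.sum_le_sum (fun a (_ : a ∈ (Finset.univ : Finset (Cfg N))) => hlam a)).trans
      (sum_trace_pow_le N q hN)
    calc C⁻¹ * ∑ a : Cfg N, lam a ^ (2 * q) ≤ C⁻¹ * (C * (4 ^ q * (N : ℝ) ^ (q + 1) *
        (1 + 8 * (q : ℝ) ^ 3 / (N : ℝ)) ^ q)) := mul_le_mul_of_nonneg_left h3 (by positivity)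
      _ = 4 ^ q * (N : ℝ) ^ (q + 1) * (1 + 8 * (q : ℝ) ^ 3 / (N : ℝ)) ^ q := by
        rw [← mul_assoc, inv_mul_cancel₀ hc.ne', one_mul]
      _ ≤ R ^ (2 * q) := h
  have h3 := h1.trans h2
  rw [← (even_two_mul q).pow_abs] at h3
  have h4 := le_of_pow_le_pow_left₀ (by omega) hR h3
  have h5 := (le_abs_self _).trans h4
  rw [← Finset.mul_sum] at h5
  calc ∑ a : Cfg N, lam a = C * (C⁻¹ * ∑ a : Cfg N, lam a) := by
        rw [← mul_assoc, mul_inv_cancel₀ hc.ne', one_mul]
    _ ≤ C * R := mul_le_mul_of_nonneg_left h5 hc.le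

/-- The average of the largest eigenvalue, `R = 2 sqrt N (1 + δ)`. -/
theorem sum_lam_le (N q : ℕ) (hN : 0 < N) (hq : 1 ≤ q) (lam : Cfg N → ℝ)
    (hlam : ∀ a, lam a ^ (2 * q) ≤ ((Smat a) ^ (2 * q)).trace) (δ : ℝ) (hδ : 0 ≤ δ)
    (h : (N : ℝ) * (1 + 8 * (q : ℝ) ^ 3 / (N : ℝ)) ^ q ≤ (1 + δ) ^ (2 * q)) :
    ∑ a : Cfg N, lam a ≤ (Fintype.card (Cfg N) : ℝ) * (2 * Real.sqrt N * (1 + δ)) := by
  refine sum_le_of_pow_le_trace N q hN hq lam hlam _ (by positivity) ?_
  have h1 : (2 * Real.sqrt N * (1 + δ)) ^ (2 * q) = 4 ^ q * (N : ℝ) ^ q * (1 + δ) ^ (2 * q) := by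
    have := rpow_helper N q (2 * δ)
    rw [show (2 + 2 * δ) * Real.sqrt N = 2 * Real.sqrt N * (1 + δ) by ring,
      show 1 + 2 * δ / 2 = 1 + δ by ring] at this
    exact this
  rw [h1]
  calc 4 ^ q * (N : ℝ) ^ (q + 1) * (1 + 8 * (q : ℝ) ^ 3 / (N : ℝ)) ^ q
      = 4 ^ q * (N : ℝ) ^ q * ((N : ℝ) * (1 + 8 * (q : ℝ) ^ 3 / (N : ℝ)) ^ q) := by ring
    _ ≤ _ := mul_le_mul_of_nonneg_left h (by positivity)

end Tails

end Pool.Agent.MP_9cec2c_lc.Flat
end

section

/-!
FM8d: the balanced instance of the closed walk bound (every edge is used equally often in both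
directions) and the trace expansion for Hermitian matrices with entries `m`-th roots of unity:
for `2 q < m`,
`(∑ a : Cfg2 N m, trace (Smat2 a ^ (2 q))).re ≤ #(Cfg2 N m) * (4 ^ q * N ^ (q+1) * (1 + 8 q^3 / N) ^ q)`.
-/

set_option autoImplicit false

namespace Pool.Agent.MP_9cec2c_lc.Flat

open Finset

section PhiB

variable {V : Type*} [DecidableEq V]

/-- The step value for the balanced walks: the flow, and loops modulo 2. -/
def phiB (u v : V) : (V × V → ℤ) × (V → ZMod 2) :=
  (Pi.single (u, v) 1 - Pi.single (v, u) 1, if u = v then Pi.single u 1 else 0)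

lemma phiB_fst (u v x y : V) : (phiB u v).1 (x, y) =
    (if (x, y) = (u, v) then 1 else 0) - (if (x, y) = (v, u) then 1 else 0) := by
  unfold phiB
  simp only [Pi.sub_apply, Pi.single_apply]

lemma wtB_neg_step (l : List V) (u w : V) (h : (wt phiB l).1 (u, w) < 0) :
    ∃ A B, l = A ++ w :: u :: B := by
  induction l with
  | nil => simp at h
  | cons a l ih =>
    cases l with
    | nil => simp at h
    | cons b l =>
      by_cases hab : a = w ∧ b = u
      · exact ⟨[], l, by rw [hab.1, hab.2]; rfl⟩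
      · rw [wt_cons_cons, Prod.fst_add, Pi.add_apply, phiB_fst] at h
        have h1 : ¬ ((u, w) = (b, a)) := by
          intro h2
          rw [Prod.mk.injEq] at h2
          exact hab ⟨h2.2.symm, h2.1.symm⟩
        rw [if_neg h1, sub_zero] at h
        have h2 : (wt phiB (b :: l)).1 (u, w) < 0 := by
          split_ifs at h <;> linarith
        obtain ⟨A, B, h3⟩ := ih h2
        exact ⟨a :: A, B, by rw [h3]; rfl⟩

lemma wtB_swap (l : List V) (x y : V) : (wt phiB l).1 (y, x) = - (wt phiB l).1 (x, y) := by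
  induction l with
  | nil => simp
  | cons a l ih =>
    cases l with
    | nil => simp
    | cons b l =>
      rw [wt_cons_cons, Prod.fst_add, Pi.add_apply, Pi.add_apply, ih, phiB_fst, phiB_fst]
      have h1 : ((y, x) = (a, b)) ↔ ((x, y) = (b, a)) := by
        simp only [Prod.mk.injEq]; tauto
      have h2 : ((y, x) = (b, a)) ↔ ((x, y) = (a, b)) := by
        simp only [Prod.mk.injEq]; tauto
      simp only [h1, h2]
      ring

lemma wtB_fst_ne (l : List V) (x y : V) (h : (wt phiB l).1 (x, y) ≠ 0) : x ∈ l := by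
  rcases lt_or_gt_of_ne h with h1 | h1
  · obtain ⟨A, B, h2⟩ := wtB_neg_step l x y h1
    rw [h2]; simp
  · have h3 : (wt phiB l).1 (y, x) < 0 := by rw [wtB_swap]; linarith
    obtain ⟨A, B, h2⟩ := wtB_neg_step l y x h3
    rw [h2]; simp

lemma wtB_snd_ne (l : List V) (x : V) (h : (wt phiB l).2 x ≠ 0) :
    ∃ A B, l = A ++ x :: x :: B := by
  induction l with
  | nil => simp at h
  | cons a l ih =>
    cases l with
    | nil => simp at h
    | cons b l =>
      by_cases hab : a = x ∧ b = x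
      · exact ⟨[], l, by rw [hab.1, hab.2]; rfl⟩
      · rw [wt_cons_cons, Prod.snd_add, Pi.add_apply] at h
        have h1 : (phiB a b).2 x = 0 := by
          unfold phiB
          simp only
          split_ifs with h2
          · subst h2
            exact Pi.single_eq_of_ne (fun h3 => hab ⟨h3.symm, h3.symm⟩) 1
          · rfl
        rw [h1, zero_add] at h
        obtain ⟨A, B, h3⟩ := ih h
        exact ⟨a :: A, B, by rw [h3]; rfl⟩

lemma good_phiB : Good (phiB (V := V)) where
  neg := by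
    intro u v
    unfold phiB
    rw [Prod.neg_mk, neg_sub]
    congr 1
    by_cases h : u = v
    · subst h
      rw [if_pos rfl]
      exact eq_neg_of_add_eq_zero_left (by
        rw [← Pi.single_add, (by decide : (1 : ZMod 2) + 1 = 0), Pi.single_zero])
    · rw [if_neg h, if_neg (Ne.symm h), neg_zero]
  local' := by
    intro P Q hPQ hP
    have hP' : (wt phiB P).1 ≠ 0 ∨ (wt phiB P).2 ≠ 0 := by
      by_contra hcon
      push Not at hcon
      exact hP (Prod.ext hcon.1 hcon.2)
    rcases hP' with h | h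
    · obtain ⟨⟨x, y⟩, he⟩ := Function.ne_iff.1 h
      rw [Pi.zero_apply] at he
      have hQ : (wt phiB Q).1 (x, y) ≠ 0 := by
        intro h
        have := congrFun (congrArg Prod.fst hPQ) (x, y)
        rw [Prod.fst_add, Pi.add_apply, h, add_zero] at this
        exact he this
      exact ⟨x, wtB_fst_ne P x y he, wtB_fst_ne Q x y hQ⟩
    · obtain ⟨x, he⟩ := Function.ne_iff.1 h
      rw [Pi.zero_apply] at he
      have hQ : (wt phiB Q).2 x ≠ 0 := by
        intro h
        have := congrFun (congrArg Prod.snd hPQ) x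
        rw [Prod.snd_add, Pi.add_apply, h, add_zero] at this
        exact he this
      obtain ⟨A, B, h1⟩ := wtB_snd_ne P x he
      obtain ⟨A', B', h1'⟩ := wtB_snd_ne Q x hQ
      exact ⟨x, by rw [h1]; simp, by rw [h1']; simp⟩
  recur := by
    intro u w l h
    by_cases huw : u = w
    · subst huw
      have he : (wt phiB (u :: l)).2 u ≠ 0 := by
        intro h0
        have := congrFun (congrArg Prod.snd h) u
        rw [wt_cons_cons, Prod.snd_add, Pi.add_apply, h0, add_zero] at this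
        unfold phiB at this
        simp at this
      obtain ⟨A, B, h1⟩ := wtB_snd_ne _ _ he
      exact Or.inl ⟨A, B, h1⟩
    · have he : (wt phiB (w :: l)).1 (u, w) < 0 := by
        have := congrFun (congrArg Prod.fst h) (u, w)
        rw [wt_cons_cons, Prod.fst_add, Pi.add_apply, phiB_fst, if_pos rfl] at this
        have h1 : ¬ ((u, w) = (w, u)) := by
          intro h2
          rw [Prod.mk.injEq] at h2
          exact huw h2.1
        rw [if_neg h1] at this
        have h3 : (0 : (V × V → ℤ) × (V → ZMod 2)).1 (u, w) = 0 := rfl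
        rw [h3] at this
        linarith
      obtain ⟨A, B, h1⟩ := wtB_neg_step _ _ _ he
      exact Or.inl ⟨A, B, h1⟩

lemma abs_wtB_le (l : List V) (x y : V) : |(wt phiB l).1 (x, y)| ≤ (l.length : ℤ) - 1 ∨ l = [] := by
  induction l with
  | nil => exact Or.inr rfl
  | cons a l ih =>
    left
    cases l with
    | nil => simp
    | cons b l =>
      rcases ih with ih | ih
      · rw [wt_cons_cons, Prod.fst_add, Pi.add_apply]
        refine (abs_add_le _ _).trans ?_
        have h1 : |(phiB a b).1 (x, y)| ≤ 1 := by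
          rw [phiB_fst]
          split_ifs <;> simp
        rw [List.length_cons]
        push_cast
        linarith
      · simp at ih

end PhiB

section Main2

variable {N m : ℕ} [NeZero m]

lemma norm_prodW_Smat2 (a : Cfg2 N m) (l : List (Fin N)) : ‖prodW (Smat2 a) l‖ ≤ 1 := by
  induction l with
  | nil => simp
  | cons x l ih =>
    cases l with
    | nil => simp
    | cons y l =>
      rw [prodW_cons_cons, norm_mul]
      calc _ ≤ 1 * 1 := mul_le_mul (norm_Smat2_le a x y) ih (norm_nonneg _) zero_le_one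
        _ = 1 := one_mul 1

lemma Smat2_add_single (a : Cfg2 N m) (e : Edge N) (u w : Fin N) :
    Smat2 (a + Pi.single e 1) u w =
      ph (((phiB u w).1 (e.1.1, e.1.2) : ℤ) : ZMod m) * Smat2 a u w := by
  obtain ⟨⟨x, y⟩, hxy⟩ := e
  simp only at hxy
  rcases lt_trichotomy u w with h | h | h
  · rw [Smat2_lt _ h, Smat2_lt _ h, Pi.add_apply, ph_add, mul_comm, phiB_fst]
    congr 2
    have h1 : ¬ ((x, y) = (w, u)) := by
      intro h2; rw [Prod.mk.injEq] at h2
      rw [h2.1, h2.2] at hxy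
      exact absurd h (not_lt.2 hxy.le)
    rw [if_neg h1, sub_zero]
    by_cases h3 : (x, y) = (u, w)
    · rw [if_pos h3]
      rw [Prod.mk.injEq] at h3
      obtain ⟨rfl, rfl⟩ := h3
      rw [Pi.single_eq_same]; simp
    · rw [if_neg h3, Pi.single_eq_of_ne]
      · simp
      · intro h4
        exact h3 (congrArg Subtype.val h4).symm
  · subst h
    rw [Smat2_diag, Smat2_diag, mul_zero]
  · rw [Smat2_gt _ h, Smat2_gt _ h, Pi.add_apply, ph_add, map_mul, mul_comm, phiB_fst]
    congr 1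
    have h1 : ¬ ((x, y) = (u, w)) := by
      intro h2; rw [Prod.mk.injEq] at h2
      rw [h2.1, h2.2] at hxy
      exact absurd h (not_lt.2 hxy.le)
    rw [if_neg h1, zero_sub, ← ph_neg]
    congr 1
    by_cases h3 : (x, y) = (w, u)
    · rw [if_pos h3]
      rw [Prod.mk.injEq] at h3
      obtain ⟨rfl, rfl⟩ := h3
      rw [Pi.single_eq_same]; simp
    · rw [if_neg h3, Pi.single_eq_of_ne]
      · simp
      · intro h4
        exact h3 (congrArg Subtype.val h4).symm

lemma prodW_add_single2 (a : Cfg2 N m) (e : Edge N) (l : List (Fin N)) :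
    prodW (Smat2 (a + Pi.single e 1)) l =
      ph (((wt phiB l).1 (e.1.1, e.1.2) : ℤ) : ZMod m) * prodW (Smat2 a) l := by
  induction l with
  | nil => simp [ph_zero]
  | cons u l ih =>
    cases l with
    | nil => simp [ph_zero]
    | cons w l =>
      rw [prodW_cons_cons, prodW_cons_cons, wt_cons_cons, Prod.fst_add, Pi.add_apply, Int.cast_add,
        ph_add, ih, Smat2_add_single]
      ring

lemma ph_int_ne_one (z : ℤ) (hz : z ≠ 0) (hzm : |z| < m) : ph ((z : ℤ) : ZMod m) ≠ 1 := by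
  intro h
  have h1 : ((z : ℤ) : ZMod m) = 0 := by
    apply ZMod.injective_stdAddChar
    rw [AddChar.map_zero_eq_one]
    exact h
  rw [ZMod.intCast_zmod_eq_zero_iff_dvd] at h1
  have h2 := Int.le_of_dvd (abs_pos.2 hz) ((dvd_abs _ _).2 h1)
  linarith

lemma re_sum_prodW_le (l : List (Fin N)) (hl : l.length ≤ m) :
    (∑ a : Cfg2 N m, prodW (Smat2 a) l).re ≤
      if wt phiB l = 0 then (Fintype.card (Cfg2 N m) : ℝ) else 0 := by
  split_ifs with h
  · refine (Complex.re_le_norm _).trans ((norm_sum_le _ _).trans ?_)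
    refine (Finset.sum_le_sum (fun a _ => norm_prodW_Smat2 a l)).trans ?_
    rw [Finset.sum_const, Finset.card_univ, nsmul_eq_mul, mul_one]
  · have hP' : (wt phiB l).1 ≠ 0 ∨ (wt phiB l).2 ≠ 0 := by
      by_contra hcon
      push Not at hcon
      exact h (Prod.ext hcon.1 hcon.2)
    rcases hP' with h | h
    · obtain ⟨⟨x, y⟩, he⟩ := Function.ne_iff.1 h
      rw [Pi.zero_apply] at he
      obtain ⟨x, y, hxy, he⟩ : ∃ x y : Fin N, x < y ∧ (wt phiB l).1 (x, y) ≠ 0 := by
        rcases lt_trichotomy x y with h1 | h1 | h1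
        · exact ⟨x, y, h1, he⟩
        · exfalso
          subst h1
          have := wtB_swap l x x
          exact he (by linarith)
        · refine ⟨y, x, h1, ?_⟩
          rw [wtB_swap]
          exact neg_ne_zero.2 he
      set e : Edge N := ⟨(x, y), hxy⟩ with hedef
      have h3 : ∑ a : Cfg2 N m, prodW (Smat2 (a + Pi.single e 1)) l =
          ∑ a : Cfg2 N m, prodW (Smat2 a) l :=
        Fintype.sum_equiv (Equiv.addRight (Pi.single e 1)) _ _ (fun a => rfl)
      simp only [prodW_add_single2] at h3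
      rw [← Finset.mul_sum] at h3
      have h4 : ph (((wt phiB l).1 (e.1.1, e.1.2) : ℤ) : ZMod m) ≠ 1 := by
        apply ph_int_ne_one _ he
        rcases abs_wtB_le l x y with h5 | h5
        · have : (l.length : ℤ) ≤ m := by exact_mod_cast hl
          exact lt_of_le_of_lt h5 (by linarith)
        · exfalso
          rw [h5] at he
          simp at he
      have h5 : (ph (((wt phiB l).1 (e.1.1, e.1.2) : ℤ) : ZMod m) - 1) *
          ∑ a : Cfg2 N m, prodW (Smat2 a) l = 0 := by
        rw [sub_mul, h3, one_mul, sub_self]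
      rcases mul_eq_zero.1 h5 with h6 | h6
      · exact absurd (sub_eq_zero.1 h6) h4
      · rw [h6]; simp
    · obtain ⟨x, he⟩ := Function.ne_iff.1 h
      rw [Pi.zero_apply] at he
      obtain ⟨A, B, h1⟩ := wtB_snd_ne l x he
      have h2 : ∑ a : Cfg2 N m, prodW (Smat2 a) l = 0 := by
        refine Finset.sum_eq_zero (fun a _ => ?_)
        rw [h1]
        exact prodW_eq_zero _ _ _ _ _ (Smat2_diag a x)
      rw [h2]; simp

theorem sum_trace_le2 (N m n : ℕ) [NeZero m] (hn : n < m) :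
    (∑ a : Cfg2 N m, ((Smat2 a) ^ n).trace).re ≤
      (Fintype.card (Cfg2 N m) : ℝ) * ((CW (phiB (V := Fin N)) n).card : ℝ) := by
  classical
  have h0 : ∑ a : Cfg2 N m, ((Smat2 a) ^ n).trace =
      ∑ l ∈ lists (Fin N) (n + 1), ∑ a : Cfg2 N m,
          if l.head? = l.getLast? then prodW (Smat2 a) l else 0 := by
    rw [Finset.sum_comm]
    exact Finset.sum_congr rfl (fun a _ => trace_pow_eq _ n)
  rw [h0, Complex.re_sum]
  calc ∑ l ∈ lists (Fin N) (n + 1), (∑ a : Cfg2 N m,
          if l.head? = l.getLast? then prodW (Smat2 a) l else 0).re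
      ≤ ∑ l ∈ lists (Fin N) (n + 1),
          if IsC phiB l then (Fintype.card (Cfg2 N m) : ℝ) else 0 := by
        refine Finset.sum_le_sum (fun l hl => ?_)
        rw [mem_lists] at hl
        by_cases h1 : l.head? = l.getLast?
        · simp only [h1, if_true]
          refine (re_sum_prodW_le l (by omega)).trans (le_of_eq ?_)
          simp [IsC, h1]
        · simp only [h1, if_false]
          simp [IsC, h1]
    _ = (Fintype.card (Cfg2 N m) : ℝ) * ((CW (phiB (V := Fin N)) n).card : ℝ) := by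
        rw [← Finset.sum_filter, Finset.sum_const, nsmul_eq_mul, mul_comm]
        unfold CW
        congr!

/-- Main bound, balanced version. -/
theorem sum_trace_pow_le2 (N m q : ℕ) [NeZero m] (hN : 0 < N) (hq : 2 * q < m) :
    (∑ a : Cfg2 N m, ((Smat2 a) ^ (2 * q)).trace).re ≤
      (Fintype.card (Cfg2 N m) : ℝ) * (4 ^ q * (N : ℝ) ^ (q + 1) *
        (1 + 8 * (q : ℝ) ^ 3 / (N : ℝ)) ^ q) := by
  have : Inhabited (Fin N) := ⟨⟨0, hN⟩⟩
  have h := card_CW_bound' (phiB (V := Fin N)) good_phiB q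
  rw [Fintype.card_fin] at h
  exact (sum_trace_le2 N m (2 * q) hq).trans (mul_le_mul_of_nonneg_left h (by positivity))

end Main2

end Pool.Agent.MP_9cec2c_lc.Flat
end
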