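import Mathlib
import Pool.Agent.Lib.MP_9cec2c_lc.Mg.G001
import Pool.Agent.Lib.MP_9cec2c_lc.Mg.G007
import Pool.Agent.Lib.MP_9cec2c_lc.Mg.G058
import Pool.Agent.Lib.MP_9cec2c_lc.Mg.G006

section

/-!
FM8e: Hermitian version of FM8c: consequences of the trace bound for `Smat2`.
-/

set_option autoImplicit false

namespace Pool.Agent.MP_9cec2c_lc.Flat

open Finset Matrix

section LinAlg2

variable {N : ℕ}

lemma sum_norm_sq_eq_trace (B : Matrix (Fin N) (Fin N) ℂ) :
    ∑ u, ∑ v, ‖B u v‖ ^ 2 = (B * B.conjTranspose).trace.re := by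
  rw [Matrix.trace, Complex.re_sum]
  refine Finset.sum_congr rfl (fun u _ => ?_)
  rw [Matrix.diag_apply, Matrix.mul_apply, Complex.re_sum]
  refine Finset.sum_congr rfl (fun v _ => ?_)
  rw [Matrix.conjTranspose_apply, ← Complex.normSq_eq_norm_sq]
  have : B u v * star (B u v) = ((Complex.normSq (B u v) : ℝ) : ℂ) := Complex.mul_conj _
  rw [this, Complex.ofReal_re]

/-- Cauchy-Schwarz. -/
lemma norm_sum_mul_sq_le {ι : Type*} (s : Finset ι) (x y : ι → ℂ) :
    ‖∑ i ∈ s, x i * y i‖ ^ 2 ≤ (∑ i ∈ s, ‖x i‖ ^ 2) * ∑ i ∈ s, ‖y i‖ ^ 2 := by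
  have h1 : ‖∑ i ∈ s, x i * y i‖ ≤ ∑ i ∈ s, ‖x i‖ * ‖y i‖ := by
    refine (norm_sum_le _ _).trans (le_of_eq ?_)
    exact Finset.sum_congr rfl (fun i _ => norm_mul _ _)
  refine (pow_le_pow_left₀ (norm_nonneg _) h1 2).trans ?_
  exact Finset.sum_mul_sq_le_sq_mul_sq s (fun i => ‖x i‖) (fun i => ‖y i‖)

/-- `|B w|^2 ≤ ‖B‖_HS^2 |w|^2`. -/
lemma sum_mulVec_norm_sq_le (B : Matrix (Fin N) (Fin N) ℂ) (w : Fin N → ℂ) :
    ∑ u, ‖(B *ᵥ w) u‖ ^ 2 ≤ (B * B.conjTranspose).trace.re * ∑ v, ‖w v‖ ^ 2 := by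
  rw [← sum_norm_sq_eq_trace, Finset.sum_mul]
  refine Finset.sum_le_sum (fun u _ => ?_)
  exact norm_sum_mul_sq_le Finset.univ (fun v => B u v) w

lemma conjTranspose_pow_herm (S : Matrix (Fin N) (Fin N) ℂ) (hS : S.IsHermitian) (q : ℕ) :
    (S ^ q).conjTranspose = S ^ q := by
  rw [Matrix.conjTranspose_pow, hS]

lemma pow_mul_conjTranspose (S : Matrix (Fin N) (Fin N) ℂ) (hS : S.IsHermitian) (q : ℕ) :
    S ^ q * (S ^ q).conjTranspose = S ^ (2 * q) := by
  rw [conjTranspose_pow_herm S hS, ← pow_add, two_mul]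

lemma trace_pow_even_nonneg2 (S : Matrix (Fin N) (Fin N) ℂ) (hS : S.IsHermitian) (q : ℕ) :
    0 ≤ (S ^ (2 * q)).trace.re := by
  rw [← pow_mul_conjTranspose S hS, ← sum_norm_sq_eq_trace]
  positivity

lemma pow_mulVec_eig2 (S : Matrix (Fin N) (Fin N) ℂ) (l : ℂ) (psi : Fin N → ℂ)
    (h : S *ᵥ psi = l • psi) (q : ℕ) : (S ^ q) *ᵥ psi = (l ^ q) • psi := by
  induction q with
  | zero => simp
  | succ q ih =>
    rw [pow_succ, ← Matrix.mulVec_mulVec, h, Matrix.mulVec_smul, ih, smul_smul, pow_succ,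
      mul_comm]

/-- (T1) every eigenvalue satisfies `l^(2q) ≤ trace (S^(2q))`. -/
theorem eig_pow_le_trace2 (S : Matrix (Fin N) (Fin N) ℂ) (hS : S.IsHermitian) (l : ℝ)
    (psi : Fin N → ℂ) (h1 : ∑ v, ‖psi v‖ ^ 2 = 1) (h2 : ∀ u, ∑ v, S u v * psi v = l * psi u)
    (q : ℕ) : l ^ (2 * q) ≤ (S ^ (2 * q)).trace.re := by
  have h3 : S *ᵥ psi = (l : ℂ) • psi := by
    ext u
    rw [Matrix.mulVec, dotProduct, h2 u, Pi.smul_apply, smul_eq_mul]
  have h4 := sum_mulVec_norm_sq_le (S ^ q) psi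
  rw [h1, mul_one, pow_mul_conjTranspose S hS, pow_mulVec_eig2 S l psi h3 q] at h4
  refine le_trans (le_of_eq ?_) h4
  have : ∀ u, ‖(((l : ℂ) ^ q) • psi) u‖ ^ 2 = l ^ (2 * q) * ‖psi u‖ ^ 2 := by
    intro u
    rw [Pi.smul_apply, smul_eq_mul, norm_mul, norm_pow, Complex.norm_real, Real.norm_eq_abs,
      mul_pow, ← pow_mul, mul_comm q 2, (even_two_mul q).pow_abs]
  rw [Finset.sum_congr rfl (fun u _ => this u), ← Finset.mul_sum, h1, mul_one]

/-- The moments of `S` at `w`. -/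
noncomputable def mom2 (S : Matrix (Fin N) (Fin N) ℂ) (w : Fin N → ℂ) (k : ℕ) : ℝ :=
  (star w ⬝ᵥ ((S ^ k) *ᵥ w)).re

lemma dot_pow_add (S : Matrix (Fin N) (Fin N) ℂ) (hS : S.IsHermitian) (w : Fin N → ℂ) (j k : ℕ) :
    star w ⬝ᵥ ((S ^ (j + k)) *ᵥ w) = star ((S ^ j) *ᵥ w) ⬝ᵥ ((S ^ k) *ᵥ w) := by
  rw [pow_add, ← Matrix.mulVec_mulVec, Matrix.dotProduct_mulVec, Matrix.star_mulVec,
    conjTranspose_pow_herm S hS]

lemma mom2_add (S : Matrix (Fin N) (Fin N) ℂ) (hS : S.IsHermitian) (w : Fin N → ℂ) (j k : ℕ) :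
    mom2 S w (j + k) = (∑ u, star (((S ^ j) *ᵥ w) u) * ((S ^ k) *ᵥ w) u).re := by
  unfold mom2
  rw [dot_pow_add S hS]
  rfl

lemma mom2_even (S : Matrix (Fin N) (Fin N) ℂ) (hS : S.IsHermitian) (w : Fin N → ℂ) (j : ℕ) :
    mom2 S w (2 * j) = ∑ u, ‖((S ^ j) *ᵥ w) u‖ ^ 2 := by
  rw [two_mul, mom2_add S hS, Complex.re_sum]
  refine Finset.sum_congr rfl (fun u _ => ?_)
  rw [← Complex.normSq_eq_norm_sq]
  have : star (((S ^ j) *ᵥ w) u) * ((S ^ j) *ᵥ w) u =
      ((Complex.normSq (((S ^ j) *ᵥ w) u) : ℝ) : ℂ) := by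
    rw [mul_comm]; exact Complex.mul_conj _
  rw [this, Complex.ofReal_re]

lemma mom2_sq_le (S : Matrix (Fin N) (Fin N) ℂ) (hS : S.IsHermitian) (w : Fin N → ℂ) (j k : ℕ) :
    mom2 S w (j + k) ^ 2 ≤ mom2 S w (2 * j) * mom2 S w (2 * k) := by
  rw [mom2_add S hS, mom2_even S hS, mom2_even S hS]
  have h1 := norm_sum_mul_sq_le Finset.univ (fun u => star (((S ^ j) *ᵥ w) u))
    (fun u => ((S ^ k) *ᵥ w) u)
  have h2 : (∑ u, star (((S ^ j) *ᵥ w) u) * ((S ^ k) *ᵥ w) u).re ^ 2 ≤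
      ‖∑ u, star (((S ^ j) *ᵥ w) u) * ((S ^ k) *ᵥ w) u‖ ^ 2 := by
    rw [← sq_abs (Complex.re _)]
    exact pow_le_pow_left₀ (abs_nonneg _) (Complex.abs_re_le_norm _) 2
  refine h2.trans (h1.trans (le_of_eq ?_))
  simp only [norm_star]

lemma mom2_even_nonneg (S : Matrix (Fin N) (Fin N) ℂ) (hS : S.IsHermitian) (w : Fin N → ℂ)
    (j : ℕ) : 0 ≤ mom2 S w (2 * j) := by
  rw [mom2_even S hS]
  positivity

lemma mom2_zero (S : Matrix (Fin N) (Fin N) ℂ) (w : Fin N → ℂ) :
    mom2 S w 0 = ∑ v, ‖w v‖ ^ 2 := by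
  unfold mom2
  rw [pow_zero, Matrix.one_mulVec, dotProduct, Complex.re_sum]
  refine Finset.sum_congr rfl (fun u _ => ?_)
  rw [← Complex.normSq_eq_norm_sq]
  have : star (w u) * w u = ((Complex.normSq (w u) : ℝ) : ℂ) := by
    rw [mul_comm]; exact Complex.mul_conj _
  rw [Pi.star_apply, this, Complex.ofReal_re]

lemma mom2_one (S : Matrix (Fin N) (Fin N) ℂ) (w : Fin N → ℂ) :
    mom2 S w 1 = (∑ u, ∑ v, (starRingEnd ℂ) (w u) * S u v * w v).re := by
  unfold mom2
  rw [pow_one, dotProduct]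
  congr 1
  refine Finset.sum_congr rfl (fun u _ => ?_)
  rw [Matrix.mulVec, dotProduct, Finset.mul_sum]
  refine Finset.sum_congr rfl (fun v _ => ?_)
  rw [Pi.star_apply]
  show star (w u) * (S u v * w v) = star (w u) * S u v * w v
  ring

lemma mom2_ratio (S : Matrix (Fin N) (Fin N) ℂ) (hS : S.IsHermitian) (w : Fin N → ℂ) (q : ℕ) :
    mom2 S w 2 * mom2 S w (2 * q) ≤ mom2 S w 0 * mom2 S w (2 * (q + 1)) := by
  induction q with
  | zero => rw [mul_zero, zero_add, mul_one, mul_comm]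
  | succ q ih =>
    have h0 := mom2_even_nonneg S hS w q
    have h1 := mom2_even_nonneg S hS w (q + 1)
    have h2 := mom2_even_nonneg S hS w (q + 2)
    have h3 : mom2 S w (2 * (q + 1)) ^ 2 ≤ mom2 S w (2 * q) * mom2 S w (2 * (q + 2)) := by
      have := mom2_sq_le S hS w q (q + 2)
      rwa [show q + (q + 2) = 2 * (q + 1) by ring] at this
    have h4 : 0 ≤ mom2 S w 0 := by
      have := mom2_even_nonneg S hS w 0
      simpa using this
    have h5 : 0 ≤ mom2 S w 2 := by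
      have := mom2_even_nonneg S hS w 1
      simpa using this
    rcases h0.lt_or_eq with h | h
    · have h6 : mom2 S w (2 * q) * (mom2 S w 2 * mom2 S w (2 * (q + 1))) ≤
          mom2 S w (2 * q) * (mom2 S w 0 * mom2 S w (2 * (q + 1 + 1))) := by
        calc mom2 S w (2 * q) * (mom2 S w 2 * mom2 S w (2 * (q + 1)))
            = (mom2 S w 2 * mom2 S w (2 * q)) * mom2 S w (2 * (q + 1)) := by ring
          _ ≤ (mom2 S w 0 * mom2 S w (2 * (q + 1))) * mom2 S w (2 * (q + 1)) :=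
              mul_le_mul_of_nonneg_right ih h1
          _ = mom2 S w 0 * (mom2 S w (2 * (q + 1)) ^ 2) := by ring
          _ ≤ mom2 S w 0 * (mom2 S w (2 * q) * mom2 S w (2 * (q + 2))) :=
              mul_le_mul_of_nonneg_left h3 h4
          _ = mom2 S w (2 * q) * (mom2 S w 0 * mom2 S w (2 * (q + 1 + 1))) := by ring
      exact le_of_mul_le_mul_left h6 h
    · rw [← h, zero_mul] at h3
      have h7 : mom2 S w (2 * (q + 1)) = 0 := by
        have := le_antisymm h3 (sq_nonneg _)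
        exact pow_eq_zero_iff (two_ne_zero) |>.1 this
      rw [h7, mul_zero]
      exact mul_nonneg h4 h2

lemma mom2_two_pow_le (S : Matrix (Fin N) (Fin N) ℂ) (hS : S.IsHermitian) (w : Fin N → ℂ)
    (q : ℕ) : mom2 S w 2 ^ (q + 1) ≤ mom2 S w 0 ^ q * mom2 S w (2 * (q + 1)) := by
  have h5 : 0 ≤ mom2 S w 2 := by
    have := mom2_even_nonneg S hS w 1
    simpa using this
  have h4 : 0 ≤ mom2 S w 0 := by
    have := mom2_even_nonneg S hS w 0
    simpa using this
  induction q with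
  | zero => simp
  | succ q ih =>
    calc mom2 S w 2 ^ (q + 1 + 1) = mom2 S w 2 * mom2 S w 2 ^ (q + 1) := by ring
      _ ≤ mom2 S w 2 * (mom2 S w 0 ^ q * mom2 S w (2 * (q + 1))) :=
          mul_le_mul_of_nonneg_left ih h5
      _ = mom2 S w 0 ^ q * (mom2 S w 2 * mom2 S w (2 * (q + 1))) := by ring
      _ ≤ mom2 S w 0 ^ q * (mom2 S w 0 * mom2 S w (2 * (q + 1 + 1))) :=
          mul_le_mul_of_nonneg_left (mom2_ratio S hS w (q + 1)) (by positivity)
      _ = _ := by ring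

lemma mom2_even_le_trace (S : Matrix (Fin N) (Fin N) ℂ) (hS : S.IsHermitian) (w : Fin N → ℂ)
    (q : ℕ) : mom2 S w (2 * q) ≤ (S ^ (2 * q)).trace.re * mom2 S w 0 := by
  have h := sum_mulVec_norm_sq_le (S ^ q) w
  rw [pow_mul_conjTranspose S hS] at h
  rw [mom2_zero, mom2_even S hS]
  exact h

/-- (T2) bound of the quadratic form by the trace of an even power. -/
theorem form_pow_le_trace2 (S : Matrix (Fin N) (Fin N) ℂ) (hS : S.IsHermitian)
    (w : Fin N → ℂ) (q : ℕ) (hq : 1 ≤ q) :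
    ((∑ u, ∑ v, (starRingEnd ℂ) (w u) * S u v * w v).re) ^ (2 * q) ≤
      (S ^ (2 * q)).trace.re * (∑ v, ‖w v‖ ^ 2) ^ (2 * q) := by
  obtain ⟨q, rfl⟩ : ∃ p, q = p + 1 := ⟨q - 1, by omega⟩
  rw [← mom2_one, ← mom2_zero S w]
  have h5 : 0 ≤ mom2 S w 2 := by
    have := mom2_even_nonneg S hS w 1
    simpa using this
  have h4 : 0 ≤ mom2 S w 0 := by
    have := mom2_even_nonneg S hS w 0
    simpa using this
  have h1 : mom2 S w 1 ^ 2 ≤ mom2 S w 0 * mom2 S w 2 := by
    have := mom2_sq_le S hS w 0 1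
    simpa using this
  calc mom2 S w 1 ^ (2 * (q + 1)) = (mom2 S w 1 ^ 2) ^ (q + 1) := by rw [pow_mul]
    _ ≤ (mom2 S w 0 * mom2 S w 2) ^ (q + 1) := pow_le_pow_left₀ (sq_nonneg _) h1 _
    _ = mom2 S w 0 ^ (q + 1) * mom2 S w 2 ^ (q + 1) := by rw [mul_pow]
    _ ≤ mom2 S w 0 ^ (q + 1) * (mom2 S w 0 ^ q * mom2 S w (2 * (q + 1))) :=
        mul_le_mul_of_nonneg_left (mom2_two_pow_le S hS w q) (by positivity)
    _ ≤ mom2 S w 0 ^ (q + 1) * (mom2 S w 0 ^ q *
        ((S ^ (2 * (q + 1))).trace.re * mom2 S w 0)) := by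
        refine mul_le_mul_of_nonneg_left ?_ (by positivity)
        exact mul_le_mul_of_nonneg_left (mom2_even_le_trace S hS w (q + 1)) (by positivity)
    _ = _ := by ring

/-- (T2') if `trace (S^(2q)) ≤ R^(2q)` then `|w^* S w| ≤ R |w|^2`. -/
theorem form_le_of_trace2 (S : Matrix (Fin N) (Fin N) ℂ) (hS : S.IsHermitian)
    (q : ℕ) (hq : 1 ≤ q) (R : ℝ) (hR : 0 ≤ R) (h : (S ^ (2 * q)).trace.re ≤ R ^ (2 * q))
    (w : Fin N → ℂ) :
    |(∑ u, ∑ v, (starRingEnd ℂ) (w u) * S u v * w v).re| ≤ R * ∑ v, ‖w v‖ ^ 2 := by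
  have h0 : 0 ≤ ∑ v, ‖w v‖ ^ 2 := Finset.sum_nonneg (fun v _ => sq_nonneg _)
  have h1 := form_pow_le_trace2 S hS w q hq
  have h2 : ((∑ u, ∑ v, (starRingEnd ℂ) (w u) * S u v * w v).re) ^ (2 * q) ≤
      (R * ∑ v, ‖w v‖ ^ 2) ^ (2 * q) := by
    rw [mul_pow]
    exact h1.trans (mul_le_mul_of_nonneg_right h (by positivity))
  rw [← (even_two_mul q).pow_abs] at h2
  exact le_of_pow_le_pow_left₀ (by omega) (mul_nonneg hR h0) h2

theorem eig_le_of_trace2 (S : Matrix (Fin N) (Fin N) ℂ) (hS : S.IsHermitian)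
    (q : ℕ) (hq : 1 ≤ q) (R : ℝ) (hR : 0 ≤ R) (h : (S ^ (2 * q)).trace.re ≤ R ^ (2 * q))
    (l : ℝ) (psi : Fin N → ℂ) (h1 : ∑ v, ‖psi v‖ ^ 2 = 1)
    (h2 : ∀ u, ∑ v, S u v * psi v = l * psi u) : |l| ≤ R := by
  have h3 := (eig_pow_le_trace2 S hS l psi h1 h2 q).trans h
  rw [← (even_two_mul q).pow_abs] at h3
  exact le_of_pow_le_pow_left₀ (by omega) hR h3

end LinAlg2

section Tails2

variable {N m : ℕ} [NeZero m]

open Classical in
/-- (O1) number of configurations with a large trace. -/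
theorem card_trace_gt_le2 (N m q : ℕ) [NeZero m] (hN : 0 < N) (hqm : 2 * q < m) (δ : ℝ)
    (hδ : 0 ≤ δ) :
    ((Finset.univ.filter (fun a : Cfg2 N m =>
      ((2 + δ) * Real.sqrt N) ^ (2 * q) < ((Smat2 a) ^ (2 * q)).trace.re)).card : ℝ) ≤
    N * (1 + 8 * (q : ℝ) ^ 3 / N) ^ q * ((1 + δ / 2) ^ (2 * q))⁻¹ *
      (Fintype.card (Cfg2 N m) : ℝ) := by
  set F := (Finset.univ.filter (fun a : Cfg2 N m =>
      ((2 + δ) * Real.sqrt N) ^ (2 * q) < ((Smat2 a) ^ (2 * q)).trace.re)) with hF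
  have hNr : (0 : ℝ) < N := by exact_mod_cast hN
  have hR : 0 < ((2 + δ) * Real.sqrt N) ^ (2 * q) := by
    have : 0 < Real.sqrt N := Real.sqrt_pos.2 hNr
    positivity
  have h1 : (F.card : ℝ) * ((2 + δ) * Real.sqrt N) ^ (2 * q) ≤
      ∑ a : Cfg2 N m, ((Smat2 a) ^ (2 * q)).trace.re := by
    rw [← nsmul_eq_mul, ← Finset.sum_const]
    refine (Finset.sum_le_sum (fun a ha => (Finset.mem_filter.1 ha).2.le)).trans ?_
    exact Finset.sum_le_sum_of_subset_of_nonneg (Finset.subset_univ _)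
      (fun a _ _ => trace_pow_even_nonneg2 _ (Smat2_isHermitian a) q)
  have h2 := sum_trace_pow_le2 N m q hN hqm
  rw [Complex.re_sum] at h2
  have h2 := h1.trans h2
  rw [← le_div_iff₀ hR] at h2
  refine h2.trans (le_of_eq ?_)
  rw [rpow_helper]
  have h3 : (1 + δ / 2) ^ (2 * q) ≠ 0 := by positivity
  have h4 : (N : ℝ) ^ (q + 1) = (N : ℝ) * (N : ℝ) ^ q := by ring
  rw [h4]
  field_simp

/-- The average of any function dominated by the trace (for instance the largest eigenvalue). -/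
theorem sum_le_of_pow_le_trace2 (N m q : ℕ) [NeZero m] (hN : 0 < N) (hq : 1 ≤ q)
    (hqm : 2 * q < m) (lam : Cfg2 N m → ℝ)
    (hlam : ∀ a, lam a ^ (2 * q) ≤ ((Smat2 a) ^ (2 * q)).trace.re) (R : ℝ) (hR : 0 ≤ R)
    (h : 4 ^ q * (N : ℝ) ^ (q + 1) * (1 + 8 * (q : ℝ) ^ 3 / (N : ℝ)) ^ q ≤ R ^ (2 * q)) :
    ∑ a : Cfg2 N m, lam a ≤ (Fintype.card (Cfg2 N m) : ℝ) * R := by
  have hc : (0 : ℝ) < (Fintype.card (Cfg2 N m) : ℝ) := by
    have : 0 < Fintype.card (Cfg2 N m) := Fintype.card_pos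
    exact_mod_cast this
  set C : ℝ := (Fintype.card (Cfg2 N m) : ℝ) with hC
  have h1 : (∑ a : Cfg2 N m, C⁻¹ * lam a) ^ (2 * q) ≤ ∑ a : Cfg2 N m, C⁻¹ * lam a ^ (2 * q) := by
    refine Real.pow_arith_mean_le_arith_mean_pow_of_even _ _ _ (fun _ _ => by positivity) ?_
      (even_two_mul q)
    rw [Finset.sum_const, Finset.card_univ, nsmul_eq_mul, ← hC]
    exact mul_inv_cancel₀ hc.ne'
  have h2 : ∑ a : Cfg2 N m, C⁻¹ * lam a ^ (2 * q) ≤ R ^ (2 * q) := by
    rw [← Finset.mul_sum]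
    have h0 := sum_trace_pow_le2 N m q hN hqm
    rw [Complex.re_sum] at h0
    have h3 := (Finset.sum_le_sum
      (fun a (_ : a ∈ (Finset.univ : Finset (Cfg2 N m))) => hlam a)).trans h0
    calc C⁻¹ * ∑ a : Cfg2 N m, lam a ^ (2 * q) ≤ C⁻¹ * (C * (4 ^ q * (N : ℝ) ^ (q + 1) *
        (1 + 8 * (q : ℝ) ^ 3 / (N : ℝ)) ^ q)) := mul_le_mul_of_nonneg_left h3 (by positivity)
      _ = 4 ^ q * (N : ℝ) ^ (q + 1) * (1 + 8 * (q : ℝ) ^ 3 / (N : ℝ)) ^ q := by
        rw [← mul_assoc, inv_mul_cancel₀ hc.ne', one_mul]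
      _ ≤ R ^ (2 * q) := h
  have h3 := h1.trans h2
  rw [← (even_two_mul q).pow_abs] at h3
  have h4 := le_of_pow_le_pow_left₀ (by omega) hR h3
  have h5 := (le_abs_self _).trans h4
  rw [← Finset.mul_sum] at h5
  calc ∑ a : Cfg2 N m, lam a = C * (C⁻¹ * ∑ a : Cfg2 N m, lam a) := by
        rw [← mul_assoc, mul_inv_cancel₀ hc.ne', one_mul]
    _ ≤ C * R := mul_le_mul_of_nonneg_left h5 hc.le

/-- The average of the largest eigenvalue, `R = 2 sqrt N (1 + δ)`. -/
theorem sum_lam_le2 (N m q : ℕ) [NeZero m] (hN : 0 < N) (hq : 1 ≤ q) (hqm : 2 * q < m)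
    (lam : Cfg2 N m → ℝ)
    (hlam : ∀ a, lam a ^ (2 * q) ≤ ((Smat2 a) ^ (2 * q)).trace.re) (δ : ℝ) (hδ : 0 ≤ δ)
    (h : (N : ℝ) * (1 + 8 * (q : ℝ) ^ 3 / (N : ℝ)) ^ q ≤ (1 + δ) ^ (2 * q)) :
    ∑ a : Cfg2 N m, lam a ≤ (Fintype.card (Cfg2 N m) : ℝ) * (2 * Real.sqrt N * (1 + δ)) := by
  refine sum_le_of_pow_le_trace2 N m q hN hq hqm lam hlam _ (by positivity) ?_
  have h1 : (2 * Real.sqrt N * (1 + δ)) ^ (2 * q) = 4 ^ q * (N : ℝ) ^ q * (1 + δ) ^ (2 * q) := by
    have := rpow_helper N q (2 * δ)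
    rw [show (2 + 2 * δ) * Real.sqrt N = 2 * Real.sqrt N * (1 + δ) by ring,
      show 1 + 2 * δ / 2 = 1 + δ by ring] at this
    exact this
  rw [h1]
  calc 4 ^ q * (N : ℝ) ^ (q + 1) * (1 + 8 * (q : ℝ) ^ 3 / (N : ℝ)) ^ q
      = 4 ^ q * (N : ℝ) ^ q * ((N : ℝ) * (1 + 8 * (q : ℝ) ^ 3 / (N : ℝ)) ^ q) := by ring
    _ ≤ _ := mul_le_mul_of_nonneg_left h (by positivity)

end Tails2

end Pool.Agent.MP_9cec2c_lc.Flat
end

section

/-!
# FN8: probability of the event (O1): closed walks, Hermitian case (`2 q < m`)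
-/

set_option autoImplicit false

open Matrix Finset

namespace Pool.Agent.MP_9cec2c_lc.Flat.Herm

/-- `T_2q ≤ 4^q N^(q+1) (1 + 10 q^3 / N)^q`. -/
theorem sum_trace_pow {N m : ℕ} [NeZero m] (hN : 0 < N) {q : ℕ} (hq : 1 ≤ q) (hm : 2 * q < m) :
    ∑ a : Cfg2 N m, (Smat2 a ^ (2 * q)).trace.re ≤
      4 ^ q * (N : ℝ) ^ (q + 1) * (1 + 10 * (q : ℝ) ^ 3 / N) ^ q *
        (m : ℝ) ^ Fintype.card (Edge N) := by
  have h := sum_trace_pow_le2 N m q hN hm
  rw [Complex.re_sum] at h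
  have hc : (Fintype.card (Cfg2 N m) : ℝ) = (m : ℝ) ^ Fintype.card (Edge N) := by
    rw [card_cfg2]; push_cast; rfl
  rw [hc] at h
  have h1 : (1 + 8 * (q : ℝ) ^ 3 / N) ^ q ≤ (1 + 10 * (q : ℝ) ^ 3 / N) ^ q := by
    apply pow_le_pow_left₀ (by positivity)
    gcongr
    norm_num
  calc ∑ a : Cfg2 N m, (Smat2 a ^ (2 * q)).trace.re
      ≤ (m : ℝ) ^ Fintype.card (Edge N) * (4 ^ q * (N : ℝ) ^ (q + 1) *
        (1 + 8 * (q : ℝ) ^ 3 / (N : ℝ)) ^ q) := h
    _ ≤ (m : ℝ) ^ Fintype.card (Edge N) * (4 ^ q * (N : ℝ) ^ (q + 1) *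
        (1 + 10 * (q : ℝ) ^ 3 / (N : ℝ)) ^ q) := by gcongr
    _ = _ := by ring

/-- `lamMax^(2q) ≤ tr S^(2q)`. -/
theorem lamMax_pow_le {N m : ℕ} [NeZero m] (hN : 0 < N) (a : Cfg2 N m) (q : ℕ) :
    lamMax (Smat2 a) ^ (2 * q) ≤ (Smat2 a ^ (2 * q)).trace.re := by
  have : Nonempty (Fin N) := ⟨⟨0, hN⟩⟩
  have hS : Sym (Smat2 a) := by
    first
      | exact fun i j => Smat2_conj a i j
      | exact Smat2_isHermitian a
  obtain ⟨ψ, hψ⟩ := exists_top hS
  have h1 : ∑ v, ‖ψ v‖ ^ 2 = 1 := hψ.unit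
  have h2 : ∀ u, ∑ v, Smat2 a u v * ψ v = (lamMax (Smat2 a) : ℂ) * ψ u :=
    fun u => congrFun hψ.eig u
  exact eig_pow_le_trace2 (Smat2 a) (Smat2_isHermitian a) _ ψ h1 h2 q

/-- (O1) fails with small frequency (Markov). -/
theorem prob_top {N m : ℕ} [NeZero m] (hN : 0 < N) {q : ℕ} (hq : 1 ≤ q) (hm : 2 * q < m)
    {n δ : ℝ} (hn : 0 < n) (hn2 : n ^ 2 = N) (hδ : 0 ≤ δ) :
    ({a : Cfg2 N m | ¬ lamMax (Smat2 a) ≤ (2 + δ) * n}.ncard : ℝ) ≤
      (N : ℝ) * (1 + 10 * (q : ℝ) ^ 3 / N) ^ q / (1 + δ / 2) ^ (2 * q) *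
        (m : ℝ) ^ Fintype.card (Edge N) := by
  classical
  have hNr : (0 : ℝ) < N := by exact_mod_cast hN
  have hsq : Real.sqrt N = n := by
    rw [← hn2]; exact Real.sqrt_sq hn.le
  have hc : (Fintype.card (Cfg2 N m) : ℝ) = (m : ℝ) ^ Fintype.card (Edge N) := by
    rw [card_cfg2]; push_cast; rfl
  have h := card_trace_gt_le2 N m q hN hm δ hδ
  rw [hc, hsq] at h
  have h1 : (1 + 8 * (q : ℝ) ^ 3 / N) ^ q ≤ (1 + 10 * (q : ℝ) ^ 3 / N) ^ q := by
    apply pow_le_pow_left₀ (by positivity)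
    gcongr
    norm_num
  have hsub : {a : Cfg2 N m | ¬ lamMax (Smat2 a) ≤ (2 + δ) * n} ⊆
      (↑(Finset.univ.filter (fun a : Cfg2 N m =>
        ((2 + δ) * n) ^ (2 * q) < ((Smat2 a) ^ (2 * q)).trace.re)) : Set (Cfg2 N m)) := by
    intro a ha
    have ha : (2 + δ) * n < lamMax (Smat2 a) := not_le.1 ha
    rw [Finset.mem_coe, Finset.mem_filter]
    refine ⟨Finset.mem_univ _, lt_of_lt_of_le ?_ (lamMax_pow_le hN a q)⟩
    exact pow_lt_pow_left₀ ha (by positivity) (by omega)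
  have h2 : ({a : Cfg2 N m | ¬ lamMax (Smat2 a) ≤ (2 + δ) * n}.ncard : ℝ) ≤
      ((Finset.univ.filter (fun a : Cfg2 N m =>
        ((2 + δ) * n) ^ (2 * q) < ((Smat2 a) ^ (2 * q)).trace.re)).card : ℝ) := by
    have := Set.ncard_le_ncard hsub (Finset.finite_toSet _)
    rw [Set.ncard_coe_finset] at this
    exact_mod_cast this
  refine h2.trans (h.trans ?_)
  rw [div_eq_mul_inv (_ * _)]
  refine mul_le_mul_of_nonneg_right ?_ (by positivity)
  refine mul_le_mul_of_nonneg_right ?_ (by positivity)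
  exact mul_le_mul_of_nonneg_left h1 hNr.le

end Pool.Agent.MP_9cec2c_lc.Flat.Herm
end

section

/-!
Pulling back a world along a substitution of the Boolean variables by functions of few variables,
and functions that are killed because some clause is false wherever they do not vanish.
-/

set_option autoImplicit false
set_option linter.unusedSectionVars false

namespace Pool.Agent.MP_9cec2c_lc.CQ

open Finset Frege

/-- Clauses. -/
abbrev Clause (V : Type) : Type := Finset (V × Bool)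

/-- The clause `C` is true. -/
def Holds {V : Type} (x : V → Bool) (C : Clause V) : Prop := ∃ l ∈ C, x l.1 = l.2

variable {K U V W : Type} [Field K] [AddCommGroup W] [Module K W]

/-- The composition with a map between cubes. -/
def pull (g : (U → Bool) → (V → Bool)) : Fun K V →ₗ[K] Fun K U := LinearMap.funLeft K K g

theorem pull_apply (g : (U → Bool) → (V → Bool)) (P : Fun K V) (x : U → Bool) :
    pull g P x = P (g x) := rfl

theorem pull_mul (g : (U → Bool) → (V → Bool)) (P Q : Fun K V) :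
    pull g (P * Q) = pull g P * pull g Q := rfl

theorem pull_one (g : (U → Bool) → (V → Bool)) : pull g (1 : Fun K V) = 1 := rfl

/-- Every coordinate of `g` depends on at most `k` coordinates. -/
def Narrow (k : ℕ) (g : (U → Bool) → (V → Bool)) : Prop :=
  ∀ v, ∃ Z : Finset U, Z.card ≤ k ∧ ∀ x y, (∀ u ∈ Z, x u = y u) → g x v = g y v

theorem pull_mem [Fintype U] {k : ℕ} {g : (U → Bool) → (V → Bool)} (hg : Narrow k g) {e : ℕ}
    {P : Fun K V} (hP : P ∈ Pol K V e) : pull g P ∈ Pol K U (k * e) := by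
  classical
  have key : ∀ M : Finset V, pull g (mon K M) ∈ Pol K U (k * M.card) := by
    intro M
    induction M using Finset.induction_on with
    | empty =>
      rw [mon_empty, pull_one]
      exact one_mem _
    | insert u M hu ih =>
      have h1 : pull g (mon K (insert u M)) = pull g (mon K {u}) * pull g (mon K M) := by
        rw [← pull_mul, mon_mul]
        rfl
      obtain ⟨Z, hZ, hZ'⟩ := hg u
      rw [h1, card_insert_of_notMem hu, mul_add, mul_one, add_comm]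
      refine mul_mem (Pol_mono hZ (mem_Pol_of_depends Z ?_)) ih
      intro x y hxy
      rw [pull_apply, pull_apply]
      unfold mon
      simp only [mem_singleton, forall_eq, hZ' x y hxy]
  unfold Pol at hP
  induction hP using Submodule.span_induction with
  | mem P hP =>
    obtain ⟨M, hM, rfl⟩ := hP
    exact Pol_mono (Nat.mul_le_mul_left k hM) (key M)
  | zero =>
    rw [map_zero]
    exact Submodule.zero_mem _
  | add f g _ _ hf hg =>
    rw [map_add]
    exact Submodule.add_mem _ hf hg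
  | smul c f _ hf =>
    rw [map_smul]
    exact Submodule.smul_mem _ c hf

open Classical in
/-- The clauses of `F` act as zero on the level 0. -/
def Kills (M : ℕ → Submodule K W) (act : Fun K V →ₗ[K] W →ₗ[K] W) (F : Set (Clause V)) : Prop :=
  ∀ D ∈ F, ∀ w ∈ M 0, act (fun x => if Holds x D then (0 : K) else 1) w = 0

variable {M : ℕ → Submodule K W} {act : Fun K U →ₗ[K] W →ₗ[K] W} {A : ℕ}

/-- The world pulled back along `g`. -/
theorem pull_world [Fintype U] (hW : World M act A) {k : ℕ} {g : (U → Bool) → (V → Bool)}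
    (hg : Narrow k g) : World (fun a => M (k * a)) (act.comp (pull g)) (A / k) := by
  have hk : k * (A / k) ≤ A := Nat.mul_div_le A k
  refine ⟨fun a e P w ha hP hw => ?_, fun a w ha hw => ?_, fun a e e' P Q w ha hP hQ hw => ?_⟩
  · have h1 : k * (a + e) ≤ A := (Nat.mul_le_mul_left k ha).trans hk
    have h2 := hW.act_mem (k * a) (k * e) (pull g P) w (by rw [← mul_add]; exact h1)
      (pull_mem hg hP) hw
    show act (pull g P) w ∈ M (k * (a + e))
    rw [mul_add]
    exact h2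
  · show act (pull g 1) w = w
    rw [pull_one]
    exact hW.act_one (k * a) w ((Nat.mul_le_mul_left k ha).trans hk) hw
  · have h1 : k * (a + e + e') ≤ A := (Nat.mul_le_mul_left k ha).trans hk
    show act (pull g (P * Q)) w = act (pull g P) (act (pull g Q) w)
    rw [pull_mul]
    exact hW.act_mul (k * a) (k * e) (k * e') _ _ w (by rw [← mul_add, ← mul_add]; exact h1)
      (pull_mem hg hP) (pull_mem hg hQ) hw

open Classical in
/-- A function of the variables in `Z` acts as zero if wherever it does not vanish some clause over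
`Z` is false. -/
theorem act_eq_zero [Fintype U] (hW : World M act A) {F : Set (Clause U)} (hF : Kills M act F)
    (Z : Finset U) (u : Fun K U) (hu : ∀ x y, (∀ v ∈ Z, x v = y v) → u x = u y)
    (hk : ∀ x, u x ≠ 0 → ∃ C ∈ F, (∀ l ∈ C, l.1 ∈ Z) ∧ ¬ Holds x C)
    (hA : Z.card + Z.card ≤ A) {w : W} (hw : w ∈ M 0) : act u w = 0 := by
  obtain ⟨ext, hext⟩ : ∃ ext : (Z → Bool) → U → Bool,
      ext = fun ρ v => if h : v ∈ Z then ρ ⟨v, h⟩ else false := ⟨_, rfl⟩
  obtain ⟨res, hres⟩ : ∃ res : (U → Bool) → Z → Bool, res = fun x z => x z := ⟨_, rfl⟩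
  obtain ⟨δ, hδ⟩ : ∃ δ : (Z → Bool) → Fun K U, δ = fun ρ x => if res x = ρ then 1 else 0 :=
    ⟨_, rfl⟩
  have h1 : ∀ x, ∀ v ∈ Z, ext (res x) v = x v := by
    intro x v hv
    rw [hext, hres]
    simp only [dif_pos hv]
  have h2 : u = ∑ ρ : Z → Bool, u (ext ρ) • δ ρ := by
    funext x
    rw [Finset.sum_apply, Finset.sum_eq_single (res x)]
    · rw [Pi.smul_apply, hδ]
      simp only [if_true, smul_eq_mul, mul_one]
      exact (hu _ _ (h1 x)).symm
    · intro ρ _ hρ
      rw [Pi.smul_apply, hδ]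
      simp only [if_neg (Ne.symm hρ), smul_zero]
    · intro h
      exact absurd (mem_univ _) h
  have h3 : ∀ ρ : Z → Bool, δ ρ ∈ Pol K U Z.card := by
    intro ρ
    refine mem_Pol_of_depends Z fun x y hxy => ?_
    have h4 : res x = res y := by
      rw [hres]
      funext z
      exact hxy z z.2
    rw [hδ]
    simp only [h4]
  rw [h2, map_sum, LinearMap.sum_apply]
  refine sum_eq_zero fun ρ _ => ?_
  rw [map_smul, LinearMap.smul_apply]
  by_cases h0 : u (ext ρ) = 0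
  · rw [h0, zero_smul]
  · obtain ⟨C, hC, hCZ, hCx⟩ := hk _ h0
    obtain ⟨f, hf⟩ : ∃ f : Fun K U, f = fun x => if Holds x C then 0 else 1 := ⟨_, rfl⟩
    have h5 : ∀ x y : U → Bool, (∀ v ∈ Z, x v = y v) → (Holds x C ↔ Holds y C) := by
      intro x y hxy
      unfold Holds
      constructor
      · rintro ⟨l, hl, hl'⟩
        exact ⟨l, hl, by rw [← hxy _ (hCZ l hl)]; exact hl'⟩
      · rintro ⟨l, hl, hl'⟩
        exact ⟨l, hl, by rw [hxy _ (hCZ l hl)]; exact hl'⟩
    have h6 : f ∈ Pol K U Z.card := by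
      refine mem_Pol_of_depends Z fun x y hxy => ?_
      rw [hf]
      simp only [h5 x y hxy]
    have h7 : δ ρ = δ ρ * f := by
      funext x
      rw [Pi.mul_apply, hδ, hf]
      by_cases h8 : res x = ρ
      · have h9 : ¬ Holds x C := by
          rw [h5 x (ext ρ) fun v hv => by rw [← h8, h1 x v hv]]
          exact hCx
        simp only [if_pos h8, if_neg h9, mul_one]
      · simp only [if_neg h8, zero_mul]
    rw [h7, hW.act_mul 0 Z.card Z.card _ _ w (by omega) (h3 ρ) h6 hw]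
    have h8 : act f w = 0 := by
      have h9 := hF C hC w hw
      rw [hf]
      convert h9
    rw [h8, map_zero, smul_zero]

end Pool.Agent.MP_9cec2c_lc.CQ
end

section

/-!
Partitions that are computed by functions of few variables: the clauses of the partition are killed
in the world that is pulled back.
-/

set_option autoImplicit false
set_option linter.unusedSectionVars false

namespace Pool.Agent.MP_9cec2c_lc.CQ

open Finset Frege
open FG (pointClause pairClauses exactCover)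
open CP (IsBl)

section

variable {X V P : Type} [Fintype V] [DecidableEq V] [Fintype P] [DecidableEq P]

open Classical in
/-- The variable `v` is true if `blk v` is a block. -/
noncomputable def sub (bl : X → P → Finset P) (blk : V → Finset P) (x : X) (v : V) : Bool :=
  decide (∃ z ∈ blk v, bl x z = blk v)

theorem sub_eq_true {bl : X → P → Finset P} (hb : IsBl bl) {blk : V → Finset P} {x : X} {v : V}
    {z : P} (hz : z ∈ blk v) : sub bl blk x v = true ↔ bl x z = blk v := by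
  unfold sub
  rw [decide_eq_true_iff]
  constructor
  · rintro ⟨z', hz', h⟩
    rw [← h]
    exact hb.eq_of_mem x z' z (by rw [h]; exact hz)
  · intro h
    exact ⟨z, hz, h⟩

open Classical in
/-- The point clause of `z`, restricted to the sets that can be blocks. -/
noncomputable def narrowClause (bl : X → P → Finset P) (blk : V → Finset P) (z : P) : Clause V :=
  (univ.filter fun v => z ∈ blk v ∧ ∃ x, bl x z = blk v).image fun v => (v, true)

/-- The clauses of the exact cover, restricted to the sets that can be blocks. -/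
noncomputable def narrowCover (bl : X → P → Finset P) (blk : V → Finset P) : Finset (Clause V) :=
  (univ.image fun z => narrowClause bl blk z) ∪ pairClauses blk

theorem mem_narrowClause {bl : X → P → Finset P} {blk : V → Finset P} {z : P} {l : V × Bool} :
    l ∈ narrowClause bl blk z ↔ ∃ v, z ∈ blk v ∧ (∃ x, bl x z = blk v) ∧ (v, true) = l := by
  classical
  unfold narrowClause
  rw [mem_image]
  constructor
  · rintro ⟨v, hv, h⟩
    rw [mem_filter] at hv
    exact ⟨v, hv.2.1, hv.2.2, h⟩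
  · rintro ⟨v, h1, h2, h⟩
    refine ⟨v, ?_, h⟩
    rw [mem_filter]
    exact ⟨mem_univ _, h1, h2⟩

theorem narrowClause_subset (bl : X → P → Finset P) (blk : V → Finset P) (z : P) :
    narrowClause bl blk z ⊆ pointClause blk z := by
  classical
  unfold narrowClause pointClause
  refine image_subset_image fun v hv => ?_
  rw [mem_filter] at hv ⊢
  exact ⟨hv.1, hv.2.1⟩

/-- Every clause of the exact cover contains a narrow clause. -/
theorem exists_narrow (bl : X → P → Finset P) (blk : V → Finset P) :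
    ∀ C ∈ exactCover blk, ∃ C' ∈ narrowCover bl blk, C' ⊆ C := by
  intro C hC
  unfold exactCover at hC
  rcases mem_union.1 hC with hC | hC
  · obtain ⟨z, -, rfl⟩ := mem_image.1 hC
    exact ⟨narrowClause bl blk z, mem_union_left _ (mem_image_of_mem _ (mem_univ z)),
      narrowClause_subset bl blk z⟩
  · exact ⟨C, mem_union_right _ hC, Subset.refl C⟩

/-- The width of the narrow clauses. -/
theorem narrow_width {bl : X → P → Finset P} {blk : V → Finset P}
    (hinj : Function.Injective blk) {w : ℕ} (hw : 2 ≤ w)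
    (hwd : ∀ z, ∃ S : Finset (Finset P), S.card ≤ w ∧ ∀ x, bl x z ∈ S) :
    ∀ C ∈ narrowCover bl blk, C.card ≤ w := by
  classical
  intro C hC
  rcases mem_union.1 hC with hC | hC
  · obtain ⟨z, -, rfl⟩ := mem_image.1 hC
    obtain ⟨S, hS, hS'⟩ := hwd z
    refine (card_image_le).trans (le_trans ?_ hS)
    refine card_le_card_of_injOn blk (fun v hv => ?_) (hinj.injOn)
    obtain ⟨x, hx⟩ := (mem_filter.1 (mem_coe.1 hv)).2.2
    rw [← hx]
    exact hS' x
  · unfold pairClauses at hC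
    obtain ⟨e, -, rfl⟩ := mem_image.1 hC
    exact card_le_two.trans hw

end

section world

variable {K U V W P : Type} [Field K] [AddCommGroup W] [Module K W] [Fintype U] [Fintype V]
  [DecidableEq V] [Fintype P] [DecidableEq P] {M : ℕ → Submodule K W}
  {act : Fun K U →ₗ[K] W →ₗ[K] W} {A : ℕ}

/-- The substitution depends on few variables. -/
theorem narrow_sub {bl : (U → Bool) → P → Finset P} (hb : IsBl bl) {blk : V → Finset P} {k : ℕ}
    {Z : P → Finset U} (hZ : ∀ z, (Z z).card ≤ k)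
    (hloc : ∀ z x y, (∀ u ∈ Z z, x u = y u) → bl x z = bl y z) : Narrow k (sub bl blk) := by
  intro v
  rcases (blk v).eq_empty_or_nonempty with h | ⟨z, hz⟩
  · refine ⟨∅, by rw [card_empty]; exact Nat.zero_le _, fun x y _ => ?_⟩
    unfold sub
    rw [h]
    simp
  · refine ⟨Z z, hZ z, fun x y hxy => ?_⟩
    have h1 := sub_eq_true hb (x := x) hz
    have h2 := sub_eq_true hb (x := y) hz
    rw [hloc z x y hxy] at h1
    rw [Bool.eq_iff_iff, h1, h2]

open Classical in
/-- The narrow clauses are killed in the world pulled back. -/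
theorem kills_narrow (hW : World M act A) {F : Set (Clause U)} (hF : Kills M act F)
    {bl : (U → Bool) → P → Finset P} (hb : IsBl bl) {blk : V → Finset P}
    (hinj : Function.Injective blk) {k : ℕ}
    {Z : P → Finset U} (hZ : ∀ z, (Z z).card ≤ k)
    (hloc : ∀ z x y, (∀ u ∈ Z z, x u = y u) → bl x z = bl y z)
    (hkill : ∀ x z, bl x z = ∅ → ∃ C ∈ F, (∀ l ∈ C, l.1 ∈ Z z) ∧ ¬ Holds x C)
    (hcov : ∀ x z, bl x z ≠ ∅ → ∃ v, blk v = bl x z) (hA : k + k ≤ A) :
    Kills (fun a => M (k * a)) (act.comp (pull (sub bl blk)))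
      (narrowCover bl blk : Set (Clause V)) := by
  intro D hD w hw
  have hw0 : w ∈ M 0 := hw
  show act (pull (sub bl blk) fun x => if Holds x D then (0 : K) else 1) w = 0
  rcases mem_union.1 (mem_coe.1 hD) with hD | hD
  · obtain ⟨z, -, rfl⟩ := mem_image.1 hD
    have key : ∀ x, ¬ Holds (sub bl blk x) (narrowClause bl blk z) ↔ bl x z = ∅ := by
      intro x
      constructor
      · intro h
        by_contra hne
        obtain ⟨v, hv⟩ := hcov x z hne
        have hz : z ∈ blk v := by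
          rw [hv]
          exact (hb.mem_or x z).resolve_left hne
        exact h ⟨(v, true), mem_narrowClause.2 ⟨v, hz, ⟨x, hv.symm⟩, rfl⟩,
          (sub_eq_true hb hz).2 hv.symm⟩
      · rintro h ⟨l, hl, hl'⟩
        obtain ⟨v, hz, -, rfl⟩ := mem_narrowClause.1 hl
        have h1 := (sub_eq_true hb hz).1 hl'
        rw [h] at h1
        rw [← h1] at hz
        exact absurd hz (notMem_empty z)
    refine act_eq_zero hW hF (Z z) _ (fun x y hxy => ?_) (fun x hx => ?_)
      (by have := hZ z; omega) hw0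
    · have h1 : Holds (sub bl blk x) (narrowClause bl blk z) ↔
          Holds (sub bl blk y) (narrowClause bl blk z) := by
        rw [← not_iff_not, key, key, hloc z x y hxy]
      show (if Holds (sub bl blk x) (narrowClause bl blk z) then (0 : K) else 1) =
        if Holds (sub bl blk y) (narrowClause bl blk z) then (0 : K) else 1
      simp only [h1]
    · have h1 : ¬ Holds (sub bl blk x) (narrowClause bl blk z) := by
        intro h
        apply hx
        show (if Holds (sub bl blk x) (narrowClause bl blk z) then (0 : K) else 1) = 0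
        rw [if_pos h]
      exact hkill x z ((key x).1 h1)
  · unfold pairClauses at hD
    obtain ⟨e, he, rfl⟩ := mem_image.1 hD
    obtain ⟨-, hne, hdis⟩ := mem_filter.1 he
    have h0 : (pull (sub bl blk) fun x => if Holds x
        ({(e.1, false), (e.2, false)} : Clause V) then (0 : K) else 1) = 0 := by
      funext x
      show (if Holds (sub bl blk x) ({(e.1, false), (e.2, false)} : Clause V) then (0 : K) else 1)
        = 0
      rw [if_pos]
      by_contra hcon
      obtain ⟨z, hz1, hz2⟩ := Finset.not_disjoint_iff.1 hdis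
      have h1 : sub bl blk x e.1 = true := by
        by_contra h2
        rw [Bool.not_eq_true] at h2
        exact hcon ⟨(e.1, false), mem_insert_self _ _, h2⟩
      have h2 : sub bl blk x e.2 = true := by
        by_contra h3
        rw [Bool.not_eq_true] at h3
        exact hcon ⟨(e.2, false), mem_insert_of_mem (mem_singleton_self _), h3⟩
      have h3 := (sub_eq_true hb hz1).1 h1
      have h4 := (sub_eq_true hb hz2).1 h2
      exact hne (hinj (h3.symm.trans h4))
    rw [h0, map_zero, LinearMap.zero_apply]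

end world

end Pool.Agent.MP_9cec2c_lc.CQ
end
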