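import Mathlib
import Pool.Agent.Lib.MP_9cec2c_lc.Mg.G010
import Pool.Agent.Lib.MP_9cec2c_lc.Mg.G001
import Pool.Agent.Lib.MP_9cec2c_lc.Mg.G006
import Pool.Agent.Lib.MP_9cec2c_lc.Mg.G008
import Pool.Agent.Lib.MP_9cec2c_lc.FLDimR
import Pool.Agent.Lib.MP_9cec2c_lc.FLClause

section

/-!
FLAT for all moduli, the formula: the Tseitin contradiction modulo `r` on the complete graph `K_N`,
with a variable for the sum of every initial segment of the star of every vertex, as a CNF: for
every variable `i` with values in `ZMod r` there are the Boolean variables `(i, c)`, which say that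
`i` has the value `c`.
-/

set_option autoImplicit false
set_option linter.unusedSectionVars false

namespace Pool.Agent.MP_9cec2c_lc.Flat

open Finset

section Equations

variable {V : Type} [DecidableEq V] {r : ℕ} [NeZero r]

theorem card_valueClauses (i : V) : (valueClauses r i).card ≤ r ^ 2 + 1 := by
  unfold valueClauses
  refine (card_insert_le _ _).trans (Nat.add_le_add_right ?_ 1)
  refine card_image_le.trans ((card_filter_le _ _).trans ?_)
  rw [card_univ, Fintype.card_prod, ZMod.card, sq]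

theorem width_valueClauses (i : V) : ∀ K ∈ valueClauses r i, K.card ≤ max r 2 := by
  intro K hK
  rcases mem_insert.1 hK with rfl | hK
  · refine card_image_le.trans ?_
    rw [card_univ, ZMod.card]
    exact le_max_left _ _
  · obtain ⟨q, -, rfl⟩ := mem_image.1 hK
    exact card_le_two.trans (le_max_right _ _)

theorem card_forbid2 (C : Finset V) (a : C → ZMod r) : (forbid2 C a).card ≤ C.card := by
  refine card_image_le.trans ?_
  rw [card_univ, Fintype.card_coe]

theorem card_eqClauses (C : Finset V) (T : V → ZMod r) (c : ZMod r) :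
    (eqClauses C T c).card ≤ r ^ C.card := by
  refine card_image_le.trans ((card_filter_le _ _).trans ?_)
  rw [card_univ, Fintype.card_fun, ZMod.card, Fintype.card_coe]

/-- An assignment which satisfies the clauses of a variable gives it exactly one value. -/
theorem value_of_sat (i : V) (x : V × ZMod r → Bool)
    (h : ∀ K ∈ valueClauses r i, ∃ l ∈ K, x l.1 = l.2) :
    ∃ c : ZMod r, ∀ c' : ZMod r, x (i, c') = decide (c' = c) := by
  obtain ⟨l, hl, hx⟩ := h _ (mem_insert_self _ _)
  obtain ⟨c, -, rfl⟩ := mem_image.1 hl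
  refine ⟨c, fun c' => ?_⟩
  by_cases hc : c' = c
  · rw [hc, decide_eq_true (rfl : c = c)]
    exact hx
  · rw [decide_eq_false hc]
    have h1 : ({((i, c), false), ((i, c'), false)} : Finset ((V × ZMod r) × Bool)) ∈
        valueClauses r i := by
      refine mem_insert_of_mem (mem_image.2 ⟨(c, c'), mem_filter.2 ⟨mem_univ _, ?_⟩, rfl⟩)
      exact fun h => hc h.symm
    obtain ⟨l, hl, hx'⟩ := h _ h1
    rcases mem_insert.1 hl with rfl | hl
    · have h2 : x (i, c) = true := hx
      have h3 : x (i, c) = false := hx'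
      rw [h2] at h3
      exact absurd h3 (by decide)
    · rw [mem_singleton] at hl
      rw [hl] at hx'
      exact hx'

/-- An assignment which satisfies all clauses of an equation satisfies the equation. -/
theorem eq_of_sat (C : Finset V) (T : V → ZMod r) (c : ZMod r) (x : V × ZMod r → Bool)
    (z : V → ZMod r) (hz : ∀ i c', x (i, c') = decide (c' = z i))
    (h : ∀ K ∈ eqClauses C T c, ∃ l ∈ K, x l.1 = l.2) : ∑ i ∈ C, T i * z i = c := by
  by_contra hne
  have h1 : forbid2 C (fun i : C => z i) ∈ eqClauses C T c := by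
    refine mem_image.2 ⟨_, mem_filter.2 ⟨mem_univ _, ?_⟩, rfl⟩
    rw [Finset.sum_coe_sort C (fun i => T i * z i)]
    exact hne
  obtain ⟨l, hl, hx⟩ := h _ h1
  obtain ⟨i, -, rfl⟩ := mem_image.1 hl
  rw [hz] at hx
  simp at hx

end Equations

variable {N r : ℕ} [NeZero r]

/-- The clauses of the formula. -/
theorem mem_tseitinMod {b : Fin N → ZMod r} {K : Finset ((TVar N × ZMod r) × Bool)} :
    K ∈ tseitinMod N r b ↔ (∃ i, K ∈ valueClauses r i) ∨ (∃ v, K ∈ eqClauses {Sum.inr (v, 0)} 1 0) ∨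
      (∃ v u, K ∈ eqClauses (stepSet v u) (stepVec r v u) 0) ∨
      ∃ v, K ∈ eqClauses {Sum.inr (v, Fin.last N)} 1 (b v) := by
  unfold tseitinMod
  simp only [mem_union, mem_biUnion, mem_univ, true_and, Prod.exists, or_assoc]

theorem tseitinMod_width (b : Fin N → ZMod r) : ∀ K ∈ tseitinMod N r b, K.card ≤ max r 3 := by
  intro K hK
  have key : ∀ (C : Finset (TVar N)) (T : TVar N → ZMod r) (c : ZMod r), C.card ≤ 3 →
      K ∈ eqClauses C T c → K.card ≤ max r 3 := by
    intro C T c hC hK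
    obtain ⟨a, -, rfl⟩ := mem_image.1 hK
    exact (card_forbid2 C a).trans (hC.trans (le_max_right _ _))
  rcases mem_tseitinMod.1 hK with ⟨i, h⟩ | ⟨v, h⟩ | ⟨v, u, h⟩ | ⟨v, h⟩
  · exact (width_valueClauses i K h).trans (max_le_max le_rfl (by norm_num))
  · exact key _ _ _ (by simp) h
  · exact key _ _ _ (card_stepSet _ _) h
  · exact key _ _ _ (by simp) h

theorem card_TVar (N : ℕ) : Fintype.card (TVar N) ≤ 2 * N ^ 2 + N := by
  have h1 : Fintype.card (Edge N) ≤ N * N := by
    refine (Fintype.card_subtype_le _).trans ?_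
    rw [Fintype.card_prod, Fintype.card_fin]
  rw [Fintype.card_sum, Fintype.card_prod, Fintype.card_fin, Fintype.card_fin]
  nlinarith

/-- The number of clauses. -/
theorem tseitinMod_card (b : Fin N → ZMod r) :
    (tseitinMod N r b).card ≤ (2 * N ^ 2 + N) * (r ^ 2 + 1) + N ^ 2 * r ^ 3 + 2 * (N * r) := by
  unfold tseitinMod
  refine (card_union_le _ _).trans ?_
  refine (Nat.add_le_add_right (card_union_le _ _) _).trans ?_
  refine (Nat.add_le_add_right (Nat.add_le_add_right (card_union_le _ _) _) _).trans ?_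
  have h0 : (univ.biUnion fun i : TVar N => valueClauses r i).card ≤
      (2 * N ^ 2 + N) * (r ^ 2 + 1) := by
    refine (card_biUnion_le_card_mul _ _ (r ^ 2 + 1) (fun i _ => card_valueClauses i)).trans ?_
    rw [card_univ]
    exact Nat.mul_le_mul_right _ (card_TVar N)
  have h1 : (univ.biUnion fun v : Fin N =>
      eqClauses ({Sum.inr (v, 0)} : Finset (TVar N)) 1 (0 : ZMod r)).card ≤ N * r := by
    refine (card_biUnion_le_card_mul _ _ r (fun v _ => ?_)).trans ?_
    · exact (card_eqClauses _ _ _).trans (by simp)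
    · simp
  have hr : 0 < r := Nat.pos_of_ne_zero (NeZero.ne r)
  have h2 : (univ.biUnion fun q : Fin N × Fin N =>
      eqClauses (stepSet q.1 q.2) (stepVec r q.1 q.2) 0).card ≤ N ^ 2 * r ^ 3 := by
    refine (card_biUnion_le_card_mul _ _ (r ^ 3) (fun v _ => ?_)).trans ?_
    · exact (card_eqClauses _ _ _).trans (Nat.pow_le_pow_right hr (card_stepSet _ _))
    · simp [sq]
  have h3 : (univ.biUnion fun v : Fin N =>
      eqClauses ({Sum.inr (v, Fin.last N)} : Finset (TVar N)) 1 (b v)).card ≤ N * r := by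
    refine (card_biUnion_le_card_mul _ _ r (fun v _ => ?_)).trans ?_
    · exact (card_eqClauses _ _ _).trans (by simp)
    · simp
  omega

/-- The flow from `v` to `u` of the values `f` of the edges. -/
def flow (f : Edge N → ZMod r) (v u : Fin N) : ZMod r :=
  if h : v < u then f ⟨(v, u), h⟩ else if h' : u < v then -f ⟨(u, v), h'⟩ else 0

theorem flow_symm (f : Edge N → ZMod r) (v u : Fin N) : flow f u v = -flow f v u := by
  unfold flow
  rcases lt_trichotomy u v with h | h | h
  · rw [dif_pos h, dif_neg (not_lt.2 h.le), dif_pos h, neg_neg]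
  · subst h
    simp
  · rw [dif_neg (not_lt.2 h.le), dif_pos h, dif_pos h]

/-- The sum over all vertices of the sums over the stars vanishes. -/
theorem sum_flow_zero (f : Edge N → ZMod r) : ∑ v : Fin N, ∑ u : Fin N, flow f v u = 0 := by
  have h1 : ∀ e : Fin N × Fin N, flow f e.1 e.2 =
      (if h : e.1 < e.2 then f ⟨(e.1, e.2), h⟩ else 0) -
        if h : e.2 < e.1 then f ⟨(e.2, e.1), h⟩ else 0 := by
    intro e
    unfold flow
    rcases lt_trichotomy e.1 e.2 with h | h | h
    · rw [dif_pos h, dif_pos h, dif_neg (not_lt.2 h.le), sub_zero]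
    · rw [dif_neg (not_lt.2 h.ge), dif_neg (not_lt.2 h.le), dif_neg (not_lt.2 h.ge),
        dif_neg (not_lt.2 h.le), sub_zero]
    · rw [dif_neg (not_lt.2 h.le), dif_pos h, dif_neg (not_lt.2 h.le), dif_pos h, zero_sub]
  rw [← Fintype.sum_prod_type', Finset.sum_congr rfl fun e _ => h1 e, sum_sub_distrib, sub_eq_zero]
  rw [← Equiv.sum_comp (Equiv.prodComm (Fin N) (Fin N))]
  rfl

theorem inr_ne (v u : Fin N) : (Sum.inr (v, u.castSucc) : TVar N) ≠ Sum.inr (v, u.succ) := by
  intro h
  have h1 := (Prod.mk.inj (Sum.inr.inj h)).2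
  have h2 := congrArg Fin.val h1
  simp at h2

/-- The sum of a function with values in a module, weighted by the coefficients of a step
equation. -/
theorem sum_stepVec {M : Type} [AddCommGroup M] [Module (ZMod r) M] (v u : Fin N) (g : TVar N → M) :
    ∑ i ∈ stepSet v u, stepVec r v u i • g i =
      g (Sum.inr (v, u.succ)) - g (Sum.inr (v, u.castSucc)) -
        (if h : v < u then g (Sum.inl ⟨(v, u), h⟩) else
          if h' : u < v then -g (Sum.inl ⟨(u, v), h'⟩) else 0) := by
  have hne := inr_ne v u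
  have e1 : stepVec r v u (Sum.inr (v, u.succ)) = 1 := by
    unfold stepVec
    rw [if_pos rfl]
  have e2 : stepVec r v u (Sum.inr (v, u.castSucc)) = -1 := by
    unfold stepVec
    rw [if_neg hne, if_pos rfl]
  have e3 : ∀ e : Edge N, stepVec r v u (Sum.inl e) = if v < u then -1 else 1 := by
    intro e
    unfold stepVec
    rw [if_neg (by simp), if_neg (by simp)]
  unfold stepSet
  by_cases h : v = u
  · rw [dif_pos h, sum_pair hne, e1, e2, dif_neg (by rw [h]; exact lt_irrefl u),
      dif_neg (by rw [h]; exact lt_irrefl u)]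
    simp only [one_smul, neg_smul, sub_zero]
    abel
  · rw [dif_neg h, sum_insert (by simp [hne]), sum_pair (by simp), e1, e2, e3]
    rcases lt_or_gt_of_ne h with h1 | h1
    · rw [if_pos h1, dif_pos h1, mkEdge_of_lt v u h1]
      simp only [one_smul, neg_smul]
      abel
    · rw [if_neg (not_lt.2 h1.le), dif_neg (not_lt.2 h1.le), dif_pos h1, mkEdge_symm v u h,
        mkEdge_of_lt u v h1]
      simp only [one_smul, neg_smul]
      abel

/-- If the sum of the charges is not zero, the formula is unsatisfiable. -/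
theorem tseitinMod_unsat (b : Fin N → ZMod r) (hb : ∑ v, b v ≠ 0) (x : TVar N × ZMod r → Bool) :
    ∃ K ∈ tseitinMod N r b, ∀ l ∈ K, x l.1 ≠ l.2 := by
  by_contra hcon
  push Not at hcon
  have hval : ∀ i : TVar N, ∃ c : ZMod r, ∀ c' : ZMod r, x (i, c') = decide (c' = c) := fun i =>
    value_of_sat i x fun K hK => hcon K (mem_tseitinMod.2 (Or.inl ⟨i, hK⟩))
  choose z hz using hval
  have e1 : ∀ v : Fin N, z (Sum.inr (v, 0)) = 0 := by
    intro v
    have := eq_of_sat {Sum.inr (v, 0)} 1 0 x z hz fun K hK =>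
      hcon K (mem_tseitinMod.2 (Or.inr (Or.inl ⟨v, hK⟩)))
    simpa using this
  have e3 : ∀ v : Fin N, z (Sum.inr (v, Fin.last N)) = b v := by
    intro v
    have := eq_of_sat {Sum.inr (v, Fin.last N)} 1 (b v) x z hz fun K hK =>
      hcon K (mem_tseitinMod.2 (Or.inr (Or.inr (Or.inr ⟨v, hK⟩))))
    simpa using this
  have e2 : ∀ v u : Fin N, z (Sum.inr (v, u.succ)) = z (Sum.inr (v, u.castSucc)) +
      flow (fun e => z (Sum.inl e)) v u := by
    intro v u
    have h0 := eq_of_sat (stepSet v u) (stepVec r v u) 0 x z hz fun K hK =>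
      hcon K (mem_tseitinMod.2 (Or.inr (Or.inr (Or.inl ⟨v, u, hK⟩))))
    have h1 := sum_stepVec (r := r) v u z
    simp only [smul_eq_mul] at h1
    rw [h0] at h1
    have h2 : z (Sum.inr (v, u.succ)) - z (Sum.inr (v, u.castSucc)) =
        flow (fun e => z (Sum.inl e)) v u := (sub_eq_zero.1 h1.symm)
    rw [← h2]
    ring
  have e4 : ∀ v : Fin N, ∀ j : ℕ, ∀ hj : j < N + 1, z (Sum.inr (v, ⟨j, hj⟩)) =
      ∑ u ∈ univ.filter (fun u : Fin N => u.val < j), flow (fun e => z (Sum.inl e)) v u := by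
    intro v j
    induction j with
    | zero =>
      intro hj
      have h5 : (univ.filter (fun u : Fin N => u.val < 0)) = ∅ := by
        ext u; simp
      rw [h5, sum_empty]
      exact e1 v
    | succ j ih =>
      intro hj
      have hjN : j < N := by omega
      have h6 := e2 v ⟨j, hjN⟩
      have h7 : (univ.filter (fun u : Fin N => u.val < j + 1))
          = insert (⟨j, hjN⟩ : Fin N) (univ.filter (fun u : Fin N => u.val < j)) := by
        ext u
        simp only [mem_filter, mem_univ, true_and, mem_insert, Fin.ext_iff]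
        omega
      have h8 : (⟨j, hjN⟩ : Fin N) ∉ univ.filter (fun u : Fin N => u.val < j) := by
        simp
      rw [h7, sum_insert h8, ← ih (by omega)]
      have h9 : (⟨j, hjN⟩ : Fin N).succ = ⟨j + 1, hj⟩ := rfl
      have h10 : (⟨j, hjN⟩ : Fin N).castSucc = ⟨j, by omega⟩ := rfl
      rw [h9, h10] at h6
      rw [h6, add_comm]
  apply hb
  rw [← sum_flow_zero fun e => z (Sum.inl e)]
  refine sum_congr rfl fun v _ => ?_
  have h1 := e4 v N (Nat.lt_succ_self N)
  have h2 : (⟨N, Nat.lt_succ_self N⟩ : Fin (N + 1)) = Fin.last N := rfl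
  rw [h2, e3 v] at h1
  rw [h1]
  refine sum_congr ?_ (fun _ _ => rfl)
  ext u
  simp

/-! ### The moves of the variables -/

section Moves

variable {m : ℕ} [NeZero m]

/-- The move of a variable. -/
def mvVar2 (N m r : ℕ) : TVar N → Cfg2 N m
  | Sum.inl e => mvRow2 e.1.1 {e.1.2} (gen m r)
  | Sum.inr q => mvRow2 q.1 (initSet N q.2.val) (gen m r)

theorem nsmul_gen (h : r ∣ m) : r • gen m r = 0 := by
  unfold gen
  rw [nsmul_eq_mul, ← Nat.cast_mul, Nat.mul_div_cancel' h, ZMod.natCast_self]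

theorem mvVar2_torsion (h : r ∣ m) (i : TVar N) : r • mvVar2 N m r i = 0 := by
  have h0 : (0 : ZMod m) = r • gen m r := (nsmul_gen h).symm
  rcases i with e | q
  · show r • mvRow2 e.1.1 {e.1.2} (gen m r) = 0
    rw [← mvRow2_nsmul, ← h0, mvRow2_zero]
  · show r • mvRow2 q.1 (initSet N q.2.val) (gen m r) = 0
    rw [← mvRow2_nsmul, ← h0, mvRow2_zero]

/-- The multiples of the move of a variable are moves. -/
theorem mvVar2_isMove (i : TVar N) {k : ℕ} (hk : k < r) : IsMove2 r (k • mvVar2 N m r i) := by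
  refine ⟨k, hk, ?_⟩
  rcases i with e | q
  · left
    refine ⟨e.1.1, e.1.2, ?_⟩
    rw [mvRow2_nsmul]
    rfl
  · right
    refine ⟨q.1, q.2.val, ?_⟩
    rw [mvRow2_nsmul]
    rfl

theorem mvRow2_swap (u w : Fin N) (h : u ≠ w) (κ : ZMod m) :
    mvRow2 u {w} κ = -mvRow2 w {u} κ := by
  ext e
  rw [Pi.neg_apply]
  unfold mvRow2
  simp only [mem_singleton]
  by_cases h1 : e.1.1 = u
  · by_cases h2 : e.1.2 = w
    · have h3 : ¬ (e.1.1 = w) := fun h3 => h (h1.symm.trans h3)
      rw [if_pos ⟨h1, h2⟩, if_neg (fun h4 => h3 h4.1), if_pos ⟨h2, h1⟩, neg_neg]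
    · rw [if_neg (fun h4 => h2 h4.2), if_neg (fun h4 => ?_), if_neg (fun h4 => ?_),
        if_neg (fun h4 => ?_), neg_zero]
      · exact h2 h4.1
      · exact h (h1.symm.trans h4.1)
      · exact h ((h1.symm.trans h4.2))
  · by_cases h2 : e.1.1 = w
    · by_cases h3 : e.1.2 = u
      · rw [if_neg (fun h4 => h1 h4.1), if_pos ⟨h3, h2⟩, if_pos ⟨h2, h3⟩]
      · rw [if_neg (fun h4 => h1 h4.1), if_neg (fun h4 => h3 h4.1), if_neg (fun h4 => h3 h4.2),
          if_neg (fun h4 => h1 h4.2), neg_zero]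
    · rw [if_neg (fun h4 => h1 h4.1), if_neg (fun h4 => h2 h4.2), if_neg (fun h4 => h2 h4.1),
        if_neg (fun h4 => h1 h4.2), neg_zero]

theorem mvVar2_first (v : Fin N) : mvVar2 N m r (Sum.inr (v, 0)) = 0 := by
  have h1 : mvVar2 N m r (Sum.inr (v, 0)) = mvRow2 v (initSet N 0) (gen m r) := rfl
  rw [h1, initSet_zero, mvRow2_empty]

theorem mvVar2_last (v : Fin N) :
    mvVar2 N m r (Sum.inr (v, Fin.last N)) = mvRow2 v univ (gen m r) := by
  have h1 : mvVar2 N m r (Sum.inr (v, Fin.last N)) = mvRow2 v (initSet N N) (gen m r) := rfl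
  rw [h1, initSet_full]

/-- The vector of coefficients of a step equation. -/
def stepT (r : ℕ) (v u : Fin N) : TVar N → ZMod r :=
  Pi.single (Sum.inr (v, u.succ)) 1 + -Pi.single (Sum.inr (v, u.castSucc)) 1 +
    (if h : v < u then -Pi.single (Sum.inl ⟨(v, u), h⟩) 1 else
      if h' : u < v then Pi.single (Sum.inl ⟨(u, v), h'⟩) 1 else 0)

theorem twt_stepT (v u : Fin N) : twt (stepT r v u) ≤ 3 := by
  have h1 : twt (if h : v < u then -Pi.single (Sum.inl ⟨(v, u), h⟩) 1 else
      if h' : u < v then Pi.single (Sum.inl ⟨(u, v), h'⟩) 1 else 0 : TVar N → ZMod r) ≤ 1 := by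
    split_ifs
    · rw [twt_neg]
      exact twt_single _ _
    · exact twt_single _ _
    · rw [twt_zero]
      exact Nat.zero_le _
  refine (twt_add _ _).trans ?_
  refine (Nat.add_le_add (twt_add _ _) h1).trans ?_
  rw [twt_neg]
  have h2 := twt_single (r := r) (Sum.inr (v, u.succ) : TVar N) 1
  have h3 := twt_single (r := r) (Sum.inr (v, u.castSucc) : TVar N) 1
  omega

theorem pr_stepT (v u : Fin N) (x : TVar N → ZMod r) :
    pr (stepT r v u) x = ∑ i ∈ stepSet v u, stepVec r v u i * x i := by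
  have h1 := sum_stepVec (r := r) v u x
  simp only [smul_eq_mul] at h1
  rw [h1]
  unfold stepT
  rw [pr_add_left, pr_add_left, pr_neg_left, pr_single_left, pr_single_left, one_mul, one_mul]
  split_ifs
  · rw [pr_neg_left, pr_single_left, one_mul]
    ring
  · rw [pr_single_left, one_mul]
    ring
  · rw [pr_zero_left]
    ring

theorem tot_single_one (hr : 1 < r) {A : Type} [AddCommGroup A] (mv : TVar N → A) (i : TVar N) :
    tot mv (Pi.single i 1 : TVar N → ZMod r) = mv i := by
  rw [tot_single, ZMod.val_one'' (by omega), one_smul]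

/-- The moves of a step equation sum to zero. -/
theorem tot_stepT (hr : 1 < r) (h : r ∣ m) (v u : Fin N) :
    tot (mvVar2 N m r) (stepT r v u) = 0 := by
  have ht := mvVar2_torsion (N := N) h
  have hs : mvVar2 N m r (Sum.inr (v, u.succ)) =
      mvVar2 N m r (Sum.inr (v, u.castSucc)) + mvRow2 v {u} (gen m r) := by
    have h1 : mvVar2 N m r (Sum.inr (v, u.succ)) =
      mvRow2 v (initSet N (u.val + 1)) (gen m r) := rfl
    have h2 : mvVar2 N m r (Sum.inr (v, u.castSucc)) = mvRow2 v (initSet N u.val) (gen m r) := rfl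
    rw [h1, h2, initSet_succ, mvRow2_insert v u _ (not_mem_initSet_self N u)]
  unfold stepT
  rw [tot_add ht, tot_add ht, tot_neg ht, tot_single_one hr, tot_single_one hr, hs]
  rcases lt_trichotomy v u with h1 | h1 | h1
  · rw [dif_pos h1, tot_neg ht, tot_single_one hr]
    have h3 : mvVar2 N m r (Sum.inl ⟨(v, u), h1⟩) = mvRow2 v {u} (gen m r) := rfl
    rw [h3]
    abel
  · subst h1
    rw [dif_neg (lt_irrefl _), dif_neg (lt_irrefl _), tot_zero, mvRow2_self]
    abel
  · rw [dif_neg (not_lt.2 h1.le), dif_pos h1, tot_single_one hr]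
    have h3 : mvVar2 N m r (Sum.inl ⟨(u, v), h1⟩) = mvRow2 u {v} (gen m r) := rfl
    rw [h3, mvRow2_swap v u (ne_of_gt h1)]
    abel

end Moves

end Pool.Agent.MP_9cec2c_lc.Flat
end

section

/-!
The Tseitin contradiction modulo `s` on the complete graph as a network: the nodes are the
equations, and every variable occurs in exactly two equations, once with the coefficient 1 and once
with the coefficient -1.
-/

set_option autoImplicit false
set_option linter.unusedSectionVars false

namespace Pool.Agent.MP_9cec2c_lc.CQ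

open Finset Flat
open CP

/-- The equations: steps, first and last equations of the vertices. -/
abbrev TQ (N : ℕ) : Type := (Fin N × Fin N) ⊕ (Fin N ⊕ Fin N)

variable {N : ℕ}

/-- The equation in which the variable has the coefficient 1. -/
def tsrc : TVar N → TQ N
  | Sum.inl e => Sum.inl (e.1.2, e.1.1)
  | Sum.inr y => Fin.cases (Sum.inr (Sum.inl y.1)) (fun u => Sum.inl (y.1, u)) y.2

/-- The equation in which the variable has the coefficient -1. -/
def ttgt : TVar N → TQ N
  | Sum.inl e => Sum.inl (e.1.1, e.1.2)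
  | Sum.inr y => Fin.lastCases (motive := fun _ => TQ N) (Sum.inr (Sum.inr y.1))
      (fun u => Sum.inl (y.1, u)) y.2

/-- The right sides of the equations; the last equation is `- y = - b`. -/
def tchg {s : ℕ} (b : Fin N → ZMod s) : TQ N → ZMod s
  | Sum.inl _ => 0
  | Sum.inr (Sum.inl _) => 0
  | Sum.inr (Sum.inr v) => -b v

/-- The variables of an equation. -/
def tinc : TQ N → Finset (TVar N)
  | Sum.inl q => stepSet q.1 q.2
  | Sum.inr (Sum.inl v) => {Sum.inr (v, 0)}
  | Sum.inr (Sum.inr v) => {Sum.inr (v, Fin.last N)}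

theorem tsrc_zero (v : Fin N) : tsrc (Sum.inr (v, 0)) = Sum.inr (Sum.inl v) := rfl

theorem tsrc_succ (v u : Fin N) : tsrc (Sum.inr (v, u.succ)) = Sum.inl (v, u) := rfl

theorem ttgt_last (v : Fin N) : ttgt (Sum.inr (v, Fin.last N)) = Sum.inr (Sum.inr v) := by
  show Fin.lastCases (motive := fun _ => TQ N) _ _ (Fin.last N) = _
  rw [Fin.lastCases_last]

theorem ttgt_castSucc (v u : Fin N) : ttgt (Sum.inr (v, u.castSucc)) = Sum.inl (v, u) := by
  show Fin.lastCases (motive := fun _ => TQ N) _ _ u.castSucc = _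
  rw [Fin.lastCases_castSucc]

theorem tsrc_eq_step {v u : Fin N} {i : TVar N} :
    tsrc i = Sum.inl (v, u) ↔ i = Sum.inr (v, u.succ) ∨ ∃ h : u < v, i = Sum.inl ⟨(u, v), h⟩ := by
  constructor
  · intro h
    rcases i with ⟨⟨a, c⟩, hac⟩ | ⟨v', j⟩
    · right
      have h1 : (c, a) = (v, u) := Sum.inl.inj h
      obtain ⟨rfl, rfl⟩ := Prod.mk.inj h1
      exact ⟨hac, rfl⟩
    · left
      refine Fin.cases (fun h => ?_) (fun w h => ?_) j h
      · rw [tsrc_zero] at h
        exact absurd h (by simp)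
      · rw [tsrc_succ] at h
        obtain ⟨rfl, rfl⟩ := Prod.mk.inj (Sum.inl.inj h)
        rfl
  · rintro (rfl | ⟨h, rfl⟩)
    · rfl
    · rfl

theorem ttgt_eq_step {v u : Fin N} {i : TVar N} :
    ttgt i = Sum.inl (v, u) ↔
      i = Sum.inr (v, u.castSucc) ∨ ∃ h : v < u, i = Sum.inl ⟨(v, u), h⟩ := by
  constructor
  · intro h
    rcases i with ⟨⟨a, c⟩, hac⟩ | ⟨v', j⟩
    · right
      have h1 : (a, c) = (v, u) := Sum.inl.inj h
      obtain ⟨rfl, rfl⟩ := Prod.mk.inj h1
      exact ⟨hac, rfl⟩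
    · left
      refine Fin.lastCases (fun h => ?_) (fun w h => ?_) j h
      · rw [ttgt_last] at h
        exact absurd h (by simp)
      · rw [ttgt_castSucc] at h
        obtain ⟨rfl, rfl⟩ := Prod.mk.inj (Sum.inl.inj h)
        rfl
  · rintro (rfl | ⟨h, rfl⟩)
    · exact ttgt_castSucc v u
    · rfl

theorem tsrc_eq_first {v : Fin N} {i : TVar N} :
    tsrc i = Sum.inr (Sum.inl v) ↔ i = Sum.inr (v, 0) := by
  constructor
  · intro h
    rcases i with ⟨⟨a, c⟩, hac⟩ | ⟨v', j⟩
    · have h1 : (Sum.inl (c, a) : TQ N) = Sum.inr (Sum.inl v) := h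
      exact absurd h1 (by simp)
    · refine Fin.cases (fun h => ?_) (fun w h => ?_) j h
      · rw [tsrc_zero] at h
        rw [Sum.inl.inj (Sum.inr.inj h)]
      · rw [tsrc_succ] at h
        exact absurd h (by simp)
  · rintro rfl
    rfl

theorem tsrc_ne_last {v : Fin N} {i : TVar N} : tsrc i ≠ Sum.inr (Sum.inr v) := by
  intro h
  rcases i with ⟨⟨a, c⟩, hac⟩ | ⟨v', j⟩
  · have h1 : (Sum.inl (c, a) : TQ N) = Sum.inr (Sum.inr v) := h
    exact absurd h1 (by simp)
  · refine Fin.cases (fun h => ?_) (fun w h => ?_) j h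
    · rw [tsrc_zero] at h
      exact absurd h (by simp)
    · rw [tsrc_succ] at h
      exact absurd h (by simp)

theorem ttgt_eq_last {v : Fin N} {i : TVar N} :
    ttgt i = Sum.inr (Sum.inr v) ↔ i = Sum.inr (v, Fin.last N) := by
  constructor
  · intro h
    rcases i with ⟨⟨a, c⟩, hac⟩ | ⟨v', j⟩
    · have h1 : (Sum.inl (a, c) : TQ N) = Sum.inr (Sum.inr v) := h
      exact absurd h1 (by simp)
    · refine Fin.lastCases (fun h => ?_) (fun w h => ?_) j h
      · rw [ttgt_last] at h
        rw [Sum.inr.inj (Sum.inr.inj h)]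
      · rw [ttgt_castSucc] at h
        exact absurd h (by simp)
  · rintro rfl
    exact ttgt_last v

theorem ttgt_ne_first {v : Fin N} {i : TVar N} : ttgt i ≠ Sum.inr (Sum.inl v) := by
  intro h
  rcases i with ⟨⟨a, c⟩, hac⟩ | ⟨v', j⟩
  · have h1 : (Sum.inl (a, c) : TQ N) = Sum.inr (Sum.inl v) := h
    exact absurd h1 (by simp)
  · refine Fin.lastCases (fun h => ?_) (fun w h => ?_) j h
    · rw [ttgt_last] at h
      exact absurd h (by simp)
    · rw [ttgt_castSucc] at h
      exact absurd h (by simp)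

/-- The equations contain all their variables. -/
theorem mem_tinc {q : TQ N} {i : TVar N} (h : tsrc i = q ∨ ttgt i = q) : i ∈ tinc q := by
  rcases q with ⟨v, u⟩ | v | v
  · show i ∈ stepSet v u
    unfold stepSet
    rcases h with h | h
    · rcases tsrc_eq_step.1 h with rfl | ⟨h1, rfl⟩
      · split_ifs <;> simp
      · rw [dif_neg (ne_of_gt h1)]
        rw [mkEdge_symm v u (ne_of_gt h1), mkEdge_of_lt u v h1]
        simp
    · rcases ttgt_eq_step.1 h with rfl | ⟨h1, rfl⟩
      · split_ifs <;> simp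
      · rw [dif_neg (ne_of_lt h1), mkEdge_of_lt v u h1]
        simp
  · rcases h with h | h
    · rw [tsrc_eq_first.1 h]
      exact mem_singleton_self _
    · exact absurd h ttgt_ne_first
  · rcases h with h | h
    · exact absurd h tsrc_ne_last
    · rw [ttgt_eq_last.1 h]
      exact mem_singleton_self _

theorem card_tinc (q : TQ N) : (tinc q).card ≤ 3 := by
  rcases q with ⟨v, u⟩ | v | v
  · exact card_stepSet v u
  · show ({_} : Finset (TVar N)).card ≤ 3
    rw [card_singleton]
    norm_num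
  · show ({_} : Finset (TVar N)).card ≤ 3
    rw [card_singleton]
    norm_num

theorem sum_tchg {s : ℕ} (b : Fin N → ZMod s) : ∑ q, tchg b q = -∑ v, b v := by
  rw [Fintype.sum_sum_type, Fintype.sum_sum_type]
  have h1 : ∀ q : Fin N × Fin N, tchg b (Sum.inl q) = 0 := fun _ => rfl
  have h2 : ∀ v : Fin N, tchg b (Sum.inr (Sum.inl v)) = 0 := fun _ => rfl
  have h3 : ∀ v : Fin N, tchg b (Sum.inr (Sum.inr v)) = -b v := fun _ => rfl
  simp only [h1, h2, h3, sum_const_zero, zero_add, sum_neg_distrib]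

variable {s : ℕ} [NeZero s]

/-- The step equations. -/
theorem nodeSum_step (x : TVar N → ZMod s) (v u : Fin N) :
    nodeSum tsrc ttgt x (Sum.inl (v, u)) = ∑ i ∈ stepSet v u, stepVec s v u i * x i := by
  have h0 := sum_stepVec (r := s) v u x
  simp only [smul_eq_mul] at h0
  rw [h0]
  unfold nodeSum
  rw [sum_sub_distrib, ← sum_filter, ← sum_filter]
  have hsrc : (univ.filter fun i : TVar N => tsrc i = Sum.inl (v, u)) =
      if h : u < v then {Sum.inr (v, u.succ), Sum.inl ⟨(u, v), h⟩} else {Sum.inr (v, u.succ)} := by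
    ext i
    rw [mem_filter, tsrc_eq_step]
    by_cases h : u < v
    · rw [dif_pos h, mem_insert, mem_singleton]
      constructor
      · rintro ⟨-, h1 | ⟨_, h1⟩⟩
        · exact Or.inl h1
        · exact Or.inr h1
      · rintro (h1 | h1)
        · exact ⟨mem_univ _, Or.inl h1⟩
        · exact ⟨mem_univ _, Or.inr ⟨h, h1⟩⟩
    · rw [dif_neg h, mem_singleton]
      constructor
      · rintro ⟨-, h1 | ⟨h1, -⟩⟩
        · exact h1
        · exact absurd h1 h
      · intro h1
        exact ⟨mem_univ _, Or.inl h1⟩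
  have htgt : (univ.filter fun i : TVar N => ttgt i = Sum.inl (v, u)) =
      if h : v < u then {Sum.inr (v, u.castSucc), Sum.inl ⟨(v, u), h⟩}
      else {Sum.inr (v, u.castSucc)} := by
    ext i
    rw [mem_filter, ttgt_eq_step]
    by_cases h : v < u
    · rw [dif_pos h, mem_insert, mem_singleton]
      constructor
      · rintro ⟨-, h1 | ⟨_, h1⟩⟩
        · exact Or.inl h1
        · exact Or.inr h1
      · rintro (h1 | h1)
        · exact ⟨mem_univ _, Or.inl h1⟩
        · exact ⟨mem_univ _, Or.inr ⟨h, h1⟩⟩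
    · rw [dif_neg h, mem_singleton]
      constructor
      · rintro ⟨-, h1 | ⟨h1, -⟩⟩
        · exact h1
        · exact absurd h1 h
      · intro h1
        exact ⟨mem_univ _, Or.inl h1⟩
  rw [hsrc, htgt]
  rcases lt_trichotomy v u with h | h | h
  · rw [dif_neg (not_lt.2 h.le), dif_pos h, dif_pos h, sum_singleton, sum_pair (by simp)]
    ring
  · rw [dif_neg (by rw [h]; exact lt_irrefl u), dif_neg (by rw [h]; exact lt_irrefl u),
      dif_neg (by rw [h]; exact lt_irrefl u), dif_neg (by rw [h]; exact lt_irrefl u),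
      sum_singleton, sum_singleton, sub_zero]
  · rw [dif_pos h, dif_neg (not_lt.2 h.le), dif_neg (not_lt.2 h.le), dif_pos h, sum_singleton,
      sum_pair (by simp)]
    ring

theorem nodeSum_first (x : TVar N → ZMod s) (v : Fin N) :
    nodeSum tsrc ttgt x (Sum.inr (Sum.inl v)) = x (Sum.inr (v, 0)) := by
  unfold nodeSum
  rw [sum_eq_single (Sum.inr (v, 0) : TVar N)]
  · rw [if_pos (tsrc_zero v), if_neg ttgt_ne_first, sub_zero]
  · intro i _ hi
    rw [if_neg fun h => hi (tsrc_eq_first.1 h), if_neg ttgt_ne_first, sub_zero]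
  · intro h
    exact absurd (mem_univ _) h

theorem nodeSum_last (x : TVar N → ZMod s) (v : Fin N) :
    nodeSum tsrc ttgt x (Sum.inr (Sum.inr v)) = -x (Sum.inr (v, Fin.last N)) := by
  unfold nodeSum
  rw [sum_eq_single (Sum.inr (v, Fin.last N) : TVar N)]
  · rw [if_pos (ttgt_last v), if_neg tsrc_ne_last, zero_sub]
  · intro i _ hi
    rw [if_neg fun h => hi (ttgt_eq_last.1 h), if_neg tsrc_ne_last, sub_zero]
  · intro h
    exact absurd (mem_univ _) h

open Classical in
/-- The value of a variable, read off from a Boolean assignment. -/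
noncomputable def decv {s : ℕ} (f : ZMod s → Bool) : ZMod s :=
  if h : ∃ c : ZMod s, ∀ c' : ZMod s, f c' = decide (c' = c) then h.choose else 0

/-- The values of the variables, read off from a Boolean assignment. -/
noncomputable def dec {V : Type} {s : ℕ} (y : V × ZMod s → Bool) (i : V) : ZMod s :=
  decv fun c => y (i, c)

theorem dec_congr {V : Type} {y y' : V × ZMod s → Bool} {i : V}
    (h : ∀ c, y (i, c) = y' (i, c)) : dec y i = dec y' i := by
  unfold dec
  rw [funext h]

theorem dec_spec {V : Type} {y : V × ZMod s → Bool} {i : V}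
    (h : ∃ c : ZMod s, ∀ c' : ZMod s, y (i, c') = decide (c' = c)) (c' : ZMod s) :
    y (i, c') = decide (c' = dec y i) := by
  unfold dec decv
  rw [dif_pos h]
  exact h.choose_spec c'

/-- An assignment which satisfies all clauses of an equation and of the values of its variables
satisfies the equation. -/
theorem eq_of_holds {V : Type} [DecidableEq V] (C : Finset V) (T : V → ZMod s) (c : ZMod s)
    (y : V × ZMod s → Bool) (h1 : ∀ i ∈ C, ∀ K ∈ valueClauses s i, ∃ l ∈ K, y l.1 = l.2)
    (h2 : ∀ K ∈ eqClauses C T c, ∃ l ∈ K, y l.1 = l.2) : ∑ i ∈ C, T i * dec y i = c := by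
  by_contra hne
  have h3 : forbid2 C (fun i : C => dec y i) ∈ eqClauses C T c := by
    refine mem_image.2 ⟨_, mem_filter.2 ⟨mem_univ _, ?_⟩, rfl⟩
    rw [Finset.sum_coe_sort C (fun i => T i * dec y i)]
    exact hne
  obtain ⟨l, hl, hx⟩ := h2 _ h3
  obtain ⟨i, -, rfl⟩ := mem_image.1 hl
  have h4 := dec_spec (value_of_sat (i : V) y (h1 i i.2)) (dec y i)
  have hx' : y ((i : V), dec y i) = false := hx
  rw [h4] at hx'
  simp at hx'

theorem vars_valueClauses {V : Type} [DecidableEq V] {i : V} {K : Finset ((V × ZMod s) × Bool)}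
    (hK : K ∈ valueClauses s i) : ∀ l ∈ K, l.1.1 = i := by
  intro l hl
  rcases mem_insert.1 hK with rfl | hK
  · obtain ⟨c, -, rfl⟩ := mem_image.1 hl
    rfl
  · obtain ⟨q, -, rfl⟩ := mem_image.1 hK
    rcases mem_insert.1 hl with rfl | hl
    · rfl
    · rw [mem_singleton.1 hl]

theorem vars_eqClauses {V : Type} [DecidableEq V] {C : Finset V} {T : V → ZMod s} {c : ZMod s}
    {K : Finset ((V × ZMod s) × Bool)} (hK : K ∈ eqClauses C T c) : ∀ l ∈ K, l.1.1 ∈ C := by
  intro l hl
  obtain ⟨a, -, rfl⟩ := mem_image.1 hK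
  obtain ⟨i, -, rfl⟩ := mem_image.1 hl
  exact i.2

/-- If the equation of a node does not hold, some clause with variables at the node is false. -/
theorem tse_kill (b : Fin N → ZMod s) (q : TQ N) (y : TVar N × ZMod s → Bool)
    (h : nodeSum tsrc ttgt (dec y) q ≠ tchg b q) :
    ∃ C ∈ tseitinMod N s b, (∀ l ∈ C, l.1.1 ∈ tinc q) ∧ ¬ Holds y C := by
  by_contra hcon
  push Not at hcon
  apply h
  have hval : ∀ i ∈ tinc q, ∀ K ∈ valueClauses s i, ∃ l ∈ K, y l.1 = l.2 := by
    intro i hi K hK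
    refine hcon K (mem_tseitinMod.2 (Or.inl ⟨i, hK⟩)) fun l hl => ?_
    rw [vars_valueClauses hK l hl]
    exact hi
  rcases q with ⟨v, u⟩ | v | v
  · rw [nodeSum_step]
    exact eq_of_holds _ _ _ y hval fun K hK =>
      hcon K (mem_tseitinMod.2 (Or.inr (Or.inr (Or.inl ⟨v, u, hK⟩)))) (vars_eqClauses hK)
  · rw [nodeSum_first]
    have h1 := eq_of_holds {Sum.inr (v, 0)} 1 0 y hval fun K hK =>
      hcon K (mem_tseitinMod.2 (Or.inr (Or.inl ⟨v, hK⟩))) (vars_eqClauses hK)
    rw [sum_singleton, Pi.one_apply, one_mul] at h1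
    exact h1
  · rw [nodeSum_last]
    have h1 := eq_of_holds {Sum.inr (v, Fin.last N)} 1 (b v) y hval fun K hK =>
      hcon K (mem_tseitinMod.2 (Or.inr (Or.inr (Or.inr ⟨v, hK⟩)))) (vars_eqClauses hK)
    rw [sum_singleton, Pi.one_apply, one_mul] at h1
    show -dec y (Sum.inr (v, Fin.last N)) = -b v
    rw [h1]

/-- The values at a node only depend on the Boolean variables at the node. -/
theorem same_dec {q : TQ N} {y y' : TVar N × ZMod s → Bool}
    (h : ∀ u ∈ (tinc q) ×ˢ (univ : Finset (ZMod s)), y u = y' u) :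
    Same tsrc ttgt q (dec y) (dec y') := by
  intro i hi
  exact dec_congr fun c => h _ (mem_product.2 ⟨mem_tinc hi, mem_univ _⟩)

end Pool.Agent.MP_9cec2c_lc.CQ
end

section

/-!
Cedents that depend on few variables: their approximations are exact.
-/

set_option autoImplicit false
set_option linter.unusedSectionVars false

namespace Pool.Agent.MP_9cec2c_lc.Frege

open Finset

variable {V : Type}

/-- The truth value of the formula as a function. -/
noncomputable def tv (K : Type) [Field K] (p : ℕ) (φ : Form V) : Fun K V :=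
  open Classical in fun x => if φ.eval p x then 1 else 0

/-- The indicator function of the points that falsify the cedent `Γ`. -/
noncomputable def Fals (K : Type) [Field K] (p : ℕ) (Γ : Cedent V) : Fun K V :=
  open Classical in fun x => if Holds p x Γ then 0 else 1

/-- All subformulas of the formula only depend on the variables in `Z`. -/
def Local (p : ℕ) (Z : Finset V) (φ : Form V) : Prop :=
  ∀ ψ ∈ φ.parts, ∀ x y : V → Bool, (∀ v ∈ Z, x v = y v) → (ψ.eval p x ↔ ψ.eval p y)

/-- The function only depends on the variables in `Z`. -/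
def Dep {K : Type} (Z : Finset V) (g : Fun K V) : Prop :=
  ∀ x y : V → Bool, (∀ v ∈ Z, x v = y v) → g x = g y

variable {K : Type} [Field K]

theorem Dep.prod {Z : Finset V} {ι : Type} (s : Finset ι) {g : ι → Fun K V}
    (h : ∀ i ∈ s, Dep Z (g i)) : Dep Z (∏ i ∈ s, g i) := by
  intro x y hxy
  rw [Finset.prod_apply, Finset.prod_apply]
  exact prod_congr rfl fun i hi => h i hi x y hxy

theorem Dep.one_sub {Z : Finset V} {g : Fun K V} (h : Dep Z g) : Dep Z (1 - g) := by
  intro x y hxy
  rw [Pi.sub_apply, Pi.sub_apply, h x y hxy]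
  rfl

theorem Dep.mem [Fintype V] {Z : Finset V} {g : Fun K V} (h : Dep Z g) {w : ℕ}
    (hw : Z.card ≤ w) : g ∈ Pol K V w := Pol_mono hw (mem_Pol_of_depends Z h)

theorem dep_tv {p : ℕ} {Z : Finset V} {φ : Form V} (h : Local p Z φ) : Dep Z (tv K p φ) := by
  intro x y hxy
  unfold tv
  have h1 := h φ (self_mem_parts φ) x y hxy
  by_cases hx : φ.eval p x
  · rw [if_pos hx, if_pos (h1.1 hx)]
  · rw [if_neg hx, if_neg fun hy => hx (h1.2 hy)]

theorem bin_tv (p : ℕ) (φ : Form V) : Bin (tv K p φ) := by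
  intro x
  unfold tv
  split_ifs
  · exact Or.inr rfl
  · exact Or.inl rfl

theorem tv_eq_one {p : ℕ} {φ : Form V} {x : V → Bool} :
    tv K p φ x = 1 ↔ φ.eval p x := by
  unfold tv
  split_ifs with h
  · simp [h]
  · simp [h]

variable [Fintype K] [Fintype V] {J : Submodule K (Fun K V)} {B : ℕ}

theorem or_mem (hJ : Closed J B) {Z : Finset V} {w e : ℕ} (hZ : Z.card ≤ w) {h : Fun K V}
    (hh : h ∈ Pol K V e) {ι : Type} (s : Finset ι) {g : ι → Fun K V}
    (hg : ∀ i ∈ s, Dep Z (g i)) (h1 : ∀ i ∈ s, h * g i ∈ J) (hB : e + w + w ≤ B) :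
    h * (1 - ∏ i ∈ s, (1 - g i)) ∈ J := by
  classical
  induction s using Finset.induction_on with
  | empty =>
    rw [prod_empty, sub_self, mul_zero]
    exact J.zero_mem
  | insert i s hi ih =>
    rw [prod_insert hi]
    have h2 := ih (fun j hj => hg j (mem_insert_of_mem hj)) fun j hj => h1 j (mem_insert_of_mem hj)
    have h3 : h * (1 - (1 - g i) * ∏ j ∈ s, (1 - g j)) =
        h * (1 - ∏ j ∈ s, (1 - g j)) + (h * g i) * ∏ j ∈ s, (1 - g j) := by ring
    rw [h3]
    refine J.add_mem h2 (hJ (e + w) w _ _ hB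
      (mul_mem hh ((hg i (mem_insert_self _ _)).mem hZ)) ?_ (h1 i (mem_insert_self _ _)))
    exact (Dep.prod s fun j hj => (hg j (mem_insert_of_mem hj)).one_sub).mem hZ

theorem pow_sub_mem (hJ : Closed J B) {a b : Fun K V} {t w : ℕ} (ha : a ∈ Pol K V t)
    (hb : b ∈ Pol K V w) (hab : a - b ∈ J) (c : ℕ) (hB : (c + 1) * (t + w) ≤ B) :
    a ^ c - b ^ c ∈ J := by
  have hab' : a - b ∈ Pol K V (t + w) :=
    Submodule.sub_mem _ (Pol_mono (Nat.le_add_right _ _) ha) (Pol_mono (Nat.le_add_left _ _) hb)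
  induction c with
  | zero =>
    rw [pow_zero, pow_zero, sub_self]
    exact J.zero_mem
  | succ c ih =>
    have e1 : (c + 1 + 1) * (t + w) = (t + w) + c * (t + w) + (t + w) := by ring
    rw [e1] at hB
    have e2 : (c + 1) * (t + w) = c * (t + w) + (t + w) := by ring
    rw [e2] at ih
    have h1 := ih (by omega)
    have h2 : a ^ (c + 1) - b ^ (c + 1) = (a - b) * a ^ c + (a ^ c - b ^ c) * b := by ring
    rw [h2]
    have e3 : c * t ≤ c * (t + w) := Nat.mul_le_mul_left _ (Nat.le_add_right _ _)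
    have e4 : c * w ≤ c * (t + w) := Nat.mul_le_mul_left _ (Nat.le_add_left _ _)
    refine J.add_mem ?_ ?_
    · exact hJ (t + w) (c * t) _ _ (by omega) hab' (pow_mem ha c) hab
    · refine hJ (c * (t + w)) w _ _ (by omega) ?_ hb h1
      exact Submodule.sub_mem _ (Pol_mono e3 (pow_mem ha c)) (Pol_mono e4 (pow_mem hb c))

/-- The approximations of formulas that depend on few variables are exact modulo `J`. -/
theorem local_exact {p t w k₁ : ℕ} [CharP K p] (hJ : Closed J B) {P : Form V → Fun K V}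
    {O : Set (Form V)} (hO : ∀ φ ∈ O, ∀ ψ ∈ φ.parts, ψ ∈ O)
    (hvar : ∀ v, P (.var v) = mon K {v}) (hneg : ∀ φ, P (.neg φ) = 1 - P φ)
    (hcount : ∀ r m (F : Fin m → Form V), P (.count r m F) = cf (∑ i, P (F i) - (r : Fun K V)))
    (hdeg : ∀ φ ∈ O, P φ ∈ Pol K V t)
    (hd : ∀ m (F : Fin m → Form V), Form.disj m F ∈ O →
      Hor k₁ (Set.range fun i => P (F i)) (1 - P (.disj m F)))
    (hd' : ∀ m (F : Fin m → Form V), Form.disj m F ∈ O → ∀ i,
      P (F i) * (1 - P (.disj m F)) ∈ J)
    {Z : Finset V} (hZ : Z.card ≤ w)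
    (hB : k₁ * ((Fintype.card K - 1) * t) + (Fintype.card K - 1 + 2) * (t + w) ≤ B)
    (φ : Form V) (hφO : φ ∈ O) (hφ : Local p Z φ) : P φ - tv K p φ ∈ J := by
  classical
  have e0 : (Fintype.card K - 1 + 2) * (t + w) = (Fintype.card K - 1 + 1) * (t + w) + (t + w) := by
    ring
  have e1 : (Fintype.card K - 1 + 1) * (t + w) = (Fintype.card K - 1) * (t + w) + (t + w) := by ring
  have e2 : t + w ≤ (Fintype.card K - 1) * (t + w) := Nat.le_mul_of_pos_left _ card_sub_pos
  have hsub : ∀ {φ ψ : Form V}, ψ ∈ φ.parts → Local p Z φ → Local p Z ψ :=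
    fun h h' χ hχ => h' χ (parts_trans h hχ)
  induction φ with
  | var v =>
    have h1 : P (.var v) = tv K p (.var v) := by
      rw [hvar]
      funext x
      unfold mon tv
      by_cases h : x v = true
      · rw [if_pos (by simpa using h), if_pos (show (Form.var v).eval p x from h)]
      · rw [if_neg (by simpa using h), if_neg (show ¬ (Form.var v).eval p x from h)]
    rw [h1, sub_self]
    exact J.zero_mem
  | neg φ ih =>
    have hp : φ ∈ (Form.neg φ).parts := by
      rw [Form.parts]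
      exact Set.mem_insert_of_mem _ (self_mem_parts _)
    have h1 : tv K p (.neg φ) = 1 - tv K p φ := by
      funext x
      unfold tv
      rw [Pi.sub_apply, Pi.one_apply]
      by_cases h : φ.eval p x
      · rw [if_neg (by simpa [Form.eval] using h), if_pos h, sub_self]
      · rw [if_pos (by simpa [Form.eval] using h), if_neg h, sub_zero]
    rw [hneg, h1]
    have h2 : 1 - P φ - (1 - tv K p φ) = -(P φ - tv K p φ) := by ring
    rw [h2]
    exact J.neg_mem (ih (hO _ hφO _ hp) (hsub hp hφ))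
  | disj m F ih =>
    have hp : ∀ i, F i ∈ (Form.disj m F).parts := by
      intro i
      rw [Form.parts]
      exact Set.mem_insert_of_mem _ (Set.mem_iUnion.2 ⟨i, self_mem_parts _⟩)
    have hi : ∀ i, P (F i) - tv K p (F i) ∈ J := fun i =>
      ih i (hO _ hφO _ (hp i)) (hsub (hp i) hφ)
    have hFd : ∀ i, P (F i) ∈ Pol K V t := fun i => hdeg _ (hO _ hφO _ (hp i))
    have hFt : ∀ i, Dep Z (tv K p (F i)) := fun i => dep_tv (hsub (hp i) hφ)
    have hdif : ∀ i, P (F i) - tv K p (F i) ∈ Pol K V (t + w) := fun i =>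
      Submodule.sub_mem _ (Pol_mono (Nat.le_add_right _ _) (hFd i))
        (Pol_mono (Nat.le_add_left _ _) ((hFt i).mem hZ))
    have hdd : P (.disj m F) ∈ Pol K V t := hdeg _ hφO
    have hte : Dep Z (tv K p (.disj m F)) := dep_tv hφ
    have h1 : tv K p (.disj m F) = 1 - ∏ i ∈ (univ : Finset (Fin m)), (1 - tv K p (F i)) := by
      funext x
      rw [Pi.sub_apply, Pi.one_apply, Finset.prod_apply]
      by_cases h : ∃ i, (F i).eval p x
      · have h2 : tv K p (.disj m F) x = 1 := tv_eq_one.2 h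
        obtain ⟨i, hi⟩ := h
        rw [h2, prod_eq_zero (mem_univ i), sub_zero]
        rw [Pi.sub_apply, Pi.one_apply, tv_eq_one.2 hi, sub_self]
      · have h2 : tv K p (.disj m F) x = 0 := by
          rcases bin_tv (K := K) p (.disj m F) x with h3 | h3
          · exact h3
          · exact absurd (tv_eq_one.1 h3) h
        rw [h2, prod_eq_one, sub_self]
        intro i _
        rw [Pi.sub_apply, Pi.one_apply]
        rcases bin_tv (K := K) p (F i) x with h3 | h3
        · rw [h3, sub_zero]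
        · exact absurd ⟨i, tv_eq_one.1 h3⟩ h
    -- the first half
    have h2 : (1 - (1 - P (.disj m F))) * (1 - tv K p (.disj m F)) ∈ J := by
      refine pull_one hJ (G := Set.range fun i => P (F i)) (t := t) (by
        rintro _ ⟨i, rfl⟩
        exact hFd i) (hte.one_sub.mem hZ) ?_ k₁ _ (hd m F hφO) (by omega)
      rintro _ ⟨i, rfl⟩
      have h3 : tv K p (F i) * (1 - tv K p (.disj m F)) = 0 := by
        funext x
        rw [Pi.mul_apply, Pi.sub_apply, Pi.one_apply, Pi.zero_apply]
        rcases bin_tv (K := K) p (F i) x with h3 | h3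
        · rw [h3, zero_mul]
        · have h4 : tv K p (.disj m F) x = 1 := tv_eq_one.2 ⟨i, tv_eq_one.1 h3⟩
          rw [h4, sub_self, mul_zero]
      have h4 : P (F i) * (1 - tv K p (.disj m F)) =
          (P (F i) - tv K p (F i)) * (1 - tv K p (.disj m F)) +
          tv K p (F i) * (1 - tv K p (.disj m F)) := by ring
      show P (F i) * (1 - tv K p (.disj m F)) ∈ J
      rw [h4, h3, add_zero]
      exact hJ (t + w) w _ _ (by omega) (hdif i) (hte.one_sub.mem hZ) (hi i)
    -- the second half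
    have h3 : (1 - P (.disj m F)) * tv K p (.disj m F) ∈ J := by
      rw [h1]
      refine or_mem hJ hZ (Submodule.sub_mem _ (one_mem _) hdd) univ (fun i _ => hFt i)
        (fun i _ => ?_) (by omega)
      have h4 : (1 - P (.disj m F)) * tv K p (F i) = P (F i) * (1 - P (.disj m F)) -
          (P (F i) - tv K p (F i)) * (1 - P (.disj m F)) := by ring
      rw [h4]
      exact J.sub_mem (hd' m F hφO i) (hJ (t + w) t _ _ (by omega) (hdif i)
        (Submodule.sub_mem _ (one_mem _) hdd) (hi i))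
    have h4 : P (.disj m F) - tv K p (.disj m F) =
        (1 - (1 - P (.disj m F))) * (1 - tv K p (.disj m F)) -
        (1 - P (.disj m F)) * tv K p (.disj m F) := by ring
    rw [h4]
    exact J.sub_mem h2 h3
  | count r m F ih =>
    have hp : ∀ i, F i ∈ (Form.count r m F).parts := by
      intro i
      rw [Form.parts]
      exact Set.mem_insert_of_mem _ (Set.mem_iUnion.2 ⟨i, self_mem_parts _⟩)
    have hi : ∀ i, P (F i) - tv K p (F i) ∈ J := fun i =>
      ih i (hO _ hφO _ (hp i)) (hsub (hp i) hφ)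
    have hFd : ∀ i, P (F i) ∈ Pol K V t := fun i => hdeg _ (hO _ hφO _ (hp i))
    have hFt : ∀ i, Dep Z (tv K p (F i)) := fun i => dep_tv (hsub (hp i) hφ)
    have hr : ∀ e, (r : Fun K V) ∈ Pol K V e := by
      intro e
      have h2 : (r : Fun K V) = (r : K) • (1 : Fun K V) := by
        funext x
        rw [Pi.smul_apply, Pi.one_apply, smul_eq_mul, mul_one]
        rfl
      rw [h2]
      exact Submodule.smul_mem _ _ (one_mem _)
    have h1 : tv K p (.count r m F) = cf (∑ i, tv K p (F i) - (r : Fun K V)) := by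
      funext x
      rw [cf_apply, Pi.sub_apply, sum_bin fun i => bin_tv p _]
      have h2 : (r : Fun K V) x = (r : K) := rfl
      have h3 : {i | tv K p (F i) x = 1} = {i | (F i).eval p x} := by
        ext i
        exact tv_eq_one
      rw [h2, h3]
      by_cases h : Nat.ModEq p {i | (F i).eval p x}.ncard r
      · rw [if_pos (sub_eq_zero.2 ((CharP.natCast_eq_natCast K p).2 h))]
        exact tv_eq_one.2 h
      · rw [if_neg fun h4 => h ((CharP.natCast_eq_natCast K p).1 (sub_eq_zero.1 h4))]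
        rcases bin_tv (K := K) p (.count r m F) x with h4 | h4
        · exact h4
        · exact absurd (tv_eq_one.1 h4) h
    rw [h1, hcount]
    have h2 := pow_sub_mem hJ (a := ∑ i, P (F i) - (r : Fun K V))
      (b := ∑ i, tv K p (F i) - (r : Fun K V)) (t := t) (w := w)
      (Submodule.sub_mem _ (Submodule.sum_mem _ fun i _ => hFd i) (hr _))
      (Submodule.sub_mem _ (Submodule.sum_mem _ fun i _ => (hFt i).mem hZ) (hr _)) (by
        rw [sub_sub_sub_cancel_right, ← sum_sub_distrib]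
        exact J.sum_mem fun i _ => hi i) (Fintype.card K - 1) (by omega)
    have h3 : cf (∑ i, P (F i) - (r : Fun K V)) - cf (∑ i, tv K p (F i) - (r : Fun K V)) =
        -((∑ i, P (F i) - (r : Fun K V)) ^ (Fintype.card K - 1) -
          (∑ i, tv K p (F i) - (r : Fun K V)) ^ (Fintype.card K - 1)) := by
      unfold cf
      ring
    rw [h3]
    exact J.neg_mem h2

/-- A cedent that depends on few variables and whose falsification vanishes modulo `J` holds
modulo `J`. -/
theorem local_axiom {p t w k₁ E : ℕ} [CharP K p] (hJ : Closed J B) {P : Form V → Fun K V}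
    {O : Set (Form V)} (hO : ∀ φ ∈ O, ∀ ψ ∈ φ.parts, ψ ∈ O)
    (hvar : ∀ v, P (.var v) = mon K {v}) (hneg : ∀ φ, P (.neg φ) = 1 - P φ)
    (hcount : ∀ r m (F : Fin m → Form V), P (.count r m F) = cf (∑ i, P (F i) - (r : Fun K V)))
    (hdeg : ∀ φ ∈ O, P φ ∈ Pol K V t)
    (hd : ∀ m (F : Fin m → Form V), Form.disj m F ∈ O →
      Hor k₁ (Set.range fun i => P (F i)) (1 - P (.disj m F)))
    (hd' : ∀ m (F : Fin m → Form V), Form.disj m F ∈ O → ∀ i,
      P (F i) * (1 - P (.disj m F)) ∈ J)
    {Z : Finset V} (hZ : Z.card ≤ w)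
    (hB : k₁ * ((Fintype.card K - 1) * t) + (Fintype.card K - 1 + 2) * (t + w) ≤ B)
    (hB' : E + (t + w) + w ≤ B) {Γ : Cedent V} (hΓO : ∀ φ ∈ Γ, φ ∈ O)
    (hΓ : ∀ φ ∈ Γ, Local p Z φ) (hF : Fals K p Γ ∈ J) {H : Fun K V} (hH : H ∈ Pol K V E)
    (hH' : ∀ φ ∈ Γ, P φ * H ∈ J) : H ∈ J := by
  classical
  have h1 : (1 - Fals K p Γ) = 1 - ∏ φ ∈ Γ, (1 - tv K p φ) := by
    congr 1
    funext x
    rw [Finset.prod_apply]
    unfold Fals
    by_cases h : Holds p x Γ
    · rw [if_pos h]
      obtain ⟨φ, hφ, hx⟩ := h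
      rw [prod_eq_zero hφ]
      rw [Pi.sub_apply, Pi.one_apply, tv_eq_one.2 hx, sub_self]
    · rw [if_neg h, prod_eq_one]
      intro φ hφ
      rw [Pi.sub_apply, Pi.one_apply]
      rcases bin_tv (K := K) p φ x with h3 | h3
      · rw [h3, sub_zero]
      · exact absurd ⟨φ, hφ, tv_eq_one.1 h3⟩ h
  have hFd : Dep Z (Fals K p Γ) := by
    have h2 : Fals K p Γ = 1 - (1 - Fals K p Γ) := by ring
    rw [h2, h1]
    have h3 : (1 : Fun K V) - (1 - ∏ φ ∈ Γ, (1 - tv K p φ)) = ∏ φ ∈ Γ, (1 - tv K p φ) := by ring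
    rw [h3]
    exact Dep.prod Γ fun φ hφ => (dep_tv (hΓ φ hφ)).one_sub
  have h2 : H * (1 - Fals K p Γ) ∈ J := by
    rw [h1]
    refine or_mem hJ hZ hH Γ (fun φ hφ => dep_tv (hΓ φ hφ)) (fun φ hφ => ?_) (by omega)
    have h3 := local_exact hJ hO hvar hneg hcount hdeg hd hd' hZ hB φ (hΓO φ hφ) (hΓ φ hφ)
    have h4 : H * tv K p φ = P φ * H - (P φ - tv K p φ) * H := by ring
    rw [h4]
    refine J.sub_mem (hH' φ hφ) (hJ (t + w) E _ _ (by omega) ?_ hH h3)
    exact Submodule.sub_mem _ (Pol_mono (Nat.le_add_right _ _) (hdeg φ (hΓO φ hφ)))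
      (Pol_mono (Nat.le_add_left _ _) ((dep_tv (hΓ φ hφ)).mem hZ))
  have h3 : Fals K p Γ * H ∈ J := hJ w E _ _ (by omega) (hFd.mem hZ) hH hF
  have h4 : H = H * (1 - Fals K p Γ) + Fals K p Γ * H := by ring
  rw [h4]
  exact J.add_mem h2 h3

end Pool.Agent.MP_9cec2c_lc.Frege
end

section

/-!
A world with slow growth gives a lower bound for the size of refutations of bounded depth.
-/

set_option autoImplicit false
set_option linter.unusedSectionVars false

namespace Pool.Agent.MP_9cec2c_lc.Frege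

open Finset

variable {K V W : Type} [Field K] [AddCommGroup W] [Module K W] [Fintype K] [Fintype V]
  [FiniteDimensional K W] {M : ℕ → Submodule K W} {act : Fun K V →ₗ[K] W →ₗ[K] W} {A : ℕ}

/-- The world satisfies the cedents in `Φ` on the level `a`: each of them depends on at most `w`
variables and its falsification vanishes. -/
def Satisfies (p : ℕ) (M : ℕ → Submodule K W) (act : Fun K V →ₗ[K] W →ₗ[K] W) (a w : ℕ)
    (Φ : Set (Cedent V)) : Prop :=
  ∀ Γ ∈ Φ, (∃ Z : Finset V, Z.card ≤ w ∧ ∀ φ ∈ Γ, Local p Z φ) ∧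
    ∀ u ∈ M a, act (Fals K p Γ) u = 0

/-- The lower bound, with all parameters. The number `k₁` is the number of factors for the
disjunctions inside formulas, `k₂` the number of factors for cedents. -/
theorem core {p b d N : ℕ} [CharP K p] (hW : World M act A) {a₀ m k₁ k₂ w : ℕ} {Λ₁ Λ₂ C : ℝ}
    (hk₁ : 1 ≤ k₁) (hpos : 0 < Module.finrank K (M a₀)) (hC : 0 ≤ C)
    (hΛ₁ : 1 / 2 ≤ Λ₁) (hΛ₂ : 1 / 2 ≤ Λ₂)
    (hA₁ : a₀ + (m + 1 + k₁ * (Fintype.card K - 1)) *
      (k₁ * (Fintype.card K - 1)) ^ (d - 1) ≤ A)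
    (hgrow₁ : ∀ j ≤ m, (Module.finrank K (M (a₀ + j * (k₁ * (Fintype.card K - 1)) ^ (d - 1))) : ℝ) ≤
      C * (Λ₁ / 2) ^ j * Module.finrank K (M a₀))
    (hN₁ : N * (2 * C * (1 - 1 / (2 * Λ₁)) ^ k₁ + C / 2 ^ m) < 1)
    (hA₂ : a₀ + (m + 1 + k₂ * (Fintype.card K - 1)) *
      (k₁ * (Fintype.card K - 1)) ^ d ≤ A)
    (hgrow₂ : ∀ j ≤ m, (Module.finrank K (M (a₀ + j * (k₁ * (Fintype.card K - 1)) ^ d)) : ℝ) ≤
      C * (Λ₂ / 2) ^ j * Module.finrank K (M a₀))
    (hN₂ : N * (2 * C * (1 - 1 / (2 * Λ₂)) ^ k₂ + C / 2 ^ m) < 1)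
    (hB₁ : a₀ + (2 * k₂ * (Fintype.card K - 1) + 2) * (k₁ * (Fintype.card K - 1)) ^ d ≤ A)
    (hB₂ : a₀ + (k₂ * (Fintype.card K - 1) + k₁ * (Fintype.card K - 1)) *
      (k₁ * (Fintype.card K - 1)) ^ d ≤ A)
    (hB₃ : a₀ + (k₂ * (Fintype.card K - 1) + b) * (k₁ * (Fintype.card K - 1)) ^ d ≤ A)
    (hB₄ : a₀ + k₁ * (Fintype.card K - 1) * (k₁ * (Fintype.card K - 1)) ^ d +
      (Fintype.card K + 1) * ((k₁ * (Fintype.card K - 1)) ^ d + w) ≤ A)
    (hB₅ : a₀ + k₂ * (Fintype.card K - 1) * (k₁ * (Fintype.card K - 1)) ^ d +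
      (k₁ * (Fintype.card K - 1)) ^ d + 2 * w ≤ A)
    {Φ : Set (Cedent V)} (hΦ : Satisfies p M act a₀ w Φ) {l : ℕ} (L : Fin l → Cedent V)
    (hL : IsRefutation p b d Φ L) : N < size L := by
  classical
  by_contra hcon
  rw [not_lt] at hcon
  obtain ⟨hLd, ⟨i₀, hi₀⟩, hLs⟩ := hL
  obtain ⟨c, hc⟩ : ∃ c, c = Fintype.card K - 1 := ⟨_, rfl⟩
  have hc0 : 0 < c := by
    rw [hc]
    exact card_sub_pos
  obtain ⟨t, ht⟩ : ∃ t, t = (k₁ * c) ^ d := ⟨_, rfl⟩
  obtain ⟨P, hP⟩ : ∃ P : Form V → Fun K V, P = app M act a₀ N k₁ := ⟨_, rfl⟩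
  have hcard : Fintype.card K + 1 = c + 2 := by
    have := Fintype.one_lt_card (α := K)
    omega
  have hτ : 0 < k₁ * c := Nat.mul_pos hk₁ hc0
  have hdepth : ∀ φ ∈ occ L, φ.depth ≤ d := by
    rintro ψ ⟨i, φ, hφ, hψ⟩
    exact (depth_parts hψ).trans (hLd i φ hφ)
  have hdeg : ∀ φ ∈ occ L, P φ ∈ Pol K V t := by
    intro φ hφ
    rw [hP, ht, hc]
    refine Pol_mono (Nat.pow_le_pow_right (by rw [← hc]; exact hτ) (hdepth φ hφ)) (app_mem hk₁ φ)
  have hOp : ∀ φ ∈ occ L, ∀ ψ ∈ φ.parts, ψ ∈ occ L := by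
    rintro φ ⟨i, χ, hχ, hφ⟩ ψ hψ
    exact ⟨i, χ, hχ, parts_trans hφ hψ⟩
  -- the vector
  obtain ⟨f, hf, hf0, hf1, hf2⟩ := exists_vector (k₁ := k₁) (k₂ := k₂) (M := M) (act := act)
    (a₀ := a₀) L hcon hpos (by
      intro ψ hψ
      refine exists_good hW hΛ₁ hC (t := (k₁ * (Fintype.card K - 1)) ^ (d - 1)) ?_ ?_ hA₁
        hgrow₁ hpos hN₁
      · intro g hg
        cases ψ with
        | var v => exact absurd hg (Set.notMem_empty g)
        | neg φ => exact absurd hg (Set.notMem_empty g)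
        | count r m F => exact absurd hg (Set.notMem_empty g)
        | disj m F =>
          obtain ⟨i, rfl⟩ := hg
          have h1 := hdepth _ hψ
          rw [Form.depth] at h1
          have h2 := le_sup (f := fun i => (F i).depth) (mem_univ i)
          refine Pol_mono (Nat.pow_le_pow_right (by rw [← hc]; exact hτ) ?_) (app_mem hk₁ (F i))
          show (F i).depth ≤ d - 1
          have h3 : (fun i => (F i).depth) i = (F i).depth := rfl
          omega
      · intro g hg
        cases ψ with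
        | var v => exact absurd hg (Set.notMem_empty g)
        | neg φ => exact absurd hg (Set.notMem_empty g)
        | count r m F => exact absurd hg (Set.notMem_empty g)
        | disj m F =>
          obtain ⟨i, rfl⟩ := hg
          exact app_bin _) (by
      intro i
      refine exists_good hW hΛ₂ hC (t := (k₁ * (Fintype.card K - 1)) ^ d) ?_ ?_ hA₂
        hgrow₂ hpos hN₂
      · rintro _ ⟨φ, hφ, rfl⟩
        have h1 := hdeg φ ⟨i, φ, hφ, self_mem_parts φ⟩
        rwa [hP, ht, hc] at h1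
      · rintro _ ⟨φ, hφ, rfl⟩
        exact app_bin _)
  rw [← hP] at hf1 hf2
  rw [← hc, ← ht] at hB₁ hB₂ hB₃ hB₅
  rw [← hc, ← ht, hcard] at hB₄
  -- the annihilator
  obtain ⟨J, hJ⟩ : ∃ J : Submodule K (Fun K V), J = LinearMap.ker (act.flip f) := ⟨_, rfl⟩
  have hmem : ∀ u, u ∈ J ↔ act u f = 0 := by
    intro u
    rw [hJ, LinearMap.mem_ker, LinearMap.flip_apply]
  have ha₀ : a₀ ≤ A := by omega
  have hcl : Closed J (A - a₀) := by
    intro e e' u v hB hu hv huJ
    rw [hmem] at huJ ⊢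
    rw [mul_comm, hW.act_mul a₀ e' e v u f (by omega) hv hu hf, huJ, map_zero]
  have h1J : (1 : Fun K V) ∉ J := by
    rw [hmem, hW.act_one a₀ f ha₀ hf]
    exact hf0
  have e1 : (2 * k₂ * c + 2) * t = 2 * (k₂ * (c * t)) + 2 * t := by ring
  have e2 : (k₂ * c + k₁ * c) * t = k₂ * (c * t) + k₁ * (c * t) := by ring
  have e3 : (k₂ * c + b) * t = k₂ * (c * t) + b * t := by ring
  have e4 : k₁ * c * t = k₁ * (c * t) := by ring
  have e5 : k₂ * c * t = k₂ * (c * t) := by ring
  rw [e1] at hB₁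
  rw [e2] at hB₂
  rw [e3] at hB₃
  rw [e4] at hB₄
  rw [e5] at hB₅
  have hd : ∀ m (F : Fin m → Form V), Form.disj m F ∈ occ L →
      Hor k₁ (Set.range fun i => P (F i)) (1 - P (.disj m F)) := by
    intro m F _
    have h2 : 1 - P (.disj m F) = hor M act a₀ N k₁ (Set.range fun i => P (F i)) := by
      rw [hP, app, sub_sub_cancel]
    rw [h2]
    exact hor_hor _
  have hd' : ∀ m (F : Fin m → Form V), Form.disj m F ∈ occ L → ∀ i,
      P (F i) * (1 - P (.disj m F)) ∈ J := by
    intro m F hF i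
    have h2 : 1 - P (.disj m F) = hor M act a₀ N k₁ (Set.range fun i => P (F i)) := by
      rw [hP, app, sub_sub_cancel]
    rw [hmem, h2]
    exact hf1 m F hF i
  have hneg : ∀ φ, P (.neg φ) = 1 - P φ := by
    intro φ
    rw [hP, app]
  have hH' : ∀ i, ∀ φ ∈ L i, P φ * hor M act a₀ N k₂ (P '' (L i : Set (Form V))) ∈ J := by
    intro i φ hφ
    rw [hmem]
    exact hf2 i φ hφ
  have hdegL : ∀ i, ∀ g ∈ P '' (L i : Set (Form V)), g ∈ Pol K V t := by
    rintro i _ ⟨φ, hφ, rfl⟩
    exact hdeg φ ⟨i, φ, hφ, self_mem_parts φ⟩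
  have key := sound (p := p) (b := b) (t := t) (k₁ := k₁) (k₂ := k₂) hcl (P := P)
    (H := fun Γ => hor M act a₀ N k₂ (P '' (Γ : Set (Form V)))) (L := L) (Φ := Φ) hneg
    (fun φ => by rw [hP]; exact app_bin φ) (fun x => by rw [hP]; exact app_respects x) hdeg hd hd'
    (fun Γ => hor_hor _) hH' (by
      intro i hi
      obtain ⟨⟨Z, hZ, hZΓ⟩, hΓ⟩ := hΦ _ hi
      refine local_axiom (w := w) (t := t) (k₁ := k₁) (E := k₂ * (c * t)) hcl (O := occ L) hOp
        (fun v => by rw [hP, app]) hneg (fun r m F => by rw [hP, app]) hdeg hd hd' hZ ?_ ?_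
        (fun φ hφ => ⟨i, φ, hφ, self_mem_parts φ⟩) hZΓ ((hmem _).2 (hΓ f hf)) ?_ (hH' i)
      · rw [← hc]
        omega
      · omega
      · rw [hc]
        exact (hor_hor _).mem (hdegL i)) (by rw [← hc]; omega) (by rw [← hc]; omega)
    (by rw [← hc]; omega) hLs i₀
  apply h1J
  obtain ⟨q, hq, hq'⟩ := hor_hor (M := M) (act := act) (a₀ := a₀) (N := N) (k := k₂)
    (P '' ((L i₀ : Cedent V) : Set (Form V)))
  have h2 : ∀ j, q j = 0 := by
    intro j
    have h3 := hq j
    rw [hi₀, coe_empty, Set.image_empty, Submodule.span_empty] at h3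
    exact (Submodule.mem_bot K).1 h3
  have h3 : hor M act a₀ N k₂ (P '' ((L i₀ : Cedent V) : Set (Form V))) = 1 := by
    rw [hq']
    refine prod_eq_one fun j _ => ?_
    rw [h2 j]
    unfold cf
    rw [zero_pow card_sub_pos.ne', sub_zero]
  rwa [h3] at key

end Pool.Agent.MP_9cec2c_lc.Frege
end

section

/-!
FLAT for all moduli: the clauses of the formula act as zero on a twisted world.
-/

set_option autoImplicit false
set_option linter.unusedSectionVars false

namespace Pool.Agent.MP_9cec2c_lc.Flat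

open Finset

/-- The Boolean variable `(i, c)` at the value `z` of the variable `i`. -/
def oneHot {V : Type} {r : ℕ} (u : V × ZMod r) (z : ZMod r) : Bool := decide (z = u.2)

section

variable {V : Type} [DecidableEq V] {r : ℕ} [NeZero r]

theorem enc_oneHot (x : V → ZMod r) (i : V) (c : ZMod r) :
    enc (Prod.fst : V × ZMod r → V) oneHot x (i, c) = decide (x i = c) := rfl

/-- The encoding of a point satisfies the clauses of the values. -/
theorem valueClauses_enc (i : V) (x : V → ZMod r) {K : Finset ((V × ZMod r) × Bool)}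
    (hK : K ∈ valueClauses r i) :
    ∃ l ∈ K, enc (Prod.fst : V × ZMod r → V) oneHot x l.1 = l.2 := by
  rcases mem_insert.1 hK with rfl | hK
  · refine ⟨((i, x i), true), mem_image.2 ⟨x i, mem_univ _, rfl⟩, ?_⟩
    show decide (x i = x i) = true
    exact decide_eq_true rfl
  · obtain ⟨q, hq, rfl⟩ := mem_image.1 hK
    have hne := (mem_filter.1 hq).2
    by_cases h : x i = q.1
    · refine ⟨((i, q.2), false), mem_insert_of_mem (mem_singleton_self _), ?_⟩
      show decide (x i = q.2) = false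
      exact decide_eq_false fun h2 => hne (h.symm.trans h2)
    · refine ⟨((i, q.1), false), mem_insert_self _ _, ?_⟩
      show decide (x i = q.1) = false
      exact decide_eq_false h

/-- If the encoding of a point violates a clause of an equation, the point has the forbidden
values. -/
theorem forbid2_enc (C : Finset V) (a : C → ZMod r) (x : V → ZMod r)
    (h : ∀ l ∈ forbid2 C a, enc (Prod.fst : V × ZMod r → V) oneHot x l.1 ≠ l.2) (i : C) :
    x i = a i := by
  have h1 := h _ (mem_image.2 ⟨i, mem_univ _, rfl⟩)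
  by_contra hne
  apply h1
  show decide (x i = a i) = false
  exact decide_eq_false hne

end

variable {K : Type} [Field K] {N m r : ℕ} [NeZero m] [NeZero r]

/-- The equations act as zero. -/
theorem eqClauses_kill {ω : K} (hω : IsPrimitiveRoot ω r) {sig : Cfg2 N m → Cfg2 N m → K}
    {G : ℕ → Set (Cfg2 N m)} {L : ℕ} (h : Twist r (mvVar2 N m r) sig G L) {Γ : Type}
    {D : Γ → Cfg2 N m} {kap : Γ → K} {i e : ℕ} (hi : i + e + 3 ≤ L) {f : Cfg2 N m → K}
    (hf : f ∈ lev D kap G i) {S : Finset (TVar N)} {T T' : TVar N → ZMod r} {c : ZMod r}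
    (hT' : twt T' ≤ 3) (hpr : ∀ x, pr T' x = ∑ j ∈ S, T j * x j)
    (htr : tr (mvVar2 N m r) sig T' f = ew ω c • f)
    {C : Finset ((TVar N × ZMod r) × Bool)} (hC : C ∈ eqClauses S T c)
    {P : Frege.Fun K (TVar N × ZMod r)} (hP : P ∈ Frege.Pol K (TVar N × ZMod r) e)
    (hPC : ∀ x, P x ≠ 0 → ∀ l ∈ C, x l.1 ≠ l.2) :
    act ω Prod.fst oneHot (mvVar2 N m r) sig P f = 0 := by
  obtain ⟨a, ha, rfl⟩ := mem_image.1 hC
  refine h.act_kill hω Prod.fst oneHot (by omega) hP hf htr (mem_filter.1 ha).2 fun x hx => ?_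
  rw [hpr, ← Finset.sum_coe_sort S (fun j => T j * x j)]
  refine sum_congr rfl fun j _ => ?_
  rw [forbid2_enc S a x (hPC _ hx) j]

/-- All clauses of the formula act as zero. -/
theorem tseitinMod_kill {ω : K} (hω : IsPrimitiveRoot ω r) (hr : 1 < r) (hrm : r ∣ m)
    {sig : Cfg2 N m → Cfg2 N m → K} {G : ℕ → Set (Cfg2 N m)} {L : ℕ}
    (h : Twist r (mvVar2 N m r) sig G L) {b : Fin N → ZMod r} {kap ε : Fin N → K}
    (hε : ∀ v c, c ∈ G L → sig c (c + mvRow2 v univ (gen m r)) = ε v)
    (hk : ∀ v, ε v * kap v = ew ω (b v)) {i e : ℕ} (hi : i + e + 3 ≤ L) {f : Cfg2 N m → K}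
    (hf : f ∈ lev (fun v => mvRow2 v univ (gen m r)) kap G i)
    {C : Finset ((TVar N × ZMod r) × Bool)} (hC : C ∈ tseitinMod N r b)
    {P : Frege.Fun K (TVar N × ZMod r)} (hP : P ∈ Frege.Pol K (TVar N × ZMod r) e)
    (hPC : ∀ x, P x ≠ 0 → ∀ l ∈ C, x l.1 ≠ l.2) :
    act ω Prod.fst oneHot (mvVar2 N m r) sig P f = 0 := by
  have hone : ∀ (j : TVar N) (x : TVar N → ZMod r),
      pr (Pi.single j 1) x = ∑ l ∈ ({j} : Finset (TVar N)), (1 : TVar N → ZMod r) l * x l := by
    intro j x
    rw [pr_single_left, sum_singleton, Pi.one_apply]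
  have hwt : ∀ j : TVar N, twt (Pi.single j 1 : TVar N → ZMod r) ≤ 3 := fun j =>
    (twt_single _ _).trans (by norm_num)
  rcases mem_tseitinMod.1 hC with ⟨j, hC⟩ | ⟨v, hC⟩ | ⟨v, u, hC⟩ | ⟨v, hC⟩
  · have h0 : (fun x : TVar N → ZMod r => P (enc Prod.fst oneHot x)) = 0 := by
      funext x
      by_contra hx
      obtain ⟨l, hl, hxl⟩ := valueClauses_enc j x hC
      exact hPC _ hx l hl hxl
    rw [act_apply, h0, map_zero, LinearMap.zero_apply]
  · refine eqClauses_kill hω h hi hf (hwt _) (hone _) ?_ hC hP hPC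
    rw [ew_zero, one_smul]
    refine h.tr_zero ?_ (by omega) hf
    rw [tot_single_one hr, mvVar2_first]
  · refine eqClauses_kill hω h hi hf (twt_stepT v u) (pr_stepT v u) ?_ hC hP hPC
    rw [ew_zero, one_smul]
    exact h.tr_zero (tot_stepT hr hrm v u) (by omega) hf
  · refine eqClauses_kill hω h hi hf (hwt _) (hone _) ?_ hC hP hPC
    rw [← hk v]
    refine h.tr_gauge (D := fun v => mvRow2 v univ (gen m r)) ?_ (hε v) (by omega) hf
    rw [tot_single_one hr, mvVar2_last]

end Pool.Agent.MP_9cec2c_lc.Flat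
end

section

/-!
FLAT for all moduli: the gauge fixing and the transports of a good set form a twisted world.
-/

set_option autoImplicit false
set_option linter.unusedSectionVars false

namespace Pool.Agent.MP_9cec2c_lc.Flat.Herm

open Finset

/-! ### The phases of the gauge group do not depend on `m` -/

section Phases

variable {m r : ℕ} [NeZero m] [NeZero r]

theorem ph_iot (hrm : r ∣ m) (k : ZMod r) :
    ph (iot (m := m) hrm k) = Complex.exp (2 * Real.pi * Complex.I * k.val / r) := by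
  have hr : (r : ℂ) ≠ 0 := by exact_mod_cast NeZero.ne r
  have hm : (m : ℂ) ≠ 0 := by exact_mod_cast NeZero.ne m
  have h1 : ((k.val : ℕ) : ZMod r) = k := ZMod.natCast_zmod_val k
  have h2 : iot (m := m) hrm k = (((k.val * (m / r) : ℕ) : ℤ) : ZMod m) := by
    conv_lhs => rw [← h1]
    rw [iot_natCast]
    unfold gen
    rw [nsmul_eq_mul, Int.cast_natCast, Nat.cast_mul]
  unfold ph
  rw [h2, ZMod.stdAddChar_coe]
  congr 1
  have h3 : (((k.val * (m / r) : ℕ) : ℤ) : ℂ) = (k.val : ℂ) * ((m : ℂ) / r) := by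
    rw [Int.cast_natCast, Nat.cast_mul, Nat.cast_div hrm hr]
  rw [h3]
  field_simp

/-- The same `ε` is small for all `m`. -/
theorem exists_small_unif (r : ℕ) [NeZero r] : ∃ ε : ℝ, 0 < ε ∧
    ∀ (m : ℕ) [NeZero m] (hrm : r ∣ m), Small (m := m) hrm ε := by
  obtain ⟨ε, hε, h0, h⟩ := exists_small (m := r) (r := r) dvd_rfl
  refine ⟨ε, hε, ?_⟩
  intro m _ hrm
  refine ⟨h0, fun k hk => ?_⟩
  have h1 := h k hk
  rw [ph_iot] at h1 ⊢
  exact h1

end Phases

variable {K : Type} [Field K] {N m r : ℕ} [NeZero m] [NeZero r] {T : (Fin N → ℂ) → ℂ} {ε : ℝ}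
  {L : ℕ} {Gam : Finset (Cfg2 N m)}

/-- The transport, as a scalar of the field `K`. -/
noncomputable def sigK (ω : K) (q0 : ZMod r) (hrm : r ∣ m) (T : (Fin N → ℂ) → ℂ) (ε : ℝ)
    (v0 : Fin N) (b c : Cfg2 N m) : K := ew ω (q0 * sig hrm T ε v0 b c)

theorem mvVar2_isMove' (v : TVar N) (k : ZMod r) : IsMove2 r (k.val • mvVar2 N m r v) :=
  mvVar2_isMove v (ZMod.val_lt k)

/-- The twisted world of a good set. -/
theorem twist {ω : K} (hω : IsPrimitiveRoot ω r) (q0 : ZMod r) {hrm : r ∣ m}
    (hT : Spectator (m := m) hrm T) (hε : Small (m := m) hrm ε) (v0 : Fin N)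
    (hG : GoodSet T r L ε Gam) :
    Twist r (mvVar2 N m r) (sigK ω q0 hrm T ε v0) (Nbh hrm Gam) L where
  torsion := mvVar2_torsion hrm
  near i c S hc _ := Nbh_move hrm Gam mvVar2_isMove' hc S
  mono i j hij _ := Nbh_mono hrm Gam hij
  refl c hc := by
    unfold sigK
    rw [sig_self hε v0 (frame_of_mem hT v0 hG hc), mul_zero, ew_zero]
  cocycle i c S S' hc hi := by
    have h := sig_move hT hε v0 hG mvVar2_isMove' hc S S' hi
    unfold sigK
    rw [← ew_add hω, ← mul_add]
    congr 2

theorem mvRow2_univ_gen (hrm : r ∣ m) (v : Fin N) :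
    mvRow2 v univ (gen m r) = gau hrm (Pi.single v 1) := by
  rw [← mvRow2_univ hrm v 1]
  congr 1
  have h1 := iot_natCast (m := m) hrm 1
  rw [Nat.cast_one, one_smul] at h1
  exact h1.symm

/-- The transport is gauge invariant. -/
theorem sigK_gauge (ω : K) (q0 : ZMod r) (hrm : r ∣ m) (v0 : Fin N)
    (b c : Cfg2 N m) (v : Fin N) :
    sigK ω q0 hrm T ε v0 (b + mvRow2 v univ (gen m r)) (c + mvRow2 v univ (gen m r)) =
      sigK ω q0 hrm T ε v0 b c := by
  unfold sigK
  rw [mvRow2_univ_gen hrm v, sig_gau]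

/-- The transport along a full row. -/
theorem sigK_row (ω : K) (q0 : ZMod r) {hrm : r ∣ m}
    (hT : Spectator (m := m) hrm T) (hε : Small (m := m) hrm ε) (v0 : Fin N)
    (hG : GoodSet T r L ε Gam) (v : Fin N) {c : Cfg2 N m} (hc : c ∈ Nbh hrm Gam L) :
    sigK ω q0 hrm T ε v0 c (c + mvRow2 v univ (gen m r)) =
      ew ω (if v = v0 then -q0 else 0) := by
  unfold sigK
  have h1 : mvRow2 v univ (gen m r) = (mvRow2 v univ (iot hrm 1) : Cfg2 N m) := by
    rw [mvRow2_univ_gen hrm v, mvRow2_univ]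
  rw [h1, sig_row hT hε v0 hG hc v 1]
  split_ifs
  · rw [mul_neg, mul_one]
  · rw [mul_zero]

/-- The gauge characters of the levels. -/
def kapR (ω : K) (q0 : ZMod r) (v0 : Fin N) (b : Fin N → ZMod r) (v : Fin N) : K :=
  ew ω (b v + if v = v0 then q0 else 0)

theorem row_mul_kapR {ω : K} (hω : IsPrimitiveRoot ω r) (q0 : ZMod r) (v0 : Fin N)
    (b : Fin N → ZMod r) (v : Fin N) :
    ew ω (if v = v0 then -q0 else 0) * kapR ω q0 v0 b v = ew ω (b v) := by
  unfold kapR
  rw [← ew_add hω]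
  congr 1
  split_ifs
  · ring
  · ring

theorem kapR_ne_zero {ω : K} (hω : IsPrimitiveRoot ω r) (q0 : ZMod r) (v0 : Fin N)
    (b : Fin N → ZMod r) (v : Fin N) : kapR ω q0 v0 b v ≠ 0 := ew_ne_zero hω _

theorem kapR_pow {ω : K} (hω : IsPrimitiveRoot ω r) (q0 : ZMod r) (v0 : Fin N)
    (b : Fin N → ZMod r) (v : Fin N) : kapR ω q0 v0 b v ^ r = 1 := by
  unfold kapR ew
  rw [← pow_mul, mul_comm, pow_mul, hω.pow_eq_one, one_pow]

theorem ew_sum {ω : K} (hω : IsPrimitiveRoot ω r) {ι : Type} (s : Finset ι) (f : ι → ZMod r) :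
    ew ω (∑ i ∈ s, f i) = ∏ i ∈ s, ew ω (f i) := by
  classical
  induction s using Finset.induction_on with
  | empty => rw [sum_empty, prod_empty, ew_zero]
  | insert i s hi ih => rw [sum_insert hi, prod_insert hi, ew_add hω, ih]

theorem prod_kapR {ω : K} (hω : IsPrimitiveRoot ω r) (v0 : Fin N) (b : Fin N → ZMod r) :
    ∏ v, kapR ω (-∑ u, b u) v0 b v = 1 := by
  unfold kapR
  rw [← ew_sum hω, sum_add_distrib, sum_ite_eq' univ v0, if_pos (mem_univ _), add_neg_cancel,
    ew_zero]

/-- The relations of the gauge group: the configuration does not change exactly for the constant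
parameters. -/
theorem gau_eq_zero_iff (hrm : r ∣ m) (v0 : Fin N) (τ : Fin N → ZMod r) :
    gau (m := m) hrm τ = 0 ↔ ∀ v, τ v = τ v0 := by
  constructor
  · intro h v
    rcases lt_trichotomy v v0 with h1 | h1 | h1
    · have h2 := congrFun h ⟨(v, v0), h1⟩
      have h3 : iot (m := m) hrm (τ v) - iot hrm (τ v0) = 0 := h2
      exact iot_injective (m := m) hrm (sub_eq_zero.1 h3)
    · rw [h1]
    · have h2 := congrFun h ⟨(v0, v), h1⟩
      have h3 : iot (m := m) hrm (τ v0) - iot hrm (τ v) = 0 := h2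
      exact (iot_injective (m := m) hrm (sub_eq_zero.1 h3)).symm
  · intro h
    have h1 : τ = fun _ => τ v0 := funext h
    rw [h1]
    exact gau_const hrm _

end Pool.Agent.MP_9cec2c_lc.Flat.Herm
end

section

/-!
FLAT for all moduli: the world of the Tseitin contradiction modulo `r` on `K_N`.
-/

set_option autoImplicit false
set_option linter.unusedSectionVars false

namespace Pool.Agent.MP_9cec2c_lc.Flat

open Finset Frege

/-- The cedents of the clauses of the Tseitin contradiction modulo `r`. -/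
def tseitinModCedents (N r : ℕ) [NeZero r] (b : Fin N → ZMod r) :
    Set (Cedent (TVar N × ZMod r)) :=
  {Γ | ∃ κ ∈ tseitinMod N r b, Γ = toCedent κ}

/-- A clause of literals depends on few variables. -/
theorem local_clause {V : Type} (p : ℕ) (κ : Finset (V × Bool)) :
    ∃ Z : Finset V, Z.card ≤ κ.card ∧ ∀ φ ∈ toCedent κ, Local p Z φ := by
  classical
  refine ⟨κ.image Prod.fst, card_image_le, ?_⟩
  intro φ hφ
  unfold toCedent at hφ
  obtain ⟨l, hl, rfl⟩ := mem_image.1 hφ
  have hl' : l.1 ∈ κ.image Prod.fst := mem_image_of_mem _ hl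
  intro ψ hψ x y hxy
  have h1 : ψ = Form.var l.1 ∨ ψ = Form.neg (Form.var l.1) := by
    split_ifs at hψ with h
    · left
      exact hψ
    · rcases hψ with h2 | h2
      · right
        exact h2
      · left
        exact h2
  rcases h1 with rfl | rfl
  · show x l.1 = true ↔ y l.1 = true
    rw [hxy _ hl']
  · show ¬ (x l.1 = true) ↔ ¬ (y l.1 = true)
    rw [hxy _ hl']

namespace Herm

variable {K : Type} [Field K] {N m r : ℕ} [NeZero m] [NeZero r] {T : (Fin N → ℂ) → ℂ} {ε : ℝ}
  {L : ℕ} {Gam : Finset (Cfg2 N m)}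

/-- The gauge transformations, as a homomorphism. -/
noncomputable def gauHom (hrm : r ∣ m) : (Fin N → ZMod r) →+ Cfg2 N m where
  toFun := gau hrm
  map_zero' := gau_zero hrm
  map_add' := gau_add hrm

theorem gauHom_apply (hrm : r ∣ m) (τ : Fin N → ZMod r) :
    gauHom (m := m) hrm τ = gau hrm τ := rfl

theorem sum_zsmul_row (hrm : r ∣ m) (t : Fin N → ℤ) :
    ∑ v, t v • (mvRow2 v univ (gen m r) : Cfg2 N m) = gau hrm fun v => (t v : ZMod r) := by
  have h1 : ∀ v, t v • (mvRow2 v univ (gen m r) : Cfg2 N m) =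
      gauHom hrm (t v • (Pi.single v 1 : Fin N → ZMod r)) := by
    intro v
    rw [map_zsmul, gauHom_apply, mvRow2_univ_gen hrm]
  rw [sum_congr rfl fun v _ => h1 v, ← map_sum, gauHom_apply]
  congr 1
  funext u
  rw [Finset.sum_apply, sum_eq_single u]
  · rw [Pi.smul_apply, Pi.single_eq_same, zsmul_eq_mul, mul_one]
  · intro v _ hv
    rw [Pi.smul_apply, Pi.single_eq_of_ne (Ne.symm hv), smul_zero]
  · intro h
    exact absurd (mem_univ u) h

theorem sum_row (hrm : r ∣ m) : ∑ v, (mvRow2 v univ (gen m r) : Cfg2 N m) = 0 := by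
  have h := sum_zsmul_row (N := N) (m := m) hrm fun _ => 1
  simp only [one_smul, Int.cast_one] at h
  rw [h]
  exact gau_const hrm 1

theorem row_ker (hrm : r ∣ m) (t : Fin N → ℤ)
    (h : ∑ v, t v • (mvRow2 v univ (gen m r) : Cfg2 N m) = 0) (u w : Fin N) :
    (r : ℤ) ∣ t u - t w := by
  rw [sum_zsmul_row hrm, gau_eq_zero_iff hrm w] at h
  have h1 := h u
  have h2 : ((t u - t w : ℤ) : ZMod r) = 0 := by
    push_cast
    rw [h1, sub_self]
  exact (ZMod.intCast_zmod_eq_zero_iff_dvd _ _).1 h2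

theorem row_torsion (hrm : r ∣ m) (v : Fin N) :
    r • (mvRow2 v univ (gen m r) : Cfg2 N m) = 0 := by
  rw [mvRow2_univ_gen hrm, ← gauHom_apply, ← map_nsmul]
  have h1 : r • (Pi.single v 1 : Fin N → ZMod r) = 0 := by
    funext u
    rw [Pi.smul_apply, nsmul_eq_mul, ZMod.natCast_self, zero_mul, Pi.zero_apply]
  rw [h1, map_zero]

open Classical in
/-- **The world of the Tseitin contradiction modulo `r`.** -/
theorem tseitinMod_world (p : ℕ) {ω : K} (hω : IsPrimitiveRoot ω r) (hr : 1 < r) {hrm : r ∣ m}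
    (hT : Spectator (m := m) hrm T) (hε : Small (m := m) hrm ε) (v0 : Fin N)
    (b : Fin N → ZMod r) (hG : GoodSet T r L ε Gam) {C : ℕ}
    (hcard : m ^ Fintype.card (Edge N) ≤ C * Gam.card) (hL : max r 3 + 3 ≤ L) :
    ∃ (M : ℕ → Submodule K (Cfg2 N m → K))
      (act : Fun K (TVar N × ZMod r) →ₗ[K] (Cfg2 N m → K) →ₗ[K] (Cfg2 N m → K)),
      World M act L ∧ 0 < Module.finrank K (M 0) ∧
      Module.finrank K (M L) ≤ C * Module.finrank K (M 0) ∧
      Satisfies p M act 0 (max r 3) (tseitinModCedents N r b) := by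
  obtain ⟨q0, hq0⟩ : ∃ q0, q0 = -∑ u, b u := ⟨_, rfl⟩
  have hTw := twist (T := T) hω q0 hT hε v0 hG
  have hsig := sigK_gauge (T := T) (ε := ε) ω q0 hrm v0
  have hW := hTw.world (D := fun v : Fin N => (mvRow2 v univ (gen m r) : Cfg2 N m))
    (kap := kapR ω q0 v0 b) hω hsig Prod.fst oneHot
  have hcov : ∀ i, lev (fun v : Fin N => (mvRow2 v univ (gen m r) : Cfg2 N m))
      (kapR ω q0 v0 b) (Nbh hrm Gam) i =
      covR K (fun v : Fin N => (mvRow2 v univ (gen m r) : Cfg2 N m)) (kapR ω q0 v0 b)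
        (univ.filter fun c => c ∈ Nbh hrm Gam i) := by
    intro i
    ext f
    rw [mem_lev, mem_covR]
    simp only [mem_filter, mem_univ, true_and]
  have hinv : ∀ i, ∀ c v, c ∈ (univ.filter fun c => c ∈ Nbh hrm Gam i) →
      c + mvRow2 v univ (gen m r) ∈ (univ.filter fun c => c ∈ Nbh hrm Gam i) := by
    intro i c v hc
    rw [mem_filter] at hc ⊢
    refine ⟨mem_univ _, ?_⟩
    rw [mvRow2_univ_gen hrm]
    exact Nbh_gau hrm Gam hc.2 _
  have hsub : Gam ⊆ univ.filter fun c => c ∈ Nbh hrm Gam 0 := by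
    intro a ha
    rw [mem_filter]
    exact ⟨mem_univ _, subset_Nbh hrm Gam a ha⟩
  have hm : 0 < m := Nat.pos_of_ne_zero (NeZero.ne m)
  have hne : Gam.Nonempty := by
    rw [nonempty_iff_ne_empty]
    rintro rfl
    rw [card_empty, mul_zero] at hcard
    exact absurd hcard (not_le.2 (Nat.pow_pos hm))
  have hle : (univ.filter fun c => c ∈ Nbh hrm Gam L).card ≤
      C * (univ.filter fun c => c ∈ Nbh hrm Gam 0).card := by
    have h1 : (univ.filter fun c => c ∈ Nbh hrm Gam L).card ≤ m ^ Fintype.card (Edge N) := by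
      refine (card_le_univ _).trans ?_
      rw [Fintype.card_fun, ZMod.card]
    exact h1.trans (hcard.trans (Nat.mul_le_mul_left _ (card_le_card hsub)))
  have hprod : ∏ v, kapR ω q0 v0 b v = 1 := by
    rw [hq0]
    exact prod_kapR hω v0 b
  refine ⟨_, _, hW, ?_, ?_, ?_⟩
  · rw [hcov]
    exact finrank_covR_pos r _ _ v0 (row_torsion hrm) (sum_row hrm) (row_ker hrm)
      (kapR_pow hω q0 v0 b) hprod _ (hinv 0) (hne.mono hsub)
  · rw [hcov, hcov]
    exact finrank_covR_le r _ _ v0 (row_torsion hrm) (sum_row hrm) (row_ker hrm)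
      (kapR_pow hω q0 v0 b) hprod _ _ (hinv 0) (hinv L) C hle
  · rintro Γ ⟨κ, hκ, rfl⟩
    obtain ⟨Z, hZ, hloc⟩ := local_clause p κ
    have hZ' : Z.card ≤ max r 3 := hZ.trans (tseitinMod_width b κ hκ)
    refine ⟨⟨Z, hZ', hloc⟩, ?_⟩
    intro u hu
    have hP : Fals K p (toCedent κ) ∈ Pol K (TVar N × ZMod r) (max r 3) := by
      refine Pol_mono hZ' (mem_Pol_of_depends Z ?_)
      intro x y hxy
      have h1 : Holds p x (toCedent κ) ↔ Holds p y (toCedent κ) := by
        unfold Holds
        constructor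
        · rintro ⟨φ, hφ, h⟩
          exact ⟨φ, hφ, (hloc φ hφ φ (by cases φ <;> simp [Form.parts]) x y hxy).1 h⟩
        · rintro ⟨φ, hφ, h⟩
          exact ⟨φ, hφ, (hloc φ hφ φ (by cases φ <;> simp [Form.parts]) x y hxy).2 h⟩
      unfold Fals
      by_cases h : Holds p x (toCedent κ)
      · rw [if_pos h, if_pos (h1.1 h)]
      · rw [if_neg h, if_neg (fun h2 => h (h1.2 h2))]
    refine tseitinMod_kill (b := b) (ε := fun v => ew ω (if v = v0 then -q0 else 0)) hω hr hrm hTw
      (fun v c hc => sigK_row ω q0 hT hε v0 hG v hc) (row_mul_kapR hω q0 v0 b)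
      (i := 0) (e := max r 3) (by omega) hu hκ hP ?_
    intro x hx l hl hxl
    apply hx
    unfold Fals
    rw [if_pos]
    rw [holds_toCedent]
    exact ⟨l, hl, hxl⟩

end Herm

end Pool.Agent.MP_9cec2c_lc.Flat
end

section

/-!
Pulling back a world along a substitution of the Boolean variables by variables and constants, and
the renaming of the variables of a CNF.
-/

set_option autoImplicit false
set_option linter.unusedSectionVars false

namespace Pool.Agent.MP_9cec2c_lc.Flat

open Finset Frege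

variable {K V V' W : Type} [Field K] [AddCommGroup W] [Module K W]

/-- The composition with a map between cubes. -/
def pull (ρ : (V → Bool) → (V' → Bool)) : Fun K V' →ₗ[K] Fun K V := LinearMap.funLeft K K ρ

theorem pull_apply (ρ : (V → Bool) → (V' → Bool)) (P : Fun K V') (x : V → Bool) :
    pull ρ P x = P (ρ x) := rfl

/-- If every coordinate of `ρ` depends on at most one coordinate, the degree does not grow. -/
theorem pull_mem [Fintype V] {ρ : (V → Bool) → (V' → Bool)}
    (hρ : ∀ u, ∃ Z : Finset V, Z.card ≤ 1 ∧ ∀ x y, (∀ v ∈ Z, x v = y v) → ρ x u = ρ y u)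
    {e : ℕ} {P : Fun K V'} (hP : P ∈ Pol K V' e) : pull ρ P ∈ Pol K V e := by
  classical
  have key : ∀ M : Finset V', pull ρ (mon K M) ∈ Pol K V M.card := by
    intro M
    induction M using Finset.induction_on with
    | empty =>
      rw [mon_empty]
      exact one_mem _
    | insert u M hu ih =>
      have h1 : pull ρ (mon K (insert u M)) = pull ρ (mon K {u}) * pull ρ (mon K M) := by
        funext x
        rw [Pi.mul_apply, pull_apply, pull_apply, pull_apply, insert_eq, ← mon_mul]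
        rfl
      obtain ⟨Z, hZ, hZ'⟩ := hρ u
      rw [h1, card_insert_of_notMem hu, add_comm]
      refine mul_mem (Pol_mono hZ (mem_Pol_of_depends Z ?_)) ih
      intro x y hxy
      rw [pull_apply, pull_apply]
      unfold mon
      simp only [mem_singleton, forall_eq, hZ' x y hxy]
  unfold Pol at hP
  induction hP using Submodule.span_induction with
  | mem P hP =>
    obtain ⟨M, hM, rfl⟩ := hP
    exact Pol_mono hM (key M)
  | zero =>
    rw [map_zero]
    exact Submodule.zero_mem _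
  | add f g _ _ hf hg =>
    rw [map_add]
    exact Submodule.add_mem _ hf hg
  | smul c f _ hf =>
    rw [map_smul]
    exact Submodule.smul_mem _ c hf

/-- The pull back of a world. -/
theorem world_pull [Fintype V] {M : ℕ → Submodule K W} {act : Fun K V →ₗ[K] W →ₗ[K] W} {A : ℕ}
    (hW : World M act A) {ρ : (V → Bool) → (V' → Bool)}
    (hρ : ∀ u, ∃ Z : Finset V, Z.card ≤ 1 ∧ ∀ x y, (∀ v ∈ Z, x v = y v) → ρ x u = ρ y u) :
    World M (act.comp (pull ρ)) A where
  act_mem a e P w ha hP hw := hW.act_mem a e (pull ρ P) w ha (pull_mem hρ hP) hw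
  act_one a w ha hw := hW.act_one a w ha hw
  act_mul a e e' P Q w ha hP hQ hw :=
    hW.act_mul a e e' (pull ρ P) (pull ρ Q) w ha (pull_mem hρ hP) (pull_mem hρ hQ) hw

/-- The renaming of the variables of a clause. -/
def renClause (i : V ↪ V') (κ : Finset (V × Bool)) : Finset (V' × Bool) :=
  κ.map (i.prodMap (Function.Embedding.refl Bool))

/-- The renaming of the variables of a CNF. -/
def renCNF (i : V ↪ V') (F : Finset (Finset (V × Bool))) : Finset (Finset (V' × Bool)) :=
  F.map ⟨renClause i, Finset.map_injective _⟩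

theorem card_renCNF (i : V ↪ V') (F : Finset (Finset (V × Bool))) :
    (renCNF i F).card = F.card := card_map _

theorem card_renClause (i : V ↪ V') (κ : Finset (V × Bool)) :
    (renClause i κ).card = κ.card := card_map _

theorem mem_renCNF (i : V ↪ V') (F : Finset (Finset (V × Bool))) (κ' : Finset (V' × Bool)) :
    κ' ∈ renCNF i F ↔ ∃ κ ∈ F, renClause i κ = κ' := by
  unfold renCNF
  rw [mem_map]
  rfl

/-- The point of the larger cube: the new variables are false. -/
noncomputable def ext (i : V ↪ V') (x : V → Bool) : V' → Bool :=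
  open Classical in fun u => if h : ∃ v, i v = u then x (Classical.choose h) else false

theorem ext_apply (i : V ↪ V') (x : V → Bool) (v : V) : ext i x (i v) = x v := by
  classical
  unfold ext
  have h : ∃ v', i v' = i v := ⟨v, rfl⟩
  rw [dif_pos h]
  congr 1
  exact i.injective (Classical.choose_spec h)

theorem ext_dep (i : V ↪ V') (u : V') :
    ∃ Z : Finset V, Z.card ≤ 1 ∧ ∀ x y, (∀ v ∈ Z, x v = y v) → ext i x u = ext i y u := by
  classical
  by_cases h : ∃ v, i v = u
  · obtain ⟨v, rfl⟩ := h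
    refine ⟨{v}, by rw [card_singleton], fun x y hxy => ?_⟩
    rw [ext_apply, ext_apply]
    exact hxy v (mem_singleton_self v)
  · refine ⟨∅, by simp, fun x y _ => ?_⟩
    unfold ext
    rw [dif_neg h, dif_neg h]

/-- A point falsifies the renamed clause iff its restriction falsifies the clause. -/
theorem holds_renClause (p : ℕ) (i : V ↪ V') (κ : Finset (V × Bool)) (y : V' → Bool) :
    Holds p y (toCedent (renClause i κ)) ↔ Holds p (fun v => y (i v)) (toCedent κ) := by
  rw [holds_toCedent, holds_toCedent]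
  unfold renClause
  constructor
  · rintro ⟨l, hl, h⟩
    obtain ⟨l', hl', rfl⟩ := mem_map.1 hl
    exact ⟨l', hl', h⟩
  · rintro ⟨l, hl, h⟩
    exact ⟨_, mem_map_of_mem _ hl, h⟩

/-- The formulas of a clause depend on the variables of the clause only. -/
theorem pad_local_clause (p : ℕ) (κ : Finset (V × Bool)) :
    ∃ Z : Finset V, Z.card ≤ κ.card ∧ ∀ φ ∈ toCedent κ, Local p Z φ := by
  classical
  refine ⟨κ.image Prod.fst, card_image_le, ?_⟩
  intro φ hφ
  unfold toCedent at hφ
  obtain ⟨l, hl, rfl⟩ := mem_image.1 hφ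
  have hl' : l.1 ∈ κ.image Prod.fst := mem_image_of_mem _ hl
  intro ψ hψ x y hxy
  have h1 : ψ = Form.var l.1 ∨ ψ = Form.neg (Form.var l.1) := by
    split_ifs at hψ with h
    · left
      exact hψ
    · rcases hψ with h2 | h2
      · right
        exact h2
      · left
        exact h2
  rcases h1 with rfl | rfl
  · show x l.1 = true ↔ y l.1 = true
    rw [hxy _ hl']
  · show ¬ (x l.1 = true) ↔ ¬ (y l.1 = true)
    rw [hxy _ hl']

/-- The clauses of a CNF, as cedents. -/
def cedentsOf (F : Finset (Finset (V × Bool))) : Set (Cedent V) := {Γ | ∃ κ ∈ F, Γ = toCedent κ}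

/-- The renamed CNF is satisfied by the pulled back world. -/
theorem satisfies_ren {p : ℕ} {M : ℕ → Submodule K W} {act : Fun K V →ₗ[K] W →ₗ[K] W} {a w : ℕ}
    (i : V ↪ V') {F : Finset (Finset (V × Bool))} (hw : ∀ κ ∈ F, κ.card ≤ w)
    (h : Satisfies p M act a w (cedentsOf F)) :
    Satisfies p M (act.comp (pull (ext i))) a w (cedentsOf (renCNF i F)) := by
  classical
  rintro Γ ⟨κ', hκ', rfl⟩
  obtain ⟨κ, hκ, rfl⟩ := (mem_renCNF i F κ').1 hκ'
  refine ⟨?_, ?_⟩
  · obtain ⟨Z, hZ, hZ'⟩ := pad_local_clause p (renClause i κ)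
    exact ⟨Z, hZ.trans ((card_renClause i κ).le.trans (hw κ hκ)), hZ'⟩
  · intro u hu
    have h1 := (h (toCedent κ) ⟨κ, hκ, rfl⟩).2 u hu
    have h2 : pull (ext i) (Fals K p (toCedent (renClause i κ))) = Fals K p (toCedent κ) := by
      funext x
      rw [pull_apply]
      unfold Fals
      have h3 : Holds p (ext i x) (toCedent (renClause i κ)) ↔ Holds p x (toCedent κ) := by
        rw [holds_renClause]
        have h4 : (fun v => ext i x (i v)) = x := funext fun v => ext_apply i x v
        rw [h4]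
      by_cases h4 : Holds p x (toCedent κ)
      · rw [if_pos h4, if_pos (h3.2 h4)]
      · rw [if_neg h4, if_neg fun h5 => h4 (h3.1 h5)]
    rw [LinearMap.comp_apply, h2]
    exact h1

/-- The renamed CNF is unsatisfiable. -/
theorem unsat_ren (i : V ↪ V') {F : Finset (Finset (V × Bool))}
    (h : ∀ x : V → Bool, ∃ κ ∈ F, ∀ l ∈ κ, x l.1 ≠ l.2) (y : V' → Bool) :
    ∃ κ ∈ renCNF i F, ∀ l ∈ κ, y l.1 ≠ l.2 := by
  obtain ⟨κ, hκ, hκ'⟩ := h fun v => y (i v)
  refine ⟨renClause i κ, (mem_renCNF i F _).2 ⟨κ, hκ, rfl⟩, ?_⟩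
  intro l hl
  unfold renClause at hl
  obtain ⟨l', hl', rfl⟩ := mem_map.1 hl
  exact hκ' l' hl'

end Pool.Agent.MP_9cec2c_lc.Flat
end
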