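import Pool.Agent.Lib.MP_9cec2c_lc.Mg.G024
import Pool.Agent.Lib.MP_9cec2c_lc.TTCnf
import Pool.Agent.Lib.MP_9cec2c_lc.MXDefs

section

/-!
The refutation of a Tseitin formula along an order of the vertices with small cuts: the steps.
-/

set_option autoImplicit false
set_option linter.unusedSectionVars false

namespace Pool.Agent.MP_9cec2c_lc.TY

open Finset FG
open TT (cut inc coef)

variable {V E : Type} [Fintype V] [Fintype E] [DecidableEq V] [DecidableEq E] {src tgt : E → V}
  {r m D : ℕ} [NeZero r] {s : V → ZMod r} {Φ At : Set (Form (E × ZMod r))} {b : ℕ}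

theorem St_mem {c : State E r m D} (hA : stAtoms c ⊆ At) (a : ZMod r) : St c a ∈ At :=
  hA (node_mem D _ a)

/-- The literals which say that the edges in `es` do not all have the values `β`. -/
def nv (es : List E) (β : E → ZMod r) : List (Form (E × ZMod r)) :=
  es.map fun e => .neg (.var (e, β e))

theorem nv_lit (hB : Base src tgt s Φ At b) (es : List E) (β : E → ZMod r) :
    ∀ χ ∈ nv es β, Lit At χ := by
  intro χ hχ
  obtain ⟨e, -, rfl⟩ := List.mem_map.1 hχ
  exact lit_neg (hB.var _)

theorem run_edges (hr : 1 < r) : ∀ (es : List E), es.Nodup → ∀ (κ : E → ZMod r)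
    (c : State E r m D), Rep c κ → ∀ ε : E → ZMod r,
    (∀ e ∈ es, ε e = 0 ∨ (ε e * ε e = 1 ∧ (κ e = 0 ∨ κ e = -ε e))) →
    (univ.filter fun e => κ e ≠ 0).card + es.length < m ^ D →
    ∃ (Cs : Finset (State E r m D)) (c' : State E r m D), c ∈ Cs ∧ c' ∈ Cs ∧
      Cs.card ≤ es.length + 1 ∧ Rep c' (fun e => κ e + if e ∈ es then ε e else 0) ∧
      ∀ {V : Type} [Fintype V] [DecidableEq V] {src tgt : E → V} {s : V → ZMod r}
        {Φ At : Set (Form (E × ZMod r))} {b : ℕ}, Base src tgt s Φ At b →
        (∀ x ∈ Cs, stAtoms x ⊆ At) → es.length + 4 ≤ b → ∀ (β : E → ZMod r) (a : ZMod r),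
        Sb Φ At b (.neg (St c a) :: St c' (a + (es.map fun e => ε e * β e).sum) :: nv es β) := by
  classical
  intro es
  induction es with
  | nil =>
    intro _ κ c h ε _ _
    refine ⟨{c}, c, mem_singleton_self c, mem_singleton_self c, by simp, by simpa using h, ?_⟩
    intro V _ _ src tgt s Φ At b hB hA hb β a
    have h1 : St c a ∈ At := St_mem (hA c (mem_singleton_self c)) a
    have h2 := Sb.em (Φ := Φ) (b := b) (by simp at hb; omega) h1
    simpa [nv] using h2
  | cons e es ih =>
    intro hnd κ c h ε hε hcard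
    rw [List.nodup_cons] at hnd
    have hcard' : (univ.filter fun e => κ e ≠ 0).card < m ^ D := by
      rw [List.length_cons] at hcard
      omega
    obtain ⟨c₁, h1, hst⟩ := h.step hr e (hε e List.mem_cons_self) hcard'
    have hsupp : (univ.filter fun x => Function.update κ e (κ e + ε e) x ≠ 0).card ≤
        (univ.filter fun x => κ x ≠ 0).card + 1 := by
      have h2 : (univ.filter fun x => Function.update κ e (κ e + ε e) x ≠ 0) ⊆
          insert e (univ.filter fun x => κ x ≠ 0) := by
        intro x hx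
        rw [mem_filter] at hx
        rw [mem_insert, mem_filter]
        by_cases hxe : x = e
        · exact Or.inl hxe
        · rw [Function.update_of_ne hxe] at hx
          exact Or.inr hx
      exact (card_le_card h2).trans (card_insert_le _ _)
    obtain ⟨Cs, c', k1, k2, k3, k4, k5⟩ := ih hnd.2 (Function.update κ e (κ e + ε e)) c₁ h1 ε
      (fun x hx => by
        have hxe : x ≠ e := by
          rintro rfl
          exact hnd.1 hx
        rw [Function.update_of_ne hxe]
        exact hε x (List.mem_cons_of_mem _ hx))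
      (by
        rw [List.length_cons] at hcard
        omega)
    refine ⟨insert c Cs, c', mem_insert_self _ _, mem_insert_of_mem k2, ?_, ?_, ?_⟩
    · rw [List.length_cons]
      exact (card_insert_le _ _).trans (by omega)
    · have h2 : (fun x => Function.update κ e (κ e + ε e) x + if x ∈ es then ε x else 0) =
          fun x => κ x + if x ∈ e :: es then ε x else 0 := by
        funext x
        by_cases hxe : x = e
        · subst hxe
          rw [Function.update_self, if_neg hnd.1, if_pos List.mem_cons_self, add_zero]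
        · rw [Function.update_of_ne hxe]
          congr 1
          have h3 : x ∈ e :: es ↔ x ∈ es := by
            rw [List.mem_cons]
            exact ⟨fun h => h.resolve_left hxe, Or.inr⟩
          simp only [h3]
      rw [h2] at k4
      exact k4
    · intro V _ _ src tgt s Φ At b hB hA hb β a
      have hAc := hA c (mem_insert_self _ _)
      have hAc₁ := hA c₁ (mem_insert_of_mem k1)
      have hAc' := hA c' (mem_insert_of_mem k2)
      rw [List.length_cons] at hb
      have h2 := k5 hB (fun x hx => hA x (mem_insert_of_mem hx)) (by omega) β (a + ε e * β e)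
      have h3 := step_rel hB (by omega) hst hAc hAc₁ a (β e)
      have h4 : a + ((e :: es).map fun e => ε e * β e).sum =
          a + ε e * β e + (es.map fun e => ε e * β e).sum := by
        rw [List.map_cons, List.sum_cons, add_assoc]
      rw [h4]
      obtain ⟨g, hg⟩ : ∃ g, g = a + ε e * β e + (es.map fun e => ε e * β e).sum := ⟨_, rfl⟩
      rw [← hg] at h2 ⊢
      have hlit : ∀ χ ∈ .neg (St c a) :: St c' g :: nv (e :: es) β, Lit At χ := by
        intro χ hχ
        rcases List.mem_cons.1 hχ with rfl | hχ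
        · exact lit_neg (St_mem hAc _)
        rcases List.mem_cons.1 hχ with rfl | hχ
        · exact lit_pos (St_mem hAc' _)
        · exact nv_lit hB _ _ χ hχ
      have hlen : (nv (e :: es) β).length = es.length + 1 := by
        unfold nv
        rw [List.length_map, List.length_cons]
      have hnv : nv (e :: es) β = .neg (.var (e, β e)) :: nv es β := rfl
      refine Sb.cut (φ := St c₁ (a + ε e * β e)) (h3.sub ?_ ?_ ?_) (h2.sub ?_ ?_ ?_)
      · intro χ hχ
        rw [hnv]
        simp only [List.mem_cons, List.not_mem_nil, or_false] at hχ ⊢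
        tauto
      · simp only [List.length_cons, hlen]
        omega
      · intro χ hχ
        rcases List.mem_cons.1 hχ with rfl | hχ
        · exact lit_pos (St_mem hAc₁ _)
        · exact hlit χ hχ
      · intro χ hχ
        rw [hnv]
        simp only [List.mem_cons] at hχ ⊢
        tauto
      · simp only [List.length_cons, hlen]
        omega
      · intro χ hχ
        rcases List.mem_cons.1 hχ with rfl | hχ
        · exact lit_neg (St_mem hAc₁ _)
        · exact hlit χ hχ

/-- Elimination of the members of a disjunction. -/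
theorem cut_list {Γ : List (Form (E × ZMod r))} : ∀ Λ : List (Form (E × ZMod r)),
    Sb Φ At b (Λ ++ Γ) → (∀ φ ∈ Λ, Sb Φ At b (.neg φ :: Γ)) → Sb Φ At b Γ := by
  intro Λ
  induction Λ with
  | nil => exact fun h _ => h
  | cons φ Λ ih =>
    intro h h'
    have h1 := h' φ List.mem_cons_self
    refine ih (Sb.cut (φ := φ) h (h1.sub ?_ ?_ ?_)) fun ψ hψ => h' ψ (List.mem_cons_of_mem _ hψ)
    · intro χ hχ
      rw [List.mem_cons] at hχ ⊢
      exact hχ.imp id (List.mem_append_right _)
    · have := h.1
      simpa using this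
    · intro χ hχ
      rcases List.mem_cons.1 hχ with rfl | hχ
      · exact h1.2.1 _ List.mem_cons_self
      · exact h.2.1 χ (List.mem_cons_of_mem _ hχ)

theorem elim_edges (hB : Base src tgt s Φ At b) {goal : Form (E × ZMod r)} : ∀ es : List E,
    es.Nodup → es.length + r + 2 ≤ b →
    (∀ β : E → ZMod r, Sb Φ At b (goal :: nv es β)) → Sb Φ At b [goal] := by
  classical
  intro es
  induction es with
  | nil =>
    intro _ _ h
    exact h fun _ => 0
  | cons e es ih =>
    intro hnd hb h
    rw [List.nodup_cons] at hnd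
    rw [List.length_cons] at hb
    refine ih hnd.2 (by omega) fun β => ?_
    have hgoal : ∀ χ ∈ goal :: nv es β, Lit At χ := by
      intro χ hχ
      rcases List.mem_cons.1 hχ with rfl | hχ
      · exact (h β).2.1 _ List.mem_cons_self
      · exact nv_lit hB _ _ χ hχ
    have hlen : (nv es β).length = es.length := List.length_map _
    refine cut_list ((univ : Finset (ZMod r)).toList.map fun γ => .var (e, γ)) ?_ ?_
    · refine (hB.some e).sub (fun χ hχ => List.mem_append_left _ hχ) ?_ ?_
      · rw [List.length_append, List.length_map, Finset.length_toList, card_univ, ZMod.card,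
          List.length_cons, hlen]
        omega
      · intro χ hχ
        rcases List.mem_append.1 hχ with h1 | h1
        · exact (hB.some e).2.1 χ h1
        · exact hgoal χ h1
    · intro φ hφ
      obtain ⟨γ, -, rfl⟩ := List.mem_map.1 hφ
      have h1 := h (Function.update β e γ)
      have h2 : nv (e :: es) (Function.update β e γ) = .neg (.var (e, γ)) :: nv es β := by
        unfold nv
        rw [List.map_cons, Function.update_self]
        congr 1
        refine List.map_congr_left fun x hx => ?_
        have hxe : x ≠ e := by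
          rintro rfl
          exact hnd.1 hx
        rw [Function.update_of_ne hxe]
      rw [h2] at h1
      refine h1.sub ?_ ?_ ?_
      · intro χ hχ
        simp only [List.mem_cons] at hχ ⊢
        tauto
      · simp only [List.length_cons, hlen]
        omega
      · intro χ hχ
        rcases List.mem_cons.1 hχ with rfl | hχ
        · exact lit_neg (hB.var _)
        · exact hgoal χ hχ

/-- The coefficients of the sum of the equations of the vertices in `P`. -/
def kap (src tgt : E → V) (r : ℕ) (P : Finset V) (e : E) : ZMod r :=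
  (if src e ∈ P then 1 else 0) - (if tgt e ∈ P then 1 else 0)

theorem kap_insert {P : Finset V} {v : V} (hv : v ∉ P) (e : E) :
    kap src tgt r (insert v P) e = kap src tgt r P e + coef src tgt r v e := by
  unfold kap coef
  have h1 : ∀ x : V, (if x ∈ insert v P then (1 : ZMod r) else 0) =
      (if x ∈ P then 1 else 0) + if x = v then 1 else 0 := by
    intro x
    by_cases hx : x = v
    · subst hx
      rw [if_pos (mem_insert_self _ _), if_neg hv, if_pos rfl, zero_add]
    · rw [if_neg hx, add_zero]
      by_cases hxP : x ∈ P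
      · rw [if_pos (mem_insert_of_mem hxP), if_pos hxP]
      · rw [if_neg hxP, if_neg fun h => (mem_insert.1 h).elim hx hxP]
  rw [h1, h1]
  ring

theorem supp_kap (P : Finset V) :
    (univ.filter fun e => kap src tgt r P e ≠ 0) ⊆ cut src tgt P := by
  intro e he
  rw [mem_filter] at he
  unfold cut
  rw [mem_filter]
  refine ⟨mem_univ _, fun h => he.2 ?_⟩
  unfold kap
  by_cases h1 : src e ∈ P
  · rw [if_pos h1, if_pos (h.1 h1), sub_self]
  · rw [if_neg h1, if_neg fun h2 => h1 (h.2 h2), sub_self]

theorem coef_out {v : V} {e : E} (h : e ∉ inc src tgt v) : coef src tgt r v e = 0 := by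
  unfold inc at h
  rw [mem_filter, not_and_or] at h
  have h1 := h.resolve_left fun h => h (mem_univ _)
  push Not at h1
  unfold coef
  rw [if_neg h1.1, if_neg h1.2, sub_self]

theorem coef_ok {P : Finset V} {v : V} (hv : v ∉ P) (e : E) :
    coef src tgt r v e = 0 ∨ (coef src tgt r v e * coef src tgt r v e = 1 ∧
      (kap src tgt r P e = 0 ∨ kap src tgt r P e = -coef src tgt r v e)) := by
  unfold coef kap
  by_cases h1 : src e = v
  · by_cases h2 : tgt e = v
    · left
      rw [if_pos h1, if_pos h2, sub_self]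
    · right
      rw [if_pos h1, if_neg h2, h1, if_neg hv]
      refine ⟨by ring, ?_⟩
      by_cases h3 : tgt e ∈ P
      · right
        rw [if_pos h3]
        ring
      · left
        rw [if_neg h3, sub_self]
  · by_cases h2 : tgt e = v
    · right
      rw [if_neg h1, if_pos h2, h2, if_neg hv]
      refine ⟨by ring, ?_⟩
      by_cases h3 : src e ∈ P
      · right
        rw [if_pos h3]
        ring
      · left
        rw [if_neg h3, sub_self]
    · left
      rw [if_neg h1, if_neg h2, sub_self]

/-- The step of one vertex. -/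
theorem run_vertex (hr : 1 < r) {Δ : ℕ} {v : V} (hΔ : (inc src tgt v).card ≤ Δ) {P : Finset V}
    (hv : v ∉ P) {c : State E r m D} (h : Rep c (kap src tgt r P))
    (hcard : (cut src tgt P).card + Δ < m ^ D) :
    ∃ (Cs : Finset (State E r m D)) (c' : State E r m D), c ∈ Cs ∧ c' ∈ Cs ∧
      Cs.card ≤ Δ + 1 ∧ Rep c' (kap src tgt r (insert v P)) ∧
      ∀ {s : V → ZMod r} {Φ At : Set (Form (E × ZMod r))} {b : ℕ}, Base src tgt s Φ At b →
        (∀ x ∈ Cs, stAtoms x ⊆ At) → Δ + r + 4 ≤ b → ∀ α : ZMod r,
        Sb Φ At b [St c α] → Sb Φ At b [St c' (α + s v)] := by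
  classical
  obtain ⟨es, hes⟩ : ∃ es, es = (inc src tgt v).toList := ⟨_, rfl⟩
  have hnd : es.Nodup := by
    rw [hes]
    exact Finset.nodup_toList _
  have hlen : es.length ≤ Δ := by
    rw [hes, Finset.length_toList]
    exact hΔ
  have hsupp := card_le_card (supp_kap (src := src) (tgt := tgt) (r := r) P)
  obtain ⟨Cs, c', k1, k2, k3, k4, k5⟩ := run_edges hr es hnd (kap src tgt r P) c h
    (coef src tgt r v) (fun e _ => coef_ok hv e) (by omega)
  refine ⟨Cs, c', k1, k2, by omega, ?_, ?_⟩
  · have h1 : (fun e => kap src tgt r P e + if e ∈ es then coef src tgt r v e else 0) =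
        kap src tgt r (insert v P) := by
      funext e
      rw [kap_insert hv]
      congr 1
      by_cases he : e ∈ es
      · rw [if_pos he]
      · rw [if_neg he, coef_out]
        rw [hes, Finset.mem_toList] at he
        exact he
    rw [h1] at k4
    exact k4
  · intro s Φ At b hB hA hb α hα
    have hAc := hA c k1
    have hAc' := hA c' k2
    refine elim_edges hB es hnd (by omega) fun β => ?_
    have hlen2 : (nv es β).length = es.length := List.length_map _
    have hsum : (es.map fun e => coef src tgt r v e * β e).sum =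
        ∑ e ∈ inc src tgt v, coef src tgt r v e * β e := by
      rw [hes]
      exact Finset.sum_map_toList _ _
    have hlit : ∀ χ ∈ St c' (α + s v) :: nv es β, Lit At χ := by
      intro χ hχ
      rcases List.mem_cons.1 hχ with rfl | hχ
      · exact lit_pos (St_mem hAc' _)
      · exact nv_lit hB _ _ χ hχ
    by_cases hβ : ∑ e ∈ inc src tgt v, coef src tgt r v e * β e = s v
    · have h1 := k5 hB hA (by omega) β α
      rw [hsum, hβ] at h1
      refine Sb.cut (φ := St c α) (hα.sub ?_ ?_ ?_) h1
      · intro χ hχ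
        rw [List.mem_singleton.1 hχ]
        exact List.mem_cons_self
      · simp only [List.length_cons, hlen2]
        omega
      · intro χ hχ
        rcases List.mem_cons.1 hχ with rfl | hχ
        · exact lit_pos (St_mem hAc _)
        · exact hlit χ hχ
    · have h1 := hB.eq v β hβ
      refine h1.sub ?_ ?_ hlit
      · intro χ hχ
        rw [← hes] at hχ
        exact List.mem_cons_of_mem _ hχ
      · simp only [List.length_cons, hlen2]
        omega

/-- The steps of a list of vertices. -/
theorem run_list (hr : 1 < r) {Δ k : ℕ} (hΔ : ∀ v, (inc src tgt v).card ≤ Δ)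
    (hk : k + Δ < m ^ D) : ∀ (vs : List V) (P : Finset V), vs.Nodup → (∀ v ∈ vs, v ∉ P) →
    ∀ c : State E r m D, Rep c (kap src tgt r P) →
    (∀ R, R <+: vs → (cut src tgt (P ∪ R.toFinset)).card ≤ k) →
    ∃ (Cs : Finset (State E r m D)) (c' : State E r m D), c ∈ Cs ∧ c' ∈ Cs ∧
      Cs.card ≤ vs.length * (Δ + 1) + 1 ∧ Rep c' (kap src tgt r (P ∪ vs.toFinset)) ∧
      ∀ {s : V → ZMod r} {Φ At : Set (Form (E × ZMod r))} {b : ℕ}, Base src tgt s Φ At b →
        (∀ x ∈ Cs, stAtoms x ⊆ At) → Δ + r + 4 ≤ b → ∀ α : ZMod r,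
        Sb Φ At b [St c α] → Sb Φ At b [St c' (α + (vs.map s).sum)] := by
  classical
  intro vs
  induction vs with
  | nil =>
    intro P _ _ c h _
    refine ⟨{c}, c, mem_singleton_self c, mem_singleton_self c, by simp, by simpa using h, ?_⟩
    intro s Φ At b _ _ _ α hα
    simpa using hα
  | cons v vs ih =>
    intro P hnd hP c h hcut
    rw [List.nodup_cons] at hnd
    have hvP : v ∉ P := hP v List.mem_cons_self
    have hc0 : (cut src tgt P).card ≤ k := by
      have := hcut [] List.nil_prefix
      simpa using this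
    obtain ⟨Cs₁, c₁, j1, j2, j3, j4, j5⟩ := run_vertex hr (hΔ v) hvP h (by omega)
    obtain ⟨Cs, c', k1, k2, k3, k4, k5⟩ := ih (insert v P) hnd.2 (fun u hu => by
        rw [mem_insert, not_or]
        exact ⟨fun h => hnd.1 (h ▸ hu), hP u (List.mem_cons_of_mem _ hu)⟩) c₁ j4 (fun R hR => by
        have h1 := hcut (v :: R) (List.cons_prefix_cons.2 ⟨rfl, hR⟩)
        rw [List.toFinset_cons, union_insert] at h1
        rw [insert_union]
        exact h1)
    refine ⟨Cs₁ ∪ Cs, c', mem_union_left _ j1, mem_union_right _ k2, ?_, ?_, ?_⟩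
    · refine (card_union_le _ _).trans ?_
      rw [List.length_cons]
      have : (vs.length + 1) * (Δ + 1) = vs.length * (Δ + 1) + (Δ + 1) := by ring
      have h3 : Cs₁.card + Cs.card ≤ (Δ + 1) + (vs.length * (Δ + 1) + 1) := by omega
      omega
    · rw [List.toFinset_cons, union_insert, ← insert_union]
      exact k4
    · intro s Φ At b hB hA hb α hα
      have h1 := k5 hB (fun x hx => hA x (mem_union_right _ hx)) hb _
        (j5 hB (fun x hx => hA x (mem_union_left _ hx)) hb α hα)
      rw [List.map_cons, List.sum_cons, ← add_assoc]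
      exact h1

theorem leaf_zer (hB : Base src tgt s Φ At b) (hb : 1 ≤ b) :
    Zer Φ At b (leaf (none : Option (E × ZMod r))) := by
  constructor
  · have h1 : leaf (none : Option (E × ZMod r)) 0 = conjL [] := if_pos rfl
    rw [h1]
    exact Sb.verum hb hB.top
  · intro a ha
    have h1 : leaf (none : Option (E × ZMod r)) a = disjL [] := if_neg ha
    rw [h1]
    exact Sb.not_falsum hb hB.bot

/-- **The refutation**, in terms of atoms. -/
theorem run_all (hr : 1 < r) {Δ k : ℕ} (hΔ : ∀ v, (inc src tgt v).card ≤ Δ)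
    (hk : k + Δ < m ^ D) (vs : List V) (hnd : vs.Nodup) (hvs : ∀ v, v ∈ vs)
    (hcut : ∀ R, R <+: vs → (cut src tgt R.toFinset).card ≤ k) :
    ∃ Cs : Finset (State E r m D), Cs.card ≤ Fintype.card V * (Δ + 1) + 1 ∧
      ∀ {s : V → ZMod r} {Φ At : Set (Form (E × ZMod r))} {b : ℕ}, ∑ v, s v ≠ 0 →
        Base src tgt s Φ At b → (∀ x ∈ Cs, stAtoms x ⊆ At) → Δ + r + 4 ≤ b →
        Sb Φ At b [] := by
  classical
  obtain ⟨c₀, hc₀⟩ : ∃ c₀ : State E r m D, c₀ = fun _ => none := ⟨_, rfl⟩
  have hRep : Rep c₀ (kap src tgt r ∅) := by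
    have h0 : ∀ e, kap src tgt r ∅ e = 0 := fun e => by
      unfold kap
      rw [if_neg (notMem_empty _), if_neg (notMem_empty _), sub_self]
    refine ⟨fun q e ε h => ?_, fun q q' e ε ε' h => ?_, fun e h => absurd (h0 e) h⟩
    · rw [hc₀] at h
      exact absurd h (by simp)
    · rw [hc₀] at h
      exact absurd h (by simp)
  obtain ⟨Cs, c', k1, k2, k3, k4, k5⟩ := run_list hr hΔ hk vs ∅ hnd
    (fun v _ => notMem_empty v) c₀ hRep (fun R hR => by
      rw [empty_union]
      exact hcut R hR)
  have hlen : vs.length = Fintype.card V := by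
    rw [← List.toFinset_card_of_nodup hnd, ← card_univ]
    congr 1
    ext v
    simp [hvs v]
  have huniv : (∅ : Finset V) ∪ vs.toFinset = univ := by
    ext v
    simp [hvs v]
  have hc' : c' = c₀ := by
    funext q
    rw [hc₀]
    rcases h : c' q with _ | ⟨e, ε⟩
    · rfl
    · exfalso
      refine (k4.val q e ε h).2 ?_
      rw [huniv]
      unfold kap
      rw [if_pos (mem_univ _), if_pos (mem_univ _), sub_self]
  refine ⟨Cs, by rw [← hlen]; exact k3, ?_⟩
  intro s Φ At b hs hB hA hb
  have hz : Zer Φ At b (St c₀) := by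
    refine node_zer (by omega) D _ (fun q => ?_) (hA c₀ k1)
    show Zer Φ At b (leaf (c₀ q))
    rw [hc₀]
    exact leaf_zer hB (by omega)
  have h1 := k5 hB hA hb 0 hz.1
  have hsum : (vs.map s).sum = ∑ v, s v := by
    rw [← List.sum_toFinset _ hnd]
    refine sum_congr ?_ fun _ _ => rfl
    ext v
    simp [hvs v]
  rw [zero_add, hsum, hc'] at h1
  exact Sb.cut (φ := St c₀ (∑ v, s v)) h1 (hz.2 _ hs)

end Pool.Agent.MP_9cec2c_lc.TY
end

section

/-!
The facts which follow from the clauses of a Tseitin formula.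
-/

set_option autoImplicit false
set_option linter.unusedSectionVars false

namespace Pool.Agent.MP_9cec2c_lc.TY

open Finset FG
open TT (cut inc coef tseitin tseitinCNF mem_tseitin)
open Flat (valueClauses eqClauses forbid2)

variable {V E : Type} [Fintype V] [Fintype E] [DecidableEq V] [DecidableEq E] {src tgt : E → V}
  {r m D : ℕ} [NeZero r] {s : V → ZMod r} {Φ At : Set (Form (E × ZMod r))} {b : ℕ}

theorem lit_lit (hvar : ∀ u, Form.var u ∈ At) (l : (E × ZMod r) × Bool) : Lit At (lit l) := by
  rcases l with ⟨u, t⟩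
  cases t
  · exact lit_neg (hvar u)
  · exact lit_pos (hvar u)

/-- A clause of the formula is derived. -/
theorem sb_clause (hΦ : ∀ C ∈ tseitinCNF src tgt r s, clause C ∈ Φ)
    (hvar : ∀ u, Form.var u ∈ At) {K : Finset ((E × ZMod r) × Bool)}
    (hK : K ∈ tseitin src tgt r s) (hb : K.card ≤ b) {Λ : List (Form (E × ZMod r))}
    (h : ∀ l ∈ K, lit l ∈ Λ) (hl : Λ.length ≤ b) (hm : ∀ χ ∈ Λ, Lit At χ) : Sb Φ At b Λ := by
  refine Sb.sub (Λ := K.toList.map lit) (Sb.ax ?_ ?_ ?_) ?_ hl hm
  · exact hΦ _ (mem_listCNF.2 ⟨K, hK, rfl⟩)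
  · rw [List.length_map, Finset.length_toList]
    exact hb
  · intro χ hχ
    obtain ⟨l, -, rfl⟩ := List.mem_map.1 hχ
    exact lit_lit hvar l
  · intro χ hχ
    obtain ⟨l, hl, rfl⟩ := List.mem_map.1 hχ
    exact h l (Finset.mem_toList.1 hl)

/-- The facts follow from the clauses. -/
theorem base_of (hΦ : ∀ C ∈ tseitinCNF src tgt r s, clause C ∈ Φ)
    (hvar : ∀ u, Form.var u ∈ At) (htop : conjL [] ∈ At) (hbot : disjL [] ∈ At)
    (hr : r ≤ b) (h2 : 2 ≤ b) (hΔ : ∀ v, (inc src tgt v).card ≤ b) : Base src tgt s Φ At b := by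
  classical
  refine ⟨hvar, htop, hbot, ?_, ?_, ?_⟩
  · intro e β β' hβ
    refine sb_clause hΦ hvar (K := {((e, β), false), ((e, β'), false)}) ?_ ?_ ?_ (by simpa using h2)
      ?_
    · refine mem_tseitin.2 (Or.inl ⟨e, ?_⟩)
      unfold valueClauses
      refine mem_insert_of_mem (mem_image.2 ⟨(β, β'), ?_, rfl⟩)
      exact mem_filter.2 ⟨mem_univ _, hβ⟩
    · exact (Finset.card_le_two).trans h2
    · intro l hl
      rw [mem_insert, mem_singleton] at hl
      rcases hl with rfl | rfl
      · exact List.mem_cons_self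
      · exact List.mem_cons_of_mem _ List.mem_cons_self
    · intro χ hχ
      simp only [List.mem_cons, List.not_mem_nil, or_false] at hχ
      rcases hχ with rfl | rfl
      · exact lit_neg (hvar _)
      · exact lit_neg (hvar _)
  · intro e
    have hcard : (univ : Finset (ZMod r)).card = r := by
      rw [card_univ, ZMod.card]
    refine sb_clause hΦ hvar (K := univ.image fun c => ((e, c), true)) ?_ ?_ ?_ ?_ ?_
    · refine mem_tseitin.2 (Or.inl ⟨e, ?_⟩)
      unfold valueClauses
      exact mem_insert_self _ _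
    · exact card_image_le.trans (by rw [hcard]; exact hr)
    · intro l hl
      obtain ⟨c, -, rfl⟩ := mem_image.1 hl
      exact List.mem_map.2 ⟨c, Finset.mem_toList.2 (mem_univ _), rfl⟩
    · rw [List.length_map, Finset.length_toList, hcard]
      exact hr
    · intro χ hχ
      obtain ⟨c, -, rfl⟩ := List.mem_map.1 hχ
      exact lit_pos (hvar _)
  · intro v β hβ
    refine sb_clause hΦ hvar (K := forbid2 (inc src tgt v) fun i => β i) ?_ ?_ ?_ ?_ ?_
    · refine mem_tseitin.2 (Or.inr ⟨v, ?_⟩)
      unfold eqClauses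
      refine mem_image.2 ⟨fun i => β i, mem_filter.2 ⟨mem_univ _, ?_⟩, rfl⟩
      rw [Finset.sum_coe_sort (inc src tgt v) fun e => coef src tgt r v e * β e]
      exact hβ
    · exact (Flat.card_forbid2 _ _).trans (hΔ v)
    · intro l hl
      obtain ⟨i, -, rfl⟩ := mem_image.1 hl
      exact List.mem_map.2 ⟨i, Finset.mem_toList.2 i.2, rfl⟩
    · rw [List.length_map, Finset.length_toList]
      exact hΔ v
    · intro χ hχ
      obtain ⟨c, -, rfl⟩ := List.mem_map.1 hχ
      exact lit_neg (hvar _)

end Pool.Agent.MP_9cec2c_lc.TY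
end

section

/-!
The refutation of a Tseitin formula along an order of the vertices with small cuts, and its size.
-/

set_option autoImplicit false
set_option linter.unusedSectionVars false

namespace Pool.Agent.MP_9cec2c_lc.TY

open Finset FG
open TT (cut inc coef tseitin tseitinCNF)
open MX (CountFree)

variable {V E : Type} [Fintype V] [Fintype E] [DecidableEq V] [DecidableEq E] {src tgt : E → V}
  {r m D : ℕ} [NeZero r] {s : V → ZMod r}

theorem parts_nil_conj : (conjL ([] : List (Form V))).parts = {conjL []} := by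
  show insert (conjL []) (⋃ i : Fin 0, _) = _
  ext ψ
  simp

theorem parts_nil_disj : (disjL ([] : List (Form V))).parts = {disjL []} := by
  show insert (disjL []) (⋃ i : Fin 0, _) = _
  ext ψ
  simp

theorem depth_nil_conj : (conjL ([] : List (Form V))).depth = 0 := by
  simp [conjL, Form.depth]

theorem depth_nil_disj : (disjL ([] : List (Form V))).depth = 0 := by
  simp [disjL, Form.depth]

theorem leaf_parts (o : Option (E × ZMod r)) (a : ZMod r) : (leaf o a).parts = {leaf o a} := by
  cases o with
  | none =>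
    show (if a = 0 then conjL [] else disjL [] : Form (E × ZMod r)).parts =
      {if a = 0 then conjL [] else disjL []}
    split_ifs
    · exact parts_nil_conj
    · exact parts_nil_disj
  | some q => rfl

theorem leaf_depth (o : Option (E × ZMod r)) (a : ZMod r) : (leaf o a).depth = 0 := by
  cases o with
  | none =>
    show (if a = 0 then conjL [] else disjL [] : Form (E × ZMod r)).depth = 0
    split_ifs
    · exact depth_nil_conj
    · exact depth_nil_disj
  | some q => rfl

/-- The atoms of the refutation. -/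
def allAt (Cs : Finset (State E r m D)) : Set (Form (E × ZMod r)) :=
  (Set.range Form.var ∪ {conjL [], disjL []}) ∪ ⋃ x ∈ Cs, stAtoms x

theorem allAt_card (hm : 1 ≤ m) {n : ℕ} (Cs : Finset (State E r m D)) (h : Cs.card ≤ n) :
    (allAt Cs).Finite ∧ (allAt Cs).ncard ≤
      Fintype.card E * r + 2 + n * ((D + 1) * m ^ D * (r ^ (m + 1) * (m + 3))) := by
  classical
  have h1 : (Set.range (Form.var : E × ZMod r → Form (E × ZMod r))).Finite := Set.finite_range _
  have h1' : (Set.range (Form.var : E × ZMod r → Form (E × ZMod r))).ncard ≤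
      Fintype.card E * r := by
    rw [← Set.image_univ]
    refine (Set.ncard_image_le Set.finite_univ).trans ?_
    rw [Set.ncard_univ, Nat.card_eq_fintype_card, Fintype.card_prod, ZMod.card]
  have h2 : ({conjL [], disjL []} : Set (Form (E × ZMod r))).Finite := Set.toFinite _
  have h2' : ({conjL [], disjL []} : Set (Form (E × ZMod r))).ncard ≤ 2 :=
    (Set.ncard_insert_le _ _).trans (by rw [Set.ncard_singleton])
  have h3 : (⋃ x ∈ Cs, stAtoms x).Finite ∧ (⋃ x ∈ Cs, stAtoms x).ncard ≤
      Cs.card * ((D + 1) * m ^ D * (r ^ (m + 1) * (m + 3))) := by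
    clear h
    induction Cs using Finset.induction_on with
    | empty => simp
    | insert x Cs hx ih =>
      have h4 : ⋃ y ∈ insert x Cs, stAtoms y = stAtoms x ∪ ⋃ y ∈ Cs, stAtoms y := by
        rw [Finset.set_biUnion_insert]
      obtain ⟨h5, h6⟩ := atoms_card hm D fun q => leaf (x q)
      rw [h4, card_insert_of_notMem hx, Nat.add_mul, one_mul]
      refine ⟨h5.union ih.1, (Set.ncard_union_le _ _).trans ?_⟩
      rw [add_comm]
      exact add_le_add ih.2 h6
  refine ⟨(h1.union h2).union h3.1, (Set.ncard_union_le _ _).trans ?_⟩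
  refine add_le_add ((Set.ncard_union_le _ _).trans (add_le_add h1' h2')) (h3.2.trans ?_)
  exact Nat.mul_le_mul_right _ h

theorem allAt_depth (Cs : Finset (State E r m D)) : ∀ φ ∈ allAt Cs, φ.depth ≤ 2 * D := by
  intro φ hφ
  rcases hφ with (⟨u, rfl⟩ | h) | h
  · exact Nat.zero_le _
  · rcases h with rfl | h
    · rw [depth_nil_conj]
      exact Nat.zero_le _
    · rw [Set.mem_singleton_iff.1 h, depth_nil_disj]
      exact Nat.zero_le _
  · obtain ⟨x, hx⟩ := Set.mem_iUnion.1 h
    obtain ⟨-, hx⟩ := Set.mem_iUnion.1 hx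
    exact atoms_depth D _ (fun q a => leaf_depth _ _) φ hx

theorem allAt_parts (Cs : Finset (State E r m D)) : ∀ φ ∈ allAt Cs, ∀ ψ ∈ φ.parts,
    ψ ∈ allAt Cs := by
  intro φ hφ ψ hψ
  rcases hφ with (⟨u, rfl⟩ | h) | h
  · have h1 : ψ = .var u := hψ
    rw [h1]
    exact Or.inl (Or.inl ⟨u, rfl⟩)
  · rcases h with rfl | h
    · rw [parts_nil_conj] at hψ
      rw [Set.mem_singleton_iff.1 hψ]
      exact Or.inl (Or.inr (Or.inl rfl))
    · rw [Set.mem_singleton_iff.1 h, parts_nil_disj] at hψ
      rw [Set.mem_singleton_iff.1 hψ]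
      exact Or.inl (Or.inr (Or.inr rfl))
  · obtain ⟨x, hx⟩ := Set.mem_iUnion.1 h
    obtain ⟨hx', hx⟩ := Set.mem_iUnion.1 hx
    exact Or.inr (Set.mem_iUnion.2 ⟨x, Set.mem_iUnion.2 ⟨hx',
      atoms_parts D _ (fun q a => leaf_parts _ _) φ hx ψ hψ⟩⟩)

theorem cf_conjL {X : Type} {Λ : List (Form X)} (h : ∀ φ ∈ Λ, CountFree φ) :
    CountFree (conjL Λ) := fun i => h _ (List.get_mem Λ i)

theorem cf_disjL {X : Type} {Λ : List (Form X)} (h : ∀ φ ∈ Λ, CountFree φ) :
    CountFree (disjL Λ) := fun i => h _ (List.get_mem Λ i)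

theorem atoms_cf {X : Type} : ∀ (h : ℕ) (c : (Fin h → Fin m) → ZMod r → Form X),
    (∀ q a, CountFree (c q a)) → ∀ φ ∈ atoms h c, CountFree φ := by
  intro h
  induction h with
  | zero =>
    rintro c hc φ ⟨a, rfl⟩
    exact hc _ a
  | succ h ih =>
    intro c hc φ hφ
    have h0 : ∀ i a, CountFree (node h (fun q => c (Fin.cons i q)) a) := fun i a =>
      ih _ (fun q a => hc _ a) _ (node_mem h _ a)
    have h1 : ∀ t, ∀ ψ ∈ vals (fun i => node h fun q => c (Fin.cons i q)) t, CountFree ψ := by
      intro t ψ hψ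
      obtain ⟨i, rfl⟩ := mem_vals.1 hψ
      exact h0 i _
    rcases hφ with (⟨a, P, hP, rfl⟩ | ⟨t, P, hP, rfl⟩) | h2
    · refine cf_disjL fun ψ hψ => ?_
      obtain ⟨t, -, rfl⟩ := List.mem_map.1 (hP.subset hψ)
      exact cf_conjL (h1 t)
    · exact cf_conjL fun ψ hψ => h1 t ψ (hP.subset hψ)
    · obtain ⟨i, h3⟩ := Set.mem_iUnion.1 h2
      exact ih _ (fun q a => hc _ a) φ h3

theorem leaf_cf (o : Option (E × ZMod r)) (a : ZMod r) : CountFree (leaf o a) := by
  cases o with
  | none =>
    show CountFree (if a = 0 then conjL [] else disjL [] : Form (E × ZMod r))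
    split_ifs
    · exact fun i => i.elim0
    · exact fun i => i.elim0
  | some q => exact trivial

theorem allAt_cf (Cs : Finset (State E r m D)) : ∀ φ ∈ allAt Cs, CountFree φ := by
  intro φ hφ
  rcases hφ with (⟨u, rfl⟩ | h) | h
  · exact trivial
  · rcases h with rfl | h
    · exact fun i => i.elim0
    · rw [Set.mem_singleton_iff.1 h]
      exact fun i => i.elim0
  · obtain ⟨x, hx⟩ := Set.mem_iUnion.1 h
    obtain ⟨-, hx⟩ := Set.mem_iUnion.1 hx
    exact atoms_cf D _ (fun q a => leaf_cf _ _) φ hx

/-- **The refutation along an order of the vertices.** -/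
theorem refute_order (hr : 1 < r) {Δ k : ℕ} (hm : 1 ≤ m) (hΔ : ∀ v, (inc src tgt v).card ≤ Δ)
    (hk : k + Δ < m ^ D) (vs : List V) (hnd : vs.Nodup) (hvs : ∀ v, v ∈ vs)
    (hcut : ∀ R, R <+: vs → (cut src tgt R.toFinset).card ≤ k) (hs : ∑ v, s v ≠ 0) {n : ℕ}
    (hn : Fintype.card E * r + 2 + (Fintype.card V * (Δ + 1) + 1) *
      ((D + 1) * m ^ D * (r ^ (m + 1) * (m + 3))) ≤ n) :
    ∃ (l : ℕ) (L : Fin l → Form (E × ZMod r)),
      IsDerivation tyRules (2 * D + 1) {φ | ∃ C ∈ tseitinCNF src tgt r s, φ = clause C} L ∧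
      (∃ i, L i = falsum) ∧ (∀ i, CountFree (L i)) ∧
      size L ≤ 2 * (2 * n + 1) ^ (2 * (Δ + r + 4)) + 2 * n := by
  obtain ⟨Cs, h1, h2⟩ := run_all hr hΔ hk vs hnd hvs hcut
  obtain ⟨h3, h4⟩ := allAt_card hm Cs h1
  have hsb : Sb {φ | ∃ C ∈ tseitinCNF src tgt r s, φ = clause C} (allAt Cs) (Δ + r + 4) [] := ?_
  · obtain ⟨l, L, k1, k2, k3, k4⟩ := sb_exists h3 (h4.trans hn) (allAt_depth Cs) (allAt_parts Cs) hsb
    refine ⟨l, L, k1, k2, fun i => ?_, k4⟩
    obtain ⟨Λ, -, h5, h6⟩ := k3 i
    rw [h6]
    refine cf_disjL fun φ hφ => ?_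
    rcases h5 φ hφ with h7 | ⟨ψ, h7, rfl⟩
    · exact allAt_cf Cs φ h7
    · exact allAt_cf Cs ψ h7
  refine h2 hs (base_of (fun C hC => ⟨C, hC, rfl⟩) (fun u => Or.inl (Or.inl ⟨u, rfl⟩))
    (Or.inl (Or.inr (Or.inl rfl))) (Or.inl (Or.inr (Or.inr rfl))) (by omega) (by omega)
    fun v => (hΔ v).trans (by omega)) ?_ le_rfl
  intro x hx φ hφ
  exact Or.inr (Set.mem_iUnion.2 ⟨x, Set.mem_iUnion.2 ⟨hx, hφ⟩⟩)

end Pool.Agent.MP_9cec2c_lc.TY
end
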