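import Mathlib

section

/-!
Counting lemmas: finite uniform probability on function spaces.
-/

set_option autoImplicit false

namespace Pool.Agent.MP_9cec2c_lc.SubstRed

open Finset

/-- Uniform probability of a property on a finite type. -/
noncomputable def pr {Ω : Type*} [Fintype Ω] (p : Ω → Prop) : ℝ := by
  classical
  exact ((univ.filter p).card : ℝ) / Fintype.card Ω

section

variable {Ω : Type*} [Fintype Ω]

theorem pr_eq (p : Ω → Prop) [DecidablePred p] :
    pr p = ((univ.filter p).card : ℝ) / Fintype.card Ω := by
  unfold pr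
  congr!

theorem pr_nonneg (p : Ω → Prop) : 0 ≤ pr p := by
  unfold pr; positivity

theorem pr_mono {p q : Ω → Prop} (h : ∀ x, p x → q x) : pr p ≤ pr q := by
  classical
  unfold pr
  gcongr
  exact h _

theorem pr_le_one (p : Ω → Prop) : pr p ≤ 1 := by
  classical
  unfold pr
  refine div_le_one_of_le₀ ?_ (by positivity)
  exact_mod_cast card_le_univ _

theorem exists_of_pr_lt_one [Nonempty Ω] {p : Ω → Prop} (h : pr p < 1) : ∃ x, ¬ p x := by
  classical
  by_contra hcon
  push Not at hcon
  unfold pr at h
  rw [filter_true_of_mem (fun x _ => hcon x)] at h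
  rw [card_univ, div_self] at h
  · exact lt_irrefl _ h
  · exact_mod_cast Fintype.card_ne_zero

theorem pr_or (p q : Ω → Prop) : pr (fun x => p x ∨ q x) ≤ pr p + pr q := by
  classical
  rw [pr_eq, pr_eq, pr_eq, ← add_div]
  gcongr
  rw [filter_or]
  exact_mod_cast card_union_le _ _

theorem pr_exists {T : Type*} (s : Finset T) (p : T → Ω → Prop) :
    pr (fun x => ∃ t ∈ s, p t x) ≤ ∑ t ∈ s, pr (p t) := by
  classical
  have h1 : ∀ t, pr (p t) = ((univ.filter (p t)).card : ℝ) / Fintype.card Ω :=
    fun t => pr_eq _
  rw [pr_eq]
  simp only [h1]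
  rw [← sum_div]
  gcongr
  have : (univ.filter (fun x => ∃ t ∈ s, p t x)) = s.biUnion (fun t => univ.filter (p t)) := by
    ext x
    simp
  have h2 := card_biUnion_le (s := s) (t := fun t => univ.filter (p t))
  rw [← this] at h2
  exact_mod_cast h2

theorem pr_exists_fintype {T : Type*} [Fintype T] (p : T → Ω → Prop) :
    pr (fun x => ∃ t, p t x) ≤ ∑ t, pr (p t) := by
  have := pr_exists (univ : Finset T) p
  simpa using this

theorem pr_card [Nonempty Ω] (p : Ω → Prop) [DecidablePred p] :
    ((univ.filter p).card : ℝ) = pr p * Fintype.card Ω := by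
  unfold pr
  rw [div_mul_cancel₀]
  · congr 2
    ext x
    simp
  · exact_mod_cast Fintype.card_ne_zero

theorem pr_false : pr (fun _ : Ω => False) = 0 := by
  unfold pr; simp

end

section

variable {ι α : Type*} [Fintype ι] [DecidableEq ι] [Fintype α]

/-- Resampling one coordinate. -/
theorem resample [Nonempty α] (Y : (ι → α) → Prop) (i : ι) (M : (ι → α) → α → Prop) (q : ℝ)
    (hY : ∀ H E, Y H → Y (Function.update H i E))
    (hM : ∀ H E x, M (Function.update H i E) x → M H x)
    (hq : ∀ H, Y H → pr (M H) ≤ q) :
    pr (fun H => Y H ∧ M H (H i)) ≤ q * pr Y := by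
  classical
  have hcard : ((univ.filter (fun H => Y H ∧ M H (H i))).card : ℝ) * Fintype.card α ≤
      ∑ H ∈ univ.filter Y, ((univ.filter (M H)).card : ℝ) := by
    rw [← Nat.cast_sum, ← card_sigma]
    rw [← card_univ (α := α), ← Nat.cast_mul, ← card_product]
    norm_cast
    refine card_le_card_of_injOn
      (fun p => (⟨Function.update p.1 i p.2, p.1 i⟩ : Σ _ : ι → α, α)) ?_ ?_
    · rintro ⟨H, E⟩ hp
      simp only [coe_product, Set.mem_prod, mem_coe, mem_filter, mem_univ, true_and,
        and_true] at hp
      simp only [coe_sigma, Set.mem_sigma_iff, mem_coe, mem_filter, mem_univ, true_and]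
      refine ⟨hY H E hp.1, ?_⟩
      refine hM (Function.update H i E) (H i) (H i) ?_
      rw [Function.update_idem, Function.update_eq_self]
      exact hp.2
    · rintro ⟨H, E⟩ - ⟨H', E'⟩ - heq
      simp only [Sigma.mk.injEq, heq_eq_eq] at heq
      obtain ⟨h1, h2⟩ := heq
      have h3 : E = E' := by
        have := congrFun h1 i
        simpa using this
      have h4 : H = H' := by
        funext j
        by_cases hj : j = i
        · rw [hj, h2]
        · have := congrFun h1 j
          simpa [Function.update_of_ne hj] using this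
      rw [h3, h4]
  have hα : (0 : ℝ) < Fintype.card α := by exact_mod_cast Fintype.card_pos
  have h1 : ∑ H ∈ univ.filter Y, ((univ.filter (M H)).card : ℝ) ≤
      (univ.filter Y).card * (q * Fintype.card α) := by
    rw [← nsmul_eq_mul]
    refine sum_le_card_nsmul _ _ _ fun H hH => ?_
    rw [pr_card]
    gcongr
    exact hq H (by simpa using hH)
  have h2 : ((univ.filter (fun H => Y H ∧ M H (H i))).card : ℝ) ≤
      q * (univ.filter Y).card := by
    have h3 := hcard.trans h1
    have h4 : ((univ.filter Y).card : ℝ) * (q * Fintype.card α) =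
      (q * (univ.filter Y).card) * Fintype.card α := by ring
    rw [h4] at h3
    exact le_of_mul_le_mul_right h3 hα
  rw [pr_eq, pr_eq, ← mul_div_assoc]
  gcongr

/-- Product bound for conditions on distinct coordinates. -/
theorem indep_prod [Nonempty α] (I : Finset ι) (M : ι → (ι → α) → α → Prop) (q : ι → ℝ)
    (hM : ∀ i ∈ I, ∀ j ∈ I, ∀ H E x, M i (Function.update H j E) x ↔ M i H x)
    (hq : ∀ i ∈ I, ∀ H, pr (M i H) ≤ q i) :
    pr (fun H : ι → α => ∀ i ∈ I, M i H (H i)) ≤ ∏ i ∈ I, q i := by
  classical
  have key : ∀ S ⊆ I, pr (fun H : ι → α => ∀ i ∈ S, M i H (H i)) ≤ ∏ i ∈ S, q i := by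
    intro S
    induction S using Finset.induction_on with
    | empty => intro _; simpa using pr_le_one _
    | insert i S hi ih =>
      intro hS
      have hiI : i ∈ I := hS (mem_insert_self _ _)
      have hSI : S ⊆ I := fun x hx => hS (mem_insert_of_mem hx)
      have h1 := resample (fun H : ι → α => ∀ j ∈ S, M j H (H j)) i (M i) (q i)
        (by
          intro H E h j hj
          have hne : j ≠ i := fun h => hi (h ▸ hj)
          rw [Function.update_of_ne hne, hM j (hSI hj) i hiI]
          exact h j hj)
        (fun H E x h => (hM i hiI i hiI H E x).1 h)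
        (fun H _ => hq i hiI H)
      have hq0 : 0 ≤ q i := (pr_nonneg _).trans (hq i hiI (Classical.arbitrary _))
      rw [prod_insert hi]
      refine le_trans ?_ (h1.trans (mul_le_mul_of_nonneg_left (ih hSI) hq0))
      refine pr_mono fun H h => ⟨fun j hj => h j (mem_insert_of_mem hj),
        h i (mem_insert_self _ _)⟩
  exact key I (Subset.refl _)

/-- Product bound with a uniform factor. -/
theorem indep [Nonempty α] (I : Finset ι) (M : ι → (ι → α) → α → Prop) (q : ℝ)
    (hM : ∀ i ∈ I, ∀ j ∈ I, ∀ H E x, M i (Function.update H j E) x ↔ M i H x)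
    (hq : ∀ i ∈ I, ∀ H, pr (M i H) ≤ q) :
    pr (fun H : ι → α => ∀ i ∈ I, M i H (H i)) ≤ q ^ I.card := by
  have := indep_prod I M (fun _ => q) hM hq
  simpa using this

/-- Product bound for fixed conditions. -/
theorem indep_fixed [Nonempty α] (I : Finset ι) (M : α → Prop) (q : ℝ) (hq : pr M ≤ q) :
    pr (fun H : ι → α => ∀ i ∈ I, M (H i)) ≤ q ^ I.card :=
  indep I (fun _ _ => M) q (by simp) (fun _ _ _ => hq)

end

theorem sum_pow_card {ι : Type*} [Fintype ι] (x : ℝ) :
    ∑ J : Finset ι, x ^ J.card = (1 + x) ^ Fintype.card ι := by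
  have := sum_pow_mul_eq_add_pow x 1 (univ : Finset ι)
  simp only [one_pow, mul_one, powerset_univ, card_univ] at this
  rw [this, add_comm]

/-- In a partial functional digraph without fixed points there is a large independent set. -/
theorem exists_indep_set {ι : Type*} [DecidableEq ι] (j : ι → ι) (S : Finset ι)
    (hj : ∀ i ∈ S, j i ≠ i) :
    ∃ I ⊆ S, S.card ≤ 3 * I.card ∧ ∀ i ∈ I, j i ∉ I := by
  classical
  induction hn : S.card using Nat.strong_induction_on generalizing S with
  | _ N ih =>
    rcases S.eq_empty_or_nonempty with rfl | hne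
    · refine ⟨∅, by simp, ?_, by simp⟩
      simpa using hn.symm
    · -- an element with at most one preimage
      have hex : ∃ i ∈ S, (S.filter (fun i' => j i' = i)).card ≤ 1 := by
        by_contra hcon
        push Not at hcon
        have h1 : ∑ i ∈ S, (S.filter (fun i' => j i' = i)).card ≤ S.card := by
          have h2 := card_biUnion (s := S) (t := fun i => S.filter (fun i' => j i' = i)) (by
            intro a _ b _ hab
            rw [Function.onFun, disjoint_left]
            intro x hx hx'
            simp only [mem_filter] at hx hx'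
            exact hab (hx.2.symm.trans hx'.2))
          rw [← h2]
          refine card_le_card ?_
          intro x hx
          simp only [mem_biUnion, mem_filter] at hx
          obtain ⟨_, _, hx, _⟩ := hx
          exact hx
        have h3 : S.card • 2 ≤ ∑ i ∈ S, (S.filter (fun i' => j i' = i)).card :=
          card_nsmul_le_sum _ _ _ fun i hi => hcon i hi
        have h4 := hne.card_pos
        simp only [smul_eq_mul] at h3
        omega
      obtain ⟨i0, hi0, hc⟩ := hex
      let R := S.filter (fun i' => j i' = i0)
      let D := insert i0 (insert (j i0) R)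
      have hD : D.card ≤ 3 := by
        have h1 := card_insert_le i0 (insert (j i0) R)
        have h2 := card_insert_le (j i0) R
        have h3 : R.card ≤ 1 := hc
        change (insert i0 (insert (j i0) R)).card ≤ 3
        omega
      have hlt : (S \ D).card < N := by
        rw [← hn]
        refine card_lt_card ?_
        rw [ssubset_iff_of_subset sdiff_subset]
        exact ⟨i0, hi0, by simp [D]⟩
      obtain ⟨I, hI1, hI2, hI3⟩ := ih _ hlt (S \ D)
        (fun i hi => hj i (mem_sdiff.1 hi).1) rfl
      have hi0I : i0 ∉ I := fun h => (mem_sdiff.1 (hI1 h)).2 (by simp [D])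
      refine ⟨insert i0 I, ?_, ?_, ?_⟩
      · intro x hx
        rcases mem_insert.1 hx with rfl | hx
        · exact hi0
        · exact (mem_sdiff.1 (hI1 hx)).1
      · rw [card_insert_of_notMem hi0I]
        have h1 : S.card ≤ (S \ D).card + D.card := by
          rw [← card_sdiff_add_card_inter S D]
          have := card_le_card (inter_subset_right (s₁ := S) (s₂ := D))
          omega
        omega
      · intro i hi
        rcases mem_insert.1 hi with rfl | hi
        · intro h
          rcases mem_insert.1 h with h | h
          · exact hj _ hi0 h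
          · exact (mem_sdiff.1 (hI1 h)).2 (by simp [D])
        · intro h
          rcases mem_insert.1 h with h | h
          · refine (mem_sdiff.1 (hI1 hi)).2 ?_
            simp only [D, mem_insert]
            right; right
            simp only [R, mem_filter]
            exact ⟨(mem_sdiff.1 (hI1 hi)).1, h⟩
          · exact hI3 i hi h

end Pool.Agent.MP_9cec2c_lc.SubstRed
end

section

/-!
Averages over finite types, and independence.
-/

set_option autoImplicit false
set_option linter.unusedSectionVars false

namespace Pool.Agent.MP_9cec2c_lc.FormulaLines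

open Finset
open Pool.Agent.MP_9cec2c_lc.SubstRed

/-- Average of a real function on a finite type. -/
noncomputable def av {Ω : Type*} [Fintype Ω] (f : Ω → ℝ) : ℝ := (∑ x, f x) / Fintype.card Ω

section

variable {Ω : Type*} [Fintype Ω]

/-- Indicator of a proposition. -/
noncomputable def ind (P : Prop) : ℝ := by
  classical
  exact if P then 1 else 0

theorem ind_pos {P : Prop} (h : P) : ind P = 1 := by unfold ind; simp [h]

theorem ind_neg {P : Prop} (h : ¬ P) : ind P = 0 := by unfold ind; simp [h]

theorem ind_nonneg (P : Prop) : 0 ≤ ind P := by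
  by_cases h : P
  · rw [ind_pos h]; norm_num
  · rw [ind_neg h]

theorem ind_congr {P Q : Prop} (h : P ↔ Q) : ind P = ind Q := by rw [propext h]

theorem pr_eq_av (p : Ω → Prop) : pr p = av (fun x => ind (p x)) := by
  classical
  rw [pr_eq, av, ← Finset.sum_boole]
  have h : ∀ x, ind (p x) = if p x then 1 else 0 := by
    intro x
    by_cases h : p x
    · rw [ind_pos h, if_pos h]
    · rw [ind_neg h, if_neg h]
  simp only [h]

theorem av_mono {f g : Ω → ℝ} (h : ∀ x, f x ≤ g x) : av f ≤ av g := by
  unfold av
  gcongr
  exact h _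

theorem av_nonneg {f : Ω → ℝ} (h : ∀ x, 0 ≤ f x) : 0 ≤ av f := by
  unfold av
  exact div_nonneg (sum_nonneg fun x _ => h x) (by positivity)

theorem av_const [Nonempty Ω] (c : ℝ) : av (fun _ : Ω => c) = c := by
  unfold av
  rw [sum_const, card_univ, nsmul_eq_mul, mul_div_cancel_left₀]
  exact_mod_cast Fintype.card_ne_zero

theorem av_congr {f g : Ω → ℝ} (h : ∀ x, f x = g x) : av f = av g := by
  rw [funext h]

theorem av_mul_left (c : ℝ) (f : Ω → ℝ) : av (fun x => c * f x) = c * av f := by
  unfold av
  rw [← mul_sum, mul_div_assoc]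

theorem av_sum {T : Type*} (s : Finset T) (f : T → Ω → ℝ) :
    av (fun x => ∑ t ∈ s, f t x) = ∑ t ∈ s, av (f t) := by
  unfold av
  rw [sum_comm, sum_div]

theorem av_comm {Ω' : Type*} [Fintype Ω'] (f : Ω → Ω' → ℝ) :
    av (fun x => av (f x)) = av (fun y => av (fun x => f x y)) := by
  unfold av
  rw [← sum_div, ← sum_div, sum_comm, div_div, div_div, mul_comm]

theorem av_prod_type {Ω' : Type*} [Fintype Ω'] (f : Ω × Ω' → ℝ) :
    av f = av (fun x => av (fun y => f (x, y))) := by
  unfold av
  rw [← sum_div, Fintype.sum_prod_type, Fintype.card_prod, Nat.cast_mul, div_div, mul_comm]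

theorem av_equiv (e : Ω ≃ Ω) (f : Ω → ℝ) : av (fun x => f (e x)) = av f := by
  unfold av
  rw [Equiv.sum_comp e f]

end

section

variable {ι α : Type*} [Fintype ι] [DecidableEq ι] [Fintype α]

/-- Resampling of one coordinate. -/
theorem av_update [Nonempty α] (i : ι) (f : (ι → α) → ℝ) :
    av f = av (fun H => av (fun E => f (Function.update H i E))) := by
  rw [← av_prod_type (fun p : (ι → α) × α => f (Function.update p.1 i p.2))]
  have h1 : av (fun p : (ι → α) × α => f p.1) = av f := by
    rw [av_prod_type]
    exact av_congr fun x => av_const (f x)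
  rw [← h1]
  let e : (ι → α) × α ≃ (ι → α) × α :=
    { toFun := fun p => (Function.update p.1 i p.2, p.1 i)
      invFun := fun p => (Function.update p.1 i p.2, p.1 i)
      left_inv := by
        rintro ⟨H, E⟩
        simp
      right_inv := by
        rintro ⟨H, E⟩
        simp }
  exact (av_equiv e (fun p => f p.1)).symm

/-- Products over distinct coordinates. -/
theorem av_prod_coord [Nonempty α] (I : Finset ι) (φ : (ι → α) → α → ℝ) {q : ℝ}
    (h0 : ∀ H E, 0 ≤ φ H E) (hM : ∀ j ∈ I, ∀ H E, φ (Function.update H j E) = φ H)
    (hq : ∀ H, av (φ H) ≤ q) :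
    av (fun H : ι → α => ∏ i ∈ I, φ H (H i)) ≤ q ^ I.card := by
  classical
  have hq0 : 0 ≤ q := (av_nonneg (h0 (Classical.arbitrary _))).trans (hq _)
  have key : ∀ S ⊆ I, av (fun H : ι → α => ∏ i ∈ S, φ H (H i)) ≤ q ^ S.card := by
    intro S
    induction S using Finset.induction_on with
    | empty => intro _; simp [av_const]
    | insert i S hi ih =>
      intro hS
      have hiI : i ∈ I := hS (mem_insert_self _ _)
      have hSI : S ⊆ I := fun x hx => hS (mem_insert_of_mem hx)
      rw [av_update i, card_insert_of_notMem hi, pow_succ']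
      have h1 : ∀ H : ι → α, av (fun E => ∏ j ∈ insert i S,
          φ (Function.update H i E) (Function.update H i E j)) ≤
          q * ∏ j ∈ S, φ H (H j) := by
        intro H
        have h2 : ∀ E, ∏ j ∈ insert i S,
            φ (Function.update H i E) (Function.update H i E j) =
            (∏ j ∈ S, φ H (H j)) * φ H E := by
          intro E
          rw [prod_insert hi, hM i hiI, Function.update_self, mul_comm]
          congr 1
          refine prod_congr rfl fun j hj => ?_
          rw [Function.update_of_ne]
          rintro rfl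
          exact hi hj
        rw [av_congr h2, av_mul_left, mul_comm]
        exact mul_le_mul_of_nonneg_right (hq H) (prod_nonneg fun j _ => h0 _ _)
      refine (av_mono h1).trans ?_
      rw [av_mul_left]
      exact mul_le_mul_of_nonneg_left (ih hSI) hq0
  exact key I (Subset.refl _)

end

section

variable {X : Type*} [Fintype X] [DecidableEq X]

/-- `v` on `U`, `r` elsewhere. -/
def mix (U : Finset X) (v r : X → Bool) : X → Bool := fun a => if a ∈ U then v a else r a

theorem mix_mem {U : Finset X} {v r : X → Bool} {a : X} (h : a ∈ U) : mix U v r a = v a := by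
  simp [mix, h]

theorem mix_not_mem {U : Finset X} {v r : X → Bool} {a : X} (h : a ∉ U) :
    mix U v r a = r a := by
  simp [mix, h]

/-- Swapping the values outside `U`. -/
def mixEquiv (U : Finset X) : (X → Bool) × (X → Bool) ≃ (X → Bool) × (X → Bool) where
  toFun p := (mix U p.1 p.2, mix U p.2 p.1)
  invFun p := (mix U p.1 p.2, mix U p.2 p.1)
  left_inv := by
    rintro ⟨v, r⟩
    ext a <;> by_cases h : a ∈ U <;> simp [mix, h]
  right_inv := by
    rintro ⟨v, r⟩
    ext a <;> by_cases h : a ∈ U <;> simp [mix, h]

theorem av_mix (U : Finset X) (f : (X → Bool) → ℝ) :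
    av f = av (fun v => av (fun r => f (mix U v r))) := by
  rw [← av_prod_type (fun p : (X → Bool) × (X → Bool) => f (mix U p.1 p.2))]
  have h1 : av (fun p : (X → Bool) × (X → Bool) => f p.1) = av f := by
    rw [av_prod_type]
    exact av_congr fun x => av_const (f x)
  rw [← h1]
  exact (av_equiv (mixEquiv U) (fun p => f p.1)).symm

/-- The function depends only on the coordinates in `U`. -/
def DepOn {β : Type*} (U : Finset X) (f : (X → Bool) → β) : Prop :=
  ∀ r r', (∀ a ∈ U, r a = r' a) → f r = f r'

theorem av_indep_two {U V : Finset X} (hUV : Disjoint U V) {f g : (X → Bool) → ℝ}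
    (hf : DepOn U f) (hg : DepOn V g) : av (fun r => f r * g r) = av f * av g := by
  rw [av_mix U]
  have h1 : ∀ v r : X → Bool, f (mix U v r) * g (mix U v r) = f v * g r := by
    intro v r
    rw [hf (mix U v r) v fun a ha => mix_mem ha,
      hg (mix U v r) r fun a ha => mix_not_mem fun h => disjoint_left.1 hUV h ha]
  simp only [h1, av_mul_left]
  have h2 : ∀ v, f v * av g = av g * f v := fun v => mul_comm _ _
  simp only [h2, av_mul_left]
  ring

theorem av_indep_prod {T : Type*} [DecidableEq T] (I : Finset T) (U : T → Finset X)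
    (f : T → (X → Bool) → ℝ) (hf : ∀ t ∈ I, DepOn (U t) (f t))
    (hU : ∀ t ∈ I, ∀ t' ∈ I, t ≠ t' → Disjoint (U t) (U t')) :
    av (fun r => ∏ t ∈ I, f t r) = ∏ t ∈ I, av (f t) := by
  induction I using Finset.induction_on with
  | empty => simp [av_const]
  | insert i S hi ih =>
    simp only [prod_insert hi]
    rw [av_indep_two (U := U i) (V := S.biUnion U) _ (hf i (mem_insert_self _ _)) _, ih]
    · exact fun t ht => hf t (mem_insert_of_mem ht)
    · exact fun t ht t' ht' => hU t (mem_insert_of_mem ht) t' (mem_insert_of_mem ht')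
    · rw [disjoint_biUnion_right]
      intro t ht
      refine hU i (mem_insert_self _ _) t (mem_insert_of_mem ht) ?_
      rintro rfl
      exact hi ht
    · intro r r' h
      refine prod_congr rfl fun t ht => ?_
      exact hf t (mem_insert_of_mem ht) r r' fun a ha => h a (mem_biUnion.2 ⟨t, ht, ha⟩)

end

end Pool.Agent.MP_9cec2c_lc.FormulaLines
end
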