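import Mathlib

section

/-!
Semantic refutations whose lines are Boolean functions of few AND/OR formulas: the public
definitions.
-/

set_option autoImplicit false

namespace Pool.Agent.MP_9cec2c_lc.FormulaLines

/-- A literal over the set `V` of variables.  The literal `(v, b)` is true under the
assignment `x` exactly when `x v = b`. -/
abbrev Lit (V : Type) := V × Bool

/-- A clause is a finite set of literals, read as their disjunction. -/
abbrev Clause (V : Type) := Finset (Lit V)

/-- The assignment `x` satisfies the clause `C`. -/
def Holds {V : Type} (x : V → Bool) (C : Clause V) : Prop := ∃ l ∈ C, x l.1 = l.2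

/-- AND/OR formulas.  A leaf carries a Boolean function `g` of the variables in `S`. -/
inductive Formula (V : Type) : Type
  | leaf (S : Finset V) (g : (V → Bool) → Bool) : Formula V
  | and (f g : Formula V) : Formula V
  | or (f g : Formula V) : Formula V

/-- The value of a formula under an assignment. -/
def Formula.eval {V : Type} (x : V → Bool) : Formula V → Bool
  | Formula.leaf _ g => g x
  | Formula.and f g => f.eval x && g.eval x
  | Formula.or f g => f.eval x || g.eval x

/-- The size of a formula: its number of leaves. -/
def Formula.size {V : Type} : Formula V → ℕ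
  | Formula.leaf _ _ => 1
  | Formula.and f g => f.size + g.size
  | Formula.or f g => f.size + g.size

/-- Every leaf is a function of (at most) the variables in its set `S`, and the size of this
set is at most `k`. -/
def Formula.Local {V : Type} (k : ℝ) : Formula V → Prop
  | Formula.leaf S g => (S.card : ℝ) ≤ k ∧ ∀ x y : V → Bool, (∀ v ∈ S, x v = y v) → g x = g y
  | Formula.and f g => f.Local k ∧ g.Local k
  | Formula.or f g => f.Local k ∧ g.Local k

/-- A line of a refutation: an arbitrary Boolean function `top` of the values of `num`
formulas. -/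
structure Line (V : Type) where
  /-- the number of formulas -/
  num : ℕ
  /-- the formulas -/
  part : Fin num → Formula V
  /-- the function that is applied to their values -/
  top : (Fin num → Bool) → Bool

/-- The value of a line under an assignment. -/
def Line.eval {V : Type} (x : V → Bool) (L : Line V) : Bool :=
  L.top (fun i => (L.part i).eval x)

/-- The line is a function of at most `k` formulas; each of them has at most `s` leaves, and
each leaf is a function of at most `k` variables. -/
def Line.Small {V : Type} (k s : ℝ) (L : Line V) : Prop :=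
  (L.num : ℝ) ≤ k ∧ ∀ i, (L.part i).Local k ∧ ((L.part i).size : ℝ) ≤ s

/-- A semantic refutation of `F` with the `S` lines `L 0, …, L (S - 1)`: some line is
identically false, and each line is implied by one clause of `F`, or by at most `k` earlier
lines. -/
def IsRefutation {V : Type} {S : ℕ} (k : ℝ) (F : Finset (Clause V)) (L : Fin S → Line V) :
    Prop :=
  (∃ i, ∀ x, (L i).eval x = false) ∧
    ∀ i : Fin S,
      (∃ C ∈ F, ∀ x, Holds x C → (L i).eval x = true) ∨
        ∃ P : Finset (Fin S), (P.card : ℝ) ≤ k ∧ (∀ j ∈ P, j < i) ∧
          ∀ x, (∀ j ∈ P, (L j).eval x = true) → (L i).eval x = true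

end Pool.Agent.MP_9cec2c_lc.FormulaLines
end

section

/-!
Decomposition of a formula into small pieces with at most one hole.
-/

set_option autoImplicit false

namespace Pool.Agent.MP_9cec2c_lc.FormulaLines

open Finset

/-- Formulas with a hole. -/
inductive Piece (W : Type) : Type
  | leaf (S : Finset W) (g : (W → Bool) → Bool) : Piece W
  | hole : Piece W
  | and (f g : Piece W) : Piece W
  | or (f g : Piece W) : Piece W

namespace Piece

variable {W : Type}

/-- Value, with the value `u` in the hole. -/
def eval (x : W → Bool) (u : Bool) : Piece W → Bool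
  | leaf _ g => g x
  | hole => u
  | and f g => f.eval x u && g.eval x u
  | or f g => f.eval x u || g.eval x u

/-- Number of leaves that are not holes. -/
def size : Piece W → ℕ
  | leaf _ _ => 1
  | hole => 0
  | and f g => f.size + g.size
  | or f g => f.size + g.size

/-- The variables read by the piece. -/
def reads [DecidableEq W] : Piece W → Finset W
  | leaf S _ => S
  | hole => ∅
  | and f g => f.reads ∪ g.reads
  | or f g => f.reads ∪ g.reads

/-- Leaves are functions of at most `k` variables. -/
def Local (k : ℕ) : Piece W → Prop
  | leaf S g => S.card ≤ k ∧ ∀ x y : W → Bool, (∀ v ∈ S, x v = y v) → g x = g y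
  | hole => True
  | and f g => f.Local k ∧ g.Local k
  | or f g => f.Local k ∧ g.Local k

theorem reads_card [DecidableEq W] {k : ℕ} (p : Piece W) (h : p.Local k) :
    p.reads.card ≤ p.size * k := by
  induction p with
  | leaf S g => simpa [reads, size] using h.1
  | hole => simp [reads]
  | and f g hf hg =>
    have h1 := hf h.1
    have h2 := hg h.2
    have h3 := card_union_le f.reads g.reads
    simp only [reads, size, add_mul]
    omega
  | or f g hf hg =>
    have h1 := hf h.1
    have h2 := hg h.2
    have h3 := card_union_le f.reads g.reads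
    simp only [reads, size, add_mul]
    omega

theorem eval_congr [DecidableEq W] {k : ℕ} (p : Piece W) (h : p.Local k) {x y : W → Bool}
    (hxy : ∀ v ∈ p.reads, x v = y v) (u : Bool) : p.eval x u = p.eval y u := by
  induction p with
  | leaf S g => exact h.2 x y hxy
  | hole => rfl
  | and f g hf hg =>
    simp only [reads, mem_union] at hxy
    simp only [eval]
    rw [hf h.1 fun v hv => hxy v (Or.inl hv), hg h.2 fun v hv => hxy v (Or.inr hv)]
  | or f g hf hg =>
    simp only [reads, mem_union] at hxy
    simp only [eval]
    rw [hf h.1 fun v hv => hxy v (Or.inl hv), hg h.2 fun v hv => hxy v (Or.inr hv)]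

end Piece

/-- The state of the decomposition: finished pieces, the current piece, and whether the current
piece has a hole. -/
structure Dec (W : Type) where
  /-- finished pieces -/
  fin : List (Piece W)
  /-- current piece -/
  cur : Piece W
  /-- is there a hole -/
  hol : Bool

variable {W : Type}

/-- Combination of two decompositions at a gate. -/
def comb (l : ℕ) (op : Piece W → Piece W → Piece W) (a b : Dec W) : Dec W :=
  if a.hol = true ∧ b.hol = true then
    ⟨a.cur :: b.cur :: (a.fin ++ b.fin), Piece.hole, true⟩
  else if l ≤ a.cur.size + b.cur.size then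
    ⟨op a.cur b.cur :: (a.fin ++ b.fin), Piece.hole, true⟩
  else ⟨a.fin ++ b.fin, op a.cur b.cur, a.hol || b.hol⟩

/-- The decomposition of a formula into pieces of size less than `2 l`. -/
def dec (l : ℕ) : Formula W → Dec W
  | Formula.leaf S g => ⟨[], Piece.leaf S g, false⟩
  | Formula.and f g => comb l Piece.and (dec l f) (dec l g)
  | Formula.or f g => comb l Piece.or (dec l f) (dec l g)

/-- The number of pieces. -/
def Dec.Few (l s : ℕ) (a : Dec W) : Prop :=
  l * (a.fin.length + 2 * (if a.hol = true then 1 else 0)) + 3 * a.cur.size ≤ 3 * s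

theorem comb_few {l s s' : ℕ} (op : Piece W → Piece W → Piece W)
    (hop : ∀ f g, (op f g).size = f.size + g.size) {a b : Dec W} (ha : a.Few l s)
    (hb : b.Few l s') : (comb l op a b).Few l (s + s') := by
  obtain ⟨fa, ca, ha'⟩ := a
  obtain ⟨fb, cb, hb'⟩ := b
  unfold Dec.Few at *
  unfold comb
  have e1 : (if (true : Bool) = true then 1 else 0) = 1 := rfl
  have e2 : (if (false : Bool) = true then 1 else 0) = 0 := rfl
  by_cases h3 : l ≤ ca.size + cb.size
  · cases ha' <;> cases hb'
    all_goals
      simp only [Bool.false_eq_true, and_false, false_and, and_self, if_false, if_true,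
        if_pos h3, List.length_cons, List.length_append, Piece.size, mul_zero, add_zero,
        mul_one, mul_add] at ha hb ⊢
      omega
  · cases ha' <;> cases hb'
    all_goals
      simp only [Bool.false_eq_true, and_false, false_and, and_self, if_false, if_true,
        if_neg h3, List.length_cons, List.length_append, Piece.size, mul_zero, add_zero,
        mul_one, mul_add, hop, Bool.or_true, Bool.or_false, Bool.true_or, Bool.false_or] at ha hb ⊢
      omega

theorem dec_few (l : ℕ) (f : Formula W) : (dec l f).Few l f.size := by
  induction f with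
  | leaf S g => simp [dec, Dec.Few, Piece.size, Formula.size]
  | and f g hf hg => exact comb_few _ (fun _ _ => rfl) hf hg
  | or f g hf hg => exact comb_few _ (fun _ _ => rfl) hf hg

/-- All pieces. -/
def pieces (l : ℕ) (f : Formula W) : List (Piece W) := (dec l f).cur :: (dec l f).fin

theorem pieces_length {l : ℕ} (f : Formula W) :
    l * (pieces l f).length ≤ 3 * f.size + l := by
  have h := dec_few l f
  unfold Dec.Few at h
  simp only [pieces, List.length_cons, mul_add, mul_one] at *
  have : l * (dec l f).fin.length ≤ 3 * f.size := by
    have h2 : 0 ≤ l * (2 * (if (dec l f).hol = true then 1 else 0)) := Nat.zero_le _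
    omega
  omega

theorem comb_mem {l : ℕ} {op : Piece W → Piece W → Piece W} {a b : Dec W} {p : Piece W}
    (hp : p = (comb l op a b).cur ∨ p ∈ (comb l op a b).fin) :
    p = a.cur ∨ p = b.cur ∨ p ∈ a.fin ∨ p ∈ b.fin ∨ p = Piece.hole ∨ p = op a.cur b.cur := by
  unfold comb at hp
  split_ifs at hp with h1 h2
  · simp only [List.mem_cons, List.mem_append] at hp
    tauto
  · simp only [List.mem_cons, List.mem_append] at hp
    tauto
  · simp only [List.mem_append] at hp
    tauto

theorem comb_cur_size {l : ℕ} (hl : 0 < l) {op : Piece W → Piece W → Piece W}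
    (hop : ∀ f g, (op f g).size = f.size + g.size) {a b : Dec W} :
    (comb l op a b).cur.size < l := by
  unfold comb
  split_ifs with h1 h2
  · simpa [Piece.size] using hl
  · simpa [Piece.size] using hl
  · simp only [hop]
    omega

theorem dec_cur_size {l : ℕ} (hl : 2 ≤ l) (f : Formula W) : (dec l f).cur.size < l := by
  cases f with
  | leaf S g => simp only [dec, Piece.size]; omega
  | and f g => exact comb_cur_size (by omega) fun _ _ => rfl
  | or f g => exact comb_cur_size (by omega) fun _ _ => rfl

theorem pieces_size {l : ℕ} (hl : 2 ≤ l) (f : Formula W) :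
    ∀ p ∈ pieces l f, p.size < 2 * l := by
  induction f with
  | leaf S g =>
    intro p hp
    simp only [pieces, dec, List.mem_cons, List.not_mem_nil, or_false] at hp
    rw [hp]
    simp only [Piece.size]
    omega
  | and f g hf hg =>
    intro p hp
    simp only [pieces, List.mem_cons] at hp hf hg
    rcases comb_mem hp with h | h | h | h | h | h
    · exact hf p (Or.inl h)
    · exact hg p (Or.inl h)
    · exact hf p (Or.inr h)
    · exact hg p (Or.inr h)
    · rw [h]; simp only [Piece.size]; omega
    · have h1 := dec_cur_size hl f
      have h2 := dec_cur_size hl g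
      rw [h]; simp only [Piece.size]; omega
  | or f g hf hg =>
    intro p hp
    simp only [pieces, List.mem_cons] at hp hf hg
    rcases comb_mem hp with h | h | h | h | h | h
    · exact hf p (Or.inl h)
    · exact hg p (Or.inl h)
    · exact hf p (Or.inr h)
    · exact hg p (Or.inr h)
    · rw [h]; simp only [Piece.size]; omega
    · have h1 := dec_cur_size hl f
      have h2 := dec_cur_size hl g
      rw [h]; simp only [Piece.size]; omega

theorem pieces_local {l k : ℕ} (f : Formula W) (hf : f.Local (k : ℝ)) :
    ∀ p ∈ pieces l f, p.Local k := by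
  induction f with
  | leaf S g =>
    intro p hp
    simp only [pieces, dec, List.mem_cons, List.not_mem_nil, or_false] at hp
    rw [hp]
    refine ⟨by exact_mod_cast hf.1, hf.2⟩
  | and f g ihf ihg =>
    intro p hp
    have hf' := ihf hf.1
    have hg' := ihg hf.2
    simp only [pieces, List.mem_cons] at hp hf' hg'
    rcases comb_mem hp with h | h | h | h | h | h
    · exact hf' p (Or.inl h)
    · exact hg' p (Or.inl h)
    · exact hf' p (Or.inr h)
    · exact hg' p (Or.inr h)
    · rw [h]; trivial
    · rw [h]; exact ⟨hf' _ (Or.inl rfl), hg' _ (Or.inl rfl)⟩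
  | or f g ihf ihg =>
    intro p hp
    have hf' := ihf hf.1
    have hg' := ihg hf.2
    simp only [pieces, List.mem_cons] at hp hf' hg'
    rcases comb_mem hp with h | h | h | h | h | h
    · exact hf' p (Or.inl h)
    · exact hg' p (Or.inl h)
    · exact hf' p (Or.inr h)
    · exact hg' p (Or.inr h)
    · rw [h]; trivial
    · rw [h]; exact ⟨hf' _ (Or.inl rfl), hg' _ (Or.inl rfl)⟩

/-- The meaning of the state of the decomposition. -/
def Dec.Sem (a : Dec W) (F : (W → Bool) → Bool) : Prop :=
  (a.hol = false → ∀ x u u', a.cur.eval x u = a.cur.eval x u') ∧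
  ∃ val : (W → Bool) → Bool, (∀ x, F x = a.cur.eval x (val x)) ∧
    ∀ x y, (∀ p ∈ a.fin, ∀ u, p.eval x u = p.eval y u) → val x = val y

theorem comb_sem {l : ℕ} {op : Piece W → Piece W → Piece W} (o : Bool → Bool → Bool)
    (hop : ∀ f g x u, (op f g).eval x u = o (f.eval x u) (g.eval x u)) {a b : Dec W}
    {F G : (W → Bool) → Bool} (ha : a.Sem F) (hb : b.Sem G) :
    (comb l op a b).Sem (fun x => o (F x) (G x)) := by
  obtain ⟨ha1, va, ha2, ha3⟩ := ha
  obtain ⟨hb1, vb, hb2, hb3⟩ := hb
  unfold comb
  by_cases h1 : a.hol = true ∧ b.hol = true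
  · rw [if_pos h1]
    refine ⟨fun h => by simp at h, fun x => o (F x) (G x), fun x => rfl, ?_⟩
    intro x y hxy
    simp only [List.mem_cons, List.mem_append] at hxy
    have e1 : va x = va y := ha3 x y fun p hp u => hxy p (Or.inr (Or.inr (Or.inl hp))) u
    have e2 : vb x = vb y := hb3 x y fun p hp u => hxy p (Or.inr (Or.inr (Or.inr hp))) u
    have e3 : F x = F y := by
      rw [ha2, ha2, e1]
      exact hxy _ (Or.inl rfl) _
    have e4 : G x = G y := by
      rw [hb2, hb2, e2]
      exact hxy _ (Or.inr (Or.inl rfl)) _
    show o (F x) (G x) = o (F y) (G y)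
    rw [e3, e4]
  · rw [if_neg h1]
    -- a common value for the hole
    obtain ⟨v, hv1, hv2, hv3⟩ : ∃ v : (W → Bool) → Bool,
        (∀ x, F x = a.cur.eval x (v x)) ∧ (∀ x, G x = b.cur.eval x (v x)) ∧
        ∀ x y, (∀ p, (p ∈ a.fin ∨ p ∈ b.fin) → ∀ u, p.eval x u = p.eval y u) → v x = v y := by
      by_cases h2 : a.hol = true
      · have h3 : b.hol = false := by
          by_contra hcon
          exact h1 ⟨h2, by simpa using hcon⟩
        refine ⟨va, ha2, fun x => ?_, fun x y h => ha3 x y fun p hp u => h p (Or.inl hp) u⟩
        rw [hb2]
        exact hb1 h3 _ _ _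
      · have h3 : a.hol = false := by simpa using h2
        refine ⟨vb, fun x => ?_, hb2, fun x y h => hb3 x y fun p hp u => h p (Or.inr hp) u⟩
        rw [ha2]
        exact ha1 h3 _ _ _
    by_cases h4 : l ≤ a.cur.size + b.cur.size
    · rw [if_pos h4]
      refine ⟨fun h => by simp at h, fun x => o (F x) (G x), fun x => rfl, ?_⟩
      intro x y hxy
      simp only [List.mem_cons, List.mem_append] at hxy
      have e1 : v x = v y := hv3 x y fun p hp u => hxy p (Or.inr hp) u
      have e2 := hxy _ (Or.inl rfl) (v x)
      rw [hop, hop, ← hv1, ← hv2, e1, ← hv1, ← hv2] at e2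
      exact e2
    · rw [if_neg h4]
      refine ⟨?_, v, fun x => ?_, ?_⟩
      · intro h x u u'
        simp only [Bool.or_eq_false_iff] at h
        rw [hop, hop, ha1 h.1 x u u', hb1 h.2 x u u']
      · show o (F x) (G x) = _
        rw [hop, ← hv1, ← hv2]
      · intro x y hxy
        refine hv3 x y fun p hp u => hxy p ?_ u
        simpa [List.mem_append] using hp

theorem dec_sem (l : ℕ) (f : Formula W) : (dec l f).Sem (fun x => f.eval x) := by
  induction f with
  | leaf S g =>
    refine ⟨fun _ _ _ _ => rfl, fun _ => false, fun x => rfl, fun _ _ _ => rfl⟩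
  | and f g hf hg => exact comb_sem (fun a b => a && b) (fun _ _ _ _ => rfl) hf hg
  | or f g hf hg => exact comb_sem (fun a b => a || b) (fun _ _ _ _ => rfl) hf hg

/-- The value of the formula is determined by the pieces. -/
theorem eval_eq_of_pieces {l : ℕ} (f : Formula W) {x y : W → Bool}
    (h : ∀ p ∈ pieces l f, ∀ u, p.eval x u = p.eval y u) : f.eval x = f.eval y := by
  obtain ⟨-, v, h1, h2⟩ := dec_sem l f
  simp only [pieces, List.mem_cons] at h
  have h3 : v x = v y := h2 x y fun p hp u => h p (Or.inr hp) u
  have e1 := h1 x
  have e2 := h1 y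
  simp only at e1 e2
  rw [e1, e2, h3]
  exact h _ (Or.inl rfl) _

end Pool.Agent.MP_9cec2c_lc.FormulaLines
end
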