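import Mathlib
import Pool.Agent.Lib.MP_9cec2c_lc.Mg.G051
import Pool.Agent.Lib.MP_9cec2c_lc.Mg.G050
import Pool.Agent.Lib.MP_9cec2c_lc.LRDefs

section

/-!
Khrapchenko's theorem for AND/OR formulas and the bound on the total influence.
-/

set_option autoImplicit false
set_option linter.unusedSectionVars false

namespace Pool.Agent.MP_9cec2c_lc.FormulaLines

open Finset
open Pool.Agent.MP_9cec2c_lc.SubstRed

section

variable {X : Type} [Fintype X] [DecidableEq X]

/-- Flip one coordinate. -/
def flip (a : X) (r : X → Bool) : X → Bool := Function.update r a (!(r a))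

theorem flip_flip (a : X) (r : X → Bool) : flip a (flip a r) = r := by
  unfold flip
  rw [Function.update_idem, Function.update_self, Bool.not_not, Function.update_eq_self]

theorem flip_of_ne {a b : X} (h : b ≠ a) (r : X → Bool) : flip a r b = r b := by
  unfold flip
  rw [Function.update_of_ne h]

/-- Number of edges of the cube from `A` to `B`. -/
def edges (A B : Finset (X → Bool)) : ℕ :=
  ((A ×ˢ (univ : Finset X)).filter (fun p => flip p.2 p.1 ∈ B)).card

theorem edges_comm (A B : Finset (X → Bool)) : edges A B = edges B A := by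
  unfold edges
  refine card_bij' (fun p _ => (flip p.2 p.1, p.2)) (fun p _ => (flip p.2 p.1, p.2)) ?_ ?_ ?_ ?_
  · rintro ⟨r, a⟩ h
    simp only [mem_filter, mem_product, mem_univ, and_true, flip_flip] at h ⊢
    exact ⟨h.2, h.1⟩
  · rintro ⟨r, a⟩ h
    simp only [mem_filter, mem_product, mem_univ, and_true, flip_flip] at h ⊢
    exact ⟨h.2, h.1⟩
  · rintro ⟨r, a⟩ _
    simp only [flip_flip]
  · rintro ⟨r, a⟩ _
    simp only [flip_flip]

theorem edges_right (A B : Finset (X → Bool)) (p : (X → Bool) → Prop) [DecidablePred p] :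
    edges A B = edges A (B.filter p) + edges A (B.filter fun x => ¬ p x) := by
  classical
  unfold edges
  rw [← card_union_of_disjoint]
  · congr 1
    ext ⟨r, a⟩
    simp only [mem_filter, mem_product, mem_univ, and_true, mem_union]
    tauto
  · rw [disjoint_left]
    rintro ⟨r, a⟩ h1 h2
    simp only [mem_filter, mem_product, mem_univ, and_true] at h1 h2
    exact h2.2.2 h1.2.2

theorem edges_left (A B : Finset (X → Bool)) (p : (X → Bool) → Prop) [DecidablePred p] :
    edges A B = edges (A.filter p) B + edges (A.filter fun x => ¬ p x) B := by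
  rw [edges_comm, edges_right B A p, edges_comm B, edges_comm B]

theorem edges_le_left {A B : Finset (X → Bool)} {C : Finset X}
    (h : ∀ r ∈ A, ∀ a, flip a r ∈ B → a ∈ C) : edges A B ≤ A.card * C.card := by
  unfold edges
  rw [← card_product]
  refine card_le_card ?_
  rintro ⟨r, a⟩ hp
  simp only [mem_filter, mem_product, mem_univ, and_true] at hp ⊢
  exact ⟨hp.1, h r hp.1 a hp.2⟩

theorem titu {e1 e2 L1 L2 a b1 b2 : ℝ} (hL1 : 0 ≤ L1)
    (hL2 : 0 ≤ L2) (ha : 0 ≤ a) (hb1 : 0 ≤ b1) (hb2 : 0 ≤ b2) (h1 : e1 ^ 2 ≤ L1 * (a * b1))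
    (h2 : e2 ^ 2 ≤ L2 * (a * b2)) : (e1 + e2) ^ 2 ≤ (L1 + L2) * (a * (b1 + b2)) := by
  have h3 : (2 * (e1 * e2)) ^ 2 ≤ (a * (L1 * b2 + L2 * b1)) ^ 2 := by
    have h4 : e1 ^ 2 * e2 ^ 2 ≤ (L1 * (a * b1)) * (L2 * (a * b2)) :=
      mul_le_mul h1 h2 (by positivity) (by positivity)
    have h5 : 0 ≤ (a * (L1 * b2 - L2 * b1)) ^ 2 := sq_nonneg _
    nlinarith
  have h4 : |2 * (e1 * e2)| ≤ a * (L1 * b2 + L2 * b1) :=
    abs_le_of_sq_le_sq h3 (by positivity)
  have h5 := (le_abs_self _).trans h4
  nlinarith

variable {W : Type} [DecidableEq W]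

/-- Every coordinate of `τ r` is a constant or depends on only one coordinate of `r`. -/
def Coord (τ : (X → Bool) → (W → Bool)) : Prop :=
  ∀ w, ∃ s : Finset X, s.card ≤ 1 ∧ ∀ r r' : X → Bool, (∀ a ∈ s, r a = r' a) → τ r w = τ r' w

/-- Khrapchenko's bound. -/
theorem khrapchenko {τ : (X → Bool) → (W → Bool)} (hτ : Coord τ) (u : Bool) {k : ℕ}
    (p : Piece W) (hp : p.Local k) : ∀ A B : Finset (X → Bool),
      (∀ r ∈ A, p.eval (τ r) u = true) → (∀ r ∈ B, p.eval (τ r) u = false) →
      (edges A B : ℝ) ^ 2 ≤ ((k : ℝ) ^ 2 * p.size) * ((A.card : ℝ) * B.card) := by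
  classical
  induction p with
  | leaf S g =>
    intro A B hA hB
    choose s hs1 hs2 using hτ
    obtain ⟨C, hC⟩ : ∃ C : Finset X, C = S.biUnion s := ⟨_, rfl⟩
    have hCk : C.card ≤ k := by
      rw [hC]
      refine card_biUnion_le.trans ((sum_le_sum fun w _ => hs1 w).trans ?_)
      simpa using hp.1
    have key : ∀ r a, g (τ r) ≠ g (τ (flip a r)) → a ∈ C := by
      intro r a h
      by_contra hcon
      apply h
      refine hp.2 _ _ fun w hw => hs2 w _ _ fun b hb => ?_
      rw [flip_of_ne]
      rintro rfl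
      exact hcon (hC ▸ mem_biUnion.2 ⟨w, hw, hb⟩)
    have h1 : edges A B ≤ A.card * k := by
      refine (edges_le_left (C := C) fun r hr a ha => key r a ?_).trans
        (Nat.mul_le_mul_left _ hCk)
      have e1 := hA r hr
      have e2 := hB _ ha
      simp only [Piece.eval] at e1 e2
      rw [e1, e2]
      exact Bool.noConfusion
    have h2 : edges A B ≤ B.card * k := by
      rw [edges_comm]
      refine (edges_le_left (C := C) fun r hr a ha => key r a ?_).trans
        (Nat.mul_le_mul_left _ hCk)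
      have e1 := hB r hr
      have e2 := hA _ ha
      simp only [Piece.eval] at e1 e2
      rw [e1, e2]
      exact Bool.noConfusion
    have h3 : (edges A B : ℝ) ≤ A.card * k := by exact_mod_cast h1
    have h4 : (edges A B : ℝ) ≤ B.card * k := by exact_mod_cast h2
    have h5 := mul_le_mul h3 h4 (Nat.cast_nonneg _) (by positivity)
    simp only [Piece.size, Nat.cast_one, mul_one]
    nlinarith
  | hole =>
    intro A B hA hB
    have : edges A B = 0 := by
      unfold edges
      rw [card_eq_zero, filter_eq_empty_iff]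
      rintro ⟨r, a⟩ h1 h2
      simp only [mem_product, mem_univ, and_true] at h1
      have e1 := hA r h1
      have e2 := hB _ h2
      simp only [Piece.eval] at e1 e2
      rw [e1] at e2
      exact Bool.noConfusion e2
    rw [this]
    simp only [Piece.size, Nat.cast_zero, mul_zero, zero_mul]
    norm_num
  | and f g hf hg =>
    intro A B hA hB
    simp only [Piece.eval, Bool.and_eq_true] at hA
    simp only [Piece.eval, Bool.and_eq_false_iff] at hB
    rw [edges_right A B (fun r => f.eval (τ r) u = false)]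
    have hc : B.card = (B.filter (fun r => f.eval (τ r) u = false)).card +
        (B.filter (fun r => ¬ f.eval (τ r) u = false)).card :=
      (card_filter_add_card_filter_not _).symm
    have h1 := hf hp.1 A (B.filter (fun r => f.eval (τ r) u = false)) (fun r hr => (hA r hr).1)
      (fun r hr => (mem_filter.1 hr).2)
    have h2 := hg hp.2 A (B.filter (fun r => ¬ f.eval (τ r) u = false))
      (fun r hr => (hA r hr).2)
      (fun r hr => ((hB r (mem_filter.1 hr).1).resolve_left (mem_filter.1 hr).2))
    rw [hc]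
    push_cast
    simp only [Piece.size, Nat.cast_add]
    have h3 := titu (by positivity) (by positivity)
      (Nat.cast_nonneg _) (Nat.cast_nonneg _) (Nat.cast_nonneg _) h1 h2
    rw [mul_add]
    exact h3
  | or f g hf hg =>
    intro A B hA hB
    simp only [Piece.eval, Bool.or_eq_true] at hA
    simp only [Piece.eval, Bool.or_eq_false_iff] at hB
    rw [edges_left A B (fun r => f.eval (τ r) u = true)]
    have hc : A.card = (A.filter (fun r => f.eval (τ r) u = true)).card +
        (A.filter (fun r => ¬ f.eval (τ r) u = true)).card :=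
      (card_filter_add_card_filter_not _).symm
    have h1 := hf hp.1 (A.filter (fun r => f.eval (τ r) u = true)) B
      (fun r hr => (mem_filter.1 hr).2) (fun r hr => (hB r hr).1)
    have h2 := hg hp.2 (A.filter (fun r => ¬ f.eval (τ r) u = true)) B
      (fun r hr => ((hA r (mem_filter.1 hr).1).resolve_left (mem_filter.1 hr).2))
      (fun r hr => (hB r hr).2)
    rw [hc]
    push_cast
    simp only [Piece.size, Nat.cast_add]
    have h1' : (edges (A.filter (fun r => f.eval (τ r) u = true)) B : ℝ) ^ 2 ≤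
        ((k : ℝ) ^ 2 * f.size) *
          ((B.card : ℝ) * (A.filter (fun r => f.eval (τ r) u = true)).card) := by
      rw [mul_comm (B.card : ℝ)]
      exact h1
    have h2' : (edges (A.filter (fun r => ¬ f.eval (τ r) u = true)) B : ℝ) ^ 2 ≤
        ((k : ℝ) ^ 2 * g.size) *
          ((B.card : ℝ) * (A.filter (fun r => ¬ f.eval (τ r) u = true)).card) := by
      rw [mul_comm (B.card : ℝ)]
      exact h2
    have h3 := titu (by positivity) (by positivity)
      (Nat.cast_nonneg _) (Nat.cast_nonneg _) (Nat.cast_nonneg _) h1' h2'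
    rw [mul_add, mul_comm (_ + _ : ℝ) (B.card : ℝ)]
    exact h3

/-- The total influence is small. -/
theorem influence {τ : (X → Bool) → (W → Bool)} (hτ : Coord τ) (u : Bool) {k : ℕ}
    (p : Piece W) (hp : p.Local k) {G : ℝ} (hG0 : 0 ≤ G) (hG : (k : ℝ) ^ 2 * p.size ≤ G ^ 2) :
    ∑ a : X, pr (fun r : X → Bool => p.eval (τ r) u ≠ p.eval (τ (flip a r)) u) ≤ G := by
  classical
  obtain ⟨A, hA⟩ : ∃ A : Finset (X → Bool), A = univ.filter (fun r => p.eval (τ r) u = true) :=
    ⟨_, rfl⟩
  obtain ⟨B, hB⟩ : ∃ B : Finset (X → Bool), B = univ.filter (fun r => ¬ p.eval (τ r) u = true) :=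
    ⟨_, rfl⟩
  have hAB : A.card + B.card = Fintype.card (X → Bool) := by
    rw [hA, hB, card_filter_add_card_filter_not, card_univ]
  have h1 := khrapchenko hτ u p hp A B (fun r hr => by rw [hA] at hr; exact (mem_filter.1 hr).2)
    (fun r hr => by rw [hB] at hr; simpa using (mem_filter.1 hr).2)
  have h2 : ∑ a : X, ((univ.filter (fun r : X → Bool =>
      p.eval (τ r) u ≠ p.eval (τ (flip a r)) u)).card : ℝ) = 2 * edges A B := by
    have h3 : ∑ a : X, (univ.filter (fun r : X → Bool =>
        p.eval (τ r) u ≠ p.eval (τ (flip a r)) u)).card = edges A B + edges B A := by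
      have h4 : ∀ C D : Finset (X → Bool), edges C D =
          ∑ a : X, (univ.filter (fun r => r ∈ C ∧ flip a r ∈ D)).card := by
        intro C D
        unfold edges
        rw [← card_sigma]
        refine card_bij' (fun q _ => (⟨q.2, q.1⟩ : Σ _ : X, (X → Bool)))
          (fun q _ => (q.2, q.1)) ?_ ?_ ?_ ?_
        · rintro ⟨r, a⟩ h
          simp only [mem_filter, mem_product, mem_univ, and_true] at h
          simpa using h
        · rintro ⟨a, r⟩ h
          simp only [mem_sigma, mem_univ, mem_filter, true_and] at h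
          simpa using h
        · rintro ⟨r, a⟩ _; rfl
        · rintro ⟨a, r⟩ _; rfl
      rw [h4, h4, ← sum_add_distrib]
      refine sum_congr rfl fun a _ => ?_
      rw [← card_union_of_disjoint]
      · congr 1
        ext r
        simp only [hA, hB, mem_filter, mem_univ, true_and, mem_union]
        cases p.eval (τ r) u <;> cases p.eval (τ (flip a r)) u <;> simp
      · rw [disjoint_left]
        intro r h5 h6
        simp only [hA, hB, mem_filter, mem_univ, true_and] at h5 h6
        exact h6.1 h5.1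
    rw [edges_comm B A] at h3
    have h5 : ((∑ a : X, (univ.filter (fun r : X → Bool =>
        p.eval (τ r) u ≠ p.eval (τ (flip a r)) u)).card : ℕ) : ℝ) = ((edges A B + edges A B : ℕ) : ℝ) := by
      rw [h3]
    push_cast at h5
    rw [h5]
    ring
  have hpos : (0 : ℝ) < Fintype.card (X → Bool) := by exact_mod_cast Fintype.card_pos
  have h3 : (2 * edges A B : ℝ) ≤ G * Fintype.card (X → Bool) := by
    have h4 : (2 * edges A B : ℝ) ^ 2 ≤ (G * Fintype.card (X → Bool)) ^ 2 := by
      have h5 : (A.card : ℝ) + B.card = Fintype.card (X → Bool) := by exact_mod_cast hAB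
      have h6 : 4 * ((A.card : ℝ) * B.card) ≤ (Fintype.card (X → Bool) : ℝ) ^ 2 := by
        rw [← h5]
        nlinarith [sq_nonneg ((A.card : ℝ) - B.card)]
      have h7 : (0 : ℝ) ≤ (k : ℝ) ^ 2 * p.size := by positivity
      calc (2 * edges A B : ℝ) ^ 2 = 4 * (edges A B : ℝ) ^ 2 := by ring
        _ ≤ 4 * (((k : ℝ) ^ 2 * p.size) * ((A.card : ℝ) * B.card)) := by linarith
        _ = ((k : ℝ) ^ 2 * p.size) * (4 * ((A.card : ℝ) * B.card)) := by ring
        _ ≤ G ^ 2 * (Fintype.card (X → Bool) : ℝ) ^ 2 := mul_le_mul hG h6 (by positivity) (by positivity)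
        _ = _ := by ring
    exact (le_abs_self _).trans (abs_le_of_sq_le_sq h4 (by positivity))
  have h4 : ∀ a : X, pr (fun r : X → Bool => p.eval (τ r) u ≠ p.eval (τ (flip a r)) u) =
      ((univ.filter (fun r : X → Bool =>
      p.eval (τ r) u ≠ p.eval (τ (flip a r)) u)).card : ℝ) / Fintype.card (X → Bool) :=
    fun a => pr_eq _
  rw [sum_congr rfl fun a _ => h4 a, ← sum_div, h2, div_le_iff₀ hpos]
  exact h3

end

end Pool.Agent.MP_9cec2c_lc.FormulaLines
end

section

/-!
The set of false pairs of a line is a union of few triangles.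
-/

set_option autoImplicit false
set_option linter.unusedSectionVars false

namespace Pool.Agent.MP_9cec2c_lc.LovSch

open Finset

/-- Each variable depends on one of the two inputs. -/
def TwoSided {X Y V : Type} (g : X → Y → V → Bool) : Prop :=
  ∀ v, (∃ f : X → Bool, ∀ x y, g x y v = f x) ∨ ∃ f : Y → Bool, ∀ x y, g x y v = f y

variable {X Y V : Type} [Fintype V] [DecidableEq V] {g : X → Y → V → Bool}

/-- The left hand side of an inequality is a sum of a function of `x` and a function of `y`. -/
theorem two_sum (hg : TwoSided g) (c : V → ℝ) :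
    ∃ (A : X → ℝ) (B : Y → ℝ), ∀ x y, (∑ v, if g x y v then c v else 0) = A x + B y := by
  classical
  have h1 : ∀ v, ∃ (A : X → ℝ) (B : Y → ℝ), ∀ x y,
      (if g x y v then c v else 0) = A x + B y := by
    intro v
    rcases hg v with ⟨f, hf⟩ | ⟨f, hf⟩
    · exact ⟨fun x => if f x then c v else 0, fun _ => 0, fun x y => by rw [hf]; simp⟩
    · exact ⟨fun _ => 0, fun y => if f y then c v else 0, fun x y => by rw [hf]; simp⟩
  choose A B hAB using h1
  refine ⟨fun x => ∑ v, A v x, fun y => ∑ v, B v y, fun x y => ?_⟩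
  simp only [hAB, sum_add_distrib]

/-- If the coefficients are small integers, the function of `x` has few values. -/
theorem two_small (hg : TwoSided g) {I : Count V} {k : ℕ}
    (hI : ∀ v, |I.coeff v| ≤ k) : ∃ (A : X → Fin (2 * (Fintype.card V * k) + 1))
      (B : Fin (2 * (Fintype.card V * k) + 1) → Y → Prop),
      ∀ x y, ¬ I.Sat (g x y) ↔ B (A x) y := by
  classical
  have h1 : ∀ v, ∃ (A : X → ℤ) (B : Y → ℤ), (∀ x, |A x| ≤ k) ∧ ∀ x y,
      (if g x y v then I.coeff v else 0) = A x + B y := by
    intro v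
    rcases hg v with ⟨f, hf⟩ | ⟨f, hf⟩
    · refine ⟨fun x => if f x then I.coeff v else 0, fun _ => 0, fun x => ?_, fun x y => by
        rw [hf]; simp⟩
      simp only
      split_ifs
      · exact hI v
      · simp
    · exact ⟨fun _ => 0, fun y => if f y then I.coeff v else 0, fun x => by simp, fun x y => by
        rw [hf]; simp⟩
  choose A B hA hAB using h1
  have hsum : ∀ x, |∑ v, A v x| ≤ Fintype.card V * k := by
    intro x
    refine (abs_sum_le_sum_abs _ _).trans ((sum_le_sum fun v _ => hA v x).trans ?_)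
    rw [sum_const, card_univ, nsmul_eq_mul]
  have hle : ∀ x, ((∑ v, A v x) + (Fintype.card V * k : ℕ)).toNat <
      2 * (Fintype.card V * k) + 1 := by
    intro x
    have := abs_le.1 (hsum x)
    push_cast
    omega
  refine ⟨fun x => ⟨_, hle x⟩, fun a y =>
    ((a : ℕ) : ℤ) - (Fintype.card V * k : ℕ) + ∑ v, B v y ∉ I.set, fun x y => ?_⟩
  unfold Count.Sat
  have h2 : (∑ v, if g x y v then I.coeff v else 0) =
      (((∑ v, A v x) + (Fintype.card V * k : ℕ)).toNat : ℤ) -
        (Fintype.card V * k : ℕ) + ∑ v, B v y := by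
    have h3 : (((∑ v, A v x) + (Fintype.card V * k : ℕ)).toNat : ℤ) =
        (∑ v, A v x) + (Fintype.card V * k : ℕ) := by
      refine Int.toNat_of_nonneg ?_
      have := abs_le.1 (hsum x)
      push_cast
      omega
    rw [h3]
    simp only [hAB]
    rw [sum_add_distrib]
    ring
  rw [h2]

/-- A clause is false on a rectangle. -/
theorem two_clause (hg : TwoSided g) (C : Clause V) :
    ∃ (p : X → Prop) (q : Y → Prop), ∀ x y, ¬ Holds (g x y) C ↔ p x ∧ q y := by
  classical
  induction C using Finset.induction_on with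
  | empty =>
    refine ⟨fun _ => True, fun _ => True, fun x y => ?_⟩
    unfold Holds
    simp
  | insert l C _ ih =>
    obtain ⟨p, q, h⟩ := ih
    have h1 : ∀ x y, ¬ Holds (g x y) (insert l C) ↔
        g x y l.1 ≠ l.2 ∧ ¬ Holds (g x y) C := by
      intro x y
      unfold Holds
      constructor
      · intro h2
        exact ⟨fun h3 => h2 ⟨l, mem_insert_self _ _, h3⟩,
          fun ⟨l', h3, h4⟩ => h2 ⟨l', mem_insert_of_mem h3, h4⟩⟩
      · rintro ⟨h2, h3⟩ ⟨l', h4, h5⟩
        rcases mem_insert.1 h4 with rfl | h4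
        · exact h2 h5
        · exact h3 ⟨l', h4, h5⟩
    rcases hg l.1 with ⟨f, hf⟩ | ⟨f, hf⟩
    · refine ⟨fun x => f x ≠ l.2 ∧ p x, q, fun x y => ?_⟩
      rw [h1, h, hf, and_assoc]
    · refine ⟨p, fun y => f y ≠ l.2 ∧ q y, fun x y => ?_⟩
      rw [h1, h, hf]
      tauto

/-- The set of false pairs of a line is a union of few triangles. -/
theorem two_line (hg : TwoSided g) {w k : ℕ} (L : Line V w)
    (hL : ∀ j v, |(L.side j).coeff v| ≤ k) :
    ∃ (α : Fin ((2 * (Fintype.card V * k) + 1) ^ w) → X → EReal)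
      (β : Fin ((2 * (Fintype.card V * k) + 1) ^ w) → Y → EReal),
      ∀ x y, ¬ L.Sat (g x y) ↔ ∃ t, β t y < α t x := by
  classical
  obtain ⟨A, B, hAB⟩ := two_sum hg L.main.coeff
  obtain ⟨p, p', hp⟩ := two_clause hg L.clause
  have h1 := fun j => two_small hg (hL j)
  choose A' B' hAB' using h1
  obtain ⟨ϕ⟩ : Nonempty (Fin ((2 * (Fintype.card V * k) + 1) ^ w) ≃
      (Fin w → Fin (2 * (Fintype.card V * k) + 1))) := by
    refine ⟨(Fintype.equivFinOfCardEq ?_).symm⟩
    rw [Fintype.card_fun, Fintype.card_fin, Fintype.card_fin]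
  refine ⟨fun t x => if p x ∧ (fun j => A' j x) = ϕ t then
      ((- A x : ℝ) : EReal) else ⊥, fun t y => if p' y ∧ ∀ j, B' j (ϕ t j) y then
      ((B y - L.main.bound : ℝ) : EReal) else ⊤, fun x y => ?_⟩
  have h2 : ¬ L.Sat (g x y) ↔ (p x ∧ p' y) ∧ (∀ j, B' j (A' j x) y) ∧
      A x + B y < L.main.bound := by
    unfold Line.Sat
    rw [not_or, not_or, hp, not_exists]
    simp only [hAB']
    unfold Ineq.Sat
    rw [hAB, not_le]
  rw [h2]
  constructor
  · rintro ⟨⟨h3, h4⟩, h5, h6⟩
    refine ⟨ϕ.symm fun j => A' j x, ?_⟩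
    simp only [Equiv.apply_symm_apply, and_true]
    rw [if_pos ⟨h4, h5⟩, if_pos h3, EReal.coe_lt_coe_iff]
    linarith
  · rintro ⟨t, ht⟩
    simp only at ht
    by_cases h3 : p x ∧ (fun j => A' j x) = ϕ t
    · by_cases h4 : p' y ∧ ∀ j, B' j (ϕ t j) y
      · rw [if_pos h3, if_pos h4, EReal.coe_lt_coe_iff] at ht
        refine ⟨⟨h3.1, h4.1⟩, fun j => ?_, by linarith⟩
        have h5 := h4.2 j
        rw [← h3.2] at h5
        exact h5
      · rw [if_neg h4] at ht
        exact absurd ht not_top_lt
    · rw [if_neg h3] at ht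
      exact absurd ht not_lt_bot

end Pool.Agent.MP_9cec2c_lc.LovSch
end
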