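import Pool.Agent.Lib.MP_9cec2c_lc.LODefs

section

/-!
Two sets of variables that are separated in each of several orders.
-/

set_option autoImplicit false
set_option linter.unusedSectionVars false

namespace Pool.Agent.MP_9cec2c_lc.LovSch

open Finset

variable {n : ℕ}

/-- All of `B₁` is before the position `t` in the order, and all of `B₂` is not. -/
def Before (π : Equiv.Perm (Fin n)) (t : ℕ) (B₁ B₂ : Finset (Fin n)) : Prop :=
  (∀ u ∈ B₁, (π u : ℕ) < t) ∧ ∀ u ∈ B₂, t ≤ (π u : ℕ)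

/-- One of the two sets is before the other one. -/
def Sep (π : Equiv.Perm (Fin n)) (B₁ B₂ : Finset (Fin n)) : Prop :=
  ∃ t, Before π t B₁ B₂ ∨ Before π t B₂ B₁

theorem Sep.mono {π : Equiv.Perm (Fin n)} {B₁ B₂ B₁' B₂' : Finset (Fin n)} (h : Sep π B₁ B₂)
    (h1 : B₁' ⊆ B₁) (h2 : B₂' ⊆ B₂) : Sep π B₁' B₂' := by
  obtain ⟨t, ⟨h3, h4⟩ | ⟨h3, h4⟩⟩ := h
  · exact ⟨t, Or.inl ⟨fun u hu => h3 u (h1 hu), fun u hu => h4 u (h2 hu)⟩⟩
  · exact ⟨t, Or.inr ⟨fun u hu => h3 u (h2 hu), fun u hu => h4 u (h1 hu)⟩⟩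

theorem Sep.disjoint {π : Equiv.Perm (Fin n)} {B₁ B₂ : Finset (Fin n)} (h : Sep π B₁ B₂) :
    Disjoint B₁ B₂ := by
  rw [disjoint_left]
  intro u h1 h2
  obtain ⟨t, ⟨h3, h4⟩ | ⟨h3, h4⟩⟩ := h
  · have := h3 u h1
    have := h4 u h2
    omega
  · have := h3 u h2
    have := h4 u h1
    omega

/-- The position that separates two large sets is not near the ends. -/
theorem Before.bounds {π : Equiv.Perm (Fin n)} {t b : ℕ} {B₁ B₂ : Finset (Fin n)}
    (h : Before π t B₁ B₂) (h1 : b ≤ B₁.card) (h2 : b ≤ B₂.card) (hb : 0 < b) :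
    b ≤ t ∧ t + b ≤ n := by
  classical
  have hinj : Function.Injective fun u : Fin n => (π u : ℕ) := fun u v huv =>
    π.injective (Fin.ext huv)
  have h3 : B₁.card ≤ t := by
    have h4 : (B₁.image fun u => (π u : ℕ)) ⊆ range t := by
      intro a ha
      obtain ⟨u, hu, rfl⟩ := mem_image.1 ha
      exact mem_range.2 (h.1 u hu)
    have h5 := card_le_card h4
    rwa [card_image_of_injective _ hinj, card_range] at h5
  have h6 : B₂.card ≤ n - t := by
    have h4 : (B₂.image fun u => (π u : ℕ)) ⊆ Ico t n := by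
      intro a ha
      obtain ⟨u, hu, rfl⟩ := mem_image.1 ha
      exact mem_Ico.2 ⟨h.2 u hu, (π u).2⟩
    have h5 := card_le_card h4
    rwa [card_image_of_injective _ hinj, Nat.card_Ico] at h5
  omega

/-- The part of `B` before the position `t`. -/
def pre (π : Equiv.Perm (Fin n)) (t : ℕ) (B : Finset (Fin n)) : Finset (Fin n) :=
  B.filter fun u => (π u : ℕ) < t

theorem pre_succ (π : Equiv.Perm (Fin n)) (t : ℕ) (B : Finset (Fin n)) :
    (pre π (t + 1) B).card ≤ (pre π t B).card + 1 := by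
  classical
  have h1 : pre π (t + 1) B ⊆ pre π t B ∪ univ.filter fun u => (π u : ℕ) = t := by
    intro u hu
    unfold pre at hu
    rw [mem_filter] at hu
    rcases Nat.lt_succ_iff_lt_or_eq.1 hu.2 with h | h
    · exact mem_union_left _ (mem_filter.2 ⟨hu.1, h⟩)
    · exact mem_union_right _ (mem_filter.2 ⟨mem_univ _, h⟩)
  have h2 : (univ.filter fun u => (π u : ℕ) = t).card ≤ 1 := by
    rw [card_le_one]
    intro a ha b hb
    rw [mem_filter] at ha hb
    exact π.injective (Fin.ext (ha.2.trans hb.2.symm))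
  exact (card_le_card h1).trans ((card_union_le _ _).trans (Nat.add_le_add_left h2 _))

/-- Half of both sets can be separated. -/
theorem halve (π : Equiv.Perm (Fin n)) {B₁ B₂ : Finset (Fin n)} {b : ℕ} (h1 : b ≤ B₁.card)
    (h2 : b ≤ B₂.card) : ∃ B₁' ⊆ B₁, ∃ B₂' ⊆ B₂, b / 2 ≤ B₁'.card ∧ b / 2 ≤ B₂'.card ∧
      Sep π B₁' B₂' := by
  classical
  have hall : ∀ B : Finset (Fin n), pre π n B = B := by
    intro B
    exact filter_true_of_mem fun u _ => (π u).2
  have hex : ∃ t, b / 2 ≤ (pre π t B₁).card ∨ b / 2 ≤ (pre π t B₂).card :=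
    ⟨n, Or.inl (by rw [hall]; omega)⟩
  obtain ⟨t, ht⟩ : ∃ t, t = Nat.find hex := ⟨_, rfl⟩
  have ht1 := Nat.find_spec hex
  rw [← ht] at ht1
  have hmin : ∀ t', t' < t → ¬ (b / 2 ≤ (pre π t' B₁).card ∨ b / 2 ≤ (pre π t' B₂).card) := by
    intro t' h
    rw [ht] at h
    exact Nat.find_min hex h
  have hle : (pre π t B₁).card ≤ b / 2 ∧ (pre π t B₂).card ≤ b / 2 := by
    rcases Nat.eq_zero_or_pos t with h0 | h0
    · have h3 : ∀ B : Finset (Fin n), (pre π t B).card = 0 := by
        intro B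
        rw [card_eq_zero, h0]
        exact filter_false_of_mem fun u _ => by omega
      rw [h3, h3]
      omega
    · have h3 := hmin (t - 1) (by omega)
      have h4 := pre_succ π (t - 1) B₁
      have h5 := pre_succ π (t - 1) B₂
      rw [Nat.sub_add_cancel h0] at h4 h5
      omega
  have hsplit : ∀ B : Finset (Fin n), (pre π t B).card + (B \ pre π t B).card = B.card := by
    intro B
    rw [add_comm]
    exact card_sdiff_add_card_eq_card (filter_subset _ _)
  have hpost : ∀ B : Finset (Fin n), ∀ u ∈ B \ pre π t B, t ≤ (π u : ℕ) := by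
    intro B u hu
    rw [mem_sdiff] at hu
    by_contra hcon
    exact hu.2 (mem_filter.2 ⟨hu.1, by omega⟩)
  have hpre : ∀ B : Finset (Fin n), ∀ u ∈ pre π t B, (π u : ℕ) < t := fun B u hu =>
    (mem_filter.1 hu).2
  have h3 := hsplit B₁
  have h4 := hsplit B₂
  rcases ht1 with h | h
  · exact ⟨pre π t B₁, filter_subset _ _, B₂ \ pre π t B₂, sdiff_subset, h, by omega, t,
      Or.inl ⟨hpre _, hpost _⟩⟩
  · exact ⟨B₁ \ pre π t B₁, sdiff_subset, pre π t B₂, filter_subset _ _, by omega, h, t,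
      Or.inr ⟨hpre _, hpost _⟩⟩

/-- Large sets that are separated in all of the orders. -/
theorem exists_sep {l : ℕ} (π : Fin l → Equiv.Perm (Fin n)) : ∃ B₁ B₂ : Finset (Fin n),
    n / 2 ^ l ≤ B₁.card ∧ n / 2 ^ l ≤ B₂.card ∧ ∀ o, Sep (π o) B₁ B₂ := by
  induction l with
  | zero => exact ⟨univ, univ, by simp, by simp, fun o => o.elim0⟩
  | succ l ih =>
    obtain ⟨B₁, B₂, h1, h2, h3⟩ := ih fun o => π o.castSucc
    obtain ⟨B₁', g1, B₂', g2, g3, g4, g5⟩ := halve (π (Fin.last l)) h1 h2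
    refine ⟨B₁', B₂', ?_, ?_, fun o => ?_⟩
    · rwa [Nat.div_div_eq_div_mul, ← pow_succ] at g3
    · rwa [Nat.div_div_eq_div_mul, ← pow_succ] at g4
    · rcases Fin.eq_castSucc_or_eq_last o with ⟨o', rfl⟩ | rfl
      · exact (h3 o').mono g1 g2
      · exact g5

/-- Finitely many orders are separated. -/
theorem separated_of_ncard {l : ℕ} (hl : 0 < l) {Q : Set (Equiv.Perm (Fin n))}
    (hQ : Q.ncard ≤ l) : Separated (2 ^ l) Q := by
  classical
  obtain ⟨s, hs⟩ : ∃ s : Finset (Equiv.Perm (Fin n)), ∀ p, p ∈ s ↔ p ∈ Q :=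
    ⟨univ.filter fun p => p ∈ Q, fun p => by simp⟩
  have hc : s.card ≤ l := by
    rw [← Set.ncard_coe_finset s]
    have : (s : Set (Equiv.Perm (Fin n))) = Q := by
      ext p
      exact (mem_coe.trans (hs p))
    rwa [this]
  obtain ⟨B₁, B₂, h1, h2, h3⟩ := exists_sep (n := n) (l := l) fun o =>
    if h : (o : ℕ) < s.card then (s.equivFin.symm ⟨o, h⟩ : Equiv.Perm (Fin n)) else 1
  refine ⟨B₁, B₂, (h3 ⟨0, hl⟩).disjoint, h1, h2, fun p hp => ?_⟩
  have h4 := (s.equivFin ⟨p, (hs p).2 hp⟩).2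
  obtain ⟨t, ht⟩ := h3 ⟨s.equivFin ⟨p, (hs p).2 hp⟩, lt_of_lt_of_le h4 hc⟩
  rw [dif_pos h4] at ht
  simp only [Fin.eta, Equiv.symm_apply_apply] at ht
  rcases ht with ⟨h5, h6⟩ | ⟨h5, h6⟩
  · exact Or.inl fun u hu v hv => Fin.lt_def.2 (lt_of_lt_of_le (h5 u hu) (h6 v hv))
  · exact Or.inr fun u hu v hv => Fin.lt_def.2 (lt_of_lt_of_le (h5 v hv) (h6 u hu))

/-- If one set is before the other one, then there is a position between them. -/
theorem sep_of_lt {π : Equiv.Perm (Fin n)} {B₁ B₂ : Finset (Fin n)} (h1 : B₁.Nonempty)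
    (h2 : B₂.Nonempty)
    (h : (∀ u ∈ B₁, ∀ v ∈ B₂, π u < π v) ∨ ∀ u ∈ B₁, ∀ v ∈ B₂, π v < π u) : Sep π B₁ B₂ := by
  classical
  rcases h with h | h
  · obtain ⟨v0, hv0, hmin⟩ := exists_min_image B₂ (fun v => π v) h2
    exact ⟨π v0, Or.inl ⟨fun u hu => Fin.lt_def.1 (h u hu v0 hv0), fun v hv =>
      Fin.le_def.1 (hmin v hv)⟩⟩
  · obtain ⟨u0, hu0, hmin⟩ := exists_min_image B₁ (fun u => π u) h1
    exact ⟨π u0, Or.inr ⟨fun v hv => Fin.lt_def.1 (h u0 hu0 v hv), fun u hu =>
      Fin.le_def.1 (hmin u hu)⟩⟩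

end Pool.Agent.MP_9cec2c_lc.LovSch
end

section

/-!
The set of false pairs of a narrow line is a union of triangles, few of which are used at each
input of one of the players.
-/

set_option autoImplicit false
set_option linter.unusedSectionVars false

namespace Pool.Agent.MP_9cec2c_lc.LovSch

open Finset

variable {n : ℕ}

/-- The assignment given by the inputs of the two sides and the values of the other variables. -/
def omix (B₁ B₂ : Finset (Fin n)) (ρ x y : Fin n → Bool) : Fin n → Bool :=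
  fun u => if u ∈ B₁ then x u else if u ∈ B₂ then y u else ρ u

theorem omix_swap {B₁ B₂ : Finset (Fin n)} (hd : Disjoint B₁ B₂) (ρ x y : Fin n → Bool) :
    omix B₁ B₂ ρ x y = omix B₂ B₁ ρ y x := by
  funext u
  unfold omix
  by_cases h1 : u ∈ B₁
  · have h2 : u ∉ B₂ := disjoint_left.1 hd h1
    simp only [h1, h2, if_true, if_false]
  · by_cases h2 : u ∈ B₂
    · simp only [h1, h2, if_true, if_false]
    · simp only [h1, h2, if_false]

/-- The assignment, if the first set is before the second. -/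
theorem omix_splice {π : Equiv.Perm (Fin n)} {t : ℕ} {B₁ B₂ : Finset (Fin n)}
    (hB : Before π t B₁ B₂) (ρ x y : Fin n → Bool) :
    omix B₁ B₂ ρ x y = splice π t (fun u => if u ∈ B₁ then x u else ρ u)
      fun u => if u ∈ B₂ then y u else ρ u := by
  funext u
  unfold omix splice
  by_cases h2 : (π u : ℕ) < t
  · have h3 : u ∉ B₂ := fun h3 => by
      have := hB.2 u h3
      omega
    simp only [h2, h3, if_true, if_false]
  · have h3 : u ∉ B₁ := fun h3 => h2 (hB.1 u h3)
    simp only [h2, h3, if_false]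

theorem splice_le {π : Equiv.Perm (Fin n)} {s t : ℕ} (hst : s ≤ t) (x z : Fin n → Bool) :
    splice π t x z = splice π s x (splice π t x z) := by
  funext u
  unfold splice
  by_cases h1 : (π u : ℕ) < s
  · have h2 : (π u : ℕ) < t := by omega
    simp only [h1, h2, if_true]
  · simp only [h1, if_false]

/-- The values of a narrow function, if the first set is before the second. -/
theorem narrow_before {π : Equiv.Perm (Fin n)} {D k R t : ℕ} {L : (Fin n → Bool) → Prop}
    (hL : Narrow D k R π L) (h1 : n / D ≤ t) (h2 : t + n / D ≤ n)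
    {B₁ B₂ : Finset (Fin n)} (hB : Before π t B₁ B₂) (ρ : Fin n → Bool) :
    ∃ (c : Fin k → (Fin n → Bool) → Fin R) (d : Fin k → (Fin n → Bool) → Fin k)
      (f : Fin k → Fin R → (Fin n → Bool) → ℝ) (g : Fin k → Fin k → (Fin n → Bool) → ℝ),
      ∀ x y, L (omix B₁ B₂ ρ x y) ↔ ∀ a, 0 ≤ f a (c a x) y + g a (d a y) x := by
  obtain ⟨c, d, f, g, h⟩ := hL t h1 h2
  refine ⟨fun a x => c a fun u => if u ∈ B₁ then x u else ρ u,
    fun a y => d a fun u => if u ∈ B₂ then y u else ρ u,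
    fun a b y => f a b fun u => if u ∈ B₂ then y u else ρ u,
    fun a b x => g a b fun u => if u ∈ B₁ then x u else ρ u, fun x y => ?_⟩
  rw [omix_splice hB, h]

/-- The triangles of a line. -/
theorem tri_line {X Y : Type} {R k : ℕ} (L : X → Y → Prop) :
    ∃ (α : Fin k × (Fin R × Fin k) → X → EReal) (β : Fin k × (Fin R × Fin k) → Y → EReal),
      (∀ p x y, β p y < α p x → ¬ L x y) ∧
      ((∀ x y, ¬ L x y) → ∀ p x y, β p y < α p x) ∧
      (∀ (c : Fin k → X → Fin R) (d : Fin k → Y → Fin k) (f : Fin k → Fin R → Y → ℝ)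
        (g : Fin k → Fin k → X → ℝ),
        (∀ x y, L x y ↔ ∀ a, 0 ≤ f a (c a x) y + g a (d a y) x) →
        ∃ c : Fin k → X → Fin R, ∀ x y, ¬ L x y →
          ∃ a b, β (a, (c a x, b)) y < α (a, (c a x, b)) x) := by
  classical
  by_cases hneg : ∀ x y, ¬ L x y
  · refine ⟨fun _ _ => 1, fun _ _ => 0, fun _ x y _ => hneg x y, fun _ _ _ _ => by norm_num,
      fun c d f g h => ⟨c, fun x y hxy => ?_⟩⟩
    rw [h] at hxy
    push Not at hxy
    obtain ⟨a, -⟩ := hxy
    exact ⟨a, d a y, by norm_num⟩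
  · by_cases hc : ∃ (c : Fin k → X → Fin R) (d : Fin k → Y → Fin k) (f : Fin k → Fin R → Y → ℝ)
        (g : Fin k → Fin k → X → ℝ), ∀ x y, L x y ↔ ∀ a, 0 ≤ f a (c a x) y + g a (d a y) x
    · obtain ⟨c, d, f, g, h⟩ := hc
      refine ⟨fun p x => if c p.1 x = p.2.1 then ((- g p.1 p.2.2 x : ℝ) : EReal) else ⊥,
        fun p y => if d p.1 y = p.2.2 then ((f p.1 p.2.1 y : ℝ) : EReal) else ⊤, ?_,
        fun h' => absurd h' hneg, fun _ _ _ _ _ => ⟨c, fun x y hxy => ?_⟩⟩
      · intro p x y hlt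
        simp only at hlt
        by_cases h1 : c p.1 x = p.2.1
        · by_cases h2 : d p.1 y = p.2.2
          · rw [if_pos h1, if_pos h2, EReal.coe_lt_coe_iff] at hlt
            rw [h]
            intro hall
            have := hall p.1
            rw [h1, h2] at this
            linarith
          · rw [if_neg h2] at hlt
            exact absurd hlt not_top_lt
        · rw [if_neg h1] at hlt
          exact absurd hlt not_lt_bot
      · rw [h] at hxy
        push Not at hxy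
        obtain ⟨a, ha⟩ := hxy
        refine ⟨a, d a y, ?_⟩
        simp only [if_true]
        rw [EReal.coe_lt_coe_iff]
        linarith
    · exact ⟨fun _ _ => ⊥, fun _ _ => ⊤, fun p x y h => absurd h not_lt_bot,
        fun h => absurd h hneg, fun c d f g h => absurd ⟨c, d, f, g, h⟩ hc⟩

/-- The triangles of a line, with the roles of the players exchanged. -/
theorem tri_line' {X Y : Type} {R k : ℕ} (L : X → Y → Prop) :
    ∃ (α : Fin k × (Fin R × Fin k) → X → EReal) (β : Fin k × (Fin R × Fin k) → Y → EReal),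
      (∀ p x y, β p y < α p x → ¬ L x y) ∧
      (∀ (c : Fin k → Y → Fin R) (d : Fin k → X → Fin k) (f : Fin k → Fin R → X → ℝ)
        (g : Fin k → Fin k → Y → ℝ),
        (∀ x y, L x y ↔ ∀ a, 0 ≤ f a (c a y) x + g a (d a x) y) →
        ∃ c : Fin k → Y → Fin R, ∀ x y, ¬ L x y →
          ∃ a b, β (a, (c a y, b)) y < α (a, (c a y, b)) x) := by
  obtain ⟨α, β, h1, -, h2⟩ := tri_line (R := R) (k := k) fun y x => L x y
  refine ⟨fun p x => - β p x, fun p y => - α p y, fun p x y h => h1 p y x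
    (EReal.neg_lt_neg_iff.1 h), fun c d f g h => ?_⟩
  obtain ⟨c', h3⟩ := h2 c d f g fun y x => h x y
  refine ⟨c', fun x y h4 => ?_⟩
  obtain ⟨a, b, hb⟩ := h3 y x h4
  exact ⟨a, b, EReal.neg_lt_neg_iff.2 hb⟩

end Pool.Agent.MP_9cec2c_lc.LovSch
end
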