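import Mathlib
import Pool.Agent.Lib.MP_9cec2c_lc.LSDefs

section

/-!
Cuts of bounded dimension use few earlier lines.
-/

set_option autoImplicit false
set_option linter.unusedSectionVars false

namespace Pool.Agent.MP_9cec2c_lc.LovSch

open Finset

section

variable {V : Type} [Fintype V] [DecidableEq V]

/-- A sum of many functions is negative only where one of few of them is negative. -/
theorem few_terms {ι : Type} [DecidableEq ι] [Fintype ι] {k : ℕ} (J : Finset ι)
    (h : ι → (V → Bool) → ℝ)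
    (hd : Module.finrank ℝ (Submodule.span ℝ (Set.range h)) ≤ k) :
    ∃ P ⊆ J, P.card ≤ k + 1 ∧ ∀ x, ∑ j ∈ J, h j x < 0 → ∃ j ∈ P, h j x < 0 := by
  classical
  rcases J.eq_empty_or_nonempty with rfl | hJ
  · exact ⟨∅, Subset.refl _, by simp, fun x hx => by simp at hx⟩
  · have hc : (0 : ℝ) < J.card := by exact_mod_cast hJ.card_pos
    obtain ⟨p, hp⟩ : ∃ p : (V → Bool) → ℝ, p = J.centerMass (fun _ => (1 : ℝ)) h := ⟨_, rfl⟩
    have hpx : ∀ x, p x = (J.card : ℝ)⁻¹ * ∑ j ∈ J, h j x := by
      intro x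
      rw [hp, Finset.centerMass]
      simp [Finset.sum_apply]
    have hmem : p ∈ convexHull ℝ (h '' (J : Set ι)) := by
      rw [hp]
      exact Finset.centerMass_mem_convexHull J (fun _ _ => zero_le_one) (by simpa using hc)
        fun j hj => ⟨j, hj, rfl⟩
    rw [convexHull_eq_union, Set.mem_iUnion] at hmem
    obtain ⟨t, hmem⟩ := hmem
    simp only [Set.mem_iUnion] at hmem
    obtain ⟨ht1, ht2, ht3⟩ := hmem
    have hch : ∀ e : t, ∃ j ∈ J, h j = e.1 := by
      intro e
      obtain ⟨j, hj, hje⟩ := ht1 e.2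
      exact ⟨j, hj, hje⟩
    choose f hf1 hf2 using hch
    have hspan : ∀ a : t, (a : (V → Bool) → ℝ) ∈ Submodule.span ℝ (Set.range h) := by
      intro a
      rw [← hf2 a]
      exact Submodule.subset_span ⟨_, rfl⟩
    refine ⟨univ.image f, ?_, ?_, ?_⟩
    · intro j hj
      rw [mem_image] at hj
      obtain ⟨e, -, rfl⟩ := hj
      exact hf1 e
    · refine card_image_le.trans ?_
      rw [card_univ]
      have h1 := ht2.card_le_finrank_succ
      refine h1.trans (Nat.add_le_add_right ((Submodule.finrank_mono ?_).trans hd) 1)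
      rw [vectorSpan_def, Submodule.span_le]
      rintro v ⟨a, ⟨a', rfl⟩, b, ⟨b', rfl⟩, rfl⟩
      exact Submodule.sub_mem _ (hspan a') (hspan b')
    · intro x hx
      by_contra hcon
      push Not at hcon
      have h1 : convexHull ℝ (t : Set ((V → Bool) → ℝ)) ⊆ {g | 0 ≤ g x} := by
        refine convexHull_min ?_ ?_
        · intro e he
          have := hcon (f ⟨e, he⟩) (mem_image_of_mem _ (mem_univ _))
          rw [hf2] at this
          exact this
        · intro a ha b hb α β hα hβ _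
          simp only [Set.mem_ofPred_eq, Pi.add_apply, Pi.smul_apply, smul_eq_mul] at *
          positivity
      have h2 := h1 ht3
      simp only [Set.mem_ofPred_eq] at h2
      rw [hpx] at h2
      have h3 : (J.card : ℝ)⁻¹ * ∑ j ∈ J, h j x < 0 :=
        mul_neg_of_pos_of_neg (inv_pos.2 hc) hx
      linarith

/-- Every line is implied by a clause or by few earlier lines. -/
theorem reduce {k w : ℕ} {F : Finset (Clause V)} {S : ℕ} {L : Fin S → Line V w}
    (href : IsRefutation k F L) (i : Fin S) :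
    (∃ C ∈ F, ∀ x, ¬ (L i).Sat x → ¬ Holds x C) ∨
    ∃ P : Finset (Fin S), P.card ≤ (k + 1) * k ∧ (∀ j ∈ P, j < i) ∧
      ∀ x, ¬ (L i).Sat x → ∃ j ∈ P, ¬ (L j).Sat x := by
  classical
  obtain ⟨-, -, h3⟩ := href
  rcases h3 i with ⟨C, hC, h⟩ | ⟨P, hP1, hP2, hP3⟩ | ⟨h, hh1, hh2⟩
  · exact Or.inl ⟨C, hC, fun x hx hC' => hx (h x hC')⟩
  · right
    refine ⟨P, hP1.trans (Nat.le_mul_of_pos_left _ (Nat.succ_pos k)), hP2, fun x hx => ?_⟩
    by_contra hcon
    push Not at hcon
    exact hx (hP3 x hcon)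
  · right
    obtain ⟨Q, hQ1, hQ2, hQ3⟩ :=
      few_terms (univ.filter fun T : Finset (Fin S) => T.card ≤ k ∧ ∀ j ∈ T, j < i) h hh1
    have hQ : ∀ T ∈ Q, T.card ≤ k ∧ ∀ j ∈ T, j < i := fun T hT => (mem_filter.1 (hQ1 hT)).2
    refine ⟨Q.biUnion id, ?_, fun j hj => ?_, fun x hx => ?_⟩
    · refine (card_biUnion_le_card_mul Q id k fun T hT => (hQ T hT).1).trans ?_
      exact Nat.mul_le_mul_right _ hQ2
    · obtain ⟨T, hT, hj'⟩ := mem_biUnion.1 hj
      exact (hQ T hT).2 j hj'
    · obtain ⟨h5, h4⟩ := hh2 x hx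
      obtain ⟨T, hT, hT'⟩ := hQ3 x h5
      by_contra hcon
      push Not at hcon
      refine absurd (h4 T (hQ T hT).1 fun j hj => ⟨(hQ T hT).2 j hj, ?_⟩) (not_le.2 hT')
      exact hcon j (mem_biUnion.2 ⟨T, hT, hj⟩)

end

end Pool.Agent.MP_9cec2c_lc.LovSch
end

section

/-!
Approximation of triangles: the lower bound method for dags of triangles.

`U` and `V` are the sets of inputs of the two players, `S x` and `T y` the sets of constraints
that the inputs `x` and `y` violate from their side.  A triangle is a set of the form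
`{(x, y) | β y < α x}`.
-/

set_option autoImplicit false
set_option linter.unusedSectionVars false

namespace Pool.Agent.MP_9cec2c_lc.LovSch

open Finset

variable {U V I : Type} [Fintype U] [DecidableEq U] [Fintype V] [DecidableEq V] [Fintype I]
  [DecidableEq I]

/-- The triangle `{(x, y) | β y < α x}` has approximators that are correct for all `x` outside
`BU` and all `y` outside `BV`. -/
def App (S : U → Finset I) (T : V → Finset I) (r s : ℕ) (BU : Finset U) (BV : Finset V)
    (α : U → EReal) (β : V → EReal) : Prop :=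
  ∃ A B : Finset I → EReal,
    (∀ M K : Finset I, M.card < r → K.card < s → Disjoint M K → A M ≤ B K) ∧
    (∀ x, x ∉ BU → ∃ M ⊆ S x, M.card < r ∧ α x ≤ A M) ∧
    (∀ y, y ∉ BV → ∃ K ⊆ T y, K.card < s ∧ B K ≤ β y)

variable {S : U → Finset I} {T : V → Finset I} {r s : ℕ} {BU : Finset U} {BV : Finset V}
  {α : U → EReal} {β : V → EReal}

theorem App.mono (h : App S T r s BU BV α β) {BU' : Finset U} {BV' : Finset V}
    (hU : BU ⊆ BU') (hV : BV ⊆ BV') : App S T r s BU' BV' α β := by
  obtain ⟨A, B, h1, h2, h3⟩ := h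
  exact ⟨A, B, h1, fun x hx => h2 x fun h => hx (hU h), fun y hy => h3 y fun h => hy (hV h)⟩

/-- Triangles inside the set of solutions of one constraint. -/
theorem app_leaf (hr : 1 < r) (hs : 1 < s) (i : I)
    (h : ∀ x y, β y < α x → i ∈ S x ∧ i ∈ T y) : App S T r s BU BV α β := by
  classical
  obtain ⟨a1, ha1⟩ : ∃ a1 : EReal, a1 = ⨆ x, α x := ⟨_, rfl⟩
  obtain ⟨a0, ha0⟩ : ∃ a0 : EReal, a0 = ⨆ x : {x // i ∉ S x}, α x.1 := ⟨_, rfl⟩
  have h01 : a0 ≤ a1 := by
    rw [ha0, ha1]
    exact iSup_le fun x => le_iSup α x.1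
  refine ⟨fun M => if i ∈ M then a1 else a0, fun K => if i ∈ K then a0 else a1, ?_, ?_, ?_⟩
  · intro M K _ _ hMK
    by_cases hM : i ∈ M
    · have hK : i ∉ K := fun hK => (disjoint_left.1 hMK) hM hK
      simp only [if_pos hM, if_neg hK, le_refl]
    · by_cases hK : i ∈ K
      · simp only [if_neg hM, if_pos hK, le_refl]
      · simp only [if_neg hM, if_neg hK]
        exact h01
  · intro x _
    by_cases hx : i ∈ S x
    · refine ⟨{i}, by simpa using hx, by simpa using hr, ?_⟩
      simp only [mem_singleton, if_true]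
      rw [ha1]
      exact le_iSup α x
    · refine ⟨∅, empty_subset _, by simp only [card_empty]; omega, ?_⟩
      simp only [notMem_empty, if_false]
      rw [ha0]
      exact le_iSup (fun x : {x // i ∉ S x} => α x.1) ⟨x, hx⟩
  · intro y _
    by_cases hy : i ∈ T y
    · refine ⟨{i}, by simpa using hy, by simpa using hs, ?_⟩
      simp only [mem_singleton, if_true]
      rw [ha0]
      refine iSup_le fun x => ?_
      by_contra hcon
      exact x.2 (h x.1 y (not_le.1 hcon)).1
    · refine ⟨∅, empty_subset _, by simp only [card_empty]; omega, ?_⟩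
      simp only [notMem_empty, if_false]
      rw [ha1]
      refine iSup_le fun x => ?_
      by_contra hcon
      exact hy (h x y (not_le.1 hcon)).2

/-- Sets of size `t` reached by a branching process. -/
def grow (f : Finset I → Finset I) : ℕ → Finset (Finset I)
  | 0 => {∅}
  | t + 1 => (grow f t).biUnion fun M => (f M).image fun e => insert e M

theorem grow_card (f : Finset I → Finset I) {b : ℕ} (hf : ∀ M, (f M).card ≤ b) (t : ℕ) :
    (grow f t).card ≤ b ^ t := by
  induction t with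
  | zero => simp [grow]
  | succ t ih =>
    rw [grow, pow_succ]
    refine (card_biUnion_le_card_mul _ _ b fun M _ => card_image_le.trans (hf M)).trans ?_
    exact Nat.mul_le_mul_right _ ih

/-- Following the branching process inside a set `X`, either one stops early or one reaches
a set of size `t`. -/
theorem grow_reach (f : Finset I → Finset I) (X : Finset I) (stop : Finset I → Prop)
    (hf : ∀ M ⊆ X, ¬ stop M → ∃ e ∈ f M, e ∈ X ∧ e ∉ M) (t : ℕ) :
    (∃ M ⊆ X, M.card < t ∧ stop M) ∨ ∃ M ∈ grow f t, M ⊆ X ∧ M.card = t := by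
  induction t with
  | zero => exact Or.inr ⟨∅, by simp [grow], empty_subset _, rfl⟩
  | succ t ih =>
    rcases ih with ⟨M, h1, h2, h3⟩ | ⟨M, h1, h2, h3⟩
    · exact Or.inl ⟨M, h1, by omega, h3⟩
    · by_cases hst : stop M
      · exact Or.inl ⟨M, h2, by omega, hst⟩
      · obtain ⟨e, he1, he2, he3⟩ := hf M h2 hst
        refine Or.inr ⟨insert e M, ?_, ?_, ?_⟩
        · rw [grow, mem_biUnion]
          exact ⟨M, h1, mem_image_of_mem _ he1⟩
        · exact insert_subset he2 h2
        · rw [card_insert_of_notMem he3, h3]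

/-- The inputs of `U` that contain a set of the family `F`. -/
def above (S : U → Finset I) (F : Finset (Finset I)) : Finset U :=
  univ.filter fun x => ∃ M ∈ F, M ⊆ S x

theorem above_card {F : Finset (Finset I)} {b c : ℕ} (hF : F.card ≤ b)
    (hc : ∀ M : Finset I, M.card = r → (univ.filter fun x => M ⊆ S x).card ≤ c) :
    (above S (F.filter fun M => M.card = r)).card ≤ b * c := by
  classical
  have h1 : above S (F.filter fun M => M.card = r) ⊆
      (F.filter fun M => M.card = r).biUnion fun M => univ.filter fun x => M ⊆ S x := by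
    intro x hx
    obtain ⟨M, hM1, hM2⟩ := (mem_filter.1 hx).2
    exact mem_biUnion.2 ⟨M, hM1, mem_filter.2 ⟨mem_univ _, hM2⟩⟩
  refine (card_le_card h1).trans ?_
  refine (card_biUnion_le_card_mul _ _ c fun M hM => hc M (mem_filter.1 hM).2).trans ?_
  exact Nat.mul_le_mul_right _ ((card_filter_le _ _).trans hF)

/-- The main step: a triangle covered by few approximated triangles is approximated, outside
few more inputs. -/
theorem app_combine {ι : Type} [Fintype ι] {k CU CV : ℕ} (hι : Fintype.card ι ≤ k)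
    (hr : 0 < r) (hs : 0 < s)
    (hCU : ∀ M : Finset I, M.card = r → (univ.filter fun x => M ⊆ S x).card ≤ CU)
    (hCV : ∀ K : Finset I, K.card = s → (univ.filter fun y => K ⊆ T y).card ≤ CV)
    {a : ι → U → EReal} {b : ι → V → EReal} (hab : ∀ i, App S T r s BU BV (a i) (b i))
    (hcov : ∀ x y, β y < α x → ∃ i, b i y < a i x) :
    ∃ (BU' : Finset U) (BV' : Finset V), BU ⊆ BU' ∧ BV ⊆ BV' ∧
      BU'.card ≤ BU.card + (k * s) ^ r * CU ∧ BV'.card ≤ BV.card + r ^ s * CV ∧
      App S T r s BU' BV' α β := by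
  classical
  choose Ai Bi h1 h2 h3 using hab
  -- small sets disjoint from a given set
  obtain ⟨dj, hdj⟩ : ∃ dj : ℕ → Finset I → Finset (Finset I), dj = fun c M =>
      (univ : Finset (Finset I)).filter (fun K => K.card < c ∧ Disjoint M K) := ⟨_, rfl⟩
  have hmem : ∀ c M K, K ∈ dj c M ↔ K.card < c ∧ Disjoint M K := by
    intro c M K
    rw [hdj]
    simp
  have hne : ∀ c, 0 < c → ∀ M, (dj c M).Nonempty := by
    intro c hc M
    exact ⟨∅, (hmem c M ∅).2 ⟨by simpa using hc, disjoint_empty_right M⟩⟩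
  -- the best clause for each child
  have hbest : ∀ (i : ι) (M : Finset I), ∃ K ∈ dj s M, ∀ K' ∈ dj s M, Bi i K ≤ Bi i K' :=
    fun i M => exists_min_image (dj s M) (Bi i) (hne s hs M)
  choose Kb hKb1 hKb2 using hbest
  -- the set of inputs allowed by M
  obtain ⟨A, hA⟩ : ∃ A : Finset I → EReal, A = fun M =>
      ⨆ x : {x // ∀ i, a i x ≤ Bi i (Kb i M)}, α x.1 := ⟨_, rfl⟩
  have hAx : ∀ M x, (∀ i, a i x ≤ Bi i (Kb i M)) → α x ≤ A M := by
    intro M x hx
    rw [hA]
    exact le_iSup (fun x : {x // ∀ i, a i x ≤ Bi i (Kb i M)} => α x.1) ⟨x, hx⟩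
  have hbestM : ∀ (K : Finset I), ∃ M ∈ dj r K, ∀ M' ∈ dj r K, A M' ≤ A M :=
    fun K => exists_max_image (dj r K) A (hne r hr K)
  choose Mb hMb1 hMb2 using hbestM
  obtain ⟨B, hB⟩ : ∃ B : Finset I → EReal, B = fun K => A (Mb K) := ⟨_, rfl⟩
  obtain ⟨f, hf⟩ : ∃ f : Finset I → Finset I, f = fun M => univ.biUnion fun i => Kb i M :=
    ⟨_, rfl⟩
  obtain ⟨FU, hFU⟩ : ∃ FU, FU = (grow f r).filter fun M => M.card = r := ⟨_, rfl⟩
  obtain ⟨FV, hFV⟩ : ∃ FV, FV = (grow Mb s).filter fun K => K.card = s := ⟨_, rfl⟩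
  refine ⟨BU ∪ above S FU, BV ∪ above T FV, subset_union_left, subset_union_left, ?_, ?_,
    A, B, ?_, ?_, ?_⟩
  · refine (card_union_le _ _).trans (Nat.add_le_add_left ?_ _)
    rw [hFU]
    refine above_card (grow_card f (b := k * s) (fun M => ?_) r) hCU
    rw [hf]
    refine (card_biUnion_le_card_mul _ _ s fun i _ => ?_).trans ?_
    · exact ((hmem _ _ _).1 (hKb1 i M)).1.le
    · rw [card_univ]
      exact Nat.mul_le_mul_right _ hι
  · refine (card_union_le _ _).trans (Nat.add_le_add_left ?_ _)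
    rw [hFV]
    refine above_card (grow_card Mb (b := r) (fun K => ?_) s) hCV
    exact ((hmem _ _ _).1 (hMb1 K)).1.le
  · intro M K hM hK hMK
    rw [hB]
    exact hMb2 K M ((hmem _ _ _).2 ⟨hM, hMK.symm⟩)
  · intro x hx
    have hxU : x ∉ BU := fun h => hx (mem_union_left _ h)
    have hxF : x ∉ above S FU := fun h => hx (mem_union_right _ h)
    have hstep : ∀ M ⊆ S x, ¬ (∀ i, a i x ≤ Bi i (Kb i M)) → ∃ e ∈ f M, e ∈ S x ∧ e ∉ M := by
      intro M hM hst
      push Not at hst
      obtain ⟨i, hi⟩ := hst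
      obtain ⟨Mi, g1, g2, g3⟩ := h2 i x hxU
      have hnd : ¬ Disjoint Mi (Kb i M) := by
        intro hd
        have := h1 i Mi (Kb i M) g2 ((hmem _ _ _).1 (hKb1 i M)).1 hd
        exact absurd (g3.trans this) (not_le.2 hi)
      obtain ⟨e, he1, he2⟩ := not_disjoint_iff.1 hnd
      refine ⟨e, ?_, g1 he1, ?_⟩
      · rw [hf]
        exact mem_biUnion.2 ⟨i, mem_univ _, he2⟩
      · intro heM
        exact (disjoint_left.1 ((hmem _ _ _).1 (hKb1 i M)).2) heM he2
    rcases grow_reach f (S x) (fun M => ∀ i, a i x ≤ Bi i (Kb i M)) hstep r with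
      ⟨M, hM1, hM2, hM3⟩ | ⟨M, hM1, hM2, hM3⟩
    · exact ⟨M, hM1, hM2, hAx M x hM3⟩
    · refine absurd ?_ hxF
      rw [above, mem_filter]
      refine ⟨mem_univ _, M, ?_, hM2⟩
      rw [hFU, mem_filter]
      exact ⟨hM1, hM3⟩
  · intro y hy
    have hyV : y ∉ BV := fun h => hy (mem_union_left _ h)
    have hyF : y ∉ above T FV := fun h => hy (mem_union_right _ h)
    have key : ∀ M : Finset I, M.card < r → Disjoint M (T y) → A M ≤ β y := by
      intro M hM hMT
      rw [hA]
      refine iSup_le fun x => ?_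
      by_contra hcon
      obtain ⟨i, hi⟩ := hcov x.1 y (not_le.1 hcon)
      obtain ⟨Ki, g1, g2, g3⟩ := h3 i y hyV
      have hd : Disjoint M Ki := disjoint_of_subset_right g1 hMT
      have := hKb2 i M Ki ((hmem _ _ _).2 ⟨g2, hd⟩)
      exact absurd ((x.2 i).trans (this.trans g3)) (not_le.2 hi)
    have hstep : ∀ K ⊆ T y, ¬ (A (Mb K) ≤ β y) → ∃ e ∈ Mb K, e ∈ T y ∧ e ∉ K := by
      intro K hK hst
      have hnd : ¬ Disjoint (Mb K) (T y) := by
        intro hd
        exact hst (key (Mb K) ((hmem _ _ _).1 (hMb1 K)).1 hd)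
      obtain ⟨e, he1, he2⟩ := not_disjoint_iff.1 hnd
      refine ⟨e, he1, he2, ?_⟩
      intro heK
      exact (disjoint_left.1 ((hmem _ _ _).1 (hMb1 K)).2) heK he1
    rcases grow_reach Mb (T y) (fun K => A (Mb K) ≤ β y) hstep s with
      ⟨K, hK1, hK2, hK3⟩ | ⟨K, hK1, hK2, hK3⟩
    · refine ⟨K, hK1, hK2, ?_⟩
      rw [hB]
      exact hK3
    · refine absurd ?_ hyF
      rw [above, mem_filter]
      refine ⟨mem_univ _, K, ?_, hK2⟩
      rw [hFV, mem_filter]
      exact ⟨hK1, hK3⟩

/-- The full triangle cannot be approximated outside few inputs. -/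
theorem app_full {c : ℕ} (hc : ∀ i, (univ.filter fun x => i ∈ S x).card ≤ c)
    (h : App S T r s BU BV (fun _ => 1) fun _ => 0) (hV : BV.card < Fintype.card V) :
    Fintype.card U ≤ BU.card + s * c := by
  classical
  obtain ⟨A, B, h1, h2, h3⟩ := h
  obtain ⟨y, hy⟩ : ∃ y, y ∉ BV := by
    by_contra hcon
    push Not at hcon
    have : BV = univ := eq_univ_iff_forall.2 hcon
    rw [this, card_univ] at hV
    exact lt_irrefl _ hV
  obtain ⟨K, g1, g2, g3⟩ := h3 y hy
  have hsub : (univ : Finset U) ⊆ BU ∪ K.biUnion fun i => univ.filter fun x => i ∈ S x := by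
    intro x _
    by_cases hx : x ∈ BU
    · exact mem_union_left _ hx
    · refine mem_union_right _ ?_
      obtain ⟨M, k1, k2, k3⟩ := h2 x hx
      have hnd : ¬ Disjoint M K := by
        intro hd
        have h4 := k3.trans ((h1 M K k2 g2 hd).trans g3)
        exact absurd h4 (by norm_num)
      obtain ⟨e, he1, he2⟩ := not_disjoint_iff.1 hnd
      exact mem_biUnion.2 ⟨e, he2, mem_filter.2 ⟨mem_univ _, k1 he1⟩⟩
  have h5 := card_le_card hsub
  rw [card_univ] at h5
  refine h5.trans ((card_union_le _ _).trans (Nat.add_le_add_left ?_ _))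
  refine (card_biUnion_le_card_mul _ _ c fun i _ => hc i).trans ?_
  exact Nat.mul_le_mul_right _ g2.le

end Pool.Agent.MP_9cec2c_lc.LovSch
end

section

/-!
The lower bound for dags of triangles in which a node may have many children.
-/

set_option autoImplicit false
set_option linter.unusedSectionVars false

namespace Pool.Agent.MP_9cec2c_lc.LovSch

open Finset

variable {U V I : Type} [Fintype U] [DecidableEq U] [Fintype V] [DecidableEq V] [Fintype I]
  [DecidableEq I] {S : U → Finset I} {T : V → Finset I} {r s CU CV k m c1 : ℕ}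

/-- The lower bound for dags of triangles. -/
theorem tri_bound (hr : 1 < r) (hs : 1 < s)
    (hCU : ∀ M : Finset I, M.card = r → (univ.filter fun x => M ⊆ S x).card ≤ CU)
    (hCV : ∀ K : Finset I, K.card = s → (univ.filter fun y => K ⊆ T y).card ≤ CV)
    (hc1 : ∀ i, (univ.filter fun x => i ∈ S x).card ≤ c1)
    (α : Fin m → U → EReal) (β : Fin m → V → EReal)
    (hax : ∀ i : Fin m, (∃ e : I, ∀ x y, β i y < α i x → e ∈ S x ∧ e ∈ T y) ∨
      ∃ P : Finset (Fin m), P.card ≤ k ∧ (∀ j ∈ P, j < i) ∧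
        ∀ x y, β i y < α i x → ∃ j ∈ P, β j y < α j x)
    (hfin : ∃ P : Finset (Fin m), P.card ≤ k ∧ ∀ x y, ∃ j ∈ P, β j y < α j x)
    (hV : (m + 1) * (r ^ s * CV) < Fintype.card V) :
    Fintype.card U ≤ (m + 1) * ((k * s) ^ r * CU) + s * c1 := by
  classical
  have main : ∀ n : ℕ, n ≤ m → ∃ (BU : Finset U) (BV : Finset V),
      BU.card ≤ n * ((k * s) ^ r * CU) ∧ BV.card ≤ n * (r ^ s * CV) ∧
        ∀ i : Fin m, (i : ℕ) < n → App S T r s BU BV (α i) (β i) := by
    intro n
    induction n with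
    | zero =>
      intro _
      exact ⟨∅, ∅, by simp, by simp, fun i hi => absurd hi (by omega)⟩
    | succ n ih =>
      intro hn
      obtain ⟨BU, BV, h1, h2, h3⟩ := ih (by omega)
      obtain ⟨i, hi⟩ : ∃ i : Fin m, (i : ℕ) = n := ⟨⟨n, by omega⟩, rfl⟩
      have key : ∃ (BU' : Finset U) (BV' : Finset V), BU ⊆ BU' ∧ BV ⊆ BV' ∧
          BU'.card ≤ BU.card + (k * s) ^ r * CU ∧ BV'.card ≤ BV.card + r ^ s * CV ∧
          App S T r s BU' BV' (α i) (β i) := by
        rcases hax i with ⟨e, he⟩ | ⟨P, hP1, hP2, hP3⟩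
        · exact ⟨BU, BV, Subset.refl _, Subset.refl _, by omega, by omega, app_leaf hr hs e he⟩
        · refine app_combine (ι := P) (k := k) (by rw [Fintype.card_coe]; exact hP1)
            (by omega) (by omega) hCU hCV (a := fun j => α j.1) (b := fun j => β j.1)
            (fun j => h3 j.1 ?_) fun x y hxy => ?_
          · have h4 : j.1 < i := hP2 j.1 j.2
            rw [← hi]
            exact h4
          · obtain ⟨j, hj, hj'⟩ := hP3 x y hxy
            exact ⟨⟨j, hj⟩, hj'⟩
      obtain ⟨BU', BV', g1, g2, g3, g4, g5⟩ := key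
      refine ⟨BU', BV', ?_, ?_, fun j hj => ?_⟩
      · rw [add_mul, one_mul]
        omega
      · rw [add_mul, one_mul]
        omega
      · rcases Nat.lt_succ_iff_lt_or_eq.1 hj with hj | hj
        · exact (h3 j hj).mono g1 g2
        · have : j = i := Fin.ext (by rw [hj, hi])
          rw [this]
          exact g5
  obtain ⟨BU, BV, h1, h2, h3⟩ := main m le_rfl
  obtain ⟨P, hP1, hP2⟩ := hfin
  obtain ⟨BU', BV', g1, g2, g3, g4, g5⟩ := app_combine (α := fun _ => (1 : EReal))
    (β := fun _ => (0 : EReal)) (ι := P) (k := k) (by rw [Fintype.card_coe]; exact hP1)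
    (by omega : 0 < r) (by omega : 0 < s) hCU hCV (a := fun j => α j.1) (b := fun j => β j.1)
    (fun j => h3 j.1 j.1.2) (fun x y _ => by
      obtain ⟨j, hj, hj'⟩ := hP2 x y
      exact ⟨⟨j, hj⟩, hj'⟩)
  have h4 : BV'.card < Fintype.card V := by
    refine lt_of_le_of_lt ?_ hV
    rw [add_mul, one_mul]
    omega
  have h5 := app_full hc1 g5 h4
  rw [add_mul, one_mul]
  omega

end Pool.Agent.MP_9cec2c_lc.LovSch
end
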