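import Pool.Agent.Lib.MP_9cec2c_lc.Mg.G037
import Pool.Agent.Lib.MP_9cec2c_lc.FGNum
import Pool.Agent.Lib.MP_9cec2c_lc.CDDefs

section

/-!
The lower bound for Frege systems from a graded world with few numbers: refutations and proofs of
tautologies.
-/

set_option autoImplicit false
set_option linter.unusedSectionVars false

namespace Pool.Agent.MP_9cec2c_lc.GW

open Finset Frege FG

variable {K V W : Type} [Field K] [AddCommGroup W] [Module K W] [Fintype K]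
  [FiniteDimensional K W] {M N : ℕ → Submodule K W} {act : Fun K V →ₗ[K] W →ₗ[K] W} {A : ℕ}

/-- The numbers. -/
theorem numbers {c w n R d τ : ℕ} {C Ω : ℝ} (hC : 1 ≤ C) (hΩ : 0 < Ω)
    (hpos : (Module.finrank K (M 0 ⊓ N A : Submodule K W) : ℝ) + Ω ≤ Module.finrank K (M 0))
    (hτ : 36 * (c + 1) * (n : ℝ) ^ 2 * τ ≤ Ω)
    (hR : 16 * (c + 1) * C * n ≤ 2 ^ R) (hR1 : 1 ≤ R)
    (hA : (c + w + 8) * (3 * R * (Fintype.card K - 1)) ^ (d + 1) ≤ A) :
    (R + 3 * R + 4) * (Fintype.card K * deg K (3 * R) d) ≤ A ∧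
      c * deg K (3 * R) (d + 1) ≤ A ∧ w + 2 * deg K (3 * R) (d + 1) ≤ A ∧
      2 * ((c : ℝ) + 1) * n * ((2 * C * (3 / 4) ^ (3 * R) + C / 2 ^ R) * Ω + 4 * n * τ) + n * τ +
        Module.finrank K (M 0 ⊓ N A : Submodule K W) < Module.finrank K (M 0) := by
  have hc0 : 0 < Fintype.card K - 1 := card_sub_pos
  obtain ⟨κ, hκ⟩ : ∃ κ, κ = Fintype.card K - 1 := ⟨_, rfl⟩
  have hκ1 : Fintype.card K = κ + 1 := by omega
  obtain ⟨t, ht⟩ : ∃ t, t = deg K (3 * R) d := ⟨_, rfl⟩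
  have hT : deg K (3 * R) (d + 1) = 3 * R * κ * t := by rw [ht, hκ, deg_succ]
  have hT' : (3 * R * (Fintype.card K - 1)) ^ (d + 1) = 3 * R * κ * t := by
    rw [← hT]
    rfl
  rw [hT'] at hA
  obtain ⟨T, hTT⟩ : ∃ T, T = 3 * R * κ * t := ⟨_, rfl⟩
  have ht1 : 1 ≤ t := by
    rw [ht]
    exact Nat.one_le_iff_ne_zero.2 (pow_ne_zero _ (Nat.mul_pos (by omega) hc0).ne')
  have hT1 : 1 ≤ T := by
    rw [hTT]
    exact Nat.mul_pos (Nat.mul_pos (by omega) (by omega)) ht1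
  have hAe : (c + w + 8) * T = c * T + w * T + 8 * T := by ring
  rw [← hTT, hAe] at hA
  have hw1 : w ≤ w * T := Nat.le_mul_of_pos_right _ hT1
  refine ⟨?_, ?_, ?_, ?_⟩
  · have h1 : (R + 3 * R + 4) * (Fintype.card K * t) ≤ 6 * T := by
      rw [hκ1, hTT]
      calc (R + 3 * R + 4) * ((κ + 1) * t) ≤ (8 * R) * ((2 * κ) * t) :=
            Nat.mul_le_mul (by omega) (Nat.mul_le_mul_right _ (by omega))
        _ = 16 * (R * κ * t) := by ring
        _ ≤ 18 * (R * κ * t) := Nat.mul_le_mul_right _ (by norm_num)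
        _ = 6 * (3 * R * κ * t) := by ring
    rw [← ht]
    omega
  · rw [hT, ← hTT]
    omega
  · rw [hT, ← hTT]
    omega
  · have h1 : ((3 : ℝ) / 4) ^ (3 * R) ≤ (1 / 2) ^ R := by
      rw [pow_mul]
      exact pow_le_pow_left₀ (by norm_num) (by norm_num) R
    have h2 : (0 : ℝ) < 2 ^ R := by positivity
    have h3 : (1 / 2 : ℝ) ^ R = 1 / 2 ^ R := by rw [one_div, inv_pow, one_div]
    rw [h3] at h1
    have h4 : 2 * C * (3 / 4) ^ (3 * R) ≤ 2 * C * (1 / 2 ^ R) :=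
      mul_le_mul_of_nonneg_left h1 (by linarith)
    have h5 : 2 * ((c : ℝ) + 1) * n * (2 * C * (3 / 4) ^ (3 * R) + C / 2 ^ R) ≤
        2 * (c + 1) * n * (2 * C * (1 / 2 ^ R) + C / 2 ^ R) :=
      mul_le_mul_of_nonneg_left (by linarith) (by positivity)
    have h6 : 2 * ((c : ℝ) + 1) * n * (2 * C * (1 / 2 ^ R) + C / 2 ^ R) =
        3 / 8 * (16 * (c + 1) * C * n / 2 ^ R) := by
      ring
    have h7 : 16 * ((c : ℝ) + 1) * C * n / 2 ^ R ≤ 1 := (div_le_one h2).2 hR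
    have h8 : 2 * ((c : ℝ) + 1) * n * (2 * C * (3 / 4) ^ (3 * R) + C / 2 ^ R) * Ω ≤ 3 / 8 * Ω :=
      mul_le_mul_of_nonneg_right (by linarith) hΩ.le
    have h9 : (n : ℝ) * τ ≤ (c + 1) * (n : ℝ) ^ 2 * τ := by
      have h10 : (n : ℝ) ≤ (c + 1) * (n : ℝ) ^ 2 := by
        have h11 : n ≤ (c + 1) * n ^ 2 := by
          calc n ≤ n ^ 2 := Nat.le_self_pow two_ne_zero n
            _ = 1 * n ^ 2 := (one_mul _).symm
            _ ≤ (c + 1) * n ^ 2 := Nat.mul_le_mul_right _ (by omega)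
        exact_mod_cast h11
      exact mul_le_mul_of_nonneg_right h10 (Nat.cast_nonneg _)
    have h10 : 2 * ((c : ℝ) + 1) * n * ((2 * C * (3 / 4) ^ (3 * R) + C / 2 ^ R) * Ω +
        4 * n * τ) = 2 * ((c : ℝ) + 1) * n * (2 * C * (3 / 4) ^ (3 * R) + C / 2 ^ R) * Ω +
        8 * ((c + 1) * (n : ℝ) ^ 2 * τ) := by ring
    rw [h10]
    have h11 : 36 * (c + 1) * (n : ℝ) ^ 2 * τ = 36 * ((c + 1) * (n : ℝ) ^ 2 * τ) := by ring
    rw [h11] at hτ
    linarith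

/-- The lower bound for refutations. -/
theorem flat_refutation {p d n R c w τ : ℕ} [CharP K p] (hW : GWorld M N act) {C Ω : ℝ}
    (hC : 1 ≤ C) (hΩ : 0 < Ω) (hB : Bounds M N A τ C Ω)
    (hpos : (Module.finrank K (M 0 ⊓ N A : Submodule K W) : ℝ) + Ω ≤ Module.finrank K (M 0))
    (hτ : 36 * (c + 1) * (n : ℝ) ^ 2 * τ ≤ Ω)
    {S : Set Rule} (hS : ∀ R ∈ S, R.Sound p ∧ rcost R ≤ c ∧ R.nodes.length ≤ c)
    (hR : 16 * (c + 1) * C * n ≤ 2 ^ R) (hR1 : 1 ≤ R)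
    (hA : (c + w + 8) * (3 * R * (Fintype.card K - 1)) ^ (d + 1) ≤ A)
    {Φ : Set (Form V)} (hΦ : ∀ φ ∈ Φ, ∃ D : List (V × Bool), φ = clause D ∧ DeadIn M N act w D)
    {l : ℕ} {L : Fin l → Form V} (hL : IsDerivation S d Φ L) (hf : ∃ i, L i = falsum) :
    n < size L := by
  obtain ⟨h1, h2, h3, h4⟩ := numbers (K := K) (d := d) hC hΩ hpos hτ hR hR1 hA
  exact refutation (p := p) hW (by omega) hC hΩ.le hB h1 hS h2 h3 hΦ h4 hL hf

/-- The lower bound for proofs of the tautology that says that one of the clauses is false. -/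
theorem flat_tautology {p d n R c w τ : ℕ} [CharP K p] (hW : GWorld M N act) {C Ω : ℝ}
    (hC : 1 ≤ C) (hΩ : 0 < Ω) (hB : Bounds M N A τ C Ω)
    (hpos : (Module.finrank K (M 0 ⊓ N A : Submodule K W) : ℝ) + Ω ≤ Module.finrank K (M 0))
    (hτ : 36 * (c + 1) * (n : ℝ) ^ 2 * τ ≤ Ω)
    {S : Set Rule} (hS : ∀ R ∈ S, R.Sound p ∧ rcost R ≤ c ∧ R.nodes.length ≤ c)
    (hR : 16 * (c + 1) * C * n ≤ 2 ^ R) (hR1 : 1 ≤ R)
    (hA : (c + w + 8) * (3 * R * (Fintype.card K - 1)) ^ (d + 1) ≤ A)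
    {F : List (List (V × Bool))} (hF : ∀ D ∈ F, DeadIn M N act w D)
    {l : ℕ} {L : Fin l → Form V} (hL : IsDerivation S d ∅ L) (hf : ∃ i, L i = .neg (cnf F)) :
    n < size L := by
  obtain ⟨h1, h2, h3, h4⟩ := numbers (K := K) (d := d) hC hΩ hpos hτ hR hR1 hA
  exact tautology (p := p) hW (by omega) hC hΩ.le hB h1 hS h2 h3 hF h4 hL hf

/-- A finite set of rules has a common bound for the costs. -/
theorem exists_cost {S : Set Rule} (hS : S.Finite) :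
    ∃ c : ℕ, ∀ R ∈ S, rcost R ≤ c ∧ R.nodes.length ≤ c := by
  obtain ⟨c, hc⟩ := (hS.image fun R => rcost R + R.nodes.length).bddAbove
  refine ⟨c, fun R hR => ?_⟩
  have h1 := hc (Set.mem_image_of_mem _ hR)
  exact ⟨(Nat.le_add_right _ _).trans h1, (Nat.le_add_left _ _).trans h1⟩

end Pool.Agent.MP_9cec2c_lc.GW
end

section

/-!
The numbers for the pigeonhole principle: one exponent for all depths, when the ratio of the
dimensions is bounded by a polynomial and the trivial bound for the size is available.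
-/

set_option autoImplicit false
set_option linter.unusedSectionVars false

namespace Pool.Agent.MP_9cec2c_lc.PF

open Finset Frege FG

/-- One exponent for all depths. -/
theorem num_uniform (q κ : ℕ) (hκ : 1 ≤ κ) (hq : 1 ≤ q) {B E c₀ : ℝ} (hB : 1 ≤ B) (hE : 0 < E)
    (hc₀ : 0 < c₀) :
    ∃ c : ℝ, 0 < c ∧ ∃ n₀ : ℕ, ∀ n ≥ n₀, ∀ (A d s : ℕ) (C : ℝ), (n : ℝ) ^ c₀ - 1 ≤ A →
      1 ≤ C → C ≤ (n : ℝ) ^ E → n ≤ s →
      Real.exp (((A : ℝ) / q) ^ ((1 : ℝ) / (d + 1)) / (5 * κ) - Real.log (2 * (B * C))) ≤ s →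
      Real.exp (c * (n : ℝ) ^ (c / (d + 1))) ≤ s := by
  have hκ0 : (0 : ℝ) < κ := by exact_mod_cast hκ
  have hκ1 : (1 : ℝ) ≤ κ := by exact_mod_cast hκ
  have hq0 : (0 : ℝ) < q := by exact_mod_cast hq
  have hq1 : (1 : ℝ) ≤ q := by exact_mod_cast hq
  -- `E' = E + 1` absorbs the constant
  obtain ⟨E', hE'⟩ : ∃ E' : ℝ, E' = E + 1 := ⟨_, rfl⟩
  have hE0 : 0 < E' := by linarith
  obtain ⟨c, hc⟩ : ∃ c : ℝ, c = min (c₀ / 2) (min (1 / (10 * κ)) (1 / (10 * κ * E'))) :=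
    ⟨_, rfl⟩
  have hc1 : c ≤ c₀ / 2 := by
    rw [hc]
    exact min_le_left _ _
  have hc2 : c ≤ 1 / (10 * κ) := by
    rw [hc]
    exact (min_le_right _ _).trans (min_le_left _ _)
  have hc3 : c ≤ 1 / (10 * κ * E') := by
    rw [hc]
    exact (min_le_right _ _).trans (min_le_right _ _)
  have hc0 : 0 < c := by
    rw [hc]
    exact lt_min (by positivity) (lt_min (by positivity) (by positivity))
  have htend : Filter.Tendsto (fun n : ℕ => (n : ℝ) ^ (c₀ / 2)) Filter.atTop Filter.atTop :=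
    (tendsto_rpow_atTop (by positivity)).comp tendsto_natCast_atTop_atTop
  obtain ⟨N₀, hN₀⟩ := Filter.eventually_atTop.1
    (htend.eventually_ge_atTop (2 * (q : ℝ)))
  refine ⟨c, hc0, max N₀ (max 1 ⌈2 * B⌉₊), fun n hn A d s C hA hC hCn hs h => ?_⟩
  have hn1' : 1 ≤ n := (le_max_left 1 _).trans ((le_max_right _ _).trans hn)
  have hn1 : (1 : ℝ) ≤ n := by exact_mod_cast hn1'
  have hn2 := hN₀ n ((le_max_left _ _).trans hn)
  have hn3 : 2 * B ≤ n := by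
    have h1 : ⌈2 * B⌉₊ ≤ n := (le_max_right 1 _).trans ((le_max_right _ _).trans hn)
    exact (Nat.le_ceil _).trans (by exact_mod_cast h1)
  have hd0 : (0 : ℝ) < (d : ℝ) + 1 := by positivity
  have hsq : (n : ℝ) ^ c₀ = (n : ℝ) ^ (c₀ / 2) * (n : ℝ) ^ (c₀ / 2) := by
    rw [← Real.rpow_add (by linarith)]
    congr 1
    ring
  have hAq : (n : ℝ) ^ (c₀ / 2) ≤ (A : ℝ) / q := by
    rw [le_div_iff₀ hq0]
    have h1 : (2 * (q : ℝ)) * (n : ℝ) ^ (c₀ / 2) ≤ (n : ℝ) ^ c₀ := by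
      rw [hsq]
      exact mul_le_mul_of_nonneg_right hn2 (by positivity)
    have h2 : 1 ≤ (n : ℝ) ^ (c₀ / 2) * q := by
      have h3 : (1 : ℝ) ≤ (n : ℝ) ^ (c₀ / 2) := Real.one_le_rpow hn1 (by positivity)
      nlinarith
    nlinarith
  obtain ⟨Y, hY⟩ : ∃ Y : ℝ, Y = (n : ℝ) ^ (c₀ / 2 / (d + 1)) := ⟨_, rfl⟩
  have hXY : Y ≤ ((A : ℝ) / q) ^ ((1 : ℝ) / (d + 1)) := by
    have h1 : Y = ((n : ℝ) ^ (c₀ / 2)) ^ ((1 : ℝ) / (d + 1)) := by
      rw [hY, ← Real.rpow_mul (by linarith)]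
      congr 1
      ring
    rw [h1]
    exact Real.rpow_le_rpow (by positivity) hAq (by positivity)
  have hcY : (n : ℝ) ^ (c / (d + 1)) ≤ Y := by
    rw [hY]
    exact Real.rpow_le_rpow_of_exponent_le hn1 (div_le_div_of_nonneg_right hc1 hd0.le)
  have hY0 : 0 ≤ Y := by
    rw [hY]
    positivity
  have hsn : (n : ℝ) ≤ s := by exact_mod_cast hs
  have hlog : Real.log (2 * (B * C)) ≤ E' * Real.log n := by
    have h1 : 2 * (B * C) ≤ (n : ℝ) * (n : ℝ) ^ E := by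
      rw [← mul_assoc]
      exact mul_le_mul hn3 hCn (by linarith) (by linarith)
    have h2 : (n : ℝ) * (n : ℝ) ^ E = (n : ℝ) ^ E' := by
      rw [hE', Real.rpow_add (by linarith), Real.rpow_one, mul_comm]
    have h3 : 0 < 2 * (B * C) := by positivity
    calc Real.log (2 * (B * C)) ≤ Real.log ((n : ℝ) ^ E') := Real.log_le_log h3 (h1.trans h2.le)
      _ = E' * Real.log n := Real.log_rpow (by linarith) _
  have hlogn : 0 ≤ Real.log n := Real.log_nonneg hn1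
  by_cases hcase : Y < 10 * κ * (E' * Real.log n)
  · have h1 : c * (n : ℝ) ^ (c / (d + 1)) ≤ Real.log n := by
      calc c * (n : ℝ) ^ (c / (d + 1)) ≤ 1 / (10 * κ * E') * (10 * κ * (E' * Real.log n)) :=
            mul_le_mul hc3 (hcY.trans hcase.le) (by positivity) (by positivity)
        _ = Real.log n := by
            field_simp
    calc Real.exp (c * (n : ℝ) ^ (c / (d + 1))) ≤ Real.exp (Real.log n) := Real.exp_le_exp.2 h1
      _ = n := Real.exp_log (by linarith)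
      _ ≤ s := hsn
  · push Not at hcase
    refine le_trans (Real.exp_le_exp.2 ?_) h
    have h1 : c * (n : ℝ) ^ (c / (d + 1)) ≤ 1 / (10 * κ) * Y :=
      mul_le_mul hc2 hcY (by positivity) (by positivity)
    have h2 : 1 / (10 * κ) * Y = Y / (5 * κ) - Y / (10 * κ) := by
      field_simp
      ring
    have h3 : E' * Real.log n ≤ Y / (10 * κ) := by
      rw [le_div_iff₀ (by positivity)]
      linarith
    have h4 : Y / (5 * κ) ≤ ((A : ℝ) / q) ^ ((1 : ℝ) / (d + 1)) / (5 * κ) :=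
      div_le_div_of_nonneg_right hXY (by positivity)
    linarith

end Pool.Agent.MP_9cec2c_lc.PF
end

section

/-!
Lower bounds for Frege systems for all depths at once, from graded worlds.
-/

set_option autoImplicit false
set_option linter.unusedSectionVars false

namespace Pool.Agent.MP_9cec2c_lc.PF

open Finset Frege FG GW

/-- The defect is small enough. -/
theorem defect_small {A R n τ c w d κ : ℕ} {C Ω : ℝ} (hκ : 1 ≤ κ) (hC : 1 ≤ C) (hΩ : 0 < Ω)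
    (hRA : (c + w + 8) * (3 * R * κ) ^ (d + 1) ≤ A)
    (hRn : 16 * ((c : ℝ) + 1) * C * n ≤ 2 ^ R) (hA : 144 * (c + 1) ≤ A)
    (hτ : (τ : ℝ) ≤ 2 * Real.exp (-A) * Ω) :
    36 * ((c : ℝ) + 1) * (n : ℝ) ^ 2 * τ ≤ Ω := by
  have hR0 : (0 : ℝ) ≤ R := Nat.cast_nonneg R
  have hc0 : (0 : ℝ) ≤ c := Nat.cast_nonneg c
  have hA0 : (0 : ℝ) ≤ A := Nat.cast_nonneg A
  have h1 : 24 * R ≤ A := by
    have h2 : 3 * R ≤ (3 * R * κ) ^ (d + 1) := by
      calc 3 * R ≤ 3 * R * κ := Nat.le_mul_of_pos_right _ hκ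
        _ ≤ (3 * R * κ) ^ (d + 1) := Nat.le_self_pow (by omega) _
    calc 24 * R = 8 * (3 * R) := by ring
      _ ≤ (c + w + 8) * (3 * R * κ) ^ (d + 1) := Nat.mul_le_mul (by omega) h2
      _ ≤ A := hRA
  have h1' : 24 * (R : ℝ) ≤ A := by exact_mod_cast h1
  have hn : (n : ℝ) ≤ 2 ^ R := by
    refine le_trans ?_ hRn
    have h2 : (1 : ℝ) ≤ 16 * ((c : ℝ) + 1) * C := by nlinarith
    exact le_mul_of_one_le_left (Nat.cast_nonneg n) h2
  have hn2 : (n : ℝ) ^ 2 ≤ Real.exp (2 * R) := by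
    have h2 : (2 : ℝ) ^ R ≤ Real.exp R := by
      have h3 : (2 : ℝ) ≤ Real.exp 1 := by
        have := Real.exp_one_gt_d9
        linarith
      calc (2 : ℝ) ^ R ≤ Real.exp 1 ^ R := pow_le_pow_left₀ (by norm_num) h3 R
        _ = Real.exp R := by
          rw [← Real.exp_nat_mul, mul_one]
    calc (n : ℝ) ^ 2 ≤ Real.exp R ^ 2 := pow_le_pow_left₀ (Nat.cast_nonneg n) (hn.trans h2) 2
      _ = Real.exp (2 * R) := by
        rw [← Real.exp_nat_mul]
        norm_num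
  have hc : 72 * ((c : ℝ) + 1) ≤ Real.exp (A / 2) := by
    have h2 : (144 : ℝ) * (c + 1) ≤ A := by exact_mod_cast hA
    have h3 := Real.add_one_le_exp ((A : ℝ) / 2)
    linarith
  calc 36 * ((c : ℝ) + 1) * (n : ℝ) ^ 2 * τ ≤
        36 * ((c : ℝ) + 1) * Real.exp (2 * R) * (2 * Real.exp (-A) * Ω) := by
        gcongr
    _ = 72 * ((c : ℝ) + 1) * (Real.exp (2 * R) * Real.exp (-A)) * Ω := by ring
    _ ≤ Real.exp (A / 2) * (Real.exp (2 * R) * Real.exp (-A)) * Ω := by gcongr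
    _ = Real.exp (A / 2 + (2 * R + -A)) * Ω := by
        rw [← Real.exp_add, ← Real.exp_add]
    _ ≤ 1 * Ω := by
        refine mul_le_mul_of_nonneg_right (Real.exp_le_one_iff.2 ?_) hΩ.le
        linarith
    _ = Ω := one_mul Ω

/-- The lower bound for all depths, from graded worlds. -/
theorem world_num (K : Type) [Field K] [Fintype K] (p : ℕ) [CharP K p] {c₀ E : ℝ} (hc₀ : 0 < c₀)
    (hE : 0 < E) (w : ℕ) {S : Set Rule} (hS : S.Finite) (hsound : ∀ R ∈ S, R.Sound p) :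
    ∃ c : ℝ, 0 < c ∧ ∃ n₀ : ℕ, ∀ n ≥ n₀, ∀ (V W : Type) [AddCommGroup W] [Module K W]
      [FiniteDimensional K W] (M N : ℕ → Submodule K W) (act : Fun K V →ₗ[K] W →ₗ[K] W)
      (A τ : ℕ) (C Ω : ℝ), GWorld M N act → Bounds M N A τ C Ω → 1 ≤ C → C ≤ (n : ℝ) ^ E →
      0 < Ω → (Module.finrank K (M 0 ⊓ N A : Submodule K W) : ℝ) + Ω ≤ Module.finrank K (M 0) →
      (τ : ℝ) ≤ 2 * Real.exp (-A) * Ω → (n : ℝ) ^ c₀ - 1 ≤ A →
      ∀ F : List (List (V × Bool)), (∀ D ∈ F, DeadIn M N act w D) →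
      ∀ (d l : ℕ) (L : Fin l → Form V), Refutes S d F L → n ≤ size L →
      Real.exp (c * (n : ℝ) ^ (c / (d + 1))) ≤ size L := by
  obtain ⟨k, hk⟩ := GW.exists_cost hS
  obtain ⟨q, hq⟩ : ∃ q : ℕ, q = k + w + 8 := ⟨_, rfl⟩
  obtain ⟨B, hB⟩ : ∃ B : ℝ, B = 16 * ((k : ℝ) + 1) := ⟨_, rfl⟩
  have hk0 : (0 : ℝ) ≤ k := Nat.cast_nonneg k
  have hB1 : 1 ≤ B := by
    rw [hB]
    linarith
  obtain ⟨c, hc, n₀, hn₀⟩ := num_uniform q (Fintype.card K - 1) card_sub_pos (by omega) hB1 hE hc₀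
  have htend : Filter.Tendsto (fun n : ℕ => (n : ℝ) ^ c₀) Filter.atTop Filter.atTop :=
    (tendsto_rpow_atTop hc₀).comp tendsto_natCast_atTop_atTop
  obtain ⟨n₁, hn₁⟩ := Filter.eventually_atTop.1
    (htend.eventually_ge_atTop (144 * ((k : ℝ) + 1) + 1))
  refine ⟨c, hc, max n₀ n₁, fun n hn V W _ _ _ M N act A τ C Ω hW hBd hC1 hCn hΩ hpos hτ hA F hF
    d l L hL hs => ?_⟩
  have hA' : 144 * (k + 1) ≤ A := by
    have h1 := hn₁ n ((le_max_right _ _).trans hn)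
    have h2 : (144 : ℝ) * (k + 1) ≤ A := by linarith
    exact_mod_cast h2
  have hS' : ∀ R ∈ S, R.Sound p ∧ rcost R ≤ k ∧ R.nodes.length ≤ k := fun R hR =>
    ⟨hsound R hR, (hk R hR).1, (hk R hR).2⟩
  have hi : ∃ i : Fin l, True := by
    rcases hL with ⟨-, i, -⟩ | ⟨-, i, -⟩ <;> exact ⟨i, trivial⟩
  obtain ⟨i, -⟩ := hi
  have h2 := two_le_size (L := L) i
  have hBC : 1 ≤ B * C := by nlinarith
  refine hn₀ n ((le_max_left _ _).trans hn) A d (size L) C hA hC1 hCn hs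
    (num_bound hBC card_sub_pos (by omega) (by omega) ?_)
  intro R n' hR1 hRA hRn
  rw [hq] at hRA
  rw [hB] at hRn
  have hτ' := defect_small (w := w) card_sub_pos hC1 hΩ hRA hRn hA' hτ
  rcases hL with ⟨hL, hf⟩ | ⟨hL, hf⟩
  · exact flat_refutation (p := p) (w := w) hW hC1 hΩ hBd hpos hτ' hS' hRn hR1 hRA
      (fun φ hφ => by
        obtain ⟨D, hD, rfl⟩ := hφ
        exact ⟨D, rfl, hF D hD⟩) hL hf
  · exact flat_tautology (p := p) (w := w) hW hC1 hΩ hBd hpos hτ' hS' hRn hR1 hRA hF hL hf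

end Pool.Agent.MP_9cec2c_lc.PF
end
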