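import Mathlib
import Pool.Agent.Lib.MP_9cec2c_lc.Mg.G058

section

/-!
A lower bound for a hypergeometric sum.
-/

set_option autoImplicit false
set_option linter.unusedSectionVars false

namespace Pool.Agent.MP_9cec2c_lc.YL

open Finset

/-
PROOF of fact_le: induction; (k+1)! = (k+1) k! <= (k+1) e k (k/e)^k for k >= 1, and k^(k+1) e <= (k+1)^(k+1), that is 1 <= (k+1) log (1+1/k)
(Real.one_sub_inv_le_log_of_pos). So k^k / k! >= e^(k-1) / k.
PROOF of num_lower. κ := 4 sinh(s/2)^2 <= 1/2 (s <= 1/2: sinh(1/4) <= 0.2527), x := sqrt (κ n) = 2 sinh(s/2) sqrt n, k := ⌊x⌋₊ <= n. k^2 <= κ n.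
C(n,k) k! = ∏_{i<k} (n - i) >= n^k (1 - ∑_{i<k} i/n) >= n^k (1 - k^2/(2n)) >= n^k / 2 (n >= 1; n = 0 trivial).
So the term k is at least (κ n)^k / (2 k! (k+1)!) = (x^k/k!)^2 / (2 (k+1)), x^k >= k^k, x^k/k! >= e^(k-1)/max(k,1) >= e^(x-2)/(x+1), k + 1 <= x + 1:
 term >= e^(2x-4) / (2 (x+1)^3), 2 e^4 <= 200, x <= sqrt n.
-/

theorem fact_le (k : ℕ) (hk : 1 ≤ k) :
    (k.factorial : ℝ) * Real.exp (k - 1) ≤ k * (k : ℝ) ^ k := by
  induction k, hk using Nat.le_induction with
  | base => simp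
  | succ k hk ih =>
    have hk0 : (0 : ℝ) < (k : ℝ) := by exact_mod_cast hk
    have hk1 : (0 : ℝ) < (k : ℝ) + 1 := by linarith
    have h1 : Real.exp 1 * (k : ℝ) ^ (k + 1) ≤ ((k : ℝ) + 1) ^ (k + 1) := by
      have h2 : (k : ℝ) ≤ Real.exp (-(1 / ((k : ℝ) + 1))) * ((k : ℝ) + 1) := by
        have h3 := Real.one_sub_le_exp_neg (1 / ((k : ℝ) + 1))
        have h4 := mul_le_mul_of_nonneg_right h3 hk1.le
        have h5 : (1 - 1 / ((k : ℝ) + 1)) * ((k : ℝ) + 1) = k := by
          rw [sub_mul, div_mul_cancel₀ _ hk1.ne']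
          ring
        rwa [h5] at h4
      have h3 := pow_le_pow_left₀ hk0.le h2 (k + 1)
      rw [mul_pow, ← Real.exp_nat_mul] at h3
      have h4 : ((k + 1 : ℕ) : ℝ) * -(1 / ((k : ℝ) + 1)) = -1 := by
        push_cast
        rw [mul_neg, mul_one_div_cancel hk1.ne']
      rw [h4] at h3
      have h5 := mul_le_mul_of_nonneg_left h3 (Real.exp_pos 1).le
      rw [← mul_assoc, ← Real.exp_add, add_neg_cancel, Real.exp_zero, one_mul] at h5
      exact h5
    have h2 : Real.exp (((k + 1 : ℕ) : ℝ) - 1) = Real.exp 1 * Real.exp ((k : ℝ) - 1) := by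
      rw [← Real.exp_add]
      congr 1
      push_cast
      ring
    rw [h2, Nat.factorial_succ]
    push_cast
    calc ((k : ℝ) + 1) * (k.factorial : ℝ) * (Real.exp 1 * Real.exp ((k : ℝ) - 1))
        = ((k : ℝ) + 1) * Real.exp 1 * ((k.factorial : ℝ) * Real.exp ((k : ℝ) - 1)) := by ring
      _ ≤ ((k : ℝ) + 1) * Real.exp 1 * (k * (k : ℝ) ^ k) :=
        mul_le_mul_of_nonneg_left ih (by positivity)
      _ = ((k : ℝ) + 1) * (Real.exp 1 * (k : ℝ) ^ (k + 1)) := by ring
      _ ≤ _ := mul_le_mul_of_nonneg_left h1 hk1.le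

theorem choose_lower {n k : ℕ} (hk : 2 * k ^ 2 ≤ n) :
    (n : ℝ) ^ k ≤ 2 * ((n.choose k : ℝ) * k.factorial) := by
  rcases Nat.eq_zero_or_pos k with rfl | hk0
  · simp
  have hkn : k ≤ n := by nlinarith
  have hn0 : 0 < n := lt_of_lt_of_le hk0 hkn
  have hn : (0 : ℝ) < (n : ℝ) := by exact_mod_cast hn0
  have h1 : (n - k) ^ k ≤ n.descFactorial k :=
    (Nat.pow_le_pow_left (by omega) k).trans (Nat.pow_sub_le_descFactorial n k)
  have h2 : ((n : ℝ) - k) ^ k ≤ (n.descFactorial k : ℝ) := by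
    have h3 : (((n - k) ^ k : ℕ) : ℝ) ≤ (n.descFactorial k : ℝ) := by exact_mod_cast h1
    rwa [Nat.cast_pow, Nat.cast_sub hkn] at h3
  have h3 : (n.descFactorial k : ℝ) = (n.choose k : ℝ) * k.factorial := by
    rw [Nat.descFactorial_eq_factorial_mul_choose]
    push_cast
    ring
  rw [← h3]
  have h4 : (k : ℝ) / n ≤ 1 := (div_le_one hn).2 (by exact_mod_cast hkn)
  have h5 := one_add_mul_le_pow (a := -((k : ℝ) / n)) (by linarith) k
  have h6 : 1 / 2 ≤ 1 + (k : ℝ) * -((k : ℝ) / n) := by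
    have h7 : (k : ℝ) * ((k : ℝ) / n) ≤ 1 / 2 := by
      rw [← mul_div_assoc, div_le_iff₀ hn]
      have : 2 * (k : ℝ) ^ 2 ≤ n := by exact_mod_cast hk
      linarith
    linarith
  have h7 : (n : ℝ) ^ k * (1 + -((k : ℝ) / n)) ^ k = ((n : ℝ) - k) ^ k := by
    rw [← mul_pow]
    congr 1
    field_simp
    ring
  have h8 : (n : ℝ) ^ k * (1 / 2) ≤ ((n : ℝ) - k) ^ k := by
    rw [← h7]
    exact mul_le_mul_of_nonneg_left (h6.trans h5) (by positivity)
  linarith

theorem sinh_quarter {s : ℝ} (hs : 0 < s) (hs1 : s ≤ 1 / 2) :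
    0 < Real.sinh (s / 2) ∧ Real.sinh (s / 2) ≤ 3 / 10 := by
  refine ⟨Real.sinh_pos_iff.2 (by linarith), ?_⟩
  have h1 : Real.sinh (s / 2) ≤ Real.sinh (1 / 4) := Real.sinh_le_sinh.2 (by linarith)
  have h2 : Real.exp (1 / 4) ≤ 1.29 := by
    have h3 : Real.exp (1 / 4) ^ 4 = Real.exp 1 := by
      rw [← Real.exp_nat_mul]
      congr 1
      norm_num
    refine le_of_not_gt fun h => ?_
    have h4 : (1.29 : ℝ) ^ 4 < Real.exp (1 / 4) ^ 4 :=
      pow_lt_pow_left₀ h (by norm_num) (by norm_num)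
    rw [h3] at h4
    have h5 := Real.exp_one_lt_d9
    norm_num at h4 h5
    linarith
  have h3 : 1 - (1 / 4 : ℝ) ≤ Real.exp (-(1 / 4)) := Real.one_sub_le_exp_neg _
  rw [Real.sinh_eq (1 / 4)] at h1
  linarith

theorem num_lower {s : ℝ} (hs : 0 < s) (hs1 : s ≤ 1 / 2) (n : ℕ) :
    Real.exp (4 * √n * Real.sinh (s / 2)) ≤ 200 * (√n + 1) ^ 3 *
      ∑ k ∈ range (n + 1), (4 * Real.sinh (s / 2) ^ 2) ^ k * (n.choose k : ℝ) /
        (k + 1).factorial := by
  obtain ⟨hσ, hσ1⟩ := sinh_quarter hs hs1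
  set σ := Real.sinh (s / 2) with hσd
  have hsn : 0 ≤ √(n : ℝ) := Real.sqrt_nonneg _
  have hsn2 : √(n : ℝ) ^ 2 = n := Real.sq_sqrt (Nat.cast_nonneg n)
  set x := 2 * σ * √(n : ℝ) with hx
  have hx0 : 0 ≤ x := by positivity
  have hx2 : x ^ 2 = 4 * σ ^ 2 * n := by
    rw [hx, mul_pow, hsn2]
    ring
  set k := ⌊x⌋₊ with hk
  have hkx : (k : ℝ) ≤ x := Nat.floor_le hx0
  have hxk : x < k + 1 := Nat.lt_floor_add_one x
  have hk2 : 2 * k ^ 2 ≤ n := by
    have h1 : 2 * (k : ℝ) ^ 2 ≤ n := by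
      have h2 : (k : ℝ) ^ 2 ≤ x ^ 2 := pow_le_pow_left₀ (Nat.cast_nonneg k) hkx 2
      have h3 : 4 * σ ^ 2 ≤ 1 / 2 := by nlinarith
      have h4 : 4 * σ ^ 2 * n ≤ 1 / 2 * n := mul_le_mul_of_nonneg_right h3 (Nat.cast_nonneg n)
      linarith
    exact_mod_cast h1
  have hkn : k ≤ n := by
    rcases Nat.eq_zero_or_pos k with h | h
    · omega
    · nlinarith
  have hterm : 0 ≤ (4 * σ ^ 2) ^ k * (n.choose k : ℝ) / ((k + 1).factorial : ℝ) := by positivity
  have hsum : (4 * σ ^ 2) ^ k * (n.choose k : ℝ) / ((k + 1).factorial : ℝ) ≤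
      ∑ k ∈ range (n + 1), (4 * σ ^ 2) ^ k * (n.choose k : ℝ) / ((k + 1).factorial : ℝ) :=
    single_le_sum (f := fun k => (4 * σ ^ 2) ^ k * (n.choose k : ℝ) / ((k + 1).factorial : ℝ))
      (fun i _ => by positivity) (mem_range.2 (Nat.lt_succ_of_le hkn))
  -- the term
  have hfk : (0 : ℝ) < k.factorial := by exact_mod_cast Nat.factorial_pos k
  have hpow : Real.exp (x - 2) ≤ (x + 1) * (x ^ k / k.factorial) := by
    have h1 : Real.exp ((k : ℝ) - 1) ≤ ((k : ℝ) + 1) * ((k : ℝ) ^ k / k.factorial) := by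
      rcases Nat.eq_zero_or_pos k with h | h
      · rw [h]
        simp
      · have h2 := fact_le k h
        rw [← mul_div_assoc, le_div_iff₀ hfk, mul_comm]
        refine h2.trans (mul_le_mul_of_nonneg_right (by linarith) (by positivity))
    have h2 : Real.exp (x - 2) ≤ Real.exp ((k : ℝ) - 1) := Real.exp_le_exp.2 (by linarith)
    refine h2.trans (h1.trans ?_)
    refine mul_le_mul (by linarith) ?_ (by positivity) (by linarith)
    exact div_le_div_of_nonneg_right (pow_le_pow_left₀ (Nat.cast_nonneg k) hkx k) hfk.le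
  have hmain : (x ^ k / k.factorial) ^ 2 ≤
      2 * (x + 1) * ((4 * σ ^ 2) ^ k * (n.choose k : ℝ) / ((k + 1).factorial : ℝ)) := by
    have h1 := choose_lower hk2
    have h2 : (x ^ k) ^ 2 = (4 * σ ^ 2) ^ k * (n : ℝ) ^ k := by
      rw [← pow_mul, mul_comm k 2, pow_mul, hx2, mul_pow]
    have h3 : ((k + 1).factorial : ℝ) = ((k : ℝ) + 1) * k.factorial := by
      rw [Nat.factorial_succ]
      push_cast
      ring
    rw [div_pow, h2, h3]
    have h4 : (4 * σ ^ 2) ^ k * (n : ℝ) ^ k / (k.factorial : ℝ) ^ 2 ≤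
        (4 * σ ^ 2) ^ k * (2 * ((n.choose k : ℝ) * k.factorial)) / (k.factorial : ℝ) ^ 2 :=
      div_le_div_of_nonneg_right (mul_le_mul_of_nonneg_left h1 (by positivity)) (by positivity)
    refine h4.trans ?_
    have h5 : (4 * σ ^ 2) ^ k * (2 * ((n.choose k : ℝ) * k.factorial)) / (k.factorial : ℝ) ^ 2 =
        2 * ((k : ℝ) + 1) * ((4 * σ ^ 2) ^ k * (n.choose k : ℝ) /
          (((k : ℝ) + 1) * k.factorial)) := by
      have : (k : ℝ) + 1 ≠ 0 := by positivity
      field_simp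
    rw [h5]
    refine mul_le_mul_of_nonneg_right (by linarith) (by positivity)
  have hexp : Real.exp (2 * x) ≤ 100 * Real.exp (x - 2) ^ 2 := by
    have h1 : Real.exp (2 * x) = Real.exp 4 * Real.exp (x - 2) ^ 2 := by
      rw [← Real.exp_nat_mul, ← Real.exp_add]
      congr 1
      push_cast
      ring
    rw [h1]
    refine mul_le_mul_of_nonneg_right ?_ (sq_nonneg _)
    have h2 : Real.exp 4 = Real.exp 1 ^ 4 := by
      rw [← Real.exp_nat_mul]
      congr 1
      norm_num
    rw [h2]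
    have h3 : Real.exp 1 ≤ 3 := by
      have := Real.exp_one_lt_d9
      linarith
    calc Real.exp 1 ^ 4 ≤ 3 ^ 4 := pow_le_pow_left₀ (Real.exp_pos 1).le h3 4
      _ ≤ 100 := by norm_num
  have hxs : x ≤ √(n : ℝ) := by
    rw [hx]
    nlinarith
  have h4 : 4 * √(n : ℝ) * σ = 2 * x := by
    rw [hx]
    ring
  rw [h4]
  refine hexp.trans ?_
  have h5 : Real.exp (x - 2) ^ 2 ≤ (x + 1) ^ 2 * (x ^ k / k.factorial) ^ 2 := by
    rw [← mul_pow]
    exact pow_le_pow_left₀ (Real.exp_pos _).le hpow 2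
  have h6 : (x + 1) ^ 3 ≤ (√(n : ℝ) + 1) ^ 3 := pow_le_pow_left₀ (by linarith) (by linarith) 3
  calc 100 * Real.exp (x - 2) ^ 2
      ≤ 100 * ((x + 1) ^ 2 * (2 * (x + 1) * ((4 * σ ^ 2) ^ k * (n.choose k : ℝ) /
          ((k + 1).factorial : ℝ)))) := by
        refine mul_le_mul_of_nonneg_left (h5.trans ?_) (by norm_num)
        exact mul_le_mul_of_nonneg_left hmain (by positivity)
    _ = 200 * (x + 1) ^ 3 * ((4 * σ ^ 2) ^ k * (n.choose k : ℝ) / ((k + 1).factorial : ℝ)) := by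
        ring
    _ ≤ _ := by
        refine mul_le_mul ?_ hsum hterm (by positivity)
        exact mul_le_mul_of_nonneg_left h6 (by norm_num)

theorem sinh_gap {u : ℝ} (hu : 0 ≤ u) :
    u ^ 3 / 16 ≤ 4 * Real.sinh (u / 2) - 8 * Real.sinh (u / 4) := by
  have h1 : Real.sinh (u / 2) = 2 * Real.sinh (u / 4) * Real.cosh (u / 4) := by
    rw [← Real.sinh_two_mul]
    congr 1
    ring
  have h2 : Real.cosh (u / 4) = 1 + 2 * Real.sinh (u / 8) ^ 2 := by
    have h3 : u / 4 = 2 * (u / 8) := by ring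
    rw [h3, Real.cosh_two_mul, Real.cosh_sq]
    ring
  have h3 : u / 4 ≤ Real.sinh (u / 4) := Real.self_le_sinh_iff.2 (by linarith)
  have h4 : u / 8 ≤ Real.sinh (u / 8) := Real.self_le_sinh_iff.2 (by linarith)
  have h5 : (u / 8) ^ 2 ≤ Real.sinh (u / 8) ^ 2 := pow_le_pow_left₀ (by linarith) h4 2
  have h6 : u / 4 * (u / 8) ^ 2 ≤ Real.sinh (u / 4) * Real.sinh (u / 8) ^ 2 :=
    mul_le_mul h3 h5 (sq_nonneg _) ((by linarith : 0 ≤ u / 4).trans h3)
  rw [h1, h2]
  nlinarith

end Pool.Agent.MP_9cec2c_lc.YL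
end

section

/-!
Linear algebra for graded worlds: the halving lemma with a defect, and subspaces of small
codimension.
-/

set_option autoImplicit false
set_option linter.unusedSectionVars false

namespace Pool.Agent.MP_9cec2c_lc.GR

open Finset Frege

section lin

variable {K : Type} [Field K]
variable {V U : Type} [AddCommGroup V] [Module K V] [FiniteDimensional K V]
  [AddCommGroup U] [Module K U]

/-- The dimensions of the preimages of two subspaces. -/
theorem comap_defect [FiniteDimensional K U] (φ : V →ₗ[K] U) (B : Submodule K V)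
    {M' Z₁ Z₂ : Submodule K U} (hB : ∀ x ∈ B, φ x ∈ M') (h12 : Z₁ ≤ Z₂) (h1M : Z₁ ≤ M') {τ : ℕ}
    (h : Module.finrank K (M' ⊓ Z₂ : Submodule K U) ≤ Module.finrank K Z₁ + τ) :
    Module.finrank K (B ⊓ Z₂.comap φ : Submodule K V) ≤
      Module.finrank K (B ⊓ Z₁.comap φ : Submodule K V) + τ := by
  have h1 := finrank_map_add (B ⊓ Z₂.comap φ) (Z₁.mkQ.comp φ)
  have h2 := finrank_map_add (M' ⊓ Z₂) Z₁.mkQ
  have h3 : (M' ⊓ Z₂) ⊓ LinearMap.ker Z₁.mkQ = Z₁ := by
    rw [Submodule.ker_mkQ]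
    exact inf_eq_right.2 (le_inf h1M h12)
  have h4 : (B ⊓ Z₂.comap φ) ⊓ LinearMap.ker (Z₁.mkQ.comp φ) = B ⊓ Z₁.comap φ := by
    ext x
    constructor
    · rintro ⟨⟨hx1, -⟩, hx3⟩
      refine ⟨hx1, ?_⟩
      rw [SetLike.mem_coe, LinearMap.mem_ker, LinearMap.comp_apply, Submodule.mkQ_apply,
        Submodule.Quotient.mk_eq_zero] at hx3
      exact hx3
    · rintro ⟨hx1, hx2⟩
      refine ⟨⟨hx1, h12 hx2⟩, ?_⟩
      rw [SetLike.mem_coe, LinearMap.mem_ker, LinearMap.comp_apply, Submodule.mkQ_apply,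
        Submodule.Quotient.mk_eq_zero]
      exact hx2
  have h5 : (B ⊓ Z₂.comap φ).map (Z₁.mkQ.comp φ) ≤ (M' ⊓ Z₂).map Z₁.mkQ := by
    rintro y ⟨x, ⟨hx1, hx2⟩, rfl⟩
    exact ⟨φ x, ⟨hB x hx1, hx2⟩, rfl⟩
  have h6 := Submodule.finrank_mono h5
  rw [h3] at h2
  rw [h4] at h1
  omega

/-- The defect of a pair of subspaces does not increase when one restricts to a subspace. -/
theorem inf_defect (B B' : Submodule K V) (hB : B' ≤ B) {D E : Submodule K V} (hDE : B ⊓ D ≤ E)
    {τ : ℕ} (h : Module.finrank K (B ⊓ E : Submodule K V) ≤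
      Module.finrank K (B ⊓ D : Submodule K V) + τ) :
    Module.finrank K (B' ⊓ E : Submodule K V) ≤
      Module.finrank K (B' ⊓ D : Submodule K V) + τ := by
  have h1 := Submodule.finrank_sup_add_finrank_inf_eq (B' ⊓ E) (B ⊓ D)
  have h2 : (B' ⊓ E) ⊓ (B ⊓ D) = B' ⊓ D := by
    ext x
    constructor
    · rintro ⟨⟨h1, -⟩, -, h4⟩
      exact ⟨h1, h4⟩
    · rintro ⟨h1, h4⟩
      exact ⟨⟨h1, hDE ⟨hB h1, h4⟩⟩, hB h1, h4⟩
  have h3 : (B' ⊓ E) ⊔ (B ⊓ D) ≤ B ⊓ E :=
    sup_le (fun x hx => ⟨hB hx.1, hx.2⟩) fun x hx => ⟨hx.1, hDE hx⟩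
  have h4 := Submodule.finrank_mono h3
  rw [h2] at h1
  omega

/-- For subspaces `P ≤ Q` of `B` there is a subspace of `B` of small codimension that meets `Q` in
`P`. -/
theorem exists_avoid (B P Q : Submodule K V) (hPQ : P ≤ Q) {τ : ℕ}
    (h : Module.finrank K Q ≤ Module.finrank K P + τ) :
    ∃ X : Submodule K V, X ≤ B ∧ Module.finrank K B ≤ Module.finrank K X + τ ∧
      ∀ x ∈ X, x ∈ Q → x ∈ P := by
  obtain ⟨C, hC⟩ := Submodule.exists_isCompl (Q.map P.mkQ)
  have h1 := finrank_map_add B (C.mkQ.comp P.mkQ)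
  refine ⟨B ⊓ LinearMap.ker (C.mkQ.comp P.mkQ), inf_le_left, ?_, ?_⟩
  · have h2 : Module.finrank K (B.map (C.mkQ.comp P.mkQ)) ≤ Module.finrank K ((V ⧸ P) ⧸ C) :=
      Submodule.finrank_le _
    have h3 := C.finrank_quotient_add_finrank
    have h4 := Submodule.finrank_add_eq_of_isCompl hC
    have h5 := finrank_map_add Q P.mkQ
    rw [Submodule.ker_mkQ, inf_eq_right.2 hPQ] at h5
    omega
  · rintro x ⟨-, hx2⟩ hx3
    rw [SetLike.mem_coe, LinearMap.mem_ker, LinearMap.comp_apply, Submodule.mkQ_apply,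
      Submodule.Quotient.mk_eq_zero] at hx2
    have h2 : P.mkQ x ∈ Q.map P.mkQ := Submodule.mem_map_of_mem hx3
    have h3 : P.mkQ x ∈ (Q.map P.mkQ) ⊓ C := ⟨h2, hx2⟩
    rw [hC.inf_eq_bot, Submodule.mem_bot, Submodule.mkQ_apply, Submodule.Quotient.mk_eq_zero] at h3
    exact h3

/-- The codimensions of finitely many subspaces add up. -/
theorem exists_inter {ι : Type} (s : Finset ι) (B : Submodule K V) (X : ι → Submodule K V)
    (c : ι → ℝ) (hX : ∀ i ∈ s, X i ≤ B)
    (h : ∀ i ∈ s, (Module.finrank K B : ℝ) ≤ Module.finrank K (X i) + c i) :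
    ∃ Y : Submodule K V, Y ≤ B ∧ (∀ i ∈ s, Y ≤ X i) ∧
      (Module.finrank K B : ℝ) ≤ Module.finrank K Y + ∑ i ∈ s, c i := by
  classical
  induction s using Finset.induction_on with
  | empty =>
    refine ⟨B, le_rfl, fun i hi => absurd hi (notMem_empty i), ?_⟩
    rw [sum_empty, add_zero]
  | insert j s hj ih =>
    obtain ⟨Y, hY, h1, h2⟩ := ih (fun i hi => hX i (mem_insert_of_mem hi))
      fun i hi => h i (mem_insert_of_mem hi)
    refine ⟨Y ⊓ X j, inf_le_left.trans hY, fun i hi => ?_, ?_⟩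
    · rcases mem_insert.1 hi with rfl | hi
      · exact inf_le_right
      · exact inf_le_left.trans (h1 i hi)
    · have h3 := Submodule.finrank_sup_add_finrank_inf_eq Y (X j)
      have h4 := Submodule.finrank_mono (sup_le hY (hX j (mem_insert_self _ _)))
      have h5 := h j (mem_insert_self _ _)
      rw [sum_insert hj]
      have h6 : (Module.finrank K (Y ⊔ X j : Submodule K V) : ℝ) +
          Module.finrank K (Y ⊓ X j : Submodule K V) =
          Module.finrank K Y + Module.finrank K (X j) := by exact_mod_cast h3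
      have h7 : (Module.finrank K (Y ⊔ X j : Submodule K V) : ℝ) ≤ Module.finrank K B := by
        exact_mod_cast h4
      linarith

variable [Fintype K] {β : Type} [Fintype β] [DecidableEq β]

/-- The halving lemma with a defect. -/
theorem halving (S : β → β → V →ₗ[K] U) (D : β → Submodule K V) (τ : ℕ) (s : Finset β) :
    ∀ B : Submodule K V, (∀ x ∈ B, ∀ j, x ∈ D j → ∀ i, S j i x = 0 ∧ S i j x = 0) →
      (∀ j, Module.finrank K (B ⊓ LinearMap.ker (S j j) : Submodule K V) ≤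
        Module.finrank K (B ⊓ D j : Submodule K V) + τ) →
      Fintype.card (β → K) * Module.finrank K B ≤
        Fintype.card (β → K) * Module.finrank K (B ⊓ ⨅ j ∈ s, D j : Submodule K V) +
        2 * ∑ a : β → K, Module.finrank K (B.map (comb S s a)) +
        Fintype.card (β → K) * (s.card * τ) := by
  induction s using Finset.induction_on with
  | empty =>
    intro B _ _
    have h1 : (B ⊓ ⨅ j ∈ (∅ : Finset β), D j : Submodule K V) = B := by
      simp
    rw [h1]
    omega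
  | insert c s hc ih =>
    intro B hB hτ
    obtain ⟨B', hB'⟩ : ∃ B' : Submodule K V, B' = B ⊓ D c := ⟨_, rfl⟩
    have hB'B : B' ≤ B := by
      rw [hB']
      exact inf_le_left
    have hB'c : ∀ x ∈ B', x ∈ D c := by
      intro x hx
      rw [hB'] at hx
      exact hx.2
    obtain ⟨Y, hY⟩ : ∃ Y : (β → K) → V →ₗ[K] U, Y = fun a =>
      ∑ j ∈ insert c s, a j • S j c := ⟨_, rfl⟩
    have ih' := ih B' (fun x hx => hB x (hB'B hx)) fun j =>
      inf_defect B B' hB'B (fun x hx => (hB x hx.1 j hx.2 j).1) (hτ j)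
    have h1 : ∀ a : β → K, Module.finrank K (B.map (Y a)) +
        Module.finrank K (B'.map (comb S s a)) ≤
        Module.finrank K (B.map (comb S (insert c s) a)) := by
      intro a
      have h2 : Module.finrank K (B.map (Y a)) +
          Module.finrank K (B'.map (comb S (insert c s) a)) ≤
          Module.finrank K (B.map (comb S (insert c s) a)) := by
        refine finrank_map_add_le B B' _ _ hB'B (fun x hx => ?_) fun x hx h => ?_
        · rw [hY]
          show (∑ j ∈ insert c s, a j • S j c) x = 0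
          rw [LinearMap.sum_apply]
          refine sum_eq_zero fun j _ => ?_
          rw [LinearMap.smul_apply, (hB x (hB'B hx) c (hB'c x hx) j).2, smul_zero]
        · rw [hY]
          show (∑ j ∈ insert c s, a j • S j c) x = 0
          rw [LinearMap.sum_apply]
          exact comb_eq_zero.1 h c (mem_insert_self _ _)
      have h3 : Module.finrank K (B'.map (comb S s a)) ≤
          Module.finrank K (B'.map (comb S (insert c s) a)) := by
        refine finrank_map_le_of_ker _ _ _ fun x hx h => ?_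
        rw [comb_eq_zero] at h ⊢
        intro i hi
        have h4 := h i (mem_insert_of_mem hi)
        rw [sum_insert hc, (hB x (hB'B hx) c (hB'c x hx) i).1, smul_zero, zero_add] at h4
        exact h4
      omega
    have h2 : Fintype.card (β → K) * Module.finrank K (B.map (S c c)) ≤
        2 * ∑ a : β → K, Module.finrank K (B.map (Y a)) := by
      obtain ⟨δ, hδ⟩ : ∃ δ : β → K, δ = Pi.single c 1 := ⟨_, rfl⟩
      have h3 : ∑ a : β → K, Module.finrank K (B.map (Y (a + δ))) =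
          ∑ a : β → K, Module.finrank K (B.map (Y a)) :=
        Fintype.sum_equiv (Equiv.addRight δ) _ _ fun a => rfl
      have h4 : ∀ a : β → K, Module.finrank K (B.map (S c c)) ≤
          Module.finrank K (B.map (Y (a + δ))) + Module.finrank K (B.map (Y a)) := by
        intro a
        have h5 : S c c = Y (a + δ) - Y a := by
          rw [hY]
          show S c c = ∑ j ∈ insert c s, (a + δ) j • S j c - ∑ j ∈ insert c s, a j • S j c
          rw [← sum_sub_distrib, sum_eq_single_of_mem c (mem_insert_self _ _)]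
          · rw [hδ, Pi.add_apply, Pi.single_eq_same, add_smul, one_smul, add_sub_cancel_left]
          · intro j _ hj
            rw [hδ, Pi.add_apply, Pi.single_eq_of_ne hj, add_zero, sub_self]
        calc Module.finrank K (B.map (S c c))
            = Module.finrank K (B.map (Y (a + δ) - Y a)) := by rw [← h5]
          _ ≤ _ := finrank_map_sub_le _ _ _
      calc Fintype.card (β → K) * Module.finrank K (B.map (S c c))
          = ∑ _a : β → K, Module.finrank K (B.map (S c c)) := by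
            rw [sum_const, smul_eq_mul, card_univ]
        _ ≤ ∑ a : β → K, (Module.finrank K (B.map (Y (a + δ))) +
            Module.finrank K (B.map (Y a))) := sum_le_sum fun a _ => h4 a
        _ = 2 * ∑ a : β → K, Module.finrank K (B.map (Y a)) := by
            rw [sum_add_distrib, h3, two_mul]
    have h3 : Module.finrank K B ≤
        Module.finrank K (B.map (S c c)) + Module.finrank K B' + τ := by
      have h4 := finrank_map_add B (S c c)
      have h5 := hτ c
      rw [← hB'] at h5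
      omega
    have h4 : (B ⊓ ⨅ j ∈ insert c s, D j : Submodule K V) = B' ⊓ ⨅ j ∈ s, D j := by
      rw [hB', Finset.iInf_insert, inf_assoc]
    rw [h4, card_insert_of_notMem hc]
    obtain ⟨N, hN⟩ : ∃ N, N = Fintype.card (β → K) := ⟨_, rfl⟩
    have h5 : 2 * ∑ a : β → K, Module.finrank K (B.map (Y a)) +
        2 * ∑ a : β → K, Module.finrank K (B'.map (comb S s a)) ≤
        2 * ∑ a : β → K, Module.finrank K (B.map (comb S (insert c s) a)) := by
      rw [← mul_add, ← sum_add_distrib]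
      exact Nat.mul_le_mul_left _ (sum_le_sum fun a _ => h1 a)
    have h6 : Fintype.card (β → K) * Module.finrank K B ≤ Fintype.card (β → K) *
        (Module.finrank K (B.map (S c c)) + Module.finrank K B' + τ) := Nat.mul_le_mul_left _ h3
    rw [mul_add, mul_add] at h6
    rw [add_mul, mul_add, one_mul]
    omega

end lin

end Pool.Agent.MP_9cec2c_lc.GR
end
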