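import Pool.Agent.Lib.MP_9cec2c_lc.Mg.G028
import Pool.Agent.Lib.MP_9cec2c_lc.Mg.G058
import Pool.Agent.Lib.MP_9cec2c_lc.Mg.G033

section

/-!
The dimensions of the levels of the world of the pigeonhole principle.
-/

set_option autoImplicit false
set_option linter.unusedSectionVars false

namespace Pool.Agent.MP_9cec2c_lc.PF

open Finset PHS PH

variable {N b : ℕ}

/-- A word without star in which no hole is used twice has at most `b` letters. -/
theorem deg_le_of_good {s : Wd N b} (hs : Good s) (h0 : stars s = 0) : deg s ≤ b := by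
  classical
  have hstar : ∀ i, s i ≠ Fin.last (b + 1) := by
    intro i hi
    have h1 : (univ.filter fun i => s i = Fin.last (b + 1)).card = 0 := h0
    rw [card_eq_zero] at h1
    have h2 : i ∈ univ.filter fun i => s i = Fin.last (b + 1) := mem_filter.2 ⟨mem_univ i, hi⟩
    rw [h1] at h2
    exact absurd h2 (notMem_empty i)
  have hval : ∀ i, s i ≠ 0 → (s i).val - 1 < b := by
    intro i hi
    have h1 : (s i).val < b + 2 := (s i).isLt
    have h2 : (s i).val ≠ b + 1 := fun h => hstar i (Fin.ext h)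
    have h3 : (s i).val ≠ 0 := fun h => hi (Fin.ext h)
    omega
  unfold deg
  calc (univ.filter fun i => s i ≠ 0).card ≤ (range b).card := by
        refine card_le_card_of_injOn (fun i => (s i).val - 1) ?_ ?_
        · intro i hi
          exact mem_coe.2 (mem_range.2 (hval i (mem_filter.1 (mem_coe.1 hi)).2))
        · intro i hi i' hi' h
          have h1 := (mem_filter.1 (mem_coe.1 hi)).2
          have h2 := (mem_filter.1 (mem_coe.1 hi')).2
          have h3 : (s i).val ≠ 0 := fun h => h1 (Fin.ext h)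
          have h4 : (s i').val ≠ 0 := fun h => h2 (Fin.ext h)
          have h5 : s i = s i' := by
            apply Fin.ext
            simp only at h
            omega
          exact hs.1 i i' h5 ⟨h1, hstar i⟩
    _ = b := card_range b

/-- The word without letters is standard. -/
theorem std_zero (hbN : b ≤ N) : Std (fun _ => 0 : Wd N b) := by
  have hstars : stars (fun _ => 0 : Wd N b) = 0 := by
    unfold stars
    rw [card_eq_zero, filter_eq_empty_iff]
    intro i _ h
    have h1 := congrArg Fin.val h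
    simp at h1
  have hC : ∀ C : Finset (Fin N), Chain (fun _ => 0 : Wd N b) C → C.card = 0 := by
    intro C hC
    rw [card_eq_zero, eq_empty_iff_forall_notMem]
    intro i hi
    exact hC.1 i hi rfl
  refine ⟨⟨⟨fun i i' _ h => absurd rfl h.1, by rw [hstars]; omega⟩, fun y C h _ => ?_,
    fun x _ C h _ => ?_⟩, fun C h _ => ?_⟩ <;>
  · rw [hC C h]
    exact Nat.zero_le _

theorem one_le_gs (hbN : b ≤ N) : 1 ≤ gs N b b := by
  classical
  unfold gs
  rw [Nat.one_le_iff_ne_zero, ← Nat.pos_iff_ne_zero, card_pos]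
  refine ⟨fun _ => 0, mem_filter.2 ⟨mem_univ _, std_zero hbN, ?_, ?_⟩⟩
  · unfold stars
    rw [card_eq_zero, filter_eq_empty_iff]
    intro i _ h
    have h1 := congrArg Fin.val h
    simp at h1
  · unfold deg
    rw [filter_false_of_mem (fun i _ h => h rfl), card_empty, zero_add]

/-- A bound for the number of standard words without star in a range of degrees. -/
theorem S0_le {q : ℕ} (hq : b + q = N) {D D' : ℕ} {B : ℝ} (hB0 : 0 ≤ B)
    (hB : ∀ x ≤ b, b + q ≤ D' + x → (gs N b x : ℝ) ≤ B) :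
    (S0 N b D D' : ℝ) ≤ ((D' - D : ℕ) : ℝ) * B := by
  classical
  have hNb : N - b = q := by omega
  have h1 : S0 N b D D' = ∑ k ∈ Ioc D D', ((univ.filter fun s : Wd N b => Std s ∧ stars s = 0 ∧
      D < deg s + (N - b) ∧ deg s + (N - b) ≤ D').filter fun s => deg s + (N - b) = k).card := by
    unfold S0
    rw [← card_eq_sum_card_fiberwise (f := fun s : Wd N b => deg s + (N - b)) (t := Ioc D D')]
    · intro s hs
      obtain ⟨-, -, -, h3, h4⟩ := mem_filter.1 (mem_coe.1 hs)
      exact mem_coe.2 (mem_Ioc.2 ⟨h3, h4⟩)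
  rw [h1]
  push_cast
  calc ∑ k ∈ Ioc D D', (((univ.filter fun s : Wd N b => Std s ∧ stars s = 0 ∧
      D < deg s + (N - b) ∧ deg s + (N - b) ≤ D').filter fun s => deg s + (N - b) = k).card : ℝ)
      ≤ ∑ k ∈ Ioc D D', B := by
        refine sum_le_sum fun k hk => ?_
        obtain ⟨hk1, hk2⟩ := mem_Ioc.1 hk
        by_cases hk3 : q ≤ k ∧ k ≤ b + q
        · refine le_trans ?_ (hB (b + q - k) (by omega) (by omega))
          unfold gs
          refine Nat.cast_le.2 (card_le_card ?_)
          intro s hs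
          obtain ⟨h3, h4⟩ := mem_filter.1 hs
          obtain ⟨-, h5, h6, -⟩ := mem_filter.1 h3
          exact mem_filter.2 ⟨mem_univ _, h5, h6, by omega⟩
        · refine le_trans (le_of_eq ?_) hB0
          rw [Nat.cast_eq_zero, card_eq_zero, eq_empty_iff_forall_notMem]
          intro s hs
          obtain ⟨h3, h4⟩ := mem_filter.1 hs
          obtain ⟨-, h5, h6, -⟩ := mem_filter.1 h3
          have h7 := deg_le_of_good h5.1.1 h6
          exact hk3 ⟨by omega, by omega⟩
    _ = ((D' - D : ℕ) : ℝ) * B := by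
        rw [sum_const, Nat.card_Ioc, nsmul_eq_mul]

theorem gs_le_S0 {q : ℕ} (hq : b + q = N) (hq1 : 1 ≤ q) {x : ℕ} (hx : x ≤ b) :
    gs N b x ≤ S0 N b (b - x) (b - x + q) := by
  classical
  unfold gs S0
  refine card_le_card ?_
  intro s hs
  obtain ⟨-, h1, h2, h3⟩ := mem_filter.1 hs
  exact mem_filter.2 ⟨mem_univ _, h1, h2, by omega, by omega⟩

theorem S0_mono {D₁ D₂ D₁' D₂' : ℕ} (h : D₂ ≤ D₁) (h' : D₁' ≤ D₂') :
    S0 N b D₁ D₁' ≤ S0 N b D₂ D₂' := by
  classical
  unfold S0
  refine card_le_card ?_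
  intro s hs
  obtain ⟨-, h1, h2, h3, h4⟩ := mem_filter.1 hs
  exact mem_filter.2 ⟨mem_univ _, h1, h2, by omega, by omega⟩

theorem badc_mono {D D' : ℕ} (h : D ≤ D') : badc N b D ≤ badc N b D' := by
  classical
  unfold badc
  refine card_le_card ?_
  intro s hs
  obtain ⟨-, h1, h2⟩ := mem_filter.1 hs
  exact mem_filter.2 ⟨mem_univ _, h1, h2.trans h⟩

/-- The number of the bad words is small. -/
theorem badc_small {q A xs : ℕ} (hq : b + q = N) (hb : 1 ≤ b) (hA : 2 ≤ A) (hqA : 4 * A ^ 2 ≤ q)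
    (hxs : xs ≤ b)
    (hmax : ∀ x ≤ b, (gs N b x : ℝ) * Real.exp (1 / (A : ℝ) * x) ≤
      gs N b xs * Real.exp (1 / (A : ℝ) * xs))
    (hnum : 400 * (q : ℝ) * Real.log (N + 1) ≤ √b / (A : ℝ) ^ 3) :
    (badc N b (b - xs + A) : ℝ) ≤ Real.exp (-(3 * A)) * gs N b xs := by
  have hA0 : (0 : ℝ) < A := by
    have : 0 < A := by omega
    exact_mod_cast this
  have hA2 : (2 : ℝ) ≤ A := by exact_mod_cast hA
  have hqA' : 4 * (A : ℝ) ^ 2 ≤ q := by exact_mod_cast hqA
  have hb1 : (1 : ℝ) ≤ b := by exact_mod_cast hb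
  have hu : (0 : ℝ) < 1 / (A : ℝ) := by positivity
  have hu1 : 1 / (A : ℝ) ≤ 1 / 2 := one_div_le_one_div_of_le (by norm_num) hA2
  have h1 := YL.pi2_le hu hu1 hA0.le b q xs (fun x => (gs N b x : ℝ))
    (fun x _ => by exact_mod_cast pi1_le (by omega) x) hxs hmax
  obtain ⟨G, hG⟩ : ∃ G : ℝ, G = (gs N b xs : ℝ) := ⟨_, rfl⟩
  have hG0 : 0 ≤ G := by
    rw [hG]
    positivity
  have hN1 : (1 : ℝ) ≤ N + 1 := by
    have : (0 : ℝ) ≤ N := Nat.cast_nonneg N
    linarith
  -- the number of bad words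
  have h2 : (badc N b (b - xs + A) : ℝ) ≤ ((N : ℝ) + 1) ^ (2 * q) *
      ∑ x ∈ (range (b + 1)).filter (fun x : ℕ => (xs : ℝ) ≤ x + (A : ℝ)), (YL.pi2 b q x : ℝ) := by
    have h3 := badc_le_sum (N := N) (b := b) (by omega) (b - xs + A)
    have h5 : N - b = q := by omega
    rw [h5] at h3
    have h4 : ∑ x ∈ (range (b + 1)).filter (fun x => b ≤ b - xs + A + x), gq N b x ≤
        N ^ q * ∑ x ∈ (range (b + 1)).filter (fun x => b ≤ b - xs + A + x), YL.pi2 b q x := by
      rw [mul_sum]
      refine sum_le_sum fun x _ => ?_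
      have h6 := gq_le (N := N) (b := b) (by omega) x
      rwa [h5] at h6
    have h6 : (range (b + 1)).filter (fun x => b ≤ b - xs + A + x) ⊆
        (range (b + 1)).filter (fun x : ℕ => (xs : ℝ) ≤ x + (A : ℝ)) := by
      intro x hx
      obtain ⟨h7, h8⟩ := mem_filter.1 hx
      refine mem_filter.2 ⟨h7, ?_⟩
      have h9 : xs ≤ x + A := by omega
      exact_mod_cast h9
    have h7 : (badc N b (b - xs + A) : ℝ) ≤ ((N : ℝ) + 1) ^ q * ((N : ℝ) ^ q *
        ∑ x ∈ (range (b + 1)).filter (fun x => b ≤ b - xs + A + x), (YL.pi2 b q x : ℝ)) := by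
      have h8 : badc N b (b - xs + A) ≤ (N + 1) ^ q * (N ^ q *
          ∑ x ∈ (range (b + 1)).filter (fun x => b ≤ b - xs + A + x), YL.pi2 b q x) :=
        h3.trans (Nat.mul_le_mul_left _ h4)
      exact_mod_cast h8
    have h8 : ∑ x ∈ (range (b + 1)).filter (fun x => b ≤ b - xs + A + x), (YL.pi2 b q x : ℝ) ≤
        ∑ x ∈ (range (b + 1)).filter (fun x : ℕ => (xs : ℝ) ≤ x + (A : ℝ)), (YL.pi2 b q x : ℝ) :=
      sum_le_sum_of_subset_of_nonneg h6 fun _ _ _ => Nat.cast_nonneg _
    refine h7.trans ?_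
    rw [← mul_assoc, show 2 * q = q + q by ring, pow_add]
    have h9 : ((N : ℝ)) ^ q ≤ ((N : ℝ) + 1) ^ q :=
      pow_le_pow_left₀ (Nat.cast_nonneg N) (by linarith) q
    gcongr
  -- the exponents
  obtain ⟨Λ, hΛ⟩ : ∃ Λ : ℝ, Λ = Real.log (N + 1) := ⟨_, rfl⟩
  have hq0 : (1 : ℝ) ≤ q := by nlinarith
  have hNr : (3 : ℝ) ≤ N + 1 := by
    have h3 : 3 ≤ N + 1 := by
      have : 4 * A ^ 2 ≤ N := by omega
      nlinarith
    exact_mod_cast h3
  have hΛ1 : 1 ≤ Λ := by
    rw [hΛ, Real.le_log_iff_exp_le (by linarith)]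
    have := Real.exp_one_lt_d9
    linarith
  have hbN : (b : ℝ) + 1 ≤ N + 1 := by
    have : b ≤ N := by omega
    have : (b : ℝ) ≤ N := by exact_mod_cast this
    linarith
  have hexpΛ : Real.exp Λ = N + 1 := by
    rw [hΛ, Real.exp_log (by linarith)]
  have e1 : ((N : ℝ) + 1) ^ (2 * q) = Real.exp (2 * q * Λ) := by
    rw [← hexpΛ, ← Real.exp_nat_mul]
    congr 1
    push_cast
    ring
  have e2 : (b : ℝ) + 1 ≤ Real.exp Λ := by
    rw [hexpΛ]
    exact hbN
  have e3 : (200 : ℝ) ≤ Real.exp 6 := by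
    have h3 : (2.7 : ℝ) < Real.exp 1 := lt_trans (by norm_num) Real.exp_one_gt_d9
    have h4 : Real.exp 6 = Real.exp 1 ^ 6 := by
      rw [← Real.exp_nat_mul]
      congr 1
      norm_num
    rw [h4]
    calc (200 : ℝ) ≤ 2.7 ^ 6 := by norm_num
      _ ≤ Real.exp 1 ^ 6 := pow_le_pow_left₀ (by norm_num) h3.le 6
  have e4 : (√b + 1) ^ 3 ≤ Real.exp (3 * Λ) := by
    have h3 : √(b : ℝ) ≤ b := by
      rw [Real.sqrt_le_left (by linarith)]
      nlinarith
    have h4 : √(b : ℝ) + 1 ≤ Real.exp Λ := by linarith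
    calc (√(b : ℝ) + 1) ^ 3 ≤ Real.exp Λ ^ 3 := pow_le_pow_left₀ (by positivity) h4 3
      _ = Real.exp (3 * Λ) := by
        rw [← Real.exp_nat_mul]
        congr 1
  have h3 : (badc N b (b - xs + A) : ℝ) ≤ Real.exp (2 * q * Λ) *
      (Real.exp Λ * (Real.exp 6 * Real.exp (3 * Λ)) *
        Real.exp (1 / (A : ℝ) * q / 2 + 1 / (A : ℝ) * A - (1 / (A : ℝ)) ^ 3 * √b / 16) * G) := by
    refine h2.trans ?_
    rw [← e1]
    refine mul_le_mul_of_nonneg_left ?_ (by positivity)
    refine h1.trans ?_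
    rw [← hG]
    gcongr
  refine h3.trans ?_
  rw [← hG, ← mul_assoc, ← Real.exp_add, ← Real.exp_add, ← Real.exp_add, ← Real.exp_add]
  refine mul_le_mul_of_nonneg_right (Real.exp_le_exp.2 ?_) hG0
  have h4 : 1 / (A : ℝ) * A = 1 := by field_simp
  have h5 : (1 / (A : ℝ)) ^ 3 * √b / 16 ≥ 25 * (q * Λ) := by
    have h6 : (1 / (A : ℝ)) ^ 3 * √b / 16 = √b / (A : ℝ) ^ 3 / 16 := by
      rw [one_div, inv_pow]
      field_simp
    rw [h6, hΛ]
    linarith
  have h6 : 1 / (A : ℝ) * q / 2 ≤ q := by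
    have h7 : 1 / (A : ℝ) * q ≤ 1 * q :=
      mul_le_mul_of_nonneg_right (by linarith) (by linarith)
    linarith
  have h7 : (A : ℝ) ≤ q := by nlinarith
  have h8 : (q : ℝ) ≤ q * Λ := le_mul_of_one_le_right (by linarith) hΛ1
  have h9 : Λ ≤ q * Λ := le_mul_of_one_le_left (by linarith) hq0
  rw [h4]
  linarith

/-- The numbers of the world of the pigeonhole principle. -/
theorem exists_bounds {K : Type} [Field K] {q A : ℕ} (hq : b + q = N) (hb : 1 ≤ b) (hA : 2 ≤ A)
    (hqA : 4 * A ^ 2 ≤ q) (hQ : QK K q)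
    (hnum : 400 * (q : ℝ) * Real.log (N + 1) ≤ √b / (A : ℝ) ^ 3) :
    ∃ (D₀ τ : ℕ) (w : ℝ), 1 / 2 ≤ w ∧ (τ : ℝ) ≤ Real.exp (-A) * w ∧
      GW.Bounds (fun a => FF K N b (D₀ + a)) (fun a => YY K N b (D₀ + a)) A τ (6 * q) w ∧
      (Module.finrank K (YY K N b D₀) : ℝ) + w ≤ Module.finrank K (FF K N b D₀) := by
  have hA0 : (0 : ℝ) < A := by
    have : 0 < A := by omega
    exact_mod_cast this
  have hA2 : (2 : ℝ) ≤ A := by exact_mod_cast hA
  have hqA' : 4 * (A : ℝ) ^ 2 ≤ q := by exact_mod_cast hqA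
  have hq1 : 1 ≤ q := by nlinarith
  have hbN : b < N := by omega
  have hNb : N - b = q := by omega
  have hcard := card_std_perm N
  -- the maximum
  obtain ⟨xs, hxs, hmax⟩ := exists_max_image (range (b + 1))
    (fun x => (gs N b x : ℝ) * Real.exp (1 / (A : ℝ) * x)) ⟨0, mem_range.2 (by omega)⟩
  have hxs' : xs ≤ b := by
    have := mem_range.1 hxs
    omega
  have hmax' : ∀ x ≤ b, (gs N b x : ℝ) * Real.exp (1 / (A : ℝ) * x) ≤
      gs N b xs * Real.exp (1 / (A : ℝ) * xs) := fun x hx => hmax x (mem_range.2 (by omega))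
  have hbad := badc_small hq hb hA hqA hxs' hmax' hnum
  obtain ⟨G, hG⟩ : ∃ G : ℝ, G = (gs N b xs : ℝ) := ⟨_, rfl⟩
  have hG1 : 1 ≤ G := by
    have h1 := hmax' b le_rfl
    have h2 : (1 : ℝ) ≤ gs N b b := by exact_mod_cast one_le_gs (N := N) (b := b) (by omega)
    have h3 : (0 : ℝ) < gs N b xs := by
      by_contra hcon
      rw [not_lt] at hcon
      have h4 : (gs N b xs : ℝ) * Real.exp (1 / (A : ℝ) * xs) ≤ 0 :=
        mul_nonpos_of_nonpos_of_nonneg hcon (Real.exp_pos _).le
      have h5 : 0 < (gs N b b : ℝ) * Real.exp (1 / (A : ℝ) * b) := by positivity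
      linarith
    rw [hG]
    have h4 : 0 < gs N b xs := by exact_mod_cast h3
    exact_mod_cast h4
  have hgx : ∀ x ≤ b, (gs N b x : ℝ) ≤ G * Real.exp (1 / (A : ℝ) * ((xs : ℝ) - x)) := by
    intro x hx
    have h1 := hmax' x hx
    rw [← hG] at h1
    have h2 : Real.exp (1 / (A : ℝ) * ((xs : ℝ) - x)) =
        Real.exp (1 / (A : ℝ) * xs) / Real.exp (1 / (A : ℝ) * x) := by
      rw [← Real.exp_sub]
      congr 1
      ring
    rw [h2, ← mul_div_assoc, le_div_iff₀ (Real.exp_pos _)]
    exact h1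
  obtain ⟨D₀, hD₀⟩ : ∃ D₀ : ℕ, D₀ = b - xs := ⟨_, rfl⟩
  rw [← hD₀, ← hG] at hbad
  have hG0 : 0 ≤ G := by linarith
  -- the defect
  have hS : (S0 N b D₀ (D₀ + A) : ℝ) ≤ A * (G * Real.exp (1 - 4 * A)) := by
    have h1 := S0_le hq (D := D₀) (D' := D₀ + A)
      (B := G * Real.exp (1 - 4 * A)) (by positivity) (fun x hx hx' => by
        refine (hgx x hx).trans (mul_le_mul_of_nonneg_left (Real.exp_le_exp.2 ?_) hG0)
        have h2 : xs + q ≤ x + A := by omega
        have h3 : (xs : ℝ) + q ≤ x + A := by exact_mod_cast h2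
        have h4 : (xs : ℝ) - x ≤ A - 4 * (A : ℝ) ^ 2 := by linarith
        calc 1 / (A : ℝ) * ((xs : ℝ) - x) ≤ 1 / (A : ℝ) * (A - 4 * (A : ℝ) ^ 2) :=
              mul_le_mul_of_nonneg_left h4 (by positivity)
          _ = 1 - 4 * A := by
            field_simp)
    rwa [Nat.add_sub_cancel_left] at h1
  have hdim : ∀ e ≤ A, (S0 N b (D₀ + e) (D₀ + e + q) : ℝ) ≤ q * (G * 3) := by
    intro e he
    have h1 := S0_le hq (D := D₀ + e) (D' := D₀ + e + q)
      (B := G * 3) (by positivity) (fun x hx hx' => by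
        refine (hgx x hx).trans (mul_le_mul_of_nonneg_left ?_ hG0)
        have h2 : xs ≤ x + A := by omega
        have h3 : (xs : ℝ) ≤ x + A := by exact_mod_cast h2
        have h4 : (xs : ℝ) - x ≤ A := by linarith
        have h5 : 1 / (A : ℝ) * ((xs : ℝ) - x) ≤ 1 := by
          calc 1 / (A : ℝ) * ((xs : ℝ) - x) ≤ 1 / (A : ℝ) * A :=
                mul_le_mul_of_nonneg_left h4 (by positivity)
            _ = 1 := by field_simp
        have h6 := Real.exp_one_lt_d9
        have h7 := Real.exp_le_exp.2 h5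
        linarith)
    rwa [Nat.add_sub_cancel_left] at h1
  -- the numbers
  have hexpA : Real.exp (-(3 * (A : ℝ))) ≤ Real.exp (-A) / 4 := by
    have h1 : Real.exp (-(3 * (A : ℝ))) = Real.exp (-A) * Real.exp (-(2 * A)) := by
      rw [← Real.exp_add]
      congr 1
      ring
    have h2 : Real.exp (-(2 * (A : ℝ))) ≤ 1 / 4 := by
      have h3 : Real.exp (-(2 * (A : ℝ))) = (Real.exp (2 * A))⁻¹ := Real.exp_neg _
      have h4 : (4 : ℝ) ≤ Real.exp (2 * A) := by
        have := Real.add_one_le_exp (2 * (A : ℝ))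
        linarith
      rw [h3, one_div]
      exact inv_anti₀ (by norm_num) h4
    rw [h1]
    calc Real.exp (-(A : ℝ)) * Real.exp (-(2 * A)) ≤ Real.exp (-(A : ℝ)) * (1 / 4) :=
          mul_le_mul_of_nonneg_left h2 (Real.exp_pos _).le
      _ = Real.exp (-A) / 4 := by ring
  have hexpB : (A : ℝ) * Real.exp (1 - 4 * A) ≤ Real.exp (-A) / 4 := by
    have h1 : Real.exp (1 - 4 * (A : ℝ)) = Real.exp (-A) * Real.exp (-(3 * A - 1)) := by
      rw [← Real.exp_add]
      congr 1
      ring
    have h2 : (A : ℝ) * Real.exp (-(3 * A - 1)) ≤ 1 / 4 := by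
      have h3 : Real.exp (-(3 * (A : ℝ) - 1)) = (Real.exp (3 * A - 1))⁻¹ := Real.exp_neg _
      have h4 : 4 * (A : ℝ) ≤ Real.exp (3 * A - 1) := by
        have h5 := Real.quadratic_le_exp_of_nonneg (show (0 : ℝ) ≤ 3 * A - 1 by linarith)
        nlinarith
      rw [h3, ← div_eq_mul_inv, div_le_iff₀ (Real.exp_pos _)]
      linarith
    rw [h1]
    calc (A : ℝ) * (Real.exp (-(A : ℝ)) * Real.exp (-(3 * A - 1))) =
          Real.exp (-(A : ℝ)) * (A * Real.exp (-(3 * A - 1))) := by ring
      _ ≤ Real.exp (-(A : ℝ)) * (1 / 4) := mul_le_mul_of_nonneg_left h2 (Real.exp_pos _).le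
      _ = Real.exp (-A) / 4 := by ring
  have hexpA1 : Real.exp (-(A : ℝ)) ≤ 1 := Real.exp_le_one_iff.2 (by linarith)
  refine ⟨D₀, S0 N b D₀ (D₀ + A) + badc N b (D₀ + A), G / 2, by linarith, ?_, ⟨?_, ?_⟩, ?_⟩
  · push_cast
    have h1 : (A : ℝ) * (G * Real.exp (1 - 4 * A)) ≤ Real.exp (-A) / 4 * G := by
      calc (A : ℝ) * (G * Real.exp (1 - 4 * A)) = A * Real.exp (1 - 4 * A) * G := by ring
        _ ≤ Real.exp (-A) / 4 * G := mul_le_mul_of_nonneg_right hexpB hG0
    have h2 : Real.exp (-(3 * (A : ℝ))) * G ≤ Real.exp (-A) / 4 * G :=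
      mul_le_mul_of_nonneg_right hexpA hG0
    linarith
  · intro e j hej hjA
    have h1 := defect_le (K := K) hbN (hNb.symm ▸ hQ) hcard
      (show D₀ + e ≤ D₀ + j by omega)
    have h2 := S0_mono (N := N) (b := b) (show D₀ ≤ D₀ + e by omega)
      (show D₀ + j ≤ D₀ + A by omega)
    have h3 := badc_mono (N := N) (b := b) (show D₀ + j ≤ D₀ + A by omega)
    refine h1.trans ?_
    omega
  · intro e he
    have h1 := dim_le (K := K) hbN (D₀ + e)
    rw [hNb] at h1
    have h2 : (Module.finrank K (FF K N b (D₀ + e)) : ℝ) ≤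
        Module.finrank K (YY K N b (D₀ + e)) + S0 N b (D₀ + e) (D₀ + e + q) := by
      exact_mod_cast h1
    have h3 := hdim e he
    have h4 : (q : ℝ) * (G * 3) = 6 * q * (G / 2) := by ring
    linarith
  · have h1 := le_dim (K := K) hbN (hNb.symm ▸ hQ) hcard D₀
    rw [hNb] at h1
    have h2 : (Module.finrank K (YY K N b D₀) : ℝ) + S0 N b D₀ (D₀ + q) ≤
        Module.finrank K (FF K N b D₀) + badc N b D₀ := by
      exact_mod_cast h1
    have h3 := gs_le_S0 hq hq1 hxs'
    rw [← hD₀] at h3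
    have h4 : G ≤ S0 N b D₀ (D₀ + q) := by
      rw [hG]
      exact_mod_cast h3
    have h5 : (badc N b D₀ : ℝ) ≤ badc N b (D₀ + A) := by
      exact_mod_cast badc_mono (Nat.le_add_right _ _)
    have h6 : Real.exp (-(3 * (A : ℝ))) * G ≤ 1 / 4 * G :=
      mul_le_mul_of_nonneg_right (by linarith) hG0
    linarith

end Pool.Agent.MP_9cec2c_lc.PF
end

section

/-!
Graded worlds: levels `M a` and subspaces `Z a` of elements that count as zero. The
approximation of a disjunction by a product, up to an error that counts as zero on a large part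
of the world.
-/

set_option autoImplicit false
set_option linter.unusedSectionVars false

namespace Pool.Agent.MP_9cec2c_lc.GR

open Finset Frege

/-- A graded world of height `A`: the functions on the cube act on `W`, functions of degree at
most `e` map the level `M a` to the level `M (a + e)` and the space `Z a` of the elements of `M a`
that count as zero to `Z (a + e)`. -/
structure World {K V W : Type} [Field K] [AddCommGroup W] [Module K W]
    (M Z : ℕ → Submodule K W) (act : Fun K V →ₗ[K] W →ₗ[K] W) (A : ℕ) : Prop where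
  one : ∀ w : W, act 1 w = w
  mul : ∀ (P Q : Fun K V) (w : W), act (P * Q) w = act P (act Q w)
  mem : ∀ (a e : ℕ) (P : Fun K V) (w : W), a + e ≤ A → P ∈ Pol K V e → w ∈ M a →
    act P w ∈ M (a + e)
  zero : ∀ (a e : ℕ) (P : Fun K V) (w : W), a + e ≤ A → P ∈ Pol K V e → w ∈ Z a →
    act P w ∈ Z (a + e)
  le : ∀ a ≤ A, Z a ≤ M a

variable {K V W : Type} [Field K] [AddCommGroup W] [Module K W]
  {M Z : ℕ → Submodule K W} {act : Fun K V →ₗ[K] W →ₗ[K] W} {A : ℕ}

theorem World.mono (hW : World M Z act A) {a b : ℕ} (hab : a ≤ b) (hb : b ≤ A) : M a ≤ M b := by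
  intro w hw
  have h := hW.mem a (b - a) 1 w (by omega) (one_mem _) hw
  rw [hW.one w] at h
  rwa [Nat.add_sub_of_le hab] at h

theorem World.zmono (hW : World M Z act A) {a b : ℕ} (hab : a ≤ b) (hb : b ≤ A) : Z a ≤ Z b := by
  intro w hw
  have h := hW.zero a (b - a) 1 w (by omega) (one_mem _) hw
  rw [hW.one w] at h
  rwa [Nat.add_sub_of_le hab] at h

/-- The elements `w` of `M a` such that all `act (g i * h) w` lie in `Z n`. -/
def kern {β : Type} (M Z : ℕ → Submodule K W) (act : Fun K V →ₗ[K] W →ₗ[K] W)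
    (g : β → Fun K V) (h : Fun K V) (a n : ℕ) : Submodule K W :=
  M a ⊓ ⨅ i, (Z n).comap (act (g i * h))

theorem mem_kern {β : Type} {g : β → Fun K V} {h : Fun K V} {a n : ℕ} {w : W} :
    w ∈ kern M Z act g h a n ↔ w ∈ M a ∧ ∀ i, act (g i * h) w ∈ Z n := by
  unfold kern
  rw [Submodule.mem_inf, Submodule.mem_iInf]
  exact Iff.rfl

variable [FiniteDimensional K W]

/-- The rank of the maps `act (g i * h)` on the level `a`, modulo `Z n`. -/
noncomputable def rk {β : Type} (M Z : ℕ → Submodule K W) (act : Fun K V →ₗ[K] W →ₗ[K] W)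
    (g : β → Fun K V) (h : Fun K V) (a n : ℕ) : ℝ :=
  Module.finrank K (M a) - Module.finrank K (kern M Z act g h a n)

theorem rk_nonneg {β : Type} (g : β → Fun K V) (h : Fun K V) (a n : ℕ) :
    0 ≤ rk M Z act g h a n := by
  unfold rk
  rw [sub_nonneg]
  exact_mod_cast Submodule.finrank_mono (inf_le_left (a := M a))

variable [Fintype K] {β : Type} [Fintype β] [DecidableEq β]

theorem rk_le (hW : World M Z act A) {g : β → Fun K V} {h : Fun K V} {s t a : ℕ}
    (hg : ∀ i, g i ∈ Pol K V t) (hh : h ∈ Pol K V s) (hA : a + (t + s) ≤ A) :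
    rk M Z act g h a (a + (t + s)) ≤ Module.finrank K (M a) - Module.finrank K (Z a) := by
  unfold rk
  have h1 : Z a ≤ kern M Z act g h a (a + (t + s)) := by
    intro w hw
    rw [mem_kern]
    exact ⟨hW.le a (by omega) hw, fun i => hW.zero a _ _ w hA (mul_mem (hg i) hh) hw⟩
  have h2 : (Module.finrank K (Z a) : ℝ) ≤
      Module.finrank K (kern M Z act g h a (a + (t + s))) := by
    exact_mod_cast Submodule.finrank_mono h1
  linarith

/-- Multiplication by `cf q` does not increase the rank. -/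
theorem rk_mul_le (hW : World M Z act A) {g : β → Fun K V} {h q : Fun K V} {s t a : ℕ}
    (hq : q ∈ Pol K V t) (hA : a + (t + s) + (Fintype.card K - 1) * t ≤ A) :
    rk M Z act g (h * cf q) a (a + (t + (s + (Fintype.card K - 1) * t))) ≤
      rk M Z act g h a (a + (t + s)) := by
  unfold rk
  have h1 : kern M Z act g h a (a + (t + s)) ≤
      kern M Z act g (h * cf q) a (a + (t + (s + (Fintype.card K - 1) * t))) := by
    intro w hw
    rw [mem_kern] at hw ⊢
    refine ⟨hw.1, fun i => ?_⟩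
    have h2 : g i * (h * cf q) = cf q * (g i * h) := by ring
    have h3 := hW.zero _ _ _ _ hA (cf_mem hq) (hw.2 i)
    rw [← hW.mul, ← h2] at h3
    have h4 : a + (t + (s + (Fintype.card K - 1) * t)) =
        a + (t + s) + (Fintype.card K - 1) * t := by ring
    rw [h4]
    exact h3
  have h2 : (Module.finrank K (kern M Z act g h a (a + (t + s))) : ℝ) ≤ Module.finrank K
      (kern M Z act g (h * cf q) a (a + (t + (s + (Fintype.card K - 1) * t)))) := by
    exact_mod_cast Submodule.finrank_mono h1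
  linarith

/-- The rank drops when the functions are multiplied by `cf q`. -/
theorem rk_drop (hW : World M Z act A) {g : β → Fun K V} {h q : Fun K V} {s t a : ℕ}
    (hq : q ∈ Pol K V t) (hA : a + t + (t + s) + (Fintype.card K - 1) * t ≤ A) :
    rk M Z act g (h * cf q) (a + t) (a + t + (t + (s + (Fintype.card K - 1) * t))) +
      rk M Z act g (h * q) a (a + (t + (s + t))) ≤
      rk M Z act g h (a + t) (a + t + (t + s)) := by
  obtain ⟨Kc, hKc⟩ : ∃ Kc, Kc = kern M Z act g (h * cf q) (a + t)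
    (a + t + (t + (s + (Fintype.card K - 1) * t))) := ⟨_, rfl⟩
  obtain ⟨Kh, hKh⟩ : ∃ Kh, Kh = kern M Z act g h (a + t) (a + t + (t + s)) := ⟨_, rfl⟩
  obtain ⟨Kq, hKq⟩ : ∃ Kq, Kq = kern M Z act g (h * q) a (a + (t + (s + t))) := ⟨_, rfl⟩
  have h1 : Kh ≤ Kc := by
    intro w hw
    rw [hKh, mem_kern] at hw
    rw [hKc, mem_kern]
    refine ⟨hw.1, fun i => ?_⟩
    have h2 : g i * (h * cf q) = cf q * (g i * h) := by ring
    have h3 := hW.zero _ _ _ _ hA (cf_mem hq) (hw.2 i)
    rw [← hW.mul, ← h2] at h3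
    have h4 : a + t + (t + (s + (Fintype.card K - 1) * t)) =
        a + t + (t + s) + (Fintype.card K - 1) * t := by ring
    rw [h4]
    exact h3
  have h2 : (M a).map (act q) ≤ Kc := by
    rintro _ ⟨w, hw, rfl⟩
    rw [hKc, mem_kern]
    refine ⟨hW.mem a t q w (by omega) hq hw, fun i => ?_⟩
    have h3 : g i * (h * cf q) * q = 0 := by
      calc g i * (h * cf q) * q = g i * h * (cf q * q) := by ring
        _ = 0 := by rw [cf_mul_self, mul_zero]
    rw [← hW.mul, h3, map_zero, LinearMap.zero_apply]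
    exact Submodule.zero_mem _
  have h3 : Kq = M a ⊓ Kh.comap (act q) := by
    ext w
    rw [hKq, mem_kern, Submodule.mem_inf, Submodule.mem_comap, hKh, mem_kern]
    have h4 : a + (t + (s + t)) = a + t + (t + s) := by ring
    rw [h4]
    constructor
    · rintro ⟨hw, h5⟩
      refine ⟨hw, hW.mem a t q w (by omega) hq hw, fun i => ?_⟩
      rw [← hW.mul, mul_assoc]
      exact h5 i
    · rintro ⟨hw, -, h5⟩
      refine ⟨hw, fun i => ?_⟩
      have h6 := h5 i
      rwa [← hW.mul, mul_assoc] at h6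
  have h4 := finrank_map_add (M a) (act q)
  have h5 := finrank_map_add Kq (act q)
  have h6 : Kq ⊓ LinearMap.ker (act q) = M a ⊓ LinearMap.ker (act q) := by
    ext w
    constructor
    · rintro ⟨hw1, hw2⟩
      rw [h3] at hw1
      exact ⟨hw1.1, hw2⟩
    · rintro ⟨hw1, hw2⟩
      refine ⟨?_, hw2⟩
      rw [h3]
      refine ⟨hw1, ?_⟩
      rw [SetLike.mem_coe, LinearMap.mem_ker] at hw2
      show act q w ∈ Kh
      rw [hw2]
      exact Submodule.zero_mem _
  have h7 : Kq.map (act q) = Kh ⊓ (M a).map (act q) := by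
    ext y
    constructor
    · rintro ⟨w, hw, rfl⟩
      rw [h3] at hw
      exact ⟨hw.2, Submodule.mem_map_of_mem hw.1⟩
    · rintro ⟨hy, w, hw, rfl⟩
      refine ⟨w, ?_, rfl⟩
      rw [h3]
      exact ⟨hw, hy⟩
  have h8 := Submodule.finrank_sup_add_finrank_inf_eq Kh ((M a).map (act q))
  have h9 := Submodule.finrank_mono (sup_le h1 h2)
  rw [h6, h7] at h5
  unfold rk
  rw [← hKc, ← hKh, ← hKq]
  have h10 : Module.finrank K Kh + Module.finrank K (M a) ≤
      Module.finrank K Kc + Module.finrank K Kq := by omega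
  have h11 : (Module.finrank K Kh : ℝ) + Module.finrank K (M a) ≤
      Module.finrank K Kc + Module.finrank K Kq := by exact_mod_cast h10
  linarith

/-- The halving lemma for graded worlds. -/
theorem rk_half (hW : World M Z act A) {τ : ℕ} (hdef : ∀ a ≤ A,
      Module.finrank K (M a ⊓ Z A : Submodule K W) ≤ Module.finrank K (Z a) + τ)
    {g : β → Fun K V} {h : Fun K V} {s t a : ℕ}
    (hg : ∀ i, g i ∈ Pol K V t) (hb : ∀ i, Bin (g i)) (hh : h ∈ Pol K V s)
    (hA : a + (t + (s + t)) ≤ A) :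
    (Fintype.card (β → K) : ℝ) * (rk M Z act g h a (a + (t + s)) - Fintype.card β * τ) ≤
      2 * ∑ c : β → K, rk M Z act g (h * rcomb g c) a (a + (t + (s + t))) := by
  obtain ⟨S, hS⟩ : ∃ S : β → β → W →ₗ[K] (W ⧸ Z (a + (t + (s + t)))), S = fun j i =>
    (Z (a + (t + (s + t)))).mkQ.comp (act (g j * (g i * h))) := ⟨_, rfl⟩
  obtain ⟨D, hD⟩ : ∃ D : β → Submodule K W, D = fun j =>
    (Z (a + (t + s))).comap (act (g j * h)) := ⟨_, rfl⟩
  have hS0 : ∀ j i w, S j i w = 0 ↔ act (g j * (g i * h)) w ∈ Z (a + (t + (s + t))) := by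
    intro j i w
    rw [hS]
    show (Z (a + (t + (s + t)))).mkQ (act (g j * (g i * h)) w) = 0 ↔ _
    rw [Submodule.mkQ_apply, Submodule.Quotient.mk_eq_zero]
  have hD0 : ∀ j w, w ∈ D j ↔ act (g j * h) w ∈ Z (a + (t + s)) := by
    intro j w
    rw [hD]
    exact Iff.rfl
  have hlev : a + (t + (s + t)) = a + (t + s) + t := by ring
  have h1 := halving S D τ univ (M a) ?_ ?_
  · have h2 : (M a ⊓ ⨅ j ∈ (univ : Finset β), D j : Submodule K W) =
        kern M Z act g h a (a + (t + s)) := by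
      unfold kern
      rw [hD]
      congr 1
      simp
    have h3 : ∀ c : β → K, Module.finrank K ((M a).map (comb S univ c)) +
        Module.finrank K (kern M Z act g (h * rcomb g c) a (a + (t + (s + t)))) =
        Module.finrank K (M a) := by
      intro c
      have h4 := finrank_map_add (M a) (comb S univ c)
      have h5 : M a ⊓ LinearMap.ker (comb S univ c) =
          kern M Z act g (h * rcomb g c) a (a + (t + (s + t))) := by
        ext w
        rw [Submodule.mem_inf, LinearMap.mem_ker, comb_eq_zero, mem_kern]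
        refine and_congr Iff.rfl ⟨fun h5 i => ?_, fun h5 i _ => ?_⟩
        · have h6 := h5 i (mem_univ i)
          rw [hS] at h6
          have h7 : ∑ j ∈ univ, c j • ((Z (a + (t + (s + t)))).mkQ.comp
              (act (g j * (g i * h)))) w =
              (Z (a + (t + (s + t)))).mkQ (act (g i * (h * rcomb g c)) w) := by
            have h8 : g i * (h * rcomb g c) = ∑ j, c j • (g j * (g i * h)) := by
              unfold rcomb
              rw [mul_sum, mul_sum]
              refine sum_congr rfl fun j _ => ?_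
              rw [mul_smul_comm, mul_smul_comm]
              congr 1
              ring
            rw [h8, map_sum, LinearMap.sum_apply, map_sum]
            refine sum_congr rfl fun j _ => ?_
            rw [map_smul, LinearMap.smul_apply, map_smul]
            rfl
          rw [h7, Submodule.mkQ_apply, Submodule.Quotient.mk_eq_zero] at h6
          exact h6
        · rw [hS]
          have h7 : ∑ j ∈ univ, c j • ((Z (a + (t + (s + t)))).mkQ.comp
              (act (g j * (g i * h)))) w =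
              (Z (a + (t + (s + t)))).mkQ (act (g i * (h * rcomb g c)) w) := by
            have h8 : g i * (h * rcomb g c) = ∑ j, c j • (g j * (g i * h)) := by
              unfold rcomb
              rw [mul_sum, mul_sum]
              refine sum_congr rfl fun j _ => ?_
              rw [mul_smul_comm, mul_smul_comm]
              congr 1
              ring
            rw [h8, map_sum, LinearMap.sum_apply, map_sum]
            refine sum_congr rfl fun j _ => ?_
            rw [map_smul, LinearMap.smul_apply, map_smul]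
            rfl
          rw [h7, Submodule.mkQ_apply, Submodule.Quotient.mk_eq_zero]
          exact h5 i
      rw [h5] at h4
      exact h4
    rw [h2, card_univ] at h1
    have h4 : ∑ c : β → K, rk M Z act g (h * rcomb g c) a (a + (t + (s + t))) =
        ∑ c : β → K, (Module.finrank K ((M a).map (comb S univ c)) : ℝ) := by
      refine sum_congr rfl fun c _ => ?_
      unfold rk
      have h5 := h3 c
      have h6 : (Module.finrank K ((M a).map (comb S univ c)) : ℝ) +
        Module.finrank K (kern M Z act g (h * rcomb g c) a (a + (t + (s + t)))) =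
        Module.finrank K (M a) := by exact_mod_cast h5
      linarith
    rw [h4]
    unfold rk
    have h5 : (Fintype.card (β → K) : ℝ) * Module.finrank K (M a) ≤
        Fintype.card (β → K) * Module.finrank K (kern M Z act g h a (a + (t + s))) +
        2 * ∑ c : β → K, (Module.finrank K ((M a).map (comb S univ c)) : ℝ) +
        Fintype.card (β → K) * (Fintype.card β * τ) := by exact_mod_cast h1
    linarith
  · intro x hx j hxj i
    rw [hD0] at hxj
    have h2 : act (g i * (g j * h)) x ∈ Z (a + (t + (s + t))) := by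
      rw [hW.mul, hlev]
      exact hW.zero _ _ _ _ (by omega) (hg i) hxj
    rw [hS0, hS0]
    refine ⟨?_, h2⟩
    have h3 : g j * (g i * h) = g i * (g j * h) := by ring
    rw [h3]
    exact h2
  · intro j
    have h2 : LinearMap.ker (S j j) = (Z (a + (t + (s + t)))).comap (act (g j * h)) := by
      ext w
      rw [LinearMap.mem_ker, hS0, Submodule.mem_comap, ← mul_assoc, (hb j).mul_self]
    rw [h2, hD]
    refine comap_defect (act (g j * h)) (M a) (M' := M (a + (t + s)))
      (fun x hx => hW.mem a _ _ x (by omega) (mul_mem (hg j) hh) hx)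
      (hW.zmono (by omega) hA) (hW.le _ (by omega)) ?_
    refine le_trans (Submodule.finrank_mono (inf_le_inf_left _ (hW.zmono hA le_rfl)))
      (hdef _ (by omega))

/-! ### The potential -/

/-- The potential: a weighted sum of the ranks on the levels `0, t, ..., m t`. -/
noncomputable def pot (M Z : ℕ → Submodule K W) (act : Fun K V →ₗ[K] W →ₗ[K] W)
    (g : β → Fun K V) (s t m : ℕ) (h : Fun K V) : ℝ :=
  ∑ j ∈ range (m + 1), rk M Z act g h (j * t) (j * t + (t + s)) / 2 ^ j

theorem pot_step (hW : World M Z act A) {τ : ℕ} (hdef : ∀ a ≤ A,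
      Module.finrank K (M a ⊓ Z A : Submodule K W) ≤ Module.finrank K (Z a) + τ)
    {g : β → Fun K V} {h : Fun K V} {s t m : ℕ}
    (hg : ∀ i, g i ∈ Pol K V t) (hb : ∀ i, Bin (g i)) (hh : h ∈ Pol K V s)
    (hA : m * t + (t + s) + (Fintype.card K - 1) * t ≤ A) :
    ∃ c : β → K, pot M Z act g (s + (Fintype.card K - 1) * t) t m (h * cf (rcomb g c)) ≤
      3 / 4 * pot M Z act g s t m h +
        1 / 4 * (rk M Z act g h (m * t) (m * t + (t + s)) / 2 ^ m) +
        Fintype.card β * τ / 2 := by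
  have hqt : ∀ c : β → K, rcomb g c ∈ Pol K V t := fun c =>
    Submodule.sum_mem _ fun i _ => Submodule.smul_mem _ _ (hg i)
  have hct : t ≤ (Fintype.card K - 1) * t := Nat.le_mul_of_pos_left t card_sub_pos
  have hlev : ∀ j ≤ m, j * t ≤ m * t := fun j hj => Nat.mul_le_mul_right t hj
  obtain ⟨D, hD⟩ : ∃ D : ℕ → (β → K) → ℝ, D = fun j c =>
    rk M Z act g (h * rcomb g c) (j * t) (j * t + (t + (s + t))) := ⟨_, rfl⟩
  obtain ⟨R, hR⟩ : ∃ R : ℕ → ℝ, R = fun j => rk M Z act g h (j * t) (j * t + (t + s)) := ⟨_, rfl⟩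
  obtain ⟨b, hb'⟩ : ∃ b : ℝ, b = Fintype.card β * τ := ⟨_, rfl⟩
  have hb0 : 0 ≤ b := by rw [hb']; positivity
  -- one choice
  have h1 : ∀ c, pot M Z act g (s + (Fintype.card K - 1) * t) t m (h * cf (rcomb g c)) +
      ∑ j ∈ range m, D j c / 2 ^ (j + 1) ≤ pot M Z act g s t m h := by
    intro c
    unfold pot
    rw [sum_range_succ', sum_range_succ' (fun j => rk M Z act g h (j * t) (j * t + (t + s)) /
      2 ^ j)]
    have h2 : rk M Z act g (h * cf (rcomb g c)) (0 * t)
        (0 * t + (t + (s + (Fintype.card K - 1) * t))) / 2 ^ 0 ≤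
        rk M Z act g h (0 * t) (0 * t + (t + s)) / 2 ^ 0 := by
      refine div_le_div_of_nonneg_right ?_ (by positivity)
      exact rk_mul_le hW (hqt c) (by omega)
    have h3 : ∑ j ∈ range m, rk M Z act g (h * cf (rcomb g c)) ((j + 1) * t)
        ((j + 1) * t + (t + (s + (Fintype.card K - 1) * t))) / 2 ^ (j + 1) +
        ∑ j ∈ range m, D j c / 2 ^ (j + 1) ≤
        ∑ j ∈ range m, rk M Z act g h ((j + 1) * t) ((j + 1) * t + (t + s)) / 2 ^ (j + 1) := by
      rw [← sum_add_distrib]
      refine sum_le_sum fun j hj => ?_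
      rw [← add_div]
      refine div_le_div_of_nonneg_right ?_ (by positivity)
      have hjm := hlev (j + 1) (mem_range.1 hj)
      have h4 : (j + 1) * t = j * t + t := by ring
      rw [h4] at hjm ⊢
      rw [hD]
      exact rk_drop hW (a := j * t) (hqt c) (by omega)
    linarith
  -- the average
  have h2 : ∀ j < m, (Fintype.card (β → K) : ℝ) * (R j - b) ≤ 2 * ∑ c, D j c := by
    intro j hj
    have hjm := hlev (j + 1) hj
    have h4 : (j + 1) * t = j * t + t := by ring
    rw [h4] at hjm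
    rw [hR, hD, hb']
    exact rk_half hW hdef (a := j * t) hg hb hh (by omega)
  have hN : (0 : ℝ) < Fintype.card (β → K) := by
    exact_mod_cast Fintype.card_pos
  by_contra hcon
  push Not at hcon
  have h3 : ∑ _c : β → K, (3 / 4 * pot M Z act g s t m h +
        1 / 4 * (rk M Z act g h (m * t) (m * t + (t + s)) / 2 ^ m) +
        Fintype.card β * τ / 2) <
      ∑ c : β → K, pot M Z act g (s + (Fintype.card K - 1) * t) t m (h * cf (rcomb g c)) :=
    sum_lt_sum_of_nonempty ⟨0, mem_univ _⟩ fun c _ => hcon c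
  have h4 : ∑ c : β → K, (pot M Z act g (s + (Fintype.card K - 1) * t) t m
      (h * cf (rcomb g c)) + ∑ j ∈ range m, D j c / 2 ^ (j + 1)) ≤
      ∑ _c : β → K, pot M Z act g s t m h := sum_le_sum fun c _ => h1 c
  rw [sum_add_distrib, sum_comm] at h4
  have h5 : ∑ j ∈ range m, (Fintype.card (β → K) : ℝ) * (1 / 4) * ((R j - b) / 2 ^ j) ≤
      ∑ j ∈ range m, ∑ c : β → K, D j c / 2 ^ (j + 1) := by
    refine sum_le_sum fun j hj => ?_
    rw [← sum_div]
    have h6 := h2 j (mem_range.1 hj)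
    have h7 : (Fintype.card (β → K) : ℝ) * (1 / 4) * ((R j - b) / 2 ^ j) =
        (Fintype.card (β → K) : ℝ) * (R j - b) / 2 / 2 ^ (j + 1) := by
      rw [pow_succ]
      field_simp
      ring
    rw [h7]
    refine div_le_div_of_nonneg_right ?_ (by positivity)
    linarith
  have h6 : pot M Z act g s t m h = ∑ j ∈ range m, R j / 2 ^ j + R m / 2 ^ m := by
    unfold pot
    rw [sum_range_succ, hR]
  have hgeo : ∑ j ∈ range m, b / 2 ^ j ≤ 2 * b := by
    have h7 : ∑ j ∈ range m, ((1 : ℝ) / 2) ^ j ≤ 2 := by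
      have h3 := geom_sum_eq (show (1 / 2 : ℝ) ≠ 1 by norm_num) m
      rw [h3]
      have h4 : (0 : ℝ) < (1 / 2) ^ m := by positivity
      have h5 : ((1 / 2 : ℝ) ^ m - 1) / (1 / 2 - 1) = 2 * (1 - (1 / 2) ^ m) := by
        ring
      rw [h5]
      linarith
    have h8 : ∑ j ∈ range m, b / 2 ^ j = b * ∑ j ∈ range m, ((1 : ℝ) / 2) ^ j := by
      rw [mul_sum]
      refine sum_congr rfl fun j _ => ?_
      rw [one_div, inv_pow]
      rfl
    rw [h8]
    nlinarith
  have h7 : ∑ j ∈ range m, (Fintype.card (β → K) : ℝ) * (1 / 4) * ((R j - b) / 2 ^ j) =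
      (Fintype.card (β → K) : ℝ) * (1 / 4) * (pot M Z act g s t m h - R m / 2 ^ m -
        ∑ j ∈ range m, b / 2 ^ j) := by
    rw [← mul_sum, h6]
    have h8 : ∑ j ∈ range m, (R j - b) / 2 ^ j = ∑ j ∈ range m, R j / 2 ^ j -
        ∑ j ∈ range m, b / 2 ^ j := by
      rw [← sum_sub_distrib]
      exact sum_congr rfl fun j _ => sub_div _ _ _
    rw [h8]
    ring
  rw [sum_const, nsmul_eq_mul, card_univ] at h3 h4
  have h8 : rk M Z act g h (m * t) (m * t + (t + s)) = R m := by rw [hR]
  rw [h8, ← hb'] at h3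
  rw [h7] at h5
  have h9 : (Fintype.card (β → K) : ℝ) * (1 / 4) * (pot M Z act g s t m h - R m / 2 ^ m -
      2 * b) ≤ (Fintype.card (β → K) : ℝ) * (1 / 4) * (pot M Z act g s t m h - R m / 2 ^ m -
        ∑ j ∈ range m, b / 2 ^ j) :=
    mul_le_mul_of_nonneg_left (by linarith) (by positivity)
  have h10 : (Fintype.card (β → K) : ℝ) * (3 / 4 * pot M Z act g s t m h +
      1 / 4 * (R m / 2 ^ m) + b / 2) =
      (Fintype.card (β → K) : ℝ) * pot M Z act g s t m h -
      (Fintype.card (β → K) : ℝ) * (1 / 4) * (pot M Z act g s t m h - R m / 2 ^ m -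
      2 * b) := by
    ring
  rw [h10] at h3
  linarith

/-- The approximation of a disjunction in a graded world. -/
theorem exists_hor (hW : World M Z act A) {τ : ℕ} {C r : ℝ} (hC : 0 ≤ C) (hr0 : 0 ≤ r)
    (hdef : ∀ a ≤ A,
      Module.finrank K (M a ⊓ Z A : Submodule K W) ≤ Module.finrank K (Z a) + τ)
    (hgrow : ∀ a ≤ A, (Module.finrank K (M a) : ℝ) ≤ Module.finrank K (Z a) + C * r)
    {g : β → Fun K V} {t m : ℕ}
    (hg : ∀ i, g i ∈ Pol K V t) (hb : ∀ i, Bin (g i)) (k : ℕ)
    (hA : (m + 1 + k * (Fintype.card K - 1)) * t ≤ A) :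
    ∃ h, Hor k (Set.range g) h ∧ (Module.finrank K (M 0) : ℝ) ≤
      Module.finrank K (kern M Z act g h 0 ((k * (Fintype.card K - 1) + 1) * t)) +
      ((2 * C * (3 / 4) ^ k + C / 2 ^ m) * r + 2 * (Fintype.card β * τ)) := by
  classical
  obtain ⟨b, hb'⟩ : ∃ b : ℝ, b = Fintype.card β * τ := ⟨_, rfl⟩
  have hb0 : 0 ≤ b := by rw [hb']; positivity
  have hgr : ∀ (h : Fun K V) (s : ℕ), h ∈ Pol K V s → ∀ j ≤ m, j * t + (t + s) ≤ A →
      rk M Z act g h (j * t) (j * t + (t + s)) / 2 ^ j ≤ C / 2 ^ j * r := by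
    intro h s hh j _ hjA
    rw [div_le_iff₀ (by positivity)]
    have h1 := rk_le hW hg hh hjA
    have h2 := hgrow (j * t) (by omega)
    have h3 : C / 2 ^ j * r * 2 ^ j = C * r := by
      field_simp
    rw [h3]
    linarith
  have key : ∀ k : ℕ, (m + 1 + k * (Fintype.card K - 1)) * t ≤ A →
      ∃ h, Hor k (Set.range g) h ∧ pot M Z act g (k * ((Fintype.card K - 1) * t)) t m h ≤
        2 * C * (3 / 4) ^ k * r + C / 2 ^ m * r + 2 * b := by
    intro k
    induction k with
    | zero =>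
      intro h0
      have e0 : (m + 1 + 0 * (Fintype.card K - 1)) * t = m * t + t := by ring
      rw [e0] at h0
      refine ⟨1, hor_one _ _, ?_⟩
      have h1 : pot M Z act g (0 * ((Fintype.card K - 1) * t)) t m 1 ≤
          ∑ j ∈ range (m + 1), C * r * (1 / 2) ^ j := by
        unfold pot
        refine sum_le_sum fun j hj => ?_
        have hj' := Nat.lt_succ_iff.1 (mem_range.1 hj)
        have hjt : j * t ≤ m * t := Nat.mul_le_mul_right t hj'
        refine (hgr 1 _ (one_mem _) j hj' (by omega)).trans (le_of_eq ?_)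
        rw [one_div, inv_pow]
        ring
      have h2 : ∑ j ∈ range (m + 1), ((1 : ℝ) / 2) ^ j ≤ 2 := by
        have h3 := geom_sum_eq (show (1 / 2 : ℝ) ≠ 1 by norm_num) (m + 1)
        rw [h3]
        have h4 : (0 : ℝ) < (1 / 2) ^ (m + 1) := by positivity
        have h5 : ((1 / 2 : ℝ) ^ (m + 1) - 1) / (1 / 2 - 1) = 2 * (1 - (1 / 2) ^ (m + 1)) := by
          ring
        rw [h5]
        linarith
      rw [← mul_sum] at h1
      have h3 : C * r * ∑ j ∈ range (m + 1), ((1 : ℝ) / 2) ^ j ≤ C * r * 2 :=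
        mul_le_mul_of_nonneg_left h2 (mul_nonneg hC hr0)
      have h4 : 0 ≤ C / 2 ^ m * r := by positivity
      rw [pow_zero]
      linarith
    | succ k ih =>
      intro hk
      have e1 : (k + 1) * (Fintype.card K - 1) =
          k * (Fintype.card K - 1) + (Fintype.card K - 1) := by ring
      have e2 : (m + 1 + (k * (Fintype.card K - 1) + (Fintype.card K - 1))) * t =
          m * t + t + k * ((Fintype.card K - 1) * t) + (Fintype.card K - 1) * t := by ring
      have e3 : (m + 1 + k * (Fintype.card K - 1)) * t =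
          m * t + t + k * ((Fintype.card K - 1) * t) := by ring
      rw [e1, e2] at hk
      rw [e3] at ih
      obtain ⟨h, hh, hpot⟩ := ih (by omega)
      have hhm := hh.mem (t := t) (by
        rintro _ ⟨i, rfl⟩
        exact hg i)
      obtain ⟨c, hc⟩ := pot_step hW hdef (m := m) hg hb hhm (by omega)
      obtain ⟨q, hq, hhq⟩ := hh
      have e4 : (k + 1) * ((Fintype.card K - 1) * t) =
          k * ((Fintype.card K - 1) * t) + (Fintype.card K - 1) * t := by ring
      refine ⟨h * cf (rcomb g c), ⟨Fin.snoc q (rcomb g c), fun j => ?_, ?_⟩, ?_⟩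
      · refine Fin.lastCases ?_ (fun j => ?_) j
        · rw [Fin.snoc_last]
          exact Submodule.sum_mem _ fun i _ => Submodule.smul_mem _ _
            (Submodule.subset_span ⟨i, rfl⟩)
        · rw [Fin.snoc_castSucc]
          exact hq j
      · rw [Fin.prod_univ_castSucc, Fin.snoc_last, hhq]
        congr 1
        refine prod_congr rfl fun j _ => ?_
        rw [Fin.snoc_castSucc]
      · rw [e4]
        refine hc.trans ?_
        have h1 := hgr h _ hhm m le_rfl (by omega)
        rw [← hb']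
        calc 3 / 4 * pot M Z act g (k * ((Fintype.card K - 1) * t)) t m h +
              1 / 4 * (rk M Z act g h (m * t)
                (m * t + (t + k * ((Fintype.card K - 1) * t))) / 2 ^ m) + b / 2
            ≤ 3 / 4 * (2 * C * (3 / 4) ^ k * r + C / 2 ^ m * r + 2 * b) +
              1 / 4 * (C / 2 ^ m * r) + b / 2 := by linarith
          _ = 2 * C * (3 / 4) ^ (k + 1) * r + C / 2 ^ m * r + 2 * b := by ring
  obtain ⟨h, hh, hpot⟩ := key k hA
  refine ⟨h, hh, ?_⟩
  have h1 : rk M Z act g h 0 ((k * (Fintype.card K - 1) + 1) * t) ≤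
      pot M Z act g (k * ((Fintype.card K - 1) * t)) t m h := by
    unfold pot
    have e1 : (k * (Fintype.card K - 1) + 1) * t =
        0 * t + (t + k * ((Fintype.card K - 1) * t)) := by ring
    have h2 : rk M Z act g h 0 ((k * (Fintype.card K - 1) + 1) * t) =
        rk M Z act g h (0 * t) (0 * t + (t + k * ((Fintype.card K - 1) * t))) / 2 ^ 0 := by
      rw [pow_zero, div_one, ← e1, zero_mul]
    rw [h2]
    exact single_le_sum (f := fun j => rk M Z act g h (j * t)
      (j * t + (t + k * ((Fintype.card K - 1) * t))) / 2 ^ j)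
      (fun j _ => div_nonneg (rk_nonneg _ _ _ _) (by positivity)) (mem_range.2 (Nat.succ_pos m))
  have h2 : rk M Z act g h 0 ((k * (Fintype.card K - 1) + 1) * t) =
      Module.finrank K (M 0) -
      Module.finrank K (kern M Z act g h 0 ((k * (Fintype.card K - 1) + 1) * t)) := rfl
  rw [h2] at h1
  rw [← hb']
  linarith

end Pool.Agent.MP_9cec2c_lc.GR
end

section

/-!
The approximation of a disjunction in a graded world.
-/

set_option autoImplicit false
set_option linter.unusedSectionVars false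

namespace Pool.Agent.MP_9cec2c_lc.GW

open Finset Frege

variable {K V W : Type} [Field K] [AddCommGroup W] [Module K W] [Fintype K]
  [FiniteDimensional K W] {M N : ℕ → Submodule K W} {act : Fun K V →ₗ[K] W →ₗ[K] W}

omit [Fintype K] [FiniteDimensional K W] in
theorem GWorld.world (hW : GWorld M N act) (A : ℕ) : GR.World M N act A where
  one := hW.act_one
  mul := hW.act_mul
  mem a e P w _ hP hw := hW.memM a e P w hP hw
  zero a e P w _ hP hw := hW.memN a e P w hP hw
  le a _ := hW.le a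

/-- The approximation of a disjunction in a graded world: `g * h` maps almost all vectors of the
level 0 to zero vectors, for all `g` in `G`. -/
theorem exists_hor (hW : GWorld M N act) {A τ t m : ℕ} {C w : ℝ} (hC : 1 ≤ C) (hw : 0 ≤ w)
    (hB : Bounds M N A τ C w) (G : Finset (Fun K V)) (hGb : ∀ g ∈ G, Bin g)
    (hGt : ∀ g ∈ G, g ∈ Pol K V t) (k : ℕ) (hA : (m + k + 4) * (Fintype.card K * t) ≤ A) :
    ∃ h, Hor k (G : Set (Fun K V)) h ∧
      (codim (M 0) (nul act (N (t + k * ((Fintype.card K - 1) * t))) G h) : ℝ) ≤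
        (2 * C * (3 / 4) ^ k + C / 2 ^ m) * w + 4 * G.card * τ := by
  classical
  have hA' : (m + 1 + k * (Fintype.card K - 1)) * t ≤ A := by
    refine le_trans ?_ hA
    rw [← mul_assoc]
    refine Nat.mul_le_mul_right _ ?_
    have h1 : 1 ≤ Fintype.card K := Fintype.card_pos
    calc m + 1 + k * (Fintype.card K - 1) ≤ (m + 1) * Fintype.card K + k * Fintype.card K :=
          Nat.add_le_add (Nat.le_mul_of_pos_right _ h1)
            (Nat.mul_le_mul_left _ (Nat.sub_le _ _))
      _ = (m + k + 1) * Fintype.card K := by ring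
      _ ≤ (m + k + 4) * Fintype.card K := Nat.mul_le_mul_right _ (by omega)
  obtain ⟨h, hh, hr⟩ := GR.exists_hor (hW.world A) (β := {g // g ∈ G}) (g := fun g => g.1)
    (m := m) (t := t) (r := w) (by linarith : (0 : ℝ) ≤ C) hw (fun a ha => hB.hdef a A ha le_rfl)
    hB.hdim (fun i => hGt _ i.2) (fun i => hGb _ i.2) k hA'
  refine ⟨h, ?_, ?_⟩
  · have h1 : Set.range (fun g : {g // g ∈ G} => g.1) = (G : Set (Fun K V)) := by
      ext g
      constructor
      · rintro ⟨i, rfl⟩
        exact i.2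
      · intro hg
        exact ⟨⟨g, hg⟩, rfl⟩
    rwa [h1] at hh
  · have h1 : (k * (Fintype.card K - 1) + 1) * t = t + k * ((Fintype.card K - 1) * t) := by ring
    rw [h1] at hr
    have h2 : M 0 ⊓ nul act (N (t + k * ((Fintype.card K - 1) * t))) G h =
        GR.kern M N act (fun g : {g // g ∈ G} => g.1) h 0
          (t + k * ((Fintype.card K - 1) * t)) := by
      ext f
      rw [Submodule.mem_inf, mem_nul, GR.mem_kern]
      exact and_congr Iff.rfl ⟨fun h3 i => h3 i.1 i.2, fun h3 g hg => h3 ⟨g, hg⟩⟩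
    unfold codim
    rw [h2]
    rw [Fintype.card_coe] at hr
    have h3 := Submodule.finrank_mono (inf_le_left (a := M 0) (b := nul act
      (N (t + k * ((Fintype.card K - 1) * t))) (G : Set (Fun K V)) h))
    rw [h2] at h3
    rw [Nat.cast_sub h3]
    have h4 : (0 : ℝ) ≤ G.card * τ := by positivity
    linarith

end Pool.Agent.MP_9cec2c_lc.GW
end
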