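import Mathlib

section

/-!
# PHPF Part II (straightening): definitions

`N` pigeons, `b` holes, `b ≤ N`, `q = N - b`. A word gives every pigeon a letter: `0` = free, `j + 1` = hole
`j`, `b + 1` = star. A point is a word without the letter `0` which contains every hole letter exactly once
(so it has exactly `q` stars); it stands for the injection of the holes into the pigeons.
-/

set_option autoImplicit false

open Finset

namespace Pool.Agent.MP_9cec2c_lc.PHS

/-- words -/
abbrev Wd (N b : ℕ) : Type := Fin N → Fin (b + 2)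

variable {N b : ℕ}

/-- hole letters -/
def Ho (a : Fin (b + 2)) : Prop := a ≠ 0 ∧ a ≠ Fin.last (b + 1)

/-- points -/
def IsPt (w : Wd N b) : Prop := (∀ i, w i ≠ 0) ∧ ∀ a : Fin (b + 2), Ho a → ∃! i, w i = a

/-- the type of the points -/
abbrev Pt (N b : ℕ) : Type := {w : Wd N b // IsPt w}

/-- `w` extends `s` -/
def Sub (s w : Wd N b) : Prop := ∀ i, s i ≠ 0 → w i = s i

open Classical in
/-- the monomial of the word `s`: the indicator function of the points which extend `s` -/
noncomputable def mon (K : Type) [Field K] (s : Wd N b) : Pt N b → K :=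
  fun w => if Sub s w.1 then 1 else 0

/-- the number of letters which are not free -/
def deg (s : Wd N b) : ℕ := (univ.filter fun i => s i ≠ 0).card

/-- the number of stars -/
def stars (s : Wd N b) : ℕ := (univ.filter fun i => s i = Fin.last (b + 1)).card

/-- no hole is used twice, at most `q` stars -/
def Good (s : Wd N b) : Prop := (∀ i i', s i = s i' → Ho (s i) → i = i') ∧ stars s + b ≤ N

/-- `C` is a chain of `s`: letters not free, weakly increasing -/
def Chain (s : Wd N b) (C : Finset (Fin N)) : Prop :=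
  (∀ i ∈ C, s i ≠ 0) ∧ ∀ i ∈ C, ∀ i' ∈ C, i ≤ i' → s i ≤ s i'

/-- free holes with letter `≤ x` -/
def frHset (s : Wd N b) (x : ℕ) : Finset (Fin (b + 2)) :=
  univ.filter fun a => a ≠ 0 ∧ a ≠ Fin.last (b + 1) ∧ a.val ≤ x ∧ ∀ i, s i ≠ a

/-- free pigeons `< y` -/
def frPset (s : Wd N b) (y : ℕ) : Finset (Fin N) := univ.filter fun i => i.val < y ∧ s i = 0

/-- the condition `(P_y)` -/
def CondP (s : Wd N b) (y : ℕ) : Prop :=
  ∀ C : Finset (Fin N), Chain s C → (∀ i ∈ C, i.val < y) → C.card ≤ (frPset s y).card

/-- the condition `(H_x)`; for `x = b + 1` this is `(H_*)` -/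
def CondH (s : Wd N b) (x : ℕ) : Prop :=
  ∀ C : Finset (Fin N), Chain s C → (∀ i ∈ C, (s i).val ≤ x) → C.card ≤ (frHset s x).card

/-- irreducible words -/
def Irr (s : Wd N b) : Prop := Good s ∧ (∀ y, CondP s y) ∧ ∀ x, x ≤ b → CondH s x

/-- standard words -/
def Std (s : Wd N b) : Prop := Irr s ∧ CondH s (b + 1)

/-- bad words -/
def Bad (s : Wd N b) : Prop := Irr s ∧ 1 ≤ stars s ∧ ¬ Std s

/-- `F_D` -/
noncomputable def FF (K : Type) [Field K] (N b D : ℕ) : Submodule K (Pt N b → K) :=
  Submodule.span K (mon K '' {s | deg s ≤ D})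

/-- `Y_D` -/
noncomputable def YY (K : Type) [Field K] (N b D : ℕ) : Submodule K (Pt N b → K) :=
  Submodule.span K (mon K '' {s | deg s ≤ D ∧ 1 ≤ stars s})

open Classical in
/-- the number of the standard words without star, of degree in `(D - q, D' - q]` -/
noncomputable def S0 (N b D D' : ℕ) : ℕ :=
  (univ.filter fun s : Wd N b => Std s ∧ stars s = 0 ∧ D < deg s + (N - b) ∧ deg s + (N - b) ≤ D').card

open Classical in
/-- the number of the bad words of degree `≤ D` -/
noncomputable def badc (N b D : ℕ) : ℕ := (univ.filter fun s : Wd N b => Bad s ∧ deg s ≤ D).card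

/-- the hypothesis on the field: the binomial coefficients `(q choose a)` vanish for `0 < a < q` -/
def QK (K : Type) [Field K] (q : ℕ) : Prop := ∀ a, 0 < a → a < q → ((q.choose a : ℕ) : K) = 0

/-- letters in the order `1 < 2 < ... < b < * < free` -/
def lv (a : Fin (b + 2)) : ℕ := if a = 0 then b + 2 else a.val

/-- lexicographic order of the words -/
def LexLt (s t : Wd N b) : Prop := ∃ i, (∀ i', i' < i → s i' = t i') ∧ lv (s i) < lv (t i)

/-- `t` is smaller than `s` (in the order of the reduction) -/
def Lt (t s : Wd N b) : Prop :=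
  deg t < deg s ∨ (deg t = deg s ∧ (stars s < stars t ∨ (stars s = stars t ∧ LexLt s t)))

end Pool.Agent.MP_9cec2c_lc.PHS
end

section

/-!
# PHPF Part II: basics

`mon_eq_zero`: a word which is not Good is not extended by a point (a point has exactly `N - b` stars).
`mem_span_cover`: `G = ∑ u ∈ image e, (value of G at the points with e w = u) • mon u`: by `h1`, `h2` the
only `u` in the image with `Sub u w` is `u = e w`.
`mul`: `mon s * mon t = 0` if `s`, `t` disagree at a pigeon where both are not free, and else `mon s * mon t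
= mon (s ∪ t)`.
`FF_sub_le_YY`: for a point `w` extending `s`, `e w` := letters of `w` at the non-free rows of `s` and at all
stars of `w`; else `e w = w`. Use `mem_span_cover` with `G = mon K s`.
-/

set_option autoImplicit false

open Finset

namespace Pool.Agent.MP_9cec2c_lc.PHS

variable {N b : ℕ} {K : Type} [Field K]

theorem last_ne_zero' : (Fin.last (b + 1) : Fin (b + 2)) ≠ 0 := by
  intro h
  have := congrArg Fin.val h
  simp at this

theorem card_Ho : (univ.filter fun a : Fin (b + 2) => a ≠ 0 ∧ a ≠ Fin.last (b + 1)).card = b := by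
  have h : (univ.filter fun a : Fin (b + 2) => a ≠ 0 ∧ a ≠ Fin.last (b + 1)) =
      (univ.erase (0 : Fin (b + 2))).erase (Fin.last (b + 1)) := by
    ext a
    simp only [mem_filter, mem_univ, true_and, mem_erase, and_true]
    exact and_comm
  rw [h, card_erase_of_mem, card_erase_of_mem (mem_univ _), card_univ, Fintype.card_fin]
  · omega
  · exact mem_erase.2 ⟨last_ne_zero', mem_univ _⟩

/-- the number of rows of a point with a hole letter -/
theorem card_holes_pt (w : Pt N b) :
    (univ.filter fun i => w.1 i ≠ Fin.last (b + 1)).card = b := by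
  refine Eq.trans ?_ (card_Ho (b := b))
  symm
  choose f hf using fun (a : Fin (b + 2)) (ha : Ho a) => (w.2.2 a ha)
  refine card_bij' (fun a ha => f a (mem_filter.1 ha).2) (fun i _ => w.1 i) ?_ ?_ ?_ ?_
  · intro a ha
    have h1 := (hf a (mem_filter.1 ha).2).1
    simp only at h1
    rw [mem_filter]
    refine ⟨mem_univ _, ?_⟩
    rw [h1]
    exact (mem_filter.1 ha).2.2
  · intro i hi
    rw [mem_filter] at hi ⊢
    exact ⟨mem_univ _, w.2.1 i, hi.2⟩
  · intro a ha
    exact (hf a (mem_filter.1 ha).2).1
  · intro i hi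
    rw [mem_filter] at hi
    exact ((hf (w.1 i) ⟨w.2.1 i, hi.2⟩).2 i rfl).symm

theorem stars_pt (w : Pt N b) : stars w.1 + b = N := by
  have h1 : (univ.filter fun i => ¬ (w.1 i = Fin.last (b + 1))).card = b := card_holes_pt w
  have h2 := card_filter_add_card_filter_not (s := (univ : Finset (Fin N)))
    (fun i => w.1 i = Fin.last (b + 1))
  rw [card_univ, Fintype.card_fin] at h2
  unfold stars
  omega

theorem deg_pt (w : Pt N b) : deg w.1 = N := by
  unfold deg
  rw [filter_true_of_mem fun i _ => w.2.1 i, card_univ, Fintype.card_fin]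

theorem stars_le_deg (s : Wd N b) : stars s ≤ deg s := by
  refine card_le_card fun i hi => ?_
  rw [mem_filter] at hi ⊢
  refine ⟨hi.1, ?_⟩
  rw [hi.2]
  exact last_ne_zero'

theorem stars_le_of_sub {s : Wd N b} {w : Pt N b} (h : Sub s w.1) : stars s ≤ stars w.1 := by
  refine card_le_card fun i hi => ?_
  rw [mem_filter] at hi ⊢
  refine ⟨hi.1, ?_⟩
  rw [h i (by rw [hi.2]; exact last_ne_zero')]
  exact hi.2

theorem good_of_sub {s : Wd N b} {w : Pt N b} (h : Sub s w.1) : Good s := by
  constructor
  · intro i i' hii hho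
    have h1 := h i hho.1
    have h2 := h i' (by rw [← hii]; exact hho.1)
    obtain ⟨i0, _, h0⟩ := w.2.2 (s i) hho
    rw [h0 i h1, h0 i' (h2.trans hii.symm)]
  · have h1 := stars_le_of_sub h
    have h2 := stars_pt w
    omega

theorem mon_eq_zero {s : Wd N b} (h : ¬ Good s) : mon K s = 0 := by
  funext w
  unfold mon
  rw [if_neg fun h' => h (good_of_sub h')]
  rfl

open Classical in
/-- the general expansion lemma -/
theorem mem_span_cover (e : Pt N b → Wd N b) (h1 : ∀ w, Sub (e w) w.1)
    (h2 : ∀ w w', Sub (e w) w'.1 → e w' = e w) (G : Pt N b → K)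
    (hG : ∀ w w', e w = e w' → G w = G w') :
    G ∈ Submodule.span K (mon K '' {u | ∃ w, e w = u ∧ G w ≠ 0}) := by
  set c : Wd N b → K := fun u => if h : ∃ w, e w = u then G h.choose else 0 with hc
  have hce : ∀ w, c (e w) = G w := by
    intro w
    have hex : ∃ w', e w' = e w := ⟨w, rfl⟩
    rw [hc]
    simp only
    rw [dif_pos hex]
    exact hG _ _ hex.choose_spec
  have hsum : G = ∑ u ∈ univ.filter (fun u : Wd N b => ∃ w, e w = u ∧ G w ≠ 0), c u • mon K u := by
    funext w
    rw [Finset.sum_apply]
    by_cases hw : G w = 0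
    · rw [hw]
      symm
      refine sum_eq_zero fun u hu => ?_
      rw [mem_filter] at hu
      obtain ⟨_, w0, hw0, hne⟩ := hu
      rw [Pi.smul_apply, smul_eq_mul]
      unfold mon
      rw [if_neg, mul_zero]
      intro hsub
      rw [← hw0] at hsub
      exact hne ((hG w0 w (h2 w0 w hsub).symm).trans hw)
    · rw [sum_eq_single (e w)]
      · rw [Pi.smul_apply, smul_eq_mul, hce]
        unfold mon
        rw [if_pos (h1 w), mul_one]
      · intro u hu hne
        rw [mem_filter] at hu
        obtain ⟨_, w0, hw0, _⟩ := hu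
        rw [Pi.smul_apply, smul_eq_mul]
        unfold mon
        rw [if_neg, mul_zero]
        intro hsub
        rw [← hw0] at hsub hne
        exact hne (h2 w0 w hsub).symm
      · intro hnot
        exact absurd (mem_filter.2 ⟨mem_univ _, w, rfl, hw⟩) hnot
  have hmem : ∑ u ∈ univ.filter (fun u : Wd N b => ∃ w, e w = u ∧ G w ≠ 0), c u • mon K u ∈
      Submodule.span K (mon K '' {u | ∃ w, e w = u ∧ G w ≠ 0}) :=
    Submodule.sum_mem _ fun u hu => Submodule.smul_mem _ _
      (Submodule.subset_span ⟨u, (mem_filter.1 hu).2, rfl⟩)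
  rwa [← hsum] at hmem

open Classical in
/-- the letters of the point `w` at the rows with `p`, the other rows free -/
noncomputable def vw (w : Pt N b) (p : Fin N → Prop) : Wd N b := fun i => if p i then w.1 i else 0

theorem vw_pos {w : Pt N b} {p : Fin N → Prop} {i : Fin N} (h : p i) : vw w p i = w.1 i := if_pos h

theorem vw_neg {w : Pt N b} {p : Fin N → Prop} {i : Fin N} (h : ¬ p i) : vw w p i = 0 := if_neg h

theorem vw_ne_zero {w : Pt N b} {p : Fin N → Prop} {i : Fin N} : vw w p i ≠ 0 ↔ p i := by
  constructor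
  · intro h
    by_contra hp
    exact h (vw_neg hp)
  · intro h
    rw [vw_pos h]
    exact w.2.1 i

theorem sub_vw (w : Pt N b) (p : Fin N → Prop) : Sub (vw w p) w.1 := fun i hi =>
  (vw_pos (vw_ne_zero.1 hi)).symm

theorem good_vw (w : Pt N b) (p : Fin N → Prop) : Good (vw w p) := good_of_sub (sub_vw w p)

theorem deg_vw_le {w : Pt N b} {p : Fin N → Prop} {A : Finset (Fin N)} (h : ∀ i, p i → i ∈ A) :
    deg (vw w p) ≤ A.card :=
  card_le_card fun i hi => h i (vw_ne_zero.1 (mem_filter.1 hi).2)

theorem le_stars_vw {w : Pt N b} {p : Fin N → Prop} {A : Finset (Fin N)}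
    (h : ∀ i ∈ A, p i ∧ w.1 i = Fin.last (b + 1)) : A.card ≤ stars (vw w p) :=
  card_le_card fun i hi => mem_filter.2 ⟨mem_univ _, (vw_pos (h i hi).1).trans (h i hi).2⟩

/-- the expansion lemma in the form in which it is used: `G` vanishes where `cond` fails, and at a point `w`
with `cond w` the value depends only on the letters at the rows `vis w` -/
theorem cover_vis (cond : Pt N b → Prop) (vis : Pt N b → Fin N → Prop) (G : Pt N b → K)
    (h1 : ∀ w w', cond w → (∀ i, vis w i → w'.1 i = w.1 i) →
      cond w' ∧ (∀ i, vis w' i ↔ vis w i) ∧ G w' = G w)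
    (h2 : ∀ w, ¬ cond w → G w = 0) :
    G ∈ Submodule.span K (mon K '' {u | ∃ w, cond w ∧ G w ≠ 0 ∧ u = vw w (vis w)}) := by
  classical
  set e : Pt N b → Wd N b := fun w => if cond w then vw w (vis w) else w.1 with he
  have he1 : ∀ w, cond w → e w = vw w (vis w) := fun w hw => if_pos hw
  have he2 : ∀ w, ¬ cond w → e w = w.1 := fun w hw => if_neg hw
  have hsub : ∀ w, Sub (e w) w.1 := by
    intro w
    by_cases hw : cond w
    · rw [he1 w hw]
      exact sub_vw _ _
    · rw [he2 w hw]
      exact fun i _ => rfl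
  have hvis : ∀ w w' : Pt N b, cond w → Sub (e w) w'.1 → ∀ i, vis w i → w'.1 i = w.1 i := by
    intro w w' hw hs i hi
    rw [he1 w hw] at hs
    exact (hs i (vw_ne_zero.2 hi)).trans (vw_pos hi)
  have hcl : ∀ w w', Sub (e w) w'.1 → e w' = e w := by
    intro w w' hs
    by_cases hw : cond w
    · have hv := hvis w w' hw hs
      obtain ⟨h3, h4, _⟩ := h1 w w' hw hv
      rw [he1 w hw, he1 w' h3]
      funext i
      by_cases hi : vis w i
      · rw [vw_pos hi, vw_pos ((h4 i).2 hi)]
        exact hv i hi
      · rw [vw_neg hi, vw_neg fun h => hi ((h4 i).1 h)]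
    · have hww : w'.1 = w.1 := by
        funext i
        have := hs i
        rw [he2 w hw] at this
        exact this (w.2.1 i)
      rw [Subtype.ext hww]
  refine Submodule.span_mono (Set.image_mono ?_) (mem_span_cover e hsub hcl G ?_)
  · rintro u ⟨w, rfl, hw⟩
    have hc : cond w := by
      by_contra hc
      exact hw (h2 w hc)
    exact ⟨w, hc, hw, he1 w hc⟩
  · intro w w' hww
    by_cases hw : cond w
    · have hs : Sub (e w) w'.1 := by
        rw [hww]
        exact hsub w'
      exact (h1 w w' hw (hvis w w' hw hs)).2.2.symm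
    · by_cases hw' : cond w'
      · have hs : Sub (e w') w.1 := by
          rw [← hww]
          exact hsub w
        exact (h1 w' w hw' (hvis w' w hw' hs)).2.2
      · rw [h2 w hw, h2 w' hw']

theorem mon_apply_pos {s : Wd N b} {w : Pt N b} (h : Sub s w.1) : mon K s w = 1 := if_pos h

theorem mon_apply_neg {s : Wd N b} {w : Pt N b} (h : ¬ Sub s w.1) : mon K s w = 0 := if_neg h

theorem FF_mono {D D' : ℕ} (h : D ≤ D') : FF K N b D ≤ FF K N b D' :=
  Submodule.span_mono (Set.image_mono fun _ hs => le_trans hs h)

theorem YY_mono {D D' : ℕ} (h : D ≤ D') : YY K N b D ≤ YY K N b D' :=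
  Submodule.span_mono (Set.image_mono fun s hs => ⟨hs.1.trans h, hs.2⟩)

theorem YY_le_FF (D : ℕ) : YY K N b D ≤ FF K N b D :=
  Submodule.span_mono (Set.image_mono fun _ hs => hs.1)

theorem mon_mem_FF {s : Wd N b} {D : ℕ} (h : deg s ≤ D) : mon K s ∈ FF K N b D :=
  Submodule.subset_span ⟨s, h, rfl⟩

theorem mon_star_mem_YY {s : Wd N b} {D : ℕ} (h : deg s ≤ D) (h' : 1 ≤ stars s) :
    mon K s ∈ YY K N b D :=
  Submodule.subset_span ⟨s, ⟨h, h'⟩, rfl⟩

theorem one_mem_FF : (1 : Pt N b → K) ∈ FF K N b 0 := by
  have h : (1 : Pt N b → K) = mon K (fun _ => 0) := by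
    funext w
    unfold mon
    rw [if_pos]
    · rfl
    · intro i hi
      exact absurd rfl hi
  rw [h]
  apply mon_mem_FF
  unfold deg
  rw [filter_false_of_mem, card_empty]
  intro i _ h0
  exact h0 rfl

/-- product of two monomials -/
theorem mon_mul (s t : Wd N b) : mon K s * mon K t = 0 ∨
    ∃ u : Wd N b, mon K s * mon K t = mon K u ∧ deg u ≤ deg s + deg t ∧ stars t ≤ stars u := by
  by_cases hdis : ∀ i, s i ≠ 0 → t i ≠ 0 → s i = t i
  · right
    refine ⟨fun i => if t i = 0 then s i else t i, ?_, ?_, ?_⟩
    · funext w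
      rw [Pi.mul_apply]
      unfold mon
      by_cases hs : Sub s w.1
      · by_cases ht : Sub t w.1
        · rw [if_pos hs, if_pos ht, if_pos, mul_one]
          intro i hi
          simp only at hi ⊢
          by_cases h0 : t i = 0
          · rw [if_pos h0] at hi ⊢
            exact hs i hi
          · rw [if_neg h0]
            exact ht i h0
        · rw [if_neg ht, mul_zero, if_neg]
          intro hu
          apply ht
          intro i hi
          have := hu i
          simp only [if_neg hi] at this
          exact this hi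
      · rw [if_neg hs, zero_mul, if_neg]
        intro hu
        apply hs
        intro i hi
        have := hu i
        by_cases h0 : t i = 0
        · simp only [if_pos h0] at this
          exact this hi
        · simp only [if_neg h0] at this
          rw [this h0, hdis i hi h0]
    · unfold deg
      have hsub : (univ.filter fun i => (if t i = 0 then s i else t i) ≠ 0) ⊆
          (univ.filter fun i => s i ≠ 0) ∪ (univ.filter fun i => t i ≠ 0) := by
        intro i hi
        rw [mem_filter] at hi
        rw [mem_union, mem_filter, mem_filter]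
        by_cases h0 : t i = 0
        · rw [if_pos h0] at hi
          exact Or.inl hi
        · exact Or.inr ⟨mem_univ _, h0⟩
      exact (card_le_card hsub).trans (card_union_le _ _)
    · refine card_le_card fun i hi => ?_
      rw [mem_filter] at hi ⊢
      refine ⟨hi.1, ?_⟩
      show (if t i = 0 then s i else t i) = Fin.last (b + 1)
      rw [if_neg (by rw [hi.2]; exact last_ne_zero')]
      exact hi.2
  · left
    push Not at hdis
    obtain ⟨i, h1, h2, h3⟩ := hdis
    funext w
    rw [Pi.mul_apply]
    unfold mon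
    by_cases hs : Sub s w.1
    · rw [if_neg (c := Sub t w.1), mul_zero]
      · rfl
      · intro ht
        exact h3 ((hs i h1).symm.trans (ht i h2))
    · rw [if_neg hs, zero_mul]
      rfl

theorem mul_mem_FF {e D : ℕ} {P Q : Pt N b → K} (hP : P ∈ FF K N b e) (hQ : Q ∈ FF K N b D) :
    P * Q ∈ FF K N b (e + D) := by
  unfold FF at hP hQ
  refine Submodule.span_induction₂ (p := fun P Q _ _ => P * Q ∈ FF K N b (e + D)) ?_ ?_ ?_ ?_ ?_ ?_ ?_
    hP hQ
  · rintro _ _ ⟨s, hs, rfl⟩ ⟨t, ht, rfl⟩
    rcases mon_mul (K := K) s t with h | ⟨u, h, h1, _⟩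
    · rw [h]
      exact Submodule.zero_mem _
    · rw [h]
      exact mon_mem_FF (h1.trans (add_le_add hs ht))
  · intro Q _
    rw [zero_mul]
    exact Submodule.zero_mem _
  · intro P _
    rw [mul_zero]
    exact Submodule.zero_mem _
  · intro x y z _ _ _ h1 h2
    rw [add_mul]
    exact Submodule.add_mem _ h1 h2
  · intro x y z _ _ _ h1 h2
    rw [mul_add]
    exact Submodule.add_mem _ h1 h2
  · intro r x y _ _ h
    rw [smul_mul_assoc]
    exact Submodule.smul_mem _ _ h
  · intro r x y _ _ h
    rw [mul_smul_comm]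
    exact Submodule.smul_mem _ _ h

theorem mul_mem_YY {e D : ℕ} {P Q : Pt N b → K} (hP : P ∈ FF K N b e) (hQ : Q ∈ YY K N b D) :
    P * Q ∈ YY K N b (e + D) := by
  unfold FF at hP
  unfold YY at hQ
  refine Submodule.span_induction₂ (p := fun P Q _ _ => P * Q ∈ YY K N b (e + D)) ?_ ?_ ?_ ?_ ?_ ?_ ?_
    hP hQ
  · rintro _ _ ⟨s, hs, rfl⟩ ⟨t, ht, rfl⟩
    rcases mon_mul (K := K) s t with h | ⟨u, h, h1, h2⟩
    · rw [h]
      exact Submodule.zero_mem _
    · rw [h]
      exact mon_star_mem_YY (h1.trans (add_le_add hs ht.1)) (ht.2.trans h2)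
  · intro Q _
    rw [zero_mul]
    exact Submodule.zero_mem _
  · intro P _
    rw [mul_zero]
    exact Submodule.zero_mem _
  · intro x y z _ _ _ h1 h2
    rw [add_mul]
    exact Submodule.add_mem _ h1 h2
  · intro x y z _ _ _ h1 h2
    rw [mul_add]
    exact Submodule.add_mem _ h1 h2
  · intro r x y _ _ h
    rw [smul_mul_assoc]
    exact Submodule.smul_mem _ _ h
  · intro r x y _ _ h
    rw [mul_smul_comm]
    exact Submodule.smul_mem _ _ h

/-- the word with one letter -/
def cell (i : Fin N) (a : Fin (b + 2)) : Wd N b := fun i' => if i' = i then a else 0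

theorem mon_cell {i : Fin N} {a : Fin (b + 2)} (ha : a ≠ 0) :
    mon K (cell i a) = fun w : Pt N b => if w.1 i = a then (1 : K) else 0 := by
  funext w
  unfold mon
  have h : Sub (cell i a) w.1 ↔ w.1 i = a := by
    constructor
    · intro h
      have := h i
      unfold cell at this
      rw [if_pos rfl] at this
      exact this ha
    · intro h i' hi'
      unfold cell at hi' ⊢
      by_cases h0 : i' = i
      · rw [if_pos h0, h0]
        exact h
      · rw [if_neg h0] at hi'
        exact absurd rfl hi'
  by_cases hw : w.1 i = a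
  · rw [if_pos (h.2 hw), if_pos hw]
  · rw [if_neg fun h' => hw (h.1 h'), if_neg hw]

theorem deg_cell (i : Fin N) (a : Fin (b + 2)) : deg (cell (b := b) i a) ≤ 1 := by
  unfold deg
  have hsub : (univ.filter fun i' => cell (b := b) i a i' ≠ 0) ⊆ {i} := by
    intro i' hi'
    rw [mem_filter] at hi'
    rw [mem_singleton]
    by_contra h
    exact hi'.2 (by unfold cell; rw [if_neg h])
  exact (card_le_card hsub).trans (card_singleton _).le

/-- functions of one letter -/
theorem letter_mem_FF (i : Fin N) (a : Fin (b + 2)) :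
    (fun w : Pt N b => if w.1 i = a then (1 : K) else 0) ∈ FF K N b 1 := by
  by_cases ha : a = 0
  · have h : (fun w : Pt N b => if w.1 i = a then (1 : K) else 0) = 0 := by
      funext w
      rw [if_neg]
      · rfl
      · rw [ha]
        exact w.2.1 i
    rw [h]
    exact Submodule.zero_mem _
  · rw [← mon_cell ha]
    exact mon_mem_FF (deg_cell i a)

theorem star_mem_YY (i : Fin N) :
    (fun w : Pt N b => if w.1 i = Fin.last (b + 1) then (1 : K) else 0) ∈ YY K N b 1 := by
  rw [← mon_cell last_ne_zero']
  refine mon_star_mem_YY (deg_cell i _) ?_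
  unfold stars
  rw [Nat.one_le_iff_ne_zero, ← Nat.pos_iff_ne_zero, card_pos]
  exact ⟨i, mem_filter.2 ⟨mem_univ _, by unfold cell; rw [if_pos rfl]⟩⟩

/-- two points, all stars of the first are stars of the second -/
theorem star_eq {w w' : Pt N b} (h : ∀ i, w.1 i = Fin.last (b + 1) → w'.1 i = Fin.last (b + 1))
    (i : Fin N) : w'.1 i = Fin.last (b + 1) ↔ w.1 i = Fin.last (b + 1) := by
  refine ⟨fun hi => ?_, h i⟩
  have hsub : (univ.filter fun i => w.1 i = Fin.last (b + 1)) ⊆
      (univ.filter fun i => w'.1 i = Fin.last (b + 1)) := by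
    intro i hi
    rw [mem_filter] at hi ⊢
    exact ⟨hi.1, h i hi.2⟩
  have hcard : (univ.filter fun i => w'.1 i = Fin.last (b + 1)).card ≤
      (univ.filter fun i => w.1 i = Fin.last (b + 1)).card := by
    have h1 := stars_pt w
    have h2 := stars_pt w'
    unfold stars at h1 h2
    omega
  have heq := eq_of_subset_of_card_le hsub hcard
  have hmem : i ∈ (univ.filter fun i => w.1 i = Fin.last (b + 1)) := by
    rw [heq]
    exact mem_filter.2 ⟨mem_univ _, hi⟩
  exact (mem_filter.1 hmem).2

/-- `F_{D - q} ⊆ Y_D` (for `q ≥ 1`) -/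
theorem mon_mem_YY {D : ℕ} (hbN : b < N) (s : Wd N b) (h : deg s + (N - b) ≤ D) :
    mon K s ∈ YY K N b D := by
  refine Submodule.span_mono (Set.image_mono ?_) (cover_vis (fun w => Sub s w.1)
    (fun w i => s i ≠ 0 ∨ w.1 i = Fin.last (b + 1)) (mon K s) ?_ fun w hw => mon_apply_neg hw)
  · rintro u ⟨w, _, _, rfl⟩
    have hst := stars_pt w
    constructor
    · refine (deg_vw_le (A := (univ.filter fun i => s i ≠ 0) ∪
        (univ.filter fun i => w.1 i = Fin.last (b + 1))) ?_).trans ?_
      · rintro i (hi | hi)
        · exact mem_union_left _ (mem_filter.2 ⟨mem_univ _, hi⟩)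
        · exact mem_union_right _ (mem_filter.2 ⟨mem_univ _, hi⟩)
      · refine (card_union_le _ _).trans ?_
        unfold deg at h
        unfold stars at hst
        omega
    · refine le_trans ?_ (le_stars_vw (A := univ.filter fun i => w.1 i = Fin.last (b + 1)) ?_)
      · unfold stars at hst
        omega
      · intro i hi
        exact ⟨Or.inr (mem_filter.1 hi).2, (mem_filter.1 hi).2⟩
  · intro w w' hw hv
    have hstar := star_eq (w := w) (w' := w') fun i hi => (hv i (Or.inr hi)).trans hi
    have hw' : Sub s w'.1 := fun i hi => (hv i (Or.inl hi)).trans (hw i hi)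
    refine ⟨hw', fun i => ?_, ?_⟩
    · simp only [hstar i]
    · rw [mon_apply_pos hw, mon_apply_pos hw']

theorem FF_top : FF K N b N = ⊤ := by
  classical
  rw [eq_top_iff]
  intro G _
  refine Submodule.span_mono (Set.image_mono ?_)
    (mem_span_cover (K := K) (fun w => w.1) (fun w i _ => rfl) ?_ G ?_)
  · rintro u ⟨w, rfl, _⟩
    exact (deg_pt w).le
  · intro w w' h
    funext i
    exact h i (w.2.1 i)
  · intro w w' h
    rw [Subtype.ext h]

end Pool.Agent.MP_9cec2c_lc.PHS
end

section

/-!
# PHPF Part II: the order of the reduction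
-/

set_option autoImplicit false

open Finset

namespace Pool.Agent.MP_9cec2c_lc.PHS

variable {N b : ℕ}

theorem lv_inj {a c : Fin (b + 2)} (h : lv a = lv c) : a = c := by
  unfold lv at h
  have h1 := a.isLt
  have h2 := c.isLt
  apply Fin.ext
  split_ifs at h with h3 h4 h4
  · rw [h3, h4]
  · omega
  · omega
  · exact h

theorem LexLt_trans {r s t : Wd N b} (h1 : LexLt r s) (h2 : LexLt s t) : LexLt r t := by
  obtain ⟨i, hi, hi'⟩ := h1
  obtain ⟨j, hj, hj'⟩ := h2
  rcases lt_trichotomy i j with h | h | h
  · exact ⟨i, fun k hk => (hi k hk).trans (hj k (hk.trans h)), by rw [← hj i h]; exact hi'⟩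
  · subst h
    exact ⟨i, fun k hk => (hi k hk).trans (hj k hk), hi'.trans hj'⟩
  · exact ⟨j, fun k hk => (hi k (hk.trans h)).trans (hj k hk), by rw [hi j h]; exact hj'⟩

theorem LexLt_irrefl (s : Wd N b) : ¬ LexLt s s := by
  rintro ⟨i, _, h⟩
  exact lt_irrefl _ h

theorem Lt_trans {r s t : Wd N b} (h1 : Lt r s) (h2 : Lt s t) : Lt r t := by
  unfold Lt at *
  rcases h1 with h1 | ⟨h1, h1'⟩
  · left
    rcases h2 with h2 | ⟨h2, _⟩
    · exact h1.trans h2
    · rw [← h2]; exact h1
  · rcases h2 with h2 | ⟨h2, h2'⟩
    · left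
      rw [h1]; exact h2
    · right
      refine ⟨h1.trans h2, ?_⟩
      rcases h1' with h1' | ⟨h1', h1''⟩
      · left
        rcases h2' with h2' | ⟨h2', _⟩
        · exact h2'.trans h1'
        · rw [h2']; exact h1'
      · rcases h2' with h2' | ⟨h2', h2''⟩
        · left
          rw [← h1']; exact h2'
        · right
          exact ⟨h2'.trans h1', LexLt_trans h2'' h1''⟩

theorem Lt_irrefl (s : Wd N b) : ¬ Lt s s := by
  rintro (h | ⟨_, h | ⟨_, h⟩⟩)
  · exact lt_irrefl _ h
  · exact lt_irrefl _ h
  · exact LexLt_irrefl _ h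

theorem Lt_wf : WellFounded (Lt : Wd N b → Wd N b → Prop) := by
  have : IsTrans (Wd N b) Lt := ⟨fun _ _ _ h1 h2 => Lt_trans h1 h2⟩
  have : Std.Irrefl (Lt : Wd N b → Wd N b → Prop) := ⟨fun s => Lt_irrefl s⟩
  exact Finite.wellFounded_of_trans_of_irrefl _

theorem deg_le_of_Lt {s t : Wd N b} (h : Lt t s) : deg t ≤ deg s := by
  rcases h with h | ⟨h, _⟩
  · exact h.le
  · exact h.le

/-- `t` and `s` have the same degree, the same number of stars: first place where they differ -/
theorem exists_first {s t : Wd N b} (h : s ≠ t) : ∃ i, (∀ i', i' < i → s i' = t i') ∧ s i ≠ t i := by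
  classical
  have hne : (univ.filter fun i => s i ≠ t i).Nonempty := by
    by_contra hcon
    rw [not_nonempty_iff_eq_empty, filter_eq_empty_iff] at hcon
    apply h
    funext i
    by_contra hi
    exact hcon (mem_univ i) hi
  refine ⟨(univ.filter fun i => s i ≠ t i).min' hne, ?_, ?_⟩
  · intro i' hi'
    by_contra hi
    have := min'_le (univ.filter fun i => s i ≠ t i) i' (mem_filter.2 ⟨mem_univ _, hi⟩)
    exact absurd hi' (not_lt.2 this)
  · exact (mem_filter.1 (min'_mem _ hne)).2

/-- to show `LexLt s t` it is enough that at the first difference the letter of `t` is not smaller -/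
theorem LexLt_of_first {s t : Wd N b} (h : s ≠ t)
    (h' : ∀ i, (∀ i', i' < i → s i' = t i') → ¬ lv (t i) < lv (s i)) : LexLt s t := by
  obtain ⟨i, hi, hne⟩ := exists_first h
  refine ⟨i, hi, ?_⟩
  rcases lt_trichotomy (lv (s i)) (lv (t i)) with h1 | h1 | h1
  · exact h1
  · exact absurd (lv_inj h1) hne
  · exact absurd h1 (h' i hi)

end Pool.Agent.MP_9cec2c_lc.PHS
end

section

/-!
# PHPF Part II: the relation for a violation of `(H_x)`, `x ≤ b + 1`

`C` chain with letters `≤ x`, `|C| >` number of the free holes `≤ x` (set `B`); `r` = `s` with `C` made free.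
`T` = complement of `B ∪ {0}`. `G w` = [`w` extends `r` and `w i ∈ T` for `i ∈ C`] `= ∑ t, mon t` over the
words `t = s` off `C`, `t i ∈ T` on `C` (each point with `G w = 1` extends exactly one of them).
If such a `t` is Good and `t ≠ s`: `t` has the same degree, and `stars t > stars s`, or `stars t = stars s`
and `LexLt s t` (first difference `i ∈ C`; if `lv (t i) < lv (s i)` then `t i` is a hole letter `≤ x`, not
free in `s` and not used by `s` off `C` (Good t), so `t i = s i1` with `i1 ∈ C`, `i1 < i`, `t i1 = s i1`, a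
hole used twice).
Right side: `cover_vis` for `G`, with the letters of `w` at the non-free rows of `r` and the letters
of `w` in `B`: `deg (e w) = deg r + |B| < deg s`.
-/

set_option autoImplicit false

open Finset

namespace Pool.Agent.MP_9cec2c_lc.PHS

variable {N b : ℕ} {K : Type} [Field K]

/-- `s` with the rows of `C` made free -/
def clr (s : Wd N b) (C : Finset (Fin N)) : Wd N b := fun i => if i ∈ C then 0 else s i

theorem clr_mem {s : Wd N b} {C : Finset (Fin N)} {i : Fin N} (h : i ∈ C) : clr s C i = 0 := if_pos h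

theorem clr_not_mem {s : Wd N b} {C : Finset (Fin N)} {i : Fin N} (h : i ∉ C) : clr s C i = s i :=
  if_neg h

theorem deg_clr {s : Wd N b} {C : Finset (Fin N)} (hC : ∀ i ∈ C, s i ≠ 0) :
    deg (clr s C) + C.card = deg s := by
  unfold deg
  have h1 : (univ.filter fun i => clr s C i ≠ 0) = (univ.filter fun i => s i ≠ 0) \ C := by
    ext i
    rw [mem_filter, mem_sdiff, mem_filter]
    by_cases hi : i ∈ C
    · rw [clr_mem hi]
      simp [hi]
    · rw [clr_not_mem hi]
      simp [hi]
  have h2 : C ⊆ univ.filter fun i => s i ≠ 0 := fun i hi => mem_filter.2 ⟨mem_univ _, hC i hi⟩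
  rw [h1, card_sdiff_of_subset h2]
  have := card_le_card h2
  omega

theorem stars_clr {s : Wd N b} {C : Finset (Fin N)} (hC : ∀ i ∈ C, s i ≠ Fin.last (b + 1)) :
    stars (clr s C) = stars s := by
  unfold stars
  congr 1
  ext i
  rw [mem_filter, mem_filter]
  by_cases hi : i ∈ C
  · rw [clr_mem hi]
    constructor
    · rintro ⟨_, h⟩
      exact absurd h.symm last_ne_zero'
    · rintro ⟨_, h⟩
      exact absurd h (hC i hi)
  · rw [clr_not_mem hi]

/-- a point has every hole letter exactly once -/
theorem pt_unique (w : Pt N b) {i i' : Fin N} (h : w.1 i = w.1 i') (ho : Ho (w.1 i)) : i = i' := by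
  obtain ⟨i0, _, h0⟩ := w.2.2 (w.1 i) ho
  rw [h0 i rfl, h0 i' h.symm]

/-- if `w'` agrees with `w` at the rows with a letter in the set `B` of hole letters then these rows are
the same -/
theorem vis_letters {B : Finset (Fin (b + 2))} (hB : ∀ a ∈ B, Ho a) {w w' : Pt N b}
    (h : ∀ i, w.1 i ∈ B → w'.1 i = w.1 i) (i : Fin N) : w'.1 i ∈ B ↔ w.1 i ∈ B := by
  constructor
  · intro hi
    obtain ⟨i0, h0, _⟩ := w.2.2 (w'.1 i) (hB _ hi)
    have h0' : w.1 i0 = w'.1 i := h0
    have h2 : w'.1 i0 = w'.1 i := by
      rw [h i0 (by rw [h0']; exact hi)]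
      exact h0'
    have h3 : i0 = i := pt_unique w' h2 (by rw [h2]; exact hB _ hi)
    rw [← h3, h0']
    exact hi
  · intro hi
    rw [h i hi]
    exact hi

theorem card_letters {B : Finset (Fin (b + 2))} (hB : ∀ a ∈ B, Ho a) (w : Pt N b) :
    (univ.filter fun i => w.1 i ∈ B).card ≤ B.card := by
  refine card_le_card_of_injOn (fun i => w.1 i) ?_ ?_
  · intro i hi
    rw [coe_filter] at hi
    exact hi.2
  · intro i hi i' _ h
    rw [coe_filter] at hi
    exact pt_unique w h (hB _ hi.2)

theorem relH {s : Wd N b} (hs : Good s) {x : ℕ} (hx : x ≤ b + 1) (h : ¬ CondH s x) :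
    mon K s ∈ Submodule.span K (mon K '' {t | Good t ∧ Lt t s ∧ (x ≤ b → stars s ≤ stars t)}) := by
  classical
  unfold CondH at h
  push Not at h
  obtain ⟨C, hch, hCx, hcard⟩ := h
  set B := frHset s x with hBdef
  have hB : ∀ a ∈ B, Ho a := by
    intro a ha
    rw [hBdef] at ha
    unfold frHset at ha
    rw [mem_filter] at ha
    exact ⟨ha.2.1, ha.2.2.1⟩
  have hBfree : ∀ a ∈ B, ∀ i, s i ≠ a := by
    intro a ha
    rw [hBdef] at ha
    unfold frHset at ha
    rw [mem_filter] at ha
    exact ha.2.2.2.2
  have hBmem : ∀ a, Ho a → a.val ≤ x → a ∉ B → ∃ i, s i = a := by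
    intro a h1 h2 h3
    by_contra hcon
    push Not at hcon
    apply h3
    rw [hBdef]
    unfold frHset
    rw [mem_filter]
    exact ⟨mem_univ _, h1.1, h1.2, h2, hcon⟩
  set r := clr s C with hr
  have hdegr : deg r + C.card = deg s := deg_clr hch.1
  set cond : Pt N b → Prop := fun w => Sub r w.1 ∧ ∀ i ∈ C, w.1 i ∉ B with hcond
  set G : Pt N b → K := fun w => if cond w then 1 else 0 with hG
  have hG1 : ∀ w, cond w → G w = 1 := fun w hw => if_pos hw
  have hG0 : ∀ w, ¬ cond w → G w = 0 := fun w hw => if_neg hw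
  have hsr : ∀ w : Pt N b, Sub s w.1 → cond w := by
    intro w hw
    refine ⟨?_, ?_⟩
    · intro i hi
      by_cases hiC : i ∈ C
      · rw [hr, clr_mem hiC] at hi
        exact absurd rfl hi
      · rw [hr, clr_not_mem hiC] at hi ⊢
        exact hw i hi
    · intro i hi hmem
      rw [hw i (hch.1 i hi)] at hmem
      exact hBfree _ hmem i rfl
  -- the right side
  have hright : G ∈ Submodule.span K
      (mon K '' {t | Good t ∧ Lt t s ∧ (x ≤ b → stars s ≤ stars t)}) := by
    refine Submodule.span_mono (Set.image_mono ?_)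
      (cover_vis cond (fun w i => r i ≠ 0 ∨ w.1 i ∈ B) G ?_ hG0)
    · rintro u ⟨w, hw, _, rfl⟩
      refine ⟨good_vw _ _, Or.inl ?_, ?_⟩
      · have h1 : deg (vw w fun i => r i ≠ 0 ∨ w.1 i ∈ B) ≤ deg r + B.card := by
          refine (deg_vw_le (A := (univ.filter fun i => r i ≠ 0) ∪ (univ.filter fun i => w.1 i ∈ B))
            ?_).trans ((card_union_le _ _).trans (add_le_add le_rfl (card_letters hB w)))
          rintro i (hi | hi)
          · exact mem_union_left _ (mem_filter.2 ⟨mem_univ _, hi⟩)
          · exact mem_union_right _ (mem_filter.2 ⟨mem_univ _, hi⟩)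
        have h2 : deg (vw w fun i => r i ≠ 0 ∨ w.1 i ∈ B) < deg s := by omega
        exact h2
      · intro hxb
        have h1 : stars r = stars s := by
          refine stars_clr fun i hi hl => ?_
          have := hCx i hi
          rw [hl, Fin.val_last] at this
          omega
        rw [← h1]
        refine le_stars_vw (A := univ.filter fun i => r i = Fin.last (b + 1)) fun i hi => ?_
        have hi' := (mem_filter.1 hi).2
        have h2 : r i ≠ 0 := by
          rw [hi']
          exact last_ne_zero'
        exact ⟨Or.inl h2, (hw.1 i h2).trans hi'⟩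
    · intro w w' hw hv
      have hv1 : ∀ i, r i ≠ 0 → w'.1 i = w.1 i := fun i hi => hv i (Or.inl hi)
      have hv2 := vis_letters hB fun i hi => hv i (Or.inr hi)
      have hc' : cond w' := by
        refine ⟨fun i hi => (hv1 i hi).trans (hw.1 i hi), fun i hi hmem => ?_⟩
        exact hw.2 i hi ((hv2 i).1 hmem)
      refine ⟨hc', fun i => ?_, ?_⟩
      · rw [hv2 i]
      · rw [hG1 w hw, hG1 w' hc']
  -- the left side
  have hleft : G - mon K s ∈ Submodule.span K
      (mon K '' {t | Good t ∧ Lt t s ∧ (x ≤ b → stars s ≤ stars t)}) := by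
    refine Submodule.span_mono (Set.image_mono ?_)
      (cover_vis cond (fun _ i => s i ≠ 0) (G - mon K s) ?_ ?_)
    · rintro u ⟨w, hw, hne, rfl⟩
      have hnot : ¬ Sub s w.1 := by
        intro hsub
        apply hne
        rw [Pi.sub_apply, hG1 w hw]
        unfold mon
        rw [if_pos hsub, sub_self]
      set u : Wd N b := vw w (fun i => s i ≠ 0) with hu
      have hu1 : ∀ i, s i ≠ 0 → u i = w.1 i := fun i hi => vw_pos hi
      have hu0 : ∀ i, s i = 0 → u i = 0 := fun i hi => vw_neg (not_not.2 hi)
      have huC : ∀ i, i ∉ C → u i = s i := by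
        intro i hi
        by_cases h0 : s i = 0
        · rw [hu0 i h0, h0]
        · rw [hu1 i h0]
          have : r i = s i := clr_not_mem hi
          rw [hw.1 i (by rw [this]; exact h0), this]
      have hsub : Sub u w.1 := sub_vw _ _
      have hgood : Good u := good_of_sub hsub
      have huB : ∀ i ∈ C, u i ∉ B := fun i hi => by
        rw [hu1 i (hch.1 i hi)]
        exact hw.2 i hi
      have hune : ∀ i ∈ C, u i ≠ 0 := fun i hi => by
        rw [hu1 i (hch.1 i hi)]
        exact w.2.1 i
      have hus : s ≠ u := by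
        intro heq
        apply hnot
        rw [heq]
        exact hsub
      have hdeg : deg u = deg s := by
        unfold deg
        congr 1
        ext i
        rw [mem_filter, mem_filter]
        by_cases h0 : s i = 0
        · rw [hu0 i h0, h0]
        · rw [hu1 i h0]
          simp [h0, w.2.1 i]
      -- a hole letter of `u` on `C`, at most `x`, is a letter of `s` on `C`
      have hkey : ∀ i ∈ C, Ho (u i) → (u i).val ≤ x → ∃ i1 ∈ C, s i1 = u i := by
        intro i hi hho hle
        obtain ⟨i1, hi1⟩ := hBmem (u i) hho hle (huB i hi)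
        refine ⟨i1, ?_, hi1⟩
        by_contra hnC
        have h1 : u i1 = u i := (huC i1 hnC).trans hi1
        have h2 : i1 = i := hgood.1 i1 i h1 (by rw [h1]; exact hho)
        exact hnC (by rw [h2]; exact hi)
      have hstars : stars s ≤ stars u := by
        by_cases hxb : x ≤ b
        · refine card_le_card fun i hi => ?_
          rw [mem_filter] at hi ⊢
          refine ⟨hi.1, ?_⟩
          have hiC : i ∉ C := by
            intro hiC
            have := hCx i hiC
            rw [hi.2, Fin.val_last] at this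
            omega
          rw [huC i hiC]
          exact hi.2
        · have hx' : x = b + 1 := by omega
          have h1 : (C.filter fun i => u i ≠ Fin.last (b + 1)).card ≤
              (C.filter fun i => s i ≠ Fin.last (b + 1)).card := by
            have hex : ∀ i ∈ C.filter (fun i => u i ≠ Fin.last (b + 1)), ∃ i1 ∈ C, s i1 = u i := by
              intro i hi
              rw [mem_filter] at hi
              refine hkey i hi.1 ⟨hune i hi.1, hi.2⟩ ?_
              have := (u i).isLt
              omega
            choose! f hf1 hf2 using hex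
            refine card_le_card_of_injOn f ?_ ?_
            · intro i hi
              have hi' := hi
              rw [coe_filter] at hi'
              rw [coe_filter]
              refine ⟨hf1 i hi, ?_⟩
              rw [hf2 i hi]
              exact hi'.2
            · intro i hi i' hi' hff
              have hi2 := hi
              rw [coe_filter] at hi2
              have h3 : u i = u i' := by rw [← hf2 i hi, ← hf2 i' hi', hff]
              exact hgood.1 i i' h3 ⟨hune i hi2.1, hi2.2⟩
          have h2 := card_filter_add_card_filter_not (s := C) (fun i => u i = Fin.last (b + 1))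
          have h3 := card_filter_add_card_filter_not (s := C) (fun i => s i = Fin.last (b + 1))
          have h1' : (C.filter fun i => ¬ (u i = Fin.last (b + 1))).card ≤
              (C.filter fun i => ¬ (s i = Fin.last (b + 1))).card := h1
          have h4 : ∀ t : Wd N b, stars t = (C.filter fun i => t i = Fin.last (b + 1)).card +
              (Cᶜ.filter fun i => t i = Fin.last (b + 1)).card := by
            intro t
            unfold stars
            rw [← card_union_of_disjoint, ← filter_union, union_compl]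
            exact disjoint_filter_filter disjoint_compl_right
          have h5 : (Cᶜ.filter fun i => u i = Fin.last (b + 1)) =
              (Cᶜ.filter fun i => s i = Fin.last (b + 1)) := by
            refine filter_congr fun i hi => ?_
            rw [huC i (mem_compl.1 hi)]
          rw [h4 s, h4 u, h5]
          omega
      refine ⟨hgood, Or.inr ⟨hdeg, ?_⟩, fun _ => hstars⟩
      rcases hstars.lt_or_eq with hlt | heq
      · exact Or.inl hlt
      · refine Or.inr ⟨heq, LexLt_of_first hus fun i hi hlv => ?_⟩
        have hiC : i ∈ C := by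
          by_contra hnC
          rw [huC i hnC] at hlv
          exact lt_irrefl _ hlv
        have hlv' : (u i).val < (s i).val := by
          unfold lv at hlv
          rw [if_neg (hune i hiC), if_neg (hch.1 i hiC)] at hlv
          exact hlv
        have hsi := hCx i hiC
        have hho : Ho (u i) := by
          refine ⟨hune i hiC, fun hl => ?_⟩
          have := (s i).isLt
          rw [hl, Fin.val_last] at hlv'
          omega
        obtain ⟨i1, hi1, h1⟩ := hkey i hiC hho (by omega)
        have hlt : i1 < i := by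
          by_contra hge
          have := hch.2 i hiC i1 hi1 (not_lt.1 hge)
          rw [h1] at this
          exact absurd hlv' (not_lt.2 this)
        have h2 : u i1 = u i := (hi i1 hlt).symm.trans h1
        have h3 := hgood.1 i1 i h2 (by rw [h2]; exact hho)
        exact absurd h3 hlt.ne
    · intro w w' hw hv
      have hv' : ∀ i, s i ≠ 0 → w'.1 i = w.1 i := hv
      have hc' : cond w' := by
        refine ⟨fun i hi => ?_, fun i hi => ?_⟩
        · have hi' : s i ≠ 0 := by
            by_cases hiC : i ∈ C
            · exact hch.1 i hiC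
            · rw [hr, clr_not_mem hiC] at hi
              exact hi
          exact (hv' i hi').trans (hw.1 i hi)
        · rw [hv' i (hch.1 i hi)]
          exact hw.2 i hi
      refine ⟨hc', fun _ => Iff.rfl, ?_⟩
      rw [Pi.sub_apply, Pi.sub_apply, hG1 w hw, hG1 w' hc']
      congr 1
      by_cases hsub : Sub s w.1
      · rw [mon_apply_pos hsub, mon_apply_pos fun i hi => (hv' i hi).trans (hsub i hi)]
      · rw [mon_apply_neg hsub, mon_apply_neg]
        intro hsub'
        exact hsub fun i hi => (hv' i hi).symm.trans (hsub' i hi)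
    · intro w hw
      rw [Pi.sub_apply, hG0 w hw]
      unfold mon
      rw [if_neg fun hsub => hw (hsr w hsub), sub_zero]
  have := Submodule.sub_mem _ hright hleft
  rwa [sub_sub_cancel] at this

end Pool.Agent.MP_9cec2c_lc.PHS
end

section

/-!
# PHPF Part II: the relation for a violation of `(P_y)`

`C` chain in pigeons `< y`, `|C| >` number of the free pigeons `< y` (set `R`); `jset` = hole letters of `s` on
`C`, `a` = number of stars of `s` in `C`; `rm s C` = `s` with `C` made free; `T` = `C` ∪ free pigeons `≥ y`.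
`relP_identity`: the sum of the monomials with the letters of `jset` exactly once and `a` stars on `T` is an
alternating combination of the monomials with letters in `jset ∪ {*, 0}` on `R`.
-/

set_option autoImplicit false

namespace Pool.Agent.MP_9cec2c_lc.PHS

open Finset

variable {N b : ℕ} {K : Type} [Field K]

namespace RelP

/-- Alternating binomial identity. -/
theorem choose_alt (n m a : ℕ) :
    ∑ k ∈ range (a + 1), (-1 : ℤ) ^ k * (m.choose k : ℤ) * ((n + m - k).choose (a - k) : ℤ) =
      (n.choose a : ℤ) := by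
  induction m generalizing n a with
  | zero =>
    rw [sum_eq_single 0]
    · simp
    · intro k _ hk
      rw [Nat.choose_eq_zero_of_lt (Nat.pos_of_ne_zero hk)]
      simp
    · intro h
      exact absurd (mem_range.2 (Nat.succ_pos a)) h
  | succ m ih =>
    cases a with
    | zero => simp
    | succ a =>
      have h1 := ih (n + 1) (a + 1)
      have h2 := ih n a
      have e1 : ∀ k, n + (m + 1) - k = n + 1 + m - k := fun k => by omega
      simp_rw [e1]
      rw [sum_range_succ' _ (a + 1)] at h1 ⊢
      have e2 : ∀ k, (-1 : ℤ) ^ (k + 1) * ((m + 1).choose (k + 1) : ℤ) *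
          ((n + 1 + m - (k + 1)).choose (a + 1 - (k + 1)) : ℤ) =
          (-1 : ℤ) ^ (k + 1) * (m.choose (k + 1) : ℤ) *
            ((n + 1 + m - (k + 1)).choose (a + 1 - (k + 1)) : ℤ) -
          (-1 : ℤ) ^ k * (m.choose k : ℤ) * ((n + m - k).choose (a - k) : ℤ) := by
        intro k
        have e3 : n + 1 + m - (k + 1) = n + m - k := by omega
        have e4 : a + 1 - (k + 1) = a - k := by omega
        rw [e3, e4, Nat.choose_succ_succ]
        push_cast
        ring
      rw [sum_congr rfl fun k _ => e2 k, sum_sub_distrib, h2]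
      have h3 : ((n + 1).choose (a + 1) : ℤ) = n.choose a + n.choose (a + 1) := by
        rw [Nat.choose_succ_succ]
        push_cast
        ring
      rw [h3] at h1
      simp only [Nat.choose_zero_right] at h1 ⊢
      linarith

/-- The word `r`, with the letters of `x` at the positions `B`. -/
def put (r x : Wd N b) (B : Finset (Fin N)) : Wd N b := fun i => if i ∈ B then x i else r i

open Classical in
theorem eval_sum (P : Finset (Fin N)) (r : Wd N b) (hr : ∀ i ∈ P, r i = 0) (F : Wd N b → K)
    (x : Pt N b) :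
    ∑ t ∈ univ.filter (fun t : Wd N b => ∀ i ∉ P, t i = r i), F t * mon K t x =
      mon K r x * ∑ B ∈ P.powerset, F (put r x.1 B) := by
  by_cases hx : ∀ i, r i ≠ 0 → x.1 i = r i
  · have h1 : mon K r x = 1 := if_pos hx
    rw [h1, one_mul]
    symm
    have h2 : ∀ t ∈ univ.filter (fun t : Wd N b => ∀ i ∉ P, t i = r i),
        t ∉ P.powerset.image (put r x.1) → F t * mon K t x = 0 := by
      intro t ht ht2
      rw [mem_filter] at ht
      have : ¬ Sub t x.1 := by
        intro h
        refine ht2 (mem_image.2 ⟨P.filter fun i => t i ≠ 0, mem_powerset.2 (filter_subset _ _), ?_⟩)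
        funext i
        unfold put
        by_cases hi : i ∈ P
        · by_cases h0 : t i = 0
          · rw [if_neg (by simp [h0]), hr i hi, h0]
          · rw [if_pos (mem_filter.2 ⟨hi, h0⟩), h i h0]
        · rw [if_neg (fun h => hi (mem_filter.1 h).1), ht.2 i hi]
      unfold mon
      rw [if_neg this, mul_zero]
    have hsub : P.powerset.image (put r x.1) ⊆
        univ.filter (fun t : Wd N b => ∀ i ∉ P, t i = r i) := by
      intro t ht
      obtain ⟨B, hB, rfl⟩ := mem_image.1 ht
      refine mem_filter.2 ⟨mem_univ _, fun i hi => ?_⟩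
      unfold put
      rw [if_neg (fun h => hi (mem_powerset.1 hB h))]
    rw [← sum_subset hsub h2, sum_image]
    · refine sum_congr rfl fun B hB => ?_
      have : mon K (put r x.1 B) x = 1 := by
        refine if_pos fun i hi => ?_
        unfold put at hi ⊢
        by_cases h : i ∈ B
        · rw [if_pos h]
        · rw [if_neg h] at hi ⊢
          exact hx i hi
      rw [this, mul_one]
    · intro B hB B' hB' h
      ext i
      have h3 := congrFun h i
      unfold put at h3
      have hB := mem_powerset.1 (mem_coe.1 hB)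
      have hB' := mem_powerset.1 (mem_coe.1 hB')
      constructor
      · intro h4
        by_contra h5
        rw [if_pos h4, if_neg h5, hr i (hB h4)] at h3
        exact x.2.1 i h3
      · intro h4
        by_contra h5
        rw [if_neg h5, if_pos h4, hr i (hB' h4)] at h3
        exact x.2.1 i h3.symm
  · have h1 : mon K r x = 0 := if_neg hx
    rw [h1, zero_mul]
    refine sum_eq_zero fun t ht => ?_
    rw [mem_filter] at ht
    push Not at hx
    obtain ⟨i, hi, hi2⟩ := hx
    have hiP : i ∉ P := fun h => hi (hr i h)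
    have : mon K t x = 0 := by
      refine if_neg fun h => ?_
      have := h i (by rw [ht.2 i hiP]; exact hi)
      rw [ht.2 i hiP] at this
      exact hi2 this
    rw [this, mul_zero]


open Classical in
/-- The family on the left: the letters in `J` exactly once and the star `a` times on `T`. -/
noncomputable def fl (K : Type) [Field K] (T : Finset (Fin N)) (J : Finset (Fin (b + 2))) (a : ℕ)
    (t : Wd N b) : K :=
  if (∀ i ∈ T, t i = 0 ∨ t i ∈ J ∨ t i = Fin.last (b + 1)) ∧ (∀ j ∈ J, ∃ i ∈ T, t i = j) ∧
    (∀ i ∈ T, ∀ i' ∈ T, t i ∈ J → t i' = t i → i' = i) ∧ #{i ∈ T | t i = Fin.last (b + 1)} = a then 1 else 0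

open Classical in
/-- The coefficients on the right. -/
noncomputable def fr (K : Type) [Field K] (T : Finset (Fin N)) (J : Finset (Fin (b + 2)))
    (a m : ℕ) (t : Wd N b) : K :=
  if (∀ i ∈ T, t i = 0 ∨ t i ∈ J ∨ t i = Fin.last (b + 1)) ∧ #{i ∈ T | t i = Fin.last (b + 1)} ≤ a then
    (-1) ^ #{i ∈ T | t i ≠ 0} *
      ((m - #{i ∈ T | t i = Fin.last (b + 1)}).choose (a - #{i ∈ T | t i = Fin.last (b + 1)}) : K) else 0

open Classical in
theorem left_eval (T : Finset (Fin N)) (J : Finset (Fin (b + 2))) (a : ℕ) (r : Wd N b)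
    (hr : ∀ i ∈ T, r i = 0) (hJ : ∀ j ∈ J, Ho j) (x : Pt N b) :
    ∑ B ∈ T.powerset, fl K T J a (put r x.1 B) =
      if ∀ j ∈ J, ∃ i ∈ T, x.1 i = j then ((#{i ∈ T | x.1 i = Fin.last (b + 1)}).choose a : K) else 0 := by
  have hput : ∀ B ∈ T.powerset, ∀ i ∈ T, put r x.1 B i = if i ∈ B then x.1 i else 0 := by
    intro B _ i hi
    unfold put
    split_ifs
    · rfl
    · exact hr i hi
  have hs0 : Fin.last (b + 1) ≠ 0 := by
    intro h
    have := congrArg Fin.val h
    simp at this
  have huniq : ∀ i i', x.1 i ∈ J → x.1 i' = x.1 i → i' = i := by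
    intro i i' h h'
    obtain ⟨i0, -, h2⟩ := x.2.2 (x.1 i) (hJ _ h)
    exact (h2 i' h').trans (h2 i rfl).symm
  have key : ∀ B ∈ T.powerset, fl K T J a (put r x.1 B) =
      if (∀ i ∈ B, x.1 i ∈ J ∨ x.1 i = Fin.last (b + 1)) ∧ (∀ j ∈ J, ∃ i ∈ B, x.1 i = j) ∧
        #{i ∈ B | x.1 i = Fin.last (b + 1)} = a then 1 else 0 := by
    intro B hB
    have hBT := mem_powerset.1 hB
    unfold fl
    have c1 : (∀ i ∈ T, put r x.1 B i = 0 ∨ put r x.1 B i ∈ J ∨ put r x.1 B i = Fin.last (b + 1)) ↔
        ∀ i ∈ B, x.1 i ∈ J ∨ x.1 i = Fin.last (b + 1) := by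
      constructor
      · intro h i hi
        have := h i (hBT hi)
        rw [hput B hB i (hBT hi), if_pos hi] at this
        rcases this with h | h
        · exact absurd h (x.2.1 i)
        · exact h
      · intro h i hi
        rw [hput B hB i hi]
        split_ifs with h2
        · exact Or.inr (h i h2)
        · exact Or.inl rfl
    have c2 : (∀ j ∈ J, ∃ i ∈ T, put r x.1 B i = j) ↔ ∀ j ∈ J, ∃ i ∈ B, x.1 i = j := by
      constructor
      · intro h j hj
        obtain ⟨i, hi, hi2⟩ := h j hj
        rw [hput B hB i hi] at hi2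
        split_ifs at hi2 with h2
        · exact ⟨i, h2, hi2⟩
        · exact absurd hi2.symm (hJ j hj).1
      · intro h j hj
        obtain ⟨i, hi, hi2⟩ := h j hj
        refine ⟨i, hBT hi, ?_⟩
        rw [hput B hB i (hBT hi), if_pos hi, hi2]
    have c3 : ∀ i ∈ T, ∀ i' ∈ T, put r x.1 B i ∈ J → put r x.1 B i' = put r x.1 B i → i' = i := by
      intro i hi i' hi' h h'
      rw [hput B hB i hi] at h h'
      rw [hput B hB i' hi'] at h'
      split_ifs at h h' with h2 h3
      · exact huniq i i' h h'
      · exact absurd h'.symm (hJ _ h).1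
      · exact absurd rfl (hJ _ h).1
      · exact absurd rfl (hJ _ h).1
    have c4 : #{i ∈ T | put r x.1 B i = Fin.last (b + 1)} = #{i ∈ B | x.1 i = Fin.last (b + 1)} := by
      congr 1
      ext i
      rw [mem_filter, mem_filter]
      constructor
      · rintro ⟨hi, h⟩
        rw [hput B hB i hi] at h
        split_ifs at h with h2
        · exact ⟨h2, h⟩
        · exact absurd h.symm hs0
      · rintro ⟨hi, h⟩
        refine ⟨hBT hi, ?_⟩
        rw [hput B hB i (hBT hi), if_pos hi, h]
    refine if_congr ?_ rfl rfl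
    rw [c1, c2, c4]
    constructor
    · rintro ⟨h1, h2, -, h4⟩
      exact ⟨h1, h2, h4⟩
    · rintro ⟨h1, h2, h4⟩
      exact ⟨h1, h2, c3, h4⟩
  rw [sum_congr rfl key, ← sum_filter, sum_const, nsmul_eq_mul, mul_one]
  split_ifs with h
  · congr 1
    rw [← card_powersetCard]
    refine card_bij' (fun B _ => B.filter fun i => x.1 i = Fin.last (b + 1))
      (fun A _ => A ∪ T.filter fun i => x.1 i ∈ J) ?_ ?_ ?_ ?_
    · intro B hB
      rw [mem_filter, mem_powerset] at hB
      rw [mem_powersetCard]
      exact ⟨filter_subset_filter _ hB.1, hB.2.2.2⟩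
    · intro A hA
      rw [mem_powersetCard] at hA
      have hA1 : ∀ i ∈ A, i ∈ T ∧ x.1 i = Fin.last (b + 1) := fun i hi => mem_filter.1 (hA.1 hi)
      rw [mem_filter, mem_powerset]
      refine ⟨union_subset (fun i hi => (hA1 i hi).1) (filter_subset _ _), ?_, ?_, ?_⟩
      · intro i hi
        rcases mem_union.1 hi with h1 | h1
        · exact Or.inr (hA1 i h1).2
        · exact Or.inl (mem_filter.1 h1).2
      · intro j hj
        obtain ⟨i, hi, hi2⟩ := h j hj
        exact ⟨i, mem_union.2 (Or.inr (mem_filter.2 ⟨hi, by rw [hi2]; exact hj⟩)), hi2⟩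
      · rw [filter_union]
        have e1 : (T.filter fun i => x.1 i ∈ J).filter (fun i => x.1 i = Fin.last (b + 1)) = ∅ := by
          rw [filter_filter, filter_eq_empty_iff]
          rintro i _ ⟨h1, h2⟩
          exact (hJ _ h1).2 h2
        rw [e1, union_empty, filter_true_of_mem fun i hi => (hA1 i hi).2, hA.2]
    · intro B hB
      rw [mem_filter, mem_powerset] at hB
      ext i
      rw [mem_union, mem_filter, mem_filter]
      constructor
      · rintro (h1 | ⟨h1, h2⟩)
        · exact h1.1
        · obtain ⟨i', hi', hi2⟩ := hB.2.2.1 _ h2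
          rwa [← huniq i i' h2 hi2]
      · intro h1
        rcases hB.2.1 i h1 with h2 | h2
        · exact Or.inr ⟨hB.1 h1, h2⟩
        · exact Or.inl ⟨h1, h2⟩
    · intro A hA
      rw [mem_powersetCard] at hA
      have hA1 : ∀ i ∈ A, i ∈ T ∧ x.1 i = Fin.last (b + 1) := fun i hi => mem_filter.1 (hA.1 hi)
      rw [filter_union]
      have e1 : (T.filter fun i => x.1 i ∈ J).filter (fun i => x.1 i = Fin.last (b + 1)) = ∅ := by
        rw [filter_filter, filter_eq_empty_iff]
        rintro i _ ⟨h1, h2⟩
        exact (hJ _ h1).2 h2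
      rw [e1, union_empty, filter_true_of_mem fun i hi => (hA1 i hi).2]
  · rw [card_eq_zero.2, Nat.cast_zero]
    rw [filter_eq_empty_iff]
    rintro B hB ⟨-, h2, -⟩
    refine h fun j hj => ?_
    obtain ⟨i, hi, hi2⟩ := h2 j hj
    exact ⟨i, mem_powerset.1 hB hi, hi2⟩


open Classical in
theorem right_eval (T : Finset (Fin N)) (J : Finset (Fin (b + 2))) (a m : ℕ) (r : Wd N b)
    (hr : ∀ i ∈ T, r i = 0) (hJ : ∀ j ∈ J, Ho j) (x : Pt N b) :
    ∑ B ∈ T.powerset, fr K T J a m (put r x.1 B) =
      if ∃ i ∈ T, x.1 i ∈ J then 0 else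
        ∑ k ∈ range (a + 1), (-1) ^ k * ((#{i ∈ T | x.1 i = Fin.last (b + 1)}).choose k : K) *
          ((m - k).choose (a - k) : K) := by
  have hput : ∀ B ∈ T.powerset, ∀ i ∈ T, put r x.1 B i = if i ∈ B then x.1 i else 0 := by
    intro B _ i hi
    unfold put
    split_ifs
    · rfl
    · exact hr i hi
  have hs0 : Fin.last (b + 1) ≠ 0 := by
    intro h
    have := congrArg Fin.val h
    simp at this
  obtain ⟨G, hG⟩ : ∃ G, G = T.filter fun i => x.1 i ∈ J ∨ x.1 i = Fin.last (b + 1) := ⟨_, rfl⟩
  have hGT : G ⊆ T := hG ▸ filter_subset _ _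
  obtain ⟨h, hh⟩ : ∃ h : Finset (Fin N) → K, h = fun B =>
      if #{i ∈ B | x.1 i = Fin.last (b + 1)} ≤ a then (-1) ^ #B *
        ((m - #{i ∈ B | x.1 i = Fin.last (b + 1)}).choose (a - #{i ∈ B | x.1 i = Fin.last (b + 1)}) : K) else 0 :=
    ⟨_, rfl⟩
  have key : ∀ B ∈ T.powerset, fr K T J a m (put r x.1 B) = if B ⊆ G then h B else 0 := by
    intro B hB
    have hBT := mem_powerset.1 hB
    unfold fr
    have c1 : (∀ i ∈ T, put r x.1 B i = 0 ∨ put r x.1 B i ∈ J ∨ put r x.1 B i = Fin.last (b + 1)) ↔
        B ⊆ G := by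
      rw [hG]
      constructor
      · intro h i hi
        have := h i (hBT hi)
        rw [hput B hB i (hBT hi), if_pos hi] at this
        rcases this with h | h
        · exact absurd h (x.2.1 i)
        · exact mem_filter.2 ⟨hBT hi, h⟩
      · intro h i hi
        rw [hput B hB i hi]
        split_ifs with h2
        · exact Or.inr (mem_filter.1 (h h2)).2
        · exact Or.inl rfl
    have c4 : #{i ∈ T | put r x.1 B i = Fin.last (b + 1)} = #{i ∈ B | x.1 i = Fin.last (b + 1)} := by
      congr 1
      ext i
      rw [mem_filter, mem_filter]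
      constructor
      · rintro ⟨hi, h⟩
        rw [hput B hB i hi] at h
        split_ifs at h with h2
        · exact ⟨h2, h⟩
        · exact absurd h.symm hs0
      · rintro ⟨hi, h⟩
        refine ⟨hBT hi, ?_⟩
        rw [hput B hB i (hBT hi), if_pos hi, h]
    have c5 : #{i ∈ T | put r x.1 B i ≠ 0} = #B := by
      congr 1
      ext i
      rw [mem_filter]
      constructor
      · rintro ⟨hi, h⟩
        rw [hput B hB i hi] at h
        by_contra h2
        rw [if_neg h2] at h
        exact h rfl
      · intro hi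
        refine ⟨hBT hi, ?_⟩
        rw [hput B hB i (hBT hi), if_pos hi]
        exact x.2.1 i
    rw [c4, c5, hh]
    by_cases h1 : B ⊆ G
    · rw [if_pos h1]
      refine if_congr ⟨fun h2 => h2.2, fun h2 => ⟨c1.2 h1, h2⟩⟩ rfl rfl
    · rw [if_neg h1, if_neg fun h2 => h1 (c1.1 h2.1)]
  rw [sum_congr rfl key, ← sum_filter]
  have hpow : T.powerset.filter (fun B => B ⊆ G) = G.powerset := by
    ext B
    rw [mem_filter, mem_powerset, mem_powerset]
    exact ⟨fun h => h.2, fun h => ⟨h.trans hGT, h⟩⟩
  rw [hpow]
  split_ifs with hex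
  · obtain ⟨i, hi, hi2⟩ := hex
    have hiG : i ∈ G := by
      rw [hG]
      exact mem_filter.2 ⟨hi, Or.inl hi2⟩
    rw [← insert_erase hiG, sum_powerset_insert (notMem_erase _ _), ← sum_add_distrib]
    refine sum_eq_zero fun B hB => ?_
    have hiB : i ∉ B := fun h => notMem_erase i G (mem_powerset.1 hB h)
    have hst : (insert i B).filter (fun i => x.1 i = Fin.last (b + 1)) = B.filter fun i => x.1 i = Fin.last (b + 1) := by
      rw [filter_insert, if_neg (hJ _ hi2).2]
    rw [hh]
    simp only
    rw [hst, card_insert_of_notMem hiB, pow_succ]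
    split_ifs <;> ring
  · have hGs : G = T.filter fun i => x.1 i = Fin.last (b + 1) := by
      rw [hG]
      refine filter_congr fun i hi => ?_
      constructor
      · rintro (h1 | h1)
        · exact absurd ⟨i, hi, h1⟩ hex
        · exact h1
      · exact Or.inr
    rw [← hGs]
    obtain ⟨g, hg⟩ : ∃ g : ℕ → K, g = fun k => if k ≤ a then (-1) ^ k *
        ((m - k).choose (a - k) : K) else 0 := ⟨_, rfl⟩
    have h1 : ∀ B ∈ G.powerset, h B = g #B := by
      intro B hB
      have : B.filter (fun i => x.1 i = Fin.last (b + 1)) = B := by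
        refine filter_true_of_mem fun i hi => ?_
        have h2 := mem_powerset.1 hB hi
        rw [hGs] at h2
        exact (mem_filter.1 h2).2
      rw [hh, hg]
      simp only
      rw [this]
    rw [sum_congr rfl h1, sum_powerset_apply_card, hg]
    have h2 : ∀ n, ∑ k ∈ range (n + 1), (#G).choose k • (if k ≤ a then (-1) ^ k *
        ((m - k).choose (a - k) : K) else 0) = ∑ k ∈ (range (n + 1)).filter (fun k => k ≤ a),
          (-1) ^ k * ((#G).choose k : K) * ((m - k).choose (a - k) : K) := by
      intro n
      rw [sum_filter]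
      refine sum_congr rfl fun k _ => ?_
      rw [nsmul_eq_mul]
      split_ifs
      · ring
      · rw [mul_zero]
    rw [h2]
    refine sum_subset (fun k hk => ?_) fun k hk hk2 => ?_
    · rw [mem_filter] at hk
      exact mem_range.2 (by omega)
    · rw [mem_filter, mem_range, not_and] at hk2
      rw [mem_range] at hk
      have : #G < k := by
        by_contra h3
        exact hk2 (by omega) (by omega)
      rw [Nat.choose_eq_zero_of_lt this]
      simp

/-- The alternating identity in the field. -/
theorem choose_altK (n m a : ℕ) :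
    ∑ k ∈ range (a + 1), (-1 : K) ^ k * (m.choose k : K) * ((n + m - k).choose (a - k) : K) =
      (n.choose a : K) := by
  have h := congrArg (Int.cast : ℤ → K) (choose_alt n m a)
  push_cast at h
  exact h

open Classical in
/-- The relation for columns. -/
theorem relP_identity (T R : Finset (Fin N)) (J : Finset (Fin (b + 2))) (a m q : ℕ) (r : Wd N b)
    (hTR : Disjoint T R) (hr : ∀ i, r i = 0 ↔ i ∈ T ∨ i ∈ R) (hJ : ∀ j ∈ J, Ho j)
    (hJr : ∀ i, r i ∉ J) (hq : ∀ x : Pt N b, #{i | x.1 i = Fin.last (b + 1)} = q)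
    (hm : m + #{i | r i = Fin.last (b + 1)} = q) :
    ∑ t ∈ univ.filter (fun t : Wd N b => ∀ i ∉ T, t i = r i), fl K T J a t • mon K t =
    ∑ t ∈ univ.filter (fun t : Wd N b => ∀ i ∉ R, t i = r i), fr K R J a m t • mon K t := by
  have hs0 : Fin.last (b + 1) ≠ 0 := by
    intro h
    have := congrArg Fin.val h
    simp at this
  funext x
  rw [Finset.sum_apply, Finset.sum_apply]
  simp only [Pi.smul_apply, smul_eq_mul]
  rw [eval_sum T r (fun i hi => (hr i).2 (Or.inl hi)) _ x,
    eval_sum R r (fun i hi => (hr i).2 (Or.inr hi)) _ x,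
    left_eval T J a r (fun i hi => (hr i).2 (Or.inl hi)) hJ x,
    right_eval R J a m r (fun i hi => (hr i).2 (Or.inr hi)) hJ x]
  by_cases hx : ∀ i, r i ≠ 0 → x.1 i = r i
  · congr 1
    have h1 : (∀ j ∈ J, ∃ i ∈ T, x.1 i = j) ↔ ¬ ∃ i ∈ R, x.1 i ∈ J := by
      constructor
      · rintro h ⟨i, hi, hi2⟩
        obtain ⟨i', hi', h3⟩ := h _ hi2
        obtain ⟨i0, -, h2⟩ := x.2.2 (x.1 i) (hJ _ hi2)
        have : i' = i := (h2 i' h3).trans (h2 i rfl).symm
        exact disjoint_left.1 hTR hi' (this ▸ hi)
      · intro h j hj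
        obtain ⟨i, hi, -⟩ := x.2.2 j (hJ _ hj)
        refine ⟨i, ?_, hi⟩
        by_contra h2
        have h3 : i ∉ R := fun h4 => h ⟨i, h4, by rw [hi]; exact hj⟩
        have h4 : r i ≠ 0 := fun h5 => by
          rcases (hr i).1 h5 with h6 | h6
          · exact h2 h6
          · exact h3 h6
        have := hx i h4
        exact hJr i (by rw [← this, hi]; exact hj)
    have h2 : #{i ∈ T | x.1 i = Fin.last (b + 1)} + #{i ∈ R | x.1 i = Fin.last (b + 1)} = m := by
      have e1 : (univ.filter fun i => x.1 i = Fin.last (b + 1)) =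
          (T.filter fun i => x.1 i = Fin.last (b + 1)) ∪ ((R.filter fun i => x.1 i = Fin.last (b + 1)) ∪
            univ.filter fun i => r i = Fin.last (b + 1)) := by
        ext i
        simp only [mem_filter, mem_univ, true_and, mem_union]
        constructor
        · intro h
          by_cases h0 : r i = 0
          · rcases (hr i).1 h0 with h5 | h5
            · exact Or.inl ⟨h5, h⟩
            · exact Or.inr (Or.inl ⟨h5, h⟩)
          · exact Or.inr (Or.inr (by rw [← hx i h0]; exact h))
        · rintro (h | h | h)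
          · exact h.2
          · exact h.2
          · rw [hx i (by rw [h]; exact hs0)]
            exact h
      have e2 := hq x
      rw [e1, card_union_of_disjoint, card_union_of_disjoint] at e2
      · omega
      · rw [disjoint_left]
        intro i h3 h4
        rw [mem_filter] at h3 h4
        exact hs0 (h4.2.symm.trans ((hr i).2 (Or.inr h3.1)))
      · rw [disjoint_left]
        intro i h3 h4
        rw [mem_union, mem_filter, mem_filter] at h4
        rw [mem_filter] at h3
        rcases h4 with h4 | h4
        · exact disjoint_left.1 hTR h3.1 h4.1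
        · exact hs0 (h4.2.symm.trans ((hr i).2 (Or.inl h3.1)))
    by_cases h3 : ∃ i ∈ R, x.1 i ∈ J
    · rw [if_pos h3, if_neg (fun h => h1.1 h h3)]
    · rw [if_neg h3, if_pos (h1.2 h3), ← h2, choose_altK]
  · have h1 : mon K r x = 0 := if_neg hx
    rw [h1, zero_mul, zero_mul]


/-- The word `s` with the letters at `C` made free. -/
def rm (s : Wd N b) (C : Finset (Fin N)) : Wd N b := fun i => if i ∈ C then 0 else s i

/-- The hole letters of `s` on `C`. -/
def jset (s : Wd N b) (C : Finset (Fin N)) : Finset (Fin (b + 2)) :=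
  (C.filter fun i => s i ≠ Fin.last (b + 1)).image s

theorem last_ne_zero : (Fin.last (b + 1)) ≠ (0 : Fin (b + 2)) := by
  intro h
  have := congrArg Fin.val h
  simp at this

/-- Degree and stars, split along a set of rows. -/
theorem deg_split (t : Wd N b) (T : Finset (Fin N)) :
    deg t = (univ.filter fun i => i ∉ T ∧ t i ≠ 0).card + (T.filter fun i => t i ≠ 0).card := by
  unfold deg
  rw [← card_union_of_disjoint]
  · congr 1
    ext i
    simp only [mem_filter, mem_univ, true_and, mem_union]
    tauto
  · rw [disjoint_left]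
    intro i h1 h2
    exact (mem_filter.1 h1).2.1 (mem_filter.1 h2).1

theorem stars_split (t : Wd N b) (T : Finset (Fin N)) :
    stars t = (univ.filter fun i => i ∉ T ∧ t i = Fin.last (b + 1)).card +
      (T.filter fun i => t i = Fin.last (b + 1)).card := by
  unfold stars
  rw [← card_union_of_disjoint]
  · congr 1
    ext i
    simp only [mem_filter, mem_univ, true_and, mem_union]
    tauto
  · rw [disjoint_left]
    intro i h1 h2
    exact (mem_filter.1 h1).2.1 (mem_filter.1 h2).1

theorem jset_ho {s : Wd N b} {C : Finset (Fin N)} (hc : ∀ i ∈ C, s i ≠ 0) :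
    ∀ j ∈ jset s C, Ho j := by
  intro j hj
  obtain ⟨i, hi, rfl⟩ := mem_image.1 hj
  exact ⟨hc i (mem_filter.1 hi).1, (mem_filter.1 hi).2⟩

theorem card_chain {s : Wd N b} (hs : Good s) {C : Finset (Fin N)} (hc : ∀ i ∈ C, s i ≠ 0) :
    C.card = (jset s C).card + (C.filter fun i => s i = Fin.last (b + 1)).card := by
  unfold jset
  rw [card_image_of_injOn, ← card_union_of_disjoint]
  · congr 1
    ext i
    simp only [mem_filter, mem_union]
    tauto
  · rw [disjoint_left]
    intro i h1 h2
    exact (mem_filter.1 h1).2 (mem_filter.1 h2).2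
  · intro i hi i' _ h
    rw [mem_coe, mem_filter] at hi
    exact hs.1 i i' h ⟨hc i hi.1, hi.2⟩

/-- The words on the left. -/
theorem left_word {s t : Wd N b} (hs : Good s) {C T : Finset (Fin N)} {y : ℕ} (hch : Chain s C)
    (hlt : ∀ i ∈ C, i.val < y) (hT : T = C ∪ univ.filter fun i => y ≤ i.val ∧ s i = 0)
    (ht : ∀ i ∉ T, t i = rm s C i)
    (h1 : ∀ i ∈ T, t i = 0 ∨ t i ∈ jset s C ∨ t i = Fin.last (b + 1))
    (h2 : ∀ j ∈ jset s C, ∃ i ∈ T, t i = j)
    (h3 : ∀ i ∈ T, ∀ i' ∈ T, t i ∈ jset s C → t i' = t i → i' = i)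
    (h4 : #{i ∈ T | t i = Fin.last (b + 1)} = (C.filter fun i => s i = Fin.last (b + 1)).card)
    (hne : t ≠ s) : Good t ∧ Lt t s ∧ stars t = stars s := by
  have hCT : C ⊆ T := hT ▸ subset_union_left
  have hoff : ∀ i ∉ T, t i = s i := fun i hi => by
    rw [ht i hi]
    exact if_neg fun h => hi (hCT h)
  have hTs : ∀ i ∈ T, i ∉ C → y ≤ i.val ∧ s i = 0 := by
    intro i hi hiC
    rw [hT, mem_union, mem_filter] at hi
    rcases hi with h | h
    · exact absurd h hiC
    · exact h.2
  have hJ := jset_ho (s := s) hch.1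
  have hcount : (T.filter fun i => t i ≠ 0).card = C.card := by
    rw [card_chain hs hch.1, ← h4]
    have e1 : (T.filter fun i => t i ≠ 0) = (T.filter fun i => t i ∈ jset s C) ∪
        (T.filter fun i => t i = Fin.last (b + 1)) := by
      ext i
      rw [mem_union, mem_filter, mem_filter, mem_filter]
      constructor
      · rintro ⟨hi, h0⟩
        rcases h1 i hi with h | h | h
        · exact absurd h h0
        · exact Or.inl ⟨hi, h⟩
        · exact Or.inr ⟨hi, h⟩
      · rintro (⟨hi, h⟩ | ⟨hi, h⟩)
        · exact ⟨hi, (hJ _ h).1⟩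
        · exact ⟨hi, by rw [h]; exact last_ne_zero⟩
    rw [e1, card_union_of_disjoint]
    · congr 1
      refine card_bij (fun i _ => t i) (fun i hi => (mem_filter.1 hi).2) ?_ ?_
      · intro i hi i' hi' h
        rw [mem_filter] at hi hi'
        exact (h3 i hi.1 i' hi'.1 hi.2 h.symm).symm
      · intro j hj
        obtain ⟨i, hi, rfl⟩ := h2 j hj
        exact ⟨i, mem_filter.2 ⟨hi, hj⟩, rfl⟩
    · rw [disjoint_left]
      intro i h5 h6
      exact (hJ _ (mem_filter.1 h5).2).2 (mem_filter.1 h6).2
  have hdeg : deg t = deg s := by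
    rw [deg_split t T, deg_split s T, hcount]
    have e1 : (T.filter fun i => s i ≠ 0) = C := by
      ext i
      rw [mem_filter]
      constructor
      · rintro ⟨hi, h0⟩
        by_contra h
        exact h0 (hTs i hi h).2
      · intro hi
        exact ⟨hCT hi, hch.1 i hi⟩
    rw [e1]
    congr 2
    refine filter_congr fun i _ => ?_
    constructor
    · rintro ⟨h, h'⟩
      exact ⟨h, by rwa [← hoff i h]⟩
    · rintro ⟨h, h'⟩
      exact ⟨h, by rwa [hoff i h]⟩
  have hstars : stars t = stars s := by
    rw [stars_split t T, stars_split s T, h4]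
    have e1 : (T.filter fun i => s i = Fin.last (b + 1)) =
        (C.filter fun i => s i = Fin.last (b + 1)) := by
      ext i
      rw [mem_filter, mem_filter]
      constructor
      · rintro ⟨hi, h0⟩
        refine ⟨?_, h0⟩
        by_contra h
        rw [(hTs i hi h).2] at h0
        exact last_ne_zero h0.symm
      · rintro ⟨hi, h⟩
        exact ⟨hCT hi, h⟩
    rw [e1]
    congr 2
    refine filter_congr fun i _ => ?_
    constructor
    · rintro ⟨h, h'⟩
      exact ⟨h, by rwa [← hoff i h]⟩
    · rintro ⟨h, h'⟩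
      exact ⟨h, by rwa [hoff i h]⟩
  refine ⟨⟨?_, hstars ▸ hs.2⟩, ?_, hstars⟩
  · have key : ∀ i i', i ∈ T → i' ∉ T → t i = t i' → Ho (t i) → False := by
      intro i i' hi hi' h hh
      rcases h1 i hi with h5 | h5 | h5
      · exact hh.1 h5
      · obtain ⟨c, hc, hc2⟩ := mem_image.1 h5
        rw [mem_filter] at hc
        rw [h, hoff i' hi'] at hc2
        have h6 := hs.1 c i' hc2 ⟨hch.1 c hc.1, hc.2⟩
        exact hi' (h6 ▸ hCT hc.1)
      · exact hh.2 h5
    intro i i' h hh
    by_cases hi : i ∈ T
    · by_cases hi' : i' ∈ T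
      · rcases h1 i hi with h5 | h5 | h5
        · exact absurd h5 hh.1
        · exact (h3 i hi i' hi' h5 h.symm).symm
        · exact absurd h5 hh.2
      · exact (key i i' hi hi' h hh).elim
    · by_cases hi' : i' ∈ T
      · exact (key i' i hi' hi h.symm (h ▸ hh)).elim
      · rw [hoff i hi, hoff i' hi'] at h
        rw [hoff i hi] at hh
        exact hs.1 i i' h hh
  · refine Or.inr ⟨hdeg, Or.inr ⟨hstars.symm, ?_⟩⟩
    obtain ⟨i, hi1, hi2⟩ := exists_first (s := s) (t := t) (Ne.symm hne)
    refine ⟨i, hi1, ?_⟩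
    have hiT : i ∈ T := by
      by_contra h
      exact hi2 (hoff i h).symm
    by_cases hiC : i ∈ C
    · have hs0 := hch.1 i hiC
      have hlvs : lv (s i) = (s i).val := if_neg hs0
      rcases h1 i hiT with h5 | h5 | h5
      · rw [hlvs, h5]
        have : lv (0 : Fin (b + 2)) = b + 2 := if_pos rfl
        rw [this]
        exact (s i).isLt
      · have hlvt : lv (t i) = (t i).val := if_neg (hJ _ h5).1
        obtain ⟨c, hc, hc2⟩ := mem_image.1 h5
        rw [mem_filter] at hc
        have hci : c ≠ i := fun h => hi2 (by rw [← hc2, h])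
        have hic : i < c := by
          rcases lt_or_gt_of_ne hci with h | h
          · exact absurd (h3 i hiT c (hCT hc.1) h5 (by rw [← hi1 c h, hc2])) hci
          · exact h
        have h6 : s i ≤ t i := hc2 ▸ hch.2 i hiC c hc.1 hic.le
        have h7 : s i < t i := lt_of_le_of_ne h6 hi2
        rw [hlvs, hlvt]
        exact h7
      · have hlvt : lv (t i) = (t i).val := if_neg (by rw [h5]; exact last_ne_zero)
        rw [hlvs, hlvt, h5]
        have h6 : s i < Fin.last (b + 1) := lt_of_le_of_ne (Fin.le_last _) (h5 ▸ hi2)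
        exact h6
    · exfalso
      obtain ⟨hy, h0⟩ := hTs i hiT hiC
      have hCs : ∀ c ∈ C, t c = s c := fun c hc =>
        (hi1 c (Fin.lt_def.2 (lt_of_lt_of_le (hlt c hc) hy))).symm
      rcases h1 i hiT with h5 | h5 | h5
      · exact hi2 (h0.trans h5.symm)
      · obtain ⟨c, hc, hc2⟩ := mem_image.1 h5
        rw [mem_filter] at hc
        have := h3 i hiT c (hCT hc.1) h5 (by rw [hCs c hc.1, hc2])
        exact hiC (this ▸ hc.1)
      · have h6 : insert i (C.filter fun i => s i = Fin.last (b + 1)) ⊆
            T.filter fun i => t i = Fin.last (b + 1) := by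
          intro c hc
          rcases mem_insert.1 hc with rfl | hc
          · exact mem_filter.2 ⟨hiT, h5⟩
          · rw [mem_filter] at hc
            exact mem_filter.2 ⟨hCT hc.1, by rw [hCs c hc.1, hc.2]⟩
        have h7 := card_le_card h6
        rw [card_insert_of_notMem (fun h => hiC (mem_filter.1 h).1), h4] at h7
        omega

/-- The words on the right. -/
theorem right_word {s t : Wd N b} (hs : Good s) {C R : Finset (Fin N)} (hch : Chain s C)
    (hR : ∀ i ∈ R, s i = 0) (hcard : R.card < C.card)
    (ht : ∀ i ∉ R, t i = rm s C i)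
    (h1 : ∀ i ∈ R, t i = 0 ∨ t i ∈ jset s C ∨ t i = Fin.last (b + 1)) :
    deg t < deg s ∧ (Good t → stars t = 0 →
      stars s = (C.filter fun i => s i = Fin.last (b + 1)).card ∧
      #{i ∈ R | t i = Fin.last (b + 1)} = 0 ∧ deg t + stars s ≤ deg s) := by
  have hRC : ∀ i ∈ C, i ∉ R := fun i hi h => hch.1 i hi (hR i h)
  have hdt := deg_split t R
  have hds := deg_split s C
  have e1 : (C.filter fun i => s i ≠ 0) = C := filter_true_of_mem hch.1
  have e2 : (univ.filter fun i => i ∉ R ∧ t i ≠ 0) = univ.filter fun i => i ∉ C ∧ s i ≠ 0 := by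
    ext i
    rw [mem_filter, mem_filter]
    constructor
    · rintro ⟨_, h, h'⟩
      rw [ht i h] at h'
      unfold rm at h'
      split_ifs at h' with h5
      · exact absurd rfl h'
      · exact ⟨mem_univ _, h5, h'⟩
    · rintro ⟨_, h, h'⟩
      have h5 : i ∉ R := fun h6 => h' (hR i h6)
      refine ⟨mem_univ _, h5, ?_⟩
      rw [ht i h5]
      unfold rm
      rwa [if_neg h]
  rw [e1] at hds
  rw [e2] at hdt
  have hle := card_filter_le R fun i => t i ≠ 0
  refine ⟨by omega, fun hgt hst => ?_⟩
  have hz : ∀ i, t i ≠ Fin.last (b + 1) := by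
    intro i hi
    unfold stars at hst
    rw [card_eq_zero, filter_eq_empty_iff] at hst
    exact hst (mem_univ i) hi
  have hsC : stars s = (C.filter fun i => s i = Fin.last (b + 1)).card := by
    rw [stars_split s C, Nat.add_eq_right, card_eq_zero, filter_eq_empty_iff]
    rintro i _ ⟨h, h'⟩
    have h5 : i ∉ R := fun h6 => by
      rw [hR i h6] at h'
      exact last_ne_zero h'.symm
    refine hz i ?_
    rw [ht i h5]
    unfold rm
    rwa [if_neg h]
  refine ⟨hsC, ?_, ?_⟩
  · rw [card_eq_zero, filter_eq_empty_iff]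
    exact fun i _ => hz i
  · have h6 : (R.filter fun i => t i ≠ 0).card ≤ (jset s C).card := by
      refine card_le_card_of_injOn t ?_ ?_
      · intro i hi
        rw [mem_coe, mem_filter] at hi
        rcases h1 i hi.1 with h | h | h
        · exact absurd h hi.2
        · exact h
        · exact absurd h (hz i)
      · intro i hi i' _ h
        rw [mem_coe, mem_filter] at hi
        exact hgt.1 i i' h ⟨hi.2, hz i⟩
    have h7 := card_chain hs hch.1
    rw [← hsC] at h7
    omega

open Classical in
/-- Both relations. -/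
theorem relP_main {s : Wd N b} (hs : Good s) {y : ℕ} (h : ¬ CondP s y)
    (U : Submodule K (Pt N b → K))
    (hL : ∀ t, Good t → Lt t s → stars t = stars s → mon K t ∈ U)
    (hRR : ∀ t, Good t → deg t < deg s → ((∀ a, 0 < a → stars s = a → stars t = 0 →
      a < N - b → (((N - b).choose a : ℕ) : K) ≠ 0)) →
      (stars t = 0 → deg t + stars s ≤ deg s) → mon K t ∈ U) : mon K s ∈ U := by
  unfold CondP at h
  push Not at h
  obtain ⟨C, hch, hlt, hcard⟩ := h
  obtain ⟨T, hT⟩ : ∃ T, T = C ∪ univ.filter fun i => y ≤ i.val ∧ s i = 0 := ⟨_, rfl⟩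
  obtain ⟨R, hRdef⟩ : ∃ R, R = frPset s y := ⟨_, rfl⟩
  rw [← hRdef] at hcard
  have hCT : C ⊆ T := hT ▸ subset_union_left
  have hR : ∀ i ∈ R, i.val < y ∧ s i = 0 := by
    intro i hi
    rw [hRdef] at hi
    exact (mem_filter.1 hi).2
  have hTR : Disjoint T R := by
    rw [disjoint_left]
    intro i h1 h2
    rw [hT, mem_union, mem_filter] at h1
    rcases h1 with h1 | h1
    · exact hch.1 i h1 (hR i h2).2
    · have := (hR i h2).1
      omega
  have hr : ∀ i, rm s C i = 0 ↔ i ∈ T ∨ i ∈ R := by
    intro i
    unfold rm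
    constructor
    · intro h
      split_ifs at h with h5
      · exact Or.inl (hCT h5)
      · by_cases h6 : i.val < y
        · right
          rw [hRdef]
          exact mem_filter.2 ⟨mem_univ _, h6, h⟩
        · left
          rw [hT]
          exact mem_union_right _ (mem_filter.2 ⟨mem_univ _, by omega, h⟩)
    · rintro (h | h)
      · rw [hT, mem_union, mem_filter] at h
        rcases h with h | h
        · rw [if_pos h]
        · split_ifs
          · rfl
          · exact h.2.2
      · rw [(hR i h).2, ite_self]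
  have hJ := jset_ho (s := s) hch.1
  have hJr : ∀ i, rm s C i ∉ jset s C := by
    intro i h
    have h0 := (hJ _ h).1
    unfold rm at h h0
    split_ifs at h h0 with h5
    · exact h0 rfl
    · obtain ⟨c, hc, hc2⟩ := mem_image.1 h
      rw [mem_filter] at hc
      have := hs.1 c i hc2 ⟨hch.1 c hc.1, hc.2⟩
      exact h5 (this ▸ hc.1)
  have hst : stars s = stars (rm s C) + (C.filter fun i => s i = Fin.last (b + 1)).card := by
    rw [stars_split s C, stars_split (rm s C) C]
    have e1 : (C.filter fun i => rm s C i = Fin.last (b + 1)).card = 0 := by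
      rw [card_eq_zero, filter_eq_empty_iff]
      intro i hi h
      unfold rm at h
      rw [if_pos hi] at h
      exact last_ne_zero h.symm
    rw [e1, add_zero]
    congr 2
    refine filter_congr fun i _ => ?_
    unfold rm
    constructor
    · rintro ⟨h, h'⟩
      exact ⟨h, by rwa [if_neg h]⟩
    · rintro ⟨h, h'⟩
      rw [if_neg h] at h'
      exact ⟨h, h'⟩
  have hs2 := hs.2
  have hid := relP_identity (K := K) T R (jset s C)
    (C.filter fun i => s i = Fin.last (b + 1)).card (N - b - stars (rm s C)) (N - b) (rm s C) hTR hr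
    hJ hJr (fun x => by
      have := stars_pt x
      unfold stars at this
      omega) (by
      change N - b - stars (rm s C) + stars (rm s C) = N - b
      omega)
  have hsmem : s ∈ univ.filter (fun t : Wd N b => ∀ i ∉ T, t i = rm s C i) := by
    refine mem_filter.2 ⟨mem_univ _, fun i hi => ?_⟩
    unfold rm
    rw [if_neg fun h => hi (hCT h)]
  have hfs : fl K T (jset s C) (C.filter fun i => s i = Fin.last (b + 1)).card s = 1 := by
    refine if_pos ⟨?_, ?_, ?_, ?_⟩
    · intro i hi
      by_cases h0 : s i = 0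
      · exact Or.inl h0
      · have hiC : i ∈ C := by
          rw [hT, mem_union, mem_filter] at hi
          rcases hi with h | h
          · exact h
          · exact absurd h.2.2 h0
        by_cases h5 : s i = Fin.last (b + 1)
        · exact Or.inr (Or.inr h5)
        · exact Or.inr (Or.inl (mem_image.2 ⟨i, mem_filter.2 ⟨hiC, h5⟩, rfl⟩))
    · intro j hj
      obtain ⟨c, hc, hc2⟩ := mem_image.1 hj
      exact ⟨c, hCT (mem_filter.1 hc).1, hc2⟩
    · intro i _ i' _ h5 h6
      exact (hs.1 i i' h6.symm (hJ _ h5)).symm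
    · congr 1
      ext i
      rw [mem_filter, mem_filter]
      constructor
      · rintro ⟨h5, h6⟩
        refine ⟨?_, h6⟩
        rw [hT, mem_union, mem_filter] at h5
        rcases h5 with h | h
        · exact h
        · rw [h.2.2] at h6
          exact absurd h6.symm last_ne_zero
      · rintro ⟨h5, h6⟩
        exact ⟨hCT h5, h6⟩
  rw [← add_sum_erase _ _ hsmem, hfs, one_smul] at hid
  rw [eq_sub_of_add_eq hid]
  refine U.sub_mem (U.sum_mem fun t ht => ?_) (U.sum_mem fun t ht => ?_)
  · rw [mem_filter] at ht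
    by_cases hg : Good t
    swap
    · rw [mon_eq_zero hg, smul_zero]
      exact U.zero_mem
    unfold fr
    split_ifs with h5
    swap
    · rw [zero_smul]
      exact U.zero_mem
    obtain ⟨w1, w2⟩ := right_word hs hch (fun i hi => (hR i hi).2) hcard ht.2 h5.1
    by_cases hcase : ∀ a, 0 < a → stars s = a → stars t = 0 →
      a < N - b → (((N - b).choose a : ℕ) : K) ≠ 0
    · exact U.smul_mem _ (hRR t hg w1 hcase fun h => (w2 hg h).2.2)
    · push Not at hcase
      obtain ⟨a, ha, ha1, ha2, ha3, ha4⟩ := hcase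
      obtain ⟨w3, w4, -⟩ := w2 hg ha2
      have e1 : stars (rm s C) = 0 := by omega
      rw [w4, e1, Nat.sub_zero, Nat.sub_zero, Nat.sub_zero, ← w3, ha1, ha4, mul_zero, zero_smul]
      exact U.zero_mem
  · rw [mem_erase, mem_filter] at ht
    unfold fl
    split_ifs with h5
    swap
    · rw [zero_smul]
      exact U.zero_mem
    obtain ⟨w1, w2, w3⟩ := left_word hs hch hlt hT ht.2.2 h5.1 h5.2.1 h5.2.2.1 h5.2.2.2 ht.1
    exact U.smul_mem _ (hL t w1 w2 w3)

end RelP

open RelP in
theorem relP_free {s : Wd N b} (hs : Good s) {y : ℕ} (h : ¬ CondP s y) :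
    mon K s ∈ Submodule.span K (mon K '' {t | Good t ∧ Lt t s}) := by
  refine relP_main hs h _ (fun t h1 h2 _ => ?_) fun t h1 h2 _ _ => ?_
  · exact Submodule.subset_span ⟨t, ⟨h1, h2⟩, rfl⟩
  · exact Submodule.subset_span ⟨t, ⟨h1, Or.inl h2⟩, rfl⟩

open RelP in
theorem relP_star (_hbN : b ≤ N) (hq : QK K (N - b)) {s : Wd N b} (hs : Good s) (hst : 1 ≤ stars s)
    {y : ℕ} (h : ¬ CondP s y) :
    mon K s ∈ Submodule.span K (mon K '' {t | Good t ∧ Lt t s ∧ 1 ≤ stars t}) ⊔
      Submodule.span K (mon K '' {t | Good t ∧ deg t + (N - b) ≤ deg s}) := by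
  refine relP_main hs h _ (fun t h1 h2 h3 => ?_) fun t h1 h2 h3 h4 => ?_
  · exact Submodule.mem_sup_left (Submodule.subset_span ⟨t, ⟨h1, h2, by omega⟩, rfl⟩)
  · by_cases h5 : stars t = 0
    · have h6 := h4 h5
      have h7 : ¬ stars s < N - b := fun h8 =>
        h3 (stars s) hst rfl h5 h8 (hq _ hst h8)
      exact Submodule.mem_sup_right (Submodule.subset_span ⟨t, ⟨h1, by omega⟩, rfl⟩)
    · exact Submodule.mem_sup_left
        (Submodule.subset_span ⟨t, ⟨h1, Or.inl h2, by omega⟩, rfl⟩)

end Pool.Agent.MP_9cec2c_lc.PHS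
end

section

/-!
# PHPF Part II: the reduction

Well-founded induction on `Lt`.
-/

set_option autoImplicit false

open Finset

namespace Pool.Agent.MP_9cec2c_lc.PHS

variable {N b : ℕ} {K : Type} [Field K]

theorem sup_le_mem {V : Type} [AddCommGroup V] [Module K V] {A B C : Submodule K V} (h1 : A ≤ C)
    (h2 : B ≤ C) {v : V} (h : v ∈ A ⊔ B) : v ∈ C := (sup_le h1 h2 : A ⊔ B ≤ C) h

theorem sup_span_mono {S S' T T' : Set (Wd N b)} (h1 : S ⊆ S') (h2 : T ⊆ T') {v : Pt N b → K}
    (h : v ∈ Submodule.span K (mon K '' S) ⊔ Submodule.span K (mon K '' T)) :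
    v ∈ Submodule.span K (mon K '' S') ⊔ Submodule.span K (mon K '' T') :=
  (sup_le_sup (Submodule.span_mono (Set.image_mono h1)) (Submodule.span_mono (Set.image_mono h2)) :
    Submodule.span K (mon K '' S) ⊔ Submodule.span K (mon K '' T) ≤ _) h

/-- a monomial which is not standard is a combination of smaller Good monomials -/
theorem mon_mem_lt (s : Wd N b) (h : ¬ Std s) :
    mon K s ∈ Submodule.span K (mon K '' {t | Lt t s}) := by
  by_cases hs : Good s
  · by_cases hP : ∀ y, CondP s y
    · by_cases hH : ∀ x, x ≤ b + 1 → CondH s x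
      · exact absurd ⟨⟨hs, hP, fun x hx => hH x (by omega)⟩, hH (b + 1) le_rfl⟩ h
      · push Not at hH
        obtain ⟨x, hx, hx'⟩ := hH
        exact Submodule.span_mono (Set.image_mono fun t ht => ht.2.1) (relH hs hx hx')
    · push Not at hP
      obtain ⟨y, hy⟩ := hP
      exact Submodule.span_mono (Set.image_mono fun t ht => ht.2) (relP_free hs hy)
  · rw [mon_eq_zero hs]
    exact Submodule.zero_mem _

/-- every monomial is a combination of standard monomials which are not larger -/
theorem mon_mem_std (s : Wd N b) :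
    mon K s ∈ Submodule.span K (mon K '' {t | Std t ∧ (t = s ∨ Lt t s)}) := by
  induction s using Lt_wf.induction with
  | _ s ih =>
    by_cases h : Std s
    · exact Submodule.subset_span ⟨s, ⟨h, Or.inl rfl⟩, rfl⟩
    · refine Submodule.span_le.2 ?_ (mon_mem_lt (K := K) s h)
      rintro _ ⟨t, ht, rfl⟩
      refine Submodule.span_mono (Set.image_mono ?_) (ih t ht)
      rintro u ⟨hu, rfl | hu'⟩
      · exact ⟨hu, Or.inr ht⟩
      · exact ⟨hu, Or.inr (Lt_trans hu' ht)⟩

/-- a monomial which is not standard is a combination of smaller standard monomials -/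
theorem mon_mem_std_lt (s : Wd N b) (h : ¬ Std s) :
    mon K s ∈ Submodule.span K (mon K '' {t | Std t ∧ Lt t s}) := by
  refine Submodule.span_mono (Set.image_mono ?_) (mon_mem_std (K := K) s)
  rintro u ⟨hu, rfl | hu'⟩
  · exact absurd hu h
  · exact ⟨hu, hu'⟩

theorem FF_eq_std (D : ℕ) : FF K N b D = Submodule.span K (mon K '' {t | Std t ∧ deg t ≤ D}) := by
  apply le_antisymm
  · refine Submodule.span_le.2 ?_
    rintro _ ⟨s, hs, rfl⟩
    refine Submodule.span_mono (Set.image_mono ?_) (mon_mem_std (K := K) s)
    rintro u ⟨hu, rfl | hu'⟩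
    · exact ⟨hu, hs⟩
    · exact ⟨hu, (deg_le_of_Lt hu').trans hs⟩
  · exact Submodule.span_mono (Set.image_mono fun t ht => ht.2)

/-- a Good monomial with a star: irreducible ones with a star and standard ones of small degree -/
theorem mon_mem_irr (hbN : b ≤ N) (hq : QK K (N - b)) (s : Wd N b) (h1 : 1 ≤ stars s) :
    mon K s ∈ Submodule.span K (mon K '' {t | Irr t ∧ 1 ≤ stars t ∧ deg t ≤ deg s}) ⊔
      Submodule.span K (mon K '' {t | Std t ∧ deg t + (N - b) ≤ deg s}) := by
  induction s using Lt_wf.induction with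
  | _ s ih =>
    -- smaller monomials with a star
    have hstep : ∀ t : Wd N b, Lt t s → 1 ≤ stars t → mon K t ∈
        Submodule.span K (mon K '' {t | Irr t ∧ 1 ≤ stars t ∧ deg t ≤ deg s}) ⊔
        Submodule.span K (mon K '' {t | Std t ∧ deg t + (N - b) ≤ deg s}) := by
      intro t ht ht1
      have hle := deg_le_of_Lt ht
      refine sup_span_mono ?_ ?_ (ih t ht ht1)
      · exact fun u hu => ⟨hu.1, hu.2.1, hu.2.2.trans hle⟩
      · exact fun u hu => ⟨hu.1, hu.2.trans hle⟩
    by_cases hs : Good s
    · by_cases hP : ∀ y, CondP s y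
      · by_cases hH : ∀ x, x ≤ b → CondH s x
        · exact Submodule.mem_sup_left (Submodule.subset_span ⟨s, ⟨⟨hs, hP, hH⟩, h1, le_rfl⟩, rfl⟩)
        · push Not at hH
          obtain ⟨x, hx, hx'⟩ := hH
          refine Submodule.span_le.2 ?_ (relH (K := K) hs (by omega) hx')
          rintro _ ⟨t, ⟨_, ht2, ht3⟩, rfl⟩
          exact hstep t ht2 (h1.trans (ht3 hx))
      · push Not at hP
        obtain ⟨y, hy⟩ := hP
        refine sup_le_mem ?_ ?_ (relP_star hbN hq hs h1 hy)
        · refine Submodule.span_le.2 ?_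
          rintro _ ⟨t, ⟨_, ht2, ht3⟩, rfl⟩
          exact hstep t ht2 ht3
        · refine le_trans (Submodule.span_le.2 ?_) le_sup_right
          rintro _ ⟨t, ⟨_, ht2⟩, rfl⟩
          refine Submodule.span_mono (Set.image_mono ?_) (mon_mem_std (K := K) t)
          rintro u ⟨hu, rfl | hu'⟩
          · exact ⟨hu, ht2⟩
          · have := deg_le_of_Lt hu'
            exact ⟨hu, by omega⟩
    · rw [mon_eq_zero hs]
      exact Submodule.zero_mem _

theorem YY_le_irr (hbN : b ≤ N) (hq : QK K (N - b)) (D : ℕ) :
    YY K N b D ≤ Submodule.span K (mon K '' {t | Irr t ∧ 1 ≤ stars t ∧ deg t ≤ D}) ⊔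
      Submodule.span K (mon K '' {t | Std t ∧ deg t + (N - b) ≤ D}) := by
  refine Submodule.span_le.2 ?_
  rintro _ ⟨s, ⟨hs, h1⟩, rfl⟩
  refine sup_span_mono ?_ ?_ (mon_mem_irr (K := K) hbN hq s h1)
  · exact fun u hu => ⟨hu.1, hu.2.1, hu.2.2.trans hs⟩
  · exact fun u hu => ⟨hu.1, hu.2.trans hs⟩

end Pool.Agent.MP_9cec2c_lc.PHS
end

section

/-!
# PHPF Part II: the pull-back to `N = b`

`til s`: the stars of `s` get the letters `b+1, b+2, ...` in increasing order. `pi w`: letters `> b` become stars.
`pull f w = f (pi w)`.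
`pull_mon`: `pull (mon s)` is the sum of the `mon t` over the words `t` of `[N] x [N]` with `t i = s i` (as a
number) where `s i` is not a star, and injective letters in `b+1..N` at the stars of `s`; for such a `t ≠ til s`:
same degree, no star, `LexLt (til s) t`.
`std_til`: chains of `til s` are chains of `s`; free pigeons are the same; free holes `≤ x`: the same for
`x ≤ b`; for `x > b` a chain of `til s` with letters `≤ x` has at most `free holes (≤ b)` elements by `(H_*)`.
-/

set_option autoImplicit false

open Finset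

namespace Pool.Agent.MP_9cec2c_lc.PHS

variable {N b : ℕ} {K : Type} [Field K]

/-- the stars get the letters `b + 1, b + 2, ...` (meaningful for Good words) -/
def til (s : Wd N b) : Wd N N := fun i =>
  if s i = Fin.last (b + 1) then Fin.ofNat (N + 2) (b + 1 + (univ.filter fun i' => i' < i ∧ s i' = Fin.last (b + 1)).card)
  else Fin.ofNat (N + 2) (s i).val

/-- letters `> b` become stars -/
def pic (hbN : b ≤ N) (w : Wd N N) : Wd N b := fun i =>
  if h : (w i).val ≤ b then ⟨(w i).val, by omega⟩ else Fin.last (b + 1)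

private theorem pull_pic_le (hbN : b ≤ N) {w : Wd N N} {i : Fin N} (h : (w i).val ≤ b) :
    (pic hbN w i).val = (w i).val := by
  unfold pic
  rw [dif_pos h]

private theorem pull_pic_gt (hbN : b ≤ N) {w : Wd N N} {i : Fin N} (h : ¬ (w i).val ≤ b) :
    pic hbN w i = Fin.last (b + 1) := by
  unfold pic
  rw [dif_neg h]

private theorem pull_ne_last {n : ℕ} {a : Fin (n + 2)} (h : a ≠ Fin.last (n + 1)) : a.val ≤ n := by
  have h1 := a.isLt
  have h2 : a.val ≠ n + 1 := fun h3 => h (Fin.ext (by rw [h3, Fin.val_last]))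
  omega

private theorem pull_ne_zero {n : ℕ} {a : Fin (n + 2)} (h : a ≠ 0) : 0 < a.val := by
  have h2 : a.val ≠ 0 := fun h3 => h (Fin.ext (by rw [h3]; rfl))
  omega

theorem pic_isPt (hbN : b ≤ N) {w : Wd N N} (hw : IsPt w) : IsPt (pic hbN w) := by
  constructor
  · intro i h0
    by_cases h : (w i).val ≤ b
    · have h1 := pull_pic_le hbN h
      rw [h0] at h1
      exact hw.1 i (Fin.ext (by rw [← h1]; rfl))
    · rw [pull_pic_gt hbN h] at h0
      have := congrArg Fin.val h0
      rw [Fin.val_last] at this
      change b + 1 = 0 at this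
      omega
  · intro a ha
    have ha1 : 0 < a.val := pull_ne_zero ha.1
    have ha2 : a.val ≤ b := pull_ne_last ha.2
    have hho : Ho (⟨a.val, by omega⟩ : Fin (N + 2)) := by
      constructor
      · intro h
        have := congrArg Fin.val h
        change a.val = 0 at this
        omega
      · intro h
        have := congrArg Fin.val h
        rw [Fin.val_last] at this
        change a.val = N + 1 at this
        omega
    obtain ⟨i, hi, hu⟩ := hw.2 _ hho
    refine ⟨i, ?_, ?_⟩
    · have h1 : (w i).val = a.val := by rw [hi]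
      apply Fin.ext
      rw [pull_pic_le hbN (by omega), h1]
    · intro i' hi'
      apply hu
      by_cases h : (w i').val ≤ b
      · have h1 := pull_pic_le hbN h
        rw [hi'] at h1
        exact Fin.ext h1.symm
      · rw [pull_pic_gt hbN h] at hi'
        exact absurd hi'.symm ha.2

/-- the pull-back -/
noncomputable def pull (K : Type) [Field K] (hbN : b ≤ N) : (Pt N b → K) →ₗ[K] (Pt N N → K) where
  toFun f := fun w => f ⟨pic hbN w.1, pic_isPt hbN w.2⟩
  map_add' _ _ := rfl
  map_smul' _ _ := rfl

private theorem pull_rank_lt {s : Wd N b} {i i' : Fin N} (h : i' < i)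
    (hs : s i' = Fin.last (b + 1)) :
    (univ.filter fun k => k < i' ∧ s k = Fin.last (b + 1)).card <
      (univ.filter fun k => k < i ∧ s k = Fin.last (b + 1)).card := by
  apply Finset.card_lt_card
  rw [Finset.ssubset_iff_of_subset]
  · exact ⟨i', by simp [h, hs], by simp⟩
  · intro k hk
    simp only [Finset.mem_filter, Finset.mem_univ, true_and] at hk ⊢
    exact ⟨hk.1.trans h, hk.2⟩

theorem til_val_star (hbN : b ≤ N) {s : Wd N b} (hs : Good s) {i : Fin N} (h : s i = Fin.last (b + 1)) :
    (til s i).val = b + 1 + (univ.filter fun i' => i' < i ∧ s i' = Fin.last (b + 1)).card ∧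
      (til s i).val ≤ N := by
  have h1 : (univ.filter fun i' => i' < i ∧ s i' = Fin.last (b + 1)).card < stars s := by
    unfold stars
    apply Finset.card_lt_card
    rw [Finset.ssubset_iff_of_subset]
    · exact ⟨i, by simp [h], by simp⟩
    · intro k hk
      simp only [Finset.mem_filter, Finset.mem_univ, true_and] at hk ⊢
      exact hk.2
  have h2 := hs.2
  have h3 : (til s i).val = b + 1 + (univ.filter fun i' => i' < i ∧ s i' = Fin.last (b + 1)).card := by
    unfold til
    rw [if_pos h]
    change _ % (N + 2) = _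
    rw [Nat.mod_eq_of_lt]
    omega
  exact ⟨h3, by omega⟩

theorem til_val (hbN : b ≤ N) {s : Wd N b} {i : Fin N} (h : s i ≠ Fin.last (b + 1)) :
    (til s i).val = (s i).val := by
  unfold til
  rw [if_neg h]
  change _ % (N + 2) = _
  rw [Nat.mod_eq_of_lt]
  have := (s i).isLt
  omega

private theorem pull_til_le_iff (hbN : b ≤ N) {s : Wd N b} (hs : Good s) (i : Fin N) :
    (til s i).val ≤ b ↔ s i ≠ Fin.last (b + 1) := by
  constructor
  · intro h1 h2
    have := (til_val_star hbN hs h2).1
    omega
  · intro h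
    rw [til_val hbN h]
    exact pull_ne_last h

private theorem pull_til_zero_iff (hbN : b ≤ N) {s : Wd N b} (hs : Good s) (i : Fin N) :
    til s i = 0 ↔ s i = 0 := by
  constructor
  · intro h1
    have h2 : (til s i).val = 0 := by rw [h1]; rfl
    have h3 : s i ≠ Fin.last (b + 1) := (pull_til_le_iff hbN hs i).1 (by omega)
    rw [til_val hbN h3] at h2
    exact Fin.ext h2
  · intro h
    have h3 : s i ≠ Fin.last (b + 1) := by
      rw [h]
      intro h4
      have := congrArg Fin.val h4
      rw [Fin.val_last] at this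
      change 0 = b + 1 at this
      omega
    apply Fin.ext
    rw [til_val hbN h3, h]
    rfl

private theorem pull_til_ne_last (hbN : b ≤ N) {s : Wd N b} (hs : Good s) (i : Fin N) :
    til s i ≠ Fin.last (N + 1) := by
  intro h1
  have h2 : (til s i).val = N + 1 := by rw [h1, Fin.val_last]
  by_cases h : s i = Fin.last (b + 1)
  · have := (til_val_star hbN hs h).2
    omega
  · have := (pull_til_le_iff hbN hs i).2 h
    omega

theorem til_inj (hbN : b ≤ N) {s t : Wd N b} (hs : Good s) (ht : Good t) (h : til s = til t) : s = t := by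
  funext i
  have hi : til s i = til t i := by rw [h]
  by_cases h1 : s i = Fin.last (b + 1)
  · by_cases h2 : t i = Fin.last (b + 1)
    · rw [h1, h2]
    · have := (pull_til_le_iff hbN ht i).2 h2
      rw [← hi] at this
      exact absurd h1 ((pull_til_le_iff hbN hs i).1 this)
  · have h3 := (pull_til_le_iff hbN hs i).2 h1
    have h2 : t i ≠ Fin.last (b + 1) := by
      apply (pull_til_le_iff hbN ht i).1
      rw [← hi]
      exact h3
    apply Fin.ext
    rw [← til_val hbN h1, ← til_val hbN h2, hi]

theorem deg_til (hbN : b ≤ N) {s : Wd N b} (hs : Good s) : deg (til s) = deg s := by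
  unfold deg
  congr 1
  apply Finset.filter_congr
  intro i _
  rw [not_iff_not]
  exact pull_til_zero_iff hbN hs i

private theorem pull_stars_til (hbN : b ≤ N) {s : Wd N b} (hs : Good s) : stars (til s) = 0 := by
  unfold stars
  rw [Finset.card_eq_zero, Finset.filter_eq_empty_iff]
  intro i _
  exact pull_til_ne_last hbN hs i

private theorem pull_chain (hbN : b ≤ N) {s : Wd N b} (hs : Good s) {C : Finset (Fin N)}
    (h : Chain (til s) C) : Chain s C := by
  refine ⟨fun i hi h0 => h.1 i hi ((pull_til_zero_iff hbN hs i).2 h0), ?_⟩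
  intro i hi i' hi' hii'
  have h1 := h.2 i hi i' hi' hii'
  rw [Fin.le_def] at h1 ⊢
  by_cases h2 : s i' = Fin.last (b + 1)
  · rw [h2, Fin.val_last]
    have := (s i).isLt
    omega
  · have h3 := (pull_til_le_iff hbN hs i').2 h2
    have h4 := (pull_til_le_iff hbN hs i).1 (h1.trans h3)
    rw [til_val hbN h2, til_val hbN h4] at h1
    exact h1

private theorem pull_frH (hbN : b ≤ N) {s : Wd N b} (hs : Good s) {x x' : ℕ}
    (hx : x ≤ x' ∨ b ≤ x') : (frHset s x).card ≤ (frHset (til s) x').card := by
  have hlt : ∀ a ∈ frHset s x, a.val < N + 2 := by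
    intro a _
    have := a.isLt
    omega
  apply Finset.card_le_card_of_injOn (fun a : Fin (b + 2) => Fin.ofNat (N + 2) a.val)
  · intro a ha
    have ha' := ha
    simp only [frHset, Finset.coe_filter, Finset.mem_univ, true_and, Set.mem_setOf_eq] at ha'
    obtain ⟨h0, h1, h2, h3⟩ := ha'
    have hab : a.val ≤ b := pull_ne_last h1
    have ha0 : 0 < a.val := pull_ne_zero h0
    have hval : (Fin.ofNat (N + 2) a.val).val = a.val := by
      change _ % (N + 2) = _
      rw [Nat.mod_eq_of_lt]
      omega
    simp only [frHset, Finset.coe_filter, Finset.mem_univ, true_and, Set.mem_setOf_eq]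
    refine ⟨?_, ?_, ?_, ?_⟩
    · intro h
      have := congrArg Fin.val h
      rw [hval] at this
      change a.val = 0 at this
      omega
    · intro h
      have := congrArg Fin.val h
      rw [hval, Fin.val_last] at this
      omega
    · rw [hval]
      rcases hx with hx | hx <;> omega
    · intro i hi
      have h4 : (til s i).val = a.val := by rw [hi, hval]
      have h5 := (pull_til_le_iff hbN hs i).1 (by omega)
      rw [til_val hbN h5] at h4
      exact h3 i (Fin.ext h4)
  · intro a ha a' ha' h
    have h1 := congrArg Fin.val h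
    change a.val % (N + 2) = a'.val % (N + 2) at h1
    rw [Nat.mod_eq_of_lt (hlt a ha), Nat.mod_eq_of_lt (hlt a' ha')] at h1
    exact Fin.ext h1

theorem std_til (hbN : b ≤ N) {s : Wd N b} (hs : Std s) : Std (til s) := by
  have hg : Good s := hs.1.1
  have hgood : Good (til s) := by
    refine ⟨?_, by rw [pull_stars_til hbN hg]; omega⟩
    intro i i' h hho
    by_cases h1 : s i = Fin.last (b + 1)
    · have h2 : s i' = Fin.last (b + 1) := by
        by_contra h3
        have h4 := (pull_til_le_iff hbN hg i').2 h3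
        rw [← h] at h4
        exact (pull_til_le_iff hbN hg i).1 h4 h1
      have h3 := (til_val_star hbN hg h1).1
      have h4 := (til_val_star hbN hg h2).1
      rw [h] at h3
      rcases lt_trichotomy i i' with h5 | h5 | h5
      · have := pull_rank_lt (s := s) h5 h1
        omega
      · exact h5
      · have := pull_rank_lt (s := s) h5 h2
        omega
    · have h2 := (pull_til_le_iff hbN hg i).2 h1
      have h3 : s i' ≠ Fin.last (b + 1) := by
        apply (pull_til_le_iff hbN hg i').1
        rw [← h]
        exact h2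
      have h4 : s i = s i' := by
        apply Fin.ext
        rw [← til_val hbN h1, ← til_val hbN h3, h]
      apply hg.1 i i' h4
      refine ⟨?_, h1⟩
      intro h5
      exact hho.1 ((pull_til_zero_iff hbN hg i).2 h5)
  have hH : ∀ x, CondH (til s) x := by
    intro x C hC hCx
    have hC' := pull_chain hbN hg hC
    by_cases hx : x ≤ b
    · refine (hs.1.2.2 x hx C hC' ?_).trans (pull_frH hbN hg (Or.inl le_rfl))
      intro i hi
      have h1 := hCx i hi
      have h2 := (pull_til_le_iff hbN hg i).1 (by omega)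
      rw [til_val hbN h2] at h1
      exact h1
    · refine (hs.2 C hC' ?_).trans (pull_frH hbN hg (Or.inr (by omega)))
      intro i _
      have := (s i).isLt
      omega
  refine ⟨⟨hgood, ?_, fun x _ => hH x⟩, hH _⟩
  intro y C hC hCy
  have hC' := pull_chain hbN hg hC
  refine (hs.1.2.1 y C hC' hCy).trans (le_of_eq ?_)
  unfold frPset
  congr 1
  apply Finset.filter_congr
  intro i _
  rw [pull_til_zero_iff hbN hg i]

private theorem pull_surj {s : Wd N b} (i : Fin N) (k : ℕ)
    (hk : k < (univ.filter fun k => k < i ∧ s k = Fin.last (b + 1)).card) :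
    ∃ i', i' < i ∧ s i' = Fin.last (b + 1) ∧
      (univ.filter fun k => k < i' ∧ s k = Fin.last (b + 1)).card = k := by
  have h := Finset.surjOn_of_injOn_of_card_le
    (s := univ.filter fun k => k < i ∧ s k = Fin.last (b + 1))
    (t := Finset.range (univ.filter fun k => k < i ∧ s k = Fin.last (b + 1)).card)
    (fun i' => (univ.filter fun k => k < i' ∧ s k = Fin.last (b + 1)).card) ?_ ?_ ?_
  · obtain ⟨i', hi', hki'⟩ := h (show k ∈ _ by
      rw [Finset.mem_coe, Finset.mem_range]
      exact hk)
    rw [Finset.mem_coe, Finset.mem_filter] at hi'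
    exact ⟨i', hi'.2.1, hi'.2.2, hki'⟩
  · intro i' hi'
    rw [Finset.mem_coe, Finset.mem_filter] at hi'
    rw [Finset.mem_coe, Finset.mem_range]
    exact pull_rank_lt hi'.2.1 hi'.2.2
  · intro i1 h1 i2 h2 h12
    rw [Finset.mem_coe, Finset.mem_filter] at h1 h2
    simp only at h12
    rcases lt_trichotomy i1 i2 with h3 | h3 | h3
    · have := pull_rank_lt (s := s) h3 h1.2.2
      omega
    · exact h3
    · have := pull_rank_lt (s := s) h3 h2.2.2
      omega
  · rw [Finset.card_range]

theorem pull_mon (hbN : b ≤ N) {s : Wd N b} (hs : Good s) :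
    pull K hbN (mon K s) - mon K (til s) ∈
      Submodule.span K (mon K '' {t : Wd N N | Lt t (til s)}) := by
  classical
  let e : Pt N N → Wd N N := fun w i => if s i = 0 then 0 else w.1 i
  have he0 : ∀ w i, s i = 0 → e w i = 0 := fun w i h => if_pos h
  have he1 : ∀ w i, s i ≠ 0 → e w i = w.1 i := fun w i h => if_neg h
  have h1 : ∀ w, Sub (e w) w.1 := by
    intro w i hi
    by_cases h : s i = 0
    · exact absurd (he0 w i h) hi
    · exact (he1 w i h).symm
  have h2 : ∀ w w', Sub (e w) w'.1 → e w' = e w := by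
    intro w w' h
    funext i
    by_cases h0 : s i = 0
    · rw [he0 w i h0, he0 w' i h0]
    · have h3 := h i (by rw [he1 w i h0]; exact w.2.1 i)
      rw [he1 w' i h0, h3]
  have hpull : ∀ w : Pt N N, pull K hbN (mon K s) w = if Sub s (pic hbN w.1) then 1 else 0 :=
    fun w => rfl
  have hmon : ∀ w : Pt N N, mon K (til s) w = if Sub (til s) w.1 then 1 else 0 := fun w => rfl
  have hagree : ∀ w w', e w = e w' → ∀ i, s i ≠ 0 → w.1 i = w'.1 i := by
    intro w w' h i hi
    rw [← he1 w i hi, ← he1 w' i hi, h]
  have hA : ∀ w w' : Pt N N, e w = e w' → Sub s (pic hbN w.1) → Sub s (pic hbN w'.1) := by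
    intro w w' h hw i hi
    rw [← hw i hi]
    unfold pic
    simp only [hagree w w' h i hi]
  have hB : ∀ w w' : Pt N N, e w = e w' → Sub (til s) w.1 → Sub (til s) w'.1 := by
    intro w w' h hw i hi
    rw [← hw i hi]
    exact (hagree w w' h i (fun h0 => hi ((pull_til_zero_iff hbN hs i).2 h0))).symm
  have hG : ∀ w w', e w = e w' → (pull K hbN (mon K s) - mon K (til s)) w =
      (pull K hbN (mon K s) - mon K (til s)) w' := by
    intro w w' h
    rw [Pi.sub_apply, Pi.sub_apply, hpull, hpull, hmon, hmon]
    have hA' : Sub s (pic hbN w.1) ↔ Sub s (pic hbN w'.1) := ⟨hA w w' h, hA w' w h.symm⟩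
    have hB' : Sub (til s) w.1 ↔ Sub (til s) w'.1 := ⟨hB w w' h, hB w' w h.symm⟩
    simp only [hA', hB']
  refine Submodule.span_mono (Set.image_mono ?_)
    (mem_span_cover e h1 h2 (pull K hbN (mon K s) - mon K (til s)) hG)
  rintro u ⟨w, rfl, hw⟩
  rw [Pi.sub_apply, hpull, hmon] at hw
  -- a point above `til s` is above `s`
  have himp : Sub (til s) w.1 → Sub s (pic hbN w.1) := by
    intro h i hi
    have h3 := h i (fun h0 => hi ((pull_til_zero_iff hbN hs i).1 h0))
    by_cases h4 : s i = Fin.last (b + 1)
    · rw [pull_pic_gt hbN, h4]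
      rw [h3, pull_til_le_iff hbN hs i]
      exact fun h5 => h5 h4
    · apply Fin.ext
      have h5 := (pull_til_le_iff hbN hs i).2 h4
      rw [pull_pic_le hbN (by rw [h3]; exact h5), h3, til_val hbN h4]
  have hnot : ¬ Sub (til s) w.1 := by
    intro h
    rw [if_pos h, if_pos (himp h), sub_self] at hw
    exact hw rfl
  have hsub : Sub s (pic hbN w.1) := by
    by_contra h
    rw [if_neg h, if_neg hnot, sub_zero] at hw
    exact hw rfl
  have hdeg : deg (e w) = deg (til s) := by
    unfold deg
    congr 1
    apply Finset.filter_congr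
    intro i _
    rw [not_iff_not, pull_til_zero_iff hbN hs i]
    constructor
    · intro h
      by_contra h0
      rw [he1 w i h0] at h
      exact w.2.1 i h
    · exact he0 w i
  have hwlast : ∀ i, w.1 i ≠ Fin.last (N + 1) := by
    have h3 := stars_pt w
    have h4 : stars w.1 = 0 := by omega
    unfold stars at h4
    rw [Finset.card_eq_zero, Finset.filter_eq_empty_iff] at h4
    exact fun i => h4 (Finset.mem_univ i)
  have hst : stars (e w) = 0 := by
    unfold stars
    rw [Finset.card_eq_zero, Finset.filter_eq_empty_iff]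
    intro i _ h
    by_cases h0 : s i = 0
    · rw [he0 w i h0] at h
      have := congrArg Fin.val h
      rw [Fin.val_last] at this
      change 0 = N + 1 at this
      omega
    · rw [he1 w i h0] at h
      exact hwlast i h
  have hne : til s ≠ e w := by
    intro h
    apply hnot
    rw [h]
    exact h1 w
  obtain ⟨i, hi, hdi⟩ := exists_first hne
  refine Or.inr ⟨hdeg, Or.inr ⟨by rw [hst, pull_stars_til hbN hs], i, hi, ?_⟩⟩
  have hsi0 : s i ≠ 0 := by
    intro h0
    apply hdi
    rw [he0 w i h0, (pull_til_zero_iff hbN hs i).2 h0]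
  have hsi : s i = Fin.last (b + 1) := by
    by_contra h
    apply hdi
    rw [he1 w i hsi0]
    have h3 := hsub i hsi0
    have h4 : (w.1 i).val ≤ b := by
      by_contra h5
      rw [pull_pic_gt hbN h5] at h3
      exact h h3.symm
    apply Fin.ext
    rw [til_val hbN h, ← h3, pull_pic_le hbN h4]
  have hwi : b < (w.1 i).val := by
    by_contra h5
    have h3 := hsub i hsi0
    have h6 := pull_pic_le hbN (w := w.1) (i := i) (by omega)
    rw [h3, hsi, Fin.val_last] at h6
    omega
  have htv := (til_val_star hbN hs hsi).1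
  have hge : (til s i).val ≤ (w.1 i).val := by
    by_contra hlt
    obtain ⟨i', hi'1, hi'2, hi'3⟩ := pull_surj (s := s) i ((w.1 i).val - (b + 1)) (by omega)
    have h3 := (til_val_star hbN hs hi'2).1
    have hs0 : s i' ≠ 0 := by
      rw [hi'2]
      intro h4
      have := congrArg Fin.val h4
      rw [Fin.val_last] at this
      change b + 1 = 0 at this
      omega
    have h4 := hi i' hi'1
    rw [he1 w i' hs0] at h4
    have h5 : w.1 i' = w.1 i := by
      apply Fin.ext
      rw [← h4, h3, hi'3]
      omega
    have hho : Ho (w.1 i) := ⟨w.2.1 i, hwlast i⟩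
    obtain ⟨j, _, hj⟩ := w.2.2 _ hho
    have h6 := hj i' h5
    have h7 := hj i rfl
    rw [h6, h7] at hi'1
    exact lt_irrefl _ hi'1
  have hneval : (til s i).val ≠ (w.1 i).val := by
    intro h
    apply hdi
    rw [he1 w i hsi0]
    exact Fin.ext h
  have ht0 : til s i ≠ 0 := fun h => hsi0 ((pull_til_zero_iff hbN hs i).1 h)
  have he' : e w i ≠ 0 := by
    rw [he1 w i hsi0]
    exact w.2.1 i
  unfold lv
  rw [if_neg ht0, if_neg he', he1 w i hsi0]
  omega

end Pool.Agent.MP_9cec2c_lc.PHS
end
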