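import Mathlib
import Pool.Agent.Lib.MP_9cec2c_lc.Mg.G029

section

/-!
# PHPF Part II: (f), the number of the bad words

`s` bad ↦ (set of the stars of `s`, `s` with the stars made free). The second is standard without star: free
pigeons only increase, free holes are the same, and `CondH (b + 1)` for a word without star is `CondH b`. A
chain of `s` with more elements than free holes gives a chain `C` without stars with `x < |C| + q`, `x = b - deg`.
There are at most `(N + 1) ^ q` sets of at most `q` pigeons.
-/

set_option autoImplicit false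

open Finset

namespace Pool.Agent.MP_9cec2c_lc.PHS

variable {N b : ℕ}

open Classical in
/-- star-free standard words of degree `≤ D` with a chain `C`, `b - deg < |C| + q` -/
noncomputable def gbc (N b D : ℕ) : ℕ :=
  (univ.filter fun s : Wd N b => Std s ∧ stars s = 0 ∧ deg s ≤ D ∧
    ∃ C : Finset (Fin N), Chain s C ∧ b < C.card + deg s + (N - b)).card

/-- the number of the sets of at most `q` pigeons -/
theorem card_small_sets (N q : ℕ) :
    (univ.filter fun I : Finset (Fin N) => I.card ≤ q).card ≤ (N + 1) ^ q := by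
  classical
  induction q with
  | zero =>
    have h : (univ.filter fun I : Finset (Fin N) => I.card ≤ 0) ⊆ {∅} := by
      intro I hI
      rw [mem_filter, Nat.le_zero, card_eq_zero] at hI
      rw [mem_singleton]
      exact hI.2
    simpa using card_le_card h
  | succ q ih =>
    have h : (univ.filter fun I : Finset (Fin N) => I.card ≤ q + 1) ⊆
        ((univ : Finset (Option (Fin N))) ×ˢ
          (univ.filter fun I : Finset (Fin N) => I.card ≤ q)).image
          fun z => match z.1 with
            | none => z.2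
            | some a => insert a z.2 := by
      intro I hI
      rw [mem_filter] at hI
      rw [mem_image]
      by_cases h0 : I.card ≤ q
      · exact ⟨(none, I), by simp [h0], rfl⟩
      · have hne : I.Nonempty := by
          rw [← card_pos]
          omega
        obtain ⟨a, ha⟩ := hne
        refine ⟨(some a, I.erase a), ?_, ?_⟩
        · have h1 := card_erase_of_mem ha
          rw [mem_product]
          refine ⟨mem_univ _, ?_⟩
          rw [mem_filter]
          refine ⟨mem_univ _, ?_⟩
          simp only
          omega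
        · simp only
          exact insert_erase ha
    refine (card_le_card h).trans (card_image_le.trans ?_)
    rw [card_product, pow_succ, mul_comm]
    refine Nat.mul_le_mul ih ?_
    simp

/-- the word with the stars made free -/
def unstar (s : Wd N b) : Wd N b := fun i => if s i = Fin.last (b + 1) then 0 else s i

theorem unstar_eq_of_ne {s : Wd N b} {i : Fin N} (h : unstar s i ≠ 0) :
    unstar s i = s i ∧ s i ≠ Fin.last (b + 1) := by
  unfold unstar at h ⊢
  by_cases h1 : s i = Fin.last (b + 1)
  · rw [if_pos h1] at h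
    exact absurd rfl h
  · rw [if_neg h1]
    exact ⟨rfl, h1⟩

theorem unstar_ne_last (s : Wd N b) (i : Fin N) : unstar s i ≠ Fin.last (b + 1) := by
  unfold unstar
  by_cases h1 : s i = Fin.last (b + 1)
  · rw [if_pos h1]
    intro h
    have h2 := congrArg Fin.val h
    rw [Fin.val_last, Fin.val_zero] at h2
    omega
  · rw [if_neg h1]
    exact h1

theorem unstar_eq_iff {s : Wd N b} {a : Fin (b + 2)} (ha : a ≠ 0) (ha' : a ≠ Fin.last (b + 1))
    (i : Fin N) : unstar s i = a ↔ s i = a := by
  unfold unstar
  by_cases h1 : s i = Fin.last (b + 1)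
  · rw [if_pos h1, h1]
    constructor
    · intro h
      exact absurd h.symm ha
    · intro h
      exact absurd h.symm ha'
  · rw [if_neg h1]

theorem stars_unstar (s : Wd N b) : stars (unstar s) = 0 := by
  unfold stars
  rw [card_eq_zero, filter_eq_empty_iff]
  intro i _
  exact unstar_ne_last s i

theorem deg_unstar (s : Wd N b) : deg (unstar s) + stars s = deg s := by
  classical
  unfold deg stars
  rw [← card_union_of_disjoint]
  · congr 1
    ext i
    simp only [mem_union, mem_filter, mem_univ, true_and]
    unfold unstar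
    by_cases h1 : s i = Fin.last (b + 1)
    · have h2 : (Fin.last (b + 1) : Fin (b + 2)) ≠ 0 := by
        intro h
        have h2 := congrArg Fin.val h
        rw [Fin.val_last, Fin.val_zero] at h2
        omega
      simp [h1, h2]
    · simp [h1]
  · rw [disjoint_left]
    intro i hi hi'
    rw [mem_filter] at hi hi'
    exact (unstar_eq_of_ne hi.2).2 hi'.2

theorem chain_of_unstar {s : Wd N b} {C : Finset (Fin N)} (h : Chain (unstar s) C) : Chain s C := by
  constructor
  · intro i hi h0
    have h1 := unstar_eq_of_ne (h.1 i hi)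
    exact h.1 i hi (by rw [h1.1, h0])
  · intro i hi i' hi' hle
    have h1 := unstar_eq_of_ne (h.1 i hi)
    have h2 := unstar_eq_of_ne (h.1 i' hi')
    rw [← h1.1, ← h2.1]
    exact h.2 i hi i' hi' hle

theorem frH_unstar (s : Wd N b) (x : ℕ) : frHset (unstar s) x = frHset s x := by
  ext a
  unfold frHset
  simp only [mem_filter, mem_univ, true_and]
  constructor
  · rintro ⟨h1, h2, h3, h4⟩
    exact ⟨h1, h2, h3, fun i h => h4 i ((unstar_eq_iff h1 h2 i).2 h)⟩
  · rintro ⟨h1, h2, h3, h4⟩
    exact ⟨h1, h2, h3, fun i h => h4 i ((unstar_eq_iff h1 h2 i).1 h)⟩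

theorem frP_unstar (s : Wd N b) (y : ℕ) : frPset s y ⊆ frPset (unstar s) y := by
  intro i hi
  unfold frPset at hi ⊢
  rw [mem_filter] at hi ⊢
  refine ⟨hi.1, hi.2.1, ?_⟩
  by_contra h
  exact h (by rw [(unstar_eq_of_ne h).1, hi.2.2])

theorem std_unstar {s : Wd N b} (hs : Irr s) : Std (unstar s) := by
  have hval : ∀ i, (unstar s i).val ≤ b := by
    intro i
    have h1 := unstar_ne_last s i
    have h2 : (unstar s i).val ≠ b + 1 := fun h => h1 (Fin.ext (by rw [h, Fin.val_last]))
    have h3 := (unstar s i).isLt
    omega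
  have hH : ∀ x, x ≤ b → CondH (unstar s) x := by
    intro x hx C hC hCx
    rw [frH_unstar]
    apply hs.2.2 x hx C (chain_of_unstar hC)
    intro i hi
    rw [← (unstar_eq_of_ne (hC.1 i hi)).1]
    exact hCx i hi
  refine ⟨⟨⟨?_, ?_⟩, ?_, hH⟩, ?_⟩
  · intro i i' h hho
    have h1 := unstar_eq_of_ne hho.1
    have h2 := unstar_eq_of_ne (i := i') (by rw [← h]; exact hho.1)
    apply hs.1.1 i i'
    · rw [← h1.1, ← h2.1, h]
    · rw [← h1.1]
      exact hho
  · rw [stars_unstar]
    have := hs.1.2
    omega
  · intro y C hC hCy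
    exact (hs.2.1 y C (chain_of_unstar hC) hCy).trans (card_le_card (frP_unstar s y))
  · intro C hC _
    refine (hH b le_rfl C hC fun i _ => hval i).trans (card_le_card ?_)
    intro a ha
    unfold frHset at ha ⊢
    rw [mem_filter] at ha ⊢
    exact ⟨ha.1, ha.2.1, ha.2.2.1, ha.2.2.2.1.trans (Nat.le_succ b), ha.2.2.2.2⟩

theorem card_holes (b : ℕ) :
    b ≤ (univ.filter fun a : Fin (b + 2) => a ≠ 0 ∧ a ≠ Fin.last (b + 1)).card := by
  classical
  have h : (univ.filter fun a : Fin (b + 2) => a ≠ 0 ∧ a ≠ Fin.last (b + 1)) =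
      (univ.erase 0).erase (Fin.last (b + 1)) := by
    ext a
    simp only [mem_filter, mem_univ, true_and, mem_erase, and_true]
    exact and_comm
  rw [h]
  have h1 := pred_card_le_card_erase (s := (univ.erase (0 : Fin (b + 2)))) (a := Fin.last (b + 1))
  have h2 : (univ.erase (0 : Fin (b + 2))).card = b + 1 := by
    rw [card_erase_of_mem (mem_univ _), card_univ, Fintype.card_fin]
    omega
  omega

theorem le_frH_add_deg (s : Wd N b) : b ≤ (frHset s (b + 1)).card + deg (unstar s) := by
  classical
  refine (card_holes b).trans ?_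
  have h : (univ.filter fun a : Fin (b + 2) => a ≠ 0 ∧ a ≠ Fin.last (b + 1)) ⊆
      frHset s (b + 1) ∪ (univ.filter fun i => unstar s i ≠ 0).image (unstar s) := by
    intro a ha
    rw [mem_filter] at ha
    rw [mem_union]
    by_cases h1 : ∃ i, s i = a
    · right
      obtain ⟨i, hi⟩ := h1
      have h2 : unstar s i = a := (unstar_eq_iff ha.2.1 ha.2.2 i).2 hi
      rw [mem_image]
      refine ⟨i, ?_, h2⟩
      rw [mem_filter]
      exact ⟨mem_univ _, by rw [h2]; exact ha.2.1⟩
    · left
      unfold frHset
      rw [mem_filter]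
      refine ⟨mem_univ _, ha.2.1, ha.2.2, ?_, fun i hi => h1 ⟨i, hi⟩⟩
      have := a.isLt
      omega
  refine (card_le_card h).trans ((card_union_le _ _).trans ?_)
  exact Nat.add_le_add_left card_image_le _

theorem chain_unstar {s : Wd N b} {C : Finset (Fin N)} (h : Chain s C) :
    ∃ C' : Finset (Fin N), Chain (unstar s) C' ∧ C.card ≤ C'.card + stars s := by
  classical
  refine ⟨C.filter fun i => s i ≠ Fin.last (b + 1), ⟨?_, ?_⟩, ?_⟩
  · intro i hi
    rw [mem_filter] at hi
    unfold unstar
    rw [if_neg hi.2]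
    exact h.1 i hi.1
  · intro i hi i' hi' hle
    rw [mem_filter] at hi hi'
    unfold unstar
    rw [if_neg hi.2, if_neg hi'.2]
    exact h.2 i hi.1 i' hi'.1 hle
  · rw [← card_filter_add_card_filter_not (s := C) (fun i => s i ≠ Fin.last (b + 1))]
    refine Nat.add_le_add_left (card_le_card ?_) _
    intro i hi
    rw [mem_filter, not_not] at hi
    rw [mem_filter]
    exact ⟨mem_univ _, hi.2⟩

theorem badc_le (hbN : b ≤ N) (D : ℕ) : badc N b D ≤ (N + 1) ^ (N - b) * gbc N b D := by
  classical
  unfold badc gbc
  refine le_trans ?_ (Nat.mul_le_mul_right _ (card_small_sets N (N - b)))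
  rw [← card_product]
  refine card_le_card_of_injOn
    (fun s => (univ.filter (fun i => s i = Fin.last (b + 1)), unstar s)) ?_ ?_
  · intro s hs
    rw [mem_coe, mem_filter] at hs
    obtain ⟨_, ⟨hirr, _, hnstd⟩, hdeg⟩ := hs
    have h1 : stars s + b ≤ N := hirr.1.2
    rw [mem_coe, mem_product]
    constructor
    · rw [mem_filter]
      refine ⟨mem_univ _, ?_⟩
      change stars s ≤ N - b
      omega
    · rw [mem_filter]
      have h2 := deg_unstar s
      refine ⟨mem_univ _, std_unstar hirr, stars_unstar s, by simp only; omega, ?_⟩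
      have h3 : ¬ CondH s (b + 1) := fun h => hnstd ⟨hirr, h⟩
      unfold CondH at h3
      push Not at h3
      obtain ⟨C, hC, _, hlt⟩ := h3
      obtain ⟨C', hC', hle⟩ := chain_unstar hC
      refine ⟨C', hC', ?_⟩
      have h4 := le_frH_add_deg s
      simp only
      omega
  · intro s _ t _ h
    simp only [Prod.mk.injEq] at h
    obtain ⟨h1, h2⟩ := h
    funext i
    by_cases hi : s i = Fin.last (b + 1)
    · have h3 : i ∈ univ.filter fun i => s i = Fin.last (b + 1) := by
        rw [mem_filter]
        exact ⟨mem_univ _, hi⟩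
      rw [h1, mem_filter] at h3
      rw [hi, h3.2]
    · have h3 : i ∉ univ.filter fun i => s i = Fin.last (b + 1) := by
        rw [mem_filter]
        exact fun h => hi h.2
      rw [h1, mem_filter] at h3
      have h4 : t i ≠ Fin.last (b + 1) := fun h => h3 ⟨mem_univ _, h⟩
      have h5 := congrFun h2 i
      unfold unstar at h5
      rw [if_neg hi, if_neg h4] at h5
      exact h5

end Pool.Agent.MP_9cec2c_lc.PHS
end

section

/-!
# III.1 Growth diagrams (PHPF part III, file 1). Owner: helper27. Everything is by induction and `omega`.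

`c i j` is the entry of a matrix of natural numbers in row `i` and column `j`. `grow c i j k` is the
length of row `k` (`k = 0, 1, ...`) of the partition of the corner `(i, j)`. Local rule:
with `ρ = grow c i j`, `μ = grow c i (j+1)`, `ν = grow c (i+1) j`, `λ = grow c (i+1) (j+1)`:
`λ 0 = max (μ 0) (ν 0) + c i j`, `λ (k+1) = max (μ (k+1)) (ν (k+1)) + (min (μ k) (ν k) - ρ k)`.
-/

set_option autoImplicit false

namespace Pool.Agent.MP_9cec2c_lc.PH

open Finset

/-- The growth diagram of the matrix `c`. -/
def grow (c : ℕ → ℕ → ℕ) : ℕ → ℕ → ℕ → ℕ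
  | 0, _, _ => 0
  | _ + 1, 0, _ => 0
  | i + 1, j + 1, 0 => max (grow c i (j + 1) 0) (grow c (i + 1) j 0) + c i j
  | i + 1, j + 1, k + 1 => max (grow c i (j + 1) (k + 1)) (grow c (i + 1) j (k + 1)) +
      (min (grow c i (j + 1) k) (grow c (i + 1) j k) - grow c i j k)

theorem grow_left (c : ℕ → ℕ → ℕ) (j k : ℕ) : grow c 0 j k = 0 := by
  simp [grow]

theorem grow_right (c : ℕ → ℕ → ℕ) (i k : ℕ) : grow c i 0 k = 0 := by
  cases i <;> simp [grow]

theorem grow_top (c : ℕ → ℕ → ℕ) (i j : ℕ) :
    grow c (i + 1) (j + 1) 0 = max (grow c i (j + 1) 0) (grow c (i + 1) j 0) + c i j := by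
  rw [grow]

theorem grow_succ (c : ℕ → ℕ → ℕ) (i j k : ℕ) :
    grow c (i + 1) (j + 1) (k + 1) = max (grow c i (j + 1) (k + 1)) (grow c (i + 1) j (k + 1)) +
      (min (grow c i (j + 1) k) (grow c (i + 1) j k) - grow c i j k) := by
  rw [grow]

/-- Row `k` is empty if `k ≥ i` or `k ≥ j`. PROOF: induction on `i`, then `j`. -/
theorem grow_zero (c : ℕ → ℕ → ℕ) (i j k : ℕ) (h : i ≤ k ∨ j ≤ k) : grow c i j k = 0 := by
  induction i generalizing j k with
  | zero => exact grow_left c j k
  | succ i ihi =>
    induction j generalizing k with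
    | zero => exact grow_right c (i + 1) k
    | succ j ihj =>
      cases k with
      | zero => omega
      | succ k =>
        rw [grow_succ, ihi (j + 1) (k + 1) (by omega), ihj (k + 1) (by omega)]
        rcases h with h | h
        · rw [ihi (j + 1) k (by omega)]
          simp
        · rw [ihj k (by omega)]
          simp

/-- Monotone and interlacing in both directions. PROOF. Let `P i j` be the four statements for the
square with lower corner `(i, j)`:
`ρ k ≤ μ k`, `ρ k ≤ ν k`, `μ k ≤ λ k`, `ν k ≤ λ k` and `μ (k+1) ≤ ρ k`, `ν (k+1) ≤ ρ k`,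
`λ (k+1) ≤ μ k`, `λ (k+1) ≤ ν k` (all `k`). First prove by induction on `i + j` (or on `i` and
inside on `j`) the statements
`A i j : ∀ k, grow c i j k ≤ grow c (i+1) j k ∧ grow c (i+1) j (k+1) ≤ grow c i j k` and
`B i j : ∀ k, grow c i j k ≤ grow c i (j+1) k ∧ grow c i (j+1) (k+1) ≤ grow c i j k`.
`A 0 j`: `grow c 0 j = 0`, and `grow c 1 j (k+1) = 0` (see `grow_zero`; by induction on `j`:
`max 0 (grow c 1 (j-1) (k+1)) + (min 0 _ - 0) = 0`). `A (i+1) 0`, `B i 0` with `i = 0`: trivial (all are 0).
Step: `A i j, B i j ⇒ A i (j+1), B (i+1) j`: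
`λ (k+1) ≥ max (μ (k+1)) (ν (k+1))`, `λ 0 ≥ max (μ 0) (ν 0)`: monotone. Interlacing:
`ρ k ≤ min (μ k) (ν k)` and `max (μ (k+1)) (ν (k+1)) ≤ ρ k` (hypotheses), so
`λ (k+1) = max .. + min (μ k) (ν k) - ρ k ≤ min (μ k) (ν k)`. -/
theorem grow_inter (c : ℕ → ℕ → ℕ) (i j k : ℕ) :
    grow c i j k ≤ grow c (i + 1) j k ∧ grow c i j k ≤ grow c i (j + 1) k ∧
    grow c (i + 1) j (k + 1) ≤ grow c i j k ∧ grow c i (j + 1) (k + 1) ≤ grow c i j k := by
  suffices H : ∀ n i j, i + j = n → ∀ k,
      grow c i j k ≤ grow c (i + 1) j k ∧ grow c i j k ≤ grow c i (j + 1) k ∧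
      grow c (i + 1) j (k + 1) ≤ grow c i j k ∧ grow c i (j + 1) (k + 1) ≤ grow c i j k from
    H _ i j rfl k
  intro n
  induction n with
  | zero =>
    intro i j hij k
    obtain rfl : i = 0 := by omega
    obtain rfl : j = 0 := by omega
    simp only [grow_left, grow_right]
    simp
  | succ n ih =>
    intro i j hij k
    have hA : grow c i j k ≤ grow c (i + 1) j k ∧ grow c (i + 1) j (k + 1) ≤ grow c i j k := by
      cases j with
      | zero => simp only [grow_right]; simp
      | succ j =>
        have h0 := ih i j (by omega)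
        constructor
        · cases k with
          | zero => rw [grow_top]; omega
          | succ k => rw [grow_succ c i j k]; omega
        · have h1 := h0 k
          have h2 := h0 (k + 1)
          rw [grow_succ c i j k]
          omega
    have hB : grow c i j k ≤ grow c i (j + 1) k ∧ grow c i (j + 1) (k + 1) ≤ grow c i j k := by
      cases i with
      | zero => simp only [grow_left]; simp
      | succ i =>
        have h0 := ih i j (by omega)
        constructor
        · cases k with
          | zero => rw [grow_top c i j]; omega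
          | succ k => rw [grow_succ c i j k]; omega
        · have h1 := h0 k
          have h2 := h0 (k + 1)
          rw [grow_succ c i j k]
          omega
    exact ⟨hA.1, hB.1, hA.2, hB.2⟩

/-- Each corner is a partition: `λ (k+1) ≤ λ k`. PROOF: from `grow_inter`, for `i = i' + 1`:
`λ (k+1) = grow c (i'+1) j (k+1) ≤ grow c i' j k ≤ grow c (i'+1) j k`; for `i = 0` all are 0. -/
theorem grow_anti (c : ℕ → ℕ → ℕ) (i j : ℕ) : Antitone (grow c i j) := by
  apply antitone_nat_of_succ_le
  intro k
  cases i with
  | zero => simp only [grow_left]; simp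
  | succ i =>
    have h := grow_inter c i j k
    omega

/-- The size. PROOF: induction on `i`, then on `j`. For `(i+1, j+1)` and `K ≥ i + 1`, so `K = K' + 1` with `K' ≥ i`:
`∑_{k<K} λ k = max (μ 0) (ν 0) + c i j + ∑_{k<K'} (max (μ (k+1)) (ν (k+1)) + (min (μ k) (ν k) - ρ k))`
`= c i j + ∑_{k<K} max (μ k) (ν k) + ∑_{k<K'} (min (μ k) (ν k) - ρ k)`, and
`min (μ K') (ν K') = 0 = ρ K'` by `grow_zero` (`μ = grow c i (j+1)`, `K' ≥ i`), so the last sum is
`∑_{k<K} min (μ k) (ν k) - ∑_{k<K} ρ k`; `max + min = μ + ν`. Then the induction hypotheses for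
`μ`, `ν`, `ρ` and `∑_{i'<i+1} ∑_{j'<j+1} = (rows i, cols j+1) + (rows i+1, cols j) - (i, j) + c i j`. -/
theorem grow_size (c : ℕ → ℕ → ℕ) (i j K : ℕ) (h : i ≤ K) :
    ∑ k ∈ range K, grow c i j k = ∑ i' ∈ range i, ∑ j' ∈ range j, c i' j' := by
  induction i generalizing j K with
  | zero => simp [grow_left]
  | succ i ihi =>
    induction j generalizing K with
    | zero => simp [grow_right]
    | succ j ihj =>
      obtain ⟨K', rfl⟩ : ∃ K', K = K' + 1 := ⟨K - 1, by omega⟩
      have hm := ihi (j + 1) (K' + 1) (by omega)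
      have hn := ihj (K' + 1) (by omega)
      have hr := ihi j (K' + 1) (by omega)
      -- the sum of the local rules
      have key : ∑ k ∈ range (K' + 1), grow c (i + 1) (j + 1) k + ∑ k ∈ range (K' + 1), grow c i j k =
          ∑ k ∈ range (K' + 1), grow c i (j + 1) k + ∑ k ∈ range (K' + 1), grow c (i + 1) j k +
            c i j := by
        have hz : grow c i j K' = 0 := grow_zero c i j K' (by omega)
        have hz' : grow c i (j + 1) K' = 0 := grow_zero c i (j + 1) K' (by omega)
        rw [Finset.sum_range_succ' (fun k => grow c (i + 1) (j + 1) k) K',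
          Finset.sum_range_succ (fun k => grow c i j k) K', hz, grow_top]
        have e1 : ∑ k ∈ range K', grow c (i + 1) (j + 1) (k + 1) + ∑ k ∈ range K', grow c i j k =
            ∑ k ∈ range K', max (grow c i (j + 1) (k + 1)) (grow c (i + 1) j (k + 1)) +
              ∑ k ∈ range K', min (grow c i (j + 1) k) (grow c (i + 1) j k) := by
          rw [← Finset.sum_add_distrib, ← Finset.sum_add_distrib]
          apply Finset.sum_congr rfl
          intro k _
          have h0 := grow_inter c i j k
          rw [grow_succ]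
          omega
        have e2 : ∑ k ∈ range (K' + 1), grow c i (j + 1) k + ∑ k ∈ range (K' + 1), grow c (i + 1) j k =
            ∑ k ∈ range (K' + 1), max (grow c i (j + 1) k) (grow c (i + 1) j k) +
              ∑ k ∈ range (K' + 1), min (grow c i (j + 1) k) (grow c (i + 1) j k) := by
          rw [← Finset.sum_add_distrib, ← Finset.sum_add_distrib]
          apply Finset.sum_congr rfl
          intro k _
          omega
        rw [Finset.sum_range_succ' (fun k => max (grow c i (j + 1) k) (grow c (i + 1) j k)) K',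
          Finset.sum_range_succ (fun k => min (grow c i (j + 1) k) (grow c (i + 1) j k)) K', hz'] at e2
        have e3 : min 0 (grow c (i + 1) j K') = 0 := by simp
        rw [e3] at e2
        omega
      have hs : ∑ i' ∈ range (i + 1), ∑ j' ∈ range (j + 1), c i' j' =
          ∑ i' ∈ range i, ∑ j' ∈ range (j + 1), c i' j' + (∑ j' ∈ range j, c i j' + c i j) := by
        rw [Finset.sum_range_succ, Finset.sum_range_succ (fun j' => c i j') j]
      have hs2 : ∑ i' ∈ range (i + 1), ∑ j' ∈ range j, c i' j' =
          ∑ i' ∈ range i, ∑ j' ∈ range j, c i' j' + ∑ j' ∈ range j, c i j' := by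
        rw [Finset.sum_range_succ]
      omega

/-- If there is nothing in column `j` above row `i`, then the corners `(i, j)` and `(i, j+1)` agree;
the same for rows. PROOF: by `grow_size` (with `K = i`) the sums over `k < K` agree, by `grow_inter`
the terms are `≤`, so all terms with `k < K` agree (`Finset.sum_eq_sum_iff_of_le`); the terms with
`k ≥ K = i` are 0. For rows take `K = i + 1`. -/
theorem grow_eq_of_col (c : ℕ → ℕ → ℕ) (i j : ℕ) (h : ∀ i' < i, c i' j = 0) :
    grow c i (j + 1) = grow c i j := by
  have h1 := grow_size c i (j + 1) i le_rfl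
  have h2 := grow_size c i j i le_rfl
  have h3 : ∑ i' ∈ range i, ∑ j' ∈ range (j + 1), c i' j' =
      ∑ i' ∈ range i, ∑ j' ∈ range j, c i' j' := by
    apply Finset.sum_congr rfl
    intro i' hi'
    rw [Finset.sum_range_succ, h i' (Finset.mem_range.mp hi'), add_zero]
  have h4 : ∑ k ∈ range i, grow c i j k = ∑ k ∈ range i, grow c i (j + 1) k := by omega
  rw [Finset.sum_eq_sum_iff_of_le (fun k _ => (grow_inter c i j k).2.1)] at h4
  funext k
  by_cases hk : k < i
  · exact (h4 k (Finset.mem_range.mpr hk)).symm
  · rw [grow_zero c i (j + 1) k (by omega), grow_zero c i j k (by omega)]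

theorem grow_eq_of_row (c : ℕ → ℕ → ℕ) (i j : ℕ) (h : ∀ j' < j, c i j' = 0) :
    grow c (i + 1) j = grow c i j := by
  have h1 := grow_size c (i + 1) j (i + 1) le_rfl
  have h2 := grow_size c i j (i + 1) (by omega)
  have h3 : ∑ i' ∈ range (i + 1), ∑ j' ∈ range j, c i' j' =
      ∑ i' ∈ range i, ∑ j' ∈ range j, c i' j' := by
    rw [Finset.sum_range_succ, Finset.sum_eq_zero (s := range j) (f := fun j' => c i j')
      (fun j' hj' => h j' (Finset.mem_range.mp hj')), add_zero]
  have h4 : ∑ k ∈ range (i + 1), grow c i j k = ∑ k ∈ range (i + 1), grow c (i + 1) j k := by omega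
  rw [Finset.sum_eq_sum_iff_of_le (fun k _ => (grow_inter c i j k).1)] at h4
  funext k
  by_cases hk : k < i + 1
  · exact (h4 k (Finset.mem_range.mpr hk)).symm
  · rw [grow_zero c (i + 1) j k (by omega), grow_zero c i j k (by omega)]

/-- Two sequences with `a ≤ b`, equal from `K` on, whose sums below `K` differ by one. -/
theorem step_of_sum {a b : ℕ → ℕ} {K : ℕ} (hle : ∀ k, a k ≤ b k) (hK : ∀ k, K ≤ k → b k = a k)
    (hs : ∑ k ∈ range K, b k = ∑ k ∈ range K, a k + 1) : ∃ k, b = a + Pi.single k 1 := by
  -- the differences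
  have hd : ∑ k ∈ range K, (b k - a k) = 1 := by
    have e : ∑ k ∈ range K, b k = ∑ k ∈ range K, a k + ∑ k ∈ range K, (b k - a k) := by
      rw [← Finset.sum_add_distrib]
      apply Finset.sum_congr rfl
      intro k _
      have := hle k
      omega
    omega
  obtain ⟨k, hk, hk1⟩ : ∃ k ∈ range K, b k - a k ≠ 0 := by
    by_contra hcon
    push Not at hcon
    rw [Finset.sum_eq_zero hcon] at hd
    exact absurd hd (by omega)
  have hsplit := Finset.add_sum_erase (range K) (fun k => b k - a k) hk
  have hk2 : b k - a k = 1 := by omega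
  have hrest : ∑ x ∈ (range K).erase k, (b x - a x) = 0 := by omega
  rw [Finset.sum_eq_zero_iff] at hrest
  refine ⟨k, ?_⟩
  funext x
  simp only [Pi.add_apply]
  by_cases hx : x = k
  · subst hx
    rw [Pi.single_eq_same]
    have := hle x
    omega
  · rw [Pi.single_eq_of_ne hx]
    by_cases hxK : x < K
    · have := hrest x (Finset.mem_erase.mpr ⟨hx, Finset.mem_range.mpr hxK⟩)
      have := hle x
      omega
    · rw [hK x (by omega), add_zero]

/-- If row `i` of `c` has at most one `1` left of column `j` (sum at most 1), then the corner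
`(i+1, j)` has at most one more box than the corner `(i, j)`: there is a row `k` with
`grow c (i+1) j = grow c i j + e_k`, or both agree. PROOF: by `grow_size` with `K = i + 1` the sums
differ by `∑_{j'<j} c i j' ≤ 1`; with `grow c i j ≤ grow c (i+1) j` and 0 for `k ≥ K`. -/
theorem grow_row_step (c : ℕ → ℕ → ℕ) (i j : ℕ) (h : ∑ j' ∈ range j, c i j' = 1) :
    ∃ k, grow c (i + 1) j = grow c i j + Pi.single k 1 := by
  have h1 := grow_size c (i + 1) j (i + 1) le_rfl
  have h2 := grow_size c i j (i + 1) (by omega)
  rw [Finset.sum_range_succ (fun i' => ∑ j' ∈ range j, c i' j') i, h] at h1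
  apply step_of_sum (K := i + 1) (fun k => (grow_inter c i j k).1)
  · intro k hk
    rw [grow_zero c (i + 1) j k (by omega), grow_zero c i j k (by omega)]
  · omega

theorem grow_col_step (c : ℕ → ℕ → ℕ) (i j : ℕ) (h : ∑ i' ∈ range i, c i' j = 1) :
    ∃ k, grow c i (j + 1) = grow c i j + Pi.single k 1 := by
  have h1 := grow_size c i (j + 1) i le_rfl
  have h2 := grow_size c i j i le_rfl
  have h3 : ∑ i' ∈ range i, ∑ j' ∈ range (j + 1), c i' j' =
      ∑ i' ∈ range i, ∑ j' ∈ range j, c i' j' + ∑ i' ∈ range i, c i' j := by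
    rw [← Finset.sum_add_distrib]
    apply Finset.sum_congr rfl
    intro i' _
    rw [Finset.sum_range_succ]
  rw [h] at h3
  apply step_of_sum (K := i) (fun k => (grow_inter c i j k).2.1)
  · intro k hk
    rw [grow_zero c i (j + 1) k (by omega), grow_zero c i j k (by omega)]
  · omega

/-- The growth diagram can be run backwards. PROOF: Prove for all `i ≤ N` and `j ≤ b` that
`grow c i j = grow c' i j`, by induction on `(N - i) + (b - j)`: if `i = N` or `j = b` this is the
hypothesis. Else `λ, μ, ν` (corners `(i+1, j+1)`, `(i, j+1)`, `(i+1, j)`) agree for `c` and `c'` by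
induction, and `ρ k = max (μ (k+1)) (ν (k+1)) + min (μ k) (ν k) - λ (k+1)` (from the definition and
`ρ k ≤ min (μ k) (ν k)` of `grow_inter`). Finally `c i j = λ 0 - max (μ 0) (ν 0)`. -/
theorem grow_inj {c c' : ℕ → ℕ → ℕ} {N b : ℕ} (h1 : ∀ j ≤ b, grow c N j = grow c' N j)
    (h2 : ∀ i ≤ N, grow c i b = grow c' i b) : ∀ i < N, ∀ j < b, c i j = c' i j := by
  have H : ∀ n i j, i ≤ N → j ≤ b → (N - i) + (b - j) ≤ n → ∀ k, grow c i j k = grow c' i j k := by
    intro n
    induction n with
    | zero =>
      intro i j hi hj hn k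
      obtain rfl : i = N := by omega
      rw [h1 j hj]
    | succ n ih =>
      intro i j hi hj hn k
      by_cases hiN : i = N
      · subst hiN
        rw [h1 j hj]
      by_cases hjb : j = b
      · subst hjb
        rw [h2 i hi]
      have a1 := ih (i + 1) (j + 1) (by omega) (by omega) (by omega) (k + 1)
      have a2 := ih i (j + 1) (by omega) (by omega) (by omega) k
      have a3 := ih (i + 1) j (by omega) (by omega) (by omega) k
      have a4 := ih i (j + 1) (by omega) (by omega) (by omega) (k + 1)
      have a5 := ih (i + 1) j (by omega) (by omega) (by omega) (k + 1)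
      have b1 := grow_inter c i j k
      have b2 := grow_inter c' i j k
      rw [grow_succ, grow_succ] at a1
      omega
  intro i hi j hj
  have e1 := H _ (i + 1) (j + 1) (by omega) (by omega) le_rfl 0
  have e2 := H _ i (j + 1) (by omega) (by omega) le_rfl 0
  have e3 := H _ (i + 1) j (by omega) (by omega) le_rfl 0
  rw [grow_top, grow_top] at e1
  omega

end Pool.Agent.MP_9cec2c_lc.PH
end

section

/-!
# III.2 Chains of a word and the first row of the growth diagram (owner: helper45)

First for a matrix `c : ℕ → ℕ → ℕ` with entries 0 and 1 and at most one 1 in every row and column: if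
`L (i+1) (j+1) = max (L i (j+1)) (L (i+1) j) + c i j` (`FirstRow c L`) then `L i j` is the size of a longest
chain of points in `[i] × [j]`. Then for words.
-/

set_option autoImplicit false

open Finset

namespace Pool.Agent.MP_9cec2c_lc.PH

/-- The recursion of the first row of the growth diagram. -/
structure FirstRow (c L : ℕ → ℕ → ℕ) : Prop where
  zl : ∀ j, L 0 j = 0
  zr : ∀ i, L i 0 = 0
  step : ∀ i j, L (i + 1) (j + 1) = max (L i (j + 1)) (L (i + 1) j) + c i j

/-- A chain: any two different points are strictly increasing in both coordinates. -/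
def IsCh (C : Finset (ℕ × ℕ)) : Prop :=
  ∀ u ∈ C, ∀ v ∈ C, u ≠ v → (u.1 < v.1 ∧ u.2 < v.2) ∨ (v.1 < u.1 ∧ v.2 < u.2)

/-- Every chain in `[i] × [j]` has at most `L i j` points. -/
theorem card_le_firstRow {c L : ℕ → ℕ → ℕ} (h : FirstRow c L) :
    ∀ (i j : ℕ) (C : Finset (ℕ × ℕ)), IsCh C →
      (∀ u ∈ C, u.1 < i ∧ u.2 < j ∧ c u.1 u.2 = 1) → C.card ≤ L i j := by
  intro i
  induction i with
  | zero =>
    intro j C _ hC
    have : C = ∅ := by
      apply Finset.eq_empty_of_forall_notMem
      intro u hu
      have := (hC u hu).1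
      omega
    simp [this]
  | succ i ihi =>
    intro j
    induction j with
    | zero =>
      intro C _ hC
      have : C = ∅ := by
        apply Finset.eq_empty_of_forall_notMem
        intro u hu
        have := (hC u hu).2.1
        omega
      simp [this]
    | succ j ihj =>
      intro C hch hC
      rw [h.step]
      by_cases hmem : (i, j) ∈ C
      · have hc : c i j = 1 := (hC _ hmem).2.2
        have hcard : (C.erase (i, j)).card + 1 = C.card := Finset.card_erase_add_one hmem
        have hle : (C.erase (i, j)).card ≤ L i (j + 1) := by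
          apply ihi (j + 1) (C.erase (i, j))
          · intro u hu v hv huv
            exact hch u (Finset.mem_of_mem_erase hu) v (Finset.mem_of_mem_erase hv) huv
          · intro u hu
            have hu' := Finset.mem_of_mem_erase hu
            have hne := Finset.ne_of_mem_erase hu
            obtain ⟨h1, h2, h3⟩ := hC u hu'
            rcases hch u hu' (i, j) hmem hne with h4 | h4
            · simp only at h4
              exact ⟨h4.1, h2, h3⟩
            · simp only at h4
              omega
        have := le_max_left (L i (j + 1)) (L (i + 1) j)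
        omega
      · by_cases hcol : ∃ u ∈ C, u.2 = j
        · obtain ⟨u, hu, huj⟩ := hcol
          have hui : u.1 < i := by
            have h1 := (hC u hu).1
            rcases Nat.lt_or_ge u.1 i with h2 | h2
            · exact h2
            · exfalso
              apply hmem
              have : u = (i, j) := by
                apply Prod.ext
                · simp only
                  omega
                · exact huj
              rw [← this]
              exact hu
          have hle : C.card ≤ L i (j + 1) := by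
            apply ihi (j + 1) C hch
            intro v hv
            obtain ⟨h1, h2, h3⟩ := hC v hv
            refine ⟨?_, h2, h3⟩
            by_contra hvi
            have hne : u ≠ v := by
              rintro rfl
              omega
            rcases hch u hu v hv hne with h4 | h4 <;> omega
          have := le_max_left (L i (j + 1)) (L (i + 1) j)
          omega
        · have hle : C.card ≤ L (i + 1) j := by
            apply ihj C hch
            intro v hv
            obtain ⟨h1, h2, h3⟩ := hC v hv
            refine ⟨h1, ?_, h3⟩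
            by_contra hvj
            exact hcol ⟨v, hv, by omega⟩
          have := le_max_right (L i (j + 1)) (L (i + 1) j)
          omega

/-- There is a chain in `[i] × [j]` with exactly `L i j` points. -/
theorem exists_chain_firstRow {c L : ℕ → ℕ → ℕ} (h : FirstRow c L)
    (hc : ∀ i j, c i j ≤ 1)
    (hrow : ∀ i j j', c i j = 1 → c i j' = 1 → j = j')
    (hcol : ∀ i i' j, c i j = 1 → c i' j = 1 → i = i') :
    ∀ i j : ℕ, ∃ C : Finset (ℕ × ℕ), IsCh C ∧
      (∀ u ∈ C, u.1 < i ∧ u.2 < j ∧ c u.1 u.2 = 1) ∧ C.card = L i j := by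
  have hins : ∀ (i j : ℕ) (C : Finset (ℕ × ℕ)), IsCh C → c i j = 1 →
      (∀ u ∈ C, u.1 < i ∧ u.2 < j ∧ c u.1 u.2 = 1) →
      IsCh (insert (i, j) C) ∧
      (∀ u ∈ insert (i, j) C, u.1 < i + 1 ∧ u.2 < j + 1 ∧ c u.1 u.2 = 1) ∧
      (insert (i, j) C).card = C.card + 1 := by
    intro i j C hch hij hC
    refine ⟨?_, ?_, ?_⟩
    · intro u hu v hv huv
      rw [Finset.mem_insert] at hu hv
      rcases hu with rfl | hu
      · rcases hv with rfl | hv
        · exact absurd rfl huv
        · right
          exact ⟨(hC v hv).1, (hC v hv).2.1⟩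
      · rcases hv with rfl | hv
        · left
          exact ⟨(hC u hu).1, (hC u hu).2.1⟩
        · exact hch u hu v hv huv
    · intro u hu
      rw [Finset.mem_insert] at hu
      rcases hu with rfl | hu
      · exact ⟨Nat.lt_succ_self _, Nat.lt_succ_self _, hij⟩
      · obtain ⟨h1, h2, h3⟩ := hC u hu
        exact ⟨by omega, by omega, h3⟩
    · apply Finset.card_insert_of_notMem
      intro hmem
      have := (hC _ hmem).1
      simp at this
  intro i
  induction i with
  | zero =>
    intro j
    exact ⟨∅, by intro u hu; simp at hu, by intro u hu; simp at hu, by simp [h.zl]⟩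
  | succ i ihi =>
    intro j
    induction j with
    | zero =>
      exact ⟨∅, by intro u hu; simp at hu, by intro u hu; simp at hu, by simp [h.zr]⟩
    | succ j ihj =>
      rcases Nat.lt_or_ge (L i (j + 1)) (L (i + 1) j) with hlt | hge
      · obtain ⟨C, hch, hC, hcard⟩ := ihj
        have hmax : max (L i (j + 1)) (L (i + 1) j) = L (i + 1) j := max_eq_right hlt.le
        by_cases h1 : c i j = 1
        · have hC' : ∀ u ∈ C, u.1 < i ∧ u.2 < j ∧ c u.1 u.2 = 1 := by
            intro u hu
            obtain ⟨h2, h3, h4⟩ := hC u hu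
            refine ⟨?_, h3, h4⟩
            rcases Nat.lt_or_ge u.1 i with h5 | h5
            · exact h5
            · exfalso
              have h6 : u.1 = i := by omega
              rw [h6] at h4
              have := hrow i j u.2 h1 h4
              omega
          obtain ⟨g1, g2, g3⟩ := hins i j C hch h1 hC'
          exact ⟨_, g1, g2, by have := h.step i j; omega⟩
        · have h0 : c i j = 0 := by
            have := hc i j
            omega
          refine ⟨C, hch, ?_, by have := h.step i j; omega⟩
          intro u hu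
          obtain ⟨h2, h3, h4⟩ := hC u hu
          exact ⟨h2, by omega, h4⟩
      · obtain ⟨C, hch, hC, hcard⟩ := ihi (j + 1)
        have hmax : max (L i (j + 1)) (L (i + 1) j) = L i (j + 1) := max_eq_left hge
        by_cases h1 : c i j = 1
        · have hC' : ∀ u ∈ C, u.1 < i ∧ u.2 < j ∧ c u.1 u.2 = 1 := by
            intro u hu
            obtain ⟨h2, h3, h4⟩ := hC u hu
            refine ⟨h2, ?_, h4⟩
            rcases Nat.lt_or_ge u.2 j with h5 | h5
            · exact h5
            · exfalso
              have h6 : u.2 = j := by omega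
              rw [h6] at h4
              have := hcol i u.1 j h1 h4
              omega
          obtain ⟨g1, g2, g3⟩ := hins i j C hch h1 hC'
          exact ⟨_, g1, g2, by have := h.step i j; omega⟩
        · have h0 : c i j = 0 := by
            have := hc i j
            omega
          refine ⟨C, hch, ?_, by have := h.step i j; omega⟩
          intro u hu
          obtain ⟨h2, h3, h4⟩ := hC u hu
          exact ⟨by omega, h3, h4⟩

open PHS

variable {N b : ℕ}

open Classical in
/-- The matrix of a word: pigeon `i` sits in hole `j`, that is the letter `j + 1`. -/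
noncomputable def cm (s : Wd N b) (i j : ℕ) : ℕ :=
  if ∃ h : i < N, (s ⟨i, h⟩).val = j + 1 ∧ j < b then 1 else 0

theorem cm_le (s : Wd N b) (i j : ℕ) : cm s i j ≤ 1 := by
  unfold cm
  split_ifs <;> omega

theorem cm_eq_one {s : Wd N b} {i j : ℕ} :
    cm s i j = 1 ↔ ∃ h : i < N, (s ⟨i, h⟩).val = j + 1 ∧ j < b := by
  unfold cm
  constructor
  · intro h
    split_ifs at h with h1
    exact h1
  · intro h
    rw [if_pos h]

theorem cm_eq_zero {s : Wd N b} {i j : ℕ} (h : ¬ ∃ h : i < N, (s ⟨i, h⟩).val = j + 1 ∧ j < b) :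
    cm s i j = 0 := by
  unfold cm
  rw [if_neg h]

theorem ho_of_val {a : Fin (b + 2)} (h0 : a.val ≠ 0) (h1 : a.val ≤ b) : Ho a := by
  refine ⟨fun h => h0 (by rw [h]; rfl), fun h => ?_⟩
  rw [h, Fin.val_last] at h1
  omega

theorem cm_rowinj (s : Wd N b) (i j j' : ℕ) (h : cm s i j = 1) (h' : cm s i j' = 1) : j = j' := by
  obtain ⟨h1, h2, _⟩ := cm_eq_one.1 h
  obtain ⟨h3, h4, _⟩ := cm_eq_one.1 h'
  omega

theorem cm_colinj {s : Wd N b} (hs : Good s) (i i' j : ℕ) (h : cm s i j = 1) (h' : cm s i' j = 1) :
    i = i' := by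
  obtain ⟨h1, h2, h3⟩ := cm_eq_one.1 h
  obtain ⟨h4, h5, _⟩ := cm_eq_one.1 h'
  have h6 : (⟨i, h1⟩ : Fin N) = ⟨i', h4⟩ := by
    apply hs.1
    · apply Fin.ext
      rw [h2, h5]
    · exact ho_of_val (by omega) (by omega)
  exact congrArg Fin.val h6

/-- The first row of the growth diagram. -/
theorem firstRow_grow (c : ℕ → ℕ → ℕ) : FirstRow c (fun i j => grow c i j 0) where
  zl := fun j => by simp only [grow]
  zr := fun i => by cases i <;> simp only [grow]
  step := fun i j => by simp only [grow]

/-- A chain in the pigeons `< y` with (hole) letters `≤ x` has at most `grow (cm s) y x 0` elements. -/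
theorem chain_card_le {s : Wd N b} (hs : Good s) {C : Finset (Fin N)} (hC : Chain s C) {x y : ℕ}
    (hx : x ≤ b) (h1 : ∀ i ∈ C, i.val < y) (h2 : ∀ i ∈ C, (s i).val ≤ x) :
    C.card ≤ grow (cm s) y x 0 := by
  classical
  have hinj : Set.InjOn (fun i : Fin N => (i.val, (s i).val - 1)) (C : Set (Fin N)) := by
    intro i _ i' _ h
    exact Fin.ext (congrArg Prod.fst h)
  rw [← card_image_of_injOn hinj]
  apply card_le_firstRow (firstRow_grow (cm s)) y x
  · -- a chain
    have key : ∀ i ∈ C, ∀ i' ∈ C, i < i' → (s i).val - 1 < (s i').val - 1 := by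
      intro i hi i' hi' hlt
      have h3 : s i ≤ s i' := hC.2 i hi i' hi' hlt.le
      have h4 : (s i).val ≠ 0 := fun h => hC.1 i hi (Fin.ext h)
      have h5 : s i ≠ s i' := by
        intro h
        have := hs.1 i i' h (ho_of_val h4 ((h2 i hi).trans hx))
        rw [this] at hlt
        exact lt_irrefl _ hlt
      have h6 : (s i).val < (s i').val := lt_of_le_of_ne h3 fun h => h5 (Fin.ext h)
      omega
    intro u hu v hv huv
    rw [mem_image] at hu hv
    obtain ⟨i, hi, rfl⟩ := hu
    obtain ⟨i', hi', rfl⟩ := hv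
    have hne : i ≠ i' := fun h => huv (by rw [h])
    rcases lt_or_gt_of_ne hne with h | h
    · exact Or.inl ⟨h, key i hi i' hi' h⟩
    · exact Or.inr ⟨h, key i' hi' i hi h⟩
  · intro u hu
    rw [mem_image] at hu
    obtain ⟨i, hi, rfl⟩ := hu
    have h4 : (s i).val ≠ 0 := fun h => hC.1 i hi (Fin.ext h)
    have h5 := h2 i hi
    refine ⟨h1 i hi, by simp only; omega, ?_⟩
    rw [cm_eq_one]
    refine ⟨i.isLt, ?_, ?_⟩
    · simp only [Fin.eta]
      omega
    · simp only
      omega

/-- There is a chain in the pigeons `< y` with letters `≤ x` which has exactly `grow (cm s) y x 0`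
elements. -/
theorem exists_chain' {s : Wd N b} (hs : Good s) (x y : ℕ) :
    ∃ C : Finset (Fin N), Chain s C ∧ (∀ i ∈ C, i.val < y) ∧ (∀ i ∈ C, (s i).val ≤ x) ∧
      (∀ i ∈ C, (s i).val ≤ b) ∧ C.card = grow (cm s) y x 0 := by
  classical
  obtain ⟨C, h1, h2, h3⟩ := exists_chain_firstRow (firstRow_grow (cm s)) (cm_le s) (cm_rowinj s)
    (cm_colinj hs) y x
  refine ⟨univ.filter fun i : Fin N => (i.val, (s i).val - 1) ∈ C ∧ (s i).val ≠ 0 ∧ (s i).val ≤ b,
    ⟨?_, ?_⟩, ?_, ?_, ?_, ?_⟩
  · intro i hi h
    rw [mem_filter] at hi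
    exact hi.2.2.1 (by rw [h]; rfl)
  · intro i hi i' hi' hle
    rw [mem_filter] at hi hi'
    rcases eq_or_lt_of_le hle with h | h
    · rw [h]
    · have hne : ((i.val, (s i).val - 1) : ℕ × ℕ) ≠ (i'.val, (s i').val - 1) := by
        intro h4
        have h5 : i.val = i'.val := congrArg Prod.fst h4
        have h6 : i.val < i'.val := h
        omega
      have h7 : i.val < i'.val := h
      rcases h1 _ hi.2.1 _ hi'.2.1 hne with h4 | h4
      · have h5 := h4.2
        simp only at h5
        exact Fin.le_def.2 (by omega)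
      · have h5 := h4.1
        simp only at h5
        omega
  · intro i hi
    rw [mem_filter] at hi
    exact (h2 _ hi.2.1).1
  · intro i hi
    rw [mem_filter] at hi
    have h4 := (h2 _ hi.2.1).2.1
    simp only at h4
    have h5 := hi.2.2.1
    omega
  · intro i hi
    rw [mem_filter] at hi
    exact hi.2.2.2
  · rw [← h3]
    refine card_bij (fun i _ => (i.val, (s i).val - 1)) ?_ ?_ ?_
    · intro i hi
      rw [mem_filter] at hi
      exact hi.2.1
    · intro i _ i' _ h
      exact Fin.ext (congrArg Prod.fst h)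
    · intro u hu
      obtain ⟨h4, h5, h6⟩ := h2 u hu
      obtain ⟨h7, h8, h9⟩ := cm_eq_one.1 h6
      refine ⟨⟨u.1, h7⟩, ?_, ?_⟩
      · rw [mem_filter]
        refine ⟨mem_univ _, ?_, ?_, ?_⟩
        · have : ((⟨u.1, h7⟩ : Fin N).val, (s ⟨u.1, h7⟩).val - 1) = u := by
            apply Prod.ext
            · rfl
            · simp only
              omega
          rw [this]
          exact hu
        · omega
        · omega
      · apply Prod.ext
        · rfl
        · simp only
          omega

/-- A word without star has only hole letters and the letter `0`. -/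
theorem val_le_of_stars {s : Wd N b} (h0 : stars s = 0) (i : Fin N) : (s i).val ≤ b := by
  unfold stars at h0
  rw [card_eq_zero] at h0
  have h1 : i ∉ univ.filter fun i => s i = Fin.last (b + 1) := by
    rw [h0]
    exact notMem_empty i
  rw [mem_filter] at h1
  have h2 : s i ≠ Fin.last (b + 1) := fun h => h1 ⟨mem_univ _, h⟩
  have h3 : (s i).val ≠ b + 1 := fun h => h2 (Fin.ext (by rw [h, Fin.val_last]))
  have h4 := (s i).isLt
  omega

/-- `(P_y)` for a word without star. -/
theorem firstRow_le_frP {s : Wd N b} (hs : Std s) (y : ℕ) :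
    grow (cm s) y b 0 ≤ (frPset s y).card := by
  obtain ⟨C, h1, h2, _, _, h5⟩ := exists_chain' hs.1.1 b y
  rw [← h5]
  exact hs.1.2.1 y C h1 h2

/-- `(H_x)`. -/
theorem firstRow_le_frH {s : Wd N b} (hs : Std s) {x : ℕ} (hx : x ≤ b) :
    grow (cm s) N x 0 ≤ (frHset s x).card := by
  obtain ⟨C, h1, _, h3, _, h5⟩ := exists_chain' hs.1.1 x N
  rw [← h5]
  exact hs.1.2.2 x hx C h1 h3

/-- All chains of a word without star. -/
theorem chain_card_le_grow {s : Wd N b} (hs : Good s) (h0 : stars s = 0) {C : Finset (Fin N)}
    (hC : Chain s C) : C.card ≤ grow (cm s) N b 0 :=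
  chain_card_le hs hC le_rfl (fun i _ => i.isLt) fun i _ => val_le_of_stars h0 i

theorem cm_row {s : Wd N b} (h0 : stars s = 0) (i : Fin N) :
    ∑ j ∈ range b, cm s i j = if s i = 0 then 0 else 1 := by
  by_cases h : s i = 0
  · rw [if_pos h]
    apply sum_eq_zero
    intro j _
    apply cm_eq_zero
    rintro ⟨h1, h2, _⟩
    simp only [Fin.eta, h, Fin.val_zero] at h2
    omega
  · rw [if_neg h]
    have h1 : (s i).val ≠ 0 := fun h' => h (Fin.ext h')
    have h2 := val_le_of_stars h0 i
    rw [sum_eq_single_of_mem ((s i).val - 1) (mem_range.2 (by omega))]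
    · rw [cm_eq_one]
      refine ⟨i.isLt, ?_, by omega⟩
      simp only [Fin.eta]
      omega
    · intro j _ hj
      apply cm_eq_zero
      rintro ⟨_, h4, _⟩
      simp only [Fin.eta] at h4
      omega

theorem cm_col {s : Wd N b} (hs : Good s) {j : ℕ} (hj : j < b) :
    ∑ i ∈ range N, cm s i j = if ∀ i, (s i).val ≠ j + 1 then 0 else 1 := by
  by_cases h : ∀ i, (s i).val ≠ j + 1
  · rw [if_pos h]
    apply sum_eq_zero
    intro i _
    apply cm_eq_zero
    rintro ⟨h1, h2, _⟩
    exact h ⟨i, h1⟩ h2
  · rw [if_neg h]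
    push Not at h
    obtain ⟨i, hi⟩ := h
    have h1 : cm s i j = 1 := cm_eq_one.2 ⟨i.isLt, by simpa only [Fin.eta] using hi, hj⟩
    rw [sum_eq_single_of_mem i.val (mem_range.2 i.isLt)]
    · exact h1
    · intro i' _ hi'
      have h2 := cm_le s i' j
      have h3 : cm s i' j ≠ 1 := fun h4 => hi' (cm_colinj hs _ _ j h4 h1)
      omega

theorem cm_inj {s s' : Wd N b} (h0 : stars s = 0) (h0' : stars s' = 0)
    (h : ∀ i < N, ∀ j < b, cm s i j = cm s' i j) : s = s' := by
  have key : ∀ {t t' : Wd N b}, stars t = 0 → (∀ i < N, ∀ j < b, cm t i j = cm t' i j) →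
      ∀ i, (t i).val ≠ 0 → t i = t' i := by
    intro t t' ht hh i hi
    have h1 := val_le_of_stars ht i
    have h2 : cm t i ((t i).val - 1) = 1 := by
      rw [cm_eq_one]
      refine ⟨i.isLt, ?_, by omega⟩
      simp only [Fin.eta]
      omega
    rw [hh i i.isLt ((t i).val - 1) (by omega), cm_eq_one] at h2
    obtain ⟨_, h3, _⟩ := h2
    simp only [Fin.eta] at h3
    exact Fin.ext (by omega)
  funext i
  by_cases h1 : (s i).val = 0
  · by_cases h2 : (s' i).val = 0
    · exact Fin.ext (by omega)
    · exact (key h0' (fun i hi j hj => (h i hi j hj).symm) i h2).symm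
  · exact key h0 h i h1

/-- A chain in the pigeons `< v` with letters `≤ w` has at most `grow (cm s) v w 0` elements. -/
theorem chain_le {s : Wd N b} (hs : Good s) {v w : ℕ} (_hv : v ≤ N) (hw : w ≤ b) {C : Finset (Fin N)}
    (hC : Chain s C) (h1 : ∀ i ∈ C, i.val < v) (h2 : ∀ i ∈ C, (s i).val ≤ w) :
    C.card ≤ grow (cm s) v w 0 :=
  chain_card_le hs hC hw h1 h2

/-- There is one with equality. -/
theorem exists_chain {s : Wd N b} (hs : Good s) {v w : ℕ} (_hv : v ≤ N) (_hw : w ≤ b) :
    ∃ C : Finset (Fin N), Chain s C ∧ (∀ i ∈ C, i.val < v) ∧ (∀ i ∈ C, (s i).val ≤ w) ∧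
      C.card = grow (cm s) v w 0 := by
  obtain ⟨C, h1, h2, h3, _, h5⟩ := exists_chain' hs w v
  exact ⟨C, h1, h2, h3, h5⟩

end Pool.Agent.MP_9cec2c_lc.PH
end
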