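import Mathlib

section

/-!
Young's lattice: partitions as antitone functions, and the number of lattice words of a shape.
-/

set_option autoImplicit false
set_option linter.unusedSectionVars false

namespace Pool.Agent.MP_9cec2c_lc.YL

open Finset

/-- One more box in the row `r`. -/
def up (l : ℕ → ℕ) (r : ℕ) : ℕ → ℕ := Function.update l r (l r + 1)

/-- One box less in the row `r`. -/
def dn (l : ℕ → ℕ) (r : ℕ) : ℕ → ℕ := Function.update l r (l r - 1)

/-- A box can be added to the row `r`. -/
def Add (l : ℕ → ℕ) (r : ℕ) : Prop := r = 0 ∨ l r < l (r - 1)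

/-- The last box of the row `r` can be removed. -/
def Rem (l : ℕ → ℕ) (r : ℕ) : Prop := l (r + 1) < l r

/-- `l` is a partition of `n`. -/
def IsPar (n : ℕ) (l : ℕ → ℕ) : Prop :=
  Antitone l ∧ (∀ r, n ≤ r → l r = 0) ∧ ∑ r ∈ range n, l r = n

theorem IsPar.le {n : ℕ} {l : ℕ → ℕ} (h : IsPar n l) (r : ℕ) : l r ≤ n := by
  by_cases hr : r < n
  · calc l r ≤ ∑ r ∈ range n, l r :=
          single_le_sum (f := fun r => l r) (fun _ _ => Nat.zero_le _) (mem_range.2 hr)
      _ = n := h.2.2
  · rw [h.2.1 r (not_lt.1 hr)]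
    exact Nat.zero_le _

theorem finite_par (n : ℕ) : {l | IsPar n l}.Finite := by
  classical
  refine Set.Finite.subset (Set.Finite.image
    (fun (u : Fin n → Fin (n + 1)) (r : ℕ) => if h : r < n then (u ⟨r, h⟩ : ℕ) else 0)
    (Set.finite_univ)) ?_
  intro l hl
  refine ⟨fun r => ⟨l r, Nat.lt_succ_of_le (hl.le r)⟩, Set.mem_univ _, ?_⟩
  funext r
  by_cases h : r < n
  · simp [h]
  · simp [h, hl.2.1 r (not_lt.1 h)]

/-- The partitions of `n`. -/
noncomputable def Par (n : ℕ) : Finset (ℕ → ℕ) := (finite_par n).toFinset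

theorem mem_Par {n : ℕ} {l : ℕ → ℕ} : l ∈ Par n ↔ IsPar n l := by
  unfold Par
  rw [Set.Finite.mem_toFinset]
  exact Iff.rfl

open Classical in
/-- The number of standard tableaux (lattice words) of the shape `l`, for partitions `l` of `n`. -/
noncomputable def f : ℕ → (ℕ → ℕ) → ℕ
  | 0, l => if l = 0 then 1 else 0
  | n + 1, l => ∑ r ∈ range (n + 1), if Rem l r then f n (dn l r) else 0

theorem up_same (l : ℕ → ℕ) (r : ℕ) : up l r r = l r + 1 := by
  unfold up
  rw [Function.update_self]

theorem up_ne {l : ℕ → ℕ} {r s : ℕ} (h : s ≠ r) : up l r s = l s := by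
  unfold up
  rw [Function.update_of_ne h]

theorem dn_same (l : ℕ → ℕ) (r : ℕ) : dn l r r = l r - 1 := by
  unfold dn
  rw [Function.update_self]

theorem dn_ne {l : ℕ → ℕ} {r s : ℕ} (h : s ≠ r) : dn l r s = l s := by
  unfold dn
  rw [Function.update_of_ne h]

theorem dn_up (l : ℕ → ℕ) (r : ℕ) : dn (up l r) r = l := by
  funext s
  by_cases h : s = r
  · subst h
    rw [dn_same, up_same, Nat.add_sub_cancel]
  · rw [dn_ne h, up_ne h]

theorem up_dn {l : ℕ → ℕ} {r : ℕ} (h : Rem l r) : up (dn l r) r = l := by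
  funext s
  by_cases hs : s = r
  · subst hs
    unfold Rem at h
    rw [up_same, dn_same]
    omega
  · rw [up_ne hs, dn_ne hs]

theorem Add.le {n : ℕ} {l : ℕ → ℕ} (hl : IsPar n l) {r : ℕ} (h : Add l r) : r ≤ n := by
  rcases h with h | h
  · rw [h]
    exact Nat.zero_le _
  · by_contra hr
    have h1 := hl.2.1 (r - 1) (by omega)
    omega

theorem Rem.lt {n : ℕ} {l : ℕ → ℕ} (hl : IsPar n l) {r : ℕ} (h : Rem l r) : r < n := by
  by_contra hr
  have h1 := hl.2.1 r (not_lt.1 hr)
  unfold Rem at h
  omega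

/-- The sum over a longer range. -/
theorem IsPar.sum_eq {n : ℕ} {l : ℕ → ℕ} (hl : IsPar n l) {N : ℕ} (hN : n ≤ N) :
    ∑ r ∈ range N, l r = n := by
  rw [← hl.2.2]
  refine (sum_subset (range_mono hN) fun r _ hr => ?_).symm
  exact hl.2.1 r (by rwa [mem_range, not_lt] at hr)

theorem IsPar.up {n : ℕ} {l : ℕ → ℕ} (hl : IsPar n l) {r : ℕ} (h : Add l r) :
    IsPar (n + 1) (up l r) := by
  have hr := h.le hl
  refine ⟨?_, fun s hs => ?_, ?_⟩
  · refine antitone_nat_of_succ_le fun s => ?_
    have h1 : l (s + 1) ≤ l s := hl.1 (Nat.le_succ s)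
    by_cases h2 : s + 1 = r
    · rw [h2, up_same, up_ne (by omega)]
      rcases h with h | h
      · omega
      · rw [← h2, Nat.add_sub_cancel] at h
        rw [← h2]
        omega
    · rw [up_ne h2]
      by_cases h3 : s = r
      · subst h3
        rw [up_same]
        omega
      · rw [up_ne h3]
        exact h1
  · rw [up_ne (by omega)]
    exact hl.2.1 s (by omega)
  · have h1 := hl.sum_eq (Nat.le_succ n)
    have h2 : r ∈ range (n + 1) := mem_range.2 (by omega)
    rw [← add_sum_erase _ _ h2] at h1 ⊢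
    rw [up_same]
    have h3 : ∑ s ∈ (range (n + 1)).erase r, YL.up l r s = ∑ s ∈ (range (n + 1)).erase r, l s :=
      sum_congr rfl fun s hs => up_ne (ne_of_mem_erase hs)
    rw [h3]
    omega

theorem rem_up {n : ℕ} {l : ℕ → ℕ} (hl : IsPar n l) (r : ℕ) : Rem (up l r) r := by
  unfold Rem
  rw [up_same, up_ne (by omega)]
  have := hl.1 (Nat.le_succ r)
  simp only [Nat.succ_eq_add_one] at this
  omega

theorem IsPar.dn {n : ℕ} {l : ℕ → ℕ} (hl : IsPar (n + 1) l) {r : ℕ} (h : Rem l r) :
    IsPar n (dn l r) := by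
  have hr := h.lt hl
  have h0 : l (r + 1) < l r := h
  -- `l n = 0` or `l` is the column
  have hsum : ∑ s ∈ range (n + 1), YL.dn l r s = n := by
    have h1 := hl.2.2
    have h2 : r ∈ range (n + 1) := mem_range.2 hr
    rw [← add_sum_erase _ _ h2] at h1 ⊢
    rw [dn_same]
    have h3 : ∑ s ∈ (range (n + 1)).erase r, YL.dn l r s = ∑ s ∈ (range (n + 1)).erase r, l s :=
      sum_congr rfl fun s hs => dn_ne (ne_of_mem_erase hs)
    rw [h3]
    omega
  have hanti : Antitone (YL.dn l r) := by
    refine antitone_nat_of_succ_le fun s => ?_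
    have h1 : l (s + 1) ≤ l s := hl.1 (Nat.le_succ s)
    by_cases h2 : s + 1 = r
    · rw [h2, dn_same, dn_ne (by omega)]
      have h3 : l r ≤ l s := by
        rw [← h2]
        exact h1
      omega
    · rw [dn_ne h2]
      by_cases h3 : s = r
      · subst h3
        rw [dn_same]
        omega
      · rw [dn_ne h3]
        exact h1
  have hn : YL.dn l r n = 0 := by
    by_contra hne
    have h1 : ∀ s ∈ range (n + 1), 1 ≤ YL.dn l r s := fun s hs =>
      (Nat.one_le_iff_ne_zero.2 hne).trans (hanti (Nat.lt_succ_iff.1 (mem_range.1 hs)))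
    have h2 := sum_le_sum h1
    rw [hsum, sum_const, card_range, smul_eq_mul] at h2
    omega
  refine ⟨hanti, fun s hs => ?_, ?_⟩
  · exact Nat.le_zero.1 ((hanti hs).trans hn.le)
  · rw [sum_range_succ, hn, add_zero] at hsum
    exact hsum

theorem add_dn {n : ℕ} {l : ℕ → ℕ} (hl : IsPar n l) {r : ℕ} (h : Rem l r) : Add (dn l r) r := by
  have h0 : l (r + 1) < l r := h
  rcases Nat.eq_zero_or_pos r with h1 | h1
  · exact Or.inl h1
  · right
    rw [dn_same, dn_ne (by omega)]
    have h2 : l r ≤ l (r - 1) := hl.1 (Nat.sub_le _ _)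
    omega

theorem par_zero {l : ℕ → ℕ} : IsPar 0 l ↔ l = 0 := by
  constructor
  · intro h
    funext r
    exact h.2.1 r (Nat.zero_le r)
  · rintro rfl
    exact ⟨fun _ _ _ => le_rfl, fun _ _ => rfl, rfl⟩

theorem Par_zero : Par 0 = {0} := by
  ext l
  rw [mem_Par, par_zero, mem_singleton]

end Pool.Agent.MP_9cec2c_lc.YL
end

section

/-!
# III.3a Lattice words (PHPF part III, file 2). Owner: helper73.
-/

set_option autoImplicit false

namespace Pool.Agent.MP_9cec2c_lc.PH

open Finset YL

/-- The content of a word at the time `i`: how often each letter occurs at the places below `i`. -/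
def content {n : ℕ} (a : Fin n → ℕ) (i : ℕ) (r : ℕ) : ℕ :=
  (univ.filter fun j : Fin n => j.val < i ∧ a j = r).card

/-- The lattice words of length `n` with content `μ`: at all times the content is antitone. -/
def LWs (n : ℕ) (μ : ℕ → ℕ) : Set (Fin n → ℕ) :=
  {a | (∀ i, Antitone (content a i)) ∧ content a n = μ}

theorem latc_init {n : ℕ} (a : Fin (n + 1) → ℕ) (i r : ℕ) :
    content a i r = content (Fin.init a : Fin n → ℕ) i r +
      if n < i ∧ a (Fin.last n) = r then 1 else 0 := by
  unfold content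
  rw [card_filter, card_filter, Fin.sum_univ_castSucc]
  rfl

theorem latc_ge {n : ℕ} (a : Fin n → ℕ) {i : ℕ} (h : n ≤ i) : content a i = content a n := by
  funext r
  unfold content
  congr 1
  ext j
  simp only [mem_filter, mem_univ, true_and]
  have := j.isLt
  constructor
  · rintro ⟨-, h2⟩
    exact ⟨this, h2⟩
  · rintro ⟨-, h2⟩
    exact ⟨by omega, h2⟩

theorem latc_sum {n : ℕ} (a : Fin n → ℕ) (i R : ℕ) : ∑ r ∈ range R, content a i r ≤ n := by
  unfold content
  rw [← card_biUnion]
  · exact (card_le_univ _).trans (Fintype.card_fin n).le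
  · intro r _ s _ hrs
    rw [Function.onFun, disjoint_left]
    intro j hj hj'
    exact hrs ((mem_filter.1 hj).2.2.symm.trans (mem_filter.1 hj').2.2)

theorem lat_card (n : ℕ) (μ : ℕ → ℕ) : (LWs n μ).Finite ∧ (LWs n μ).ncard ≤ f n μ := by
  classical
  induction n generalizing μ with
  | zero =>
    by_cases hμ : μ = 0
    · subst hμ
      have h1 : LWs 0 0 ⊆ ((univ : Finset (Fin 0 → ℕ)) : Set (Fin 0 → ℕ)) := by
        intro a _
        exact mem_coe.2 (mem_univ a)
      refine ⟨(finite_toSet _).subset h1, (Set.ncard_le_ncard h1 (finite_toSet _)).trans ?_⟩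
      rw [Set.ncard_coe_finset, card_univ]
      unfold f
      rw [if_pos rfl]
      exact Fintype.card_le_one_iff_subsingleton.2 inferInstance
    · have h1 : LWs 0 μ = ∅ := by
        ext a
        refine ⟨fun h => hμ ?_, fun h => absurd h (Set.notMem_empty a)⟩
        rw [← h.2]
        funext r
        unfold content
        rw [Pi.zero_apply, card_eq_zero, filter_eq_empty_iff]
        intro j
        exact j.elim0
      rw [h1]
      exact ⟨Set.finite_empty, by rw [Set.ncard_empty]; exact Nat.zero_le _⟩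
  | succ n ih =>
    obtain ⟨T, hT⟩ : ∃ T : Finset (Fin (n + 1) → ℕ), T = (range (n + 1)).biUnion fun r =>
      if Rem μ r then ((ih (dn μ r)).1.toFinset.image fun a' : Fin n → ℕ =>
        (Fin.snoc a' r : Fin (n + 1) → ℕ)) else ∅ := ⟨_, rfl⟩
    have hsub : LWs (n + 1) μ ⊆ (T : Set (Fin (n + 1) → ℕ)) := by
      rintro a ⟨ha, haμ⟩
      obtain ⟨r, hr⟩ : ∃ r, r = a (Fin.last n) := ⟨_, rfl⟩
      obtain ⟨a', ha'⟩ : ∃ a' : Fin n → ℕ, a' = Fin.init a := ⟨_, rfl⟩
      have h1 : μ = up (content a' n) r := by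
        rw [← haμ]
        funext s
        rw [latc_init, ← ha', ← hr, latc_ge a' (Nat.le_succ n)]
        by_cases hs : s = r
        · subst hs
          rw [up_same, if_pos ⟨Nat.lt_succ_self n, rfl⟩]
        · rw [up_ne hs, if_neg (fun h => hs h.2.symm), add_zero]
      have h2 : ∀ i ≤ n, content a' i = content a i := by
        intro i hi
        funext s
        rw [latc_init a, ← ha', if_neg (fun h => by omega), add_zero]
      have h3 : ∀ i, Antitone (content a' i) := by
        intro i
        by_cases hi : i ≤ n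
        · rw [h2 i hi]
          exact ha i
        · rw [latc_ge a' (by omega), h2 n le_rfl]
          exact ha n
      have h4 : Rem μ r := by
        unfold Rem
        rw [h1, up_same, up_ne (by omega)]
        have := h3 n (Nat.le_succ r)
        simp only [Nat.succ_eq_add_one] at this
        omega
      have h5 : r < n + 1 := by
        have h6 : ∀ s ∈ range (r + 1), 1 ≤ content a (n + 1) s := by
          intro s hs
          have h7 : content a (n + 1) r ≤ content a (n + 1) s :=
            ha (n + 1) (by have := mem_range.1 hs; omega)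
          rw [haμ] at h7 ⊢
          have h8 : μ (r + 1) < μ r := h4
          omega
        have h7 := sum_le_sum h6
        rw [sum_const, card_range, smul_eq_mul, mul_one] at h7
        have h8 := latc_sum a (n + 1) (r + 1)
        omega
      rw [mem_coe, hT, mem_biUnion]
      refine ⟨r, mem_range.2 h5, ?_⟩
      rw [if_pos h4, mem_image]
      refine ⟨a', (Set.Finite.mem_toFinset _).2 ⟨h3, ?_⟩, ?_⟩
      · rw [h1, dn_up]
      · rw [ha', hr]
        exact Fin.snoc_init_self a
    refine ⟨(finite_toSet T).subset hsub, ?_⟩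
    refine (Set.ncard_le_ncard hsub (finite_toSet T)).trans ?_
    rw [Set.ncard_coe_finset, hT]
    refine card_biUnion_le.trans ?_
    unfold f
    refine sum_le_sum fun r _ => ?_
    by_cases h : Rem μ r
    · rw [if_pos h, if_pos h]
      refine card_image_le.trans ?_
      rw [← Set.ncard_eq_toFinset_card _ (ih (dn μ r)).1]
      exact (ih (dn μ r)).2
    · rw [if_neg h, if_neg h, card_empty]

theorem f_row (hup : ∀ n, ∀ l ∈ Par n, f (n + 1) (up l 0) ≤ (n + 1) * f n l) (n q : ℕ) :
    ∀ l ∈ Par n, f (n + q) (Function.update l 0 (l 0 + q)) ≤ (n + q) ^ q * f n l := by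
  intro l hl
  have key : Function.update l 0 (l 0 + q) ∈ Par (n + q) ∧
      f (n + q) (Function.update l 0 (l 0 + q)) ≤ (n + q) ^ q * f n l := by
    induction q with
    | zero =>
      have h1 : Function.update l 0 (l 0 + 0) = l := by
        rw [add_zero, Function.update_eq_self]
      rw [h1, add_zero, pow_zero, one_mul]
      exact ⟨hl, le_rfl⟩
    | succ q ih =>
      obtain ⟨h1, h2⟩ := ih
      have h3 : Function.update l 0 (l 0 + (q + 1)) = up (Function.update l 0 (l 0 + q)) 0 := by
        unfold up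
        rw [Function.update_self, Function.update_idem, add_assoc]
      rw [h3]
      refine ⟨mem_Par.2 ((mem_Par.1 h1).up (Or.inl rfl)), ?_⟩
      calc f (n + (q + 1)) (up (Function.update l 0 (l 0 + q)) 0)
          = f (n + q + 1) (up (Function.update l 0 (l 0 + q)) 0) := by rw [add_assoc]
        _ ≤ (n + q + 1) * f (n + q) (Function.update l 0 (l 0 + q)) := hup _ _ h1
        _ ≤ (n + q + 1) * ((n + q) ^ q * f n l) := Nat.mul_le_mul_left _ h2
        _ ≤ (n + q + 1) * ((n + q + 1) ^ q * f n l) :=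
            Nat.mul_le_mul_left _ (Nat.mul_le_mul_right _ (Nat.pow_le_pow_left (by omega) q))
        _ = (n + (q + 1)) ^ (q + 1) * f n l := by ring
  exact key.2

end Pool.Agent.MP_9cec2c_lc.PH
end

section

/-!
Young's lattice: adding and removing boxes.
-/

set_option autoImplicit false
set_option linter.unusedSectionVars false

namespace Pool.Agent.MP_9cec2c_lc.YL

open Finset

open Classical in
/-- Exchange of the sums over the ways to remove and to add a box. -/
theorem sum_swap {M : Type} [AddCommMonoid M] (n : ℕ) (G : (ℕ → ℕ) → ℕ → M) :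
    ∑ m ∈ Par (n + 1), ∑ r ∈ range (n + 1), (if Rem m r then G (dn m r) r else 0) =
      ∑ l ∈ Par n, ∑ r ∈ range (n + 1), (if Add l r then G l r else 0) := by
  rw [← sum_product', ← sum_product', ← sum_filter, ← sum_filter]
  refine sum_bij' (fun p _ => (dn p.1 p.2, p.2)) (fun p _ => (up p.1 p.2, p.2)) ?_ ?_ ?_ ?_ ?_
  · intro p hp
    rw [mem_filter, mem_product, mem_Par] at hp ⊢
    exact ⟨⟨hp.1.1.dn hp.2, hp.1.2⟩, add_dn hp.1.1 hp.2⟩
  · intro p hp
    rw [mem_filter, mem_product, mem_Par] at hp ⊢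
    exact ⟨⟨hp.1.1.up hp.2, hp.1.2⟩, rem_up hp.1.1 p.2⟩
  · intro p hp
    rw [mem_filter] at hp
    exact Prod.ext (up_dn hp.2) rfl
  · intro p _
    exact Prod.ext (dn_up p.1 p.2) rfl
  · intro p _
    rfl

theorem up_apply (l : ℕ → ℕ) (r s : ℕ) : up l r s = if s = r then l r + 1 else l s := by
  unfold up
  rw [Function.update_apply]

theorem dn_apply (l : ℕ → ℕ) (r s : ℕ) : dn l r s = if s = r then l r - 1 else l s := by
  unfold dn
  rw [Function.update_apply]

/-- Adding and removing boxes in different rows commute. -/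
theorem comm_iff {l : ℕ → ℕ} {r s : ℕ} (h : r ≠ s) :
    (Add l r ∧ Rem (up l r) s) ↔ (Rem l s ∧ Add (dn l s) r) := by
  unfold Add Rem
  rw [up_apply, up_apply, dn_apply, dn_apply, if_neg (Ne.symm h), if_neg h]
  by_cases h1 : s + 1 = r
  · subst h1
    rw [if_pos rfl, Nat.add_sub_cancel, if_pos rfl]
    omega
  · rw [if_neg h1]
    by_cases h2 : r = 0
    · subst h2
      simp
    · rw [if_neg (by omega : ¬ r - 1 = s)]
      tauto

theorem comm_eq {l : ℕ → ℕ} {r s : ℕ} (h : r ≠ s) : dn (up l r) s = up (dn l s) r := by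
  unfold dn up
  rw [Function.update_of_ne (Ne.symm h), Function.update_of_ne h, Function.update_comm h]

open Classical in
/-- The sum of `F` over the contents of the addable boxes, weighted by the number of tableaux. -/
noncomputable def U (F : ℤ → ℝ) (n : ℕ) (l : ℕ → ℕ) : ℝ :=
  ∑ r ∈ range (n + 1), if Add l r then F ((l r : ℤ) - r) * f (n + 1) (up l r) else 0

open Classical in
/-- The sum of `F` over the contents of the addable boxes minus that over the removable boxes. -/
noncomputable def PF (F : ℤ → ℝ) (n : ℕ) (l : ℕ → ℕ) : ℝ :=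
  ∑ r ∈ range (n + 1), (if Add l r then F ((l r : ℤ) - r) else 0) -
    ∑ r ∈ range n, (if Rem l r then F ((l r : ℤ) - r - 1) else 0)

/-- The sum of the second differences of `F` over the boxes. -/
noncomputable def CF (F : ℤ → ℝ) (n : ℕ) (l : ℕ → ℕ) : ℝ :=
  ∑ r ∈ range n, ∑ c ∈ range (l r),
    (F ((c : ℤ) - r + 1) + F ((c : ℤ) - r - 1) - 2 * F ((c : ℤ) - r))

theorem f_zero_zero : f 0 0 = 1 := by
  unfold f
  exact if_pos rfl

open Classical in
theorem f_succ (n : ℕ) (l : ℕ → ℕ) :
    f (n + 1) l = ∑ r ∈ range (n + 1), if Rem l r then f n (dn l r) else 0 := by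
  rw [f]

theorem add_row_zero (l : ℕ → ℕ) : Add l 0 := Or.inl rfl

/-- The commutation relation. -/
theorem U_zero (F : ℤ → ℝ) : U F 0 0 = F 0 := by
  unfold U
  rw [sum_range_one, if_pos (add_row_zero 0), f_succ, sum_range_one, if_pos (rem_up (par_zero.2 rfl) 0),
    dn_up, f_zero_zero]
  simp

open Classical in
/-- The sum over the addable rows may be extended. -/
theorem sum_add_ext {M : Type} [AddCommMonoid M] {n : ℕ} {l : ℕ → ℕ} (hl : IsPar n l) {N : ℕ}
    (hN : n + 1 ≤ N) (G : ℕ → M) :
    ∑ r ∈ range N, (if Add l r then G r else 0) =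
      ∑ r ∈ range (n + 1), (if Add l r then G r else 0) := by
  refine (sum_subset (range_mono hN) fun r _ hr => ?_).symm
  refine if_neg fun h => hr (mem_range.2 ?_)
  have := h.le hl
  omega

open Classical in
/-- The sum over the removable rows may be extended. -/
theorem sum_rem_ext {M : Type} [AddCommMonoid M] {n : ℕ} {l : ℕ → ℕ} (hl : IsPar n l) {N : ℕ}
    (hN : n ≤ N) (G : ℕ → M) :
    ∑ r ∈ range N, (if Rem l r then G r else 0) =
      ∑ r ∈ range n, (if Rem l r then G r else 0) := by
  refine (sum_subset (range_mono hN) fun r _ hr => ?_).symm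
  exact if_neg fun h => hr (mem_range.2 (h.lt hl))

open Classical in
theorem U_succ (F : ℤ → ℝ) (n : ℕ) {l : ℕ → ℕ} (hl : IsPar (n + 1) l) :
    U F (n + 1) l = f (n + 1) l * PF F (n + 1) l +
      ∑ s ∈ range (n + 1), (if Rem l s then U F n (dn l s) else 0) := by
  -- the left side as a double sum
  have h1 : U F (n + 1) l = ∑ r ∈ range (n + 2), ∑ s ∈ range (n + 2),
      if Add l r ∧ Rem (up l r) s then F ((l r : ℤ) - r) * f (n + 1) (dn (up l r) s) else 0 := by
    unfold U
    refine sum_congr rfl fun r _ => ?_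
    by_cases h : Add l r
    · rw [if_pos h, f_succ, Nat.cast_sum, mul_sum]
      refine sum_congr rfl fun s _ => ?_
      by_cases h2 : Rem (up l r) s
      · rw [if_pos h2, if_pos ⟨h, h2⟩]
      · rw [if_neg h2, if_neg (fun h3 => h2 h3.2), Nat.cast_zero, mul_zero]
    · rw [if_neg h]
      exact (sum_eq_zero fun s _ => if_neg fun h3 => h h3.1).symm
  -- the sum on the right side as a double sum
  have h2 : ∑ s ∈ range (n + 1), (if Rem l s then U F n (dn l s) else 0) =
      ∑ s ∈ range (n + 2), ∑ r ∈ range (n + 2), if Rem l s ∧ Add (dn l s) r then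
        F ((dn l s r : ℤ) - r) * f (n + 1) (up (dn l s) r) else 0 := by
    rw [← sum_rem_ext hl (Nat.le_succ (n + 1)) (fun s => U F n (dn l s))]
    refine sum_congr rfl fun s _ => ?_
    by_cases h : Rem l s
    · rw [if_pos h]
      unfold U
      rw [← sum_add_ext (hl.dn h) (Nat.le_succ (n + 1))]
      refine sum_congr rfl fun r _ => ?_
      by_cases h2 : Add (dn l s) r
      · rw [if_pos h2, if_pos ⟨h, h2⟩]
      · rw [if_neg h2, if_neg (fun h3 => h2 h3.2)]
    · rw [if_neg h]
      exact (sum_eq_zero fun s _ => if_neg fun h3 => h h3.1).symm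
  -- the diagonal terms
  have h3 : ∀ r ∈ range (n + 2), ∑ s ∈ range (n + 2),
      (if Add l r ∧ Rem (up l r) s then F ((l r : ℤ) - r) * f (n + 1) (dn (up l r) s) else 0) =
      (if Add l r then F ((l r : ℤ) - r) * f (n + 1) l else 0) +
      ((∑ s ∈ range (n + 2), (if Rem l s ∧ Add (dn l s) r then
        F ((dn l s r : ℤ) - r) * f (n + 1) (up (dn l s) r) else 0)) -
      if Rem l r then F ((l r : ℤ) - r - 1) * f (n + 1) l else 0) := by
    intro r hr
    rw [← add_sum_erase _ _ hr, ← add_sum_erase (range (n + 2)) (fun s =>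
      if Rem l s ∧ Add (dn l s) r then
        F ((dn l s r : ℤ) - r) * f (n + 1) (up (dn l s) r) else 0) hr]
    have e1 : (if Add l r ∧ Rem (up l r) r then
        F ((l r : ℤ) - r) * (f (n + 1) (dn (up l r) r) : ℝ) else 0) =
        if Add l r then F ((l r : ℤ) - r) * f (n + 1) l else 0 := by
      rw [dn_up]
      by_cases h : Add l r
      · rw [if_pos h, if_pos ⟨h, rem_up hl r⟩]
      · rw [if_neg h, if_neg fun h3 => h h3.1]
    have e2 : (if Rem l r ∧ Add (dn l r) r then
        F ((dn l r r : ℤ) - r) * (f (n + 1) (up (dn l r) r) : ℝ) else 0) =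
        if Rem l r then F ((l r : ℤ) - r - 1) * f (n + 1) l else 0 := by
      by_cases h : Rem l r
      · rw [if_pos h, if_pos ⟨h, add_dn hl h⟩, up_dn h, dn_same]
        have h4 : 1 ≤ l r := by
          unfold Rem at h
          omega
        rw [Nat.cast_sub h4]
        congr 2
        push_cast
        ring
      · rw [if_neg h, if_neg fun h3 => h h3.1]
    have e3 : ∑ s ∈ (range (n + 2)).erase r, (if Add l r ∧ Rem (up l r) s then
        F ((l r : ℤ) - r) * (f (n + 1) (dn (up l r) s) : ℝ) else 0) =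
        ∑ s ∈ (range (n + 2)).erase r, (if Rem l s ∧ Add (dn l s) r then
        F ((dn l s r : ℤ) - r) * (f (n + 1) (up (dn l s) r) : ℝ) else 0) := by
      refine sum_congr rfl fun s hs => ?_
      have hsr : r ≠ s := (ne_of_mem_erase hs).symm
      rw [comm_eq hsr, dn_ne hsr]
      by_cases h : Rem l s ∧ Add (dn l s) r
      · rw [if_pos h, if_pos ((comm_iff hsr).2 h)]
      · rw [if_neg h, if_neg (fun h3 => h ((comm_iff hsr).1 h3))]
    rw [e1, e2, e3]
    ring
  rw [h1, sum_congr rfl h3, sum_add_distrib, sum_sub_distrib, h2, sum_comm (s := range (n + 2))]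
  unfold PF
  have h4 : ∑ r ∈ range (n + 2), (if Rem l r then F ((l r : ℤ) - r - 1) * (f (n + 1) l : ℝ) else 0) =
      ∑ r ∈ range (n + 1), (if Rem l r then F ((l r : ℤ) - r - 1) * (f (n + 1) l : ℝ) else 0) :=
    sum_rem_ext hl (Nat.le_succ (n + 1)) _
  rw [h4, mul_sub, mul_sum, mul_sum]
  have h5 : ∀ r, (if Add l r then F ((l r : ℤ) - r) * (f (n + 1) l : ℝ) else 0) =
      (f (n + 1) l : ℝ) * if Add l r then F ((l r : ℤ) - r) else 0 := by
    intro r
    split_ifs
    · ring
    · rw [mul_zero]
  have h6 : ∀ r, (if Rem l r then F ((l r : ℤ) - r - 1) * (f (n + 1) l : ℝ) else 0) =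
      (f (n + 1) l : ℝ) * if Rem l r then F ((l r : ℤ) - r - 1) else 0 := by
    intro r
    split_ifs
    · ring
    · rw [mul_zero]
  simp only [h5, h6]
  ring

/-- Telescoping. -/
theorem PF_eq (F : ℤ → ℝ) (n : ℕ) {l : ℕ → ℕ} (hl : IsPar n l) : PF F n l = F 0 + CF F n l := by
  classical
  -- the rows that are not addable
  have h1 : ∀ N : ℕ, ∑ r ∈ range (N + 1), (if Add l r then F ((l r : ℤ) - r) else 0) -
      ∑ r ∈ range N, (if Rem l r then F ((l r : ℤ) - r - 1) else 0) =
      ∑ r ∈ range (N + 1), F ((l r : ℤ) - r) - ∑ r ∈ range N, F ((l r : ℤ) - r - 1) := by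
    intro N
    induction N with
    | zero =>
      rw [sum_range_one, sum_range_one, if_pos (add_row_zero l)]
      simp
    | succ N ih =>
      rw [sum_range_succ (fun r => if Add l r then F ((l r : ℤ) - r) else 0) (N + 1),
        sum_range_succ (fun r => if Rem l r then F ((l r : ℤ) - r - 1) else 0) N,
        sum_range_succ (fun r => F ((l r : ℤ) - r)) (N + 1),
        sum_range_succ (fun r => F ((l r : ℤ) - r - 1)) N]
      have h2 : (if Add l (N + 1) then F ((l (N + 1) : ℤ) - (N + 1 : ℕ)) else 0) -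
          (if Rem l N then F ((l N : ℤ) - N - 1) else 0) =
          F ((l (N + 1) : ℤ) - (N + 1 : ℕ)) - F ((l N : ℤ) - N - 1) := by
        have h3 : Add l (N + 1) ↔ Rem l N := by
          unfold Add Rem
          rw [Nat.add_sub_cancel]
          omega
        by_cases h4 : Rem l N
        · rw [if_pos h4, if_pos (h3.2 h4)]
        · rw [if_neg h4, if_neg (fun h5 => h4 (h3.1 h5))]
          have h5 : l (N + 1) = l N := by
            have h6 := hl.1 (Nat.le_succ N)
            unfold Rem at h4
            simp only [Nat.succ_eq_add_one] at h6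
            omega
          rw [h5, sub_self]
          have h7 : ((l N : ℤ) - ((N + 1 : ℕ) : ℤ)) = (l N : ℤ) - N - 1 := by
            push_cast
            ring
          rw [h7, sub_self]
      linarith
  -- telescoping over the rows
  have h2 : ∀ (r m : ℕ), ∑ c ∈ range m,
      (F ((c : ℤ) - r + 1) + F ((c : ℤ) - r - 1) - 2 * F ((c : ℤ) - r)) =
      (F ((m : ℤ) - r) - F ((m : ℤ) - r - 1)) - (F (-(r : ℤ)) - F (-(r : ℤ) - 1)) := by
    intro r m
    induction m with
    | zero =>
      rw [sum_range_zero]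
      simp
    | succ m ih =>
      rw [sum_range_succ, ih]
      have e1 : ((m + 1 : ℕ) : ℤ) - r = (m : ℤ) - r + 1 := by
        push_cast
        ring
      have e2 : (m : ℤ) - r + 1 - 1 = (m : ℤ) - r := by ring
      rw [e1, e2]
      ring
  have h3 : ∀ N : ℕ, ∑ r ∈ range N, (F (-(r : ℤ)) - F (-(r : ℤ) - 1)) = F 0 - F (-(N : ℤ)) := by
    intro N
    induction N with
    | zero => simp
    | succ N ih =>
      rw [sum_range_succ, ih]
      have e1 : -((N + 1 : ℕ) : ℤ) = -(N : ℤ) - 1 := by
        push_cast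
        ring
      rw [e1]
      ring
  unfold PF CF
  rw [h1 n, sum_congr rfl fun r _ => h2 r (l r), sum_sub_distrib, h3, sum_sub_distrib,
    sum_range_succ, hl.2.1 n le_rfl]
  have e1 : ((0 : ℕ) : ℤ) - (n : ℤ) = -(n : ℤ) := by simp
  rw [e1]
  ring

theorem PF_one (n : ℕ) {l : ℕ → ℕ} (hl : IsPar n l) : PF (fun _ => 1) n l = 1 := by
  rw [PF_eq _ n hl]
  unfold CF
  have h1 : ∀ r ∈ range n, ∑ _c ∈ range (l r), ((1 : ℝ) + 1 - 2 * 1) = 0 := by
    intro r _
    refine sum_eq_zero fun c _ => ?_
    norm_num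
  rw [sum_congr rfl h1, sum_const_zero, add_zero]

open Classical in
theorem U_one (n : ℕ) (l : ℕ → ℕ) : U (fun _ => 1) n l =
    ((∑ r ∈ range (n + 1), (if Add l r then f (n + 1) (up l r) else 0) : ℕ) : ℝ) := by
  unfold U
  rw [Nat.cast_sum]
  refine sum_congr rfl fun r _ => ?_
  split_ifs
  · rw [one_mul]
  · rw [Nat.cast_zero]

theorem U_one_eq (n : ℕ) : ∀ {l : ℕ → ℕ}, IsPar n l →
    U (fun _ => 1) n l = (n + 1) * (f n l : ℝ) := by
  classical
  induction n with
  | zero =>
    intro l hl
    rw [par_zero.1 hl, U_zero, f_zero_zero]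
    norm_num
  | succ n ih =>
    intro l hl
    rw [U_succ _ n hl, PF_one (n + 1) hl]
    have h1 : ∑ s ∈ range (n + 1), (if Rem l s then U (fun _ => 1) n (dn l s) else 0) =
        ((n : ℝ) + 1) * f (n + 1) l := by
      rw [f_succ, Nat.cast_sum, mul_sum]
      refine sum_congr rfl fun s _ => ?_
      by_cases h : Rem l s
      · rw [if_pos h, if_pos h, ih (hl.dn h)]
      · rw [if_neg h, if_neg h, Nat.cast_zero, mul_zero]
    rw [h1]
    push_cast
    ring

open Classical in
theorem f_up (n : ℕ) {l : ℕ → ℕ} (hl : IsPar n l) :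
    ∑ r ∈ range (n + 1), (if Add l r then f (n + 1) (up l r) else 0) = (n + 1) * f n l := by
  have h1 := U_one_eq n hl
  rw [U_one] at h1
  exact_mod_cast h1

theorem sum_sq (n : ℕ) : ∑ l ∈ Par n, f n l ^ 2 = n.factorial := by
  classical
  induction n with
  | zero =>
    rw [Par_zero, sum_singleton, f_zero_zero]
    rfl
  | succ n ih =>
    have h1 : ∀ m ∈ Par (n + 1), f (n + 1) m ^ 2 = ∑ r ∈ range (n + 1),
        (if Rem m r then f (n + 1) (up (dn m r) r) * f n (dn m r) else 0) := by
      intro m _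
      rw [sq]
      nth_rewrite 2 [f_succ]
      rw [mul_sum]
      refine sum_congr rfl fun r _ => ?_
      by_cases h : Rem m r
      · rw [if_pos h, if_pos h, up_dn h]
      · rw [if_neg h, if_neg h, mul_zero]
    rw [sum_congr rfl h1, sum_swap n (fun l r => f (n + 1) (up l r) * f n l)]
    have h2 : ∀ l ∈ Par n, ∑ r ∈ range (n + 1),
        (if Add l r then f (n + 1) (up l r) * f n l else 0) = (n + 1) * f n l ^ 2 := by
      intro l hl
      have h3 := f_up n (mem_Par.1 hl)
      calc ∑ r ∈ range (n + 1), (if Add l r then f (n + 1) (up l r) * f n l else 0)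
          = (∑ r ∈ range (n + 1), (if Add l r then f (n + 1) (up l r) else 0)) * f n l := by
            rw [sum_mul]
            refine sum_congr rfl fun r _ => ?_
            split_ifs
            · rfl
            · rw [zero_mul]
        _ = (n + 1) * f n l ^ 2 := by
            rw [h3]
            ring
    rw [sum_congr rfl h2, ← mul_sum, ih, Nat.factorial_succ]

/-- Adding a box to the first row. -/
theorem f_up_zero_le (n : ℕ) {l : ℕ → ℕ} (hl : IsPar n l) : f (n + 1) (up l 0) ≤ (n + 1) * f n l := by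
  classical
  rw [← f_up n hl]
  have h1 : f (n + 1) (up l 0) = if Add l 0 then f (n + 1) (up l 0) else 0 :=
    (if_pos (Or.inl rfl)).symm
  rw [h1]
  exact single_le_sum (f := fun r => if Add l r then f (n + 1) (up l r) else 0)
    (fun _ _ => Nat.zero_le _) (mem_range.2 (Nat.succ_pos n))

end Pool.Agent.MP_9cec2c_lc.YL
end
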