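import Pool.Agent.Lib.MP_9cec2c_lc.Mg.G030
import Pool.Agent.Lib.MP_9cec2c_lc.Mg.G031
import Pool.Agent.Lib.MP_9cec2c_lc.Mg.G033

section

/-!
# III.3b From standard words without stars to pairs of lattice words (owner: helper73)

For `s` standard without star: the shape `sh s : ℕ → ℕ`, `sh s 0 = b - deg s` = number of free holes,
`sh s (k+1) = grow (cm s) N b k`; the word of the pigeons `pw s : Fin N → ℕ` and the word of the holes
`hw s : Fin b → ℕ`. The letter is `0` for a free pigeon (hole), and `k + 1` if the new box is in row `k`.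
-/

set_option autoImplicit false

open Finset

namespace Pool.Agent.MP_9cec2c_lc.PH

open PHS YL

variable {N b : ℕ}

/-- The shape: the free holes and the partition of the whole diagram. -/
noncomputable def sh (s : Wd N b) (r : ℕ) : ℕ :=
  if r = 0 then b - deg s else grow (cm s) N b (r - 1)

open Classical in
/-- The word of the pigeons. -/
noncomputable def pw (s : Wd N b) (i : Fin N) : ℕ :=
  if s i = 0 then 0 else 1 + sInf {k | grow (cm s) i b k < grow (cm s) (i + 1) b k}

open Classical in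
/-- The word of the holes. -/
noncomputable def hw (s : Wd N b) (j : Fin b) : ℕ :=
  if ∀ i, (s i).val ≠ j.val + 1 then 0
  else 1 + sInf {k | grow (cm s) N j k < grow (cm s) N (j + 1) k}

/-- One more place. -/
theorem content_succ {n : ℕ} (a : Fin n → ℕ) {x : ℕ} (hx : x < n) (r : ℕ) :
    content a (x + 1) r = content a x r + if a ⟨x, hx⟩ = r then 1 else 0 := by
  classical
  unfold content
  have h1 : (univ.filter fun j : Fin n => j.val < x + 1 ∧ a j = r) =
      (univ.filter fun j : Fin n => j.val < x ∧ a j = r) ∪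
        (({⟨x, hx⟩} : Finset (Fin n)).filter fun j => a j = r) := by
    ext j
    simp only [mem_filter, mem_univ, true_and, mem_union, mem_singleton]
    constructor
    · rintro ⟨h2, h3⟩
      by_cases h4 : j.val < x
      · exact Or.inl ⟨h4, h3⟩
      · exact Or.inr ⟨Fin.ext (by simp only; omega), h3⟩
    · rintro (⟨h2, h3⟩ | ⟨h2, h3⟩)
      · exact ⟨by omega, h3⟩
      · rw [h2] at h3 ⊢
        exact ⟨Nat.lt_succ_self x, h3⟩
  rw [h1, card_union_of_disjoint]
  · congr 1
    rw [filter_singleton]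
    split_ifs
    · exact card_singleton _
    · exact card_empty
  · rw [Finset.disjoint_left]
    intro j hj hj'
    simp only [mem_filter, mem_univ, true_and, mem_singleton] at hj hj'
    rw [hj'.1] at hj
    exact absurd hj.1 (lt_irrefl x)

/-- After the end nothing changes. -/
theorem content_ge {n : ℕ} (a : Fin n → ℕ) {x : ℕ} (hx : n ≤ x) : content a x = content a n := by
  funext r
  unfold content
  congr 1
  ext j
  simp only [mem_filter, mem_univ, true_and]
  constructor
  · rintro ⟨-, h⟩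
    exact ⟨j.isLt, h⟩
  · rintro ⟨h1, h⟩
    exact ⟨by omega, h⟩

/-- The content of a lattice word is a partition. -/
theorem content_isPar {n : ℕ} {a : Fin n → ℕ} (ha : Antitone (content a n)) :
    IsPar n (content a n) := by
  classical
  -- the number of places with a letter below `R`
  have h1 : ∀ R, ∑ r ∈ range R, content a n r = (univ.filter fun j : Fin n => a j < R).card := by
    intro R
    rw [card_eq_sum_card_fiberwise (f := a) (t := range R) (fun j hj => by
      simp only [coe_filter, mem_univ, true_and, Set.mem_ofPred_eq] at hj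
      simpa using hj)]
    refine sum_congr rfl fun r hr => ?_
    unfold content
    congr 1
    ext j
    simp only [mem_filter, mem_univ, true_and]
    constructor
    · rintro ⟨-, h⟩
      exact ⟨by rw [h]; exact mem_range.1 hr, h⟩
    · rintro ⟨-, h⟩
      exact ⟨j.isLt, h⟩
  have h2 : ∀ R, ∑ r ∈ range R, content a n r ≤ n := by
    intro R
    rw [h1]
    refine (card_filter_le _ _).trans ?_
    rw [card_univ, Fintype.card_fin]
  have h3 : ∀ r, n ≤ r → content a n r = 0 := by
    intro r hr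
    by_contra hne
    have h4 : ∀ t ∈ range (r + 1), 1 ≤ content a n t := fun t ht =>
      (Nat.one_le_iff_ne_zero.2 hne).trans (ha (Nat.lt_succ_iff.1 (mem_range.1 ht)))
    have h5 := sum_le_sum h4
    rw [sum_const, card_range, smul_eq_mul, mul_one] at h5
    have := h2 (r + 1)
    omega
  refine ⟨ha, h3, ?_⟩
  rw [h1]
  have h4 : (univ.filter fun j : Fin n => a j < n) = univ := by
    ext j
    simp only [mem_filter, mem_univ, true_and, iff_true]
    by_contra h5
    have h6 := h3 (a j) (not_lt.1 h5)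
    unfold content at h6
    rw [card_eq_zero, filter_eq_empty_iff] at h6
    exact h6 (mem_univ j) ⟨j.isLt, rfl⟩
  rw [h4, card_univ, Fintype.card_fin]

/-- The number of free holes. -/
theorem card_frHset {s : Wd N b} (hs : Good s) (h0 : stars s = 0) :
    (frHset s b).card = b - deg s ∧ deg s ≤ b := by
  classical
  have h1 : ∑ j ∈ range b, ∑ i ∈ range N, cm s i j = deg s := by
    rw [sum_comm, sum_range]
    unfold PHS.deg
    rw [card_filter]
    refine sum_congr rfl fun i _ => ?_
    rw [cm_row h0 i]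
    by_cases h : s i = 0
    · rw [if_pos h, if_neg (not_not.2 h)]
    · rw [if_neg h, if_pos h]
  have h2 : (frHset s b).card + deg s = b := by
    have h3 : (frHset s b).card = ∑ j : Fin b, if ∀ i, (s i).val ≠ j.val + 1 then 1 else 0 := by
      rw [← card_filter]
      symm
      refine card_bij (fun j _ => (⟨j.val + 1, by omega⟩ : Fin (b + 2))) ?_ ?_ ?_
      · intro j hj
        simp only [mem_filter, mem_univ, true_and] at hj
        unfold frHset
        simp only [mem_filter, mem_univ, true_and]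
        refine ⟨fun h => ?_, fun h => ?_, j.isLt, fun i h => hj i ?_⟩
        · have := congrArg Fin.val h
          simp at this
        · have := congrArg Fin.val h
          simp only [Fin.val_last] at this
          omega
        · rw [h]
      · intro j _ j' _ h
        have := congrArg Fin.val h
        exact Fin.ext (Nat.succ_injective this)
      · intro a ha
        unfold frHset at ha
        simp only [mem_filter, mem_univ, true_and] at ha
        obtain ⟨h1, h2, h3, h4⟩ := ha
        have h1' : a.val ≠ 0 := fun h => h1 (Fin.ext h)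
        refine ⟨⟨a.val - 1, by omega⟩, ?_, Fin.ext (by simp only; omega)⟩
        simp only [mem_filter, mem_univ, true_and]
        intro i h
        refine h4 i (Fin.ext ?_)
        rw [h]
        omega
    rw [h3, ← h1, sum_range, ← sum_add_distrib]
    have h4 : ∀ j : Fin b, ((if ∀ i, (s i).val ≠ j.val + 1 then 1 else 0) +
        ∑ i ∈ range N, cm s i j) = 1 := by
      intro j
      rw [cm_col hs j.isLt]
      split_ifs <;> rfl
    rw [sum_congr rfl fun j _ => h4 j, sum_const, card_univ, Fintype.card_fin, smul_eq_mul,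
      mul_one]
  omega

/-- PROOF. Letter 0: the places `i < y` with `pw s i = 0` are the free pigeons `< y`. Letter `k + 1`: induction on
`y`: if `s y = 0` then row `y` of `cm s` is 0 (`cm_row`), `grow_eq_of_row`; else `grow_row_step` gives
`grow (y+1) b = grow y b + e_k'`, so the set in `pw` is `{k'}` and `pw s y = k' + 1`. -/
theorem content_pw {s : Wd N b} (h0 : stars s = 0) {y : ℕ} (hy : y ≤ N) (r : ℕ) :
    content (pw s) y r = if r = 0 then (frPset s y).card else grow (cm s) y b (r - 1) := by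
  classical
  rcases r with _ | k
  · rw [if_pos rfl]
    unfold content frPset
    congr 1
    ext i
    simp only [mem_filter, mem_univ, true_and]
    constructor
    · rintro ⟨h1, h2⟩
      refine ⟨h1, ?_⟩
      by_contra h3
      unfold pw at h2
      rw [if_neg h3] at h2
      omega
    · rintro ⟨h1, h2⟩
      refine ⟨h1, ?_⟩
      unfold pw
      rw [if_pos h2]
  · rw [if_neg (Nat.succ_ne_zero k), Nat.add_sub_cancel]
    induction y with
    | zero =>
      rw [grow_zero (cm s) 0 b k (Or.inl (Nat.zero_le k))]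
      unfold content
      rw [card_eq_zero, filter_eq_empty_iff]
      rintro j - ⟨h, -⟩
      exact absurd h (Nat.not_lt_zero _)
    | succ y ih =>
      rw [content_succ (pw s) (show y < N by omega), ih (by omega)]
      have h3 := cm_row h0 (⟨y, by omega⟩ : Fin N)
      by_cases h1 : s ⟨y, by omega⟩ = 0
      · have h2 : pw s ⟨y, by omega⟩ = 0 := by
          unfold pw
          rw [if_pos h1]
        rw [if_pos h1] at h3
        have h4 : ∀ j' < b, cm s y j' = 0 := fun j' hj' =>
          (sum_eq_zero_iff.1 h3) j' (mem_range.2 hj')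
        rw [h2, if_neg (by omega), add_zero, grow_eq_of_row (cm s) y b h4]
      · rw [if_neg h1] at h3
        obtain ⟨k', hk'⟩ := grow_row_step (cm s) y b h3
        have h2 : pw s ⟨y, by omega⟩ = 1 + k' := by
          unfold pw
          rw [if_neg h1]
          have h5 : {k | grow (cm s) y b k < grow (cm s) (y + 1) b k} = {k'} := by
            ext k
            rw [Set.mem_ofPred_eq, Set.mem_singleton_iff, hk', Pi.add_apply]
            by_cases h6 : k = k'
            · rw [h6, Pi.single_eq_same]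
              simp
            · rw [Pi.single_eq_of_ne h6]
              simp [h6]
          show 1 + sInf {k | grow (cm s) y b k < grow (cm s) (y + 1) b k} = 1 + k'
          rw [h5, csInf_singleton]
        rw [h2, hk', Pi.add_apply]
        by_cases h6 : k = k'
        · rw [h6, Pi.single_eq_same, if_pos (by omega)]
        · rw [Pi.single_eq_of_ne h6, if_neg (by omega)]

/-- PROOF. The same with columns (`cm_col`, `grow_eq_of_col`, `grow_col_step`); the free holes with letter `≤ x`
are the places `j < x` with `hw s j = 0`. -/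
theorem content_hw {s : Wd N b} (hs : Good s) {x : ℕ} (hx : x ≤ b) (r : ℕ) :
    content (hw s) x r = if r = 0 then (frHset s x).card else grow (cm s) N x (r - 1) := by
  classical
  rcases r with _ | k
  · rw [if_pos rfl]
    unfold content
    refine card_bij (fun j _ => (⟨j.val + 1, by omega⟩ : Fin (b + 2))) ?_ ?_ ?_
    · intro j hj
      simp only [mem_filter, mem_univ, true_and] at hj
      unfold frHset
      simp only [mem_filter, mem_univ, true_and]
      have h1 : ∀ i, (s i).val ≠ j.val + 1 := by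
        by_contra hcon
        have h2 := hj.2
        unfold hw at h2
        rw [if_neg hcon] at h2
        omega
      refine ⟨fun h => ?_, fun h => ?_, hj.1, fun i h => h1 i ?_⟩
      · have := congrArg Fin.val h
        simp at this
      · have := congrArg Fin.val h
        simp only [Fin.val_last] at this
        omega
      · rw [h]
    · intro j _ j' _ h
      have := congrArg Fin.val h
      simp only at this
      exact Fin.ext (by omega)
    · intro a ha
      unfold frHset at ha
      simp only [mem_filter, mem_univ, true_and] at ha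
      obtain ⟨h1, h2, h3, h4⟩ := ha
      have h1' : a.val ≠ 0 := fun h => h1 (Fin.ext h)
      refine ⟨⟨a.val - 1, by omega⟩, ?_, Fin.ext (by simp only; omega)⟩
      simp only [mem_filter, mem_univ, true_and]
      refine ⟨by omega, ?_⟩
      unfold hw
      rw [if_pos]
      intro i h
      refine h4 i (Fin.ext ?_)
      rw [h]
      simp only
      omega
  · rw [if_neg (Nat.succ_ne_zero k), Nat.add_sub_cancel]
    induction x with
    | zero =>
      rw [grow_zero (cm s) N 0 k (Or.inr (Nat.zero_le k))]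
      unfold content
      rw [card_eq_zero, filter_eq_empty_iff]
      rintro j - ⟨h, -⟩
      exact absurd h (Nat.not_lt_zero _)
    | succ x ih =>
      rw [content_succ (hw s) (show x < b by omega), ih (by omega)]
      by_cases h1 : ∀ i, (s i).val ≠ x + 1
      · have h2 : hw s ⟨x, by omega⟩ = 0 := by
          unfold hw
          rw [if_pos h1]
        have h3 := cm_col hs (show x < b by omega)
        rw [if_pos h1] at h3
        have h4 : ∀ i' < N, cm s i' x = 0 := fun i' hi' =>
          (sum_eq_zero_iff.1 h3) i' (mem_range.2 hi')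
        rw [h2, if_neg (by omega), add_zero, grow_eq_of_col (cm s) N x h4]
      · have h3 := cm_col hs (show x < b by omega)
        rw [if_neg h1] at h3
        obtain ⟨k', hk'⟩ := grow_col_step (cm s) N x h3
        have h2 : hw s ⟨x, by omega⟩ = 1 + k' := by
          unfold hw
          rw [if_neg h1]
          have h5 : {k | grow (cm s) N x k < grow (cm s) N (x + 1) k} = {k'} := by
            ext k
            rw [Set.mem_ofPred_eq, Set.mem_singleton_iff, hk', Pi.add_apply]
            by_cases h6 : k = k'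
            · rw [h6, Pi.single_eq_same]
              simp
            · rw [Pi.single_eq_of_ne h6]
              simp [h6]
          show 1 + sInf {k | grow (cm s) N x k < grow (cm s) N (x + 1) k} = 1 + k'
          rw [h5, csInf_singleton]
        rw [h2, hk', Pi.add_apply]
        by_cases h6 : k = k'
        · rw [h6, Pi.single_eq_same, if_pos (by omega)]
        · rw [Pi.single_eq_of_ne h6, if_neg (by omega)]

/-- PROOF. Antitone at time `y ≤ N`: `grow` is antitone (`grow_anti`), and `grow (cm s) y b 0 ≤ (frPset s y).card`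
by `exists_chain` and `CondP s y`. For `y > N` the content is that of `N`. At the end: `N - deg s = (b - deg s) +
(N - b)` free pigeons (`deg s ≤ b`: the non-free pigeons have different hole letters). -/
theorem pw_mem {s : Wd N b} (hbN : b ≤ N) (hs : Std s) (h0 : stars s = 0) :
    pw s ∈ LWs N (Function.update (sh s) 0 (sh s 0 + (N - b))) := by
  have key : ∀ i ≤ N, Antitone (content (pw s) i) := by
    intro i hi
    refine antitone_nat_of_succ_le fun r => ?_
    rw [content_pw h0 hi, content_pw h0 hi, if_neg (Nat.succ_ne_zero r),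
      Nat.add_sub_cancel]
    rcases r with _ | r
    · rw [if_pos rfl]
      obtain ⟨C, hC, h1, -, h3⟩ := exists_chain hs.1.1 hi (le_refl b)
      rw [← h3]
      exact hs.1.2.1 i C hC h1
    · rw [if_neg (Nat.succ_ne_zero r), Nat.add_sub_cancel]
      exact grow_anti _ _ _ (Nat.le_succ r)
  refine ⟨fun i => ?_, ?_⟩
  · by_cases hi : i ≤ N
    · exact key i hi
    · rw [content_ge (pw s) (by omega)]
      exact key N le_rfl
  · funext r
    rw [content_pw h0 le_rfl]
    rcases r with _ | r
    · rw [if_pos rfl, Function.update_self]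
      have h1 : (frPset s N).card + deg s = N := by
        unfold frPset PHS.deg
        have h2 : (univ.filter fun i : Fin N => i.val < N ∧ s i = 0) =
            univ.filter fun i : Fin N => s i = 0 := by
          ext i
          simp only [mem_filter, mem_univ, true_and, and_iff_right i.isLt]
        rw [h2, card_filter_add_card_filter_not, card_univ, Fintype.card_fin]
      have h2 := (card_frHset hs.1.1 h0).2
      have h3 : sh s 0 = b - deg s := if_pos rfl
      omega
    · rw [if_neg (Nat.succ_ne_zero r), Function.update_of_ne (Nat.succ_ne_zero r)]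
      unfold sh
      rw [if_neg (Nat.succ_ne_zero r)]

/-- PROOF. The same with `CondH s x`, `x ≤ b`. -/
theorem hw_mem {s : Wd N b} (hs : Std s) (h0 : stars s = 0) : hw s ∈ LWs b (sh s) := by
  have key : ∀ i ≤ b, Antitone (content (hw s) i) := by
    intro i hi
    refine antitone_nat_of_succ_le fun r => ?_
    rw [content_hw hs.1.1 hi, content_hw hs.1.1 hi, if_neg (Nat.succ_ne_zero r),
      Nat.add_sub_cancel]
    rcases r with _ | r
    · rw [if_pos rfl]
      obtain ⟨C, hC, -, h2, h3⟩ := exists_chain hs.1.1 le_rfl hi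
      rw [← h3]
      exact hs.1.2.2 i hi C hC h2
    · rw [if_neg (Nat.succ_ne_zero r), Nat.add_sub_cancel]
      exact grow_anti _ _ _ (Nat.le_succ r)
  refine ⟨fun i => ?_, ?_⟩
  · by_cases hi : i ≤ b
    · exact key i hi
    · rw [content_ge (hw s) (by omega)]
      exact key b le_rfl
  · funext r
    rw [content_hw hs.1.1 le_rfl]
    unfold sh
    rw [(card_frHset hs.1.1 h0).1]

/-- PROOF. Antitone: `hw_mem`. Sum over `range b`: `∑_{r<b+1} sh s r = (b - deg s) + ∑_{k<b} grow (cm s) N b k`, and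
`∑_{k<b} grow (cm s) N b k = ∑_{k<N} ..` (rows `≥ b` and `≥ N` are 0) `= deg s` (`grow_size`, `cm_row`). Rows `r ≥ b` are 0: if
`sh s r ≥ 1` then `sh s t ≥ 1` for all `t ≤ r` and the sum over `t < r + 1` is `≥ r + 1 > b`. -/
theorem sh_mem {s : Wd N b} (hs : Std s) (h0 : stars s = 0) : IsPar b (sh s) := by
  obtain ⟨h1, h2⟩ := hw_mem hs h0
  rw [← h2]
  exact content_isPar (h1 b)

/-- PROOF. `content_pw`, `content_hw` with letters `k + 1` give `grow (cm s) y b = grow (cm s') y b` (`y ≤ N`) and
`grow (cm s) N x = grow (cm s') N x` (`x ≤ b`); then `grow_inj` and `cm_inj`. -/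
theorem words_inj {s s' : Wd N b} (hs : Good s) (hs' : Good s') (h0 : stars s = 0)
    (h0' : stars s' = 0) (h1 : pw s = pw s') (h2 : hw s = hw s') : s = s' := by
  refine cm_inj h0 h0' (grow_inj (fun j hj => ?_) fun i hi => ?_)
  · funext k
    have h3 := content_hw hs hj (k + 1)
    have h4 := content_hw hs' hj (k + 1)
    rw [if_neg (Nat.succ_ne_zero k), Nat.add_sub_cancel] at h3 h4
    rw [← h3, ← h4, h2]
  · funext k
    have h3 := content_pw h0 hi (k + 1)
    have h4 := content_pw h0' hi (k + 1)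
    rw [if_neg (Nat.succ_ne_zero k), Nat.add_sub_cancel] at h3 h4
    rw [← h3, ← h4, h1]

open Classical in
/-- The number of standard words without star with a property of the shape. PROOF. The map
`s ↦ (pw s, hw s)` is injective on them and the fibre over the shape `μ` goes to `LWs N (..) ×ˢ LWs b μ`: the
number is at most `∑_{μ ∈ Par b, Q μ} ncard (LWs N ..) * ncard (LWs b μ)` (`Finset.card_eq_sum_card_fiberwise` and
`Finset.card_le_card_of_injOn`), then `lat_card`. -/
theorem card_std_le (hbN : b ≤ N) (Q : (ℕ → ℕ) → Prop) :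
    (univ.filter fun s : Wd N b => Std s ∧ stars s = 0 ∧ Q (sh s)).card ≤
      ∑ μ ∈ (Par b).filter Q, f N (Function.update μ 0 (μ 0 + (N - b))) * f b μ := by
  rw [card_eq_sum_card_fiberwise (f := fun s : Wd N b => sh s) (t := (Par b).filter Q)]
  · refine sum_le_sum fun μ _ => ?_
    obtain ⟨hf1, hc1⟩ := lat_card N (Function.update μ 0 (μ 0 + (N - b)))
    obtain ⟨hf2, hc2⟩ := lat_card b μ
    rw [Set.ncard_eq_toFinset_card _ hf1] at hc1
    rw [Set.ncard_eq_toFinset_card _ hf2] at hc2
    refine le_trans ?_ (Nat.mul_le_mul hc1 hc2)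
    rw [← card_product]
    refine card_le_card_of_injOn (fun s => (pw s, hw s)) ?_ ?_
    · intro s hs
      rw [mem_coe, mem_filter, mem_filter] at hs
      obtain ⟨⟨_, h1, h2, _⟩, h4⟩ := hs
      rw [mem_coe, mem_product, Set.Finite.mem_toFinset, Set.Finite.mem_toFinset]
      have h5 := pw_mem hbN h1 h2
      have h6 := hw_mem h1 h2
      rw [h4] at h5 h6
      exact ⟨h5, h6⟩
    · intro s hs t ht h
      rw [mem_coe, mem_filter, mem_filter] at hs ht
      exact words_inj hs.1.2.1.1.1 ht.1.2.1.1.1 hs.1.2.2.1 ht.1.2.2.1 (congrArg Prod.fst h)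
        (congrArg Prod.snd h)
  · intro s hs
    rw [mem_coe, mem_filter] at hs
    rw [mem_coe, mem_filter, mem_Par]
    exact ⟨sh_mem hs.2.1 hs.2.2.1, hs.2.2.2⟩

end Pool.Agent.MP_9cec2c_lc.PH
end

section

/-!
The upper bound for the exponential moments of the first two rows under the Plancherel measure.
-/

set_option autoImplicit false
set_option linter.unusedSectionVars false

namespace Pool.Agent.MP_9cec2c_lc.YL

open Finset

/-- The weight of a shape. -/
noncomputable def wt (s t : ℝ) (l : ℕ → ℕ) : ℝ := Real.exp (s * l 0 + t * l 1)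

/-- The second moment. -/
noncomputable def mom (s t : ℝ) (n : ℕ) : ℝ := ∑ l ∈ Par n, (f n l : ℝ) ^ 2 * wt s t l

theorem wt_pos (s t : ℝ) (l : ℕ → ℕ) : 0 < wt s t l := Real.exp_pos _

theorem mom_nonneg (s t : ℝ) (n : ℕ) : 0 ≤ mom s t n :=
  sum_nonneg fun l _ => mul_nonneg (sq_nonneg _) (wt_pos s t l).le

/-- The exponent of the row `r`. -/
noncomputable def ex (s t : ℝ) (r : ℕ) : ℝ := if r = 0 then s else if r = 1 then t else 0

theorem wt_up (s t : ℝ) (l : ℕ → ℕ) (r : ℕ) :
    wt s t (up l r) = wt s t l * Real.exp (ex s t r) := by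
  unfold wt ex
  rw [← Real.exp_add]
  congr 1
  rcases Nat.eq_zero_or_pos r with h | h
  · subst h
    rw [up_same, up_ne one_ne_zero, if_pos rfl]
    push_cast
    ring
  · rw [if_neg (by omega), up_ne (by omega : (0 : ℕ) ≠ r)]
    by_cases h1 : r = 1
    · subst h1
      rw [up_same, if_pos rfl]
      push_cast
      ring
    · rw [if_neg h1, up_ne (by omega : (1 : ℕ) ≠ r)]
      ring

theorem up_inj {l l' : ℕ → ℕ} {r : ℕ} (h : up l r = up l' r) : l = l' := by
  rw [← dn_up l r, h, dn_up]

open Classical in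
/-- Cauchy-Schwarz. -/
theorem cross_le (s t : ℝ) (n r : ℕ) :
    ∑ l ∈ (Par n).filter (fun l => Add l r), (f n l : ℝ) * f (n + 1) (up l r) * wt s t l ≤
      Real.exp (-(ex s t r / 2)) * (√(mom s t n) * √(mom s t (n + 1))) := by
  obtain ⟨S, hS⟩ : ∃ S, S = (Par n).filter (fun l => Add l r) := ⟨_, rfl⟩
  rw [← hS]
  have h1 : ∀ l, (f n l : ℝ) * f (n + 1) (up l r) * wt s t l = Real.exp (-(ex s t r / 2)) *
      ((f n l * √(wt s t l)) * (f (n + 1) (up l r) * √(wt s t (up l r)))) := by
    intro l
    have h2 : √(wt s t (up l r)) = √(wt s t l) * Real.exp (ex s t r / 2) := by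
      rw [wt_up, Real.sqrt_mul (wt_pos s t l).le]
      congr 1
      rw [Real.sqrt_eq_iff_mul_self_eq (Real.exp_pos _).le (Real.exp_pos _).le, ← Real.exp_add]
      congr 1
      ring
    rw [h2]
    have h3 : √(wt s t l) * √(wt s t l) = wt s t l := Real.mul_self_sqrt (wt_pos s t l).le
    have h4 : Real.exp (-(ex s t r / 2)) * Real.exp (ex s t r / 2) = 1 := by
      rw [← Real.exp_add, neg_add_cancel, Real.exp_zero]
    calc (f n l : ℝ) * f (n + 1) (up l r) * wt s t l
        = (f n l : ℝ) * f (n + 1) (up l r) * (√(wt s t l) * √(wt s t l)) *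
          (Real.exp (-(ex s t r / 2)) * Real.exp (ex s t r / 2)) := by rw [h3, h4, mul_one]
      _ = _ := by ring
  rw [sum_congr rfl fun l _ => h1 l, ← mul_sum]
  refine mul_le_mul_of_nonneg_left ?_ (Real.exp_pos _).le
  refine (Real.sum_mul_le_sqrt_mul_sqrt S (fun l => (f n l : ℝ) * √(wt s t l))
    (fun l => (f (n + 1) (up l r) : ℝ) * √(wt s t (up l r)))).trans ?_
  have hsq : ∀ (a : ℝ) (l : ℕ → ℕ), (a * √(wt s t l)) ^ 2 = a ^ 2 * wt s t l := by
    intro a l
    rw [mul_pow, Real.sq_sqrt (wt_pos s t l).le]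
  refine mul_le_mul (Real.sqrt_le_sqrt ?_) (Real.sqrt_le_sqrt ?_) (Real.sqrt_nonneg _)
    (Real.sqrt_nonneg _)
  · unfold mom
    rw [sum_congr rfl fun l _ => hsq _ l]
    refine sum_le_sum_of_subset_of_nonneg (hS ▸ filter_subset _ _) fun l _ _ =>
      mul_nonneg (sq_nonneg _) (wt_pos s t l).le
  · unfold mom
    rw [sum_congr rfl fun l _ => hsq _ (up l r)]
    have h5 : ∑ l ∈ S, (f (n + 1) (up l r) : ℝ) ^ 2 * wt s t (up l r) =
        ∑ m ∈ S.image (fun l => up l r), (f (n + 1) m : ℝ) ^ 2 * wt s t m := by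
      rw [sum_image fun l _ l' _ h => up_inj h]
    rw [h5]
    refine sum_le_sum_of_subset_of_nonneg ?_ fun l _ _ =>
      mul_nonneg (sq_nonneg _) (wt_pos s t l).le
    intro m hm
    obtain ⟨l, hl, rfl⟩ := mem_image.1 hm
    rw [hS, mem_filter, mem_Par] at hl
    exact mem_Par.2 (hl.1.up hl.2)

open Classical in
/-- The recursion. -/
theorem mom_succ (s t : ℝ) (n : ℕ) :
    mom s t (n + 1) = ∑ l ∈ Par n, ∑ r ∈ range (n + 1),
      (if Add l r then (f n l : ℝ) * f (n + 1) (up l r) * wt s t l * Real.exp (ex s t r)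
        else 0) := by
  rw [← sum_swap n (fun l r => (f n l : ℝ) * f (n + 1) (up l r) * wt s t l *
    Real.exp (ex s t r))]
  unfold mom
  refine sum_congr rfl fun m _ => ?_
  have h1 : (f (n + 1) m : ℝ) = ∑ r ∈ range (n + 1), (if Rem m r then (f n (dn m r) : ℝ) else 0) := by
    have h2 : f (n + 1) m = ∑ r ∈ range (n + 1), (if Rem m r then f n (dn m r) else 0) := rfl
    rw [h2, Nat.cast_sum]
    refine sum_congr rfl fun r _ => ?_
    split_ifs <;> simp
  have h3 : (f (n + 1) m : ℝ) ^ 2 * wt s t m =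
      ∑ r ∈ range (n + 1), (if Rem m r then (f n (dn m r) : ℝ) else 0) *
        (f (n + 1) m * wt s t m) := by
    rw [← sum_mul, ← h1]
    ring
  rw [h3]
  refine sum_congr rfl fun r _ => ?_
  by_cases hr : Rem m r
  · rw [if_pos hr, if_pos hr, up_dn hr]
    have h4 := wt_up s t (dn m r) r
    rw [up_dn hr] at h4
    rw [h4]
    ring
  · rw [if_neg hr, if_neg hr, zero_mul]

/-- One step. -/
theorem mom_step {s t : ℝ} (hs : 0 ≤ s) (ht : 0 ≤ t) (n : ℕ) :
    mom s t (n + 1) ≤ (n + 1) * mom s t n +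
      2 * (Real.sinh (s / 2) + Real.sinh (t / 2)) * (√(mom s t n) * √(mom s t (n + 1))) := by
  classical
  have h1 := mom_succ s t n
  obtain ⟨T, hT⟩ : ∃ T : (ℕ → ℕ) → ℕ → ℝ, T = fun l r =>
    (if Add l r then (f n l : ℝ) * f (n + 1) (up l r) * wt s t l else 0) := ⟨_, rfl⟩
  have hT0 : ∀ l r, 0 ≤ T l r := by
    intro l r
    rw [hT]
    show 0 ≤ (if Add l r then (f n l : ℝ) * f (n + 1) (up l r) * wt s t l else 0)
    split_ifs
    · have := wt_pos s t l
      positivity
    · exact le_rfl
  have h2 : ∀ l, ∑ r ∈ range (n + 1),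
      (if Add l r then (f n l : ℝ) * f (n + 1) (up l r) * wt s t l * Real.exp (ex s t r)
        else 0) = ∑ r ∈ range (n + 1), T l r + ∑ r ∈ range (n + 1), (Real.exp (ex s t r) - 1) *
          T l r := by
    intro l
    rw [← sum_add_distrib]
    refine sum_congr rfl fun r _ => ?_
    rw [hT]
    by_cases hr : Add l r
    · simp only [if_pos hr]
      ring
    · simp only [if_neg hr]
      ring
  have h3 : ∀ l ∈ Par n, ∑ r ∈ range (n + 1), T l r = (n + 1) * ((f n l : ℝ) ^ 2 * wt s t l) := by
    intro l hl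
    have h4 := f_up n (mem_Par.1 hl)
    have h5 : ∑ r ∈ range (n + 1), (if Add l r then (f (n + 1) (up l r) : ℝ) else 0) =
        (n + 1) * f n l := by
      have h6 : ((∑ r ∈ range (n + 1), (if Add l r then f (n + 1) (up l r) else 0) : ℕ) : ℝ) =
          (((n + 1) * f n l : ℕ) : ℝ) := by rw [h4]
      rw [Nat.cast_sum] at h6
      push_cast at h6
      exact h6
    have h7 : ∑ r ∈ range (n + 1), T l r = ∑ r ∈ range (n + 1),
        (if Add l r then (f (n + 1) (up l r) : ℝ) else 0) * (f n l * wt s t l) := by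
      refine sum_congr rfl fun r _ => ?_
      rw [hT]
      by_cases hr : Add l r
      · simp only [if_pos hr]
        ring
      · simp only [if_neg hr]
        ring
    rw [h7, ← sum_mul, h5]
    ring
  have h8 : ∀ r, ∑ l ∈ Par n, T l r ≤
      Real.exp (-(ex s t r / 2)) * (√(mom s t n) * √(mom s t (n + 1))) := by
    intro r
    refine le_trans (le_of_eq ?_) (cross_le s t n r)
    rw [sum_filter, hT]
  have h9 : ∀ u : ℝ, (Real.exp u - 1) * Real.exp (-(u / 2)) = 2 * Real.sinh (u / 2) := by
    intro u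
    rw [Real.sinh_eq, sub_mul, ← Real.exp_add, one_mul]
    have : u + -(u / 2) = u / 2 := by ring
    rw [this]
    ring
  have hnn : 0 ≤ √(mom s t n) * √(mom s t (n + 1)) := by positivity
  have h10 : ∑ l ∈ Par n, ∑ r ∈ range (n + 1), (Real.exp (ex s t r) - 1) * T l r ≤
      2 * (Real.sinh (s / 2) + Real.sinh (t / 2)) * (√(mom s t n) * √(mom s t (n + 1))) := by
    rw [sum_comm]
    have hex : ∀ r, 0 ≤ ex s t r := by
      intro r
      unfold ex
      split_ifs
      · exact hs
      · exact ht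
      · exact le_rfl
    have h11 : ∀ r ∈ range (n + 1), ∑ l ∈ Par n, (Real.exp (ex s t r) - 1) * T l r ≤
        2 * Real.sinh (ex s t r / 2) * (√(mom s t n) * √(mom s t (n + 1))) := by
      intro r _
      rw [← mul_sum, ← h9, mul_assoc]
      exact mul_le_mul_of_nonneg_left (h8 r) (by
        have := Real.add_one_le_exp (ex s t r)
        have := hex r
        linarith)
    refine (sum_le_sum h11).trans ?_
    rw [← sum_mul]
    refine mul_le_mul_of_nonneg_right ?_ hnn
    have hs0 : 0 ≤ Real.sinh (s / 2) := Real.sinh_nonneg_iff.2 (by linarith)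
    have ht0 : 0 ≤ Real.sinh (t / 2) := Real.sinh_nonneg_iff.2 (by linarith)
    have h12 : ∀ r ∈ range (n + 1), 2 * Real.sinh (ex s t r / 2) =
        (if r = 0 then 2 * Real.sinh (s / 2) else 0) +
          (if r = 1 then 2 * Real.sinh (t / 2) else 0) := by
      intro r _
      unfold ex
      by_cases h0 : r = 0
      · rw [if_pos h0, if_pos h0, if_neg (by omega), add_zero]
      · rw [if_neg h0, if_neg h0]
        by_cases h1 : r = 1
        · rw [if_pos h1, if_pos h1, zero_add]
        · rw [if_neg h1, if_neg h1, zero_div, Real.sinh_zero, mul_zero, add_zero]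
    rw [sum_congr rfl h12, sum_add_distrib, sum_ite_eq', sum_ite_eq']
    have h13 : (if (0 : ℕ) ∈ range (n + 1) then 2 * Real.sinh (s / 2) else 0) ≤
        2 * Real.sinh (s / 2) := by
      split_ifs
      · exact le_rfl
      · linarith
    have h14 : (if (1 : ℕ) ∈ range (n + 1) then 2 * Real.sinh (t / 2) else 0) ≤
        2 * Real.sinh (t / 2) := by
      split_ifs
      · exact le_rfl
      · linarith
    linarith
  rw [sum_congr rfl fun l _ => h2 l, sum_add_distrib, sum_congr rfl h3, ← mul_sum] at h1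
  refine h1.le.trans (add_le_add le_rfl h10)

/-- The growth of the moment. -/
theorem mom_growth {s t : ℝ} (hs : 0 ≤ s) (ht : 0 ≤ t) (n : ℕ) :
    mom s t (n + 1) ≤ (n + 1) * mom s t n *
      Real.exp (2 * ((Real.sinh (s / 2) + Real.sinh (t / 2)) / √((n : ℝ) + 1))) := by
  obtain ⟨σ, hσ⟩ : ∃ σ, σ = Real.sinh (s / 2) + Real.sinh (t / 2) := ⟨_, rfl⟩
  have hσ0 : 0 ≤ σ := by
    rw [hσ]
    exact add_nonneg (Real.sinh_nonneg_iff.2 (by linarith)) (Real.sinh_nonneg_iff.2 (by linarith))
  have h1 := mom_step hs ht n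
  rw [← hσ] at h1 ⊢
  have hn : (0 : ℝ) < (n : ℝ) + 1 := by positivity
  have hr : 0 < √((n : ℝ) + 1) := Real.sqrt_pos.2 hn
  obtain ⟨θ, hθ⟩ : ∃ θ, θ = σ / √((n : ℝ) + 1) := ⟨_, rfl⟩
  have hθ0 : 0 ≤ θ := by
    rw [hθ]
    positivity
  have hθσ : σ = θ * √((n : ℝ) + 1) := by
    rw [hθ]
    field_simp
  obtain ⟨x, hx⟩ : ∃ x, x = √(mom s t (n + 1)) := ⟨_, rfl⟩
  obtain ⟨y, hy⟩ : ∃ y, y = √((n : ℝ) + 1) * √(mom s t n) := ⟨_, rfl⟩
  have hx0 : 0 ≤ x := by
    rw [hx]
    exact Real.sqrt_nonneg _
  have hy0 : 0 ≤ y := by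
    rw [hy]
    positivity
  have hx2 : x ^ 2 = mom s t (n + 1) := by
    rw [hx, Real.sq_sqrt (mom_nonneg s t _)]
  have hy2 : y ^ 2 = (n + 1) * mom s t n := by
    rw [hy, mul_pow, Real.sq_sqrt hn.le, Real.sq_sqrt (mom_nonneg s t _)]
  have h2 : x ^ 2 ≤ y ^ 2 + 2 * θ * x * y := by
    rw [hx2, hy2]
    refine h1.trans (le_of_eq ?_)
    rw [hy, ← hx, hθσ]
    ring
  have h3 : x ≤ (1 + θ + θ ^ 2 / 2) * y := by
    have h4 : (x - θ * y) ^ 2 ≤ ((1 + θ ^ 2 / 2) * y) ^ 2 := by
      have h5 : 0 ≤ θ ^ 4 / 4 * y ^ 2 := by positivity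
      nlinarith
    have h6 : x - θ * y ≤ (1 + θ ^ 2 / 2) * y := (abs_le_of_sq_le_sq' h4 (by positivity)).2
    linarith
  have h7 : 1 + θ + θ ^ 2 / 2 ≤ Real.exp θ := Real.quadratic_le_exp_of_nonneg hθ0
  have h8 : x ≤ Real.exp θ * y := h3.trans (mul_le_mul_of_nonneg_right h7 hy0)
  have h9 : x ^ 2 ≤ (Real.exp θ * y) ^ 2 := pow_le_pow_left₀ hx0 h8 2
  rw [← hx2, ← hθ, ← hy2]
  refine h9.trans (le_of_eq ?_)
  rw [mul_pow, ← Real.exp_nat_mul]
  push_cast
  ring

theorem two_div_sqrt_le (n : ℕ) :
    2 * (1 / √((n : ℝ) + 1)) ≤ 4 * √((n : ℝ) + 1) - 4 * √(n : ℝ) := by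
  have hn : (0 : ℝ) ≤ n := Nat.cast_nonneg n
  have h1 : 0 < √((n : ℝ) + 1) := Real.sqrt_pos.2 (by linarith)
  have h2 : √(n : ℝ) ≤ √((n : ℝ) + 1) := Real.sqrt_le_sqrt (by linarith)
  have h3 : √(n : ℝ) ^ 2 = n := Real.sq_sqrt hn
  have h4 : √((n : ℝ) + 1) ^ 2 = (n : ℝ) + 1 := Real.sq_sqrt (by linarith)
  have h5 : 0 ≤ √(n : ℝ) := Real.sqrt_nonneg _
  have h6 : 2 * (1 / √((n : ℝ) + 1)) = 2 / √((n : ℝ) + 1) := by ring
  rw [h6, div_le_iff₀ h1]
  nlinarith

/-- The exponential moments of the first two rows. -/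
theorem moment_le {s t : ℝ} (hs : 0 ≤ s) (ht : 0 ≤ t) (n : ℕ) :
    ∑ l ∈ Par n, (f n l : ℝ) ^ 2 * Real.exp (s * l 0 + t * l 1) ≤
      n.factorial * Real.exp (4 * √n * (Real.sinh (s / 2) + Real.sinh (t / 2))) := by
  have hσ0 : 0 ≤ Real.sinh (s / 2) + Real.sinh (t / 2) :=
    add_nonneg (Real.sinh_nonneg_iff.2 (by linarith)) (Real.sinh_nonneg_iff.2 (by linarith))
  have key : mom s t n ≤
      n.factorial * Real.exp (4 * √n * (Real.sinh (s / 2) + Real.sinh (t / 2))) := by
    induction n with
    | zero =>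
      unfold mom
      rw [Par_zero, sum_singleton]
      have h1 : f 0 (0 : ℕ → ℕ) = 1 := by
        unfold f
        rw [if_pos rfl]
      have h2 : wt s t (0 : ℕ → ℕ) = 1 := by
        unfold wt
        simp
      rw [h1, h2]
      simp
    | succ n ih =>
      refine (mom_growth hs ht n).trans ?_
      rw [Nat.factorial_succ]
      have h1 := two_div_sqrt_le n
      have h2 : 2 * ((Real.sinh (s / 2) + Real.sinh (t / 2)) / √((n : ℝ) + 1)) ≤
          (4 * √((n : ℝ) + 1) - 4 * √(n : ℝ)) * (Real.sinh (s / 2) + Real.sinh (t / 2)) := by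
        calc 2 * ((Real.sinh (s / 2) + Real.sinh (t / 2)) / √((n : ℝ) + 1))
            = 2 * (1 / √((n : ℝ) + 1)) * (Real.sinh (s / 2) + Real.sinh (t / 2)) := by ring
          _ ≤ _ := mul_le_mul_of_nonneg_right h1 hσ0
      have hn1 : (0 : ℝ) ≤ (n : ℝ) + 1 := by positivity
      calc ((n : ℝ) + 1) * mom s t n *
            Real.exp (2 * ((Real.sinh (s / 2) + Real.sinh (t / 2)) / √((n : ℝ) + 1)))
          ≤ ((n : ℝ) + 1) * (n.factorial *
            Real.exp (4 * √n * (Real.sinh (s / 2) + Real.sinh (t / 2)))) *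
            Real.exp ((4 * √((n : ℝ) + 1) - 4 * √(n : ℝ)) *
              (Real.sinh (s / 2) + Real.sinh (t / 2))) := by
            refine mul_le_mul (mul_le_mul_of_nonneg_left ih hn1) (Real.exp_le_exp.2 h2)
              (Real.exp_pos _).le (by positivity)
        _ = (((n + 1) * n.factorial : ℕ) : ℝ) *
            Real.exp (4 * √((n + 1 : ℕ) : ℝ) * (Real.sinh (s / 2) + Real.sinh (t / 2))) := by
            have h3 : Real.exp (4 * √((n + 1 : ℕ) : ℝ) * (Real.sinh (s / 2) + Real.sinh (t / 2))) =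
                Real.exp (4 * √n * (Real.sinh (s / 2) + Real.sinh (t / 2))) *
                Real.exp ((4 * √((n : ℝ) + 1) - 4 * √(n : ℝ)) *
                  (Real.sinh (s / 2) + Real.sinh (t / 2))) := by
              rw [← Real.exp_add]
              congr 1
              push_cast
              ring
            rw [h3]
            push_cast
            ring
  exact key

end Pool.Agent.MP_9cec2c_lc.YL
end

section

/-!
The lower bound for the exponential moment of the first row under the Plancherel measure.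
-/

set_option autoImplicit false
set_option linter.unusedSectionVars false

namespace Pool.Agent.MP_9cec2c_lc.YL

open Finset

/-- The exponential function of the content. -/
noncomputable def exC (s : ℝ) : ℤ → ℝ := fun c => Real.exp (s * c)

/-- The exponential moment of the content of the next box of the Plancherel growth process. -/
noncomputable def Phi (s : ℝ) (n : ℕ) : ℝ :=
  (∑ l ∈ Par n, (f n l : ℝ) * U (exC s) n l) / (n + 1).factorial

/-- The second difference of the exponential function. -/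
theorem exC_diff (s : ℝ) (c : ℤ) :
    exC s (c + 1) + exC s (c - 1) - 2 * exC s c = 4 * Real.sinh (s / 2) ^ 2 * exC s c := by
  unfold exC
  have h1 : Real.exp (s * ((c + 1 : ℤ) : ℝ)) = Real.exp (s * c) * (Real.exp (s / 2)) ^ 2 := by
    rw [← Real.exp_nat_mul, ← Real.exp_add]
    congr 1
    push_cast
    ring
  have h2 : Real.exp (s * ((c - 1 : ℤ) : ℝ)) = Real.exp (s * c) * (Real.exp (-(s / 2))) ^ 2 := by
    rw [← Real.exp_nat_mul, ← Real.exp_add]
    congr 1
    push_cast
    ring
  have h3 : Real.exp (s / 2) * Real.exp (-(s / 2)) = 1 := by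
    rw [← Real.exp_add, add_neg_cancel, Real.exp_zero]
  rw [h1, h2, Real.sinh_eq]
  have h4 : 4 * ((Real.exp (s / 2) - Real.exp (-(s / 2))) / 2) ^ 2 =
      Real.exp (s / 2) ^ 2 + Real.exp (-(s / 2)) ^ 2 -
        2 * (Real.exp (s / 2) * Real.exp (-(s / 2))) := by ring
  rw [h4, h3]
  ring

theorem exC_zero (s : ℝ) : exC s 0 = 1 := by
  unfold exC
  rw [Int.cast_zero, mul_zero, Real.exp_zero]

theorem Phi_zero (s : ℝ) : Phi s 0 = 1 := by
  unfold Phi
  rw [Par_zero, sum_singleton, U_zero, f_zero_zero, exC_zero]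
  norm_num

/-- The second differences over the boxes, when a box is added. -/
theorem CF_up (F : ℤ → ℝ) (n : ℕ) {l : ℕ → ℕ} (hl : IsPar n l) {r : ℕ} (h : Add l r) :
    CF F (n + 1) (up l r) = CF F n l +
      (F ((l r : ℤ) - r + 1) + F ((l r : ℤ) - r - 1) - 2 * F ((l r : ℤ) - r)) := by
  have hr : r ∈ range (n + 1) := mem_range.2 (Nat.lt_succ_of_le (h.le hl))
  have h1 : CF F n l = ∑ r ∈ range (n + 1), ∑ c ∈ range (l r),
      (F ((c : ℤ) - r + 1) + F ((c : ℤ) - r - 1) - 2 * F ((c : ℤ) - r)) := by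
    rw [sum_range_succ, hl.2.1 n le_rfl, sum_range_zero, add_zero]
    rfl
  rw [h1]
  unfold CF
  rw [← add_sum_erase _ _ hr, ← add_sum_erase (range (n + 1)) (fun r => ∑ c ∈ range (l r),
    (F ((c : ℤ) - r + 1) + F ((c : ℤ) - r - 1) - 2 * F ((c : ℤ) - r))) hr, up_same,
    sum_range_succ]
  have h2 : ∑ s ∈ (range (n + 1)).erase r, ∑ c ∈ range (up l r s),
      (F ((c : ℤ) - s + 1) + F ((c : ℤ) - s - 1) - 2 * F ((c : ℤ) - s)) =
      ∑ s ∈ (range (n + 1)).erase r, ∑ c ∈ range (l s),
      (F ((c : ℤ) - s + 1) + F ((c : ℤ) - s - 1) - 2 * F ((c : ℤ) - s)) :=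
    sum_congr rfl fun s hs => by rw [up_ne (ne_of_mem_erase hs)]
  rw [h2]
  ring

/-- A linear function of the weights. -/
theorem sum_mul_f (n : ℕ) (A : (ℕ → ℕ) → ℝ) (B : (ℕ → ℕ) → ℕ → ℝ)
    (h : ∀ l, IsPar n l → ∀ r, Add l r → A (up l r) = B l r) :
    ∑ m ∈ Par (n + 1), (f (n + 1) m : ℝ) ^ 2 * A m =
      ∑ l ∈ Par n, (f n l : ℝ) * ∑ r ∈ range (n + 1),
        (open Classical in if Add l r then B l r * f (n + 1) (up l r) else 0) := by
  classical
  have h1 : ∀ m ∈ Par (n + 1), (f (n + 1) m : ℝ) ^ 2 * A m = ∑ r ∈ range (n + 1),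
      (if Rem m r then (f n (dn m r) : ℝ) * (A (up (dn m r) r) * f (n + 1) (up (dn m r) r))
        else 0) := by
    intro m _
    have h2 : (f (n + 1) m : ℝ) ^ 2 * A m = (∑ r ∈ range (n + 1),
        ((if Rem m r then f n (dn m r) else 0 : ℕ) : ℝ)) * (A m * f (n + 1) m) := by
      rw [← Nat.cast_sum, ← f_succ]
      ring
    rw [h2, sum_mul]
    refine sum_congr rfl fun r _ => ?_
    by_cases h : Rem m r
    · rw [if_pos h, if_pos h, up_dn h]
    · rw [if_neg h, if_neg h, Nat.cast_zero, zero_mul]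
  rw [sum_congr rfl h1, sum_swap n (fun l r => (f n l : ℝ) * (A (up l r) * f (n + 1) (up l r)))]
  refine sum_congr rfl fun l hl => ?_
  rw [mul_sum]
  refine sum_congr rfl fun r _ => ?_
  by_cases h2 : Add l r
  · rw [if_pos h2, if_pos h2, h l (mem_Par.1 hl) r h2]
  · rw [if_neg h2, if_neg h2, mul_zero]

theorem sum_sq_real (n : ℕ) : ∑ l ∈ Par n, (f n l : ℝ) ^ 2 = n.factorial := by
  have h := sum_sq n
  exact_mod_cast h

open Classical in
theorem f_up_real (n : ℕ) {l : ℕ → ℕ} (hl : IsPar n l) :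
    ∑ r ∈ range (n + 1), (if Add l r then (f (n + 1) (up l r) : ℝ) else 0) =
      ((n : ℝ) + 1) * f n l := by
  have h := f_up n hl
  have h1 : ((∑ r ∈ range (n + 1), (if Add l r then f (n + 1) (up l r) else 0) : ℕ) : ℝ) =
      (((n + 1) * f n l : ℕ) : ℝ) := by rw [h]
  rw [Nat.cast_sum] at h1
  push_cast at h1
  exact h1

/-- The sum of the second differences, over all boxes. -/
theorem sum_CF (s : ℝ) (n : ℕ) : ∑ l ∈ Par n, (f n l : ℝ) ^ 2 * CF (exC s) n l =
    n.factorial * (4 * Real.sinh (s / 2) ^ 2 * ∑ i ∈ range n, Phi s i) := by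
  classical
  induction n with
  | zero =>
    rw [Par_zero, sum_singleton, sum_range_zero]
    unfold CF
    rw [sum_range_zero]
    ring
  | succ n ih =>
    rw [sum_mul_f n (CF (exC s) (n + 1)) (fun l r => CF (exC s) n l +
      4 * Real.sinh (s / 2) ^ 2 * exC s ((l r : ℤ) - r))
      (fun l hl r h => by rw [CF_up _ n hl h, exC_diff])]
    have h1 : ∀ l ∈ Par n, (f n l : ℝ) * ∑ r ∈ range (n + 1),
        (if Add l r then (CF (exC s) n l + 4 * Real.sinh (s / 2) ^ 2 * exC s ((l r : ℤ) - r)) *
          f (n + 1) (up l r) else 0) =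
        ((n : ℝ) + 1) * ((f n l : ℝ) ^ 2 * CF (exC s) n l) +
          4 * Real.sinh (s / 2) ^ 2 * ((f n l : ℝ) * U (exC s) n l) := by
      intro l hl
      have h2 := f_up_real n (mem_Par.1 hl)
      have h3 : ∑ r ∈ range (n + 1),
          (if Add l r then (CF (exC s) n l + 4 * Real.sinh (s / 2) ^ 2 * exC s ((l r : ℤ) - r)) *
            (f (n + 1) (up l r) : ℝ) else 0) =
          CF (exC s) n l * ∑ r ∈ range (n + 1),
            (if Add l r then (f (n + 1) (up l r) : ℝ) else 0) +
          4 * Real.sinh (s / 2) ^ 2 * U (exC s) n l := by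
        unfold U
        rw [mul_sum, mul_sum, ← sum_add_distrib]
        refine sum_congr rfl fun r _ => ?_
        split_ifs
        · ring
        · ring
      rw [h3, h2]
      ring
    rw [sum_congr rfl h1, sum_add_distrib, ← mul_sum, ← mul_sum, ih, sum_range_succ]
    have h4 : ∑ l ∈ Par n, (f n l : ℝ) * U (exC s) n l = (n + 1).factorial * Phi s n := by
      unfold Phi
      field_simp
    rw [h4, Nat.factorial_succ]
    push_cast
    ring

theorem Phi_succ (s : ℝ) (n : ℕ) :
    ((n : ℝ) + 2) * Phi s (n + 1) = ((n : ℝ) + 1) * Phi s n + 1 +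
      4 * Real.sinh (s / 2) ^ 2 * ∑ i ∈ range (n + 1), Phi s i := by
  classical
  have h1 : ∀ m ∈ Par (n + 1), (f (n + 1) m : ℝ) * U (exC s) (n + 1) m =
      (f (n + 1) m : ℝ) ^ 2 + (f (n + 1) m : ℝ) ^ 2 * CF (exC s) (n + 1) m +
      ∑ r ∈ range (n + 1), (if Rem m r then
        (f (n + 1) (up (dn m r) r) : ℝ) * U (exC s) n (dn m r) else 0) := by
    intro m hm
    rw [U_succ _ n (mem_Par.1 hm), PF_eq _ (n + 1) (mem_Par.1 hm), exC_zero, mul_add, mul_sum]
    congr 1
    · ring
    · refine sum_congr rfl fun r _ => ?_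
      by_cases h : Rem m r
      · rw [if_pos h, if_pos h, up_dn h]
      · rw [if_neg h, if_neg h, mul_zero]
  have h2 : ∑ m ∈ Par (n + 1), (f (n + 1) m : ℝ) * U (exC s) (n + 1) m =
      (n + 1).factorial + (n + 1).factorial * (4 * Real.sinh (s / 2) ^ 2 *
        ∑ i ∈ range (n + 1), Phi s i) +
      ((n : ℝ) + 1) * ∑ l ∈ Par n, (f n l : ℝ) * U (exC s) n l := by
    rw [sum_congr rfl h1, sum_add_distrib, sum_add_distrib, sum_sq_real, sum_CF,
      sum_swap n (fun l r => (f (n + 1) (up l r) : ℝ) * U (exC s) n l)]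
    refine congrArg₂ (· + ·) rfl ?_
    rw [mul_sum]
    refine sum_congr rfl fun l hl => ?_
    have h3 := f_up_real n (mem_Par.1 hl)
    calc ∑ r ∈ range (n + 1), (if Add l r then (f (n + 1) (up l r) : ℝ) * U (exC s) n l else 0)
        = (∑ r ∈ range (n + 1), (if Add l r then (f (n + 1) (up l r) : ℝ) else 0)) *
            U (exC s) n l := by
          rw [sum_mul]
          refine sum_congr rfl fun r _ => ?_
          split_ifs
          · rfl
          · rw [zero_mul]
      _ = ((n : ℝ) + 1) * ((f n l : ℝ) * U (exC s) n l) := by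
          rw [h3]
          ring
  have h4 : ∑ l ∈ Par n, (f n l : ℝ) * U (exC s) n l = (n + 1).factorial * Phi s n := by
    unfold Phi
    field_simp
  have h5 : ∑ l ∈ Par (n + 1), (f (n + 1) l : ℝ) * U (exC s) (n + 1) l =
      (n + 2).factorial * Phi s (n + 1) := by
    unfold Phi
    field_simp
  rw [h4, h5] at h2
  have h6 : ((n + 2).factorial : ℝ) = ((n : ℝ) + 2) * (n + 1).factorial := by
    rw [Nat.factorial_succ]
    push_cast
    ring
  rw [h6] at h2
  have h7 : (0 : ℝ) < (n + 1).factorial := by positivity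
  have h8 : ((n + 1).factorial : ℝ) * (((n : ℝ) + 2) * Phi s (n + 1)) =
      (n + 1).factorial * (((n : ℝ) + 1) * Phi s n + 1 +
      4 * Real.sinh (s / 2) ^ 2 * ∑ i ∈ range (n + 1), Phi s i) := by
    linarith
  exact mul_left_cancel₀ h7.ne' h8

theorem sum_choose (n k : ℕ) :
    ∑ i ∈ range (n + 1), (i.choose k : ℝ) = ((n + 1).choose (k + 1) : ℝ) := by
  induction n with
  | zero =>
    rw [sum_range_one]
    cases k with
    | zero => norm_num
    | succ k => rw [Nat.choose_eq_zero_of_lt (by omega), Nat.choose_eq_zero_of_lt (by omega)]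
  | succ n ih =>
    rw [sum_range_succ, ih, Nat.choose_succ_succ (n + 1) k]
    push_cast
    ring

theorem choose_rec (n k : ℕ) :
    ((n : ℝ) + 2) * ((n + 1).choose (k + 1) : ℝ) =
      ((n : ℝ) + 1) * (n.choose (k + 1) : ℝ) + ((k : ℝ) + 2) * ((n + 1).choose (k + 1) : ℝ) := by
  have h1 : (((n + 1) * n.choose k : ℕ) : ℝ) = (((n + 1).choose (k + 1) * (k + 1) : ℕ) : ℝ) := by
    rw [← Nat.add_one_mul_choose_eq]
  have h2 : (((n + 1).choose (k + 1) : ℕ) : ℝ) = ((n.choose k + n.choose (k + 1) : ℕ) : ℝ) := by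
    rw [Nat.choose_succ_succ]
  push_cast at h1 h2
  linear_combination ((n : ℝ) + 1) * h2 + h1

/-- The closed form. -/
theorem Phi_eq (s : ℝ) (n : ℕ) :
    Phi s n = ∑ k ∈ range (n + 1),
      (4 * Real.sinh (s / 2) ^ 2) ^ k * (n.choose k : ℝ) / (k + 1).factorial := by
  have hrec0 := Phi_succ s
  obtain ⟨κ, hκ⟩ : ∃ κ : ℝ, κ = 4 * Real.sinh (s / 2) ^ 2 := ⟨_, rfl⟩
  rw [← hκ]
  rw [← hκ] at hrec0
  -- the recursion of the closed form
  have hrec : ∀ n : ℕ, ((n : ℝ) + 2) *
      ∑ k ∈ range (n + 2), κ ^ k * ((n + 1).choose k : ℝ) / (k + 1).factorial =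
      ((n : ℝ) + 1) * ∑ k ∈ range (n + 1), κ ^ k * (n.choose k : ℝ) / (k + 1).factorial + 1 +
        κ * ∑ i ∈ range (n + 1), ∑ k ∈ range (i + 1),
          κ ^ k * (i.choose k : ℝ) / (k + 1).factorial := by
    intro n
    have h1 : ∑ i ∈ range (n + 1), ∑ k ∈ range (i + 1),
        κ ^ k * (i.choose k : ℝ) / (k + 1).factorial =
        ∑ k ∈ range (n + 1), κ ^ k * ((n + 1).choose (k + 1) : ℝ) / (k + 1).factorial := by
      have h2 : ∀ i ∈ range (n + 1), ∑ k ∈ range (i + 1),
          κ ^ k * (i.choose k : ℝ) / (k + 1).factorial =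
          ∑ k ∈ range (n + 1), κ ^ k * (i.choose k : ℝ) / (k + 1).factorial := by
        intro i hi
        have hi' := mem_range.1 hi
        refine sum_subset (range_mono (by omega)) fun k _ hk => ?_
        rw [mem_range, not_lt] at hk
        rw [Nat.choose_eq_zero_of_lt (by omega)]
        simp
      rw [sum_congr rfl h2, sum_comm]
      refine sum_congr rfl fun k _ => ?_
      rw [← sum_div, ← mul_sum, sum_choose]
    have h3 : ∑ k ∈ range (n + 1), κ ^ k * (n.choose k : ℝ) / (k + 1).factorial =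
        ∑ k ∈ range (n + 2), κ ^ k * (n.choose k : ℝ) / (k + 1).factorial := by
      rw [sum_range_succ _ (n + 1), Nat.choose_eq_zero_of_lt (Nat.lt_succ_self n)]
      simp
    rw [h1, h3, sum_range_succ', sum_range_succ' (fun k =>
      κ ^ k * (n.choose k : ℝ) / (k + 1).factorial) (n + 1)]
    have h4 : ∀ k ∈ range (n + 1), ((n : ℝ) + 2) *
        (κ ^ (k + 1) * ((n + 1).choose (k + 1) : ℝ) / (k + 1 + 1).factorial) =
        ((n : ℝ) + 1) * (κ ^ (k + 1) * (n.choose (k + 1) : ℝ) / (k + 1 + 1).factorial) +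
          κ * (κ ^ k * ((n + 1).choose (k + 1) : ℝ) / (k + 1).factorial) := by
      intro k _
      have h5 := choose_rec n k
      have h6 : ((k + 1 + 1).factorial : ℝ) = ((k : ℝ) + 2) * (k + 1).factorial := by
        rw [Nat.factorial_succ]
        push_cast
        ring
      have h7 : ((k + 1).factorial : ℝ) ≠ 0 := by positivity
      have h8 : ((k : ℝ) + 2) ≠ 0 := by positivity
      rw [h6]
      field_simp
      linear_combination (κ ^ (k + 1)) * h5
    have h5 : ((n : ℝ) + 2) * ∑ k ∈ range (n + 1),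
        κ ^ (k + 1) * ((n + 1).choose (k + 1) : ℝ) / (k + 1 + 1).factorial =
        ((n : ℝ) + 1) * ∑ k ∈ range (n + 1),
          κ ^ (k + 1) * (n.choose (k + 1) : ℝ) / (k + 1 + 1).factorial +
        κ * ∑ k ∈ range (n + 1), κ ^ k * ((n + 1).choose (k + 1) : ℝ) / (k + 1).factorial := by
      rw [mul_sum, mul_sum, mul_sum, ← sum_add_distrib]
      exact sum_congr rfl h4
    rw [mul_add, h5, mul_add]
    simp only [pow_zero, Nat.choose_zero_right, zero_add, Nat.factorial_one, Nat.cast_one]
    ring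
  induction n using Nat.strong_induction_on with
  | _ n ih =>
    cases n with
    | zero =>
      rw [Phi_zero]
      simp
    | succ n =>
      have h1 := hrec0 n
      have h2 := hrec n
      rw [ih n (Nat.lt_succ_self n)] at h1
      have h3 : ∑ i ∈ range (n + 1), Phi s i = ∑ i ∈ range (n + 1), ∑ k ∈ range (i + 1),
          κ ^ k * (i.choose k : ℝ) / (k + 1).factorial :=
        sum_congr rfl fun i hi => ih i (mem_range.1 hi)
      rw [h3, ← h2] at h1
      have h4 : ((n : ℝ) + 2) ≠ 0 := by positivity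
      exact mul_left_cancel₀ h4 h1

/-- The lower bound for the moment of the first row: the content of a box that can be added is at most
`l 0`. -/
theorem le_moment {s : ℝ} (hs : 0 ≤ s) (n : ℕ) :
    n.factorial * Phi s n ≤ ∑ l ∈ Par n, (f n l : ℝ) ^ 2 * Real.exp (s * l 0) := by
  classical
  have h1 : ∀ l ∈ Par n, (f n l : ℝ) * U (exC s) n l ≤
      ((n : ℝ) + 1) * ((f n l : ℝ) ^ 2 * Real.exp (s * l 0)) := by
    intro l hl
    have h2 : U (exC s) n l ≤ Real.exp (s * l 0) * (((n : ℝ) + 1) * f n l) := by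
      rw [← f_up_real n (mem_Par.1 hl), mul_sum]
      unfold U
      refine sum_le_sum fun r _ => ?_
      by_cases h : Add l r
      · rw [if_pos h, if_pos h]
        refine mul_le_mul_of_nonneg_right ?_ (Nat.cast_nonneg _)
        unfold exC
        refine Real.exp_le_exp.2 (mul_le_mul_of_nonneg_left ?_ hs)
        have h3 : l r ≤ l 0 := (mem_Par.1 hl).1 (Nat.zero_le r)
        have h4 : ((l r : ℤ) - r) ≤ (l 0 : ℤ) := by omega
        exact_mod_cast h4
      · rw [if_neg h, if_neg h, mul_zero]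
    calc (f n l : ℝ) * U (exC s) n l ≤ f n l * (Real.exp (s * l 0) * (((n : ℝ) + 1) * f n l)) :=
          mul_le_mul_of_nonneg_left h2 (Nat.cast_nonneg _)
      _ = _ := by ring
  have h2 := sum_le_sum h1
  rw [← mul_sum] at h2
  have h4 : ∑ l ∈ Par n, (f n l : ℝ) * U (exC s) n l = (n + 1).factorial * Phi s n := by
    unfold Phi
    field_simp
  rw [h4, Nat.factorial_succ] at h2
  push_cast at h2
  have h5 : (0 : ℝ) < (n : ℝ) + 1 := by positivity
  rw [mul_assoc] at h2
  exact le_of_mul_le_mul_left h2 h5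

end Pool.Agent.MP_9cec2c_lc.YL
end

section

/-!
Partitions with two long rows are rare.
-/

set_option autoImplicit false
set_option linter.unusedSectionVars false

namespace Pool.Agent.MP_9cec2c_lc.YL

open Finset

open Classical in
/-- The number of pairs of tableaux of size `n` with first row `x`. -/
noncomputable def pi1 (n x : ℕ) : ℕ := ∑ l ∈ Par n with l 0 = x, f n l ^ 2

open Classical in
/-- The number of pairs of tableaux of size `n` with first row `x` and second row at least `x - q`. -/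
noncomputable def pi2 (n q x : ℕ) : ℕ := ∑ l ∈ Par n with l 0 = x ∧ x ≤ l 1 + q, f n l ^ 2

/-
PROOF. Left side <= e^(u q/2 - u xs + u A) ∑_l (f b l)^2 exp ((u/2)(l 0 + l 1)) (for l 0 = x, x <= l 1 + q, xs < x + A:
 (u/2)(l 0 + l 1) >= (u/2)(2 x - q) >= u (xs - A) - u q / 2) <= e^(u q/2 - u xs + u A) b! exp (8 sqrt b sinh (u/4)) (moment_le with s = t = u/2).
 g xs e^(u xs) (b+1) >= ∑_{x <= b} g x e^(u x) >= ∑_l (f b l)^2 e^(u l 0) >= b! Phi u b >= b! exp (4 sqrt b sinh(u/2)) / (200 (sqrt b + 1)^3)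
 (le_moment, Phi_eq, num_lower; l 0 <= b for l ∈ Par b). Finally sinh_gap.
-/

/-- The upper bound for the number of partitions with two long rows. -/
theorem pi2_upper {u A : ℝ} (hu : 0 < u) (b q xs : ℕ) :
    ∑ x ∈ (range (b + 1)).filter (fun x : ℕ => (xs : ℝ) ≤ x + A), (pi2 b q x : ℝ) ≤
      Real.exp (u * q / 2 - u * xs + u * A) *
        (b.factorial * Real.exp (8 * √b * Real.sinh (u / 4))) := by
  classical
  have h1 : ∀ x ∈ (range (b + 1)).filter (fun x : ℕ => (xs : ℝ) ≤ x + A), (pi2 b q x : ℝ) ≤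
      Real.exp (u * q / 2 - u * xs + u * A) *
        ∑ l ∈ Par b with l 0 = x, (f b l : ℝ) ^ 2 * Real.exp (u / 2 * l 0 + u / 2 * l 1) := by
    intro x hx
    have hx2 : (xs : ℝ) ≤ x + A := (mem_filter.1 hx).2
    unfold pi2
    push_cast
    rw [mul_sum]
    have hsub : ((Par b).filter fun l => l 0 = x ∧ x ≤ l 1 + q) ⊆
        (Par b).filter fun l => l 0 = x := by
      intro l hl
      obtain ⟨h1, h2⟩ := mem_filter.1 hl
      exact mem_filter.2 ⟨h1, h2.1⟩
    refine (sum_le_sum fun l hl => ?_).trans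
      (sum_le_sum_of_subset_of_nonneg hsub fun l _ _ => by positivity)
    obtain ⟨_, h2, h3⟩ := mem_filter.1 hl
    have h4 : 1 ≤ Real.exp (u * q / 2 - u * xs + u * A) *
        Real.exp (u / 2 * l 0 + u / 2 * l 1) := by
      rw [← Real.exp_add, Real.one_le_exp_iff]
      have h5 : (x : ℝ) ≤ l 1 + q := by exact_mod_cast h3
      have h6 : (l 0 : ℝ) = x := by exact_mod_cast h2
      rw [h6]
      nlinarith
    calc (f b l : ℝ) ^ 2 = (f b l : ℝ) ^ 2 * 1 := (mul_one _).symm
      _ ≤ (f b l : ℝ) ^ 2 * (Real.exp (u * q / 2 - u * xs + u * A) *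
        Real.exp (u / 2 * l 0 + u / 2 * l 1)) := mul_le_mul_of_nonneg_left h4 (sq_nonneg _)
      _ = _ := by ring
  refine (sum_le_sum h1).trans ?_
  rw [← mul_sum]
  refine mul_le_mul_of_nonneg_left ?_ (Real.exp_pos _).le
  have h2 : ∑ x ∈ (range (b + 1)).filter (fun x : ℕ => (xs : ℝ) ≤ x + A),
      ∑ l ∈ Par b with l 0 = x, (f b l : ℝ) ^ 2 * Real.exp (u / 2 * l 0 + u / 2 * l 1) ≤
      ∑ l ∈ Par b, (f b l : ℝ) ^ 2 * Real.exp (u / 2 * l 0 + u / 2 * l 1) := by
    simp only [sum_filter (p := fun l : ℕ → ℕ => l 0 = _)]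
    rw [sum_comm]
    refine sum_le_sum fun l _ => ?_
    have h3 : 0 ≤ (f b l : ℝ) ^ 2 * Real.exp (u / 2 * l 0 + u / 2 * l 1) := by positivity
    rw [sum_ite_eq]
    split_ifs
    · exact le_rfl
    · exact h3
  refine h2.trans ((moment_le (by linarith) (by linarith) b).trans (le_of_eq ?_))
  have h3 : u / 2 / 2 = u / 4 := by ring
  rw [h3]
  congr 2
  ring

/-- The lower bound for the maximum. -/
theorem max_lower {u : ℝ} (hu : 0 < u) (hu1 : u ≤ 1 / 2) (b xs : ℕ) (g : ℕ → ℝ)
    (hg : ∀ x ≤ b, (pi1 b x : ℝ) ≤ g x)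
    (hmax : ∀ x ≤ b, g x * Real.exp (u * x) ≤ g xs * Real.exp (u * xs)) :
    (b.factorial : ℝ) * Real.exp (4 * √b * Real.sinh (u / 2)) ≤
      (b + 1) * (200 * (√b + 1) ^ 3) * (g xs * Real.exp (u * xs)) := by
  classical
  have h1 : ∑ l ∈ Par b, (f b l : ℝ) ^ 2 * Real.exp (u * l 0) =
      ∑ x ∈ range (b + 1), (pi1 b x : ℝ) * Real.exp (u * x) := by
    unfold pi1
    push_cast
    simp only [sum_mul, sum_filter]
    rw [sum_comm]
    refine sum_congr rfl fun l hl => ?_
    rw [sum_eq_single (l 0)]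
    · rw [if_pos rfl]
    · intro x _ hx
      rw [if_neg (fun h => hx h.symm), zero_mul]
    · intro h
      exact absurd (mem_range.2 (Nat.lt_succ_of_le ((mem_Par.1 hl).le 0))) h
  have h2 : ∑ x ∈ range (b + 1), (pi1 b x : ℝ) * Real.exp (u * x) ≤
      (b + 1) * (g xs * Real.exp (u * xs)) := by
    have h3 : ∀ x ∈ range (b + 1), (pi1 b x : ℝ) * Real.exp (u * x) ≤
        g xs * Real.exp (u * xs) := by
      intro x hx
      have hx' : x ≤ b := Nat.lt_succ_iff.1 (mem_range.1 hx)
      exact (mul_le_mul_of_nonneg_right (hg x hx') (Real.exp_pos _).le).trans (hmax x hx')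
    refine (sum_le_sum h3).trans (le_of_eq ?_)
    rw [sum_const, card_range, nsmul_eq_mul]
    push_cast
    ring
  have h3 := le_moment hu.le b
  rw [Phi_eq, h1] at h3
  have h4 := num_lower hu hu1 b
  have h5 : (0 : ℝ) ≤ 200 * (√b + 1) ^ 3 := by positivity
  calc (b.factorial : ℝ) * Real.exp (4 * √b * Real.sinh (u / 2))
      ≤ (b.factorial : ℝ) * (200 * (√b + 1) ^ 3 * ∑ k ∈ range (b + 1),
        (4 * Real.sinh (u / 2) ^ 2) ^ k * (b.choose k : ℝ) / (k + 1).factorial) :=
        mul_le_mul_of_nonneg_left h4 (Nat.cast_nonneg _)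
    _ = 200 * (√b + 1) ^ 3 * ((b.factorial : ℝ) * ∑ k ∈ range (b + 1),
        (4 * Real.sinh (u / 2) ^ 2) ^ k * (b.choose k : ℝ) / (k + 1).factorial) := by ring
    _ ≤ 200 * (√b + 1) ^ 3 * ((b + 1) * (g xs * Real.exp (u * xs))) :=
        mul_le_mul_of_nonneg_left (h3.trans h2) h5
    _ = _ := by ring

/-- Partitions with two long rows are rare, compared with the maximum of the tilted weight. -/
theorem pi2_le {u A : ℝ} (hu : 0 < u) (hu1 : u ≤ 1 / 2) (hA : 0 ≤ A) (b q xs : ℕ) (g : ℕ → ℝ)
    (hg : ∀ x ≤ b, (pi1 b x : ℝ) ≤ g x) (hxs : xs ≤ b)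
    (hmax : ∀ x ≤ b, g x * Real.exp (u * x) ≤ g xs * Real.exp (u * xs)) :
    ∑ x ∈ (range (b + 1)).filter (fun x : ℕ => (xs : ℝ) ≤ x + A), (pi2 b q x : ℝ) ≤
      (b + 1) * (200 * (√b + 1) ^ 3) *
        Real.exp (u * q / 2 + u * A - u ^ 3 * √b / 16) * g xs := by
  have _ := hA
  refine (pi2_upper hu b q xs).trans ?_
  have h1 := max_lower hu hu1 b xs g hg hmax
  have hg0 : 0 ≤ g xs := (Nat.cast_nonneg _).trans (hg xs hxs)
  have hgap := sinh_gap hu.le
  have hb : 0 ≤ √(b : ℝ) := Real.sqrt_nonneg _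
  have h2 : (b.factorial : ℝ) * Real.exp (8 * √b * Real.sinh (u / 4)) ≤
      (b + 1) * (200 * (√b + 1) ^ 3) * (g xs * Real.exp (u * xs)) *
        Real.exp (- (u ^ 3 * √b / 16)) := by
    have h3 : Real.exp (8 * √b * Real.sinh (u / 4)) ≤
        Real.exp (4 * √b * Real.sinh (u / 2)) * Real.exp (- (u ^ 3 * √b / 16)) := by
      rw [← Real.exp_add, Real.exp_le_exp]
      nlinarith
    calc (b.factorial : ℝ) * Real.exp (8 * √b * Real.sinh (u / 4))
        ≤ (b.factorial : ℝ) * (Real.exp (4 * √b * Real.sinh (u / 2)) *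
          Real.exp (- (u ^ 3 * √b / 16))) := mul_le_mul_of_nonneg_left h3 (Nat.cast_nonneg _)
      _ = (b.factorial : ℝ) * Real.exp (4 * √b * Real.sinh (u / 2)) *
          Real.exp (- (u ^ 3 * √b / 16)) := by ring
      _ ≤ _ := mul_le_mul_of_nonneg_right h1 (Real.exp_pos _).le
  refine (mul_le_mul_of_nonneg_left h2 (Real.exp_pos _).le).trans (le_of_eq ?_)
  have h4 : Real.exp (u * q / 2 + u * A - u ^ 3 * √b / 16) =
      Real.exp (u * q / 2 - u * xs + u * A) * Real.exp (u * xs) *
        Real.exp (- (u ^ 3 * √b / 16)) := by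
    rw [← Real.exp_add, ← Real.exp_add]
    congr 1
    ring
  rw [h4]
  ring

end Pool.Agent.MP_9cec2c_lc.YL
end
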