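import Mathlib
import Pool.Agent.Lib.MP_9cec2c_lc.Mg.G058
import Pool.Agent.Lib.MP_9cec2c_lc.Mg.G029
import Pool.Agent.Lib.MP_9cec2c_lc.Mg.G032
import Pool.Agent.Lib.MP_9cec2c_lc.Mg.G030

section

/-!
Graded worlds: the functions act on the levels `M a`, and the levels `N a` count as zero.
-/

set_option autoImplicit false
set_option linter.unusedSectionVars false

namespace Pool.Agent.MP_9cec2c_lc.GW

open Finset Frege

/-- A graded world: the functions act on `W`; the functions of degree at most `e` map the level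
`M a` to `M (a + e)` and the zero level `N a` to `N (a + e)`. -/
structure GWorld {K V W : Type} [Field K] [AddCommGroup W] [Module K W] (M N : ℕ → Submodule K W)
    (act : Fun K V →ₗ[K] W →ₗ[K] W) : Prop where
  monoM : Monotone M
  monoN : Monotone N
  le : ∀ a, N a ≤ M a
  act_one : ∀ f : W, act 1 f = f
  act_mul : ∀ (P Q : Fun K V) (f : W), act (P * Q) f = act P (act Q f)
  memM : ∀ (a e : ℕ) (P : Fun K V) (f : W), P ∈ Pol K V e → f ∈ M a → act P f ∈ M (a + e)
  memN : ∀ (a e : ℕ) (P : Fun K V) (f : W), P ∈ Pol K V e → f ∈ N a → act P f ∈ N (a + e)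

variable {K V W : Type} [Field K] [AddCommGroup W] [Module K W]

/-- The vectors `f` such that `g * h` maps `f` into `N` for all `g` in `G`. -/
def nul (act : Fun K V →ₗ[K] W →ₗ[K] W) (N : Submodule K W) (G : Set (Fun K V))
    (h : Fun K V) : Submodule K W where
  carrier := {f | ∀ g ∈ G, act (g * h) f ∈ N}
  add_mem' := by
    intro f f' hf hf' g hg
    rw [map_add]
    exact N.add_mem (hf g hg) (hf' g hg)
  zero_mem' := fun g _ => by
    rw [map_zero]
    exact N.zero_mem
  smul_mem' := by
    intro c f hf g hg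
    rw [map_smul]
    exact N.smul_mem c (hf g hg)

theorem mem_nul {act : Fun K V →ₗ[K] W →ₗ[K] W} {N : Submodule K W} {G : Set (Fun K V)}
    {h : Fun K V} {f : W} : f ∈ nul act N G h ↔ ∀ g ∈ G, act (g * h) f ∈ N := Iff.rfl

/-- The codimension of `X` in `B`. -/
noncomputable def codim (B X : Submodule K W) : ℕ :=
  Module.finrank K B - Module.finrank K (B ⊓ X : Submodule K W)

/-- The numbers of a graded world: the defect `τ` and the relative dimensions, up to the level
`A`. -/
structure Bounds (M N : ℕ → Submodule K W) (A τ : ℕ) (C w : ℝ) : Prop where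
  hdef : ∀ e j, e ≤ j → j ≤ A →
    Module.finrank K (M e ⊓ N j : Submodule K W) ≤ Module.finrank K (N e) + τ
  hdim : ∀ e ≤ A, (Module.finrank K (M e) : ℝ) ≤ Module.finrank K (N e) + C * w

end Pool.Agent.MP_9cec2c_lc.GW
end

section

/-!
# PHPF Part II: the case `N = b`

INPUT from Part III: `hcard`, the number of standard words is at most `N!`. `card (Pt N N) = N!`; the standard
monomials span `FF K N N N = ⊤` (`FF_top`), so they are a basis.
-/

set_option autoImplicit false

open Finset

namespace Pool.Agent.MP_9cec2c_lc.PHS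

variable {N : ℕ} {K : Type} [Field K]

/-- the letter of a hole -/
def letter (j : Fin N) : Fin (N + 2) := ⟨j.val + 1, by have := j.isLt; omega⟩

theorem letter_ho (j : Fin N) : Ho (letter j) := by
  constructor
  · intro h
    have h1 := congrArg Fin.val h
    simp only [letter, Fin.val_zero] at h1
    omega
  · intro h
    have h1 := congrArg Fin.val h
    simp only [letter, Fin.val_last] at h1
    have := j.isLt
    omega

theorem letter_inj {j j' : Fin N} (h : letter j = letter j') : j = j' := by
  have h1 := congrArg Fin.val h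
  simp only [letter] at h1
  exact Fin.ext (by omega)

theorem exists_letter {a : Fin (N + 2)} (ha : Ho a) : ∃ j : Fin N, letter j = a := by
  have h0 : a.val ≠ 0 := fun h => ha.1 (Fin.ext h)
  have h1 : a.val ≠ N + 1 := fun h => ha.2 (Fin.ext (by rw [h, Fin.val_last]))
  have h2 := a.isLt
  refine ⟨⟨a.val - 1, by omega⟩, Fin.ext ?_⟩
  simp only [letter]
  omega

/-- the point of a permutation -/
def ofPerm (e : Equiv.Perm (Fin N)) : Pt N N :=
  ⟨fun i => letter (e i), fun i => (letter_ho (e i)).1, fun a ha => by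
    obtain ⟨j, rfl⟩ := exists_letter ha
    refine ⟨e.symm j, ?_, ?_⟩
    · simp only [Equiv.apply_symm_apply]
    · intro i hi
      have h1 := letter_inj hi
      rw [← h1, Equiv.symm_apply_apply]⟩

theorem ofPerm_bijective : Function.Bijective (ofPerm (N := N)) := by
  constructor
  · intro e e' h
    apply Equiv.ext
    intro i
    exact letter_inj (congrFun (congrArg Subtype.val h) i)
  · intro w
    choose g hg hg' using fun j : Fin N => w.2.2 (letter j) (letter_ho j)
    have hinj : Function.Injective g := by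
      intro j j' h
      apply letter_inj
      have h1 := hg j
      have h2 := hg j'
      simp only at h1 h2
      rw [← h1, ← h2, h]
    have hbij : Function.Bijective g := Finite.injective_iff_bijective.1 hinj
    refine ⟨(Equiv.ofBijective g hbij).symm, Subtype.ext ?_⟩
    funext i
    have h1 := hg ((Equiv.ofBijective g hbij).symm i)
    have h2 : g ((Equiv.ofBijective g hbij).symm i) = i :=
      (Equiv.ofBijective g hbij).apply_symm_apply i
    simp only at h1
    rw [h2] at h1
    exact h1.symm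

theorem card_pt : Nat.card (Pt N N) = N.factorial := by
  rw [← Nat.card_eq_of_bijective _ (ofPerm_bijective (N := N)), Nat.card_eq_fintype_card,
    Fintype.card_perm, Fintype.card_fin]

theorem deg_le (s : Wd N N) : deg s ≤ N := by
  unfold deg
  refine (card_le_card (filter_subset _ _)).trans ?_
  rw [card_univ, Fintype.card_fin]

theorem perm_indep (hcard : Nat.card {s : Wd N N // Std s} ≤ N.factorial) :
    LinearIndependent K (fun s : {s : Wd N N // Std s} => mon K s.1) := by
  classical
  have htop : Submodule.span K (Set.range fun s : {s : Wd N N // Std s} => mon K s.1) = ⊤ := by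
    rw [eq_top_iff, ← FF_top (N := N) (b := N) (K := K), FF_eq_std]
    apply Submodule.span_mono
    rintro _ ⟨t, ⟨ht, _⟩, rfl⟩
    exact ⟨⟨t, ht⟩, rfl⟩
  rw [linearIndependent_iff_card_le_finrank_span]
  have h1 : (Set.range fun s : {s : Wd N N // Std s} => mon K s.1).finrank K = N.factorial := by
    unfold Set.finrank
    rw [htop, finrank_top, Module.finrank_fintype_fun_eq_card, ← Nat.card_eq_fintype_card, card_pt]
  rw [h1, ← Nat.card_eq_fintype_card]
  exact hcard

end Pool.Agent.MP_9cec2c_lc.PHS
end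

section

/-!
# PHPF Part II: the standard monomials are linearly independent

Suppose `∑ α s • mon s = 0` with `α ≠ 0`; choose `s` with `α s ≠ 0` and `til s` maximal (no `s'` with
`α s' ≠ 0` and `Lt (til s) (til s')`). Pull back: `0 = ∑ α s' (mon (til s') + combination of mon t, t Std,
Lt t (til s'))` (`pull_mon`, `mon_mem_std`). The coefficient of the basis vector `mon (til s)` (`perm_indep`) is
`α s`: contradiction.
-/

set_option autoImplicit false

open Finset

namespace Pool.Agent.MP_9cec2c_lc.PHS

variable {N b : ℕ} {K : Type} [Field K]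

/-- the pull-back of a standard monomial -/
private theorem pull_std (hbN : b ≤ N) {s : Wd N b} (hs : Std s) :
    pull K hbN (mon K s) - mon K (til s) ∈
      Submodule.span K (mon K '' {t : Wd N N | Std t ∧ Lt t (til s)}) := by
  have h1 : Submodule.span K (mon K '' {t : Wd N N | Lt t (til s)}) ≤
      Submodule.span K (mon K '' {t : Wd N N | Std t ∧ Lt t (til s)}) := by
    rw [Submodule.span_le]
    rintro _ ⟨t, ht, rfl⟩
    refine Submodule.span_mono (Set.image_mono ?_) (mon_mem_std (K := K) t)
    rintro u ⟨hu, h2⟩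
    refine ⟨hu, ?_⟩
    rcases h2 with rfl | h2
    · exact ht
    · exact Lt_trans h2 ht
  exact h1 (pull_mon hbN hs.1.1)

theorem std_indep (hbN : b ≤ N) (hcard : Nat.card {s : Wd N N // Std s} ≤ N.factorial) :
    LinearIndependent K (fun s : {s : Wd N b // Std s} => mon K s.1) := by
  classical
  have hP := perm_indep (K := K) hcard
  rw [Fintype.linearIndependent_iff]
  intro g hg
  by_contra hcon
  push Not at hcon
  -- a maximal word
  have : Std.Irrefl (fun s t : Wd N N => Lt t s) := ⟨fun s => Lt_irrefl s⟩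
  have : IsTrans (Wd N N) (fun s t : Wd N N => Lt t s) := ⟨fun _ _ _ h1 h2 => Lt_trans h2 h1⟩
  have hwf : WellFounded (fun s t : Wd N N => Lt t s) := Finite.wellFounded_of_trans_of_irrefl _
  obtain ⟨_, ⟨s, hs, rfl⟩, hmax⟩ := hwf.has_min
    {u | ∃ s : {s : Wd N b // Std s}, g s ≠ 0 ∧ til s.1 = u} (by
      obtain ⟨s, hs⟩ := hcon
      exact ⟨_, s, hs, rfl⟩)
  -- the pull-back of the relation
  have h1 : ∑ s' : {s : Wd N b // Std s}, g s' • pull K hbN (mon K s'.1) = 0 := by
    rw [← map_zero (pull K hbN), ← hg, map_sum]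
    exact sum_congr rfl fun s' _ => (map_smul _ _ _).symm
  obtain ⟨S, hS⟩ : ∃ S : Submodule K (Pt N N → K),
      S = Submodule.span K (mon K '' {t : Wd N N | Std t ∧ t ≠ til s.1}) := ⟨_, rfl⟩
  -- the other terms
  have h2 : ∀ s' : {s : Wd N b // Std s},
      g s' • (pull K hbN (mon K s'.1) - mon K (til s'.1)) ∈ S := by
    intro s'
    by_cases h3 : g s' = 0
    · rw [h3, zero_smul]
      exact S.zero_mem
    · refine S.smul_mem _ ?_
      rw [hS]
      refine Submodule.span_mono (Set.image_mono ?_) (pull_std (K := K) hbN s'.2)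
      rintro t ⟨ht, ht'⟩
      refine ⟨ht, ?_⟩
      rintro rfl
      exact hmax _ ⟨s', h3, rfl⟩ ht'
  have h3 : ∀ s' : {s : Wd N b // Std s}, s' ≠ s → g s' • mon K (til s'.1) ∈ S := by
    intro s' hs'
    refine S.smul_mem _ ?_
    rw [hS]
    refine Submodule.subset_span ⟨_, ⟨std_til hbN s'.2, fun h => hs' ?_⟩, rfl⟩
    exact Subtype.ext (til_inj hbN s'.2.1.1 s.2.1.1 h)
  have h4 : g s • mon K (til s.1) ∈ S := by
    have h5 : g s • mon K (til s.1) = -(∑ s' : {s : Wd N b // Std s},
        g s' • (pull K hbN (mon K s'.1) - mon K (til s'.1))) -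
        ∑ s' ∈ univ.erase s, g s' • mon K (til s'.1) := by
      have h6 : ∑ s' : {s : Wd N b // Std s},
          g s' • (pull K hbN (mon K s'.1) - mon K (til s'.1)) =
          - ∑ s' : {s : Wd N b // Std s}, g s' • mon K (til s'.1) := by
        simp only [smul_sub]
        rw [sum_sub_distrib, h1, zero_sub]
      rw [h6, neg_neg, ← add_sum_erase univ _ (mem_univ s), add_sub_cancel_right]
    rw [h5]
    exact S.sub_mem (S.neg_mem (S.sum_mem fun s' _ => h2 s'))
      (S.sum_mem fun s' hs' => h3 s' (ne_of_mem_erase hs'))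
  have h5 : mon K (til s.1) ∈ S := by
    have h6 := S.smul_mem (g s)⁻¹ h4
    rwa [inv_smul_smul₀ hs] at h6
  have h6 := hP.notMem_span_image
    (s := {t : {t : Wd N N // Std t} | t.1 ≠ til s.1}) (x := ⟨til s.1, std_til hbN s.2⟩)
    (fun h => h rfl)
  apply h6
  have h7 : (fun t : {t : Wd N N // Std t} => mon K t.1) ''
      {t : {t : Wd N N // Std t} | t.1 ≠ til s.1} =
      mon K '' {t : Wd N N | Std t ∧ t ≠ til s.1} := by
    ext f
    constructor
    · rintro ⟨t, ht, rfl⟩
      exact ⟨t.1, ⟨t.2, ht⟩, rfl⟩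
    · rintro ⟨t, ⟨ht, ht'⟩, rfl⟩
      exact ⟨⟨t, ht⟩, ht', rfl⟩
  rw [h7, ← hS]
  exact h5

end Pool.Agent.MP_9cec2c_lc.PHS
end

section

/-!
# PHPF Part II: the dimensions

`q = N - b ≥ 1`. `dim_le`: `FF_eq_std`; standard monomials with a star are in `YY D`, star-free ones with
`deg + q ≤ D` too (`mon_mem_YY`).
`le_dim`: by `std_indep` `finrank FF D = #{Std, deg ≤ D}`; by `YY_le_irr` `finrank YY D ≤ #{Std, deg + q ≤ D} +
#{Std, 1 ≤ stars, D < deg + q, deg ≤ D} + #{Bad, deg ≤ D}` (Irr and not Std = Bad; the Std ones with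
`deg + q ≤ D` are already counted).
`defect_le`: `finrank (F ⊓ Y') = finrank F + finrank Y' - finrank (F ⊔ Y')`, and `F_D ⊔ Y_D'` contains the
independent monomials of `{Std, deg ≤ D} ∪ {Std, 1 ≤ stars, deg ≤ D'}`.
-/

set_option autoImplicit false

open Finset

namespace Pool.Agent.MP_9cec2c_lc.PHS

variable {N b : ℕ} {K : Type} [Field K]

/-- the span of the monomials of a finite set of words -/
private noncomputable def spn (K : Type) [Field K] (T : Finset (Wd N b)) :
    Submodule K (Pt N b → K) :=
  Submodule.span K (mon K '' (T : Set (Wd N b)))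

private theorem spn_eq (T : Finset (Wd N b)) :
    spn K T = Submodule.span K (Set.range fun t : T => mon K t.1) := by
  unfold spn
  congr 1
  ext f
  constructor
  · rintro ⟨t, ht, rfl⟩
    exact ⟨⟨t, ht⟩, rfl⟩
  · rintro ⟨t, rfl⟩
    exact ⟨t.1, t.2, rfl⟩

private theorem spn_le (T : Finset (Wd N b)) : Module.finrank K (spn K T) ≤ T.card := by
  rw [spn_eq]
  have h := finrank_range_le_card (R := K) (b := fun t : T => mon K t.1)
  rwa [Set.finrank, Fintype.card_coe] at h

private theorem spn_card
    (hi : LinearIndependent K (fun s : {s : Wd N b // Std s} => mon K s.1))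
    (T : Finset (Wd N b)) (hT : ∀ t ∈ T, Std t) : Module.finrank K (spn K T) = T.card := by
  rw [spn_eq]
  have h1 : LinearIndependent K (fun t : T => mon K t.1) :=
    hi.comp (fun t : T => (⟨t.1, hT t.1 t.2⟩ : {s : Wd N b // Std s})) fun t t' h =>
      Subtype.ext (congrArg (fun s : {s : Wd N b // Std s} => s.1) h)
  rw [finrank_span_eq_card h1, Fintype.card_coe]

private theorem mon_mem_spn {T : Finset (Wd N b)} {t : Wd N b} (ht : t ∈ T) : mon K t ∈ spn K T :=
  Submodule.subset_span ⟨t, ht, rfl⟩

open Classical in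
private theorem S0_eq (N b D D' : ℕ) : S0 N b D D' =
    (univ.filter fun s : Wd N b => Std s ∧ stars s = 0 ∧ D < deg s + (N - b) ∧
      deg s + (N - b) ≤ D').card := by
  unfold S0
  congr

open Classical in
private theorem badc_eq (N b D : ℕ) : badc N b D =
    (univ.filter fun s : Wd N b => Bad s ∧ deg s ≤ D).card := by
  unfold badc
  congr

private theorem FF_eq_spn (D : ℕ) : by
    classical
    exact FF K N b D = spn K (univ.filter fun s : Wd N b => Std s ∧ deg s ≤ D) := by
  classical
  rw [FF_eq_std]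
  unfold spn
  congr 2
  ext t
  simp

/-- `dim F_D / Y_D ≤ S0` -/
theorem dim_le (hbN : b < N) (D : ℕ) :
    Module.finrank K (FF K N b D) ≤ Module.finrank K (YY K N b D) + S0 N b D (D + (N - b)) := by
  classical
  rw [S0_eq]
  obtain ⟨T, hT⟩ : ∃ T, T = univ.filter fun s : Wd N b => Std s ∧ stars s = 0 ∧
      D < deg s + (N - b) ∧ deg s + (N - b) ≤ D + (N - b) := ⟨_, rfl⟩
  rw [← hT]
  have h1 : FF K N b D ≤ YY K N b D ⊔ spn K T := by
    rw [FF_eq_std, Submodule.span_le]
    rintro _ ⟨t, ⟨ht, hd⟩, rfl⟩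
    by_cases h2 : 1 ≤ stars t
    · exact Submodule.mem_sup_left (Submodule.subset_span ⟨t, ⟨hd, h2⟩, rfl⟩)
    · by_cases h3 : deg t + (N - b) ≤ D
      · exact Submodule.mem_sup_left (mon_mem_YY hbN t h3)
      · refine Submodule.mem_sup_right (mon_mem_spn ?_)
        rw [hT, mem_filter]
        exact ⟨mem_univ _, ht, by omega, by omega, by omega⟩
  calc Module.finrank K (FF K N b D) ≤ Module.finrank K ↥(YY K N b D ⊔ spn K T) :=
        Submodule.finrank_mono h1
    _ ≤ Module.finrank K (YY K N b D) + Module.finrank K (spn K T) :=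
        Submodule.finrank_add_le_finrank_add_finrank _ _
    _ ≤ _ := Nat.add_le_add_left (spn_le T) _

/-- the upper bound for the dimension of `Y_D` -/
private theorem YY_card (hbN : b < N) (hq : QK K (N - b)) (D : ℕ) : by
    classical
    exact Module.finrank K (YY K N b D) ≤
      (univ.filter fun s : Wd N b => Std s ∧ stars s = 0 ∧ deg s + (N - b) ≤ D).card +
      (univ.filter fun s : Wd N b => Std s ∧ 1 ≤ stars s ∧ deg s ≤ D).card + badc N b D := by
  classical
  rw [badc_eq]
  obtain ⟨T1, hT1⟩ : ∃ T, T = univ.filter fun s : Wd N b => Std s ∧ stars s = 0 ∧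
      deg s + (N - b) ≤ D := ⟨_, rfl⟩
  obtain ⟨T2, hT2⟩ : ∃ T, T = univ.filter fun s : Wd N b => Std s ∧ 1 ≤ stars s ∧ deg s ≤ D :=
    ⟨_, rfl⟩
  obtain ⟨T3, hT3⟩ : ∃ T, T = univ.filter fun s : Wd N b => Bad s ∧ deg s ≤ D := ⟨_, rfl⟩
  rw [← hT1, ← hT2, ← hT3]
  have h1 : YY K N b D ≤ (spn K T1 ⊔ spn K T2) ⊔ spn K T3 := by
    refine (YY_le_irr hbN.le hq D).trans (sup_le ?_ ?_)
    · rw [Submodule.span_le]
      rintro _ ⟨t, ⟨ht, hs, hd⟩, rfl⟩
      by_cases h2 : Std t
      · refine Submodule.mem_sup_left (Submodule.mem_sup_right (mon_mem_spn ?_))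
        rw [hT2, mem_filter]
        exact ⟨mem_univ _, h2, hs, hd⟩
      · refine Submodule.mem_sup_right (mon_mem_spn ?_)
        rw [hT3, mem_filter]
        exact ⟨mem_univ _, ⟨ht, hs, h2⟩, hd⟩
    · rw [Submodule.span_le]
      rintro _ ⟨t, ⟨ht, hd⟩, rfl⟩
      by_cases h2 : 1 ≤ stars t
      · refine Submodule.mem_sup_left (Submodule.mem_sup_right (mon_mem_spn ?_))
        rw [hT2, mem_filter]
        exact ⟨mem_univ _, ht, h2, by omega⟩
      · refine Submodule.mem_sup_left (Submodule.mem_sup_left (mon_mem_spn ?_))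
        rw [hT1, mem_filter]
        exact ⟨mem_univ _, ht, by omega, hd⟩
  calc Module.finrank K (YY K N b D) ≤
        Module.finrank K ↥((spn K T1 ⊔ spn K T2) ⊔ spn K T3) := Submodule.finrank_mono h1
    _ ≤ Module.finrank K ↥(spn K T1 ⊔ spn K T2) + Module.finrank K (spn K T3) :=
        Submodule.finrank_add_le_finrank_add_finrank _ _
    _ ≤ (Module.finrank K (spn K T1) + Module.finrank K (spn K T2)) +
          Module.finrank K (spn K T3) :=
        Nat.add_le_add_right (Submodule.finrank_add_le_finrank_add_finrank _ _) _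
    _ ≤ _ := Nat.add_le_add (Nat.add_le_add (spn_le T1) (spn_le T2)) (spn_le T3)

/-- `dim F_D / Y_D ≥ S0 - Bad` -/
theorem le_dim (hbN : b < N) (hq : QK K (N - b))
    (hcard : Nat.card {s : Wd N N // Std s} ≤ N.factorial) (D : ℕ) :
    Module.finrank K (YY K N b D) + S0 N b D (D + (N - b)) ≤
      Module.finrank K (FF K N b D) + badc N b D := by
  classical
  have hi := std_indep (K := K) hbN.le hcard
  have h1 := YY_card (K := K) hbN hq D
  have h2 := spn_card hi (univ.filter fun s : Wd N b => Std s ∧ deg s ≤ D)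
    (fun t ht => (mem_filter.1 ht).2.1)
  rw [← FF_eq_spn] at h2
  have h3 : (univ.filter fun s : Wd N b => Std s ∧ stars s = 0 ∧ deg s + (N - b) ≤ D).card +
      (univ.filter fun s : Wd N b => Std s ∧ 1 ≤ stars s ∧ deg s ≤ D).card +
      S0 N b D (D + (N - b)) = (univ.filter fun s : Wd N b => Std s ∧ deg s ≤ D).card := by
    rw [S0_eq, ← card_union_of_disjoint, ← card_union_of_disjoint]
    · congr 1
      ext t
      simp only [mem_union, mem_filter, mem_univ, true_and]
      constructor
      · rintro ((⟨h4, h5, h6⟩ | ⟨h4, h5, h6⟩) | ⟨h4, h5, h6, h7⟩)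
        · exact ⟨h4, by omega⟩
        · exact ⟨h4, h6⟩
        · exact ⟨h4, by omega⟩
      · rintro ⟨h4, h5⟩
        by_cases h6 : 1 ≤ stars t
        · exact Or.inl (Or.inr ⟨h4, h6, h5⟩)
        · by_cases h7 : deg t + (N - b) ≤ D
          · exact Or.inl (Or.inl ⟨h4, by omega, h7⟩)
          · exact Or.inr ⟨h4, by omega, by omega, by omega⟩
    · rw [Finset.disjoint_left]
      intro t ht ht'
      simp only [mem_union, mem_filter, mem_univ, true_and] at ht ht'
      rcases ht with ht | ht <;> omega
    · rw [Finset.disjoint_left]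
      intro t ht ht'
      simp only [mem_filter, mem_univ, true_and] at ht ht'
      omega
  omega

/-- the defect -/
theorem defect_le (hbN : b < N) (hq : QK K (N - b))
    (hcard : Nat.card {s : Wd N N // Std s} ≤ N.factorial) {D D' : ℕ} (h : D ≤ D') :
    Module.finrank K ↥(FF K N b D ⊓ YY K N b D') ≤
      Module.finrank K (YY K N b D) + S0 N b D D' + badc N b D' := by
  classical
  have _ := h
  have hi := std_indep (K := K) hbN.le hcard
  -- the dimension of `Y_D'`
  have h1 := YY_card (K := K) hbN hq D'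
  -- the dimension of `F_D`
  have h2 := spn_card hi (univ.filter fun s : Wd N b => Std s ∧ deg s ≤ D)
    (fun t ht => (mem_filter.1 ht).2.1)
  rw [← FF_eq_spn] at h2
  -- the dimension of `Y_D`
  obtain ⟨T1, hT1⟩ : ∃ T, T = univ.filter fun s : Wd N b => Std s ∧
      (stars s = 0 ∧ deg s + (N - b) ≤ D ∨ 1 ≤ stars s ∧ deg s ≤ D) := ⟨_, rfl⟩
  have h3 : T1.card ≤ Module.finrank K (YY K N b D) := by
    rw [← spn_card hi T1 fun t ht => by
      rw [hT1] at ht
      exact (mem_filter.1 ht).2.1]
    refine Submodule.finrank_mono ?_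
    unfold spn
    rw [Submodule.span_le]
    rintro _ ⟨t, ht, rfl⟩
    rw [hT1, mem_coe, mem_filter] at ht
    rcases ht.2.2 with ⟨h4, h5⟩ | ⟨h4, h5⟩
    · exact mon_mem_YY hbN t h5
    · exact Submodule.subset_span ⟨t, ⟨h5, h4⟩, rfl⟩
  -- the dimension of `F_D ⊔ Y_D'`
  obtain ⟨T2, hT2⟩ : ∃ T, T = univ.filter fun s : Wd N b => Std s ∧
      (deg s ≤ D ∨ 1 ≤ stars s ∧ deg s ≤ D') := ⟨_, rfl⟩
  have h4 : T2.card ≤ Module.finrank K ↥(FF K N b D ⊔ YY K N b D') := by
    rw [← spn_card hi T2 fun t ht => by
      rw [hT2] at ht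
      exact (mem_filter.1 ht).2.1]
    refine Submodule.finrank_mono ?_
    unfold spn
    rw [Submodule.span_le]
    rintro _ ⟨t, ht, rfl⟩
    rw [hT2, mem_coe, mem_filter] at ht
    rcases ht.2.2 with h5 | ⟨h5, h6⟩
    · exact Submodule.mem_sup_left (Submodule.subset_span ⟨t, h5, rfl⟩)
    · exact Submodule.mem_sup_right (Submodule.subset_span ⟨t, ⟨h6, h5⟩, rfl⟩)
  have h5 := Submodule.finrank_sup_add_finrank_inf_eq (FF K N b D) (YY K N b D')
  -- counting
  have h6 : (univ.filter fun s : Wd N b => Std s ∧ stars s = 0 ∧ deg s + (N - b) ≤ D').card +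
      (univ.filter fun s : Wd N b => Std s ∧ 1 ≤ stars s ∧ deg s ≤ D').card +
      (univ.filter fun s : Wd N b => Std s ∧ deg s ≤ D).card ≤
      T2.card + T1.card + S0 N b D D' := by
    rw [S0_eq]
    have e1 : (univ.filter fun s : Wd N b => Std s ∧ stars s = 0 ∧ deg s + (N - b) ≤ D') ⊆
        (T1.filter fun s => stars s = 0) ∪ (univ.filter fun s : Wd N b => Std s ∧ stars s = 0 ∧
          D < deg s + (N - b) ∧ deg s + (N - b) ≤ D') := by
      intro t ht
      simp only [hT1, mem_union, mem_filter, mem_univ, true_and] at ht ⊢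
      by_cases h7 : deg t + (N - b) ≤ D
      · exact Or.inl ⟨⟨ht.1, Or.inl ⟨ht.2.1, h7⟩⟩, ht.2.1⟩
      · exact Or.inr ⟨ht.1, ht.2.1, by omega, ht.2.2⟩
    have e2 : ((univ.filter fun s : Wd N b => Std s ∧ 1 ≤ stars s ∧ deg s ≤ D') ∩
        (univ.filter fun s : Wd N b => Std s ∧ deg s ≤ D)) ⊆
        T1.filter fun s => ¬ stars s = 0 := by
      intro t ht
      simp only [hT1, mem_inter, mem_filter, mem_univ, true_and] at ht ⊢
      exact ⟨⟨ht.1.1, Or.inr ⟨ht.1.2.1, ht.2.2⟩⟩, by omega⟩
    have e3 : ((univ.filter fun s : Wd N b => Std s ∧ 1 ≤ stars s ∧ deg s ≤ D') ∪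
        (univ.filter fun s : Wd N b => Std s ∧ deg s ≤ D)) ⊆ T2 := by
      intro t ht
      simp only [hT2, mem_union, mem_filter, mem_univ, true_and] at ht ⊢
      rcases ht with ht | ht
      · exact ⟨ht.1, Or.inr ht.2⟩
      · exact ⟨ht.1, Or.inl ht.2⟩
    have f1 := (card_le_card e1).trans (card_union_le _ _)
    have f2 := card_le_card e2
    have f3 := card_le_card e3
    have f4 := card_union_add_card_inter
      (univ.filter fun s : Wd N b => Std s ∧ 1 ≤ stars s ∧ deg s ≤ D')
      (univ.filter fun s : Wd N b => Std s ∧ deg s ≤ D)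
    have f5 := card_filter_add_card_filter_not (s := T1) (fun s => stars s = 0)
    omega
  omega

end Pool.Agent.MP_9cec2c_lc.PHS
end

section

/-!
# III.4 - III.6 The numbers of standard words
-/

set_option autoImplicit false

open Finset

namespace Pool.Agent.MP_9cec2c_lc.PH

open PHS YL

open Classical in
/-- The number of standard words without star and with `x` free holes. -/
noncomputable def gs (N b x : ℕ) : ℕ :=
  (univ.filter fun s : Wd N b => Std s ∧ stars s = 0 ∧ deg s + x = b).card

open Classical in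
/-- The same with a chain of more than `x - q` elements. -/
noncomputable def gq (N b x : ℕ) : ℕ :=
  (univ.filter fun s : Wd N b => Std s ∧ stars s = 0 ∧ deg s + x = b ∧
    ∃ C : Finset (Fin N), Chain s C ∧ x < C.card + (N - b)).card

/-- A good word without star has at most `b` letters that are not free. -/
theorem deg_le {N b : ℕ} {s : Wd N b} (hs : Good s) (h0 : stars s = 0) : deg s ≤ b := by
  classical
  unfold deg
  have hnl : ∀ i, s i ≠ Fin.last (b + 1) := by
    intro i hi
    unfold stars at h0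
    rw [card_eq_zero] at h0
    have h1 : i ∈ (univ.filter fun i => s i = Fin.last (b + 1)) := mem_filter.2 ⟨mem_univ _, hi⟩
    rw [h0] at h1
    exact notMem_empty _ h1
  have h1 : (univ.filter fun i => s i ≠ 0).card ≤ (Icc 1 b).card := by
    refine card_le_card_of_injOn (fun i => (s i).val) ?_ ?_
    · intro i hi
      have hi' := (mem_filter.1 (mem_coe.1 hi)).2
      have h2 := hnl i
      rw [mem_coe, mem_Icc]
      have h3 : (s i).val ≠ 0 := fun h => hi' (Fin.ext h)
      have h4 : (s i).val ≠ b + 1 := fun h => h2 (Fin.ext h)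
      have h5 := (s i).isLt
      show 1 ≤ (s i).val ∧ (s i).val ≤ b
      omega
    · intro i hi i' _ h
      have hi' := (mem_filter.1 (mem_coe.1 hi)).2
      exact hs.1 i i' (Fin.ext h) ⟨hi', hnl i⟩
  rwa [Nat.card_Icc, Nat.add_sub_cancel] at h1

/-- `f N (μ + q e_0) ≤ N ^ q * f b μ` for `μ ∈ Par b`, `q = N - b` (`f_row` with `f_up_zero_le`). -/
theorem f_row_le {N b : ℕ} (hbN : b ≤ N) {μ : ℕ → ℕ} (hμ : IsPar b μ) :
    f N (Function.update μ 0 (μ 0 + (N - b))) ≤ N ^ (N - b) * f b μ := by
  have h1 := f_row (fun n l hl => f_up_zero_le n (mem_Par.1 hl)) b (N - b) μ (mem_Par.2 hμ)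
  rwa [Nat.add_sub_cancel' hbN] at h1

/-- The input of Part II. -/
theorem card_std_perm (N : ℕ) : Nat.card {s : Wd N N // Std s} ≤ N.factorial := by
  classical
  have h1 : (univ.filter fun s : Wd N N => Std s ∧ stars s = 0 ∧ True).card ≤
      ∑ μ ∈ (Par N).filter (fun _ => True),
        f N (Function.update μ 0 (μ 0 + (N - N))) * f N μ := by
    convert! card_std_le (N := N) (b := N) le_rfl (fun _ => True)
  have h2 : Nat.card {s : Wd N N // Std s} =
      (univ.filter fun s : Wd N N => Std s ∧ stars s = 0 ∧ True).card := by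
    rw [Nat.card_eq_fintype_card, Fintype.card_subtype]
    congr 1
    ext s
    rw [mem_filter, mem_filter]
    constructor
    · rintro ⟨-, h⟩
      refine ⟨mem_univ _, h, ?_, trivial⟩
      have h3 := h.1.1.2
      omega
    · rintro ⟨-, h, -⟩
      exact ⟨mem_univ _, h⟩
  rw [h2]
  refine h1.trans (le_of_eq ?_)
  rw [← sum_sq N]
  have h3 : (Par N).filter (fun _ => True) = Par N := filter_true_of_mem fun _ _ => trivial
  rw [h3]
  refine sum_congr rfl fun μ _ => ?_
  rw [Nat.sub_self, Nat.add_zero, Function.update_eq_self, sq]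

/-- PROOF. `card_std_le` with `Q μ = (μ 0 = x)` (`sh s 0 = b - deg s = x`), then `f_row_le`. -/
theorem gs_le {N b : ℕ} (hbN : b ≤ N) (x : ℕ) : gs N b x ≤ N ^ (N - b) * pi1 b x := by
  classical
  have h1 : (univ.filter fun s : Wd N b => Std s ∧ stars s = 0 ∧ sh s 0 = x).card ≤
      ∑ μ ∈ (Par b).filter (fun μ => μ 0 = x),
        f N (Function.update μ 0 (μ 0 + (N - b))) * f b μ := by
    convert! card_std_le (N := N) (b := b) hbN (fun μ => μ 0 = x)
  have h2 : gs N b x ≤ (univ.filter fun s : Wd N b => Std s ∧ stars s = 0 ∧ sh s 0 = x).card := by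
    unfold gs
    refine card_le_card fun s hs => ?_
    rw [mem_filter] at hs ⊢
    refine ⟨mem_univ _, hs.2.1, hs.2.2.1, ?_⟩
    unfold sh
    rw [if_pos rfl]
    have := hs.2.2.2
    omega
  refine (h2.trans h1).trans ?_
  unfold pi1
  rw [mul_sum]
  refine sum_le_sum fun μ hμ => ?_
  have hμ' := mem_Par.1 (mem_filter.1 hμ).1
  calc f N (Function.update μ 0 (μ 0 + (N - b))) * f b μ ≤ N ^ (N - b) * f b μ * f b μ :=
        Nat.mul_le_mul_right _ (f_row_le hbN hμ')
    _ = N ^ (N - b) * f b μ ^ 2 := by ring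

/-- PROOF. `card_std_le` with `Q μ = (μ 0 = x ∧ x ≤ μ 1 + q)`: a chain `C` of `s` has at most
`grow (cm s) N b 0 = sh s 1` elements (`chain_le`). Then `f_row_le`. -/
theorem gq_le {N b : ℕ} (hbN : b ≤ N) (x : ℕ) : gq N b x ≤ N ^ (N - b) * pi2 b (N - b) x := by
  classical
  have h1 : (univ.filter fun s : Wd N b => Std s ∧ stars s = 0 ∧
      (sh s 0 = x ∧ x ≤ sh s 1 + (N - b))).card ≤
      ∑ μ ∈ (Par b).filter (fun μ => μ 0 = x ∧ x ≤ μ 1 + (N - b)),
        f N (Function.update μ 0 (μ 0 + (N - b))) * f b μ := by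
    convert! card_std_le (N := N) (b := b) hbN (fun μ => μ 0 = x ∧ x ≤ μ 1 + (N - b))
  have h2 : gq N b x ≤ (univ.filter fun s : Wd N b => Std s ∧ stars s = 0 ∧
      (sh s 0 = x ∧ x ≤ sh s 1 + (N - b))).card := by
    unfold gq
    refine card_le_card fun s hs => ?_
    rw [mem_filter] at hs ⊢
    obtain ⟨-, hS, h0, hx, C, hC, hxC⟩ := hs
    refine ⟨mem_univ _, hS, h0, ?_, ?_⟩
    · unfold sh
      rw [if_pos rfl]
      omega
    · have hnl : ∀ i, (s i).val ≤ b := by
        intro i
        by_contra hi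
        have h3 : s i = Fin.last (b + 1) := by
          apply Fin.ext
          have := (s i).isLt
          rw [Fin.val_last]
          omega
        unfold stars at h0
        rw [card_eq_zero] at h0
        have h4 : i ∈ (univ.filter fun i => s i = Fin.last (b + 1)) :=
          mem_filter.2 ⟨mem_univ _, h3⟩
        rw [h0] at h4
        exact notMem_empty _ h4
      have h3 := chain_le hS.1.1 le_rfl le_rfl hC (fun i _ => i.isLt) (fun i _ => hnl i)
      have h4 : sh s 1 = grow (cm s) N b 0 := by
        unfold sh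
        rw [if_neg one_ne_zero]
      omega
  refine (h2.trans h1).trans ?_
  unfold pi2
  rw [mul_sum]
  refine sum_le_sum fun μ hμ => ?_
  have hμ' := mem_Par.1 (mem_filter.1 hμ).1
  calc f N (Function.update μ 0 (μ 0 + (N - b))) * f b μ ≤ N ^ (N - b) * f b μ * f b μ :=
        Nat.mul_le_mul_right _ (f_row_le hbN hμ')
    _ = N ^ (N - b) * f b μ ^ 2 := by ring

/-! ### More pigeons -/

/-- Extension of a word by free pigeons. -/
def extW {N b : ℕ} (s : Wd b b) : Wd N b := fun i => if h : i.val < b then s ⟨i.val, h⟩ else 0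

theorem extW_lt {N b : ℕ} (s : Wd b b) (i : Fin N) (h : i.val < b) :
    (extW s : Wd N b) i = s ⟨i.val, h⟩ := dif_pos h

theorem extW_ge {N b : ℕ} (s : Wd b b) (i : Fin N) (h : ¬ i.val < b) :
    (extW s : Wd N b) i = 0 := dif_neg h

theorem extW_cast {N b : ℕ} (hbN : b ≤ N) (s : Wd b b) (i : Fin b) :
    (extW s : Wd N b) (Fin.castLE hbN i) = s i := extW_lt s _ i.isLt

/-- The pigeons with a given property which fails for the letter `0`. -/
theorem card_extW {N b : ℕ} (hbN : b ≤ N) (s : Wd b b) (P : ℕ → Fin (b + 2) → Prop)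
    [∀ v a, Decidable (P v a)] (hP : ∀ v, b ≤ v → ¬ P v 0) :
    (univ.filter fun i : Fin N => P i.val ((extW s : Wd N b) i)).card =
      (univ.filter fun i : Fin b => P i.val (s i)).card := by
  classical
  have h1 : (univ.filter fun i : Fin N => P i.val ((extW s : Wd N b) i)) =
      (univ.filter fun i : Fin b => P i.val (s i)).map (Fin.castLEEmb hbN) := by
    ext i
    rw [mem_filter, mem_map]
    constructor
    · rintro ⟨-, h⟩
      by_cases hi : i.val < b
      · refine ⟨⟨i.val, hi⟩, mem_filter.2 ⟨mem_univ _, ?_⟩, Fin.ext rfl⟩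
        rwa [extW_lt s i hi] at h
      · rw [extW_ge s i hi] at h
        exact absurd h (hP i.val (not_lt.1 hi))
    · rintro ⟨j, hj, rfl⟩
      refine ⟨mem_univ _, ?_⟩
      have h2 := (mem_filter.1 hj).2
      have h3 : (extW s : Wd N b) (Fin.castLEEmb hbN j) = s j := extW_cast hbN s j
      rw [h3]
      exact h2
  rw [h1, card_map]

theorem extW_deg {N b : ℕ} (hbN : b ≤ N) (s : Wd b b) : deg (extW s : Wd N b) = deg s := by
  classical
  have h := card_extW hbN s (fun _ a => a ≠ 0) (fun v _ h => h rfl)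
  unfold deg
  convert! h

theorem extW_stars {N b : ℕ} (hbN : b ≤ N) (s : Wd b b) : stars (extW s : Wd N b) = stars s := by
  classical
  have h := card_extW hbN s (fun _ a => a = Fin.last (b + 1))
    (fun v _ h => absurd h (Fin.last_pos.ne))
  unfold stars
  convert! h

/-- Chains of the extension. -/
theorem extW_chain {N b : ℕ} (hbN : b ≤ N) {s : Wd b b} {C : Finset (Fin N)}
    (hC : Chain (extW s : Wd N b) C) : ∃ C' : Finset (Fin b), Chain s C' ∧
      C = C'.map (Fin.castLEEmb hbN) := by
  classical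
  have hlt : ∀ i ∈ C, i.val < b := by
    intro i hi
    by_contra h
    exact hC.1 i hi (extW_ge s i h)
  refine ⟨univ.filter fun j => Fin.castLEEmb hbN j ∈ C, ⟨fun j hj => ?_, fun j hj j' hj' h => ?_⟩, ?_⟩
  · have h1 := hC.1 _ (mem_filter.1 hj).2
    have h3 : (extW s : Wd N b) (Fin.castLEEmb hbN j) = s j := extW_cast hbN s j
    rwa [h3] at h1
  · have h1 := hC.2 _ (mem_filter.1 hj).2 _ (mem_filter.1 hj').2 h
    have h3 : (extW s : Wd N b) (Fin.castLEEmb hbN j) = s j := extW_cast hbN s j
    have h4 : (extW s : Wd N b) (Fin.castLEEmb hbN j') = s j' := extW_cast hbN s j'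
    rwa [h3, h4] at h1
  · ext i
    rw [mem_map]
    constructor
    · intro hi
      refine ⟨⟨i.val, hlt i hi⟩, mem_filter.2 ⟨mem_univ _, ?_⟩, Fin.ext rfl⟩
      have h1 : Fin.castLEEmb hbN ⟨i.val, hlt i hi⟩ = i := Fin.ext rfl
      rwa [h1]
    · rintro ⟨j, hj, rfl⟩
      exact (mem_filter.1 hj).2

theorem extW_std {N b : ℕ} (hbN : b ≤ N) {s : Wd b b} (hs : Std s) : Std (extW s : Wd N b) := by
  classical
  have hfrP : ∀ y, (frPset s y).card ≤ (frPset (extW s : Wd N b) y).card := by
    intro y
    unfold frPset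
    refine card_le_card_of_injOn (Fin.castLEEmb hbN) ?_ (Fin.castLEEmb hbN).injective.injOn
    intro i hi
    have h1 := (mem_filter.1 (mem_coe.1 hi)).2
    rw [mem_coe, mem_filter]
    refine ⟨mem_univ _, h1.1, ?_⟩
    have h3 : (extW s : Wd N b) (Fin.castLEEmb hbN i) = s i := extW_cast hbN s i
    rw [h3]
    exact h1.2
  have hfrH : ∀ x, frHset (extW s : Wd N b) x = frHset s x := by
    intro x
    unfold frHset
    ext a
    rw [mem_filter, mem_filter]
    refine and_congr Iff.rfl (and_congr_right fun ha => and_congr Iff.rfl (and_congr Iff.rfl ?_))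
    constructor
    · intro h i hi
      exact h (Fin.castLE hbN i) (by rw [extW_cast hbN s i]; exact hi)
    · intro h i hi
      by_cases hib : i.val < b
      · rw [extW_lt s i hib] at hi
        exact h _ hi
      · rw [extW_ge s i hib] at hi
        exact ha hi.symm
  have hgood : Good (extW s : Wd N b) := by
    refine ⟨fun i i' h hH => ?_, ?_⟩
    · have hi : i.val < b := by
        by_contra hi
        rw [extW_ge s i hi] at hH
        exact hH.1 rfl
      have hi' : i'.val < b := by
        by_contra hi'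
        rw [h, extW_ge s i' hi'] at hH
        exact hH.1 rfl
      rw [extW_lt s i hi, extW_lt s i' hi'] at h
      rw [extW_lt s i hi] at hH
      have h1 := congrArg Fin.val (hs.1.1.1 _ _ h hH)
      exact Fin.ext h1
    · rw [extW_stars hbN]
      have := hs.1.1.2
      omega
  have hcondH : ∀ x, CondH s x → CondH (extW s : Wd N b) x := by
    intro x hx C hC hCx
    obtain ⟨C', hC', rfl⟩ := extW_chain hbN hC
    rw [card_map, hfrH]
    refine hx C' hC' fun i hi => ?_
    have h1 := hCx _ (mem_map_of_mem _ hi)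
    have h3 : (extW s : Wd N b) (Fin.castLEEmb hbN i) = s i := extW_cast hbN s i
    rwa [h3] at h1
  refine ⟨⟨hgood, fun y C hC hCy => ?_, fun x hx => hcondH x (hs.1.2.2 x hx)⟩,
    hcondH (b + 1) hs.2⟩
  obtain ⟨C', hC', rfl⟩ := extW_chain hbN hC
  rw [card_map]
  refine (hs.1.2.1 y C' hC' fun i hi => ?_).trans (hfrP y)
  exact hCy _ (mem_map_of_mem _ hi)

/-- More pigeons. -/
theorem gs_mono {N b : ℕ} (hbN : b ≤ N) (x : ℕ) : gs b b x ≤ gs N b x := by
  classical
  unfold gs
  refine card_le_card_of_injOn (fun s => (extW s : Wd N b)) ?_ ?_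
  · intro s hs
    have h1 := (mem_filter.1 (mem_coe.1 hs)).2
    rw [mem_coe, mem_filter]
    refine ⟨mem_univ _, extW_std hbN h1.1, ?_, ?_⟩
    · rw [extW_stars hbN]
      exact h1.2.1
    · rw [extW_deg hbN]
      exact h1.2.2
  · intro s _ s' _ h
    funext i
    have h1 := congrFun h (Fin.castLE hbN i)
    simp only at h1
    rwa [extW_cast hbN s i, extW_cast hbN s' i] at h1

/-- PROOF. Sort by `x = b - deg s`. -/
theorem S0_eq {N b : ℕ} (hbN : b ≤ N) (D D' : ℕ) :
    S0 N b D D' = ∑ x ∈ (range (b + 1)).filter (fun x => D + x < N ∧ N ≤ D' + x), gs N b x := by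
  classical
  unfold S0
  rw [card_eq_sum_card_fiberwise (f := fun s => b - deg s)
    (t := (range (b + 1)).filter (fun x => D + x < N ∧ N ≤ D' + x))]
  · refine sum_congr rfl fun x hx => ?_
    unfold gs
    congr 1
    ext s
    rw [mem_filter, mem_filter, mem_filter]
    rw [mem_filter, mem_range] at hx
    constructor
    · rintro ⟨⟨-, h1, h2, h3, h4⟩, h5⟩
      have h6 := deg_le h1.1.1 h2
      exact ⟨mem_univ _, h1, h2, by omega⟩
    · rintro ⟨-, h1, h2, h3⟩
      exact ⟨⟨mem_univ _, h1, h2, by omega, by omega⟩, by omega⟩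
  · intro s hs
    have h1 := (mem_filter.1 (mem_coe.1 hs)).2
    have h2 := deg_le h1.1.1.1 h1.2.1
    rw [mem_coe, mem_filter, mem_range]
    show b - deg s < b + 1 ∧ D + (b - deg s) < N ∧ N ≤ D' + (b - deg s)
    obtain ⟨-, -, h3, h4⟩ := h1
    omega

/-- PROOF. `∑_{x ≤ b} gs b b x = #Std ≥ b!`, `gs b b x ≤ pi1 b x`, `∑_{x ≤ b} pi1 b x = b!`. -/
theorem pi1_le {N b : ℕ} (hbN : b ≤ N) (x : ℕ) : pi1 b x ≤ gs N b x := by
  classical
  refine le_trans ?_ (gs_mono hbN x)
  have hle : ∀ x, gs b b x ≤ pi1 b x := by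
    intro x
    have h1 := gs_le (N := b) (b := b) le_rfl x
    rwa [Nat.sub_self, pow_zero, one_mul] at h1
  by_cases hx : x ≤ b
  · -- the sum of the upper bounds
    have h1 : ∑ y ∈ range (b + 1), pi1 b y = b.factorial := by
      rw [← sum_sq b]
      unfold pi1
      rw [← sum_fiberwise_of_maps_to (s := Par b) (t := range (b + 1)) (g := fun l => l 0)]
      intro l hl
      exact mem_range.2 (Nat.lt_succ_of_le ((mem_Par.1 hl).le 0))
    -- the sum of the lower bounds
    have h2 : b.factorial ≤ ∑ y ∈ range (b + 1), gs b b y := by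
      have h3 : (univ.filter fun s : Wd b b => Std s).card = ∑ y ∈ range (b + 1), gs b b y := by
        rw [card_eq_sum_card_fiberwise (f := fun s => b - deg s) (t := range (b + 1))]
        · refine sum_congr rfl fun y _ => ?_
          unfold gs
          congr 1
          ext s
          rw [mem_filter, mem_filter, mem_filter]
          constructor
          · rintro ⟨⟨-, h4⟩, h5⟩
            have h0 : stars s = 0 := by
              have := h4.1.1.2
              omega
            have h6 := deg_le h4.1.1 h0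
            exact ⟨mem_univ _, h4, h0, by omega⟩
          · rintro ⟨-, h4, h5, h6⟩
            exact ⟨⟨mem_univ _, h4⟩, by omega⟩
        · intro s _
          rw [mem_coe, mem_range]
          show b - deg s < b + 1
          omega
      rw [← h3]
      have h4 : Module.finrank ℚ (Pt b b → ℚ) ≤ (univ.filter fun s : Wd b b => Std s).card := by
        have h5 : (⊤ : Submodule ℚ (Pt b b → ℚ)) =
            Submodule.span ℚ (((univ.filter fun s : Wd b b => Std s).image
              (fun s => mon ℚ s) : Finset (Pt b b → ℚ)) : Set (Pt b b → ℚ)) := by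
          rw [← FF_top, FF_eq_std]
          refine le_antisymm (Submodule.span_mono ?_) ?_
          · rintro _ ⟨t, ht, rfl⟩
            rw [coe_image]
            exact ⟨t, mem_coe.2 (mem_filter.2 ⟨mem_univ _, ht.1⟩), rfl⟩
          · rw [← FF_eq_std, FF_top]
            exact le_top
        rw [← finrank_top, h5]
        exact (finrank_span_finset_le_card _).trans card_image_le
      have : Fintype (Pt b b) := Fintype.ofFinite _
      rw [Module.finrank_fintype_fun_eq_card, ← Nat.card_eq_fintype_card, card_pt] at h4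
      exact h4
    have h3 := (sum_eq_sum_iff_of_le fun y (_ : y ∈ range (b + 1)) => hle y).1
      (le_antisymm (sum_le_sum fun y _ => hle y) (h1 ▸ h2)) x (mem_range.2 (by omega))
    exact h3.ge
  · have h1 : pi1 b x = 0 := by
      unfold pi1
      refine sum_eq_zero fun l hl => ?_
      have h2 := (mem_Par.1 (mem_filter.1 hl).1).le 0
      have h3 := (mem_filter.1 hl).2
      omega
    rw [h1]
    exact Nat.zero_le _

/-- PROOF. `badc_le` and the same sorting (`deg s ≤ D` means `b ≤ D + x`). -/
theorem badc_le_sum {N b : ℕ} (hbN : b ≤ N) (D : ℕ) :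
    badc N b D ≤ (N + 1) ^ (N - b) * ∑ x ∈ (range (b + 1)).filter (fun x => b ≤ D + x), gq N b x := by
  classical
  refine (badc_le hbN D).trans (Nat.mul_le_mul_left _ (le_of_eq ?_))
  unfold gbc
  rw [card_eq_sum_card_fiberwise (f := fun s => b - deg s)
    (t := (range (b + 1)).filter (fun x => b ≤ D + x))]
  · refine sum_congr rfl fun x hx => ?_
    unfold gq
    congr 1
    ext s
    rw [mem_filter, mem_filter, mem_filter]
    rw [mem_filter, mem_range] at hx
    constructor
    · rintro ⟨⟨-, h1, h2, h3, C, hC, hCb⟩, h5⟩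
      have h6 := deg_le h1.1.1 h2
      exact ⟨mem_univ _, h1, h2, by omega, C, hC, by omega⟩
    · rintro ⟨-, h1, h2, h3, C, hC, hCb⟩
      exact ⟨⟨mem_univ _, h1, h2, by omega, C, hC, by omega⟩, by omega⟩
  · intro s hs
    have h1 := (mem_filter.1 (mem_coe.1 hs)).2
    have h2 := deg_le h1.1.1.1 h1.2.1
    rw [mem_coe, mem_filter, mem_range]
    show b - deg s < b + 1 ∧ b ≤ D + (b - deg s)
    have h3 := h1.2.2.1
    omega

end Pool.Agent.MP_9cec2c_lc.PH
end

section

/-!
The graded world of the functions on a set of points of the cube.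
-/

set_option autoImplicit false
set_option linter.unusedSectionVars false

namespace Pool.Agent.MP_9cec2c_lc.GW

open Finset Frege

variable {K V Ω : Type} [Field K]

/-- Multiplication by the function on `Ω` which is `P` at the points `ρ w`. -/
def pullMul (K : Type) [Field K] {V Ω : Type} (ρ : Ω → V → Bool) :
    Fun K V →ₗ[K] (Ω → K) →ₗ[K] (Ω → K) :=
  LinearMap.mk₂ K (fun P f w => P (ρ w) * f w)
    (fun P Q f => by funext w; simp only [Pi.add_apply]; ring)
    (fun c P f => by funext w; simp only [Pi.smul_apply, smul_eq_mul]; ring)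
    (fun P f g => by funext w; simp only [Pi.add_apply]; ring)
    (fun c P f => by funext w; simp only [Pi.smul_apply, smul_eq_mul]; ring)

theorem pullMul_apply (ρ : Ω → V → Bool) (P : Fun K V) (f : Ω → K) :
    pullMul K ρ P f = (fun w => P (ρ w)) * f := rfl

/-- The functions of degree `e` on the cube become functions in `F e`. -/
theorem pull_mem {ρ : Ω → V → Bool} {F : ℕ → Submodule K (Ω → K)} (hF : Monotone F)
    (hone : (1 : Ω → K) ∈ F 0)
    (hmul : ∀ (a b : ℕ) (f g : Ω → K), f ∈ F a → g ∈ F b → f * g ∈ F (a + b))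
    (hvar : ∀ v : V, (fun w => if ρ w v = true then (1 : K) else 0) ∈ F 1) {e : ℕ} {P : Fun K V}
    (hP : P ∈ Pol K V e) : (fun w => P (ρ w)) ∈ F e := by
  classical
  have key : ∀ S : Finset V, (fun w => mon K S (ρ w)) ∈ F S.card := by
    intro S
    induction S using Finset.induction_on with
    | empty =>
      have h1 : (fun w => mon K (∅ : Finset V) (ρ w)) = (1 : Ω → K) := by
        funext w
        rw [mon_empty]
        rfl
      rw [h1, card_empty]
      exact hone
    | insert v S hv ih =>
      have h1 : (fun w => mon K (insert v S) (ρ w)) =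
          (fun w => if ρ w v = true then (1 : K) else 0) * fun w => mon K S (ρ w) := by
        funext w
        rw [Pi.mul_apply]
        unfold mon
        simp only [forall_mem_insert]
        by_cases h2 : ρ w v = true
        · simp [h2]
        · simp [h2]
      rw [h1, card_insert_of_notMem hv, add_comm]
      exact hmul _ _ _ _ (hvar v) ih
  unfold Pol at hP
  induction hP using Submodule.span_induction with
  | mem f hf =>
    obtain ⟨S, hS, rfl⟩ := hf
    exact hF hS (key S)
  | zero => exact Submodule.zero_mem _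
  | add f g _ _ hf hg => exact Submodule.add_mem _ hf hg
  | smul c f _ hf => exact Submodule.smul_mem _ c hf

/-- The graded world of the functions on a set of points of the cube. -/
theorem gworld_pull {ρ : Ω → V → Bool} {F Y : ℕ → Submodule K (Ω → K)} (hF : Monotone F)
    (hY : Monotone Y) (hle : ∀ a, Y a ≤ F a) (hone : (1 : Ω → K) ∈ F 0)
    (hmul : ∀ (a b : ℕ) (f g : Ω → K), f ∈ F a → g ∈ F b → f * g ∈ F (a + b))
    (hmulY : ∀ (a b : ℕ) (f g : Ω → K), f ∈ F a → g ∈ Y b → f * g ∈ Y (a + b))
    (hvar : ∀ v : V, (fun w => if ρ w v = true then (1 : K) else 0) ∈ F 1) (D : ℕ) :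
    GWorld (fun a => F (D + a)) (fun a => Y (D + a)) (pullMul K ρ) := by
  refine ⟨fun a b h => hF (Nat.add_le_add_left h D), fun a b h => hY (Nat.add_le_add_left h D),
    fun a => hle _, ?_, ?_, ?_, ?_⟩
  · intro f
    rw [pullMul_apply]
    exact one_mul f
  · intro P Q f
    rw [pullMul_apply, pullMul_apply, pullMul_apply, ← mul_assoc]
    rfl
  · intro a e P f hP hf
    rw [pullMul_apply]
    have h1 := hmul _ _ _ _ (pull_mem hF hone hmul hvar hP) hf
    have h2 : D + (a + e) = e + (D + a) := by omega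
    show _ ∈ F (D + (a + e))
    rw [h2]
    exact h1
  · intro a e P f hP hf
    rw [pullMul_apply]
    have h1 := hmulY _ _ _ _ (pull_mem hF hone hmul hvar hP) hf
    have h2 : D + (a + e) = e + (D + a) := by omega
    show _ ∈ Y (D + (a + e))
    rw [h2]
    exact h1

end Pool.Agent.MP_9cec2c_lc.GW
end
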