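import Mathlib

section

/-!
The parameters for the pigeonhole principle.
-/

set_option autoImplicit false

namespace Pool.Agent.MP_9cec2c_lc.PF

/-- The parameters: the height `A`, the number of stars `q = p ^ l` and the number of real
holes `b`. -/
theorem exists_params {p : ℕ} (hp : 2 ≤ p) {δ : ℝ} (hδ : 0 < δ) (hδ' : δ < 1 / 2) (K : ℝ)
    (hK : 0 < K) :
    ∃ c₀ : ℝ, 0 < c₀ ∧ ∃ m₀ : ℕ, ∀ m ≥ m₀, ∀ M : ℕ, m < M →
      (M : ℝ) ≤ m + (m : ℝ) ^ (1 / 2 - δ) →
      ∃ A l b : ℕ, 2 ≤ A ∧ (m : ℝ) ^ c₀ - 1 ≤ A ∧ A ≤ m ∧ 4 * A ^ 2 ≤ p ^ l ∧ b + p ^ l = M ∧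
        b ≤ m ∧ m ≤ 2 * b ∧
        K * ((p ^ l : ℕ) : ℝ) * Real.log (M + 1) ≤ Real.sqrt b / (A : ℝ) ^ 3 := by
  obtain ⟨ε, hε⟩ : ∃ ε : ℝ, ε = δ / 8 := ⟨_, rfl⟩
  obtain ⟨β, hβ⟩ : ∃ β : ℝ, β = 1 / 2 - δ / 2 := ⟨_, rfl⟩
  have hε0 : 0 < ε := by linarith
  have hβ0 : 0 < β := by linarith
  have hp0 : (0 : ℝ) < p := by
    have : 0 < p := by omega
    exact_mod_cast this
  have hp1 : (1 : ℝ) < p := by
    have : 1 < p := by omega
    exact_mod_cast this
  -- the conditions on `m`
  have e1 : ∀ᶠ x : ℝ in Filter.atTop, 4 * K * p * Real.log x ≤ x ^ (δ / 8) := by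
    have h1 := isLittleO_log_rpow_atTop (show (0 : ℝ) < δ / 8 by linarith)
    have h2 := h1.def (show (0 : ℝ) < 1 / (4 * K * p) by positivity)
    filter_upwards [h2, Filter.eventually_ge_atTop (1 : ℝ)] with x hx hx1
    rw [Real.norm_of_nonneg (Real.log_nonneg hx1), Real.norm_of_nonneg (by positivity)] at hx
    rw [div_mul_eq_mul_div, one_mul, le_div_iff₀ (by positivity)] at hx
    linarith
  have tend : ∀ {a : ℝ}, 0 < a → ∀ B : ℝ, ∀ᶠ x : ℝ in Filter.atTop, B ≤ x ^ a := by
    intro a ha B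
    exact (tendsto_rpow_atTop ha).eventually_ge_atTop B
  have e2 := tend (show (0 : ℝ) < 1 - β by linarith) (2 * p)
  have e3 := tend (show (0 : ℝ) < β - 2 * ε by linarith) 4
  have e4 := tend hε0 2
  obtain ⟨x₀, hx₀⟩ := Filter.eventually_atTop.1
    (e1.and (e2.and (e3.and (e4.and (Filter.eventually_ge_atTop (3 : ℝ))))))
  refine ⟨ε, hε0, ⌈x₀⌉₊, fun m hm M hM hM' => ?_⟩
  obtain ⟨h1, h2, h3, hmε2, h4⟩ := hx₀ m ((Nat.le_ceil _).trans (by exact_mod_cast hm))
  have hm1 : (1 : ℝ) ≤ m := by linarith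
  have hm0 : (0 : ℝ) < m := by linarith
  have hmβ : (1 : ℝ) ≤ (m : ℝ) ^ β := Real.one_le_rpow hm1 hβ0.le
  obtain ⟨A, hA⟩ : ∃ A : ℕ, A = ⌊(m : ℝ) ^ ε⌋₊ := ⟨_, rfl⟩
  have hA1 : 2 ≤ A := by
    rw [hA]
    exact Nat.le_floor (by exact_mod_cast hmε2)
  have hA2 : (A : ℝ) ≤ (m : ℝ) ^ ε := by
    rw [hA]
    exact Nat.floor_le (by positivity)
  have hA3 : (m : ℝ) ^ ε - 1 ≤ A := by
    have := Nat.lt_floor_add_one ((m : ℝ) ^ ε)
    rw [← hA] at this
    linarith
  have hA4 : A ≤ m := by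
    have h5 : (m : ℝ) ^ ε ≤ (m : ℝ) ^ (1 : ℝ) :=
      Real.rpow_le_rpow_of_exponent_le hm1 (by linarith)
    rw [Real.rpow_one] at h5
    exact_mod_cast hA2.trans h5
  obtain ⟨n, hn1, hn2⟩ := exists_nat_pow_near hmβ hp1
  obtain ⟨q, hq⟩ : ∃ q : ℕ, q = p ^ (n + 1) := ⟨_, rfl⟩
  have hq1 : (m : ℝ) ^ β ≤ q := by
    rw [hq]
    push_cast
    exact hn2.le
  have hq2 : (q : ℝ) ≤ p * (m : ℝ) ^ β := by
    rw [hq]
    push_cast
    rw [pow_succ']
    exact mul_le_mul_of_nonneg_left hn1 hp0.le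
  have hq3 : (q : ℝ) ≤ m / 2 := by
    refine hq2.trans ?_
    rw [le_div_iff₀ (by norm_num)]
    calc (p : ℝ) * (m : ℝ) ^ β * 2 = 2 * p * (m : ℝ) ^ β := by ring
      _ ≤ (m : ℝ) ^ (1 - β) * (m : ℝ) ^ β := mul_le_mul_of_nonneg_right h2 (by positivity)
      _ = m := by
        rw [← Real.rpow_add hm0]
        simp
  have hMr : (m : ℝ) < M := by exact_mod_cast hM
  have hqM : q ≤ M := by
    have : (q : ℝ) ≤ M := by linarith
    exact_mod_cast this
  obtain ⟨b, hb⟩ : ∃ b : ℕ, b = M - q := ⟨_, rfl⟩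
  have hbM : b + q = M := by omega
  have hbr : (b : ℝ) = M - q := by
    have : ((b + q : ℕ) : ℝ) = M := by rw [hbM]
    push_cast at this
    linarith
  have hexp : (m : ℝ) ^ (1 / 2 - δ) ≤ (m : ℝ) ^ β :=
    Real.rpow_le_rpow_of_exponent_le hm1 (by linarith)
  have hbm : b ≤ m := by
    have : (b : ℝ) ≤ m := by
      rw [hbr]
      linarith
    exact_mod_cast this
  have hmb : m ≤ 2 * b := by
    have : (m : ℝ) ≤ 2 * b := by
      rw [hbr]
      linarith
    exact_mod_cast this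
  refine ⟨A, n + 1, b, hA1, hA3, hA4, ?_, ?_, hbm, hmb, ?_⟩
  · rw [← hq]
    have h5 : (4 : ℝ) * (A : ℝ) ^ 2 ≤ q := by
      refine le_trans ?_ hq1
      have h6 : (A : ℝ) ^ 2 ≤ (m : ℝ) ^ (2 * ε) := by
        calc (A : ℝ) ^ 2 ≤ ((m : ℝ) ^ ε) ^ 2 := pow_le_pow_left₀ (by positivity) hA2 2
          _ = (m : ℝ) ^ (2 * ε) := by
            rw [← Real.rpow_natCast, ← Real.rpow_mul hm0.le]
            congr 1
            push_cast
            ring
      calc (4 : ℝ) * (A : ℝ) ^ 2 ≤ (m : ℝ) ^ (β - 2 * ε) * (m : ℝ) ^ (2 * ε) :=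
            mul_le_mul h3 h6 (by positivity) (by positivity)
        _ = (m : ℝ) ^ β := by
          rw [← Real.rpow_add hm0]
          congr 1
          ring
    exact_mod_cast h5
  · rw [← hq]
    exact hbM
  · rw [← hq]
    have hA0 : (0 : ℝ) < A := by exact_mod_cast (show 0 < A by omega)
    rw [le_div_iff₀ (by positivity)]
    have h5 : Real.log (M + 1) ≤ 2 * Real.log m := by
      have h6 : (M : ℝ) + 1 ≤ (m : ℝ) ^ 2 := by
        have h7 : (m : ℝ) ^ β ≤ m := by linarith
        nlinarith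
      calc Real.log (M + 1) ≤ Real.log ((m : ℝ) ^ 2) := Real.log_le_log (by positivity) h6
        _ = 2 * Real.log m := by
          rw [Real.log_pow]
          push_cast
          ring
    have h6 : (A : ℝ) ^ 3 ≤ (m : ℝ) ^ (3 * ε) := by
      calc (A : ℝ) ^ 3 ≤ ((m : ℝ) ^ ε) ^ 3 := pow_le_pow_left₀ (by positivity) hA2 3
        _ = (m : ℝ) ^ (3 * ε) := by
          rw [← Real.rpow_natCast, ← Real.rpow_mul hm0.le]
          congr 1
          push_cast
          ring
    have hlog : 0 ≤ Real.log m := Real.log_nonneg hm1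
    have h7 : (m : ℝ) ^ (1 / 2 : ℝ) / 2 ≤ Real.sqrt b := by
      rw [← Real.sqrt_eq_rpow]
      have h8 : Real.sqrt m / 2 = Real.sqrt (m / 4) := by
        rw [Real.sqrt_div (by positivity), show (4 : ℝ) = 2 ^ 2 by norm_num,
          Real.sqrt_sq (by norm_num)]
      rw [h8]
      apply Real.sqrt_le_sqrt
      have : (m : ℝ) ≤ 2 * b := by exact_mod_cast hmb
      linarith
    have h8 : K * (q : ℝ) * Real.log (M + 1) * (A : ℝ) ^ 3 ≤
        K * (p * (m : ℝ) ^ β) * (2 * Real.log m) * (m : ℝ) ^ (3 * ε) := by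
      have h9 : 0 ≤ Real.log (M + 1) := Real.log_nonneg (by linarith)
      gcongr
    refine h8.trans (le_trans ?_ h7)
    have h9 : K * (p * (m : ℝ) ^ β) * (2 * Real.log m) * (m : ℝ) ^ (3 * ε) =
        (4 * K * p * Real.log m) * ((m : ℝ) ^ β * (m : ℝ) ^ (3 * ε)) / 2 := by ring
    rw [h9]
    have h10 : (4 * K * p * Real.log m) * ((m : ℝ) ^ β * (m : ℝ) ^ (3 * ε)) ≤
        (m : ℝ) ^ (δ / 8) * ((m : ℝ) ^ β * (m : ℝ) ^ (3 * ε)) :=
      mul_le_mul_of_nonneg_right h1 (by positivity)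
    have h11 : (m : ℝ) ^ (δ / 8) * ((m : ℝ) ^ β * (m : ℝ) ^ (3 * ε)) = (m : ℝ) ^ (1 / 2 : ℝ) := by
      rw [← Real.rpow_add hm0, ← Real.rpow_add hm0]
      congr 1
      rw [hε, hβ]
      ring
    linarith

end Pool.Agent.MP_9cec2c_lc.PF
end

section

/-!
Random restrictions for the pigeonhole principle with many pigeons, given by a permutation of the
pigeons and a permutation of the holes: `k` blocks with `N` pigeons and `n` holes each, and `s`
pairs of a pigeon and a hole outside the blocks.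
-/

set_option autoImplicit false
set_option linter.unusedSectionVars false

namespace Pool.Agent.MP_9cec2c_lc.RF

open Finset

variable {M m : ℕ}

/-- A set of pairs in which no pigeon and no hole occurs in two different pairs. -/
def IsMat (ρ : Finset (Fin M × Fin m)) : Prop :=
  ∀ e ∈ ρ, ∀ e' ∈ ρ, (e.1 = e'.1 ∨ e.2 = e'.2) → e = e'

/-- Clauses over the variables `(i, j)`: the pigeon `i` sits in the hole `j`. -/
abbrev Cl (M m : ℕ) : Type := List ((Fin M × Fin m) × Bool)

/-- A permutation of the pigeons and a permutation of the holes. -/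
abbrev Om (M m : ℕ) : Type := Equiv.Perm (Fin M) × Equiv.Perm (Fin m)

/-- The pair `e` is fixed. -/
def Fx (N n k : ℕ) (ω : Om M m) (e : Fin M × Fin m) : Prop :=
  k * N ≤ (ω.1 e.1).val ∧ k * n ≤ (ω.2 e.2).val ∧ (ω.1 e.1).val - k * N = (ω.2 e.2).val - k * n

/-- The pair `e` lies in a block. -/
def Lv (N n k : ℕ) (ω : Om M m) (e : Fin M × Fin m) : Prop :=
  (ω.1 e.1).val < k * N ∧ (ω.2 e.2).val < k * n ∧ (ω.1 e.1).val / N = (ω.2 e.2).val / n

/-- The negated variables of a clause. -/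
def negs (D : Cl M m) : Finset (Fin M × Fin m) := univ.filter fun e => (e, false) ∈ D

theorem mem_negs {D : Cl M m} {e : Fin M × Fin m} : e ∈ negs D ↔ (e, false) ∈ D := by
  unfold negs
  rw [mem_filter]
  exact ⟨fun h => h.2, fun h => ⟨mem_univ _, h⟩⟩

/-- The clause `D` holds when the pairs in `F` are true and the pairs outside `F` and `G` are
false, or it follows from the properties of matchings. -/
def Hd (F G : Fin M × Fin m → Prop) (D : Cl M m) : Prop :=
  (∃ e, F e ∧ (e, true) ∈ D) ∨ (∃ e, ¬ F e ∧ ¬ G e ∧ (e, false) ∈ D) ∨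
    (∃ e, (e, true) ∈ D ∧ (e, false) ∈ D) ∨ ¬ IsMat (negs D)

/-- The clause holds under the restriction. -/
def Ok (N n k : ℕ) (ω : Om M m) (D : Cl M m) : Prop := Hd (Fx N n k ω) (Lv N n k ω) D

open Classical in
/-- The assignment in which the fixed pairs are true. -/
noncomputable def asg (N n k : ℕ) (ω : Om M m) : Fin M × Fin m → Bool := fun e =>
  decide (Fx N n k ω e)

variable {N n k : ℕ}

/-- A clause that is true but not ok contains a negated variable in a block. -/
theorem exists_live {ω : Om M m} {D : Cl M m} (h : ¬ Ok N n k ω D)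
    (ht : ∃ l ∈ D, asg N n k ω l.1 = l.2) : ∃ e ∈ negs D, Lv N n k ω e := by
  classical
  obtain ⟨⟨e, b⟩, h1, h2⟩ := ht
  have h3 : decide (Fx N n k ω e) = b := h2
  cases b
  · refine ⟨e, mem_negs.2 h1, ?_⟩
    by_contra h4
    exact h (Or.inr (Or.inl ⟨e, of_decide_eq_false h3, h4, h1⟩))
  · exact absurd (Or.inl ⟨e, of_decide_eq_true h3, h1⟩) h

/-! ### One more fixed pair -/

/-- The positions in the blocks. -/
structure Mk (M m N n k : ℕ) : Type where
  P : Fin M
  H : Fin m
  hP : P.val < k * N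
  hH : H.val < k * n
  hb : P.val / N = H.val / n

theorem Mk.ext' {μ μ' : Mk M m N n k} (h : μ.P = μ'.P) (h' : μ.H = μ'.H) : μ = μ' := by
  cases μ
  cases μ'
  simp only at h h'
  subst h
  subst h'
  rfl

/-- The pair at the marked position. -/
def at' (ω : Om M m) (μ : Mk M m N n k) : Fin M × Fin m := (ω.1.symm μ.P, ω.2.symm μ.H)

/-- The pair is fixed or at the marked position. -/
def FxP (ω : Om M m) (μ : Mk M m N n k) (e : Fin M × Fin m) : Prop :=
  Fx N n k ω e ∨ e = at' ω μ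

/-- The pair lies in a block and has no pigeon or hole in common with the marked pair. -/
def LvP (ω : Om M m) (μ : Mk M m N n k) (e : Fin M × Fin m) : Prop :=
  Lv N n k ω e ∧ e.1 ≠ (at' ω μ).1 ∧ e.2 ≠ (at' ω μ).2

open Classical in
/-- The first clause that does not hold. -/
noncomputable def fst (Δ : List (Cl M m)) (F G : Fin M × Fin m → Prop) : Option (Cl M m) :=
  Δ.find? fun D => ¬ Hd F G D

theorem fst_congr {Δ : List (Cl M m)} {F G F' G' : Fin M × Fin m → Prop}
    (hF : ∀ e, F e ↔ F' e) (hG : ∀ e, G e ↔ G' e) : fst Δ F G = fst Δ F' G' := by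
  have h1 : F = F' := funext fun e => propext (hF e)
  have h2 : G = G' := funext fun e => propext (hG e)
  rw [h1, h2]

/-- The first clause that does not hold is still the first when the negated pair is made true. -/
theorem fst_mark {Δ : List (Cl M m)} {ω : Om M m} {D : Cl M m}
    (h : fst Δ (Fx N n k ω) (Lv N n k ω) = some D) {μ : Mk M m N n k}
    (he : at' ω μ ∈ negs D) : fst Δ (FxP ω μ) (LvP ω μ) = some D := by
  classical
  unfold fst at h ⊢
  rw [List.find?_eq_some_iff_append] at h ⊢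
  obtain ⟨h1, as, bs, h2, h3⟩ := h
  refine ⟨?_, as, bs, h2, fun a ha => ?_⟩
  · rw [decide_eq_true_eq] at h1 ⊢
    rintro (⟨e, h4, h5⟩ | ⟨e, h4, h5, h6⟩ | h4 | h4)
    · rcases h4 with h4 | rfl
      · exact h1 (Or.inl ⟨e, h4, h5⟩)
      · exact h1 (Or.inr (Or.inr (Or.inl ⟨_, h5, mem_negs.1 he⟩)))
    · have h7 : ¬ Fx N n k ω e := fun h => h4 (Or.inl h)
      have h8 : e ≠ at' ω μ := fun h => h4 (Or.inr h)
      by_cases h9 : Lv N n k ω e
      · have h10 : (at' ω μ).1 = e.1 ∨ (at' ω μ).2 = e.2 := by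
          by_contra h11
          push Not at h11
          exact h5 ⟨h9, fun h => h11.1 h.symm, fun h => h11.2 h.symm⟩
        refine h1 (Or.inr (Or.inr (Or.inr fun h11 => h8 ?_)))
        exact (h11 _ he e (mem_negs.2 h6) h10).symm
      · exact h1 (Or.inr (Or.inl ⟨e, h7, h9, h6⟩))
    · exact h1 (Or.inr (Or.inr (Or.inl h4)))
    · exact h1 (Or.inr (Or.inr (Or.inr h4)))
  · have h4 := h3 a ha
    simp only [Bool.not_eq_true', decide_eq_false_iff_not, not_not] at h4 ⊢
    rcases h4 with ⟨e, h4, h5⟩ | ⟨e, h4, h5, h6⟩ | h4 | h4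
    · exact Or.inl ⟨e, Or.inl h4, h5⟩
    · refine Or.inr (Or.inl ⟨e, ?_, fun h => h5 h.1, h6⟩)
      rintro (h7 | h7)
      · exact h4 h7
      · refine h5 ?_
        rw [h7]
        unfold at' Lv
        simp only [Equiv.apply_symm_apply]
        exact ⟨μ.hP, μ.hH, μ.hb⟩
    · exact Or.inr (Or.inr (Or.inl h4))
    · exact Or.inr (Or.inr (Or.inr h4))

/-- Exchange the marked pair with the fixed pair with number `r`. -/
def sw {s : ℕ} (hM : M = k * N + s) (hm : m = k * n + s) (μ : Mk M m N n k) (r : Fin s)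
    (ω : Om M m) : Om M m :=
  (ω.1.trans (Equiv.swap μ.P ⟨k * N + r.val, by have := r.isLt; omega⟩),
    ω.2.trans (Equiv.swap μ.H ⟨k * n + r.val, by have := r.isLt; omega⟩))

theorem sw_sw {s : ℕ} (hM : M = k * N + s) (hm : m = k * n + s) (μ : Mk M m N n k) (r : Fin s)
    (ω : Om M m) : sw hM hm μ r (sw hM hm μ r ω) = ω := by
  unfold sw
  refine Prod.ext ?_ ?_
  · simp only [Equiv.trans_assoc, Equiv.swap_swap, Equiv.trans_refl]
  · simp only [Equiv.trans_assoc, Equiv.swap_swap, Equiv.trans_refl]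

/-- The fixed pair with number `r`. -/
def fp {s : ℕ} (hM : M = k * N + s) (hm : m = k * n + s) (ω : Om M m) (r : Fin s) :
    Fin M × Fin m :=
  (ω.1.symm ⟨k * N + r.val, by have := r.isLt; omega⟩,
    ω.2.symm ⟨k * n + r.val, by have := r.isLt; omega⟩)

theorem fx_iff {s : ℕ} (hM : M = k * N + s) (hm : m = k * n + s) (ω : Om M m)
    (e : Fin M × Fin m) : Fx N n k ω e ↔ ∃ r, e = fp hM hm ω r := by
  constructor
  · rintro ⟨h1, h2, h3⟩
    have h4 := (ω.1 e.1).isLt
    refine ⟨⟨(ω.1 e.1).val - k * N, by omega⟩, ?_⟩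
    unfold fp
    refine Prod.ext ?_ ?_
    · simp only
      rw [Equiv.eq_symm_apply]
      exact Fin.ext (by simp only; omega)
    · simp only
      rw [Equiv.eq_symm_apply]
      exact Fin.ext (by simp only; omega)
  · rintro ⟨r, rfl⟩
    unfold Fx fp
    simp only [Equiv.apply_symm_apply]
    omega

theorem fp_sw_same {s : ℕ} (hM : M = k * N + s) (hm : m = k * n + s) (μ : Mk M m N n k)
    (r : Fin s) (ω : Om M m) : fp hM hm (sw hM hm μ r ω) r = at' ω μ := by
  unfold fp sw at'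
  simp only [Equiv.symm_trans_apply, Equiv.symm_swap, Equiv.swap_apply_right]

theorem at_sw {s : ℕ} (hM : M = k * N + s) (hm : m = k * n + s) (μ : Mk M m N n k)
    (r : Fin s) (ω : Om M m) : at' (sw hM hm μ r ω) μ = fp hM hm ω r := by
  unfold fp sw at'
  simp only [Equiv.symm_trans_apply, Equiv.symm_swap, Equiv.swap_apply_left]

theorem fp_sw_ne {s : ℕ} (hM : M = k * N + s) (hm : m = k * n + s) (μ : Mk M m N n k)
    {r r' : Fin s} (h : r' ≠ r) (ω : Om M m) :
    fp hM hm (sw hM hm μ r ω) r' = fp hM hm ω r' := by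
  have h1 := μ.hP
  have h2 := μ.hH
  have h3 : r'.val ≠ r.val := fun h' => h (Fin.ext h')
  unfold fp sw
  simp only [Equiv.symm_trans_apply, Equiv.symm_swap]
  refine Prod.ext ?_ ?_
  · simp only
    rw [Equiv.swap_apply_of_ne_of_ne]
    · intro h'
      have := congrArg Fin.val h'
      simp only at this
      omega
    · intro h'
      have := congrArg Fin.val h'
      simp only at this
      omega
  · simp only
    rw [Equiv.swap_apply_of_ne_of_ne]
    · intro h'
      have := congrArg Fin.val h'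
      simp only at this
      omega
    · intro h'
      have := congrArg Fin.val h'
      simp only at this
      omega

theorem fxP_sw {s : ℕ} (hM : M = k * N + s) (hm : m = k * n + s) (μ : Mk M m N n k)
    (r : Fin s) (ω : Om M m) (e : Fin M × Fin m) :
    FxP (sw hM hm μ r ω) μ e ↔ FxP ω μ e := by
  unfold FxP
  rw [fx_iff hM hm, fx_iff hM hm, at_sw]
  constructor
  · rintro (⟨r', rfl⟩ | rfl)
    · by_cases h : r' = r
      · rw [h, fp_sw_same]
        exact Or.inr rfl
      · rw [fp_sw_ne hM hm μ h]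
        exact Or.inl ⟨r', rfl⟩
    · exact Or.inl ⟨r, rfl⟩
  · rintro (⟨r', rfl⟩ | rfl)
    · by_cases h : r' = r
      · rw [h]
        exact Or.inr rfl
      · exact Or.inl ⟨r', by rw [fp_sw_ne hM hm μ h]⟩
    · exact Or.inl ⟨r, by rw [fp_sw_same]⟩

theorem lvP_iff (ω : Om M m) (μ : Mk M m N n k) (e : Fin M × Fin m) : LvP ω μ e ↔
    Lv N n k ω e ∧ ω.1 e.1 ≠ μ.P ∧ ω.2 e.2 ≠ μ.H := by
  unfold LvP at'
  simp only [ne_eq, Equiv.eq_symm_apply]

theorem lvP_sw_imp {s : ℕ} (hM : M = k * N + s) (hm : m = k * n + s) (μ : Mk M m N n k)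
    (r : Fin s) (ω : Om M m) (e : Fin M × Fin m) (h : LvP ω μ e) :
    LvP (sw hM hm μ r ω) μ e := by
  rw [lvP_iff] at h ⊢
  obtain ⟨⟨h1, h2, h3⟩, h4, h5⟩ := h
  have e1 : (sw hM hm μ r ω).1 e.1 = ω.1 e.1 := by
    unfold sw
    simp only [Equiv.trans_apply]
    refine Equiv.swap_apply_of_ne_of_ne h4 ?_
    intro h'
    have := congrArg Fin.val h'
    simp only at this
    omega
  have e2 : (sw hM hm μ r ω).2 e.2 = ω.2 e.2 := by
    unfold sw
    simp only [Equiv.trans_apply]
    refine Equiv.swap_apply_of_ne_of_ne h5 ?_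
    intro h'
    have := congrArg Fin.val h'
    simp only at this
    omega
  unfold Lv
  rw [e1, e2]
  exact ⟨⟨h1, h2, h3⟩, h4, h5⟩

theorem lvP_sw {s : ℕ} (hM : M = k * N + s) (hm : m = k * n + s) (μ : Mk M m N n k)
    (r : Fin s) (ω : Om M m) (e : Fin M × Fin m) :
    LvP (sw hM hm μ r ω) μ e ↔ LvP ω μ e := by
  constructor
  · intro h
    have h1 := lvP_sw_imp hM hm μ r _ e h
    rwa [sw_sw] at h1
  · exact lvP_sw_imp hM hm μ r ω e

/-- The number of positions in the blocks. -/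
theorem card_mk (T : Finset (Fin M × Fin m)) (hT : ∀ a ∈ T, a.1.val < k * N ∧ a.2.val < k * n ∧
    a.1.val / N = a.2.val / n) : T.card ≤ k * N * n := by
  classical
  have h1 : T.card ≤ (range (k * N) ×ˢ range n).card := by
    refine card_le_card_of_injOn (fun a => (a.1.val, a.2.val % n)) ?_ ?_
    · intro a ha
      obtain ⟨h1, h2, -⟩ := hT a ha
      have hn : 0 < n := Nat.pos_of_mul_pos_left (lt_of_le_of_lt (Nat.zero_le _) h2)
      rw [mem_coe, mem_product, mem_range, mem_range]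
      exact ⟨h1, Nat.mod_lt _ hn⟩
    · intro a ha a' ha' h
      obtain ⟨h1, h2⟩ : a.1.val = a'.1.val ∧ a.2.val % n = a'.2.val % n := Prod.ext_iff.1 h
      obtain ⟨-, -, h3⟩ := hT a ha
      obtain ⟨-, -, h3'⟩ := hT a' ha'
      have h4 := Nat.div_add_mod a.2.val n
      have h5 := Nat.div_add_mod a'.2.val n
      rw [← h3, h1, h3', h2] at h4
      exact Prod.ext (Fin.ext h1) (Fin.ext (by omega))
  rwa [card_product, card_range, card_range] at h1

/-- The restrictions which satisfy all clauses as assignments but not as restrictions, for a reason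
that is a narrow clause, are rare. -/
theorem card_bad {s w : ℕ} (hM : M = k * N + s) (hm : m = k * n + s) (Δ : List (Cl M m))
    (X : Finset (Om M m)) (hX : ∀ ω ∈ X, (∀ D ∈ Δ, ∃ l ∈ D, asg N n k ω l.1 = l.2) ∧
      (∃ D ∈ Δ, ¬ Ok N n k ω D) ∧ ∀ D ∈ Δ, w < (negs D).card → Ok N n k ω D) :
    (s + 1) * X.card ≤ w * (k * N * n) * Fintype.card (Om M m) := by
  classical
  have key : ∀ ω ∈ X, ∃ (μ : Mk M m N n k) (D : Cl M m),
      fst Δ (Fx N n k ω) (Lv N n k ω) = some D ∧ at' ω μ ∈ negs D ∧ (negs D).card ≤ w := by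
    intro ω hω
    obtain ⟨h2, ⟨D, h3, h4⟩, h5⟩ := hX ω hω
    obtain ⟨D₀, hD₀⟩ : ∃ D₀, fst Δ (Fx N n k ω) (Lv N n k ω) = some D₀ := by
      rw [← Option.isSome_iff_exists]
      unfold fst
      rw [List.find?_isSome]
      exact ⟨D, h3, decide_eq_true h4⟩
    have h6 : D₀ ∈ Δ := List.mem_of_find?_eq_some hD₀
    have h7 : ¬ Ok N n k ω D₀ := of_decide_eq_true
      (List.find?_some (p := fun D => decide ¬ Hd (Fx N n k ω) (Lv N n k ω) D) hD₀)
    obtain ⟨e, h8, h9, h10, h11⟩ := exists_live h7 (h2 D₀ h6)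
    refine ⟨⟨ω.1 e.1, ω.2 e.2, h9, h10, h11⟩, D₀, hD₀, ?_, ?_⟩
    · unfold at'
      simp only [Equiv.symm_apply_apply]
      exact h8
    · by_contra hcon
      exact h7 (h5 D₀ h6 (not_le.1 hcon))
  rcases X.eq_empty_or_nonempty with h0 | ⟨ω₀, hω₀⟩
  · rw [h0, card_empty, mul_zero]
    exact Nat.zero_le _
  have hne : Nonempty (Mk M m N n k) := ⟨(key ω₀ hω₀).choose⟩
  choose! f g hf using key
  -- the targets
  obtain ⟨c, hc⟩ : ∃ c : Om M m → Mk M m N n k → Finset (Fin M × Fin m),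
      c = fun ω μ => ((fst Δ (FxP ω μ) (LvP ω μ)).map negs).getD ∅ := ⟨_, rfl⟩
  obtain ⟨B, hB⟩ : ∃ B : Finset ((Fin M × Fin m) × Om M m × (Fin M × Fin m)),
      B = univ.filter fun a => (a.1.1.val < k * N ∧ a.1.2.val < k * n ∧
        a.1.1.val / N = a.1.2.val / n) ∧ ∀ μ : Mk M m N n k, μ.P = a.1.1 → μ.H = a.1.2 →
          a.2.2 ∈ c a.2.1 μ ∧ (c a.2.1 μ).card ≤ w := ⟨_, rfl⟩
  have hBc : B.card ≤ w * (k * N * n) * Fintype.card (Om M m) := by
    have h1 : B.card ≤ ∑ a : Fin M × Fin m, ∑ ω : Om M m,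
        if a.1.val < k * N ∧ a.2.val < k * n ∧ a.1.val / N = a.2.val / n then w else 0 := by
      rw [hB, card_filter, Fintype.sum_prod_type]
      refine sum_le_sum fun a _ => ?_
      rw [Fintype.sum_prod_type]
      refine sum_le_sum fun ω _ => ?_
      by_cases h2 : a.1.val < k * N ∧ a.2.val < k * n ∧ a.1.val / N = a.2.val / n
      · rw [if_pos h2, ← card_filter]
        obtain ⟨μ, hμP, hμH⟩ : ∃ μ : Mk M m N n k, μ.P = a.1 ∧ μ.H = a.2 :=
          ⟨⟨a.1, a.2, h2.1, h2.2.1, h2.2.2⟩, rfl, rfl⟩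
        by_cases h3 : (c ω μ).card ≤ w
        · refine (card_le_card (t := c ω μ) fun e he => ?_).trans h3
          exact ((mem_filter.1 he).2.2 μ hμP hμH).1
        · have h4 : univ.filter (fun e : Fin M × Fin m => (a.1.val < k * N ∧ a.2.val < k * n ∧
              a.1.val / N = a.2.val / n) ∧ ∀ μ : Mk M m N n k, μ.P = a.1 → μ.H = a.2 →
                e ∈ c ω μ ∧ (c ω μ).card ≤ w) = ∅ :=
            filter_false_of_mem fun e _ h => h3 (h.2 μ hμP hμH).2
          rw [h4, card_empty]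
          exact Nat.zero_le w
      · rw [if_neg h2]
        refine le_of_eq (sum_eq_zero fun e _ => if_neg fun h => h2 h.1)
    refine h1.trans ?_
    have h2 : ∀ a : Fin M × Fin m, (∑ _ω : Om M m,
        if a.1.val < k * N ∧ a.2.val < k * n ∧ a.1.val / N = a.2.val / n then w else 0) =
        (if a.1.val < k * N ∧ a.2.val < k * n ∧ a.1.val / N = a.2.val / n then 1 else 0) *
          (w * Fintype.card (Om M m)) := by
      intro a
      rw [sum_const, card_univ, smul_eq_mul]
      split_ifs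
      · ring
      · ring
    rw [sum_congr rfl fun a _ => h2 a, ← sum_mul, ← card_filter]
    have h3 := card_mk (N := N) (n := n) (k := k) (univ.filter fun a : Fin M × Fin m =>
      a.1.val < k * N ∧ a.2.val < k * n ∧ a.1.val / N = a.2.val / n)
      fun a ha => (mem_filter.1 ha).2
    calc _ ≤ k * N * n * (w * Fintype.card (Om M m)) := Nat.mul_le_mul_right _ h3
      _ = w * (k * N * n) * Fintype.card (Om M m) := by ring
  refine le_trans ?_ hBc
  have h1 : (s + 1) * X.card = (X ×ˢ (univ : Finset (Option (Fin s)))).card := by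
    rw [card_product, card_univ, Fintype.card_option, Fintype.card_fin, mul_comm]
  rw [h1]
  obtain ⟨ψ, hψ⟩ : ∃ ψ : Om M m × Option (Fin s) → Om M m, ψ = fun a =>
      match a.2 with
      | none => a.1
      | some r => sw hM hm (f a.1) r a.1 := ⟨_, rfl⟩
  have hψn : ∀ ω, ψ (ω, none) = ω := fun ω => by rw [hψ]
  have hψs : ∀ ω r, ψ (ω, some r) = sw hM hm (f ω) r ω := fun ω r => by rw [hψ]
  have hinv : ∀ ω o, (∀ e, FxP (ψ (ω, o)) (f ω) e ↔ FxP ω (f ω) e) ∧
      ∀ e, LvP (ψ (ω, o)) (f ω) e ↔ LvP ω (f ω) e := by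
    intro ω o
    cases o with
    | none =>
      rw [hψn]
      exact ⟨fun _ => Iff.rfl, fun _ => Iff.rfl⟩
    | some r =>
      rw [hψs]
      exact ⟨fxP_sw hM hm (f ω) r ω, lvP_sw hM hm (f ω) r ω⟩
  refine card_le_card_of_injOn (fun a => ((((f a.1).P, (f a.1).H)), ψ a, at' a.1 (f a.1))) ?_ ?_
  · rintro ⟨ω, o⟩ ha
    rw [mem_coe, mem_product] at ha
    obtain ⟨h2, h3, h4⟩ := hf ω ha.1
    rw [mem_coe, hB, mem_filter]
    refine ⟨mem_univ _, ⟨(f ω).hP, (f ω).hH, (f ω).hb⟩, fun μ hμ hμ' => ?_⟩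
    have h5 : μ = f ω := Mk.ext' hμ hμ'
    rw [h5]
    have h6 : c (ψ (ω, o)) (f ω) = negs (g ω) := by
      rw [hc]
      simp only
      rw [fst_congr (hinv ω o).1 (hinv ω o).2, fst_mark h2 h3]
      rfl
    show at' ω (f ω) ∈ c (ψ (ω, o)) (f ω) ∧ (c (ψ (ω, o)) (f ω)).card ≤ w
    rw [h6]
    exact ⟨h3, h4⟩
  · rintro ⟨ω, o⟩ ha ⟨ω', o'⟩ ha' h
    have e1 : (f ω).P = (f ω').P := congrArg (fun a => a.1.1) h
    have e2 : (f ω).H = (f ω').H := congrArg (fun a => a.1.2) h
    have e3 : ψ (ω, o) = ψ (ω', o') := congrArg (fun a => a.2.1) h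
    have e4 : at' ω (f ω) = at' ω' (f ω') := congrArg (fun a => a.2.2) h
    have e5 : f ω = f ω' := Mk.ext' e1 e2
    -- the pair at the fixed position is not the pair at the mark
    have hne : ∀ (ω : Om M m) (μ : Mk M m N n k) (r : Fin s), fp hM hm ω r ≠ at' ω μ := by
      intro ω μ r h
      have h1 : Fx N n k ω (at' ω μ) := (fx_iff hM hm ω _).2 ⟨r, h.symm⟩
      have h2 := h1.1
      unfold at' at h2
      simp only [Equiv.apply_symm_apply] at h2
      exact absurd μ.hP (not_lt.2 h2)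
    have hfpinj : ∀ (ω : Om M m) (r r' : Fin s), fp hM hm ω r = fp hM hm ω r' → r = r' := by
      intro ω r r' h
      have h1 := congrArg Prod.fst h
      unfold fp at h1
      simp only [EmbeddingLike.apply_eq_iff_eq, Fin.mk.injEq] at h1
      exact Fin.ext (by omega)
    cases o with
    | none =>
      cases o' with
      | none =>
        rw [hψn, hψn] at e3
        rw [e3]
      | some r' =>
        rw [hψn, hψs] at e3
        exfalso
        have h2 := fp_sw_same hM hm (f ω') r' ω'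
        rw [← e3, ← e4] at h2
        exact hne ω (f ω) r' h2
    | some r =>
      cases o' with
      | none =>
        rw [hψs, hψn] at e3
        exfalso
        have h2 := fp_sw_same hM hm (f ω) r ω
        rw [e3, e4] at h2
        exact hne ω' (f ω') r h2
      | some r' =>
        rw [hψs, hψs] at e3
        have h2 := fp_sw_same hM hm (f ω) r ω
        have h3 := fp_sw_same hM hm (f ω') r' ω'
        rw [← e3, ← e4, ← h2] at h3
        have h4 := hfpinj _ _ _ h3
        have h6 := congrArg (sw hM hm (f ω) r) e3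
        rw [sw_sw, e5, h4, sw_sw] at h6
        rw [h6, h4]

/-! ### Wide clauses -/

open Classical in
/-- The restrictions for which all pairs in `B` are fixed or in a block. -/
noncomputable def Fr (M m N n k : ℕ) (B : Finset (Fin M × Fin m)) : Finset (Om M m) :=
  univ.filter fun ω => ∀ e ∈ B, Fx N n k ω e ∨ Lv N n k ω e

theorem mem_Fr {B : Finset (Fin M × Fin m)} {ω : Om M m} :
    ω ∈ Fr M m N n k B ↔ ∀ e ∈ B, Fx N n k ω e ∨ Lv N n k ω e := by
  classical
  unfold Fr
  rw [mem_filter]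
  exact ⟨fun h => h.2, fun h => ⟨mem_univ _, h⟩⟩

theorem card_Fr (hN : 1 ≤ N) {w : ℕ} (B : Finset (Fin M × Fin m)) (hB : IsMat B)
    (hw : B.card ≤ w) :
    (M - w) ^ B.card * (Fr M m N n k B).card ≤ N ^ B.card * Fintype.card (Om M m) := by
  classical
  induction B using Finset.induction_on with
  | empty =>
    rw [card_empty, pow_zero, pow_zero, one_mul, one_mul]
    exact card_le_univ _
  | insert e₀ B he ih =>
    rw [card_insert_of_notMem he] at hw ⊢
    have h1 := ih (fun a ha a' ha' => hB a (mem_insert_of_mem ha) a' (mem_insert_of_mem ha'))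
      (by omega)
    obtain ⟨T, hT⟩ : ∃ T : Om M m → Finset (Fin M), T = fun ω => univ.filter fun p : Fin M =>
      (k * N ≤ p.val ∧ k * n ≤ (ω.2 e₀.2).val ∧ p.val - k * N = (ω.2 e₀.2).val - k * n) ∨
      (p.val < k * N ∧ (ω.2 e₀.2).val < k * n ∧ p.val / N = (ω.2 e₀.2).val / n) := ⟨_, rfl⟩
    have hTc : ∀ ω, (T ω).card ≤ N := by
      intro ω
      by_cases h2 : k * n ≤ (ω.2 e₀.2).val
      · have h3 : (T ω).card ≤ 1 := by
          rw [card_le_one]
          intro a ha b hb
          rw [hT, mem_filter] at ha hb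
          exact Fin.ext (by omega)
        omega
      · have h3 : (T ω).card ≤ (range N).card := by
          refine card_le_card_of_injOn (fun p => p.val % N) ?_ ?_
          · intro p _
            rw [mem_coe, mem_range]
            exact Nat.mod_lt _ hN
          · intro a ha b hb hab
            rw [mem_coe, hT, mem_filter] at ha hb
            have h4 := Nat.div_add_mod a.val N
            have h5 := Nat.div_add_mod b.val N
            have h6 : a.val / N = b.val / N := by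
              rcases ha.2 with h | h <;> rcases hb.2 with h' | h' <;> omega
            have h7 : a.val % N = b.val % N := hab
            rw [h6, h7] at h4
            exact Fin.ext (by omega)
        rwa [card_range] at h3
    obtain ⟨A, hA⟩ : ∃ A : Finset (Om M m × Fin M), A =
      Fr M m N n k (insert e₀ B) ×ˢ (univ \ (insert e₀ B).image Prod.fst) := ⟨_, rfl⟩
    obtain ⟨C, hC⟩ : ∃ C : Finset (Om M m × Fin M), C =
      (Fr M m N n k B ×ˢ univ).filter fun a => a.1.1 a.2 ∈ T a.1 := ⟨_, rfl⟩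
    have h2 : (M - w) * (Fr M m N n k (insert e₀ B)).card ≤ A.card := by
      rw [hA, card_product, mul_comm]
      refine Nat.mul_le_mul_left _ ?_
      rw [card_sdiff_of_subset (subset_univ _), card_univ, Fintype.card_fin]
      have h3 : ((insert e₀ B).image Prod.fst).card ≤ w := by
        refine card_image_le.trans ?_
        rw [card_insert_of_notMem he]
        exact hw
      omega
    have h3 : C.card ≤ N * (Fr M m N n k B).card := by
      rw [hC, card_filter, sum_product, mul_comm, ← smul_eq_mul, ← sum_const]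
      refine sum_le_sum fun ω _ => ?_
      rw [← card_filter]
      refine le_trans ?_ (hTc ω)
      refine card_le_card_of_injOn (fun i => ω.1 i) ?_ (ω.1.injective.injOn)
      intro i hi
      exact (mem_filter.1 hi).2
    have h4 : A.card ≤ C.card := by
      refine card_le_card_of_injOn
        (fun a => (((Equiv.swap e₀.1 a.2).trans a.1.1, a.1.2), a.2)) ?_ ?_
      · rintro ⟨ω, i⟩ ha
        rw [mem_coe, hA, mem_product, mem_sdiff] at ha
        obtain ⟨h5, -, h6⟩ := ha
        have h7 := mem_Fr.1 h5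
        rw [mem_coe, hC, mem_filter, mem_product]
        refine ⟨⟨mem_Fr.2 fun e heB => ?_, mem_univ _⟩, ?_⟩
        · have n1 : e.1 ≠ e₀.1 := fun h => he (hB e (mem_insert_of_mem heB) e₀
            (mem_insert_self _ _) (Or.inl h) ▸ heB)
          have n2 : e.1 ≠ i := fun h => h6 (mem_image.2 ⟨e, mem_insert_of_mem heB, h⟩)
          have e1 : ((Equiv.swap e₀.1 i).trans ω.1) e.1 = ω.1 e.1 := by
            rw [Equiv.trans_apply, Equiv.swap_apply_of_ne_of_ne n1 n2]
          have h8 := h7 e (mem_insert_of_mem heB)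
          unfold Fx Lv at h8 ⊢
          simp only
          rw [e1]
          exact h8
        · have e1 : ((Equiv.swap e₀.1 i).trans ω.1) i = ω.1 e₀.1 := by
            rw [Equiv.trans_apply, Equiv.swap_apply_right]
          simp only
          rw [e1, hT, mem_filter]
          exact ⟨mem_univ _, h7 e₀ (mem_insert_self _ _)⟩
      · rintro ⟨ω, i⟩ - ⟨ω', i'⟩ - h
        simp only [Prod.mk.injEq] at h
        obtain ⟨⟨h5, h6⟩, h7⟩ := h
        subst h7
        have h8 : ω.1 = ω'.1 := by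
          have h9 := congrArg (fun π => (Equiv.swap e₀.1 i).trans π) h5
          simp only [← Equiv.trans_assoc, Equiv.swap_swap, Equiv.refl_trans] at h9
          exact h9
        exact Prod.ext (Prod.ext h8 h6) rfl
    have h5 := (h2.trans h4).trans h3
    calc (M - w) ^ (B.card + 1) * (Fr M m N n k (insert e₀ B)).card =
        (M - w) ^ B.card * ((M - w) * (Fr M m N n k (insert e₀ B)).card) := by ring
      _ ≤ (M - w) ^ B.card * (N * (Fr M m N n k B).card) := Nat.mul_le_mul_left _ h5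
      _ = N * ((M - w) ^ B.card * (Fr M m N n k B).card) := by ring
      _ ≤ N * (N ^ B.card * Fintype.card (Om M m)) := Nat.mul_le_mul_left _ h1
      _ = N ^ (B.card + 1) * Fintype.card (Om M m) := by ring

end Pool.Agent.MP_9cec2c_lc.RF
end

section

/-!
A random restriction satisfies all clauses of a formula in conjunctive normal form with about the
probability with which it satisfies the formula as an assignment.
-/

set_option autoImplicit false
set_option linter.unusedSectionVars false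

namespace Pool.Agent.MP_9cec2c_lc.RF

open Finset

variable {M m N n k : ℕ}

/-- A restriction that satisfies all clauses. -/
theorem exists_ok {s w z : ℕ} (hM : M = k * N + s) (hm : m = k * n + s) (hN : 1 ≤ N)
    (Δ : List (Cl M m)) (U : Finset (Cl M m)) (hU : ∀ D ∈ Δ, D ∈ U) (hz : U.card ≤ z) {ε : ℝ}
    (hw : w + 1 < M) (hε : ε * Fintype.card (Om M m) ≤
      {ω : Om M m | ∀ D ∈ Δ, ∃ l ∈ D, asg N n k ω l.1 = l.2}.ncard)
    (hnum : (w : ℝ) * ((k : ℝ) * N * n / (s + 1)) +
      z * (((N : ℝ) / ((M - (w + 1) : ℕ) : ℝ)) ^ (w + 1)) < ε) :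
    ∃ ω : Om M m, ∀ D ∈ Δ, Ok N n k ω D := by
  classical
  by_contra hcon
  push Not at hcon
  obtain ⟨G, hG⟩ : ∃ G : Finset (Om M m), G = univ.filter fun ω => ∀ D ∈ Δ, ∃ l ∈ D,
    asg N n k ω l.1 = l.2 := ⟨_, rfl⟩
  obtain ⟨X, hX⟩ : ∃ X, X = G.filter fun ω => ∀ D ∈ Δ, w < (negs D).card → Ok N n k ω D :=
    ⟨_, rfl⟩
  obtain ⟨Y, hY⟩ : ∃ Y, Y = G.filter fun ω => ¬ ∀ D ∈ Δ, w < (negs D).card → Ok N n k ω D :=
    ⟨_, rfl⟩
  have hG' : {ω : Om M m | ∀ D ∈ Δ, ∃ l ∈ D, asg N n k ω l.1 = l.2}.ncard = G.card := by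
    rw [hG, ← Set.ncard_coe_finset]
    congr 1
    ext ω
    simp
  rw [hG'] at hε
  have hGXY : G.card = X.card + Y.card := by
    rw [hX, hY]
    exact (card_filter_add_card_filter_not _).symm
  obtain ⟨Q, hQ⟩ : ∃ Q : ℕ, Q = Fintype.card (Om M m) := ⟨_, rfl⟩
  have hQ0 : (0 : ℝ) < Q := by
    rw [hQ]
    exact_mod_cast Fintype.card_pos
  rw [← hQ] at hε
  have h1 : (s + 1) * X.card ≤ w * (k * N * n) * Q := by
    rw [hQ]
    refine card_bad (s := s) (w := w) hM hm Δ X fun ω hω => ?_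
    rw [hX, mem_filter, hG, mem_filter] at hω
    exact ⟨hω.1.2, hcon ω, hω.2⟩
  have h2 : (X.card : ℝ) ≤ w * ((k : ℝ) * N * n / (s + 1)) * Q := by
    have h3 : ((s : ℝ) + 1) * X.card ≤ w * (k * N * n) * Q := by exact_mod_cast h1
    have h4 : (0 : ℝ) < (s : ℝ) + 1 := by positivity
    have h5 : (w : ℝ) * ((k : ℝ) * N * n / (s + 1)) * Q = w * (k * N * n) * Q / (s + 1) := by
      ring
    rw [h5, le_div_iff₀ h4]
    linarith
  obtain ⟨θ, hθ⟩ : ∃ θ : ℝ, θ = (N : ℝ) / ((M - (w + 1) : ℕ) : ℝ) := ⟨_, rfl⟩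
  have hθ0 : 0 ≤ θ := by
    rw [hθ]
    positivity
  have hMw : (0 : ℝ) < ((M - (w + 1) : ℕ) : ℝ) := by
    have : 0 < M - (w + 1) := by omega
    exact_mod_cast this
  have h3 : ∀ D : Cl M m, w < (negs D).card →
      (((univ : Finset (Om M m)).filter fun ω => ¬ Ok N n k ω D).card : ℝ) ≤
        θ ^ (w + 1) * Q := by
    intro D hD
    by_cases hmat : IsMat (negs D)
    · obtain ⟨B, hB1, hB2⟩ := exists_subset_card_eq (s := negs D) (n := w + 1) hD
      have h4 := card_Fr (M := M) (m := m) (N := N) (n := n) (k := k) hN (w := w + 1) B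
        (fun a ha a' ha' => hmat a (hB1 ha) a' (hB1 ha')) hB2.le
      rw [hB2, ← hQ] at h4
      have h5 : ((univ : Finset (Om M m)).filter fun ω => ¬ Ok N n k ω D).card ≤
          (Fr M m N n k B).card := by
        refine card_le_card fun ω hω => ?_
        rw [mem_filter] at hω
        refine mem_Fr.2 fun e he => ?_
        by_contra h6
        push Not at h6
        exact hω.2 (Or.inr (Or.inl ⟨e, h6.1, h6.2, mem_negs.1 (hB1 he)⟩))
      have h6 : ((M - (w + 1) : ℕ) : ℝ) ^ (w + 1) * (Fr M m N n k B).card ≤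
          (N : ℝ) ^ (w + 1) * Q := by exact_mod_cast h4
      have h7 : ((Fr M m N n k B).card : ℝ) ≤ θ ^ (w + 1) * Q := by
        rw [hθ, div_pow, div_mul_eq_mul_div, le_div_iff₀ (pow_pos hMw _)]
        linarith
      refine le_trans ?_ h7
      exact_mod_cast h5
    · have h4 : (univ : Finset (Om M m)).filter (fun ω => ¬ Ok N n k ω D) = ∅ :=
        filter_false_of_mem fun ω _ h => h (Or.inr (Or.inr (Or.inr hmat)))
      rw [h4, card_empty, Nat.cast_zero]
      positivity
  have h4 : (Y.card : ℝ) ≤ z * θ ^ (w + 1) * Q := by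
    have h5 : Y ⊆ (U.filter fun D => w < (negs D).card).biUnion fun D =>
        (univ : Finset (Om M m)).filter fun ω => ¬ Ok N n k ω D := by
      intro ω hω
      rw [hY, mem_filter] at hω
      obtain ⟨-, h7⟩ := hω
      push Not at h7
      obtain ⟨D, h8, h9, h10⟩ := h7
      exact mem_biUnion.2 ⟨D, mem_filter.2 ⟨hU D h8, h9⟩, mem_filter.2 ⟨mem_univ _, h10⟩⟩
    have h6 := (card_le_card h5).trans card_biUnion_le
    have h7 : (Y.card : ℝ) ≤ ∑ D ∈ U.filter (fun D => w < (negs D).card),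
        (((univ : Finset (Om M m)).filter fun ω => ¬ Ok N n k ω D).card : ℝ) := by
      exact_mod_cast h6
    refine h7.trans ((sum_le_sum fun D hD => h3 D (mem_filter.1 hD).2).trans ?_)
    rw [sum_const, nsmul_eq_mul, mul_assoc]
    refine mul_le_mul_of_nonneg_right ?_ (by positivity)
    exact_mod_cast (card_filter_le _ _).trans hz
  have h5 : (G.card : ℝ) = X.card + Y.card := by exact_mod_cast hGXY
  rw [← hθ] at hnum
  have h6 := mul_lt_mul_of_pos_right hnum hQ0
  have h7 : ((w : ℝ) * ((k : ℝ) * N * n / (s + 1)) + z * θ ^ (w + 1)) * Q =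
      w * ((k : ℝ) * N * n / (s + 1)) * Q + z * θ ^ (w + 1) * Q := by ring
  linarith

end Pool.Agent.MP_9cec2c_lc.RF
end
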