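import Pool.Agent.Lib.MP_9cec2c_lc.Mg.G060

section

/-!
The lower bound for the size of derivations in Frege systems from a flat world.
-/

set_option autoImplicit false
set_option linter.unusedSectionVars false

namespace Pool.Agent.MP_9cec2c_lc.FG

open Finset Frege

/-- The schemes at the nodes of a rule. -/
def Rule.nodes (R : Rule) : List Scheme := R.premises.flatMap Scheme.subs ++ R.conclusion.subs

theorem args_parts {V : Type} {σ : ℕ → Form V} {τ : ℕ → List (Form V)} {P Q : Scheme}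
    (hQ : Q ∈ P.subs) {φ : Form V} (hφ : φ ∈ Q.args σ τ) : ∃ χ ∈ P.inst σ τ, φ ∈ χ.parts := by
  have key : ∀ (Λ : List (Form V)) (χ : Form V), χ ∈ Λ → φ ∈ χ.parts →
      φ ∈ (conjL Λ).parts ∧ φ ∈ (disjL Λ).parts ∧ ∀ r, φ ∈ (countL r Λ).parts := by
    intro Λ χ hχ hφ
    obtain ⟨i, hi⟩ := List.get_of_mem hχ
    have h1 : φ ∈ ⋃ i, (Λ.get i).parts := Set.mem_iUnion.2 ⟨i, by rwa [hi]⟩
    exact ⟨Set.mem_insert_of_mem _ h1, Set.mem_insert_of_mem _ h1,
      fun r => Set.mem_insert_of_mem _ h1⟩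
  induction P with
  | form i =>
    rw [List.mem_singleton.1 hQ] at hφ
    exact absurd hφ List.not_mem_nil
  | list i =>
    rw [List.mem_singleton.1 hQ] at hφ
    exact ⟨φ, hφ, self_mem_parts φ⟩
  | neg P ih =>
    rcases List.mem_cons.1 hQ with rfl | h1
    · exact absurd hφ List.not_mem_nil
    · obtain ⟨χ, h2, h3⟩ := ih h1
      exact ⟨.neg χ, List.mem_map.2 ⟨χ, h2, rfl⟩, Set.mem_insert_of_mem _ h3⟩
  | conj m P ih =>
    rcases List.mem_cons.1 hQ with rfl | h1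
    · exact ⟨_, List.mem_singleton.2 rfl, (key _ φ hφ (self_mem_parts φ)).1⟩
    · obtain ⟨i, hi, hi'⟩ := List.mem_flatMap.1 h1
      obtain ⟨χ, h2, h3⟩ := ih i hi'
      exact ⟨_, List.mem_singleton.2 rfl, (key _ χ (List.mem_flatMap.2 ⟨i, hi, h2⟩) h3).1⟩
  | disj m P ih =>
    rcases List.mem_cons.1 hQ with rfl | h1
    · exact ⟨_, List.mem_singleton.2 rfl, (key _ φ hφ (self_mem_parts φ)).2.1⟩
    · obtain ⟨i, hi, hi'⟩ := List.mem_flatMap.1 h1
      obtain ⟨χ, h2, h3⟩ := ih i hi'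
      exact ⟨_, List.mem_singleton.2 rfl, (key _ χ (List.mem_flatMap.2 ⟨i, hi, h2⟩) h3).2.1⟩
  | count r m P ih =>
    rcases List.mem_cons.1 hQ with rfl | h1
    · exact absurd hφ List.not_mem_nil
    · obtain ⟨i, hi, hi'⟩ := List.mem_flatMap.1 h1
      obtain ⟨χ, h2, h3⟩ := ih i hi'
      exact ⟨_, List.mem_singleton.2 rfl, (key _ χ (List.mem_flatMap.2 ⟨i, hi, h2⟩) h3).2.2 r⟩

variable {K V W : Type} [Field K] [AddCommGroup W] [Module K W] [Fintype K]
  [FiniteDimensional K W] {M : ℕ → Submodule K W} {act : Fun K V →ₗ[K] W →ₗ[K] W} {A : ℕ}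

theorem parts_set_finite {l : ℕ} (L : Fin l → Form V) : {ψ | ∃ i, ψ ∈ (L i).parts}.Finite := by
  have h1 : {ψ | ∃ i, ψ ∈ (L i).parts} = ⋃ i, (L i).parts := by
    ext ψ
    exact Set.mem_iUnion.symm
  rw [h1]
  exact Set.finite_iUnion fun i => parts_finite _

/-- In a world, all lines of a short derivation hold up to functions that act as zero on one
nonzero vector. -/
theorem derivation_holds {p d N k m c w : ℕ} [CharP K p] (hW : World M act A) (hk : 1 ≤ k)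
    {Λ C : ℝ} (hΛ : 1 / 2 ≤ Λ) (hC : 0 ≤ C) (hpos : 0 < Module.finrank K (M 0))
    (hA : (m + 1 + k * (Fintype.card K - 1)) * deg K k d ≤ A)
    (hgrow : ∀ j ≤ m, (Module.finrank K (M (j * deg K k d)) : ℝ) ≤
      C * (Λ / 2) ^ j * Module.finrank K (M 0))
    {S : Set Rule} (hS : ∀ R ∈ S, R.Sound p ∧ R.cost + 5 ≤ c ∧ R.nodes.length ≤ c)
    (hA2 : c * deg K k (d + 1) ≤ A) (hA3 : k * (Fintype.card K - 1) + 1 + w ≤ A)
    {Φ : Set (Form V)} (hΦ : ∀ φ ∈ Φ, ∃ D : List (V × Bool), φ = clause D ∧ D.length ≤ w ∧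
      ∀ u ∈ M 0, act (fals K D) u = 0)
    {l : ℕ} {L : Fin l → Form V} (hL : IsDerivation S d Φ L) (hN : size L ≤ N)
    (hρ : 2 * (c + 1) * N * (2 * C * (1 - 1 / (2 * Λ)) ^ k + C / 2 ^ m) < 1) :
    ∃ (Z : Submodule K (Fun K V)) (H : List (Fun K V) → Fun K V), Kill A Z ∧ Choice k H ∧
      (∀ i, ∀ ψ ∈ (L i).parts, CleanForm Z H ψ) ∧ (∀ i, 1 - pv H (L i) ∈ Z) ∧
      ∀ P : Fun K V, (∀ u ∈ M 0, act P u = 0) → P ∈ Z := by
  classical
  obtain ⟨ρ, hρ'⟩ : ∃ ρ : ℝ, ρ = 2 * C * (1 - 1 / (2 * Λ)) ^ k + C / 2 ^ m := ⟨_, rfl⟩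
  obtain ⟨H, hH'⟩ : ∃ H : List (Fun K V) → Fun K V, H = apx M act 0 k ρ := ⟨_, rfl⟩
  have hΛ0 : 0 < Λ := by linarith
  have hθ : 0 ≤ 1 - 1 / (2 * Λ) := by
    rw [sub_nonneg, div_le_one (by positivity)]
    linarith
  have hρ0 : 0 ≤ ρ := by
    rw [hρ']
    positivity
  have hH : Choice k H := by
    rw [hH']
    exact apx_choice hk hρ0
  -- the data of the inferences
  have hdata : ∀ i, ∃ (R : Rule) (σ : ℕ → Form V) (τ : ℕ → List (Form V)), L i ∉ Φ →
      R ∈ S ∧ (∀ P ∈ R.premises, ∀ ψ ∈ P.inst σ τ, ψ ∈ {ψ | ∃ j, j < i ∧ L j = ψ}) ∧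
      R.conclusion.inst σ τ = [L i] := by
    intro i
    by_cases h : L i ∈ Φ
    · exact ⟨⟨[], .form 0⟩, fun _ => L i, fun _ => [], fun h' => absurd h h'⟩
    · obtain ⟨R, hR, σ, τ, h1, h2⟩ := ((hL i).2).resolve_left h
      exact ⟨R, σ, τ, fun _ => ⟨hR, h1, h2⟩⟩
  choose R σ τ hR using hdata
  obtain ⟨Pt, hPt⟩ : ∃ Pt : Finset (Form V), Pt = (parts_set_finite L).toFinset := ⟨_, rfl⟩
  have hPtm : ∀ ψ, ψ ∈ Pt ↔ ∃ i, ψ ∈ (L i).parts := by
    intro ψ
    rw [hPt, Set.Finite.mem_toFinset]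
    exact Iff.rfl
  have hPtd : ∀ ψ ∈ Pt, ψ.depth ≤ d := by
    intro ψ hψ
    obtain ⟨i, hi⟩ := (hPtm ψ).1 hψ
    exact (depth_parts hi).trans (hL i).1
  have hPtc : Pt.card + l = size L := by
    unfold size
    rw [hPt, Set.ncard_eq_toFinset_card _ (parts_set_finite L), add_comm]
  -- formulas at nodes are subformulas of lines
  have hinst : ∀ i, L i ∉ Φ → ∀ P, P ∈ (R i).premises ∨ P = (R i).conclusion →
      ∀ χ ∈ P.inst (σ i) (τ i), ∃ j, L j = χ := by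
    intro i hi P hP χ hχ
    obtain ⟨-, h1, h2⟩ := hR i hi
    rcases hP with hP | rfl
    · obtain ⟨j, -, hj⟩ := h1 P hP χ hχ
      exact ⟨j, hj⟩
    · rw [h2] at hχ
      exact ⟨i, (List.mem_singleton.1 hχ).symm⟩
  have hnodeP : ∀ i, L i ∉ Φ → ∀ P, P ∈ (R i).premises ∨ P = (R i).conclusion →
      ∀ Q ∈ P.subs, (∀ φ ∈ Q.inst (σ i) (τ i), φ ∈ Pt) ∧ ∀ φ ∈ Q.args (σ i) (τ i), φ ∈ Pt := by
    intro i hi P hP Q hQ
    constructor
    · intro φ hφ
      obtain ⟨χ, hχ, h3⟩ := inst_parts hQ hφ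
      obtain ⟨j, hj⟩ := hinst i hi P hP χ hχ
      exact (hPtm φ).2 ⟨j, by rw [hj]; exact h3⟩
    · intro φ hφ
      obtain ⟨χ, hχ, h3⟩ := args_parts hQ hφ
      obtain ⟨j, hj⟩ := hinst i hi P hP χ hχ
      exact (hPtm φ).2 ⟨j, by rw [hj]; exact h3⟩
  have hnodes : ∀ i, ∀ Q, Q ∈ (R i).nodes ↔ ∃ P, (P ∈ (R i).premises ∨ P = (R i).conclusion) ∧
      Q ∈ P.subs := by
    intro i Q
    unfold Rule.nodes
    rw [List.mem_append, List.mem_flatMap]
    constructor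
    · rintro (⟨P, h1, h2⟩ | h1)
      · exact ⟨P, Or.inl h1, h2⟩
      · exact ⟨_, Or.inr rfl, h1⟩
    · rintro ⟨P, h1 | rfl, h2⟩
      · exact Or.inl ⟨P, h1, h2⟩
      · exact Or.inr h2
  -- the lists
  obtain ⟨nd, hnd⟩ : ∃ nd : Fin l → Finset (List (Fun K V)), nd = fun i =>
    if L i ∈ Φ then ∅ else
      (R i).nodes.toFinset.image (fun Q => pos H (Q.args (σ i) (τ i))) ∪
      (R i).nodes.toFinset.image (fun Q => neg H (Q.args (σ i) (τ i))) := ⟨_, rfl⟩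
  obtain ⟨𝓛, h𝓛⟩ : ∃ 𝓛 : Finset (List (Fun K V)), 𝓛 = (Pt.image (orl H) ∪
    Pt.image fun ψ => (andl H ψ).map (1 - ·)) ∪ univ.biUnion nd := ⟨_, rfl⟩
  have hcard : 𝓛.card ≤ 2 * (c + 1) * N := by
    have h1 : ∀ i ∈ (univ : Finset (Fin l)), (nd i).card ≤ 2 * c := by
      intro i _
      rw [hnd]
      by_cases hi : L i ∈ Φ
      · simp only [if_pos hi, card_empty]
        exact Nat.zero_le _
      · simp only [if_neg hi]
        have h2 := (hS _ (hR i hi).1).2.2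
        have h3 := (R i).nodes.toFinset_card_le
        refine (card_union_le _ _).trans ?_
        have h4 := card_image_le (s := (R i).nodes.toFinset)
          (f := fun Q => pos H (Q.args (σ i) (τ i)))
        have h5 := card_image_le (s := (R i).nodes.toFinset)
          (f := fun Q => neg H (Q.args (σ i) (τ i)))
        omega
    have h2 : (univ.biUnion nd).card ≤ l * (2 * c) := by
      refine card_biUnion_le.trans ((sum_le_sum h1).trans (le_of_eq ?_))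
      rw [sum_const, card_univ, Fintype.card_fin, smul_eq_mul]
    have h3 := card_image_le (s := Pt) (f := orl H)
    have h4 := card_image_le (s := Pt) (f := fun ψ => (andl H ψ).map (1 - ·))
    have h5 : 𝓛.card ≤ (Pt.card + Pt.card) + l * (2 * c) := by
      rw [h𝓛]
      refine (card_union_le _ _).trans (Nat.add_le_add ((card_union_le _ _).trans
        (Nat.add_le_add h3 h4)) h2)
    have h6 : 2 * (c + 1) * (Pt.card + l) ≤ 2 * (c + 1) * N :=
      Nat.mul_le_mul_left _ (hPtc ▸ hN)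
    have h7 : 2 * (c + 1) * (Pt.card + l) = (Pt.card + Pt.card) + l * (2 * c) +
      (2 * c * Pt.card + 2 * l) := by ring
    omega
  have hgood : ∀ L' : List (Fun K V), (∀ g ∈ L', Bin g) → (∀ g ∈ L', g ∈ Pol K V (deg K k d)) →
      ∃ h, Apx M act 0 k ρ L' h := by
    intro L' h1 h2
    rw [hρ']
    refine exists_apx hW hΛ hC hk h1 h2 (by rwa [zero_add]) fun j hj => ?_
    rw [zero_add]
    exact hgrow j hj
  have hapx : ∀ L' ∈ 𝓛, ∃ h, Apx M act 0 k ρ L' h := by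
    intro L' hL'
    rw [h𝓛, mem_union, mem_union] at hL'
    rcases hL' with (hL' | hL') | hL'
    · obtain ⟨ψ, hψ, rfl⟩ := mem_image.1 hL'
      exact hgood _ (orl_bin hH ψ) (orl_mem hH hk (hPtd ψ hψ))
    · obtain ⟨ψ, hψ, rfl⟩ := mem_image.1 hL'
      exact hgood _ (andl_bin hH ψ) (andl_mem hH hk (hPtd ψ hψ))
    · obtain ⟨i, -, hi⟩ := mem_biUnion.1 hL'
      rw [hnd] at hi
      by_cases hiΦ : L i ∈ Φ
      · simp only [if_pos hiΦ] at hi
        exact absurd hi (notMem_empty _)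
      · simp only [if_neg hiΦ] at hi
        rcases mem_union.1 hi with hi | hi
        · obtain ⟨Q, hQ, rfl⟩ := mem_image.1 hi
          obtain ⟨P, hP, hQP⟩ := (hnodes i Q).1 (List.mem_toFinset.1 hQ)
          exact hgood _ (pos_bin hH _) (pos_mem hH hk fun φ hφ =>
            hPtd φ ((hnodeP i hiΦ P hP Q hQP).2 φ hφ))
        · obtain ⟨Q, hQ, rfl⟩ := mem_image.1 hi
          obtain ⟨P, hP, hQP⟩ := (hnodes i Q).1 (List.mem_toFinset.1 hQ)
          exact hgood _ (neg_bin hH _) (neg_mem hH hk fun φ hφ =>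
            hPtd φ ((hnodeP i hiΦ P hP Q hQP).2 φ hφ))
  obtain ⟨f, hf, hf0, hfL⟩ := exists_vector (M := M) (act := act) (a₀ := 0) (k := k) (ρ := ρ) 𝓛
    hapx (by
      refine lt_of_le_of_lt (mul_le_mul_of_nonneg_right ?_ hρ0) (hρ' ▸ hρ)
      exact_mod_cast hcard) hpos
  rw [← hH'] at hfL
  obtain ⟨Z, hZ'⟩ : ∃ Z : Submodule K (Fun K V), Z = LinearMap.ker (act.flip f) := ⟨_, rfl⟩
  have hZ : Kill A Z := by
    rw [hZ']
    exact kill_of_world hW (Nat.zero_le A) hf hf0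
  have hZm : ∀ P, P ∈ Z ↔ act P f = 0 := by
    intro P
    rw [hZ', LinearMap.mem_ker, LinearMap.flip_apply]
  have hcl : ∀ L' ∈ 𝓛, Clean Z H L' := fun L' hL' g hg => (hZm _).2 (hfL L' hL' g hg)
  have hclP : ∀ ψ ∈ Pt, CleanForm Z H ψ := by
    intro ψ hψ
    constructor
    · intro _
      exact hcl _ (by
        rw [h𝓛, mem_union, mem_union]
        exact Or.inl (Or.inl (mem_image_of_mem _ hψ)))
    · intro _
      exact hcl _ (by
        rw [h𝓛, mem_union, mem_union]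
        exact Or.inl (Or.inr (mem_image.2 ⟨ψ, hψ, rfl⟩)))
  have hfine : ∀ i, L i ∉ Φ → ∀ P, P ∈ (R i).premises ∨ P = (R i).conclusion →
      NodeFine Z H d (σ i) (τ i) P := by
    intro i hi P hP Q hQ
    have h1 := hnodeP i hi P hP Q hQ
    have h2 : Q ∈ (R i).nodes.toFinset := List.mem_toFinset.2 ((hnodes i Q).2 ⟨P, hP, hQ⟩)
    refine ⟨fun φ hφ => ⟨hPtd φ (h1.1 φ hφ), hclP φ (h1.1 φ hφ)⟩, ?_, ?_⟩
    · refine hcl _ ?_
      rw [h𝓛, mem_union]
      refine Or.inr (mem_biUnion.2 ⟨i, mem_univ i, ?_⟩)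
      rw [hnd]
      simp only [if_neg hi]
      exact mem_union_left _ (mem_image.2 ⟨Q, h2, rfl⟩)
    · refine hcl _ ?_
      rw [h𝓛, mem_union]
      refine Or.inr (mem_biUnion.2 ⟨i, mem_univ i, ?_⟩)
      rw [hnd]
      simp only [if_neg hi]
      exact mem_union_right _ (mem_image.2 ⟨Q, h2, rfl⟩)
  have hline : ∀ n : ℕ, ∀ i : Fin l, (i : ℕ) = n → 1 - pv H (L i) ∈ Z := by
    intro n
    induction n using Nat.strong_induction_on with
    | _ n ih =>
      intro i hin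
      by_cases hi : L i ∈ Φ
      · obtain ⟨D, hD, hDw, hD0⟩ := hΦ _ hi
        have h1 : clause D ∈ Pt := by
          rw [← hD]
          exact (hPtm _).2 ⟨i, self_mem_parts _⟩
        rw [hD]
        exact hZ.clause hH hk ((hclP _ h1).1 trivial) hDw ((hZm _).2 (hD0 f hf)) hA3
      · obtain ⟨h1, h2, h3⟩ := hR i hi
        have h4 := hS _ h1
        refine hZ.rule (p := p) (d := d) hH hk h4.1 (fun P hP => hfine i hi P (Or.inl hP))
          (hfine i hi _ (Or.inr rfl)) ((Nat.mul_le_mul_right _ h4.2.1).trans hA2) ?_ h3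
        intro P hP ψ hψ
        obtain ⟨j, hj, hjψ⟩ := h2 P hP ψ hψ
        rw [← hjψ]
        exact ih j (by rw [← hin]; exact hj) j rfl
  refine ⟨Z, H, hZ, hH, fun i ψ hψ => hclP ψ ((hPtm ψ).2 ⟨i, hψ⟩), fun i => hline i i rfl, ?_⟩
  intro P hP
  exact (hZm P).2 (hP f hf)

end Pool.Agent.MP_9cec2c_lc.FG
end

section

/-!
The lower bound for Frege systems from a flat world: refutations and proofs of tautologies.
-/

set_option autoImplicit false
set_option linter.unusedSectionVars false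

namespace Pool.Agent.MP_9cec2c_lc.FG

open Finset Frege

variable {K V W : Type} [Field K] [AddCommGroup W] [Module K W] [Fintype K]
  [FiniteDimensional K W] {M : ℕ → Submodule K W} {act : Fun K V →ₗ[K] W →ₗ[K] W} {A : ℕ}

/-- In a flat world, all lines of a short derivation hold up to functions that act as zero on one
nonzero vector. -/
theorem flat_holds {p d N R c w : ℕ} [CharP K p] (hW : World M act A) {C : ℝ} (hC : 0 ≤ C)
    (hpos : 0 < Module.finrank K (M 0))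
    (hgrow : (Module.finrank K (M A) : ℝ) ≤ C * Module.finrank K (M 0))
    {S : Set Rule} (hS : ∀ R ∈ S, R.Sound p ∧ R.cost + 5 ≤ c ∧ R.nodes.length ≤ c)
    (hR : 16 * (c + 1) * C * N ≤ 2 ^ R) (hR1 : 1 ≤ R)
    (hA : (c + w + 4) * (3 * R * (Fintype.card K - 1)) ^ (d + 1) ≤ A)
    {Φ : Set (Form V)} (hΦ : ∀ φ ∈ Φ, ∃ D : List (V × Bool), φ = clause D ∧ D.length ≤ w ∧
      ∀ u ∈ M 0, act (fals K D) u = 0)
    {l : ℕ} {L : Fin l → Form V} (hL : IsDerivation S d Φ L) (hN : size L ≤ N) :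
    ∃ (Z : Submodule K (Fun K V)) (H : List (Fun K V) → Fun K V), Kill A Z ∧
      Choice (3 * R) H ∧
      (∀ i, ∀ ψ ∈ (L i).parts, CleanForm Z H ψ) ∧ (∀ i, 1 - pv H (L i) ∈ Z) ∧
      ∀ P : Fun K V, (∀ u ∈ M 0, act P u = 0) → P ∈ Z := by
  obtain ⟨τ, hτ⟩ : ∃ τ, τ = 3 * R * (Fintype.card K - 1) := ⟨_, rfl⟩
  have hc0 : 0 < Fintype.card K - 1 := card_sub_pos
  have hτR : 3 * R ≤ τ := by
    rw [hτ]
    exact Nat.le_mul_of_pos_right _ hc0
  have hdeg : ∀ e, deg K (3 * R) e = τ ^ e := by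
    intro e
    unfold deg
    rw [hτ]
  have hT1 : 1 ≤ τ ^ d := Nat.one_le_pow _ _ (by omega)
  have hT2 : τ ^ (d + 1) = τ * τ ^ d := pow_succ' _ _
  have hτT : τ ≤ τ ^ (d + 1) := by
    rw [hT2]
    exact Nat.le_mul_of_pos_right _ hT1
  rw [← hτ] at hA
  have hA1 : (c + w + 4) * τ ^ (d + 1) = c * τ ^ (d + 1) + w * τ ^ (d + 1) + 4 * τ ^ (d + 1) := by
    ring
  rw [hA1] at hA
  have hw1 : w ≤ w * τ ^ (d + 1) := Nat.le_mul_of_pos_right _ (by omega)
  have hm : (R + 1 + τ) * τ ^ d ≤ 2 * τ ^ (d + 1) := by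
    rw [hT2]
    calc (R + 1 + τ) * τ ^ d ≤ (2 * τ) * τ ^ d := Nat.mul_le_mul_right _ (by omega)
      _ = 2 * (τ * τ ^ d) := by ring
  refine derivation_holds (p := p) (Λ := 2) (C := C) (m := R) (c := c) (w := w) (N := N) hW
    (by omega) (by norm_num) hC hpos ?_ ?_ hS ?_ ?_ hΦ hL hN ?_
  · rw [hdeg, ← hτ]
    omega
  · intro j hj
    rw [hdeg, div_self (two_ne_zero), one_pow, mul_one]
    refine le_trans ?_ hgrow
    have h1 : j * τ ^ d ≤ (R + 1 + τ) * τ ^ d := Nat.mul_le_mul_right _ (by omega)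
    exact_mod_cast Submodule.finrank_mono (hW.mono (by omega) le_rfl)
  · rw [hdeg]
    omega
  · rw [← hτ]
    omega
  · have h1 : (1 - 1 / (2 * (2 : ℝ))) ^ (3 * R) ≤ (1 / 2) ^ R := by
      rw [pow_mul]
      exact pow_le_pow_left₀ (by norm_num) (by norm_num) R
    have h2 : (0 : ℝ) < 2 ^ R := by positivity
    have h3 : (1 / 2 : ℝ) ^ R = 1 / 2 ^ R := by rw [one_div, inv_pow, one_div]
    rw [h3] at h1
    have h4 : 2 * C * (1 - 1 / (2 * (2 : ℝ))) ^ (3 * R) ≤ 2 * C * (1 / 2 ^ R) :=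
      mul_le_mul_of_nonneg_left h1 (by linarith)
    have h5 : 2 * ((c : ℝ) + 1) * N * (2 * C * (1 - 1 / (2 * (2 : ℝ))) ^ (3 * R) + C / 2 ^ R) ≤
        2 * (c + 1) * N * (2 * C * (1 / 2 ^ R) + C / 2 ^ R) :=
      mul_le_mul_of_nonneg_left (by linarith) (by positivity)
    have h6 : 2 * ((c : ℝ) + 1) * N * (2 * C * (1 / 2 ^ R) + C / 2 ^ R) =
        3 / 8 * (16 * (c + 1) * C * N / 2 ^ R) := by
      ring
    have h7 : 16 * ((c : ℝ) + 1) * C * N / 2 ^ R ≤ 1 := (div_le_one h2).2 hR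
    linarith

/-- The lower bound for refutations. -/
theorem flat_refutation {p d N R c w : ℕ} [CharP K p] (hW : World M act A) {C : ℝ} (hC : 0 ≤ C)
    (hpos : 0 < Module.finrank K (M 0))
    (hgrow : (Module.finrank K (M A) : ℝ) ≤ C * Module.finrank K (M 0))
    {S : Set Rule} (hS : ∀ R ∈ S, R.Sound p ∧ R.cost + 5 ≤ c ∧ R.nodes.length ≤ c)
    (hR : 16 * (c + 1) * C * N ≤ 2 ^ R) (hR1 : 1 ≤ R)
    (hA : (c + w + 4) * (3 * R * (Fintype.card K - 1)) ^ (d + 1) ≤ A)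
    {Φ : Set (Form V)} (hΦ : ∀ φ ∈ Φ, ∃ D : List (V × Bool), φ = clause D ∧ D.length ≤ w ∧
      ∀ u ∈ M 0, act (fals K D) u = 0)
    {l : ℕ} {L : Fin l → Form V} (hL : IsDerivation S d Φ L) (hf : ∃ i, L i = falsum) :
    N < size L := by
  by_contra hcon
  rw [not_lt] at hcon
  obtain ⟨Z, H, hZ, hH, -, h1, -⟩ := flat_holds (p := p) hW hC hpos hgrow hS hR hR1 hA hΦ hL hcon
  obtain ⟨i, hi⟩ := hf
  apply hZ.one
  have h2 := h1 i
  rw [hi] at h2
  have h3 : pv H (falsum : Form V) = 0 := by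
    have h4 : pv H (falsum : Form V) = 1 - H [] := rfl
    rw [h4, hH.nil, sub_self]
  rwa [h3, sub_zero] at h2

/-- The lower bound for proofs of the tautology that says that one of the clauses is false. -/
theorem flat_tautology {p d N R c w : ℕ} [CharP K p] (hW : World M act A) {C : ℝ} (hC : 0 ≤ C)
    (hpos : 0 < Module.finrank K (M 0))
    (hgrow : (Module.finrank K (M A) : ℝ) ≤ C * Module.finrank K (M 0))
    {S : Set Rule} (hS : ∀ R ∈ S, R.Sound p ∧ R.cost + 5 ≤ c ∧ R.nodes.length ≤ c)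
    (hR : 16 * (c + 1) * C * N ≤ 2 ^ R) (hR1 : 1 ≤ R)
    (hA : (c + w + 4) * (3 * R * (Fintype.card K - 1)) ^ (d + 1) ≤ A)
    {F : List (List (V × Bool))} (hF : ∀ D ∈ F, D.length ≤ w ∧ ∀ u ∈ M 0, act (fals K D) u = 0)
    {l : ℕ} {L : Fin l → Form V} (hL : IsDerivation S d ∅ L) (hf : ∃ i, L i = .neg (cnf F)) :
    N < size L := by
  by_contra hcon
  rw [not_lt] at hcon
  obtain ⟨Z, H, hZ, hH, hcl, h1, h0⟩ := flat_holds (p := p) (w := w) hW hC hpos hgrow hS hR hR1 hA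
    (fun φ hφ => absurd hφ (Set.notMem_empty φ)) hL hcon
  obtain ⟨i, hi⟩ := hf
  apply hZ.one
  obtain ⟨τ, hτ⟩ : ∃ τ, τ = 3 * R * (Fintype.card K - 1) := ⟨_, rfl⟩
  have hc0 : 0 < Fintype.card K - 1 := card_sub_pos
  have hτR : 3 * R ≤ τ := by
    rw [hτ]
    exact Nat.le_mul_of_pos_right _ hc0
  have hdeg : deg K (3 * R) (d + 1) = τ ^ (d + 1) := by
    unfold deg
    rw [hτ]
  have hT1 : 1 ≤ τ ^ d := Nat.one_le_pow _ _ (by omega)
  have hτT : τ ≤ τ ^ (d + 1) := by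
    rw [pow_succ']
    exact Nat.le_mul_of_pos_right _ hT1
  rw [← hτ] at hA
  have hA1 : (c + w + 4) * τ ^ (d + 1) = c * τ ^ (d + 1) + w * τ ^ (d + 1) + 4 * τ ^ (d + 1) := by
    ring
  rw [hA1] at hA
  have hw1 : w ≤ w * τ ^ (d + 1) := Nat.le_mul_of_pos_right _ (by omega)
  have hk : 1 ≤ 3 * R := by omega
  have hdi : (Form.neg (cnf F)).depth ≤ d := by
    rw [← hi]
    exact (hL i).1
  have h2 := h1 i
  rw [hi, pv_neg, sub_sub_cancel] at h2
  have hcnf : cnf F ∈ (L i).parts := by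
    rw [hi]
    exact Set.mem_insert_of_mem _ (self_mem_parts _)
  have h3 : 1 - pv H (cnf F) ∈ Z := by
    refine hZ.cnf hH hk hdi (by rw [hdeg]; omega) fun D hD => ?_
    have h4 : clause D ∈ (L i).parts := by
      refine parts_trans ?_ hcnf
      obtain ⟨j, hj⟩ := List.get_of_mem (List.mem_map.2 ⟨D, hD, rfl⟩ : clause D ∈ F.map clause)
      refine Set.mem_insert_of_mem _ (Set.mem_iUnion.2 ⟨j, ?_⟩)
      rw [hj]
      exact self_mem_parts _
    exact hZ.clause hH hk ((hcl i _ h4).1 trivial) (hF D hD).1 (h0 _ (hF D hD).2)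
      (by rw [← hτ]; omega)
  have h5 := Z.add_mem h2 h3
  rwa [add_sub_cancel] at h5

/-- A finite set of rules has a common bound for the costs. -/
theorem exists_cost {S : Set Rule} (hS : S.Finite) :
    ∃ c : ℕ, ∀ R ∈ S, R.cost + 5 ≤ c ∧ R.nodes.length ≤ c := by
  obtain ⟨c, hc⟩ := (hS.image fun R => R.cost + 5 + R.nodes.length).bddAbove
  refine ⟨c, fun R hR => ?_⟩
  have h1 := hc (Set.mem_image_of_mem _ hR)
  exact ⟨(Nat.le_add_right _ _).trans h1, (Nat.le_add_left _ _).trans h1⟩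

end Pool.Agent.MP_9cec2c_lc.FG
end
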