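import Pool.Agent.Lib.MP_9cec2c_lc.Mg.G036
import Pool.Agent.Lib.MP_9cec2c_lc.Mg.G034
import Pool.Agent.Lib.MP_9cec2c_lc.Mg.G060
import Pool.Agent.Lib.MP_9cec2c_lc.PFDefs
import Pool.Agent.Lib.MP_9cec2c_lc.CDDefs
import Pool.Agent.Lib.MP_9cec2c_lc.Mg.G061
import Pool.Agent.Lib.MP_9cec2c_lc.Mg.G028
import Pool.Agent.Lib.MP_9cec2c_lc.Mg.G029
import Pool.Agent.Lib.MP_9cec2c_lc.Mg.G039

section

/-!
The choice of the approximations and of the vector on which they are correct, in a graded world.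
The axioms.
-/

set_option autoImplicit false
set_option linter.unusedSectionVars false

namespace Pool.Agent.MP_9cec2c_lc.GW

open Finset Frege FG

/-! ### Linear algebra -/

section linear

variable {K W : Type} [Field K] [AddCommGroup W] [Module K W] [FiniteDimensional K W]

theorem codim_add (B X : Submodule K W) :
    codim B X + Module.finrank K (B ⊓ X : Submodule K W) = Module.finrank K B :=
  Nat.sub_add_cancel (Submodule.finrank_mono inf_le_left)

theorem codim_inf (B X X' : Submodule K W) : codim B (X ⊓ X') ≤ codim B X + codim B X' := by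
  have h1 := Submodule.finrank_sup_add_finrank_inf_eq (B ⊓ X) (B ⊓ X')
  have h2 : B ⊓ X ⊓ (B ⊓ X') = B ⊓ (X ⊓ X') := by
    ext f
    simp only [Submodule.mem_inf]
    tauto
  have h3 := Submodule.finrank_mono (sup_le (inf_le_left (a := B) (b := X))
    (inf_le_left (a := B) (b := X')))
  have h4 := codim_add B X
  have h5 := codim_add B X'
  have h6 := codim_add B (X ⊓ X')
  rw [h2] at h1
  omega

theorem codim_finset {ι : Type} (B : Submodule K W) (s : Finset ι) (X : ι → Submodule K W) :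
    codim B (s.inf X) ≤ ∑ i ∈ s, codim B (X i) := by
  classical
  induction s using Finset.induction_on with
  | empty =>
    rw [inf_empty, sum_empty]
    unfold codim
    rw [inf_top_eq, Nat.sub_self]
  | insert a s ha ih =>
    rw [inf_insert, sum_insert ha]
    exact (codim_inf _ _ _).trans (Nat.add_le_add_left ih _)

/-- A vector in many spaces of small codimension. -/
theorem exists_in_all {ι : Type} (B J : Submodule K W) (s : Finset ι) (X : ι → Submodule K W)
    (h : ∑ i ∈ s, codim B (X i) + Module.finrank K (B ⊓ J : Submodule K W) <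
      Module.finrank K B) : ∃ f ∈ B, f ∉ J ∧ ∀ i ∈ s, f ∈ X i := by
  classical
  have h1 := codim_finset B s X
  have h2 := codim_add B (s.inf X)
  by_contra hcon
  push Not at hcon
  have h3 : B ⊓ s.inf X ≤ B ⊓ J := by
    intro f hf
    refine ⟨hf.1, ?_⟩
    by_contra hJ
    obtain ⟨i, hi, hfi⟩ := hcon f hf.1 hJ
    exact hfi ((Finset.inf_le hi : s.inf X ≤ X i) hf.2)
  have h4 := Submodule.finrank_mono h3
  omega

end linear

variable {K V W : Type} [Field K] [AddCommGroup W] [Module K W]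
  [FiniteDimensional K W] {M N : ℕ → Submodule K W} {act : Fun K V →ₗ[K] W →ₗ[K] W}

/-- Saturation: on a space of small codimension, a vector that `Q` maps to zero at the level `A`
is mapped to zero at the level `e`. -/
theorem exists_sat (hW : GWorld M N act) {A τ e : ℕ} {C w : ℝ} (hB : Bounds M N A τ C w)
    (he : e ≤ A) {Q : Fun K V} (hQ : Q ∈ Pol K V e) :
    ∃ X : Submodule K W, codim (M 0) X ≤ τ ∧
      ∀ f ∈ M 0, f ∈ X → act Q f ∈ N A → act Q f ∈ N e := by
  obtain ⟨U, hU⟩ : ∃ U : Submodule K W, U = M 0 ⊓ (N A).comap (act Q) := ⟨_, rfl⟩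
  obtain ⟨U', hU'⟩ : ∃ U' : Submodule K W, U' = M 0 ⊓ (N e).comap (act Q) := ⟨_, rfl⟩
  have hUm : ∀ f, f ∈ U ↔ f ∈ M 0 ∧ act Q f ∈ N A := fun f => by
    rw [hU, Submodule.mem_inf, Submodule.mem_comap]
  have hUm' : ∀ f, f ∈ U' ↔ f ∈ M 0 ∧ act Q f ∈ N e := fun f => by
    rw [hU', Submodule.mem_inf, Submodule.mem_comap]
  have hUU : U' ≤ U := fun f hf =>
    (hUm f).2 ⟨((hUm' f).1 hf).1, hW.monoN he ((hUm' f).1 hf).2⟩
  -- a complement of `U` in `M 0`
  obtain ⟨Y, hY⟩ := Submodule.exists_isCompl U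
  refine ⟨U' ⊔ Y, ?_, fun f hf hfX hfA => ?_⟩
  · -- the dimension of `U / U'`
    have h1 : Module.finrank K U ≤ Module.finrank K U' + τ := by
      have h2 := finrank_map_add U (act Q)
      have h3 := finrank_map_add U' (act Q)
      have h4 : U' ⊓ LinearMap.ker (act Q) = U ⊓ LinearMap.ker (act Q) := by
        refine le_antisymm (inf_le_inf_right _ hUU) fun f hf => ⟨(hUm' f).2 ⟨?_, ?_⟩, hf.2⟩
        · exact ((hUm f).1 hf.1).1
        · rw [LinearMap.mem_ker.1 hf.2]
          exact (N e).zero_mem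
      have h5 : U.map (act Q) ⊓ N e ≤ U'.map (act Q) := by
        rintro g ⟨⟨f, hf, rfl⟩, hg⟩
        exact ⟨f, (hUm' f).2 ⟨((hUm f).1 hf).1, hg⟩, rfl⟩
      have h6 : U.map (act Q) ⊔ N e ≤ M e ⊓ N A := by
        refine sup_le ?_ (le_inf (hW.le e) (hW.monoN he))
        rintro g ⟨f, hf, rfl⟩
        have h7 := hW.memM 0 e Q f hQ ((hUm f).1 hf).1
        rw [zero_add] at h7
        exact ⟨h7, ((hUm f).1 hf).2⟩
      have h7 := Submodule.finrank_sup_add_finrank_inf_eq (U.map (act Q)) (N e)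
      have h8 := Submodule.finrank_mono h5
      have h9 := Submodule.finrank_mono h6
      have h10 := hB.hdef e A he le_rfl
      rw [h4] at h3
      omega
    have hU0 : U ≤ M 0 := fun f hf => ((hUm f).1 hf).1
    have h2 : U ⊔ Y ⊓ M 0 = M 0 := by
      rw [← sup_inf_assoc_of_le _ hU0, hY.sup_eq_top, top_inf_eq]
    have h3 : U ⊓ (Y ⊓ M 0) = ⊥ := by
      rw [← inf_assoc, hY.inf_eq_bot, bot_inf_eq]
    have h4 : U' ⊓ (Y ⊓ M 0) = ⊥ := by
      rw [eq_bot_iff, ← h3]
      exact inf_le_inf_right _ hUU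
    have h5 := Submodule.finrank_sup_add_finrank_inf_eq U (Y ⊓ M 0)
    have h6 := Submodule.finrank_sup_add_finrank_inf_eq U' (Y ⊓ M 0)
    rw [h2, h3, finrank_bot] at h5
    rw [h4, finrank_bot] at h6
    have h7 : U' ⊔ Y ⊓ M 0 ≤ M 0 ⊓ (U' ⊔ Y) :=
      le_inf (sup_le (hUU.trans hU0) inf_le_right) (sup_le_sup_left inf_le_left _)
    have h8 := Submodule.finrank_mono h7
    have h9 := codim_add (M 0) (U' ⊔ Y)
    omega
  · have hfU : f ∈ U := (hUm f).2 ⟨hf, hfA⟩
    obtain ⟨u, hu, y, hy, huy⟩ := Submodule.mem_sup.1 hfX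
    have hyU : y ∈ U := by
      have h1 : y = f - u := by rw [← huy, add_sub_cancel_left]
      rw [h1]
      exact U.sub_mem hfU (hUU hu)
    have hy0 : y = 0 := by
      have h1 := hY.1.le_bot ⟨hyU, hy⟩
      exact (Submodule.mem_bot K).1 h1
    rw [← huy, hy0, add_zero]
    exact ((hUm' u).1 hu).2

/-! ### The choice of the approximations -/

variable [Fintype K] {k n : ℕ} {ρ : ℝ}

/-- The function `h` is a good approximation for the list `L`. -/
def Apx (M N : ℕ → Submodule K W) (act : Fun K V →ₗ[K] W →ₗ[K] W) (k n : ℕ) (ρ : ℝ)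
    (L : List (Fun K V)) (h : Fun K V) : Prop :=
  Hor k {g | g ∈ L} h ∧ (codim (M 0) (nul act (N n) {g | g ∈ L} h) : ℝ) ≤ ρ ∧
    ∀ g, L = [g] → h = 1 - g

open Classical in
/-- The choice of an approximation for the list `L`. -/
noncomputable def apx (M N : ℕ → Submodule K W) (act : Fun K V →ₗ[K] W →ₗ[K] W) (k n : ℕ)
    (ρ : ℝ) (L : List (Fun K V)) : Fun K V :=
  if h : ∃ h, Apx M N act k n ρ L h then h.choose else 1

theorem apx_spec {L : List (Fun K V)} (h : ∃ h, Apx M N act k n ρ L h) :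
    Apx M N act k n ρ L (apx M N act k n ρ L) := by
  classical
  unfold apx
  rw [dif_pos h]
  exact h.choose_spec

theorem exists_apx_single (hk : 1 ≤ k) (hρ : 0 ≤ ρ) {g : Fun K V} (hg : Bin g) :
    ∃ h, Apx M N act k n ρ [g] h := by
  refine ⟨1 - g, hor_single hk hg, ?_, fun g' hg' => ?_⟩
  · have h1 : nul act (N n) {g' | g' ∈ [g]} (1 - g) = ⊤ := by
      rw [eq_top_iff]
      intro f _ g' hg'
      rw [List.mem_singleton.1 hg', mul_sub, mul_one, hg.mul_self, sub_self, map_zero,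
        LinearMap.zero_apply]
      exact (N n).zero_mem
    have h2 : codim (M 0) (nul act (N n) {g' | g' ∈ [g]} (1 - g)) = 0 := by
      unfold codim
      rw [h1, inf_top_eq, Nat.sub_self]
    rw [h2, Nat.cast_zero]
    exact hρ
  · rw [List.singleton_inj.1 hg']

theorem apx_choice (hk : 1 ≤ k) (hρ : 0 ≤ ρ) :
    Choice k (apx M N act k n ρ : List (Fun K V) → Fun K V) := by
  classical
  constructor
  · intro L _
    by_cases h : ∃ h, Apx M N act k n ρ L h
    · exact (apx_spec h).1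
    · unfold apx
      rw [dif_neg h]
      exact hor_one _ _
  · intro g hg
    exact (apx_spec (exists_apx_single hk hρ hg)).2.2 g rfl

open Classical in
theorem exists_apx (hW : GWorld M N act) {A τ t m β : ℕ} {C w : ℝ} (hC : 1 ≤ C) (hw : 0 ≤ w)
    (hB : Bounds M N A τ C w) (hk : 1 ≤ k) {L : List (Fun K V)} (hb : ∀ g ∈ L, Bin g)
    (ht : ∀ g ∈ L, g ∈ Pol K V t) (hβ : L.toFinset.card ≤ β)
    (hA : (m + k + 4) * (Fintype.card K * t) ≤ A) :
    ∃ h, Apx M N act k (t + k * ((Fintype.card K - 1) * t))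
      ((2 * C * (3 / 4) ^ k + C / 2 ^ m) * w + 4 * β * τ) L h := by
  by_cases h1 : ∃ g, L = [g]
  · obtain ⟨g, rfl⟩ := h1
    exact exists_apx_single hk (by positivity) (hb g (List.mem_singleton.2 rfl))
  · obtain ⟨h, hh, hr⟩ := exists_hor hW (G := L.toFinset) hC hw hB
      (fun g hg => hb g (List.mem_toFinset.1 hg)) (fun g hg => ht g (List.mem_toFinset.1 hg)) k hA
    have h2 : ((L.toFinset : Finset (Fun K V)) : Set (Fun K V)) = {g | g ∈ L} := by
      ext g
      rw [mem_coe, List.mem_toFinset]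
      exact Iff.rfl
    rw [h2] at hh hr
    refine ⟨h, hh, hr.trans ?_, fun g hg => absurd ⟨g, hg⟩ h1⟩
    have h3 : (4 : ℝ) * L.toFinset.card * τ ≤ 4 * β * τ := by
      have h4 : ((L.toFinset.card : ℕ) : ℝ) ≤ β := by exact_mod_cast hβ
      exact mul_le_mul_of_nonneg_right (by linarith) (Nat.cast_nonneg _)
    linarith

/-- A vector on which finitely many approximations are correct and finitely many functions are
saturated. -/
theorem exists_vector (hW : GWorld M N act) {A τ e : ℕ} {C w : ℝ} (hB : Bounds M N A τ C w)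
    (he : e ≤ A) (𝓛 : Finset (List (Fun K V))) (𝓠 : Finset (Fun K V))
    (h𝓛 : ∀ L ∈ 𝓛, ∃ h, Apx M N act k n ρ L h) (h𝓠 : ∀ Q ∈ 𝓠, Q ∈ Pol K V e)
    (hρ : 𝓛.card * ρ + 𝓠.card * τ + Module.finrank K (M 0 ⊓ N A : Submodule K W) <
      Module.finrank K (M 0)) :
    ∃ f ∈ M 0, f ∉ N A ∧ (∀ L ∈ 𝓛, ∀ g ∈ L, act (g * apx M N act k n ρ L) f ∈ N n) ∧
      ∀ Q ∈ 𝓠, act Q f ∈ N A → act Q f ∈ N e := by
  classical
  have hsat : ∀ Q : Fun K V, ∃ X : Submodule K W, Q ∈ 𝓠 → codim (M 0) X ≤ τ ∧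
      ∀ f ∈ M 0, f ∈ X → act Q f ∈ N A → act Q f ∈ N e := by
    intro Q
    by_cases hQ : Q ∈ 𝓠
    · obtain ⟨X, hX⟩ := exists_sat hW hB he (h𝓠 Q hQ)
      exact ⟨X, fun _ => hX⟩
    · exact ⟨⊤, fun h => absurd h hQ⟩
  choose X hX using hsat
  obtain ⟨f, hf, hfA, hf1⟩ := exists_in_all (M 0) (N A) (𝓛.disjSum 𝓠)
    (Sum.elim (fun L => nul act (N n) {g | g ∈ L} (apx M N act k n ρ L)) X) (by
      rw [sum_disjSum]
      have h1 : (∑ L ∈ 𝓛, codim (M 0) (nul act (N n) {g | g ∈ L} (apx M N act k n ρ L)) : ℝ) ≤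
          𝓛.card * ρ := by
        rw [← nsmul_eq_mul]
        exact sum_le_card_nsmul _ _ _ fun L hL => (apx_spec (h𝓛 L hL)).2.1
      have h2 : ∑ Q ∈ 𝓠, codim (M 0) (X Q) ≤ 𝓠.card * τ := by
        rw [← smul_eq_mul]
        exact sum_le_card_nsmul _ _ _ fun Q hQ => (hX Q hQ).1
      have h3 : ((∑ Q ∈ 𝓠, codim (M 0) (X Q) : ℕ) : ℝ) ≤ 𝓠.card * τ := by exact_mod_cast h2
      have h4 : ((∑ L ∈ 𝓛, codim (M 0) (nul act (N n) {g | g ∈ L} (apx M N act k n ρ L)) +
          ∑ Q ∈ 𝓠, codim (M 0) (X Q) + Module.finrank K (M 0 ⊓ N A : Submodule K W) : ℕ) : ℝ) <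
          Module.finrank K (M 0) := by
        push_cast at h3 ⊢
        linarith
      exact_mod_cast h4)
  refine ⟨f, hf, hfA, fun L hL g hg => ?_, fun Q hQ h => ?_⟩
  · exact hf1 (Sum.inl L) (inl_mem_disjSum.2 hL) g hg
  · exact (hX Q hQ).2 f hf (hf1 (Sum.inr Q) (inr_mem_disjSum.2 hQ)) h

/-- The functions of degree at most `n` that map a vector to zero at the level `n`. -/
def zer (N : ℕ → Submodule K W) (act : Fun K V →ₗ[K] W →ₗ[K] W) (f : W) (n : ℕ) :
    Submodule K (Fun K V) := Pol K V n ⊓ (N n).comap (act.flip f)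

theorem mem_zer {f : W} {Q : Fun K V} : Q ∈ zer N act f n ↔ Q ∈ Pol K V n ∧ act Q f ∈ N n :=
  Iff.rfl

/-- The functions that act as zero on a vector. -/
theorem kill_of_world (hW : GWorld M N act) {A : ℕ} {f : W} (hf : f ∉ N A) :
    Kill A (zer N act f) := by
  constructor
  · intro n m hnm Q hQ
    exact ⟨Pol_mono hnm hQ.1, hW.monoN hnm hQ.2⟩
  · exact fun n Q hQ => hQ.1
  · intro e n P Q hP hQ
    refine mem_zer.2 ⟨Frege.mul_mem hP hQ.1, ?_⟩
    rw [hW.act_mul, add_comm]
    exact hW.memN n e P _ hP (mem_zer.1 hQ).2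
  · intro h
    have h1 := (mem_zer.1 h).2
    rw [hW.act_one] at h1
    exact hf h1

/-! ### Clauses -/

open Classical in
/-- The function that says that the literal holds. -/
noncomputable def sat (K : Type) [Field K] {V : Type} (l : V × Bool) : Fun K V :=
  fun x => if x l.1 = l.2 then 1 else 0

/-- The clause `D` is dead in the world at the width `w`: the function 1 is the sum of multiples of
its literals and of a function `u` that maps the level 0 to zero vectors. -/
def DeadIn (M N : ℕ → Submodule K W) (act : Fun K V →ₗ[K] W →ₗ[K] W) (w : ℕ)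
    (D : List (V × Bool)) : Prop :=
  ∃ (P : Fin D.length → Fun K V) (u : Fun K V), (∀ i, P i ∈ Pol K V w) ∧ u ∈ Pol K V w ∧
    (∀ f ∈ M 0, act u f ∈ N w) ∧ u + ∑ i, P i * sat K (D.get i) = 1

variable {H : List (Fun K V) → Fun K V}

theorem pv_lit (l : V × Bool) : pv H (lit l) = sat K l := by
  classical
  funext x
  have h1 := lit_apply (H := H) l x
  rw [Pi.sub_apply, Pi.one_apply] at h1
  show pv H (lit l) x = if x l.1 = l.2 then 1 else 0
  by_cases h2 : x l.1 = l.2
  · rw [if_neg (not_not.2 h2), sub_eq_zero] at h1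
    rw [if_pos h2, ← h1]
  · rw [if_pos h2] at h1
    rw [if_neg h2]
    linear_combination -h1

omit [Fintype K] in
theorem sat_eq (l : V × Bool) : 1 - sat K l = fals K [l] := by
  classical
  funext x
  show 1 - (if x l.1 = l.2 then (1 : K) else 0) = if ∀ l' ∈ [l], x l'.1 ≠ l'.2 then 1 else 0
  by_cases h2 : x l.1 = l.2
  · rw [if_pos h2, if_neg fun h => h l (List.mem_singleton.2 rfl) h2, sub_self]
  · rw [if_neg h2, if_pos, sub_zero]
    intro l' hl'
    rw [List.mem_singleton.1 hl']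
    exact h2

end Pool.Agent.MP_9cec2c_lc.GW
end

section

/-!
Clauses and formulas in conjunctive normal form in a graded world.
-/

set_option autoImplicit false
set_option linter.unusedSectionVars false

namespace Pool.Agent.MP_9cec2c_lc.GW

open Finset Frege FG

section world

variable {K V W : Type} [Field K] [AddCommGroup W] [Module K W]
  {M N : ℕ → Submodule K W} {act : Fun K V →ₗ[K] W →ₗ[K] W}

theorem sat_mem (l : V × Bool) : sat K l ∈ Pol K V 1 := by
  classical
  obtain ⟨v, b⟩ := l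
  have h1 : mon K {v} ∈ Pol K V 1 := mon_mem (by rw [card_singleton])
  have h2 : mon K {v} = fun x : V → Bool => if x v = true then (1 : K) else 0 := by
    funext x
    unfold mon
    by_cases h : x v = true
    · rw [if_pos fun u hu => by rw [mem_singleton.1 hu]; exact h, if_pos h]
    · rw [if_neg fun hu => h (hu v (mem_singleton_self v)), if_neg h]
  cases b
  · have h3 : sat K (v, false) = 1 - mon K {v} := by
      rw [h2]
      funext x
      show (if x v = false then (1 : K) else 0) = 1 - if x v = true then (1 : K) else 0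
      cases x v <;> simp
    rw [h3]
    exact Submodule.sub_mem _ (Frege.one_mem _) h1
  · have h3 : sat K (v, true) = mon K {v} := by
      rw [h2]
      rfl
    rw [h3]
    exact h1

theorem fals_cons (l : V × Bool) (D : List (V × Bool)) :
    fals K (l :: D) = (1 - sat K l) * fals K D := by
  classical
  funext x
  show (if ∀ l' ∈ l :: D, x l'.1 ≠ l'.2 then (1 : K) else 0) =
    (1 - if x l.1 = l.2 then (1 : K) else 0) * if ∀ l' ∈ D, x l'.1 ≠ l'.2 then (1 : K) else 0
  by_cases h1 : x l.1 = l.2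
  · rw [if_pos h1, sub_self, zero_mul, if_neg]
    exact fun h => h l List.mem_cons_self h1
  · rw [if_neg h1, sub_zero, one_mul]
    by_cases h2 : ∀ l' ∈ D, x l'.1 ≠ l'.2
    · rw [if_pos h2, if_pos]
      intro l' hl'
      rcases List.mem_cons.1 hl' with rfl | hl'
      · exact h1
      · exact h2 l' hl'
    · rw [if_neg h2, if_neg]
      exact fun h => h2 fun l' hl' => h l' (List.mem_cons_of_mem _ hl')

theorem fals_nil : fals K ([] : List (V × Bool)) = 1 := by
  classical
  funext x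
  exact if_pos fun l hl => absurd hl List.not_mem_nil

theorem fals_mem (D : List (V × Bool)) : fals K D ∈ Pol K V D.length := by
  induction D with
  | nil =>
    rw [fals_nil]
    exact Frege.one_mem _
  | cons l D ih =>
    rw [fals_cons, List.length_cons, add_comm]
    exact Frege.mul_mem (Submodule.sub_mem _ (Frege.one_mem _) (sat_mem l)) ih

theorem fals_sum (D : List (V × Bool)) : ∃ P : Fin D.length → Fun K V,
    (∀ i, P i ∈ Pol K V D.length) ∧ fals K D + ∑ i, P i * sat K (D.get i) = 1 := by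
  induction D with
  | nil =>
    refine ⟨fun _ => 0, fun i => absurd i.2 (Nat.not_lt_zero _), ?_⟩
    rw [fals_nil]
    have h1 : ∑ i : Fin ([] : List (V × Bool)).length,
        (0 : Fun K V) * sat K (([] : List (V × Bool)).get i) = 0 :=
      sum_eq_zero fun i _ => by rw [zero_mul]
    rw [h1, add_zero]
  | cons l D ih =>
    obtain ⟨P, h1, h2⟩ := ih
    obtain ⟨P', hP'⟩ : ∃ P' : Fin (D.length + 1) → Fun K V,
        P' = Fin.cons 1 fun i => (1 - sat K l) * P i := ⟨_, rfl⟩
    have h3 : P' 0 = 1 := by rw [hP', Fin.cons_zero]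
    have h4 : ∀ j, P' (Fin.succ j) = (1 - sat K l) * P j := fun j => by rw [hP', Fin.cons_succ]
    refine ⟨P', fun i => ?_, ?_⟩
    · have h5 : 1 + D.length ≤ (l :: D).length := by rw [List.length_cons, add_comm]
      refine Pol_mono h5 ?_
      refine Fin.cases ?_ (fun j => ?_) i
      · rw [h3]
        exact Frege.one_mem _
      · rw [h4]
        exact Frege.mul_mem (Submodule.sub_mem _ (Frege.one_mem _) (sat_mem l)) (h1 j)
    · have h5 : ∑ i : Fin (l :: D).length, P' i * sat K ((l :: D).get i) =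
          sat K l + (1 - sat K l) * ∑ i, P i * sat K (D.get i) := by
        refine (Fin.sum_univ_succ (n := D.length)
          fun i => P' i * sat K ((l :: D).get i)).trans ?_
        rw [h3, one_mul, mul_sum]
        refine congrArg₂ _ rfl (sum_congr rfl fun i _ => ?_)
        rw [h4, mul_assoc]
        rfl
      rw [fals_cons, h5]
      linear_combination (1 - sat K l) * h2

/-- A narrow clause is dead if its falsification acts as zero. -/
theorem deadIn_of_fals {w : ℕ} {D : List (V × Bool)} (hw : D.length ≤ w)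
    (h0 : ∀ f ∈ M 0, act (fals K D) f ∈ N w) : DeadIn M N act w D := by
  obtain ⟨P, h1, h2⟩ := fals_sum (K := K) D
  exact ⟨P, fals K D, fun i => Pol_mono hw (h1 i), Pol_mono hw (fals_mem D), h0, h2⟩

end world

variable {K V : Type} [Field K] [Fintype K] {A k d p w : ℕ} {Z : ℕ → Submodule K (Fun K V)}
  {H : List (Fun K V) → Fun K V}

/-- If a clause is dead, then the negation of its value counts as zero. -/
theorem Kill.clause (hZ : Kill A Z) (hH : Choice k H) (hk : 1 ≤ k) {C : List (V × Bool)}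
    (hc : Clean Z H (2 * deg K k (d + 1)) (orl H (FG.clause C)))
    {P : Fin C.length → Fun K V} {u : Fun K V} (hP : ∀ i, P i ∈ Pol K V w) (hu : u ∈ Z w)
    (h1 : u + ∑ i, P i * sat K (C.get i) = 1) :
    1 - pv H (FG.clause C) ∈ Z (w + 2 * deg K k (d + 1)) := by
  have hd : ∀ g ∈ orl H (FG.clause C), g ∈ Pol K V 1 := by
    intro g hg
    obtain ⟨l, -, rfl⟩ := (orl_clause C g).1 hg
    exact lit_mem hH hk l
  have hT : k * (Fintype.card K - 1) ≤ deg K k (d + 1) := by
    rw [deg_succ]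
    exact Nat.le_mul_of_pos_right _ (Nat.one_le_iff_ne_zero.2
      (pow_ne_zero _ (Nat.mul_pos hk card_sub_pos).ne'))
  have hm : H (orl H (FG.clause C)) ∈ Pol K V (k * (Fintype.card K - 1)) := by
    have h1 := hH.mem (FG.orl_bin hH _) hd
    rwa [mul_one] at h1
  have h2 : 1 - pv H (FG.clause C) = H (orl H (FG.clause C)) * u +
      ∑ i, P i * (sat K (C.get i) * H (orl H (FG.clause C))) := by
    have h3 : pv H (FG.clause C) = 1 - H (orl H (FG.clause C)) := pv_of_disj trivial
    have h4 : ∑ i, P i * (sat K (C.get i) * H (orl H (FG.clause C))) =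
        (∑ i, P i * sat K (C.get i)) * H (orl H (FG.clause C)) := by
      rw [sum_mul]
      exact sum_congr rfl fun i _ => by ring
    rw [h3, h4]
    linear_combination (-H (orl H (FG.clause C))) * h1
  rw [h2]
  refine (Z _).add_mem (hZ.mulle hm hu (by omega)) ((Z _).sum_mem fun i _ => ?_)
  refine hZ.mulle (hP i) (hc _ ((orl_clause C _).2 ⟨C.get i, List.get_mem C i, ?_⟩)) le_rfl
  exact (pv_lit (C.get i)).symm

/-- If all clauses hold, then the formula in conjunctive normal form holds. -/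
theorem Kill.cnf (hZ : Kill A Z) (hH : Choice k H) (hk : 1 ≤ k) {F : List (List (V × Bool))}
    (hd : (FG.cnf F).depth ≤ d)
    (h0 : ∀ C ∈ F, 1 - pv H (FG.clause C) ∈ Z (deg K k (d + 1))) :
    1 - pv H (FG.cnf F) ∈ Z (2 * deg K k (d + 1)) := by
  have h1 := hZ.pv_of_andl (φ := FG.cnf F) hH hk hd (U := 1) (n := deg K k (d + 1))
    (m := 2 * deg K k (d + 1)) (by
      intro g hg
      obtain ⟨φ, hφ, hgφ⟩ := (andl_conjL _ g).1 hg
      obtain ⟨C, hC, rfl⟩ := List.mem_map.1 hφ
      rw [andl_of_not (show ¬ (FG.clause C).IsConj from id), List.map_cons, List.map_nil] at hgφ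
      rw [List.mem_singleton.1 hgφ, mul_one]
      exact h0 C hC) (by omega)
  rwa [mul_one] at h1

end Pool.Agent.MP_9cec2c_lc.GW
end

section

/-!
The clauses of the functional pigeonhole principle, and the trivial lower bound `m + 1` for the size
of refutations by sound rules: a refutation contains at least `m + 1` of the pigeon clauses.
-/

set_option autoImplicit false
set_option linter.unusedSectionVars false

namespace Pool.Agent.MP_9cec2c_lc.PF

open Finset FG

/-! ### The clauses -/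

theorem mem_fphp {M m : ℕ} {D : List ((Fin M × Fin m) × Bool)} :
    D ∈ fphp M m ↔ (∃ i, D = pigeonClause M m i) ∨ (∃ i i' j, i < i' ∧ D = holeClause i i' j) ∨
      ∃ i j j', j < j' ∧ D = funClause i j j' := by
  unfold fphp
  simp only [List.mem_append, List.mem_map, List.mem_flatMap, List.mem_finRange, true_and,
    List.mem_filter, decide_eq_true_eq, or_assoc]
  refine or_congr ?_ (or_congr ?_ ?_)
  · exact ⟨fun ⟨i, hi⟩ => ⟨i, hi.symm⟩, fun ⟨i, hi⟩ => ⟨i, hi.symm⟩⟩
  · exact ⟨fun ⟨i, i', h, j, hj⟩ => ⟨i, i', j, h, hj.symm⟩,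
      fun ⟨i, i', j, h, hj⟩ => ⟨i, i', h, j, hj.symm⟩⟩
  · exact ⟨fun ⟨i, j, j', h, hj⟩ => ⟨i, j, j', h, hj.symm⟩,
      fun ⟨i, j, j', h, hj⟩ => ⟨i, j, j', h, hj.symm⟩⟩

/-- The truth value of a clause. -/
theorem eval_clause' {V : Type} (p : ℕ) (x : V → Bool) (D : List (V × Bool)) :
    (clause D).eval p x ↔ ∃ l ∈ D, x l.1 = l.2 := by
  unfold clause
  rw [eval_disjL]
  have h1 : ∀ l : V × Bool, (lit l).eval p x ↔ x l.1 = l.2 := by
    rintro ⟨v, b⟩
    cases b
    · show ¬ x v = true ↔ x v = false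
      rw [Bool.not_eq_true]
    · exact Iff.rfl
  constructor
  · rintro ⟨φ, hφ, h⟩
    obtain ⟨l, hl, rfl⟩ := List.mem_map.1 hφ
    exact ⟨l, hl, (h1 l).1 h⟩
  · rintro ⟨l, hl, h⟩
    exact ⟨_, List.mem_map.2 ⟨l, hl, rfl⟩, (h1 l).2 h⟩

theorem holds_pigeon {M m : ℕ} {x : Fin M × Fin m → Bool} {i : Fin M} :
    (∃ l ∈ pigeonClause M m i, x l.1 = l.2) ↔ ∃ j, x (i, j) = true := by
  unfold pigeonClause
  constructor
  · rintro ⟨l, hl, h⟩
    obtain ⟨j, -, rfl⟩ := List.mem_map.1 hl
    exact ⟨j, h⟩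
  · rintro ⟨j, h⟩
    exact ⟨_, List.mem_map.2 ⟨j, List.mem_finRange j, rfl⟩, h⟩

theorem holds_hole {M m : ℕ} {x : Fin M × Fin m → Bool} {i i' : Fin M} {j : Fin m} :
    (∃ l ∈ holeClause i i' j, x l.1 = l.2) ↔ ¬ (x (i, j) = true ∧ x (i', j) = true) := by
  unfold holeClause
  simp only [List.mem_cons, List.not_mem_nil, or_false, exists_eq_or_imp, exists_eq_left]
  cases x (i, j) <;> cases x (i', j) <;> simp

theorem holds_fun {M m : ℕ} {x : Fin M × Fin m → Bool} {i : Fin M} {j j' : Fin m} :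
    (∃ l ∈ funClause i j j', x l.1 = l.2) ↔ ¬ (x (i, j) = true ∧ x (i, j') = true) := by
  unfold funClause
  simp only [List.mem_cons, List.not_mem_nil, or_false, exists_eq_or_imp, exists_eq_left]
  cases x (i, j) <;> cases x (i, j') <;> simp

/-- The functional pigeonhole principle is unsatisfiable. -/
theorem fphp_unsat {M m : ℕ} (h : m < M) (x : Fin M × Fin m → Bool) :
    ∃ D ∈ fphp M m, ∀ l ∈ D, x l.1 ≠ l.2 := by
  classical
  by_contra hc
  push Not at hc
  have h1 : ∀ i, ∃ j, x (i, j) = true := fun i =>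
    holds_pigeon.1 (hc _ (mem_fphp.2 (Or.inl ⟨i, rfl⟩)))
  choose e he using h1
  have h2 : Function.Injective e := by
    intro i i' hii
    by_contra hne
    have key : ∀ a a' : Fin M, a < a' → e a = e a' → False := by
      intro a a' haa hee
      refine holds_hole.1 (hc _ (mem_fphp.2 (Or.inr (Or.inl ⟨a, a', e a, haa, rfl⟩)))) ⟨he a, ?_⟩
      rw [hee]
      exact he a'
    rcases lt_or_gt_of_ne hne with h3 | h3
    · exact key _ _ h3 hii
    · exact key _ _ h3 hii.symm
  have h3 := Fintype.card_le_of_injective e h2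
  rw [Fintype.card_fin, Fintype.card_fin] at h3
  omega

/-! ### The trivial bound -/

/-- All lines of a derivation by sound rules are true where the hypotheses among them are true. -/
theorem holds_lines {V : Type} {p : ℕ} {S : Set Rule} (hS : ∀ R ∈ S, R.Sound p)
    {Φ : Set (Form V)} {d l : ℕ} {L : Fin l → Form V} (hL : IsDerivation S d Φ L) {x : V → Bool}
    (hx : ∀ i, L i ∈ Φ → (L i).eval p x) : ∀ i, (L i).eval p x := by
  have key : ∀ n : ℕ, ∀ i : Fin l, (i : ℕ) = n → (L i).eval p x := by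
    intro n
    induction n using Nat.strong_induction_on with
    | _ n ih =>
      intro i hi
      rcases (hL i).2 with h | ⟨R, hR, σ, τ, h1, h2⟩
      · exact hx i h
      · refine hS R hR V σ τ x ?_ _ (by rw [h2]; exact List.mem_singleton_self _)
        intro P hP ψ hψ
        obtain ⟨j, hj, hjψ⟩ := h1 P hP ψ hψ
        rw [← hjψ]
        exact ih j (by rw [← hi]; exact hj) j rfl
  exact fun i => key i i rfl

theorem pigeon_inj {M m : ℕ} (hm : 0 < m) {i i' : Fin M}
    (h : clause (pigeonClause M m i) = clause (pigeonClause M m i')) : i = i' := by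
  by_contra hne
  obtain ⟨x, hx⟩ : ∃ x : Fin M × Fin m → Bool, ∀ a j, x (a, j) = decide (a = i) :=
    ⟨fun v => decide (v.1 = i), fun _ _ => rfl⟩
  have h1 : (clause (pigeonClause M m i)).eval 0 x :=
    (eval_clause' 0 x _).2 (holds_pigeon.2 ⟨⟨0, hm⟩, by rw [hx]; exact decide_eq_true rfl⟩)
  rw [h, eval_clause', holds_pigeon] at h1
  obtain ⟨j, hj⟩ := h1
  rw [hx] at hj
  exact hne (of_decide_eq_true hj).symm

/-- The trivial bound. -/
theorem size_ge {M m p : ℕ} (h : m < M) {S : Set Rule} (hS : ∀ R ∈ S, R.Sound p) {d l : ℕ}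
    {L : Fin l → Form (Fin M × Fin m)} (hL : Refutes S d (fphp M m) L) : m + 1 ≤ size L := by
  classical
  rcases Nat.eq_zero_or_pos m with hm | hm
  · have hl : 1 ≤ l := by
      rcases hL with ⟨-, i, -⟩ | ⟨-, i, -⟩ <;> exact Nat.one_le_iff_ne_zero.2
        (fun h => by subst h; exact i.elim0)
    unfold size
    omega
  rcases hL with ⟨hL, i₀, hi₀⟩ | ⟨hL, i₀, hi₀⟩
  · -- refutations
    obtain ⟨P, hP⟩ : ∃ P : Finset (Fin M), ∀ i, i ∈ P ↔ ∃ k, L k = clause (pigeonClause M m i) :=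
      ⟨univ.filter fun i => ∃ k, L k = clause (pigeonClause M m i), fun i => by simp⟩
    have h1 : m + 1 ≤ P.card := by
      by_contra hc
      have h2 : Fintype.card P ≤ Fintype.card (Fin m) := by
        rw [Fintype.card_coe, Fintype.card_fin]
        omega
      obtain ⟨e⟩ := Function.Embedding.nonempty_of_card_le h2
      obtain ⟨x, hx⟩ : ∃ x : Fin M × Fin m → Bool, ∀ i j, x (i, j) = true ↔
          ∃ hi : i ∈ P, e ⟨i, hi⟩ = j :=
        ⟨fun v => decide (∃ hi : v.1 ∈ P, e ⟨v.1, hi⟩ = v.2), fun i j => by simp⟩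
      have h3 := holds_lines hS hL (x := x) (fun k hk => by
        obtain ⟨D, hD, hkD⟩ := hk
        rw [hkD, eval_clause']
        rcases mem_fphp.1 hD with ⟨i, rfl⟩ | ⟨i, i', j, hii, rfl⟩ | ⟨i, j, j', hjj, rfl⟩
        · have hi : i ∈ P := (hP i).2 ⟨k, hkD⟩
          exact holds_pigeon.2 ⟨e ⟨i, hi⟩, (hx _ _).2 ⟨hi, rfl⟩⟩
        · refine holds_hole.2 ?_
          rintro ⟨h4, h5⟩
          obtain ⟨h6, h7⟩ := (hx _ _).1 h4
          obtain ⟨h8, h9⟩ := (hx _ _).1 h5
          have h10 := e.injective (h7.trans h9.symm)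
          exact absurd (congrArg Subtype.val h10) (ne_of_lt hii)
        · refine holds_fun.2 ?_
          rintro ⟨h4, h5⟩
          obtain ⟨h6, h7⟩ := (hx _ _).1 h4
          obtain ⟨h8, h9⟩ := (hx _ _).1 h5
          exact absurd (h7.symm.trans h9) (ne_of_lt hjj)) i₀
      rw [hi₀] at h3
      obtain ⟨i, -⟩ := h3
      exact i.elim0
    have h2 : P.card ≤ l := by
      have h3 : ∀ i ∈ P, ∃ k : Fin l, L k = clause (pigeonClause M m i) := fun i hi => (hP i).1 hi
      have : Nonempty (Fin l) := ⟨i₀⟩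
      choose! f hf using h3
      have h4 : P.card ≤ (univ : Finset (Fin l)).card := by
        refine card_le_card_of_injOn f (fun i _ => mem_coe.2 (mem_univ _)) ?_
        intro i hi i' hi' hff
        refine pigeon_inj hm ?_
        rw [← hf i hi, ← hf i' hi', hff]
      rwa [card_univ, Fintype.card_fin] at h4
    unfold size
    omega
  · -- proofs of the negation
    have h1 : ∀ i : Fin M, clause (pigeonClause M m i) ∈ {ψ | ∃ k, ψ ∈ (L k).parts} := by
      intro i
      refine ⟨i₀, ?_⟩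
      rw [hi₀]
      refine Set.mem_insert_of_mem _ (Set.mem_insert_of_mem _ ?_)
      have h2 : clause (pigeonClause M m i) ∈ (fphp M m).map clause :=
        List.mem_map.2 ⟨_, mem_fphp.2 (Or.inl ⟨i, rfl⟩), rfl⟩
      obtain ⟨j, hj⟩ := List.get_of_mem h2
      refine Set.mem_iUnion.2 ⟨j, ?_⟩
      rw [hj]
      exact self_mem_parts _
    have h2 : M ≤ {ψ | ∃ k, ψ ∈ (L k).parts}.ncard := by
      have h3 : Set.ncard (Set.range fun i : Fin M => clause (pigeonClause M m i)) = M := by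
        rw [← Set.image_univ, Set.ncard_image_of_injective _ (fun i i' h => pigeon_inj hm h),
          Set.ncard_univ, Nat.card_eq_fintype_card, Fintype.card_fin]
      refine h3.symm.le.trans (Set.ncard_le_ncard ?_ (parts_set_finite L))
      rintro ψ ⟨i, rfl⟩
      exact h1 i
    unfold size
    omega

end Pool.Agent.MP_9cec2c_lc.PF
end

section

/-!
The graded world of the functional pigeonhole principle with `M` pigeons and `m` holes: the functions
on the injections of `b` holes into `N` pigeons. The cube is mapped to in `k` equal copies of `N`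
pigeons and `n ≥ b` holes; in each copy the holes `≥ b` are empty. The remaining pigeons sit in
the remaining holes.
-/

set_option autoImplicit false
set_option linter.unusedSectionVars false

namespace Pool.Agent.MP_9cec2c_lc.GW

open Finset Frege PHS PF

variable {K : Type} [Field K] {M m N n k b : ℕ}

/-- The letter of the pigeon `i`. -/
def ltr (x : Pt N b) (i : ℕ) : ℕ := if h : i < N then (x.1 ⟨i, h⟩).val else 0

/-- The assignment which belongs to a point. -/
def rho (M m N n k b : ℕ) (x : Pt N b) : Fin M × Fin m → Bool := fun v => decide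
  ((v.1.val < k * N ∧ v.2.val < k * n ∧ v.1.val / N = v.2.val / n ∧ v.2.val % n < b ∧
      ltr x (v.1.val % N) = v.2.val % n + 1) ∨
    (k * N ≤ v.1.val ∧ k * n ≤ v.2.val ∧ v.1.val - k * N = v.2.val - k * n))

theorem rho_iff {x : Pt N b} {i : Fin M} {j : Fin m} : rho M m N n k b x (i, j) = true ↔
    (i.val < k * N ∧ j.val < k * n ∧ i.val / N = j.val / n ∧ j.val % n < b ∧
      ltr x (i.val % N) = j.val % n + 1) ∨
    (k * N ≤ i.val ∧ k * n ≤ j.val ∧ i.val - k * N = j.val - k * n) := by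
  unfold rho
  rw [decide_eq_true_eq]

theorem ltr_eq (x : Pt N b) {i : ℕ} (h : i < N) : ltr x i = (x.1 ⟨i, h⟩).val := by
  unfold ltr
  rw [dif_pos h]

/-- A hole letter is used once. -/
theorem ltr_inj (x : Pt N b) {i i' c : ℕ} (hi : i < N) (hi' : i' < N) (hc : c < b)
    (h : ltr x i = c + 1) (h' : ltr x i' = c + 1) : i = i' := by
  rw [ltr_eq x hi] at h
  rw [ltr_eq x hi'] at h'
  have h4 : Ho (⟨c + 1, by omega⟩ : Fin (b + 2)) := by
    refine ⟨fun h => ?_, fun h => ?_⟩
    · have h5 := congrArg Fin.val h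
      have h6 : c + 1 = 0 := h5
      omega
    · have h5 := congrArg Fin.val h
      have h6 : c + 1 = b + 1 := h5
      omega
  obtain ⟨a, -, ha⟩ := x.2.2 _ h4
  have h5 := ha ⟨i, hi⟩ (Fin.ext h)
  have h6 := ha ⟨i', hi'⟩ (Fin.ext h')
  exact congrArg Fin.val (h5.trans h6.symm)

theorem rho_var (v : Fin M × Fin m) :
    (fun x : Pt N b => if rho M m N n k b x v = true then (1 : K) else 0) ∈ FF K N b 1 := by
  obtain ⟨i, j⟩ := v
  by_cases h2 : k * N ≤ i.val ∧ k * n ≤ j.val ∧ i.val - k * N = j.val - k * n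
  · have h1 : (fun x : Pt N b => if rho M m N n k b x (i, j) = true then (1 : K) else 0) = 1 := by
      funext x
      rw [if_pos (rho_iff.2 (Or.inr h2))]
      rfl
    rw [h1]
    exact FF_mono (Nat.zero_le 1) one_mem_FF
  by_cases hj : i.val < k * N ∧ j.val < k * n ∧ i.val / N = j.val / n ∧ j.val % n < b
  · have hN : 0 < N := Nat.pos_of_mul_pos_left (lt_of_le_of_lt (Nat.zero_le _) hj.1)
    have hi : i.val % N < N := Nat.mod_lt _ hN
    have h1 : (fun x : Pt N b => if rho M m N n k b x (i, j) = true then (1 : K) else 0) =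
        fun x : Pt N b => if x.1 ⟨i.val % N, hi⟩ = ⟨j.val % n + 1, by omega⟩ then (1 : K)
          else 0 := by
      funext x
      have h3 : rho M m N n k b x (i, j) = true ↔
          x.1 ⟨i.val % N, hi⟩ = ⟨j.val % n + 1, by omega⟩ := by
        rw [rho_iff, Fin.ext_iff, ltr_eq x hi]
        exact ⟨fun h => (h.resolve_right h2).2.2.2.2, fun h => Or.inl ⟨hj.1, hj.2.1, hj.2.2.1,
          hj.2.2.2, h⟩⟩
      by_cases h4 : x.1 ⟨i.val % N, hi⟩ = ⟨j.val % n + 1, by omega⟩
      · rw [if_pos (h3.2 h4), if_pos h4]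
      · rw [if_neg (fun h => h4 (h3.1 h)), if_neg h4]
    rw [h1]
    exact letter_mem_FF _ _
  · have h1 : (fun x : Pt N b => if rho M m N n k b x (i, j) = true then (1 : K) else 0) = 0 := by
      funext x
      rw [if_neg]
      · rfl
      · rw [rho_iff]
        exact fun h => hj ⟨(h.resolve_right h2).1, (h.resolve_right h2).2.1,
          (h.resolve_right h2).2.2.1, (h.resolve_right h2).2.2.2.1⟩
    rw [h1]
    exact Submodule.zero_mem _

/-- The graded world of the pigeonhole principle. -/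
theorem php_world (K : Type) [Field K] (M m N n k b D : ℕ) :
    GWorld (fun a => FF K N b (D + a)) (fun a => YY K N b (D + a))
      (pullMul K (rho M m N n k b)) :=
  gworld_pull (fun _ _ h => FF_mono h) (fun _ _ h => YY_mono h) (fun a => YY_le_FF a) one_mem_FF
    (fun _ _ _ _ hf hg => mul_mem_FF hf hg) (fun _ _ _ _ hf hg => mul_mem_YY hf hg) rho_var D

/-- A pigeon of a copy sits in one of the first `b` holes of the copy or in none. -/
theorem rho_sum (hb : b ≤ n) (hk : k * n ≤ m) (x : Pt N b) (i : Fin M) (hi : i.val < k * N)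
    (hi' : i.val % N < N) :
    (1 : K) - ∑ j : Fin m, (if rho M m N n k b x (i, j) = true then (1 : K) else 0) =
      if x.1 ⟨i.val % N, hi'⟩ = Fin.last (b + 1) then 1 else 0 := by
  classical
  have hN : 0 < N := lt_of_le_of_lt (Nat.zero_le _) hi'
  have h0 : x.1 ⟨i.val % N, hi'⟩ ≠ 0 := x.2.1 _
  have hcopy : i.val / N < k := by
    rw [Nat.div_lt_iff_lt_mul hN]
    exact hi
  by_cases h1 : x.1 ⟨i.val % N, hi'⟩ = Fin.last (b + 1)
  · rw [if_pos h1, sum_eq_zero, sub_zero]
    intro j _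
    rw [if_neg]
    rw [rho_iff, ltr_eq x hi', h1, Fin.val_last]
    rintro (h2 | h2)
    · omega
    · omega
  · rw [if_neg h1]
    have h2 : (x.1 ⟨i.val % N, hi'⟩).val ≠ 0 := fun h => h0 (Fin.ext h)
    have h3 : (x.1 ⟨i.val % N, hi'⟩).val ≠ b + 1 := fun h => h1 (Fin.ext (by rw [h, Fin.val_last]))
    have h4 := (x.1 ⟨i.val % N, hi'⟩).isLt
    obtain ⟨c, hc⟩ : ∃ c, (x.1 ⟨i.val % N, hi'⟩).val = c + 1 := ⟨_, (Nat.sub_add_cancel
      (Nat.one_le_iff_ne_zero.2 h2)).symm⟩
    have hcb : c < b := by omega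
    have hcn : c < n := by omega
    have h5 : (i.val / N) * n + c < k * n := by
      have h6 : (i.val / N + 1) * n ≤ k * n := Nat.mul_le_mul_right n hcopy
      have h7 : (i.val / N + 1) * n = (i.val / N) * n + n := by ring
      omega
    have h6 : ((i.val / N) * n + c) / n = i.val / N := by
      rw [mul_comm, Nat.mul_add_div (by omega), Nat.div_eq_of_lt hcn, add_zero]
    have h7 : ((i.val / N) * n + c) % n = c := by
      rw [mul_comm, Nat.mul_add_mod, Nat.mod_eq_of_lt hcn]
    rw [sum_eq_single (⟨(i.val / N) * n + c, by omega⟩ : Fin m)]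
    · rw [if_pos, sub_self]
      rw [rho_iff, ltr_eq x hi', hc]
      refine Or.inl ⟨hi, h5, ?_, ?_, ?_⟩
      · show i.val / N = ((i.val / N) * n + c) / n
        exact h6.symm
      · show ((i.val / N) * n + c) % n < b
        rw [h7]
        exact hcb
      · show c + 1 = ((i.val / N) * n + c) % n + 1
        rw [h7]
    · intro j _ hj
      rw [if_neg]
      rw [rho_iff, ltr_eq x hi', hc]
      rintro (⟨-, h8, h9, h10, h11⟩ | ⟨h8, -⟩)
      · refine hj (Fin.ext ?_)
        show j.val = (i.val / N) * n + c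
        have h12 := Nat.div_add_mod j.val n
        have h13 : c = j.val % n := by omega
        rw [h9, h13, mul_comm]
        exact h12.symm
      · omega
    · intro h
      exact absurd (mem_univ _) h

/-- A remaining pigeon sits in exactly one hole. -/
theorem rho_sum' (hM : M + k * n ≤ m + k * N) (x : Pt N b) (i : Fin M) (hi : k * N ≤ i.val) :
    (1 : K) - ∑ j : Fin m, (if rho M m N n k b x (i, j) = true then (1 : K) else 0) = 0 := by
  classical
  have h0 := i.isLt
  rw [sum_eq_single (⟨k * n + (i.val - k * N), by omega⟩ : Fin m)]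
  · rw [if_pos, sub_self]
    rw [rho_iff]
    refine Or.inr ⟨hi, ?_, ?_⟩
    · show k * n ≤ k * n + (i.val - k * N)
      omega
    · show i.val - k * N = k * n + (i.val - k * N) - k * n
      omega
  · intro j _ hj
    rw [if_neg]
    rw [rho_iff]
    rintro (⟨h8, -⟩ | ⟨-, h8, h9⟩)
    · omega
    · refine hj (Fin.ext ?_)
      show j.val = k * n + (i.val - k * N)
      omega
  · intro h
    exact absurd (mem_univ _) h

theorem sat_true_mem {V : Type} (v : V) : sat K (v, true) ∈ Pol K V 1 := by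
  classical
  have h1 : sat K (v, true) = Frege.mon K ({v} : Finset V) := by
    funext x
    unfold Frege.mon sat
    simp
  rw [h1]
  exact mon_mem (card_singleton v).le

theorem sum_get {α : Type} {R : Type} [AddCommMonoid R] (D : List α) (f : α → R) :
    ∑ l : Fin D.length, f (D.get l) = (D.map f).sum := by
  rw [← List.sum_ofFn]
  congr 1
  rw [List.ofFn_eq_map]
  conv_rhs => rw [← List.map_get_finRange D]
  rw [List.map_map]
  rfl

theorem dead_pigeon (hb : b ≤ n) (hk : k * n ≤ m) (hM : M + k * n ≤ m + k * N) (D : ℕ) {e : ℕ}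
    (he : 1 ≤ e) (i : Fin M) :
    DeadIn (fun a => FF K N b (D + a)) (fun a => YY K N b (D + a)) (pullMul K (rho M m N n k b)) e
      (pigeonClause M m i) := by
  classical
  have hsum : ∑ l : Fin (pigeonClause M m i).length, sat K ((pigeonClause M m i).get l) =
      ∑ j : Fin m, sat K ((i, j), true) := by
    rw [sum_get]
    unfold pigeonClause
    rw [List.map_map, ← List.sum_ofFn, List.ofFn_eq_map]
    rfl
  refine ⟨fun _ => 1, 1 - ∑ j : Fin m, sat K ((i, j), true), ?_, ?_, ?_, ?_⟩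
  · intro _
    exact Frege.one_mem _
  · refine Submodule.sub_mem _ (Frege.one_mem _) (Submodule.sum_mem _ fun j _ => ?_)
    exact Pol_mono he (sat_true_mem _)
  · intro f hf
    rw [pullMul_apply]
    by_cases hi : i.val < k * N
    · have hN : 0 < N := Nat.pos_of_mul_pos_left (lt_of_le_of_lt (Nat.zero_le _) hi)
      have hi' : i.val % N < N := Nat.mod_lt _ hN
      have h1 : (fun x : Pt N b => (1 - ∑ j : Fin m, sat K ((i, j), true)) (rho M m N n k b x))
          = fun x : Pt N b => if x.1 ⟨i.val % N, hi'⟩ = Fin.last (b + 1) then (1 : K) else 0 := by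
        funext x
        rw [Pi.sub_apply, Finset.sum_apply, Pi.one_apply]
        exact rho_sum hb hk x i hi hi'
      rw [h1, mul_comm]
      have h2 := mul_mem_YY (K := K) hf (star_mem_YY (K := K) (b := b) ⟨i.val % N, hi'⟩)
      exact YY_mono (by omega) h2
    · have h1 : (fun x : Pt N b => (1 - ∑ j : Fin m, sat K ((i, j), true)) (rho M m N n k b x))
          = 0 := by
        funext x
        rw [Pi.sub_apply, Finset.sum_apply, Pi.one_apply]
        exact rho_sum' hM x i (not_lt.1 hi)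
      rw [h1, zero_mul]
      exact Submodule.zero_mem _
  · simp only [one_mul]
    rw [hsum]
    ring

/-- Two literals which are never both false at the points. -/
theorem fals_two {v v' : Fin M × Fin m}
    (h : ∀ x : Pt N b, ¬ (rho M m N n k b x v = true ∧ rho M m N n k b x v' = true))
    (f : Pt N b → K) :
    pullMul K (rho M m N n k b) (FG.fals K [(v, false), (v', false)]) f = 0 := by
  classical
  rw [pullMul_apply]
  have h1 : (fun x : Pt N b => FG.fals K [(v, false), (v', false)] (rho M m N n k b x)) = 0 := by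
    funext x
    show FG.fals K [(v, false), (v', false)] (rho M m N n k b x) = (0 : K)
    unfold FG.fals
    rw [if_neg]
    intro h2
    have h3 := h2 (v, false) (by simp)
    have h4 := h2 (v', false) (by simp)
    refine h x ⟨?_, ?_⟩
    · simpa using h3
    · simpa using h4
  rw [h1, zero_mul]

/-- All clauses of the functional pigeonhole principle are dead in the world. -/
theorem php_dead (K : Type) [Field K] (hb : b ≤ n) (hk : k * n ≤ m)
    (hM : M + k * n ≤ m + k * N) (D : ℕ) {e : ℕ} (he : 2 ≤ e) :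
    ∀ C ∈ fphp M m, DeadIn (fun a => FF K N b (D + a)) (fun a => YY K N b (D + a))
      (pullMul K (rho M m N n k b)) e C := by
  intro C hC
  rcases mem_fphp.1 hC with ⟨i, rfl⟩ | ⟨i, i', j, hii, rfl⟩ | ⟨i, j, j', hjj, rfl⟩
  · exact dead_pigeon hb hk hM D (by omega) i
  · refine deadIn_of_fals he fun f _ => ?_
    have h0 : ∀ x : Pt N b, ¬ (rho M m N n k b x (i, j) = true ∧
        rho M m N n k b x (i', j) = true) := by
      intro x h
      have hlt : i.val < i'.val := hii
      rw [rho_iff, rho_iff] at h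
      rcases h with ⟨⟨h1, h2, h3, h4, h5⟩ | ⟨h1, h2, h3⟩, ⟨h1', h2', h3', h4', h5'⟩ | ⟨h1', h2', h3'⟩⟩
      · have hN : 0 < N := Nat.pos_of_mul_pos_left (lt_of_le_of_lt (Nat.zero_le _) h1)
        have h6 := ltr_inj x (Nat.mod_lt _ hN) (Nat.mod_lt _ hN) h4 h5 h5'
        have h7 := Nat.div_add_mod i.val N
        have h8 := Nat.div_add_mod i'.val N
        rw [h3, h6] at h7
        rw [h3'] at h8
        omega
      · omega
      · omega
      · omega
    rw [show holeClause i i' j = [((i, j), false), ((i', j), false)] from rfl,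
      fals_two h0 f]
    exact Submodule.zero_mem _
  · refine deadIn_of_fals he fun f _ => ?_
    have h0 : ∀ x : Pt N b, ¬ (rho M m N n k b x (i, j) = true ∧
        rho M m N n k b x (i, j') = true) := by
      intro x h
      have hlt : j.val < j'.val := hjj
      rw [rho_iff, rho_iff] at h
      rcases h with ⟨⟨h1, h2, h3, h4, h5⟩ | ⟨h1, h2, h3⟩, ⟨h1', h2', h3', h4', h5'⟩ | ⟨h1', h2', h3'⟩⟩
      · have h7 := Nat.div_add_mod j.val n
        have h8 := Nat.div_add_mod j'.val n
        have h9 : j.val % n = j'.val % n := by omega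
        rw [← h3, h9] at h7
        rw [← h3'] at h8
        omega
      · omega
      · omega
      · omega
    rw [show funClause i j j' = [((i, j), false), ((i, j'), false)] from rfl,
      fals_two h0 f]
    exact Submodule.zero_mem _

end Pool.Agent.MP_9cec2c_lc.GW
end

section

/-!
The lower bound for the size of derivations in Frege systems from a graded world.
-/

set_option autoImplicit false
set_option linter.unusedSectionVars false

namespace Pool.Agent.MP_9cec2c_lc.GW

open Finset Frege FG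

section members

variable {K V : Type} [Field K] [Fintype K] {H : List (Fun K V) → Fun K V}

theorem mem_parts_conj {φ : Form V} {m : ℕ} {F : Fin m → Form V} {i : Fin m}
    (h : φ ∈ (F i).parts) : φ ∈ (Form.conj m F).parts :=
  Set.mem_insert_of_mem _ (Set.mem_iUnion.2 ⟨i, h⟩)

theorem mem_parts_disj {φ : Form V} {m : ℕ} {F : Fin m → Form V} {i : Fin m}
    (h : φ ∈ (F i).parts) : φ ∈ (Form.disj m F).parts :=
  Set.mem_insert_of_mem _ (Set.mem_iUnion.2 ⟨i, h⟩)

theorem orl_parts (φ : Form V) : ∀ g ∈ orl H φ, ∃ χ ∈ φ.parts, g = pv H χ := by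
  induction φ with
  | disj m F ih =>
    intro g hg
    rw [orl_disj, List.mem_flatMap] at hg
    obtain ⟨i, -, hi⟩ := hg
    obtain ⟨χ, h1, h2⟩ := ih i g hi
    exact ⟨χ, mem_parts_disj h1, h2⟩
  | var v =>
    intro g hg
    rw [orl_of_not (show ¬ (Form.var v).IsDisj from id)] at hg
    exact ⟨_, self_mem_parts _, List.mem_singleton.1 hg⟩
  | neg φ ih =>
    intro g hg
    rw [orl_of_not (show ¬ (Form.neg φ).IsDisj from id)] at hg
    exact ⟨_, self_mem_parts _, List.mem_singleton.1 hg⟩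
  | conj m F ih =>
    intro g hg
    rw [orl_of_not (show ¬ (Form.conj m F).IsDisj from id)] at hg
    exact ⟨_, self_mem_parts _, List.mem_singleton.1 hg⟩
  | count r m F ih =>
    intro g hg
    rw [orl_of_not (show ¬ (Form.count r m F).IsDisj from id)] at hg
    exact ⟨_, self_mem_parts _, List.mem_singleton.1 hg⟩

theorem andl_parts (φ : Form V) : ∀ g ∈ andl H φ, ∃ χ ∈ φ.parts, g = pv H χ := by
  induction φ with
  | conj m F ih =>
    intro g hg
    rw [andl_conj, List.mem_flatMap] at hg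
    obtain ⟨i, -, hi⟩ := hg
    obtain ⟨χ, h1, h2⟩ := ih i g hi
    exact ⟨χ, mem_parts_conj h1, h2⟩
  | var v =>
    intro g hg
    rw [andl_of_not (show ¬ (Form.var v).IsConj from id)] at hg
    exact ⟨_, self_mem_parts _, List.mem_singleton.1 hg⟩
  | neg φ ih =>
    intro g hg
    rw [andl_of_not (show ¬ (Form.neg φ).IsConj from id)] at hg
    exact ⟨_, self_mem_parts _, List.mem_singleton.1 hg⟩
  | disj m F ih =>
    intro g hg
    rw [andl_of_not (show ¬ (Form.disj m F).IsConj from id)] at hg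
    exact ⟨_, self_mem_parts _, List.mem_singleton.1 hg⟩
  | count r m F ih =>
    intro g hg
    rw [andl_of_not (show ¬ (Form.count r m F).IsConj from id)] at hg
    exact ⟨_, self_mem_parts _, List.mem_singleton.1 hg⟩

open Classical in
theorem card_pos_le {Pt : Finset (Form V)} {L : List (Fun K V)}
    (h : ∀ g ∈ L, ∃ χ ∈ Pt, g = pv H χ) : L.toFinset.card ≤ Pt.card := by
  have h1 : L.toFinset ⊆ Pt.image (pv H) := by
    intro g hg
    obtain ⟨χ, h2, h3⟩ := h g (List.mem_toFinset.1 hg)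
    exact mem_image.2 ⟨χ, h2, h3.symm⟩
  exact (card_le_card h1).trans card_image_le

open Classical in
theorem card_neg_le {Pt : Finset (Form V)} {L : List (Fun K V)}
    (h : ∀ g ∈ L, ∃ χ ∈ Pt, g = 1 - pv H χ) : L.toFinset.card ≤ Pt.card := by
  have h1 : L.toFinset ⊆ Pt.image fun χ => 1 - pv H χ := by
    intro g hg
    obtain ⟨χ, h2, h3⟩ := h g (List.mem_toFinset.1 hg)
    exact mem_image.2 ⟨χ, h2, h3.symm⟩
  exact (card_le_card h1).trans card_image_le

end members

variable {K V W : Type} [Field K] [AddCommGroup W] [Module K W] [Fintype K]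
  [FiniteDimensional K W] {M N : ℕ → Submodule K W} {act : Fun K V →ₗ[K] W →ₗ[K] W} {A : ℕ}

/-- In a graded world, all lines of a short derivation hold up to functions that count as zero on
one vector. -/
theorem derivation_holds {p d n k m c w τ : ℕ} [CharP K p] (hW : GWorld M N act) (hk : 1 ≤ k)
    {C Ω : ℝ} (hC : 1 ≤ C) (hΩ : 0 ≤ Ω) (hB : Bounds M N A τ C Ω)
    (hA : (m + k + 4) * (Fintype.card K * deg K k d) ≤ A)
    {S : Set Rule} (hS : ∀ R ∈ S, R.Sound p ∧ rcost R ≤ c ∧ R.nodes.length ≤ c)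
    (hA2 : c * deg K k (d + 1) ≤ A) (hA3 : w + 2 * deg K k (d + 1) ≤ A)
    {Φ : Set (Form V)} (hΦ : ∀ φ ∈ Φ, ∃ D : List (V × Bool), φ = clause D ∧ DeadIn M N act w D)
    {l : ℕ} {L : Fin l → Form V} (hL : IsDerivation S d Φ L) (hn : size L ≤ n)
    (hρ : 2 * (c + 1) * n * ((2 * C * (3 / 4) ^ k + C / 2 ^ m) * Ω + 4 * n * τ) + n * τ +
      Module.finrank K (M 0 ⊓ N A : Submodule K W) < Module.finrank K (M 0)) :
    ∃ (Z : ℕ → Submodule K (Fun K V)) (H : List (Fun K V) → Fun K V), Kill A Z ∧ Choice k H ∧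
      (∀ i, ∀ ψ ∈ (L i).parts, CleanForm Z H (2 * deg K k (d + 1)) ψ ∧
        (1 - pv H ψ ∈ Z A → 1 - pv H ψ ∈ Z (deg K k (d + 1)))) ∧
      (∀ i, 1 - pv H (L i) ∈ Z (deg K k (d + 1))) ∧
      ∀ (n : ℕ) (Q : Fun K V), Q ∈ Pol K V n → (∀ f ∈ M 0, act Q f ∈ N n) → Q ∈ Z n := by
  classical
  obtain ⟨ρ, hρ'⟩ : ∃ ρ : ℝ, ρ = (2 * C * (3 / 4) ^ k + C / 2 ^ m) * Ω + 4 * n * τ := ⟨_, rfl⟩
  obtain ⟨t, ht⟩ : ∃ t, t = deg K k d := ⟨_, rfl⟩
  obtain ⟨T, hT⟩ : ∃ T, T = deg K k (d + 1) := ⟨_, rfl⟩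
  have htT : t + k * ((Fintype.card K - 1) * t) ≤ 2 * T := by
    have h1 : t ≤ T := by
      rw [ht, hT]
      exact deg_mono hk (Nat.le_add_right d 1)
    have h2 : k * ((Fintype.card K - 1) * t) = T := by
      rw [ht, hT, deg_succ, mul_assoc]
    omega
  have hTA : T ≤ A := by omega
  obtain ⟨H, hH'⟩ : ∃ H : List (Fun K V) → Fun K V,
      H = apx M N act k (t + k * ((Fintype.card K - 1) * t)) ρ := ⟨_, rfl⟩
  have hρ0 : 0 ≤ ρ := by
    rw [hρ']
    positivity
  have hH : Choice k H := by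
    rw [hH']
    exact apx_choice hk hρ0
  -- the data of the inferences
  have hdata : ∀ i, ∃ (R : Rule) (σ : ℕ → Form V) (τ : ℕ → List (Form V)), L i ∉ Φ →
      R ∈ S ∧ (∀ P ∈ R.premises, ∀ ψ ∈ P.inst σ τ, ψ ∈ {ψ | ∃ j, j < i ∧ L j = ψ}) ∧
      R.conclusion.inst σ τ = [L i] := by
    intro i
    by_cases h : L i ∈ Φ
    · exact ⟨⟨[], .form 0⟩, fun _ => L i, fun _ => [], fun h' => absurd h h'⟩
    · obtain ⟨R, hR, σ, τ, h1, h2⟩ := ((hL i).2).resolve_left h
      exact ⟨R, σ, τ, fun _ => ⟨hR, h1, h2⟩⟩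
  choose R σ ν hR using hdata
  obtain ⟨Pt, hPt⟩ : ∃ Pt : Finset (Form V), Pt = (parts_set_finite L).toFinset := ⟨_, rfl⟩
  have hPtm : ∀ ψ, ψ ∈ Pt ↔ ∃ i, ψ ∈ (L i).parts := by
    intro ψ
    rw [hPt, Set.Finite.mem_toFinset]
    exact Iff.rfl
  have hPtd : ∀ ψ ∈ Pt, ψ.depth ≤ d := by
    intro ψ hψ
    obtain ⟨i, hi⟩ := (hPtm ψ).1 hψ
    exact (depth_parts hi).trans (hL i).1
  have hPtp : ∀ ψ ∈ Pt, ∀ χ ∈ ψ.parts, χ ∈ Pt := by
    intro ψ hψ χ hχ
    obtain ⟨i, hi⟩ := (hPtm ψ).1 hψ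
    exact (hPtm χ).2 ⟨i, parts_trans hχ hi⟩
  have hPtc : Pt.card + l = size L := by
    unfold size
    rw [hPt, Set.ncard_eq_toFinset_card _ (parts_set_finite L), add_comm]
  have hPtn : Pt.card ≤ n := by omega
  -- formulas at nodes are subformulas of lines
  have hinst : ∀ i, L i ∉ Φ → ∀ P, P ∈ (R i).premises ∨ P = (R i).conclusion →
      ∀ χ ∈ P.inst (σ i) (ν i), ∃ j, L j = χ := by
    intro i hi P hP χ hχ
    obtain ⟨-, h1, h2⟩ := hR i hi
    rcases hP with hP | rfl
    · obtain ⟨j, -, hj⟩ := h1 P hP χ hχ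
      exact ⟨j, hj⟩
    · rw [h2] at hχ
      exact ⟨i, (List.mem_singleton.1 hχ).symm⟩
  have hnodeP : ∀ i, L i ∉ Φ → ∀ P, P ∈ (R i).premises ∨ P = (R i).conclusion →
      ∀ Q ∈ P.subs, (∀ φ ∈ Q.inst (σ i) (ν i), φ ∈ Pt) ∧ ∀ φ ∈ Q.args (σ i) (ν i), φ ∈ Pt := by
    intro i hi P hP Q hQ
    constructor
    · intro φ hφ
      obtain ⟨χ, hχ, h3⟩ := inst_parts hQ hφ
      obtain ⟨j, hj⟩ := hinst i hi P hP χ hχ
      exact (hPtm φ).2 ⟨j, by rw [hj]; exact h3⟩
    · intro φ hφ
      obtain ⟨χ, hχ, h3⟩ := args_parts hQ hφ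
      obtain ⟨j, hj⟩ := hinst i hi P hP χ hχ
      exact (hPtm φ).2 ⟨j, by rw [hj]; exact h3⟩
  have hnodes : ∀ i, ∀ Q, Q ∈ (R i).nodes ↔ ∃ P, (P ∈ (R i).premises ∨ P = (R i).conclusion) ∧
      Q ∈ P.subs := by
    intro i Q
    unfold Rule.nodes
    rw [List.mem_append, List.mem_flatMap]
    constructor
    · rintro (⟨P, h1, h2⟩ | h1)
      · exact ⟨P, Or.inl h1, h2⟩
      · exact ⟨_, Or.inr rfl, h1⟩
    · rintro ⟨P, h1 | rfl, h2⟩
      · exact Or.inl ⟨P, h1, h2⟩
      · exact Or.inr h2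
  -- the lists
  obtain ⟨nd, hnd⟩ : ∃ nd : Fin l → Finset (List (Fun K V)), nd = fun i =>
    if L i ∈ Φ then ∅ else
      (R i).nodes.toFinset.image (fun Q => pos H (Q.args (σ i) (ν i))) ∪
      (R i).nodes.toFinset.image (fun Q => neg H (Q.args (σ i) (ν i))) := ⟨_, rfl⟩
  obtain ⟨𝓛, h𝓛⟩ : ∃ 𝓛 : Finset (List (Fun K V)), 𝓛 = (Pt.image (orl H) ∪
    Pt.image fun ψ => (andl H ψ).map (1 - ·)) ∪ univ.biUnion nd := ⟨_, rfl⟩
  obtain ⟨𝓠, h𝓠⟩ : ∃ 𝓠 : Finset (Fun K V), 𝓠 = Pt.image fun ψ => 1 - pv H ψ := ⟨_, rfl⟩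
  have hcard : 𝓛.card ≤ 2 * (c + 1) * n := by
    have h1 : ∀ i ∈ (univ : Finset (Fin l)), (nd i).card ≤ 2 * c := by
      intro i _
      rw [hnd]
      by_cases hi : L i ∈ Φ
      · simp only [if_pos hi, card_empty]
        exact Nat.zero_le _
      · simp only [if_neg hi]
        have h2 := (hS _ (hR i hi).1).2.2
        have h3 := (R i).nodes.toFinset_card_le
        refine (card_union_le _ _).trans ?_
        have h4 := card_image_le (s := (R i).nodes.toFinset)
          (f := fun Q => pos H (Q.args (σ i) (ν i)))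
        have h5 := card_image_le (s := (R i).nodes.toFinset)
          (f := fun Q => neg H (Q.args (σ i) (ν i)))
        omega
    have h2 : (univ.biUnion nd).card ≤ l * (2 * c) := by
      refine card_biUnion_le.trans ((sum_le_sum h1).trans (le_of_eq ?_))
      rw [sum_const, card_univ, Fintype.card_fin, smul_eq_mul]
    have h3 := card_image_le (s := Pt) (f := orl H)
    have h4 := card_image_le (s := Pt) (f := fun ψ => (andl H ψ).map (1 - ·))
    have h5 : 𝓛.card ≤ (Pt.card + Pt.card) + l * (2 * c) := by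
      rw [h𝓛]
      refine (card_union_le _ _).trans (Nat.add_le_add ((card_union_le _ _).trans
        (Nat.add_le_add h3 h4)) h2)
    have h6 : 2 * (c + 1) * (Pt.card + l) ≤ 2 * (c + 1) * n :=
      Nat.mul_le_mul_left _ (hPtc ▸ hn)
    have h7 : 2 * (c + 1) * (Pt.card + l) = (Pt.card + Pt.card) + l * (2 * c) +
      (2 * c * Pt.card + 2 * l) := by ring
    omega
  have hgood : ∀ L' : List (Fun K V), (∀ g ∈ L', Bin g) → (∀ g ∈ L', g ∈ Pol K V t) →
      L'.toFinset.card ≤ n →
      ∃ h, Apx M N act k (t + k * ((Fintype.card K - 1) * t)) ρ L' h := by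
    intro L' h1 h2 h3
    rw [hρ']
    exact exists_apx hW hC hΩ hB hk h1 h2 h3 (by rw [ht]; exact hA)
  have hpos : ∀ Λ : List (Form V), (∀ φ ∈ Λ, φ ∈ Pt) → (pos H Λ).toFinset.card ≤ n := by
    intro Λ hΛ
    refine (card_pos_le (Pt := Pt) (H := H) fun g hg => ?_).trans hPtn
    obtain ⟨φ, hφ, rfl⟩ := List.mem_map.1 hg
    exact ⟨φ, hΛ φ hφ, rfl⟩
  have hneg : ∀ Λ : List (Form V), (∀ φ ∈ Λ, φ ∈ Pt) → (neg H Λ).toFinset.card ≤ n := by
    intro Λ hΛ
    refine (card_neg_le (Pt := Pt) (H := H) fun g hg => ?_).trans hPtn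
    obtain ⟨φ, hφ, rfl⟩ := List.mem_map.1 hg
    exact ⟨φ, hΛ φ hφ, rfl⟩
  have hapx : ∀ L' ∈ 𝓛, ∃ h, Apx M N act k (t + k * ((Fintype.card K - 1) * t)) ρ L' h := by
    intro L' hL'
    rw [h𝓛, mem_union, mem_union] at hL'
    rcases hL' with (hL' | hL') | hL'
    · obtain ⟨ψ, hψ, rfl⟩ := mem_image.1 hL'
      refine hgood _ (orl_bin hH ψ) (ht ▸ orl_mem hH hk (hPtd ψ hψ)) ?_
      refine (card_pos_le (Pt := Pt) (H := H) fun g hg => ?_).trans hPtn
      obtain ⟨χ, h1, h2⟩ := orl_parts ψ g hg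
      exact ⟨χ, hPtp ψ hψ χ h1, h2⟩
    · obtain ⟨ψ, hψ, rfl⟩ := mem_image.1 hL'
      refine hgood _ (andl_bin hH ψ) (ht ▸ andl_mem hH hk (hPtd ψ hψ)) ?_
      refine (card_neg_le (Pt := Pt) (H := H) fun g hg => ?_).trans hPtn
      obtain ⟨g', hg', rfl⟩ := List.mem_map.1 hg
      obtain ⟨χ, h1, h2⟩ := andl_parts ψ g' hg'
      exact ⟨χ, hPtp ψ hψ χ h1, by rw [h2]⟩
    · obtain ⟨i, -, hi⟩ := mem_biUnion.1 hL'
      rw [hnd] at hi
      by_cases hiΦ : L i ∈ Φ
      · simp only [if_pos hiΦ] at hi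
        exact absurd hi (notMem_empty _)
      · simp only [if_neg hiΦ] at hi
        rcases mem_union.1 hi with hi | hi
        · obtain ⟨Q, hQ, rfl⟩ := mem_image.1 hi
          obtain ⟨P, hP, hQP⟩ := (hnodes i Q).1 (List.mem_toFinset.1 hQ)
          exact hgood _ (pos_bin hH _) (ht ▸ pos_mem hH hk fun φ hφ =>
            hPtd φ ((hnodeP i hiΦ P hP Q hQP).2 φ hφ)) (hpos _ (hnodeP i hiΦ P hP Q hQP).2)
        · obtain ⟨Q, hQ, rfl⟩ := mem_image.1 hi
          obtain ⟨P, hP, hQP⟩ := (hnodes i Q).1 (List.mem_toFinset.1 hQ)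
          exact hgood _ (neg_bin hH _) (ht ▸ neg_mem hH hk fun φ hφ =>
            hPtd φ ((hnodeP i hiΦ P hP Q hQP).2 φ hφ)) (hneg _ (hnodeP i hiΦ P hP Q hQP).2)
  have h𝓠m : ∀ Q ∈ 𝓠, Q ∈ Pol K V T := by
    intro Q hQ
    rw [h𝓠] at hQ
    obtain ⟨ψ, hψ, rfl⟩ := mem_image.1 hQ
    exact Submodule.sub_mem _ (Frege.one_mem _) (hT ▸ Pol_mono
      (deg_mono hk (Nat.le_add_right d 1)) (pv_mem hH hk (hPtd ψ hψ)))
  have h𝓠c : 𝓠.card ≤ n := by
    rw [h𝓠]
    exact card_image_le.trans hPtn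
  obtain ⟨f, hf, hfA, hfL, hfQ⟩ := exists_vector hW (k := k)
    (n := t + k * ((Fintype.card K - 1) * t)) (ρ := ρ) hB hTA 𝓛 𝓠 hapx h𝓠m (by
      refine lt_of_le_of_lt (add_le_add_left (add_le_add ?_ ?_) _) (hρ' ▸ hρ)
      · exact mul_le_mul_of_nonneg_right (by exact_mod_cast hcard) hρ0
      · exact mul_le_mul_of_nonneg_right (by exact_mod_cast h𝓠c) (Nat.cast_nonneg _))
  rw [← hH'] at hfL
  have hZ : Kill A (zer N act f) := kill_of_world hW hfA
  have hbinL : ∀ L' ∈ 𝓛, (∀ g ∈ L', Bin g) ∧ ∀ g ∈ L', g ∈ Pol K V t := by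
    intro L' hL'
    rw [h𝓛, mem_union, mem_union] at hL'
    rcases hL' with (hL' | hL') | hL'
    · obtain ⟨ψ, hψ, rfl⟩ := mem_image.1 hL'
      exact ⟨orl_bin hH ψ, ht ▸ orl_mem hH hk (hPtd ψ hψ)⟩
    · obtain ⟨ψ, hψ, rfl⟩ := mem_image.1 hL'
      exact ⟨andl_bin hH ψ, ht ▸ andl_mem hH hk (hPtd ψ hψ)⟩
    · obtain ⟨i, -, hi⟩ := mem_biUnion.1 hL'
      rw [hnd] at hi
      by_cases hiΦ : L i ∈ Φ
      · simp only [if_pos hiΦ] at hi
        exact absurd hi (notMem_empty _)
      · simp only [if_neg hiΦ] at hi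
        rcases mem_union.1 hi with hi | hi
        · obtain ⟨Q, hQ, rfl⟩ := mem_image.1 hi
          obtain ⟨P, hP, hQP⟩ := (hnodes i Q).1 (List.mem_toFinset.1 hQ)
          exact ⟨pos_bin hH _, ht ▸ pos_mem hH hk fun φ hφ =>
            hPtd φ ((hnodeP i hiΦ P hP Q hQP).2 φ hφ)⟩
        · obtain ⟨Q, hQ, rfl⟩ := mem_image.1 hi
          obtain ⟨P, hP, hQP⟩ := (hnodes i Q).1 (List.mem_toFinset.1 hQ)
          exact ⟨neg_bin hH _, ht ▸ neg_mem hH hk fun φ hφ =>
            hPtd φ ((hnodeP i hiΦ P hP Q hQP).2 φ hφ)⟩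
  have hcl : ∀ L' ∈ 𝓛, Clean (zer N act f) H (2 * T) L' := by
    intro L' hL' g hg
    refine hZ.up (n := t + k * ((Fintype.card K - 1) * t)) (mem_zer.2 ⟨?_, hfL L' hL' g hg⟩) htT
    refine Frege.mul_mem ((hbinL L' hL').2 g hg) ?_
    exact (hH.hor L' (hbinL L' hL').1).mem (hbinL L' hL').2
  rw [hT] at hcl
  have hclP : ∀ ψ ∈ Pt, CleanForm (zer N act f) H (2 * deg K k (d + 1)) ψ := by
    intro ψ hψ
    constructor
    · intro _
      exact hcl _ (by
        rw [h𝓛, mem_union, mem_union]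
        exact Or.inl (Or.inl (mem_image_of_mem _ hψ)))
    · intro _
      exact hcl _ (by
        rw [h𝓛, mem_union, mem_union]
        exact Or.inl (Or.inr (mem_image.2 ⟨ψ, hψ, rfl⟩)))
  have hsat : ∀ ψ ∈ Pt, 1 - pv H ψ ∈ zer N act f A →
      1 - pv H ψ ∈ zer N act f (deg K k (d + 1)) := by
    intro ψ hψ h
    have h1 : 1 - pv H ψ ∈ 𝓠 := by
      rw [h𝓠]
      exact mem_image.2 ⟨ψ, hψ, rfl⟩
    rw [← hT]
    exact mem_zer.2 ⟨h𝓠m _ h1, hfQ _ h1 (mem_zer.1 h).2⟩
  have hfine : ∀ i, L i ∉ Φ → ∀ P, P ∈ (R i).premises ∨ P = (R i).conclusion →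
      NodeFine (zer N act f) H (2 * deg K k (d + 1)) d (σ i) (ν i) P := by
    intro i hi P hP Q hQ
    have h1 := hnodeP i hi P hP Q hQ
    have h2 : Q ∈ (R i).nodes.toFinset := List.mem_toFinset.2 ((hnodes i Q).2 ⟨P, hP, hQ⟩)
    refine ⟨fun φ hφ => ⟨hPtd φ (h1.1 φ hφ), hclP φ (h1.1 φ hφ)⟩, ?_, ?_⟩
    · refine hcl _ ?_
      rw [h𝓛, mem_union]
      refine Or.inr (mem_biUnion.2 ⟨i, mem_univ i, ?_⟩)
      rw [hnd]
      simp only [if_neg hi]
      exact mem_union_left _ (mem_image.2 ⟨Q, h2, rfl⟩)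
    · refine hcl _ ?_
      rw [h𝓛, mem_union]
      refine Or.inr (mem_biUnion.2 ⟨i, mem_univ i, ?_⟩)
      rw [hnd]
      simp only [if_neg hi]
      exact mem_union_right _ (mem_image.2 ⟨Q, h2, rfl⟩)
  have hzero : ∀ (n : ℕ) (Q : Fun K V), Q ∈ Pol K V n → (∀ f ∈ M 0, act Q f ∈ N n) →
      Q ∈ zer N act f n := fun n Q hQ hQ0 => mem_zer.2 ⟨hQ, hQ0 f hf⟩
  have hline : ∀ n : ℕ, ∀ i : Fin l, (i : ℕ) = n →
      1 - pv H (L i) ∈ zer N act f (deg K k (d + 1)) := by
    intro n
    induction n using Nat.strong_induction_on with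
    | _ n ih =>
      intro i hin
      refine hsat _ ((hPtm _).2 ⟨i, self_mem_parts _⟩) ?_
      by_cases hi : L i ∈ Φ
      · obtain ⟨D, hD, P, u, hP, hu, hu0, h0⟩ := hΦ _ hi
        have h1 : clause D ∈ Pt := by
          rw [← hD]
          exact (hPtm _).2 ⟨i, self_mem_parts _⟩
        rw [hD]
        exact hZ.up (hZ.clause hH hk ((hclP _ h1).1 trivial) hP (hzero w u hu hu0) h0) hA3
      · obtain ⟨h1, h2, h3⟩ := hR i hi
        have h4 := hS _ h1
        refine hZ.up (hZ.rule (p := p) (d := d) hH hk h4.1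
          (fun P hP => hfine i hi P (Or.inl hP)) (hfine i hi _ (Or.inr rfl)) ?_ h3)
          ((Nat.mul_le_mul_right _ h4.2.1).trans hA2)
        intro P hP ψ hψ
        obtain ⟨j, hj, hjψ⟩ := h2 P hP ψ hψ
        rw [← hjψ]
        exact ih j (by rw [← hin]; exact hj) j rfl
  exact ⟨_, H, hZ, hH, fun i ψ hψ => ⟨hclP ψ ((hPtm ψ).2 ⟨i, hψ⟩), hsat ψ ((hPtm ψ).2 ⟨i, hψ⟩)⟩,
    fun i => hline i i rfl, hzero⟩

/-- The lower bound for refutations. -/
theorem refutation {p d n k m c w τ : ℕ} [CharP K p] (hW : GWorld M N act) (hk : 1 ≤ k)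
    {C Ω : ℝ} (hC : 1 ≤ C) (hΩ : 0 ≤ Ω) (hB : Bounds M N A τ C Ω)
    (hA : (m + k + 4) * (Fintype.card K * deg K k d) ≤ A)
    {S : Set Rule} (hS : ∀ R ∈ S, R.Sound p ∧ rcost R ≤ c ∧ R.nodes.length ≤ c)
    (hA2 : c * deg K k (d + 1) ≤ A) (hA3 : w + 2 * deg K k (d + 1) ≤ A)
    {Φ : Set (Form V)} (hΦ : ∀ φ ∈ Φ, ∃ D : List (V × Bool), φ = clause D ∧ DeadIn M N act w D)
    (hρ : 2 * (c + 1) * n * ((2 * C * (3 / 4) ^ k + C / 2 ^ m) * Ω + 4 * n * τ) + n * τ +
      Module.finrank K (M 0 ⊓ N A : Submodule K W) < Module.finrank K (M 0))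
    {l : ℕ} {L : Fin l → Form V} (hL : IsDerivation S d Φ L) (hf : ∃ i, L i = falsum) :
    n < size L := by
  by_contra hcon
  rw [not_lt] at hcon
  obtain ⟨Z, H, hZ, hH, -, h1, -⟩ := derivation_holds (p := p) hW hk hC hΩ hB hA hS hA2 hA3 hΦ hL
    hcon hρ
  obtain ⟨i, hi⟩ := hf
  apply hZ.one
  have h2 := h1 i
  rw [hi] at h2
  have h3 : pv H (falsum : Form V) = 0 := by
    have h4 : pv H (falsum : Form V) = 1 - H [] := rfl
    rw [h4, hH.nil, sub_self]
  rw [h3, sub_zero] at h2
  exact hZ.up h2 (by omega)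

/-- The lower bound for proofs of the tautology that says that one of the clauses is false. -/
theorem tautology {p d n k m c w τ : ℕ} [CharP K p] (hW : GWorld M N act) (hk : 1 ≤ k)
    {C Ω : ℝ} (hC : 1 ≤ C) (hΩ : 0 ≤ Ω) (hB : Bounds M N A τ C Ω)
    (hA : (m + k + 4) * (Fintype.card K * deg K k d) ≤ A)
    {S : Set Rule} (hS : ∀ R ∈ S, R.Sound p ∧ rcost R ≤ c ∧ R.nodes.length ≤ c)
    (hA2 : c * deg K k (d + 1) ≤ A) (hA3 : w + 2 * deg K k (d + 1) ≤ A)
    {F : List (List (V × Bool))} (hF : ∀ D ∈ F, DeadIn M N act w D)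
    (hρ : 2 * (c + 1) * n * ((2 * C * (3 / 4) ^ k + C / 2 ^ m) * Ω + 4 * n * τ) + n * τ +
      Module.finrank K (M 0 ⊓ N A : Submodule K W) < Module.finrank K (M 0))
    {l : ℕ} {L : Fin l → Form V} (hL : IsDerivation S d ∅ L) (hf : ∃ i, L i = .neg (cnf F)) :
    n < size L := by
  by_contra hcon
  rw [not_lt] at hcon
  obtain ⟨Z, H, hZ, hH, hcl, h1, h0⟩ := derivation_holds (p := p) (w := w) hW hk hC hΩ hB hA hS
    hA2 hA3 (fun φ hφ => absurd hφ (Set.notMem_empty φ)) hL hcon hρ
  obtain ⟨i, hi⟩ := hf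
  apply hZ.one
  have hdi : (Form.neg (cnf F)).depth ≤ d := by
    rw [← hi]
    exact (hL i).1
  have h2 := h1 i
  rw [hi, pv_neg, sub_sub_cancel] at h2
  have hcnf : cnf F ∈ (L i).parts := by
    rw [hi]
    exact Set.mem_insert_of_mem _ (self_mem_parts _)
  have h3 : 1 - pv H (cnf F) ∈ Z (2 * deg K k (d + 1)) := by
    refine hZ.cnf hH hk hdi fun D hD => ?_
    have h4 : clause D ∈ (L i).parts := by
      refine parts_trans ?_ hcnf
      obtain ⟨j, hj⟩ := List.get_of_mem (List.mem_map.2 ⟨D, hD, rfl⟩ : clause D ∈ F.map clause)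
      refine Set.mem_insert_of_mem _ (Set.mem_iUnion.2 ⟨j, ?_⟩)
      rw [hj]
      exact self_mem_parts _
    obtain ⟨P, u, hP, hu, hu0, h5⟩ := hF D hD
    exact (hcl i _ h4).2 (hZ.up (hZ.clause hH hk ((hcl i _ h4).1.1 trivial) hP
      (h0 w u hu hu0) h5) hA3)
  have h5 := (Z A).add_mem (hZ.up h2 (by omega)) (hZ.up h3 (by omega))
  rwa [add_sub_cancel] at h5

end Pool.Agent.MP_9cec2c_lc.GW
end

section

/-!
The world of the pigeonhole principle under a restriction, that is, with permuted pigeons and holes.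
-/

set_option autoImplicit false
set_option linter.unusedSectionVars false

namespace Pool.Agent.MP_9cec2c_lc.RF

open Finset Frege FG GW PHS PF

section dead

variable {K V W : Type} [Field K] [AddCommGroup W] [Module K W]
  {M N : ℕ → Submodule K W} {act : Fun K V →ₗ[K] W →ₗ[K] W}

/-- A clause with two literals which are never both false is dead. -/
theorem dead_two {C : List (V × Bool)} {l l' : V × Bool} (hl : l ∈ C) (hl' : l' ∈ C)
    (h0 : ∀ f ∈ M 0, act (fals K [l, l']) f ∈ N 2) : DeadIn M N act 2 C := by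
  classical
  obtain ⟨i, hi⟩ := List.get_of_mem hl
  obtain ⟨i', hi'⟩ := List.get_of_mem hl'
  have hs : ∀ l : V × Bool, (1 : Fun K V) - sat K l ∈ Pol K V 1 := fun l =>
    Submodule.sub_mem _ (Frege.one_mem _) (GW.sat_mem l)
  refine ⟨fun j => (if j = i then 1 else 0) + (if j = i' then 1 - sat K l else 0),
    fals K [l, l'], fun j => ?_, ?_, h0, ?_⟩
  · refine Submodule.add_mem _ ?_ ?_
    · split_ifs
      · exact Frege.one_mem _
      · exact Submodule.zero_mem _
    · split_ifs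
      · exact Pol_mono (by omega) (hs l)
      · exact Submodule.zero_mem _
  · exact fals_mem [l, l']
  · have h1 : ∑ j, ((if j = i then (1 : Fun K V) else 0) + (if j = i' then 1 - sat K l else 0)) *
        sat K (C.get j) = sat K l + (1 - sat K l) * sat K l' := by
      simp only [add_mul, sum_add_distrib, ite_mul, one_mul, zero_mul]
      rw [sum_ite_eq' univ i, if_pos (mem_univ i), sum_ite_eq' univ i', if_pos (mem_univ i'), hi,
        hi']
    rw [h1, fals_cons, fals_cons, fals_nil, mul_one]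
    ring

end dead

variable {K : Type} [Field K] {M m N n k b : ℕ}

/-- The assignment which belongs to a point, after a permutation of the pigeons and the holes. -/
def rhoP (N n k b : ℕ) (π : Equiv.Perm (Fin M)) (π' : Equiv.Perm (Fin m)) (x : Pt N b) :
    Fin M × Fin m → Bool := fun v => rho M m N n k b x (π v.1, π' v.2)

theorem rhoP_world (K : Type) [Field K] (N n k b D : ℕ) (π : Equiv.Perm (Fin M))
    (π' : Equiv.Perm (Fin m)) :
    GWorld (fun a => FF K N b (D + a)) (fun a => YY K N b (D + a))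
      (pullMul K (rhoP N n k b π π')) :=
  gworld_pull (fun _ _ h => FF_mono h) (fun _ _ h => YY_mono h) (fun a => YY_le_FF a) one_mem_FF
    (fun _ _ _ _ hf hg => mul_mem_FF hf hg) (fun _ _ _ _ hf hg => mul_mem_YY hf hg)
    (fun v => rho_var (π v.1, π' v.2)) D

theorem rho_fun (x : Pt N b) {i : Fin M} {j j' : Fin m} (h : rho M m N n k b x (i, j) = true)
    (h' : rho M m N n k b x (i, j') = true) : j = j' := by
  rw [rho_iff] at h h'
  rcases h with ⟨h1, h2, h3, h4, h5⟩ | ⟨h1, h2, h3⟩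
  · rcases h' with ⟨h1', h2', h3', h4', h5'⟩ | ⟨h1', h2', h3'⟩
    · refine Fin.ext ?_
      have h7 := Nat.div_add_mod j.val n
      have h8 := Nat.div_add_mod j'.val n
      have h9 : j.val % n = j'.val % n := by omega
      rw [← h3, h9] at h7
      rw [← h3'] at h8
      omega
    · omega
  · rcases h' with ⟨h1', h2', h3', h4', h5'⟩ | ⟨h1', h2', h3'⟩
    · omega
    · exact Fin.ext (by omega)

theorem rho_inj (x : Pt N b) {i i' : Fin M} {j : Fin m} (h : rho M m N n k b x (i, j) = true)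
    (h' : rho M m N n k b x (i', j) = true) : i = i' := by
  rw [rho_iff] at h h'
  rcases h with ⟨h1, h2, h3, h4, h5⟩ | ⟨h1, h2, h3⟩
  · rcases h' with ⟨h1', h2', h3', h4', h5'⟩ | ⟨h1', h2', h3'⟩
    · have hN : 0 < N := Nat.pos_of_mul_pos_left (lt_of_le_of_lt (Nat.zero_le _) h1)
      have h6 := ltr_inj x (Nat.mod_lt _ hN) (Nat.mod_lt _ hN) h4 h5 h5'
      have h7 := Nat.div_add_mod i.val N
      have h8 := Nat.div_add_mod i'.val N
      rw [h3, h6] at h7
      rw [h3'] at h8
      exact Fin.ext (by omega)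
    · omega
  · rcases h' with ⟨h1', h2', h3', h4', h5'⟩ | ⟨h1', h2', h3'⟩
    · omega
    · exact Fin.ext (by omega)

/-- At every point, the variables which are true form a matching. -/
theorem rhoP_mat (π : Equiv.Perm (Fin M)) (π' : Equiv.Perm (Fin m)) (x : Pt N b)
    {e e' : Fin M × Fin m} (h : rhoP N n k b π π' x e = true)
    (h' : rhoP N n k b π π' x e' = true) (hee : e.1 = e'.1 ∨ e.2 = e'.2) : e = e' := by
  unfold rhoP at h h'
  rcases hee with hee | hee
  · rw [hee] at h
    exact Prod.ext hee (π'.injective (rho_fun x h h'))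
  · rw [hee] at h
    exact Prod.ext (π.injective (rho_inj x h h')) hee

/-- Two literals which are never both false at the points. -/
theorem fals_twoP {π : Equiv.Perm (Fin M)} {π' : Equiv.Perm (Fin m)}
    {l l' : (Fin M × Fin m) × Bool}
    (h : ∀ x : Pt N b, rhoP N n k b π π' x l.1 = l.2 ∨ rhoP N n k b π π' x l'.1 = l'.2)
    (f : Pt N b → K) : pullMul K (rhoP N n k b π π') (FG.fals K [l, l']) f = 0 := by
  classical
  rw [pullMul_apply]
  have h1 : (fun x : Pt N b => FG.fals K [l, l'] (rhoP N n k b π π' x)) = 0 := by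
    funext x
    show FG.fals K [l, l'] (rhoP N n k b π π' x) = (0 : K)
    unfold FG.fals
    rw [if_neg]
    intro h2
    rcases h x with h3 | h3
    · exact h2 l (by simp) h3
    · exact h2 l' (by simp) h3
  rw [h1, zero_mul]

theorem dead_pigeonP (hb : b ≤ n) (hk : k * n ≤ m) (hM : M + k * n ≤ m + k * N)
    (π : Equiv.Perm (Fin M)) (π' : Equiv.Perm (Fin m)) (D : ℕ) {e : ℕ} (he : 1 ≤ e) (i : Fin M) :
    DeadIn (fun a => FF K N b (D + a)) (fun a => YY K N b (D + a))
      (pullMul K (rhoP N n k b π π')) e (pigeonClause M m i) := by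
  classical
  have hsum : ∑ l : Fin (pigeonClause M m i).length, sat K ((pigeonClause M m i).get l) =
      ∑ j : Fin m, sat K ((i, j), true) := by
    rw [sum_get]
    unfold pigeonClause
    rw [List.map_map, ← List.sum_ofFn, List.ofFn_eq_map]
    rfl
  have hval : ∀ x : Pt N b, (1 - ∑ j : Fin m, sat K ((i, j), true)) (rhoP N n k b π π' x) =
      (1 : K) - ∑ j : Fin m, (if rho M m N n k b x (π i, j) = true then (1 : K) else 0) := by
    intro x
    rw [Pi.sub_apply, Finset.sum_apply, Pi.one_apply]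
    congr 1
    exact Equiv.sum_comp π' fun j => if rho M m N n k b x (π i, j) = true then (1 : K) else 0
  refine ⟨fun _ => 1, 1 - ∑ j : Fin m, sat K ((i, j), true), ?_, ?_, ?_, ?_⟩
  · intro _
    exact Frege.one_mem _
  · refine Submodule.sub_mem _ (Frege.one_mem _) (Submodule.sum_mem _ fun j _ => ?_)
    exact Pol_mono he (sat_true_mem _)
  · intro f hf
    rw [pullMul_apply]
    by_cases hi : (π i).val < k * N
    · have hN : 0 < N := Nat.pos_of_mul_pos_left (lt_of_le_of_lt (Nat.zero_le _) hi)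
      have hi' : (π i).val % N < N := Nat.mod_lt _ hN
      have h1 : (fun x : Pt N b => (1 - ∑ j : Fin m, sat K ((i, j), true))
          (rhoP N n k b π π' x)) = fun x : Pt N b =>
            if x.1 ⟨(π i).val % N, hi'⟩ = Fin.last (b + 1) then (1 : K) else 0 := by
        funext x
        rw [hval]
        exact rho_sum hb hk x (π i) hi hi'
      rw [h1, mul_comm]
      have h2 := mul_mem_YY (K := K) hf (star_mem_YY (K := K) (b := b) ⟨(π i).val % N, hi'⟩)
      exact YY_mono (by omega) h2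
    · have h1 : (fun x : Pt N b => (1 - ∑ j : Fin m, sat K ((i, j), true))
          (rhoP N n k b π π' x)) = 0 := by
        funext x
        rw [hval]
        exact rho_sum' hM x (π i) (not_lt.1 hi)
      rw [h1, zero_mul]
      exact Submodule.zero_mem _
  · simp only [one_mul]
    rw [hsum]
    ring

/-- All clauses of the functional pigeonhole principle are dead in the permuted world. -/
theorem php_deadP (K : Type) [Field K] (hb : b ≤ n) (hk : k * n ≤ m)
    (hM : M + k * n ≤ m + k * N) (π : Equiv.Perm (Fin M)) (π' : Equiv.Perm (Fin m)) (D : ℕ) :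
    ∀ C ∈ fphp M m, DeadIn (fun a => FF K N b (D + a)) (fun a => YY K N b (D + a))
      (pullMul K (rhoP N n k b π π')) 2 C := by
  intro C hC
  rcases mem_fphp.1 hC with ⟨i, rfl⟩ | ⟨i, i', j, hii, rfl⟩ | ⟨i, j, j', hjj, rfl⟩
  · exact dead_pigeonP hb hk hM π π' D (by omega) i
  · refine dead_two (l := ((i, j), false)) (l' := ((i', j), false)) (by simp [holeClause])
      (by simp [holeClause]) fun f _ => ?_
    rw [fals_twoP (K := K) (fun x => ?_) f]
    · exact Submodule.zero_mem _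
    · by_contra hcon
      push Not at hcon
      simp only [ne_eq, Bool.not_eq_false] at hcon
      exact absurd (congrArg Prod.fst (rhoP_mat π π' x hcon.1 hcon.2 (Or.inr rfl))) (ne_of_lt hii)
  · refine dead_two (l := ((i, j), false)) (l' := ((i, j'), false)) (by simp [funClause])
      (by simp [funClause]) fun f _ => ?_
    rw [fals_twoP (K := K) (fun x => ?_) f]
    · exact Submodule.zero_mem _
    · by_contra hcon
      push Not at hcon
      simp only [ne_eq, Bool.not_eq_false] at hcon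
      exact absurd (congrArg Prod.snd (rhoP_mat π π' x hcon.1 hcon.2 (Or.inl rfl))) (ne_of_lt hjj)

/-- The clauses which are ok under the restriction are dead in the world of the restriction. -/
theorem ok_dead (K : Type) [Field K] {ω : Om M m} (D : ℕ) {C : Cl M m} (hC : Ok N n k ω C) :
    DeadIn (fun a => FF K N b (D + a)) (fun a => YY K N b (D + a))
      (pullMul K (rhoP N n k b ω.1 ω.2)) 2 C := by
  rcases hC with ⟨e, h1, h2⟩ | ⟨e, h1, h2, h3⟩ | ⟨e, h1, h2⟩ | h1
  · refine dead_two h2 h2 fun f _ => ?_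
    rw [fals_twoP (K := K) (fun x => Or.inl ?_) f]
    · exact Submodule.zero_mem _
    · show rho M m N n k b x (ω.1 e.1, ω.2 e.2) = true
      exact rho_iff.2 (Or.inr h1)
  · refine dead_two h3 h3 fun f _ => ?_
    rw [fals_twoP (K := K) (fun x => Or.inl ?_) f]
    · exact Submodule.zero_mem _
    · by_contra hcon
      have h5 : rhoP N n k b ω.1 ω.2 x e = true := by
        simpa using hcon
      unfold rhoP at h5
      rw [rho_iff] at h5
      rcases h5 with h5 | h5
      · exact h2 ⟨h5.1, h5.2.1, h5.2.2.1⟩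
      · exact h1 h5
  · refine dead_two h1 h2 fun f _ => ?_
    rw [fals_twoP (K := K) (fun x => ?_) f]
    · exact Submodule.zero_mem _
    · show rhoP N n k b ω.1 ω.2 x e = true ∨ rhoP N n k b ω.1 ω.2 x e = false
      cases rhoP N n k b ω.1 ω.2 x e
      · exact Or.inr rfl
      · exact Or.inl rfl
  · unfold IsMat at h1
    push Not at h1
    obtain ⟨e, he, e', he', h2, h3⟩ := h1
    refine dead_two (mem_negs.1 he) (mem_negs.1 he') fun f _ => ?_
    rw [fals_twoP (K := K) (fun x => ?_) f]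
    · exact Submodule.zero_mem _
    · by_contra hcon
      push Not at hcon
      simp only [ne_eq, Bool.not_eq_false] at hcon
      exact h3 (rhoP_mat ω.1 ω.2 x hcon.1 hcon.2 h2)

end Pool.Agent.MP_9cec2c_lc.RF
end
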