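import Pool.Agent.Lib.MP_9cec2c_lc.Mg.G058
import Pool.Agent.Lib.MP_9cec2c_lc.MXComb

section

/-!
A disjunction in a world: the approximation by products of functions `1 - ∑ b ∈ S, g b`, for sets
`S` which isolate one of the functions `g b`. This works over every field.
-/

set_option autoImplicit false
set_option linter.unusedSectionVars false

namespace Pool.Agent.MP_9cec2c_lc.MX

open Finset Frege

variable {K V W : Type} [Field K] [AddCommGroup W] [Module K W]
  {G : ℕ → Submodule K W} {act : Fun K V →ₗ[K] W →ₗ[K] W} {A : ℕ}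
  {β : Type} [Fintype β] [DecidableEq β]

/-- The vectors of the level `a` which all functions `g b * h`, for `b` in `S`, map to zero. -/
def kr (G : ℕ → Submodule K W) (act : Fun K V →ₗ[K] W →ₗ[K] W) (g : β → Fun K V) (h : Fun K V)
    (S : Finset β) (a : ℕ) : Submodule K W :=
  G a ⊓ ⨅ b ∈ S, LinearMap.ker (act (g b * h))

theorem mem_kr {g : β → Fun K V} {h : Fun K V} {S : Finset β} {a : ℕ} {f : W} :
    f ∈ kr G act g h S a ↔ f ∈ G a ∧ ∀ b ∈ S, act (g b * h) f = 0 := by
  unfold kr
  rw [Submodule.mem_inf, Submodule.mem_iInf]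
  refine and_congr Iff.rfl (forall_congr' fun b => ?_)
  rw [Submodule.mem_iInf]
  rfl

theorem kr_empty (g : β → Fun K V) (h : Fun K V) (a : ℕ) : kr G act g h ∅ a = G a := by
  ext f
  rw [mem_kr]
  exact ⟨fun h1 => h1.1, fun h1 => ⟨h1, fun b hb => absurd hb (notMem_empty b)⟩⟩

theorem kr_anti (g : β → Fun K V) (h : Fun K V) {S T : Finset β} (hST : S ⊆ T) (a : ℕ) :
    kr G act g h T a ≤ kr G act g h S a := by
  intro f hf
  rw [mem_kr] at hf ⊢
  exact ⟨hf.1, fun b hb => hf.2 b (hST hb)⟩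

variable [FiniteDimensional K W]

/-- The dimension of a sum of two spaces, where a linear map is zero on the first. -/
theorem finrank_sup_ge (X J : Submodule K W) {W' : Type} [AddCommGroup W'] [Module K W']
    (T : W →ₗ[K] W') (hX : X ≤ LinearMap.ker T) :
    Module.finrank K X + Module.finrank K (J.map T) ≤ Module.finrank K (X ⊔ J : Submodule K W) := by
  have h1 := finrank_map_add (X ⊔ J) T
  have h2 : J.map T ≤ (X ⊔ J).map T := Submodule.map_mono le_sup_right
  have h3 : X ≤ (X ⊔ J) ⊓ LinearMap.ker T := le_inf le_sup_left hX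
  have h4 := Submodule.finrank_mono h3
  have h5 : Module.finrank K (J.map T) ≤ Module.finrank K ((X ⊔ J).map T) :=
    Submodule.finrank_mono h2
  omega

/-- The rank drops by the rank of the isolated part. -/
theorem kr_drop (hW : World G act A) {g : β → Fun K V} {h : Fun K V} {s t a : ℕ}
    (hg : ∀ b, g b ∈ Pol K V t) (hh : h ∈ Pol K V s)
    (hid : ∀ b, ∀ a f, a + 2 * t ≤ A → f ∈ G a → act (g b * g b) f = act (g b) f)
    (S : Finset β) (hA : a + t + (t + s) + t ≤ A) :
    Module.finrank K (kr G act g h univ (a + t)) +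
      ∑ b ∈ S, (Module.finrank K (kr G act g h (S.erase b) a) -
        Module.finrank K (kr G act g h S a)) ≤
      Module.finrank K (kr G act g (h * (1 - ∑ b ∈ S, g b)) univ (a + t)) := by
  classical
  obtain ⟨u, hu⟩ : ∃ u : Fun K V, u = ∑ b ∈ S, g b := ⟨_, rfl⟩
  have hut : u ∈ Pol K V t := by
    rw [hu]
    exact Submodule.sum_mem _ fun b _ => hg b
  rw [← hu]
  -- the isolated vectors
  obtain ⟨J, hJ⟩ : ∃ J : β → Submodule K W, J = fun b =>
    (kr G act g h (S.erase b) a).map (act (g b)) := ⟨_, rfl⟩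
  -- products
  have hmul : ∀ (P Q : Fun K V) (e e' : ℕ) (f : W), P ∈ Pol K V e → Q ∈ Pol K V e' → f ∈ G a →
      a + e + e' ≤ A → act (P * Q) f = act P (act Q f) := fun P Q e e' f hP hQ hf hA' =>
    hW.act_mul a e e' P Q f hA' hP hQ hf
  -- the values on isolated vectors
  have hval : ∀ b ∈ S, ∀ f ∈ kr G act g h (S.erase b) a, ∀ b' ∈ S,
      act (g b' * h) (act (g b) f) = if b' = b then act (g b * h) f else 0 := by
    intro b hb f hf b' hb'
    rw [mem_kr] at hf
    have e1 : act (g b' * h) (act (g b) f) = act (g b' * h * g b) f :=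
      (hmul _ _ _ _ f (mul_mem (hg b') hh) (hg b) hf.1 (by omega)).symm
    by_cases hbb : b' = b
    · rw [if_pos hbb, e1, hbb]
      have e2 : g b * h * g b = g b * g b * h := by ring
      have e3 : act h f ∈ G (a + s) := hW.act_mem a s h f (by omega) hh hf.1
      rw [e2, hmul (g b * g b) h (t + t) s f (mul_mem (hg b) (hg b)) hh hf.1 (by omega),
        hid b (a + s) _ (by omega) e3, ← hmul (g b) h t s f (hg b) hh hf.1 (by omega)]
    · rw [if_neg hbb, e1]
      have e2 : g b' * h * g b = g b * (g b' * h) := by ring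
      rw [e2, hmul (g b) (g b' * h) t (t + s) f (hg b) (mul_mem (hg b') hh) hf.1 (by omega),
        hf.2 b' (mem_erase.2 ⟨hbb, hb'⟩), map_zero]
  have hKc : ∀ b ∈ S, J b ≤ kr G act g (h * (1 - u)) univ (a + t) := by
    intro b hb
    rw [hJ]
    rintro _ ⟨f, hf, rfl⟩
    have hf' := hf
    rw [SetLike.mem_coe, mem_kr] at hf'
    have hgf : act (g b) f ∈ G (a + t) := hW.act_mem a t _ f (by omega) (hg b) hf'.1
    rw [mem_kr]
    refine ⟨hgf, fun b' _ => ?_⟩
    have e0 : act (h * (1 - u)) (act (g b) f) = 0 := by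
      have e1 : h * (1 - u) = h - ∑ b' ∈ S, g b' * h := by
        rw [← sum_mul, ← hu]
        ring
      rw [e1, map_sub, LinearMap.sub_apply, map_sum, LinearMap.sum_apply,
        sum_congr rfl fun b' hb' => hval b hb f hf b' hb', sum_ite_eq' S b, if_pos hb,
        ← hmul h (g b) s t f hh (hg b) hf'.1 (by omega), mul_comm h, sub_self]
    rw [hW.act_mul (a + t) t (s + t) (g b') (h * (1 - u)) _ (by omega) (hg b')
      (mul_mem hh (Submodule.sub_mem _ (one_mem _) hut)) hgf, e0, map_zero]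
  have hKh : kr G act g h univ (a + t) ≤ kr G act g (h * (1 - u)) univ (a + t) := by
    intro f hf
    rw [mem_kr] at hf ⊢
    refine ⟨hf.1, fun b hb => ?_⟩
    have e1 : g b * (h * (1 - u)) = (1 - u) * (g b * h) := by ring
    rw [e1, hW.act_mul (a + t) t (t + s) _ _ f (by omega)
      (Submodule.sub_mem _ (one_mem _) hut) (mul_mem (hg b) hh) hf.1, hf.2 b hb, map_zero]
  have hrank : ∀ b ∈ S, Module.finrank K ((J b).map (act (g b * h))) =
      Module.finrank K (kr G act g h (S.erase b) a) - Module.finrank K (kr G act g h S a) := by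
    intro b hb
    have e1 : (J b).map (act (g b * h)) =
        (kr G act g h (S.erase b) a).map (act (g b * h)) := by
      rw [hJ]
      ext w
      constructor
      · rintro ⟨_, ⟨f, hf, rfl⟩, rfl⟩
        exact ⟨f, hf, by rw [hval b hb f hf b hb, if_pos rfl]⟩
      · rintro ⟨f, hf, rfl⟩
        exact ⟨act (g b) f, ⟨f, hf, rfl⟩, by rw [hval b hb f hf b hb, if_pos rfl]⟩
    have e2 := finrank_map_add (kr G act g h (S.erase b) a) (act (g b * h))
    have e3 : kr G act g h (S.erase b) a ⊓ LinearMap.ker (act (g b * h)) = kr G act g h S a := by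
      ext f
      rw [Submodule.mem_inf, mem_kr, mem_kr, LinearMap.mem_ker]
      constructor
      · rintro ⟨⟨h1, h2⟩, h3⟩
        refine ⟨h1, fun b' hb' => ?_⟩
        by_cases hbb : b' = b
        · rw [hbb]
          exact h3
        · exact h2 b' (mem_erase.2 ⟨hbb, hb'⟩)
      · rintro ⟨h1, h2⟩
        exact ⟨⟨h1, fun b' hb' => h2 b' (mem_of_mem_erase hb')⟩, h2 b hb⟩
    rw [e3] at e2
    rw [e1]
    omega
  -- one more isolated space at a time
  have key : ∀ T : Finset β, T ⊆ S → Module.finrank K (kr G act g h univ (a + t)) +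
      ∑ b ∈ T, Module.finrank K ((J b).map (act (g b * h))) ≤
      Module.finrank K (kr G act g h univ (a + t) ⊔ T.sup J : Submodule K W) := by
    intro T
    induction T using Finset.induction_on with
    | empty =>
      intro _
      rw [sum_empty, add_zero, sup_empty, sup_bot_eq]
    | insert b T hb ih =>
      intro hT
      have hbS : b ∈ S := hT (mem_insert_self _ _)
      have hTS : T ⊆ S := fun x hx => hT (mem_insert_of_mem hx)
      have h1 : kr G act g h univ (a + t) ⊔ T.sup J ≤ LinearMap.ker (act (g b * h)) := by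
        refine sup_le (fun f hf => (mem_kr.1 hf).2 b (mem_univ b)) (Finset.sup_le fun b' hb' => ?_)
        rw [hJ]
        rintro _ ⟨f, hf, rfl⟩
        rw [LinearMap.mem_ker, hval b' (hTS hb') f hf b hbS, if_neg]
        rintro rfl
        exact hb hb'
      have h2 := finrank_sup_ge _ (J b) (act (g b * h)) h1
      have h3 : (kr G act g h univ (a + t) ⊔ T.sup J) ⊔ J b =
          kr G act g h univ (a + t) ⊔ (insert b T).sup J := by
        rw [sup_insert, sup_assoc]
        congr 1
        exact sup_comm _ _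
      rw [h3] at h2
      rw [sum_insert hb]
      have h4 := ih hTS
      omega
  have h1 := key S (Finset.Subset.refl S)
  rw [sum_congr rfl hrank] at h1
  refine h1.trans (Submodule.finrank_mono (sup_le hKh (Finset.sup_le hKc)))

end Pool.Agent.MP_9cec2c_lc.MX
end

section

/-!
The potential of a product of isolating factors, and its average.
-/

set_option autoImplicit false
set_option linter.unusedSectionVars false

namespace Pool.Agent.MP_9cec2c_lc.MX

open Finset Frege

variable {K V W : Type} [Field K] [AddCommGroup W] [Module K W] [FiniteDimensional K W]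
  {G : ℕ → Submodule K W} {act : Fun K V →ₗ[K] W →ₗ[K] W} {A : ℕ}
  {β : Type} [Fintype β] [DecidableEq β]

/-- The rank of the functions `g b * h` on the level `a`. -/
noncomputable def rkk (G : ℕ → Submodule K W) (act : Fun K V →ₗ[K] W →ₗ[K] W) (g : β → Fun K V)
    (h : Fun K V) (a : ℕ) : ℝ :=
  Module.finrank K (G a) - Module.finrank K (kr G act g h univ a)

/-- The rank of the isolated part. -/
noncomputable def iso (G : ℕ → Submodule K W) (act : Fun K V →ₗ[K] W →ₗ[K] W) (g : β → Fun K V)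
    (h : Fun K V) (S : Finset β) (a : ℕ) : ℝ :=
  ∑ b ∈ S, ((Module.finrank K (kr G act g h (S.erase b) a) : ℝ) -
    Module.finrank K (kr G act g h S a))

/-- The potential. -/
noncomputable def pot (G : ℕ → Submodule K W) (act : Fun K V →ₗ[K] W →ₗ[K] W) (g : β → Fun K V)
    (a₀ t m : ℕ) (h : Fun K V) : ℝ :=
  ∑ j ∈ range (m + 1), rkk G act g h (a₀ + j * t) / 2 ^ j

theorem rkk_nonneg (g : β → Fun K V) (h : Fun K V) (a : ℕ) : 0 ≤ rkk G act g h a := by
  unfold rkk
  rw [sub_nonneg]
  have h1 := kr_anti (G := G) (act := act) g h (subset_univ (∅ : Finset β)) a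
  rw [kr_empty] at h1
  exact_mod_cast Submodule.finrank_mono h1

theorem iso_nonneg (g : β → Fun K V) (h : Fun K V) (S : Finset β) (a : ℕ) :
    0 ≤ iso G act g h S a := by
  unfold iso
  refine sum_nonneg fun b _ => ?_
  rw [sub_nonneg]
  exact_mod_cast Submodule.finrank_mono (kr_anti g h (erase_subset b S) a)

theorem rkk_le {B : ℝ} {a : ℕ} (hB : (Module.finrank K (G a) : ℝ) ≤ B) (g : β → Fun K V)
    (h : Fun K V) : rkk G act g h a ≤ B := by
  unfold rkk
  have : (0 : ℝ) ≤ Module.finrank K (kr G act g h univ a) := Nat.cast_nonneg _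
  linarith

theorem pot_nonneg (g : β → Fun K V) (a₀ t m : ℕ) (h : Fun K V) : 0 ≤ pot G act g a₀ t m h :=
  sum_nonneg fun _ _ => div_nonneg (rkk_nonneg _ _ _) (by positivity)

theorem rkk_le_pot (g : β → Fun K V) (a₀ t m : ℕ) (h : Fun K V) :
    rkk G act g h a₀ ≤ pot G act g a₀ t m h := by
  unfold pot
  have h1 := single_le_sum (f := fun j => rkk G act g h (a₀ + j * t) / 2 ^ j)
    (fun j _ => div_nonneg (rkk_nonneg _ _ _) (by positivity)) (mem_range.2 (Nat.succ_pos m))
  simp only [zero_mul, add_zero, pow_zero, div_one] at h1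
  exact h1

theorem pot_le {B : ℝ} {g : β → Fun K V} {a₀ t m : ℕ} {h : Fun K V} (hB0 : 0 ≤ B)
    (hB : ∀ j ≤ m, (Module.finrank K (G (a₀ + j * t)) : ℝ) ≤ B) :
    pot G act g a₀ t m h ≤ 2 * B := by
  unfold pot
  have h1 : ∀ j ∈ range (m + 1), rkk G act g h (a₀ + j * t) / 2 ^ j ≤ B * (1 / 2) ^ j := by
    intro j hj
    have h2 := rkk_le (act := act) (hB j (Nat.lt_succ_iff.1 (mem_range.1 hj))) g h
    rw [one_div, inv_pow, ← div_eq_mul_inv]
    exact div_le_div_of_nonneg_right h2 (by positivity)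
  refine (sum_le_sum h1).trans ?_
  rw [← mul_sum, mul_comm 2 B]
  refine mul_le_mul_of_nonneg_left ?_ hB0
  rw [geom_sum_eq (show (1 / 2 : ℝ) ≠ 1 by norm_num) (m + 1)]
  have h4 : (0 : ℝ) < (1 / 2) ^ (m + 1) := by positivity
  have h5 : ((1 / 2 : ℝ) ^ (m + 1) - 1) / (1 / 2 - 1) = 2 * (1 - (1 / 2) ^ (m + 1)) := by ring
  rw [h5]
  linarith

/-- The average of the isolated parts. -/
theorem avg_iso (g : β → Fun K V) (h : Fun K V) (a : ℕ) :
    ∑ S : Finset β, wt S * iso G act g h S a = rkk G act g h a := by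
  unfold iso rkk
  have h1 := avg_identity fun S : Finset β => (Module.finrank K (kr G act g h S a) : ℝ)
  rw [kr_empty] at h1
  exact h1

theorem rkk_mul_le (hW : World G act A) {g : β → Fun K V} {h u : Fun K V} {s t a : ℕ}
    (hg : ∀ b, g b ∈ Pol K V t) (hh : h ∈ Pol K V s) (hu : u ∈ Pol K V t)
    (hA : a + t + (t + s) ≤ A) : rkk G act g (h * u) a ≤ rkk G act g h a := by
  unfold rkk
  have h1 : kr G act g h univ a ≤ kr G act g (h * u) univ a := by
    intro f hf
    rw [mem_kr] at hf ⊢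
    refine ⟨hf.1, fun b hb => ?_⟩
    have e1 : g b * (h * u) = u * (g b * h) := by ring
    rw [e1, hW.act_mul a t (t + s) _ _ f (by omega) hu (mul_mem (hg b) hh) hf.1, hf.2 b hb,
      map_zero]
  have h2 : (Module.finrank K (kr G act g h univ a) : ℝ) ≤
      Module.finrank K (kr G act g (h * u) univ a) := by
    exact_mod_cast Submodule.finrank_mono h1
  linarith

/-- The drop of the potential. -/
theorem pot_drop (hW : World G act A) {g : β → Fun K V} {h : Fun K V} {s t a₀ m : ℕ}
    (hg : ∀ b, g b ∈ Pol K V t) (hh : h ∈ Pol K V s)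
    (hid : ∀ b, ∀ a f, a + 2 * t ≤ A → f ∈ G a → act (g b * g b) f = act (g b) f)
    (S : Finset β) (hA : a₀ + m * t + (t + s) + 2 * t ≤ A) :
    pot G act g a₀ t m (h * (1 - ∑ b ∈ S, g b)) +
      1 / 2 * ∑ j ∈ range m, iso G act g h S (a₀ + j * t) / 2 ^ j ≤ pot G act g a₀ t m h := by
  have hlev : ∀ j ≤ m, j * t ≤ m * t := fun j hj => Nat.mul_le_mul_right t hj
  have hu : (1 - ∑ b ∈ S, g b) ∈ Pol K V t :=
    Submodule.sub_mem _ (one_mem _) (Submodule.sum_mem _ fun b _ => hg b)
  unfold pot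
  rw [sum_range_succ', sum_range_succ' (fun j => rkk G act g h (a₀ + j * t) / 2 ^ j)]
  have h1 : rkk G act g (h * (1 - ∑ b ∈ S, g b)) (a₀ + 0 * t) / 2 ^ 0 ≤
      rkk G act g h (a₀ + 0 * t) / 2 ^ 0 :=
    div_le_div_of_nonneg_right (rkk_mul_le hW hg hh hu (by omega)) (by positivity)
  have h2 : ∑ j ∈ range m, rkk G act g (h * (1 - ∑ b ∈ S, g b)) (a₀ + (j + 1) * t) / 2 ^ (j + 1) +
      1 / 2 * ∑ j ∈ range m, iso G act g h S (a₀ + j * t) / 2 ^ j ≤
      ∑ j ∈ range m, rkk G act g h (a₀ + (j + 1) * t) / 2 ^ (j + 1) := by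
    rw [mul_sum, ← sum_add_distrib]
    refine sum_le_sum fun j hj => ?_
    have hjm := hlev (j + 1) (mem_range.1 hj)
    have h4 : (j + 1) * t = j * t + t := by ring
    rw [h4] at hjm
    have h5 := kr_drop hW hg hh hid S (a := a₀ + j * t) (by omega)
    have h6 : (Module.finrank K (kr G act g h univ (a₀ + j * t + t)) : ℝ) +
        iso G act g h S (a₀ + j * t) ≤
        Module.finrank K (kr G act g (h * (1 - ∑ b ∈ S, g b)) univ (a₀ + j * t + t)) := by
      have h7 : iso G act g h S (a₀ + j * t) =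
          ((∑ b ∈ S, (Module.finrank K (kr G act g h (S.erase b) (a₀ + j * t)) -
            Module.finrank K (kr G act g h S (a₀ + j * t))) : ℕ) : ℝ) := by
        unfold iso
        rw [Nat.cast_sum]
        refine sum_congr rfl fun b _ => ?_
        rw [Nat.cast_sub (Submodule.finrank_mono (kr_anti g h (erase_subset b S) _))]
      rw [h7]
      exact_mod_cast h5
    have h8 : rkk G act g (h * (1 - ∑ b ∈ S, g b)) (a₀ + (j + 1) * t) +
        iso G act g h S (a₀ + j * t) ≤ rkk G act g h (a₀ + (j + 1) * t) := by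
      rw [h4, ← add_assoc]
      unfold rkk
      linarith
    have h9 : 1 / 2 * (iso G act g h S (a₀ + j * t) / 2 ^ j) =
        iso G act g h S (a₀ + j * t) / 2 ^ (j + 1) := by
      rw [pow_succ]
      field_simp
    rw [h9, ← add_div]
    exact div_le_div_of_nonneg_right h8 (by positivity)
  linarith

/-- The average of the potentials. -/
theorem pot_avg (hW : World G act A) {g : β → Fun K V} {h : Fun K V} {s t a₀ m : ℕ} {B : ℝ}
    (hg : ∀ b, g b ∈ Pol K V t) (hh : h ∈ Pol K V s)
    (hid : ∀ b, ∀ a f, a + 2 * t ≤ A → f ∈ G a → act (g b * g b) f = act (g b) f)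
    (hB : (Module.finrank K (G (a₀ + m * t)) : ℝ) ≤ B)
    (hA : a₀ + m * t + (t + s) + 2 * t ≤ A) :
    ∑ S : Finset β, wt S * pot G act g a₀ t m (h * (1 - ∑ b ∈ S, g b)) +
      1 / 2 * (pot G act g a₀ t m h - B / 2 ^ m) ≤
      (∑ S : Finset β, wt S) * pot G act g a₀ t m h := by
  have h1 : ∀ S : Finset β, wt S * pot G act g a₀ t m (h * (1 - ∑ b ∈ S, g b)) +
      1 / 2 * ∑ j ∈ range m, wt S * iso G act g h S (a₀ + j * t) / 2 ^ j ≤
      wt S * pot G act g a₀ t m h := by
    intro S
    have h2 := mul_le_mul_of_nonneg_left (pot_drop hW hg hh hid S hA) (wt_nonneg S)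
    refine le_trans (le_of_eq ?_) h2
    rw [mul_add]
    congr 1
    rw [mul_left_comm, mul_sum (f := fun j => iso G act g h S (a₀ + j * t) / 2 ^ j)]
    congr 1
    exact sum_congr rfl fun j _ => by ring
  have h2 := sum_le_sum fun S (_ : S ∈ (univ : Finset (Finset β))) => h1 S
  rw [sum_add_distrib, ← mul_sum, sum_comm, ← sum_mul] at h2
  have h3 : ∑ j ∈ range m, ∑ S : Finset β, wt S * iso G act g h S (a₀ + j * t) / 2 ^ j =
      ∑ j ∈ range m, rkk G act g h (a₀ + j * t) / 2 ^ j := by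
    refine sum_congr rfl fun j _ => ?_
    rw [← sum_div, avg_iso]
  rw [h3] at h2
  have h4 : pot G act g a₀ t m h = ∑ j ∈ range m, rkk G act g h (a₀ + j * t) / 2 ^ j +
      rkk G act g h (a₀ + m * t) / 2 ^ m := by
    unfold pot
    rw [sum_range_succ]
  have h5 : rkk G act g h (a₀ + m * t) / 2 ^ m ≤ B / 2 ^ m :=
    div_le_div_of_nonneg_right (rkk_le hB g h) (by positivity)
  have h6 : pot G act g a₀ t m h - B / 2 ^ m ≤
      ∑ j ∈ range m, rkk G act g h (a₀ + j * t) / 2 ^ j := by linarith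
  linarith

end Pool.Agent.MP_9cec2c_lc.MX
end

section

/-!
The approximation of a disjunction by one function with integer values, in several worlds at once.
-/

set_option autoImplicit false
set_option linter.unusedSectionVars false

namespace Pool.Agent.MP_9cec2c_lc.MX

open Finset Frege

/-- A function with integer values as a function with values in the field `K`. -/
def castF (K : Type) [Field K] {V : Type} : Fun ℤ V →+* Fun K V :=
  (Int.castRingHom K).compLeft (V → Bool)

theorem castF_apply (K : Type) [Field K] {V : Type} (P : Fun ℤ V) (x : V → Bool) :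
    castF K P x = ((P x : ℤ) : K) := rfl

/-- The degree of a function with integer values is at most `e`, over every field. -/
def DegZ {V : Type} (e : ℕ) (P : Fun ℤ V) : Prop :=
  ∀ (K : Type) [Field K], castF K P ∈ Pol K V e

section deg

variable {V : Type}

theorem DegZ.mono {e e' : ℕ} (h : e ≤ e') {P : Fun ℤ V} (hP : DegZ e P) : DegZ e' P :=
  fun K _ => Pol_mono h (hP K)

theorem degZ_one (e : ℕ) : DegZ e (1 : Fun ℤ V) := fun K _ => by
  rw [map_one]
  exact one_mem _

theorem degZ_zero (e : ℕ) : DegZ e (0 : Fun ℤ V) := fun K _ => by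
  rw [map_zero]
  exact Submodule.zero_mem _

theorem DegZ.add {e : ℕ} {P Q : Fun ℤ V} (hP : DegZ e P) (hQ : DegZ e Q) : DegZ e (P + Q) :=
  fun K _ => by
    rw [map_add]
    exact Submodule.add_mem _ (hP K) (hQ K)

theorem DegZ.sub {e : ℕ} {P Q : Fun ℤ V} (hP : DegZ e P) (hQ : DegZ e Q) : DegZ e (P - Q) :=
  fun K _ => by
    rw [map_sub]
    exact Submodule.sub_mem _ (hP K) (hQ K)

theorem DegZ.mul {e e' : ℕ} {P Q : Fun ℤ V} (hP : DegZ e P) (hQ : DegZ e' Q) :
    DegZ (e + e') (P * Q) :=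
  fun K _ => by
    rw [map_mul]
    exact mul_mem (hP K) (hQ K)

theorem DegZ.sum {ι : Type} (s : Finset ι) {e : ℕ} {P : ι → Fun ℤ V}
    (hP : ∀ i ∈ s, DegZ e (P i)) : DegZ e (∑ i ∈ s, P i) :=
  fun K _ => by
    rw [map_sum]
    exact Submodule.sum_mem _ fun i hi => hP i hi K

theorem DegZ.prod {ι : Type} (s : Finset ι) {e : ℕ} {P : ι → Fun ℤ V}
    (hP : ∀ i ∈ s, DegZ e (P i)) : DegZ (s.card * e) (∏ i ∈ s, P i) :=
  fun K _ => by
    rw [map_prod]
    exact prod_mem s fun i hi => hP i hi K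

end deg

/-- The product of the factors `1 - ∑ b ∈ S j, g b`. -/
def fac {V β : Type} (g : β → Fun ℤ V) {k : ℕ} (S : Fin k → Finset β) : Fun ℤ V :=
  ∏ j, (1 - ∑ b ∈ S j, g b)

theorem fac_deg {V β : Type} {g : β → Fun ℤ V} {k t : ℕ} (S : Fin k → Finset β)
    (hg : ∀ b, DegZ t (g b)) : DegZ (k * t) (fac g S) := by
  have h1 := DegZ.prod (univ : Finset (Fin k)) (e := t) (P := fun j => 1 - ∑ b ∈ S j, g b)
    fun j _ => (degZ_one t).sub (DegZ.sum _ fun b _ => hg b)
  rwa [card_univ, Fintype.card_fin] at h1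

variable {V : Type} {ι : Type} [Fintype ι] {K W : ι → Type} [∀ i, Field (K i)]
  [∀ i, AddCommGroup (W i)] [∀ i, Module (K i) (W i)] [∀ i, FiniteDimensional (K i) (W i)]
  {G : ∀ i, ℕ → Submodule (K i) (W i)} {act : ∀ i, Fun (K i) V →ₗ[K i] W i →ₗ[K i] W i} {A : ℕ}
  {β : Type} [Fintype β] [DecidableEq β]

/-- One more factor: the sum of the potentials drops. -/
theorem family_step [Nonempty β] (hW : ∀ i, World (G i) (act i) A) {g : β → Fun ℤ V}
    {h : Fun ℤ V} {s t a₀ m R : ℕ} {B : ℝ} (hR : Fintype.card β ≤ 2 ^ R)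
    (hg : ∀ b, DegZ t (g b)) (hh : DegZ s h)
    (hid : ∀ i, ∀ b, ∀ a f, a + 2 * t ≤ A → f ∈ G i a →
      act i (castF (K i) (g b) * castF (K i) (g b)) f = act i (castF (K i) (g b)) f)
    (hB : ∀ i, (Module.finrank (K i) (G i (a₀ + m * t)) : ℝ) ≤ B)
    (hA : a₀ + m * t + (t + s) + 2 * t ≤ A) {X : ℝ} (hX : 0 ≤ X)
    (hpot : ∑ i, pot (G i) (act i) (fun b => castF (K i) (g b)) a₀ t m (castF (K i) h) ≤
      X + Fintype.card ι * (B / 2 ^ m)) :
    ∃ S : Finset β, ∑ i, pot (G i) (act i) (fun b => castF (K i) (g b)) a₀ t m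
        (castF (K i) (h * (1 - ∑ b ∈ S, g b))) ≤
      (1 - 1 / (2 * (R + 1))) * X + Fintype.card ι * (B / 2 ^ m) := by
  obtain ⟨H, hH⟩ : ∃ H : ℝ, H = ∑ S : Finset β, wt S := ⟨_, rfl⟩
  have hH1 : 1 ≤ H := by
    rw [hH]
    exact one_le_sum_wt
  have hH2 : H ≤ R + 1 := by
    rw [hH]
    exact sum_wt_le hR
  obtain ⟨Y, hY⟩ : ∃ Y : ℝ, Y = Fintype.card ι * (B / 2 ^ m) := ⟨_, rfl⟩
  obtain ⟨p, hp⟩ : ∃ p : ℝ, p = ∑ i, pot (G i) (act i) (fun b => castF (K i) (g b)) a₀ t m
    (castF (K i) h) := ⟨_, rfl⟩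
  obtain ⟨P, hP⟩ : ∃ P : Finset β → ℝ, P = fun S => ∑ i, pot (G i) (act i)
    (fun b => castF (K i) (g b)) a₀ t m (castF (K i) (h * (1 - ∑ b ∈ S, g b))) := ⟨_, rfl⟩
  rw [← hY, ← hp] at hpot
  have hcast : ∀ i (S : Finset β), castF (K i) (h * (1 - ∑ b ∈ S, g b)) =
      castF (K i) h * (1 - ∑ b ∈ S, castF (K i) (g b)) := by
    intro i S
    rw [map_mul, map_sub, map_one, map_sum]
  have havg : ∑ S : Finset β, wt S * P S + 1 / 2 * (p - Y) ≤ H * p := by
    have h1 : ∀ i, ∑ S : Finset β, wt S * pot (G i) (act i) (fun b => castF (K i) (g b)) a₀ t m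
        (castF (K i) (h * (1 - ∑ b ∈ S, g b))) +
        1 / 2 * (pot (G i) (act i) (fun b => castF (K i) (g b)) a₀ t m (castF (K i) h) -
          B / 2 ^ m) ≤
        H * pot (G i) (act i) (fun b => castF (K i) (g b)) a₀ t m (castF (K i) h) := by
      intro i
      have h2 := pot_avg (hW i) (g := fun b => castF (K i) (g b)) (h := castF (K i) h)
        (s := s) (t := t) (a₀ := a₀) (m := m) (B := B) (fun b => hg b (K i)) (hh (K i)) (hid i)
        (hB i) hA
      rw [← hH] at h2
      rw [sum_congr rfl fun S _ => by rw [hcast i S]]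
      exact h2
    have h2 := sum_le_sum fun i (_ : i ∈ (univ : Finset ι)) => h1 i
    rw [sum_add_distrib, ← mul_sum, ← mul_sum, ← hp, sum_comm, sum_sub_distrib, ← hp, sum_const,
      card_univ, nsmul_eq_mul, ← hY] at h2
    rw [hP]
    simp only [mul_sum]
    exact h2
  have hmin : ∃ S, P S ≤ p - 1 / (2 * H) * (p - Y) := by
    by_contra hcon
    push Not at hcon
    have h1 : ∑ S : Finset β, wt S * (p - 1 / (2 * H) * (p - Y)) ≤ ∑ S, wt S * P S :=
      sum_le_sum fun S _ => mul_le_mul_of_nonneg_left (hcon S).le (wt_nonneg S)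
    have h2 : ∃ S : Finset β, 0 < wt S := by
      by_contra h3
      push Not at h3
      have h4 : ∑ S : Finset β, wt S ≤ 0 := sum_nonpos fun S _ => h3 S
      rw [← hH] at h4
      linarith
    obtain ⟨S₀, hS₀⟩ := h2
    have h3 : ∑ S : Finset β, wt S * (p - 1 / (2 * H) * (p - Y)) < ∑ S, wt S * P S :=
      sum_lt_sum (fun S _ => mul_le_mul_of_nonneg_left (hcon S).le (wt_nonneg S))
        ⟨S₀, mem_univ _, mul_lt_mul_of_pos_left (hcon S₀) hS₀⟩
    rw [← sum_mul, ← hH] at h3
    have h4 : H * (p - 1 / (2 * H) * (p - Y)) = H * p - 1 / 2 * (p - Y) := by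
      field_simp
    linarith
  obtain ⟨S, hS⟩ := hmin
  refine ⟨S, ?_⟩
  rw [hP] at hS
  rw [← hY]
  refine hS.trans ?_
  have hθ : 1 / (2 * ((R : ℝ) + 1)) ≤ 1 / (2 * H) :=
    one_div_le_one_div_of_le (by positivity) (by linarith)
  have hθ1 : 1 / (2 * H) ≤ 1 := by
    rw [div_le_one (by positivity)]
    linarith
  have hθ0 : 0 ≤ 1 / (2 * ((R : ℝ) + 1)) := by positivity
  rcases le_total p Y with hpY | hpY
  · have h1 : p - 1 / (2 * H) * (p - Y) ≤ Y := by
      have h2 : 0 ≤ (1 - 1 / (2 * H)) * (Y - p) := mul_nonneg (by linarith) (by linarith)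
      have h3 : p - 1 / (2 * H) * (p - Y) = Y - (1 - 1 / (2 * H)) * (Y - p) := by ring
      linarith
    have h2 : 0 ≤ (1 - 1 / (2 * ((R : ℝ) + 1))) * X := mul_nonneg (by linarith) hX
    linarith
  · have h1 : 1 / (2 * ((R : ℝ) + 1)) * (p - Y) ≤ 1 / (2 * H) * (p - Y) :=
      mul_le_mul_of_nonneg_right hθ (by linarith)
    have h2 : (1 - 1 / (2 * ((R : ℝ) + 1))) * (p - Y) ≤ (1 - 1 / (2 * ((R : ℝ) + 1))) * X :=
      mul_le_mul_of_nonneg_left (by linarith) (by linarith)
    have h3 : (1 - 1 / (2 * ((R : ℝ) + 1))) * (p - Y) =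
        p - Y - 1 / (2 * ((R : ℝ) + 1)) * (p - Y) := by ring
    linarith

/-- The approximation of a disjunction in several worlds at once. -/
theorem exists_nor (hW : ∀ i, World (G i) (act i) A) {g : β → Fun ℤ V}
    {t a₀ m R : ℕ} {B : ℝ} (hR : Fintype.card β ≤ 2 ^ R) (hg : ∀ b, DegZ t (g b))
    (hid : ∀ i, ∀ b, ∀ a f, a + 2 * t ≤ A → f ∈ G i a →
      act i (castF (K i) (g b) * castF (K i) (g b)) f = act i (castF (K i) (g b)) f)
    (hB0 : 0 ≤ B) (hB : ∀ i, ∀ a ≤ A, (Module.finrank (K i) (G i a) : ℝ) ≤ B) (k : ℕ)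
    (hA : a₀ + (m + k + 3) * t ≤ A) :
    ∃ S : Fin k → Finset β, ∀ i,
      (Module.finrank (K i) (G i a₀) : ℝ) -
        Module.finrank (K i) (kr (G i) (act i) (fun b => castF (K i) (g b))
          (castF (K i) (fac g S)) univ a₀) ≤
      Fintype.card ι * B * (2 * (1 - 1 / (2 * (R + 1))) ^ k + 1 / 2 ^ m) := by
  classical
  obtain ⟨θ, hθ⟩ : ∃ θ : ℝ, θ = 1 - 1 / (2 * (R + 1)) := ⟨_, rfl⟩
  have hθ0 : 0 ≤ θ := by
    rw [hθ, sub_nonneg, div_le_one (by positivity)]
    have : (0 : ℝ) ≤ R := Nat.cast_nonneg R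
    linarith
  have hmt : (m + k + 3) * t = m * t + k * t + 3 * t := by ring
  rcases isEmpty_or_nonempty β with hβ | hβ
  · refine ⟨fun _ => ∅, fun i => ?_⟩
    have h1 : (univ : Finset β) = ∅ := univ_eq_empty
    rw [h1, kr_empty, sub_self, ← hθ]
    positivity
  · have key : ∀ k' ≤ k, ∃ S : Fin k' → Finset β,
        ∑ i, pot (G i) (act i) (fun b => castF (K i) (g b)) a₀ t m (castF (K i) (fac g S)) ≤
          θ ^ k' * (Fintype.card ι * (2 * B)) + Fintype.card ι * (B / 2 ^ m) := by
      intro k'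
      induction k' with
      | zero =>
        intro _
        refine ⟨Fin.elim0, ?_⟩
        have h1 : ∀ i ∈ (univ : Finset ι), pot (G i) (act i) (fun b => castF (K i) (g b)) a₀ t m
            (castF (K i) (fac g (Fin.elim0 : Fin 0 → Finset β))) ≤ 2 * B := by
          intro i _
          refine pot_le hB0 fun j hj => hB i _ ?_
          have := Nat.mul_le_mul_right t hj
          omega
        refine (sum_le_sum h1).trans ?_
        rw [sum_const, card_univ, nsmul_eq_mul, pow_zero, one_mul]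
        have h2 : 0 ≤ (Fintype.card ι : ℝ) * (B / 2 ^ m) := by positivity
        linarith
      | succ k' ih =>
        intro hk
        obtain ⟨S, hS⟩ := ih (by omega)
        have hkt : (k' + 1) * t ≤ k * t := Nat.mul_le_mul_right t hk
        have hkt' : (k' + 1) * t = k' * t + t := by ring
        obtain ⟨T, hT⟩ := family_step hW hR hg (fac_deg S hg) hid
          (fun i => hB i (a₀ + m * t) (by omega)) (by omega)
          (X := θ ^ k' * (Fintype.card ι * (2 * B))) (by positivity) hS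
        refine ⟨Fin.snoc S T, ?_⟩
        have h1 : fac g (Fin.snoc S T : Fin (k' + 1) → Finset β) =
            fac g S * (1 - ∑ b ∈ T, g b) := by
          unfold fac
          rw [Fin.prod_univ_castSucc, Fin.snoc_last]
          congr 1
          refine prod_congr rfl fun j _ => ?_
          rw [Fin.snoc_castSucc]
        rw [h1]
        refine hT.trans (le_of_eq ?_)
        rw [← hθ, pow_succ]
        ring
    obtain ⟨S, hS⟩ := key k le_rfl
    refine ⟨S, fun i => ?_⟩
    have h1 : rkk (G i) (act i) (fun b => castF (K i) (g b)) (castF (K i) (fac g S)) a₀ ≤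
        ∑ i, pot (G i) (act i) (fun b => castF (K i) (g b)) a₀ t m (castF (K i) (fac g S)) :=
      (rkk_le_pot _ _ _ _ _).trans (single_le_sum (f := fun i => pot (G i) (act i)
        (fun b => castF (K i) (g b)) a₀ t m (castF (K i) (fac g S)))
        (fun i _ => pot_nonneg _ _ _ _ _) (mem_univ i))
    unfold rkk at h1
    refine (h1.trans hS).trans (le_of_eq ?_)
    rw [← hθ]
    ring

end Pool.Agent.MP_9cec2c_lc.MX
end
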