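import Mathlib
import Pool.Agent.Lib.MP_9cec2c_lc.TTLight
import Pool.Agent.Lib.MP_9cec2c_lc.TTDefs
import Pool.Agent.Lib.MP_9cec2c_lc.TTClus

section

/-!
If all cuts between two sets have at least `s` edges, then for all weights of the edges some path
between the sets has at most the `s`-th part of the total weight. Congestion of multiflows.
-/

set_option autoImplicit false
set_option linter.unusedSectionVars false

namespace Pool.Agent.MP_9cec2c_lc.TT

open Finset

variable {V E : Type} [Fintype V] [Fintype E] [DecidableEq V] [DecidableEq E] {src tgt : E → V}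

private theorem TTDem_num {s m : ℕ} (hs : 0 < s) (hm : m ≤ s) : (s + 1) ^ m ≤ 3 * s ^ m := by
  have hs' : (0 : ℝ) < s := by exact_mod_cast hs
  have h1 : ((s : ℝ) + 1) ^ m ≤ 3 * (s : ℝ) ^ m := by
    have h2 : ((s : ℝ) + 1) = s * (1 / s + 1) := by
      field_simp
      ring
    rw [h2, mul_pow, mul_comm]
    refine mul_le_mul_of_nonneg_right ?_ (by positivity)
    have h3 : ((1 : ℝ) / s + 1) ^ m ≤ Real.exp (1 / s) ^ m :=
      pow_le_pow_left₀ (by positivity) (Real.add_one_le_exp _) m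
    have h4 : Real.exp ((1 : ℝ) / s) ^ m = Real.exp (m * (1 / s)) := (Real.exp_nat_mul _ _).symm
    have h5 : (m : ℝ) * (1 / s) ≤ 1 := by
      rw [mul_one_div, div_le_one hs']
      exact_mod_cast hm
    have h6 := Real.exp_le_exp.2 h5
    have h7 := Real.exp_one_lt_d9
    rw [h4] at h3
    linarith
  exact_mod_cast h1

private theorem TTDem_aux {X : Type} [DecidableEq X] (A B : X → Finset V) {s : ℕ}
    (hs : 0 < s)
    (hcut : ∀ i, ∀ U : Finset V, A i ⊆ U → Disjoint U (B i) → s ≤ (cut src tgt U).card)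
    (Y : Finset X) :
    ∃ f : X → E → ℤ, (∀ i ∈ Y, ∃ a ∈ A i, ∃ b ∈ B i,
      ∀ z, bd src tgt (f i) z = (if a = z then 1 else 0) - (if b = z then 1 else 0)) ∧
      s ^ Y.card * ∑ e, 2 ^ (Y.filter fun i => f i e ≠ 0).card ≤
        (s + 1) ^ Y.card * Fintype.card E := by
  induction Y using Finset.induction_on with
  | empty => exact ⟨fun _ _ => 0, by simp, by simp⟩
  | insert i Y hi ih =>
    obtain ⟨f, hf, hsum⟩ := ih
    obtain ⟨a, ha, b, hb, D, g, hgD, hbd, hw⟩ := exists_light (src := src) (tgt := tgt) hs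
      (fun e => 2 ^ (Y.filter fun j => f j e ≠ 0).card) (hcut i)
    refine ⟨Function.update f i g, ?_, ?_⟩
    · intro j hj
      rcases Finset.mem_insert.1 hj with rfl | hj
      · exact ⟨a, ha, b, hb, by simpa using hbd⟩
      · have hne : j ≠ i := fun h => hi (h ▸ hj)
        rw [Function.update_of_ne hne]
        exact hf j hj
    · have h1 : ∀ e, 2 ^ ((insert i Y).filter fun j => Function.update f i g j e ≠ 0).card ≤
          2 ^ (Y.filter fun j => f j e ≠ 0).card +
            (if e ∈ D then 2 ^ (Y.filter fun j => f j e ≠ 0).card else 0) := by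
        intro e
        have h2 : (Y.filter fun j => Function.update f i g j e ≠ 0) =
            Y.filter fun j => f j e ≠ 0 := by
          refine Finset.filter_congr fun j hj => ?_
          have hne : j ≠ i := fun h => hi (h ▸ hj)
          rw [Function.update_of_ne hne]
        rw [Finset.filter_insert, h2]
        split_ifs with h3 h4 h4
        · refine (Nat.pow_le_pow_right (by norm_num) (Finset.card_insert_le _ _)).trans ?_
          rw [pow_succ]
          omega
        · exact absurd (hgD e (by simpa using h3)) h4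
        · exact Nat.le_add_right _ _
        · exact Nat.le_add_right _ _
      have h5 := Finset.sum_le_sum fun e (_ : e ∈ (univ : Finset E)) => h1 e
      rw [Finset.sum_add_distrib, ← Finset.sum_filter, Finset.filter_mem_eq_inter,
        Finset.univ_inter] at h5
      rw [Finset.card_insert_of_notMem hi]
      calc s ^ (Y.card + 1) * ∑ e, 2 ^ ((insert i Y).filter
              fun j => Function.update f i g j e ≠ 0).card
          ≤ s ^ (Y.card + 1) * (∑ e, 2 ^ (Y.filter fun j => f j e ≠ 0).card +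
              ∑ e ∈ D, 2 ^ (Y.filter fun j => f j e ≠ 0).card) :=
            Nat.mul_le_mul_left _ h5
        _ = s ^ Y.card * (s * ∑ e, 2 ^ (Y.filter fun j => f j e ≠ 0).card +
              s * ∑ e ∈ D, 2 ^ (Y.filter fun j => f j e ≠ 0).card) := by ring
        _ ≤ s ^ Y.card * (s * ∑ e, 2 ^ (Y.filter fun j => f j e ≠ 0).card +
              ∑ e, 2 ^ (Y.filter fun j => f j e ≠ 0).card) :=
            Nat.mul_le_mul_left _ (Nat.add_le_add_left hw _)
        _ = (s + 1) * (s ^ Y.card * ∑ e, 2 ^ (Y.filter fun j => f j e ≠ 0).card) := by ring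
        _ ≤ (s + 1) * ((s + 1) ^ Y.card * Fintype.card E) := Nat.mul_le_mul_left _ hsum
        _ = (s + 1) ^ (Y.card + 1) * Fintype.card E := by ring

/-- TASK TTDem. Many demands with small congestion.

PROOF. Claim: for every `Y : Finset X` there are `a b : X → V`, `f : X → E → ℤ` with the first two properties for
all `i ∈ Y`, and `s ^ Y.card * ∑ e, 2 ^ #{i ∈ Y | f i e ≠ 0} ≤ (s + 1) ^ Y.card * Fintype.card E`. Induction on `Y`
(`Finset.induction_on`): for `insert i Y` apply `exists_light` to `A i`, `B i` and `w e = 2 ^ #{j ∈ Y | f j e ≠ 0}`, and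
change `f`, `a`, `b` at `i` (`Function.update`): the new sum is at most
`∑ e, w e + ∑ e ∈ D, w e` (for `e ∉ D` the count does not change, for `e ∈ D` it grows by at most 1), and
`s * (∑ w + ∑_D w) ≤ (s + 1) * ∑ w`.
For `Y = univ`, `m = Fintype.card X ≤ s`: `s ^ m * 2 ^ load e ≤ (s + 1) ^ m * card E`, and
`(s + 1) ^ m ≤ 3 * s ^ m` (in the reals `(1 + 1 / s) ^ m ≤ exp (m / s) ≤ exp 1 < 3`: `Real.add_one_le_exp`,
`Real.exp_one_lt_d9`), so `2 ^ load e ≤ 3 * card E` and `load e ≤ Nat.log 2 (3 * card E)` (`Nat.le_log_of_pow_le`). -/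
theorem exists_demands {X : Type} [Fintype X] [DecidableEq X] (A B : X → Finset V) {s : ℕ}
    (hs : 0 < s) (hX : Fintype.card X ≤ s)
    (hcut : ∀ i, ∀ U : Finset V, A i ⊆ U → Disjoint U (B i) → s ≤ (cut src tgt U).card) :
    ∃ (a b : X → V) (f : X → E → ℤ), (∀ i, a i ∈ A i ∧ b i ∈ B i) ∧
      (∀ i z, bd src tgt (f i) z = (if a i = z then 1 else 0) - (if b i = z then 1 else 0)) ∧
      ∀ e, (univ.filter fun i => f i e ≠ 0).card ≤ Nat.log 2 (3 * Fintype.card E) := by
  obtain ⟨f, hf, hsum⟩ := TTDem_aux (src := src) (tgt := tgt) A B hs hcut univ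
  have hf' : ∀ i, ∃ a ∈ A i, ∃ b ∈ B i,
      ∀ z, bd src tgt (f i) z = (if a = z then 1 else 0) - (if b = z then 1 else 0) :=
    fun i => hf i (mem_univ i)
  choose a ha b hb hbd using hf'
  refine ⟨a, b, f, fun i => ⟨ha i, hb i⟩, hbd, fun e => ?_⟩
  refine Nat.le_log_of_pow_le (by norm_num) ?_
  rw [Finset.card_univ] at hsum
  have h1 : 2 ^ (univ.filter fun i => f i e ≠ 0).card ≤
      ∑ e, 2 ^ (univ.filter fun i => f i e ≠ 0).card :=
    Finset.single_le_sum (f := fun e => 2 ^ (univ.filter fun i => f i e ≠ 0).card)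
      (fun _ _ => Nat.zero_le _) (mem_univ e)
  have h2 : s ^ Fintype.card X * 2 ^ (univ.filter fun i => f i e ≠ 0).card ≤
      s ^ Fintype.card X * (3 * Fintype.card E) := by
    refine (Nat.mul_le_mul_left _ h1).trans (hsum.trans ?_)
    refine (Nat.mul_le_mul_right _ (TTDem_num hs hX)).trans (le_of_eq ?_)
    ring
  exact Nat.le_of_mul_le_mul_left h2 (by positivity)

end Pool.Agent.MP_9cec2c_lc.TT
end

section

/-!
A graph without a tree decomposition with small bags has a well linked set.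
-/

set_option autoImplicit false
set_option linter.unusedSectionVars false

namespace Pool.Agent.MP_9cec2c_lc.TT

open Finset

variable {V E : Type} [Fintype V] [Fintype E] [DecidableEq V] [DecidableEq E]

/-- The set `T` is well linked: a cut which separates `a` points of `T` from `b` points of `T` has at
least `min a b` edges. -/
def WellLinked (src tgt : E → V) (T : Finset V) : Prop :=
  ∀ U : Finset V, min (T ∩ U).card (T \ U).card ≤ (cut src tgt U).card

/-- The part of the graph inside `Z` has a tree decomposition with bags of at most `k` vertices,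
all in `Z`, and `Y` is in the bag of the root. -/
def DecOn (src tgt : E → V) (k : ℕ) (Z Y : Finset V) : Prop :=
  ∃ (I : Type) (_ : Fintype I) (par : I → Option I) (rank : I → ℕ) (bag : I → Finset V) (root : I),
    par root = none ∧ Y ⊆ bag root ∧
    (∀ i j, par i = some j → rank j < rank i) ∧
    (∀ i, par i = none → i = root) ∧
    (∀ i, (bag i).card ≤ k) ∧ (∀ i, bag i ⊆ Z) ∧ (∀ v ∈ Z, ∃ i, v ∈ bag i) ∧
    (∀ e, src e ∈ Z → tgt e ∈ Z → ∃ i, src e ∈ bag i ∧ tgt e ∈ bag i) ∧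
    ∀ v i j, v ∈ bag i → v ∈ bag j → (∀ i', par i = some i' → v ∉ bag i') →
      (∀ j', par j = some j' → v ∉ bag j') → i = j

/-- The parent function of the glued tree. -/
private def TTGlue_par {I₁ I₂ : Type} (p₁ : I₁ → Option I₁) (p₂ : I₂ → Option I₂) :
    Option (I₁ ⊕ I₂) → Option (Option (I₁ ⊕ I₂))
  | none => none
  | some (Sum.inl i) => some ((p₁ i).map Sum.inl)
  | some (Sum.inr i) => some ((p₂ i).map Sum.inr)

/-- The rank of the glued tree. -/
private def TTGlue_rank {I₁ I₂ : Type} (r₁ : I₁ → ℕ) (r₂ : I₂ → ℕ) : Option (I₁ ⊕ I₂) → ℕ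
  | none => 0
  | some (Sum.inl i) => r₁ i + 1
  | some (Sum.inr i) => r₂ i + 1

/-- The bags of the glued tree. -/
private def TTGlue_bag {I₁ I₂ : Type} (B : Finset V) (b₁ : I₁ → Finset V) (b₂ : I₂ → Finset V) :
    Option (I₁ ⊕ I₂) → Finset V
  | none => B
  | some (Sum.inl i) => b₁ i
  | some (Sum.inr i) => b₂ i

variable {src tgt : E → V}

/-- TASK TTGlue (1). Gluing two tree decompositions at a new root with the bag `B`.

PROOF. `I = Option (I₁ ⊕ I₂)`, `root = none`, `bag none = B`, `bag (some (inl i)) = bag₁ i`,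
`bag (some (inr i)) = bag₂ i`; `par none = none`, `par (some (inl i)) = some none` if `par₁ i = none` and
`some (some (inl j))` if `par₁ i = some j`, the same for `inr`; `rank none = 0`, otherwise the old rank + 1.
Edges inside `Z`: `hE`. Tops: let `v` be in the bags of `i` and `j`, both without parent containing `v`.
If both are in the same old tree: use the old property (the parent of an old node is the old parent or,
for the old root, `none`; in both cases `v` is not in the bag of an old parent). If `i = none` and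
`j = some (inl j₁)`: `v ∈ B` and `v ∈ Z₁` (`bag₁ ⊆ Z₁`), so `v ∈ Y₁ ⊆ bag₁ root₁` (`h1`); `j₁` and `root₁` are both
tops of `v` in the first tree, so `j₁ = root₁`, whose parent is `none` with `v ∈ B`: contradiction. If
`i = some (inl i₁)`, `j = some (inr j₂)`: `v ∈ Z₁ ∩ Z₂ ⊆ B` (`h12`), `v ∈ Y₁`, and `i₁ = root₁` as before: its parent is
`none` and `v ∈ B`: contradiction. -/
theorem decOn_glue {k : ℕ} {Z Y Z₁ Y₁ Z₂ Y₂ B : Finset V} (d1 : DecOn src tgt k Z₁ Y₁)
    (d2 : DecOn src tgt k Z₂ Y₂) (hB : B.card ≤ k) (hYB : Y ⊆ B) (hBZ : B ⊆ Z) (hZ1 : Z₁ ⊆ Z)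
    (hZ2 : Z₂ ⊆ Z) (hZ : Z ⊆ Z₁ ∪ Z₂) (h12 : Z₁ ∩ Z₂ ⊆ B) (h1 : B ∩ Z₁ ⊆ Y₁) (h2 : B ∩ Z₂ ⊆ Y₂)
    (hE : ∀ e, src e ∈ Z → tgt e ∈ Z →
      (src e ∈ Z₁ ∧ tgt e ∈ Z₁) ∨ (src e ∈ Z₂ ∧ tgt e ∈ Z₂)) : DecOn src tgt k Z Y := by
  obtain ⟨I₁, _, par₁, rank₁, bag₁, root₁, hr1, hY1, hk1, hu1, hc1, hs1, hv1, he1, ht1⟩ := d1
  obtain ⟨I₂, _, par₂, rank₂, bag₂, root₂, hr2, hY2, hk2, hu2, hc2, hs2, hv2, he2, ht2⟩ := d2
  have key1 : ∀ v i, v ∈ bag₁ i → v ∈ B → (∀ i', TTGlue_par par₁ par₂ (some (Sum.inl i)) = some i' →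
      v ∉ TTGlue_bag B bag₁ bag₂ i') → False := by
    intro v i hvi hvB htop
    have hroot : v ∈ bag₁ root₁ := hY1 (h1 (mem_inter.mpr ⟨hvB, hs1 i hvi⟩))
    have hi : i = root₁ := by
      refine ht1 v i root₁ hvi hroot (fun i' hi' => ?_) (fun j' hj' => ?_)
      · exact htop (some (Sum.inl i')) (by simp [TTGlue_par, hi'])
      · rw [hr1] at hj'
        exact absurd hj' (by simp)
    refine htop none ?_ hvB
    simp [TTGlue_par, hi, hr1]
  have key2 : ∀ v i, v ∈ bag₂ i → v ∈ B → (∀ i', TTGlue_par par₁ par₂ (some (Sum.inr i)) = some i' →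
      v ∉ TTGlue_bag B bag₁ bag₂ i') → False := by
    intro v i hvi hvB htop
    have hroot : v ∈ bag₂ root₂ := hY2 (h2 (mem_inter.mpr ⟨hvB, hs2 i hvi⟩))
    have hi : i = root₂ := by
      refine ht2 v i root₂ hvi hroot (fun i' hi' => ?_) (fun j' hj' => ?_)
      · exact htop (some (Sum.inr i')) (by simp [TTGlue_par, hi'])
      · rw [hr2] at hj'
        exact absurd hj' (by simp)
    refine htop none ?_ hvB
    simp [TTGlue_par, hi, hr2]
  refine ⟨Option (I₁ ⊕ I₂), inferInstance, TTGlue_par par₁ par₂, TTGlue_rank rank₁ rank₂,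
    TTGlue_bag B bag₁ bag₂, none, rfl, hYB, ?_, ?_, ?_, ?_, ?_, ?_, ?_⟩
  · intro i j hij
    rcases i with _ | i | i
    · exact absurd hij (by simp [TTGlue_par])
    · simp only [TTGlue_par, Option.some.injEq] at hij
      subst hij
      rcases hp : par₁ i with _ | j'
      · simp [TTGlue_rank]
      · have := hk1 i j' hp
        simpa [TTGlue_rank] using this
    · simp only [TTGlue_par, Option.some.injEq] at hij
      subst hij
      rcases hp : par₂ i with _ | j'
      · simp [TTGlue_rank]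
      · have := hk2 i j' hp
        simpa [TTGlue_rank] using this
  · intro i hi
    rcases i with _ | i | i
    · rfl
    · exact absurd hi (by simp [TTGlue_par])
    · exact absurd hi (by simp [TTGlue_par])
  · intro i
    rcases i with _ | i | i
    · exact hB
    · exact hc1 i
    · exact hc2 i
  · intro i
    rcases i with _ | i | i
    · exact hBZ
    · exact (hs1 i).trans hZ1
    · exact (hs2 i).trans hZ2
  · intro v hv
    rcases mem_union.mp (hZ hv) with h | h
    · obtain ⟨i, hi⟩ := hv1 v h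
      exact ⟨some (Sum.inl i), hi⟩
    · obtain ⟨i, hi⟩ := hv2 v h
      exact ⟨some (Sum.inr i), hi⟩
  · intro e hs ht
    rcases hE e hs ht with ⟨h, h'⟩ | ⟨h, h'⟩
    · obtain ⟨i, hi⟩ := he1 e h h'
      exact ⟨some (Sum.inl i), hi⟩
    · obtain ⟨i, hi⟩ := he2 e h h'
      exact ⟨some (Sum.inr i), hi⟩
  · intro v i j hi hj hti htj
    rcases i with _ | i | i
    · rcases j with _ | j | j
      · rfl
      · exact (key1 v j hj hi htj).elim
      · exact (key2 v j hj hi htj).elim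
    · rcases j with _ | j | j
      · exact (key1 v i hi hj hti).elim
      · have : i = j := by
          refine ht1 v i j hi hj (fun i' hi' => ?_) (fun j' hj' => ?_)
          · exact hti (some (Sum.inl i')) (by simp [TTGlue_par, hi'])
          · exact htj (some (Sum.inl j')) (by simp [TTGlue_par, hj'])
        rw [this]
      · exact (key1 v i hi (h12 (mem_inter.mpr ⟨hs1 i hi, hs2 j hj⟩)) hti).elim
    · rcases j with _ | j | j
      · exact (key2 v i hi hj hti).elim
      · exact (key2 v i hi (h12 (mem_inter.mpr ⟨hs1 j hj, hs2 i hi⟩)) hti).elim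
      · have : i = j := by
          refine ht2 v i j hi hj (fun i' hi' => ?_) (fun j' hj' => ?_)
          · exact hti (some (Sum.inr i')) (by simp [TTGlue_par, hi'])
          · exact htj (some (Sum.inr j')) (by simp [TTGlue_par, hj'])
        rw [this]

/-- TASK TTGlue (2). One bag.

PROOF. `I = Unit`. -/
theorem decOn_one {k : ℕ} {Z Y : Finset V} (hY : Y ⊆ Z) (hZ : Z.card ≤ k) :
    DecOn src tgt k Z Y := by
  refine ⟨Unit, inferInstance, fun _ => none, fun _ => 0, fun _ => Z, (), rfl, hY, ?_, ?_, ?_, ?_,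
    ?_, ?_, ?_⟩
  · intro i j h
    exact absurd h (by simp)
  · intro i _
    rfl
  · intro _
    exact hZ
  · intro _
    exact Finset.Subset.refl _
  · intro v hv
    exact ⟨(), hv⟩
  · intro e h h'
    exact ⟨(), h, h'⟩
  · intro v i j _ _ _ _
    rfl

end Pool.Agent.MP_9cec2c_lc.TT
end

section

/-!
A graph of maximum degree three with few vertices, as a multiflow with small congestion in every
graph with a large well linked set.
-/

set_option autoImplicit false
set_option linter.unusedSectionVars false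

namespace Pool.Agent.MP_9cec2c_lc.TT

open Finset

variable {V E : Type} [Fintype V] [Fintype E] [DecidableEq V] [DecidableEq E] {src tgt : E → V}

/-- TASK TTFlow. The small graph has the nodes `Q` and the edges `X` with end points `a i`, `b i`.

PROOF. `exists_clusters` with `Y = univ` (`connOn_univ`) and `m = card Q` (transport along
`Fintype.equivFin Q`): disjoint connected `C q`, `q : Q`, with `s ≤ (T ∩ C q).card`; in particular `C q` has a
point `φ q` (`1 ≤ s`), and `φ` is injective since the `C q` are disjoint.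
For `q ≠ q'`, `C q ⊆ U`, `Disjoint U (C q')`: `T ∩ C q ⊆ T ∩ U`, `T ∩ C q' ⊆ T \ U`, so
`s ≤ min .. .. ≤ (cut U).card` (`hT`). Let `X' = {i : X // a i ≠ b i}` and apply `exists_demands` to `X'`,
`A i = C (a i)`, `B i = C (b i)`: this gives `a' i ∈ C (a i)`, `b' i ∈ C (b i)`, `P i : E → ℤ`. By `exists_chain` there are
chains `c₁ i` inside `C (a i)` with boundary `[φ (a i)] - [a' i]` and `c₂ i` inside `C (b i)` with boundary
`[b' i] - [φ (b i)]`. Put `f i = c₁ i + P i + c₂ i` for `a i ≠ b i`, and `f i = 0` if `a i = b i`. Its boundary is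
`[φ (a i)] - [φ (b i)]`. For an edge `e`: `f i e ≠ 0` implies `P i e ≠ 0` (at most `Nat.log 2 (3 * card E)` many `i`), or
both end points of `e` lie in `C (a i)` or both lie in `C (b i)`; there is at most one `q` with `src e ∈ C q`, so
`a i = q` or `b i = q`, at most 3 many `i` (`hab`). -/
theorem exists_flow (hconn : Connected src tgt) {Δ : ℕ} (hΔ : ∀ v, (inc src tgt v).card ≤ Δ)
    (hΔ1 : 1 ≤ Δ) {T : Finset V} (hT : WellLinked src tgt T) {Q X : Type} [Fintype Q] [Fintype X]
    [DecidableEq Q] [DecidableEq X] (a b : X → Q)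
    (hab : ∀ q, (univ.filter fun i => a i = q ∨ b i = q).card ≤ 3) {s : ℕ} (hs : 1 ≤ s)
    (hX : Fintype.card X ≤ s) (hcard : Fintype.card Q * (Δ * s) ≤ T.card) :
    ∃ (φ : Q → V) (f : X → E → ℤ), Function.Injective φ ∧
      (∀ i v, bd src tgt (f i) v = (if φ (a i) = v then 1 else 0) - (if φ (b i) = v then 1 else 0)) ∧
      ∀ e, (univ.filter fun i => f i e ≠ 0).card ≤ Nat.log 2 (3 * Fintype.card E) + 3 := by
  classical
  obtain ⟨C₀, hC₀, hC₀d⟩ := exists_clusters (src := src) (tgt := tgt) (T := T) hΔ hΔ1 hs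
    (Fintype.card Q) univ (connOn_univ hconn) (by rw [inter_univ]; exact hcard)
  obtain ⟨C, hCdef⟩ : ∃ C : Q → Finset V, C = fun q => C₀ (Fintype.equivFin Q q) := ⟨_, rfl⟩
  have hCconn : ∀ q, ConnOn src tgt (C q) := fun q => by rw [hCdef]; exact (hC₀ _).2.1
  have hCs : ∀ q, s ≤ (T ∩ C q).card := fun q => by rw [hCdef]; exact (hC₀ _).2.2
  have hCd : ∀ q q', q ≠ q' → Disjoint (C q) (C q') := fun q q' h => by
    rw [hCdef]
    exact hC₀d _ _ fun h' => h ((Fintype.equivFin Q).injective h')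
  have hφ0 : ∀ q, ∃ v, v ∈ C q := fun q => by
    have h1 : 0 < (T ∩ C q).card := lt_of_lt_of_le hs (hCs q)
    obtain ⟨v, hv⟩ := card_pos.1 h1
    exact ⟨v, (mem_inter.1 hv).2⟩
  choose φ hφ using hφ0
  have hCu : ∀ q q' v, v ∈ C q → v ∈ C q' → q = q' := fun q q' v h h' => by
    by_contra hne
    exact (disjoint_left.1 (hCd q q' hne)) h h'
  have hcut : ∀ q q', q ≠ q' → ∀ U : Finset V, C q ⊆ U → Disjoint U (C q') →
      s ≤ (cut src tgt U).card := by
    intro q q' _ U h1 h2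
    refine le_trans (le_min ?_ ?_) (hT U)
    · exact (hCs q).trans (card_le_card (inter_subset_inter_left h1))
    · refine (hCs q').trans (card_le_card fun v hv => ?_)
      obtain ⟨hv1, hv2⟩ := mem_inter.1 hv
      exact mem_sdiff.2 ⟨hv1, fun hv3 => (disjoint_left.1 h2) hv3 hv2⟩
  have hX' : Fintype.card {i : X // a i ≠ b i} ≤ s :=
    (Fintype.card_subtype_le _).trans hX
  obtain ⟨a', b', P, hab', hP, hload⟩ := exists_demands (src := src) (tgt := tgt)
    (X := {i : X // a i ≠ b i}) (fun i => C (a i.1)) (fun i => C (b i.1)) hs hX'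
    (fun i U h1 h2 => hcut _ _ i.2 U h1 h2)
  have hc1 : ∀ i : {i : X // a i ≠ b i}, ∃ f : E → ℤ,
      (∀ e, f e ≠ 0 → src e ∈ C (a i.1) ∧ tgt e ∈ C (a i.1)) ∧
      ∀ z, bd src tgt f z = (if φ (a i.1) = z then 1 else 0) - (if a' i = z then 1 else 0) :=
    fun i => exists_chain (hCconn _ _ (hφ _) _ (hab' i).1)
  have hc2 : ∀ i : {i : X // a i ≠ b i}, ∃ f : E → ℤ,
      (∀ e, f e ≠ 0 → src e ∈ C (b i.1) ∧ tgt e ∈ C (b i.1)) ∧
      ∀ z, bd src tgt f z = (if b' i = z then 1 else 0) - (if φ (b i.1) = z then 1 else 0) :=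
    fun i => exists_chain (hCconn _ _ (hab' i).2 _ (hφ _))
  choose c₁ hc1s hc1b using hc1
  choose c₂ hc2s hc2b using hc2
  refine ⟨φ, fun i e => if h : a i ≠ b i then (c₁ ⟨i, h⟩ e + P ⟨i, h⟩ e) + c₂ ⟨i, h⟩ e else 0,
    ?_, ?_, ?_⟩
  · intro q q' h
    exact hCu q q' (φ q) (hφ q) (h ▸ hφ q')
  · intro i v
    by_cases h : a i ≠ b i
    · simp only [dif_pos h]
      rw [bd_add, bd_add, hc1b, hP, hc2b]
      ring
    · simp only [dif_neg h]
      rw [bd_zero, not_not.1 h, sub_self]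
  · intro e
    have hsub : (univ.filter fun i : X => (if h : a i ≠ b i then
        (c₁ ⟨i, h⟩ e + P ⟨i, h⟩ e) + c₂ ⟨i, h⟩ e else 0) ≠ 0) ⊆
        ((univ.filter fun i : {i : X // a i ≠ b i} => P i e ≠ 0).image Subtype.val) ∪
        (univ.filter fun i : X => src e ∈ C (a i) ∨ src e ∈ C (b i)) := by
      intro i hi
      rw [mem_filter] at hi
      obtain ⟨-, hi⟩ := hi
      by_cases h : a i ≠ b i
      · rw [dif_pos h] at hi
        by_cases h1 : P ⟨i, h⟩ e = 0
        · refine mem_union_right _ (mem_filter.2 ⟨mem_univ _, ?_⟩)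
          by_cases h2 : c₁ ⟨i, h⟩ e = 0
          · right
            have h3 : c₂ ⟨i, h⟩ e ≠ 0 := by
              intro h4
              apply hi
              rw [h1, h2, h4]
              rfl
            exact (hc2s _ _ h3).1
          · exact Or.inl (hc1s _ _ h2).1
        · exact mem_union_left _ (mem_image.2 ⟨⟨i, h⟩, mem_filter.2 ⟨mem_univ _, h1⟩, rfl⟩)
      · rw [dif_neg h] at hi
        exact absurd rfl hi
    have h3 : (univ.filter fun i : X => src e ∈ C (a i) ∨ src e ∈ C (b i)).card ≤ 3 := by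
      by_cases hq : ∃ q, src e ∈ C q
      · obtain ⟨q, hq⟩ := hq
        refine (card_le_card fun i hi => ?_).trans (hab q)
        rw [mem_filter] at hi ⊢
        exact ⟨mem_univ _, hi.2.imp (fun h => hCu _ _ _ h hq) (fun h => hCu _ _ _ h hq)⟩
      · rw [card_eq_zero.2]
        · norm_num
        · rw [filter_eq_empty_iff]
          intro i _ h
          rcases h with h | h
          · exact hq ⟨_, h⟩
          · exact hq ⟨_, h⟩
    calc _ ≤ _ := card_le_card hsub
      _ ≤ _ := card_union_le _ _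
      _ ≤ _ := Nat.add_le_add (card_image_le.trans (hload e)) h3

end Pool.Agent.MP_9cec2c_lc.TT
end

section

/-!
The numbers.
-/

set_option autoImplicit false

namespace Pool.Agent.MP_9cec2c_lc.TT

open Filter

/-- TASK TTNum. The parameters of the world.

PROOF. Put `t = w ^ (x/20)`, `N = ⌊w ^ (1/5)⌋₊`, `A = ⌊N ^ x⌋₊`, `k = Nat.log 2 (3 * m) + 3`. For large `w`: `N ≥ 18 Δ`, `N ^ 5 ≤ w`,
so `3 * (3 N²) * (4 Δ N²) ≤ 2 N ^ 5 ≤ 2 w`; `A ≥ (w ^ (1/5) / 2) ^ x - 1 = t ^ 4 / 2 ^ x - 1 ≥ t ^ 3`; `k ≤ 3 t`, and everything follows. -/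
theorem exists_num {x : ℝ} (hx : 0 < x) (Δ r N₁ : ℕ) (hr : 0 < r) :
    ∃ w₀ : ℕ, ∀ w : ℕ, w₀ ≤ w → ∀ m : ℕ, (3 * m : ℝ) ≤ Real.exp ((w : ℝ) ^ (x / 20)) →
      ∃ N A : ℕ, N₁ ≤ N ∧ 1 ≤ N ∧ (A : ℝ) ≤ (N : ℝ) ^ x ∧ max r 3 + 3 ≤ A ∧
        (N * N + (N + N)) * (Δ * (2 * N ^ 2 + N + 1)) ≤ 2 * w / 3 ∧
        (w : ℝ) ^ (x / 20) - 1 ≤ ((A / ((Nat.log 2 (3 * m) + 3) * r) : ℕ) : ℝ) ∧
        2 * ((Δ * (Nat.log 2 (3 * m) + 3) + 3) * r) ≤ A := by
  have hc : Tendsto (fun n : ℕ => (n : ℝ)) atTop atTop := tendsto_natCast_atTop_atTop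
  have e1 : ∀ᶠ w : ℕ in atTop, 2 * (2 : ℝ) ^ x + 6 * (Δ + 1) * r + (r + 3 + 3) ≤ (w : ℝ) ^ (x / 20) :=
    ((tendsto_rpow_atTop (by positivity : 0 < x / 20)).comp hc).eventually_ge_atTop _
  have e2 : ∀ᶠ w : ℕ in atTop, (N₁ : ℝ) + 18 * Δ + 2 ≤ (w : ℝ) ^ (1 / 5 : ℝ) :=
    ((tendsto_rpow_atTop (by norm_num : (0 : ℝ) < 1 / 5)).comp hc).eventually_ge_atTop _
  obtain ⟨w₀, hw₀⟩ := eventually_atTop.mp (e1.and e2)
  refine ⟨w₀, fun w hw m hm => ?_⟩
  obtain ⟨h1, h2⟩ := hw₀ w hw
  set t : ℝ := (w : ℝ) ^ (x / 20) with ht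
  set u : ℝ := (w : ℝ) ^ (1 / 5 : ℝ) with hu
  have hw0 : (0 : ℝ) ≤ w := Nat.cast_nonneg w
  have hr1 : (1 : ℝ) ≤ r := by exact_mod_cast hr
  have hΔ0 : (0 : ℝ) ≤ Δ := Nat.cast_nonneg Δ
  have hN0 : (0 : ℝ) ≤ N₁ := Nat.cast_nonneg N₁
  have hu2 : 2 ≤ u := by linarith
  have h2x : (1 : ℝ) ≤ (2 : ℝ) ^ x := Real.one_le_rpow (by norm_num) hx.le
  have hΔr : (0 : ℝ) ≤ Δ * r := by positivity
  have ht7 : 7 ≤ t := by nlinarith
  have htr : 6 * (Δ + 1) * r ≤ t := by nlinarith
  have htx : 2 * (2 : ℝ) ^ x ≤ t := by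
    have : 0 ≤ 6 * ((Δ : ℝ) + 1) * r := by positivity
    linarith
  have ht0 : (r : ℝ) + 6 ≤ t := by
    have : 0 ≤ 6 * ((Δ : ℝ) + 1) * r := by positivity
    linarith
  -- the number N
  set N : ℕ := ⌊u⌋₊ with hN
  have hu0 : 0 ≤ u := by linarith
  have hNu : (N : ℝ) ≤ u := Nat.floor_le hu0
  have hNu' : u < N + 1 := Nat.lt_floor_add_one u
  have hN2 : (N₁ : ℝ) + 18 * Δ + 1 ≤ N := by linarith
  have hN3 : N₁ + 18 * Δ + 1 ≤ N := by exact_mod_cast hN2
  have hNhalf : u / 2 ≤ N := by linarith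
  have hu5 : u ^ 5 = w := by
    rw [hu, ← Real.rpow_natCast, ← Real.rpow_mul hw0]
    norm_num
  have hN5 : N ^ 5 ≤ w := by
    have : (N : ℝ) ^ 5 ≤ w := by
      rw [← hu5]
      exact pow_le_pow_left₀ (Nat.cast_nonneg N) hNu 5
    exact_mod_cast this
  -- the number A
  set A : ℕ := ⌊(N : ℝ) ^ x⌋₊ with hA
  have hAx : (A : ℝ) ≤ (N : ℝ) ^ x := Nat.floor_le (by positivity)
  have hux : u ^ x = t ^ 4 := by
    rw [hu, ht, ← Real.rpow_natCast, ← Real.rpow_mul hw0, ← Real.rpow_mul hw0]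
    congr 1
    push_cast
    ring
  have hAlow : t ^ 3 ≤ A := by
    have a1 : (N : ℝ) ^ x < A + 1 := Nat.lt_floor_add_one _
    have a2 : (u / 2) ^ x ≤ (N : ℝ) ^ x :=
      Real.rpow_le_rpow (by positivity) hNhalf hx.le
    rw [Real.div_rpow hu0 (by norm_num), hux] at a2
    have a3 : 2 * t ^ 3 ≤ t ^ 4 / (2 : ℝ) ^ x := by
      rw [le_div_iff₀ (by positivity)]
      have : 0 ≤ t ^ 3 := by positivity
      calc 2 * t ^ 3 * (2 : ℝ) ^ x = t ^ 3 * (2 * (2 : ℝ) ^ x) := by ring
        _ ≤ t ^ 3 * t := mul_le_mul_of_nonneg_left htx this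
        _ = t ^ 4 := by ring
    have a4 : 1 ≤ t ^ 3 := one_le_pow₀ (by linarith)
    linarith
  -- the number k
  set k : ℕ := Nat.log 2 (3 * m) + 3 with hk
  have hk3 : (k : ℝ) ≤ 3 * t := by
    have b1 : ((Nat.log 2 (3 * m) : ℕ) : ℝ) ≤ 2 * t := by
      rcases Nat.eq_zero_or_pos m with rfl | hm0
      · simp; linarith
      · have b2 : 2 ^ Nat.log 2 (3 * m) ≤ 3 * m := Nat.pow_log_le_self 2 (by omega)
        have b3 : ((2 : ℝ)) ^ Nat.log 2 (3 * m) ≤ Real.exp t := by
          refine le_trans ?_ hm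
          exact_mod_cast b2
        have b4 := Real.log_le_log (by positivity) b3
        rw [Real.log_exp, Real.log_pow] at b4
        have b5 : (1 / 2 : ℝ) ≤ Real.log 2 := by
          have := Real.log_two_gt_d9; linarith
        have b6 : ((Nat.log 2 (3 * m) : ℕ) : ℝ) * (1 / 2) ≤
            ((Nat.log 2 (3 * m) : ℕ) : ℝ) * Real.log 2 :=
          mul_le_mul_of_nonneg_left b5 (Nat.cast_nonneg _)
        linarith
    rw [hk]
    push_cast
    linarith
  have hk0 : 0 < k := by omega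
  have hk0' : (0 : ℝ) < k := by exact_mod_cast hk0
  have hAk : t * (k * r) ≤ A := by
    refine le_trans ?_ hAlow
    calc t * (k * r) ≤ t * (3 * t * r) := by
          apply mul_le_mul_of_nonneg_left _ (by linarith)
          exact mul_le_mul_of_nonneg_right hk3 (by linarith)
      _ = t ^ 2 * (3 * r) := by ring
      _ ≤ t ^ 2 * t := by
          apply mul_le_mul_of_nonneg_left _ (by positivity)
          nlinarith
      _ = t ^ 3 := by ring
  refine ⟨N, A, by omega, by omega, hAx, ?_, ?_, ?_, ?_⟩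
  · have c1 : (r : ℝ) + 6 ≤ A := by
      have : t ≤ t ^ 3 := by
        calc t = t ^ 1 := (pow_one t).symm
          _ ≤ t ^ 3 := pow_le_pow_right₀ (by linarith) (by norm_num)
      linarith
    have c2 : r + 6 ≤ A := by exact_mod_cast c1
    have c3 : max r 3 ≤ r + 3 := by omega
    omega
  · rw [Nat.le_div_iff_mul_le (by norm_num)]
    have d1 : N * N + (N + N) ≤ 3 * N ^ 2 := by nlinarith
    have d2 : 2 * N ^ 2 + N + 1 ≤ 4 * N ^ 2 := by nlinarith
    have d3 : 18 * Δ ≤ N := by omega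
    calc (N * N + (N + N)) * (Δ * (2 * N ^ 2 + N + 1)) * 3
        ≤ (3 * N ^ 2) * (Δ * (4 * N ^ 2)) * 3 := by gcongr
      _ = 2 * ((18 * Δ) * N ^ 4) := by ring
      _ ≤ 2 * (N * N ^ 4) := by gcongr
      _ = 2 * N ^ 5 := by ring
      _ ≤ 2 * w := by omega
  · have hkr : 0 < k * r := Nat.mul_pos hk0 hr
    have f1 : A < (A / (k * r) + 1) * (k * r) := by
      rw [add_mul, one_mul]
      exact Nat.lt_div_mul_add hkr
    have f2 : (A : ℝ) < ((A / (k * r) : ℕ) + 1) * (k * r) := by exact_mod_cast f1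
    have f3 : t * (k * r) < (((A / (k * r) : ℕ) : ℝ) + 1) * (k * r) := lt_of_le_of_lt hAk f2
    have f4 : t < ((A / (k * r) : ℕ) : ℝ) + 1 :=
      lt_of_mul_lt_mul_right f3 (by positivity)
    linarith
  · have g1 : (2 * ((Δ * k + 3) * r) : ℝ) ≤ A := by
      refine le_trans ?_ hAlow
      calc (2 * ((Δ * k + 3) * r) : ℝ) ≤ 2 * ((Δ * (3 * t) + 3 * t) * r) := by
            gcongr
            linarith
        _ = t * (6 * (Δ + 1) * r) := by ring
        _ ≤ t * t := mul_le_mul_of_nonneg_left htr (by linarith)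
        _ = t ^ 2 := by ring
        _ ≤ t ^ 3 := pow_le_pow_right₀ (by linarith) (by norm_num)
    exact_mod_cast g1

end Pool.Agent.MP_9cec2c_lc.TT
end

section

/-!
A graph without a tree decomposition with small bags has a well linked set.
-/

set_option autoImplicit false
set_option linter.unusedSectionVars false

namespace Pool.Agent.MP_9cec2c_lc.TT

open Finset

variable {V E : Type} [Fintype V] [Fintype E] [DecidableEq V] [DecidableEq E] {src tgt : E → V}

/-- TASK TTTree (1). The recursion.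

PROOF. Induction on `Z.card` (strong, for all `Y`), and for fixed `Z` on `(Z \ Y).card`. If `Y = Z`:
`decOn_one` (`Z.card = Y.card ≤ t ≤ k`). If `Y ≠ Z` and `Y.card < t`: take `v ∈ Z \ Y`; a decomposition for
`(Z, insert v Y)` is one for `(Z, Y)` (`Y ⊆ insert v Y ⊆ bag root`). If `Y ≠ Z`, `Y.card = t`: by `h` there is `U` with
`(cut U).card < min (Y ∩ U).card (Y \ U).card`. Let `S = {u ∈ Z ∩ U | some edge joins u to a vertex of Z \ U}`.
`S.card ≤ (cut U).card` (map an edge of the cut to its end point in `U`; the image contains `S`). Put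
`Z₁ = Z ∩ U`, `Y₁ = (Y ∩ U) ∪ S`, `Z₂ = (Z \ U) ∪ S`, `Y₂ = (Y \ U) ∪ S`, `B = Y ∪ S`. Then
`Y₁.card ≤ (Y ∩ U).card + S.card < (Y ∩ U).card + (Y \ U).card = t` and the same for `Y₂`; `B.card ≤ t + t / 2` since
`S.card < min ≤ t / 2`; `Z₁.card < Z.card` since `Y \ U` is a nonempty part of `Z \ Z₁`; `Z₂.card < Z.card` since
`(Y ∩ U) \ S` is nonempty (`S.card < (Y ∩ U).card`) and outside `Z₂`. Now `decOn_glue`. -/
theorem decOn_all {t k : ℕ} (htk : t + t / 2 ≤ k)
    (h : ∀ T : Finset V, T.card = t → ¬ WellLinked src tgt T) (Z Y : Finset V) (hYZ : Y ⊆ Z)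
    (hY : Y.card ≤ t) : DecOn src tgt k Z Y := by
  classical
  obtain ⟨n, hn⟩ : ∃ n, n = Z.card * (t + 1) + (t - Y.card) := ⟨_, rfl⟩
  induction n using Nat.strong_induction_on generalizing Z Y with
  | _ n ih =>
  by_cases hZt : Z.card ≤ t
  · exact decOn_one hYZ (hZt.trans ((Nat.le_add_right _ _).trans htk))
  have hZt' : t < Z.card := not_le.1 hZt
  by_cases hYt : Y.card < t
  · -- add a vertex to `Y`
    obtain ⟨v, hvZ, hvY⟩ : ∃ v ∈ Z, v ∉ Y := by
      by_contra hcon
      push Not at hcon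
      have := card_le_card (show Z ⊆ Y from fun v hv => hcon v hv)
      omega
    have hc : (insert v Y).card = Y.card + 1 := card_insert_of_notMem hvY
    have h1 : DecOn src tgt k Z (insert v Y) := by
      refine ih (Z.card * (t + 1) + (t - (insert v Y).card)) ?_ Z (insert v Y) ?_ ?_ rfl
      · rw [hn, hc]
        omega
      · exact insert_subset hvZ hYZ
      · rw [hc]; omega
    obtain ⟨I, inst, par, rank, bag, root, h2, h3, h4⟩ := h1
    exact ⟨I, inst, par, rank, bag, root, h2, (subset_insert v Y).trans h3, h4⟩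
  -- `Y` has exactly `t` vertices
  have hYt' : Y.card = t := le_antisymm hY (not_lt.1 hYt)
  have hnot := h Y hYt'
  unfold WellLinked at hnot
  push Not at hnot
  obtain ⟨U, hU⟩ := hnot
  obtain ⟨S, hS⟩ : ∃ S : Finset V, S = (Z ∩ U).filter fun u =>
      ∃ e, (src e = u ∧ tgt e ∈ Z \ U) ∨ (tgt e = u ∧ src e ∈ Z \ U) := ⟨_, rfl⟩
  have hSmem : ∀ u, u ∈ S ↔ (u ∈ Z ∧ u ∈ U) ∧
      ∃ e, (src e = u ∧ tgt e ∈ Z \ U) ∨ (tgt e = u ∧ src e ∈ Z \ U) := by
    intro u
    rw [hS, mem_filter, mem_inter]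
  have hScard : S.card ≤ (cut src tgt U).card := by
    have hsub : S ⊆ (cut src tgt U).image fun e => if src e ∈ U then src e else tgt e := by
      intro u hu
      obtain ⟨⟨_, huU⟩, e, he⟩ := (hSmem u).1 hu
      rw [mem_image]
      rcases he with ⟨h1, h2⟩ | ⟨h1, h2⟩
      · refine ⟨e, ?_, ?_⟩
        · unfold cut
          rw [mem_filter]
          refine ⟨mem_univ _, fun h3 => (mem_sdiff.1 h2).2 (h3.1 (h1 ▸ huU))⟩
        · rw [if_pos (h1 ▸ huU), h1]
      · refine ⟨e, ?_, ?_⟩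
        · unfold cut
          rw [mem_filter]
          refine ⟨mem_univ _, fun h3 => (mem_sdiff.1 h2).2 (h3.2 (h1 ▸ huU))⟩
        · rw [if_neg (mem_sdiff.1 h2).2, h1]
    exact (card_le_card hsub).trans card_image_le
  have hsplit : (Y ∩ U).card + (Y \ U).card = t := by
    rw [← hYt']
    have := card_sdiff_add_card_inter Y U
    omega
  have hS1 : S.card < (Y ∩ U).card := lt_of_le_of_lt hScard (lt_of_lt_of_le hU (min_le_left _ _))
  have hS2 : S.card < (Y \ U).card := lt_of_le_of_lt hScard (lt_of_lt_of_le hU (min_le_right _ _))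
  have hSZ : S ⊆ Z := fun u hu => ((hSmem u).1 hu).1.1
  have hSU : S ⊆ U := fun u hu => ((hSmem u).1 hu).1.2
  -- the two parts
  have c1 : ((Y ∩ U) ∪ S).card ≤ t := by
    have := card_union_le (Y ∩ U) S
    omega
  have c2 : ((Y \ U) ∪ S).card ≤ t := by
    have := card_union_le (Y \ U) S
    omega
  have cB : (Y ∪ S).card ≤ k := by
    have := card_union_le Y S
    omega
  have z1 : (Z ∩ U).card < Z.card := by
    apply card_lt_card
    rw [ssubset_iff_of_subset inter_subset_left]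
    obtain ⟨v, hv⟩ := card_pos.1 (lt_of_le_of_lt (Nat.zero_le _) hS2)
    obtain ⟨hv1, hv2⟩ := mem_sdiff.1 hv
    exact ⟨v, hYZ hv1, fun h1 => hv2 (mem_inter.1 h1).2⟩
  have z2 : ((Z \ U) ∪ S).card < Z.card := by
    apply card_lt_card
    have hsub : (Z \ U) ∪ S ⊆ Z := union_subset sdiff_subset hSZ
    rw [ssubset_iff_of_subset hsub]
    obtain ⟨v, hv, hvS⟩ : ∃ v ∈ Y ∩ U, v ∉ S := by
      by_contra hcon
      push Not at hcon
      have := card_le_card (show Y ∩ U ⊆ S from fun v hv => hcon v hv)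
      omega
    obtain ⟨hv1, hv2⟩ := mem_inter.1 hv
    refine ⟨v, hYZ hv1, fun h1 => ?_⟩
    rcases mem_union.1 h1 with h2 | h2
    · exact (mem_sdiff.1 h2).2 hv2
    · exact hvS h2
  have key : ∀ (a b c d : ℕ), a < b → a * (t + 1) + (t - c) < b * (t + 1) + d := by
    intro a b c d hab
    have h1 : (a + 1) * (t + 1) ≤ b * (t + 1) := Nat.mul_le_mul_right _ hab
    have h2 : (a + 1) * (t + 1) = a * (t + 1) + (t + 1) := by ring
    omega
  have d1 : DecOn src tgt k (Z ∩ U) ((Y ∩ U) ∪ S) := by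
    refine ih _ ?_ (Z ∩ U) ((Y ∩ U) ∪ S) ?_ c1 rfl
    · rw [hn]
      exact key _ _ _ _ z1
    · exact union_subset (inter_subset_inter_right hYZ)
        (fun u hu => mem_inter.2 ⟨hSZ hu, hSU hu⟩)
  have d2 : DecOn src tgt k ((Z \ U) ∪ S) ((Y \ U) ∪ S) := by
    refine ih _ ?_ ((Z \ U) ∪ S) ((Y \ U) ∪ S) ?_ c2 rfl
    · rw [hn]
      exact key _ _ _ _ z2
    · exact union_subset_union_left (sdiff_subset_sdiff hYZ subset_rfl)
  refine decOn_glue d1 d2 cB subset_union_left (union_subset hYZ hSZ) inter_subset_left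
    (union_subset sdiff_subset hSZ) ?_ ?_ ?_ ?_ ?_
  · intro v hv
    by_cases hvU : v ∈ U
    · exact mem_union_left _ (mem_inter.2 ⟨hv, hvU⟩)
    · exact mem_union_right _ (mem_union_left _ (mem_sdiff.2 ⟨hv, hvU⟩))
  · intro v hv
    obtain ⟨hv1, hv2⟩ := mem_inter.1 hv
    rcases mem_union.1 hv2 with h1 | h1
    · exact absurd (mem_inter.1 hv1).2 (mem_sdiff.1 h1).2
    · exact mem_union_right _ h1
  · intro v hv
    obtain ⟨hv1, hv2⟩ := mem_inter.1 hv
    rcases mem_union.1 hv1 with h1 | h1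
    · exact mem_union_left _ (mem_inter.2 ⟨h1, (mem_inter.1 hv2).2⟩)
    · exact mem_union_right _ h1
  · intro v hv
    obtain ⟨hv1, hv2⟩ := mem_inter.1 hv
    rcases mem_union.1 hv1 with h1 | h1
    · rcases mem_union.1 hv2 with h2 | h2
      · exact mem_union_left _ (mem_sdiff.2 ⟨h1, (mem_sdiff.1 h2).2⟩)
      · exact mem_union_right _ h2
    · exact mem_union_right _ h1
  · intro e he1 he2
    by_cases hu1 : src e ∈ U
    · by_cases hu2 : tgt e ∈ U
      · exact Or.inl ⟨mem_inter.2 ⟨he1, hu1⟩, mem_inter.2 ⟨he2, hu2⟩⟩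
      · refine Or.inr ⟨mem_union_right _ ((hSmem _).2 ⟨⟨he1, hu1⟩, e, Or.inl ⟨rfl, ?_⟩⟩),
          mem_union_left _ (mem_sdiff.2 ⟨he2, hu2⟩)⟩
        exact mem_sdiff.2 ⟨he2, hu2⟩
    · by_cases hu2 : tgt e ∈ U
      · refine Or.inr ⟨mem_union_left _ (mem_sdiff.2 ⟨he1, hu1⟩),
          mem_union_right _ ((hSmem _).2 ⟨⟨he2, hu2⟩, e, Or.inr ⟨rfl, ?_⟩⟩)⟩
        exact mem_sdiff.2 ⟨he1, hu1⟩
      · exact Or.inr ⟨mem_union_left _ (mem_sdiff.2 ⟨he1, hu1⟩),
          mem_union_left _ (mem_sdiff.2 ⟨he2, hu2⟩)⟩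

/-- TASK TTTree (2). Without a tree decomposition with small bags there is a large well linked
set.

PROOF. Otherwise `decOn_all` for `Z = univ`, `Y = ∅` gives a tree decomposition. -/
theorem exists_wellLinked {k t : ℕ} (htk : t + t / 2 ≤ k) (h : ¬ HasTreeDec src tgt k) :
    ∃ T : Finset V, T.card = t ∧ WellLinked src tgt T := by
  by_contra hcon
  push Not at hcon
  have h1 : DecOn src tgt k (univ : Finset V) ∅ :=
    decOn_all htk hcon univ ∅ (empty_subset _) (Nat.zero_le _)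
  obtain ⟨I, inst, par, rank, bag, root, h2, -, h3, h4, h5, -, h6, h7, h8⟩ := h1
  refine h ⟨I, inst, par, rank, bag, h3, ?_, h5, fun v => h6 v (mem_univ _),
    fun e => h7 e (mem_univ _) (mem_univ _), h8⟩
  intro i j hi hj
  rw [h4 i hi, h4 j hj]

end Pool.Agent.MP_9cec2c_lc.TT
end
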