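import Pool.Agent.Lib.MP_9cec2c_lc.MXGraph
import Pool.Agent.Lib.MP_9cec2c_lc.MXTriv
import Pool.Agent.Lib.MP_9cec2c_lc.MXTse
import Pool.Agent.Lib.MP_9cec2c_lc.TWMain
import Pool.Agent.Lib.MP_9cec2c_lc.MXAllDefs
import Pool.Agent.Lib.MP_9cec2c_lc.TWBoth

section

/-!
The lower bound for mixed derivations and all formulas whose clauses contain clauses of a Tseitin
formula.
-/

set_option autoImplicit false
set_option linter.unusedSectionVars false

namespace Pool.Agent.MP_9cec2c_lc.MX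

open Finset TT
open Flat (TVar tseitinMod RMT2 card_TVar)
open FG (Rule size Form fals)
open Frege (World Fun Pol)
open CQ (TQ tsrc ttgt tchg tinc card_tinc mem_tinc sum_tchg)

/-- The lower bound for the graphs whose total charge has order `r'`. -/
theorem mx_orderF (Q : Finset ℕ) (r r' Δ B : ℕ) [NeZero r] [NeZero r'] (hr' : 1 < r')
    (hQ : ∀ q ∈ Q, q.Prime ∧ q.Coprime r') (hR : RMT2 r') {S : ℕ → Set Rule}
    (hS : ∀ q ∈ Q, (S q).Finite) (hsound : ∀ q ∈ Q, ∀ R ∈ S q, R.Sound q) :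
    ∃ c : ℝ, 0 < c ∧ ∀ (V E : Type) [Fintype V] [Fintype E] [DecidableEq V] [DecidableEq E]
      (src tgt : E → V), Connected src tgt → (∀ v, (inc src tgt v).card ≤ Δ) →
      ∀ w : ℕ, ¬ HasTreeDec src tgt w → ∀ s : V → ZMod r, addOrderOf (∑ v, s v) = r' →
      ∀ (X : Type) (i : E × ZMod r → X), Function.Injective i → ∀ F : List (List (X × Bool)),
      Above i (tseitin src tgt r s) B F →
      ∀ (d l : ℕ) (τ : Fin l → ℕ) (L : Fin l → Form X), MixedRefutes Q S d F τ L →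
        Real.exp (c * (w : ℝ) ^ (c / (d + 1))) ≤ size L := by
  classical
  obtain ⟨Δ', hΔ'⟩ : ∃ Δ' : ℕ, Δ' = max (max Δ 1) B := ⟨_, rfl⟩
  have hΔ'1 : 1 ≤ Δ' := by
    rw [hΔ']
    exact (le_max_right _ _).trans (le_max_left _ _)
  have hΔB : B ≤ Δ' := by
    rw [hΔ']
    exact le_max_right _ _
  obtain ⟨ι₀, hι₀, K, hK, o, iq, hKQ, x, hx, N₁, hN₁⟩ := fam_KN r' hr' hR Q hQ
  have hx20 : (0 : ℝ) < x / 20 := by positivity
  obtain ⟨c₁, hc₁, M₂, hM₂⟩ := mixed_num (K := K) o iq hKQ hx20 B 256 hS hsound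
  obtain ⟨w₁, hw₁⟩ := exists_num hx (2 * Δ' + 3) r' N₁ (by omega)
  obtain ⟨w₂, hw₂⟩ := exists_num_triv hx (Δ' * (B + 1))
  obtain ⟨w₀, hw₀⟩ : ∃ w₀ : ℕ, w₀ = max (max w₁ w₂) M₂ := ⟨_, rfl⟩
  obtain ⟨c, hc⟩ : ∃ c : ℝ, c = min (min c₁ (x / 40)) (min 1 (Real.log 2 / (w₀ + 1))) := ⟨_, rfl⟩
  have hlog : 0 < Real.log 2 := Real.log_pos (by norm_num)
  have hw01 : (0 : ℝ) < (w₀ : ℝ) + 1 := by positivity
  have hcpos : 0 < c := by
    rw [hc]
    refine lt_min (lt_min hc₁ (by positivity)) (lt_min one_pos (div_pos hlog hw01))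
  have hcc1 : c ≤ c₁ := by
    rw [hc]
    exact (min_le_left _ _).trans (min_le_left _ _)
  have hcx : c ≤ x / 40 := by
    rw [hc]
    exact (min_le_left _ _).trans (min_le_right _ _)
  have hc1 : c ≤ 1 := by
    rw [hc]
    exact (min_le_right _ _).trans (min_le_left _ _)
  have hcw : c * ((w₀ : ℝ) + 1) ≤ Real.log 2 := by
    have h1 : c ≤ Real.log 2 / (w₀ + 1) := by
      rw [hc]
      exact (min_le_right _ _).trans (min_le_right _ _)
    rwa [le_div_iff₀ hw01] at h1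
  refine ⟨c, hcpos, ?_⟩
  intro V E _ _ _ _ src tgt hconn hΔ w hw s hord X i₀ hi₀ F hF d l τ L hL
  have hΔ1 : ∀ v, (inc src tgt v).card ≤ Δ' := fun v => (hΔ v).trans (by
    rw [hΔ']
    exact (le_max_left _ _).trans (le_max_left _ _))
  have hi : ∃ i : Fin l, True := by
    rcases hL with ⟨-, i, -⟩ | ⟨-, i, -⟩ <;> exact ⟨i, trivial⟩
  obtain ⟨i, -⟩ := hi
  have hsize2 : 2 ≤ size L := FG.two_le_size i
  rcases le_total w w₀ with hww | hww
  · exact exists_num_small w₀ hcpos hc1 hcw hww d hsize2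
  have hww1 : w₁ ≤ w := ((le_max_left _ _).trans (le_max_left _ _)).trans (hw₀ ▸ hww)
  have hww2 : w₂ ≤ w := ((le_max_right _ _).trans (le_max_left _ _)).trans (hw₀ ▸ hww)
  have hwwM : M₂ ≤ w := (le_max_right _ _).trans (hw₀ ▸ hww)
  by_cases hm : (3 * (Fintype.card E : ℕ) : ℝ) ≤ Real.exp ((w : ℝ) ^ (x / 20))
  swap
  · have h1 := card_vertices_leM hconn hsound hi₀ hF hL
    have h2 : Fintype.card E ≤ Δ' * (B + 1) * (2 * size L) := by
      refine (card_edges_le hΔ1).trans ?_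
      have h3 : (2 * B + 1) * size L ≤ (B + 1) * (2 * size L) := by
        have : (B + 1) * (2 * size L) = (2 * B + 1) * size L + size L := by ring
        omega
      calc Δ' * Fintype.card V ≤ Δ' * ((B + 1) * (2 * size L)) :=
            Nat.mul_le_mul_left _ (h1.trans h3)
        _ = Δ' * (B + 1) * (2 * size L) := by ring
    exact hw₂ w hww2 _ _ _ (not_le.1 hm) h2 le_rfl c hcpos hc1 hcx d
  obtain ⟨N, A, hNN, hN1, hA1, hA3, hcardT, hA2, hA4⟩ := hw₁ w hww1 _ hm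
  obtain ⟨k, hk⟩ : ∃ k, k = Nat.log 2 (3 * Fintype.card E) + 3 := ⟨_, rfl⟩
  rw [← hk] at hA2 hA4
  have hk1 : 1 ≤ k := by omega
  have hr1 : 1 ≤ r' := by omega
  have hkr : 1 ≤ k * r' := Nat.mul_pos (by omega) (by omega)
  have hA5 : 4 * ((Δ' * k + 3) * r') ≤ A := by
    refine le_trans ?_ hA4
    have h1 : 2 * (Δ' * k + 3) ≤ (2 * Δ' + 3) * k + 3 := by nlinarith
    calc 4 * ((Δ' * k + 3) * r') = 2 * ((2 * (Δ' * k + 3)) * r') := by ring
      _ ≤ 2 * (((2 * Δ' + 3) * k + 3) * r') :=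
        Nat.mul_le_mul_left 2 (Nat.mul_le_mul_right r' h1)
  obtain ⟨T, hTcard, hT⟩ := exists_wellLinked (t := 2 * w / 3) (by omega) hw
  obtain ⟨φ, f, hφ, hf, hload⟩ := exists_flow hconn hΔ1 hΔ'1 hT (tsrc : TVar N → TQ N) ttgt
    (fun q => (card_le_card fun i hi => mem_tinc (mem_filter.1 hi).2).trans (card_tinc q))
    (s := 2 * N ^ 2 + N + 1) (by omega) ((card_TVar N).trans (by omega))
    (by
      rw [card_TQ, hTcard]
      refine le_trans ?_ hcardT
      exact Nat.mul_le_mul_left _ (Nat.mul_le_mul_right _ (by omega)))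
  rw [← hk] at hload
  have v0 : Fin N := ⟨0, by omega⟩
  -- the homomorphism
  obtain ⟨ι, hι⟩ : ∃ ι : ZMod r' →+ ZMod r, ι 1 = ∑ v, s v := by
    refine ⟨ZMod.lift r' ⟨zmultiplesHom (ZMod r) (∑ v, s v), ?_⟩, ?_⟩
    · rw [zmultiplesHom_apply, natCast_zsmul, ← hord]
      exact addOrderOf_nsmul_eq_zero _
    · have h1 := ZMod.lift_coe r' (⟨zmultiplesHom (ZMod r) (∑ v, s v), by
        rw [zmultiplesHom_apply, natCast_zsmul, ← hord]
        exact addOrderOf_nsmul_eq_zero _⟩ : {f : ℤ →+ ZMod r // f r' = 0}) 1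
      rw [Int.cast_one] at h1
      rw [h1]
      show (zmultiplesHom (ZMod r) (∑ v, s v)) 1 = _
      rw [zmultiplesHom_apply, one_zsmul]
  -- the charges
  obtain ⟨b, hb⟩ : ∃ b : Fin N → ZMod r', b = Pi.single v0 (-1) := ⟨_, rfl⟩
  have hsum : ∑ q, tchg b q = 1 := by
    rw [sum_tchg, hb, sum_pi_single' v0, if_pos (mem_univ _), neg_neg]
  obtain ⟨g, hg⟩ := exists_pot hconn
    (fun v => s v - ∑ q, (if φ q = v then ι (tchg b q) else 0)) (by
      rw [sum_sub_distrib, sum_comm]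
      have h1 : ∀ q : TQ N, ∑ v, (if φ q = v then ι (tchg b q) else 0) = ι (tchg b q) := by
        intro q
        rw [sum_ite_eq, if_pos (mem_univ _)]
      rw [sum_congr rfl fun q _ => h1 q, ← map_sum, hsum, hι, sub_self])
  -- the substitutions
  obtain ⟨ρ, hρn, hρ⟩ := graph_rho (b := b) ι hφ hf hload g
    (s := s) (fun v => by rw [hg v]; ring) hΔ1
  obtain ⟨ρ', hρn', hρ'⟩ := above_rho hρn hi₀ hF
  -- the family
  obtain ⟨W, _, _, _, M, act, hfam, hpos, hgrow, hkills⟩ := hN₁ N hNN A hA1 hN1 hA3 b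
  have hfam' := hfam.pull (Nat.lt_of_lt_of_le one_pos hkr) hρn'
  have hfin := hM₂ w hwwM X W _ _ (A / (k * r')) hfam' hA2
    (by
      show 0 < Module.finrank (K o) (M o (_ * 0))
      rw [mul_zero]
      exact hpos)
    (by
      show Module.finrank (K o) (M o (_ * _)) ≤ 256 * Module.finrank (K o) (M o (_ * 0))
      rw [mul_zero]
      refine le_trans ?_ hgrow
      exact Submodule.finrank_mono ((hfam.world o).mono (Nat.mul_div_le A _) le_rfl))
    F (fun D hD => ⟨(hF D hD).1, fun j a ha u hu => ?_⟩) d l τ L hL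
  · exact (bound_mono hcpos hcc1 w d).trans hfin
  · have h1 : 2 * (k * r' * a) ≤ A := by
      have h2 : k * r' * (2 * a) ≤ k * r' * (A / (k * r')) := Nat.mul_le_mul_left _ ha
      have h3 : k * r' * (2 * a) = 2 * (k * r' * a) := by ring
      rw [h3] at h2
      exact h2.trans (Nat.mul_div_le A _)
    have h3 : 3 ≤ k * Δ' * r' + 3 * r' := by nlinarith
    have e1 : (Δ' * k + 3) * r' = k * Δ' * r' + 3 * r' := by ring
    have h4 : k * r' * B ≤ k * Δ' * r' := by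
      calc k * r' * B ≤ k * r' * Δ' := Nat.mul_le_mul_left _ hΔB
        _ = k * Δ' * r' := by ring
    rw [e1] at hA5
    have hmax : max r' 3 ≤ 3 * r' := max_le (by omega) (by omega)
    refine hρ' (K j) (W j) (fun j' => M j (k * r' * a + j')) (act j) (A - k * r' * a)
      (world_shift (hfam.world j) (by omega)) ?_ (by omega) D hD u hu
    intro C hC u hu
    refine hρ (K j) (W j) (fun j' => M j (k * r' * a + j')) (act j) (A - k * r' * a)
      (world_shift (hfam.world j) (by omega)) (hkills j (k * r' * a) (by omega)) (by omega)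
      C.toList (FG.mem_listCNF.2 ⟨C, hC, rfl⟩) u hu

/-- **The lower bound for mixed derivations** and all formulas whose clauses contain clauses of a
Tseitin formula. -/
theorem mx_allF (Q : Finset ℕ) (hQ : ∀ q ∈ Q, q.Prime) (r Δ B : ℕ) [NeZero r]
    (hR : ∀ r', 2 ≤ r' → RMT2 r') {S : ℕ → Set Rule}
    (hS : ∀ q ∈ Q, (S q).Finite) (hsound : ∀ q ∈ Q, ∀ R ∈ S q, R.Sound q) :
    ∃ c : ℝ, 0 < c ∧ ∀ (V E : Type) [Fintype V] [Fintype E] [DecidableEq V] [DecidableEq E]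
      (src tgt : E → V), Connected src tgt → (∀ v, (inc src tgt v).card ≤ Δ) →
      ∀ w : ℕ, ¬ HasTreeDec src tgt w → ∀ s : V → ZMod r, ∑ v, s v ≠ 0 →
      (∀ q ∈ Q, Nat.Coprime q (addOrderOf (∑ v, s v))) →
      ∀ (X : Type) (i : E × ZMod r → X), Function.Injective i → ∀ F : List (List (X × Bool)),
      Above i (tseitin src tgt r s) B F →
      ∀ (d l : ℕ) (τ : Fin l → ℕ) (L : Fin l → Form X), MixedRefutes Q S d F τ L →
        Real.exp (c * (w : ℝ) ^ (c / (d + 1))) ≤ size L := by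
  obtain ⟨c, hc, h⟩ := unif_c (fun n c => 2 ≤ n → (∀ q ∈ Q, Nat.Coprime q n) →
      ∀ (V E : Type) [Fintype V] [Fintype E] [DecidableEq V] [DecidableEq E]
      (src tgt : E → V), Connected src tgt → (∀ v, (inc src tgt v).card ≤ Δ) →
      ∀ w : ℕ, ¬ HasTreeDec src tgt w → ∀ s : V → ZMod r, addOrderOf (∑ v, s v) = n →
      ∀ (X : Type) (i : E × ZMod r → X), Function.Injective i → ∀ F : List (List (X × Bool)),
      Above i (tseitin src tgt r s) B F →
      ∀ (d l : ℕ) (τ : Fin l → ℕ) (L : Fin l → Form X), MixedRefutes Q S d F τ L →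
        Real.exp (c * (w : ℝ) ^ (c / (d + 1))) ≤ size L)
    (by
      intro n c c' hc hcc h h2 hcop V E _ _ _ _ src tgt hconn hΔ w hw s hs X i hi F hF d l τ L hL
      exact (bound_mono hc hcc w d).trans (h h2 hcop V E src tgt hconn hΔ w hw s hs X i hi F
        hF d l τ L hL)) r
    (by
      intro n _
      by_cases hn : 2 ≤ n ∧ ∀ q ∈ Q, Nat.Coprime q n
      · have : NeZero n := ⟨by omega⟩
        obtain ⟨c, hc, h⟩ := mx_orderF Q r n Δ B (by omega)
          (fun q hq => ⟨hQ q hq, hn.2 q hq⟩) (hR n hn.1) hS hsound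
        exact ⟨c, hc, fun _ _ => h⟩
      · exact ⟨1, one_pos, fun h1 h2 => absurd ⟨h1, h2⟩ hn⟩)
  refine ⟨c, hc, ?_⟩
  intro V E _ _ _ _ src tgt hconn hΔ w hw s hs hcop X i hi F hF d l τ L hL
  have h1 : addOrderOf (∑ v, s v) ≤ r := by
    have := addOrderOf_le_card_univ (x := ∑ v, s v)
    rwa [ZMod.card] at this
  have h2 : 2 ≤ addOrderOf (∑ v, s v) := by
    have h3 : addOrderOf (∑ v, s v) ≠ 1 := by
      intro h4
      exact hs (AddMonoid.addOrderOf_eq_one_iff.1 h4)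
    have h5 : 0 < addOrderOf (∑ v, s v) := addOrderOf_pos _
    omega
  exact h _ h1 h2 hcop V E src tgt hconn hΔ w hw s rfl X i hi F hF d l τ L hL

end Pool.Agent.MP_9cec2c_lc.MX
end

section

/-!
The disjunction of the Tseitin formulas modulo several numbers: width, number of clauses,
unsatisfiability, and the lower bound for mixed derivations.
-/

set_option autoImplicit false
set_option linter.unusedSectionVars false

namespace Pool.Agent.MP_9cec2c_lc.MX

open Finset TT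
open Flat (RMT2)
open FG (Rule Form listCNF mem_listCNF size)

variable {V E J : Type} [Fintype V] [Fintype E] [Fintype J] [DecidableEq V] [DecidableEq E]
  [DecidableEq J] {src tgt : E → V} {r : J → ℕ} [∀ j, NeZero (r j)] {s : ∀ j, V → ZMod (r j)}

/-- The union of one clause of every formula. -/
def unionC (C : ∀ j, Finset ((E × ZMod (r j)) × Bool)) :
    Finset ((Σ j, E × ZMod (r j)) × Bool) :=
  univ.biUnion fun j => (C j).image fun l => (⟨j, l.1⟩, l.2)

theorem mem_all {D : List ((Σ j, E × ZMod (r j)) × Bool)} :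
    D ∈ allCNF src tgt r s ↔ ∃ C : ∀ j, Finset ((E × ZMod (r j)) × Bool),
      (∀ j, C j ∈ tseitin src tgt (r j) (s j)) ∧ D = (unionC C).toList := by
  unfold allCNF
  rw [mem_listCNF]
  constructor
  · rintro ⟨κ, hκ, rfl⟩
    obtain ⟨C, hC, rfl⟩ := mem_image.1 hκ
    rw [Fintype.mem_piFinset] at hC
    exact ⟨C, hC, rfl⟩
  · rintro ⟨C, hC, rfl⟩
    exact ⟨_, mem_image.2 ⟨C, Fintype.mem_piFinset.2 hC, rfl⟩, rfl⟩

theorem mem_unionC {C : ∀ j, Finset ((E × ZMod (r j)) × Bool)}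
    {l : (Σ j, E × ZMod (r j)) × Bool} :
    l ∈ unionC C ↔ (l.1.2, l.2) ∈ C l.1.1 := by
  unfold unionC
  rw [mem_biUnion]
  constructor
  · rintro ⟨j, -, h⟩
    obtain ⟨l', hl', rfl⟩ := mem_image.1 h
    exact hl'
  · intro h
    obtain ⟨⟨j, y⟩, b⟩ := l
    exact ⟨j, mem_univ _, mem_image.2 ⟨(y, b), h, rfl⟩⟩

theorem all_width {Δ : ℕ} (hr : ∀ j, 2 ≤ r j) (hΔ : ∀ v, (inc src tgt v).card ≤ Δ) :
    ∀ D ∈ allCNF src tgt r s, D.length ≤ ∑ j, max (r j) Δ := by
  intro D hD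
  obtain ⟨C, hC, rfl⟩ := mem_all.1 hD
  rw [length_toList]
  refine card_biUnion_le.trans (sum_le_sum fun j _ => ?_)
  exact card_image_le.trans (card_clause_le (hr j) hΔ (hC j))

theorem all_above {Δ : ℕ} (hr : ∀ j, 2 ≤ r j) (hΔ : ∀ v, (inc src tgt v).card ≤ Δ) (j : J) :
    Above (fun y => (⟨j, y⟩ : Σ j, E × ZMod (r j))) (tseitin src tgt (r j) (s j))
      (∑ j, max (r j) Δ) (allCNF src tgt r s) := by
  intro D hD
  refine ⟨all_width hr hΔ D hD, ?_⟩
  obtain ⟨C, hC, rfl⟩ := mem_all.1 hD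
  exact ⟨C j, hC j, fun l hl => mem_toList.2 (mem_unionC.2 hl)⟩

theorem all_unsat (hs : ∀ j, ∑ v, s j v ≠ 0) (x : (Σ j, E × ZMod (r j)) → Bool) :
    ∃ D ∈ allCNF src tgt r s, ∀ l ∈ D, x l.1 ≠ l.2 := by
  classical
  have h1 : ∀ j, ∃ C ∈ tseitin src tgt (r j) (s j), ∀ l ∈ C, x ⟨j, l.1⟩ ≠ l.2 := by
    intro j
    obtain ⟨D, hD, hx⟩ := tseitin_unsat (src := src) (tgt := tgt) (hs j) fun y => x ⟨j, y⟩
    obtain ⟨C, hC, rfl⟩ := mem_listCNF.1 hD
    exact ⟨C, hC, fun l hl => hx l (mem_toList.2 hl)⟩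
  choose C hC hx using h1
  refine ⟨_, mem_all.2 ⟨C, hC, rfl⟩, fun l hl => ?_⟩
  rw [mem_toList, mem_unionC] at hl
  exact hx l.1.1 _ hl

theorem all_length {Δ : ℕ} (hΔ : ∀ v, (inc src tgt v).card ≤ Δ) :
    (allCNF src tgt r s).length ≤
      ∏ j, ((r j ^ 2 + 1) * Fintype.card E + r j ^ Δ * Fintype.card V) := by
  unfold allCNF listCNF
  rw [List.length_map, length_toList]
  refine card_image_le.trans ?_
  rw [Fintype.card_piFinset]
  exact prod_le_prod' fun j _ => card_tseitin hΔ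

/-- The lower bound for the disjunction of several Tseitin formulas. -/
theorem hard_all (Q : Finset ℕ) (hQ : ∀ q ∈ Q, q.Prime) (hR : ∀ r', 2 ≤ r' → RMT2 r')
    {S : ℕ → Set Rule} (hS : ∀ q ∈ Q, (S q).Finite) (hsound : ∀ q ∈ Q, ∀ R ∈ S q, R.Sound q)
    (J : Type) [Fintype J] [DecidableEq J] (r : J → ℕ) [∀ j, NeZero (r j)] (Δ : ℕ) :
    ∃ c : ℝ, 0 < c ∧ ∀ (V E : Type) [Fintype V] [Fintype E] [DecidableEq V] [DecidableEq E]
      (src tgt : E → V), Connected src tgt → (∀ v, (inc src tgt v).card ≤ Δ) →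
      ∀ w : ℕ, ¬ HasTreeDec src tgt w → ∀ s : ∀ j, V → ZMod (r j), (∀ j, ∑ v, s j v ≠ 0) →
      (∃ j, ∀ q ∈ Q, Nat.Coprime q (addOrderOf (∑ v, s j v))) →
      ∀ (d l : ℕ) (τ : Fin l → ℕ) (L : Fin l → Form (Σ j, E × ZMod (r j))),
        MixedRefutes Q S d (allCNF src tgt r s) τ L →
        Real.exp (c * (w : ℝ) ^ (c / (d + 1))) ≤ size L := by
  classical
  have h1 := fun j => mx_allF Q hQ (r j) Δ (∑ j, max (r j) Δ) hR hS hsound
  choose c hc h using h1
  obtain ⟨c₀, hc₀, hcc⟩ : ∃ c₀ : ℝ, 0 < c₀ ∧ ∀ j, c₀ ≤ c j := by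
    rcases isEmpty_or_nonempty J with hJ | hJ
    · exact ⟨1, one_pos, fun j => hJ.elim j⟩
    · obtain ⟨j, -, hj⟩ := exists_min_image univ c univ_nonempty
      exact ⟨c j, hc j, fun j' => hj j' (mem_univ j')⟩
  refine ⟨c₀, hc₀, ?_⟩
  intro V E _ _ _ _ src tgt hconn hΔ w hw s hs ⟨j, hj⟩ d l τ L hL
  have hr : ∀ j, 2 ≤ r j := by
    intro j
    by_contra hcon
    have h2 : r j = 1 := by
      have := Nat.pos_of_ne_zero (NeZero.ne (r j))
      omega
    have h3 : Subsingleton (ZMod (r j)) := by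
      rw [h2]
      infer_instance
    exact hs j (Subsingleton.elim _ _)
  exact (bound_mono hc₀ (hcc j) w d).trans (h j V E src tgt hconn hΔ w hw (s j) (hs j) hj _ _
    (fun a b hab => by
      have := Sigma.mk.inj_iff.1 hab
      exact eq_of_heq this.2) _ (all_above hr hΔ j) d l τ L hL)

end Pool.Agent.MP_9cec2c_lc.MX
end
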