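import Pool.Agent.Lib.MP_9cec2c_lc.Mg.G003

section

/-!
# FN2: self-consistency (Lemma Q), Lemma A, delocalization (Lemma C), Hermitian case
-/

set_option autoImplicit false

open Matrix Finset

namespace Pool.Agent.MP_9cec2c_lc.Flat.Herm

variable {V : Type} [Fintype V] [DecidableEq V]

/-- LEMMA Q (pure numbers). `g v` are the diagonal entries, `s` their sum.
Proof. `t := θ + ε n ≤ (2 + κ) n`; `1 / g v ≤ t - s`, so `t - s > 0`, `g v ≥ 1 / (t - s)`, `s ≥ n^2 / (t - s)`: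
`n^2 ≤ s (t - s) ≤ t^2 / 4`, so `t ≥ 2 n`, `(s - t/2)^2 ≤ t^2/4 - n^2 ≤ n^2 (κ + κ^2/4)`,
`|s - n| ≤ n (sqrt (κ + κ^2/4) + κ/2) ≤ 2 n sqrt κ ≤ n / 10`. Then `0.89 n ≤ 1 / g v ≤ 1.11 n`. -/
theorem lemQ [Nonempty V] {n : ℝ} (hn : 0 < n) (hn2 : n ^ 2 = Fintype.card V) {g : V → ℝ}
    (hg : ∀ v, 0 < g v) {θ ε κ : ℝ} (hε : 0 ≤ ε) (hεκ : ε ≤ κ) (hκ : κ ≤ 1 / 400)
    (hθ : θ ≤ (2 + κ - ε) * n) (h : ∀ v, |1 / g v - (θ - ∑ u, g u)| ≤ ε * n) :
    n ^ 2 ≤ (∑ u, g u) * (θ - (∑ u, g u) + ε * n) ∧ (2 - ε) * n ≤ θ ∧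
    |(∑ u, g u) - n| ≤ 2 * √κ * n ∧ (∑ u, g u) ≤ 11 / 10 * n ∧
    ∀ v, 4 / 5 / n ≤ g v ∧ g v ≤ 6 / 5 / n := by
  obtain ⟨s, hs⟩ : ∃ s, s = ∑ u, g u := ⟨_, rfl⟩
  simp only [← hs] at h ⊢
  obtain ⟨d, hd⟩ : ∃ d, d = θ - s + ε * n := ⟨_, rfl⟩
  rw [← hd]
  have hup : ∀ v, 1 / g v ≤ d := fun v => by
    have := (abs_le.1 (h v)).2
    linarith
  have hlo : ∀ v, d - 2 * (ε * n) ≤ 1 / g v := fun v => by
    have := (abs_le.1 (h v)).1
    linarith
  have hdpos : 0 < d := by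
    obtain ⟨v0⟩ := ‹Nonempty V›
    exact lt_of_lt_of_le (one_div_pos.2 (hg v0)) (hup v0)
  have hgl : ∀ v, 1 / d ≤ g v := fun v => by
    have h1 := hup v
    rw [div_le_iff₀ (hg v)] at h1
    rw [div_le_iff₀ hdpos]
    linarith
  have hsum : n ^ 2 ≤ s * d := by
    have h1 : ∑ v : V, (1 / d) ≤ s := by
      rw [hs]
      exact Finset.sum_le_sum fun v _ => hgl v
    rw [Finset.sum_const, Finset.card_univ, nsmul_eq_mul, ← hn2, mul_one_div,
      div_le_iff₀ hdpos] at h1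
    exact h1
  have hn2pos : 0 < n ^ 2 := by positivity
  have hspos : 0 < s := by
    by_contra hneg
    have h1 : s * d ≤ 0 := mul_nonpos_of_nonpos_of_nonneg (not_lt.1 hneg) hdpos.le
    linarith
  have hκ0 : 0 ≤ κ := hε.trans hεκ
  have ht : s + d ≤ (2 + κ) * n := by
    have e : s + d = θ + ε * n := by rw [hd]; ring
    rw [e]
    nlinarith
  -- `2 n ≤ s + d`
  have ht2 : 2 * n ≤ s + d := by
    have h1 : (2 * n) ^ 2 ≤ (s + d) ^ 2 := by nlinarith [sq_nonneg (s - d)]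
    exact le_of_sq_le_sq h1 (by linarith)
  have hsq : (s - n) ^ 2 ≤ κ * n * s := by
    have h1 : s * d ≤ s * ((2 + κ) * n - s) := mul_le_mul_of_nonneg_left (by linarith) hspos.le
    nlinarith
  have hs3 : s ≤ 4 * n := by nlinarith
  have hsq2 : (s - n) ^ 2 ≤ (2 * √κ * n) ^ 2 := by
    have e : (2 * √κ * n) ^ 2 = κ * n * (4 * n) := by
      have h1 : √κ ^ 2 = κ := Real.sq_sqrt hκ0
      calc (2 * √κ * n) ^ 2 = √κ ^ 2 * n * (4 * n) := by ring
        _ = κ * n * (4 * n) := by rw [h1]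
    rw [e]
    exact hsq.trans (mul_le_mul_of_nonneg_left hs3 (by positivity))
  have habs : |s - n| ≤ 2 * √κ * n := abs_le_of_sq_le_sq hsq2 (by positivity)
  have hsqrt : √κ ≤ 1 / 20 := by
    rw [Real.sqrt_le_left (by norm_num)]
    linarith
  have hten : 2 * √κ * n ≤ 1 / 10 * n := by nlinarith
  have habs' := abs_le.1 habs
  have hεn : ε * n ≤ 1 / 400 * n := mul_le_mul_of_nonneg_right (hεκ.trans hκ) hn.le
  have hκn : κ * n ≤ 1 / 400 * n := mul_le_mul_of_nonneg_right hκ hn.le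
  refine ⟨hsum, ?_, habs, by linarith [habs'.2], fun v => ⟨?_, ?_⟩⟩
  · have e : θ = s + d - ε * n := by rw [hd]; ring
    rw [e]
    linarith
  · refine le_trans ?_ (hgl v)
    rw [div_div, div_le_div_iff₀ (by positivity) hdpos]
    nlinarith [habs'.1]
  · have h1 := hlo v
    have h2 : 5 / 6 * n ≤ 1 / g v := by
      refine le_trans ?_ h1
      nlinarith [habs'.2]
    rw [le_div_iff₀ (hg v)] at h2
    rw [le_div_iff₀ hn]
    linarith

theorem fn2_trace_re (M : Matrix V V ℂ) : M.trace.re = ∑ v, (M v v).re := by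
  unfold Matrix.trace
  rw [Complex.re_sum]
  rfl

theorem fn2_qf_single (A : Matrix V V ℂ) (v : V) : qf A (Pi.single v 1) = (A v v).re := by
  unfold qf
  rw [Matrix.mulVec_single_one, dotProduct]
  rw [Finset.sum_eq_single v]
  · simp
  · intro w _ hw
    simp [hw]
  · intro h
    exact absurd (Finset.mem_univ v) h

theorem Par.P_ge {n K P δ : ℝ} (hp : Par V n K P δ) : 10 ^ 6 ≤ P := by
  rw [hp.P_eq]
  nlinarith [hp.K1]

theorem Par.n_ge {n K P δ : ℝ} (hp : Par V n K P δ) : 10 ^ 10 ≤ n := by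
  have h1 := hp.P_ge
  have h2 := hp.Pn
  linarith

/-- The diagonal entries of a positive resolvent are positive. -/
theorem diag_pos_of_posBy {A G : Matrix V V ℂ} (hinv : A * G = 1) {y : ℝ} (hy : 0 < y)
    (hG : PosBy y G) (v : V) : 0 < (G v v).re := by
  rcases (hG.diag_nonneg hy.le v).lt_or_eq with h | h
  · exact h
  · exfalso
    have h1 := hG.colsq_le v
    rw [← h] at h1
    have h2 : colsq G v ≤ 0 := by
      by_contra h3
      have h4 := mul_pos hy (not_le.1 h3)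
      linarith
    have h3 : ∀ i, G i v = 0 := by
      intro i
      have h4 : ‖G i v‖ ^ 2 ≤ colsq G v :=
        Finset.single_le_sum (f := fun i => ‖G i v‖ ^ 2) (fun j _ => sq_nonneg _)
          (Finset.mem_univ i)
      have h5 : ‖G i v‖ ^ 2 = 0 := le_antisymm (h4.trans h2) (sq_nonneg _)
      exact norm_eq_zero.1 (pow_eq_zero_iff (two_ne_zero) |>.1 h5)
    have h4 : (A * G) v v = 0 := by
      rw [Matrix.mul_apply]
      exact Finset.sum_eq_zero fun i _ => by rw [h3 i, mul_zero]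
    rw [hinv, Matrix.one_apply_eq] at h4
    exact one_ne_zero h4

/-- LEMMA A, at any scale `P₁ ≥ P`. `θ` in the grid with `lamMax S + P₁/n ≤ θ ≤ lamMax S + 2 P₁/n`.
Proof. `G = rsv S θ` has `y₁ G² ≤ G`, `y₁ = P₁ / n` (`rsv_posBy`), so `G_vv > 0`, `colsq G v ≤ G_vv / y₁`,
`hs2 G ≤ s / y₁`. `star`: `r := K sqrt (s n / P₁) + (K+1) n / P₁ + K / θ`, `θ ≥ y₁`. `1 / G_vv > 0` gives
`s < θ + r ≤ 2.1 n + r`, so `s ≤ 2.2 n`, and `r ≤ (2 K / sqrt P₁) n`. Then Lemma Q with `ε = 2 K / sqrt P₁`,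
`κ = δ + ε + 2 P₁ / n^2 ≤ 1/400`. -/
theorem lemA [Nonempty V] {S : Matrix V V ℂ} {n K P δ P₁ : ℝ} (hp : Par V n K P δ)
    (hO : OO S n K P δ) (hP₁ : P ≤ P₁) (hP₁n : 10 ^ 4 * P₁ ≤ n) {k : ℕ}
    (hk1 : lamMax S + P₁ / n ≤ k * (P / n)) (hk2 : k * (P / n) ≤ lamMax S + 2 * P₁ / n) :
    |(rsv S (k * (P / n))).trace.re - n| ≤ 2 * √(δ + 2 * K / √P₁ + 2 * P₁ / n ^ 2) * n ∧
    (2 - 2 * K / √P₁) * n ≤ k * (P / n) ∧
    ∀ v, 4 / 5 / n ≤ (rsv S (k * (P / n)) v v).re ∧ (rsv S (k * (P / n)) v v).re ≤ 6 / 5 / n := by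
  have hn := hp.n0
  have hP := hp.P_ge
  have hn10 := hp.n_ge
  have hK1 := hp.K1
  have hδ0 := hp.δ0
  have hδ1 := hp.δ1
  have hP₁0 : 0 < P₁ := by linarith
  have htop := hO.top
  have hlam0 := lamMax_nonneg hO.sgn
  have hPn1 : P₁ / n ≤ 1 / 10 ^ 4 := by
    rw [div_le_iff₀ hn]
    linarith
  have hPn1' : 2 * P₁ / n = 2 * (P₁ / n) := by ring
  have hPn0 : 0 < P₁ / n := div_pos hP₁0 hn
  -- `k` is in the range of the grid
  have hkN : k ≤ 3 * Fintype.card V := by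
    have h1 : (k : ℝ) * (P / n) ≤ 3 * n := by nlinarith
    have h2 : (k : ℝ) * P ≤ 3 * n * n := by
      have e : (k : ℝ) * P = k * (P / n) * n := by field_simp
      rw [e]
      exact mul_le_mul_of_nonneg_right h1 hn.le
    have hk0 : (0 : ℝ) ≤ k := Nat.cast_nonneg k
    have h3 : (k : ℝ) ≤ 3 * n ^ 2 := by nlinarith
    rw [hp.sq] at h3
    exact_mod_cast h3
  have hconc := fun v => hO.conc v k hkN
  obtain ⟨θ, hθ⟩ : ∃ θ : ℝ, θ = k * (P / n) := ⟨_, rfl⟩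
  simp only [← hθ] at hconc hk1 hk2 ⊢
  obtain ⟨hinv, hpos⟩ := rsv_posBy hO.sgn.symm hPn0 hk1
  obtain ⟨G, hGdef⟩ : ∃ G, G = rsv S θ := ⟨_, rfl⟩
  rw [← hGdef] at hinv hpos ⊢
  have hGsym := hpos.symm
  have hθpos : P₁ / n ≤ θ := by linarith
  have hθ0 : 0 < θ := lt_of_lt_of_le hPn0 hθpos
  have hgpos : ∀ v, 0 < (G v v).re := fun v => diag_pos_of_posBy hinv hPn0 hpos v
  obtain ⟨s, hs⟩ : ∃ s, s = G.trace.re := ⟨_, rfl⟩
  have hs0 : 0 ≤ s := by
    rw [hs, fn2_trace_re]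
    exact Finset.sum_nonneg fun v _ => (hgpos v).le
  -- the numbers
  obtain ⟨q, hq⟩ : ∃ q, q = √P₁ := ⟨_, rfl⟩
  have hq2 : q ^ 2 = P₁ := by rw [hq]; exact Real.sq_sqrt hP₁0.le
  have hq0 : 0 ≤ q := by rw [hq]; exact Real.sqrt_nonneg _
  have hqK : 1000 * K ≤ q := by
    have h1 : (1000 * K) ^ 2 ≤ q ^ 2 := by
      rw [hq2]
      refine le_trans (le_of_eq ?_) hP₁
      rw [hp.P_eq]
      ring
    exact le_of_sq_le_sq h1 hq0
  have hqpos : 0 < q := by linarith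
  obtain ⟨c, hc⟩ : ∃ c, c = K / q := ⟨_, rfl⟩
  have hc0 : 0 < c := by rw [hc]; exact div_pos (by linarith) hqpos
  have hc1 : c ≤ 1 / 1000 := by
    rw [hc, div_le_iff₀ hqpos]
    linarith
  have hq1 : 1 / q ≤ 1 / 1000 := by
    rw [div_le_div_iff₀ hqpos (by norm_num)]
    linarith
  have hKn : K * (n / P₁) ≤ c / 1000 * n := by
    have e : K * (n / P₁) = c * (1 / q) * n := by
      rw [hc, ← hq2]
      field_simp
    rw [e]
    have h1 : c * (1 / q) ≤ c * (1 / 1000) := mul_le_mul_of_nonneg_left hq1 hc0.le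
    calc c * (1 / q) * n ≤ c * (1 / 1000) * n := mul_le_mul_of_nonneg_right h1 hn.le
      _ = c / 1000 * n := by ring
  have hnP : 0 < n / P₁ := div_pos hn hP₁0
  -- the error term
  have hr : ∀ v, |1 / (G v v).re - (θ - s)| ≤ c * √(s * n) + 3 / 1000 * c * n := by
    intro v
    have h1 := star' hO.sgn hθ0 hGsym hinv (hgpos v) (by linarith : (0 : ℝ) ≤ K) (hconc v)
    rw [← hs] at h1
    refine h1.trans ?_
    have h2 : √(hs2 G) ≤ √(s * n) / q := by
      have h3 : hs2 G ≤ s * n / P₁ := by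
        have h4 := hpos.hs_le
        rw [← hs] at h4
        rw [le_div_iff₀ hP₁0]
        have h5 : P₁ / n * hs2 G * n ≤ s * n := mul_le_mul_of_nonneg_right h4 hn.le
        have e : P₁ / n * hs2 G * n = hs2 G * P₁ := by field_simp
        rwa [e] at h5
      rw [hq, ← Real.sqrt_div' _ hP₁0.le]
      exact Real.sqrt_le_sqrt h3
    have h3 : colsq G v / (G v v).re ≤ n / P₁ := by
      rw [div_le_div_iff₀ (hgpos v) hP₁0]
      have h4 := mul_le_mul_of_nonneg_right (hpos.colsq_le v) hn.le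
      have e : P₁ / n * colsq G v * n = colsq G v * P₁ := by field_simp
      rw [e] at h4
      linarith
    have h4 : K / θ ≤ K * (n / P₁) := by
      have h5 : K / θ ≤ K / (P₁ / n) := div_le_div_of_nonneg_left (by linarith) hPn0 hθpos
      refine h5.trans (le_of_eq ?_)
      field_simp
    have h5 : K * √(hs2 G) ≤ c * √(s * n) := by
      have e : c * √(s * n) = K * (√(s * n) / q) := by rw [hc]; ring
      rw [e]
      exact mul_le_mul_of_nonneg_left h2 (by linarith)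
    have h6 : (K + 1) * (colsq G v / (G v v).re) ≤ (K + 1) * (n / P₁) :=
      mul_le_mul_of_nonneg_left h3 (by linarith)
    have h7 : (K + 1) * (n / P₁) ≤ 2 * (K * (n / P₁)) := by nlinarith
    linarith
  -- first bound for `s`
  have hsn0 : 0 ≤ s * n := mul_nonneg hs0 hn.le
  have hamgm : √(s * n) ≤ (s + n) / 2 := by
    rw [Real.sqrt_le_left (by linarith)]
    nlinarith [sq_nonneg (s - n)]
  have hs1 : s ≤ 11 / 5 * n := by
    obtain ⟨v0⟩ := ‹Nonempty V›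
    have h1 := (abs_le.1 (hr v0)).2
    have h2 := one_div_pos.2 (hgpos v0)
    have h1' := (abs_le.1 (hr v0)).1
    have h3 : c * √(s * n) ≤ 1 / 1000 * ((s + n) / 2) :=
      mul_le_mul hc1 hamgm (Real.sqrt_nonneg _) (by norm_num)
    have h4 : 3 / 1000 * c * n ≤ 1 / 1000 * n := by nlinarith
    -- `s < θ + r`? this needs the lower bound of `θ - s + r`
    have h5 : s ≤ θ + (c * √(s * n) + 3 / 1000 * c * n) := by linarith
    nlinarith
  have hsn1 : √(s * n) ≤ 3 / 2 * n := by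
    rw [Real.sqrt_le_left (by linarith)]
    nlinarith
  have hε : 2 * K / √P₁ = 2 * c := by rw [← hq, hc]; ring
  have hr' : ∀ v, |1 / (G v v).re - (θ - s)| ≤ 2 * c * n := by
    intro v
    refine (hr v).trans ?_
    have h1 : c * √(s * n) ≤ c * (3 / 2 * n) := mul_le_mul_of_nonneg_left hsn1 hc0.le
    nlinarith
  have hPn2 : 2 * P₁ / n ^ 2 ≤ 1 / 10 ^ 4 := by
    rw [div_le_iff₀ (by positivity)]
    nlinarith
  have hPn2' : 0 ≤ 2 * P₁ / n ^ 2 := by positivity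
  have hQ := lemQ hn hp.sq (g := fun v => (G v v).re) hgpos (θ := θ) (ε := 2 * c)
    (κ := δ + 2 * c + 2 * P₁ / n ^ 2) (by linarith) (by linarith) (by linarith)
    (by
      have e : (2 + (δ + 2 * c + 2 * P₁ / n ^ 2) - 2 * c) * n = (2 + δ) * n + 2 * P₁ / n := by
        field_simp
        ring
      rw [e]
      linarith)
    (by
      intro v
      have h1 := hr' v
      rw [hs, fn2_trace_re] at h1
      exact h1)
  obtain ⟨-, h2, h3, -, h5⟩ := hQ
  rw [← fn2_trace_re, ← hs] at h3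
  rw [hε, ← hs]
  exact ⟨h3, h2, h5⟩

/-- There is a grid point in every interval `[t, t + P₁/n]`, `0 ≤ t ≤ 2.5 n`, `P₁ ≥ P`. -/
theorem exists_grid [Nonempty V] {n K P δ : ℝ} (hp : Par V n K P δ) {t P₁ : ℝ} (ht : 0 ≤ t)
    (ht' : t ≤ 5 / 2 * n) (hP₁ : P ≤ P₁) :
    ∃ k : ℕ, k ≤ 3 * Fintype.card V ∧ t ≤ k * (P / n) ∧ k * (P / n) ≤ t + P₁ / n := by
  have hn := hp.n0
  have hP := hp.P_ge
  have hn10 := hp.n_ge
  have hPn0 : 0 < P / n := div_pos (by linarith) hn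
  have h1 : t ≤ ⌈t / (P / n)⌉₊ * (P / n) := by
    rw [← div_le_iff₀ hPn0]
    exact Nat.le_ceil _
  have h2 : (⌈t / (P / n)⌉₊ : ℝ) * (P / n) ≤ t + P / n := by
    have h3 := (Nat.ceil_lt_add_one (div_nonneg ht hPn0.le)).le
    have h4 := mul_le_mul_of_nonneg_right h3 hPn0.le
    rwa [add_mul, div_mul_cancel₀ _ hPn0.ne', one_mul] at h4
  refine ⟨⌈t / (P / n)⌉₊, ?_, h1, h2.trans ?_⟩
  · have h3 : (⌈t / (P / n)⌉₊ : ℝ) * (P / n) ≤ 3 * n := by
      have h4 : P / n ≤ 1 := by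
        rw [div_le_iff₀ hn]
        linarith [hp.Pn]
      linarith
    have h4 : (⌈t / (P / n)⌉₊ : ℝ) * P ≤ 3 * n * n := by
      have e : (⌈t / (P / n)⌉₊ : ℝ) * P = ⌈t / (P / n)⌉₊ * (P / n) * n := by field_simp
      rw [e]
      exact mul_le_mul_of_nonneg_right h3 hn.le
    have hk0 : (0 : ℝ) ≤ ⌈t / (P / n)⌉₊ := Nat.cast_nonneg _
    have h5 : (⌈t / (P / n)⌉₊ : ℝ) ≤ 3 * n ^ 2 := by nlinarith
    rw [hp.sq] at h5
    exact_mod_cast h5
  · have h3 : P / n ≤ P₁ / n := by gcongr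
    linarith

/-- A grid point just above the top eigenvalue, with the conclusions of Lemma A. -/
theorem exists_grid_top [Nonempty V] {S : Matrix V V ℂ} {n K P δ : ℝ} (hp : Par V n K P δ)
    (hO : OO S n K P δ) : ∃ θ : ℝ, lamMax S + P / n ≤ θ ∧ θ ≤ lamMax S + 2 * P / n ∧
    (2 - 2 / 1000) * n ≤ θ ∧ ∀ v, 4 / 5 / n ≤ (rsv S θ v v).re ∧ (rsv S θ v v).re ≤ 6 / 5 / n := by
  have hn := hp.n0
  have hP := hp.P_ge
  have hn10 := hp.n_ge
  have hK1 := hp.K1
  have hδ1 := hp.δ1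
  have htop := hO.top
  have hlam0 := lamMax_nonneg hO.sgn
  have hPn0 : 0 < P / n := div_pos (by linarith) hn
  have hPn1 : P / n ≤ 1 := by
    rw [div_le_iff₀ hn]
    linarith [hp.Pn]
  obtain ⟨k, -, hk1, hk2⟩ := exists_grid hp (t := lamMax S + P / n) (P₁ := P) (by linarith)
    (by nlinarith) le_rfl
  have e : lamMax S + P / n + P / n = lamMax S + 2 * P / n := by ring
  rw [e] at hk2
  have hA := lemA hp hO le_rfl hp.Pn hk1 hk2
  refine ⟨k * (P / n), hk1, hk2, ?_, hA.2.2⟩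
  refine le_trans ?_ hA.2.1
  refine mul_le_mul_of_nonneg_right ?_ hn.le
  have hsq : √P = 1000 * K := by
    rw [hp.P_eq, show (10 : ℝ) ^ 6 * K ^ 2 = (1000 * K) ^ 2 by ring]
    exact Real.sqrt_sq (by linarith)
  have h1 : 2 * K / √P = 2 / 1000 := by
    rw [hsq]
    field_simp
  rw [h1]

/-- Lower bound for the top eigenvalue (from Lemma A with `P₁ = P` and `exists_grid`). -/
theorem lamMax_ge [Nonempty V] {S : Matrix V V ℂ} {n K P δ : ℝ} (hp : Par V n K P δ)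
    (hO : OO S n K P δ) : 199 / 100 * n ≤ lamMax S := by
  obtain ⟨θ, -, h2, h3, -⟩ := exists_grid_top hp hO
  have hn := hp.n0
  have hn10 := hp.n_ge
  have hPn1 : 2 * P / n ≤ 1 := by
    rw [div_le_iff₀ hn]
    linarith [hp.Pn, hp.P_ge]
  linarith

/-- LEMMA C (delocalization): `|ψ_v|^2 ≤ (θ - lam) G_vv(θ) ≤ (2P/n)(1.2/n)`. -/
theorem lemC [Nonempty V] {S : Matrix V V ℂ} {n K P δ : ℝ} (hp : Par V n K P δ)
    (hO : OO S n K P δ) {ψ : V → ℂ} (h : TP S (lamMax S) ψ 0) (v : V) :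
    ‖ψ v‖ ^ 2 ≤ 12 / 5 * P / n ^ 2 := by
  obtain ⟨θ, h1, h2, -, h4⟩ := exists_grid_top hp hO
  have hn := hp.n0
  have hP := hp.P_ge
  have hPn0 : 0 < P / n := div_pos (by linarith) hn
  have hy : 0 < θ - lamMax S := by linarith
  obtain ⟨-, -, -, -, -, hH⟩ := rsv_main hO.sgn.symm h (θ := θ) (y := θ - lamMax S)
    (by linarith) hy (by linarith)
  have h5 := hH.diag_nonneg hy.le v
  have h6 : rk1 ψ v v = ((‖ψ v‖ ^ 2 : ℝ) : ℂ) := by
    change ψ v * star (ψ v) = _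
    rw [Complex.star_def, Complex.mul_conj, Complex.normSq_eq_norm_sq]
  rw [Matrix.sub_apply, Matrix.smul_apply, h6, Complex.sub_re] at h5
  first
    | rw [Complex.smul_re, Complex.ofReal_re, smul_eq_mul] at h5
    | rw [smul_eq_mul, ← Complex.ofReal_mul, Complex.ofReal_re] at h5
  have h7 : (θ - lamMax S)⁻¹ * ‖ψ v‖ ^ 2 ≤ 6 / 5 / n := by linarith [(h4 v).2]
  have h8 : ‖ψ v‖ ^ 2 ≤ (θ - lamMax S) * (6 / 5 / n) := by
    have h9 := mul_le_mul_of_nonneg_left h7 hy.le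
    rwa [← mul_assoc, mul_inv_cancel₀ hy.ne', one_mul] at h9
  have h9 : (θ - lamMax S) * (6 / 5 / n) ≤ (2 * P / n) * (6 / 5 / n) :=
    mul_le_mul_of_nonneg_right (by linarith) (by positivity)
  calc ‖ψ v‖ ^ 2 ≤ (2 * P / n) * (6 / 5 / n) := h8.trans h9
    _ = 12 / 5 * P / n ^ 2 := by
      field_simp
      ring

/-- The diagonal of the resolvent above `lamMax S + 2 P / n` (monotonicity and Lemma A). -/
theorem diag_le [Nonempty V] {S : Matrix V V ℂ} {n K P δ : ℝ} (hp : Par V n K P δ)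
    (hO : OO S n K P δ) {θ : ℝ} (hθ : lamMax S + 2 * P / n ≤ θ) (v : V) :
    0 ≤ (rsv S θ v v).re ∧ (rsv S θ v v).re ≤ 6 / 5 / n := by
  obtain ⟨θ', h1, h2, -, h4⟩ := exists_grid_top hp hO
  have hn := hp.n0
  have hP := hp.P_ge
  have hPn0 : 0 < P / n := div_pos (by linarith) hn
  constructor
  · have hpos := (rsv_posBy hO.sgn.symm (θ := θ) hPn0 (by linarith)).2
    exact hpos.diag_nonneg hPn0.le v
  · have h5 := rsv_mono hO.sgn.symm (θ := θ') (θ' := θ) (by linarith) (by linarith)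
      (Pi.single v 1)
    rw [fn2_qf_single, fn2_qf_single] at h5
    exact h5.trans (h4 v).2

end Pool.Agent.MP_9cec2c_lc.Flat.Herm
end

section

/-!
# FN3: stability of the top eigenvector under a change of one row (Lemma D), Hermitian case
-/

set_option autoImplicit false

open Matrix Finset

namespace Pool.Agent.MP_9cec2c_lc.Flat.Herm

variable {V : Type} [Fintype V] [DecidableEq V]

/-- matrices with the same minor have the same quadratic form on vectors with `z v = 0` -/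
theorem qf_same_minor {S S' : Matrix V V ℂ} {v : V} (hm : minor S' v = minor S v) {z : V → ℂ}
    (hz : z v = 0) : qf S' z = qf S z := by
  unfold qf
  congr 1
  simp only [Matrix.mulVec, dotProduct, mul_sum]
  refine sum_congr rfl fun i _ => sum_congr rfl fun j _ => ?_
  by_cases hi : i = v
  · subst hi; rw [Pi.star_apply, hz]; simp
  · by_cases hj : j = v
    · subst hj; rw [hz]; ring
    · have h1 : S' i j = S i j := by
        have := congrFun (congrFun hm i) j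
        unfold minor at this
        simpa [hi, hj] using this
      rw [h1]

/-- `φ = ψ' - ψ'_v e_v` has the same energy in `S` and `S'`: `lamMax S' (1 - 2 |ψ'_v|^2)`. -/
theorem qf_cut {S S' : Matrix V V ℂ} (hS : IsSign S) (hS' : IsSign S') {v : V}
    (hm : minor S' v = minor S v) {ψ' : V → ℂ} {lam' : ℝ} (h : TP S' lam' ψ' 0) :
    qf S (ψ' - ψ' v • Pi.single v 1) = lam' * (1 - 2 * ‖ψ' v‖ ^ 2) ∧
    nsq (ψ' - ψ' v • Pi.single v 1) = 1 - ‖ψ' v‖ ^ 2 := by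
  have hv : (ψ' - ψ' v • (Pi.single v 1 : V → ℂ)) v = 0 := by simp
  have hdot : star ψ' ⬝ᵥ (ψ' v • (Pi.single v 1 : V → ℂ)) = ((‖ψ' v‖ ^ 2 : ℝ) : ℂ) := by
    rw [dotProduct_smul, dotProduct_single_one, Pi.star_apply, smul_eq_mul, mul_comm, star_mul_self]
  constructor
  · rw [← qf_same_minor hm hv, qf_sub hS'.symm, h.qf_psi, dot_mulVec_comm hS'.symm, h.eig,
      star_smul, smul_dotProduct, hdot, qf_smul, qf_single, hS'.diag]
    simp only [smul_eq_mul, Complex.star_def, Complex.conj_ofReal, Complex.zero_re, mul_zero,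
      add_zero]
    rw [← Complex.ofReal_mul, Complex.ofReal_re]
    ring
  · rw [nsq_sub, h.unit, hdot, Complex.ofReal_re, nsq_smul, nsq_single]
    ring

/-- `lamMax S (1 - |ψ'_v|^2) ≥ lamMax S' (1 - 2 |ψ'_v|^2)`, so `lamMax S' - lamMax S ≤ 10 P / n`. -/
theorem lamMax_sub_le [Nonempty V] {S S' : Matrix V V ℂ} {n K P δ : ℝ} (hp : Par V n K P δ)
    (hO : OO S n K P δ) (hO' : OO S' n K P δ) {v : V} (hm : minor S' v = minor S v) :
    lamMax S' - lamMax S ≤ 10 * P / n := by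
  obtain ⟨ψ', h'⟩ := exists_top hO'.sgn.symm
  have h1 := qf_le_lamMax S (ψ' - ψ' v • Pi.single v 1)
  obtain ⟨h2, h3⟩ := qf_cut hO.sgn hO'.sgn hm h'
  rw [h2, h3] at h1
  have hq := lemC hp hO' h' v
  have hn := hp.n0
  have hP : 0 ≤ P := by
    rw [hp.P_eq]; positivity
  have hl0 := lamMax_nonneg hO.sgn
  have hl0' := lamMax_nonneg hO'.sgn
  have hl' : lamMax S' ≤ 2.0001 * n := by
    refine hO'.top.trans ?_
    have := hp.δ1
    nlinarith
  have hq0 : 0 ≤ ‖ψ' v‖ ^ 2 := sq_nonneg _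
  have h4 : lamMax S' - lamMax S ≤ 2 * ‖ψ' v‖ ^ 2 * lamMax S' := by nlinarith
  have h5 : 2 * ‖ψ' v‖ ^ 2 * lamMax S' ≤ 2 * (12 / 5 * P / n ^ 2) * (2.0001 * n) := by
    apply mul_le_mul _ hl' hl0' (by positivity)
    linarith
  have h6 : 2 * (12 / 5 * P / n ^ 2) * (2.0001 * n) = 9.60048 * (P / n) := by
    field_simp
    ring
  have h7 : 0 ≤ P / n := by positivity
  have h8 : 10 * P / n = 10 * (P / n) := by ring
  rw [h8]
  linarith

/-- LEMMA D. Only the gap of `S` is used. -/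
theorem lemD [Nonempty V] {S S' : Matrix V V ℂ} {n K P δ : ℝ} (hp : Par V n K P δ)
    (hO : OO S n K P δ) (hO' : OO S' n K P δ) {v : V} (hm : minor S' v = minor S v)
    {ψ ψ' : V → ℂ} {g : ℝ} (hg : 0 < g) (hgn : g ≤ n / 20) (h : TP S (lamMax S) ψ g)
    (h' : TP S' (lamMax S') ψ' 0) :
    1 - 21 * P / (g * n) ≤ ‖star ψ ⬝ᵥ ψ'‖ ^ 2 := by
  set φ : V → ℂ := ψ' - ψ' v • Pi.single v 1 with hφ
  obtain ⟨h2, h3⟩ := qf_cut hO.sgn hO'.sgn hm h'
  rw [← hφ] at h2 h3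
  have h1 := h.qf_le hO.sgn.symm φ
  rw [h2, h3] at h1
  have h0 : TP S (lamMax S) ψ 0 := h.mono hg.le
  have hq := lemC hp hO' h' v
  have hq1 := lemC hp hO h0 v
  have hn := hp.n0
  have hP : 0 ≤ P := by
    rw [hp.P_eq]; positivity
  have hl0 := lamMax_nonneg hO.sgn
  have hl0' := lamMax_nonneg hO'.sgn
  have hl' : lamMax S' ≤ 2.0001 * n := by
    refine hO'.top.trans ?_
    have := hp.δ1
    nlinarith
  have hD := lamMax_sub_le hp hO' hO hm.symm
  set β : ℝ := 12 / 5 * P / n ^ 2 with hβ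
  have hβ0 : 0 ≤ β := by rw [hβ]; positivity
  have hβn : β * n = 12 / 5 * (P / n) := by
    rw [hβ]
    field_simp
  set q : ℝ := ‖ψ' v‖ ^ 2 with hqd
  have hq0 : 0 ≤ q := sq_nonneg _
  set r : ℝ := ‖star ψ ⬝ᵥ φ‖ with hr
  have hr0 : 0 ≤ r := norm_nonneg _
  have h4 : g * (1 - q - r ^ 2) ≤ (lamMax S - lamMax S') - lamMax S * q + 2 * q * lamMax S' := by
    linarith
  have h5 : q * lamMax S' ≤ β * (2.0001 * n) := mul_le_mul hq hl' hl0' hβ0
  have h6 : β * (2.0001 * n) = 2.0001 * (12 / 5 * (P / n)) := by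
    rw [← hβn]; ring
  have h7 : 0 ≤ P / n := by positivity
  have h8 : 10 * P / n = 10 * (P / n) := by ring
  rw [h8] at hD
  have h9 : g * (1 - q - r ^ 2) ≤ 20 * (P / n) := by
    have : 0 ≤ lamMax S * q := mul_nonneg hl0 hq0
    linarith
  -- the scalar products
  have h10 : star ψ ⬝ᵥ ψ' = star ψ ⬝ᵥ φ + ψ' v * star (ψ v) := by
    rw [hφ, dotProduct_sub, dotProduct_smul, dotProduct_single_one, Pi.star_apply]
    simp only [smul_eq_mul]
    ring
  have h11 : ‖ψ' v * star (ψ v)‖ ≤ β := by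
    have e1 : ‖ψ' v * star (ψ v)‖ ^ 2 ≤ β ^ 2 := by
      rw [norm_mul, mul_pow, norm_star]
      calc ‖ψ' v‖ ^ 2 * ‖ψ v‖ ^ 2 ≤ β * β := mul_le_mul hq hq1 (sq_nonneg _) hβ0
        _ = β ^ 2 := by ring
    exact (sq_le_sq₀ (norm_nonneg _) hβ0).1 e1
  have h12 : r ≤ 1 := by
    have := dot_psi_sq_le h.unit φ
    rw [h3] at this
    have e1 : r ^ 2 ≤ 1 ^ 2 := by rw [one_pow]; linarith
    exact (sq_le_sq₀ hr0 zero_le_one).1 e1
  set c : ℝ := ‖star ψ ⬝ᵥ ψ'‖ with hc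
  have hc0 : 0 ≤ c := norm_nonneg _
  have h13 : r ≤ c + β := by
    have e1 : star ψ ⬝ᵥ φ = star ψ ⬝ᵥ ψ' - ψ' v * star (ψ v) := by
      rw [h10]; ring
    have e2 := norm_sub_le (star ψ ⬝ᵥ ψ') (ψ' v * star (ψ v))
    rw [← e1] at e2
    linarith
  have h15 : r ^ 2 - 2 * β ≤ c ^ 2 := by
    by_cases hrb : β ≤ r
    · have e1 : (r - β) ^ 2 ≤ c ^ 2 := by
        apply pow_le_pow_left₀ (by linarith)
        linarith
      nlinarith [sq_nonneg β]
    · push Not at hrb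
      have : r ^ 2 ≤ r := by nlinarith
      have := sq_nonneg c
      linarith
  have h16 : 1 - q - 20 * (P / n) / g ≤ r ^ 2 := by
    have : 1 - q - r ^ 2 ≤ 20 * (P / n) / g := by
      rw [le_div_iff₀ hg]
      linarith
    linarith
  have h17 : 3 * β ≤ P / (g * n) := by
    have e1 : β = 12 / 5 * (P / n) / n := by
      rw [hβ]
      field_simp
    have e2 : P / (g * n) = (P / n) / g := by
      field_simp
    rw [e1, e2, le_div_iff₀ hg]
    have e3 : 3 * (12 / 5 * (P / n) / n) * g ≤ 3 * (12 / 5 * (P / n) / n) * (n / 20) :=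
      mul_le_mul_of_nonneg_left hgn (by positivity)
    have e4 : 3 * (12 / 5 * (P / n) / n) * (n / 20) = 9 / 25 * (P / n) := by
      field_simp
      ring
    linarith
  have h18 : 21 * P / (g * n) = 20 * (P / n) / g + P / (g * n) := by
    field_simp
    ring
  rw [h18]
  linarith

end Pool.Agent.MP_9cec2c_lc.Flat.Herm
end
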