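import Pool.Agent.Lib.MP_9cec2c_lc.Mg.G004
import Pool.Agent.Lib.MP_9cec2c_lc.Mg.G002

section

/-!
# FN4: stability of the gap under a change of one row (Lemma E), Hermitian case
-/

set_option autoImplicit false
set_option linter.unusedSectionVars false

open Matrix Finset

namespace Pool.Agent.MP_9cec2c_lc.Flat.Herm

variable {V : Type} [Fintype V] [DecidableEq V]

/-- The lower bound for the diagonal of `H`. -/
theorem e4_H_diag_lower {S : Matrix V V ℂ} (hS : IsSign S) {lam g θ y : ℝ} {ψ : V → ℂ}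
    (h : TP S lam ψ g) (hy : 0 ≤ y) {H : Matrix V V ℂ} (hpos : PosBy y H)
    (hinv : shift S θ * H = 1 - rk1 ψ) (v : V) :
    (1 - ‖ψ v‖ ^ 2) ^ 2 ≤ (H v v).re * (θ * (1 - ‖ψ v‖ ^ 2) + lam * ‖ψ v‖ ^ 2) := by
  have hsym := sym_shift hS.symm θ
  have hinv2 : H * shift S θ = 1 - rk1 ψ := by
    have h1 := congrArg Matrix.conjTranspose hinv
    rw [Matrix.conjTranspose_mul, hpos.symm.eq, hsym.eq] at h1
    rw [h1, Matrix.conjTranspose_sub, Matrix.conjTranspose_one, (sym_rk1 ψ).eq]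
  set e : V → ℂ := Pi.single v 1 with he
  have hψe : star ψ ⬝ᵥ e = star (ψ v) := by
    rw [he, dotProduct_single, mul_one, Pi.star_apply]
  set e' : V → ℂ := e - (star ψ ⬝ᵥ e) • ψ with he'
  have hψe' : star ψ ⬝ᵥ e' = 0 := perp_of_unit h.unit
  have hHe' : H *ᵥ (shift S θ *ᵥ e') = e' := by
    rw [Matrix.mulVec_mulVec, hinv2, Matrix.sub_mulVec, Matrix.one_mulVec, mulVec_rk1, hψe',
      zero_smul, sub_zero]
  have h1 : shift S θ *ᵥ ψ = ((θ - lam : ℝ) : ℂ) • ψ := by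
    rw [mulVec_shift, h.eig, ← sub_smul, ← Complex.ofReal_sub]
  have hform : qf (shift S θ) e' = θ * (1 - ‖ψ v‖ ^ 2) + lam * ‖ψ v‖ ^ 2 := by
    have h2 : qf (shift S θ) e = θ := by
      rw [he, qf_single]
      unfold shift
      simp [hS.diag v]
    have h3 := qf_decomp hsym h1 h.unit e
    rw [h2, hψe, norm_star, ← hψe, ← he'] at h3
    linarith
  have hcs := cauchy_form hpos.symm (fun φ => hpos.nonneg hy φ) e (shift S θ *ᵥ e')
  have h4 : star e ⬝ᵥ e' = ((1 - ‖ψ v‖ ^ 2 : ℝ) : ℂ) := by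
    have h5 : star e ⬝ᵥ ψ = ψ v := by
      rw [dot_star, hψe, star_star]
    rw [he', dotProduct_sub, dotProduct_smul, star_dot_self, he, nsq_single, ← he, h5, hψe,
      smul_eq_mul, star_mul_self]
    push_cast
    ring
  have h6 : qf H (shift S θ *ᵥ e') = θ * (1 - ‖ψ v‖ ^ 2) + lam * ‖ψ v‖ ^ 2 := by
    rw [← hform]
    unfold qf
    rw [hHe', ← dot_mulVec_comm hsym]
  rw [hHe', h4, h6, he, qf_single, Complex.norm_real, Real.norm_eq_abs, sq_abs] at hcs
  exact hcs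

/-- Column lengths of `G = H + c ψψ^*`. -/
theorem e4_colsq_add {G H : Matrix V V ℂ} {ψ : V → ℂ} {c : ℝ} (hH : Sym H) (h0 : H *ᵥ ψ = 0)
    (hψ : nsq ψ = 1) (hG : ∀ i j, G i j = H i j + (c : ℂ) * (ψ i * star (ψ j))) (v : V) :
    colsq G v = colsq H v + c ^ 2 * ‖ψ v‖ ^ 2 := by
  set e : V → ℂ := Pi.single v 1 with he
  have h1 : colsq G v = nsq (H *ᵥ e + ((c : ℂ) * star (ψ v)) • ψ) := by
    unfold colsq nsq
    refine Finset.sum_congr rfl fun i _ => ?_
    rw [he, mulVec_single', hG i v, Pi.add_apply, Pi.smul_apply, smul_eq_mul]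
    congr 2
    ring
  have h2 : colsq H v = nsq (H *ᵥ e) := by
    unfold colsq nsq
    refine Finset.sum_congr rfl fun i _ => ?_
    rw [he, mulVec_single']
  have h3 : star (H *ᵥ e) ⬝ᵥ (((c : ℂ) * star (ψ v)) • ψ) = 0 := by
    rw [dotProduct_smul, ← dot_mulVec_comm hH, h0, dotProduct_zero, smul_zero]
  rw [h1, h2, nsq_add, h3, nsq_smul, hψ, norm_mul, Complex.norm_real, norm_star, Complex.zero_re,
    mul_pow, Real.norm_eq_abs, sq_abs]
  ring

theorem e4_hs2_add {G H : Matrix V V ℂ} {ψ : V → ℂ} {c : ℝ} (hH : Sym H) (h0 : H *ᵥ ψ = 0)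
    (hψ : nsq ψ = 1) (hG : ∀ i j, G i j = H i j + (c : ℂ) * (ψ i * star (ψ j))) :
    hs2 G = hs2 H + c ^ 2 := by
  rw [hs2_eq, hs2_eq, Finset.sum_congr rfl (fun v _ => e4_colsq_add hH h0 hψ hG v),
    Finset.sum_add_distrib, ← Finset.mul_sum]
  have h1 : ∑ v, ‖ψ v‖ ^ 2 = 1 := hψ
  rw [h1, mul_one]

theorem e4_diag_add {G H : Matrix V V ℂ} {ψ : V → ℂ} {c : ℝ}
    (hG : ∀ i j, G i j = H i j + (c : ℂ) * (ψ i * star (ψ j))) (v : V) :
    (G v v).re = (H v v).re + c * ‖ψ v‖ ^ 2 := by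
  rw [hG v v, mul_comm (ψ v), star_mul_self, ← Complex.ofReal_mul, Complex.add_re,
    Complex.ofReal_re]

theorem e4_trace_add {G H : Matrix V V ℂ} {ψ : V → ℂ} {c : ℝ}
    (hψ : nsq ψ = 1) (hG : ∀ i j, G i j = H i j + (c : ℂ) * (ψ i * star (ψ j))) :
    G.trace.re = H.trace.re + c := by
  rw [trace_re, trace_re, Finset.sum_congr rfl (fun v _ => e4_diag_add hG v),
    Finset.sum_add_distrib, ← Finset.mul_sum]
  have h1 : ∑ v, ‖ψ v‖ ^ 2 = 1 := hψ
  rw [h1, mul_one]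

/-- Below the top eigenvalue and above the rest, the diagonal of the resolvent is still positive.
`θ` with `lam - g + y ≤ θ`, `y = P/n`, `lam - θ ≥ 100 P / n`, `θ > 0`; `H := G + (lam - θ)⁻¹ ψψ^t`, `y H² ≤ H`.
(a) `e' = e_v - ψ_v ψ`: `|e'|^2 = 1 - ψ_v^2`, `qf (θ - S) e' = θ + ψ_v^2 (lam - θ) ≤ 2.01 n`, Cauchy-Schwarz
`|e'|^4 ≤ qf (θ - S) e' * qf H e'` (`e' = (θ-S) H e'`), `H_vv = qf H e' ≥ 0.49/n`,
`G_vv = H_vv - ψ_v^2/(lam - θ) ≥ 0.49/n - 0.024/n`.
(b) `colsq G v = colsq H v + ψ_v^2/(lam-θ)^2 ≤ 1.2 G_vv / y`; `hs2 G = hs2 H + (lam-θ)^(-2) ≤ (s + 0.02/y)/y`. -/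
theorem below [Nonempty V] {S : Matrix V V ℂ} {n K P δ : ℝ} (hp : Par V n K P δ)
    (hO : OO S n K P δ) {ψ : V → ℂ} {g θ : ℝ} (h : TP S (lamMax S) ψ g) (hθ0 : 0 < θ)
    (hθ1 : lamMax S - g + P / n ≤ θ) (hθ2 : θ + 100 * P / n ≤ lamMax S) :
    (∀ v, 2 / 5 / n ≤ (rsv S θ v v).re ∧ colsq (rsv S θ) v / (rsv S θ v v).re ≤ 6 / 5 * n / P) ∧
    hs2 (rsv S θ) ≤ ((rsv S θ).trace.re + 1 / 50 * n / P) * n / P := by
  have hn := hp.n0
  have hK := hp.K1
  have hP0 : 0 < P := by rw [hp.P_eq]; positivity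
  have hPn := hp.Pn
  have hy : 0 < P / n := by positivity
  have hne : θ ≠ lamMax S := by
    intro hcon
    have : 0 < 100 * P / n := by positivity
    linarith
  have hg : 0 ≤ g := by
    have : 0 < 100 * P / n := by positivity
    linarith
  obtain ⟨-, -, -, hH, hHψ, hpos⟩ := rsv_main hO.sgn.symm h hne hy hθ1
  set G := rsv S θ with hG
  set H := G - (θ - lamMax S)⁻¹ • rk1 ψ with hHdef
  set c := (θ - lamMax S)⁻¹ with hc
  have hGH : ∀ i j, G i j = H i j + (c : ℂ) * (ψ i * star (ψ j)) := by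
    intro i j
    rw [hHdef, Matrix.sub_apply, Matrix.smul_apply, Complex.real_smul]
    show G i j = G i j - (c : ℂ) * (ψ i * star (ψ j)) + (c : ℂ) * (ψ i * star (ψ j))
    ring
  have hdel : 100 * P / n ≤ lamMax S - θ := by linarith
  have hdel0 : 0 < lamMax S - θ := lt_of_lt_of_le (by positivity) hdel
  -- `x = n / P = 1 / y`
  set x := n / P with hx
  have hx0 : 0 < x := by positivity
  have hxP : x * P = n := by rw [hx]; field_simp
  have hc1 : -c ≤ 1 / 100 * x := by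
    have h1 : -c = 1 / (lamMax S - θ) := by
      rw [hc, ← inv_neg, neg_sub, one_div]
    have h2 : 1 / 100 * x = 1 / (100 * P / n) := by rw [hx]; field_simp
    rw [h1, h2]
    exact one_div_le_one_div_of_le (by positivity) hdel
  have hc0 : 0 < -c := by
    have h1 : -c = 1 / (lamMax S - θ) := by
      rw [hc, ← inv_neg, neg_sub, one_div]
    rw [h1]
    positivity
  have hcsq : c ^ 2 ≤ (1 / 100 * x) * (-c) := by
    have h1 : c ^ 2 = (-c) * (-c) := by ring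
    rw [h1]
    exact mul_le_mul_of_nonneg_right hc1 hc0.le
  have hyx : P / n * x = 1 := by rw [hx]; field_simp
  have hψ : ∀ v, ‖ψ v‖ ^ 2 ≤ 12 / 5 * P / n ^ 2 := fun v => lemC hp hO (h.mono hg) v
  -- bound for `-c ψ_v^2`
  have hcψ : ∀ v, -c * ‖ψ v‖ ^ 2 ≤ 3 / 125 / n := by
    intro v
    have h1 : -c * ‖ψ v‖ ^ 2 ≤ (1 / 100 * x) * (12 / 5 * P / n ^ 2) :=
      mul_le_mul hc1 (hψ v) (sq_nonneg _) (by positivity)
    have h2 : (1 / 100 * x) * (12 / 5 * P / n ^ 2) = 3 / 125 / n := by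
      rw [hx]; field_simp; norm_num
    rw [h2] at h1
    exact h1
  have hψ1 : ∀ v, ‖ψ v‖ ^ 2 ≤ 1 / 10 ^ 3 := by
    intro v
    refine (hψ v).trans ?_
    have h1 : 12 / 5 * P / n ^ 2 ≤ 12 / 5 * (n / 10 ^ 4) / n ^ 2 := by
      gcongr
      linarith
    have h2 : 12 / 5 * (n / 10 ^ 4) / n ^ 2 = 12 / 5 / 10 ^ 4 / n := by field_simp
    have h3 : 1 ≤ n := by
      have h4 : (1 : ℝ) ≤ P := by
        rw [hp.P_eq]
        nlinarith
      nlinarith
    have h4 : (12 : ℝ) / 5 / 10 ^ 4 / n ≤ 12 / 5 / 10 ^ 4 / 1 := by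
      gcongr
    rw [h2] at h1
    refine h1.trans (h4.trans (by norm_num))
  have hlam : lamMax S ≤ 20001 / 10000 * n := by
    have h1 := hO.top
    have h2 := hp.δ1
    have h3 : (2 + δ) * n ≤ (2 + 1 / 10 ^ 4) * n := mul_le_mul_of_nonneg_right (by linarith) hn.le
    have h4 : (2 + 1 / 10 ^ 4 : ℝ) * n = 20001 / 10000 * n := by ring
    linarith
  have hHv : ∀ v, 49 / 100 / n ≤ (H v v).re := by
    intro v
    have h1 := e4_H_diag_lower hO.sgn h hy.le hpos hH v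
    have h2 : θ * (1 - ‖ψ v‖ ^ 2) + lamMax S * ‖ψ v‖ ^ 2 ≤ 20001 / 10000 * n := by
      have h3 := hψ1 v
      have h4 := sq_nonneg ‖ψ v‖
      have h5 : θ * (1 - ‖ψ v‖ ^ 2) ≤ lamMax S * (1 - ‖ψ v‖ ^ 2) :=
        mul_le_mul_of_nonneg_right (by linarith) (by linarith)
      linarith
    have h3 : 0 ≤ (H v v).re := hpos.diag_nonneg hy.le v
    have h4 : (1 - 1 / 10 ^ 3 : ℝ) ^ 2 ≤ (1 - ‖ψ v‖ ^ 2) ^ 2 := by
      have h5 := hψ1 v
      gcongr
    have h5 : (H v v).re * (θ * (1 - ‖ψ v‖ ^ 2) + lamMax S * ‖ψ v‖ ^ 2) ≤ (H v v).re * (20001 / 10000 * n) :=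
      mul_le_mul_of_nonneg_left h2 h3
    rw [div_le_iff₀ hn]
    norm_num at h4
    linarith
  have hGv : ∀ v, 2 / 5 / n ≤ (G v v).re := by
    intro v
    have h1 := hHv v
    have h2 := hcψ v
    have h3 := e4_diag_add hGH v
    have h4 : c * ‖ψ v‖ ^ 2 = - (-c * ‖ψ v‖ ^ 2) := by ring
    rw [h4] at h3
    have h5 : (49 / 100 / n : ℝ) = 49 / 100 * (1 / n) := by ring
    have h6 : (3 / 125 / n : ℝ) = 3 / 125 * (1 / n) := by ring
    have h7 : (2 / 5 / n : ℝ) = 2 / 5 * (1 / n) := by ring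
    have h8 : 0 < 1 / n := by positivity
    rw [h5] at h1
    rw [h6] at h2
    rw [h7, h3]
    linarith
  refine ⟨fun v => ⟨hGv v, ?_⟩, ?_⟩
  · have hG0 : 0 < (G v v).re := lt_of_lt_of_le (by positivity) (hGv v)
    rw [div_le_iff₀ hG0, e4_colsq_add hpos.symm hHψ h.unit hGH v]
    have h1 := hpos.colsq_le v
    have h2 : colsq H v ≤ x * (H v v).re := by
      have h3 := mul_le_mul_of_nonneg_left h1 hx0.le
      have h4 : x * (P / n * colsq H v) = (P / n * x) * colsq H v := by ring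
      rw [h4, hyx, one_mul] at h3
      exact h3
    have h3 : c ^ 2 * ‖ψ v‖ ^ 2 ≤ (1 / 100 * x) * (-c * ‖ψ v‖ ^ 2) := by
      have := mul_le_mul_of_nonneg_right hcsq (sq_nonneg ‖ψ v‖)
      linarith
    have h4 := hcψ v
    have h5 := e4_diag_add hGH v
    have h6 : c * ‖ψ v‖ ^ 2 = - (-c * ‖ψ v‖ ^ 2) := by ring
    rw [h6] at h5
    have h7 : (H v v).re = (G v v).re + (-c * ‖ψ v‖ ^ 2) := by linarith
    have h8 : -c * ‖ψ v‖ ^ 2 ≤ 3 / 50 * (G v v).re := by
      have h9 := hGv v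
      have h10 : (3 / 125 / n : ℝ) = 3 / 50 * (2 / 5 / n) := by ring
      rw [h10] at h4
      linarith
    have h9 : 6 / 5 * n / P * (G v v).re = 6 / 5 * (x * (G v v).re) := by rw [hx]; ring
    rw [h9]
    rw [h7] at h2
    have h10 : 0 < x * (G v v).re := by positivity
    have h11 : x * (-c * ‖ψ v‖ ^ 2) ≤ x * (3 / 50 * (G v v).re) := mul_le_mul_of_nonneg_left h8 hx0.le
    nlinarith
  · rw [e4_hs2_add hpos.symm hHψ h.unit hGH, e4_trace_add h.unit hGH]
    have h1 := hpos.hs_le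
    have h2 : hs2 H ≤ x * H.trace.re := by
      have h3 := mul_le_mul_of_nonneg_left h1 hx0.le
      have h4 : x * (P / n * hs2 H) = (P / n * x) * hs2 H := by ring
      rw [h4, hyx, one_mul] at h3
      exact h3
    have h3 : (H.trace.re + c + 1 / 50 * n / P) * n / P = (H.trace.re + c + 1 / 50 * x) * x := by
      rw [hx]; ring
    rw [h3]
    have h4 : (-c) * x ≤ (1 / 100 * x) * x := mul_le_mul_of_nonneg_right hc1 hx0.le
    have h5 : (1 / 100 * x) * (-c) ≤ (1 / 100 * x) * (1 / 100 * x) :=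
      mul_le_mul_of_nonneg_left hc1 (by positivity)
    nlinarith [mul_pos hx0 hx0]

/-- The error term is small and Lemma Q applies: `s ≤ 1.1 n`, and the neighbour has `T' < θ`. -/
theorem below_trace [Nonempty V] {S : Matrix V V ℂ} {n K P δ : ℝ} (hp : Par V n K P δ)
    (hO : OO S n K P δ) {ψ : V → ℂ} {g : ℝ} {k : ℕ} (h : TP S (lamMax S) ψ g)
    (hk : k ≤ 3 * Fintype.card V) (hθ0 : n ≤ k * (P / n))
    (hθ1 : lamMax S - g + P / n ≤ k * (P / n)) (hθ2 : k * (P / n) + 100 * P / n ≤ lamMax S) :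
    (rsv S (k * (P / n))).trace.re ≤ 11 / 10 * n ∧
    ∀ v, K * √(hs2 (rsv S (k * (P / n)))) + (K + 1) *
      (colsq (rsv S (k * (P / n))) v / (rsv S (k * (P / n)) v v).re) + K / (k * (P / n)) ≤ 1 / 100 * n := by
  have hn := hp.n0
  have hK := hp.K1
  have hPeq := hp.P_eq
  have hP0 : 0 < P := by rw [hPeq]; positivity
  have hPn := hp.Pn
  have hy : 0 < P / n := by positivity
  have hconc := fun v => hO.conc v k hk
  set θ : ℝ := k * (P / n) with hθ
  have hθpos : 0 < θ := lt_of_lt_of_le hn hθ0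
  have hK2 : K ≤ K ^ 2 := by
    rw [sq]; exact le_mul_of_one_le_left (by linarith) hK
  have hKP : 10 ^ 6 * K ≤ P := by rw [hPeq]; linarith
  have hKn : 10 ^ 10 * K ≤ n := by linarith
  have hn1 : 1 ≤ n := by linarith
  have hPnn : P / n ≤ n := by
    rw [div_le_iff₀ hn]
    nlinarith
  have hne : θ ≠ lamMax S := by
    intro hcon
    have : 0 < 100 * P / n := by positivity
    linarith
  obtain ⟨hv, hhs⟩ := below hp hO h hθpos hθ1 hθ2
  obtain ⟨hinv, -, hsym, -, -, -⟩ := rsv_main hO.sgn.symm h hne hy hθ1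
  set G := rsv S θ with hG
  have hG0 : ∀ v, 0 < (G v v).re := fun v => lt_of_lt_of_le (by positivity) (hv v).1
  have hhs0 : 0 ≤ hs2 G := Finset.sum_nonneg fun i _ => Finset.sum_nonneg fun j _ => sq_nonneg _
  have hstar := fun v => star' hO.sgn hθpos hsym hinv (hG0 v) (by linarith : (0:ℝ) ≤ K) (hconc v)
  have hlam : lamMax S ≤ 20001 / 10000 * n := by
    have h1 := hO.top
    have h2 := hp.δ1
    have h3 : (2 + δ) * n ≤ (2 + 1 / 10 ^ 4) * n := mul_le_mul_of_nonneg_right (by linarith) hn.le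
    have h4 : (2 + 1 / 10 ^ 4 : ℝ) * n = 20001 / 10000 * n := by ring
    linarith
  have hθle : θ ≤ 20001 / 10000 * n := by
    have : 0 < 100 * P / n := by positivity
    linarith
  have hyp : P / n = (1000 * K) ^ 2 / n := by
    rw [hPeq]; congr 1; ring
  have hyinv : 1 / (P / n) = n / P := by field_simp
  have hself : ∀ v, |1 / (G v v).re - (θ - G.trace.re)| ≤ 1 / 500 * n := by
    intro v
    have h1 : √(hs2 G) ^ 2 ≤ (G.trace.re + 2 / (P / n)) / (P / n) := by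
      rw [Real.sq_sqrt hhs0]
      have h2 : (G.trace.re + 2 / (P / n)) / (P / n) = (G.trace.re + 2 * (n / P)) * (n / P) := by
        rw [div_eq_mul_one_div _ (P / n), hyinv, div_eq_mul_one_div 2 (P / n), hyinv]
      have h3 : (G.trace.re + 1 / 50 * n / P) * n / P = (G.trace.re + 1 / 50 * (n / P)) * (n / P) := by
        ring
      rw [h2]
      rw [h3] at hhs
      have h4 : 0 < n / P := by positivity
      have h5 : (G.trace.re + 1 / 50 * (n / P)) * (n / P) ≤ (G.trace.re + 2 * (n / P)) * (n / P) :=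
        mul_le_mul_of_nonneg_right (by linarith) h4.le
      linarith
    have h2 : colsq G v ≤ 6 / 5 / (P / n) * (G v v).re := by
      have h3 := (hv v).2
      rw [div_le_iff₀ (hG0 v)] at h3
      have h4 : 6 / 5 / (P / n) * (G v v).re = 6 / 5 * n / P * (G v v).re := by
        rw [div_eq_mul_one_div (6/5) (P / n), hyinv]; ring
      rw [h4]; exact h3
    have h3 := (self_bound (n := n) (p := 1000 * K) (K := K) (y := P / n) (t := θ) (s := G.trace.re)
      (h := √(hs2 G)) (g := (G v v).re) (d := colsq G v) hn hK (by linarith) hyp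
      (by linarith) (by linarith) (Real.sqrt_nonneg _) h1 (hG0 v) h2 (hstar v)).2
    have h4 : 2 * K / (1000 * K) * n = 1 / 500 * n := by
      have : K ≠ 0 := by linarith
      field_simp
      norm_num
    rw [h4] at h3
    exact h3
  have htr : G.trace.re = ∑ u, (G u u).re := trace_re G
  have hQ := lemQ hn hp.sq (g := fun v => (G v v).re) hG0 (θ := θ) (ε := 1 / 500) (κ := 1 / 400)
    (by norm_num) (by norm_num) (by norm_num)
    (by
      have : (2 + 1 / 400 - 1 / 500 : ℝ) * n = 20005 / 10000 * n := by ring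
      rw [this]
      linarith)
    (by rw [htr] at hself; exact hself)
  obtain ⟨-, -, -, hQ4, -⟩ := hQ
  have htr2 : G.trace.re ≤ 11 / 10 * n := by rw [htr]; exact hQ4
  refine ⟨htr2, fun v => ?_⟩
  have h1 : √(hs2 G) ≤ 11 / 10 * (n / (1000 * K)) := by
    have hK0 : 0 < K := by linarith
    have h2 : hs2 G ≤ (11 / 10 * (n / (1000 * K))) ^ 2 := by
      refine hhs.trans ?_
      have h3 : (11 / 10 * (n / (1000 * K))) ^ 2 = 121 / 100 * n * (n / P) := by
        rw [hPeq]; field_simp; norm_num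
      have h4 : (G.trace.re + 1 / 50 * n / P) * n / P = (G.trace.re + 1 / 50 * (n / P)) * (n / P) := by
        ring
      rw [h3, h4]
      have h5 : 0 < n / P := by positivity
      have h6 : n / P ≤ n := by
        rw [div_le_iff₀ hP0]
        have : 1 ≤ P := by linarith
        exact le_mul_of_one_le_right hn.le this
      exact mul_le_mul_of_nonneg_right (by linarith) h5.le
    calc √(hs2 G) ≤ √((11 / 10 * (n / (1000 * K))) ^ 2) := Real.sqrt_le_sqrt h2
      _ = 11 / 10 * (n / (1000 * K)) := Real.sqrt_sq (by positivity)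
  have h2 : K * √(hs2 G) ≤ 11 / 10000 * n := by
    have h3 := mul_le_mul_of_nonneg_left h1 (by linarith : (0:ℝ) ≤ K)
    have h4 : K * (11 / 10 * (n / (1000 * K))) = 11 / 10000 * n := by
      have : K ≠ 0 := by linarith
      field_simp
      norm_num
    rw [h4] at h3
    exact h3
  have h3 : (K + 1) * (colsq G v / (G v v).re) ≤ 1 / 1000 * n := by
    have h4 : (K + 1) * (colsq G v / (G v v).re) ≤ (2 * K) * (6 / 5 * n / P) := by
      refine mul_le_mul (by linarith) (hv v).2 ?_ (by linarith)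
      exact div_nonneg (Finset.sum_nonneg fun i _ => sq_nonneg _) (hG0 v).le
    have h5 : (2 * K) * (6 / 5 * n / P) = 12 / 5 * (K / P) * n := by ring
    have h6 : K / P ≤ 1 / 10 ^ 6 := by
      rw [div_le_div_iff₀ hP0 (by norm_num)]
      linarith
    rw [h5] at h4
    refine h4.trans ?_
    exact mul_le_mul_of_nonneg_right (by linarith) hn.le
  have h4 : K / θ ≤ 1 / 1000 * n := by
    rw [div_le_iff₀ hθpos]
    have h5 : 1 / 1000 * n * n ≤ 1 / 1000 * n * θ :=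
      mul_le_mul_of_nonneg_left hθ0 (by positivity)
    have h6 : K ≤ 1 / 1000 * n * n := by
      have h7 : 1 / 1000 * n * 1 ≤ 1 / 1000 * n * n := mul_le_mul_of_nonneg_left hn1 (by positivity)
      linarith
    linarith
  linarith

/-- LEMMA E. Proof. `θ = k P / n` in the grid, `lam - g + y ≤ θ ≤ lam - g + 2y`. `T' ≤ 1.11 n < 1.9 n ≤ θ` by
`star'` and `below_trace`, so by `complete_square` `qf (θ - S') z ≥ 0` whenever
`(z - z_v e_v - z_v M x') · ψ = 0`. If `φ ⊥ ψ'` and `qf S' φ > θ |φ|^2`: some nonzero `z = a φ + b ψ'`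
satisfies this, but `qf (θ - S') z = a^2 qf (θ - S') φ + b^2 (θ - lam') < 0`
(`lam' ≥ lam - 10 P/n > θ`). So the gap of `S'` is at least `lam' - θ ≥ g - 12 P/n`. -/
theorem lemE [Nonempty V] {S S' : Matrix V V ℂ} {n K P δ : ℝ} (hp : Par V n K P δ)
    (hO : OO S n K P δ) (hO' : OO S' n K P δ) {v : V} (hm : minor S' v = minor S v)
    {ψ ψ' : V → ℂ} {g : ℝ} (hg : 102 * P / n ≤ g) (hgn : g ≤ n / 20) (h : TP S (lamMax S) ψ g)
    (h' : TP S' (lamMax S') ψ' 0) :
    TP S' (lamMax S') ψ' (g - 12 * P / n) := by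
  have hn := hp.n0
  have hK := hp.K1
  have hPeq := hp.P_eq
  have hP0 : 0 < P := by rw [hPeq]; positivity
  have hPn := hp.Pn
  have hy : 0 < P / n := by positivity
  have hlam0 := lamMax_ge hp hO
  have hlam : lamMax S ≤ 20001 / 10000 * n := by
    have h1 := hO.top
    have h2 := hp.δ1
    have h3 : (2 + δ) * n ≤ (2 + 1 / 10 ^ 4) * n := mul_le_mul_of_nonneg_right (by linarith) hn.le
    have h4 : (2 + 1 / 10 ^ 4 : ℝ) * n = 20001 / 10000 * n := by ring
    linarith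
  have hyn : P / n ≤ 1 / 10 * n := by
    have hK2 : K ≤ K ^ 2 := by
      rw [sq]; exact le_mul_of_one_le_left (by linarith) hK
    have hKP : 10 ^ 6 * K ≤ P := by rw [hPeq]; linarith
    have hn1 : 10 ≤ n := by linarith
    rw [div_le_iff₀ hn]
    nlinarith
  have h102 : 102 * P / n = 102 * (P / n) := by ring
  have h100 : 100 * P / n = 100 * (P / n) := by ring
  have h10 : 10 * P / n = 10 * (P / n) := by ring
  have h12 : 12 * P / n = 12 * (P / n) := by ring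
  rw [h102] at hg
  obtain ⟨k, hk, hθ1, hθ3⟩ := exists_grid (V := V) hp (t := lamMax S - g + P / n) (P₁ := P)
    (by linarith) (by linarith) le_rfl
  have hθ2 : (k : ℝ) * (P / n) + 100 * P / n ≤ lamMax S := by
    rw [h100]; linarith
  have hθ0 : n ≤ (k : ℝ) * (P / n) := by linarith
  have hconc := hO'.conc v k hk
  obtain ⟨htr, herr⟩ := below_trace hp hO h hk hθ0 hθ1 hθ2
  set θ : ℝ := k * (P / n) with hθ
  have hθpos : 0 < θ := lt_of_lt_of_le hn hθ0
  obtain ⟨hv, -⟩ := below hp hO h hθpos hθ1 hθ2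
  have hne : θ ≠ lamMax S := by
    intro hcon
    have : 0 < 100 * P / n := by positivity
    linarith
  obtain ⟨hinv, -, hsym, -, -, -⟩ := rsv_main hO.sgn.symm h hne hy hθ1
  set G := rsv S θ with hG
  have hG0 : 0 < (G v v).re := lt_of_lt_of_le (by positivity) (hv v).1
  have hT : qf (Mv G v) (row S' v) ≤ 111 / 100 * n := by
    have h1 := star'' hO.sgn hO'.sgn hm hθpos hsym hinv hG0 (by linarith : (0:ℝ) ≤ K) hconc
    have h2 := herr v
    linarith
  have hdiff : lamMax S - lamMax S' ≤ 10 * (P / n) := by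
    have := lamMax_sub_le hp hO' hO hm.symm
    rw [h10] at this
    exact this
  have hGne : G v v ≠ 0 := by
    intro h0
    rw [h0] at hG0
    exact lt_irrefl _ hG0
  have hsq := fun z => complete_square (θ := θ) hO.sgn hO'.sgn hm hsym hinv hGne z
  -- positivity on the hyperplane
  set F : (V → ℂ) → ℂ := fun z =>
    star ψ ⬝ᵥ (z - z v • Pi.single v 1 - z v • (Mv G v *ᵥ row S' v)) with hF
  have hFlin : ∀ (a b : ℂ) (φ χ : V → ℂ), F (a • φ + b • χ) = a * F φ + b * F χ := by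
    intro a b φ χ
    simp only [hF, dotProduct_sub, dotProduct_add, dotProduct_smul, Pi.add_apply, Pi.smul_apply,
      smul_eq_mul]
    ring
  have hpos : ∀ z : V → ℂ, F z = 0 → 0 ≤ qf (shift S' θ) z := by
    intro z hz
    rw [hsq z]
    have h1 : 0 ≤ (θ - qf (Mv G v) (row S' v)) * ‖z v‖ ^ 2 :=
      mul_nonneg (by linarith) (sq_nonneg _)
    have h2 : 0 ≤ qf (shift S θ) (z - z v • Pi.single v 1 - z v • (Mv G v *ᵥ row S' v)) := by
      rw [qf_shift]
      have h3 := h.gap _ hz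
      have h4 := nsq_nonneg (z - z v • Pi.single v 1 - z v • (Mv G v *ᵥ row S' v))
      have h5 : (lamMax S - g) * nsq (z - z v • Pi.single v 1 - z v • (Mv G v *ᵥ row S' v))
          ≤ θ * nsq (z - z v • Pi.single v 1 - z v • (Mv G v *ᵥ row S' v)) :=
        mul_le_mul_of_nonneg_right (by linarith) h4
      linarith
    linarith
  have hψ'S : shift S' θ *ᵥ ψ' = ((θ - lamMax S' : ℝ) : ℂ) • ψ' := by
    rw [mulVec_shift, h'.eig, ← sub_smul, ← Complex.ofReal_sub]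
  have hθlt : θ < lamMax S' := by linarith
  have hqψ' : qf (shift S' θ) ψ' = θ - lamMax S' := by
    rw [qf_shift, h'.qf_psi, h'.unit, mul_one]
  have hFψ' : F ψ' ≠ 0 := by
    intro h0
    have := hpos ψ' h0
    rw [hqψ'] at this
    linarith
  refine ⟨h'.eig, h'.unit, fun φ hφ => ?_⟩
  by_contra hcon
  push Not at hcon
  have hφφ := nsq_nonneg φ
  have hneg : qf (shift S' θ) φ < 0 := by
    rw [qf_shift]
    have h1 : θ ≤ lamMax S' - (g - 12 * P / n) := by
      rw [h12]; linarith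
    have h2 : θ * nsq φ ≤ (lamMax S' - (g - 12 * P / n)) * nsq φ :=
      mul_le_mul_of_nonneg_right h1 hφφ
    linarith
  have hz0 : F (F ψ' • φ + (-F φ) • ψ') = 0 := by
    rw [hFlin]; ring
  have hz := hpos _ hz0
  have hφ2 : star φ ⬝ᵥ ψ' = 0 := by
    rw [dot_star, hφ, star_zero]
  rw [qf_comb (sym_shift hO'.sgn.symm θ), hψ'S, dotProduct_smul, hφ2, smul_zero, mul_zero,
    Complex.zero_re, mul_zero, add_zero, hqψ'] at hz
  have h1 : ‖F ψ'‖ ^ 2 * qf (shift S' θ) φ < 0 :=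
    mul_neg_of_pos_of_neg (by have := norm_pos_iff.2 hFψ'; positivity) hneg
  have h2 : ‖-F φ‖ ^ 2 * (θ - lamMax S') ≤ 0 :=
    mul_nonpos_of_nonneg_of_nonpos (sq_nonneg _) (by linarith)
  linarith

end Pool.Agent.MP_9cec2c_lc.Flat.Herm
end

section

/-!
# FN5: Lemma F, deterministic part, Hermitian case
-/

set_option autoImplicit false
set_option linter.unusedSectionVars false
set_option linter.unusedVariables false

open Matrix Finset

namespace Pool.Agent.MP_9cec2c_lc.Flat.Herm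

variable {V : Type} [Fintype V] [DecidableEq V]

/-- The coefficient of the change `Δ = flip S u w - S` in the entry `(u,w)`. -/
noncomputable def kap (S : Matrix V V ℂ) (u w : V) : ℂ := (Complex.I - 1) * S u w

/-- The increment of second order of the top eigenvalue (`ψ^* Δ ψ = 2 Re (κ conj(ψ_u) ψ_w)`). -/
noncomputable def Rinc (S : Matrix V V ℂ) (ψ : V → ℂ) (u w : V) : ℝ :=
  lamMax (flip S u w) - lamMax S - 2 * (kap S u w * (star (ψ u) * ψ w)).re

/-- The regularized resolvent on `ψ^⊥`: `H = G(lam + 2P/n) - (n/(2P)) ψψ^*`. -/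
noncomputable def Hreg (S : Matrix V V ℂ) (ψ : V → ℂ) (y : ℝ) : Matrix V V ℂ :=
  rsv S (lamMax S + 2 * y) - (((2 * y)⁻¹ : ℝ) : ℂ) • rk1 ψ

/-- The vector `Δψ`, `Δ = flip S u w - S`. -/
noncomputable def dvec (S : Matrix V V ℂ) (ψ : V → ℂ) (u w : V) : V → ℂ :=
  (kap S u w * ψ w) • Pi.single u 1 + (star (kap S u w) * ψ u) • Pi.single w 1

/-! ### algebra of a flip -/

theorem star_kap {S : Matrix V V ℂ} (hS : Sym S) (u w : V) :
    star (kap S u w) = (-Complex.I - 1) * S w u := by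
  unfold kap
  rw [StarMul.star_mul, sym_iff.1 hS u w, star_sub, star_one, Complex.star_def, Complex.conj_I]
  ring

theorem norm_kap_sq {S : Matrix V V ℂ} {u w : V} (h : ‖S u w‖ = 1) : ‖kap S u w‖ ^ 2 = 2 := by
  unfold kap
  rw [norm_mul, h, mul_one, ← Complex.normSq_eq_norm_sq, Complex.normSq_apply]
  simp
  norm_num

theorem norm_kap_le {S : Matrix V V ℂ} {u w : V} (h : ‖S u w‖ = 1) : ‖kap S u w‖ ≤ 2 := by
  have h1 := norm_kap_sq h
  nlinarith [norm_nonneg (kap S u w)]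

theorem flip_mulVec {S : Matrix V V ℂ} (hS : Sym S) {u w : V} (huw : u ≠ w) (φ : V → ℂ) :
    flip S u w *ᵥ φ = S *ᵥ φ + dvec S φ u w := by
  funext i
  have hk := star_kap hS u w
  have h1 : ∀ j, flip S u w i j * φ j = S i j * φ j +
      ((if i = u then (if j = w then kap S u w * φ w else 0) else 0) +
       (if i = w then (if j = u then star (kap S u w) * φ u else 0) else 0)) := by
    intro j
    rw [hk]
    unfold flip kap
    by_cases hiu : i = u
    · subst hiu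
      by_cases hjw : j = w
      · subst hjw
        simp [huw]
        ring
      · simp [hjw, huw]
    · by_cases hiw : i = w
      · subst hiw
        by_cases hju : j = u
        · subst hju
          simp [huw, Ne.symm huw]
          ring
        · simp [hju, Ne.symm huw]
      · simp [hiu, hiw]
  simp only [mulVec, dotProduct, Pi.add_apply]
  rw [sum_congr rfl fun j _ => h1 j, sum_add_distrib, sum_add_distrib]
  congr 1
  unfold dvec
  simp only [Pi.add_apply, Pi.smul_apply, smul_eq_mul, Pi.single_apply]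
  congr 1
  · by_cases hiu : i = u
    · simp [hiu]
    · simp [hiu]
  · by_cases hiw : i = w
    · simp [hiw]
    · simp [hiw]

theorem dot_dvec (S : Matrix V V ℂ) (φ χ : V → ℂ) (u w : V) :
    star χ ⬝ᵥ dvec S φ u w = kap S u w * φ w * star (χ u) + star (kap S u w) * φ u * star (χ w) := by
  unfold dvec
  rw [dotProduct_add, dotProduct_smul, dotProduct_smul, dotProduct_single, dotProduct_single]
  simp only [smul_eq_mul, Pi.star_apply, mul_one]

theorem re_star_mul_comm (a b c : ℂ) : (star a * b * star c).re = (a * star b * c).re := by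
  have h : star a * b * star c = star (a * star b * c) := by
    rw [StarMul.star_mul, StarMul.star_mul, star_star]
    ring
  rw [h, Complex.star_def, Complex.conj_re]

theorem re_dot_dvec (S : Matrix V V ℂ) (φ χ : V → ℂ) (u w : V) :
    (star χ ⬝ᵥ dvec S φ u w).re = (kap S u w * (star (χ u) * φ w)).re +
      (kap S u w * (star (φ u) * χ w)).re := by
  rw [dot_dvec, Complex.add_re, re_star_mul_comm]
  congr 2 <;> ring

theorem qf_flip {S : Matrix V V ℂ} (hS : Sym S) {u w : V} (huw : u ≠ w) (φ : V → ℂ) :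
    qf (flip S u w) φ = qf S φ + 2 * (kap S u w * (star (φ u) * φ w)).re := by
  unfold qf
  rw [flip_mulVec hS huw, dotProduct_add, Complex.add_re, re_dot_dvec]
  ring

theorem mulVec_dvec (M : Matrix V V ℂ) (S : Matrix V V ℂ) (φ : V → ℂ) (u w a : V) :
    (M *ᵥ dvec S φ u w) a = kap S u w * φ w * M a u + star (kap S u w) * φ u * M a w := by
  unfold dvec
  rw [mulVec_add, mulVec_smul, mulVec_smul, mulVec_single', mulVec_single']
  simp only [Pi.add_apply, Pi.smul_apply, smul_eq_mul]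

/-- The cross term of the form. -/
noncomputable def crossT (S M : Matrix V V ℂ) (φ : V → ℂ) (u w : V) : ℂ :=
  star (S u w) ^ 2 * (star (φ w) * φ u) * M u w

theorem dot_single_mulVec (M : Matrix V V ℂ) (u w : V) :
    star (Pi.single u (1 : ℂ)) ⬝ᵥ (M *ᵥ (Pi.single w (1 : ℂ))) = M u w := by
  rw [mulVec_single']
  have h : star (Pi.single u (1 : ℂ) : V → ℂ) = Pi.single u 1 := by
    funext i
    rw [Pi.star_apply]
    by_cases hi : i = u
    · subst hi
      simp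
    · simp [hi]
  rw [h]
  simp

theorem qf_dvec {M : Matrix V V ℂ} (hM : Sym M) (S : Matrix V V ℂ) (φ : V → ℂ) {u w : V}
    (hs : ‖S u w‖ = 1) : qf M (dvec S φ u w) =
      2 * (‖φ w‖ ^ 2 * (M u u).re + ‖φ u‖ ^ 2 * (M w w).re) +
        2 * (2 * Complex.I * crossT S M φ u w).re := by
  unfold dvec
  rw [qf_comb hM, qf_single, qf_single, dot_single_mulVec, norm_mul, norm_mul, norm_star, mul_pow,
    mul_pow, norm_kap_sq hs]
  have h1 : star (kap S u w * φ w) * (star (kap S u w) * φ u) * M u w =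
      2 * Complex.I * crossT S M φ u w := by
    unfold crossT kap
    simp only [StarMul.star_mul, star_sub, star_one, Complex.star_def, Complex.conj_I]
    have hI : (-Complex.I - 1) ^ 2 = 2 * Complex.I := by
      have := Complex.I_sq
      linear_combination this
    linear_combination ((starRingEnd ℂ) (S u w) ^ 2 * ((starRingEnd ℂ) (φ w) * φ u) * M u w) * hI
  rw [h1]
  ring

theorem crossT_swap {S M : Matrix V V ℂ} (hS : Sym S) (hM : Sym M) (φ : V → ℂ) (u w : V) :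
    crossT S M φ w u = star (crossT S M φ u w) := by
  unfold crossT
  rw [StarMul.star_mul, StarMul.star_mul, StarMul.star_mul, star_pow, star_star, star_star,
    ← sym_iff.1 hS u w, sym_iff.1 hM u w, star_star]
  ring

theorem re_cross (z : ℂ) : (2 * Complex.I * z).re + (2 * Complex.I * star z).re = 0 := by
  rw [Complex.star_def]
  simp [Complex.mul_re, Complex.mul_im]

theorem sum_erase_eq (f : V → V → ℝ) :
    ∑ u, ∑ w ∈ univ.erase u, f u w = (∑ u, ∑ w, f u w) - ∑ u, f u u := by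
  rw [← sum_sub_distrib]
  apply sum_congr rfl
  intro u _
  rw [← add_sum_erase univ (f u) (mem_univ u)]
  ring

/-- `FF S` is twice the sum of the increments (`∑_{u≠w} S_uw conj(ψ_u) ψ_w = lamMax S`). -/
theorem FF_eq [Nonempty V] {S : Matrix V V ℂ} (hS : IsSign S) {ψ : V → ℂ} (h : TP S (lamMax S) ψ 0) :
    FF S = 2 * ∑ u, ∑ w ∈ univ.erase u, Rinc S ψ u w := by
  have h1 : ∑ u, ∑ w ∈ univ.erase u, 2 * (kap S u w * (star (ψ u) * ψ w)).re = -2 * lamMax S := by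
    rw [sum_erase_eq]
    have h2 : ∑ u, 2 * (kap S u u * (star (ψ u) * ψ u)).re = 0 := by
      apply sum_eq_zero
      intro u _
      unfold kap
      rw [hS.diag]
      simp
    have h3 : ∑ u, ∑ w, kap S u w * (star (ψ u) * ψ w) = (Complex.I - 1) * (lamMax S : ℂ) := by
      rw [← h.qf_psi, ← dot_mulVec_self hS.symm, dotProduct, mul_sum]
      apply sum_congr rfl
      intro u _
      rw [mulVec, dotProduct, mul_sum, mul_sum]
      apply sum_congr rfl
      intro w _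
      unfold kap
      rw [Pi.star_apply]
      ring
    have h4 : ∑ u, ∑ w, 2 * (kap S u w * (star (ψ u) * ψ w)).re =
        2 * (∑ u, ∑ w, kap S u w * (star (ψ u) * ψ w)).re := by
      rw [Complex.re_sum, mul_sum]
      apply sum_congr rfl
      intro u _
      rw [Complex.re_sum, mul_sum]
    rw [h2, sub_zero, h4, h3]
    simp
  have h5 : ∑ u, ∑ w ∈ univ.erase u, Rinc S ψ u w =
      (∑ u, ∑ w ∈ univ.erase u, (lamMax (flip S u w) - lamMax S)) -
      ∑ u, ∑ w ∈ univ.erase u, 2 * (kap S u w * (star (ψ u) * ψ w)).re := by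
    rw [← sum_sub_distrib]
    apply sum_congr rfl
    intro u _
    rw [← sum_sub_distrib]
    rfl
  rw [h5, h1]
  unfold FF
  ring

/-- The increments are nonnegative (`ψ` as test vector for the changed matrix). -/
theorem Rinc_nonneg [Nonempty V] {S : Matrix V V ℂ} (hS : IsSign S) {ψ : V → ℂ}
    (h : TP S (lamMax S) ψ 0) {u w : V} (huw : u ≠ w) : 0 ≤ Rinc S ψ u w := by
  have h1 := qf_le_lamMax (flip S u w) ψ
  rw [qf_flip hS.symm huw, h.unit, h.qf_psi, mul_one] at h1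
  unfold Rinc
  linarith

theorem FF_nonneg [Nonempty V] {S : Matrix V V ℂ} (hS : IsSign S) : 0 ≤ FF S := by
  obtain ⟨ψ, h⟩ := exists_top hS.symm
  rw [FF_eq hS h]
  apply mul_nonneg (by norm_num)
  apply sum_nonneg
  intro u _
  apply sum_nonneg
  intro w hw
  exact Rinc_nonneg hS h (ne_of_mem_erase hw).symm

/-! ### the regularized resolvent -/

theorem Hreg_facts [Nonempty V] {S : Matrix V V ℂ} (hS : Sym S) {ψ : V → ℂ} {y : ℝ} (hy : 0 < y)
    (h : TP S (lamMax S) ψ 0) :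
    Hreg S ψ y *ᵥ ψ = 0 ∧ PosBy (2 * y) (Hreg S ψ y) ∧
      ∀ φ, qf S (Hreg S ψ y *ᵥ φ) =
        (lamMax S + 2 * y) * nsq (Hreg S ψ y *ᵥ φ) - qf (Hreg S ψ y) φ := by
  obtain ⟨-, -, -, h4, h5, h6⟩ := rsv_main' hS h (θ := lamMax S + 2 * y) (y := 2 * y) (by linarith)
    (by linarith) (by linarith)
  have e1 : lamMax S + 2 * y - lamMax S = 2 * y := by ring
  rw [e1] at h4 h5 h6
  refine ⟨h5, h6, fun φ => ?_⟩
  obtain ⟨H, hH⟩ : ∃ H, H = Hreg S ψ y := ⟨_, rfl⟩
  have hH' : rsv S (lamMax S + 2 * y) - (((2 * y)⁻¹ : ℝ) : ℂ) • rk1 ψ = H := hH.symm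
  rw [hH'] at h4 h5 h6
  rw [← hH]
  have h7 : star (H *ᵥ φ) ⬝ᵥ ψ = 0 := by
    rw [← dot_mulVec_comm h6.symm, h5, dotProduct_zero]
  have h8 := qf_shift S (lamMax S + 2 * y) (H *ᵥ φ)
  have h9 : qf (shift S (lamMax S + 2 * y)) (H *ᵥ φ) = qf H φ := by
    have h10 : (1 - rk1 ψ) *ᵥ φ = φ - (star ψ ⬝ᵥ φ) • ψ := by
      rw [sub_mulVec, one_mulVec, mulVec_rk1]
    unfold qf
    rw [mulVec_mulVec, h4, h10, dotProduct_sub, dotProduct_smul, h7,
      smul_zero, sub_zero, dot_mulVec_comm h6.symm]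
  rw [h9] at h8
  linarith

theorem trace_rk1 (ψ : V → ℂ) : (rk1 ψ).trace.re = nsq ψ := by
  rw [trace_re]
  unfold nsq rk1
  apply sum_congr rfl
  intro v _
  rw [norm_sq_star, mul_comm]

theorem Hreg_trace (S : Matrix V V ℂ) {ψ : V → ℂ} (hψ : nsq ψ = 1) (y : ℝ) :
    (Hreg S ψ y).trace.re = (rsv S (lamMax S + 2 * y)).trace.re - 1 / (2 * y) := by
  unfold Hreg
  rw [trace_sub, trace_smul, Complex.sub_re, smul_eq_mul, Complex.re_ofReal_mul, trace_rk1, hψ,
    mul_one, one_div]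

theorem Hreg_entries [Nonempty V] {S : Matrix V V ℂ} {n K P δ : ℝ} (hp : Par V n K P δ)
    (hO : OO S n K P δ) {ψ : V → ℂ} (h : TP S (lamMax S) ψ 0) (a b : V) :
    ‖Hreg S ψ (P / n) a b‖ ≤ 6 / 5 / n ∧ 0 ≤ (Hreg S ψ (P / n) a a).re := by
  have hn := hp.n0
  have hP := hp.P_ge
  have hy : 0 < P / n := div_pos (by linarith) hn
  obtain ⟨-, hpos, -⟩ := Hreg_facts hO.sgn.symm hy h
  have hd : ∀ u, (Hreg S ψ (P / n) u u).re ≤ 6 / 5 / n := by
    intro u
    have h1 := (diag_le hp hO (θ := lamMax S + 2 * (P / n)) (by rw [mul_div_assoc]) u).2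
    have h2 : (Hreg S ψ (P / n) u u).re =
        (rsv S (lamMax S + 2 * (P / n)) u u).re - (2 * (P / n))⁻¹ * ‖ψ u‖ ^ 2 := by
      have h3 : Hreg S ψ (P / n) u u =
        rsv S (lamMax S + 2 * (P / n)) u u - (((2 * (P / n))⁻¹ : ℝ) : ℂ) * (ψ u * star (ψ u)) := rfl
      rw [h3, Complex.sub_re, Complex.re_ofReal_mul, norm_sq_star, mul_comm (ψ u)]
    have h3 : 0 ≤ (2 * (P / n))⁻¹ * ‖ψ u‖ ^ 2 := by positivity
    linarith
  have h0 : ∀ u, 0 ≤ (Hreg S ψ (P / n) u u).re := fun u => hpos.diag_nonneg (by positivity) u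
  refine ⟨?_, h0 a⟩
  have h1 := cauchy_form hpos.symm (fun φ => hpos.nonneg (by positivity) φ)
    (Pi.single a 1) (Pi.single b 1)
  rw [dot_single_mulVec, qf_single, qf_single] at h1
  refine (sq_le_sq₀ (norm_nonneg _) (by positivity)).1 ?_
  refine h1.trans ?_
  rw [sq]
  exact mul_le_mul (hd a) (hd b) (h0 b) (by positivity)

theorem div_bound' {m b x R : ℝ} (hm : 0 ≤ m) (hb : 0 ≤ b) (hx : 0 ≤ x)
    (h : m - b ≤ R * (1 + x)) : m - b - m * x ≤ R := by
  by_contra hcon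
  push Not at hcon
  have e3 : R * (1 + x) < (m - b - m * x) * (1 + x) :=
    mul_lt_mul_of_pos_right hcon (by linarith)
  have e4 : (m - b - m * x) * (1 + x) = (m - b) - b * x - m * x * x := by ring
  have e5 := mul_nonneg hb hx
  have e6 := mul_nonneg (mul_nonneg hm hx) hx
  linarith

theorem two_mul_le_sq (a b : ℝ) : 2 * (a * b) ≤ a ^ 2 + b ^ 2 := by nlinarith [sq_nonneg (a - b)]

/-- (F2), one ordered pair, with a better constant (see `FM5` and `FHF.one_flip2`); `|κ|^2 = 2`, so all constants of the real case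
suffice. -/
theorem Rinc_lower' [Nonempty V] {S : Matrix V V ℂ} {n K P δ : ℝ} (hp : Par V n K P δ)
    (hO : OO S n K P δ) {ψ : V → ℂ} (h : TP S (lamMax S) ψ 0) {u w : V} (huw : u ≠ w) :
    qf (Hreg S ψ (P / n)) (dvec S ψ u w) - 47 / n ^ 2 * (‖ψ u‖ ^ 2 + ‖ψ w‖ ^ 2) -
      qf (Hreg S ψ (P / n)) (dvec S ψ u w) ^ 2 / (2 * P / n) ≤ Rinc S ψ u w ∧
    0 ≤ qf (Hreg S ψ (P / n)) (dvec S ψ u w) ∧
    qf (Hreg S ψ (P / n)) (dvec S ψ u w) ≤ 10 / n * (‖ψ u‖ ^ 2 + ‖ψ w‖ ^ 2) := by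
  have hn := hp.n0
  have hP := hp.P_ge
  have hn10 := hp.n_ge
  have hy : 0 < P / n := div_pos (by linarith) hn
  have hnrm := hO.sgn.nrm u w huw
  obtain ⟨hker, hpos, hform⟩ := Hreg_facts hO.sgn.symm hy h
  have hent := fun a b => (Hreg_entries hp hO h a b).1
  obtain ⟨H, hH⟩ : ∃ H, H = Hreg S ψ (P / n) := ⟨_, rfl⟩
  rw [← hH] at hker hpos hform hent ⊢
  obtain ⟨y, hyd⟩ : ∃ y, y = P / n := ⟨_, rfl⟩
  rw [← hyd] at hy hpos hform
  have e2P : 2 * P / n = 2 * y := by rw [hyd]; ring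
  rw [e2P]
  obtain ⟨r, hr⟩ : ∃ r : ℝ, r = 6 / 5 / n := ⟨_, rfl⟩
  have hr0 : 0 < r := by rw [hr]; positivity
  rw [← hr] at hent
  obtain ⟨α, hα⟩ : ∃ α, α = ‖ψ u‖ ^ 2 + ‖ψ w‖ ^ 2 := ⟨_, rfl⟩
  have hα0 : 0 ≤ α := by rw [hα]; positivity
  obtain ⟨d, hd⟩ : ∃ d, d = dvec S ψ u w := ⟨_, rfl⟩
  obtain ⟨q, hq⟩ : ∃ q, q = qf H d := ⟨_, rfl⟩
  obtain ⟨c, hc⟩ : ∃ c, c = H *ᵥ d := ⟨_, rfl⟩
  obtain ⟨x, hx⟩ : ∃ x, x = nsq c := ⟨_, rfl⟩
  have hx0 : 0 ≤ x := by rw [hx]; exact nsq_nonneg c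
  have hq0 : 0 ≤ q := by rw [hq]; exact hpos.nonneg (by linarith) d
  have hnu := norm_nonneg (ψ u)
  have hnw := norm_nonneg (ψ w)
  have hαuw : 2 * (‖ψ u‖ * ‖ψ w‖) ≤ α := by rw [hα]; exact two_mul_le_sq _ _
  have hre : ∀ a, (H a a).re ≤ r := fun a =>
    ((le_abs_self _).trans (Complex.abs_re_le_norm _)).trans (hent a a)
  have hqle : q ≤ 8 * r * α := by
    rw [hq, hd, qf_dvec hpos.symm S ψ hnrm]
    have e1 : ‖ψ w‖ ^ 2 * (H u u).re ≤ ‖ψ w‖ ^ 2 * r :=
      mul_le_mul_of_nonneg_left (hre u) (sq_nonneg _)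
    have e2 : ‖ψ u‖ ^ 2 * (H w w).re ≤ ‖ψ u‖ ^ 2 * r :=
      mul_le_mul_of_nonneg_left (hre w) (sq_nonneg _)
    have e3 : (2 * Complex.I * crossT S H ψ u w).re ≤ α * r := by
      have f1 : ‖2 * Complex.I * crossT S H ψ u w‖ = 2 * (‖ψ u‖ * ‖ψ w‖) * ‖H u w‖ := by
        unfold crossT
        rw [norm_mul, norm_mul, norm_mul, norm_mul, norm_mul, norm_pow, norm_star, norm_star, hnrm,
          Complex.norm_I, Complex.norm_two]
        ring
      refine ((le_abs_self _).trans (Complex.abs_re_le_norm _)).trans ?_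
      rw [f1]
      exact mul_le_mul hαuw (hent u w) (norm_nonneg _) hα0
    have e4 : 0 ≤ (‖ψ u‖ ^ 2 + ‖ψ w‖ ^ 2) * r := by positivity
    rw [hα] at e3 ⊢
    linarith
  have hxq : 2 * y * x ≤ q := by
    rw [hx, hq, hc]
    exact hpos.le d
  have hψc : star ψ ⬝ᵥ c = 0 := by
    rw [hc, dot_mulVec_comm hpos.symm, hker, star_zero, zero_dotProduct]
  have hcd : (star c ⬝ᵥ d).re = q := by
    rw [hc, hq, ← dot_mulVec_comm hpos.symm]
    rfl
  have hSc : qf S c = (lamMax S + 2 * y) * x - q := by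
    rw [hc, hform d, hx, hq, hc]
  -- the self term of `c`
  have hkap := norm_kap_le hnrm
  have hca : ∀ a, ‖c a‖ ≤ 2 * r * (‖ψ u‖ + ‖ψ w‖) := by
    intro a
    rw [hc, hd, mulVec_dvec]
    refine (norm_add_le _ _).trans ?_
    rw [norm_mul, norm_mul, norm_mul, norm_mul, norm_star]
    have f1 : ‖kap S u w‖ * ‖ψ w‖ * ‖H a u‖ ≤ 2 * ‖ψ w‖ * r :=
      mul_le_mul (mul_le_mul_of_nonneg_right hkap hnw) (hent a u) (norm_nonneg _) (by positivity)
    have f2 : ‖kap S u w‖ * ‖ψ u‖ * ‖H a w‖ ≤ 2 * ‖ψ u‖ * r :=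
      mul_le_mul (mul_le_mul_of_nonneg_right hkap hnu) (hent a w) (norm_nonneg _) (by positivity)
    linarith
  have hself : |2 * (kap S u w * (star (c u) * c w)).re| ≤ 32 * r ^ 2 * α := by
    have e1 : |2 * (kap S u w * (star (c u) * c w)).re| ≤ 2 * (2 * (‖c u‖ * ‖c w‖)) := by
      rw [abs_mul, abs_two]
      apply mul_le_mul_of_nonneg_left _ (by norm_num)
      refine (Complex.abs_re_le_norm _).trans ?_
      rw [norm_mul, norm_mul, norm_star]
      exact mul_le_mul_of_nonneg_right hkap (by positivity)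
    have e3 : ‖c u‖ * ‖c w‖ ≤ (2 * r * (‖ψ u‖ + ‖ψ w‖)) * (2 * r * (‖ψ u‖ + ‖ψ w‖)) :=
      mul_le_mul (hca u) (hca w) (norm_nonneg _) (by positivity)
    have e4 : (‖ψ u‖ + ‖ψ w‖) ^ 2 ≤ 2 * α := by
      rw [hα]
      nlinarith [sq_nonneg (‖ψ u‖ - ‖ψ w‖)]
    have e5 : (2 * r * (‖ψ u‖ + ‖ψ w‖)) * (2 * r * (‖ψ u‖ + ‖ψ w‖)) =
        4 * r ^ 2 * (‖ψ u‖ + ‖ψ w‖) ^ 2 := by ring
    rw [e5] at e3
    have e6 := mul_le_mul_of_nonneg_left e4 (by positivity : 0 ≤ 4 * r ^ 2)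
    linarith
  -- the first order term
  obtain ⟨D, hD⟩ : ∃ D, D = 2 * (kap S u w * (star (ψ u) * ψ w)).re := ⟨_, rfl⟩
  have hDy : |D| ≤ 2 * y := by
    have e1 : |D| ≤ 2 * (2 * (‖ψ u‖ * ‖ψ w‖)) := by
      rw [hD, abs_mul, abs_two]
      apply mul_le_mul_of_nonneg_left _ (by norm_num)
      refine (Complex.abs_re_le_norm _).trans ?_
      rw [norm_mul, norm_mul, norm_star]
      exact mul_le_mul_of_nonneg_right hkap (by positivity)
    have e3 := lemC hp hO h u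
    have e4 := lemC hp hO h w
    have e5 : 4 * (12 / 5 * P / n ^ 2) ≤ 2 * y := by
      rw [hyd]
      have e6 : 4 * (12 / 5 * P / n ^ 2) = (48 / 5 / n) * (P / n) := by
        field_simp
        ring
      rw [e6]
      have e7 : 48 / 5 / n ≤ 2 := by
        rw [div_le_iff₀ hn]
        linarith
      exact mul_le_mul_of_nonneg_right e7 (by rw [← hyd]; exact hy.le)
    rw [hα] at hαuw
    linarith
  -- the test vector
  obtain ⟨L', hL'⟩ : ∃ L', L' = lamMax (flip S u w) := ⟨_, rfl⟩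
  obtain ⟨E, hE⟩ : ∃ E, E = 2 * (kap S u w * (star (c u) * c w)).re := ⟨_, rfl⟩
  rw [← hE] at hself
  have h1 := qf_le_lamMax (flip S u w) (ψ + c)
  rw [← hL'] at h1
  have h2 : qf (flip S u w) (ψ + c) =
      lamMax S + D + ((lamMax S + 2 * y) * x - q) + 2 * q + E := by
    have e0 : qf S (ψ + c) = lamMax S + qf S c := by
      rw [qf_add hO.sgn.symm, h.qf_psi, dot_mulVec_comm hO.sgn.symm, h.eig, star_smul,
        smul_dotProduct, hψc, smul_zero, Complex.zero_re]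
      ring
    have e1 : (star c ⬝ᵥ dvec S ψ u w).re = q := by rw [← hd]; exact hcd
    rw [re_dot_dvec] at e1
    rw [qf_flip hO.sgn.symm huw, e0, hSc, hD, hE]
    have e2 : kap S u w * (star ((ψ + c) u) * (ψ + c) w) =
        kap S u w * (star (ψ u) * ψ w) + kap S u w * (star (c u) * ψ w) +
        kap S u w * (star (ψ u) * c w) + kap S u w * (star (c u) * c w) := by
      rw [Pi.add_apply, Pi.add_apply, star_add]
      ring
    rw [e2, Complex.add_re, Complex.add_re, Complex.add_re]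
    linear_combination (2 : ℝ) * e1
  have h3 : nsq (ψ + c) = 1 + x := by
    rw [nsq_add, h.unit, hψc, hx, Complex.zero_re]
    ring
  rw [h2, h3] at h1
  have hR : Rinc S ψ u w = L' - lamMax S - D := by
    unfold Rinc
    rw [hL', hD]
  have e1 := abs_le.1 hself
  have e3 := abs_le.1 hDy
  rw [← hα, ← hd, ← hq, hR]
  have h4 : q - 32 * r ^ 2 * α ≤ (L' - lamMax S - D) * (1 + x) := by
    have e4 : D * x ≤ (2 * y) * x := mul_le_mul_of_nonneg_right e3.2 hx0
    nlinarith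
  have h5 := div_bound' hq0 (by positivity) hx0 h4
  have h6 : q * x ≤ q ^ 2 / (2 * y) := by
    rw [le_div_iff₀ (by linarith)]
    nlinarith
  have h7 : 32 * r ^ 2 ≤ 47 / n ^ 2 := by
    rw [hr, div_pow, le_div_iff₀ (by positivity), mul_div_assoc', div_mul_cancel₀ _ (by positivity)]
    norm_num
  have h8 := mul_le_mul_of_nonneg_right h7 hα0
  refine ⟨by linarith, hq0, hqle.trans ?_⟩
  apply mul_le_mul_of_nonneg_right _ hα0
  rw [hr, le_div_iff₀ hn]
  have : 8 * (6 / 5 / n) * n = 48 / 5 := by field_simp; norm_num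
  rw [this]
  norm_num

theorem Rinc_lower [Nonempty V] {S : Matrix V V ℂ} {n K P δ : ℝ} (hp : Par V n K P δ)
    (hO : OO S n K P δ) {ψ : V → ℂ} (h : TP S (lamMax S) ψ 0) {u w : V} (huw : u ≠ w) :
    qf (Hreg S ψ (P / n)) (dvec S ψ u w) - 50 / n ^ 2 * (‖ψ u‖ ^ 2 + ‖ψ w‖ ^ 2) -
      qf (Hreg S ψ (P / n)) (dvec S ψ u w) ^ 2 / (2 * P / n) ≤ Rinc S ψ u w ∧
    0 ≤ qf (Hreg S ψ (P / n)) (dvec S ψ u w) ∧
    qf (Hreg S ψ (P / n)) (dvec S ψ u w) ≤ 10 / n * (‖ψ u‖ ^ 2 + ‖ψ w‖ ^ 2) := by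
  obtain ⟨h1, h2, h3⟩ := Rinc_lower' hp hO h huw
  have hn := hp.n0
  refine ⟨?_, h2, h3⟩
  have e1 : 47 / n ^ 2 * (‖ψ u‖ ^ 2 + ‖ψ w‖ ^ 2) ≤ 50 / n ^ 2 * (‖ψ u‖ ^ 2 + ‖ψ w‖ ^ 2) := by
    apply mul_le_mul_of_nonneg_right _ (by positivity)
    exact div_le_div_of_nonneg_right (by norm_num) (by positivity)
  linarith

/-- EXACT: `2 ∑_{u≠w} qf H (Δψ) = 8 tr H - 8 ∑ |ψ_u|^2 H_uu`: the cross terms of `(u,w)` and `(w,u)`
cancel, `conj(I-1)^2 + conj(-I-1)^2 = 0` (see `FHF.mForm_two`). -/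
theorem sum_qf_dvec {S : Matrix V V ℂ} (hS : IsSign S) {ψ : V → ℂ} (hψ : nsq ψ = 1)
    {H : Matrix V V ℂ} (hH : Sym H) :
    2 * ∑ u, ∑ w ∈ univ.erase u, qf H (dvec S ψ u w) =
      8 * H.trace.re - 8 * ∑ u, ‖ψ u‖ ^ 2 * (H u u).re := by
  have hnorm : ∑ u, ‖ψ u‖ ^ 2 = 1 := hψ
  have h1 : ∑ u, ∑ w ∈ univ.erase u, qf H (dvec S ψ u w) =
      ∑ u, ∑ w ∈ univ.erase u, (2 * (‖ψ w‖ ^ 2 * (H u u).re + ‖ψ u‖ ^ 2 * (H w w).re) +
        2 * (2 * Complex.I * crossT S H ψ u w).re) := by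
    apply sum_congr rfl
    intro u _
    apply sum_congr rfl
    intro w hw
    exact qf_dvec hH S ψ (hS.nrm u w (ne_of_mem_erase hw).symm)
  rw [h1, sum_erase_eq]
  have hcross : ∑ u, ∑ w, (2 * Complex.I * crossT S H ψ u w).re = 0 := by
    have e1 : ∑ u, ∑ w, (2 * Complex.I * crossT S H ψ u w).re =
        ∑ u, ∑ w, (2 * Complex.I * crossT S H ψ w u).re := by
      rw [sum_comm]
    have e2 : ∑ u, ∑ w, (2 * Complex.I * crossT S H ψ u w).re +
        ∑ u, ∑ w, (2 * Complex.I * crossT S H ψ w u).re = 0 := by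
      rw [← sum_add_distrib]
      apply sum_eq_zero
      intro u _
      rw [← sum_add_distrib]
      apply sum_eq_zero
      intro w _
      rw [crossT_swap hS.symm hH ψ u w]
      exact re_cross _
    linarith
  have hdiag : ∑ u, (2 * Complex.I * crossT S H ψ u u).re = 0 := by
    apply sum_eq_zero
    intro u _
    unfold crossT
    rw [hS.diag]
    simp
  have f1 : ∑ u, ∑ w, ‖ψ w‖ ^ 2 * (H u u).re = H.trace.re := by
    rw [trace_re]
    apply sum_congr rfl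
    intro u _
    rw [← sum_mul, hnorm, one_mul]
  have f2 : ∑ u, ∑ w, ‖ψ u‖ ^ 2 * (H w w).re = H.trace.re := by
    rw [sum_comm]
    exact f1
  have f4 : ∑ u, ∑ w, (2 * (‖ψ w‖ ^ 2 * (H u u).re + ‖ψ u‖ ^ 2 * (H w w).re) +
        2 * (2 * Complex.I * crossT S H ψ u w).re) = 4 * H.trace.re := by
    have f5 : ∑ u, ∑ w, (2 * (‖ψ w‖ ^ 2 * (H u u).re + ‖ψ u‖ ^ 2 * (H w w).re) +
        2 * (2 * Complex.I * crossT S H ψ u w).re) =
        2 * (∑ u, ∑ w, ‖ψ w‖ ^ 2 * (H u u).re) + 2 * (∑ u, ∑ w, ‖ψ u‖ ^ 2 * (H w w).re) +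
          2 * ∑ u, ∑ w, (2 * Complex.I * crossT S H ψ u w).re := by
      rw [mul_sum, mul_sum, mul_sum, ← sum_add_distrib, ← sum_add_distrib]
      apply sum_congr rfl
      intro u _
      rw [mul_sum, mul_sum, mul_sum, ← sum_add_distrib, ← sum_add_distrib]
      exact sum_congr rfl fun w _ => by ring
    rw [f5, f1, f2, hcross]
    ring
  have f6 : ∑ u, (2 * (‖ψ u‖ ^ 2 * (H u u).re + ‖ψ u‖ ^ 2 * (H u u).re) +
        2 * (2 * Complex.I * crossT S H ψ u u).re) = 4 * ∑ u, ‖ψ u‖ ^ 2 * (H u u).re := by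
    rw [sum_add_distrib, ← mul_sum, ← mul_sum, hdiag, sum_add_distrib]
    ring
  rw [f4, f6]
  ring

/-- The sum: `FF S ≥ 8 tr H - 200`. -/
theorem FF_lower_trace [Nonempty V] {S : Matrix V V ℂ} {n K P δ : ℝ} (hp : Par V n K P δ)
    (hO : OO S n K P δ) {ψ : V → ℂ} (h : TP S (lamMax S) ψ 0) :
    8 * (Hreg S ψ (P / n)).trace.re - 200 ≤ FF S := by
  have hn := hp.n0
  have hP := hp.P_ge
  have hn10 := hp.n_ge
  have hy : 0 < P / n := div_pos (by linarith) hn
  have hnorm : ∑ u, ‖ψ u‖ ^ 2 = 1 := h.unit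
  obtain ⟨hker, hpos, -⟩ := Hreg_facts hO.sgn.symm hy h
  have hsum := sum_qf_dvec hO.sgn h.unit hpos.symm
  rw [FF_eq hO.sgn h]
  -- bound of the sum of `|ψ_u|^2 + |ψ_w|^2`
  have hcard : (Fintype.card V : ℝ) = n ^ 2 := hp.sq.symm
  have hA : ∑ u, ∑ w ∈ univ.erase u, (‖ψ u‖ ^ 2 + ‖ψ w‖ ^ 2) ≤ 2 * n ^ 2 := by
    rw [sum_erase_eq]
    have f1 : ∑ u : V, ∑ w : V, (‖ψ u‖ ^ 2 + ‖ψ w‖ ^ 2) = 2 * n ^ 2 := by
      simp only [sum_add_distrib, sum_const, card_univ, nsmul_eq_mul]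
      rw [← mul_sum, hnorm, hcard]
      ring
    have f2 : 0 ≤ ∑ u : V, (‖ψ u‖ ^ 2 + ‖ψ u‖ ^ 2) := sum_nonneg fun u _ => by positivity
    linarith
  have hstep : ∀ u, ∀ w ∈ univ.erase u,
      qf (Hreg S ψ (P / n)) (dvec S ψ u w) - 48 / n ^ 2 * (‖ψ u‖ ^ 2 + ‖ψ w‖ ^ 2) ≤ Rinc S ψ u w := by
    intro u w hw
    have huw := (ne_of_mem_erase hw).symm
    obtain ⟨h1, h2, h3⟩ := Rinc_lower' hp hO h huw
    have hc1 := lemC hp hO h u
    have hc2 := lemC hp hO h w
    have hα0 : 0 ≤ ‖ψ u‖ ^ 2 + ‖ψ w‖ ^ 2 := by positivity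
    obtain ⟨α, hα⟩ : ∃ α, α = ‖ψ u‖ ^ 2 + ‖ψ w‖ ^ 2 := ⟨_, rfl⟩
    rw [← hα] at h1 h3 hα0 ⊢
    have hα1 : α ≤ 24 / 5 * P / n ^ 2 := by
      rw [hα]
      have : 24 / 5 * P / n ^ 2 = 12 / 5 * P / n ^ 2 + 12 / 5 * P / n ^ 2 := by ring
      linarith
    obtain ⟨q, hq⟩ : ∃ q, q = qf (Hreg S ψ (P / n)) (dvec S ψ u w) := ⟨_, rfl⟩
    rw [← hq] at h1 h2 h3 ⊢
    have h4 : q ^ 2 / (2 * P / n) ≤ 1 / n ^ 2 * α := by
      have e1 : 0 < 2 * P / n := by positivity
      rw [div_le_iff₀ e1]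
      have e2 : q ^ 2 ≤ (10 / n * α) * (10 / n * (24 / 5 * P / n ^ 2)) := by
        rw [sq]
        apply mul_le_mul h3 _ h2 (by positivity)
        exact h3.trans (mul_le_mul_of_nonneg_left hα1 (by positivity))
      refine e2.trans ?_
      have e3 : (10 / n * α) * (10 / n * (24 / 5 * P / n ^ 2)) = (240 / n) * ((2 / n ^ 3) * (P * α)) := by
        field_simp
        ring
      have e4 : 1 / n ^ 2 * α * (2 * P / n) = 1 * ((2 / n ^ 3) * (P * α)) := by
        field_simp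
      rw [e3, e4]
      apply mul_le_mul_of_nonneg_right _ (by positivity)
      rw [div_le_iff₀ hn]
      linarith
    have e6 : 47 / n ^ 2 * α = 47 * (1 / n ^ 2 * α) := by ring
    have e7 : 48 / n ^ 2 * α = 48 * (1 / n ^ 2 * α) := by ring
    rw [e6] at h1
    rw [e7]
    linarith
  have hS1 : ∑ u, ∑ w ∈ univ.erase u,
      (qf (Hreg S ψ (P / n)) (dvec S ψ u w) - 48 / n ^ 2 * (‖ψ u‖ ^ 2 + ‖ψ w‖ ^ 2)) ≤
      ∑ u, ∑ w ∈ univ.erase u, Rinc S ψ u w :=
    sum_le_sum fun u _ => sum_le_sum fun w hw => hstep u w hw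
  have hS2 : ∑ u, ∑ w ∈ univ.erase u,
      (qf (Hreg S ψ (P / n)) (dvec S ψ u w) - 48 / n ^ 2 * (‖ψ u‖ ^ 2 + ‖ψ w‖ ^ 2)) =
      (∑ u, ∑ w ∈ univ.erase u, qf (Hreg S ψ (P / n)) (dvec S ψ u w)) -
      48 / n ^ 2 * ∑ u, ∑ w ∈ univ.erase u, (‖ψ u‖ ^ 2 + ‖ψ w‖ ^ 2) := by
    rw [mul_sum, ← sum_sub_distrib]
    apply sum_congr rfl
    intro u _
    rw [mul_sum, ← sum_sub_distrib]
  rw [hS2] at hS1
  have hA2 : 48 / n ^ 2 * ∑ u, ∑ w ∈ univ.erase u, (‖ψ u‖ ^ 2 + ‖ψ w‖ ^ 2) ≤ 96 := by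
    have e1 := mul_le_mul_of_nonneg_left hA (by positivity : 0 ≤ 48 / n ^ 2)
    have e2 : 48 / n ^ 2 * (2 * n ^ 2) = 96 := by
      field_simp
      norm_num
    linarith
  have hB : ∑ u, ‖ψ u‖ ^ 2 * (Hreg S ψ (P / n) u u).re ≤ 6 / 5 / n := by
    calc ∑ u, ‖ψ u‖ ^ 2 * (Hreg S ψ (P / n) u u).re ≤ ∑ u, ‖ψ u‖ ^ 2 * (6 / 5 / n) := by
          apply sum_le_sum
          intro u _
          apply mul_le_mul_of_nonneg_left _ (sq_nonneg _)
          exact ((le_abs_self _).trans (Complex.abs_re_le_norm _)).trans (Hreg_entries hp hO h u u).1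
      _ = 6 / 5 / n := by rw [← sum_mul, hnorm, one_mul]
  have hB2 : 6 / 5 / n ≤ 1 := by
    rw [div_le_one hn]
    linarith
  linarith

/-! ### traces at two scales -/

/-- Orthonormal eigenbasis of a Hermitian matrix in plain coordinates: the columns of `U`. -/
theorem exists_eigen {S : Matrix V V ℂ} (hS : Sym S) :
    ∃ (U : Matrix V V ℂ) (mu : V → ℝ), U * Uᴴ = 1 ∧ Uᴴ * U = 1 ∧
      ∀ j, S *ᵥ (fun u => U u j) = (mu j : ℂ) • (fun u => U u j) := by
  refine ⟨(hS.eigenvectorUnitary : Matrix V V ℂ), hS.eigenvalues, ?_, ?_, ?_⟩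
  · have h1 := mem_unitaryGroup_iff.1 hS.eigenvectorUnitary.2
    rwa [star_eq_conjTranspose] at h1
  · have h1 := mem_unitaryGroup_iff'.1 hS.eigenvectorUnitary.2
    rwa [star_eq_conjTranspose] at h1
  · intro j
    have h1 := hS.mulVec_eigenvectorBasis j
    have h2 : (fun u => (hS.eigenvectorUnitary : Matrix V V ℂ) u j) =
        (hS.eigenvectorBasis j : V → ℂ) := by
      funext u
      exact hS.eigenvectorUnitary_apply u j
    rw [h2]
    exact h1

section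
variable {S : Matrix V V ℂ} {U : Matrix V V ℂ} {mu : V → ℝ}

/-- coordinates in the eigenbasis -/
theorem eig_expand (hU : U * Uᴴ = 1) (w : V → ℂ) : U *ᵥ (Uᴴ *ᵥ w) = w := by
  rw [mulVec_mulVec, hU, one_mulVec]

theorem eig_coord (w : V → ℂ) (j : V) : (Uᴴ *ᵥ w) j = star (fun u => U u j) ⬝ᵥ w := rfl

theorem eig_dot (hU : U * Uᴴ = 1) (φ χ : V → ℂ) :
    star φ ⬝ᵥ χ = star (Uᴴ *ᵥ φ) ⬝ᵥ (Uᴴ *ᵥ χ) := by
  rw [star_mulVec, conjTranspose_conjTranspose, ← dotProduct_mulVec, eig_expand hU]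

theorem eig_parseval (hU : U * Uᴴ = 1) (w : V → ℂ) : nsq w = ∑ j, ‖(Uᴴ *ᵥ w) j‖ ^ 2 := by
  have h1 : ((nsq w : ℝ) : ℂ) = ((nsq (Uᴴ *ᵥ w) : ℝ) : ℂ) := by
    rw [← star_dot_self, ← star_dot_self, eig_dot hU w w]
  exact Complex.ofReal_injective h1

theorem eig_coord_mul (hS : Sym S) (hmu : ∀ j, S *ᵥ (fun u => U u j) = (mu j : ℂ) • (fun u => U u j))
    (w : V → ℂ) (j : V) : (Uᴴ *ᵥ (S *ᵥ w)) j = mu j * (Uᴴ *ᵥ w) j := by
  rw [eig_coord, eig_coord, dot_mulVec_comm hS, hmu j, star_smul, smul_dotProduct, smul_eq_mul,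
    Complex.star_def, Complex.conj_ofReal]

theorem eig_form (hS : Sym S) (hU : U * Uᴴ = 1)
    (hmu : ∀ j, S *ᵥ (fun u => U u j) = (mu j : ℂ) • (fun u => U u j)) (w : V → ℂ) :
    qf S w = ∑ j, mu j * ‖(Uᴴ *ᵥ w) j‖ ^ 2 := by
  unfold qf
  rw [eig_dot hU w (S *ᵥ w), dotProduct, Complex.re_sum]
  apply sum_congr rfl
  intro j _
  rw [eig_coord_mul hS hmu, Pi.star_apply, norm_sq_star]
  have e : star ((Uᴴ *ᵥ w) j) * (↑(mu j) * (Uᴴ *ᵥ w) j) =
      (mu j : ℂ) * (star ((Uᴴ *ᵥ w) j) * (Uᴴ *ᵥ w) j) := by ring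
  rw [e, Complex.re_ofReal_mul]

theorem eig_le [Nonempty V] (hUU : Uᴴ * U = 1)
    (hmu : ∀ j, S *ᵥ (fun u => U u j) = (mu j : ℂ) • (fun u => U u j)) (j : V) :
    mu j ≤ lamMax S := by
  have h1 : star (fun u => U u j) ⬝ᵥ (fun u => U u j) = 1 := by
    have h2 : (Uᴴ * U) j j = 1 := by rw [hUU, one_apply_eq]
    rw [← h2, mul_apply]
    rfl
  have h4 : nsq (fun u => U u j) = 1 := by
    rw [star_dot_self] at h1
    exact_mod_cast h1
  have h3 := qf_le_lamMax S (fun u => U u j)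
  unfold qf at h3
  rw [hmu j, dotProduct_smul, h1, smul_eq_mul, mul_one, h4, mul_one, Complex.ofReal_re] at h3
  exact h3

theorem eig_trace [Nonempty V] (hS : Sym S) (hU : U * Uᴴ = 1) (hUU : Uᴴ * U = 1)
    (hmu : ∀ j, S *ᵥ (fun u => U u j) = (mu j : ℂ) • (fun u => U u j))
    {t : ℝ} (ht : lamMax S < t) :
    (rsv S t).trace.re = ∑ j, 1 / (t - mu j) := by
  obtain ⟨hG1, hG2⟩ := rsv_posBy hS (θ := t) (y := t - lamMax S) (by linarith) (by linarith)
  obtain ⟨G, hG⟩ : ∃ G, G = rsv S t := ⟨_, rfl⟩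
  rw [← hG] at hG1 hG2 ⊢
  have hG3 : G * shift S t = 1 := mul_eq_one_comm.1 hG1
  have h1 : G.trace = (Uᴴ * (G * U)).trace := by
    rw [trace_mul_comm, mul_assoc, hU, mul_one]
  rw [h1, trace_re]
  apply sum_congr rfl
  intro j _
  have hpos : 0 < t - mu j := by
    have := eig_le hUU hmu j
    linarith
  have h2 : ∀ u, (G * U) u j = ((1 / (t - mu j) : ℝ) : ℂ) * U u j := by
    intro u
    have h3 : shift S t *ᵥ (fun u => U u j) = ((t - mu j : ℝ) : ℂ) • (fun u => U u j) := by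
      rw [mulVec_shift, hmu j, ← sub_smul, ← Complex.ofReal_sub]
    have h4 : G *ᵥ (shift S t *ᵥ (fun u => U u j)) = fun u => U u j := by
      rw [mulVec_mulVec, hG3, one_mulVec]
    rw [h3, mulVec_smul] at h4
    have h5 := congrFun h4 u
    rw [Pi.smul_apply, smul_eq_mul] at h5
    have h6 : (G * U) u j = (G *ᵥ (fun u => U u j)) u := rfl
    rw [h6, ← h5, ← mul_assoc, ← Complex.ofReal_mul, one_div_mul_cancel hpos.ne',
      Complex.ofReal_one, one_mul]
  have h7 : (Uᴴ * (G * U)) j j = ((1 / (t - mu j) : ℝ) : ℂ) * (Uᴴ * U) j j := by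
    rw [mul_apply, mul_apply, mul_sum]
    apply sum_congr rfl
    intro u _
    rw [h2 u]
    ring
  rw [h7, hUU, one_apply_eq, mul_one, Complex.ofReal_re]

end

/-- Two scales. -/
theorem trace_two_scales [Nonempty V] {S : Matrix V V ℂ} (hS : Sym S) {ψ : V → ℂ}
    (h : TP S (lamMax S) ψ 0) {t θ : ℝ} (ht : lamMax S < t) (htθ : t ≤ θ) :
    (rsv S θ).trace.re - 1 / (θ - lamMax S) ≤ (rsv S t).trace.re - 1 / (t - lamMax S) ∧
    ∀ g : ℝ, 0 < g → ¬ TP S (lamMax S) ψ g →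
      (rsv S θ).trace.re - 1 / (θ - lamMax S)
        + (1 / (t - lamMax S + g) - 1 / (θ - lamMax S + g)) ≤
      (rsv S t).trace.re - 1 / (t - lamMax S) := by
  obtain ⟨U, mu, hU, hUU, hmu⟩ := exists_eigen hS
  have hle := fun j => eig_le (S := S) hUU hmu j
  rw [eig_trace hS hU hUU hmu ht, eig_trace hS hU hUU hmu (ht.trans_le htθ)]
  obtain ⟨lam, hlam⟩ : ∃ lam, lam = lamMax S := ⟨_, rfl⟩
  rw [← hlam] at hle ht h ⊢
  have hfun : ∀ x, x ≤ lam → 0 ≤ 1 / (t - x) - 1 / (θ - x) := by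
    intro x hx
    have h1 : 0 < t - x := by linarith
    have h2 := one_div_le_one_div_of_le h1 (by linarith : t - x ≤ θ - x)
    linarith
  have hmono : ∀ x x', x ≤ x' → x' ≤ lam →
      1 / (t - x) - 1 / (θ - x) ≤ 1 / (t - x') - 1 / (θ - x') := by
    intro x x' hxx hx'
    have h1 : 0 < t - x' := by linarith
    have h2 : 0 < t - x := by linarith
    have h3 : 0 < θ - x' := by linarith
    have h4 : 0 < θ - x := by linarith
    have e1 : 1 / (t - x) - 1 / (θ - x) = (θ - t) / ((t - x) * (θ - x)) := by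
      field_simp
      ring
    have e2 : 1 / (t - x') - 1 / (θ - x') = (θ - t) / ((t - x') * (θ - x')) := by
      field_simp
      ring
    rw [e1, e2]
    apply div_le_div_of_nonneg_left (by linarith) (by positivity)
    exact mul_le_mul (by linarith) (by linarith) h3.le h2.le
  -- an index with a nonzero coordinate of ψ
  have hψc : ∀ j, (Uᴴ *ᵥ ψ) j ≠ 0 → mu j = lam := by
    intro j hj
    have h1 := eig_coord_mul hS hmu ψ j
    rw [h.eig, mulVec_smul, Pi.smul_apply, smul_eq_mul] at h1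
    have h2 := mul_right_cancel₀ hj h1
    exact_mod_cast h2.symm
  have hex : ∃ j, (Uᴴ *ᵥ ψ) j ≠ 0 := by
    by_contra hcon
    push Not at hcon
    have h1 := eig_parseval hU ψ
    rw [h.unit] at h1
    simp only [hcon] at h1
    norm_num at h1
  obtain ⟨j0, hj0⟩ := hex
  have hmu0 := hψc j0 hj0
  have hsum : (∑ j, 1 / (t - mu j)) - ∑ j, 1 / (θ - mu j) =
      ∑ j, (1 / (t - mu j) - 1 / (θ - mu j)) := by rw [sum_sub_distrib]
  have hterm : ∀ j, 0 ≤ 1 / (t - mu j) - 1 / (θ - mu j) := fun j => hfun _ (hle j)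
  constructor
  · have h1 : 1 / (t - mu j0) - 1 / (θ - mu j0) ≤ ∑ j, (1 / (t - mu j) - 1 / (θ - mu j)) :=
      single_le_sum (f := fun j => 1 / (t - mu j) - 1 / (θ - mu j)) (fun j _ => hterm j)
        (mem_univ j0)
    rw [hmu0] at h1
    linarith
  · intro g hg hno
    obtain ⟨w, hw1, hw2⟩ : ∃ w : V → ℂ, star ψ ⬝ᵥ w = 0 ∧ (lam - g) * nsq w < qf S w := by
      by_contra hcon
      push Not at hcon
      exact hno ⟨h.eig, h.unit, hcon⟩
    have hex2 : ∃ j1, j1 ≠ j0 ∧ lam - g < mu j1 := by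
      by_contra hcon
      push Not at hcon
      -- then `ψ` is a multiple of column `j0`
      have h1 : ∀ j, j ≠ j0 → (Uᴴ *ᵥ ψ) j = 0 := by
        intro j hj
        by_contra h2
        have h3 := hψc j h2
        have h4 := hcon j hj
        linarith
      have h2 : (Uᴴ *ᵥ w) j0 = 0 := by
        have h3 := eig_dot hU ψ w
        rw [hw1, dotProduct, sum_eq_single j0 (fun j _ hj => by
            rw [Pi.star_apply, h1 j hj, star_zero, zero_mul])
          (fun h => absurd (mem_univ j0) h)] at h3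
        rcases mul_eq_zero.1 h3.symm with h4 | h4
        · exact absurd (star_eq_zero.1 h4) hj0
        · exact h4
      rw [eig_form hS hU hmu w, eig_parseval hU w, mul_sum] at hw2
      have h5 : ∑ j, mu j * ‖(Uᴴ *ᵥ w) j‖ ^ 2 ≤ ∑ j, (lam - g) * ‖(Uᴴ *ᵥ w) j‖ ^ 2 := by
        apply sum_le_sum
        intro j _
        by_cases hj : j = j0
        · rw [hj, h2]
          simp
        · exact mul_le_mul_of_nonneg_right (hcon j hj) (sq_nonneg _)
      linarith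
    obtain ⟨j1, hj1, hj1'⟩ := hex2
    have h1 : (1 / (t - mu j0) - 1 / (θ - mu j0)) + (1 / (t - mu j1) - 1 / (θ - mu j1)) ≤
        ∑ j, (1 / (t - mu j) - 1 / (θ - mu j)) := by
      have h2 := sum_le_univ_sum_of_nonneg (s := {j0, j1})
        (f := fun j => 1 / (t - mu j) - 1 / (θ - mu j)) hterm
      rw [sum_pair hj1.symm] at h2
      exact h2
    have h2 := hmono (lam - g) (mu j1) hj1'.le (hle j1)
    rw [hmu0] at h1
    have e1 : t - (lam - g) = t - lam + g := by ring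
    have e2 : θ - (lam - g) = θ - lam + g := by ring
    rw [e1, e2] at h2
    linarith

/-- (F3) see `FM5`. -/
theorem trace_Hreg [Nonempty V] {S : Matrix V V ℂ} {n K P δ P' Γ θ' : ℝ} (hp : Par V n K P δ)
    (hO : OO S n K P δ) {ψ : V → ℂ} (h : TP S (lamMax S) ψ 0) (hP' : 2 * P ≤ P') (hΓ : 0 < Γ)
    (hθ' : lamMax S + P' / n ≤ θ') :
    (rsv S θ').trace.re - n / P' ≤ (Hreg S ψ (P / n)).trace.re ∧
    (¬ TP S (lamMax S) ψ (Γ / n) →
      (rsv S θ').trace.re - 2 * n / P' + n / (2 * P + Γ) ≤ (Hreg S ψ (P / n)).trace.re) := by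
  have hn := hp.n0
  have hP := hp.P_ge
  have hP'0 : 0 < P' := by linarith
  have hy : 0 < P / n := div_pos (by linarith) hn
  have hPn : 2 * (P / n) ≤ P' / n := by
    rw [← mul_div_assoc]
    exact div_le_div_of_nonneg_right hP' hn.le
  obtain ⟨h1, h2⟩ := trace_two_scales hO.sgn.symm h (t := lamMax S + 2 * (P / n)) (θ := θ')
    (by linarith) (by linarith)
  rw [Hreg_trace S h.unit]
  have e1 : lamMax S + 2 * (P / n) - lamMax S = 2 * (P / n) := by ring
  rw [e1] at h1 h2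
  have hinv : 1 / (θ' - lamMax S) ≤ n / P' := by
    have h3 : 0 < P' / n := div_pos hP'0 hn
    have h4 := one_div_le_one_div_of_le h3 (by linarith : P' / n ≤ θ' - lamMax S)
    rwa [one_div_div] at h4
  refine ⟨by linarith, fun hno => ?_⟩
  have hg : 0 < Γ / n := div_pos hΓ hn
  have h3 := h2 (Γ / n) hg hno
  have h4 : 1 / (2 * (P / n) + Γ / n) = n / (2 * P + Γ) := by
    have h5 : 2 * (P / n) + Γ / n = (2 * P + Γ) / n := by ring
    rw [h5, one_div_div]
  have h5 : 1 / (θ' - lamMax S + Γ / n) ≤ n / P' := by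
    refine le_trans ?_ hinv
    have h6 : 0 < P' / n := div_pos hP'0 hn
    exact one_div_le_one_div_of_le (by linarith) (by linarith)
  rw [h4] at h3
  have e2 : 2 * n / P' = n / P' + n / P' := by ring
  rw [e2]
  linarith

/-- LEMMA F, deterministic part. -/
theorem FF_lower [Nonempty V] {S : Matrix V V ℂ} {n K P δ P' Γ : ℝ} (hp : Par V n K P δ)
    (hO : OO S n K P δ) (hP' : 2 * P ≤ P') (hP'n : 10 ^ 4 * P' ≤ n) (hΓ : 0 < Γ) :
    8 * n * (1 - 2 * √(δ + 2 * K / √P' + 2 * P' / n ^ 2) - 2 / P') - 200 ≤ FF S ∧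
    ((¬ ∃ ψ, TP S (lamMax S) ψ (Γ / n)) →
      8 * n * (1 - 2 * √(δ + 2 * K / √P' + 2 * P' / n ^ 2) - 2 / P') - 200 + 8 * n / (2 * P + Γ)
        ≤ FF S) := by
  have hn := hp.n0
  have hP := hp.P_ge
  have hn10 := hp.n_ge
  have htop := hO.top
  have hlam := lamMax_ge hp hO
  have hP'0 : 0 < P' := by linarith
  -- the grid point
  have hP'n1 : P' / n ≤ 1 / 10 ^ 4 := by
    rw [div_le_iff₀ hn]
    linarith
  obtain ⟨k, -, hk2, hk3⟩ := exists_grid hp (t := lamMax S + P' / n) (P₁ := P')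
    (by
      have : 0 < P' / n := div_pos hP'0 hn
      linarith)
    (by
      have := hp.δ1
      nlinarith) (by linarith)
  have hk3' : (k : ℝ) * (P / n) ≤ lamMax S + 2 * P' / n := by
    have : 2 * P' / n = P' / n + P' / n := by ring
    linarith
  obtain ⟨hA, -, -⟩ := lemA hp hO (P₁ := P') (by linarith) hP'n hk2 hk3'
  obtain ⟨X, hX⟩ : ∃ X, X = √(δ + 2 * K / √P' + 2 * P' / n ^ 2) := ⟨_, rfl⟩
  rw [← hX] at hA ⊢
  have hA' := (abs_le.1 hA).1
  obtain ⟨ψ, h⟩ := exists_top hO.sgn.symm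
  have hT := FF_lower_trace hp hO h
  obtain ⟨h1, h2⟩ := trace_Hreg hp hO h hP' hΓ hk2
  have e1 : 8 * n * (1 - 2 * X - 2 / P') = 8 * (n - 2 * X * n) - 8 * (2 * n / P') := by
    field_simp
  rw [e1]
  have e2 : 2 * n / P' = n / P' + n / P' := by ring
  have e3 : 0 < n / P' := div_pos hn hP'0
  constructor
  · rw [e2]
    linarith
  · intro hno
    have h3 := h2 fun hTP => hno ⟨ψ, hTP⟩
    have e4 : 8 * n / (2 * P + Γ) = 8 * (n / (2 * P + Γ)) := by ring
    rw [e4]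
    linarith

end Pool.Agent.MP_9cec2c_lc.Flat.Herm
end
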