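import Pool.Agent.Lib.MP_9cec2c_lc.CEFinal
import Pool.Agent.Lib.MP_9cec2c_lc.TTDefs
import Pool.Agent.Lib.MP_9cec2c_lc.CEList

section

/-!
A finite set of sound rules without counting gates, and derivations with all lines in a given
finite set of formulas.
-/

set_option autoImplicit false
set_option linter.unusedSectionVars false
set_option linter.unusedSimpArgs false

namespace Pool.Agent.MP_9cec2c_lc.TY

open FG
open CE (f g snd0 snd1 snd2 i_form i_list i_neg e_neg)

/-- Weakening. -/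
def rW : Rule := ⟨[orS [g 0]], orS [g 0, g 1]⟩
/-- Exchange. -/
def rX : Rule := ⟨[orS [g 0, f 0, f 1, g 1]], orS [g 0, f 1, f 0, g 1]⟩
/-- Contraction. -/
def rC : Rule := ⟨[orS [f 0, f 0, g 0]], orS [f 0, g 0]⟩
/-- Cut. -/
def rCut : Rule := ⟨[orS [f 0, g 0], orS [.neg (f 0), g 0]], orS [g 0]⟩
/-- Excluded middle. -/
def rEm : Rule := ⟨[], orS [.neg (f 0), f 0]⟩
/-- A member of a conjunction. -/
def rAE : Rule := ⟨[], orS [.neg (andS [g 0, f 0, g 1]), f 0]⟩
/-- The empty conjunction. -/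
def rA0 : Rule := ⟨[], orS [andS []]⟩
/-- One more member of a conjunction. -/
def rAI : Rule := ⟨[orS [andS [g 0], g 1], orS [f 0, g 1]], orS [andS [g 0, f 0], g 1]⟩
/-- A member of a disjunction. -/
def rOI : Rule := ⟨[], orS [.neg (f 0), orS [g 0, f 0, g 1]]⟩
/-- The empty disjunction. -/
def rO0 : Rule := ⟨[], orS [.neg (orS [])]⟩
/-- One more member of a disjunction. -/
def rOE : Rule := ⟨[orS [.neg (orS [g 0]), g 1], orS [.neg (f 0), g 1]],
  orS [.neg (orS [g 0, f 0]), g 1]⟩

/-- The rules. -/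
def tyRules : Set Rule := {R | R ∈ [rW, rX, rC, rCut, rEm, rAE, rA0, rAI, rOI, rO0, rOE]}

theorem tyRules_finite : tyRules.Finite := List.finite_toSet _

theorem tyRules_sound (p : ℕ) : ∀ R ∈ tyRules, R.Sound p := by
  classical
  intro R hR
  have hR' : R ∈ [rW, rX, rC, rCut, rEm, rAE, rA0, rAI, rOI, rO0, rOE] := hR
  simp only [List.mem_cons, List.not_mem_nil, or_false] at hR'
  rcases hR' with rfl | rfl | rfl | rfl | rfl | rfl | rfl | rfl | rfl | rfl | rfl
  · refine snd1 fun V σ τ x h => ?_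
    simp [inst_orS, i_list, i_form, eval_disjL] at h ⊢
    obtain ⟨φ, h1, h2⟩ := h
    exact ⟨φ, Or.inl h1, h2⟩
  · refine snd1 fun V σ τ x h => ?_
    simp [inst_orS, i_list, i_form, eval_disjL] at h ⊢
    obtain ⟨φ, h1, h2⟩ := h
    exact ⟨φ, by tauto, h2⟩
  · refine snd1 fun V σ τ x h => ?_
    simp [inst_orS, i_list, i_form, eval_disjL] at h ⊢
    exact h
  · refine snd2 fun V σ τ x h h' => ?_
    simp [inst_orS, i_list, i_form, i_neg, eval_disjL, e_neg] at h h' ⊢
    tauto
  · refine snd0 fun V σ τ x => ?_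
    simp [inst_orS, i_list, i_form, i_neg, eval_disjL, e_neg]
    tauto
  · refine snd0 fun V σ τ x => ?_
    simp [inst_orS, inst_andS, i_list, i_form, i_neg, eval_disjL, eval_conjL, e_neg]
    by_cases h : (σ 0).eval p x
    · exact Or.inr h
    · exact Or.inl ⟨σ 0, Or.inr (Or.inl rfl), h⟩
  · refine snd0 fun V σ τ x => ?_
    simp [inst_orS, inst_andS, eval_disjL, eval_conjL]
  · refine snd2 fun V σ τ x h h' => ?_
    simp [inst_orS, inst_andS, i_list, i_form, eval_disjL, eval_conjL] at h h' ⊢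
    rcases h with h | h
    · rcases h' with h' | h'
      · left
        rintro φ (h1 | rfl)
        · exact h φ h1
        · exact h'
      · exact Or.inr h'
    · exact Or.inr h
  · refine snd0 fun V σ τ x => ?_
    simp [inst_orS, i_list, i_form, i_neg, eval_disjL, e_neg]
    by_cases h : (σ 0).eval p x
    · exact Or.inr ⟨σ 0, Or.inr (Or.inl rfl), h⟩
    · exact Or.inl h
  · refine snd0 fun V σ τ x => ?_
    simp [inst_orS, i_neg, eval_disjL, e_neg]
  · refine snd2 fun V σ τ x h h' => ?_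
    simp [inst_orS, i_list, i_form, i_neg, eval_disjL, e_neg] at h h' ⊢
    tauto

/-! ### Derivations with all lines in a set -/

variable {V : Type}

/-- The formula has a derivation from `Φ` with all lines in `U`. -/
inductive Der (S : Set Rule) (Φ U : Set (Form V)) : Form V → Prop
  | ax (φ : Form V) (h : φ ∈ Φ) (hU : φ ∈ U) : Der S Φ U φ
  | rule (R : Rule) (σ : ℕ → Form V) (τ : ℕ → List (Form V)) (φ : Form V) (hR : R ∈ S)
      (h : ∀ P ∈ R.premises, ∀ ψ ∈ P.inst σ τ, Der S Φ U ψ) (hC : R.conclusion.inst σ τ = [φ])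
      (hU : φ ∈ U) : Der S Φ U φ

variable {S : Set Rule} {Φ U : Set (Form V)} {d : ℕ}

/-- A derivation is extended such that it contains one more formula. -/
theorem Der.extend (hd : ∀ ψ ∈ U, ψ.depth ≤ d) {φ : Form V} (h : Der S Φ U φ) :
    ∀ Ls : List (Form V), Lin S d Φ Ls → Ls.Nodup → (∀ ψ ∈ Ls, ψ ∈ U) →
      ∃ Ls', Lin S d Φ Ls' ∧ Ls'.Nodup ∧ (∀ ψ ∈ Ls', ψ ∈ U) ∧ (∀ ψ ∈ Ls, ψ ∈ Ls') ∧ φ ∈ Ls' := by
  classical
  induction h with
  | ax φ h hU =>
    intro Ls h1 h2 h3
    by_cases hφ : φ ∈ Ls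
    · exact ⟨Ls, h1, h2, h3, fun _ h => h, hφ⟩
    · refine ⟨φ :: Ls, Lin.cons φ Ls h1 (hd φ hU) (Or.inl h), List.nodup_cons.2 ⟨hφ, h2⟩, ?_,
        fun ψ hψ => List.mem_cons_of_mem _ hψ, List.mem_cons_self⟩
      intro ψ hψ
      rcases List.mem_cons.1 hψ with rfl | hψ
      · exact hU
      · exact h3 ψ hψ
  | rule R σ τ φ hR h hC hU ih =>
    intro Ls h1 h2 h3
    have key : ∀ (Qs : List (Form V)), (∀ ψ ∈ Qs, ∃ P ∈ R.premises, ψ ∈ P.inst σ τ) →
        ∀ Ls : List (Form V), Lin S d Φ Ls → Ls.Nodup → (∀ ψ ∈ Ls, ψ ∈ U) →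
        ∃ Ls', Lin S d Φ Ls' ∧ Ls'.Nodup ∧ (∀ ψ ∈ Ls', ψ ∈ U) ∧ (∀ ψ ∈ Ls, ψ ∈ Ls') ∧
          ∀ ψ ∈ Qs, ψ ∈ Ls' := by
      intro Qs
      induction Qs with
      | nil =>
        intro _ Ls h1 h2 h3
        exact ⟨Ls, h1, h2, h3, fun _ h => h, fun ψ hψ => absurd hψ List.not_mem_nil⟩
      | cons ψ Qs ihQ =>
        intro hQs Ls h1 h2 h3
        obtain ⟨Ls', k1, k2, k3, k4, k5⟩ := ihQ (fun ψ hψ => hQs ψ (List.mem_cons_of_mem _ hψ))
          Ls h1 h2 h3
        obtain ⟨P, hP, hψ⟩ := hQs ψ List.mem_cons_self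
        obtain ⟨Ls'', j1, j2, j3, j4, j5⟩ := ih P hP ψ hψ Ls' k1 k2 k3
        refine ⟨Ls'', j1, j2, j3, fun χ hχ => j4 χ (k4 χ hχ), fun χ hχ => ?_⟩
        rcases List.mem_cons.1 hχ with rfl | hχ
        · exact j5
        · exact j4 χ (k5 χ hχ)
    obtain ⟨Ls', k1, k2, k3, k4, k5⟩ := key (R.premises.flatMap fun P => P.inst σ τ)
      (fun ψ hψ => by
        obtain ⟨P, hP, hψ'⟩ := List.mem_flatMap.1 hψ
        exact ⟨P, hP, hψ'⟩) Ls h1 h2 h3
    by_cases hφ : φ ∈ Ls'
    · exact ⟨Ls', k1, k2, k3, k4, hφ⟩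
    · refine ⟨φ :: Ls', Lin.cons φ Ls' k1 (hd φ hU) (Or.inr ⟨R, hR, σ, τ, fun P hP ψ hψ =>
        k5 ψ (List.mem_flatMap.2 ⟨P, hP, hψ⟩), hC⟩), List.nodup_cons.2 ⟨hφ, k2⟩, ?_,
        fun ψ hψ => List.mem_cons_of_mem _ (k4 ψ hψ), List.mem_cons_self⟩
      intro ψ hψ
      rcases List.mem_cons.1 hψ with rfl | hψ
      · exact hU
      · exact k3 ψ hψ

/-- The size of a derivation with all lines in a finite set. -/
theorem Der.exists (U' W : Finset (Form V)) (hU : ∀ ψ ∈ U, ψ ∈ U') (hd : ∀ ψ ∈ U, ψ.depth ≤ d)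
    (hW : ∀ ψ ∈ U, ∀ χ ∈ ψ.parts, χ ∈ W) {φ : Form V} (h : Der S Φ U φ) :
    ∃ (l : ℕ) (L : Fin l → Form V), IsDerivation S d Φ L ∧ (∃ i, L i = φ) ∧
      (∀ i, L i ∈ U) ∧ size L ≤ U'.card + W.card := by
  classical
  obtain ⟨Ls, h1, h2, h3, -, h5⟩ := h.extend hd [] Lin.nil List.nodup_nil
    (fun ψ hψ => absurd hψ List.not_mem_nil)
  refine ⟨Ls.length, fun i => Ls.get i.rev, fun i => ?_, ?_, fun i => h3 _ (List.get_mem Ls _), ?_⟩
  · obtain ⟨h3, h4⟩ := h1.get i.rev
    refine ⟨h3, ?_⟩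
    rcases h4 with h4 | ⟨R, hR, h4⟩
    · exact Or.inl h4
    · refine Or.inr ⟨R, hR, h4.mono ?_⟩
      rintro ψ ⟨j, hj, hj'⟩
      refine ⟨j.rev, Fin.rev_lt_iff.1 hj, ?_⟩
      show Ls.get (Fin.rev (Fin.rev j)) = ψ
      rw [Fin.rev_rev]
      exact hj'
  · obtain ⟨i, hi⟩ := List.get_of_mem h5
    refine ⟨i.rev, ?_⟩
    show Ls.get (Fin.rev (Fin.rev i)) = φ
    rw [Fin.rev_rev]
    exact hi
  · unfold size
    refine add_le_add ?_ ?_
    · rw [← List.toFinset_card_of_nodup h2]
      refine Finset.card_le_card fun ψ hψ => hU ψ (h3 ψ (List.mem_toFinset.1 hψ))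
    · rw [← Set.ncard_coe_finset W]
      refine Set.ncard_le_ncard ?_ W.finite_toSet
      rintro ψ ⟨i, hi⟩
      exact hW _ (h3 _ (List.get_mem Ls _)) ψ hi

end Pool.Agent.MP_9cec2c_lc.TY
end

section

/-!
Derivations whose lines are disjunctions of few literals over a set of formulas.
-/

set_option autoImplicit false
set_option linter.unusedSectionVars false

namespace Pool.Agent.MP_9cec2c_lc.TY

open FG
open CE (f g i_form i_list i_neg sg tg)

variable {V : Type}

/-- The formulas in `At` and their negations. -/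
def Lit (At : Set (Form V)) (φ : Form V) : Prop := φ ∈ At ∨ ∃ ψ ∈ At, φ = .neg ψ

/-- The disjunctions of at most `c` literals. -/
def Lines (At : Set (Form V)) (c : ℕ) : Set (Form V) :=
  {φ | ∃ Λ : List (Form V), Λ.length ≤ c ∧ (∀ ψ ∈ Λ, Lit At ψ) ∧ φ = disjL Λ}

/-- The disjunction of the literals in `Λ` has a derivation, where `Λ` has at most `b` members and
the lines have at most `2 * b`. -/
def Sb (Φ At : Set (Form V)) (b : ℕ) (Λ : List (Form V)) : Prop :=
  Λ.length ≤ b ∧ (∀ ψ ∈ Λ, Lit At ψ) ∧ Der tyRules Φ (Lines At (2 * b)) (disjL Λ)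

variable {Φ At : Set (Form V)} {b : ℕ} {Λ Γ : List (Form V)} {φ ψ : Form V}

theorem ty_mem {R : Rule} (h : R ∈ [rW, rX, rC, rCut, rEm, rAE, rA0, rAI, rOI, rO0, rOE]) :
    R ∈ tyRules := h

theorem lit_pos (h : φ ∈ At) : Lit At φ := Or.inl h

theorem lit_neg (h : φ ∈ At) : Lit At (.neg φ) := Or.inr ⟨φ, h, rfl⟩

theorem Der.app0 {U : Set (Form V)} {R : Rule} (hR : R ∈ tyRules) {C : Scheme}
    (hRe : R = ⟨[], C⟩) (σ : ℕ → Form V) (τ : ℕ → List (Form V)) (hC : C.inst σ τ = [φ])
    (hU : φ ∈ U) : Der tyRules Φ U φ := by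
  subst hRe
  exact Der.rule _ σ τ φ hR (fun P hP => absurd hP List.not_mem_nil) hC hU

theorem Der.app1 {U : Set (Form V)} {R : Rule} (hR : R ∈ tyRules) {Q C : Scheme}
    (hRe : R = ⟨[Q], C⟩) (σ : ℕ → Form V) (τ : ℕ → List (Form V)) (hQ : Q.inst σ τ = [ψ])
    (hC : C.inst σ τ = [φ]) (hU : φ ∈ U) (h : Der tyRules Φ U ψ) : Der tyRules Φ U φ := by
  subst hRe
  refine Der.rule _ σ τ φ hR (fun P hP χ hχ => ?_) hC hU
  rw [List.mem_singleton.1 hP, hQ, List.mem_singleton] at hχ
  rw [hχ]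
  exact h

theorem Der.app2 {U : Set (Form V)} {R : Rule} (hR : R ∈ tyRules) {Q Q' C : Scheme}
    (hRe : R = ⟨[Q, Q'], C⟩) (σ : ℕ → Form V) (τ : ℕ → List (Form V)) {ψ' : Form V}
    (hQ : Q.inst σ τ = [ψ]) (hQ' : Q'.inst σ τ = [ψ']) (hC : C.inst σ τ = [φ]) (hU : φ ∈ U)
    (h : Der tyRules Φ U ψ) (h' : Der tyRules Φ U ψ') : Der tyRules Φ U φ := by
  subst hRe
  refine Der.rule _ σ τ φ hR (fun P hP χ hχ => ?_) hC hU
  have hP' : P = Q ∨ P = Q' := by simpa using hP
  rcases hP' with rfl | rfl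
  · rw [hQ, List.mem_singleton] at hχ
    rw [hχ]
    exact h
  · rw [hQ', List.mem_singleton] at hχ
    rw [hχ]
    exact h'

/-! ### Structural rules -/

theorem line_mem {c : ℕ} (h : Λ.length ≤ c) (h' : ∀ ψ ∈ Λ, Lit At ψ) : disjL Λ ∈ Lines At c :=
  ⟨Λ, h, h', rfl⟩

theorem der_swap {c : ℕ} (h : Der tyRules Φ (Lines At c) (disjL (Λ ++ φ :: ψ :: Γ)))
    (hl : (Λ ++ φ :: ψ :: Γ).length ≤ c) (hm : ∀ χ ∈ Λ ++ φ :: ψ :: Γ, Lit At χ) :
    Der tyRules Φ (Lines At c) (disjL (Λ ++ ψ :: φ :: Γ)) := by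
  refine Der.app1 (ty_mem (R := rX) (by simp)) rfl (sg φ ψ ψ) (tg Λ Γ [] []) ?_ ?_
    (line_mem (by simpa using hl) fun χ hχ => hm χ (by
      simp only [List.mem_append, List.mem_cons] at hχ ⊢
      tauto)) h <;>
  simp [inst_orS, i_list, i_form, tg, sg]

theorem der_perm {c : ℕ} (hp : Λ.Perm Γ) : ∀ Ξ : List (Form V),
    Der tyRules Φ (Lines At c) (disjL (Ξ ++ Λ)) → (Ξ ++ Λ).length ≤ c →
    (∀ χ ∈ Ξ ++ Λ, Lit At χ) → Der tyRules Φ (Lines At c) (disjL (Ξ ++ Γ)) := by
  induction hp with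
  | nil => exact fun Ξ h _ _ => h
  | cons χ hp ih =>
    intro Ξ h hl hm
    have h1 := ih (Ξ ++ [χ]) (by simpa using h) (by simpa using hl) (by simpa using hm)
    simpa using h1
  | swap χ χ' Λ =>
    intro Ξ h hl hm
    exact der_swap h hl hm
  | trans hp hp' ih ih' =>
    intro Ξ h hl hm
    refine ih' Ξ (ih Ξ h hl hm) ?_ ?_
    · rw [List.length_append, ← hp.length_eq, ← List.length_append]
      exact hl
    · intro χ hχ
      refine hm χ ?_
      rw [List.mem_append] at hχ ⊢
      exact hχ.imp id hp.mem_iff.2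

theorem der_weak {c : ℕ} (h : Der tyRules Φ (Lines At c) (disjL Λ)) (hl : (Λ ++ Γ).length ≤ c)
    (hm : ∀ χ ∈ Λ ++ Γ, Lit At χ) : Der tyRules Φ (Lines At c) (disjL (Λ ++ Γ)) := by
  refine Der.app1 (ty_mem (R := rW) (by simp)) rfl (sg falsum falsum falsum) (tg Λ Γ [] []) ?_ ?_
    (line_mem hl hm) h <;>
  simp [inst_orS, i_list, tg]

theorem der_contr {c : ℕ} (h : Der tyRules Φ (Lines At c) (disjL (φ :: φ :: Λ)))
    (hl : (φ :: Λ).length ≤ c) (hm : ∀ χ ∈ φ :: Λ, Lit At χ) :
    Der tyRules Φ (Lines At c) (disjL (φ :: Λ)) := by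
  refine Der.app1 (ty_mem (R := rC) (by simp)) rfl (sg φ φ φ) (tg Λ Λ [] []) ?_ ?_
    (line_mem hl hm) h <;>
  simp [inst_orS, i_list, i_form, tg, sg]

/-- Members which occur again are removed. -/
theorem der_absorb {c : ℕ} : ∀ Λ : List (Form V), (∀ φ ∈ Λ, φ ∈ Γ) →
    Der tyRules Φ (Lines At c) (disjL (Λ ++ Γ)) → (Λ ++ Γ).length ≤ c →
    (∀ χ ∈ Γ, Lit At χ) → Der tyRules Φ (Lines At c) (disjL Γ) := by
  classical
  intro Λ
  induction Λ with
  | nil => exact fun _ h _ _ => h
  | cons φ Λ ih =>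
    intro hs h hl hm
    have hφ : φ ∈ Λ ++ Γ := List.mem_append_right _ (hs φ List.mem_cons_self)
    have hm' : ∀ χ ∈ Λ ++ Γ, Lit At χ := by
      intro χ hχ
      rcases List.mem_append.1 hχ with h1 | h1
      · exact hm χ (hs χ (List.mem_cons_of_mem _ h1))
      · exact hm χ h1
    have hl' : (Λ ++ Γ).length + 1 ≤ c := by simpa using hl
    refine ih (fun χ hχ => hs χ (List.mem_cons_of_mem _ hχ)) ?_ (by omega) hm
    have hp : (Λ ++ Γ).Perm (φ :: (Λ ++ Γ).erase φ) := List.perm_cons_erase hφ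
    have h1 := der_perm (hp.cons φ) [] (by simpa using h) (by simpa using hl) (by
      intro χ hχ
      rcases List.mem_cons.1 (by simpa using hχ : χ ∈ φ :: (Λ ++ Γ)) with rfl | h2
      · exact hm' _ hφ
      · exact hm' χ h2)
    have hle : (φ :: (Λ ++ Γ).erase φ).length = (Λ ++ Γ).length := hp.length_eq.symm
    have hme : ∀ χ ∈ φ :: (Λ ++ Γ).erase φ, Lit At χ := fun χ hχ => hm' χ (hp.mem_iff.2 hχ)
    have h2 := der_contr (by simpa using h1) (by omega) hme
    have h3 := der_perm hp.symm [] (by simpa using h2)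
      (by rw [List.nil_append]; omega) (by rw [List.nil_append]; exact hme)
    simpa using h3

theorem Sb.sub (h : Sb Φ At b Λ) (hs : ∀ φ ∈ Λ, φ ∈ Γ) (hl : Γ.length ≤ b)
    (hm : ∀ χ ∈ Γ, Lit At χ) : Sb Φ At b Γ := by
  obtain ⟨h1, h2, h3⟩ := h
  refine ⟨hl, hm, ?_⟩
  have hl2 : (Λ ++ Γ).length ≤ 2 * b := by
    rw [List.length_append]
    omega
  refine der_absorb Λ hs (der_weak h3 hl2 fun χ hχ => ?_) hl2 hm
  rcases List.mem_append.1 hχ with h4 | h4
  · exact h2 χ h4
  · exact hm χ h4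

theorem Sb.ax (h : disjL Λ ∈ Φ) (hl : Λ.length ≤ b) (hm : ∀ χ ∈ Λ, Lit At χ) : Sb Φ At b Λ :=
  ⟨hl, hm, Der.ax _ h (line_mem (by omega) hm)⟩

theorem Sb.cut (h : Sb Φ At b (φ :: Λ)) (h' : Sb Φ At b (.neg φ :: Λ)) : Sb Φ At b Λ := by
  obtain ⟨h1, h2, h3⟩ := h
  have hl : Λ.length ≤ b := by
    rw [List.length_cons] at h1
    omega
  have hm : ∀ χ ∈ Λ, Lit At χ := fun χ hχ => h2 χ (List.mem_cons_of_mem _ hχ)
  refine ⟨hl, hm, ?_⟩
  refine Der.app2 (ty_mem (R := rCut) (by simp)) rfl (sg φ φ φ) (tg Λ Λ [] []) ?_ ?_ ?_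
    (line_mem (by omega) hm) h3 h'.2.2 <;>
  simp [inst_orS, i_list, i_form, i_neg, tg, sg]

/-! ### The logical rules -/

theorem Sb.em (hb : 2 ≤ b) (h : φ ∈ At) : Sb Φ At b [.neg φ, φ] := by
  have hm : ∀ χ ∈ [Form.neg φ, φ], Lit At χ := by
    intro χ hχ
    simp only [List.mem_cons, List.not_mem_nil, or_false] at hχ
    rcases hχ with rfl | rfl
    · exact lit_neg h
    · exact lit_pos h
  have hl : [Form.neg φ, φ].length ≤ b := by simpa using hb
  refine ⟨hl, hm, ?_⟩
  refine Der.app0 (ty_mem (R := rEm) (by simp)) rfl (sg φ φ φ) (tg [] [] [] []) ?_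
    (line_mem (hl.trans (by omega)) hm)
  simp [inst_orS, i_form, i_neg, sg]

theorem Sb.and_elim (hb : 2 ≤ b) (hΛ : conjL Λ ∈ At) (hφ : φ ∈ Λ) (h : Lit At φ) :
    Sb Φ At b [.neg (conjL Λ), φ] := by
  obtain ⟨Γ₁, Γ₂, rfl⟩ := List.append_of_mem hφ
  have hm : ∀ χ ∈ [Form.neg (conjL (Γ₁ ++ φ :: Γ₂)), φ], Lit At χ := by
    intro χ hχ
    simp only [List.mem_cons, List.not_mem_nil, or_false] at hχ
    rcases hχ with rfl | rfl
    · exact lit_neg hΛ
    · exact h
  have hl : [Form.neg (conjL (Γ₁ ++ φ :: Γ₂)), φ].length ≤ b := by simpa using hb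
  refine ⟨hl, hm, ?_⟩
  refine Der.app0 (ty_mem (R := rAE) (by simp)) rfl (sg φ φ φ) (tg Γ₁ Γ₂ [] []) ?_
    (line_mem (hl.trans (by omega)) hm)
  simp [inst_orS, inst_andS, i_form, i_list, i_neg, sg, tg]

theorem Sb.or_intro (hb : 2 ≤ b) (hΛ : disjL Λ ∈ At) (hφ : φ ∈ Λ) (h : φ ∈ At) :
    Sb Φ At b [.neg φ, disjL Λ] := by
  obtain ⟨Γ₁, Γ₂, rfl⟩ := List.append_of_mem hφ
  have hm : ∀ χ ∈ [Form.neg φ, disjL (Γ₁ ++ φ :: Γ₂)], Lit At χ := by
    intro χ hχ
    simp only [List.mem_cons, List.not_mem_nil, or_false] at hχ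
    rcases hχ with rfl | rfl
    · exact lit_neg h
    · exact lit_pos hΛ
  have hl : [Form.neg φ, disjL (Γ₁ ++ φ :: Γ₂)].length ≤ b := by simpa using hb
  refine ⟨hl, hm, ?_⟩
  refine Der.app0 (ty_mem (R := rOI) (by simp)) rfl (sg φ φ φ) (tg Γ₁ Γ₂ [] []) ?_
    (line_mem (hl.trans (by omega)) hm)
  simp [inst_orS, i_form, i_list, i_neg, sg, tg]

theorem Sb.verum (hb : 1 ≤ b) (h : conjL [] ∈ At) : Sb Φ At b [conjL []] := by
  have hm : ∀ χ ∈ [conjL ([] : List (Form V))], Lit At χ := by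
    intro χ hχ
    rw [List.mem_singleton.1 hχ]
    exact lit_pos h
  have hl : [conjL ([] : List (Form V))].length ≤ b := by simpa using hb
  refine ⟨hl, hm, ?_⟩
  refine Der.app0 (ty_mem (R := rA0) (by simp)) rfl (sg falsum falsum falsum) (tg [] [] [] []) ?_
    (line_mem (hl.trans (by omega)) hm)
  simp [inst_orS, inst_andS]

theorem Sb.not_falsum (hb : 1 ≤ b) (h : disjL [] ∈ At) : Sb Φ At b [.neg (disjL [])] := by
  have hm : ∀ χ ∈ [Form.neg (disjL ([] : List (Form V)))], Lit At χ := by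
    intro χ hχ
    rw [List.mem_singleton.1 hχ]
    exact lit_neg h
  have hl : [Form.neg (disjL ([] : List (Form V)))].length ≤ b := by simpa using hb
  refine ⟨hl, hm, ?_⟩
  refine Der.app0 (ty_mem (R := rO0) (by simp)) rfl (sg falsum falsum falsum) (tg [] [] [] []) ?_
    (line_mem (hl.trans (by omega)) hm)
  simp [inst_orS, i_neg]

theorem Sb.and_step {Ξ : List (Form V)} (h : Sb Φ At b (conjL Λ :: Ξ)) (h' : Sb Φ At b (φ :: Ξ))
    (hΛ : conjL (Λ ++ [φ]) ∈ At) : Sb Φ At b (conjL (Λ ++ [φ]) :: Ξ) := by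
  obtain ⟨h1, h2, h3⟩ := h
  have hm : ∀ χ ∈ conjL (Λ ++ [φ]) :: Ξ, Lit At χ := by
    intro χ hχ
    rcases List.mem_cons.1 hχ with rfl | hχ
    · exact lit_pos hΛ
    · exact h2 χ (List.mem_cons_of_mem _ hχ)
  have hl : (conjL (Λ ++ [φ]) :: Ξ).length ≤ b := by simpa using h1
  refine ⟨hl, hm, ?_⟩
  refine Der.app2 (ty_mem (R := rAI) (by simp)) rfl (sg φ φ φ) (tg Λ Ξ [] []) ?_ ?_ ?_
    (line_mem (hl.trans (by omega)) hm) h3 h'.2.2 <;>
  simp [inst_orS, inst_andS, i_list, i_form, tg, sg]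

theorem Sb.or_step {Ξ : List (Form V)} (h : Sb Φ At b (.neg (disjL Λ) :: Ξ))
    (h' : Sb Φ At b (.neg φ :: Ξ)) (hΛ : disjL (Λ ++ [φ]) ∈ At) :
    Sb Φ At b (.neg (disjL (Λ ++ [φ])) :: Ξ) := by
  obtain ⟨h1, h2, h3⟩ := h
  have hm : ∀ χ ∈ Form.neg (disjL (Λ ++ [φ])) :: Ξ, Lit At χ := by
    intro χ hχ
    rcases List.mem_cons.1 hχ with rfl | hχ
    · exact lit_neg hΛ
    · exact h2 χ (List.mem_cons_of_mem _ hχ)
  have hl : (Form.neg (disjL (Λ ++ [φ])) :: Ξ).length ≤ b := by simpa using h1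
  refine ⟨hl, hm, ?_⟩
  refine Der.app2 (ty_mem (R := rOE) (by simp)) rfl (sg φ φ φ) (tg Λ Ξ [] []) ?_ ?_ ?_
    (line_mem (hl.trans (by omega)) hm) h3 h'.2.2 <;>
  simp [inst_orS, i_list, i_form, i_neg, tg, sg]

/-- A conjunction follows from its members, if all its initial parts are in `At`. -/
theorem Sb.and_intro {Ξ : List (Form V)} (hb : Ξ.length + 1 ≤ b) (hΞ : ∀ χ ∈ Ξ, Lit At χ)
    (Λ : List (Form V)) (hΛ : ∀ P, P <+: Λ → conjL P ∈ At) (h : ∀ φ ∈ Λ, Sb Φ At b (φ :: Ξ)) :
    Sb Φ At b (conjL Λ :: Ξ) := by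
  induction Λ using List.reverseRecOn with
  | nil =>
    refine (Sb.verum (by omega) (hΛ [] (List.nil_prefix))).sub ?_ (by simpa using hb) ?_
    · intro χ hχ
      rw [List.mem_singleton.1 hχ]
      exact List.mem_cons_self
    · intro χ hχ
      rcases List.mem_cons.1 hχ with rfl | hχ
      · exact lit_pos (hΛ [] List.nil_prefix)
      · exact hΞ χ hχ
  | append_singleton Λ φ ih =>
    refine (ih (fun P hP => hΛ P (hP.trans (List.prefix_append _ _)))
      fun χ hχ => h χ (List.mem_append_left _ hχ)).and_step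
      (h φ (List.mem_append_right _ (List.mem_singleton.2 rfl))) (hΛ _ List.prefix_rfl)

/-- A disjunction is refuted by the refutations of its members, if all its initial parts are in
`At`. -/
theorem Sb.or_elim {Ξ : List (Form V)} (hb : Ξ.length + 1 ≤ b) (hΞ : ∀ χ ∈ Ξ, Lit At χ)
    (Λ : List (Form V)) (hΛ : ∀ P, P <+: Λ → disjL P ∈ At) (h : ∀ φ ∈ Λ, Sb Φ At b (.neg φ :: Ξ)) :
    Sb Φ At b (.neg (disjL Λ) :: Ξ) := by
  induction Λ using List.reverseRecOn with
  | nil =>
    refine (Sb.not_falsum (by omega) (hΛ [] (List.nil_prefix))).sub ?_ (by simpa using hb) ?_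
    · intro χ hχ
      rw [List.mem_singleton.1 hχ]
      exact List.mem_cons_self
    · intro χ hχ
      rcases List.mem_cons.1 hχ with rfl | hχ
      · exact lit_neg (hΛ [] List.nil_prefix)
      · exact hΞ χ hχ
  | append_singleton Λ φ ih =>
    refine (ih (fun P hP => hΛ P (hP.trans (List.prefix_append _ _)))
      fun χ hχ => h χ (List.mem_append_left _ hχ)).or_step
      (h φ (List.mem_append_right _ (List.mem_singleton.2 rfl))) (hΛ _ List.prefix_rfl)

end Pool.Agent.MP_9cec2c_lc.TY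
end

section

/-!
Sums modulo `r` by divide and conquer, as formulas without counting gates.
-/

set_option autoImplicit false
set_option linter.unusedSectionVars false

namespace Pool.Agent.MP_9cec2c_lc.TY

open FG

variable {V : Type} {r m : ℕ} [NeZero r]

/-- The tuples with sum `a`. -/
noncomputable def tuples (m r : ℕ) [NeZero r] (a : ZMod r) : List (Fin m → ZMod r) :=
  (Finset.univ.filter fun t : Fin m → ZMod r => ∑ i, t i = a).toList

theorem mem_tuples {a : ZMod r} {t : Fin m → ZMod r} : t ∈ tuples m r a ↔ ∑ i, t i = a := by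
  unfold tuples
  rw [Finset.mem_toList, Finset.mem_filter]
  exact ⟨fun h => h.2, fun h => ⟨Finset.mem_univ _, h⟩⟩

/-- The formulas which say that the summands have the values `t i`. -/
def vals (X : Fin m → ZMod r → Form V) (t : Fin m → ZMod r) : List (Form V) :=
  List.ofFn fun i => X i (t i)

theorem mem_vals {X : Fin m → ZMod r → Form V} {t : Fin m → ZMod r} {φ : Form V} :
    φ ∈ vals X t ↔ ∃ i, X i (t i) = φ := by
  unfold vals
  rw [List.mem_ofFn]

/-- The disjuncts of the next formula. -/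
noncomputable def cases' (X : Fin m → ZMod r → Form V) (a : ZMod r) : List (Form V) :=
  (tuples m r a).map fun t => conjL (vals X t)

/-- The sum of the values given by the formulas `X i` is `a`. -/
noncomputable def comb (X : Fin m → ZMod r → Form V) (a : ZMod r) : Form V := disjL (cases' X a)

/-- The sum of the values of the leaves `c q` of a tree of height `h` is `a`. -/
noncomputable def node : (h : ℕ) → ((Fin h → Fin m) → ZMod r → Form V) → ZMod r → Form V
  | 0, c => c Fin.elim0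
  | h + 1, c => comb fun i => node h fun q => c (Fin.cons i q)

/-- The formulas which are needed for one more level. -/
def atoms1 (X : Fin m → ZMod r → Form V) : Set (Form V) :=
  {φ | ∃ a P, P <+: cases' X a ∧ φ = disjL P} ∪ {φ | ∃ t P, P <+: vals X t ∧ φ = conjL P}

/-- The formulas which are needed for a tree. -/
def atoms : (h : ℕ) → ((Fin h → Fin m) → ZMod r → Form V) → Set (Form V)
  | 0, c => {φ | ∃ a, φ = c Fin.elim0 a}
  | h + 1, c => (atoms1 fun i => node h fun q => c (Fin.cons i q)) ∪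
      ⋃ i, atoms h fun q => c (Fin.cons i q)

theorem comb_mem (X : Fin m → ZMod r → Form V) (a : ZMod r) : comb X a ∈ atoms1 X :=
  Or.inl ⟨a, _, List.prefix_rfl, rfl⟩

theorem conj_mem (X : Fin m → ZMod r → Form V) (t : Fin m → ZMod r) :
    conjL (vals X t) ∈ atoms1 X := Or.inr ⟨t, _, List.prefix_rfl, rfl⟩

theorem node_mem (h : ℕ) (c : (Fin h → Fin m) → ZMod r → Form V) (a : ZMod r) :
    node h c a ∈ atoms h c := by
  cases h with
  | zero => exact ⟨a, rfl⟩
  | succ h => exact Or.inl (comb_mem _ a)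

theorem atoms_child (h : ℕ) (c : (Fin (h + 1) → Fin m) → ZMod r → Form V) (i : Fin m) :
    atoms h (fun q => c (Fin.cons i q)) ⊆ atoms (h + 1) c := by
  intro φ hφ
  exact Or.inr (Set.mem_iUnion.2 ⟨i, hφ⟩)

end Pool.Agent.MP_9cec2c_lc.TY
end

section

/-!
The change of one leaf of a divide and conquer tree changes the sum by the same amount.
-/

set_option autoImplicit false
set_option linter.unusedSectionVars false

namespace Pool.Agent.MP_9cec2c_lc.TY

open FG

variable {V : Type} {r m : ℕ} [NeZero r] {Φ At : Set (Form V)} {b : ℕ}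

/-- If the value of `X` is `a` and the value of `y` is `β`, then the value of `X'` is `a + ε β`. -/
def Rel (Φ At : Set (Form V)) (b : ℕ) (X X' y : ZMod r → Form V) (ε : ZMod r) : Prop :=
  ∀ a β, Sb Φ At b [.neg (X a), .neg (y β), X' (a + ε * β)]

/-- The value of `X` is `0`. -/
def Zer (Φ At : Set (Form V)) (b : ℕ) (X : ZMod r → Form V) : Prop :=
  Sb Φ At b [X 0] ∧ ∀ a, a ≠ 0 → Sb Φ At b [.neg (X a)]

theorem comb_rel {X X' : Fin m → ZMod r → Form V} {y : ZMod r → Form V} {ε : ZMod r} {j : Fin m}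
    (hb : 4 ≤ b) (hy : ∀ β, y β ∈ At) (hX : ∀ i a, X i a ∈ At) (hX' : ∀ i a, X' i a ∈ At)
    (hA : atoms1 X ⊆ At) (hA' : atoms1 X' ⊆ At) (hj : Rel Φ At b (X j) (X' j) y ε)
    (hi : ∀ i, i ≠ j → X' i = X i) : Rel Φ At b (comb X) (comb X') y ε := by
  classical
  intro a β
  have hyβ : Lit At (.neg (y β)) := lit_neg (hy β)
  have hgoal : comb X' (a + ε * β) ∈ At := hA' (comb_mem X' _)
  have hX0 : comb X a ∈ At := hA (comb_mem X a)
  -- one tuple
  have key : ∀ t ∈ tuples m r a, Sb Φ At b [.neg (conjL (vals X t)), .neg (y β),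
      comb X' (a + ε * β)] := by
    intro t ht
    obtain ⟨t', ht'⟩ : ∃ t' : Fin m → ZMod r, t' = Function.update t j (t j + ε * β) := ⟨_, rfl⟩
    have ht2 : t' ∈ tuples m r (a + ε * β) := by
      rw [mem_tuples] at ht ⊢
      rw [ht', Finset.sum_update_of_mem (Finset.mem_univ j), ← ht,
        ← Finset.sum_erase_add _ _ (Finset.mem_univ j), ← Finset.sdiff_singleton_eq_erase]
      ring
    have hc : conjL (vals X t) ∈ At := hA (conj_mem X t)
    have hc' : conjL (vals X' t') ∈ At := hA' (conj_mem X' t')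
    have h1 : Sb Φ At b [conjL (vals X' t'), .neg (conjL (vals X t)), .neg (y β)] := by
      refine Sb.and_intro (by simp; omega) ?_ _ (fun P hP => hA' (Or.inr ⟨t', P, hP, rfl⟩)) ?_
      · intro χ hχ
        simp only [List.mem_cons, List.not_mem_nil, or_false] at hχ
        rcases hχ with rfl | rfl
        · exact lit_neg hc
        · exact hyβ
      · intro φ hφ
        obtain ⟨i, rfl⟩ := mem_vals.1 hφ
        have hlit : ∀ χ ∈ [X' i (t' i), .neg (conjL (vals X t)), .neg (y β)], Lit At χ := by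
          intro χ hχ
          simp only [List.mem_cons, List.not_mem_nil, or_false] at hχ
          rcases hχ with rfl | rfl | rfl
          · exact lit_pos (hX' _ _)
          · exact lit_neg hc
          · exact hyβ
        by_cases hij : i = j
        · subst hij
          have h2 : t' i = t i + ε * β := by rw [ht', Function.update_self]
          rw [h2] at hlit ⊢
          have h3 := hj (t i) β
          have h4 : Sb Φ At b [.neg (conjL (vals X t)), X i (t i)] :=
            Sb.and_elim (by omega) hc (mem_vals.2 ⟨i, rfl⟩) (lit_pos (hX _ _))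
          have hlit2 : ∀ χ ∈ [X i (t i), X' i (t i + ε * β), .neg (conjL (vals X t)), .neg (y β)],
              Lit At χ := by
            intro χ hχ
            rcases List.mem_cons.1 hχ with rfl | hχ
            · exact lit_pos (hX _ _)
            · exact hlit χ hχ
          have hlit3 : ∀ χ ∈ [.neg (X i (t i)), X' i (t i + ε * β), .neg (conjL (vals X t)),
              .neg (y β)], Lit At χ := by
            intro χ hχ
            rcases List.mem_cons.1 hχ with rfl | hχ
            · exact lit_neg (hX _ _)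
            · exact hlit χ hχ
          refine Sb.cut (φ := X i (t i)) (h4.sub ?_ (by simpa using hb) hlit2)
            (h3.sub ?_ (by simpa using hb) hlit3)
          · intro χ hχ
            simp only [List.mem_cons, List.not_mem_nil, or_false] at hχ ⊢
            tauto
          · intro χ hχ
            simp only [List.mem_cons, List.not_mem_nil, or_false] at hχ ⊢
            tauto
        · have h2 : t' i = t i := by rw [ht', Function.update_of_ne hij]
          rw [h2, hi i hij] at hlit ⊢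
          have h4 : Sb Φ At b [.neg (conjL (vals X t)), X i (t i)] :=
            Sb.and_elim (by omega) hc (mem_vals.2 ⟨i, rfl⟩) (lit_pos (hX _ _))
          refine h4.sub ?_ (by simp; omega) hlit
          intro χ hχ
          simp only [List.mem_cons, List.not_mem_nil, or_false] at hχ ⊢
          tauto
    have h2 : Sb Φ At b [.neg (conjL (vals X' t')), comb X' (a + ε * β)] :=
      Sb.or_intro (by omega) hgoal (List.mem_map.2 ⟨t', ht2, rfl⟩) hc'
    have hlit : ∀ χ ∈ [.neg (conjL (vals X t)), .neg (y β), comb X' (a + ε * β)], Lit At χ := by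
      intro χ hχ
      simp only [List.mem_cons, List.not_mem_nil, or_false] at hχ
      rcases hχ with rfl | rfl | rfl
      · exact lit_neg hc
      · exact hyβ
      · exact lit_pos hgoal
    refine Sb.cut (φ := conjL (vals X' t')) (h1.sub ?_ (by simpa using hb) ?_)
      (h2.sub ?_ (by simpa using hb) ?_)
    · intro χ hχ
      simp only [List.mem_cons, List.not_mem_nil, or_false] at hχ ⊢
      tauto
    · intro χ hχ
      rcases List.mem_cons.1 hχ with rfl | hχ
      · exact lit_pos hc'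
      · exact hlit χ hχ
    · intro χ hχ
      simp only [List.mem_cons, List.not_mem_nil, or_false] at hχ ⊢
      tauto
    · intro χ hχ
      rcases List.mem_cons.1 hχ with rfl | hχ
      · exact lit_neg hc'
      · exact hlit χ hχ
  refine Sb.or_elim (by simp; omega) ?_ (cases' X a) (fun P hP => hA (Or.inl ⟨a, P, hP, rfl⟩)) ?_
  · intro χ hχ
    simp only [List.mem_cons, List.not_mem_nil, or_false] at hχ
    rcases hχ with rfl | rfl
    · exact hyβ
    · exact lit_pos hgoal
  · intro φ hφ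
    obtain ⟨t, ht, rfl⟩ := List.mem_map.1 hφ
    exact key t ht

theorem node_rel {y : ZMod r → Form V} {ε : ZMod r} (hb : 4 ≤ b) (hy : ∀ β, y β ∈ At) :
    ∀ (h : ℕ) (c c' : (Fin h → Fin m) → ZMod r → Form V) (p : Fin h → Fin m),
      (∀ q, q ≠ p → c' q = c q) → Rel Φ At b (c p) (c' p) y ε → atoms h c ⊆ At →
      atoms h c' ⊆ At → Rel Φ At b (node h c) (node h c') y ε := by
  intro h
  induction h with
  | zero =>
    intro c c' p _ hp _ _
    have h1 : p = Fin.elim0 := funext fun i => i.elim0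
    rw [h1] at hp
    exact hp
  | succ h ih =>
    intro c c' p hq hp hA hA'
    refine comb_rel (j := p 0) hb hy
      (fun i a => hA (atoms_child h c i (node_mem h _ a)))
      (fun i a => hA' (atoms_child h c' i (node_mem h _ a)))
      (fun φ hφ => hA (Or.inl hφ)) (fun φ hφ => hA' (Or.inl hφ)) ?_ ?_
    · refine ih (fun q => c (Fin.cons (p 0) q)) (fun q => c' (Fin.cons (p 0) q)) (Fin.tail p) ?_ ?_
        ((atoms_child h c (p 0)).trans hA) ((atoms_child h c' (p 0)).trans hA')
      · intro q hq'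
        refine hq _ fun h1 => hq' ?_
        rw [← h1, Fin.tail_cons]
      · show Rel Φ At b (c (Fin.cons (p 0) (Fin.tail p))) (c' (Fin.cons (p 0) (Fin.tail p))) y ε
        rw [Fin.cons_self_tail]
        exact hp
    · intro i hi
      have h1 : (fun q : Fin h → Fin m => c' (Fin.cons i q)) = fun q => c (Fin.cons i q) := by
        funext q
        refine hq _ fun h1 => hi ?_
        rw [← h1, Fin.cons_zero]
      show node h (fun q => c' (Fin.cons i q)) = node h (fun q => c (Fin.cons i q))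
      rw [h1]

theorem comb_zer {X : Fin m → ZMod r → Form V} (hb : 2 ≤ b) (hX : ∀ i a, X i a ∈ At)
    (hA : atoms1 X ⊆ At) (h : ∀ i, Zer Φ At b (X i)) : Zer Φ At b (comb X) := by
  classical
  constructor
  · have h0 : (fun _ => 0 : Fin m → ZMod r) ∈ tuples m r 0 := by
      rw [mem_tuples]
      exact Finset.sum_const_zero
    have hc : conjL (vals X fun _ => 0) ∈ At := hA (conj_mem X _)
    have hg : comb X 0 ∈ At := hA (comb_mem X 0)
    have h1 : Sb Φ At b [conjL (vals X fun _ => 0)] := by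
      refine Sb.and_intro (by simp; omega) (fun χ hχ => absurd hχ List.not_mem_nil) _
        (fun P hP => hA (Or.inr ⟨_, P, hP, rfl⟩)) ?_
      intro φ hφ
      obtain ⟨i, rfl⟩ := mem_vals.1 hφ
      exact (h i).1
    have h2 : Sb Φ At b [.neg (conjL (vals X fun _ => 0)), comb X 0] :=
      Sb.or_intro hb hg (List.mem_map.2 ⟨_, h0, rfl⟩) hc
    refine Sb.cut (φ := conjL (vals X fun _ => 0)) (h1.sub ?_ (by simpa using hb) ?_) h2
    · intro χ hχ
      simp only [List.mem_cons, List.not_mem_nil, or_false] at hχ ⊢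
      tauto
    · intro χ hχ
      simp only [List.mem_cons, List.not_mem_nil, or_false] at hχ
      rcases hχ with rfl | rfl
      · exact lit_pos hc
      · exact lit_pos hg
  · intro a ha
    refine Sb.or_elim (by simp; omega) (fun χ hχ => absurd hχ List.not_mem_nil) (cases' X a)
      (fun P hP => hA (Or.inl ⟨a, P, hP, rfl⟩)) ?_
    intro φ hφ
    obtain ⟨t, ht, rfl⟩ := List.mem_map.1 hφ
    rw [mem_tuples] at ht
    obtain ⟨i, hi⟩ : ∃ i, t i ≠ 0 := by
      by_contra hcon
      push Not at hcon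
      apply ha
      rw [← ht]
      exact Finset.sum_eq_zero fun i _ => hcon i
    have hc : conjL (vals X t) ∈ At := hA (conj_mem X t)
    have h1 : Sb Φ At b [.neg (conjL (vals X t)), X i (t i)] :=
      Sb.and_elim hb hc (mem_vals.2 ⟨i, rfl⟩) (lit_pos (hX _ _))
    have h2 := (h i).2 _ hi
    refine Sb.cut (φ := X i (t i)) (h1.sub ?_ (by simpa using hb) ?_)
      (h2.sub ?_ (by simpa using hb) ?_)
    · intro χ hχ
      simp only [List.mem_cons, List.not_mem_nil, or_false] at hχ ⊢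
      tauto
    · intro χ hχ
      simp only [List.mem_cons, List.not_mem_nil, or_false] at hχ
      rcases hχ with rfl | rfl
      · exact lit_pos (hX _ _)
      · exact lit_neg hc
    · intro χ hχ
      simp only [List.mem_cons, List.not_mem_nil, or_false] at hχ ⊢
      tauto
    · intro χ hχ
      simp only [List.mem_cons, List.not_mem_nil, or_false] at hχ
      rcases hχ with rfl | rfl
      · exact lit_neg (hX _ _)
      · exact lit_neg hc

theorem node_zer (hb : 2 ≤ b) : ∀ (h : ℕ) (c : (Fin h → Fin m) → ZMod r → Form V),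
    (∀ q, Zer Φ At b (c q)) → atoms h c ⊆ At → Zer Φ At b (node h c) := by
  intro h
  induction h with
  | zero => exact fun c hc _ => hc _
  | succ h ih =>
    intro c hc hA
    exact comb_zer hb (fun i a => hA (atoms_child h c i (node_mem h _ a)))
      (fun φ hφ => hA (Or.inl hφ)) fun i => ih _ (fun q => hc _) ((atoms_child h c i).trans hA)

end Pool.Agent.MP_9cec2c_lc.TY
end

section

/-!
The refutation of a Tseitin formula along an order of the vertices with small cuts.
-/

set_option autoImplicit false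
set_option linter.unusedSectionVars false

namespace Pool.Agent.MP_9cec2c_lc.TY

open Finset FG
open TT (cut inc coef)

variable {V E : Type} [Fintype V] [Fintype E] [DecidableEq V] [DecidableEq E] {src tgt : E → V}
  {r m D : ℕ} [NeZero r]

/-- The content of the leaves of the tree: an edge with a coefficient, or nothing. -/
abbrev State (E : Type) (r m D : ℕ) : Type := (Fin D → Fin m) → Option (E × ZMod r)

/-- The formulas of a leaf: the leaf has the value `a`. -/
def leaf (o : Option (E × ZMod r)) (a : ZMod r) : Form (E × ZMod r) :=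
  match o with
  | none => if a = 0 then conjL [] else disjL []
  | some q => .var (q.1, q.2 * a)

/-- The sum of the values of the leaves is `a`. -/
noncomputable def St (c : State E r m D) (a : ZMod r) : Form (E × ZMod r) :=
  node D (fun q => leaf (c q)) a

/-- The formulas which are needed for a state. -/
def stAtoms (c : State E r m D) : Set (Form (E × ZMod r)) := atoms D fun q => leaf (c q)

/-- The facts which follow from the clauses. -/
structure Base (src tgt : E → V) (s : V → ZMod r) (Φ At : Set (Form (E × ZMod r))) (b : ℕ) :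
    Prop where
  var : ∀ u, Form.var u ∈ At
  top : conjL [] ∈ At
  bot : disjL [] ∈ At
  one : ∀ e (β β' : ZMod r), β ≠ β' →
    Sb Φ At b [.neg (.var (e, β)), .neg (.var (e, β'))]
  some : ∀ e, Sb Φ At b ((univ : Finset (ZMod r)).toList.map fun β => .var (e, β))
  eq : ∀ v (β : E → ZMod r), ∑ e ∈ inc src tgt v, coef src tgt r v e * β e ≠ s v →
    Sb Φ At b ((inc src tgt v).toList.map fun e => .neg (.var (e, β e)))

variable {s : V → ZMod r} {Φ At : Set (Form (E × ZMod r))} {b : ℕ}

theorem leaf_mem (hB : Base src tgt s Φ At b) (o : Option (E × ZMod r)) (a : ZMod r) :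
    leaf o a ∈ At := by
  cases o with
  | none =>
    show (if a = 0 then conjL [] else disjL []) ∈ At
    split_ifs
    · exact hB.top
    · exact hB.bot
  | some q => exact hB.var _

theorem leaf_add (hB : Base src tgt s Φ At b) (hb : 3 ≤ b) (e : E) {ε : ZMod r}
    (hε : ε * ε = 1) : Rel Φ At b (leaf none) (leaf (some (e, ε))) (fun β => .var (e, β)) ε := by
  intro a β
  have hlit : ∀ χ ∈ [.neg (leaf (none : Option (E × ZMod r)) a), .neg (.var (e, β)),
      leaf (some (e, ε)) (a + ε * β)], Lit At χ := by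
    intro χ hχ
    simp only [List.mem_cons, List.not_mem_nil, or_false] at hχ
    rcases hχ with rfl | rfl | rfl
    · exact lit_neg (leaf_mem hB _ _)
    · exact lit_neg (hB.var _)
    · exact lit_pos (leaf_mem hB _ _)
  by_cases ha : a = 0
  · have h1 : leaf (some (e, ε)) (a + ε * β) = .var (e, β) := by
      show Form.var (e, ε * (a + ε * β)) = .var (e, β)
      rw [ha, zero_add, ← mul_assoc, hε, one_mul]
    rw [h1] at hlit ⊢
    refine (Sb.em (by omega) (hB.var (e, β))).sub ?_ (by simpa using hb) hlit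
    intro χ hχ
    simp only [List.mem_cons, List.not_mem_nil, or_false] at hχ ⊢
    tauto
  · have h1 : leaf (none : Option (E × ZMod r)) a = disjL [] := if_neg ha
    rw [h1] at hlit ⊢
    refine (Sb.not_falsum (by omega) hB.bot).sub ?_ (by simpa using hb) hlit
    intro χ hχ
    simp only [List.mem_cons, List.not_mem_nil, or_false] at hχ ⊢
    tauto

theorem leaf_rem (hB : Base src tgt s Φ At b) (hb : 3 ≤ b) (e : E) {ε : ZMod r}
    (hε : ε * ε = 1) : Rel Φ At b (leaf (some (e, -ε))) (leaf none) (fun β => .var (e, β)) ε := by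
  intro a β
  have hlit : ∀ χ ∈ [.neg (leaf (some (e, -ε)) a), .neg (.var (e, β)),
      leaf (none : Option (E × ZMod r)) (a + ε * β)], Lit At χ := by
    intro χ hχ
    simp only [List.mem_cons, List.not_mem_nil, or_false] at hχ
    rcases hχ with rfl | rfl | rfl
    · exact lit_neg (leaf_mem hB _ _)
    · exact lit_neg (hB.var _)
    · exact lit_pos (leaf_mem hB _ _)
  by_cases ha : a + ε * β = 0
  · have h1 : leaf (none : Option (E × ZMod r)) (a + ε * β) = conjL [] := if_pos ha
    rw [h1] at hlit ⊢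
    refine (Sb.verum (by omega) hB.top).sub ?_ (by simpa using hb) hlit
    intro χ hχ
    simp only [List.mem_cons, List.not_mem_nil, or_false] at hχ ⊢
    tauto
  · have h1 : -ε * a ≠ β := by
      intro h
      apply ha
      rw [← h]
      have : a + ε * (-ε * a) = a - (ε * ε) * a := by ring
      rw [this, hε, one_mul, sub_self]
    have h2 := hB.one e (-ε * a) β h1
    refine h2.sub ?_ (by simpa using hb) hlit
    intro χ hχ
    simp only [List.mem_cons, List.not_mem_nil, or_false] at hχ ⊢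
    rcases hχ with rfl | rfl
    · exact Or.inl rfl
    · exact Or.inr (Or.inl rfl)

/-- The leaves contain the edges with nonzero coefficients, each one once. -/
structure Rep (c : State E r m D) (κ : E → ZMod r) : Prop where
  val : ∀ q e ε, c q = some (e, ε) → ε = κ e ∧ κ e ≠ 0
  inj : ∀ q q' e ε ε', c q = some (e, ε) → c q' = some (e, ε') → q = q'
  ex : ∀ e, κ e ≠ 0 → ∃ q, c q = some (e, κ e)

/-- A change of one leaf, or no change. -/
def Step (c c' : State E r m D) (e : E) (ε : ZMod r) : Prop :=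
  (c' = c ∧ ε = 0) ∨ (ε * ε = 1 ∧ ∃ q, (∀ q', q' ≠ q → c' q' = c q') ∧
    ((c q = none ∧ c' q = some (e, ε)) ∨ (c q = some (e, -ε) ∧ c' q = none)))

theorem Rep.step (hr : 1 < r) {c : State E r m D} {κ : E → ZMod r} (h : Rep c κ) (e : E)
    {ε : ZMod r} (hε : ε = 0 ∨ (ε * ε = 1 ∧ (κ e = 0 ∨ κ e = -ε)))
    (hcard : (univ.filter fun e => κ e ≠ 0).card < m ^ D) :
    ∃ c', Rep c' (Function.update κ e (κ e + ε)) ∧ Step c c' e ε := by
  classical
  have hone : (1 : ZMod r) ≠ 0 := by
    have : Fact (1 < r) := ⟨hr⟩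
    exact one_ne_zero
  rcases hε with rfl | ⟨hε, h0 | h0⟩
  · refine ⟨c, ?_, Or.inl ⟨rfl, rfl⟩⟩
    rw [add_zero, Function.update_eq_self]
    exact h
  · have hε0 : ε ≠ 0 := by
      rintro rfl
      rw [zero_mul] at hε
      exact hone hε.symm
    obtain ⟨q, hq⟩ : ∃ q, c q = none := by
      by_contra hcon
      push Not at hcon
      have h1 : ∀ q, ∃ x : E × ZMod r, c q = some x := fun q => Option.ne_none_iff_exists'.1 (hcon q)
      choose x hx using h1
      have hinj : Function.Injective fun q => (x q).1 := by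
        intro q q' hqq
        refine h.inj q q' (x q).1 (x q).2 (x q').2 (hx q) ?_
        rw [hx q']
        have : (x q).1 = (x q').1 := hqq
        rw [this]
      have h2 := Finset.card_le_card_of_injOn (s := univ)
        (t := univ.filter fun e => κ e ≠ 0) (fun q => (x q).1)
        (fun q _ => by
          rw [Finset.coe_filter]
          exact ⟨mem_univ _, (h.val q (x q).1 (x q).2 (hx q)).2⟩) hinj.injOn
      rw [card_univ, Fintype.card_fun, Fintype.card_fin, Fintype.card_fin] at h2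
      omega
    refine ⟨Function.update c q (some (e, ε)), ⟨?_, ?_, ?_⟩, Or.inr ⟨hε, q, ?_, Or.inl ⟨hq, ?_⟩⟩⟩
    · intro q' e' ε' h1
      by_cases hqq : q' = q
      · subst hqq
        rw [Function.update_self] at h1
        obtain ⟨rfl, rfl⟩ : e = e' ∧ ε = ε' := by simpa using h1
        rw [Function.update_self, h0, zero_add]
        exact ⟨rfl, hε0⟩
      · rw [Function.update_of_ne hqq] at h1
        obtain ⟨h2, h3⟩ := h.val q' e' ε' h1
        have hne : e' ≠ e := by
          rintro rfl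
          exact h3 h0
        rw [Function.update_of_ne hne]
        exact ⟨h2, h3⟩
    · intro q₁ q₂ e' ε₁ ε₂ h1 h2
      by_cases hq1 : q₁ = q
      · by_cases hq2 : q₂ = q
        · rw [hq1, hq2]
        · exfalso
          rw [hq1, Function.update_self] at h1
          rw [Function.update_of_ne hq2] at h2
          obtain ⟨rfl, rfl⟩ : e = e' ∧ ε = ε₁ := by simpa using h1
          exact (h.val q₂ e ε₂ h2).2 h0
      · by_cases hq2 : q₂ = q
        · exfalso
          rw [hq2, Function.update_self] at h2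
          rw [Function.update_of_ne hq1] at h1
          obtain ⟨rfl, rfl⟩ : e = e' ∧ ε = ε₂ := by simpa using h2
          exact (h.val q₁ e ε₁ h1).2 h0
        · rw [Function.update_of_ne hq1] at h1
          rw [Function.update_of_ne hq2] at h2
          exact h.inj q₁ q₂ e' ε₁ ε₂ h1 h2
    · intro e' h1
      by_cases hee : e' = e
      · subst hee
        rw [Function.update_self, h0, zero_add]
        exact ⟨q, Function.update_self _ _ _⟩
      · rw [Function.update_of_ne hee] at h1 ⊢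
        obtain ⟨q', hq'⟩ := h.ex e' h1
        refine ⟨q', ?_⟩
        have hne : q' ≠ q := by
          rintro rfl
          rw [hq] at hq'
          exact absurd hq' (by simp)
        rw [Function.update_of_ne hne]
        exact hq'
    · intro q' hq'
      exact Function.update_of_ne hq' _ _
    · exact Function.update_self _ _ _
  · have hε0 : ε ≠ 0 := by
      rintro rfl
      rw [zero_mul] at hε
      exact hone hε.symm
    have hκ : κ e ≠ 0 := by
      rw [h0]
      exact neg_ne_zero.2 hε0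
    obtain ⟨q, hq⟩ := h.ex e hκ
    rw [h0] at hq
    refine ⟨Function.update c q none, ⟨?_, ?_, ?_⟩, Or.inr ⟨hε, q, ?_, Or.inr ⟨hq, ?_⟩⟩⟩
    · intro q' e' ε' h1
      by_cases hqq : q' = q
      · subst hqq
        rw [Function.update_self] at h1
        exact absurd h1 (by simp)
      · rw [Function.update_of_ne hqq] at h1
        obtain ⟨h2, h3⟩ := h.val q' e' ε' h1
        have hne : e' ≠ e := by
          rintro rfl
          exact hqq (h.inj q' q e' ε' (-ε) h1 hq)
        rw [Function.update_of_ne hne]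
        exact ⟨h2, h3⟩
    · intro q₁ q₂ e' ε₁ ε₂ h1 h2
      by_cases hq1 : q₁ = q
      · rw [hq1, Function.update_self] at h1
        exact absurd h1 (by simp)
      · by_cases hq2 : q₂ = q
        · rw [hq2, Function.update_self] at h2
          exact absurd h2 (by simp)
        · rw [Function.update_of_ne hq1] at h1
          rw [Function.update_of_ne hq2] at h2
          exact h.inj q₁ q₂ e' ε₁ ε₂ h1 h2
    · intro e' h1
      by_cases hee : e' = e
      · subst hee
        rw [Function.update_self, h0, neg_add_cancel] at h1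
        exact absurd rfl h1
      · rw [Function.update_of_ne hee] at h1 ⊢
        obtain ⟨q', hq'⟩ := h.ex e' h1
        refine ⟨q', ?_⟩
        have hne : q' ≠ q := by
          rintro rfl
          rw [hq] at hq'
          have : e = e' := by
            have := congrArg (fun o : Option (E × ZMod r) => o.map Prod.fst) hq'
            simpa using this
          exact hee this.symm
        rw [Function.update_of_ne hne]
        exact hq'
    · intro q' hq'
      exact Function.update_of_ne hq' _ _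
    · exact Function.update_self _ _ _

theorem step_rel (hB : Base src tgt s Φ At b) (hb : 4 ≤ b) {c c' : State E r m D} {e : E}
    {ε : ZMod r} (h : Step c c' e ε) (hA : stAtoms c ⊆ At) (hA' : stAtoms c' ⊆ At) :
    Rel Φ At b (St c) (St c') (fun β => .var (e, β)) ε := by
  rcases h with ⟨rfl, rfl⟩ | ⟨hε, q, hq, h⟩
  · intro a β
    rw [zero_mul, add_zero]
    have h1 : St c' a ∈ At := hA (node_mem D _ a)
    refine (Sb.em (by omega) h1).sub ?_ (by simp; omega) ?_
    · intro χ hχ
      simp only [List.mem_cons, List.not_mem_nil, or_false] at hχ ⊢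
      tauto
    · intro χ hχ
      simp only [List.mem_cons, List.not_mem_nil, or_false] at hχ
      rcases hχ with rfl | rfl | rfl
      · exact lit_neg h1
      · exact lit_neg (hB.var _)
      · exact lit_pos h1
  · refine node_rel hb (fun β => hB.var _) D _ _ q (fun q' hq' => ?_) ?_ hA hA'
    · show leaf (c' q') = leaf (c q')
      rw [hq q' hq']
    · rcases h with ⟨h1, h2⟩ | ⟨h1, h2⟩
      · show Rel Φ At b (leaf (c q)) (leaf (c' q)) _ ε
        rw [h1, h2]
        exact leaf_add hB (by omega) e hε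
      · show Rel Φ At b (leaf (c q)) (leaf (c' q)) _ ε
        rw [h1, h2]
        exact leaf_rem hB (by omega) e hε

end Pool.Agent.MP_9cec2c_lc.TY
end

section

/-!
The atoms of a tree: subformulas, depth and number.
-/

set_option autoImplicit false
set_option linter.unusedSectionVars false

namespace Pool.Agent.MP_9cec2c_lc.TY

open FG

variable {V : Type} {r m : ℕ} [NeZero r]

theorem parts_disjL' {Λ : List (Form V)} {ψ : Form V} (h : ψ ∈ (disjL Λ).parts) :
    ψ = disjL Λ ∨ ∃ φ ∈ Λ, ψ ∈ φ.parts := by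
  rcases Set.mem_insert_iff.1 h with h1 | h1
  · exact Or.inl h1
  · obtain ⟨i, hi⟩ := Set.mem_iUnion.1 h1
    exact Or.inr ⟨_, List.get_mem Λ i, hi⟩

theorem parts_conjL' {Λ : List (Form V)} {ψ : Form V} (h : ψ ∈ (conjL Λ).parts) :
    ψ = conjL Λ ∨ ∃ φ ∈ Λ, ψ ∈ φ.parts := by
  rcases Set.mem_insert_iff.1 h with h1 | h1
  · exact Or.inl h1
  · obtain ⟨i, hi⟩ := Set.mem_iUnion.1 h1
    exact Or.inr ⟨_, List.get_mem Λ i, hi⟩

theorem mem_cases' {X : Fin m → ZMod r → Form V} {a : ZMod r} {φ : Form V}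
    (h : φ ∈ cases' X a) : ∃ t, φ = conjL (vals X t) := by
  unfold cases' at h
  obtain ⟨t, -, ht⟩ := List.mem_map.1 h
  exact ⟨t, ht.symm⟩

/-- TASK TYDep (1). The set of the atoms is closed under subformulas, if the leaves have no proper
subformulas.

PROOF. Induction on `h`. `FG.Form.parts`: a subformula of `disjL P` is `disjL P` or a subformula of a
member of `P` (`MX.parts_disjL` in MXLines has this proof: copy it); the members of a prefix of
`cases' X a` are `conjL (vals X t)`, which is in `atoms1 X`; a subformula of `conjL P`, `P <+: vals X t`, is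
`conjL P` or a subformula of `X i (t i) = node h _ (t i)`, which is in `atoms h _` by `node_mem`. -/
theorem atoms_parts : ∀ (h : ℕ) (c : (Fin h → Fin m) → ZMod r → Form V),
    (∀ q a, (c q a).parts = {c q a}) → ∀ φ ∈ atoms h c, ∀ ψ ∈ φ.parts, ψ ∈ atoms h c := by
  intro h
  induction h with
  | zero =>
    intro c hc φ hφ ψ hψ
    obtain ⟨a, rfl⟩ := hφ
    rw [hc] at hψ
    rw [Set.mem_singleton_iff.1 hψ]
    exact ⟨a, rfl⟩
  | succ h ih =>
    intro c hc φ hφ ψ hψ
    have hih : ∀ i : Fin m, ∀ φ ∈ atoms h (fun q => c (Fin.cons i q)), ∀ ψ ∈ φ.parts,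
        ψ ∈ atoms h (fun q => c (Fin.cons i q)) :=
      fun i => ih (fun q => c (Fin.cons i q)) (fun q a => hc _ a)
    -- subformulas of a conjunction of values
    have hconj : ∀ (t : Fin m → ZMod r) (P : List (Form V)),
        P <+: vals (fun i => node h fun q => c (Fin.cons i q)) t → ∀ ψ ∈ (conjL P).parts,
          ψ ∈ atoms (h + 1) c := by
      intro t P hP ψ hψ
      rcases parts_conjL' hψ with h1 | ⟨χ, hχ, h1⟩
      · rw [h1]
        exact Or.inl (Or.inr ⟨t, P, hP, rfl⟩)
      · obtain ⟨i, hi⟩ := mem_vals.1 (hP.subset hχ)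
        rw [← hi] at h1
        exact atoms_child h c i (hih i _ (node_mem h _ _) ψ h1)
    rcases hφ with (⟨a, P, hP, rfl⟩ | ⟨t, P, hP, rfl⟩) | hφ
    · rcases parts_disjL' hψ with h1 | ⟨χ, hχ, h1⟩
      · rw [h1]
        exact Or.inl (Or.inl ⟨a, P, hP, rfl⟩)
      · obtain ⟨t, rfl⟩ := mem_cases' (hP.subset hχ)
        exact hconj t _ List.prefix_rfl ψ h1
    · exact hconj t P hP ψ hψ
    · obtain ⟨i, hi⟩ := Set.mem_iUnion.1 hφ
      exact atoms_child h c i (hih i φ hi ψ hψ)

/-- TASK TYDep (2). The depth.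

PROOF. Induction on `h`; `CE.dp_disj`, `CE.dp_conj` in CEList: members of depth `≤ e` give depth
`≤ e + 1`. `node h c a` is an atom, so it has depth `≤ 2 * h` by induction. -/
theorem atoms_depth : ∀ (h : ℕ) (c : (Fin h → Fin m) → ZMod r → Form V),
    (∀ q a, (c q a).depth = 0) → ∀ φ ∈ atoms h c, φ.depth ≤ 2 * h := by
  intro h
  induction h with
  | zero =>
    intro c hc φ hφ
    obtain ⟨a, rfl⟩ := hφ
    rw [hc]
  | succ h ih =>
    intro c hc φ hφ
    have hih : ∀ i : Fin m, ∀ φ ∈ atoms h (fun q => c (Fin.cons i q)), φ.depth ≤ 2 * h :=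
      fun i => ih (fun q => c (Fin.cons i q)) (fun q a => hc _ a)
    have hconj : ∀ (t : Fin m → ZMod r) (P : List (Form V)),
        P <+: vals (fun i => node h fun q => c (Fin.cons i q)) t →
          (conjL P).depth ≤ 2 * h + 1 := by
      intro t P hP
      refine CE.dp_conj fun χ hχ => ?_
      obtain ⟨i, hi⟩ := mem_vals.1 (hP.subset hχ)
      rw [← hi]
      exact hih i _ (node_mem h _ _)
    rcases hφ with (⟨a, P, hP, rfl⟩ | ⟨t, P, hP, rfl⟩) | hφ
    · have h2 : (disjL P).depth ≤ (2 * h + 1) + 1 := by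
        refine CE.dp_disj fun χ hχ => ?_
        obtain ⟨t, rfl⟩ := mem_cases' (hP.subset hχ)
        exact hconj t _ List.prefix_rfl
      omega
    · have := hconj t P hP
      omega
    · obtain ⟨i, hi⟩ := Set.mem_iUnion.1 hφ
      have := hih i φ hi
      omega

/-- The prefixes of a list. -/
theorem prefixes_card (L : List (Form V)) (f : List (Form V) → Form V) :
    {φ | ∃ P, P <+: L ∧ φ = f P}.Finite ∧ {φ | ∃ P, P <+: L ∧ φ = f P}.ncard ≤ L.length + 1 := by
  classical
  have h1 : {φ | ∃ P, P <+: L ∧ φ = f P} ⊆ ((L.inits.map f).toFinset : Set (Form V)) := by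
    rintro φ ⟨P, hP, rfl⟩
    rw [Finset.mem_coe, List.mem_toFinset, List.mem_map]
    exact ⟨P, (List.mem_inits P L).2 hP, rfl⟩
  refine ⟨(Finset.finite_toSet _).subset h1, ?_⟩
  refine (Set.ncard_le_ncard h1 (Finset.finite_toSet _)).trans ?_
  rw [Set.ncard_coe_finset]
  refine (List.toFinset_card_le _).trans ?_
  rw [List.length_map, List.length_inits]

/-- A finite union of finite sets. -/
theorem ncard_iUnion_bound {ι : Type} [Fintype ι] (s : ι → Set (Form V)) (k : ℕ)
    (h : ∀ i, (s i).Finite ∧ (s i).ncard ≤ k) :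
    (⋃ i, s i).Finite ∧ (⋃ i, s i).ncard ≤ Fintype.card ι * k := by
  classical
  refine ⟨Set.finite_iUnion fun i => (h i).1, ?_⟩
  have h1 : (⋃ i, s i) = ((Finset.univ.biUnion fun i => (h i).1.toFinset : Finset (Form V)) :
      Set (Form V)) := by
    ext x
    simp
  rw [h1, Set.ncard_coe_finset]
  refine Finset.card_biUnion_le.trans ?_
  have h2 : ∀ i ∈ (Finset.univ : Finset ι), (h i).1.toFinset.card ≤ k := by
    intro i _
    rw [← Set.ncard_eq_toFinset_card _ (h i).1]
    exact (h i).2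
  refine (Finset.sum_le_card_nsmul _ _ k h2).trans ?_
  rw [Finset.card_univ, smul_eq_mul]

/-- TASK TYDep (3). The number of atoms of one level: there are `n + 1` prefixes of a list of
length `n`, and the tuples with sum `a`, for all `a`, are `r ^ m` tuples.

PROOF. `atoms1 X` is the image of `{(a, k) | k ≤ (cases' X a).length}` under
`(a, k) ↦ disjL ((cases' X a).take k)`, together with the image of `{(t, k) | k ≤ m}`. Number:
`∑ a, (length + 1) + r ^ m * (m + 1) = r ^ m + r + r ^ m * (m + 1)` (`Finset.card_eq_sum_card_fiberwise`,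
or bound `length ≤ r ^ m`: then the first part is at most `r * (r ^ m + 1)`, which also suffices). -/
theorem atoms1_card (X : Fin m → ZMod r → Form V) : (atoms1 X).Finite ∧
    (atoms1 X).ncard ≤ r * (r ^ m + 1) + r ^ m * (m + 1) := by
  classical
  have hlen : ∀ a : ZMod r, (cases' X a).length ≤ r ^ m := by
    intro a
    unfold cases' tuples
    rw [List.length_map, Finset.length_toList]
    refine (Finset.card_filter_le _ _).trans ?_
    rw [Finset.card_univ, Fintype.card_fun, ZMod.card, Fintype.card_fin]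
  have hA : {φ | ∃ a P, P <+: cases' X a ∧ φ = disjL P} =
      ⋃ a : ZMod r, {φ | ∃ P, P <+: cases' X a ∧ φ = disjL P} := by
    ext φ
    simp only [Set.mem_ofPred_eq, Set.mem_iUnion]
  have hB : {φ | ∃ t P, P <+: vals X t ∧ φ = conjL P} =
      ⋃ t : Fin m → ZMod r, {φ | ∃ P, P <+: vals X t ∧ φ = conjL P} := by
    ext φ
    simp only [Set.mem_ofPred_eq, Set.mem_iUnion]
  have h1 := ncard_iUnion_bound (fun a : ZMod r => {φ | ∃ P, P <+: cases' X a ∧ φ = disjL P})
    (r ^ m + 1) (fun a => ⟨(prefixes_card _ disjL).1,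
      (prefixes_card _ disjL).2.trans (Nat.add_le_add_right (hlen a) 1)⟩)
  have h2 := ncard_iUnion_bound
    (fun t : Fin m → ZMod r => {φ | ∃ P, P <+: vals X t ∧ φ = conjL P})
    (m + 1) (fun t => ⟨(prefixes_card _ conjL).1, by
      refine (prefixes_card _ conjL).2.trans ?_
      unfold vals
      rw [List.length_ofFn]⟩)
  rw [ZMod.card] at h1
  rw [Fintype.card_fun, ZMod.card, Fintype.card_fin] at h2
  unfold atoms1
  rw [hA, hB]
  refine ⟨h1.1.union h2.1, (Set.ncard_union_le _ _).trans ?_⟩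
  exact Nat.add_le_add h1.2 h2.2

/-- TASK TYDep (4). The number of atoms.

PROOF. Induction on `h`, with (3) and the union bound:
`r * (r ^ m + 1) + r ^ m * (m + 1) ≤ r ^ (m + 1) * (m + 3)`. -/
theorem atoms_card (hm : 1 ≤ m) : ∀ (h : ℕ) (c : (Fin h → Fin m) → ZMod r → Form V),
    (atoms h c).Finite ∧ (atoms h c).ncard ≤ (h + 1) * m ^ h * (r ^ (m + 1) * (m + 3)) := by
  classical
  have hr : 1 ≤ r := Nat.one_le_iff_ne_zero.2 (NeZero.ne r)
  have hrm : 1 ≤ r ^ m := Nat.one_le_pow _ _ hr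
  have hK : r * (r ^ m + 1) + r ^ m * (m + 1) ≤ r ^ (m + 1) * (m + 3) := by
    rw [pow_succ]
    have h1 : r * 1 ≤ r * r ^ m := Nat.mul_le_mul_left _ hrm
    have h2 : r ^ m * (m + 1) * 1 ≤ r ^ m * (m + 1) * r := Nat.mul_le_mul_left _ hr
    nlinarith
  intro h
  induction h with
  | zero =>
    intro c
    have h0 : atoms 0 c = ⋃ a : ZMod r, {φ | φ = c Fin.elim0 a} := by
      ext φ
      simp only [atoms, Set.mem_ofPred_eq, Set.mem_iUnion]
    have h1 := ncard_iUnion_bound (fun a : ZMod r => {φ | φ = c Fin.elim0 a}) 1 (fun a => by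
      have : {φ | φ = c Fin.elim0 a} = {c Fin.elim0 a} := by
        ext φ
        simp
      rw [this]
      exact ⟨Set.finite_singleton _, (Set.ncard_singleton _).le⟩)
    rw [ZMod.card, mul_one] at h1
    rw [h0]
    refine ⟨h1.1, h1.2.trans ?_⟩
    rw [zero_add, pow_zero, one_mul, one_mul]
    have h2 : r ≤ r ^ (m + 1) := Nat.le_self_pow (by omega) r
    exact h2.trans (Nat.le_mul_of_pos_right _ (by omega))
  | succ h ih =>
    intro c
    have h1 := atoms1_card (fun i : Fin m => node h fun q => c (Fin.cons i q))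
    have h2 := ncard_iUnion_bound (fun i : Fin m => atoms h fun q => c (Fin.cons i q))
      ((h + 1) * m ^ h * (r ^ (m + 1) * (m + 3))) (fun i => ih _)
    rw [Fintype.card_fin] at h2
    have h3 : atoms (h + 1) c = (atoms1 fun i : Fin m => node h fun q => c (Fin.cons i q)) ∪
        ⋃ i : Fin m, atoms h fun q => c (Fin.cons i q) := rfl
    rw [h3]
    refine ⟨h1.1.union h2.1, (Set.ncard_union_le _ _).trans ?_⟩
    refine (Nat.add_le_add (h1.2.trans hK) h2.2).trans ?_
    have h4 : 1 ≤ m ^ (h + 1) := Nat.one_le_pow _ _ hm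
    have h5 : 1 * (r ^ (m + 1) * (m + 3)) ≤ m ^ (h + 1) * (r ^ (m + 1) * (m + 3)) :=
      Nat.mul_le_mul_right _ h4
    have h6 : m * ((h + 1) * m ^ h * (r ^ (m + 1) * (m + 3))) =
        (h + 1) * (m ^ (h + 1) * (r ^ (m + 1) * (m + 3))) := by
      rw [pow_succ]
      ring
    rw [h6]
    have h7 : (h + 1 + 1) * m ^ (h + 1) * (r ^ (m + 1) * (m + 3)) =
        (h + 1) * (m ^ (h + 1) * (r ^ (m + 1) * (m + 3))) +
          m ^ (h + 1) * (r ^ (m + 1) * (m + 3)) := by
      ring
    rw [h7]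
    omega

end Pool.Agent.MP_9cec2c_lc.TY
end

section

/-!
The number, the depth and the subformulas of the lines.
-/

set_option autoImplicit false
set_option linter.unusedSectionVars false

namespace Pool.Agent.MP_9cec2c_lc.TY

open FG

variable {V : Type} {At : Set (Form V)} {c n d : ℕ}


private theorem TYLin_lit (hf : At.Finite) (hn : At.ncard ≤ n) :
    {φ : Form V | Lit At φ}.Finite ∧ {φ : Form V | Lit At φ}.ncard ≤ 2 * n := by
  have e : {φ : Form V | Lit At φ} = At ∪ Form.neg '' At := by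
    ext φ
    constructor
    · rintro (h | ⟨ψ, h, rfl⟩)
      · exact Or.inl h
      · exact Or.inr ⟨ψ, h, rfl⟩
    · rintro (h | ⟨ψ, h, rfl⟩)
      · exact Or.inl h
      · exact Or.inr ⟨ψ, h, rfl⟩
  rw [e]
  refine ⟨hf.union (hf.image _), (Set.ncard_union_le _ _).trans ?_⟩
  have h1 : (Form.neg '' At).ncard ≤ At.ncard := Set.ncard_image_le hf
  omega

private theorem TYLin_lists (hf : At.Finite) (hn : At.ncard ≤ n) (c : ℕ) :
    {Λ : List (Form V) | Λ.length ≤ c ∧ ∀ ψ ∈ Λ, Lit At ψ}.Finite ∧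
      {Λ : List (Form V) | Λ.length ≤ c ∧ ∀ ψ ∈ Λ, Lit At ψ}.ncard ≤ (2 * n + 1) ^ c := by
  obtain ⟨hl1, hl2⟩ := TYLin_lit hf hn
  induction c with
  | zero =>
    have e : {Λ : List (Form V) | Λ.length ≤ 0 ∧ ∀ ψ ∈ Λ, Lit At ψ} ⊆ {[]} := by
      rintro Λ ⟨h, -⟩
      exact List.length_eq_zero_iff.1 (Nat.le_zero.1 h)
    refine ⟨(Set.finite_singleton _).subset e, ?_⟩
    have h1 := Set.ncard_le_ncard e (Set.finite_singleton _)
    rw [Set.ncard_singleton] at h1
    simpa using h1
  | succ c ih =>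
    obtain ⟨ih1, ih2⟩ := ih
    have e : {Λ : List (Form V) | Λ.length ≤ c + 1 ∧ ∀ ψ ∈ Λ, Lit At ψ} ⊆
        {[]} ∪ (fun x : Form V × List (Form V) => x.1 :: x.2) ''
          ({φ : Form V | Lit At φ} ×ˢ {Λ : List (Form V) | Λ.length ≤ c ∧ ∀ ψ ∈ Λ, Lit At ψ}) := by
      rintro Λ ⟨h, h'⟩
      rcases Λ with _ | ⟨φ, Λ⟩
      · exact Or.inl rfl
      · refine Or.inr ⟨(φ, Λ), ⟨h' φ List.mem_cons_self, ?_, fun ψ hψ => h' ψ (List.mem_cons_of_mem _ hψ)⟩, rfl⟩
        rw [List.length_cons] at h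
        show Λ.length ≤ c
        omega
    have hfin := hl1.prod ih1
    have hfin2 := (Set.finite_singleton ([] : List (Form V))).union
      (hfin.image fun x : Form V × List (Form V) => x.1 :: x.2)
    refine ⟨hfin2.subset e, (Set.ncard_le_ncard e hfin2).trans ((Set.ncard_union_le _ _).trans ?_)⟩
    have h1 := Set.ncard_image_le (f := fun x : Form V × List (Form V) => x.1 :: x.2) hfin
    rw [Set.ncard_prod] at h1
    rw [Set.ncard_singleton]
    have h2 := Nat.mul_le_mul hl2 ih2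
    have h3 : 1 ≤ (2 * n + 1) ^ c := Nat.one_le_pow _ _ (Nat.succ_pos _)
    calc 1 + _ ≤ 1 + 2 * n * (2 * n + 1) ^ c := Nat.add_le_add_left (h1.trans h2) 1
      _ ≤ (2 * n + 1) ^ c + 2 * n * (2 * n + 1) ^ c := Nat.add_le_add_right h3 _
      _ = (2 * n + 1) ^ (c + 1) := by ring

private theorem TYLin_image : Lines At c =
    disjL '' {Λ : List (Form V) | Λ.length ≤ c ∧ ∀ ψ ∈ Λ, Lit At ψ} := by
  ext φ
  constructor
  · rintro ⟨Λ, h1, h2, rfl⟩
    exact ⟨Λ, ⟨h1, h2⟩, rfl⟩
  · rintro ⟨Λ, ⟨h1, h2⟩, rfl⟩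
    exact ⟨Λ, h1, h2, rfl⟩

/-- TASK TYLin (1). The number of lines: at most `2 * n` literals, and lists of length at most `c` over
a set with `N` members are at most `(N + 1) ^ c`.

PROOF. The literals are the union of `At` and its image under `Form.neg`. Lists of length `≤ c`: induction on
`c`, `List` of length `≤ c + 1` is `[]` or a cons: `1 + N * (N + 1) ^ c ≤ (N + 1) ^ (c + 1)`. -/
theorem lines_card (hf : At.Finite) (hn : At.ncard ≤ n) :
    (Lines At c).Finite ∧ (Lines At c).ncard ≤ (2 * n + 1) ^ c := by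
  obtain ⟨h1, h2⟩ := TYLin_lists (c := c) hf hn
  rw [TYLin_image]
  exact ⟨h1.image _, (Set.ncard_image_le h1).trans h2⟩

/-- TASK TYLin (2). The depth of the lines (`CE.dp_disj`; negations do not change the depth). -/
theorem lines_depth (hd : ∀ φ ∈ At, φ.depth ≤ d) : ∀ φ ∈ Lines At c, φ.depth ≤ d + 1 := by
  rintro φ ⟨Λ, -, h2, rfl⟩
  refine CE.dp_disj fun ψ hψ => ?_
  rcases h2 ψ hψ with h | ⟨χ, h, rfl⟩
  · exact hd ψ h
  · exact CE.dp_neg (hd χ h)

/-- TASK TYLin (3). The subformulas of the lines: the line, the negations of atoms and the atoms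
(`MX.parts_disjL` in MXLines has the proof for `disjL`: copy it). -/
theorem lines_parts (hp : ∀ φ ∈ At, ∀ ψ ∈ φ.parts, ψ ∈ At) : ∀ φ ∈ Lines At c, ∀ ψ ∈ φ.parts,
    ψ ∈ Lines At c ∨ Lit At ψ := by
  rintro φ ⟨Λ, h1, h2, rfl⟩ ψ hψ
  have hψ' : ψ ∈ insert (disjL Λ) (⋃ i, (Λ.get i).parts) := hψ
  rcases Set.mem_insert_iff.1 hψ' with rfl | h
  · exact Or.inl ⟨Λ, h1, h2, rfl⟩
  · right
    obtain ⟨i, hi⟩ := Set.mem_iUnion.1 h
    obtain ⟨χ, hχ⟩ : ∃ χ, χ = Λ.get i := ⟨_, rfl⟩
    have hm : χ ∈ Λ := by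
      rw [hχ]
      exact List.get_mem Λ i
    rw [← hχ] at hi
    rcases h2 χ hm with h5 | ⟨ξ, h5, rfl⟩
    · exact Or.inl (hp χ h5 ψ hi)
    · have hi' : ψ ∈ insert (Form.neg ξ) ξ.parts := hi
      rcases Set.mem_insert_iff.1 hi' with rfl | h'
      · exact Or.inr ⟨ξ, h5, rfl⟩
      · exact Or.inl (hp ξ h5 ψ h')

/-- TASK TYLin (4). **From `Sb` to derivations.**

PROOF. `Der.exists` in TYRules with `U = Lines At (2 * b)`, `U'` its Finset (TYLin (1)) and `W` the Finset of
`Lines At (2 * b) ∪ {ψ | Lit At ψ}`: `card W ≤ (2 * n + 1) ^ (2 * b) + 2 * n`. Note `disjL [] = falsum`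
(`congrArg`/`funext` on `Fin 0`). -/
theorem sb_exists {Φ : Set (Form V)} {b : ℕ} (hf : At.Finite) (hn : At.ncard ≤ n)
    (hd : ∀ φ ∈ At, φ.depth ≤ d) (hp : ∀ φ ∈ At, ∀ ψ ∈ φ.parts, ψ ∈ At) (h : Sb Φ At b []) :
    ∃ (l : ℕ) (L : Fin l → Form V), IsDerivation tyRules (d + 1) Φ L ∧ (∃ i, L i = falsum) ∧
      (∀ i, L i ∈ Lines At (2 * b)) ∧ size L ≤ 2 * (2 * n + 1) ^ (2 * b) + 2 * n := by
  classical
  obtain ⟨h1, h2⟩ := lines_card (c := 2 * b) hf hn
  obtain ⟨h3, h4⟩ := TYLin_lit hf hn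
  have hfin : (Lines At (2 * b) ∪ {φ : Form V | Lit At φ}).Finite := h1.union h3
  obtain ⟨l, L, hL1, hL2, hL4, hL3⟩ := Der.exists (d := d + 1) h1.toFinset hfin.toFinset
    (fun ψ hψ => h1.mem_toFinset.2 hψ) (lines_depth hd)
    (fun ψ hψ χ hχ => hfin.mem_toFinset.2 (lines_parts hp ψ hψ χ hχ)) h.2.2
  have e : (disjL [] : Form V) = falsum := by
    show Form.disj 0 _ = Form.disj 0 _
    congr 1
    funext i
    exact i.elim0
  refine ⟨l, L, hL1, ?_, hL4, ?_⟩
  · rw [← e]
    exact hL2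
  · refine hL3.trans ?_
    rw [← Set.ncard_eq_toFinset_card _ h1, ← Set.ncard_eq_toFinset_card _ hfin]
    have h5 := Set.ncard_union_le (Lines At (2 * b)) {φ : Form V | Lit At φ}
    omega

end Pool.Agent.MP_9cec2c_lc.TY
end
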