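import Pool.Agent.Lib.MP_9cec2c_lc.TTDefs

section

/-!
Balanced separators from tree decompositions.
-/

set_option autoImplicit false
set_option linter.unusedSectionVars false

namespace Pool.Agent.MP_9cec2c_lc.TY

open Finset
open TT (cut inc HasTreeDec)

variable {V E : Type} [Fintype V] [Fintype E] [DecidableEq V] [DecidableEq E] {src tgt : E → V}


section

variable {I : Type} {par : I → Option I} {rank : I → ℕ} {bag : I → Finset V}

/-- Going up in the tree. -/
private def SepUp (par : I → Option I) (a b : I) : Prop := par a = some b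

private theorem sep_rank (hr : ∀ i j, par i = some j → rank j < rank i) {a b : I}
    (h : Relation.ReflTransGen (SepUp par) a b) : rank b ≤ rank a := by
  induction h with
  | refl => exact le_rfl
  | tail _ h2 ih => exact (hr _ _ h2).le.trans ih

private theorem sep_mono {v : V} {a b : I}
    (h : Relation.ReflTransGen (fun a b => SepUp par a b ∧ v ∈ bag b) a b) :
    Relation.ReflTransGen (SepUp par) a b := by
  induction h with
  | refl => exact Relation.ReflTransGen.refl
  | tail _ h2 ih => exact ih.tail h2.1

private theorem sep_unique : Relator.RightUnique (SepUp par) := by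
  intro a b c h1 h2
  unfold SepUp at h1 h2
  rw [h1] at h2
  exact Option.some_injective _ h2

private theorem sep_top (hr : ∀ i j, par i = some j → rank j < rank i) (v : V) :
    ∀ (n : ℕ) (j : I), rank j < n → v ∈ bag j →
      ∃ i, Relation.ReflTransGen (fun a b => SepUp par a b ∧ v ∈ bag b) j i ∧ v ∈ bag i ∧
        ∀ i', par i = some i' → v ∉ bag i' := by
  intro n
  induction n with
  | zero => intro j hj; omega
  | succ n ih =>
    intro j hj hv
    by_cases h : ∃ i', par j = some i' ∧ v ∈ bag i'
    · obtain ⟨i', h1, h2⟩ := h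
      obtain ⟨i, h3, h4, h5⟩ := ih i' (by have := hr _ _ h1; omega) h2
      exact ⟨i, Relation.ReflTransGen.head ⟨h1, h2⟩ h3, h4, h5⟩
    · push Not at h
      exact ⟨j, Relation.ReflTransGen.refl, hv, h⟩

private theorem sep_root (hr : ∀ i j, par i = some j → rank j < rank i) :
    ∀ (n : ℕ) (j : I), rank j < n → ∃ i, Relation.ReflTransGen (SepUp par) j i ∧ par i = none := by
  intro n
  induction n with
  | zero => intro j hj; omega
  | succ n ih =>
    intro j hj
    cases h : par j with
    | none => exact ⟨j, Relation.ReflTransGen.refl, h⟩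
    | some i' =>
      obtain ⟨i, h3, h4⟩ := ih i' (by have := hr _ _ h; omega)
      exact ⟨i, Relation.ReflTransGen.head h h3, h4⟩

/-- Two children of `i` which are ancestors of the same node are equal. -/
private theorem sep_child (hr : ∀ i j, par i = some j → rank j < rank i) {i c c' j : I}
    (hc : par c = some i) (hc' : par c' = some i)
    (h : Relation.ReflTransGen (SepUp par) j c) (h' : Relation.ReflTransGen (SepUp par) j c') :
    c = c' := by
  have key : ∀ x y : I, par x = some i → par y = some i →
      Relation.ReflTransGen (SepUp par) x y → x = y := by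
    intro x y hx hy hxy
    rcases Relation.ReflTransGen.cases_head hxy with h1 | ⟨a, h1, h2⟩
    · exact h1
    · exfalso
      unfold SepUp at h1
      rw [hx] at h1
      obtain rfl := Option.some_injective _ h1
      have h3 := sep_rank hr h2
      have h4 := hr _ _ hy
      omega
  rcases Relation.ReflTransGen.total_of_right_unique sep_unique h h' with h1 | h1
  · exact key _ _ hc hc' h1
  · exact (key _ _ hc' hc h1).symm

/-- A path through bags containing `u` does not leave the subtree of the child `c` of `i`. -/
private theorem sep_stay {u : V} {i c : I} (hc : par c = some i) (hu : u ∉ bag i) {j a : I}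
    (hj : Relation.ReflTransGen (SepUp par) j c)
    (h : Relation.ReflTransGen (fun a b => SepUp par a b ∧ u ∈ bag b) j a) :
    Relation.ReflTransGen (SepUp par) a c := by
  induction h with
  | refl => exact hj
  | @tail x y _ h2 ih =>
    rcases Relation.ReflTransGen.cases_head ih with h3 | ⟨z, h3, h4⟩
    · exfalso
      have h5 : par x = some y := h2.1
      rw [h3, hc] at h5
      obtain rfl := Option.some_injective _ h5
      exact hu h2.2
    · have h5 : y = z := sep_unique h2.1 h3
      rw [h5]
      exact h4

end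

/-- TASK TYSep. Every set `U` of vertices of a graph with a tree decomposition with bags of at most `k`
vertices has a balanced separator `B`: the rest of `U` is divided into classes (the values of `g`) with at most
half of the vertices of `U`, and no edge joins different classes.

PROOF. Let `D i` be the set of the descendants `j` of the node `i` (some iterate of `par` leads from `j` to `i`,
including `j = i`). Call `i` a top of `v` if `v ∈ bag i` and `v ∉ bag i'` for the parent `i'` (or `i` has no parent).
Every vertex has a top (start with any `i` with `v ∈ bag i` and go up while the parent contains `v`; the rank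
decreases), it is unique by the last condition of `HasTreeDec`, and every `j` with `v ∈ bag j` is in `D (top v)` (go
up from `j` to a top). Let `f i = #{v ∈ U | top v ∈ D i}`. The root `i₀` (the node without parent; it exists as
the rank decreases if `V` is nonempty; every node is in `D i₀`) has `f i₀ = #U`. If `#U = 0`, take `B = ∅`.
Otherwise choose a node `i` of maximal rank with `2 * f i > #U`. Put `B = U ∩ bag i`, so `#B ≤ k`. Define `g v` for
`v ∈ U \ B`: if `top v ∈ D c` for a child `c` of `i` (`par c = some i`; the child is unique since `top v` has a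
unique path upwards; its rank is larger), then `g v = some c`, otherwise `g v = none`.
Classes: for a child `c`, `f c ≤ #U / 2` by the choice of `i` (`rank i < rank c`). The vertices of the class `none`
have `top v ∉ D i` (if `top v = i`, then `v ∈ bag i`, so `v ∈ B`; a descendant of `i` other than `i` is a descendant of
a child), their number is `< #U - #U / 2`, so `2 * number ≤ #U`.
Edges: let both ends `u`, `v` of an edge be in `U \ B`, let `j` be a node with `u, v ∈ bag j`. If `j ∈ D c` for a
child `c` of `i`: `top u` is an ancestor of `j`, all nodes on the path from `j` to `top u` contain `u` (they are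
below the top; the nodes which contain `u` are a subtree), and `u ∉ bag i`, so the path does not reach `i`, and
`top u ∈ D c`, so `g u = some c`; the same for `v`. If `j ∉ D i` or `j = i` (impossible as `u ∉ bag i`): then
`top u`, an ancestor of `j`, is not in `D i`, so `g u = none = g v`.
(That all nodes between `j` and `top u` contain `u`: go up from `j` while the parent contains `u`; this ends in a
top of `u`, which is `top u` by uniqueness.) -/
theorem exists_separator {k : ℕ} (h : HasTreeDec src tgt k) (U : Finset V) :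
    ∃ (B : Finset V) (G : Type) (_ : DecidableEq G) (g : V → G), B ⊆ U ∧ B.card ≤ k ∧
      (∀ u ∈ U \ B, 2 * ((U \ B).filter fun v => g v = g u).card ≤ U.card) ∧
      ∀ e, src e ∈ U \ B → tgt e ∈ U \ B → g (src e) = g (tgt e) := by
  classical
  obtain ⟨I, _, par, rank, bag, hr, hroot, hcard, hv, he, htop⟩ := h
  have hex : ∀ v, ∃ i, v ∈ bag i ∧ ∀ i', par i = some i' → v ∉ bag i' := by
    intro v
    obtain ⟨j, hj⟩ := hv v
    obtain ⟨i, _, h2, h3⟩ := sep_top hr v (rank j + 1) j (Nat.lt_succ_self _) hj
    exact ⟨i, h2, h3⟩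
  choose top ht1 ht2 using hex
  have hpath : ∀ v j, v ∈ bag j →
      Relation.ReflTransGen (fun a b => SepUp par a b ∧ v ∈ bag b) j (top v) := by
    intro v j hj
    obtain ⟨i, h1, h2, h3⟩ := sep_top hr v (rank j + 1) j (Nat.lt_succ_self _) hj
    rw [htop v (top v) i (ht1 v) h2 (ht2 v) h3]
    exact h1
  have hpath' : ∀ v j, v ∈ bag j → Relation.ReflTransGen (SepUp par) j (top v) :=
    fun v j hj => sep_mono (hpath v j hj)
  rcases U.eq_empty_or_nonempty with rfl | ⟨v₀, hv₀⟩
  · exact ⟨∅, Unit, inferInstance, fun _ => (), by simp, by simp, by simp, by simp⟩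
  obtain ⟨i₀, hi₀, hn₀⟩ := sep_root hr (rank (top v₀) + 1) (top v₀) (Nat.lt_succ_self _)
  have hall : ∀ j, Relation.ReflTransGen (SepUp par) j i₀ := by
    intro j
    obtain ⟨i, h1, h2⟩ := sep_root hr (rank j + 1) j (Nat.lt_succ_self _)
    rw [hroot i₀ i hn₀ h2]
    exact h1
  let f : I → ℕ := fun i => (U.filter fun v => Relation.ReflTransGen (SepUp par) (top v) i).card
  have hS : (univ.filter fun i => U.card < 2 * f i).Nonempty := by
    refine ⟨i₀, ?_⟩
    rw [mem_filter]
    refine ⟨mem_univ _, ?_⟩
    have h1 : f i₀ = U.card := by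
      change (U.filter fun v => Relation.ReflTransGen (SepUp par) (top v) i₀).card = U.card
      rw [filter_true_of_mem fun v _ => hall (top v)]
    have h2 : 0 < U.card := card_pos.2 ⟨v₀, hv₀⟩
    omega
  obtain ⟨i, hi, hmax⟩ := exists_max_image _ rank hS
  have hfi : U.card < 2 * f i := (mem_filter.1 hi).2
  have hfc : ∀ c, par c = some i → 2 * f c ≤ U.card := by
    intro c hc
    by_contra h
    push Not at h
    have h1 := hmax c (mem_filter.2 ⟨mem_univ _, h⟩)
    have h2 := hr _ _ hc
    omega
  let g : V → Option I := fun v =>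
    if h : ∃ c, par c = some i ∧ Relation.ReflTransGen (SepUp par) (top v) c then
      some h.choose else none
  have hgs : ∀ v c, par c = some i → Relation.ReflTransGen (SepUp par) (top v) c →
      g v = some c := by
    intro v c hc h
    have hex : ∃ c, par c = some i ∧ Relation.ReflTransGen (SepUp par) (top v) c := ⟨c, hc, h⟩
    change (if h : ∃ c, par c = some i ∧ Relation.ReflTransGen (SepUp par) (top v) c then
      some h.choose else none) = some c
    rw [dif_pos hex]
    congr 1
    exact sep_child hr hex.choose_spec.1 hc hex.choose_spec.2 h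
  have hgs' : ∀ v c, g v = some c → par c = some i ∧
      Relation.ReflTransGen (SepUp par) (top v) c := by
    intro v c hvc
    by_cases hex : ∃ c, par c = some i ∧ Relation.ReflTransGen (SepUp par) (top v) c
    · obtain ⟨c', h1, h2⟩ := hex
      rw [hgs v c' h1 h2] at hvc
      obtain rfl := Option.some_injective _ hvc
      exact ⟨h1, h2⟩
    · exfalso
      have h3 : g v = none := dif_neg hex
      rw [h3] at hvc
      exact Option.some_ne_none c hvc.symm
  have hgn : ∀ v, ¬ Relation.ReflTransGen (SepUp par) (top v) i → g v = none := by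
    intro v hvi
    refine dif_neg ?_
    rintro ⟨c, h1, h2⟩
    exact hvi (h2.tail h1)
  have hgn' : ∀ v, v ∉ bag i → g v = none → ¬ Relation.ReflTransGen (SepUp par) (top v) i := by
    intro v hvb hg h
    rcases Relation.ReflTransGen.cases_tail h with h1 | ⟨c, h1, h2⟩
    · exact hvb (by rw [h1]; exact ht1 v)
    · rw [hgs v c h2 h1] at hg
      exact Option.some_ne_none c hg
  have hB : ∀ v, v ∈ U \ (U ∩ bag i) → v ∈ U ∧ v ∉ bag i := by
    intro v h
    rw [mem_sdiff, mem_inter] at h
    exact ⟨h.1, fun h2 => h.2 ⟨h.1, h2⟩⟩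
  have hend : ∀ v j, v ∉ bag i → v ∈ bag j →
      (∀ c, par c = some i → Relation.ReflTransGen (SepUp par) j c → g v = some c) ∧
      (¬ Relation.ReflTransGen (SepUp par) j i → g v = none) := by
    intro v j hvi hvj
    refine ⟨fun c hc hjc => hgs v c hc (sep_stay hc hvi hjc (hpath v j hvj)), fun hji => ?_⟩
    exact hgn v fun h => hji ((hpath' v j hvj).trans h)
  refine ⟨U ∩ bag i, Option I, inferInstance, g, inter_subset_left,
    (card_le_card inter_subset_right).trans (hcard i), ?_, ?_⟩
  · intro u hu
    cases hgu : g u with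
    | some c =>
      obtain ⟨h1, h2⟩ := hgs' u c hgu
      refine le_trans (Nat.mul_le_mul_left 2 (card_le_card ?_)) (hfc c h1)
      intro v hv
      rw [mem_filter] at hv ⊢
      exact ⟨(hB v hv.1).1, (hgs' v c hv.2).2⟩
    | none =>
      have h1 : ((U \ (U ∩ bag i)).filter fun v => g v = none).card ≤
          (U.filter fun v => ¬ Relation.ReflTransGen (SepUp par) (top v) i).card := by
        refine card_le_card ?_
        intro v hv
        rw [mem_filter] at hv ⊢
        exact ⟨(hB v hv.1).1, hgn' v (hB v hv.1).2 hv.2⟩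
      have h2 : f i + (U.filter fun v => ¬ Relation.ReflTransGen (SepUp par) (top v) i).card =
          U.card := card_filter_add_card_filter_not _
      omega
  · intro e h1 h2
    obtain ⟨j, hj1, hj2⟩ := he e
    have hs := hend (src e) j (hB _ h1).2 hj1
    have ht := hend (tgt e) j (hB _ h2).2 hj2
    by_cases hji : Relation.ReflTransGen (SepUp par) j i
    · rcases Relation.ReflTransGen.cases_tail hji with h3 | ⟨c, h3, h4⟩
      · exfalso
        exact (hB _ h1).2 (by rw [h3]; exact hj1)
      · rw [hs.1 c h4 h3, ht.1 c h4 h3]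
    · rw [hs.2 hji, ht.2 hji]

end Pool.Agent.MP_9cec2c_lc.TY
end

section

/-!
Orders of the vertices with small cuts.
-/

set_option autoImplicit false
set_option linter.unusedSectionVars false

namespace Pool.Agent.MP_9cec2c_lc.TY

open Finset
open TT (cut inc HasTreeDec)

variable {V E : Type} [Fintype V] [Fintype E] [DecidableEq V] [DecidableEq E] {src tgt : E → V}

/-- The edges inside `U` with exactly one end in `P`. -/
def cutIn (src tgt : E → V) (U P : Finset V) : Finset E :=
  univ.filter fun e => src e ∈ U ∧ tgt e ∈ U ∧ ¬ (src e ∈ P ↔ tgt e ∈ P)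

theorem mem_cutIn {U P : Finset V} {e : E} : e ∈ cutIn src tgt U P ↔
    src e ∈ U ∧ tgt e ∈ U ∧ ¬ (src e ∈ P ↔ tgt e ∈ P) := by
  unfold cutIn
  rw [mem_filter]
  exact ⟨fun h => h.2, fun h => ⟨mem_univ _, h⟩⟩

theorem prefix_append_cases {X : Type} {P l₁ l₂ : List X} (h : P <+: l₁ ++ l₂) :
    P <+: l₁ ∨ ∃ P', P' <+: l₂ ∧ P = l₁ ++ P' := by
  rw [List.prefix_iff_eq_take, List.take_append] at h
  rcases le_total P.length l₁.length with h1 | h1
  · left
    rw [Nat.sub_eq_zero_of_le h1, List.take_zero, List.append_nil] at h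
    rw [h]
    exact List.take_prefix _ _
  · right
    rw [List.take_of_length_le h1] at h
    exact ⟨_, List.take_prefix _ _, h⟩

theorem mem_foldr_union {Us : List (Finset V)} {v : V} :
    v ∈ Us.foldr (· ∪ ·) ∅ ↔ ∃ A ∈ Us, v ∈ A := by
  induction Us with
  | nil => simp
  | cons A Us ih =>
    rw [List.foldr_cons, mem_union, ih]
    simp

/-- A set which is divided into parts without edges between them: the orders of the parts are put one
after another. -/
theorem order_join {n : ℕ} : ∀ Us : List (Finset V),
    (Us.Pairwise fun A A' => Disjoint A A' ∧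
      ∀ e, ¬ (src e ∈ A ∧ tgt e ∈ A') ∧ ¬ (src e ∈ A' ∧ tgt e ∈ A)) →
    (∀ A ∈ Us, ∃ l : List V, l.Nodup ∧ l.toFinset = A ∧
      ∀ P, P <+: l → (cutIn src tgt A P.toFinset).card ≤ n) →
    ∃ l : List V, l.Nodup ∧ l.toFinset = Us.foldr (· ∪ ·) ∅ ∧
      ∀ P, P <+: l → (cutIn src tgt (Us.foldr (· ∪ ·) ∅) P.toFinset).card ≤ n := by
  intro Us
  induction Us with
  | nil =>
    intro _ _
    refine ⟨[], List.nodup_nil, rfl, fun P hP => ?_⟩
    have h1 : cutIn src tgt ([].foldr (· ∪ ·) ∅ : Finset V) P.toFinset = ∅ := by
      ext e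
      rw [mem_cutIn]
      simp
    rw [h1, card_empty]
    exact Nat.zero_le _
  | cons A Us ih =>
    intro hp h
    rw [List.pairwise_cons] at hp
    obtain ⟨l₁, h1, h2, h3⟩ := h A List.mem_cons_self
    obtain ⟨l₂, k1, k2, k3⟩ := ih hp.2 fun A' hA' => h A' (List.mem_cons_of_mem _ hA')
    rw [List.foldr_cons]
    obtain ⟨U, hU⟩ : ∃ U, U = Us.foldr (· ∪ ·) ∅ := ⟨_, rfl⟩
    rw [← hU] at k2 k3 ⊢
    have hdis : ∀ v, v ∈ A → v ∈ U → False := by
      intro v hv hv'
      rw [hU, mem_foldr_union] at hv'
      obtain ⟨A', hA', hv'⟩ := hv'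
      exact disjoint_left.1 (hp.1 A' hA').1 hv hv'
    have hno : ∀ e, ¬ (src e ∈ A ∧ tgt e ∈ U) ∧ ¬ (src e ∈ U ∧ tgt e ∈ A) := by
      intro e
      rw [hU, mem_foldr_union, mem_foldr_union]
      constructor
      · rintro ⟨h4, A', hA', h5⟩
        exact ((hp.1 A' hA').2 e).1 ⟨h4, h5⟩
      · rintro ⟨⟨A', hA', h5⟩, h4⟩
        exact ((hp.1 A' hA').2 e).2 ⟨h5, h4⟩
    refine ⟨l₁ ++ l₂, ?_, ?_, fun P hP => ?_⟩
    · refine List.nodup_append'.2 ⟨h1, k1, ?_⟩
      intro v hv hv'
      refine hdis v ?_ ?_
      · rw [← h2]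
        exact List.mem_toFinset.2 hv
      · rw [← k2]
        exact List.mem_toFinset.2 hv'
    · rw [List.toFinset_append, h2, k2]
    · rcases prefix_append_cases hP with hP' | ⟨P', hP', rfl⟩
      · refine (card_le_card fun e he => ?_).trans (h3 P hP')
        rw [mem_cutIn, mem_union, mem_union] at he
        rw [mem_cutIn]
        have hPA : ∀ v, v ∈ P.toFinset → v ∈ A := by
          intro v hv
          rw [← h2]
          exact List.mem_toFinset.2 (hP'.subset (List.mem_toFinset.1 hv))
        obtain ⟨h4, h5, h6⟩ := he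
        have h7 := hno e
        by_cases hs : src e ∈ A
        · by_cases ht : tgt e ∈ A
          · exact ⟨hs, ht, h6⟩
          · exact absurd ⟨hs, h5.resolve_left ht⟩ h7.1
        · by_cases ht : tgt e ∈ A
          · exact absurd ⟨h4.resolve_left hs, ht⟩ h7.2
          · exact absurd ⟨fun h => absurd (hPA _ h) hs, fun h => absurd (hPA _ h) ht⟩ h6
      · refine (card_le_card fun e he => ?_).trans (k3 P' hP')
        rw [mem_cutIn, mem_union, mem_union, List.toFinset_append, mem_union, mem_union, h2] at he
        rw [mem_cutIn]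
        obtain ⟨h4, h5, h6⟩ := he
        have h7 := hno e
        by_cases hs : src e ∈ A
        · by_cases ht : tgt e ∈ A
          · exact absurd ⟨fun _ => Or.inl ht, fun _ => Or.inl hs⟩ h6
          · exact absurd ⟨hs, h5.resolve_left ht⟩ h7.1
        · by_cases ht : tgt e ∈ A
          · exact absurd ⟨h4.resolve_left hs, ht⟩ h7.2
          · refine ⟨h4.resolve_left hs, h5.resolve_left ht, fun h8 => h6 ?_⟩
            constructor
            · rintro (h9 | h9)
              · exact absurd h9 hs
              · exact Or.inr (h8.1 h9)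
            · rintro (h9 | h9)
              · exact absurd h9 ht
              · exact Or.inr (h8.2 h9)

/-- Orders with small cuts. -/
theorem exists_order_aux {k Δ : ℕ} (h : HasTreeDec src tgt k)
    (hΔ : ∀ v, (inc src tgt v).card ≤ Δ) : ∀ (n : ℕ) (U : Finset V), U.card ≤ n →
    ∃ l : List V, l.Nodup ∧ l.toFinset = U ∧ ∀ P, P <+: l →
      (cutIn src tgt U P.toFinset).card ≤ Δ * k * (Nat.log 2 U.card + 1) := by
  classical
  intro n
  induction n with
  | zero =>
    intro U hU
    have hU0 : U = ∅ := card_eq_zero.1 (Nat.le_zero.1 hU)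
    subst hU0
    refine ⟨[], List.nodup_nil, rfl, fun P hP => ?_⟩
    have h1 : cutIn src tgt (∅ : Finset V) P.toFinset = ∅ := by
      ext e
      rw [mem_cutIn]
      simp
    rw [h1, card_empty]
    exact Nat.zero_le _
  | succ n ih =>
    intro U hU
    rcases Nat.eq_zero_or_pos U.card with h0 | h0
    · exact ih U (by omega)
    obtain ⟨B, G, hG, g, hB1, hB2, hB3, hB4⟩ := exists_separator h U
    obtain ⟨W, hW⟩ : ∃ W, W = U \ B := ⟨_, rfl⟩
    rw [← hW] at hB3 hB4
    obtain ⟨Us, hUs⟩ : ∃ Us : List (Finset V),
        Us = (W.image fun u => W.filter fun v => g v = g u).toList := ⟨_, rfl⟩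
    have hmem : ∀ A, A ∈ Us ↔ ∃ u ∈ W, (W.filter fun v => g v = g u) = A := by
      intro A
      rw [hUs, mem_toList, mem_image]
    have hpw : Us.Pairwise fun A A' => Disjoint A A' ∧
        ∀ e, ¬ (src e ∈ A ∧ tgt e ∈ A') ∧ ¬ (src e ∈ A' ∧ tgt e ∈ A) := by
      have hnd : Us.Nodup := by
        rw [hUs]
        exact nodup_toList _
      refine hnd.pairwise_of_forall_ne fun A hA A' hA' hne => ?_
      obtain ⟨u, hu, rfl⟩ := (hmem A).1 hA
      obtain ⟨u', hu', rfl⟩ := (hmem A').1 hA'
      have hgu : g u ≠ g u' := by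
        intro h1
        apply hne
        simp only [h1]
      refine ⟨?_, fun e => ⟨?_, ?_⟩⟩
      · rw [disjoint_left]
        intro v hv hv'
        rw [mem_filter] at hv hv'
        exact hgu (hv.2.symm.trans hv'.2)
      · rintro ⟨h1, h2⟩
        rw [mem_filter] at h1 h2
        exact hgu (h1.2.symm.trans ((hB4 e h1.1 h2.1).trans h2.2))
      · rintro ⟨h1, h2⟩
        rw [mem_filter] at h1 h2
        exact hgu (h2.2.symm.trans ((hB4 e h1.1 h2.1).symm.trans h1.2))
    obtain ⟨l', h1, h2, h3⟩ := order_join (n := Δ * k * Nat.log 2 U.card) Us hpw (fun A hA => by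
      obtain ⟨u, hu, rfl⟩ := (hmem A).1 hA
      have h4 := hB3 u hu
      obtain ⟨A, hA'⟩ : ∃ A, A = W.filter fun v => g v = g u := ⟨_, rfl⟩
      rw [← hA'] at h4 ⊢
      have h5 : 0 < A.card := by
        refine card_pos.2 ⟨u, ?_⟩
        rw [hA', mem_filter]
        exact ⟨hu, rfl⟩
      obtain ⟨l, k1, k2, k3⟩ := ih A (by omega)
      refine ⟨l, k1, k2, fun P hP => (k3 P hP).trans (Nat.mul_le_mul_left _ ?_)⟩
      rw [← Nat.log_mul_base (by norm_num) (by omega)]
      exact Nat.log_mono_right (by omega))
    have hfold : Us.foldr (· ∪ ·) ∅ = W := by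
      ext v
      rw [mem_foldr_union]
      constructor
      · rintro ⟨A, hA, hv⟩
        obtain ⟨u, hu, rfl⟩ := (hmem A).1 hA
        exact (mem_filter.1 hv).1
      · intro hv
        exact ⟨_, (hmem _).2 ⟨v, hv, rfl⟩, mem_filter.2 ⟨hv, rfl⟩⟩
    rw [hfold] at h2 h3
    have hinc : (B.biUnion fun v => inc src tgt v).card ≤ Δ * k := by
      refine (card_biUnion_le_card_mul _ _ Δ fun v _ => hΔ v).trans ?_
      rw [mul_comm]
      exact Nat.mul_le_mul_left _ hB2
    have hincB : ∀ e, (src e ∈ B ∨ tgt e ∈ B) → e ∈ B.biUnion fun v => inc src tgt v := by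
      intro e he
      rw [mem_biUnion]
      rcases he with he | he
      · exact ⟨_, he, mem_filter.2 ⟨mem_univ _, Or.inl rfl⟩⟩
      · exact ⟨_, he, mem_filter.2 ⟨mem_univ _, Or.inr rfl⟩⟩
    have hle : ∀ X : Finset E, X.card ≤ Δ * k * Nat.log 2 U.card →
        ∀ Y : Finset E, Y ⊆ (B.biUnion fun v => inc src tgt v) ∪ X →
        Y.card ≤ Δ * k * (Nat.log 2 U.card + 1) := by
      intro X hX Y hY
      refine (card_le_card hY).trans ((card_union_le _ _).trans ?_)
      rw [mul_add, mul_one, add_comm]
      exact Nat.add_le_add hX hinc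
    have hUW : ∀ v, v ∈ U → v ∉ B → v ∈ W := by
      intro v hv hv'
      rw [hW]
      exact mem_sdiff.2 ⟨hv, hv'⟩
    refine ⟨B.toList ++ l', ?_, ?_, fun P hP => ?_⟩
    · refine List.nodup_append'.2 ⟨nodup_toList _, h1, ?_⟩
      intro v hv hv'
      have h4 : v ∈ W := by
        rw [← h2]
        exact List.mem_toFinset.2 hv'
      rw [hW] at h4
      exact (mem_sdiff.1 h4).2 (mem_toList.1 hv)
    · rw [List.toFinset_append, toList_toFinset, h2, hW]
      exact union_sdiff_of_subset hB1
    · rcases prefix_append_cases hP with hP' | ⟨P', hP', rfl⟩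
      · refine hle ∅ (by rw [card_empty]; exact Nat.zero_le _) _ fun e he => ?_
        rw [mem_cutIn] at he
        refine mem_union_left _ (hincB e ?_)
        have hPB : ∀ v, v ∈ P.toFinset → v ∈ B := fun v hv =>
          mem_toList.1 (hP'.subset (List.mem_toFinset.1 hv))
        by_contra hcon
        rw [not_or] at hcon
        exact he.2.2 ⟨fun h => absurd (hPB _ h) hcon.1, fun h => absurd (hPB _ h) hcon.2⟩
      · refine hle (cutIn src tgt W P'.toFinset) (h3 P' hP') _ fun e he => ?_
        rw [mem_cutIn, List.toFinset_append, mem_union, mem_union, toList_toFinset] at he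
        by_cases hb : src e ∈ B ∨ tgt e ∈ B
        · exact mem_union_left _ (hincB e hb)
        · rw [not_or] at hb
          refine mem_union_right _ (mem_cutIn.2 ⟨hUW _ he.1 hb.1, hUW _ he.2.1 hb.2, fun h4 => ?_⟩)
          refine he.2.2 ⟨?_, ?_⟩
          · rintro (h5 | h5)
            · exact absurd h5 hb.1
            · exact Or.inr (h4.1 h5)
          · rintro (h5 | h5)
            · exact absurd h5 hb.2
            · exact Or.inr (h4.2 h5)

/-- An order of all vertices. -/
theorem exists_order {k Δ : ℕ} (h : HasTreeDec src tgt k)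
    (hΔ : ∀ v, (inc src tgt v).card ≤ Δ) : ∃ l : List V, l.Nodup ∧ (∀ v, v ∈ l) ∧ ∀ P, P <+: l →
      (cut src tgt P.toFinset).card ≤ Δ * k * (Nat.log 2 (Fintype.card V) + 1) := by
  obtain ⟨l, h1, h2, h3⟩ := exists_order_aux h hΔ _ univ le_rfl
  refine ⟨l, h1, fun v => ?_, fun P hP => ?_⟩
  · rw [← List.mem_toFinset, h2]
    exact mem_univ v
  · have h4 := h3 P hP
    rw [card_univ] at h4
    refine (card_le_card fun e he => ?_).trans h4
    rw [mem_cutIn]
    exact ⟨mem_univ _, mem_univ _, (mem_filter.1 he).2⟩

end Pool.Agent.MP_9cec2c_lc.TY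
end
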