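import Pool.Agent.Lib.MP_9cec2c_lc.Mg.G025
import Pool.Agent.Lib.MP_9cec2c_lc.Mg.G026
import Pool.Agent.Lib.MP_9cec2c_lc.Mg.G023
import Pool.Agent.Lib.MP_9cec2c_lc.TWBoth
import Pool.Agent.Lib.MP_9cec2c_lc.TUFin

section

/-!
Refutations of Tseitin formulas of graphs of small treewidth.
-/

set_option autoImplicit false
set_option linter.unusedSectionVars false

namespace Pool.Agent.MP_9cec2c_lc.TY

open Finset FG
open TT (cut inc coef tseitin tseitinCNF HasTreeDec)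
open MX (CountFree)

section

variable {V E : Type} [Fintype V] [Fintype E] [DecidableEq V] [DecidableEq E] {src tgt : E → V}

theorem treeDec_min {w : ℕ} (h : HasTreeDec src tgt w) :
    HasTreeDec src tgt (min w (Fintype.card V)) := by
  obtain ⟨I, hI, par, rank, bag, h1, h2, h3, h4⟩ := h
  exact ⟨I, hI, par, rank, bag, h1, h2, fun i => le_min (h3 i) (card_le_univ _), h4⟩

theorem treeDec_pos {w : ℕ} (h : HasTreeDec src tgt w) (hV : 0 < Fintype.card V) : 1 ≤ w := by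
  obtain ⟨I, hI, par, rank, bag, h1, h2, h3, h4, -⟩ := h
  obtain ⟨v⟩ := Fintype.card_pos_iff.1 hV
  obtain ⟨i, hi⟩ := h4 v
  exact (card_pos.2 ⟨v, hi⟩).trans_le (h3 i)

theorem treeDec_mono {w w' : ℕ} (h : HasTreeDec src tgt w) (hw : w ≤ w') :
    HasTreeDec src tgt w' := by
  obtain ⟨I, hI, par, rank, bag, h1, h2, h3, h4⟩ := h
  exact ⟨I, hI, par, rank, bag, h1, h2, fun i => (h3 i).trans hw, h4⟩

end

/-- The least `m` with `k < m ^ D`. -/
theorem exists_base (k : ℕ) {D : ℕ} (hD : 1 ≤ D) : ∃ m : ℕ, 1 ≤ m ∧ k < m ^ D ∧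
    (m : ℝ) ≤ 1 + (k : ℝ) ^ ((1 : ℝ) / D) ∧ m ^ D ≤ 2 ^ D * (k + 1) := by
  classical
  have hex : ∃ m : ℕ, k < m ^ D :=
    ⟨k + 1, (Nat.lt_succ_self k).trans_le (Nat.le_self_pow (by omega) _)⟩
  have h1 := Nat.find_spec hex
  have h0 : 1 ≤ Nat.find hex := by
    rcases Nat.eq_zero_or_pos (Nat.find hex) with h | h
    · rw [h, Nat.zero_pow (by omega)] at h1
      omega
    · exact h
  obtain ⟨m', hm'⟩ : ∃ m', Nat.find hex = m' + 1 := ⟨Nat.find hex - 1, by omega⟩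
  have h2 : m' ^ D ≤ k := by
    have := Nat.find_min hex (m := m') (by omega)
    omega
  have hD' : (D : ℝ) ≠ 0 := by
    have : (0 : ℝ) < D := by exact_mod_cast hD
    exact this.ne'
  refine ⟨m' + 1, by omega, ?_, ?_, ?_⟩
  · rw [← hm']
    exact h1
  · have h3 : (m' : ℝ) = ((m' : ℝ) ^ D) ^ ((1 : ℝ) / D) := by
      rw [one_div, Real.pow_rpow_inv_natCast (Nat.cast_nonneg _) (by omega)]
    have h4 : ((m' : ℝ) ^ D) ^ ((1 : ℝ) / D) ≤ (k : ℝ) ^ ((1 : ℝ) / D) := by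
      refine Real.rpow_le_rpow (by positivity) ?_ (by positivity)
      exact_mod_cast h2
    push_cast
    linarith
  · rcases Nat.eq_zero_or_pos m' with h | h
    · rw [h, zero_add, one_pow]
      exact Nat.one_le_iff_ne_zero.2 (by positivity)
    · calc (m' + 1) ^ D ≤ (2 * m') ^ D := Nat.pow_le_pow_left (by omega) _
        _ = 2 ^ D * m' ^ D := mul_pow _ _ _
        _ ≤ 2 ^ D * (k + 1) := Nat.mul_le_mul_left _ (by omega)

theorem log_le (n : ℕ) (hn : 1 ≤ n) :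
    ((Nat.log 2 n + 1 : ℕ) : ℝ) ≤ 3 * Real.log (n + 2) := by
  have h1 : (2 : ℝ) ^ Nat.log 2 n ≤ n := by
    exact_mod_cast Nat.pow_log_le_self 2 (by omega)
  have h2 : (Nat.log 2 n : ℝ) * Real.log 2 ≤ Real.log n := by
    rw [← Real.log_pow]
    exact Real.log_le_log (by positivity) h1
  have h3 : Real.log n ≤ Real.log (n + 2) := by
    refine Real.log_le_log ?_ (by linarith)
    exact_mod_cast hn
  have h4 : (0.6931471803 : ℝ) < Real.log 2 := Real.log_two_gt_d9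
  have h5 : 1 ≤ Real.log ((n : ℝ) + 2) := by
    rw [Real.le_log_iff_exp_le (by positivity)]
    have := Real.exp_one_lt_d9
    have h6 : (1 : ℝ) ≤ n := by exact_mod_cast hn
    linarith
  have h7 : (Nat.log 2 n : ℝ) ≤ 2 * Real.log (n + 2) := by
    have h8 : (0 : ℝ) ≤ Nat.log 2 n := Nat.cast_nonneg _
    nlinarith
  push_cast
  linarith

/-- **Refutations by treewidth.** -/
theorem easy_tw (r Δ : ℕ) [NeZero r] : ∃ C : ℕ, ∀ (V E : Type) [Fintype V] [Fintype E]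
    [DecidableEq V] [DecidableEq E] (src tgt : E → V), (∀ v, (inc src tgt v).card ≤ Δ) →
    ∀ w : ℕ, HasTreeDec src tgt w → ∀ s : V → ZMod r, ∑ v, s v ≠ 0 → ∀ D : ℕ, 1 ≤ D →
    ∃ (l : ℕ) (L : Fin l → Form (E × ZMod r)),
      IsDerivation tyRules (2 * D + 1) {φ | ∃ C ∈ tseitinCNF src tgt r s, φ = clause C} L ∧
      (∃ i, L i = falsum) ∧ (∀ i, CountFree (L i)) ∧
      (size L : ℝ) ≤ ((Fintype.card V + Fintype.card E + 2 : ℕ) : ℝ) ^ C *
        Real.exp (C * (D + (w * Real.log (Fintype.card V + 2)) ^ ((1 : ℝ) / D))) := by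
  obtain ⟨C₁, hC₁⟩ : ∃ C₁ : ℕ, C₁ = 4 * Δ + 1 := ⟨_, rfl⟩
  obtain ⟨K, hK⟩ : ∃ K : ℕ, K = 3 * (r + Δ + 3) * (3 * Δ + 1) := ⟨_, rfl⟩
  obtain ⟨a, ha⟩ : ∃ a : ℕ, a = 2 * (Δ + r + 4) + 1 := ⟨_, rfl⟩
  obtain ⟨C, hC⟩ : ∃ C : ℕ, C = a * (K + 3 + 2 + (r + 1) * (4 + C₁)) := ⟨_, rfl⟩
  refine ⟨C, fun V E _ _ _ _ src tgt hΔ w hw s hs D hD => ?_⟩
  have hr : 1 < r := by
    rcases Nat.lt_or_ge 1 r with h | h
    · exact h
    · exfalso
      have h1 : r = 1 := le_antisymm h (Nat.one_le_iff_ne_zero.2 (NeZero.ne r))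
      subst h1
      exact hs (Subsingleton.elim _ _)
  have hV : 0 < Fintype.card V := by
    rw [Fintype.card_pos_iff]
    by_contra hcon
    rw [not_nonempty_iff] at hcon
    apply hs
    simp
  obtain ⟨w', hw'⟩ : ∃ w', w' = min w (Fintype.card V) := ⟨_, rfl⟩
  have hT : HasTreeDec src tgt w' := by
    rw [hw']
    exact treeDec_min hw
  have hw1 : 1 ≤ w' := treeDec_pos hT hV
  have hww : w' ≤ w := by
    rw [hw']
    exact min_le_left _ _
  have hwV : w' ≤ Fintype.card V := by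
    rw [hw']
    exact min_le_right _ _
  obtain ⟨vs, hnd, hvs, hcut⟩ := exists_order hT hΔ
  obtain ⟨k, hk⟩ : ∃ k, k = Δ * w' * (Nat.log 2 (Fintype.card V) + 1) := ⟨_, rfl⟩
  rw [← hk] at hcut
  obtain ⟨m, hm1, hm2, hm3, hm4⟩ := exists_base (k + Δ) hD
  obtain ⟨n, hn⟩ : ∃ n, n = Fintype.card E * r + 2 + (Fintype.card V * (Δ + 1) + 1) *
      ((D + 1) * m ^ D * (r ^ (m + 1) * (m + 3))) := ⟨_, rfl⟩
  obtain ⟨l, L, hL, hi, hcf, hsize⟩ := refute_order hr hm1 hΔ hm2 vs hnd hvs hcut hs hn.ge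
  refine ⟨l, L, hL, hi, hcf, ?_⟩
  obtain ⟨N, hN⟩ : ∃ N, N = Fintype.card V + Fintype.card E + 2 := ⟨_, rfl⟩
  rw [← hN]
  obtain ⟨x, hx⟩ : ∃ x : ℝ, x = w * Real.log (Fintype.card V + 2) := ⟨_, rfl⟩
  rw [← hx]
  obtain ⟨X, hX⟩ : ∃ X : ℝ, X = x ^ ((1 : ℝ) / D) := ⟨_, rfl⟩
  rw [← hX]
  have hDpos : (0 : ℝ) < D := by exact_mod_cast hD
  have hlog : 1 ≤ Real.log ((Fintype.card V : ℝ) + 2) := by
    rw [Real.le_log_iff_exp_le (by positivity)]
    have := Real.exp_one_lt_d9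
    have h6 : (1 : ℝ) ≤ Fintype.card V := by exact_mod_cast hV
    linarith
  have hwR : (1 : ℝ) ≤ w := by exact_mod_cast hw1.trans hww
  have hx1 : 1 ≤ x := by
    rw [hx]
    nlinarith
  have hX1 : 1 ≤ X := by
    rw [hX]
    exact Real.one_le_rpow hx1 (by positivity)
  -- the base
  have hkx : ((k + Δ : ℕ) : ℝ) ≤ C₁ * x := by
    have h1 := log_le (Fintype.card V) hV
    have h2 : ((k : ℕ) : ℝ) ≤ 3 * Δ * x := by
      rw [hk, hx]
      push_cast at h1 ⊢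
      have h3 : (w' : ℝ) ≤ w := by exact_mod_cast hww
      have h4 : (0 : ℝ) ≤ Δ := Nat.cast_nonneg _
      have h5 : (0 : ℝ) ≤ w' := Nat.cast_nonneg _
      calc (Δ : ℝ) * w' * (Nat.log 2 (Fintype.card V) + 1)
          ≤ Δ * w' * (3 * Real.log (Fintype.card V + 2)) :=
            mul_le_mul_of_nonneg_left h1 (by positivity)
        _ ≤ Δ * w * (3 * Real.log (Fintype.card V + 2)) :=
            mul_le_mul_of_nonneg_right (mul_le_mul_of_nonneg_left h3 h4) (by linarith)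
        _ = 3 * Δ * (w * Real.log (Fintype.card V + 2)) := by ring
    have h3 : (0 : ℝ) ≤ Δ := Nat.cast_nonneg _
    rw [hC₁]
    push_cast
    nlinarith
  have hmX : (m : ℝ) ≤ (1 + C₁) * X := by
    have h1 : ((k + Δ : ℕ) : ℝ) ^ ((1 : ℝ) / D) ≤ C₁ * X := by
      have hC1 : (1 : ℝ) ≤ C₁ := by
        rw [hC₁]
        push_cast
        have : (0 : ℝ) ≤ Δ := Nat.cast_nonneg _
        linarith
      calc ((k + Δ : ℕ) : ℝ) ^ ((1 : ℝ) / D) ≤ (C₁ * x) ^ ((1 : ℝ) / D) :=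
            Real.rpow_le_rpow (Nat.cast_nonneg _) hkx (by positivity)
        _ = (C₁ : ℝ) ^ ((1 : ℝ) / D) * X := by
            rw [Real.mul_rpow (by linarith) (by linarith), hX]
        _ ≤ (C₁ : ℝ) ^ (1 : ℝ) * X := by
            refine mul_le_mul_of_nonneg_right (Real.rpow_le_rpow_of_exponent_le hC1 ?_)
              (by linarith)
            rw [div_le_one hDpos]
            exact_mod_cast hD
        _ = C₁ * X := by rw [Real.rpow_one]
    linarith
  -- the number of atoms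
  have hNR : (2 : ℝ) ≤ N := by
    rw [hN]
    push_cast
    have : (0 : ℝ) ≤ Fintype.card V := Nat.cast_nonneg _
    have : (0 : ℝ) ≤ Fintype.card E := Nat.cast_nonneg _
    linarith
  have hk1 : k + Δ + 1 ≤ (3 * Δ + 1) * N ^ 2 := by
    have h1 : Nat.log 2 (Fintype.card V) + 1 ≤ N := by
      have := Nat.log_le_self 2 (Fintype.card V)
      omega
    have h2 : w' ≤ N := by omega
    have h3 : k ≤ Δ * (N * N) := by
      rw [hk, mul_assoc]
      exact Nat.mul_le_mul_left _ (Nat.mul_le_mul h2 h1)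
    have h4 : 1 ≤ N ^ 2 := Nat.one_le_pow _ _ (by omega)
    nlinarith
  obtain ⟨M, hM⟩ : ∃ M, M = (D + 1) * m ^ D * (r ^ (m + 1) * (m + 3)) := ⟨_, rfl⟩
  have hM1 : 1 ≤ M := by
    rw [hM]
    have h1 : 1 ≤ m ^ D := Nat.one_le_pow _ _ hm1
    have h2 : 1 ≤ r ^ (m + 1) := Nat.one_le_pow _ _ (by omega)
    exact Nat.one_le_iff_ne_zero.2 (by positivity)
  have hnM : n ≤ (r + Δ + 3) * N * M := by
    rw [hn, ← hM]
    have h1 : Fintype.card E * r + 2 ≤ (Fintype.card E * r + 2) * M := Nat.le_mul_of_pos_right _ hM1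
    have h2 : Fintype.card E * r + 2 + (Fintype.card V * (Δ + 1) + 1) ≤ (r + Δ + 3) * N := by
      rw [hN]
      nlinarith
    calc Fintype.card E * r + 2 + (Fintype.card V * (Δ + 1) + 1) * M
        ≤ (Fintype.card E * r + 2) * M + (Fintype.card V * (Δ + 1) + 1) * M :=
          Nat.add_le_add_right h1 _
      _ = (Fintype.card E * r + 2 + (Fintype.card V * (Δ + 1) + 1)) * M := by ring
      _ ≤ (r + Δ + 3) * N * M := Nat.mul_le_mul_right _ h2
  have hn1 : 1 ≤ n := by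
    rw [hn]
    omega
  have hsize2 : size L ≤ (3 * n) ^ a := by
    refine hsize.trans ?_
    rw [ha]
    have h1 : 2 * n + 1 ≤ 3 * n := by omega
    have h2 : (2 * n + 1) ^ (2 * (Δ + r + 4)) ≤ (3 * n) ^ (2 * (Δ + r + 4)) :=
      Nat.pow_le_pow_left h1 _
    have h3 : n ≤ (3 * n) ^ (2 * (Δ + r + 4)) :=
      (show n ≤ 3 * n by omega).trans (Nat.le_self_pow (by omega) _)
    have h4 : (3 * n) ^ (2 * (Δ + r + 4) + 1) = (3 * n) ^ (2 * (Δ + r + 4)) * (3 * n) := pow_succ _ _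
    rw [h4]
    have h5 : 3 * (3 * n) ^ (2 * (Δ + r + 4)) ≤ (3 * n) ^ (2 * (Δ + r + 4)) * (3 * n) := by
      rw [mul_comm 3]
      exact Nat.mul_le_mul_left _ (by omega)
    have h6 : 2 * n ≤ (3 * n) ^ (2 * (Δ + r + 4)) :=
      (show 2 * n ≤ 3 * n by omega).trans (Nat.le_self_pow (by omega) _)
    omega
  -- the estimate of `M`
  have hMR : (M : ℝ) ≤ (3 * Δ + 1) * N ^ 2 * Real.exp (2 * D + (r + 1) * (4 + C₁) * X) := by
    have h1 : ((D : ℝ) + 1) ≤ Real.exp D := Real.add_one_le_exp _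
    have h2 : ((m : ℝ) ^ D) ≤ 2 ^ D * ((3 * Δ + 1) * N ^ 2) := by
      have : m ^ D ≤ 2 ^ D * ((3 * Δ + 1) * N ^ 2) := hm4.trans (Nat.mul_le_mul_left _ hk1)
      exact_mod_cast this
    have h3 : (2 : ℝ) ^ D ≤ Real.exp D := by
      have h4 : (2 : ℝ) ≤ Real.exp 1 := by
        have := Real.add_one_le_exp (1 : ℝ)
        linarith
      calc (2 : ℝ) ^ D ≤ (Real.exp 1) ^ D := pow_le_pow_left₀ (by norm_num) h4 _
        _ = Real.exp D := by rw [← Real.exp_nat_mul, mul_one]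
    have h5 : ((r : ℝ) ^ (m + 1)) ≤ Real.exp (r * (m + 1)) := by
      have h6 : (r : ℝ) ≤ Real.exp r := by
        have := Real.add_one_le_exp (r : ℝ)
        linarith
      calc ((r : ℝ) ^ (m + 1)) ≤ (Real.exp r) ^ (m + 1) :=
            pow_le_pow_left₀ (Nat.cast_nonneg _) h6 _
        _ = Real.exp (r * (m + 1)) := by
            rw [← Real.exp_nat_mul]
            congr 1
            push_cast
            ring
    have h7 : ((m : ℝ) + 3) ≤ Real.exp (m + 3) := by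
      have := Real.add_one_le_exp ((m : ℝ) + 3)
      linarith
    have h8 : (r : ℝ) * (m + 1) + (m + 3) ≤ (r + 1) * (4 + C₁) * X := by
      have h9 : (0 : ℝ) ≤ r := Nat.cast_nonneg _
      have h10 : (m : ℝ) + 3 ≤ (4 + C₁) * X := by
        have : (0 : ℝ) ≤ C₁ := Nat.cast_nonneg _
        nlinarith
      nlinarith
    have h11 : (0 : ℝ) ≤ (3 * Δ + 1) * N ^ 2 := by positivity
    calc (M : ℝ) = (D + 1) * m ^ D * (r ^ (m + 1) * (m + 3)) := by
          rw [hM]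
          push_cast
          ring
      _ ≤ Real.exp D * (Real.exp D * ((3 * Δ + 1) * N ^ 2)) *
          (Real.exp (r * (m + 1)) * Real.exp (m + 3)) := by
          refine mul_le_mul (mul_le_mul h1 (h2.trans (mul_le_mul_of_nonneg_right h3 h11))
            (by positivity) (by positivity)) (mul_le_mul h5 h7 (by positivity) (by positivity))
            (by positivity) (by positivity)
      _ = (3 * Δ + 1) * N ^ 2 * (Real.exp D * Real.exp D *
          (Real.exp (r * (m + 1)) * Real.exp (m + 3))) := by ring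
      _ = (3 * Δ + 1) * N ^ 2 * Real.exp (2 * D + (r * (m + 1) + (m + 3))) := by
          rw [← Real.exp_add, ← Real.exp_add, ← Real.exp_add]
          congr 2
          ring
      _ ≤ (3 * Δ + 1) * N ^ 2 * Real.exp (2 * D + (r + 1) * (4 + C₁) * X) := by
          refine mul_le_mul_of_nonneg_left (Real.exp_le_exp.2 (by linarith)) h11
  have hKN : (K : ℝ) ≤ (N : ℝ) ^ K := by
    have h1 : K ≤ 2 ^ K := Nat.lt_two_pow_self.le
    have h2 : 2 ^ K ≤ N ^ K := Nat.pow_le_pow_left (by omega) _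
    exact_mod_cast h1.trans h2
  have hfin : ((3 * n : ℕ) : ℝ) ≤ (N : ℝ) ^ (K + 3) *
      Real.exp (2 * D + (r + 1) * (4 + C₁) * X) := by
    have h1 : ((3 * n : ℕ) : ℝ) ≤ 3 * ((r + Δ + 3) * N * M) := by
      have : 3 * n ≤ 3 * ((r + Δ + 3) * N * M) := Nat.mul_le_mul_left _ hnM
      exact_mod_cast this
    refine h1.trans ?_
    have h2 : (0 : ℝ) ≤ 3 * ((r + Δ + 3) * N) := by positivity
    calc (3 : ℝ) * ((r + Δ + 3) * N * M) = 3 * ((r + Δ + 3) * N) * M := by ring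
      _ ≤ 3 * ((r + Δ + 3) * N) *
          ((3 * Δ + 1) * N ^ 2 * Real.exp (2 * D + (r + 1) * (4 + C₁) * X)) :=
          mul_le_mul_of_nonneg_left hMR h2
      _ = K * (N ^ 3 * Real.exp (2 * D + (r + 1) * (4 + C₁) * X)) := by
          rw [hK]
          push_cast
          ring
      _ ≤ (N : ℝ) ^ K * (N ^ 3 * Real.exp (2 * D + (r + 1) * (4 + C₁) * X)) :=
          mul_le_mul_of_nonneg_right hKN (by positivity)
      _ = (N : ℝ) ^ (K + 3) * Real.exp (2 * D + (r + 1) * (4 + C₁) * X) := by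
          rw [pow_add]
          ring
  have hsR : (size L : ℝ) ≤ (((3 * n : ℕ) : ℝ)) ^ a := by exact_mod_cast hsize2
  refine hsR.trans ((pow_le_pow_left₀ (Nat.cast_nonneg _) hfin a).trans ?_)
  rw [mul_pow, ← pow_mul, ← Real.exp_nat_mul]
  have hN1 : (1 : ℝ) ≤ N := by linarith
  refine mul_le_mul (pow_le_pow_right₀ hN1 ?_) (Real.exp_le_exp.2 ?_) (by positivity)
    (by positivity)
  · rw [hC, mul_comm]
    exact Nat.mul_le_mul_left _ (by omega)
  · rw [hC]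
    push_cast
    have h1 : (0 : ℝ) ≤ a := Nat.cast_nonneg _
    have h2 : (0 : ℝ) ≤ K := Nat.cast_nonneg _
    have h3 : (0 : ℝ) ≤ (r + 1) * (4 + C₁) := by positivity
    have h4 : 2 * (D : ℝ) + (r + 1) * (4 + C₁) * X ≤
        (K + 3 + 2 + (r + 1) * (4 + C₁)) * (D + X) := by
      nlinarith [mul_nonneg h2 hDpos.le, mul_nonneg h3 hDpos.le, mul_nonneg h2 (by linarith : (0:ℝ) ≤ X)]
    calc (a : ℝ) * (2 * D + (r + 1) * (4 + C₁) * X)
        ≤ a * ((K + 3 + 2 + (r + 1) * (4 + C₁)) * (D + X)) := mul_le_mul_of_nonneg_left h4 h1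
      _ = a * (K + 3 + 2 + (r + 1) * (4 + C₁)) * (D + X) := by ring

end Pool.Agent.MP_9cec2c_lc.TY
end

section

/-!
The Tseitin formulas with mixed refutations of constant depth and polynomial size.
-/

set_option autoImplicit false
set_option linter.unusedSectionVars false

namespace Pool.Agent.MP_9cec2c_lc.TY

open Finset FG
open TT (cut inc coef tseitin tseitinCNF HasTreeDec Connected)
open MX (CountFree IsMixed)

theorem isMixed_of {V : Type} {Q : Finset ℕ} {S : ℕ → Set Rule} {S' : Set Rule} {q : ℕ}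
    (hq : q ∈ Q) (hS : S' ⊆ S q) {d d' : ℕ} (hd : d ≤ d') {Φ : Set (Form V)} {l : ℕ}
    {L : Fin l → Form V} (h : IsDerivation S' d Φ L) : IsMixed Q S d' Φ (fun _ => q) L := by
  intro i
  obtain ⟨h1, h2⟩ := h i
  refine ⟨hq, h1.trans hd, ?_⟩
  rcases h2 with h2 | ⟨R, hR, h2⟩
  · exact Or.inl h2
  · refine Or.inr ⟨R, hS hR, h2.mono ?_⟩
    rintro ψ ⟨j, hj, hj'⟩
    exact ⟨j, hj, hj', Or.inl rfl⟩

theorem log_pos' {N : ℕ} (hN : 2 ≤ N) : (1 : ℝ) / 2 ≤ Real.log N := by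
  have h1 : Real.log 2 ≤ Real.log N := by
    refine Real.log_le_log (by norm_num) ?_
    exact_mod_cast hN
  have h2 : (0.6931471803 : ℝ) < Real.log 2 := Real.log_two_gt_d9
  linarith

theorem pow_eq_exp {x : ℝ} (hx : 0 < x) (C : ℕ) : x ^ C = Real.exp (C * Real.log x) := by
  rw [← Real.log_pow, Real.exp_log (by positivity)]

/-- The binary logarithm is at least the natural one. -/
theorem log_le_y {N : ℕ} (hN : 2 ≤ N) : Real.log N ≤ (Nat.log 2 N + 1 : ℕ) := by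
  have h1 : (N : ℝ) ≤ 2 ^ (Nat.log 2 N + 1) := by
    exact_mod_cast (Nat.lt_pow_succ_log_self (by norm_num) N).le
  have h2 : Real.log N ≤ (Nat.log 2 N + 1 : ℕ) * Real.log 2 := by
    rw [← Real.log_pow]
    refine Real.log_le_log ?_ h1
    have : (2 : ℝ) ≤ N := by exact_mod_cast hN
    linarith
  have h3 : Real.log 2 ≤ 1 := by
    have := Real.log_two_lt_d9
    linarith
  have h4 : (0 : ℝ) ≤ (Nat.log 2 N + 1 : ℕ) := Nat.cast_nonneg _
  nlinarith

theorem y_le_log {N : ℕ} (hN : 2 ≤ N) : ((Nat.log 2 N + 1 : ℕ) : ℝ) ≤ 4 * Real.log N := by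
  have h1 : (2 : ℝ) ^ Nat.log 2 N ≤ N := by
    exact_mod_cast Nat.pow_log_le_self 2 (by omega)
  have h2 : (Nat.log 2 N : ℝ) * Real.log 2 ≤ Real.log N := by
    rw [← Real.log_pow]
    exact Real.log_le_log (by positivity) h1
  have h4 : (0.6931471803 : ℝ) < Real.log 2 := Real.log_two_gt_d9
  have h5 := log_pos' hN
  have h8 : (0 : ℝ) ≤ Nat.log 2 N := Nat.cast_nonneg _
  push_cast
  nlinarith

/-- A power of the logarithm beats `C * log N`. -/
theorem exists_power {c : ℝ} (hc : 0 < c) (d C : ℕ) : ∃ C' : ℕ, ∀ N : ℕ, 2 ≤ N →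
    (C : ℝ) * Real.log N < c * (((Nat.log 2 N + 1) ^ C' : ℕ) : ℝ) ^ (c / (d + 1)) := by
  obtain ⟨K, hK⟩ : ∃ K : ℕ, (C : ℝ) / c < 2 ^ K := pow_unbounded_of_one_lt _ (by norm_num)
  obtain ⟨C', hC'⟩ : ∃ C' : ℕ, ((1 + K : ℕ) : ℝ) * ((d + 1) / c) ≤ C' := exists_nat_ge _
  refine ⟨C', fun N hN => ?_⟩
  obtain ⟨y, hy⟩ : ∃ y, y = Nat.log 2 N + 1 := ⟨_, rfl⟩
  rw [← hy]
  have hy2 : 2 ≤ y := by
    have : 1 ≤ Nat.log 2 N := Nat.log_pos (by norm_num) hN
    omega
  have hyR : (2 : ℝ) ≤ y := by exact_mod_cast hy2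
  have hd : (0 : ℝ) < d + 1 := by positivity
  have h1 : (((y ^ C' : ℕ) : ℝ)) ^ (c / (d + 1)) = (y : ℝ) ^ ((C' : ℝ) * (c / (d + 1))) := by
    push_cast
    rw [← Real.rpow_natCast, ← Real.rpow_mul (by linarith)]
  have h2 : ((1 + K : ℕ) : ℝ) ≤ (C' : ℝ) * (c / (d + 1)) := by
    have h3 := mul_le_mul_of_nonneg_right hC' (show (0 : ℝ) ≤ c / (d + 1) by positivity)
    have h4 : ((1 + K : ℕ) : ℝ) * ((d + 1) / c) * (c / (d + 1)) = (1 + K : ℕ) := by
      field_simp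
    rw [h4] at h3
    exact h3
  have h5 : (y : ℝ) ^ (1 + K) ≤ (y : ℝ) ^ ((C' : ℝ) * (c / (d + 1))) := by
    rw [← Real.rpow_natCast]
    exact Real.rpow_le_rpow_of_exponent_le (by linarith) h2
  have h6 : (2 : ℝ) ^ K ≤ (y : ℝ) ^ K := pow_le_pow_left₀ (by norm_num) hyR K
  have h7 : (C : ℝ) < c * (y : ℝ) ^ K := by
    have h8 : (C : ℝ) < 2 ^ K * c := (div_lt_iff₀ hc).1 hK
    nlinarith
  have h9 : Real.log N ≤ y := by
    rw [hy]
    exact log_le_y hN
  have h10 : (0 : ℝ) ≤ C := Nat.cast_nonneg _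
  rw [h1]
  calc (C : ℝ) * Real.log N ≤ C * y := mul_le_mul_of_nonneg_left h9 h10
    _ < c * (y : ℝ) ^ K * y := mul_lt_mul_of_pos_right h7 (by linarith)
    _ = c * (y : ℝ) ^ (1 + K) := by ring
    _ ≤ c * (y : ℝ) ^ ((C' : ℝ) * (c / (d + 1))) := mul_le_mul_of_nonneg_left h5 hc.le

/-- Treewidth at most a power of the logarithm gives constant depth and polynomial size. -/
theorem easy_polylog (r Δ a : ℕ) [NeZero r] : ∃ C : ℕ, ∀ (V E : Type) [Fintype V] [Fintype E]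
    [DecidableEq V] [DecidableEq E] (src tgt : E → V), (∀ v, (inc src tgt v).card ≤ Δ) →
    HasTreeDec src tgt ((Nat.log 2 (Fintype.card V + Fintype.card E + 2) + 1) ^ a) →
    ∀ s : V → ZMod r, ∑ v, s v ≠ 0 →
    ∃ (l : ℕ) (L : Fin l → Form (E × ZMod r)),
      IsDerivation tyRules (2 * a + 3) {φ | ∃ C ∈ tseitinCNF src tgt r s, φ = clause C} L ∧
      (∃ i, L i = falsum) ∧ (∀ i, CountFree (L i)) ∧
      size L ≤ (Fintype.card V + Fintype.card E + 2) ^ C := by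
  obtain ⟨C, hC⟩ := easy_tw r Δ
  refine ⟨C + 2 * C * (a + 1) + 4 * C, fun V E _ _ _ _ src tgt hΔ hT s hs => ?_⟩
  obtain ⟨l, L, h1, h2, h3, h4⟩ := hC V E src tgt hΔ _ hT s hs (a + 1) (by omega)
  refine ⟨l, L, ?_, h2, h3, ?_⟩
  · have e : 2 * (a + 1) + 1 = 2 * a + 3 := by ring
    rw [e] at h1
    exact h1
  · obtain ⟨N, hN⟩ : ∃ N, N = Fintype.card V + Fintype.card E + 2 := ⟨_, rfl⟩
    rw [← hN] at h4 ⊢
    have hN2 : 2 ≤ N := by omega
    have hNR : (2 : ℝ) ≤ N := by exact_mod_cast hN2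
    obtain ⟨y, hy⟩ : ∃ y, y = Nat.log 2 N + 1 := ⟨_, rfl⟩
    rw [← hy] at h4
    have hlog : Real.log ((Fintype.card V : ℝ) + 2) ≤ y := by
      have h5 : Real.log ((Fintype.card V : ℝ) + 2) ≤ Real.log N := by
        refine Real.log_le_log (by positivity) ?_
        rw [hN]
        push_cast
        have : (0 : ℝ) ≤ Fintype.card E := Nat.cast_nonneg _
        linarith
      refine h5.trans ?_
      rw [hy]
      exact log_le_y hN2
    have hlog0 : 0 ≤ Real.log ((Fintype.card V : ℝ) + 2) := by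
      refine Real.log_nonneg ?_
      have : (0 : ℝ) ≤ Fintype.card V := Nat.cast_nonneg _
      linarith
    have hX : ((((y ^ a : ℕ) : ℝ)) * Real.log ((Fintype.card V : ℝ) + 2)) ^
        ((1 : ℝ) / ((a + 1 : ℕ) : ℝ)) ≤ y := by
      have h5 : (((y ^ a : ℕ) : ℝ)) * Real.log ((Fintype.card V : ℝ) + 2) ≤ (y : ℝ) ^ (a + 1) := by
        push_cast
        rw [pow_succ]
        exact mul_le_mul_of_nonneg_left hlog (by positivity)
      calc _ ≤ ((y : ℝ) ^ (a + 1)) ^ ((1 : ℝ) / ((a + 1 : ℕ) : ℝ)) :=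
            Real.rpow_le_rpow (by positivity) h5 (by positivity)
        _ = y := by
            rw [one_div, Real.pow_rpow_inv_natCast (Nat.cast_nonneg _) (by omega)]
    have hyl : (y : ℝ) ≤ 4 * Real.log N := by
      rw [hy]
      exact y_le_log hN2
    have hl2 := log_pos' hN2
    have hexp : Real.exp (C * (((a + 1 : ℕ) : ℝ) + ((((y ^ a : ℕ) : ℝ)) *
        Real.log ((Fintype.card V : ℝ) + 2)) ^ ((1 : ℝ) / ((a + 1 : ℕ) : ℝ)))) ≤
        (N : ℝ) ^ (2 * C * (a + 1) + 4 * C) := by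
      have h5 : (N : ℝ) ^ (2 * C * (a + 1) + 4 * C) =
          Real.exp (((2 * C * (a + 1) + 4 * C : ℕ) : ℝ) * Real.log N) :=
        pow_eq_exp (by linarith) _
      rw [h5]
      refine Real.exp_le_exp.2 ?_
      have h6 : ((a + 1 : ℕ) : ℝ) ≤ 2 * ((a + 1 : ℕ) : ℝ) * Real.log N := by
        have : (0 : ℝ) ≤ ((a + 1 : ℕ) : ℝ) := Nat.cast_nonneg _
        nlinarith
      have h7 : (0 : ℝ) ≤ C := Nat.cast_nonneg _
      calc _ ≤ (C : ℝ) * (2 * ((a + 1 : ℕ) : ℝ) * Real.log N + 4 * Real.log N) :=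
            mul_le_mul_of_nonneg_left (add_le_add h6 (hX.trans hyl)) h7
        _ = ((2 * C * (a + 1) + 4 * C : ℕ) : ℝ) * Real.log N := by
            push_cast
            ring
    have hfin : (size L : ℝ) ≤ (N : ℝ) ^ (C + 2 * C * (a + 1) + 4 * C) := by
      refine h4.trans ?_
      rw [add_assoc C, pow_add]
      exact mul_le_mul_of_nonneg_left hexp (by positivity)
    exact_mod_cast hfin

/-- **The classification.** A family of Tseitin formulas of connected graphs of bounded degree has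
mixed refutations of constant depth and polynomial size if and only if for some constant `C` each
member has a total charge whose order is divisible by a prime in `Q`, or treewidth at most the `C`-th
power of the logarithm. -/
theorem classify (Q : Finset ℕ) (hQ : ∀ q ∈ Q, q.Prime) (hQ0 : Q.Nonempty)
    (hR : ∀ r', 2 ≤ r' → Flat.RMT2 r') {S : ℕ → Set Rule} (hS : ∀ q ∈ Q, (S q).Finite)
    (hsound : ∀ q ∈ Q, ∀ R ∈ S q, R.Sound q)
    (hTU : ∀ q ∈ Q, insert TU.kN (CE.ceRules q) ⊆ S q) (hTY : ∀ q ∈ Q, tyRules ⊆ S q)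
    (r Δ : ℕ) [NeZero r] (ι : Type) (V E : ι → Type) [∀ n, Fintype (V n)]
    [∀ n, Fintype (E n)] [∀ n, DecidableEq (V n)] [∀ n, DecidableEq (E n)]
    (src tgt : ∀ n, E n → V n) (hconn : ∀ n, Connected (src n) (tgt n))
    (hΔ : ∀ n v, (inc (src n) (tgt n) v).card ≤ Δ) (s : ∀ n, V n → ZMod r)
    (hs : ∀ n, ∑ v, s n v ≠ 0) :
    (∃ d C : ℕ, ∀ n, ∃ (l : ℕ) (τ : Fin l → ℕ) (L : Fin l → Form (E n × ZMod r)),
      IsMixed Q S d {φ | ∃ D ∈ tseitinCNF (src n) (tgt n) r (s n), φ = clause D} τ L ∧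
      (∃ i, L i = falsum) ∧
      size L ≤ (Fintype.card (V n) + Fintype.card (E n) + 2) ^ C) ↔
    ∃ C : ℕ, ∀ n, (∃ q ∈ Q, q ∣ addOrderOf (∑ v, s n v)) ∨
      HasTreeDec (src n) (tgt n)
        ((Nat.log 2 (Fintype.card (V n) + Fintype.card (E n) + 2) + 1) ^ C) := by
  classical
  constructor
  · rintro ⟨d, C, h⟩
    obtain ⟨c, hc, hlow⟩ := MX.mx_allF Q hQ r Δ (max r Δ) hR hS hsound
    obtain ⟨C', hC'⟩ := exists_power hc d C
    refine ⟨C', fun n => ?_⟩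
    by_contra hcon
    rw [not_or] at hcon
    obtain ⟨h1, h2⟩ := hcon
    obtain ⟨l, τ, L, h3, h4, h5⟩ := h n
    have hr : 2 ≤ r := by
      by_contra h6
      have h7 : r = 1 := by
        have := Nat.one_le_iff_ne_zero.2 (NeZero.ne r)
        omega
      subst h7
      exact hs n (Subsingleton.elim _ _)
    have h6 := hlow (V n) (E n) (src n) (tgt n) (hconn n) (hΔ n) _ h2 (s n) (hs n)
      (fun q hq => ((hQ q hq).coprime_iff_not_dvd).2 fun hd => h1 ⟨q, hq, hd⟩) _ id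
      Function.injective_id _ (TT.above_self hr (hΔ n) (s n)) d l τ L (Or.inl ⟨h3, h4⟩)
    obtain ⟨N, hN⟩ : ∃ N, N = Fintype.card (V n) + Fintype.card (E n) + 2 := ⟨_, rfl⟩
    rw [← hN] at h5 h6
    have hN2 : 2 ≤ N := by omega
    have hN0 : (0 : ℝ) < N := by
      have : (2 : ℝ) ≤ N := by exact_mod_cast hN2
      linarith
    have h7 : (size L : ℝ) ≤ (N : ℝ) ^ C := by exact_mod_cast h5
    have h8 := h6.trans h7
    have h9 : (N : ℝ) ^ C = Real.exp ((C : ℝ) * Real.log N) := pow_eq_exp hN0 C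
    rw [h9, Real.exp_le_exp] at h8
    exact absurd (hC' N hN2) (not_lt.2 h8)
  · rintro ⟨a, h⟩
    obtain ⟨C₁, hC₁⟩ := easy_polylog r Δ a
    have hTUe : ∀ q : Q, ∃ C : ℕ, ∀ (V E : Type)
        [Fintype V] [Fintype E] [DecidableEq V] [DecidableEq E] (src tgt : E → V),
        (∀ v, (inc src tgt v).card ≤ Δ) → ∀ s : V → ZMod r, (q : ℕ) ∣ addOrderOf (∑ v, s v) →
        ∃ (l : ℕ) (L : Fin l → Form (E × ZMod r)),
          IsDerivation (insert TU.kN (CE.ceRules q)) 4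
            {φ | ∃ D ∈ tseitinCNF src tgt r s, φ = clause D} L ∧
          (∃ i, L i = falsum) ∧ size L ≤ (Fintype.card V + Fintype.card E + 2) ^ C :=
      fun q => TU.easy_tseitin q (hQ q q.2) r Δ
    choose C₂ hC₂ using hTUe
    refine ⟨2 * a + 4, C₁ + ∑ q : Q, C₂ q, fun n => ?_⟩
    have hN1 : 1 ≤ Fintype.card (V n) + Fintype.card (E n) + 2 := by omega
    rcases h n with ⟨q, hq, hd⟩ | hT
    · obtain ⟨l, L, k1, k2, k3⟩ := hC₂ ⟨q, hq⟩ (V n) (E n) (src n) (tgt n) (hΔ n) (s n) hd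
      refine ⟨l, fun _ => q, L, isMixed_of hq (hTU q hq) (by omega) k1, k2, k3.trans ?_⟩
      refine Nat.pow_le_pow_right hN1 ?_
      have : C₂ ⟨q, hq⟩ ≤ ∑ q : Q, C₂ q :=
        Finset.single_le_sum (f := C₂) (fun _ _ => Nat.zero_le _) (mem_univ _)
      omega
    · obtain ⟨q, hq⟩ := hQ0
      obtain ⟨l, L, k1, k2, -, k3⟩ := hC₁ (V n) (E n) (src n) (tgt n) (hΔ n) hT (s n) (hs n)
      refine ⟨l, fun _ => q, L, isMixed_of hq (hTY q hq) (by omega) k1, k2, k3.trans ?_⟩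
      exact Nat.pow_le_pow_right hN1 (by omega)

end Pool.Agent.MP_9cec2c_lc.TY
end
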