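import Pool.Agent.Lib.MP_9cec2c_lc.Mg.G059

section

/-!
Functions that act as zero, graded by a level, and the relations between the values of formulas.
-/

set_option autoImplicit false
set_option linter.unusedSectionVars false

namespace Pool.Agent.MP_9cec2c_lc.GW

open Finset Frege FG

variable {K V : Type} [Field K] [Fintype K] {A : ℕ} {Z : ℕ → Submodule K (Fun K V)}

/-- The spaces `Z n` of functions of degree at most `n` that count as zero at the level `n`. -/
structure Kill (A : ℕ) (Z : ℕ → Submodule K (Fun K V)) : Prop where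
  mono : Monotone Z
  pol : ∀ n, Z n ≤ Pol K V n
  mul : ∀ (e n : ℕ) (P Q : Fun K V), P ∈ Pol K V e → Q ∈ Z n → P * Q ∈ Z (e + n)
  one : (1 : Fun K V) ∉ Z A

theorem Kill.up (hZ : Kill A Z) {n m : ℕ} {P : Fun K V} (h : P ∈ Z n) (hnm : n ≤ m) : P ∈ Z m :=
  hZ.mono hnm h

theorem Kill.mulle (hZ : Kill A Z) {e n m : ℕ} {P Q : Fun K V} (hP : P ∈ Pol K V e)
    (hQ : Q ∈ Z n) (hm : e + n ≤ m) : P * Q ∈ Z m :=
  hZ.mono hm (hZ.mul _ _ _ _ hP hQ)

/-- A product that vanishes on `L` is unchanged by the horizon factors. -/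
theorem Kill.hor (hZ : Kill A Z) {k t n : ℕ} {G : Set (Fun K V)} {h U : Fun K V}
    (hh : Hor k G h) (hG : ∀ g ∈ G, g ∈ Pol K V t) (h0 : ∀ g ∈ G, g * U ∈ Z n) :
    U - h * U ∈ Z (k * (Fintype.card K - 1) * t + n) := by
  classical
  obtain ⟨q, hq, rfl⟩ := hh
  have hspan : Submodule.span K G ≤ Pol K V t := Submodule.span_le.2 hG
  have hqt : ∀ j, q j ∈ Pol K V t := fun j => hspan (hq j)
  have hq0 : ∀ j, q j * U ∈ Z n := by
    intro j
    have h1 : ∀ f ∈ Submodule.span K G, f * U ∈ Z n := by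
      intro f hf
      induction hf using Submodule.span_induction with
      | mem f hf => exact h0 f hf
      | zero => rw [zero_mul]; exact (Z n).zero_mem
      | add f g _ _ h1 h2 => rw [add_mul]; exact (Z n).add_mem h1 h2
      | smul c f _ h1 => rw [smul_mul_assoc]; exact (Z n).smul_mem c h1
    exact h1 _ (hq j)
  have hK := card_sub_pos (K := K)
  have key : ∀ s : Finset (Fin k),
      U - (∏ j ∈ s, cf (q j)) * U ∈ Z (s.card * ((Fintype.card K - 1) * t) + n) := by
    intro s
    induction s using Finset.induction_on with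
    | empty =>
      rw [prod_empty, one_mul, sub_self]
      exact (Z _).zero_mem
    | insert j s hj ih =>
      have h1 : U - (∏ i ∈ insert j s, cf (q i)) * U =
          q j ^ (Fintype.card K - 1 - 1) * (q j * U) +
            cf (q j) * (U - (∏ i ∈ s, cf (q i)) * U) := by
        rw [prod_insert hj]
        have h2 : q j ^ (Fintype.card K - 1 - 1) * (q j * U) = q j ^ (Fintype.card K - 1) * U := by
          rw [← mul_assoc, ← pow_succ, Nat.sub_add_cancel hK]
        rw [h2]
        unfold cf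
        ring
      rw [h1, card_insert_of_notMem hj]
      have e1 : (s.card + 1) * ((Fintype.card K - 1) * t) =
          s.card * ((Fintype.card K - 1) * t) + (Fintype.card K - 1) * t := by ring
      have e2 : (Fintype.card K - 1 - 1) * t ≤ (Fintype.card K - 1) * t :=
        Nat.mul_le_mul_right _ (Nat.sub_le _ _)
      rw [e1]
      refine (Z _).add_mem ?_ ?_
      · exact hZ.mulle (Frege.pow_mem (hqt j) _) (hq0 j) (by omega)
      · exact hZ.mulle (cf_mem (hqt j)) ih (by omega)
  have h1 := key univ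
  rwa [card_univ, Fintype.card_fin, ← mul_assoc] at h1

/-- The error of the choice `H L` counts as zero at the level `n`. -/
def Clean (Z : ℕ → Submodule K (Fun K V)) (H : List (Fun K V) → Fun K V) (n : ℕ)
    (L : List (Fun K V)) : Prop := ∀ g ∈ L, g * H L ∈ Z n

variable {k : ℕ} {H : List (Fun K V) → Fun K V}

/-- If `U` kills all members of `L`, then it is unchanged by `H L`. -/
theorem Kill.list (hZ : Kill A Z) (hH : Choice k H) {t n m : ℕ}
    {L : List (Fun K V)} (hb : ∀ g ∈ L, Bin g) (hL : ∀ g ∈ L, g ∈ Pol K V t) {U : Fun K V}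
    (h0 : ∀ g ∈ L, g * U ∈ Z n) (hm : k * (Fintype.card K - 1) * t + n ≤ m) :
    U - H L * U ∈ Z m :=
  hZ.up (hZ.hor (hH.hor L hb) hL h0) hm

/-- The lists of the formula `φ` are clean at the level `n`. -/
def CleanForm (Z : ℕ → Submodule K (Fun K V)) (H : List (Fun K V) → Fun K V) (n : ℕ)
    (φ : Form V) : Prop :=
  (φ.IsDisj → Clean Z H n (orl H φ)) ∧ (φ.IsConj → Clean Z H n ((andl H φ).map (1 - ·)))

theorem orl_mem (hH : Choice k H) (hk : 1 ≤ k) {φ : Form V} {d : ℕ} (hd : φ.depth ≤ d) :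
    ∀ g ∈ orl H φ, g ∈ Pol K V (deg K k d) := by
  intro g hg
  obtain ⟨e, h1, -, h2⟩ := (deg_all hH hk φ).2.1 g hg
  exact Pol_mono (deg_mono hk (h2.trans hd)) h1

theorem andl_mem (hH : Choice k H) (hk : 1 ≤ k) {φ : Form V} {d : ℕ} (hd : φ.depth ≤ d) :
    ∀ g ∈ (andl H φ).map (1 - ·), g ∈ Pol K V (deg K k d) := by
  intro g hg
  obtain ⟨g', hg', rfl⟩ := List.mem_map.1 hg
  obtain ⟨e, h1, -, h2⟩ := (deg_all hH hk φ).2.2 g' hg'
  exact Submodule.sub_mem _ (Frege.one_mem _) (Pol_mono (deg_mono hk (h2.trans hd)) h1)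

theorem pv_mem (hH : Choice k H) (hk : 1 ≤ k) {φ : Form V} {d : ℕ} (hd : φ.depth ≤ d) :
    pv H φ ∈ Pol K V (deg K k d) :=
  Pol_mono (deg_mono hk hd) (deg_all hH hk φ).1

theorem orl_bin (hH : Choice k H) (φ : Form V) : ∀ g ∈ orl H φ, Bin g := (bin_all hH φ).2.1

theorem andl_bin (hH : Choice k H) (φ : Form V) : ∀ g ∈ (andl H φ).map (1 - ·), Bin g := by
  intro g hg
  obtain ⟨g', hg', rfl⟩ := List.mem_map.1 hg
  exact bin_one_sub ((bin_all hH φ).2.2 g' hg')

/-- If `U` kills the disjuncts of a formula, then it kills the formula. -/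
theorem Kill.pv_of_orl (hZ : Kill A Z) (hH : Choice k H) (hk : 1 ≤ k) {φ : Form V} {d n m : ℕ}
    (hd : φ.depth ≤ d) {U : Fun K V} (h0 : ∀ g ∈ orl H φ, g * U ∈ Z n)
    (hm : deg K k (d + 1) + n ≤ m) : pv H φ * U ∈ Z m := by
  by_cases hφ : φ.IsDisj
  · rw [pv_of_disj hφ]
    have h1 := hZ.list hH (m := m) (orl_bin hH φ) (orl_mem hH hk hd) h0 (by rwa [← deg_succ])
    have h2 : (1 - H (orl H φ)) * U = U - H (orl H φ) * U := by ring
    rwa [h2]
  · exact hZ.up (h0 _ (by rw [orl_of_not hφ]; exact List.mem_singleton.2 rfl)) (by omega)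

/-- If `U` kills a formula, then it kills its disjuncts. -/
theorem Kill.orl_of_pv (hZ : Kill A Z) (hH : Choice k H) (hk : 1 ≤ k) {φ : Form V}
    {d u n c m : ℕ} (hd : φ.depth ≤ d) (hc : CleanForm Z H c φ) {U : Fun K V}
    (hU : U ∈ Pol K V u) (h0 : pv H φ * U ∈ Z n) (hm : u + c ≤ m) (hm' : deg K k d + n ≤ m) :
    ∀ g ∈ orl H φ, g * U ∈ Z m := by
  intro g hg
  by_cases hφ : φ.IsDisj
  · have hgm := orl_mem hH hk hd g hg
    have h1 : g * U = U * (g * H (orl H φ)) + g * (pv H φ * U) := by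
      rw [pv_of_disj hφ]
      ring
    rw [h1]
    exact (Z m).add_mem (hZ.mulle hU (hc.1 hφ g hg) hm) (hZ.mulle hgm h0 hm')
  · rw [orl_of_not hφ] at hg
    rw [List.mem_singleton.1 hg]
    exact hZ.up h0 (by omega)

/-- If `U` kills the negations of the conjuncts of a formula, then it kills the negation of the
formula. -/
theorem Kill.pv_of_andl (hZ : Kill A Z) (hH : Choice k H) (hk : 1 ≤ k) {φ : Form V} {d n m : ℕ}
    (hd : φ.depth ≤ d) {U : Fun K V} (h0 : ∀ g ∈ (andl H φ).map (1 - ·), g * U ∈ Z n)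
    (hm : deg K k (d + 1) + n ≤ m) : (1 - pv H φ) * U ∈ Z m := by
  by_cases hφ : φ.IsConj
  · rw [pv_of_conj hφ]
    have h1 := hZ.list hH (m := m) (andl_bin hH φ) (andl_mem hH hk hd) h0 (by rwa [← deg_succ])
    have h2 : (1 - H ((andl H φ).map (1 - ·))) * U = U - H ((andl H φ).map (1 - ·)) * U := by ring
    rwa [h2]
  · exact hZ.up (h0 _ (by rw [andl_of_not hφ]; exact List.mem_singleton.2 rfl)) (by omega)

/-- If `U` kills the negation of a formula, then it kills the negations of its conjuncts. -/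
theorem Kill.andl_of_pv (hZ : Kill A Z) (hH : Choice k H) (hk : 1 ≤ k) {φ : Form V}
    {d u n c m : ℕ} (hd : φ.depth ≤ d) (hc : CleanForm Z H c φ) {U : Fun K V}
    (hU : U ∈ Pol K V u) (h0 : (1 - pv H φ) * U ∈ Z n) (hm : u + c ≤ m)
    (hm' : deg K k d + n ≤ m) : ∀ g ∈ (andl H φ).map (1 - ·), g * U ∈ Z m := by
  intro g hg
  by_cases hφ : φ.IsConj
  · have hgm := andl_mem hH hk hd g hg
    have h1 : g * U = U * (g * H ((andl H φ).map (1 - ·))) + g * ((1 - pv H φ) * U) := by
      rw [pv_of_conj hφ]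
      ring
    rw [h1]
    exact (Z m).add_mem (hZ.mulle hU (hc.2 hφ g hg) hm) (hZ.mulle hgm h0 hm')
  · rw [andl_of_not hφ] at hg
    rw [List.mem_singleton.1 hg]
    exact hZ.up h0 (by omega)

/-! ### Sets of points that are covered by a function that acts as zero -/

/-- The set `B` of points of the cube is covered by a function that counts as zero at the level
`n`. -/
def Cov (Z : ℕ → Submodule K (Fun K V)) (n : ℕ) (B : Set (V → Bool)) : Prop :=
  ∃ v : Fun K V, Bin v ∧ v ∈ Z n ∧ ∀ x ∈ B, v x = 1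

theorem Kill.cmono (hZ : Kill A Z) {n m : ℕ} {B C : Set (V → Bool)} (h : Cov Z n B)
    (hnm : n ≤ m) (hCB : C ⊆ B) : Cov Z m C := by
  obtain ⟨v, h1, h3, h4⟩ := h
  exact ⟨v, h1, hZ.up h3 hnm, fun x hx => h4 x (hCB hx)⟩

theorem cov_empty (n : ℕ) : Cov Z n (∅ : Set (V → Bool)) :=
  ⟨0, fun _ => Or.inl rfl, (Z n).zero_mem, fun _ hx => absurd hx (by simp)⟩

theorem cov_of {n : ℕ} {u : Fun K V} (hb : Bin u) (hz : u ∈ Z n) : Cov Z n {x | u x ≠ 0} :=
  ⟨u, hb, hz, fun x hx => (hb x).resolve_left hx⟩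

theorem Kill.union (hZ : Kill A Z) {n m : ℕ} {B C : Set (V → Bool)} (h : Cov Z n B)
    (h' : Cov Z m C) : Cov Z (n + m) (B ∪ C) := by
  obtain ⟨v, h1, h3, h4⟩ := h
  obtain ⟨w, g1, g3, g4⟩ := h'
  refine ⟨v + w - v * w, fun x => ?_, ?_, fun x hx => ?_⟩
  · rw [Pi.sub_apply, Pi.add_apply, Pi.mul_apply]
    rcases h1 x with h | h <;> rcases g1 x with g | g <;> rw [h, g] <;> simp
  · exact (Z _).sub_mem ((Z _).add_mem (hZ.up h3 (Nat.le_add_right _ _))
      (hZ.up g3 (Nat.le_add_left _ _))) (hZ.mul _ _ _ _ (hZ.pol _ h3) g3)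
  · rw [Pi.sub_apply, Pi.add_apply, Pi.mul_apply]
    rcases hx with hx | hx
    · rw [h4 x hx]
      ring
    · rw [g4 x hx]
      ring

theorem Kill.iUnion (hZ : Kill A Z) {m : ℕ} {n : Fin m → ℕ} {B : Fin m → Set (V → Bool)}
    (h : ∀ i, Cov Z (n i) (B i)) : Cov Z (∑ i, n i) (⋃ i, B i) := by
  induction m with
  | zero =>
    rw [Fin.sum_univ_zero]
    exact hZ.cmono (cov_empty 0) le_rfl (by simp)
  | succ m ih =>
    rw [Fin.sum_univ_succ]
    refine hZ.cmono (hZ.union (h 0) (ih (fun i => h i.succ))) le_rfl ?_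
    intro x hx
    obtain ⟨i, hi⟩ := Set.mem_iUnion.1 hx
    rcases Fin.eq_zero_or_eq_succ i with h0 | ⟨j, hj⟩
    · rw [h0] at hi
      exact Or.inl hi
    · rw [hj] at hi
      exact Or.inr (Set.mem_iUnion.2 ⟨j, hi⟩)

/-- A function of small degree that vanishes outside a covered set counts as zero. -/
theorem Kill.mem_of_cov (hZ : Kill A Z) {n e m : ℕ} {B : Set (V → Bool)} (h : Cov Z n B)
    {g : Fun K V} (hg : g ∈ Pol K V e) (h0 : ∀ x, x ∉ B → g x = 0) (hm : e + n ≤ m) :
    g ∈ Z m := by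
  obtain ⟨v, h1, h3, h4⟩ := h
  have h5 : g = g * v := by
    funext x
    rw [Pi.mul_apply]
    by_cases hx : x ∈ B
    · rw [h4 x hx, mul_one]
    · rw [h0 x hx, zero_mul]
  rw [h5]
  exact hZ.mulle hg h3 hm

end Pool.Agent.MP_9cec2c_lc.GW
end

section

/-!
The bad points of the cube for lists of functions, graded by a level.
-/

set_option autoImplicit false
set_option linter.unusedSectionVars false

namespace Pool.Agent.MP_9cec2c_lc.GW

open Finset Frege FG

variable {K V : Type} [Field K] [Fintype K] {A k d : ℕ} {Z : ℕ → Submodule K (Fun K V)}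
  {H : List (Fun K V) → Fun K V}

/-- The bad points for the comparison of two clean lists. -/
theorem Kill.cov_ne (hZ : Kill A Z) (hH : Choice k H) {n : ℕ} {L M : List (Fun K V)}
    (hL : ∀ g ∈ L, Bin g) (hLd : ∀ g ∈ L, g ∈ Pol K V (deg K k d))
    (hM : ∀ g ∈ M, Bin g) (hMd : ∀ g ∈ M, g ∈ Pol K V (deg K k d))
    (h1 : ∀ g ∈ M, g * H L ∈ Z n) (h2 : ∀ g ∈ L, g * H M ∈ Z n) :
    Cov Z (2 * (deg K k (d + 1) + n)) {x | H L x ≠ H M x} := by
  have g1 : H L - H M * H L ∈ Z (deg K k (d + 1) + n) :=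
    hZ.list hH hM hMd h1 (by rw [← deg_succ])
  have g2 : H M - H L * H M ∈ Z (deg K k (d + 1) + n) :=
    hZ.list hH hL hLd h2 (by rw [← deg_succ])
  have e1 : H L - H M * H L = H L * (1 - H M) := by ring
  have e2 : H M - H L * H M = H M * (1 - H L) := by ring
  rw [e1] at g1
  rw [e2] at g2
  have bL := hH.bin hL
  have bM := hH.bin hM
  have b1 : Bin (H L * (1 - H M)) := by
    intro x
    rw [Pi.mul_apply, Pi.sub_apply, Pi.one_apply]
    rcases bL x with h | h <;> rcases bM x with h' | h' <;> rw [h, h'] <;> simp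
  have b2 : Bin (H M * (1 - H L)) := by
    intro x
    rw [Pi.mul_apply, Pi.sub_apply, Pi.one_apply]
    rcases bL x with h | h <;> rcases bM x with h' | h' <;> rw [h, h'] <;> simp
  refine hZ.cmono (hZ.union (cov_of b1 g1) (cov_of b2 g2)) (by omega) ?_
  intro x hx
  have hx' : H L x ≠ H M x := hx
  by_contra hcon
  rw [Set.mem_union, not_or] at hcon
  have f1 : (H L * (1 - H M)) x = 0 := by
    by_contra hne
    exact hcon.1 hne
  have f2 : (H M * (1 - H L)) x = 0 := by
    by_contra hne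
    exact hcon.2 hne
  rw [Pi.mul_apply, Pi.sub_apply, Pi.one_apply] at f1 f2
  rcases bL x with h | h <;> rcases bM x with h' | h' <;> rw [h, h'] at f1 f2 hx' <;> simp_all

/-- The bad points for a list that is strung together from `m` lists. -/
theorem Kill.cov_concat (hZ : Kill A Z) (hH : Choice k H) (hk : 1 ≤ k) {m : ℕ}
    {L : Fin m → List (Fun K V)}
    (hL : ∀ i, ∀ g ∈ L i, Bin g) (hLd : ∀ i, ∀ g ∈ L i, g ∈ Pol K V (deg K k d))
    (hc : ∀ i, Clean Z H (2 * deg K k (d + 1)) (L i))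
    (hC : Clean Z H (2 * deg K k (d + 1)) ((List.finRange m).flatMap L)) :
    Cov Z ((4 * m + 2) * deg K k (d + 1))
      {x | ¬ (H ((List.finRange m).flatMap L) x = 1 ↔ ∀ i, H (L i) x = 1)} := by
  classical
  obtain ⟨T, hT⟩ : ∃ T, T = deg K k (d + 1) := ⟨_, rfl⟩
  have hLM : ∀ g ∈ (List.finRange m).flatMap L, Bin g := by
    intro g hg
    obtain ⟨i, -, hi⟩ := List.mem_flatMap.1 hg
    exact hL i g hi
  have hLMd : ∀ g ∈ (List.finRange m).flatMap L, g ∈ Pol K V (deg K k d) := by
    intro g hg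
    obtain ⟨i, -, hi⟩ := List.mem_flatMap.1 hg
    exact hLd i g hi
  have hmi : ∀ i, H (L i) ∈ Pol K V (deg K k (d + 1)) := fun i => hH.mem_deg (hL i) (hLd i)
  have bM := hH.bin hLM
  have bL : ∀ i, Bin (H (L i)) := fun i => hH.bin (hL i)
  rw [← hT] at hmi hc hC ⊢
  -- if the whole list is 0 then all parts are 0
  have c1 : ∀ i, Cov Z (3 * T) {x | (H ((List.finRange m).flatMap L) * (1 - H (L i))) x ≠ 0} := by
    intro i
    have g1 : H ((List.finRange m).flatMap L) - H (L i) * H ((List.finRange m).flatMap L) ∈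
        Z (3 * T) := by
      refine hZ.list hH (hL i) (hLd i) (n := 2 * T) (fun g hg => ?_)
        (by rw [← deg_succ, ← hT]; omega)
      exact hC g (List.mem_flatMap.2 ⟨i, List.mem_finRange i, hg⟩)
    have e1 : H ((List.finRange m).flatMap L) - H (L i) * H ((List.finRange m).flatMap L) =
        H ((List.finRange m).flatMap L) * (1 - H (L i)) := by ring
    rw [e1] at g1
    refine cov_of ?_ g1
    intro x
    rw [Pi.mul_apply, Pi.sub_apply, Pi.one_apply]
    rcases bM x with h | h <;> rcases bL i x with h' | h' <;> rw [h, h'] <;> simp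
  have hsum : ∑ _i : Fin m, 3 * T = m * (3 * T) := by
    rw [sum_const, card_univ, Fintype.card_fin, smul_eq_mul]
  have hAm : (4 * m + 2) * T = m * (3 * T) + (m * T + 2 * T) := by ring
  have c1' := hZ.iUnion c1
  -- if all parts are 0 then the whole list is 0
  have bP : Bin (∏ i, H (L i)) := bin_prod _ fun i _ => bL i
  have g2 : (∏ i, H (L i)) * (1 - H ((List.finRange m).flatMap L)) ∈ Z (m * T + 2 * T) := by
    rcases Nat.eq_zero_or_pos m with h0 | h0
    · subst h0
      have h1 : (List.finRange 0).flatMap L = [] := rfl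
      rw [h1, hH.nil, sub_self, mul_zero]
      exact (Z _).zero_mem
    · have h1 : (∏ i, H (L i)) - H ((List.finRange m).flatMap L) * ∏ i, H (L i) ∈
          Z (m * T + 2 * T) := by
        refine hZ.list hH hLM hLMd (n := m * T + T) (fun g hg => ?_)
          (by rw [← deg_succ, ← hT]; omega)
        obtain ⟨i, -, hi⟩ := List.mem_flatMap.1 hg
        have h2 : g * ∏ i, H (L i) = (∏ j ∈ univ.erase i, H (L j)) * (g * H (L i)) := by
          rw [← mul_prod_erase univ (fun j => H (L j)) (mem_univ i)]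
          ring
        rw [h2]
        have h3 := Frege.prod_mem (univ.erase i) fun j _ => hmi j
        rw [card_erase_of_mem (mem_univ i), card_univ, Fintype.card_fin] at h3
        refine hZ.mulle h3 (hc i g hi) ?_
        have h5 : (m - 1) * T + T = m * T := by
          rw [← Nat.succ_mul, Nat.succ_eq_add_one, Nat.sub_add_cancel h0]
        omega
      have e1 : (∏ i, H (L i)) - H ((List.finRange m).flatMap L) * ∏ i, H (L i) =
          (∏ i, H (L i)) * (1 - H ((List.finRange m).flatMap L)) := by ring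
      rwa [e1] at h1
  have c2 := cov_of ?_ g2
  swap
  · intro x
    rw [Pi.mul_apply, Pi.sub_apply, Pi.one_apply]
    rcases bM x with h | h <;> rcases bP x with h' | h' <;> rw [h, h'] <;> simp
  refine hZ.cmono (hZ.union c1' c2) (by rw [hsum]; omega) ?_
  intro x hx
  by_contra hcon
  rw [Set.mem_union, not_or] at hcon
  obtain ⟨hcon1, hcon2⟩ := hcon
  refine hx ⟨fun h1 i => ?_, fun h1 => ?_⟩
  · by_contra hne
    refine hcon1 (Set.mem_iUnion.2 ⟨i, ?_⟩)
    show (H ((List.finRange m).flatMap L) * (1 - H (L i))) x ≠ 0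
    rw [Pi.mul_apply, Pi.sub_apply, Pi.one_apply, h1, (bL i x).resolve_right hne]
    simp
  · by_contra hne
    refine hcon2 ?_
    show ((∏ i, H (L i)) * (1 - H ((List.finRange m).flatMap L))) x ≠ 0
    rw [Pi.mul_apply, Pi.sub_apply, Pi.one_apply, (bM x).resolve_right hne, Finset.prod_apply,
      prod_eq_one fun i _ => h1 i]
    simp

/-- The bad points for a list: all members are 0 but the sum is not. -/
theorem Kill.cov_sum (hZ : Kill A Z) (hH : Choice k H) (hk : 1 ≤ k) {L : List (Fun K V)}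
    (hL : ∀ g ∈ L, Bin g) (hLd : ∀ g ∈ L, g ∈ Pol K V (deg K k d))
    (hc : Clean Z H (2 * deg K k (d + 1)) L) :
    Cov Z (3 * deg K k (d + 1)) {x | ¬ (H L x = 1 → (L.map fun g => g x).sum = 0)} := by
  classical
  obtain ⟨T, hT⟩ : ∃ T, T = deg K k (d + 1) := ⟨_, rfl⟩
  have bL := hH.bin hL
  have hs : L.sum ∈ Pol K V (deg K k d) := list_sum_mem hLd
  have hTT : (Fintype.card K - 1) * deg K k d ≤ T := by
    rw [hT, deg_succ]
    calc (Fintype.card K - 1) * deg K k d = 1 * (Fintype.card K - 1) * deg K k d := by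
          rw [one_mul]
      _ ≤ k * (Fintype.card K - 1) * deg K k d :=
          Nat.mul_le_mul_right _ (Nat.mul_le_mul_right _ hk)
  rw [← hT] at hc ⊢
  have hK := card_sub_pos (K := K)
  have h0 : L.sum * H L ∈ Z (2 * T) := by
    have h1 : ∀ M : List (Fun K V), (∀ g ∈ M, g * H L ∈ Z (2 * T)) → M.sum * H L ∈ Z (2 * T) := by
      intro M
      induction M with
      | nil =>
        intro _
        rw [List.sum_nil, zero_mul]
        exact (Z _).zero_mem
      | cons g M ih =>
        intro hM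
        rw [List.sum_cons, add_mul]
        exact (Z _).add_mem (hM g List.mem_cons_self)
          (ih fun g' hg' => hM g' (List.mem_cons_of_mem _ hg'))
    exact h1 L hc
  have h1 : H L * (1 - cf L.sum) ∈ Z (3 * T) := by
    have h2 : H L * (1 - cf L.sum) = L.sum ^ (Fintype.card K - 1 - 1) * (L.sum * H L) := by
      have h3 : L.sum ^ (Fintype.card K - 1 - 1) * (L.sum * H L) =
          L.sum ^ (Fintype.card K - 1) * H L := by
        rw [← mul_assoc, ← pow_succ, Nat.sub_add_cancel hK]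
      rw [h3]
      unfold cf
      ring
    rw [h2]
    have h4 : (Fintype.card K - 1 - 1) * deg K k d ≤ (Fintype.card K - 1) * deg K k d :=
      Nat.mul_le_mul_right _ (Nat.sub_le _ _)
    exact hZ.mulle (Frege.pow_mem hs _) h0 (by omega)
  have hb : Bin (H L * (1 - cf L.sum)) := by
    intro x
    rw [Pi.mul_apply, Pi.sub_apply, Pi.one_apply]
    rcases bL x with h | h <;> rcases bin_cf L.sum x with h' | h' <;> rw [h, h'] <;> simp
  refine hZ.cmono (cov_of hb h1) le_rfl ?_
  intro x hx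
  show (H L * (1 - cf L.sum)) x ≠ 0
  have hx1 : H L x = 1 := by
    by_contra hne
    exact hx fun h => absurd h hne
  have hx2 : (L.map fun g => g x).sum ≠ 0 := by
    intro h
    exact hx fun _ => h
  have hx3 : L.sum x = (L.map fun g => g x).sum := by
    clear hx2 hx1 hx hb h1 h0 hs bL hc hLd hL
    induction L with
    | nil => rfl
    | cons g L ih => rw [List.sum_cons, Pi.add_apply, List.map_cons, List.sum_cons, ih]
  rw [Pi.mul_apply, Pi.sub_apply, Pi.one_apply, hx1, cf_apply, hx3, if_neg hx2]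
  simp

/-- The bad points for a nonempty list: all members are 0 and all members are 1. -/
theorem Kill.cov_both (hZ : Kill A Z) (hH : Choice k H) {L : List (Fun K V)}
    (hL : ∀ g ∈ L, Bin g) (hLd : ∀ g ∈ L, g ∈ Pol K V (deg K k d))
    (hc : Clean Z H (2 * deg K k (d + 1)) L)
    (hc' : Clean Z H (2 * deg K k (d + 1)) (L.map (1 - ·))) :
    Cov Z (3 * deg K k (d + 1)) {x | ¬ (H L x = 1 → H (L.map (1 - ·)) x = 1 → L = [])} := by
  classical
  rcases L.eq_nil_or_concat with h0 | ⟨L', g, h0⟩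
  · refine hZ.cmono (cov_empty 0) (Nat.zero_le _) fun x hx => ?_
    exact absurd (fun _ _ => h0) hx
  have hg : g ∈ L := by
    rw [h0]
    simp
  have hM : ∀ g ∈ L.map (1 - ·), Bin g := by
    intro g hg
    obtain ⟨g', hg', rfl⟩ := List.mem_map.1 hg
    exact bin_one_sub (hL g' hg')
  have hMd : ∀ g ∈ L.map (1 - ·), g ∈ Pol K V (deg K k d) := by
    intro g hg
    obtain ⟨g', hg', rfl⟩ := List.mem_map.1 hg
    exact Submodule.sub_mem _ (Frege.one_mem _) (hLd g' hg')
  have hm := hH.mem_deg hL hLd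
  have hm' := hH.mem_deg hM hMd
  have h1 : H L * H (L.map (1 - ·)) ∈ Z (3 * deg K k (d + 1)) := by
    have h2 : H L * H (L.map (1 - ·)) = H (L.map (1 - ·)) * (g * H L) +
        H L * ((1 - g) * H (L.map (1 - ·))) := by ring
    rw [h2]
    refine (Z _).add_mem ?_ ?_
    · exact hZ.mulle hm' (hc g hg) (by omega)
    · exact hZ.mulle hm (hc' _ (List.mem_map.2 ⟨g, hg, rfl⟩)) (by omega)
  have hb : Bin (H L * H (L.map (1 - ·))) := by
    intro x
    rw [Pi.mul_apply]
    rcases hH.bin hL x with h | h <;> rcases hH.bin hM x with h' | h' <;> rw [h, h'] <;> simp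
  refine hZ.cmono (cov_of hb h1) le_rfl ?_
  intro x hx
  show (H L * H (L.map (1 - ·))) x ≠ 0
  have hx1 : H L x = 1 := by
    by_contra hne
    exact hx fun h => absurd h hne
  have hx2 : H (L.map (1 - ·)) x = 1 := by
    by_contra hne
    exact hx fun _ h => absurd h hne
  rw [Pi.mul_apply, hx1, hx2]
  simp

end Pool.Agent.MP_9cec2c_lc.GW
end
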