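import Pool.Agent.Lib.MP_9cec2c_lc.Mg.G035
import Pool.Agent.Lib.MP_9cec2c_lc.Mg.G060

section

/-!
The values of disjunctions and conjunctions of lists of formulas, graded by a level.
-/

set_option autoImplicit false
set_option linter.unusedSectionVars false

namespace Pool.Agent.MP_9cec2c_lc.GW

open Finset Frege FG

variable {K V : Type} [Field K] [Fintype K] {A k d : ℕ} {Z : ℕ → Submodule K (Fun K V)}
  {H : List (Fun K V) → Fun K V}

/-- The formulas of a list are clean and of depth at most `d`. -/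
def Fine (Z : ℕ → Submodule K (Fun K V)) (H : List (Fun K V) → Fun K V) (n d : ℕ)
    (Λ : List (Form V)) : Prop := ∀ φ ∈ Λ, φ.depth ≤ d ∧ CleanForm Z H n φ

/-- The value of a disjunction agrees with the choice for the list of its members. -/
theorem Kill.cov_disj (hZ : Kill A Z) (hH : Choice k H) (hk : 1 ≤ k) {Λ : List (Form V)}
    (hΛ : Fine Z H (2 * deg K k (d + 1)) d Λ) (hd : (disjL Λ).depth ≤ d)
    (hc : CleanForm Z H (2 * deg K k (d + 1)) (disjL Λ))
    (hC : Clean Z H (2 * deg K k (d + 1)) (pos H Λ)) :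
    Cov Z (8 * deg K k (d + 1)) {x | pv H (disjL Λ) x ≠ 1 - H (pos H Λ) x} := by
  have hT1 : deg K k d ≤ deg K k (d + 1) := deg_mono hk (Nat.le_add_right d 1)
  have b1 := orl_bin hH (disjL Λ)
  have b2 := pos_bin hH Λ
  have m1 := orl_mem hH hk hd
  have m2 := pos_mem hH hk (fun φ hφ => (hΛ φ hφ).1)
  refine hZ.cmono (hZ.cov_ne hH (n := 3 * deg K k (d + 1)) b1 m1 b2 m2 ?_ ?_) (by omega) ?_
  · intro g hg
    obtain ⟨φ, hφ, rfl⟩ := List.mem_map.1 hg
    refine hZ.pv_of_orl hH hk (hΛ φ hφ).1 (n := 2 * deg K k (d + 1)) (fun g hg => ?_) (by omega)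
    exact hc.1 trivial g ((orl_disjL Λ g).2 ⟨φ, hφ, hg⟩)
  · intro g hg
    obtain ⟨φ, hφ, hgφ⟩ := (orl_disjL Λ g).1 hg
    exact hZ.orl_of_pv hH hk (hΛ φ hφ).1 (hΛ φ hφ).2 (hH.mem_deg b2 m2)
      (hC _ (List.mem_map.2 ⟨φ, hφ, rfl⟩)) (by omega) (by omega) g hgφ
  · intro x hx h
    refine hx ?_
    show pv H (disjL Λ) x = 1 - H (pos H Λ) x
    rw [← h]
    rfl

/-- The value of a conjunction agrees with the choice for the list of its members. -/
theorem Kill.cov_conj (hZ : Kill A Z) (hH : Choice k H) (hk : 1 ≤ k) {Λ : List (Form V)}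
    (hΛ : Fine Z H (2 * deg K k (d + 1)) d Λ) (hd : (conjL Λ).depth ≤ d)
    (hc : CleanForm Z H (2 * deg K k (d + 1)) (conjL Λ))
    (hC : Clean Z H (2 * deg K k (d + 1)) (neg H Λ)) :
    Cov Z (8 * deg K k (d + 1)) {x | pv H (conjL Λ) x ≠ H (neg H Λ) x} := by
  have hT1 : deg K k d ≤ deg K k (d + 1) := deg_mono hk (Nat.le_add_right d 1)
  have b1 := andl_bin hH (conjL Λ)
  have b2 := neg_bin hH Λ
  have m1 := andl_mem hH hk hd
  have m2 := neg_mem hH hk (fun φ hφ => (hΛ φ hφ).1)
  refine hZ.cmono (hZ.cov_ne hH (n := 3 * deg K k (d + 1)) b1 m1 b2 m2 ?_ ?_) (by omega) ?_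
  · intro g hg
    obtain ⟨φ, hφ, rfl⟩ := List.mem_map.1 hg
    refine hZ.pv_of_andl hH hk (hΛ φ hφ).1 (n := 2 * deg K k (d + 1)) (fun g hg => ?_) (by omega)
    exact hc.2 trivial g ((andl_conjL Λ g).2 ⟨φ, hφ, hg⟩)
  · intro g hg
    obtain ⟨φ, hφ, hgφ⟩ := (andl_conjL Λ g).1 hg
    exact hZ.andl_of_pv hH hk (hΛ φ hφ).1 (hΛ φ hφ).2 (hH.mem_deg b2 m2)
      (hC _ (List.mem_map.2 ⟨φ, hφ, rfl⟩)) (by omega) (by omega) g hgφ
  · intro x hx h
    refine hx ?_
    show pv H (conjL Λ) x = H (neg H Λ) x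
    rw [← h]
    rfl

end Pool.Agent.MP_9cec2c_lc.GW
end

section

/-!
Instances of schemes by constants: outside a small set of points of the cube, the values of the
formulas in an instance of a scheme are those of an instance by constants. The version with levels.
-/

set_option autoImplicit false
set_option linter.unusedSectionVars false

namespace Pool.Agent.MP_9cec2c_lc.GW

open Finset Frege FG

variable {K V : Type} [Field K] [Fintype K] {A k d p : ℕ} {Z : ℕ → Submodule K (Fun K V)}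
  {H : List (Fun K V) → Fun K V}

/-- The cost of a scheme. -/
def cost : Scheme → ℕ
  | .form _ => 0
  | .list _ => 9
  | .neg P => cost P
  | .conj m P => (∑ i, cost (P i)) + (4 * m + 10)
  | .disj m P => (∑ i, cost (P i)) + (4 * m + 10)
  | .count _ _ P => ∑ i, cost (P i)

/-- All lists at the nodes of the scheme are clean. -/
def NodeFine (Z : ℕ → Submodule K (Fun K V)) (H : List (Fun K V) → Fun K V) (n d : ℕ)
    (σ : ℕ → Form V) (τ : ℕ → List (Form V)) (P : Scheme) : Prop :=
  ∀ Q ∈ P.subs, Fine Z H n d (Q.inst σ τ) ∧ Clean Z H n (pos H (Q.args σ τ)) ∧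
    Clean Z H n (neg H (Q.args σ τ))

theorem clean_single (hH : Choice k H) {n : ℕ} {g : Fun K V} (hg : Bin g) : Clean Z H n [g] := by
  intro g' hg'
  rw [List.mem_singleton.1 hg', hH.one g hg, mul_sub, mul_one, hg.mul_self, sub_self]
  exact (Z n).zero_mem

variable {σ : ℕ → Form V} {τ : ℕ → List (Form V)}

theorem NodeFine.clean (hH : Choice k H) {n : ℕ} {P : Scheme} (h : NodeFine Z H n d σ τ P) :
    Clean Z H n (pos H (P.inst σ τ)) ∧ Clean Z H n (neg H (P.inst σ τ)) := by
  have key : ∀ φ : Form V, Clean Z H n (pos H [φ]) ∧ Clean Z H n (neg H [φ]) := fun φ =>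
    ⟨clean_single hH (bin_all hH φ).1, clean_single hH (bin_one_sub (bin_all hH φ).1)⟩
  induction P with
  | form i => exact key _
  | list i => exact (h _ (Scheme.self_mem_subs _)).2
  | neg P ih =>
    have h1 : NodeFine Z H n d σ τ P := fun Q hQ => h Q (List.mem_cons_of_mem _ hQ)
    have h2 : (Scheme.neg P).inst σ τ = (P.inst σ τ).map .neg := rfl
    rw [h2, pos_map_neg, neg_map_neg]
    exact ⟨(ih h1).2, (ih h1).1⟩
  | conj m P ih => exact key _
  | disj m P ih => exact key _
  | count r m P ih => exact key _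

/-- Outside a covered set, the values of the formulas of an instance of a scheme are the truth
values of an instance by constants. -/
theorem Kill.node [CharP K p] (hZ : Kill A Z) (hH : Choice k H) (hk : 1 ≤ k) {P : Scheme}
    (h : NodeFine Z H (2 * deg K k (d + 1)) d σ τ P) :
    ∃ B, Cov Z (cost P * deg K k (d + 1)) B ∧
      ∀ x ∉ B, Rel p H x (P.inst σ τ) (cinst H σ τ x P) := by
  classical
  obtain ⟨T, hT⟩ : ∃ T, T = deg K k (d + 1) := ⟨_, rfl⟩
  induction P with
  | form i =>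
    refine ⟨∅, hZ.cmono (cov_empty 0) (Nat.zero_le _) subset_rfl, fun x _ => ?_⟩
    exact rel_single hH (eval_const x _).symm
  | list i =>
    obtain ⟨h1, h2, h3⟩ := h _ (Scheme.self_mem_subs _)
    have hd : ∀ φ ∈ τ i, φ.depth ≤ d := fun φ hφ => (h1 φ hφ).1
    have c1 := hZ.cov_sum hH hk (pos_bin hH _) (pos_mem hH hk hd) h2
    have c2 := hZ.cov_sum hH hk (neg_bin hH _) (neg_mem hH hk hd) h3
    have c3 := hZ.cov_both hH (pos_bin hH _) (pos_mem hH hk hd) h2
      (by rw [← neg_eq]; exact h3)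
    have hc : cost (Scheme.list i) = 9 := rfl
    rw [hc]
    refine ⟨_, hZ.cmono (hZ.union (hZ.union c1 c2) c3) (by omega) subset_rfl, fun x hx => ?_⟩
    rw [Set.mem_union, Set.mem_union, not_or, not_or] at hx
    obtain ⟨⟨x1, x2⟩, x3⟩ := hx
    have y1 := not_not.1 x1
    have y2 := not_not.1 x2
    have y3 := not_not.1 x3
    refine rel_repair hH y1 y2 fun a1 a2 => ?_
    rw [neg_eq] at a2
    exact List.map_eq_nil_iff.1 (y3 a1 a2)
  | neg P ih =>
    obtain ⟨B, hB, hx⟩ := ih (fun Q hQ => h Q (List.mem_cons_of_mem _ hQ))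
    exact ⟨B, hB, fun x hxB => (hx x hxB).map_neg⟩
  | conj m P ih =>
    have hc : cost (Scheme.conj m P) = (∑ i, cost (P i)) + (4 * m + 10) := rfl
    rw [hc]
    have hsub : ∀ i, NodeFine Z H (2 * deg K k (d + 1)) d σ τ (P i) := fun i Q hQ => h Q
      (List.mem_cons_of_mem _ (List.mem_flatMap.2 ⟨i, List.mem_finRange i, hQ⟩))
    have hsum : ∑ i, cost (P i) * T = (∑ i, cost (P i)) * T := (Finset.sum_mul _ _ _).symm
    have ih' := fun i => ih i (hsub i)
    choose B hB hrel using ih'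
    rw [← hT] at hB ⊢
    have e1 : ((∑ i, cost (P i)) + (4 * m + 10)) * T =
        (∑ i, cost (P i)) * T + ((4 * m + 2) * T + 8 * T) := by ring
    rw [e1]
    obtain ⟨h1, -, h3⟩ := h _ (Scheme.self_mem_subs _)
    have hΛ : Fine Z H (2 * deg K k (d + 1)) d ((Scheme.conj m P).args σ τ) := by
      intro φ hφ
      obtain ⟨i, -, hi⟩ := List.mem_flatMap.1 hφ
      exact (hsub i _ (Scheme.self_mem_subs _)).1 φ hi
    obtain ⟨hd, hcl⟩ := h1 _ (List.mem_singleton.2 rfl)
    have cB := hZ.iUnion hB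
    have c1 := hZ.cov_concat hH hk (L := fun i => neg H ((P i).inst σ τ)) (d := d)
      (fun i => neg_bin hH _) (fun i => neg_mem hH hk fun φ hφ =>
        ((hsub i _ (Scheme.self_mem_subs _)).1 φ hφ).1)
      (fun i => ((hsub i).clean hH).2) (by rw [← neg_flatMap]; exact h3)
    have c2 := hZ.cov_conj hH hk hΛ hd hcl h3
    rw [← hT] at c1 c2
    rw [hsum] at cB
    refine ⟨_, (hZ.union cB (hZ.union c1 c2)), fun x hx => ?_⟩
    rw [Set.mem_union, Set.mem_union, not_or, not_or] at hx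
    obtain ⟨x0, x1, x2⟩ := hx
    have y1 := not_not.1 x1
    have y2 := not_not.1 x2
    have y0 : ∀ i, x ∉ B i := fun i hi => x0 (Set.mem_iUnion.2 ⟨i, hi⟩)
    refine rel_single hH ?_
    change pv H (conjL ((Scheme.conj m P).args σ τ)) x = 1 ↔
      (conjL ((List.finRange m).flatMap fun i => cinst H σ τ x (P i))).eval p x
    rw [y2]
    have e2 : neg H ((Scheme.conj m P).args σ τ) =
        (List.finRange m).flatMap fun i => neg H ((P i).inst σ τ) := neg_flatMap _
    rw [e2, y1]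
    constructor
    · intro hi
      refine forall_get.2 fun φ hφ => ?_
      obtain ⟨i, -, hi'⟩ := List.mem_flatMap.1 hφ
      exact (hrel i x (y0 i)).and.1 (hi i) φ hi'
    · intro hi i
      refine (hrel i x (y0 i)).and.2 fun φ hφ => ?_
      exact forall_get.1 hi φ (List.mem_flatMap.2 ⟨i, List.mem_finRange i, hφ⟩)
  | disj m P ih =>
    have hc : cost (Scheme.disj m P) = (∑ i, cost (P i)) + (4 * m + 10) := rfl
    rw [hc]
    have hsub : ∀ i, NodeFine Z H (2 * deg K k (d + 1)) d σ τ (P i) := fun i Q hQ => h Q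
      (List.mem_cons_of_mem _ (List.mem_flatMap.2 ⟨i, List.mem_finRange i, hQ⟩))
    have hsum : ∑ i, cost (P i) * T = (∑ i, cost (P i)) * T := (Finset.sum_mul _ _ _).symm
    have ih' := fun i => ih i (hsub i)
    choose B hB hrel using ih'
    rw [← hT] at hB ⊢
    have e1 : ((∑ i, cost (P i)) + (4 * m + 10)) * T =
        (∑ i, cost (P i)) * T + ((4 * m + 2) * T + 8 * T) := by ring
    rw [e1]
    obtain ⟨h1, h3, -⟩ := h _ (Scheme.self_mem_subs _)
    have hΛ : Fine Z H (2 * deg K k (d + 1)) d ((Scheme.disj m P).args σ τ) := by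
      intro φ hφ
      obtain ⟨i, -, hi⟩ := List.mem_flatMap.1 hφ
      exact (hsub i _ (Scheme.self_mem_subs _)).1 φ hi
    obtain ⟨hd, hcl⟩ := h1 _ (List.mem_singleton.2 rfl)
    have cB := hZ.iUnion hB
    have c1 := hZ.cov_concat hH hk (L := fun i => pos H ((P i).inst σ τ)) (d := d)
      (fun i => pos_bin hH _) (fun i => pos_mem hH hk fun φ hφ =>
        ((hsub i _ (Scheme.self_mem_subs _)).1 φ hφ).1)
      (fun i => ((hsub i).clean hH).1) (by rw [← pos_flatMap]; exact h3)
    have c2 := hZ.cov_disj hH hk hΛ hd hcl h3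
    rw [← hT] at c1 c2
    rw [hsum] at cB
    refine ⟨_, (hZ.union cB (hZ.union c1 c2)), fun x hx => ?_⟩
    rw [Set.mem_union, Set.mem_union, not_or, not_or] at hx
    obtain ⟨x0, x1, x2⟩ := hx
    have y1 := not_not.1 x1
    have y2 := not_not.1 x2
    have y0 : ∀ i, x ∉ B i := fun i hi => x0 (Set.mem_iUnion.2 ⟨i, hi⟩)
    refine rel_single hH ?_
    change pv H (disjL ((Scheme.disj m P).args σ τ)) x = 1 ↔
      (disjL ((List.finRange m).flatMap fun i => cinst H σ τ x (P i))).eval p x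
    rw [y2]
    have e2 : pos H ((Scheme.disj m P).args σ τ) =
        (List.finRange m).flatMap fun i => pos H ((P i).inst σ τ) := pos_flatMap _
    rw [e2]
    have hb := hH.bin (L := (List.finRange m).flatMap fun i => pos H ((P i).inst σ τ))
      (by rw [← e2]; exact pos_bin hH _) x
    constructor
    · intro hi
      have h5 : ¬ ∀ i, H (pos H ((P i).inst σ τ)) x = 1 := by
        rw [← y1]
        intro h6
        rw [h6, sub_self] at hi
        exact zero_ne_one hi
      push Not at h5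
      obtain ⟨i, hi5⟩ := h5
      rw [Ne, (hrel i x (y0 i)).or] at hi5
      push Not at hi5
      obtain ⟨φ, hφ, hev⟩ := hi5
      have hmem : φ ∈ (List.finRange m).flatMap fun i => cinst H σ τ x (P i) :=
        List.mem_flatMap.2 ⟨i, List.mem_finRange i, hφ⟩
      obtain ⟨j, hj⟩ := List.get_of_mem hmem
      exact ⟨j, by
        show (((List.finRange m).flatMap fun i => cinst H σ τ x (P i)).get j).eval p x
        rw [hj]
        exact hev⟩
    · rintro ⟨j, hj⟩
      have hmem := List.get_mem ((List.finRange m).flatMap fun i => cinst H σ τ x (P i)) j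
      obtain ⟨i, -, hi⟩ := List.mem_flatMap.1 hmem
      have h5 : H (pos H ((P i).inst σ τ)) x ≠ 1 := by
        intro h6
        exact (hrel i x (y0 i)).or.1 h6 _ hi hj
      have h6 : H ((List.finRange m).flatMap fun i => pos H ((P i).inst σ τ)) x ≠ 1 := by
        intro h7
        exact h5 (y1.1 h7 i)
      rw [hb.resolve_right h6, sub_zero]
  | count r m P ih =>
    have hc : cost (Scheme.count r m P) = ∑ i, cost (P i) := rfl
    rw [hc]
    have hsub : ∀ i, NodeFine Z H (2 * deg K k (d + 1)) d σ τ (P i) := fun i Q hQ => h Q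
      (List.mem_cons_of_mem _ (List.mem_flatMap.2 ⟨i, List.mem_finRange i, hQ⟩))
    have hsum : ∑ i, cost (P i) * T = (∑ i, cost (P i)) * T := (Finset.sum_mul _ _ _).symm
    have ih' := fun i => ih i (hsub i)
    choose B hB hrel using ih'
    rw [← hT] at hB ⊢
    have cB := hZ.iUnion hB
    rw [hsum] at cB
    refine ⟨_, cB, fun x hx => ?_⟩
    have y0 : ∀ i, x ∉ B i := fun i hi => hx (Set.mem_iUnion.2 ⟨i, hi⟩)
    refine rel_single hH ?_
    obtain ⟨Λ, hΛ⟩ : ∃ Λ, Λ = (List.finRange m).flatMap fun i => (P i).inst σ τ := ⟨_, rfl⟩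
    obtain ⟨Λ', hΛ'⟩ : ∃ Λ', Λ' = (List.finRange m).flatMap fun i => cinst H σ τ x (P i) :=
      ⟨_, rfl⟩
    have h1 : ((pos H Λ).map fun g => g x).sum = ((ct p x Λ' : ℕ) : K) := by
      rw [hΛ, hΛ', ct_flatMap, pos_flatMap, List.map_flatMap, sum_flatMap, Nat.cast_sum]
      exact sum_congr rfl fun i _ => (hrel i x (y0 i)).sum
    have h2 : ((pos H Λ).map fun g => g x).sum = ∑ i, pv H (Λ.get i) x := by
      unfold pos
      rw [List.map_map, ← List.sum_ofFn, List.ofFn_eq_map]
      conv_lhs => rw [← List.map_get_finRange Λ]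
      rw [List.map_map]
      rfl
    have h3 : pv H (countL r Λ) x = if (∑ i, pv H (Λ.get i) x) - (r : K) = 0 then 1 else 0 := by
      unfold countL
      rw [pv_count, cf_apply]
      have h4 : ((∑ i, pv H (Λ.get i)) - (r : Fun K V)) x = (∑ i, pv H (Λ.get i) x) - (r : K) := by
        rw [Pi.sub_apply, Finset.sum_apply]
        rfl
      rw [h4]
    show pv H (countL r ((List.finRange m).flatMap fun i => (P i).inst σ τ)) x = 1 ↔
      (countL r ((List.finRange m).flatMap fun i => cinst H σ τ x (P i))).eval p x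
    rw [← hΛ, ← hΛ', h3, ← h2, h1]
    have h6 : (countL r Λ').eval p x ↔ Nat.ModEq p (ct p x Λ') r := by
      rw [← ncard_get]
      exact Iff.rfl
    rw [h6]
    by_cases h7 : ((ct p x Λ' : ℕ) : K) - (r : K) = 0
    · rw [if_pos h7]
      refine ⟨fun _ => ?_, fun _ => rfl⟩
      rw [sub_eq_zero] at h7
      exact (CharP.natCast_eq_natCast K p).1 h7
    · rw [if_neg h7]
      refine ⟨fun h8 => absurd h8 zero_ne_one, fun h8 => ?_⟩
      exact absurd (sub_eq_zero.2 ((CharP.natCast_eq_natCast K p).2 h8)) h7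

end Pool.Agent.MP_9cec2c_lc.GW
end

section

/-!
Soundness of the rules in the version with levels: the negation of the value of the conclusion
counts as zero.
-/

set_option autoImplicit false
set_option linter.unusedSectionVars false

namespace Pool.Agent.MP_9cec2c_lc.GW

open Finset Frege FG

variable {K V : Type} [Field K] [Fintype K] {A k d p : ℕ} {Z : ℕ → Submodule K (Fun K V)}
  {H : List (Fun K V) → Fun K V} {σ : ℕ → Form V} {τ : ℕ → List (Form V)}

/-- The cost of a rule. -/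
def rcost (R : Rule) : ℕ := (R.premises.map fun P => cost P + 2).sum + cost R.conclusion + 1

/-- The premises of a rule. -/
theorem Kill.prems [CharP K p] (hZ : Kill A Z) (hH : Choice k H) (hk : 1 ≤ k) (Ps : List Scheme)
    (hN : ∀ P ∈ Ps, NodeFine Z H (2 * deg K k (d + 1)) d σ τ P)
    (h0 : ∀ P ∈ Ps, ∀ ψ ∈ P.inst σ τ, 1 - pv H ψ ∈ Z (deg K k (d + 1))) :
    ∃ B, Cov Z ((Ps.map fun P => cost P + 2).sum * deg K k (d + 1)) B ∧
      ∀ x ∉ B, ∀ P ∈ Ps, ∀ φ ∈ cinst H σ τ x P, φ.eval p x := by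
  obtain ⟨T, hT⟩ : ∃ T, T = deg K k (d + 1) := ⟨_, rfl⟩
  induction Ps with
  | nil =>
    exact ⟨∅, hZ.cmono (cov_empty 0) (Nat.zero_le _) subset_rfl, fun x _ P hP =>
      absurd hP List.not_mem_nil⟩
  | cons P Ps ih =>
    rw [List.map_cons, List.sum_cons]
    obtain ⟨B, hB, hx⟩ := ih (fun Q hQ => hN Q (List.mem_cons_of_mem _ hQ))
      (fun Q hQ => h0 Q (List.mem_cons_of_mem _ hQ))
    have hNP := hN P List.mem_cons_self
    obtain ⟨B', hB', hx'⟩ := hZ.node (p := p) hH hk hNP
    have hd : ∀ φ ∈ P.inst σ τ, φ.depth ≤ d := fun φ hφ =>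
      ((hNP _ (Scheme.self_mem_subs _)).1 φ hφ).1
    have h1 : 1 - H (neg H (P.inst σ τ)) ∈ Z (2 * deg K k (d + 1)) := by
      have h2 := hZ.list hH (neg_bin hH (P.inst σ τ)) (neg_mem hH hk hd) (U := 1)
        (n := deg K k (d + 1)) (m := 2 * deg K k (d + 1)) (by
          intro g hg
          obtain ⟨ψ, hψ, rfl⟩ := List.mem_map.1 hg
          rw [mul_one]
          exact h0 P List.mem_cons_self ψ hψ) (by rw [← deg_succ]; omega)
      rwa [mul_one] at h2
    have c1 := cov_of (bin_one_sub (hH.bin (neg_bin hH (P.inst σ τ)))) h1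
    have e1 : (cost P + 2 + (Ps.map fun P => cost P + 2).sum) * deg K k (d + 1) =
        (cost P * deg K k (d + 1) + 2 * deg K k (d + 1)) +
          (Ps.map fun P => cost P + 2).sum * deg K k (d + 1) := by ring
    rw [e1]
    refine ⟨_, hZ.union (hZ.union hB' c1) hB, fun x hxB => ?_⟩
    rw [Set.mem_union, Set.mem_union, not_or, not_or] at hxB
    obtain ⟨⟨x1, x2⟩, x3⟩ := hxB
    intro Q hQ
    rcases List.mem_cons.1 hQ with rfl | hQ
    · have h3 : H (neg H (Q.inst σ τ)) x = 1 := by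
        have h4 : (1 - H (neg H (Q.inst σ τ))) x = 0 := by
          by_contra h5
          exact x2 h5
        rw [Pi.sub_apply, Pi.one_apply, sub_eq_zero] at h4
        exact h4.symm
      exact (hx' x x1).and.1 h3
    · exact hx x x3 Q hQ

/-- Soundness of a rule. -/
theorem Kill.rule [CharP K p] (hZ : Kill A Z) (hH : Choice k H) (hk : 1 ≤ k) {R : Rule}
    (hR : R.Sound p) (hN : ∀ P ∈ R.premises, NodeFine Z H (2 * deg K k (d + 1)) d σ τ P)
    (hNc : NodeFine Z H (2 * deg K k (d + 1)) d σ τ R.conclusion)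
    (h0 : ∀ P ∈ R.premises, ∀ ψ ∈ P.inst σ τ, 1 - pv H ψ ∈ Z (deg K k (d + 1))) {φ : Form V}
    (hφ : R.conclusion.inst σ τ = [φ]) : 1 - pv H φ ∈ Z (rcost R * deg K k (d + 1)) := by
  obtain ⟨B, hB, hx⟩ := hZ.prems (p := p) hH hk R.premises hN h0
  obtain ⟨B', hB', hx'⟩ := hZ.node (p := p) hH hk hNc
  have hd : φ.depth ≤ d :=
    ((hNc _ (Scheme.self_mem_subs _)).1 φ (by rw [hφ]; exact List.mem_singleton.2 rfl)).1
  have hT1 : deg K k d ≤ deg K k (d + 1) := deg_mono hk (Nat.le_add_right d 1)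
  have e1 : rcost R * deg K k (d + 1) = deg K k (d + 1) +
      ((R.premises.map fun P => cost P + 2).sum * deg K k (d + 1) +
        cost R.conclusion * deg K k (d + 1)) := by
    unfold rcost
    ring
  refine hZ.mem_of_cov (hZ.union hB hB') (e := deg K k d)
    (Submodule.sub_mem _ (Frege.one_mem _) (pv_mem hH hk hd)) (fun x hxB => ?_) (by omega)
  rw [Set.mem_union, not_or] at hxB
  have h1 := hR V _ _ x (hx x hxB.1)
  have h2 := (hx' x hxB.2).and.2 h1
  rw [hφ] at h2
  have h3 : H (neg H [φ]) = 1 - (1 - pv H φ) := hH.one _ (bin_one_sub (bin_all hH φ).1)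
  rw [h3, Pi.sub_apply, Pi.one_apply, sub_eq_self] at h2
  exact h2

end Pool.Agent.MP_9cec2c_lc.GW
end
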