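import Mathlib

section

/-!
Monomials on the cube, standard monomials and normal forms.
-/

set_option autoImplicit false
set_option linter.unusedSectionVars false

namespace Pool.Agent.MP_9cec2c_lc.ResPoly

open Finset

variable {n : ℕ}

/-- The product of the variables in `M`. -/
def mon (K : Type) [Field K] (M : Finset (Fin n)) (x : Fin n → Bool) : K :=
  if ∀ v ∈ M, x v = true then 1 else 0

/-- The key of a set of variables. -/
def key (M : Finset (Fin n)) : ℕ := ∑ v ∈ M, (2 ^ n + 2 ^ (v : ℕ))

variable (K : Type) [Field K]

/-- The span of the monomials with smaller key. -/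
def low (M : Finset (Fin n)) : Submodule K ((Fin n → Bool) → K) :=
  Submodule.span K {f | ∃ M' : Finset (Fin n), key M' < key M ∧ f = mon K M'}

/-- The functions that vanish on `E`. -/
def van (E : Set (Fin n → Bool)) : Submodule K ((Fin n → Bool) → K) where
  carrier := {f | ∀ x ∈ E, f x = 0}
  add_mem' := by
    intro f g hf hg x hx
    rw [Pi.add_apply, hf x hx, hg x hx, add_zero]
  zero_mem' := by
    intro x _
    rfl
  smul_mem' := by
    intro c f hf x hx
    rw [Pi.smul_apply, hf x hx, smul_zero]

/-- The monomial of `M` is not a combination of smaller monomials on `E`. -/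
def Std (E : Set (Fin n → Bool)) (M : Finset (Fin n)) : Prop :=
  mon K M ∉ low K M ⊔ van K E

/-- The functions of degree at most `d`. -/
def Poly (n d : ℕ) : Submodule K ((Fin n → Bool) → K) :=
  Submodule.span K {f | ∃ M : Finset (Fin n), M.card ≤ d ∧ f = mon K M}

end Pool.Agent.MP_9cec2c_lc.ResPoly
end

section

/-!
Definitions for the lifting theorem: clauses, the polynomial calculus, the composition of a CNF with the majority,
refutations whose lines are polynomials in terms.
-/

set_option autoImplicit false

namespace Pool.Agent.MP_9cec2c_lc.Lift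

open Finset ResPoly

/-- A clause in the variables `Fin n` is a set of literals; the literal `(v, s)` is true at `x` if `x v = s`. -/
abbrev Clause (n : ℕ) : Type := Finset (Fin n × Bool)

/-- The clause `C` is false at `x`. -/
def FalseAt {n : ℕ} (C : Clause n) (x : Fin n → Bool) : Prop := ∀ l ∈ C, x l.1 ≠ l.2

/-- The CNF `G` is satisfiable. -/
def Satisfiable {n : ℕ} (G : Finset (Clause n)) : Prop := ∃ x, ∀ C ∈ G, ¬ FalseAt C x

open Classical in
/-- The polynomial of the clause `C`: the indicator of the points where `C` is false. -/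
noncomputable def clausePoly (K : Type) [Field K] {n : ℕ} (C : Clause n) (x : Fin n → Bool) : K :=
  if FalseAt C x then 1 else 0

/-- The polynomial calculus over the field `K` in degree `D`, for the axioms `clausePoly C = 0`, `C ∈ G`.
Multilinear polynomials are identified with functions on the cube; `Poly K n a` is the space of the multilinear
polynomials of degree at most `a` and `mon K {i}` is the variable `i`. -/
inductive PC (K : Type) [Field K] {n : ℕ} (G : Finset (Clause n)) (D : ℕ) :
    ((Fin n → Bool) → K) → Prop
  | ax (C : Clause n) : C ∈ G → C.card ≤ D → PC K G D (clausePoly K C)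
  | add (p q : (Fin n → Bool) → K) : PC K G D p → PC K G D q → PC K G D (p + q)
  | smul (c : K) (p : (Fin n → Bool) → K) : PC K G D p → PC K G D (c • p)
  | mul (i : Fin n) (a : ℕ) (p : (Fin n → Bool) → K) : PC K G D p → p ∈ Poly K n a → a + 1 ≤ D →
      PC K G D (mon K {i} * p)

/-- The block `i` of the point `x`: its bits are the variables with the numbers `finProdFinEquiv (i, j) = j + b * i`,
`j < b`. -/
def blk {n b : ℕ} (x : Fin (n * b) → Bool) (i : Fin n) : Fin b → Bool :=
  fun j => x (finProdFinEquiv (i, j))

/-- The majority of a block. -/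
def maj {b : ℕ} (q : Fin b → Bool) : Bool :=
  decide (b < 2 * (univ.filter fun j => q j = true).card)

/-- The majorities of all the blocks. -/
def gmaj {n b : ℕ} (x : Fin (n * b) → Bool) : Fin n → Bool := fun i => maj (blk x i)

open Classical in
/-- The clause which is false exactly at the points that agree with `x` in all the blocks of the variables of `C`. -/
noncomputable def forbid {n b : ℕ} (C : Clause n) (x : Fin (n * b) → Bool) : Clause (n * b) :=
  (univ.filter fun v : Fin (n * b) => ∃ l ∈ C, (finProdFinEquiv.symm v).1 = l.1).image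
    fun v => (v, !x v)

open Classical in
/-- The CNF of `G` composed with the majority of `b` bits: all clauses `forbid C x` for `C` in `G` false at the
majorities of `x`. -/
noncomputable def compMaj {n : ℕ} (G : Finset (Clause n)) (b : ℕ) : Finset (Clause (n * b)) :=
  G.biUnion fun C => (univ.filter fun x : Fin (n * b) → Bool => FalseAt C (gmaj x)).image
    fun x => forbid C x

open Classical in
/-- The term of a set `G` of functions: the indicator of the common zeros. -/
noncomputable def term (K : Type) [Field K] {n : ℕ} (G : Set ((Fin n → Bool) → K))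
    (x : Fin n → Bool) : K := if ∀ g ∈ G, g x = 0 then 1 else 0

/-- A refutation of the CNF `F` in `N` variables. There are `S` terms, the indicators of the common zeros of
arbitrary sets of functions of degree at most `t`. The lines are equations `line i = 0`, any number of them, where
`line i` is a polynomial of degree at most `T` in the terms with coefficients in `K`. Every line is implied by one
clause of `F` or by at most `r` earlier lines. Some line is never true. -/
structure Refutation (K : Type) [Field K] {N : ℕ} (F : Finset (Clause N)) (t T r S : ℕ) where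
  /-- the sets of functions of the terms -/
  fam : Fin S → Set ((Fin N → Bool) → K)
  fam_deg : ∀ s, ∀ g ∈ fam s, g ∈ Poly K N t
  /-- the number of lines -/
  m : ℕ
  /-- the lines -/
  line : Fin m → (Fin N → Bool) → K
  line_mem : ∀ i, line i ∈ Submodule.span K
    {f | ∃ w : Finset (Fin S), w.card ≤ T ∧ f = ∏ s ∈ w, term K (fam s)}
  rule : ∀ i, (∃ C ∈ F, ∀ x, ¬ FalseAt C x → line i x = 0) ∨
    ∃ s : Finset (Fin m), s.card ≤ r ∧ (∀ j ∈ s, j < i) ∧
      ∀ x, (∀ j ∈ s, line j x = 0) → line i x = 0
  last : ∃ i, ∀ x, line i x ≠ 0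

end Pool.Agent.MP_9cec2c_lc.Lift
end

section

/-!
Keys, the basis of monomials, normal forms on a set of points, products.
-/

set_option autoImplicit false
set_option linter.unusedSectionVars false

namespace Pool.Agent.MP_9cec2c_lc.ResPoly

open Finset

variable {n : ℕ}

/-! ### Keys -/

theorem sum_two_pow_lt (M : Finset (Fin n)) : ∑ v ∈ M, 2 ^ (v : ℕ) < 2 ^ n := by
  have h1 : ∑ v ∈ M, 2 ^ (v : ℕ) ≤ ∑ v : Fin n, 2 ^ (v : ℕ) :=
    sum_le_sum_of_subset (subset_univ M)
  have h2 : ∑ v : Fin n, 2 ^ (v : ℕ) = ∑ v ∈ range n, 2 ^ v :=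
    Fin.sum_univ_eq_sum_range (fun v => 2 ^ v) n
  have h3 : ∑ v ∈ range n, 2 ^ v < 2 ^ n := Nat.geomSum_lt (le_refl 2) (fun k hk => mem_range.1 hk)
  omega

theorem key_eq (M : Finset (Fin n)) : key M = M.card * 2 ^ n + ∑ v ∈ M, 2 ^ (v : ℕ) := by
  unfold key
  rw [sum_add_distrib, sum_const, smul_eq_mul]

theorem key_graded {M M' : Finset (Fin n)} (h : M'.card < M.card) : key M' < key M := by
  rw [key_eq, key_eq]
  have h1 := sum_two_pow_lt M'
  have h2 : (M'.card + 1) * 2 ^ n ≤ M.card * 2 ^ n := Nat.mul_le_mul_right _ h
  rw [add_mul, one_mul] at h2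
  omega

theorem card_le_of_key_le {M M' : Finset (Fin n)} (h : key M' ≤ key M) : M'.card ≤ M.card := by
  by_contra hcon
  rw [not_le] at hcon
  have := key_graded hcon
  omega

theorem key_inj {M M' : Finset (Fin n)} (h : key M = key M') : M = M' := by
  have hc : M.card = M'.card :=
    le_antisymm (card_le_of_key_le h.le) (card_le_of_key_le h.ge)
  rw [key_eq, key_eq, hc] at h
  have h1 : ∑ v ∈ M, 2 ^ (v : ℕ) = ∑ v ∈ M', 2 ^ (v : ℕ) := Nat.add_left_cancel h
  have h2 : ∑ v ∈ M.map Fin.valEmbedding, 2 ^ v = ∑ v ∈ M'.map Fin.valEmbedding, 2 ^ v := by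
    rw [sum_map, sum_map]
    exact h1
  have h3 := Finset.geomSum_injective (le_refl 2) h2
  exact map_injective _ h3

theorem key_mono {M M' : Finset (Fin n)} (h : M' ⊆ M) : key M' ≤ key M :=
  sum_le_sum_of_subset h

variable (K : Type) [Field K]

/-! ### Monomials are a basis -/

theorem mon_self (M : Finset (Fin n)) : mon K M (fun v => decide (v ∈ M)) = 1 := by
  unfold mon
  rw [if_pos]
  intro v hv
  exact decide_eq_true hv

theorem mon_dec (M M' : Finset (Fin n)) :
    mon K M' (fun v => decide (v ∈ M)) = if M' ⊆ M then 1 else 0 := by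
  unfold mon
  congr 1
  apply propext
  constructor
  · intro h v hv
    exact of_decide_eq_true (h v hv)
  · intro h v hv
    exact decide_eq_true (h hv)

theorem mon_linInd : LinearIndependent K (mon K : Finset (Fin n) → (Fin n → Bool) → K) := by
  rw [Fintype.linearIndependent_iff]
  intro g hg
  have key1 : ∀ k : ℕ, ∀ M : Finset (Fin n), M.card = k → g M = 0 := by
    intro k
    induction k using Nat.strong_induction_on with
    | _ k ih =>
      intro M hM
      have h1 := congrFun hg (fun v => decide (v ∈ M))
      rw [Finset.sum_apply] at h1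
      simp only [Pi.smul_apply, smul_eq_mul, mon_dec, Pi.zero_apply, mul_ite, mul_one,
        mul_zero] at h1
      rw [← h1, ← sum_filter, Finset.sum_eq_single_of_mem M (by simp)]
      intro M' hM' hne
      have hs := (mem_filter.1 hM').2
      exact ih M'.card (hM ▸ card_lt_card (hs.ssubset_of_ne hne)) M' rfl
  intro M
  exact key1 _ M rfl

/-- The basis of monomials. -/
noncomputable def monBasis (n : ℕ) : Module.Basis (Finset (Fin n)) K ((Fin n → Bool) → K) :=
  basisOfLinearIndependentOfCardEqFinrank (mon_linInd K) (by
    rw [Module.finrank_fintype_fun_eq_card, Fintype.card_finset, Fintype.card_fun,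
      Fintype.card_bool])

theorem monBasis_apply (M : Finset (Fin n)) : monBasis K n M = mon K M := by
  unfold monBasis
  rw [coe_basisOfLinearIndependentOfCardEqFinrank]

/-! ### Normal forms -/

/-- The span of the standard monomials of `E` that satisfy `P`. -/
def stdSpan (E : Set (Fin n → Bool)) (P : Finset (Fin n) → Prop) :
    Submodule K ((Fin n → Bool) → K) :=
  Submodule.span K {f | ∃ M : Finset (Fin n), Std K E M ∧ P M ∧ f = mon K M}

theorem stdSpan_mono {E : Set (Fin n → Bool)} {P Q : Finset (Fin n) → Prop}
    (h : ∀ M, P M → Q M) : stdSpan K E P ≤ stdSpan K E Q := by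
  apply Submodule.span_mono
  rintro f ⟨M, h1, h2, h3⟩
  exact ⟨M, h1, h M h2, h3⟩

theorem stdSpan_unique {E : Set (Fin n → Bool)} {r : (Fin n → Bool) → K}
    (hr : r ∈ stdSpan K E fun _ => True) (hv : r ∈ van K E) : r = 0 := by
  have key1 : ∀ N : ℕ, ∀ r : (Fin n → Bool) → K,
      r ∈ stdSpan K E (fun M => key M < N) → r ∈ van K E → r = 0 := by
    intro N
    induction N with
    | zero =>
      intro r hr _
      unfold stdSpan at hr
      have h0 : {f : (Fin n → Bool) → K | ∃ M : Finset (Fin n), Std K E M ∧ key M < 0 ∧
          f = mon K M} = ∅ := by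
        ext f
        constructor
        · rintro ⟨M, -, h, -⟩
          exact absurd h (Nat.not_lt_zero _)
        · intro h
          exact absurd h (Set.notMem_empty f)
      rw [h0, Submodule.span_empty] at hr
      exact (Submodule.mem_bot K).1 hr
    | succ N ih =>
      intro r hr hv
      by_cases hex : ∃ M : Finset (Fin n), Std K E M ∧ key M = N
      · obtain ⟨M, hM, hkM⟩ := hex
        have hset : {f : (Fin n → Bool) → K | ∃ M : Finset (Fin n), Std K E M ∧ key M < N + 1 ∧
            f = mon K M} ⊆ insert (mon K M) {f | ∃ M : Finset (Fin n), Std K E M ∧ key M < N ∧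
            f = mon K M} := by
          rintro f ⟨M', h1, h2, rfl⟩
          rcases Nat.lt_succ_iff_lt_or_eq.1 h2 with h3 | h3
          · exact Set.mem_insert_of_mem _ ⟨M', h1, h3, rfl⟩
          · have : M' = M := key_inj (h3.trans hkM.symm)
            rw [this]
            exact Set.mem_insert _ _
        have hr' := Submodule.span_mono hset hr
        rw [Submodule.mem_span_insert] at hr'
        obtain ⟨c, r', hr1, hr2⟩ := hr'
        have hc : c = 0 := by
          by_contra hc
          apply hM
          have h1 : mon K M = -(c⁻¹ • r') + c⁻¹ • r := by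
            rw [hr2, smul_add, smul_smul, inv_mul_cancel₀ hc, one_smul]
            abel
          rw [h1]
          refine Submodule.add_mem_sup ?_ (Submodule.smul_mem _ _ hv)
          refine Submodule.neg_mem _ (Submodule.smul_mem _ _ ?_)
          refine Submodule.span_mono ?_ hr1
          rintro f ⟨M', -, h2, h3⟩
          exact ⟨M', by omega, h3⟩
        rw [hc, zero_smul, zero_add] at hr2
        rw [hr2] at hv ⊢
        exact ih r' hr1 hv
      · refine ih r ?_ hv
        refine Submodule.span_mono ?_ hr
        rintro f ⟨M', h1, h2, h3⟩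
        refine ⟨M', h1, ?_, h3⟩
        rcases Nat.lt_succ_iff_lt_or_eq.1 h2 with h4 | h4
        · exact h4
        · exact absurd ⟨M', h1, h4⟩ hex
  have hbig : ∀ M : Finset (Fin n), key M < key (univ : Finset (Fin n)) + 1 := fun M =>
    Nat.lt_succ_of_le (key_mono (subset_univ M))
  exact key1 _ r (stdSpan_mono K (fun M _ => hbig M) hr) hv

theorem exists_nf (E : Set (Fin n → Bool)) (T : Finset (Fin n)) :
    ∃ r ∈ stdSpan K E (fun M => key M ≤ key T), mon K T - r ∈ van K E := by
  have key1 : ∀ N : ℕ, ∀ T : Finset (Fin n), key T = N →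
      ∃ r ∈ stdSpan K E (fun M => key M ≤ key T), mon K T - r ∈ van K E := by
    intro N
    induction N using Nat.strong_induction_on with
    | _ N ih =>
      intro T hT
      by_cases hstd : Std K E T
      · refine ⟨mon K T, Submodule.subset_span ⟨T, hstd, le_rfl, rfl⟩, ?_⟩
        rw [sub_self]
        exact Submodule.zero_mem _
      · unfold Std at hstd
        rw [not_not] at hstd
        obtain ⟨q, hq, g, hg, hqg⟩ := Submodule.mem_sup.1 hstd
        have h1 : ∃ r ∈ stdSpan K E (fun M => key M ≤ key T), q - r ∈ van K E := by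
          unfold low at hq
          clear hqg hg hstd g
          induction hq using Submodule.span_induction with
          | mem f hf =>
            obtain ⟨M', h1, rfl⟩ := hf
            obtain ⟨r, hr1, hr2⟩ := ih (key M') (hT ▸ h1) M' rfl
            exact ⟨r, stdSpan_mono K (fun M h => h.trans h1.le) hr1, hr2⟩
          | zero =>
            refine ⟨0, Submodule.zero_mem _, ?_⟩
            rw [sub_zero]
            exact Submodule.zero_mem _
          | add f g _ _ hf hg =>
            obtain ⟨r, hr1, hr2⟩ := hf
            obtain ⟨s, hs1, hs2⟩ := hg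
            refine ⟨r + s, Submodule.add_mem _ hr1 hs1, ?_⟩
            rw [add_sub_add_comm]
            exact Submodule.add_mem _ hr2 hs2
          | smul c f _ hf =>
            obtain ⟨r, hr1, hr2⟩ := hf
            refine ⟨c • r, Submodule.smul_mem _ _ hr1, ?_⟩
            rw [← smul_sub]
            exact Submodule.smul_mem _ _ hr2
        obtain ⟨r, hr1, hr2⟩ := h1
        refine ⟨r, hr1, ?_⟩
        rw [← hqg, add_sub_right_comm]
        exact Submodule.add_mem _ hr2 hg
  exact key1 _ T rfl

/-- The function `r` is the normal form of `p` on `E`. -/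
def NF (E : Set (Fin n → Bool)) (p r : (Fin n → Bool) → K) : Prop :=
  r ∈ stdSpan K E (fun _ => True) ∧ p - r ∈ van K E

theorem NF.unique {E : Set (Fin n → Bool)} {p p' r r' : (Fin n → Bool) → K} (h : NF K E p r)
    (h' : NF K E p' r') (hp : p - p' ∈ van K E) : r = r' := by
  rw [← sub_eq_zero]
  refine stdSpan_unique K (Submodule.sub_mem _ h.1 h'.1) ?_
  have h1 : r - r' = (p - p') - (p - r) + (p' - r') := by abel
  rw [h1]
  exact Submodule.add_mem _ (Submodule.sub_mem _ hp h.2) h'.2

theorem NF.zero (E : Set (Fin n → Bool)) : NF K E 0 0 := by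
  refine ⟨Submodule.zero_mem _, ?_⟩
  rw [sub_zero]
  exact Submodule.zero_mem _

theorem NF.zero_of_van {E : Set (Fin n → Bool)} {p : (Fin n → Bool) → K} (h : p ∈ van K E) :
    NF K E p 0 := by
  refine ⟨Submodule.zero_mem _, ?_⟩
  rw [sub_zero]
  exact h

theorem NF.add {E : Set (Fin n → Bool)} {p p' r r' : (Fin n → Bool) → K} (h : NF K E p r)
    (h' : NF K E p' r') : NF K E (p + p') (r + r') := by
  refine ⟨Submodule.add_mem _ h.1 h'.1, ?_⟩
  rw [add_sub_add_comm]
  exact Submodule.add_mem _ h.2 h'.2

theorem NF.smul {E : Set (Fin n → Bool)} {p r : (Fin n → Bool) → K} (c : K) (h : NF K E p r) :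
    NF K E (c • p) (c • r) := by
  refine ⟨Submodule.smul_mem _ _ h.1, ?_⟩
  rw [← smul_sub]
  exact Submodule.smul_mem _ _ h.2

theorem van_anti {E E' : Set (Fin n → Bool)} (h : E' ⊆ E) : van K E ≤ van K E' :=
  fun _ hf x hx => hf x (h hx)

/-! ### Products -/

theorem mon_mul (M M' : Finset (Fin n)) : mon K M * mon K M' = mon K (M ∪ M') := by
  funext x
  rw [Pi.mul_apply]
  unfold mon
  by_cases h : ∀ v ∈ M, x v = true <;> by_cases h' : ∀ v ∈ M', x v = true
  · rw [if_pos h, if_pos h', if_pos, mul_one]
    intro v hv
    rcases mem_union.1 hv with h1 | h1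
    · exact h v h1
    · exact h' v h1
  · rw [if_neg h', mul_zero, if_neg]
    exact fun h1 => h' fun v hv => h1 v (mem_union_right _ hv)
  · rw [if_neg h, zero_mul, if_neg]
    exact fun h1 => h fun v hv => h1 v (mem_union_left _ hv)
  · rw [if_neg h, zero_mul, if_neg]
    exact fun h1 => h fun v hv => h1 v (mem_union_left _ hv)

theorem mon_mem_Poly {M : Finset (Fin n)} {d : ℕ} (h : M.card ≤ d) : mon K M ∈ Poly K n d :=
  Submodule.subset_span ⟨M, h, rfl⟩

theorem Poly_mono {d d' : ℕ} (h : d ≤ d') : Poly K n d ≤ Poly K n d' := by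
  apply Submodule.span_mono
  rintro f ⟨M, h1, h2⟩
  exact ⟨M, h1.trans h, h2⟩

theorem Poly_mul {d d' : ℕ} {f g : (Fin n → Bool) → K} (hf : f ∈ Poly K n d)
    (hg : g ∈ Poly K n d') : f * g ∈ Poly K n (d + d') := by
  unfold Poly at hf
  induction hf using Submodule.span_induction with
  | mem f hf =>
    obtain ⟨M, hM, rfl⟩ := hf
    unfold Poly at hg
    induction hg using Submodule.span_induction with
    | mem g hg =>
      obtain ⟨M', hM', rfl⟩ := hg
      rw [mon_mul]
      exact mon_mem_Poly K ((card_union_le M M').trans (Nat.add_le_add hM hM'))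
    | zero =>
      rw [mul_zero]
      exact Submodule.zero_mem _
    | add g h _ _ hg hh =>
      rw [mul_add]
      exact Submodule.add_mem _ hg hh
    | smul c g _ hg =>
      rw [mul_smul_comm]
      exact Submodule.smul_mem _ c hg
  | zero =>
    rw [zero_mul]
    exact Submodule.zero_mem _
  | add f h _ _ hf hh =>
    rw [add_mul]
    exact Submodule.add_mem _ hf hh
  | smul c f _ hf =>
    rw [smul_mul_assoc]
    exact Submodule.smul_mem _ c hf

end Pool.Agent.MP_9cec2c_lc.ResPoly
end
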