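import Pool.Agent.Lib.MP_9cec2c_lc.Mg.G040

section

/-!
Definitions for the relation between size and degree: refutations in resolution over parities.
-/

set_option autoImplicit false

namespace Pool.Agent.MP_9cec2c_lc.SizeDeg

open Finset ResPoly Lift

/-- A line is given by a set `G` of functions. It says that some function of `G` is not 0. If the
functions of `G` have degree at most 1 and values modulo 2, then the line is a disjunction of linear
equations modulo 2. -/
def Holds {K : Type} [Field K] {N : ℕ} (G : Set ((Fin N → Bool) → K)) (x : Fin N → Bool) : Prop :=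
  ∃ g ∈ G, g x ≠ 0

/-- A refutation of the CNF `F` in resolution over parities with `S` lines. The lines are
disjunctions of any number of linear equations modulo 2. Every line is implied by one clause of `F`
or by at most `r` earlier lines. Some line is never true. -/
structure ParityRefutation {N : ℕ} (F : Finset (Clause N)) (r S : ℕ) where
  /-- the lines -/
  line : Fin S → Set ((Fin N → Bool) → ZMod 2)
  line_deg : ∀ i, ∀ g ∈ line i, g ∈ Poly (ZMod 2) N 1
  rule : ∀ i, (∃ C ∈ F, ∀ x, ¬ FalseAt C x → Holds (line i) x) ∨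
    ∃ s : Finset (Fin S), s.card ≤ r ∧ (∀ j ∈ s, j < i) ∧
      ∀ x, (∀ j ∈ s, Holds (line j) x) → Holds (line i) x
  last : ∃ i, ∀ x, ¬ Holds (line i) x

end Pool.Agent.MP_9cec2c_lc.SizeDeg
end

section

/-!
The rank of a linear map on the functions of small degree, counted by standard monomials.
-/

set_option autoImplicit false
set_option linter.unusedSectionVars false

namespace Pool.Agent.MP_9cec2c_lc.SizeDeg

open Finset Pool.Agent.MP_9cec2c_lc.ResPoly

variable {n : ℕ} {K : Type} [Field K] {W : Type} [AddCommGroup W] [Module K W]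

theorem key_union_le (M U : Finset (Fin n)) : key (M ∪ U) ≤ key M + key U := by
  unfold key
  rw [← sum_union_inter]
  exact Nat.le_add_right _ _

theorem key_union_eq {M U : Finset (Fin n)} (h : Disjoint M U) :
    key (M ∪ U) = key M + key U := sum_union h

/-- The dimension of the image of the functions of degree at most `d`. -/
noncomputable def rkm (φ : ((Fin n → Bool) → K) →ₗ[K] W) (d : ℕ) : ℕ :=
  Module.finrank K ((ResPoly.Poly K n d).map φ)

/-- The image of the monomial of `M` is not a combination of images of smaller monomials. -/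
def StdM (φ : ((Fin n → Bool) → K) →ₗ[K] W) (M : Finset (Fin n)) : Prop :=
  φ (mon K M) ∉ (low K M).map φ

open Classical in
/-- The standard monomials of degree `i`. -/
noncomputable def lev (φ : ((Fin n → Bool) → K) →ₗ[K] W) (i : ℕ) : Finset (Finset (Fin n)) :=
  univ.filter fun M => M.card = i ∧ StdM φ M

theorem mem_lev {φ : ((Fin n → Bool) → K) →ₗ[K] W} {i : ℕ} {M : Finset (Fin n)} :
    M ∈ lev φ i ↔ M.card = i ∧ StdM φ M := by
  classical
  exact ⟨fun h => (mem_filter.1 h).2, fun h => mem_filter.2 ⟨mem_univ M, h⟩⟩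

theorem mem_span_std (φ : ((Fin n → Bool) → K) →ₗ[K] W) (M : Finset (Fin n)) :
    φ (mon K M) ∈ Submodule.span K {w | ∃ M', StdM φ M' ∧ key M' ≤ key M ∧ w = φ (mon K M')} := by
  have key1 : ∀ N : ℕ, ∀ M : Finset (Fin n), key M = N → φ (mon K M) ∈
      Submodule.span K {w | ∃ M', StdM φ M' ∧ key M' ≤ key M ∧ w = φ (mon K M')} := by
    intro N
    induction N using Nat.strong_induction_on with
    | _ N ih =>
      intro M hM
      by_cases hstd : StdM φ M
      · exact Submodule.subset_span ⟨M, hstd, le_rfl, rfl⟩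
      · unfold StdM at hstd
        rw [not_not] at hstd
        refine (?_ : (low K M).map φ ≤ _) hstd
        unfold low
        rw [Submodule.map_span_le]
        rintro f ⟨M', hM', rfl⟩
        refine Submodule.span_mono ?_ (ih (key M') (hM ▸ hM') M' rfl)
        rintro w ⟨M'', h1, h2, h3⟩
        exact ⟨M'', h1, h2.trans hM'.le, h3⟩
  exact key1 _ M rfl

theorem std_linInd (φ : ((Fin n → Bool) → K) →ₗ[K] W) (s : Finset (Finset (Fin n)))
    (hs : ∀ M ∈ s, StdM φ M) :
    LinearIndependent K (fun M : {M // M ∈ s} => φ (mon K M.1)) := by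
  classical
  rw [linearIndependent_iff']
  intro t g hg M hM
  by_contra hne
  obtain ⟨M0, hM0, hmax⟩ := exists_max_image (t.filter fun M => g M ≠ 0)
    (fun M => key M.1) ⟨M, mem_filter.2 ⟨hM, hne⟩⟩
  obtain ⟨hM0t, hg0⟩ := mem_filter.1 hM0
  apply hs M0.1 M0.2
  rw [← add_sum_erase _ _ hM0t] at hg
  have h1 : φ (mon K M0.1) =
      -((g M0)⁻¹ • ∑ M ∈ t.erase M0, g M • φ (mon K M.1)) := by
    rw [eq_neg_iff_add_eq_zero]
    have h2 : φ (mon K M0.1) = (g M0)⁻¹ • (g M0 • φ (mon K M0.1)) := by
      rw [smul_smul, inv_mul_cancel₀ hg0, one_smul]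
    rw [h2, ← smul_add, hg, smul_zero]
  rw [h1]
  refine Submodule.neg_mem _ (Submodule.smul_mem _ _ (Submodule.sum_mem _ fun M hM => ?_))
  by_cases hgM : g M = 0
  · rw [hgM, zero_smul]
    exact Submodule.zero_mem _
  · refine Submodule.smul_mem _ _ (Submodule.mem_map_of_mem (Submodule.subset_span
      ⟨M.1, ?_, rfl⟩))
    obtain ⟨h2, h3⟩ := mem_erase.1 hM
    refine lt_of_le_of_ne (hmax M (mem_filter.2 ⟨h3, hgM⟩)) fun h4 => h2 ?_
    exact Subtype.ext (key_inj h4)

/-- The rank is the number of standard monomials. -/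
theorem rkm_eq (φ : ((Fin n → Bool) → K) →ₗ[K] W) (d : ℕ) :
    rkm φ d = ∑ i ∈ range (d + 1), (lev φ i).card := by
  classical
  obtain ⟨s, hs⟩ : ∃ s, s = (range (d + 1)).biUnion fun i => lev φ i := ⟨_, rfl⟩
  have hmem : ∀ M : Finset (Fin n), M ∈ s ↔ M.card ≤ d ∧ StdM φ M := by
    intro M
    rw [hs, mem_biUnion]
    constructor
    · rintro ⟨i, hi, hM⟩
      obtain ⟨h1, h2⟩ := mem_lev.1 hM
      have := mem_range.1 hi
      exact ⟨by omega, h2⟩
    · rintro ⟨h1, h2⟩
      exact ⟨M.card, mem_range.2 (Nat.lt_succ_of_le h1), mem_lev.2 ⟨rfl, h2⟩⟩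
  have h1 : (ResPoly.Poly K n d).map φ =
      Submodule.span K (Set.range fun M : {M // M ∈ s} => φ (mon K M.1)) := by
    refine le_antisymm ?_ ?_
    · unfold ResPoly.Poly
      rw [Submodule.map_span_le]
      rintro f ⟨M, hM, rfl⟩
      refine Submodule.span_mono ?_ (mem_span_std φ M)
      rintro w ⟨M', h1, h2, rfl⟩
      exact ⟨⟨M', (hmem M').2 ⟨(card_le_of_key_le h2).trans hM, h1⟩⟩, rfl⟩
    · rw [Submodule.span_le]
      rintro w ⟨⟨M, hM⟩, rfl⟩
      exact Submodule.mem_map_of_mem (Submodule.subset_span ⟨M, ((hmem M).1 hM).1, rfl⟩)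
  unfold rkm
  rw [h1, finrank_span_eq_card (std_linInd φ s fun M hM => ((hmem M).1 hM).2),
    Fintype.card_coe, hs, card_biUnion]
  intro i _ j _ hij
  rw [Function.onFun, disjoint_left]
  intro M hMi hMj
  exact hij ((mem_lev.1 hMi).1.symm.trans (mem_lev.1 hMj).1)

/-- The standard monomials of degree at most `B` form a down-set. -/
def Down (φ : ((Fin n → Bool) → K) →ₗ[K] W) (B : ℕ) : Prop :=
  ∀ N M : Finset (Fin n), N ⊆ M → M.card ≤ B → StdM φ M → StdM φ N

theorem level_step {φ : ((Fin n → Bool) → K) →ₗ[K] W} {B : ℕ} (hφ : Down φ B) {i : ℕ}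
    (hi : i + 1 ≤ B) : (lev φ (i + 1)).card * (i + 1) ≤ (lev φ i).card * n := by
  have h1 : ((lev φ (i + 1) : Finset (Finset (Fin n))) : Set (Finset (Fin n))).Sized
      (i + 1) := fun M hM => (mem_lev.1 (mem_coe.1 hM)).1
  have h2 := local_lubell_yamamoto_meshalkin_inequality_mul h1
  rw [Fintype.card_fin] at h2
  have h3 : (shadow (lev φ (i + 1))) ⊆ lev φ i := by
    intro M hM
    obtain ⟨M', hM', v, hv, rfl⟩ := mem_shadow_iff.1 hM
    obtain ⟨h4, h5⟩ := mem_lev.1 hM'
    refine mem_lev.2 ⟨?_, hφ _ _ (erase_subset v M') (by omega) h5⟩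
    rw [card_erase_of_mem hv, h4]
    rfl
  refine h2.trans ?_
  rcases Nat.eq_zero_or_pos (lev φ (i + 1)).card with h0 | h0
  · rw [card_eq_zero] at h0
    rw [h0, shadow_empty, card_empty, zero_mul]
    exact Nat.zero_le _
  · have h6 : i + 1 ≤ n := by
      obtain ⟨M, hM⟩ := card_pos.1 h0
      rw [← (mem_lev.1 hM).1]
      have := card_le_univ M
      rwa [Fintype.card_fin] at this
    exact Nat.mul_le_mul (card_le_card h3) (by omega)

theorem level_steps {φ : ((Fin n → Bool) → K) →ₗ[K] W} {B : ℕ} (hφ : Down φ B) (i t : ℕ)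
    (hi : i + t ≤ B) : (lev φ (i + t)).card * (i + 1) ^ t ≤ (lev φ i).card * n ^ t := by
  induction t with
  | zero => exact le_rfl
  | succ t ih =>
    have h1 := level_step hφ (i := i + t) (by omega)
    calc (lev φ (i + (t + 1))).card * (i + 1) ^ (t + 1)
        = ((lev φ (i + t + 1)).card * (i + 1)) * (i + 1) ^ t := by
          rw [pow_succ, ← add_assoc]; ring
      _ ≤ ((lev φ (i + t + 1)).card * (i + t + 1)) * (i + 1) ^ t :=
          Nat.mul_le_mul_right _ (Nat.mul_le_mul_left _ (by omega))
      _ ≤ ((lev φ (i + t)).card * n) * (i + 1) ^ t := Nat.mul_le_mul_right _ h1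
      _ = ((lev φ (i + t)).card * (i + 1) ^ t) * n := by ring
      _ ≤ ((lev φ i).card * n ^ t) * n := Nat.mul_le_mul_right _ (ih (by omega))
      _ = (lev φ i).card * n ^ (t + 1) := by ring

/-- The rank does not grow much with the degree. -/
theorem rkm_ratio {φ : ((Fin n → Bool) → K) →ₗ[K] W} {B : ℕ} (hφ : Down φ B) (e t : ℕ)
    (hB : e + 2 * t ≤ B) :
    (e + 1) ^ t * rkm φ (e + 2 * t) ≤ ((e + 1) ^ t + n ^ t) * rkm φ (e + t) := by
  have h1 : rkm φ (e + 2 * t) =
      rkm φ (e + t) + ∑ j ∈ range t, (lev φ (e + t + 1 + j)).card := by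
    rw [rkm_eq, rkm_eq, ← sum_range_add]
    congr 2
    ring
  have h2 : (e + 1) ^ t * ∑ j ∈ range t, (lev φ (e + t + 1 + j)).card ≤
      n ^ t * rkm φ (e + t) := by
    have h3 : ∑ j ∈ range t, (lev φ (e + 1 + j)).card ≤ rkm φ (e + t) := by
      rw [rkm_eq, show e + t + 1 = e + 1 + t by ring, sum_range_add]
      exact Nat.le_add_left _ _
    refine le_trans ?_ (Nat.mul_le_mul_left _ h3)
    rw [mul_sum, mul_sum]
    refine sum_le_sum fun j hj => ?_
    have hjt := mem_range.1 hj
    have h4 := level_steps hφ (e + 1 + j) t (by omega)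
    have h5 : e + 1 + j + t = e + t + 1 + j := by ring
    rw [h5] at h4
    calc (e + 1) ^ t * (lev φ (e + t + 1 + j)).card
        = (lev φ (e + t + 1 + j)).card * (e + 1) ^ t := mul_comm _ _
      _ ≤ (lev φ (e + t + 1 + j)).card * (e + 1 + j + 1) ^ t :=
          Nat.mul_le_mul_left _ (Nat.pow_le_pow_left (by omega) t)
      _ ≤ (lev φ (e + 1 + j)).card * n ^ t := h4
      _ = n ^ t * (lev φ (e + 1 + j)).card := mul_comm _ _
  rw [h1, mul_add, add_mul]
  exact Nat.add_le_add_left h2 _

/-! ### Ranks of linear maps on a subspace -/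

section maps

variable {V W1 W2 : Type} [AddCommGroup V] [Module K V] [FiniteDimensional K V]
  [AddCommGroup W1] [Module K W1] [AddCommGroup W2] [Module K W2]

theorem finrank_map_add (S : Submodule K V) (f : V →ₗ[K] W1) :
    Module.finrank K (S.map f) + Module.finrank K (S ⊓ LinearMap.ker f : Submodule K V) =
      Module.finrank K S := by
  have h1 := LinearMap.finrank_range_add_finrank_ker (f.domRestrict S)
  rw [LinearMap.range_domRestrict] at h1
  have h2 : Module.finrank K (LinearMap.ker (f.domRestrict S)) =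
      Module.finrank K ((LinearMap.ker (f.domRestrict S)).map S.subtype) :=
    (Submodule.finrank_map_subtype_eq _ _).symm
  have h3 : (LinearMap.ker (f.domRestrict S)).map S.subtype = S ⊓ LinearMap.ker f := by
    ext x
    constructor
    · rintro ⟨⟨y, hy⟩, hy2, rfl⟩
      exact ⟨hy, hy2⟩
    · rintro ⟨hx1, hx2⟩
      exact ⟨⟨x, hx1⟩, hx2, rfl⟩
  rw [h3] at h2
  omega

/-- A map with a larger kernel has a smaller rank. -/
theorem finrank_map_le_of_ker (S : Submodule K V) (f : V →ₗ[K] W1) (g : V →ₗ[K] W2)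
    (h : ∀ x ∈ S, f x = 0 → g x = 0) :
    Module.finrank K (S.map g) ≤ Module.finrank K (S.map f) := by
  have h1 := finrank_map_add S f
  have h2 := finrank_map_add S g
  have h3 : Module.finrank K (S ⊓ LinearMap.ker f : Submodule K V) ≤
      Module.finrank K (S ⊓ LinearMap.ker g : Submodule K V) :=
    Submodule.finrank_mono fun x hx => ⟨hx.1, h x hx.1 hx.2⟩
  omega

/-- The rank drops by the rank on a subspace that is killed. -/
theorem finrank_map_add_le (S T : Submodule K V) (f : V →ₗ[K] W1) (g : V →ₗ[K] W2)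
    (hTS : T ≤ S) (hT : ∀ x ∈ T, g x = 0) (h : ∀ x ∈ S, f x = 0 → g x = 0) :
    Module.finrank K (S.map g) + Module.finrank K (T.map f) ≤ Module.finrank K (S.map f) := by
  have h1 := finrank_map_add S f
  have h2 := finrank_map_add S g
  have h3 := finrank_map_add T f
  have h4 := Submodule.finrank_sup_add_finrank_inf_eq (S ⊓ LinearMap.ker f) T
  have h5 : (S ⊓ LinearMap.ker f) ⊓ T = T ⊓ LinearMap.ker f := by
    ext x
    constructor
    · rintro ⟨⟨_, hx2⟩, hx3⟩
      exact ⟨hx3, hx2⟩
    · rintro ⟨hx1, hx2⟩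
      exact ⟨⟨hTS hx1, hx2⟩, hx1⟩
  have h6 : Module.finrank K ((S ⊓ LinearMap.ker f) ⊔ T : Submodule K V) ≤
      Module.finrank K (S ⊓ LinearMap.ker g : Submodule K V) := by
    refine Submodule.finrank_mono (sup_le ?_ ?_)
    · exact fun x hx => ⟨hx.1, h x hx.1 hx.2⟩
    · exact fun x hx => ⟨hTS hx, hT x hx⟩
  rw [h5] at h4
  omega

/-- The rank of a sum of two maps. -/
theorem finrank_map_add_map (S : Submodule K V) (f g : V →ₗ[K] W1) :
    Module.finrank K (S.map (f + g)) ≤
      Module.finrank K (S.map f) + Module.finrank K (S.map g) := by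
  have h1 : S.map (f + g) ≤ S.map f ⊔ S.map g := by
    rintro x ⟨y, hy, rfl⟩
    rw [LinearMap.add_apply]
    exact Submodule.add_mem_sup (Submodule.mem_map_of_mem hy) (Submodule.mem_map_of_mem hy)
  exact (Submodule.finrank_mono h1).trans (Submodule.finrank_add_le_finrank_add_finrank _ _)

/-- A common zero of many maps outside the kernel of another map. -/
theorem exists_common_zero {σ : Type} (s : Finset σ) (S : Submodule K V) (f : V →ₗ[K] W1)
    (g : σ → V →ₗ[K] W2)
    (hlt : ∑ i ∈ s, Module.finrank K (S.map (g i)) < Module.finrank K (S.map f)) :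
    ∃ x ∈ S, f x ≠ 0 ∧ ∀ i ∈ s, g i x = 0 := by
  classical
  have key1 : ∀ s : Finset σ, ∀ S : Submodule K V,
      ∑ i ∈ s, Module.finrank K (S.map (g i)) < Module.finrank K (S.map f) →
      ∃ x ∈ S, f x ≠ 0 ∧ ∀ i ∈ s, g i x = 0 := by
    intro s
    induction s using Finset.induction_on with
    | empty =>
      intro S h
      rw [sum_empty] at h
      by_contra hcon
      push Not at hcon
      have h1 : S.map f = ⊥ := by
        rw [eq_bot_iff]
        rintro y ⟨x, hx, rfl⟩
        rw [Submodule.mem_bot]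
        by_contra hne
        obtain ⟨i, hi, -⟩ := hcon x hx hne
        exact notMem_empty i hi
      rw [h1, finrank_bot] at h
      exact lt_irrefl _ h
    | insert a s ha ih =>
      intro S h
      rw [sum_insert ha] at h
      obtain ⟨T, hT⟩ : ∃ T : Submodule K V, T = S ⊓ LinearMap.ker (g a) := ⟨_, rfl⟩
      have hTS : T ≤ S := by
        rw [hT]
        exact inf_le_left
      have h1 := finrank_map_add S (g a)
      have h2 := finrank_map_add S f
      have h3 := finrank_map_add T f
      rw [← hT] at h1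
      have h4 : Module.finrank K (T ⊓ LinearMap.ker f : Submodule K V) ≤
          Module.finrank K (S ⊓ LinearMap.ker f : Submodule K V) :=
        Submodule.finrank_mono fun x hx => ⟨hTS hx.1, hx.2⟩
      have h5 : ∑ i ∈ s, Module.finrank K (T.map (g i)) ≤
          ∑ i ∈ s, Module.finrank K (S.map (g i)) :=
        sum_le_sum fun i _ => Submodule.finrank_mono (Submodule.map_mono hTS)
      obtain ⟨x, hx, hfx, hgx⟩ := ih T (by omega)
      refine ⟨x, hTS hx, hfx, fun i hi => ?_⟩
      rcases mem_insert.1 hi with rfl | hi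
      · rw [hT] at hx
        exact hx.2
      · exact hgx i hi
  exact key1 s S hlt

end maps

end Pool.Agent.MP_9cec2c_lc.SizeDeg
end

section

/-!
Definitions for the relation between size and degree: refutations whose lines are disjunctions of
polynomial equations.
-/

set_option autoImplicit false

namespace Pool.Agent.MP_9cec2c_lc.SizeDeg

open Finset ResPoly Lift

/-- Some of the equations `f = 0`, `f ∈ G`, holds at `x`. -/
def SomeZero {K : Type} [Field K] {n : ℕ} (G : Set ((Fin n → Bool) → K)) (x : Fin n → Bool) :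
    Prop := ∃ f ∈ G, f x = 0

/-- A refutation of the CNF `F` with `S` lines. A line is a disjunction of any number of equations
`f = 0`, where `f` is a polynomial of degree at most `t` over the field `K`; it is given by the set
of these polynomials. Each line `Γ ∨ B` follows from a clause `C` of `F`, where `B` consists of at
most `r + |C|` equations and is implied by `C`, or it follows from at most `r` earlier lines
`Γ' ∨ A`, where all equations of `Γ'` belong to the new line, `A` and `B` consist of at most `r`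
equations, and `B` is implied by the conjunction of the disjunctions `A`. Some line is false for
all assignments. -/
structure PolyRefutation (K : Type) [Field K] {n : ℕ} (F : Finset (Clause n)) (t r S : ℕ) where
  /-- the lines -/
  line : Fin S → Set ((Fin n → Bool) → K)
  line_deg : ∀ i, ∀ f ∈ line i, f ∈ Poly K n t
  rule : ∀ i,
    (∃ C ∈ F, ∃ B : Finset ((Fin n → Bool) → K), B.card ≤ r + C.card ∧ ↑B ⊆ line i ∧
      ∀ x, ¬ FalseAt C x → SomeZero (B : Set ((Fin n → Bool) → K)) x) ∨
    ∃ (P : Finset (Fin S)) (A : Fin S → Finset ((Fin n → Bool) → K))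
      (B : Finset ((Fin n → Bool) → K)), P.card ≤ r ∧
      (∀ j ∈ P, j < i ∧ (A j).card ≤ r ∧ ↑(A j) ⊆ line j ∧ line j ⊆ line i ∪ ↑(A j)) ∧
      B.card ≤ r ∧ ↑B ⊆ line i ∧
      ∀ x, (∀ j ∈ P, SomeZero (A j : Set ((Fin n → Bool) → K)) x) →
        SomeZero (B : Set ((Fin n → Bool) → K)) x
  last : ∃ i, ∀ x, ¬ SomeZero (line i) x

end Pool.Agent.MP_9cec2c_lc.SizeDeg
end
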