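import Pool.Agent.Lib.MP_9cec2c_lc.SGLocal
import Pool.Agent.Lib.MP_9cec2c_lc.SDMain

section

/-!
The number of the lines of a refutation with polynomial equations and the degree in the polynomial
calculus.
-/

set_option autoImplicit false
set_option linter.unusedSectionVars false

namespace Pool.Agent.MP_9cec2c_lc.SizeDeg

open Finset Pool.Agent.MP_9cec2c_lc.ResPoly Lift

variable {n : ℕ} {K : Type} [Field K]

/-- The degree of a literal. -/
theorem lit_mem (l : Fin n × Bool) :
    (fun x : Fin n → Bool => if x l.1 ≠ l.2 then (1 : K) else 0) ∈ Pol K n 1 := by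
  classical
  obtain ⟨v, s⟩ := l
  have h : mon K {v} ∈ Pol K n 1 := mon_mem_Poly _ (card_singleton _).le
  have h2 : ∀ x : Fin n → Bool, mon K {v} x = if x v = true then 1 else 0 := by
    intro x
    unfold mon
    exact if_congr (by simp) rfl rfl
  cases s with
  | false =>
    convert h using 1
    funext x
    rw [h2]
    cases x v <;> simp
  | true =>
    have h3 : (1 : (Fin n → Bool) → K) - mon K {v} ∈ Pol K n 1 :=
      Submodule.sub_mem _ (one_mem_Pol 1) h
    convert h3 using 1
    funext x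
    rw [Pi.sub_apply, Pi.one_apply, h2]
    cases x v <;> simp

theorem clausePoly_mem (C : Clause n) : clausePoly K C ∈ Pol K n C.card := by
  classical
  have h1 : clausePoly K C = ∏ l ∈ C, fun x : Fin n → Bool => if x l.1 ≠ l.2 then (1 : K) else 0 := by
    funext x
    rw [Finset.prod_apply]
    unfold clausePoly
    by_cases h3 : FalseAt C x
    · rw [if_pos h3]
      exact (prod_eq_one fun l hl => if_pos (h3 l hl)).symm
    · rw [if_neg h3]
      unfold FalseAt at h3
      push Not at h3
      obtain ⟨l, hl, hx⟩ := h3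
      exact (prod_eq_zero hl (if_neg (not_not.2 hx))).symm
  rw [h1]
  clear h1
  induction C using Finset.induction_on with
  | empty =>
    rw [prod_empty]
    exact one_mem_Pol _
  | insert l C hl ih =>
    rw [prod_insert hl, card_insert_of_notMem hl, add_comm]
    exact Poly_mul K (lit_mem l) ih

/-- The dimension of the space of the functions of degree at most `d`. -/
theorem finrank_Pol_le (K : Type) [Field K] (n d : ℕ) : Module.finrank K (Pol K n d) ≤ (n + 1) ^ d := by
  classical
  have h1 : Pol K n d = Submodule.span K (((univ.image fun g : Fin d → Option (Fin n) =>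
      mon K (univ.filter fun v => ∃ i, g i = some v)) : Finset ((Fin n → Bool) → K)) :
        Set ((Fin n → Bool) → K)) := by
    refine le_antisymm ?_ ?_
    · unfold Pol ResPoly.Poly
      refine Submodule.span_mono ?_
      rintro f ⟨M, hM, rfl⟩
      rw [mem_coe, mem_image]
      obtain ⟨e⟩ : Nonempty (M ↪ Fin d) := by
        rw [Function.Embedding.nonempty_iff_card_le, Fintype.card_coe, Fintype.card_fin]
        exact hM
      refine ⟨fun i => if h : ∃ v : M, e v = i then some (h.choose : Fin n) else none,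
        mem_univ _, ?_⟩
      congr 1
      ext v
      rw [mem_filter]
      constructor
      · rintro ⟨-, i, hi⟩
        dsimp only at hi
        split_ifs at hi with h
        have h2 := Option.some.inj hi
        rw [← h2]
        exact h.choose.2
      · intro hv
        refine ⟨mem_univ _, e ⟨v, hv⟩, ?_⟩
        have h : ∃ u : M, e u = e ⟨v, hv⟩ := ⟨⟨v, hv⟩, rfl⟩
        dsimp only
        rw [dif_pos h]
        have h2 := e.injective h.choose_spec
        rw [h2]
    · rw [Submodule.span_le]
      intro f hf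
      rw [mem_coe, mem_image] at hf
      obtain ⟨g, -, rfl⟩ := hf
      refine mon_mem_Poly _ ?_
      have h2 : (univ.filter fun v => ∃ i, g i = some v) ⊆
          univ.biUnion fun i => (g i).toFinset := by
        intro v hv
        rw [mem_filter] at hv
        obtain ⟨-, i, hi⟩ := hv
        rw [mem_biUnion]
        exact ⟨i, mem_univ _, by rw [hi]; simp⟩
      refine (card_le_card h2).trans ?_
      refine card_biUnion_le.trans ?_
      refine (sum_le_card_nsmul _ _ 1 fun i _ => ?_).trans (by simp)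
      cases g i <;> simp
  rw [h1]
  refine (finrank_span_finset_le_card _).trans ?_
  refine card_image_le.trans ?_
  rw [card_univ, Fintype.card_fun, Fintype.card_option, Fintype.card_fin, Fintype.card_fin]

variable [Fintype K]

/-- The space of a line. -/
def lineSpace (G : Set ((Fin n → Bool) → K)) : Submodule K ((Fin n → Bool) → K) :=
  Submodule.span K (cf '' G)

theorem lineSpace_le {G : Set ((Fin n → Bool) → K)} {t : ℕ} (hG : ∀ f ∈ G, f ∈ Pol K n t) :
    lineSpace G ≤ Pol K n ((Fintype.card K - 1) * t) := by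
  unfold lineSpace
  rw [Submodule.span_le]
  rintro _ ⟨f, hf, rfl⟩
  exact cf_mem (hG f hf)

theorem mem_lineSpace {G : Set ((Fin n → Bool) → K)} {f : (Fin n → Bool) → K} (hf : f ∈ G) :
    cf f ∈ lineSpace G := Submodule.subset_span ⟨f, hf, rfl⟩

/-- A clause gives a certificate. -/
theorem cert_ax {F : Finset (Clause n)} {D w r t c : ℕ} {C : Clause n} (hC : C ∈ F)
    (hCw : C.card ≤ w) (hwD : w ≤ D) {G : Set ((Fin n → Bool) → K)}
    (hG : ∀ f ∈ G, f ∈ Pol K n t) {B : Finset ((Fin n → Bool) → K)} (hB : B.card ≤ r + C.card)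
    (hBG : ↑B ⊆ G) (himp : ∀ x, ¬ FalseAt C x → SomeZero (B : Set ((Fin n → Bool) → K)) x)
    (hc : w + (r + w) * ((Fintype.card K - 1) * t) ≤ c) :
    1 - clausePoly K C ∈ ideal c (lineSpace G) ∧ clausePoly K C ∈ pcs K F D ∧
      clausePoly K C ∈ Pol K n w := by
  have hCP : clausePoly K C ∈ Pol K n w := Poly_mono K hCw (clausePoly_mem C)
  refine ⟨?_, Submodule.subset_span (PC.ax C hC (hCw.trans hwD)), hCP⟩
  have h1 : 1 - clausePoly K C ∈ ideal (w + B.card * ((Fintype.card K - 1) * t))
      (lineSpace G) := by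
    refine mem_ideal_of_mul (fun f hf => hG f (hBG (mem_coe.2 hf)))
      (fun f hf => mem_lineSpace (hBG (mem_coe.2 hf)))
      (Submodule.sub_mem _ (one_mem_Pol _) hCP) ?_
    funext x
    rw [Pi.mul_apply, Pi.zero_apply, Pi.sub_apply, Pi.one_apply]
    by_cases h : FalseAt C x
    · unfold clausePoly
      rw [if_pos h, sub_self, zero_mul]
    · rw [noneOf_of_some (himp x h), mul_zero]
  refine ideal_deg_mono ?_ _ h1
  refine le_trans ?_ hc
  exact Nat.add_le_add_left (Nat.mul_le_mul_right _ (hB.trans (Nat.add_le_add_left hCw r))) w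

/-- An inference gives a certificate. -/
theorem cert_rule {σ : Type} {P : Finset σ} {A : σ → Finset ((Fin n → Bool) → K)}
    {B : Finset ((Fin n → Bool) → K)} {line : σ → Set ((Fin n → Bool) → K)}
    {G : Set ((Fin n → Bool) → K)} {r t c : ℕ} (hG : ∀ f ∈ G, f ∈ Pol K n t)
    (hl : ∀ j ∈ P, ∀ f ∈ line j, f ∈ Pol K n t) (hP : P.card ≤ r)
    (hA : ∀ j ∈ P, (A j).card ≤ r ∧ ↑(A j) ⊆ line j ∧ line j ⊆ G ∪ ↑(A j))
    (hB : B.card ≤ r) (hBG : ↑B ⊆ G)
    (himp : ∀ x, (∀ j ∈ P, SomeZero (A j : Set ((Fin n → Bool) → K)) x) →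
      SomeZero (B : Set ((Fin n → Bool) → K)) x)
    (hc : r * (r * ((Fintype.card K - 1) * t)) + r * ((Fintype.card K - 1) * t) ≤ c) :
    ∃ (m : ℕ) (j : Fin m → σ) (h : Fin m → (Fin n → Bool) → K) (h0 : (Fin n → Bool) → K),
      (∀ i, j i ∈ P) ∧ (∑ i, h i + h0 = 1) ∧ (∀ i, h i ∈ Pol K n c) ∧
        (∀ i, ∀ a ∈ lineSpace (line (j i)), h i * a ∈ ideal c (lineSpace G)) ∧
        h0 ∈ ideal c (lineSpace G) := by
  classical
  obtain ⟨T, hT⟩ : ∃ T, T = (Fintype.card K - 1) * t := ⟨_, rfl⟩
  obtain ⟨m, j, y, h1, h2, h3, h4⟩ := exists_partition P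
    (fun j hj f hf => hl j hj f ((hA j hj).2.1 (mem_coe.2 hf))) fun j hj => (hA j hj).1
  rw [← hT] at hc h3 h4
  have hPr : P.card * (r * T) ≤ r * (r * T) := Nat.mul_le_mul_right _ hP
  have h3' : ∀ i, noneOf (A (j i)) * y i ∈ Pol K n c := fun i =>
    Poly_mono K (by omega) (h3 i)
  refine ⟨m, j, fun i => noneOf (A (j i)) * y i, ∏ i ∈ P, (1 - noneOf (A i)), h1, h2, h3',
    fun i a ha => ?_, ?_⟩
  · unfold lineSpace at ha
    induction ha using Submodule.span_induction with
    | mem a ha =>
      obtain ⟨f, hf, rfl⟩ := ha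
      by_cases hfA : f ∈ A (j i)
      · have h5 : noneOf (A (j i)) * y i * cf f = 0 := by
          have h6 := noneOf_mul_cf hfA
          linear_combination y i * h6
        show noneOf (A (j i)) * y i * cf f ∈ _
        rw [h5]
        exact Submodule.zero_mem _
      · have hfG : f ∈ G := by
          rcases (hA (j i) (h1 i)).2.2 hf with h5 | h5
          · exact h5
          · exact absurd (mem_coe.1 h5) hfA
        exact Submodule.subset_span ⟨_, h3' i, _, mem_lineSpace hfG, rfl⟩
    | zero =>
      show noneOf (A (j i)) * y i * 0 ∈ _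
      rw [mul_zero]
      exact Submodule.zero_mem _
    | add a b _ _ ha hb =>
      show noneOf (A (j i)) * y i * (a + b) ∈ _
      rw [mul_add]
      exact Submodule.add_mem _ ha hb
    | smul z a _ ha =>
      show noneOf (A (j i)) * y i * (z • a) ∈ _
      rw [mul_smul_comm]
      exact Submodule.smul_mem _ _ ha
  · have h5 : ∏ i ∈ P, (1 - noneOf (A i)) ∈ ideal (P.card * (r * T) +
        B.card * ((Fintype.card K - 1) * t)) (lineSpace G) := by
      refine mem_ideal_of_mul (fun f hf => hG f (hBG (mem_coe.2 hf)))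
        (fun f hf => mem_lineSpace (hBG (mem_coe.2 hf))) h4 ?_
      funext x
      rw [Pi.mul_apply, Pi.zero_apply, Finset.prod_apply]
      by_cases h : ∀ j ∈ P, SomeZero (A j : Set ((Fin n → Bool) → K)) x
      · rw [noneOf_of_some (himp x h), mul_zero]
      · push Not at h
        obtain ⟨j, hj, hjx⟩ := h
        rw [prod_eq_zero hj, zero_mul]
        rw [Pi.sub_apply, Pi.one_apply, noneOf_of_not hjx, sub_self]
    refine ideal_deg_mono ?_ _ h5
    rw [← hT]
    have hBr : B.card * T ≤ r * T := Nat.mul_le_mul_right _ hB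
    omega

/-- A refutation with few lines gives a derivation of small degree. -/
theorem poly_core {F : Finset (Clause n)} {w r S D e k t T : ℕ} (hw : ∀ C ∈ F, C.card ≤ w)
    (hT : T = (Fintype.card K - 1) * t) (hPC : ¬ PC K F D 1) (π : PolyRefutation K F t r S)
    (hD : e + 2 * (k * ((Fintype.card K - 1) * T)) + 3 * T +
      (w + (r + w) * T + r * (r * T)) ≤ D)
    (hcount : S * ((n + 1) ^ T * ((e + 1) ^ T + 2 * n ^ T) ^ k) <
      (2 * ((e + 1) ^ T + n ^ T)) ^ k) : False := by
  classical
  have hL1 : ∀ i, lineSpace (π.line i) ≤ Pol K n T := by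
    intro i
    rw [hT]
    exact lineSpace_le (π.line_deg i)
  refine no_small_refutation2 (pcs_closed K F D) (one_notMem_pcs K hPC)
    (rel := fun i j : Fin S => i < j) (wellFounded_lt) (L := fun i => lineSpace (π.line i))
    (e := e) (t := T) (c := w + (r + w) * T + r * (r * T)) (k := k) (w := w)
    (N := (n + 1) ^ T) hL1 (fun i => ?_) (by omega) (by omega) ?_ (fun u => ?_) ?_
  · exact (Submodule.finrank_mono (hL1 i)).trans (finrank_Pol_le K n T)
  · rw [Fintype.card_fin]
    exact hcount
  · rcases π.rule u with ⟨C, hC, B, hB, hBG, himp⟩ | ⟨P, A, B, hP, hA, hB, hBG, himp⟩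
    · obtain ⟨h1, h2, h3⟩ := cert_ax (D := D) (c := w + (r + w) * T + r * (r * T)) hC (hw C hC)
        (by omega) (π.line_deg u) hB hBG himp (by rw [← hT]; omega)
      refine ⟨0, Fin.elim0, Fin.elim0, 1 - clausePoly K C, clausePoly K C, fun i => i.elim0, ?_,
        fun i => i.elim0, fun i => i.elim0, h1, h2, h3⟩
      rw [Fin.sum_univ_zero, zero_add, sub_add_cancel]
    · obtain ⟨m, j, h, h0, h1, h2, h3, h4, h5⟩ := cert_rule (line := π.line)
        (c := w + (r + w) * T + r * (r * T)) (π.line_deg u) (fun j _ => π.line_deg j) hP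
        (fun j hj => (hA j hj).2) hB hBG himp (by
          rw [← hT]
          have : r * T ≤ (r + w) * T := Nat.mul_le_mul_right _ (Nat.le_add_right r w)
          omega)
      refine ⟨m, j, h, h0, 0, fun i => (hA (j i) (h1 i)).1, ?_, h3, h4, h5,
        Submodule.zero_mem _, Submodule.zero_mem _⟩
      rw [add_zero, h2]
  · obtain ⟨i, hi⟩ := π.last
    refine ⟨i, ?_⟩
    rw [Submodule.eq_bot_iff]
    intro l hl
    have hz : lineSpace (π.line i) ≤ ⊥ := by
      unfold lineSpace
      rw [Submodule.span_le]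
      rintro _ ⟨f, hf, rfl⟩
      rw [SetLike.mem_coe, Submodule.mem_bot]
      funext x
      rw [cf_apply, if_neg, Pi.zero_apply]
      exact fun h => hi x ⟨f, hf, h⟩
    exact (Submodule.mem_bot K).1 (hz hl)

end Pool.Agent.MP_9cec2c_lc.SizeDeg
end

section

/-!
The relation between the number of the lines and the degree.
-/

set_option autoImplicit false
set_option linter.unusedSectionVars false

namespace Pool.Agent.MP_9cec2c_lc.SizeDeg

open Finset Pool.Agent.MP_9cec2c_lc.ResPoly Lift

variable {n : ℕ} {K : Type} [Field K] [Fintype K]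

/-- The choice of the parameters. -/
theorem exists_numbers {n E T p : ℕ} (hT : 0 < T) (hp : 0 < p) (hE : E + 1 ≤ n)
    (hm : 0 < E ^ (T + 1) / (32 * p * (2 * n) ^ T)) :
    ∃ e k : ℕ, e + 2 * (k * p) = E ∧
      2 ^ (E ^ (T + 1) / (32 * p * (2 * n) ^ T)) * ((e + 1) ^ T + 2 * n ^ T) ^ k ≤
        (2 * ((e + 1) ^ T + n ^ T)) ^ k := by
  obtain ⟨m, hme⟩ : ∃ m, m = E ^ (T + 1) / (32 * p * (2 * n) ^ T) := ⟨_, rfl⟩
  rw [← hme] at hm ⊢
  have hmE : m * (32 * p * (2 * n) ^ T) ≤ E ^ (T + 1) := by
    rw [hme]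
    exact Nat.div_mul_le_self _ _
  have hn : 0 < n := by omega
  have hnT : 0 < n ^ T := pow_pos hn T
  have hEn : E ^ (T + 1) ≤ E * n ^ T := by
    rw [pow_succ, mul_comm]
    exact Nat.mul_le_mul_left _ (Nat.pow_le_pow_left (by omega) T)
  have h64 : 64 * p ≤ E := by
    have h1 : 1 * (32 * p * (2 * n) ^ T) ≤ E * n ^ T :=
      (Nat.mul_le_mul_right _ hm).trans (hmE.trans hEn)
    rw [one_mul, mul_pow] at h1
    have h2 : 2 ≤ 2 ^ T := by
      calc 2 = 2 ^ 1 := (pow_one 2).symm
        _ ≤ 2 ^ T := Nat.pow_le_pow_right (by norm_num) hT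
    refine Nat.le_of_mul_le_mul_right (c := n ^ T) ?_ hnT
    calc 64 * p * n ^ T = 32 * p * (2 * n ^ T) := by ring
      _ ≤ 32 * p * (2 ^ T * n ^ T) := Nat.mul_le_mul_left _ (Nat.mul_le_mul_right _ h2)
      _ ≤ E * n ^ T := h1
  obtain ⟨k, hk⟩ : ∃ k, k = E / (4 * p) := ⟨_, rfl⟩
  have hk1 : k * (4 * p) ≤ E := by
    rw [hk]
    exact Nat.div_mul_le_self _ _
  have hk2 : E < (k + 1) * (4 * p) := by
    have h1 := Nat.lt_div_mul_add (a := E) (show 0 < 4 * p by omega)
    rw [← hk] at h1
    rw [add_mul, one_mul]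
    exact h1
  have hkp : k * (4 * p) = 4 * (k * p) := by ring
  have hkp1 : (k + 1) * (4 * p) = 4 * (k * p) + 4 * p := by ring
  rw [hkp] at hk1
  rw [hkp1] at hk2
  have hk8 : E ≤ 8 * (k * p) := by omega
  obtain ⟨e, he⟩ : ∃ e, e = E - 2 * (k * p) := ⟨_, rfl⟩
  have he1 : e + 2 * (k * p) = E := by omega
  refine ⟨e, k, he1, ?_⟩
  obtain ⟨B, hB⟩ : ∃ B, B = (e + 1) ^ T := ⟨_, rfl⟩
  obtain ⟨A, hA⟩ : ∃ A, A = (e + 1) ^ T + 2 * n ^ T := ⟨_, rfl⟩
  have hB0 : 0 < B := by
    rw [hB]
    exact pow_pos (Nat.succ_pos e) T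
  have hBn : B ≤ n ^ T := by
    rw [hB]
    exact Nat.pow_le_pow_left (by omega) T
  have hA0 : 0 < A := by omega
  have hAB : A + B ≤ 4 * n ^ T := by omega
  have hBE : E ^ T ≤ 2 ^ T * B := by
    rw [hB, ← mul_pow]
    exact Nat.pow_le_pow_left (by omega) T
  obtain ⟨q, hq⟩ : ∃ q, q = A / B + 1 := ⟨_, rfl⟩
  have hq1 : A ≤ q * B := by
    rw [hq]
    have h1 := Nat.lt_div_mul_add (a := A) hB0
    rw [add_mul, one_mul]
    omega
  have hq2 : q * B ≤ 4 * n ^ T := by
    rw [hq, add_mul, one_mul]
    exact (Nat.add_le_add_right (Nat.div_mul_le_self A B) B).trans hAB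
  have hmq : m * q ≤ k := by
    have hX : 0 < 32 * p * (2 * n) ^ T * B := by positivity
    refine Nat.le_of_mul_le_mul_right (c := 32 * p * (2 * n) ^ T * B) ?_ hX
    calc m * q * (32 * p * (2 * n) ^ T * B) = m * (32 * p * (2 * n) ^ T) * (q * B) := by ring
      _ ≤ E ^ (T + 1) * (4 * n ^ T) := Nat.mul_le_mul hmE hq2
      _ = 4 * n ^ T * E * E ^ T := by ring
      _ ≤ 4 * n ^ T * (8 * (k * p)) * (2 ^ T * B) :=
          Nat.mul_le_mul (Nat.mul_le_mul_left _ hk8) hBE
      _ = k * (32 * p * (2 * n) ^ T * B) := by rw [mul_pow]; ring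
  have h1 := pow_two_le hA0 hq1 hmq
  have h2 : 2 * ((e + 1) ^ T + n ^ T) = A + B := by omega
  rw [h2, ← hA]
  exact h1

/-- **Size and degree** for disjunctions of polynomial equations. -/
theorem poly_size_degree {F : Finset (Clause n)} {w r S D t T : ℕ} (hw : ∀ C ∈ F, C.card ≤ w)
    (hT : T = (Fintype.card K - 1) * t) (ht : 0 < t) (hDn : D ≤ n) (hPC : ¬ PC K F D 1)
    (π : PolyRefutation K F t r S) :
    2 ^ ((D - (w + (w + r + r ^ 2 + 3) * T)) ^ (T + 1) /
      (32 * ((Fintype.card K - 1) * T) * (2 * n) ^ T)) ≤ (n + 1) ^ T * S := by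
  obtain ⟨i0, -⟩ := π.last
  have hS : 0 < S := Fin.pos i0
  have hK := one_lt_K (K := K)
  have hT0 : 0 < T := by
    rw [hT]
    exact Nat.mul_pos (by omega) ht
  obtain ⟨p, hp⟩ : ∃ p, p = (Fintype.card K - 1) * T := ⟨_, rfl⟩
  have hp0 : 0 < p := by
    rw [hp]
    exact Nat.mul_pos (by omega) hT0
  obtain ⟨E, hE⟩ : ∃ E, E = D - (w + (w + r + r ^ 2 + 3) * T) := ⟨_, rfl⟩
  rw [← hE, ← hp]
  rcases Nat.eq_zero_or_pos (E ^ (T + 1) / (32 * p * (2 * n) ^ T)) with hm | hm
  · rw [hm, pow_zero]
    exact Nat.mul_pos (pow_pos (Nat.succ_pos n) T) hS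
  have hE0 : 0 < E := by
    rcases Nat.eq_zero_or_pos E with h | h
    · rw [h, zero_pow (by omega), Nat.zero_div] at hm
      exact absurd hm (lt_irrefl 0)
    · exact h
  have hTT : 1 * T ≤ (w + r + r ^ 2 + 3) * T := Nat.mul_le_mul_right _ (by omega)
  by_contra hcon
  push Not at hcon
  obtain ⟨e, k, hek, hnum⟩ := exists_numbers hT0 hp0 (show E + 1 ≤ n by omega) hm
  refine poly_core (e := e) (k := k) hw hT hPC π ?_ ?_
  · have h1 : (w + r + r ^ 2 + 3) * T = 3 * T + (r + w) * T + r * (r * T) := by ring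
    rw [← hp]
    omega
  · have hA0 : 0 < ((e + 1) ^ T + 2 * n ^ T) ^ k := by positivity
    calc S * ((n + 1) ^ T * ((e + 1) ^ T + 2 * n ^ T) ^ k) =
        (n + 1) ^ T * S * ((e + 1) ^ T + 2 * n ^ T) ^ k := by ring
      _ < 2 ^ (E ^ (T + 1) / (32 * p * (2 * n) ^ T)) * ((e + 1) ^ T + 2 * n ^ T) ^ k :=
          Nat.mul_lt_mul_of_pos_right hcon hA0
      _ ≤ _ := hnum

end Pool.Agent.MP_9cec2c_lc.SizeDeg
end

section

/-!
In degree `n` the polynomial calculus refutes all unsatisfiable CNFs, so no bound for the degree is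
needed.
-/

set_option autoImplicit false
set_option linter.unusedSectionVars false

namespace Pool.Agent.MP_9cec2c_lc.SizeDeg

open Finset Pool.Agent.MP_9cec2c_lc.ResPoly Lift

variable {n : ℕ} {K : Type} [Field K]

/-- The indicator function of the points that agree with `x` in the variables in `U`. -/
def agree (K : Type) [Field K] {n : ℕ} (U : Finset (Fin n)) (x y : Fin n → Bool) : K :=
  if ∀ v ∈ U, y v = x v then 1 else 0

theorem agree_mem (U : Finset (Fin n)) (x : Fin n → Bool) : agree K U x ∈ Pol K n U.card := by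
  classical
  have h1 : agree K U x = clausePoly K (U.image fun v => (v, !x v)) := by
    funext y
    unfold agree clausePoly
    refine if_congr ?_ rfl rfl
    unfold FalseAt
    constructor
    · intro h l hl
      obtain ⟨v, hv, rfl⟩ := mem_image.1 hl
      rw [h v hv]
      cases x v <;> simp
    · intro h v hv
      have h2 := h _ (mem_image_of_mem _ hv)
      revert h2
      cases x v <;> cases y v <;> simp
  rw [h1]
  exact Poly_mono K card_image_le (clausePoly_mem _)

/-- A clause that is false at a point has at most `n` literals. -/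
theorem card_of_false {C : Clause n} {x : Fin n → Bool} (h : FalseAt C x) :
    C.card = (C.image Prod.fst).card := by
  classical
  refine (card_image_of_injOn ?_).symm
  rintro ⟨v, s⟩ hs ⟨v', s'⟩ hs' he
  have h1 := h _ (mem_coe.1 hs)
  have h2 := h _ (mem_coe.1 hs')
  simp only at he h1 h2
  subst he
  have h3 : s = s' := by
    cases s <;> cases s' <;> simp_all
  rw [h3]

/-- An unsatisfiable CNF has a refutation of degree `n` in the polynomial calculus. -/
theorem pc_complete {F : Finset (Clause n)} {D : ℕ} (hF : ¬ Satisfiable F) (hD : n ≤ D) :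
    PC K F D 1 := by
  classical
  have h1 : ∀ x : Fin n → Bool, agree K univ x ∈ pcs K F D := by
    intro x
    unfold Satisfiable at hF
    push Not at hF
    obtain ⟨C, hC, hx⟩ := hF x
    have hcard := card_of_false hx
    have hle : (C.image Prod.fst).card ≤ n := by
      have := card_le_univ (C.image Prod.fst)
      rwa [Fintype.card_fin] at this
    have h2 : agree K univ x = clausePoly K C * agree K (univ \ C.image Prod.fst) x := by
      funext y
      rw [Pi.mul_apply]
      unfold agree clausePoly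
      by_cases h3 : FalseAt C y
      · rw [if_pos h3, one_mul]
        refine if_congr ?_ rfl rfl
        constructor
        · exact fun h v _ => h v (mem_univ v)
        · intro h v _
          by_cases hv : v ∈ C.image Prod.fst
          · obtain ⟨l, hl, rfl⟩ := mem_image.1 hv
            have h4 := h3 l hl
            have h5 := hx l hl
            revert h4 h5
            cases y l.1 <;> cases x l.1 <;> cases l.2 <;> simp
          · exact h v (mem_sdiff.2 ⟨mem_univ v, hv⟩)
      · rw [if_neg h3, zero_mul, if_neg]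
        intro h
        refine h3 fun l hl => ?_
        rw [h l.1 (mem_univ _)]
        exact hx l hl
    rw [h2]
    refine pcs_closed K F D C.card (univ \ C.image Prod.fst).card _ _ ?_
      (Submodule.subset_span (PC.ax C hC ?_)) (clausePoly_mem C) (agree_mem _ _)
    · rw [card_sdiff_of_subset (subset_univ _), card_univ, Fintype.card_fin]
      omega
    · omega
  have h2 : (1 : (Fin n → Bool) → K) = ∑ x : Fin n → Bool, agree K univ x := by
    funext y
    rw [Finset.sum_apply, Finset.sum_eq_single y]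
    · unfold agree
      rw [if_pos fun _ _ => rfl]
      rfl
    · intro x _ hxy
      unfold agree
      rw [if_neg]
      exact fun h => hxy (funext fun v => (h v (mem_univ v)).symm)
    · exact fun h => absurd (mem_univ y) h
  have h3 : (1 : (Fin n → Bool) → K) ∈ pcs K F D := by
    rw [h2]
    exact Submodule.sum_mem _ fun x _ => h1 x
  rcases mem_pcs K h3 with h4 | h4
  · exact absurd (congrFun h4 fun _ => false) one_ne_zero
  · exact h4

/-- A CNF with a refutation is unsatisfiable. -/
theorem PolyRefutation.unsat {F : Finset (Clause n)} {t r S : ℕ} (π : PolyRefutation K F t r S) :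
    ¬ Satisfiable F := by
  classical
  rintro ⟨x, hx⟩
  have h : ∀ i, SomeZero (π.line i) x := by
    intro i
    induction i using WellFoundedLT.induction with
    | ind i ih =>
      rcases π.rule i with ⟨C, hC, B, -, hBi, himp⟩ | ⟨P, A, B, -, hA, -, hBi, himp⟩
      · obtain ⟨f, hf, hfx⟩ := himp x (hx C hC)
        exact ⟨f, hBi hf, hfx⟩
      · by_cases h1 : ∀ j ∈ P, SomeZero (A j : Set ((Fin n → Bool) → K)) x
        · obtain ⟨f, hf, hfx⟩ := himp x h1
          exact ⟨f, hBi hf, hfx⟩
        · push Not at h1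
          obtain ⟨j, hj, hjx⟩ := h1
          obtain ⟨hji, -, -, hsub⟩ := hA j hj
          obtain ⟨f, hf, hfx⟩ := ih j hji
          rcases hsub hf with h2 | h2
          · exact ⟨f, h2, hfx⟩
          · exact absurd ⟨f, h2, hfx⟩ hjx
  obtain ⟨i, hi⟩ := π.last
  exact hi x (h i)

/-- A CNF with a refutation is unsatisfiable. -/
theorem ParityRefutation.unsat {F : Finset (Clause n)} {r S : ℕ} (π : ParityRefutation F r S) :
    ¬ Satisfiable F := by
  classical
  rintro ⟨x, hx⟩
  have h : ∀ i, Holds (π.line i) x := by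
    intro i
    induction i using WellFoundedLT.induction with
    | ind i ih =>
      rcases π.rule i with ⟨C, hC, hCi⟩ | ⟨s, -, hs, himp⟩
      · exact hCi x (hx C hC)
      · exact himp x fun j hj => ih j (hs j hj)
  obtain ⟨i, hi⟩ := π.last
  exact hi x (h i)

/-- **Size and degree** for resolution over parities. -/
theorem parity_size {F : Finset (Clause n)} {w r S D : ℕ} (hw : ∀ C ∈ F, C.card ≤ w)
    (hPC : ¬ PC (ZMod 2) F D 1) (π : ParityRefutation F r S) :
    2 ^ ((D - (w + r ^ 2 + 4)) ^ 2 / (40 * n)) ≤ (n + 1) * S := by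
  rcases le_or_gt D n with h | h
  · exact size_degree hw h hPC π
  · exact absurd (pc_complete π.unsat h.le) hPC

/-- **Size and degree** for disjunctions of polynomial equations. -/
theorem poly_size [Fintype K] {F : Finset (Clause n)} {w r S D t T : ℕ}
    (hw : ∀ C ∈ F, C.card ≤ w) (hT : T = (Fintype.card K - 1) * t) (ht : 0 < t)
    (hPC : ¬ PC K F D 1) (π : PolyRefutation K F t r S) :
    2 ^ ((D - (w + (w + r + r ^ 2 + 3) * T)) ^ (T + 1) /
      (32 * ((Fintype.card K - 1) * T) * (2 * n) ^ T)) ≤ (n + 1) ^ T * S := by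
  rcases le_or_gt D n with h | h
  · exact poly_size_degree hw hT ht h hPC π
  · exact absurd (pc_complete π.unsat h.le) hPC

end Pool.Agent.MP_9cec2c_lc.SizeDeg
end
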