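import Mathlib

section

/-!
Proofs over a finite field: linear combinations of products of conditions of small degree.
-/

set_option autoImplicit false

namespace Pool.Agent.MP_9cec2c_lc.FieldProof

/-- A clause: a finite set of literals, read as their disjunction. The literal `l` is the variable
`l.1` if `l.2` is true, and its negation if `l.2` is false. -/
abbrev Clause (V : Type) : Type := Finset (V × Bool)

/-- The assignment `x` satisfies the clause `C`. -/
def Holds {V : Type} (x : V → Bool) (C : Clause V) : Prop := ∃ l ∈ C, x l.1 = l.2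

variable (k : Type) [Field k] (n : ℕ)

/-- The functions of degree at most `t`: the linear combinations of the products of at most `t`
variables. -/
def Degree (t : ℕ) : Submodule k ((Fin n → Bool) → k) :=
  Submodule.span k {f | ∃ M : Finset (Fin n), M.card ≤ t ∧
    f = fun x => if ∀ v ∈ M, x v = true then 1 else 0}

/-- A term: a set of functions `g`, read as the conjunction of the equations `g = 0`. -/
abbrev Term : Type := Set ((Fin n → Bool) → k)

/-- A line: a linear combination of terms. -/
abbrev Line : Type := Term k n →₀ k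

variable {k n}

open Classical in
/-- The value of a term: 1 if all its equations hold at `x`, and 0 otherwise. -/
noncomputable def termValue (T : Term k n) (x : Fin n → Bool) : k :=
  if ∀ g ∈ T, g x = 0 then 1 else 0

/-- The value of a line. -/
noncomputable def value (L : Line k n) (x : Fin n → Bool) : k :=
  L.sum fun T c => c * termValue T x

/-- The lines `L 0, ..., L (l - 1)` form a refutation of `F` with equations of degree at most `t`
and at most `b` premises. The line `L i` asserts that its value is 0. Some line is false for all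
assignments. Each line is implied by a clause of `F` or by at most `b` earlier lines. -/
def IsRefutation (t b : ℕ) (F : Finset (Clause (Fin n))) {l : ℕ} (L : Fin l → Line k n) : Prop :=
  (∀ i, ∀ T ∈ (L i).support, ∀ g ∈ T, g ∈ Degree k n t) ∧ (∃ i, ∀ x, value (L i) x ≠ 0) ∧
    ∀ i, (∃ C ∈ F, ∀ x, Holds x C → value (L i) x = 0) ∨
      ∃ P : Finset (Fin l), P.card ≤ b ∧ (∀ j ∈ P, j < i) ∧
        ∀ x, (∀ j ∈ P, value (L j) x = 0) → value (L i) x = 0

/-- The CNF `F` is unsatisfiable, and at least `N` different terms occur in every refutation of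
`F`, whatever the number of lines. -/
def Needs (k : Type) [Field k] (t b N : ℕ) (F : Finset (Clause (Fin n))) : Prop :=
  (∀ x, ∃ C ∈ F, ¬ Holds x C) ∧
    ∀ (l : ℕ) (L : Fin l → Line k n), IsRefutation t b F L → N ≤ {T | ∃ i, L i T ≠ 0}.ncard

/-- A list of `m` clauses with `w` literals. The variables of the clause `i` are the values of the
injection `(f i).1`, their signs are `(f i).2`. -/
abbrev ClauseList (n m w : ℕ) : Type := Fin m → (Fin w ↪ Fin n) × (Fin w → Bool)

/-- The CNF with the clauses of the list. -/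
def toCNF {n m w : ℕ} (f : ClauseList n m w) : Finset (Clause (Fin n)) :=
  Finset.univ.image fun i => Finset.univ.image fun e => ((f i).1 e, (f i).2 e)

end Pool.Agent.MP_9cec2c_lc.FieldProof
end

section

/-!
Affine sets of assignments and their restrictions to sets of variables.
-/

set_option autoImplicit false
set_option linter.unusedSectionVars false

namespace Pool.Agent.MP_9cec2c_lc.ParTrade

open Finset

variable {V : Type*} [Fintype V] [DecidableEq V]

/-- The sum of three assignments modulo 2. -/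
def add3 (x y z : V → Bool) : V → Bool := fun v => xor (x v) (xor (y v) (z v))

/-- The set `B` is affine. -/
def IsAff (B : Finset (V → Bool)) : Prop := ∀ x ∈ B, ∀ y ∈ B, ∀ z ∈ B, add3 x y z ∈ B

/-- The restriction of `x` to the variables in `Z`. -/
def mask (Z : Finset V) (x : V → Bool) : V → Bool := fun v => if v ∈ Z then x v else false

/-- The number of restrictions of the points of `B` to the variables in `Z`. -/
def pat (B : Finset (V → Bool)) (Z : Finset V) : ℕ := (B.image (mask Z)).card

/-- The points of `B` that agree with `x` on `Z`. -/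
def sec (B : Finset (V → Bool)) (Z : Finset V) (x : V → Bool) : Finset (V → Bool) :=
  B.filter fun y => ∀ v ∈ Z, y v = x v

theorem mem_sec {B : Finset (V → Bool)} {Z : Finset V} {x y : V → Bool} :
    y ∈ sec B Z x ↔ y ∈ B ∧ ∀ v ∈ Z, y v = x v := mem_filter

theorem self_mem_sec {B : Finset (V → Bool)} {Z : Finset V} {x : V → Bool} (hx : x ∈ B) :
    x ∈ sec B Z x := mem_sec.2 ⟨hx, fun _ _ => rfl⟩

theorem sec_subset {B : Finset (V → Bool)} {Z : Finset V} {x : V → Bool} : sec B Z x ⊆ B :=
  filter_subset _ _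

theorem mask_eq_iff {Z : Finset V} {x y : V → Bool} :
    mask Z x = mask Z y ↔ ∀ v ∈ Z, x v = y v := by
  constructor
  · intro h v hv
    have := congrFun h v
    simpa [mask, hv] using this
  · intro h
    funext v
    by_cases hv : v ∈ Z
    · simp [mask, hv, h v hv]
    · simp [mask, hv]

theorem add3_cancel (x y z : V → Bool) : add3 (add3 x y z) z y = x := by
  funext v
  unfold add3
  cases x v <;> cases y v <;> cases z v <;> rfl

theorem add3_cancel' (x y z : V → Bool) : add3 (add3 x y z) x z = y := by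
  funext v
  unfold add3
  cases x v <;> cases y v <;> cases z v <;> rfl

theorem add3_inj (y z : V → Bool) : Function.Injective fun x => add3 x y z := by
  intro x x' h
  have h1 := congrArg (fun u => add3 u z y) h
  simp only [add3_cancel] at h1
  exact h1

theorem IsAff.sec {B : Finset (V → Bool)} (hB : IsAff B) (Z : Finset V) (x : V → Bool) :
    IsAff (sec B Z x) := by
  intro a ha b hb c hc
  rw [mem_sec] at *
  refine ⟨hB a ha.1 b hb.1 c hc.1, fun v hv => ?_⟩
  unfold add3
  rw [ha.2 v hv, hb.2 v hv, hc.2 v hv]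
  cases x v <;> rfl

theorem IsAff.inter {B C : Finset (V → Bool)} (hB : IsAff B) (hC : IsAff C) : IsAff (B ∩ C) := by
  intro a ha b hb c hc
  rw [mem_inter] at *
  exact ⟨hB a ha.1 b hb.1 c hc.1, hC a ha.2 b hb.2 c hc.2⟩

theorem sec_sec (B : Finset (V → Bool)) (Z W : Finset V) (x : V → Bool) :
    sec (sec B Z x) W x = sec B (Z ∪ W) x := by
  ext y
  simp only [mem_sec, mem_union]
  constructor
  · rintro ⟨⟨h1, h2⟩, h3⟩
    exact ⟨h1, fun v hv => hv.elim (h2 v) (h3 v)⟩
  · rintro ⟨h1, h2⟩
    exact ⟨⟨h1, fun v hv => h2 v (Or.inl hv)⟩, fun v hv => h2 v (Or.inr hv)⟩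

/-- The sections of an affine set have the same size. -/
theorem sec_card_le {B : Finset (V → Bool)} (hB : IsAff B) (Z : Finset V) {x x' : V → Bool}
    (hx : x ∈ B) (hx' : x' ∈ B) : (sec B Z x).card ≤ (sec B Z x').card := by
  refine card_le_card_of_injOn (fun y => add3 y x x') (fun y hy => ?_)
    ((add3_inj x x').injOn)
  have hy' := mem_sec.1 (mem_coe.1 hy)
  refine mem_coe.2 (mem_sec.2 ⟨hB y hy'.1 x hx x' hx', fun v hv => ?_⟩)
  show xor (y v) (xor (x v) (x' v)) = x' v
  rw [hy'.2 v hv]
  cases x v <;> cases x' v <;> rfl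

theorem sec_card_eq {B : Finset (V → Bool)} (hB : IsAff B) (Z : Finset V) {x x' : V → Bool}
    (hx : x ∈ B) (hx' : x' ∈ B) : (sec B Z x).card = (sec B Z x').card :=
  le_antisymm (sec_card_le hB Z hx hx') (sec_card_le hB Z hx' hx)

/-- The size of an affine set is the number of restrictions times the size of a section. -/
theorem card_eq_pat_mul {B : Finset (V → Bool)} (hB : IsAff B) (Z : Finset V) {x : V → Bool}
    (hx : x ∈ B) : B.card = pat B Z * (sec B Z x).card := by
  unfold pat
  rw [card_eq_sum_card_image (mask Z) B]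
  rw [sum_const_nat (m := (sec B Z x).card)]
  intro a ha
  obtain ⟨x', hx', rfl⟩ := mem_image.1 ha
  rw [sec_card_eq hB Z hx hx']
  congr 1
  ext y
  rw [mem_filter, mem_sec, mask_eq_iff]

theorem pat_mono {B B' : Finset (V → Bool)} (h : B' ⊆ B) (Z : Finset V) : pat B' Z ≤ pat B Z :=
  card_le_card (image_subset_image h)

theorem pat_pos {B : Finset (V → Bool)} (h : B.Nonempty) (Z : Finset V) : 0 < pat B Z :=
  card_pos.2 (h.image _)

theorem pat_le_one {B : Finset (V → Bool)} {Z : Finset V} {a : V → Bool}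
    (h : ∀ x ∈ B, ∀ v ∈ Z, x v = a v) : pat B Z ≤ 1 := by
  refine card_le_one.2 fun p hp q hq => ?_
  obtain ⟨x, hx, rfl⟩ := mem_image.1 hp
  obtain ⟨y, hy, rfl⟩ := mem_image.1 hq
  rw [mask_eq_iff]
  intro v hv
  rw [h x hx v hv, h y hy v hv]

theorem pat_union_le (B : Finset (V → Bool)) (Z W : Finset V) :
    pat B (Z ∪ W) ≤ pat B Z * pat B W := by
  unfold pat
  rw [← card_product]
  refine card_le_card_of_injOn (fun p => (mask Z p, mask W p)) ?_ ?_
  · intro p hp
    obtain ⟨x, hx, rfl⟩ := mem_image.1 (mem_coe.1 hp)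
    refine mem_coe.2 (mem_product.2 ⟨mem_image.2 ⟨x, hx, ?_⟩, mem_image.2 ⟨x, hx, ?_⟩⟩)
    · rw [mask_eq_iff]
      intro v hv
      simp [mask, hv]
    · rw [mask_eq_iff]
      intro v hv
      simp [mask, hv]
  · rintro p hp q hq h
    obtain ⟨x, hx, rfl⟩ := mem_image.1 (mem_coe.1 hp)
    obtain ⟨y, hy, rfl⟩ := mem_image.1 (mem_coe.1 hq)
    simp only [Prod.mk.injEq, mask_eq_iff] at h
    rw [mask_eq_iff]
    intro v hv
    rcases mem_union.1 hv with hv' | hv'
    · have := h.1 v hv'
      simpa [mask, hv] using this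
    · have := h.2 v hv'
      simpa [mask, hv] using this

theorem pat_empty_le (B : Finset (V → Bool)) : pat B ∅ ≤ 1 :=
  pat_le_one (a := fun _ => false) fun _ _ v hv => absurd hv (notMem_empty v)

theorem pat_biUnion_le {ι : Type*} [DecidableEq ι] (B : Finset (V → Bool)) (Z : ι → Finset V)
    {k : ℕ} (M : Finset ι) (h : ∀ i ∈ M, pat B (Z i) ≤ k) : pat B (M.biUnion Z) ≤ k ^ M.card := by
  induction M using Finset.induction_on with
  | empty => simpa using pat_empty_le B
  | insert i M hi ih =>
    rw [biUnion_insert, card_insert_of_notMem hi, pow_succ, mul_comm]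
    exact (pat_union_le B _ _).trans (Nat.mul_le_mul (h i (mem_insert_self _ _))
      (ih fun j hj => h j (mem_insert_of_mem hj)))

/-- A set of assignments is covered by its sections. -/
theorem card_le_pat_mul (B : Finset (V → Bool)) (Z : Finset V) :
    B.card ≤ pat B Z * 2 ^ (Fintype.card V - Z.card) := by
  have h1 : B.card ≤ (B.image (mask Z) ×ˢ (univ : Finset ({v // v ∉ Z} → Bool))).card := by
    refine card_le_card_of_injOn (fun x => (mask Z x, fun v => x v.1)) ?_ ?_
    · intro x hx
      exact mem_coe.2 (mem_product.2 ⟨mem_image_of_mem _ (mem_coe.1 hx), mem_univ _⟩)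
    · intro x _ y _ h
      simp only [Prod.mk.injEq, mask_eq_iff] at h
      funext v
      by_cases hv : v ∈ Z
      · exact h.1 v hv
      · exact congrFun h.2 ⟨v, hv⟩
  refine h1.trans ?_
  rw [card_product, card_univ, Fintype.card_fun, Fintype.card_bool]
  refine Nat.mul_le_mul_left _ (Nat.pow_le_pow_right (by norm_num) ?_)
  rw [Fintype.card_subtype_compl, Fintype.card_coe]

/-- Restrictions to the union, for an affine set. -/
theorem pat_union_eq {B : Finset (V → Bool)} (hB : IsAff B) (Z W : Finset V) {x : V → Bool}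
    (hx : x ∈ B) : pat B (Z ∪ W) = pat B Z * pat (sec B Z x) W := by
  have h1 := card_eq_pat_mul hB (Z ∪ W) hx
  have h2 := card_eq_pat_mul hB Z hx
  have h3 := card_eq_pat_mul (hB.sec Z x) W (self_mem_sec hx)
  rw [sec_sec] at h3
  have h4 : 0 < (sec B (Z ∪ W) x).card := card_pos.2 ⟨x, self_mem_sec hx⟩
  rw [h3] at h2
  refine Nat.eq_of_mul_eq_mul_right h4 ?_
  rw [← h1, h2, mul_assoc]

/-- An affine set covered by two affine sets. -/
theorem aff_split {B A0 A1 : Finset (V → Bool)} (hB : IsAff B) (h0 : IsAff A0) (h1 : IsAff A1)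
    (h : B ⊆ A0 ∪ A1) : B ⊆ A0 ∨ B ⊆ A1 ∨
      (Disjoint (B ∩ A0) (B ∩ A1) ∧ (B ∩ A0) ∪ (B ∩ A1) = B ∧
        (B ∩ A0).card = (B ∩ A1).card ∧ 2 * (B ∩ A0).card = B.card) := by
  by_cases hs0 : B ⊆ A0
  · exact Or.inl hs0
  by_cases hs1 : B ⊆ A1
  · exact Or.inr (Or.inl hs1)
  refine Or.inr (Or.inr ?_)
  rw [not_subset] at hs0 hs1
  obtain ⟨a, haB, ha0⟩ := hs0
  obtain ⟨b, hbB, hb1⟩ := hs1
  have hA : ∀ y ∈ B, y ∈ A0 ∨ y ∈ A1 := fun y hy => mem_union.1 (h hy)
  have ha1 : a ∈ A1 := (hA a haB).resolve_left ha0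
  have hb0 : b ∈ A0 := (hA b hbB).resolve_right hb1
  have hdis : Disjoint (B ∩ A0) (B ∩ A1) := by
    rw [disjoint_left]
    intro c hc hc'
    rw [mem_inter] at hc hc'
    have hd := hB a haB b hbB c hc.1
    rcases hA _ hd with hd0 | hd1
    · refine ha0 ?_
      have := h0 _ hd0 c hc.2 b hb0
      rwa [add3_cancel] at this
    · refine hb1 ?_
      have := h1 _ hd1 a ha1 c hc'.2
      rwa [add3_cancel'] at this
  have hun : (B ∩ A0) ∪ (B ∩ A1) = B := by
    rw [← inter_union_distrib_left]
    exact inter_eq_left.2 h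
  have hle : (B ∩ A0).card ≤ (B ∩ A1).card := by
    refine card_le_card_of_injOn (fun y => add3 y a b) (fun y hy => ?_) (add3_inj a b).injOn
    have hy' := mem_inter.1 (mem_coe.1 hy)
    have hz := hB y hy'.1 a haB b hbB
    refine mem_coe.2 (mem_inter.2 ⟨hz, ?_⟩)
    refine (hA _ hz).resolve_left fun hz0 => ha0 ?_
    have := h0 _ hz0 y hy'.2 b hb0
    rwa [add3_cancel'] at this
  have hge : (B ∩ A1).card ≤ (B ∩ A0).card := by
    refine card_le_card_of_injOn (fun y => add3 y b a) (fun y hy => ?_) (add3_inj b a).injOn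
    have hy' := mem_inter.1 (mem_coe.1 hy)
    have hz := hB y hy'.1 b hbB a haB
    refine mem_coe.2 (mem_inter.2 ⟨hz, ?_⟩)
    refine (hA _ hz).resolve_right fun hz1 => hb1 ?_
    have := h1 _ hz1 y hy'.2 a ha1
    rwa [add3_cancel'] at this
  refine ⟨hdis, hun, le_antisymm hle hge, ?_⟩
  have := card_union_of_disjoint hdis
  rw [hun] at this
  omega

/-- Restrictions of a half. -/
theorem half_pat {B B' : Finset (V → Bool)} (hB : IsAff B) (hB' : IsAff B') (hs : B' ⊆ B)
    (hc : B.card ≤ 2 * B'.card) (hne : B'.Nonempty) (Z : Finset V) : pat B Z ≤ 2 * pat B' Z := by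
  obtain ⟨x, hx⟩ := hne
  have h1 := card_eq_pat_mul hB Z (hs hx)
  have h2 := card_eq_pat_mul hB' Z hx
  have h3 : (sec B' Z x).card ≤ (sec B Z x).card := by
    refine card_le_card fun y hy => ?_
    rw [mem_sec] at hy ⊢
    exact ⟨hs hy.1, hy.2⟩
  have h4 : 0 < (sec B Z x).card := card_pos.2 ⟨x, self_mem_sec (hs hx)⟩
  refine Nat.le_of_mul_le_mul_right ?_ h4
  rw [← h1]
  refine hc.trans ?_
  rw [h2]
  calc 2 * (pat B' Z * (sec B' Z x).card) ≤ 2 * (pat B' Z * (sec B Z x).card) := by gcongr
    _ = 2 * pat B' Z * (sec B Z x).card := by ring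

end Pool.Agent.MP_9cec2c_lc.ParTrade
end

section

/-!
The rank of a set of variables on an affine set.
-/

set_option autoImplicit false
set_option linter.unusedSectionVars false

namespace Pool.Agent.MP_9cec2c_lc.ParTrade

open Finset

variable {V : Type*} [Fintype V] [DecidableEq V]

/-- The halves given by one variable. -/
theorem read_one {B : Finset (V → Bool)} (hB : IsAff B) (v : V) :
    (∃ b : Bool, ∀ x ∈ B, x v = b) ∨
      ((B.filter fun x => x v = false).card = (B.filter fun x => x v = true).card) := by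
  by_cases h0 : ∃ x ∈ B, x v = false
  · by_cases h1 : ∃ x ∈ B, x v = true
    · right
      obtain ⟨p, hp, hp'⟩ := h0
      obtain ⟨q, hq, hq'⟩ := h1
      refine le_antisymm ?_ ?_
      · refine card_le_card_of_injOn (fun y => add3 y p q) (fun y hy => ?_)
          (add3_inj p q).injOn
        have hy' := mem_filter.1 (mem_coe.1 hy)
        refine mem_coe.2 (mem_filter.2 ⟨hB y hy'.1 p hp q hq, ?_⟩)
        show xor (y v) (xor (p v) (q v)) = true
        rw [hy'.2, hp', hq']
        rfl
      · refine card_le_card_of_injOn (fun y => add3 y p q) (fun y hy => ?_)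
          (add3_inj p q).injOn
        have hy' := mem_filter.1 (mem_coe.1 hy)
        refine mem_coe.2 (mem_filter.2 ⟨hB y hy'.1 p hp q hq, ?_⟩)
        show xor (y v) (xor (p v) (q v)) = false
        rw [hy'.2, hp', hq']
        rfl
    · left
      refine ⟨false, fun x hx => ?_⟩
      push Not at h1
      have := h1 x hx
      simpa using this
  · left
    refine ⟨true, fun x hx => ?_⟩
    push Not at h0
    have := h0 x hx
    simpa using this

theorem aff_filter {B : Finset (V → Bool)} (hB : IsAff B) (v : V) (b : Bool) :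
    IsAff (B.filter fun x => x v = b) := by
  intro x hx y hy z hz
  rw [mem_filter] at *
  refine ⟨hB x hx.1 y hy.1 z hz.1, ?_⟩
  show xor (x v) (xor (y v) (z v)) = b
  rw [hx.2, hy.2, hz.2]
  cases b <;> rfl

theorem filter_disj (B : Finset (V → Bool)) (v : V) :
    Disjoint (B.filter fun x => x v = false) (B.filter fun x => x v = true) := by
  rw [disjoint_left]
  intro x hx hx'
  rw [mem_filter] at hx hx'
  rw [hx.2] at hx'
  exact absurd hx'.2 (by simp)

theorem filter_un (B : Finset (V → Bool)) (v : V) :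
    (B.filter fun x => x v = false) ∪ (B.filter fun x => x v = true) = B := by
  ext x
  simp only [mem_union, mem_filter]
  constructor
  · rintro (h3 | h3)
    · exact h3.1
    · exact h3.1
  · intro h3
    cases h4 : x v
    · exact Or.inl ⟨h3, rfl⟩
    · exact Or.inr ⟨h3, rfl⟩

/-- The size of an affine set is a power of two. -/
theorem aff_card_pow (k : ℕ) : ∀ B : Finset (V → Bool), IsAff B → B.Nonempty → B.card = k →
    ∃ d, B.card = 2 ^ d := by
  induction k using Nat.strong_induction_on with
  | _ k ih =>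
    intro B hB hne hk
    by_cases h : ∀ x ∈ B, ∀ y ∈ B, x = y
    · refine ⟨0, ?_⟩
      have h1 : B.card ≤ 1 := card_le_one.2 h
      have h2 := card_pos.2 hne
      rw [pow_zero]
      omega
    · push Not at h
      obtain ⟨x, hx, y, hy, hxy⟩ := h
      obtain ⟨v, hv⟩ := Function.ne_iff.1 hxy
      rcases read_one hB v with ⟨b, hb⟩ | hcard
      · exact absurd ((hb x hx).trans (hb y hy).symm) hv
      · have h1 := card_union_of_disjoint (filter_disj B v)
        rw [filter_un] at h1
        have h2 := card_pos.2 hne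
        obtain ⟨d, hd⟩ := ih (B.filter fun x => x v = false).card (by omega) _
          (aff_filter hB v false) (card_pos.1 (by omega)) rfl
        refine ⟨d + 1, ?_⟩
        rw [pow_succ]
        omega

/-- The dimension of an affine set. -/
def dim (B : Finset (V → Bool)) : ℕ := Nat.log 2 B.card

/-- The rank of the variables in `Z` on `B`. -/
def rk (B : Finset (V → Bool)) (Z : Finset V) : ℕ := Nat.log 2 (pat B Z)

theorem card_dim {B : Finset (V → Bool)} (hB : IsAff B) (hne : B.Nonempty) :
    B.card = 2 ^ dim B := by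
  obtain ⟨d, hd⟩ := aff_card_pow _ B hB hne rfl
  unfold dim
  rw [hd, Nat.log_pow (by norm_num)]

theorem pat_rk {B : Finset (V → Bool)} (hB : IsAff B) (hne : B.Nonempty) (Z : Finset V) :
    pat B Z = 2 ^ rk B Z := by
  obtain ⟨x, hx⟩ := hne
  have h1 := card_eq_pat_mul hB Z hx
  rw [card_dim hB ⟨x, hx⟩] at h1
  have h2 : pat B Z ∣ 2 ^ dim B := ⟨_, h1⟩
  obtain ⟨k, -, hk⟩ := (Nat.dvd_prime_pow Nat.prime_two).1 h2
  unfold rk
  rw [hk, Nat.log_pow (by norm_num)]

theorem pow_inj {a b : ℕ} (h : 2 ^ a = 2 ^ b) : a = b := Nat.pow_right_injective (le_refl 2) h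

theorem pow_le {a b : ℕ} (h : 2 ^ a ≤ 2 ^ b) : a ≤ b :=
  (Nat.pow_le_pow_iff_right (by norm_num)).1 h

theorem rk_union {B : Finset (V → Bool)} (hB : IsAff B) {x : V → Bool} (hx : x ∈ B)
    (Z W : Finset V) : rk B (Z ∪ W) = rk B Z + rk (sec B Z x) W := by
  have h := pat_union_eq hB Z W hx
  rw [pat_rk hB ⟨x, hx⟩, pat_rk hB ⟨x, hx⟩, pat_rk (hB.sec Z x) ⟨x, self_mem_sec hx⟩,
    ← pow_add] at h
  exact pow_inj h

theorem dim_sec {B : Finset (V → Bool)} (hB : IsAff B) {x : V → Bool} (hx : x ∈ B)
    (Z : Finset V) : dim B = rk B Z + dim (sec B Z x) := by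
  have h := card_eq_pat_mul hB Z hx
  rw [pat_rk hB ⟨x, hx⟩, card_dim hB ⟨x, hx⟩, card_dim (hB.sec Z x) ⟨x, self_mem_sec hx⟩,
    ← pow_add] at h
  exact pow_inj h

theorem rk_mono_left {B B' : Finset (V → Bool)} (h : B' ⊆ B) (Z : Finset V) :
    rk B' Z ≤ rk B Z := Nat.log_mono_right (pat_mono h Z)

theorem pat_mono_right (B : Finset (V → Bool)) {Z W : Finset V} (h : Z ⊆ W) :
    pat B Z ≤ pat B W := by
  unfold pat
  have h1 : B.image (mask Z) = (B.image (mask W)).image (mask Z) := by
    rw [image_image]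
    refine image_congr fun x _ => ?_
    show mask Z x = mask Z (mask W x)
    rw [mask_eq_iff]
    intro v hv
    simp [mask, h hv]
  rw [h1]
  exact card_image_le

theorem rk_mono_right (B : Finset (V → Bool)) {Z W : Finset V} (h : Z ⊆ W) :
    rk B Z ≤ rk B W := Nat.log_mono_right (pat_mono_right B h)

theorem pat_le_pow (B : Finset (V → Bool)) (Z : Finset V) : pat B Z ≤ 2 ^ Z.card := by
  have h := pat_biUnion_le B (fun v : V => {v}) (k := 2) Z fun v _ => ?_
  · rwa [biUnion_singleton_eq_self] at h
  · unfold pat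
    refine le_trans (card_le_card (t := ({fun u => if u = v then true else false,
      fun _ => false} : Finset (V → Bool))) fun y hy => ?_) card_le_two
    obtain ⟨x, -, rfl⟩ := mem_image.1 hy
    rw [mem_insert, mem_singleton]
    cases hx : x v
    · right
      funext u
      by_cases hu : u = v
      · simp [mask, hu, hx]
      · simp [mask, hu]
    · left
      funext u
      by_cases hu : u = v
      · simp [mask, hu, hx]
      · simp [mask, hu]

theorem rk_le_card (B : Finset (V → Bool)) (Z : Finset V) : rk B Z ≤ Z.card := by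
  have h : rk B Z ≤ Nat.log 2 (2 ^ Z.card) := Nat.log_mono_right (pat_le_pow B Z)
  rwa [Nat.log_pow (by norm_num)] at h

theorem dim_le {B : Finset (V → Bool)} (hB : IsAff B) (hne : B.Nonempty) (Z : Finset V) :
    dim B + Z.card ≤ rk B Z + Fintype.card V := by
  have h := card_le_pat_mul B Z
  rw [pat_rk hB hne, card_dim hB hne, ← pow_add] at h
  have h1 := pow_le h
  have h2 : Z.card ≤ Fintype.card V := card_le_univ _
  omega

theorem rk_submod {B : Finset (V → Bool)} (hB : IsAff B) (hne : B.Nonempty) (P Q : Finset V) :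
    rk B (P ∪ Q) + rk B (P ∩ Q) ≤ rk B P + rk B Q := by
  obtain ⟨x, hx⟩ := hne
  have h1 := rk_union hB hx P Q
  have h2 := rk_union hB hx (P ∩ Q) Q
  have h3 : P ∩ Q ∪ Q = Q := union_eq_right.2 inter_subset_right
  rw [h3] at h2
  have h4 : rk (sec B P x) Q ≤ rk (sec B (P ∩ Q) x) Q := by
    refine rk_mono_left (fun y hy => ?_) _
    rw [mem_sec] at hy ⊢
    exact ⟨hy.1, fun v hv => hy.2 v (mem_inter.1 hv).1⟩
  omega

theorem rk_half {B B' : Finset (V → Bool)} (hB : IsAff B) (hB' : IsAff B') (hs : B' ⊆ B)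
    (hc : B.card ≤ 2 * B'.card) (hne : B'.Nonempty) (Z : Finset V) :
    rk B Z ≤ rk B' Z + 1 := by
  have h := half_pat hB hB' hs hc hne Z
  rw [pat_rk hB (hne.mono hs), pat_rk hB' hne] at h
  have h1 : 2 ^ rk B Z ≤ 2 ^ (rk B' Z + 1) := by
    rw [pow_succ]
    omega
  exact pow_le h1

theorem rk_fixed {B : Finset (V → Bool)} {Z : Finset V} {a : V → Bool}
    (h : ∀ x ∈ B, ∀ v ∈ Z, x v = a v) : rk B Z = 0 := by
  have h1 := pat_le_one h
  unfold rk
  exact Nat.log_eq_zero_iff.2 (Or.inl (by omega))

end Pool.Agent.MP_9cec2c_lc.ParTrade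
end
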