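import Pool.Agent.Lib.MP_9cec2c_lc.Mg.G040
import Pool.Agent.Lib.MP_9cec2c_lc.Mg.G043

section

/-!
The rank of the functions of small degree on a set of points.
-/

set_option autoImplicit false
set_option linter.unusedSectionVars false

namespace Pool.Agent.MP_9cec2c_lc.ResPoly

open Finset

variable {n : ℕ} (K : Type) [Field K]

/-- Multiplication by the indicator of `E`. -/
noncomputable def cut (E : Set (Fin n → Bool)) :
    ((Fin n → Bool) → K) →ₗ[K] ((Fin n → Bool) → K) where
  toFun f := E.indicator f
  map_add' f g := Set.indicator_add E f g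
  map_smul' c f := Set.indicator_const_smul E c f

theorem cut_of_mem {E : Set (Fin n → Bool)} {x : Fin n → Bool} (hx : x ∈ E)
    (f : (Fin n → Bool) → K) : cut K E f x = f x := Set.indicator_of_mem hx f

theorem cut_of_notMem {E : Set (Fin n → Bool)} {x : Fin n → Bool} (hx : x ∉ E)
    (f : (Fin n → Bool) → K) : cut K E f x = 0 := Set.indicator_of_notMem hx f

/-- The dimension of the space of the functions of degree at most `d` on `E`. -/
noncomputable def rk (E : Set (Fin n → Bool)) (d : ℕ) : ℕ :=
  Module.finrank K ((Poly K n d).map (cut K E))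

/-! ### Standard monomials -/

open Classical in
/-- The standard monomials of degree `i`. -/
noncomputable def stdLevel (E : Set (Fin n → Bool)) (i : ℕ) : Finset (Finset (Fin n)) :=
  univ.filter fun M => M.card = i ∧ Std K E M

theorem mem_stdLevel {E : Set (Fin n → Bool)} {i : ℕ} {M : Finset (Fin n)} :
    M ∈ stdLevel K E i ↔ M.card = i ∧ Std K E M := by
  classical
  exact ⟨fun h => (mem_filter.1 h).2, fun h => mem_filter.2 ⟨mem_univ M, h⟩⟩

/-- The rank is the number of standard monomials. -/
theorem rk_eq (E : Set (Fin n → Bool)) (d : ℕ) :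
    rk K E d = ∑ i ∈ range (d + 1), (stdLevel K E i).card := by
  classical
  have h1 : (Poly K n d).map (cut K E) =
      (stdSpan K E fun M => M.card ≤ d).map (cut K E) := by
    refine le_antisymm ?_ ?_
    · rw [Submodule.map_le_iff_le_comap]
      unfold Poly
      rw [Submodule.span_le]
      rintro f ⟨M, hM, rfl⟩
      obtain ⟨r, hr, hv⟩ := exists_nf K E M
      refine Submodule.mem_comap.2 ⟨r, stdSpan_mono K (fun M' h => (card_le_of_key_le h).trans hM)
        hr, ?_⟩
      funext x
      by_cases hx : x ∈ E
      · rw [cut_of_mem K hx, cut_of_mem K hx]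
        have h2 : mon K M x - r x = 0 := hv x hx
        exact (sub_eq_zero.1 h2).symm
      · rw [cut_of_notMem K hx, cut_of_notMem K hx]
    · refine Submodule.map_mono ?_
      unfold stdSpan Poly
      refine Submodule.span_mono ?_
      rintro f ⟨M, -, hM, rfl⟩
      exact ⟨M, hM, rfl⟩
  have h2 : Module.finrank K ((stdSpan K E fun M => M.card ≤ d).map (cut K E)) =
      Module.finrank K (stdSpan K E fun M : Finset (Fin n) => M.card ≤ d) := by
    have hinj : Function.Injective
        ((cut K E).domRestrict (stdSpan K E fun M : Finset (Fin n) => M.card ≤ d)) := by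
      rw [← LinearMap.ker_eq_bot, LinearMap.ker_eq_bot']
      rintro ⟨r, hr⟩ h0
      have h3 : cut K E r = 0 := h0
      refine Subtype.ext ?_
      refine stdSpan_unique K (stdSpan_mono K (fun _ _ => trivial) hr) fun x hx => ?_
      have h4 : cut K E r x = 0 := by
        rw [h3]
        rfl
      rwa [cut_of_mem K hx] at h4
    have h4 := LinearMap.finrank_range_of_inj hinj
    rw [LinearMap.range_domRestrict] at h4
    exact h4
  have h3 : (stdSpan K E fun M : Finset (Fin n) => M.card ≤ d) = Submodule.span K
      (Set.range fun M : {M : Finset (Fin n) // M.card ≤ d ∧ Std K E M} => mon K M.1) := by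
    unfold stdSpan
    congr 1
    ext f
    constructor
    · rintro ⟨M, h4, h5, rfl⟩
      exact ⟨⟨M, h5, h4⟩, rfl⟩
    · rintro ⟨⟨M, h5, h4⟩, rfl⟩
      exact ⟨M, h4, h5, rfl⟩
  have h4 : LinearIndependent K
      (fun M : {M : Finset (Fin n) // M.card ≤ d ∧ Std K E M} => mon K M.1) :=
    (mon_linInd K).comp (fun M : {M : Finset (Fin n) // M.card ≤ d ∧ Std K E M} => M.1)
      Subtype.val_injective
  unfold rk
  rw [h1, h2, h3, finrank_span_eq_card h4, Fintype.card_subtype,
    card_eq_sum_card_fiberwise (f := fun M : Finset (Fin n) => M.card) (t := range (d + 1))]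
  · refine sum_congr rfl fun i hi => ?_
    congr 1
    ext M
    rw [mem_filter, mem_filter, mem_stdLevel]
    constructor
    · rintro ⟨⟨-, -, h4⟩, h5⟩
      exact ⟨h5, h4⟩
    · rintro ⟨h5, h4⟩
      have := mem_range.1 hi
      exact ⟨⟨mem_univ _, by omega, h4⟩, h5⟩
  · intro M hM
    have := (mem_filter.1 (mem_coe.1 hM)).2.1
    exact mem_coe.2 (mem_range.2 (Nat.lt_succ_of_le this))

theorem key_union_le (M W : Finset (Fin n)) : key (M ∪ W) ≤ key M + key W := by
  unfold key
  rw [← sum_union_inter]
  exact Nat.le_add_right _ _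

theorem key_union_eq {M W : Finset (Fin n)} (h : Disjoint M W) :
    key (M ∪ W) = key M + key W := sum_union h

/-- The standard monomials form a down-set. -/
theorem std_down {E : Set (Fin n → Bool)} {N M : Finset (Fin n)} (h : N ⊆ M)
    (hM : Std K E M) : Std K E N := by
  intro hN
  apply hM
  obtain ⟨q, hq, g, hg, hqg⟩ := Submodule.mem_sup.1 hN
  have h1 : mon K M = mon K (M \ N) * q + mon K (M \ N) * g := by
    rw [← mul_add, hqg, mon_mul, sdiff_union_of_subset h]
  rw [h1]
  refine Submodule.add_mem_sup ?_ ?_
  · unfold low at hq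
    clear h1 hqg hg hN
    induction hq using Submodule.span_induction with
    | mem f hf =>
      obtain ⟨N', hN', rfl⟩ := hf
      rw [mon_mul]
      refine Submodule.subset_span ⟨_, ?_, rfl⟩
      have h2 : key M = key (M \ N) + key N := by
        rw [← key_union_eq sdiff_disjoint, sdiff_union_of_subset h]
      have h3 := key_union_le (M \ N) N'
      omega
    | zero =>
      rw [mul_zero]
      exact Submodule.zero_mem _
    | add f g _ _ hf hg =>
      rw [mul_add]
      exact Submodule.add_mem _ hf hg
    | smul c f _ hf =>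
      rw [mul_smul_comm]
      exact Submodule.smul_mem _ _ hf
  · intro x hx
    rw [Pi.mul_apply, hg x hx, mul_zero]

theorem level_step (E : Set (Fin n → Bool)) (i : ℕ) :
    (stdLevel K E (i + 1)).card * (i + 1) ≤ (stdLevel K E i).card * n := by
  have h1 : ((stdLevel K E (i + 1) : Finset (Finset (Fin n))) : Set (Finset (Fin n))).Sized
      (i + 1) := fun M hM => ((mem_stdLevel K).1 (mem_coe.1 hM)).1
  have h2 := local_lubell_yamamoto_meshalkin_inequality_mul h1
  rw [Fintype.card_fin] at h2
  have h3 : (shadow (stdLevel K E (i + 1))) ⊆ stdLevel K E i := by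
    intro M hM
    obtain ⟨M', hM', v, hv, rfl⟩ := mem_shadow_iff.1 hM
    obtain ⟨h4, h5⟩ := (mem_stdLevel K).1 hM'
    refine (mem_stdLevel K).2 ⟨?_, std_down K (erase_subset v M') h5⟩
    rw [card_erase_of_mem hv, h4]
    rfl
  refine h2.trans ?_
  rcases Nat.eq_zero_or_pos (stdLevel K E (i + 1)).card with h0 | h0
  · rw [card_eq_zero] at h0
    rw [h0, shadow_empty, card_empty, zero_mul]
    exact Nat.zero_le _
  · have h6 : i + 1 ≤ n := by
      obtain ⟨M, hM⟩ := card_pos.1 h0
      rw [← ((mem_stdLevel K).1 hM).1]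
      have := card_le_univ M
      rwa [Fintype.card_fin] at this
    exact Nat.mul_le_mul (card_le_card h3) (by omega)

theorem level_steps (E : Set (Fin n → Bool)) (i t : ℕ) :
    (stdLevel K E (i + t)).card * (i + 1) ^ t ≤ (stdLevel K E i).card * n ^ t := by
  induction t with
  | zero => exact le_rfl
  | succ t ih =>
    have h1 := level_step K E (i + t)
    calc (stdLevel K E (i + (t + 1))).card * (i + 1) ^ (t + 1)
        = ((stdLevel K E (i + t + 1)).card * (i + 1)) * (i + 1) ^ t := by
          rw [pow_succ, ← add_assoc]; ring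
      _ ≤ ((stdLevel K E (i + t + 1)).card * (i + t + 1)) * (i + 1) ^ t :=
          Nat.mul_le_mul_right _ (Nat.mul_le_mul_left _ (by omega))
      _ ≤ ((stdLevel K E (i + t)).card * n) * (i + 1) ^ t := Nat.mul_le_mul_right _ h1
      _ = ((stdLevel K E (i + t)).card * (i + 1) ^ t) * n := by ring
      _ ≤ ((stdLevel K E i).card * n ^ t) * n := Nat.mul_le_mul_right _ ih
      _ = (stdLevel K E i).card * n ^ (t + 1) := by ring

/-- The rank does not grow much with the degree. -/
theorem rk_ratio (E : Set (Fin n → Bool)) (e t : ℕ) :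
    (e + 1) ^ t * rk K E (e + 2 * t) ≤ ((e + 1) ^ t + n ^ t) * rk K E (e + t) := by
  have h1 : rk K E (e + 2 * t) =
      rk K E (e + t) + ∑ j ∈ range t, (stdLevel K E (e + t + 1 + j)).card := by
    rw [rk_eq, rk_eq, ← sum_range_add]
    congr 2
    ring
  have h2 : (e + 1) ^ t * ∑ j ∈ range t, (stdLevel K E (e + t + 1 + j)).card ≤
      n ^ t * rk K E (e + t) := by
    have h3 : ∑ j ∈ range t, (stdLevel K E (e + 1 + j)).card ≤ rk K E (e + t) := by
      rw [rk_eq, show e + t + 1 = e + 1 + t by ring, sum_range_add]
      exact Nat.le_add_left _ _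
    refine le_trans ?_ (Nat.mul_le_mul_left _ h3)
    rw [mul_sum, mul_sum]
    refine sum_le_sum fun j _ => ?_
    have h4 := level_steps K E (e + 1 + j) t
    have h5 : e + 1 + j + t = e + t + 1 + j := by ring
    rw [h5] at h4
    calc (e + 1) ^ t * (stdLevel K E (e + t + 1 + j)).card
        = (stdLevel K E (e + t + 1 + j)).card * (e + 1) ^ t := mul_comm _ _
      _ ≤ (stdLevel K E (e + t + 1 + j)).card * (e + 1 + j + 1) ^ t :=
          Nat.mul_le_mul_left _ (Nat.pow_le_pow_left (by omega) t)
      _ ≤ (stdLevel K E (e + 1 + j)).card * n ^ t := h4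
      _ = n ^ t * (stdLevel K E (e + 1 + j)).card := mul_comm _ _
  rw [h1, mul_add, add_mul]
  exact Nat.add_le_add_left h2 _

theorem rk_le (E : Set (Fin n → Bool)) (d : ℕ) :
    rk K E d ≤ ∑ i ∈ range (d + 1), n.choose i := by
  rw [rk_eq]
  refine sum_le_sum fun i _ => ?_
  have h1 : stdLevel K E i ⊆ powersetCard i univ := fun M hM =>
    mem_powersetCard.2 ⟨subset_univ _, ((mem_stdLevel K).1 hM).1⟩
  refine (card_le_card h1).trans ?_
  rw [card_powersetCard, card_univ, Fintype.card_fin]

end Pool.Agent.MP_9cec2c_lc.ResPoly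
end

section

/-!
Functions of small degree on the cube.
-/

set_option autoImplicit false
set_option linter.unusedSectionVars false

namespace Pool.Agent.MP_9cec2c_lc.ParTrade

open Finset

variable {W : Type*} [Fintype W] [DecidableEq W]

/-- The number of subsets of a `g`-set with fewer than `D` elements. -/
def binSum (g D : ℕ) : ℕ := ∑ i ∈ range D, g.choose i

theorem binSum_succ (g D : ℕ) :
    binSum (g + 1) (D + 1) = binSum g (D + 1) + binSum g D := by
  unfold binSum
  rw [sum_range_succ', sum_range_succ' (fun i => g.choose i)]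
  have h : ∀ i ∈ range D, (g + 1).choose (i + 1) = g.choose i + g.choose (i + 1) :=
    fun i _ => Nat.choose_succ_succ g i
  rw [sum_congr rfl h, sum_add_distrib, Nat.choose_zero_right, Nat.choose_zero_right]
  omega

theorem one_le_binSum (g D : ℕ) : 1 ≤ binSum g (D + 1) := by
  unfold binSum
  rw [sum_range_succ', Nat.choose_zero_right]
  omega

/-- The sum of two points. -/
def pls (z h : W → Bool) : W → Bool := fun v => xor (z v) (h v)

/-- Functions of degree less than `D`: all `D`-fold differences are zero. -/
def Deg : ℕ → ((W → Bool) → ZMod 2) → Prop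
  | 0, f => ∀ z, f z = 0
  | D + 1, f => ∀ h, Deg D (fun z => f z + f (pls z h))

theorem pls_comm3 (z h k : W → Bool) : pls (pls z h) k = pls (pls z k) h := by
  funext v
  unfold pls
  cases z v <;> cases h v <;> cases k v <;> rfl

theorem deg_add : ∀ (D : ℕ) {f g : (W → Bool) → ZMod 2}, Deg D f → Deg D g →
    Deg D (fun z => f z + g z)
  | 0, f, g, hf, hg => fun z => by
      show f z + g z = 0
      rw [hf z, hg z, add_zero]
  | D + 1, f, g, hf, hg => fun h => by
      have h1 := deg_add D (hf h) (hg h)
      have h2 : (fun z => f z + g z + (f (pls z h) + g (pls z h))) =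
          fun z => f z + f (pls z h) + (g z + g (pls z h)) := by
        funext z
        ring
      show Deg D (fun z => f z + g z + (f (pls z h) + g (pls z h)))
      rw [h2]
      exact h1

theorem deg_const : ∀ (D : ℕ) (c : ZMod 2) {f : (W → Bool) → ZMod 2}, Deg D f →
    Deg D (fun z => c * f z)
  | 0, c, f, hf => fun z => by
      show c * f z = 0
      rw [hf z, mul_zero]
  | D + 1, c, f, hf => fun h => by
      have h1 := deg_const D c (hf h)
      have h2 : (fun z => c * f z + c * f (pls z h)) = fun z => c * (f z + f (pls z h)) := by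
        funext z
        ring
      show Deg D (fun z => c * f z + c * f (pls z h))
      rw [h2]
      exact h1

theorem deg_zero (D : ℕ) : Deg D (fun _ : W → Bool => (0 : ZMod 2)) := by
  induction D with
  | zero => exact fun _ => rfl
  | succ D ih =>
    intro h
    show Deg D (fun _ : W → Bool => (0 : ZMod 2) + 0)
    rw [add_zero]
    exact ih

theorem deg_shift : ∀ (D : ℕ) (k : W → Bool) {f : (W → Bool) → ZMod 2}, Deg D f →
    Deg D (fun z => f (pls z k))
  | 0, k, f, hf => fun z => hf (pls z k)
  | D + 1, k, f, hf => fun h => by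
      have h1 := deg_shift D k (hf h)
      have h2 : (fun z => f (pls z k) + f (pls (pls z h) k)) =
          fun z => f (pls z k) + f (pls (pls z k) h) := by
        funext z
        rw [pls_comm3]
      show Deg D (fun z => f (pls z k) + f (pls (pls z h) k))
      rw [h2]
      exact h1

theorem deg_succ {D : ℕ} {f : (W → Bool) → ZMod 2} (hf : Deg D f) : Deg (D + 1) f :=
  fun h => deg_add D hf (deg_shift D h hf)

theorem deg_mono {D E : ℕ} (h : D ≤ E) {f : (W → Bool) → ZMod 2} (hf : Deg D f) : Deg E f := by
  induction h with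
  | refl => exact hf
  | step _ ih => exact deg_succ ih

/-- The value of a coordinate modulo 2. -/
def bz (b : Bool) : ZMod 2 := if b then 1 else 0

theorem bz_xor (a b : Bool) : bz (xor a b) = bz a + bz b := by
  cases a <;> cases b <;> decide

theorem deg_mul : ∀ (D : ℕ) (i : W) {f : (W → Bool) → ZMod 2}, Deg D f →
    Deg (D + 1) (fun z => bz (z i) * f z)
  | 0, i, f, hf => fun h z => by
      show bz (z i) * f z + bz (pls z h i) * f (pls z h) = 0
      rw [hf z, hf (pls z h), mul_zero, mul_zero, add_zero]
  | D + 1, i, f, hf => fun h => by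
      have h1 := deg_mul D i (hf h)
      have h2 := deg_const (D + 1) (bz (h i)) (deg_shift (D + 1) h hf)
      have h3 : (fun z => bz (z i) * f z + bz (pls z h i) * f (pls z h)) =
          fun z => bz (z i) * (f z + f (pls z h)) + bz (h i) * f (pls z h) := by
        funext z
        have h4 : bz (pls z h i) = bz (z i) + bz (h i) := bz_xor _ _
        rw [h4]
        ring
      show Deg (D + 1) (fun z => bz (z i) * f z + bz (pls z h i) * f (pls z h))
      rw [h3]
      exact deg_add (D + 1) h1 h2

/-- The product of the coordinates in `S`. -/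
def mon (S : Finset W) (z : W → Bool) : ZMod 2 := ∏ i ∈ S, bz (z i)

theorem deg_mon (S : Finset W) : Deg (S.card + 1) (mon S) := by
  induction S using Finset.induction_on with
  | empty =>
    intro h z
    show mon ∅ z + mon ∅ (pls z h) = 0
    unfold mon
    rw [prod_empty, prod_empty]
    decide
  | insert i S hi ih =>
    have h1 := deg_mul _ i ih
    have h2 : mon (insert i S) = fun z => bz (z i) * mon S z := by
      funext z
      unfold mon
      rw [prod_insert hi]
    rw [card_insert_of_notMem hi, h2]
    exact h1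

/-- The function with the coefficients `a`. -/
def pv (D : ℕ) (a : {S : Finset W // S.card < D} → ZMod 2) (z : W → Bool) : ZMod 2 :=
  ∑ S, a S * mon S.1 z

theorem deg_sum {κ : Type*} (D : ℕ) (s : Finset κ) (F : κ → (W → Bool) → ZMod 2)
    (h : ∀ k ∈ s, Deg D (F k)) : Deg D (fun z => ∑ k ∈ s, F k z) := by
  classical
  induction s using Finset.induction_on with
  | empty =>
    have h2 : (fun z : W → Bool => ∑ k ∈ (∅ : Finset κ), F k z) = fun _ => 0 := by
      funext z
      rw [sum_empty]
    rw [h2]
    exact deg_zero D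
  | insert k s hk ih =>
    have h2 : (fun z : W → Bool => ∑ k ∈ insert k s, F k z) =
        fun z => F k z + ∑ k ∈ s, F k z := by
      funext z
      rw [sum_insert hk]
    rw [h2]
    exact deg_add D (h k (mem_insert_self _ _)) (ih fun j hj => h j (mem_insert_of_mem hj))

theorem deg_pv (D : ℕ) (a : {S : Finset W // S.card < D} → ZMod 2) : Deg D (pv D a) :=
  deg_sum D univ (fun S z => a S * mon S.1 z) fun S _ =>
    deg_const D (a S) (deg_mono (Nat.succ_le_of_lt S.2) (deg_mon S.1))

/-- The function with nonzero coefficients is not zero. -/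
theorem pv_ne {D : ℕ} {a : {S : Finset W // S.card < D} → ZMod 2} (ha : ∃ S, a S ≠ 0) :
    ∃ z, pv D a z ≠ 0 := by
  obtain ⟨S, hS, hmin⟩ := exists_min_image (univ.filter fun S => a S ≠ 0) (fun S => S.1.card)
    (by
      obtain ⟨S, hS⟩ := ha
      exact ⟨S, mem_filter.2 ⟨mem_univ _, hS⟩⟩)
  have hS' := (mem_filter.1 hS).2
  refine ⟨fun v => decide (v ∈ S.1), ?_⟩
  unfold pv
  rw [sum_eq_single S]
  · have h1 : mon S.1 (fun v => decide (v ∈ S.1)) = 1 := by
      unfold mon
      refine prod_eq_one fun i hi => ?_
      show bz (decide (i ∈ S.1)) = 1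
      rw [decide_eq_true hi]
      rfl
    rw [h1, mul_one]
    exact hS'
  · intro T _ hT
    by_cases hT0 : a T = 0
    · rw [hT0, zero_mul]
    · have h2 := hmin T (mem_filter.2 ⟨mem_univ _, hT0⟩)
      have h3 : ∃ i ∈ T.1, i ∉ S.1 := by
        by_contra hcon
        push Not at hcon
        have h4 : T.1 = S.1 := eq_of_subset_of_card_le hcon h2
        exact hT (Subtype.ext h4)
      obtain ⟨i, hi, hi'⟩ := h3
      have h5 : mon T.1 (fun v => decide (v ∈ S.1)) = 0 := by
        unfold mon
        refine prod_eq_zero hi ?_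
        show bz (decide (i ∈ S.1)) = 0
        rw [decide_eq_false hi']
        rfl
      rw [h5, mul_zero]
  · intro h
    exact absurd (mem_univ _) h

theorem card_mon (D : ℕ) :
    Fintype.card {S : Finset W // S.card < D} = binSum (Fintype.card W) D := by
  rw [Fintype.card_subtype]
  unfold binSum
  rw [card_eq_sum_card_fiberwise (f := fun S : Finset W => S.card) (t := range D)]
  · refine sum_congr rfl fun i hi => ?_
    rw [← card_univ (α := W), ← card_powersetCard]
    congr 1
    ext S
    rw [mem_filter, mem_filter, mem_powersetCard]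
    constructor
    · rintro ⟨-, h⟩
      exact ⟨subset_univ _, h⟩
    · rintro ⟨-, h⟩
      exact ⟨⟨mem_univ _, by rw [h]; exact mem_range.1 hi⟩, h⟩
  · intro S hS
    have := (mem_filter.1 (mem_coe.1 hS)).2
    exact mem_coe.2 (mem_range.2 this)

/-- Few points of an affine set determine the functions of small degree on it. -/
theorem few_points (g : ℕ) : ∀ (D : ℕ) (G : Finset (W → Bool)), IsAff G → G.card ≤ 2 ^ g →
    ∃ E : Finset (W → Bool), E ⊆ G ∧ E.card ≤ binSum g D ∧
      ∀ f : (W → Bool) → ZMod 2, Deg D f → (∀ z ∈ E, f z = 0) → ∀ z ∈ G, f z = 0 := by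
  induction g with
  | zero =>
    intro D G _ hc
    cases D with
    | zero => 
      exact ⟨∅, empty_subset _, by rw [card_empty]; exact Nat.zero_le _, fun f hf _ z _ => hf z⟩
    | succ D => exact ⟨G, subset_rfl, hc.trans (one_le_binSum 0 D), fun f _ h => h⟩
  | succ g ih =>
    intro D G hG hc
    cases D with
    | zero => 
      exact ⟨∅, empty_subset _, by rw [card_empty]; exact Nat.zero_le _, fun f hf _ z _ => hf z⟩
    | succ D =>
      by_cases h1 : ∀ x ∈ G, ∀ y ∈ G, x = y
      · exact ⟨G, subset_rfl, (card_le_one.2 h1).trans (one_le_binSum _ D), fun f _ h => h⟩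
      · push Not at h1
        obtain ⟨x, hx, y, hy, hxy⟩ := h1
        obtain ⟨v, hv⟩ := Function.ne_iff.1 hxy
        rcases read_one hG v with ⟨b, hb⟩ | hcard
        · exact absurd ((hb x hx).trans (hb y hy).symm) hv
        · have h2 := card_union_of_disjoint (filter_disj G v)
          rw [filter_un] at h2
          rw [pow_succ] at hc
          obtain ⟨E0, hE0s, hE0, hE0'⟩ := ih (D + 1) (G.filter fun x => x v = false)
            (aff_filter hG v false) (by omega)
          obtain ⟨E1, hE1s, hE1, hE1'⟩ := ih D (G.filter fun x => x v = true)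
            (aff_filter hG v true) (by omega)
          refine ⟨E0 ∪ E1, union_subset (hE0s.trans (filter_subset _ _))
            (hE1s.trans (filter_subset _ _)), ?_, ?_⟩
          · rw [binSum_succ]
            exact (card_union_le _ _).trans (add_le_add hE0 hE1)
          · intro f hf hfE z hz
            have h3 := hE0' f hf fun z hz => hfE z (mem_union_left _ hz)
            cases hzv : z v
            · exact h3 z (mem_filter.2 ⟨hz, hzv⟩)
            · obtain ⟨p, hp⟩ : (G.filter fun x => x v = false).Nonempty := by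
                rw [← card_pos]
                have h4 := card_pos.2 ⟨x, hx⟩
                omega
              obtain ⟨q, hq⟩ : (G.filter fun x => x v = true).Nonempty := ⟨z, mem_filter.2 ⟨hz, hzv⟩⟩
              have hp' := mem_filter.1 hp
              have hq' := mem_filter.1 hq
              have h5 : ∀ y ∈ G.filter (fun x => x v = true), f (pls y (pls p q)) = 0 := by
                intro y hy
                have hy' := mem_filter.1 hy
                have h6 : pls y (pls p q) = add3 y p q := rfl
                rw [h6]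
                refine h3 _ (mem_filter.2 ⟨hG y hy'.1 p hp'.1 q hq'.1, ?_⟩)
                show xor (y v) (xor (p v) (q v)) = false
                rw [hy'.2, hp'.2, hq'.2]
                rfl
              have h7 := hE1' (fun z => f z + f (pls z (pls p q))) (hf _) (fun y hy => by
                have h8 := hE1s hy
                show f y + f (pls y (pls p q)) = 0
                rw [h5 y h8, add_zero]
                exact hfE y (mem_union_right _ hy)) z (mem_filter.2 ⟨hz, hzv⟩)
              have h9 : f z + f (pls z (pls p q)) = 0 := h7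
              rw [h5 z (mem_filter.2 ⟨hz, hzv⟩), add_zero] at h9
              exact h9

/-- A function of small degree that vanishes on the other vertices of a cube. -/
theorem cube {κ : Type*} [DecidableEq κ] {G : Finset (W → Bool)} (hG : IsAff G)
    (t : κ → (W → Bool) → Bool) (b : κ → Bool)
    (ht : ∀ j x y z, t j (add3 x y z) = xor (t j x) (xor (t j y) (t j z)))
    (y : κ → W → Bool) (hy : ∀ j, y j ∈ G) (hyj : ∀ j, t j (y j) = b j)
    (hyj' : ∀ j j', j' ≠ j → t j' (y j) = !b j') {z0 : W → Bool} (hz0 : z0 ∈ G)
    (hz : ∀ j, t j z0 = !b j) (J : Finset κ) :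
    ∀ f : (W → Bool) → ZMod 2, Deg J.card f → (∀ z ∈ G, (∃ j ∈ J, t j z = b j) → f z = 0) →
      f z0 = 0 := by
  induction J using Finset.induction_on with
  | empty => exact fun f hf _ => hf z0
  | insert j J hj ih =>
    intro f hf hf0
    rw [card_insert_of_notMem hj] at hf
    have h1 := ih (fun z => f z + f (pls z (pls z0 (y j)))) (hf _) (fun z hzG hzJ => by
      obtain ⟨i, hi, hiz⟩ := hzJ
      have h2 : f z = 0 := hf0 z hzG ⟨i, mem_insert_of_mem hi, hiz⟩
      have h3 : f (pls z (pls z0 (y j))) = 0 := by
        refine hf0 _ (hG z hzG z0 hz0 (y j) (hy j)) ⟨i, mem_insert_of_mem hi, ?_⟩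
        have h4 : t i (pls z (pls z0 (y j))) = xor (t i z) (xor (t i z0) (t i (y j))) :=
          ht i z z0 (y j)
        rw [h4, hiz, hz i, hyj' j i (fun h => hj (h ▸ hi))]
        cases b i <;> rfl
      show f z + f (pls z (pls z0 (y j))) = 0
      rw [h2, h3, add_zero])
    have h5 : pls z0 (pls z0 (y j)) = y j := by
      funext v
      unfold pls
      cases z0 v <;> cases y j v <;> rfl
    have h6 : f z0 + f (pls z0 (pls z0 (y j))) = 0 := h1
    rw [h5, hf0 (y j) (hy j) ⟨j, mem_insert_self _ _, hyj j⟩, add_zero] at h6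
    exact h6

/-- A nonzero function of degree less than `D` that vanishes on given affine sets. On every affine
set on which it does not vanish, it does not vanish on the part given by one of `D` independent
affine functions. -/
theorem exists_poly {D g : ℕ} (GG : Finset (Finset (W → Bool)))
    (hG : ∀ G ∈ GG, IsAff G ∧ G.card ≤ 2 ^ g)
    (hcount : GG.card * binSum g D < binSum (Fintype.card W) D) :
    ∃ f : (W → Bool) → Bool, (∃ z, f z = true) ∧ (∀ G ∈ GG, ∀ z ∈ G, f z = false) ∧
      ∀ (G : Finset (W → Bool)) (t : Fin D → (W → Bool) → Bool) (b : Fin D → Bool), IsAff G →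
        (∀ j x y z, t j (add3 x y z) = xor (t j x) (xor (t j y) (t j z))) →
        (∀ j, ∃ y ∈ G, t j y = b j ∧ ∀ j', j' ≠ j → t j' y = !b j') →
        (∃ z ∈ G, f z = true) → ∃ j, ∃ z ∈ G, t j z = b j ∧ f z = true := by
  classical
  have hE : ∀ G, ∃ E : Finset (W → Bool), G ∈ GG → E.card ≤ binSum g D ∧
      ∀ f : (W → Bool) → ZMod 2, Deg D f → (∀ z ∈ E, f z = 0) → ∀ z ∈ G, f z = 0 := by
    intro G
    by_cases h : G ∈ GG
    · obtain ⟨E, -, h1, h2⟩ := few_points g D G (hG G h).1 (hG G h).2
      exact ⟨E, fun _ => ⟨h1, h2⟩⟩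
    · exact ⟨∅, fun h' => absurd h' h⟩
  choose E hE using hE
  obtain ⟨P, hP⟩ : ∃ P, P = GG.biUnion E := ⟨_, rfl⟩
  have hPc : P.card < Fintype.card {S : Finset W // S.card < D} := by
    rw [card_mon, hP]
    refine lt_of_le_of_lt ?_ hcount
    exact card_biUnion_le_card_mul _ _ _ fun G hG' => (hE G hG').1
  obtain ⟨a, a', haa', heq⟩ := Fintype.exists_ne_map_eq_of_card_lt
    (fun (a : {S : Finset W // S.card < D} → ZMod 2) (z : {z // z ∈ P}) => pv D a z.1) (by
      rw [Fintype.card_fun, Fintype.card_fun, ZMod.card, Fintype.card_coe]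
      exact Nat.pow_lt_pow_right (by norm_num) hPc)
  obtain ⟨f, hf⟩ : ∃ f, f = pv D (fun S => a S - a' S) := ⟨_, rfl⟩
  have hfsub : ∀ z, f z = pv D a z - pv D a' z := by
    intro z
    rw [hf]
    unfold pv
    rw [← sum_sub_distrib]
    exact sum_congr rfl fun S _ => sub_mul _ _ _
  have hfD : Deg D f := by
    rw [hf]
    exact deg_pv D _
  have hfP : ∀ z ∈ P, f z = 0 := by
    intro z hz
    have h1 := congrFun heq ⟨z, hz⟩
    rw [hfsub z]
    exact sub_eq_zero.2 h1
  have hne : ∃ z, f z ≠ 0 := by
    rw [hf]
    refine pv_ne ?_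
    obtain ⟨S, hS⟩ := Function.ne_iff.1 haa'
    exact ⟨S, sub_ne_zero.2 hS⟩
  refine ⟨fun z => decide (f z ≠ 0), ?_, ?_, ?_⟩
  · obtain ⟨z, hz⟩ := hne
    exact ⟨z, decide_eq_true hz⟩
  · intro G hGG z hz
    have h1 : f z = 0 := (hE G hGG).2 f hfD (fun y hy => hfP y (by
      rw [hP]
      exact mem_biUnion.2 ⟨G, hGG, hy⟩)) z hz
    exact decide_eq_false (not_not.2 h1)
  · intro G t b hGa ht hy ⟨z0, hz0, hfz0⟩
    choose y hy using hy
    by_contra hcon
    push Not at hcon
    have h0 : ∀ z ∈ G, (∃ j ∈ (univ : Finset (Fin D)), t j z = b j) → f z = 0 := by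
      rintro z hz ⟨j, -, hj⟩
      have h1 := hcon j z hz hj
      by_contra h2
      exact h1 (decide_eq_true h2)
    have hfz0' : f z0 ≠ 0 := of_decide_eq_true hfz0
    refine hfz0' (cube hGa t b ht y (fun j => (hy j).1) (fun j => (hy j).2.1)
      (fun j j' hjj' => (hy j).2.2 j' hjj') hz0 (fun j => ?_) univ f ?_ h0)
    · by_contra h1
      refine hfz0' (h0 z0 hz0 ⟨j, mem_univ _, ?_⟩)
      revert h1
      cases t j z0 <;> cases b j <;> simp
    · rw [card_univ, Fintype.card_fin]
      exact hfD

end Pool.Agent.MP_9cec2c_lc.ParTrade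
end
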