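import Pool.Agent.Lib.MP_9cec2c_lc.Mg.G044

section

/-!
Approximation of a disjunction of functions of small degree by a product, up to a set of points of
small rank.
-/

set_option autoImplicit false
set_option linter.unusedSectionVars false

namespace Pool.Agent.MP_9cec2c_lc.ResPoly

open Finset

variable {n : ℕ} (K : Type) [Field K]

/-- A set of points with free values for the functions of a space. -/
theorem exists_free {X : Type} [Fintype X] [DecidableEq X] (V : Submodule K (X → K)) :
    ∃ B : Finset X, Module.finrank K V ≤ B.card ∧ ∀ a : X → K, ∃ f ∈ V, ∀ x ∈ B, f x = a x := by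
  classical
  obtain ⟨P, hP⟩ : ∃ P : Finset (Finset X), P = (univ : Finset (Finset X)).filter fun B =>
      ∀ a : X → K, ∃ f ∈ V, ∀ x ∈ B, f x = a x := ⟨_, rfl⟩
  have hne : P.Nonempty := ⟨∅, by
    rw [hP, mem_filter]
    exact ⟨mem_univ _, fun a => ⟨0, V.zero_mem, fun x hx => absurd hx (notMem_empty x)⟩⟩⟩
  obtain ⟨B, hB, hmax⟩ := exists_max_image P card hne
  rw [hP, mem_filter] at hB
  refine ⟨B, ?_, hB.2⟩
  have hinj : ∀ f ∈ V, (∀ x ∈ B, f x = 0) → f = 0 := by
    intro f hf hf0
    by_contra hne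
    obtain ⟨y, hy⟩ := Function.ne_iff.1 hne
    have hyB : y ∉ B := fun h => hy (hf0 y h)
    have h1 : insert y B ∈ P := by
      rw [hP, mem_filter]
      refine ⟨mem_univ _, fun a => ?_⟩
      obtain ⟨g, hg, hga⟩ := hB.2 a
      refine ⟨g + ((a y - g y) * (f y)⁻¹) • f, V.add_mem hg (V.smul_mem _ hf), fun x hx => ?_⟩
      rw [Pi.add_apply, Pi.smul_apply, smul_eq_mul]
      rcases mem_insert.1 hx with rfl | hx
      · rw [mul_assoc, inv_mul_cancel₀ hy, mul_one]
        ring
      · rw [hf0 x hx, mul_zero, add_zero, hga x hx]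
    have h2 := hmax _ h1
    rw [card_insert_of_notMem hyB] at h2
    omega
  let r : V →ₗ[K] (B → K) := (LinearMap.funLeft K K (Subtype.val : B → X)).comp V.subtype
  have hr : Function.Injective r := by
    rw [← LinearMap.ker_eq_bot, LinearMap.ker_eq_bot']
    rintro ⟨f, hf⟩ h0
    refine Subtype.ext (hinj f hf fun x hx => ?_)
    exact congrFun h0 ⟨x, hx⟩
  have h3 := LinearMap.finrank_le_finrank_of_injective hr
  rwa [Module.finrank_fintype_fun_eq_card, Fintype.card_coe] at h3

theorem card_le_of_free {X : Type} [Fintype X] [DecidableEq X] {V : Submodule K (X → K)}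
    {B : Finset X} (h : ∀ a : X → K, ∃ f ∈ V, ∀ x ∈ B, f x = a x) :
    B.card ≤ Module.finrank K V := by
  classical
  let r : V →ₗ[K] (B → K) := (LinearMap.funLeft K K (Subtype.val : B → X)).comp V.subtype
  have hr : Function.Surjective r := by
    intro a
    obtain ⟨f, hf, hfa⟩ := h fun x => if hx : x ∈ B then a ⟨x, hx⟩ else 0
    refine ⟨⟨f, hf⟩, ?_⟩
    funext x
    have h1 := hfa x.1 x.2
    rw [dif_pos x.2] at h1
    exact h1
  have h3 := LinearMap.finrank_le_finrank_of_surjective hr
  rwa [Module.finrank_fintype_fun_eq_card, Fintype.card_coe] at h3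

theorem cut_cut (E F : Set (Fin n → Bool)) (f : (Fin n → Bool) → K) :
    cut K F (cut K E f) = cut K (E ∩ F) f := by
  funext x
  by_cases hF : x ∈ F
  · by_cases hE : x ∈ E
    · rw [cut_of_mem K hF, cut_of_mem K hE, cut_of_mem K (⟨hE, hF⟩ : x ∈ E ∩ F)]
    · rw [cut_of_mem K hF, cut_of_notMem K hE, cut_of_notMem K fun h : x ∈ E ∩ F => hE h.1]
  · rw [cut_of_notMem K hF, cut_of_notMem K fun h : x ∈ E ∩ F => hF h.2]

theorem map_cut_cut (E F : Set (Fin n → Bool)) (V : Submodule K ((Fin n → Bool) → K)) :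
    (V.map (cut K E)).map (cut K F) = V.map (cut K (E ∩ F)) := by
  rw [← Submodule.map_comp]
  congr 1
  ext f x
  exact congrFun (cut_cut K E F _) x

/-- The ranks of the two parts given by a function of degree at most `t`. -/
theorem rk_split (E : Set (Fin n → Bool)) {t : ℕ} (d : ℕ) {q : (Fin n → Bool) → K}
    (hq : q ∈ Poly K n t) :
    rk K (E ∩ {x | q x = 0}) (d + t) + rk K (E ∩ {x | q x ≠ 0}) d ≤ rk K E (d + t) := by
  have h1 := LinearMap.finrank_range_add_finrank_ker
    ((cut K {x | q x = 0}).domRestrict ((Poly K n (d + t)).map (cut K E)))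
  rw [LinearMap.range_domRestrict, map_cut_cut] at h1
  have h2 : rk K (E ∩ {x | q x ≠ 0}) d ≤ Module.finrank K (LinearMap.ker
      ((cut K {x | q x = 0}).domRestrict ((Poly K n (d + t)).map (cut K E)))) := by
    unfold rk
    have hmem : ∀ f ∈ (Poly K n d).map (cut K (E ∩ {x | q x ≠ 0})),
        q * f ∈ (Poly K n (d + t)).map (cut K E) := by
      intro f hf
      obtain ⟨p, hp, rfl⟩ := Submodule.mem_map.1 hf
      refine Submodule.mem_map.2 ⟨p * q, Poly_mul K hp hq, ?_⟩
      funext x
      by_cases hE : x ∈ E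
      · rw [cut_of_mem K hE, Pi.mul_apply, Pi.mul_apply]
        by_cases hqx : q x = 0
        · rw [hqx, mul_zero, zero_mul]
        · rw [cut_of_mem K (⟨hE, hqx⟩ : x ∈ E ∩ {x | q x ≠ 0}), mul_comm]
      · rw [cut_of_notMem K hE, Pi.mul_apply, cut_of_notMem K fun h : x ∈ E ∩ _ => hE h.1,
          mul_zero]
    have hker : ∀ f (hf : f ∈ (Poly K n d).map (cut K (E ∩ {x | q x ≠ 0}))),
        (⟨q * f, hmem f hf⟩ : (Poly K n (d + t)).map (cut K E)) ∈ LinearMap.ker
          ((cut K {x | q x = 0}).domRestrict ((Poly K n (d + t)).map (cut K E))) := by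
      intro f hf
      rw [LinearMap.mem_ker]
      change cut K {x | q x = 0} (q * f) = 0
      funext x
      by_cases hqx : q x = 0
      · rw [cut_of_mem K (hqx : x ∈ {x | q x = 0}), Pi.mul_apply, hqx, zero_mul]
        rfl
      · rw [cut_of_notMem K (hqx : x ∉ {x | q x = 0})]
        rfl
    let φ : (Poly K n d).map (cut K (E ∩ {x | q x ≠ 0})) →ₗ[K] LinearMap.ker
        ((cut K {x | q x = 0}).domRestrict ((Poly K n (d + t)).map (cut K E))) :=
      { toFun := fun f => ⟨⟨q * f.1, hmem f.1 f.2⟩, hker f.1 f.2⟩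
        map_add' := fun f g => Subtype.ext (Subtype.ext (mul_add q f.1 g.1))
        map_smul' := fun c f => Subtype.ext (Subtype.ext (mul_smul_comm c q f.1)) }
    refine LinearMap.finrank_le_finrank_of_injective (f := φ) ?_
    rintro ⟨f, hf⟩ ⟨g, hg⟩ hfg
    have h3 : q * f = q * g := congrArg (fun z => z.1.1) hfg
    refine Subtype.ext ?_
    obtain ⟨p, hp, rfl⟩ := Submodule.mem_map.1 hf
    obtain ⟨p', hp', rfl⟩ := Submodule.mem_map.1 hg
    funext x
    by_cases hx : x ∈ E ∩ {x | q x ≠ 0}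
    · have h4 := congrFun h3 x
      rw [Pi.mul_apply, Pi.mul_apply] at h4
      exact mul_left_cancel₀ hx.2 h4
    · change cut K _ p x = cut K _ p' x
      rw [cut_of_notMem K hx, cut_of_notMem K hx]
  unfold rk at h2 ⊢
  omega

variable [Fintype K]

/-- A combination of the functions in `G` that cuts a large part of `E`. -/
theorem exists_half (E : Set (Fin n → Bool)) (d : ℕ) (G : Set ((Fin n → Bool) → K))
    (hE : ∀ x ∈ E, ∃ g ∈ G, g x ≠ 0) :
    ∃ q ∈ Submodule.span K G, rk K E d ≤ 2 * rk K (E ∩ {x | q x ≠ 0}) d := by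
  classical
  obtain ⟨B, hB, hfree⟩ := exists_free K ((Poly K n d).map (cut K E))
  have hBE : ∀ x ∈ B, x ∈ E := by
    intro x hx
    by_contra hcon
    obtain ⟨f, hf, hfx⟩ := hfree 1
    obtain ⟨p, -, rfl⟩ := Submodule.mem_map.1 hf
    have h1 := hfx x hx
    rw [cut_of_notMem K hcon] at h1
    exact zero_ne_one h1
  obtain ⟨Q, hQ⟩ : ∃ Q : Finset ((Fin n → Bool) → K), Q = univ.filter fun q =>
      q ∈ Submodule.span K G := ⟨_, rfl⟩
  have h1 : ∀ x ∈ B, Q.card ≤ 2 * (Q.filter fun q => q x ≠ 0).card := by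
    intro x hx
    obtain ⟨g, hg, hgx⟩ := hE x (hBE x hx)
    have h2 : (Q.filter fun q => ¬ q x ≠ 0).card ≤ (Q.filter fun q => q x ≠ 0).card := by
      refine card_le_card_of_injOn (fun q => q + g) (fun q hq => ?_)
        (fun q _ q' _ h => add_right_cancel h)
      have h3 := mem_filter.1 (mem_coe.1 hq)
      rw [hQ, mem_filter] at h3
      refine mem_coe.2 (mem_filter.2 ⟨?_, ?_⟩)
      · rw [hQ, mem_filter]
        exact ⟨mem_univ _, Submodule.add_mem _ h3.1.2 (Submodule.subset_span hg)⟩
      · change q x + g x ≠ 0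
        rw [not_not.1 h3.2, zero_add]
        exact hgx
    have h4 := card_filter_add_card_filter_not (s := Q) (fun q : (Fin n → Bool) → K => q x ≠ 0)
    omega
  have h2 : ∃ q ∈ Q, B.card ≤ 2 * (B.filter fun x => q x ≠ 0).card := by
    by_contra hcon
    push Not at hcon
    have hQne : Q.Nonempty := ⟨0, by
      rw [hQ, mem_filter]
      exact ⟨mem_univ _, Submodule.zero_mem _⟩⟩
    have h3 : ∑ q ∈ Q, 2 * (B.filter fun x => q x ≠ 0).card < ∑ q ∈ Q, B.card :=
      sum_lt_sum_of_nonempty hQne hcon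
    have h4 : ∑ x ∈ B, Q.card ≤ ∑ x ∈ B, 2 * (Q.filter fun q => q x ≠ 0).card :=
      sum_le_sum h1
    have h5 : ∑ q ∈ Q, (B.filter fun x => q x ≠ 0).card =
        ∑ x ∈ B, (Q.filter fun q => q x ≠ 0).card := by
      simp_rw [card_filter]
      exact sum_comm
    rw [← mul_sum, sum_const, smul_eq_mul] at h3 h4
    rw [h5] at h3
    have h6 : Q.card * B.card = B.card * Q.card := mul_comm _ _
    omega
  obtain ⟨q, hq, hqB⟩ := h2
  rw [hQ, mem_filter] at hq
  refine ⟨q, hq.2, ?_⟩
  have h3 : (B.filter fun x => q x ≠ 0).card ≤ rk K (E ∩ {x | q x ≠ 0}) d := by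
    refine card_le_of_free K fun a => ?_
    obtain ⟨f, hf, hfa⟩ := hfree a
    obtain ⟨p, hp, rfl⟩ := Submodule.mem_map.1 hf
    refine ⟨cut K (E ∩ {x | q x ≠ 0}) p, Submodule.mem_map_of_mem hp, fun x hx => ?_⟩
    obtain ⟨hxB, hqx⟩ := mem_filter.1 hx
    rw [cut_of_mem K (⟨hBE x hxB, hqx⟩ : x ∈ E ∩ {x | q x ≠ 0}), ← hfa x hxB,
      cut_of_mem K (hBE x hxB)]
  have h4 : rk K E d ≤ B.card := hB
  omega

theorem span_le_Poly {t : ℕ} {G : Set ((Fin n → Bool) → K)} (hG : ∀ g ∈ G, g ∈ Poly K n t)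
    {q : (Fin n → Bool) → K} (hq : q ∈ Submodule.span K G) : q ∈ Poly K n t :=
  (Submodule.span_le.2 hG) hq

/-- Combinations of the functions in `G` whose common zeros outside the zeros of `G` have small
rank. -/
theorem exists_cuts {t : ℕ} (e : ℕ) {G : Set ((Fin n → Bool) → K)}
    (hG : ∀ g ∈ G, g ∈ Poly K n t) (k : ℕ) :
    ∃ q : Fin k → (Fin n → Bool) → K, (∀ j, q j ∈ Submodule.span K G) ∧
      (2 * ((e + 1) ^ t + n ^ t)) ^ k *
          rk K {x | (∃ g ∈ G, g x ≠ 0) ∧ ∀ j, q j x = 0} (e + 2 * t) ≤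
        ((e + 1) ^ t + 2 * n ^ t) ^ k * ∑ i ∈ range (e + 2 * t + 1), n.choose i := by
  induction k with
  | zero =>
    refine ⟨fun j => j.elim0, fun j => j.elim0, ?_⟩
    rw [pow_zero, pow_zero, one_mul, one_mul]
    exact rk_le K _ _
  | succ k ih =>
    obtain ⟨q, hq, hrk⟩ := ih
    obtain ⟨E, hE⟩ : ∃ E : Set (Fin n → Bool), E = {x | (∃ g ∈ G, g x ≠ 0) ∧ ∀ j, q j x = 0} :=
      ⟨_, rfl⟩
    rw [← hE] at hrk
    obtain ⟨p, hp, hp2⟩ := exists_half K E (e + t) G fun x hx => by
      rw [hE] at hx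
      exact hx.1
    refine ⟨Fin.snoc q p, fun j => ?_, ?_⟩
    · refine Fin.lastCases ?_ (fun j => ?_) j
      · rw [Fin.snoc_last]
        exact hp
      · rw [Fin.snoc_castSucc]
        exact hq j
    · have h1 : {x | (∃ g ∈ G, g x ≠ 0) ∧ ∀ j, (Fin.snoc q p : Fin (k + 1) → _) j x = 0} =
          E ∩ {x | p x = 0} := by
        rw [hE]
        ext x
        constructor
        · rintro ⟨h2, h3⟩
          refine ⟨⟨h2, fun j => ?_⟩, ?_⟩
          · have := h3 j.castSucc
            rwa [Fin.snoc_castSucc] at this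
          · have := h3 (Fin.last k)
            rwa [Fin.snoc_last] at this
        · rintro ⟨⟨h2, h3⟩, h4⟩
          refine ⟨h2, fun j => ?_⟩
          refine Fin.lastCases ?_ (fun j => ?_) j
          · rw [Fin.snoc_last]
            exact h4
          · rw [Fin.snoc_castSucc]
            exact h3 j
      rw [h1]
      have h2 := rk_split K E (e + t) (span_le_Poly K hG hp)
      have h3 := rk_ratio K E e t
      have h4 : e + t + t = e + 2 * t := by ring
      rw [h4] at h2
      have h5 : 2 * ((e + 1) ^ t + n ^ t) * rk K (E ∩ {x | p x = 0}) (e + 2 * t) ≤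
          ((e + 1) ^ t + 2 * n ^ t) * rk K E (e + 2 * t) := by
        obtain ⟨a, ha⟩ : ∃ a, a = (e + 1) ^ t := ⟨_, rfl⟩
        obtain ⟨b, hb⟩ : ∃ b, b = n ^ t := ⟨_, rfl⟩
        rw [← ha, ← hb] at h3 ⊢
        obtain ⟨r0, hr0⟩ : ∃ r0, r0 = rk K (E ∩ {x | p x = 0}) (e + 2 * t) := ⟨_, rfl⟩
        obtain ⟨r1, hr1⟩ : ∃ r1, r1 = rk K (E ∩ {x | p x ≠ 0}) (e + t) := ⟨_, rfl⟩
        obtain ⟨r, hr⟩ : ∃ r, r = rk K E (e + 2 * t) := ⟨_, rfl⟩
        obtain ⟨s, hs⟩ : ∃ s, s = rk K E (e + t) := ⟨_, rfl⟩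
        rw [← hr0, ← hr1, ← hr] at h2
        rw [← hr, ← hs] at h3
        rw [← hs, ← hr1] at hp2
        rw [← hr0, ← hr]
        have h6 : (a + b) * s ≤ (a + b) * (2 * r1) := Nat.mul_le_mul_left _ hp2
        have h7 : (a + b) * (r0 + r1) ≤ (a + b) * r := Nat.mul_le_mul_left _ h2
        nlinarith
      calc (2 * ((e + 1) ^ t + n ^ t)) ^ (k + 1) * rk K (E ∩ {x | p x = 0}) (e + 2 * t)
          = (2 * ((e + 1) ^ t + n ^ t)) ^ k *
            (2 * ((e + 1) ^ t + n ^ t) * rk K (E ∩ {x | p x = 0}) (e + 2 * t)) := by ring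
        _ ≤ (2 * ((e + 1) ^ t + n ^ t)) ^ k *
            (((e + 1) ^ t + 2 * n ^ t) * rk K E (e + 2 * t)) := Nat.mul_le_mul_left _ h5
        _ = ((e + 1) ^ t + 2 * n ^ t) *
            ((2 * ((e + 1) ^ t + n ^ t)) ^ k * rk K E (e + 2 * t)) := by ring
        _ ≤ ((e + 1) ^ t + 2 * n ^ t) * (((e + 1) ^ t + 2 * n ^ t) ^ k *
            ∑ i ∈ range (e + 2 * t + 1), n.choose i) := Nat.mul_le_mul_left _ hrk
        _ = ((e + 1) ^ t + 2 * n ^ t) ^ (k + 1) *
            ∑ i ∈ range (e + 2 * t + 1), n.choose i := by ring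

theorem Poly_one (d : ℕ) : (1 : (Fin n → Bool) → K) ∈ Poly K n d := by
  have h : (1 : (Fin n → Bool) → K) = mon K ∅ := by
    funext x
    unfold mon
    rw [if_pos fun v hv => absurd hv (notMem_empty v)]
    rfl
  rw [h]
  exact mon_mem_Poly K (by rw [card_empty]; exact Nat.zero_le _)

theorem Poly_pow {t : ℕ} {q : (Fin n → Bool) → K} (hq : q ∈ Poly K n t) (m : ℕ) :
    q ^ m ∈ Poly K n (m * t) := by
  induction m with
  | zero =>
    rw [pow_zero]
    exact Poly_one K _
  | succ m ih =>
    rw [pow_succ, Nat.succ_mul]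
    exact Poly_mul K ih hq

theorem Poly_prod {κ : Type} (s : Finset κ) {t : ℕ} {q : κ → (Fin n → Bool) → K}
    (hq : ∀ j ∈ s, q j ∈ Poly K n t) : ∏ j ∈ s, q j ∈ Poly K n (s.card * t) := by
  classical
  induction s using Finset.induction_on with
  | empty =>
    rw [prod_empty]
    exact Poly_one K _
  | insert j s hj ih =>
    rw [prod_insert hj, card_insert_of_notMem hj, add_mul, one_mul, add_comm]
    exact Poly_mul K (hq j (mem_insert_self _ _)) (ih fun i hi => hq i (mem_insert_of_mem hi))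

/-- The approximation of a disjunction of functions of degree at most `t`. -/
theorem exists_approx {t : ℕ} (e : ℕ) {G : Set ((Fin n → Bool) → K)}
    (hG : ∀ g ∈ G, g ∈ Poly K n t) (k : ℕ) :
    ∃ N ∈ Poly K n (k * ((Fintype.card K - 1) * t)),
      (∀ x, N x = 0 ∨ N x = 1) ∧ (∀ x, (∀ g ∈ G, g x = 0) → N x = 1) ∧
      (2 * ((e + 1) ^ t + n ^ t)) ^ k *
          rk K {x | (∃ g ∈ G, g x ≠ 0) ∧ N x ≠ 0} (e + 2 * t) ≤
        ((e + 1) ^ t + 2 * n ^ t) ^ k * ∑ i ∈ range (e + 2 * t + 1), n.choose i := by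
  classical
  obtain ⟨q, hq, hrk⟩ := exists_cuts K e hG k
  have h1 : ∀ x, (∏ j : Fin k, (1 - q j ^ (Fintype.card K - 1))) x =
      if ∀ j, q j x = 0 then 1 else 0 := by
    intro x
    rw [Finset.prod_apply]
    have hcard : Fintype.card K - 1 ≠ 0 := by
      have := Fintype.one_lt_card (α := K)
      omega
    split_ifs with h
    · refine prod_eq_one fun j _ => ?_
      rw [Pi.sub_apply, Pi.pow_apply, Pi.one_apply, h j, zero_pow hcard, sub_zero]
    · push Not at h
      obtain ⟨j, hj⟩ := h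
      refine prod_eq_zero (mem_univ j) ?_
      rw [Pi.sub_apply, Pi.pow_apply, Pi.one_apply, FiniteField.pow_card_sub_one_eq_one _ hj,
        sub_self]
  refine ⟨∏ j : Fin k, (1 - q j ^ (Fintype.card K - 1)), ?_, ?_, ?_, ?_⟩
  · have h2 := Poly_prod K (univ : Finset (Fin k)) (t := (Fintype.card K - 1) * t)
      (q := fun j => 1 - q j ^ (Fintype.card K - 1)) fun j _ =>
        Submodule.sub_mem _ (Poly_one K _) (Poly_pow K (span_le_Poly K hG (hq j)) _)
    rwa [card_univ, Fintype.card_fin] at h2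
  · intro x
    rw [h1]
    split_ifs
    · exact Or.inr rfl
    · exact Or.inl rfl
  · intro x hx
    rw [h1, if_pos]
    intro j
    have h3 : ∀ p ∈ Submodule.span K G, p x = 0 := by
      intro p hp
      induction hp using Submodule.span_induction with
      | mem g hg => exact hx g hg
      | zero => rfl
      | add f g _ _ hf hg => rw [Pi.add_apply, hf, hg, add_zero]
      | smul c f _ hf => rw [Pi.smul_apply, hf, smul_zero]
    exact h3 _ (hq j)
  · have h4 : {x | (∃ g ∈ G, g x ≠ 0) ∧ (∏ j : Fin k, (1 - q j ^ (Fintype.card K - 1))) x ≠ 0} =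
        {x | (∃ g ∈ G, g x ≠ 0) ∧ ∀ j, q j x = 0} := by
      ext x
      constructor
      · rintro ⟨h5, h6⟩
        refine ⟨h5, ?_⟩
        rw [h1] at h6
        by_contra hcon
        exact h6 (if_neg hcon)
      · rintro ⟨h5, h6⟩
        refine ⟨h5, ?_⟩
        rw [h1, if_pos h6]
        exact one_ne_zero
    rw [h4]
    exact hrk

omit [Fintype K] in
/-- A nonzero function in a large space that vanishes on sets of small rank. -/
theorem exists_zero {U : Type} (s : Finset U) (E : U → Set (Fin n → Bool)) {d : ℕ}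
    (S : Submodule K ((Fin n → Bool) → K)) (hS : S ≤ Poly K n d)
    (h : ∑ u ∈ s, rk K (E u) d < Module.finrank K S) :
    ∃ f ∈ S, f ≠ 0 ∧ ∀ u ∈ s, ∀ x ∈ E u, f x = 0 := by
  classical
  have key1 : ∀ s : Finset U, ∀ S : Submodule K ((Fin n → Bool) → K), S ≤ Poly K n d →
      ∑ u ∈ s, rk K (E u) d < Module.finrank K S →
      ∃ f ∈ S, f ≠ 0 ∧ ∀ u ∈ s, ∀ x ∈ E u, f x = 0 := by
    intro s
    induction s using Finset.induction_on with
    | empty =>
      intro S _ h
      rw [sum_empty] at h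
      have h1 : S ≠ ⊥ := by
        intro h0
        rw [h0, finrank_bot] at h
        exact lt_irrefl _ h
      obtain ⟨f, hf, hf0⟩ := (Submodule.ne_bot_iff S).1 h1
      exact ⟨f, hf, hf0, fun u hu => absurd hu (notMem_empty u)⟩
    | insert u s hu ih =>
      intro S hS h
      rw [sum_insert hu] at h
      have h1 := LinearMap.finrank_range_add_finrank_ker ((cut K (E u)).domRestrict S)
      rw [LinearMap.range_domRestrict] at h1
      have h2 : Module.finrank K (S.map (cut K (E u))) ≤ rk K (E u) d :=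
        Submodule.finrank_mono (Submodule.map_mono hS)
      have h3 : Module.finrank K (LinearMap.ker ((cut K (E u)).domRestrict S)) =
          Module.finrank K ((LinearMap.ker ((cut K (E u)).domRestrict S)).map S.subtype) :=
        (Submodule.finrank_map_subtype_eq _ _).symm
      obtain ⟨f, hf, hf0, hfE⟩ := ih ((LinearMap.ker ((cut K (E u)).domRestrict S)).map S.subtype)
        ((Submodule.map_subtype_le _ _).trans hS) (by omega)
      obtain ⟨⟨g, hgS⟩, hg, hgf⟩ := Submodule.mem_map.1 hf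
      have hgf' : g = f := hgf
      subst hgf'
      refine ⟨g, hgS, hf0, fun w hw x hx => ?_⟩
      rcases mem_insert.1 hw with rfl | hw
      · have h4 : cut K (E w) g = 0 := hg
        have h5 := congrFun h4 x
        rw [cut_of_mem K hx] at h5
        exact h5
      · exact hfE w hw x hx
  exact key1 s S hS h

end Pool.Agent.MP_9cec2c_lc.ResPoly
end

section

/-!
Refutations whose lines are combinations of terms: a lower bound on the number of terms.
-/

set_option autoImplicit false
set_option linter.unusedSectionVars false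

namespace Pool.Agent.MP_9cec2c_lc.ResPoly

open Finset

variable {n : ℕ} (K : Type) [Field K]

open Classical in
/-- The term of `G`: the indicator of the common zeros of the functions in `G`. -/
noncomputable def term (G : Set ((Fin n → Bool) → K)) (x : Fin n → Bool) : K :=
  if ∀ g ∈ G, g x = 0 then 1 else 0

variable [Fintype K]

/-- A function that hides the errors of the approximations of all terms. -/
theorem exists_mult {U : Type} [Fintype U] {t e k : ℕ} {G : U → Set ((Fin n → Bool) → K)}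
    (hG : ∀ u, ∀ g ∈ G u, g ∈ Poly K n t) (S : Submodule K ((Fin n → Bool) → K))
    (hS : S ≤ Poly K n (e + 2 * t))
    (hcount : Fintype.card U * (((e + 1) ^ t + 2 * n ^ t) ^ k *
      ∑ i ∈ range (e + 2 * t + 1), n.choose i) <
        (2 * ((e + 1) ^ t + n ^ t)) ^ k * Module.finrank K S) :
    ∃ f ∈ S, f ≠ 0 ∧ ∀ u, ∃ N ∈ Poly K n (k * ((Fintype.card K - 1) * t)),
      f * term K (G u) = f * N := by
  classical
  have h1 := fun u => exists_approx K e (hG u) k
  choose N hN hN01 hN1 hrk using h1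
  obtain ⟨f, hfS, hf0, hfE⟩ := exists_zero K (univ : Finset U)
    (fun u => {x | (∃ g ∈ G u, g x ≠ 0) ∧ N u x ≠ 0}) S hS (by
      have h2 : (2 * ((e + 1) ^ t + n ^ t)) ^ k *
          ∑ u : U, rk K {x | (∃ g ∈ G u, g x ≠ 0) ∧ N u x ≠ 0} (e + 2 * t) <
          (2 * ((e + 1) ^ t + n ^ t)) ^ k * Module.finrank K S := by
        refine lt_of_le_of_lt ?_ hcount
        rw [mul_sum, ← card_univ (α := U), ← smul_eq_mul (card (univ : Finset U))]
        exact sum_le_card_nsmul _ _ _ fun u _ => hrk u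
      exact Nat.lt_of_mul_lt_mul_left h2)
  refine ⟨f, hfS, hf0, fun u => ⟨N u, hN u, ?_⟩⟩
  funext x
  rw [Pi.mul_apply, Pi.mul_apply]
  unfold term
  split_ifs with h
  · rw [hN1 u x h]
  · push Not at h
    rw [mul_zero]
    rcases hN01 u x with h2 | h2
    · rw [h2, mul_zero]
    · rw [hfE u (mem_univ u) x ⟨h, by rw [h2]; exact one_ne_zero⟩, zero_mul]

/-- The general lower bound for the number of terms. -/
theorem no_refutation {U ι : Type} [Fintype U] {t e k b w D : ℕ}
    {G : U → Set ((Fin n → Bool) → K)} (hG : ∀ u, ∀ g ∈ G u, g ∈ Poly K n t)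
    (J S : Submodule K ((Fin n → Bool) → K)) (hS : S ≤ Poly K n (e + 2 * t))
    (hSJ : ∀ f ∈ S, f ∈ J → f = 0)
    (hJ : ∀ (a b : ℕ) (p g : (Fin n → Bool) → K), a + b ≤ D → p ∈ J → p ∈ Poly K n a →
      g ∈ Poly K n b → p * g ∈ J)
    (ax : ι → (Fin n → Bool) → K) (haxJ : ∀ c, ax c ∈ J) (haxw : ∀ c, ax c ∈ Poly K n w)
    (hax01 : ∀ c x, ax c x = 0 ∨ ax c x = 1)
    (hcount : Fintype.card U * (((e + 1) ^ t + 2 * n ^ t) ^ k *
      ∑ i ∈ range (e + 2 * t + 1), n.choose i) <
        (2 * ((e + 1) ^ t + n ^ t)) ^ k * Module.finrank K S)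
    (hD1 : e + 2 * t + k * ((Fintype.card K - 1) * t) *
      (1 + b * (Fintype.card K - 1)) ≤ D)
    (hD2 : e + 2 * t + k * ((Fintype.card K - 1) * t) + w ≤ D)
    {N : ℕ} (L : Fin N → (Fin n → Bool) → K)
    (hL : ∀ i, L i ∈ Submodule.span K (Set.range fun u => term K (G u)))
    (hstep : ∀ i, (∃ c, ∀ x, ax c x = 0 → L i x = 0) ∨
      ∃ s : Finset (Fin N), s.card ≤ b ∧ (∀ j ∈ s, j < i) ∧
        ∀ x, (∀ j ∈ s, L j x = 0) → L i x = 0)
    (hend : ∃ i, ∀ x, L i x ≠ 0) (hb : 1 ≤ b) : False := by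
  classical
  obtain ⟨f, hfS, hf0, hfN⟩ := exists_mult K hG S hS hcount
  obtain ⟨q, hq⟩ : ∃ q, q = Fintype.card K := ⟨_, rfl⟩
  obtain ⟨τ, hτ⟩ : ∃ τ, τ = k * ((Fintype.card K - 1) * t) := ⟨_, rfl⟩
  rw [← hτ] at hfN hD1 hD2
  rw [← hq] at hD1
  have hq2 : 2 ≤ q := by
    rw [hq]
    exact Fintype.one_lt_card
  obtain ⟨d, hd⟩ : ∃ d, d = e + 2 * t := ⟨_, rfl⟩
  rw [← hd] at hS hD1 hD2
  have hfd : f ∈ Poly K n d := hS hfS
  -- approximations of the lines
  have happ : ∀ i, ∃ P ∈ Poly K n τ, f * L i = f * P := by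
    intro i
    have h1 : ∀ P ∈ Submodule.span K (Set.range fun u => term K (G u)),
        ∃ P' ∈ Poly K n τ, f * P = f * P' := by
      intro P hP
      induction hP using Submodule.span_induction with
      | mem g hg =>
        obtain ⟨u, rfl⟩ := hg
        exact hfN u
      | zero => exact ⟨0, Submodule.zero_mem _, rfl⟩
      | add g h _ _ hg hh =>
        obtain ⟨g', hg', hg2⟩ := hg
        obtain ⟨h', hh', hh2⟩ := hh
        exact ⟨g' + h', Submodule.add_mem _ hg' hh', by rw [mul_add, mul_add, hg2, hh2]⟩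
      | smul c g _ hg =>
        obtain ⟨g', hg', hg2⟩ := hg
        exact ⟨c • g', Submodule.smul_mem _ _ hg', by
          rw [mul_smul_comm, mul_smul_comm, hg2]⟩
    exact h1 _ (hL i)
  choose P hP hfP using happ
  have hpt : ∀ i x, f x ≠ 0 → L i x = P i x := by
    intro i x hx
    have h1 := congrFun (hfP i) x
    rw [Pi.mul_apply, Pi.mul_apply] at h1
    exact mul_left_cancel₀ hx h1
  have hfL : ∀ i, f * L i ∈ Poly K n (d + τ) := by
    intro i
    rw [hfP i]
    exact Poly_mul K hfd (hP i)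
  have hpow : ∀ y : K, y ≠ 0 → y ^ (q - 1) = 1 := fun y hy => by
    rw [hq]
    exact FiniteField.pow_card_sub_one_eq_one y hy
  have hmulq : ∀ y : K, y * y ^ (q - 2) = y ^ (q - 1) := fun y => by
    rw [← pow_succ']
    congr 1
    omega
  -- all lines are derived
  have hmem : ∀ m : ℕ, ∀ i : Fin N, (i : ℕ) = m → f * L i ∈ J := by
    intro m
    induction m using Nat.strong_induction_on with
    | _ m ih =>
      intro i him
      rcases hstep i with ⟨c, hc⟩ | ⟨s, hsb, hsi, hs⟩
      · have h1 : f * L i = ax c * (f * L i) := by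
          funext x
          rw [Pi.mul_apply, Pi.mul_apply, Pi.mul_apply]
          rcases hax01 c x with h2 | h2
          · rw [hc x h2, mul_zero, mul_zero]
          · rw [h2, one_mul]
        rw [h1]
        exact hJ w (d + τ) _ _ (by omega) (haxJ c) (haxw c) (hfL i)
      · -- partial products
        have key : ∀ s' : Finset (Fin N), s' ⊆ s →
            f * (P i * (1 - ∏ j ∈ s', (1 - P j ^ (q - 1)))) ∈ J := by
          intro s'
          induction s' using Finset.induction_on with
          | empty =>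
            intro _
            rw [prod_empty, sub_self, mul_zero, mul_zero]
            exact Submodule.zero_mem _
          | insert j s' hj ih' =>
            intro hsub
            have h3 := ih' ((subset_insert j s').trans hsub)
            have hjs : j ∈ s := hsub (mem_insert_self _ _)
            have h4 : f * L j ∈ J := ih j (him ▸ hsi j hjs) j rfl
            have h5 : f * (P i * (1 - ∏ j ∈ insert j s', (1 - P j ^ (q - 1)))) =
                f * (P i * (1 - ∏ j ∈ s', (1 - P j ^ (q - 1)))) +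
                (f * L j) * (P i * (∏ j ∈ s', (1 - P j ^ (q - 1))) * P j ^ (q - 2)) := by
              rw [prod_insert hj]
              funext x
              simp only [Pi.mul_apply, Pi.add_apply, Pi.sub_apply, Pi.one_apply, Pi.pow_apply]
              by_cases hx : f x = 0
              · rw [hx]
                ring
              · rw [hpt j x hx]
                have h6 := hmulq (P j x)
                linear_combination (f x * P i x * (∏ j ∈ s', (1 - P j ^ (q - 1))) x) * (-h6)
            rw [h5]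
            refine Submodule.add_mem _ h3 ?_
            have hcard : s'.card + 1 ≤ b := by
              rw [← card_insert_of_notMem hj]
              exact (card_le_card hsub).trans hsb
            have hprod : ∏ j ∈ s', (1 - P j ^ (q - 1)) ∈ Poly K n (s'.card * ((q - 1) * τ)) :=
              Poly_prod K s' fun j _ => Submodule.sub_mem _ (Poly_one K _) (Poly_pow K (hP j) _)
            refine hJ (d + τ) (τ + s'.card * ((q - 1) * τ) + (q - 2) * τ) _ _ ?_ h4 (hfL j)
              (Poly_mul K (Poly_mul K (hP i) hprod) (Poly_pow K (hP j) _))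
            have h7 : (s'.card + 1) * ((q - 1) * τ) ≤ b * ((q - 1) * τ) :=
              Nat.mul_le_mul_right _ hcard
            have h8 : (q - 2) * τ + τ = (q - 1) * τ := by
              have : q - 1 = (q - 2) + 1 := by omega
              rw [this]
              ring
            have h9 : τ * (1 + b * (q - 1)) = τ + b * ((q - 1) * τ) := by ring
            rw [h9] at hD1
            rw [add_mul, one_mul] at h7
            omega
        have h10 := key s subset_rfl
        have h11 : f * L i = f * (P i * (1 - ∏ j ∈ s, (1 - P j ^ (q - 1)))) := by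
          funext x
          simp only [Pi.mul_apply, Pi.sub_apply, Pi.one_apply, Finset.prod_apply, Pi.pow_apply]
          by_cases hx : f x = 0
          · rw [hx, zero_mul, zero_mul]
          · rw [hpt i x hx]
            by_cases hall : ∀ j ∈ s, L j x = 0
            · have h12 := hs x hall
              rw [hpt i x hx] at h12
              rw [h12]
              ring
            · push Not at hall
              obtain ⟨j, hj, hjx⟩ := hall
              rw [hpt j x hx] at hjx
              have h13 : ∏ j ∈ s, (1 - P j x ^ (q - 1)) = 0 :=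
                prod_eq_zero hj (by rw [hpow _ hjx, sub_self])
              rw [h13]
              ring
        rw [h11]
        exact h10
  obtain ⟨i, hi⟩ := hend
  have h1 : f = (f * L i) * P i ^ (q - 2) := by
    funext x
    simp only [Pi.mul_apply, Pi.pow_apply]
    by_cases hx : f x = 0
    · rw [hx]
      ring
    · have h2 := hi x
      rw [hpt i x hx] at h2 ⊢
      rw [mul_assoc, hmulq, hpow _ h2, mul_one]
  refine hf0 (hSJ f hfS ?_)
  rw [h1]
  refine hJ (d + τ) ((q - 2) * τ) _ _ ?_ (hmem i i rfl) (hfL i) (Poly_pow K (hP i) _)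
  have h8 : (q - 2) * τ + τ = (q - 1) * τ := by
    have : q - 1 = (q - 2) + 1 := by omega
    rw [this]
    ring
  have h9 : τ * (1 + b * (q - 1)) = τ + b * ((q - 1) * τ) := by ring
  rw [h9] at hD1
  have h14 : 1 * ((q - 1) * τ) ≤ b * ((q - 1) * τ) := Nat.mul_le_mul_right _ hb
  omega

end Pool.Agent.MP_9cec2c_lc.ResPoly
end
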