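import Mathlib

section

/-!
Many sets avoid all traps.
-/

set_option autoImplicit false
set_option linter.unusedSectionVars false

namespace Pool.Agent.MP_9cec2c_lc.SumProd

open Finset

variable {n : ℕ}

theorem choose_sub_le {n D : ℕ} (hD : D ≤ n) (j : ℕ) (hj : j ≤ D) :
    n ^ j * (n - j).choose (D - j) ≤ D ^ j * n.choose D := by
  induction j with
  | zero => simp
  | succ j ih =>
    have h1 := ih (by omega)
    obtain ⟨a, ha⟩ : ∃ a, n - j = a + 1 := ⟨n - j - 1, by omega⟩
    obtain ⟨b, hb⟩ : ∃ b, D - j = b + 1 := ⟨D - j - 1, by omega⟩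
    have ha' : n - (j + 1) = a := by omega
    have hb' : D - (j + 1) = b := by omega
    rw [ha, hb] at h1
    rw [ha', hb']
    have h2 := Nat.add_one_mul_choose_eq a b
    have h3 : (b + 1) * n ≤ D * (a + 1) := by
      have e1 : b + 1 + j = D := by omega
      have e2 : a + 1 + j = n := by omega
      rw [← e1, ← e2]
      have e3 : b + 1 ≤ a + 1 := by omega
      have e4 : (b + 1) * (a + 1 + j) = (b + 1) * (a + 1) + (b + 1) * j := by ring
      have e5 : (b + 1 + j) * (a + 1) = (b + 1) * (a + 1) + (a + 1) * j := by ring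
      rw [e4, e5]
      exact Nat.add_le_add_left (Nat.mul_le_mul_right _ e3) _
    refine Nat.le_of_mul_le_mul_left (c := a + 1) ?_ (Nat.succ_pos a)
    calc (a + 1) * (n ^ (j + 1) * a.choose b) = n ^ j * n * ((a + 1) * a.choose b) := by ring
      _ = n ^ j * n * ((a + 1).choose (b + 1) * (b + 1)) := by rw [h2]
      _ = (n ^ j * (a + 1).choose (b + 1)) * ((b + 1) * n) := by ring
      _ ≤ (D ^ j * n.choose D) * (D * (a + 1)) := Nat.mul_le_mul h1 h3
      _ = (a + 1) * (D ^ (j + 1) * n.choose D) := by ring

/-- The number of sets of size `D` that contain `B`. -/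
theorem card_supersets (B : Finset (Fin n)) (D : ℕ) :
    ((powersetCard D (univ : Finset (Fin n))).filter fun T => B ⊆ T).card ≤
      (n - B.card).choose (D - B.card) := by
  classical
  have h1 : ((powersetCard D (univ : Finset (Fin n))).filter fun T => B ⊆ T).card ≤
      (powersetCard (D - B.card) (univ \ B)).card := by
    refine card_le_card_of_injOn (fun T => T \ B) (fun T hT => ?_) ?_
    · have hT' := mem_filter.1 (mem_coe.1 hT)
      rw [mem_powersetCard] at hT'
      refine mem_coe.2 (mem_powersetCard.2 ⟨sdiff_subset_sdiff hT'.1.1 (Subset.refl _), ?_⟩)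
      rw [card_sdiff_of_subset hT'.2, hT'.1.2]
    · intro T hT T' hT' h
      have h1 := (mem_filter.1 (mem_coe.1 hT)).2
      have h2 := (mem_filter.1 (mem_coe.1 hT')).2
      simp only at h
      rw [← sdiff_union_of_subset h1, h, sdiff_union_of_subset h2]
  rwa [card_powersetCard, card_sdiff_of_subset (subset_univ _), card_univ,
    Fintype.card_fin] at h1

/-- Many sets avoid all traps: a set `T1` that contains `B k` loses its elements in `R k`. -/
theorem count_good {d b : ℕ} {κ : Type*} (tr : Finset κ) (B R : κ → Finset (Fin n))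
    (good : Finset (Fin n) → Prop) [DecidablePred good]
    (hgood : ∀ T1 T : Finset (Fin n), T1.card = d + b → T ⊆ T1 →
      (∀ k ∈ tr, B k ⊆ T1 → Disjoint T (R k)) → good T)
    (hdb : d + b ≤ n) (hn : 0 < n)
    (hb : 2 * ∑ k ∈ tr, ((R k).card : ℝ) * (((d + b : ℕ) : ℝ) / n) ^ (B k).card ≤ b) :
    (n.choose d : ℝ) ≤ 2 * ((d + b).choose d) *
      (((powersetCard d (univ : Finset (Fin n))).filter good).card : ℝ) := by
  classical
  have hn' : (0 : ℝ) < n := by exact_mod_cast hn
  obtain ⟨D, hD⟩ : ∃ D, D = d + b := ⟨_, rfl⟩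
  obtain ⟨N1, hN1⟩ : ∃ N1, N1 = powersetCard D (univ : Finset (Fin n)) := ⟨_, rfl⟩
  have hN1c : N1.card = n.choose D := by
    rw [hN1, card_powersetCard, card_univ, Fintype.card_fin]
  obtain ⟨X, hX⟩ : ∃ X : Finset (Fin n) → Finset (Fin n),
      X = fun T1 => (tr.filter fun k => B k ⊆ T1).biUnion R := ⟨_, rfl⟩
  have hsup : ∀ k : κ, ((N1.filter fun T1 => B k ⊆ T1).card : ℝ) ≤
      ((D : ℝ) / n) ^ (B k).card * n.choose D := by
    intro k
    by_cases hk : (B k).card ≤ D
    · have h1 := card_supersets (B k) D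
      have h2 := choose_sub_le (n := n) (D := D) (by omega) (B k).card hk
      rw [← hN1] at h1
      rw [div_pow, div_mul_eq_mul_div, le_div_iff₀ (by positivity)]
      calc ((N1.filter fun T1 => B k ⊆ T1).card : ℝ) * n ^ (B k).card
          ≤ ((n - (B k).card).choose (D - (B k).card) : ℝ) * n ^ (B k).card := by
            gcongr
        _ = ((n ^ (B k).card * (n - (B k).card).choose (D - (B k).card) : ℕ) : ℝ) := by
            push_cast
            ring
        _ ≤ ((D ^ (B k).card * n.choose D : ℕ) : ℝ) := by exact_mod_cast h2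
        _ = (D : ℝ) ^ (B k).card * n.choose D := by push_cast; rfl
    · have h1 : N1.filter (fun T1 => B k ⊆ T1) = ∅ := by
        rw [filter_eq_empty_iff]
        intro T1 hT1 hcon
        rw [hN1, mem_powersetCard] at hT1
        have := card_le_card hcon
        omega
      rw [h1, card_empty, Nat.cast_zero]
      positivity
  have hsum : ∑ T1 ∈ N1, ((X T1).card : ℝ) ≤ n.choose D * ((b : ℝ) / 2) := by
    calc ∑ T1 ∈ N1, ((X T1).card : ℝ)
        ≤ ∑ T1 ∈ N1, ∑ k ∈ tr.filter (fun k => B k ⊆ T1), ((R k).card : ℝ) := by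
          refine sum_le_sum fun T1 _ => ?_
          rw [hX]
          exact_mod_cast card_biUnion_le
      _ = ∑ T1 ∈ N1, ∑ k ∈ tr, if B k ⊆ T1 then ((R k).card : ℝ) else 0 :=
          sum_congr rfl fun T1 _ => sum_filter _ _
      _ = ∑ k ∈ tr, ∑ T1 ∈ N1, if B k ⊆ T1 then ((R k).card : ℝ) else 0 := sum_comm
      _ = ∑ k ∈ tr, ((N1.filter fun T1 => B k ⊆ T1).card : ℝ) * (R k).card := by
          refine sum_congr rfl fun k _ => ?_
          rw [← sum_filter, sum_const, nsmul_eq_mul]
      _ ≤ ∑ k ∈ tr, (((D : ℝ) / n) ^ (B k).card * n.choose D) * (R k).card := by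
          refine sum_le_sum fun k _ => ?_
          exact mul_le_mul_of_nonneg_right (hsup k) (by positivity)
      _ = n.choose D * ∑ k ∈ tr, ((R k).card : ℝ) * ((D : ℝ) / n) ^ (B k).card := by
          rw [mul_sum]
          refine sum_congr rfl fun k _ => ?_
          ring
      _ ≤ n.choose D * ((b : ℝ) / 2) := by
          refine mul_le_mul_of_nonneg_left ?_ (by positivity)
          rw [← hD] at hb
          linarith
  obtain ⟨N2, hN2⟩ : ∃ N2, N2 = N1.filter fun T1 => (X T1).card ≤ b := ⟨_, rfl⟩
  have hhalf : (n.choose D : ℝ) ≤ 2 * N2.card := by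
    have h1 : ((N1.filter fun T1 => ¬ (X T1).card ≤ b).card : ℝ) * (b + 1) ≤
        n.choose D * ((b : ℝ) / 2) := by
      refine le_trans ?_ hsum
      calc ((N1.filter fun T1 => ¬ (X T1).card ≤ b).card : ℝ) * (b + 1)
          = ∑ T1 ∈ N1.filter (fun T1 => ¬ (X T1).card ≤ b), ((b : ℝ) + 1) := by
            rw [sum_const, nsmul_eq_mul]
        _ ≤ ∑ T1 ∈ N1.filter (fun T1 => ¬ (X T1).card ≤ b), ((X T1).card : ℝ) := by
            refine sum_le_sum fun T1 hT1 => ?_
            have h2 := (mem_filter.1 hT1).2
            rw [not_le] at h2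
            exact_mod_cast h2
        _ ≤ ∑ T1 ∈ N1, ((X T1).card : ℝ) :=
            sum_le_sum_of_subset_of_nonneg (filter_subset _ _) fun _ _ _ => by positivity
    have h2 : ((N1.filter fun T1 => ¬ (X T1).card ≤ b).card : ℝ) ≤ n.choose D / 2 := by
      have hb0 : (0 : ℝ) ≤ b := by positivity
      have hc0 : (0 : ℝ) ≤ n.choose D := by positivity
      by_contra hcon
      rw [not_le] at hcon
      nlinarith
    have h3 : (N2.card : ℝ) + (N1.filter fun T1 => ¬ (X T1).card ≤ b).card = n.choose D := by
      rw [hN2, ← hN1c]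
      exact_mod_cast card_filter_add_card_filter_not (s := N1) fun T1 => (X T1).card ≤ b
    linarith
  obtain ⟨Gd, hGd⟩ : ∃ Gd, Gd = (powersetCard d (univ : Finset (Fin n))).filter good :=
    ⟨_, rfl⟩
  have hcover : N2 ⊆ Gd.biUnion fun T => N1.filter fun T1 => T ⊆ T1 := by
    intro T1 hT1
    rw [hN2, mem_filter] at hT1
    have h0 := hT1.1
    rw [hN1, mem_powersetCard] at h0
    have h1 : d ≤ (T1 \ X T1).card := by
      have h2 := card_le_card (s := T1) (t := (T1 \ X T1) ∪ X T1) (by
        rw [sdiff_union_self_eq_union]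
        exact subset_union_left)
      have h3 := card_union_le (T1 \ X T1) (X T1)
      omega
    obtain ⟨T, hT, hTc⟩ := exists_subset_card_eq h1
    have hTT1 : T ⊆ T1 := hT.trans sdiff_subset
    refine mem_biUnion.2 ⟨T, ?_, mem_filter.2 ⟨hT1.1, hTT1⟩⟩
    rw [hGd, mem_filter, mem_powersetCard]
    refine ⟨⟨subset_univ _, hTc⟩, hgood T1 T (by rw [h0.2, hD]) hTT1 fun k hk hBk => ?_⟩
    rw [disjoint_left]
    intro v hv hvR
    have h4 := (mem_sdiff.1 (hT hv)).2
    rw [hX] at h4
    exact h4 (mem_biUnion.2 ⟨k, mem_filter.2 ⟨hk, hBk⟩, hvR⟩)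
  have hN2c : N2.card ≤ Gd.card * (n - d).choose b := by
    refine (card_le_card hcover).trans ?_
    refine card_biUnion_le_card_mul _ _ _ fun T hT => ?_
    rw [hGd, mem_filter, mem_powersetCard] at hT
    have h1 := card_supersets T D
    rw [hT.1.2, ← hN1, hD, Nat.add_sub_cancel_left] at h1
    exact h1
  have hmul : n.choose D * D.choose d = n.choose d * (n - d).choose b := by
    have h1 := Nat.choose_mul (n := n) (k := D) (s := d) (by omega)
    rw [h1]
    congr 2
    omega
  have hpos : (0 : ℝ) < (n - d).choose b := by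
    exact_mod_cast Nat.choose_pos (by omega)
  rw [← hGd, ← hD]
  refine le_of_mul_le_mul_right ?_ hpos
  calc (n.choose d : ℝ) * (n - d).choose b = n.choose D * D.choose d := by exact_mod_cast hmul.symm
    _ ≤ (2 * N2.card) * D.choose d := by gcongr
    _ ≤ (2 * (Gd.card * (n - d).choose b)) * D.choose d := by
        gcongr
        exact_mod_cast hN2c
    _ = 2 * D.choose d * Gd.card * (n - d).choose b := by ring

end Pool.Agent.MP_9cec2c_lc.SumProd
end

section

/-!
Proofs with sums modulo 2 of products of linear forms.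
-/

set_option autoImplicit false

namespace Pool.Agent.MP_9cec2c_lc.SumProd

/-- A clause: a finite set of literals, read as their disjunction. The literal `l` is the variable
`l.1` if `l.2` is true, and its negation if `l.2` is false. -/
abbrev Clause (V : Type) : Type := Finset (V × Bool)

/-- The assignment `x` satisfies the clause `C`. -/
def Holds {V : Type} (x : V → Bool) (C : Clause V) : Prop := ∃ l ∈ C, x l.1 = l.2

/-- A term: a finite set of linear equations modulo 2, read as their conjunction. The equation `e`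
says that the number of true variables in `e.1` is odd if `e.2` is true, and even otherwise. -/
abbrev Term (V : Type) : Type := Finset (Finset V × Bool)

/-- The term `t` is true at `x`. -/
def IsTrue {V : Type} (x : V → Bool) (t : Term V) : Prop :=
  ∀ e ∈ t, (Odd (e.1.filter fun v => x v = true).card ↔ e.2 = true)

/-- A line: a finite set of terms. It says that the number of its terms that are true is even. -/
def Sat {V : Type} (x : V → Bool) (L : Finset (Term V)) : Prop :=
  Even {t | t ∈ L ∧ IsTrue x t}.ncard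

/-- The lines `L 0, ..., L (l - 1)` form a refutation of `F`. Some line is false for all
assignments. Each line is implied by a clause of `F` or by two earlier lines. -/
def IsRefutation {V : Type} (F : Finset (Clause V)) {l : ℕ} (L : Fin l → Finset (Term V)) :
    Prop :=
  (∃ i, ∀ x, ¬ Sat x (L i)) ∧ ∀ i, (∃ C ∈ F, ∀ x, Holds x C → Sat x (L i)) ∨
    ∃ j k, j < i ∧ k < i ∧ ∀ x, Sat x (L j) → Sat x (L k) → Sat x (L i)

/-- The CNF `F` is unsatisfiable, and at least `N` different terms occur in every refutation of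
`F`, whatever the number of lines. -/
def Needs {n : ℕ} (N : ℕ) (F : Finset (Clause (Fin n))) : Prop :=
  (∀ x, ∃ C ∈ F, ¬ Holds x C) ∧
    ∀ (l : ℕ) (L : Fin l → Finset (Term (Fin n))), IsRefutation F L →
      N ≤ {t | ∃ i, t ∈ L i}.ncard

/-- A list of `m` clauses with `w` literals. The variables of the clause `i` are the values of the
injection `(f i).1`, their signs are `(f i).2`. -/
abbrev ClauseList (n m w : ℕ) : Type := Fin m → (Fin w ↪ Fin n) × (Fin w → Bool)

/-- The CNF with the clauses of the list. -/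
def toCNF {n m w : ℕ} (f : ClauseList n m w) : Finset (Clause (Fin n)) :=
  Finset.univ.image fun i => Finset.univ.image fun e => ((f i).1 e, (f i).2 e)

end Pool.Agent.MP_9cec2c_lc.SumProd
end
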