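import Pool.Agent.Lib.MP_9cec2c_lc.Mg.G054
import Pool.Agent.Lib.MP_9cec2c_lc.LRCore
import Pool.Agent.Lib.MP_9cec2c_lc.SRExpand

section

/-!
Linear systems over the field with two elements: local consistency and the path argument.
-/

set_option autoImplicit false
set_option linter.unusedSectionVars false

namespace Pool.Agent.MP_9cec2c_lc.FormulaLines

open Finset

variable {I J : Type} [Fintype I] [DecidableEq I] [Fintype J] [DecidableEq J]

/-- A bit as an element of the field with two elements. -/
def bz (b : Bool) : ZMod 2 := if b = true then 1 else 0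

/-- The combination of the rows with coefficients `t`. -/
def cvec (M : I → J → ZMod 2) (t : I → ZMod 2) (j : J) : ZMod 2 := ∑ i, t i * M i j

/-- The number of nonzero coordinates. -/
def wtz {I : Type} [Fintype I] (t : I → ZMod 2) : ℕ := (univ.filter fun i => t i ≠ 0).card

/-- Combinations of few rows have large support. -/
def Expands (M : I → J → ZMod 2) (r : ℕ) : Prop :=
  ∀ t : I → ZMod 2, wtz t ≤ 2 * r → wtz t ≤ wtz (cvec M t)

/-- The assignment on `Q` satisfies all combinations of at most `r` rows that only read `Q`. -/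
def LC (M : I → J → ZMod 2) (b : I → ZMod 2) (r : ℕ) (Q : Finset J) (y : J → Bool) : Prop :=
  ∀ t : I → ZMod 2, wtz t ≤ r → (∀ j, j ∉ Q → cvec M t j = 0) →
    ∑ j, cvec M t j * bz (y j) = ∑ i, t i * b i

theorem wtz_add (t t' : I → ZMod 2) : wtz (fun i => t i + t' i) ≤ wtz t + wtz t' := by
  unfold wtz
  refine (card_le_card ?_).trans (card_union_le _ _)
  intro i hi
  rw [mem_filter] at hi
  rw [mem_union, mem_filter, mem_filter]
  by_contra hcon
  push Not at hcon
  have h1 := hcon.1 (mem_univ _)
  have h2 := hcon.2 (mem_univ _)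
  exact hi.2 (by simp only [h1, h2, add_zero])

theorem cvec_add (M : I → J → ZMod 2) (t t' : I → ZMod 2) (j : J) :
    cvec M (fun i => t i + t' i) j = cvec M t j + cvec M t' j := by
  unfold cvec
  rw [← sum_add_distrib]
  exact sum_congr rfl fun i _ => by ring

theorem z2_cases (a : ZMod 2) : a = 0 ∨ a = 1 := by
  revert a
  decide

theorem bz_surj (a : ZMod 2) : ∃ c : Bool, bz c = a := by
  rcases z2_cases a with rfl | rfl
  · exact ⟨false, rfl⟩
  · exact ⟨true, rfl⟩

section

variable {M : I → J → ZMod 2} {b : I → ZMod 2} {r : ℕ}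

theorem LC.mono {Q Q' : Finset J} {y : J → Bool} (h : LC M b r Q y) (hQ : Q' ⊆ Q) :
    LC M b r Q' y :=
  fun t ht ht' => h t ht fun j hj => ht' j fun hj' => hj (hQ hj')

theorem LC.congr {Q : Finset J} {y y' : J → Bool} (h : LC M b r Q y)
    (hy : ∀ j ∈ Q, y j = y' j) : LC M b r Q y' := by
  intro t ht ht'
  rw [← h t ht ht']
  refine sum_congr rfl fun j _ => ?_
  by_cases hj : j ∈ Q
  · rw [hy j hj]
  · rw [ht' j hj, zero_mul, zero_mul]

theorem LC.empty (hE : Expands M r) (y : J → Bool) : LC M b r ∅ y := by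
  intro t ht ht'
  have h1 : wtz (cvec M t) = 0 := by
    unfold wtz
    rw [card_eq_zero, filter_eq_empty_iff]
    intro j _
    rw [not_not]
    exact ht' j (notMem_empty j)
  have h2 := hE t (by omega)
  have h3 : wtz t = 0 := by omega
  have h4 : ∀ i, t i = 0 := by
    intro i
    unfold wtz at h3
    rw [card_eq_zero, filter_eq_empty_iff] at h3
    exact not_not.1 (h3 (mem_univ i))
  have h5 : ∀ j, cvec M t j = 0 := fun j => ht' j (notMem_empty j)
  simp [h4, h5]

theorem sum_update (c : J → ZMod 2) (y : J → Bool) (v : J) (e : Bool) :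
    ∑ j, c j * bz (Function.update y v e j) =
      ∑ j, c j * bz (y j) + c v * (bz e - bz (y v)) := by
  have h1 : ∀ j, c j * bz (Function.update y v e j) =
      c j * bz (y j) + if j = v then c v * (bz e - bz (y v)) else 0 := by
    intro j
    by_cases hj : j = v
    · subst hj
      rw [Function.update_self, if_pos rfl]
      ring
    · rw [Function.update_of_ne hj, if_neg hj, add_zero]
  simp only [h1]
  rw [sum_add_distrib]
  congr 1
  simp

theorem LC.extend_one (hE : Expands M r) {Q : Finset J} {y : J → Bool} (h : LC M b r Q y)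
    {v : J} (hQ : Q.card ≤ r) :
    ∃ c : Bool, LC M b r (insert v Q) (Function.update y v c) := by
  classical
  by_cases hex : ∃ t0 : I → ZMod 2, wtz t0 ≤ r ∧ (∀ j, j ∉ insert v Q → cvec M t0 j = 0) ∧
      cvec M t0 v = 1
  · obtain ⟨t0, h1, h2, h3⟩ := hex
    obtain ⟨c, hc⟩ := bz_surj (∑ i, t0 i * b i - ∑ j, cvec M t0 j * bz (y j) + bz (y v))
    have h4 : ∑ j, cvec M t0 j * bz (Function.update y v c j) = ∑ i, t0 i * b i := by
      rw [sum_update, h3, hc]
      ring
    refine ⟨c, fun t ht ht' => ?_⟩
    rcases z2_cases (cvec M t v) with h5 | h5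
    · rw [sum_update, h5, zero_mul, add_zero]
      refine h t ht fun j hj => ?_
      by_cases hjv : j = v
      · rw [hjv, h5]
      · exact ht' j fun hj' => (mem_insert.1 hj').elim hjv hj
    · have h6 : ∀ j, j ∉ Q → cvec M (fun i => t i + t0 i) j = 0 := by
        intro j hj
        rw [cvec_add]
        by_cases hjv : j = v
        · rw [hjv, h5, h3]
          decide
        · have hj' : j ∉ insert v Q := fun hj' => (mem_insert.1 hj').elim hjv hj
          rw [ht' j hj', h2 j hj', add_zero]
      have h7 : wtz (fun i => t i + t0 i) ≤ r := by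
        have h8 := hE (fun i => t i + t0 i) ((wtz_add t t0).trans (by omega))
        refine h8.trans (le_trans ?_ hQ)
        unfold wtz
        refine card_le_card fun j hj => ?_
        by_contra hcon
        exact (mem_filter.1 hj).2 (h6 j hcon)
      have h9 := h _ h7 h6
      have h10 : ∑ j, cvec M (fun i => t i + t0 i) j * bz (Function.update y v c j) =
          ∑ i, (t i + t0 i) * b i := by
        rw [sum_update, cvec_add, h5, h3, h9]
        have : (1 + 1 : ZMod 2) = 0 := by decide
        rw [this, zero_mul, add_zero]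
      simp only [cvec_add, add_mul, sum_add_distrib] at h10
      rw [h4] at h10
      exact add_right_cancel h10
  · push Not at hex
    refine ⟨true, fun t ht ht' => ?_⟩
    have h5 : cvec M t v = 0 := (z2_cases _).resolve_right (hex t ht ht')
    rw [sum_update, h5, zero_mul, add_zero]
    refine h t ht fun j hj => ?_
    by_cases hjv : j = v
    · rw [hjv, h5]
    · exact ht' j fun hj' => (mem_insert.1 hj').elim hjv hj

theorem LC.extend (hE : Expands M r) {Q : Finset J} {y : J → Bool} (h : LC M b r Q y)
    (S : Finset J) (hS : (Q ∪ S).card ≤ r) :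
    ∃ y' : J → Bool, (∀ j ∈ Q, y' j = y j) ∧ LC M b r (Q ∪ S) y' := by
  classical
  induction S using Finset.induction_on with
  | empty => exact ⟨y, fun _ _ => rfl, by rwa [union_empty]⟩
  | insert v S hv ih =>
    have hsub : Q ∪ S ⊆ Q ∪ insert v S := union_subset_union_right (subset_insert _ _)
    obtain ⟨y1, h1, h2⟩ := ih ((card_le_card hsub).trans hS)
    by_cases hvQ : v ∈ Q ∪ S
    · refine ⟨y1, h1, ?_⟩
      have : Q ∪ insert v S = Q ∪ S := by
        rw [union_insert, insert_eq_of_mem hvQ]
      rwa [this]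
    · obtain ⟨c, hc⟩ := LC.extend_one hE h2 (v := v) ((card_le_card hsub).trans hS)
      refine ⟨Function.update y1 v c, fun j hj => ?_, by rwa [union_insert]⟩
      rw [Function.update_of_ne, h1 j hj]
      rintro rfl
      exact hvQ (mem_union_left _ hj)

theorem gather (hE : Expands M r) {d : ℕ} {κ : Type} [DecidableEq κ]
    (D : κ → Finset J) (R : κ → (J → Bool) → Finset J)
    (h1 : ∀ i y, D i ⊆ R i y ∧ (R i y).card ≤ d)
    (h2 : ∀ i (y y' : J → Bool), (∀ j ∈ D i, y j = y' j) → R i y = R i y')
    {Q : Finset J} {y : J → Bool} (h : LC M b r Q y) (P : Finset κ)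
    (hP : Q.card + P.card * d ≤ r) :
    ∃ (Q' : Finset J) (y' : J → Bool), Q ⊆ Q' ∧ (∀ j ∈ Q, y' j = y j) ∧ LC M b r Q' y' ∧
      Q'.card ≤ Q.card + P.card * d ∧ ∀ i ∈ P, R i y' ⊆ Q' := by
  classical
  induction P using Finset.induction_on with
  | empty => exact ⟨Q, y, Subset.rfl, fun _ _ => rfl, h, by simp, by simp⟩
  | insert p P hp ih =>
    rw [card_insert_of_notMem hp, add_mul, one_mul] at hP
    obtain ⟨Q1, y1, g1, g2, g3, g4, g5⟩ := ih (by omega)
    have c1 : (Q1 ∪ D p).card ≤ r := by
      have e1 := card_union_le Q1 (D p)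
      have e2 := (card_le_card (h1 p y1).1).trans (h1 p y1).2
      omega
    obtain ⟨y2, k1, k2⟩ := LC.extend hE g3 (D p) c1
    have c2 : ((Q1 ∪ D p) ∪ R p y2).card ≤ Q1.card + d := by
      have e1 : (Q1 ∪ D p) ∪ R p y2 = Q1 ∪ R p y2 := by
        rw [union_assoc, union_eq_right.2 (h1 p y2).1]
      rw [e1]
      exact (card_union_le _ _).trans (Nat.add_le_add_left (h1 p y2).2 _)
    obtain ⟨y3, m1, m2⟩ := LC.extend hE k2 (R p y2) (by omega)
    have a1 : ∀ j ∈ Q1, y3 j = y1 j := fun j hj =>
      (m1 j (mem_union_left _ hj)).trans (k1 j hj)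
    refine ⟨(Q1 ∪ D p) ∪ R p y2, y3, ?_, ?_, m2, ?_, ?_⟩
    · exact g1.trans (subset_union_left.trans subset_union_left)
    · intro j hj
      rw [a1 j (g1 hj), g2 j hj]
    · rw [card_insert_of_notMem hp, add_mul, one_mul]
      omega
    · intro i hi
      rw [mem_insert] at hi
      rcases hi with rfl | hi
      · have : R i y3 = R i y2 := h2 i _ _ fun j hj => m1 j (mem_union_right _ hj)
        rw [this]
        exact subset_union_right
      · have : R i y3 = R i y1 := h2 i _ _ fun j hj => by
          have : j ∈ Q1 := g5 i hi ((h1 i y1).1 hj)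
          exact a1 j this
        rw [this]
        exact (g5 i hi).trans (subset_union_left.trans subset_union_left)

/-- There is no refutation all of whose lines are shallow. -/
theorem no_refutation (hE : Expands M r) {d t : ℕ} (hr : 1 ≤ r) (hd : (t + 1) * d ≤ r) {S : ℕ}
    (f : Fin S → (J → Bool) → Bool) (hsh : ∀ i, Shallow d (f i))
    (hax : ∀ i, (∃ i0, ∀ y, (∑ j, M i0 j * bz (y j) = b i0) → f i y = true) ∨
      ∃ P : Finset (Fin S), P.card ≤ t ∧ (∀ j ∈ P, j < i) ∧
        ∀ y, (∀ j ∈ P, f j y = true) → f i y = true)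
    (hfin : ∃ i, ∀ y, f i y = false) : False := by
  classical
  choose D R h1 h2 h3 using hsh
  have key : ∀ n : ℕ, ∀ i : Fin S, (i : ℕ) = n → ∀ (Q : Finset J) (y : J → Bool),
      LC M b r Q y → Q.card ≤ d → (∀ y', (∀ j ∈ Q, y' j = y j) → f i y' = false) → False := by
    intro n
    induction n using Nat.strong_induction_on with
    | _ n ih =>
      intro i hi Q y hLC hQ hf
      rcases hax i with ⟨i0, hi0⟩ | ⟨P, hP1, hP2, hP3⟩
      · have hsup : ∀ j, j ∉ Q → M i0 j = 0 := by
          intro j hj
          by_contra hcon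
          have hM : M i0 j = 1 := (z2_cases _).resolve_left hcon
          obtain ⟨c, hc⟩ := bz_surj (b i0 - ∑ j', M i0 j' * bz (y j') + bz (y j))
          have e1 : ∑ j', M i0 j' * bz (Function.update y j c j') = b i0 := by
            rw [sum_update (M i0) y j c, hM, hc]
            ring
          have e2 := hi0 _ e1
          have e3 := hf (Function.update y j c) fun j' hj' => by
            rw [Function.update_of_ne]
            rintro rfl
            exact hj hj'
          rw [e2] at e3
          exact absurd e3 (by decide)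
        obtain ⟨e, he⟩ : ∃ e : I → ZMod 2, e = fun i => if i = i0 then 1 else 0 := ⟨_, rfl⟩
        have e0 : ∀ i, e i = if i = i0 then 1 else 0 := fun i => by rw [he]
        have e1 : ∀ j, cvec M e j = M i0 j := by
          intro j
          unfold cvec
          simp [e0]
        have e2 : wtz e ≤ r := by
          refine le_trans ?_ hr
          unfold wtz
          rw [card_le_one]
          intro a ha c hc
          rw [mem_filter, e0] at ha hc
          have ha' : a = i0 := by
            by_contra hne
            exact ha.2 (if_neg hne)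
          have hc' : c = i0 := by
            by_contra hne
            exact hc.2 (if_neg hne)
          rw [ha', hc']
        have e3 := hLC e e2 fun j hj => by rw [e1, hsup j hj]
        simp only [e1] at e3
        have e4 : ∑ i, e i * b i = b i0 := by simp [e0]
        rw [e4] at e3
        have e5 := hi0 y e3
        rw [hf y fun _ _ => rfl] at e5
        exact absurd e5 (by decide)
      · have hsz : Q.card + P.card * d ≤ r := by
          have : P.card * d ≤ t * d := Nat.mul_le_mul_right _ hP1
          rw [add_mul, one_mul] at hd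
          omega
        obtain ⟨Q', y', g1, g2, g3, g4, g5⟩ := gather hE D R h1 h2 hLC P hsz
        have g6 : f i y' = false := hf y' g2
        have g7 : ∃ j ∈ P, f j y' = false := by
          by_contra hcon
          push Not at hcon
          have := hP3 y' fun j hj => by
            have := hcon j hj
            simpa using this
          rw [this] at g6
          exact absurd g6 (by decide)
        obtain ⟨j, hj, hjf⟩ := g7
        refine ih j (by rw [← hi]; exact hP2 j hj) j rfl (R j y') y' (g3.mono (g5 j hj))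
          (h1 j y').2 fun y'' hy'' => ?_
        rw [← hjf]
        exact (h3 j y' y'' fun a ha => (hy'' a ha).symm).symm
  obtain ⟨i, hi⟩ := hfin
  exact key i i rfl ∅ (fun _ => false) (LC.empty hE _) (by simp) fun y' _ => hi y'

end

end Pool.Agent.MP_9cec2c_lc.FormulaLines
end

section

/-!
Random sparse systems expand.
-/

set_option autoImplicit false
set_option linter.unusedSectionVars false

namespace Pool.Agent.MP_9cec2c_lc.FormulaLines

open Finset
open Pool.Agent.MP_9cec2c_lc.SubstRed

/-- The matrix of the system whose row `i` is the sum of the variables `E i a`. -/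
def mat {I J : Type} [DecidableEq J] (E : I → Fin 6 → J) (i : I) (j : J) : ZMod 2 :=
  ∑ a, if E i a = j then 1 else 0

theorem choose_le_three {n k : ℕ} (hk : 0 < k) : (n.choose k : ℝ) ≤ (3 * n / k : ℝ) ^ k := by
  have hk' : (0 : ℝ) < k := by exact_mod_cast hk
  have h1 : (n.choose k : ℝ) ≤ (n : ℝ) ^ k / k.factorial := Nat.choose_le_pow_div k n
  have h2 : (k : ℝ) ^ k / k.factorial ≤ 3 ^ k := by
    refine (Real.pow_div_factorial_le_exp (k : ℝ) hk'.le k).trans ?_
    have h3 : Real.exp (k : ℝ) = Real.exp 1 ^ k := by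
      rw [← Real.exp_nat_mul, mul_one]
    rw [h3]
    refine pow_le_pow_left₀ (Real.exp_pos 1).le ?_ _
    have := Real.exp_one_lt_d9
    linarith
  refine h1.trans ?_
  have hf : (0 : ℝ) < k.factorial := by exact_mod_cast Nat.factorial_pos k
  rw [div_pow, mul_pow, div_le_div_iff₀ hf (by positivity)]
  rw [div_le_iff₀ hf] at h2
  have h4 : (0 : ℝ) ≤ (n : ℝ) ^ k := by positivity
  nlinarith

section

variable {I J : Type} [Fintype I] [DecidableEq I] [Fintype J] [DecidableEq J]

theorem pr_all_in [Nonempty J] (T : Finset I) (V : Finset J) :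
    pr (fun E : I → Fin 6 → J => ∀ i ∈ T, ∀ a, E i a ∈ V) ≤
      (((V.card : ℝ) / Fintype.card J) ^ 6) ^ T.card := by
  refine indep_fixed T (fun e : Fin 6 → J => ∀ a, e a ∈ V) _ ?_
  have h1 := indep_fixed (univ : Finset (Fin 6)) (fun a : J => a ∈ V)
    ((V.card : ℝ) / Fintype.card J) (pr_mem_finset V).le
  simpa using h1

/-- The number of occurrences of a variable in the rows of `T`. -/
def occ (E : I → Fin 6 → J) (T : Finset I) (j : J) : ℕ :=
  ((T ×ˢ (univ : Finset (Fin 6))).filter fun p => E p.1 p.2 = j).card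

theorem occ_sum (E : I → Fin 6 → J) (T : Finset I) : ∑ j, occ E T j = 6 * T.card := by
  have h1 := card_eq_sum_card_fiberwise (s := T ×ˢ (univ : Finset (Fin 6))) (t := (univ : Finset J))
    (f := fun p => E p.1 p.2) fun _ _ => by simp
  rw [card_product, card_univ, Fintype.card_fin, mul_comm] at h1
  exact h1.symm

theorem occ_eq (E : I → Fin 6 → J) (t : I → ZMod 2) (j : J) :
    cvec (mat E) t j = (occ E (univ.filter fun i => t i ≠ 0) j : ZMod 2) := by
  unfold cvec occ mat
  rw [card_filter, sum_product]
  push_cast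
  rw [sum_filter]
  refine sum_congr rfl fun i _ => ?_
  rcases z2_cases (t i) with h | h
  · simp [h]
  · simp [h]

/-- Many variables occur in the rows of `T`, hence many of them occur once. -/
theorem many_odd (E : I → Fin 6 → J) (T : Finset I)
    (h : 4 * T.card ≤ (univ.filter fun j => 0 < occ E T j).card) :
    T.card ≤ (univ.filter fun j => (occ E T j : ZMod 2) ≠ 0).card := by
  classical
  have h1 : ∀ j, 2 * (if 0 < occ E T j then 1 else 0) ≤
      occ E T j + (if (occ E T j : ZMod 2) ≠ 0 then 1 else 0) := by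
    intro j
    by_cases h2 : 0 < occ E T j
    · rw [if_pos h2]
      by_cases h3 : occ E T j = 1
      · rw [h3, if_pos (by decide)]
      · omega
    · rw [if_neg h2]
      omega
  have h2 := sum_le_sum fun j (_ : j ∈ (univ : Finset J)) => h1 j
  rw [← mul_sum, sum_add_distrib, occ_sum, ← card_filter, ← card_filter] at h2
  omega

end

/-- Existence of an expanding system. -/
theorem exists_expand {n r : ℕ} (hr : 2 ^ 16 * r ≤ n) (hn : 0 < n) :
    ∃ E : Fin (n + 1) → Fin 6 → Fin n, Expands (mat E) r := by
  classical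
  have : Nonempty (Fin n) := ⟨⟨0, hn⟩⟩
  have hn' : (0 : ℝ) < n := by exact_mod_cast hn
  have hterm : ∀ s ∈ Icc 1 (2 * r),
      pr (fun E : Fin (n + 1) → Fin 6 → Fin n =>
        ∃ p ∈ (powersetCard s (univ : Finset (Fin (n + 1)))) ×ˢ
          (powersetCard (4 * s) (univ : Finset (Fin n))),
          ∀ i ∈ p.1, ∀ a, E i a ∈ p.2) ≤ (1 / 4 : ℝ) ^ s := by
    intro s hs
    rw [mem_Icc] at hs
    have hs0 : (0 : ℝ) < s := by exact_mod_cast hs.1
    refine (pr_exists _ _).trans ?_
    have h1 : ∀ p ∈ (powersetCard s (univ : Finset (Fin (n + 1)))) ×ˢ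
          (powersetCard (4 * s) (univ : Finset (Fin n))),
        pr (fun E : Fin (n + 1) → Fin 6 → Fin n => ∀ i ∈ p.1, ∀ a, E i a ∈ p.2) ≤
          ((((4 * s : ℕ) : ℝ) / n) ^ 6) ^ s := by
      rintro ⟨T, V⟩ hp
      rw [mem_product, mem_powersetCard, mem_powersetCard] at hp
      have := pr_all_in T V
      rw [hp.1.2, hp.2.2, Fintype.card_fin] at this
      exact this
    refine (sum_le_sum h1).trans ?_
    rw [sum_const, card_product, card_powersetCard, card_powersetCard, card_univ, card_univ,
      Fintype.card_fin, Fintype.card_fin, nsmul_eq_mul]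
    push_cast
    have h2 : ((n + 1).choose s : ℝ) ≤ (6 * n / s : ℝ) ^ s := by
      refine (choose_le_three (n := n + 1) hs.1).trans ?_
      refine pow_le_pow_left₀ (by positivity) ?_ _
      rw [div_le_div_iff_of_pos_right hs0]
      push_cast
      have : (1 : ℝ) ≤ n := by exact_mod_cast hn
      linarith
    have h3 : (n.choose (4 * s) : ℝ) ≤ ((3 * n / (4 * s) : ℝ) ^ 4) ^ s := by
      have := choose_le_three (n := n) (k := 4 * s) (by omega)
      push_cast at this
      rw [← pow_mul]
      exact this
    calc ((n + 1).choose s : ℝ) * (n.choose (4 * s) : ℝ) * ((4 * s / n : ℝ) ^ 6) ^ s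
        ≤ (6 * n / s : ℝ) ^ s * ((3 * n / (4 * s) : ℝ) ^ 4) ^ s * ((4 * s / n : ℝ) ^ 6) ^ s := by
          gcongr
      _ = (7776 * (s / n) : ℝ) ^ s := by
          rw [← mul_pow, ← mul_pow]
          congr 1
          field_simp
          norm_num
      _ ≤ (1 / 4 : ℝ) ^ s := by
          refine pow_le_pow_left₀ (by positivity) ?_ _
          rw [← mul_div_assoc, div_le_iff₀ hn']
          have h4 : s ≤ 2 * r := hs.2
          have h5 : 2 ^ 15 * s ≤ n := by omega
          have h6 : (2 ^ 15 : ℝ) * s ≤ n := by exact_mod_cast h5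
          norm_num at h6
          linarith
  have hall : pr (fun E : Fin (n + 1) → Fin 6 → Fin n => ∃ s ∈ Icc 1 (2 * r),
      ∃ p ∈ (powersetCard s (univ : Finset (Fin (n + 1)))) ×ˢ
          (powersetCard (4 * s) (univ : Finset (Fin n))),
          ∀ i ∈ p.1, ∀ a, E i a ∈ p.2) < 1 := by
    refine lt_of_le_of_lt ((pr_exists _ _).trans (sum_le_sum hterm)) ?_
    have hgeo : ∀ m : ℕ, ∑ s ∈ Icc 1 m, (1 / 4 : ℝ) ^ s = (1 - (1 / 4 : ℝ) ^ m) / 3 := by
      intro m
      induction m with
      | zero => simp
      | succ m ih =>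
        rw [sum_Icc_succ_top (by omega), ih]
        ring
    rw [hgeo]
    have : (0 : ℝ) < (1 / 4 : ℝ) ^ (2 * r) := by positivity
    linarith
  obtain ⟨E, hE⟩ := exists_of_pr_lt_one hall
  refine ⟨E, fun t ht => ?_⟩
  obtain ⟨T, hT⟩ : ∃ T, T = univ.filter (fun i => t i ≠ 0) := ⟨_, rfl⟩
  have e1 : wtz t = T.card := by rw [hT]; rfl
  have e2 : wtz (cvec (mat E) t) = (univ.filter fun j => (occ E T j : ZMod 2) ≠ 0).card := by
    unfold wtz
    congr 1
    refine filter_congr fun j _ => ?_
    rw [occ_eq, hT]
  rw [e1, e2]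
  rw [e1] at ht
  rcases Nat.eq_zero_or_pos T.card with h0 | h0
  · omega
  · refine many_odd E T ?_
    by_contra hcon
    push Not at hcon
    apply hE
    obtain ⟨V, hV1, hV2⟩ := exists_superset_card_eq (s := univ.filter fun j => 0 < occ E T j)
      (n := 4 * T.card) hcon.le (by rw [Fintype.card_fin]; omega)
    refine ⟨T.card, mem_Icc.2 ⟨h0, ht⟩, (T, V), ?_, ?_⟩
    · rw [mem_product, mem_powersetCard, mem_powersetCard]
      exact ⟨⟨subset_univ _, rfl⟩, subset_univ _, hV2⟩
    · intro i hi a
      apply hV1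
      rw [mem_filter]
      refine ⟨mem_univ _, ?_⟩
      unfold occ
      rw [card_pos]
      exact ⟨(i, a), mem_filter.2 ⟨mem_product.2 ⟨hi, mem_univ _⟩, rfl⟩⟩

/-- The map given by more rows than variables is not surjective. -/
theorem exists_rhs {n : ℕ} (E : Fin (n + 1) → Fin 6 → Fin n) :
    ∃ b : Fin (n + 1) → ZMod 2, ∀ y : Fin n → Bool,
      ∃ i, ∑ j, mat E i j * bz (y j) ≠ b i := by
  classical
  by_contra hcon
  push Not at hcon
  have hsurj : Function.Surjective
      (fun (y : Fin n → Bool) (i : Fin (n + 1)) => ∑ j, mat E i j * bz (y j)) := by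
    intro b
    obtain ⟨y, hy⟩ := hcon b
    exact ⟨y, funext hy⟩
  have h1 := Fintype.card_le_of_surjective _ hsurj
  simp only [Fintype.card_pi, prod_const, card_univ, Fintype.card_fin, Fintype.card_bool,
    ZMod.card] at h1
  have h2 : 2 ^ n < 2 ^ (n + 1) := Nat.pow_lt_pow_right (by norm_num) (by omega)
  omega

end Pool.Agent.MP_9cec2c_lc.FormulaLines
end

section

/-!
Random clauses.
-/

set_option autoImplicit false
set_option linter.unusedSectionVars false

namespace Pool.Agent.MP_9cec2c_lc.LovSch

open Finset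
open Pool.Agent.MP_9cec2c_lc.SubstRed
open Pool.Agent.MP_9cec2c_lc.FormulaLines

variable {n m w : ℕ}

/-- One more value of a random injection lies in a given set. -/
theorem emb_step (J : Finset (Fin w)) (Z : Finset (Fin n)) (e0 : Fin w) (he0 : e0 ∉ J) :
    (univ.filter fun g : Fin w ↪ Fin n => ∀ e ∈ insert e0 J, g e ∈ Z).card * n ≤
      (univ.filter fun g : Fin w ↪ Fin n => ∀ e ∈ J, g e ∈ Z).card * Z.card := by
  classical
  have h0 : (univ.filter fun g : Fin w ↪ Fin n => ∀ e ∈ insert e0 J, g e ∈ Z).card * n =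
      ((univ.filter fun g : Fin w ↪ Fin n => ∀ e ∈ insert e0 J, g e ∈ Z) ×ˢ
        (univ : Finset (Fin n))).card := by
    rw [card_product, card_univ, Fintype.card_fin]
  rw [h0, ← card_product]
  refine card_le_card_of_injOn
    (fun p => (p.1.trans (Equiv.swap p.2 (p.1 e0)).toEmbedding, p.1 e0)) ?_ ?_
  · rintro ⟨g, u⟩ hg
    have hg1 := (mem_filter.1 (mem_product.1 (mem_coe.1 hg)).1).2
    refine mem_coe.2 (mem_product.2 ⟨mem_filter.2 ⟨mem_univ _, fun e he => ?_⟩,
      hg1 e0 (mem_insert_self _ _)⟩)
    have hne : g e ≠ g e0 := fun h => he0 (g.injective h ▸ he)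
    simp only [Function.Embedding.trans_apply, Equiv.coe_toEmbedding]
    by_cases hu : g e = u
    · rw [hu, Equiv.swap_apply_left]
      exact hg1 e0 (mem_insert_self _ _)
    · rw [Equiv.swap_apply_of_ne_of_ne hu hne]
      exact hg1 e (mem_insert_of_mem he)
  · rintro ⟨g, u⟩ - ⟨g', u'⟩ - heq
    simp only [Prod.mk.injEq] at heq
    obtain ⟨h1, h2⟩ := heq
    have h3 : u = u' := by
      have := DFunLike.congr_fun h1 e0
      simpa only [Function.Embedding.trans_apply, Equiv.coe_toEmbedding,
        Equiv.swap_apply_right] using this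
    subst h3
    have h4 : g = g' := by
      ext e
      have := DFunLike.congr_fun h1 e
      simp only [Function.Embedding.trans_apply, Equiv.coe_toEmbedding, ← h2] at this
      exact congrArg _ ((Equiv.swap u (g e0)).injective this)
    rw [h4]

theorem nonempty_emb (hw : w ≤ n) : Nonempty (Fin w ↪ Fin n) := ⟨Fin.castLEEmb hw⟩

/-- Values of a random injection in a given set. -/
theorem emb_pr (hw : w ≤ n) (J : Finset (Fin w)) (Z : Finset (Fin n)) :
    pr (fun g : Fin w ↪ Fin n => ∀ e ∈ J, g e ∈ Z) ≤ ((Z.card : ℝ) / n) ^ J.card := by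
  classical
  have hne := nonempty_emb hw
  induction J using Finset.induction_on with
  | empty => simpa using pr_le_one _
  | insert e0 J he0 ih =>
    have hn : (0 : ℝ) < n := by
      have : 0 < n := lt_of_lt_of_le e0.pos hw
      exact_mod_cast this
    rw [card_insert_of_notMem he0, pow_succ]
    have h1 : ((univ.filter fun g : Fin w ↪ Fin n => ∀ e ∈ insert e0 J, g e ∈ Z).card : ℝ) * n ≤
        (univ.filter fun g : Fin w ↪ Fin n => ∀ e ∈ J, g e ∈ Z).card * Z.card := by
      exact_mod_cast emb_step J Z e0 he0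
    have hpos : (0 : ℝ) < Fintype.card (Fin w ↪ Fin n) := by exact_mod_cast Fintype.card_pos
    refine le_trans (b := pr (fun g : Fin w ↪ Fin n => ∀ e ∈ J, g e ∈ Z) * (Z.card / n)) ?_
      (by gcongr)
    rw [pr_eq, pr_eq, div_mul_div_comm, div_le_div_iff₀ hpos (by positivity)]
    nlinarith

/-- A condition on the first coordinate and one on the second. -/
theorem pr_and_le {A B : Type*} [Fintype A] [Fintype B] [Nonempty B] (P : A → Prop)
    (Q : A → B → Prop) {q : ℝ} (hQ : ∀ a, pr (Q a) ≤ q) :
    pr (fun c : A × B => P c.1 ∧ Q c.1 c.2) ≤ pr P * q := by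
  classical
  have hq : 0 ≤ q ∨ IsEmpty A := by
    rcases isEmpty_or_nonempty A with h | h
    · exact Or.inr h
    · exact Or.inl ((pr_nonneg _).trans (hQ (Classical.arbitrary A)))
  rcases hq with hq | hA
  · have h1 : pr (fun c : A × B => P c.1 ∧ Q c.1 c.2) * (Fintype.card A * Fintype.card B) =
        ∑ a : A, ((univ.filter fun b => P a ∧ Q a b).card : ℝ) := by
      rw [pr_eq]
      have hc : (univ.filter fun c : A × B => P c.1 ∧ Q c.1 c.2).card =
          ∑ a : A, (univ.filter fun b => P a ∧ Q a b).card := by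
        rw [← card_sigma]
        refine card_bij (fun c _ => ⟨c.1, c.2⟩) (fun c hc => ?_) (fun c _ c' _ h => ?_)
          (fun c hc => ⟨(c.1, c.2), ?_, rfl⟩)
        · have := (mem_filter.1 hc).2
          exact mem_sigma.2 ⟨mem_univ _, mem_filter.2 ⟨mem_univ _, this⟩⟩
        · simp only [Sigma.mk.injEq, heq_eq_eq] at h
          exact Prod.ext h.1 h.2
        · have := (mem_filter.1 (mem_sigma.1 hc).2).2
          exact mem_filter.2 ⟨mem_univ _, this⟩
      rw [hc, Fintype.card_prod]
      push_cast
      rcases isEmpty_or_nonempty A with hA | hA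
      · simp
      · have hA' : (Fintype.card A : ℝ) ≠ 0 := by exact_mod_cast Fintype.card_ne_zero
        have hB' : (Fintype.card B : ℝ) ≠ 0 := by exact_mod_cast Fintype.card_ne_zero
        field_simp
    rcases isEmpty_or_nonempty A with hA | hA
    · have : pr (fun c : A × B => P c.1 ∧ Q c.1 c.2) = 0 := by
        rw [pr_eq]
        simp
      rw [this]
      exact mul_nonneg (pr_nonneg _) hq
    have hA' : (0 : ℝ) < Fintype.card A := by exact_mod_cast Fintype.card_pos
    have hB' : (0 : ℝ) < Fintype.card B := by exact_mod_cast Fintype.card_pos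
    have h2 : ∑ a : A, ((univ.filter fun b => P a ∧ Q a b).card : ℝ) ≤
        ∑ a ∈ univ.filter P, q * Fintype.card B := by
      rw [sum_filter]
      refine sum_le_sum fun a _ => ?_
      by_cases ha : P a
      · rw [if_pos ha]
        simp only [ha, true_and]
        rw [pr_card]
        gcongr
        exact hQ a
      · rw [if_neg ha]
        simp [ha]
    rw [sum_const, nsmul_eq_mul] at h2
    have h3 : pr P * q * (Fintype.card A * Fintype.card B) =
        ((univ.filter P).card : ℝ) * (q * Fintype.card B) := by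
      rw [pr_card]
      ring
    refine le_of_mul_le_mul_right ?_ (mul_pos hA' hB')
    rw [h1, h3]
    exact h2
  · have h1 : pr (fun c : A × B => P c.1 ∧ Q c.1 c.2) = 0 := by
      rw [pr_eq]
      simp
    have h2 : pr P = 0 := by
      rw [pr_eq]
      simp
    rw [h1, h2, zero_mul]

/-- Random signs. -/
theorem sign_pr (J : Finset (Fin w)) (h : Fin w → Bool) :
    pr (fun b : Fin w → Bool => ∀ e ∈ J, h e ≠ b e) ≤ (1 / 2) ^ J.card := by
  classical
  refine (indep_prod J (fun e _ x => h e ≠ x) (fun _ => 1 / 2) (by simp) fun e _ _ => ?_).trans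
    (by rw [prod_const])
  rw [pr_eq]
  cases h e <;> simp [Finset.filter_eq']

theorem sign_pr_eq (h : Fin w → Bool) :
    pr (fun b : Fin w → Bool => ∀ e, h e ≠ b e) = (1 / 2) ^ w := by
  classical
  rw [pr_pi (fun (e : Fin w) (x : Bool) => h e ≠ x)]
  have h1 : ∀ e : Fin w, pr (fun x : Bool => h e ≠ x) = 1 / 2 := by
    intro e
    rw [pr_eq]
    cases h e <;> simp [Finset.filter_eq']
  simp only [h1, prod_const, card_univ, Fintype.card_fin]

end Pool.Agent.MP_9cec2c_lc.LovSch
end
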