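import Pool.Agent.Lib.MP_9cec2c_lc.XGRand
import Pool.Agent.Lib.MP_9cec2c_lc.XGFree
import Pool.Agent.Lib.MP_9cec2c_lc.XGConst
import Pool.Agent.Lib.MP_9cec2c_lc.RSGlue
import Pool.Agent.Lib.MP_9cec2c_lc.Mg.G042

section

/-!
Random CNFs and proofs over finite fields.
-/

set_option autoImplicit false
set_option linter.unusedSectionVars false

namespace Pool.Agent.MP_9cec2c_lc.FieldProof

open Finset
open Pool.Agent.MP_9cec2c_lc.LovSch (pr_sat nonempty_emb emb_pr)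
open Pool.Agent.MP_9cec2c_lc.SubstRed
open Pool.Agent.MP_9cec2c_lc.FormulaLines
open Pool.Agent.MP_9cec2c_lc.ResPoly
open Pool.Agent.MP_9cec2c_lc.SumProd (cvars card_cvars Fair pr_not_fair bd_large_five count_fair
  gen_basic gen_pow gen_order gen_ineq)

variable {n m w : ℕ}

open scoped Classical in
/-- The pattern that falsifies the clause `i`. -/
noncomputable def fpat (f : ClauseList n m w) (i : Fin m) (v : Fin n) : Bool :=
  decide (∃ e, (f i).1 e = v ∧ (f i).2 e = false)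

theorem holds_iff (f : ClauseList n m w) (i : Fin m) (x : Fin n → Bool) :
    Holds x (univ.image fun e => ((f i).1 e, (f i).2 e)) ↔
      ∃ v ∈ cvars f i, x v ≠ fpat f i v := by
  have hpat : ∀ e, fpat f i ((f i).1 e) = !(f i).2 e := by
    intro e
    unfold fpat
    cases h2 : (f i).2 e
    · rw [decide_eq_true ⟨e, rfl, h2⟩]
      rfl
    · rw [decide_eq_false]
      · rfl
      · rintro ⟨e', he', he''⟩
        have := (f i).1.injective he'
        rw [this, h2] at he''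
        exact absurd he'' (by simp)
  unfold Holds cvars
  constructor
  · rintro ⟨l, hl, hx⟩
    obtain ⟨e, -, rfl⟩ := mem_image.1 hl
    refine ⟨(f i).1 e, mem_image_of_mem _ (mem_univ e), ?_⟩
    rw [hpat e]
    simp only at hx
    rw [hx]
    cases (f i).2 e <;> simp
  · rintro ⟨v, hv, hx⟩
    obtain ⟨e, -, rfl⟩ := mem_image.1 hv
    refine ⟨((f i).1 e, (f i).2 e), mem_image_of_mem _ (mem_univ e), ?_⟩
    rw [hpat e] at hx
    simp only
    revert hx
    cases x ((f i).1 e) <;> cases (f i).2 e <;> simp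

/-- The expansion of the boundary. -/
theorem tight_of_fair {c θ r D N : ℕ} (hw : 3 ≤ w) (hN : 16 ≤ N) {f : ClauseList n m w}
    (hf : Fair N c θ r f) (hD : 20 * D ≤ w * r) : Tight (cvars f) r D := by
  intro I hI hb
  have h1 := bd_large_five (card_cvars f) hw hN (hf.1 I hI)
  have h6 : w * (4 * I.card) = 4 * (w * I.card) := by ring
  have h7 : w * (4 * I.card) ≤ w * r := by omega
  exact Nat.le_of_mul_le_mul_left h7 (by omega)

/-- The lower bound for fair lists. -/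
theorem det_bound {k : Type} [Field k] [Fintype k] {c E a A V G s P X M R K r t : ℕ}
    (hc : 1 ≤ c) (hE2 : 2 ≤ E) (ha : 1 ≤ a) (hA : 1 ≤ A)
    (hV : V = 160 * A * ((Fintype.card k) ^ 2 * (a + 1)))
    (hG : G = 6 * (16 * E) ^ 3 * (8 * 49152 * c)) (hs : s = 256 * V * G) (hP : P = 256 * V * s)
    (hX : X = 49152 * c * P) (hM : M = X ^ (8 * E)) (hR : R = 512 * V * P * (32 * M))
    (hK : R ^ 4 ≤ K) (hw : 3 ≤ w) (ht : 1 ≤ t) (hE : E * (t + 1) + w ≤ E * w)
    (hn : K ^ t * w ≤ n) (hr : r = n / (A * w)) (hm : m ≤ n * c ^ w)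
    {f : ClauseList n m w} (hf : Fair (8 * E) c (w - 2) r f)
    {l : ℕ} {L : Fin l → Line k n} (href : IsRefutation t a (toCNF f) L) :
    2 ^ (n / K ^ t) ≤ {T | ∃ i, L i T ≠ 0}.ncard := by
  classical
  by_contra hcon
  rw [not_le] at hcon
  have hF1 : 1 ≤ Fintype.card k := Fintype.card_pos
  obtain ⟨hV1, hG1, hGs, hVs, hs1, hPs, hsP, hP1, hVP, hPX, hXM, hM1, hM160, hMR, hR2⟩ :=
    gen_basic hc hE2 hF1 hA hV hG hs hP hX hM hR
  have hRt := gen_pow (V := V) (P := P) (M := M) (R := R) (t := t) (by omega) hP1 ht hR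
  obtain ⟨W, hW⟩ : ∃ W, W = (8 * M) ^ t := ⟨_, rfl⟩
  obtain ⟨RT, hRT⟩ : ∃ RT, RT = R ^ t := ⟨_, rfl⟩
  rw [← hW, ← hRT] at hRt
  have hRT2 : 2 ≤ RT := by
    rw [hRT]
    exact hR2.trans (Nat.le_self_pow (by omega) _)
  have hKt : RT ^ 4 ≤ K ^ t := by
    rw [hRT, ← pow_mul, mul_comm t 4, pow_mul]
    exact Nat.pow_le_pow_left hK t
  have hn4 : RT ^ 4 * w ≤ n := le_trans (Nat.mul_le_mul_right _ hKt) hn
  have hn4' : RT ^ 4 ≤ n := le_trans (Nat.le_mul_of_pos_right _ (by omega)) hn4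
  have hWM : 8 * M ≤ W := by
    rw [hW]
    exact Nat.le_self_pow (by omega) _
  have hKRT : RT ≤ K ^ t := le_trans (Nat.le_self_pow (by norm_num) _) hKt
  obtain ⟨KT, hKT⟩ : ∃ KT, KT = K ^ t := ⟨_, rfl⟩
  rw [← hKT] at hKRT hcon
  obtain ⟨D, hD⟩ : ∃ D, D = n / (40 * A) := ⟨_, rfl⟩
  obtain ⟨κ, hκ⟩ : ∃ κ, κ = n / (V * t) := ⟨_, rfl⟩
  obtain ⟨d, hd⟩ : ∃ d, d = n / (2 * M) := ⟨_, rfl⟩
  obtain ⟨b, hb⟩ : ∃ b, b = n / (P * (t ^ 2 * W)) := ⟨_, rfl⟩
  obtain ⟨e, he⟩ : ∃ e, e = d - 2 * t := ⟨_, rfl⟩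
  obtain ⟨⟨hr1, h20, -⟩, ⟨hD1, hD2⟩, ⟨hde, hMdb, hen, hb1, hbd⟩, hnb, hnκ, hbn⟩ :=
    gen_order hF1 hA hV hP1 hM160 hw ht hWM hRt hn4 hr hD hκ hd hb he
  have h2d : 2 * d ≤ n := by
    rw [hd]
    refine le_trans ?_ (Nat.mul_div_le n (2 * M))
    exact Nat.mul_le_mul_right _ (by omega)
  have hdb : d + b ≤ n := le_trans (Nat.le_mul_of_pos_left _ hM1) hMdb
  have hn0 : 0 < n := by omega
  have hn' : (0 : ℝ) < n := by exact_mod_cast hn0
  have hM' : (0 : ℝ) < M := by exact_mod_cast hM1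
  have htw : t ≤ w := by
    by_contra h
    have h2 : E * w ≤ E * (t + 1) := Nat.mul_le_mul_left _ (by omega)
    omega
  have hδM : ((d + b : ℕ) : ℝ) / n ≤ 1 / M := by
    rw [div_le_div_iff₀ hn' hM']
    have h1 : (d + b) * M ≤ 1 * n := by
      rw [mul_comm, one_mul]
      exact hMdb
    exact_mod_cast h1
  have hδ : ((d + b : ℕ) : ℝ) / n ≤ (1 / (49152 * c * P) : ℝ) ^ (8 * E) := by
    refine hδM.trans (le_of_eq ?_)
    rw [hM, hX]
    push_cast
    rw [one_div_pow]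
  have hbud : (n : ℝ) * (((d + b : ℕ) : ℝ) / n) ^ t ≤ 2 * P * 32 ^ w * b := by
    have h1 : (((d + b : ℕ) : ℝ) / n) ^ t ≤ (1 / M) ^ t :=
      pow_le_pow_left₀ (by positivity) hδM t
    have h2 : (n : ℝ) ≤ 2 * (P * (t ^ 2 * W) * b) := by exact_mod_cast hnb
    have h3 : (W : ℝ) = 8 ^ t * M ^ t := by
      rw [hW]
      push_cast
      rw [mul_pow]
    have h4 : ((t : ℝ) ^ 2) ≤ 4 ^ t := by
      have h5 : (t : ℝ) ≤ 2 ^ t := by exact_mod_cast Nat.lt_two_pow_self.le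
      calc ((t : ℝ) ^ 2) ≤ (2 ^ t) ^ 2 := by gcongr
        _ = 4 ^ t := by
          rw [← pow_mul, mul_comm, pow_mul]
          norm_num
    calc (n : ℝ) * (((d + b : ℕ) : ℝ) / n) ^ t
        ≤ (2 * (P * (t ^ 2 * W) * b)) * (1 / M) ^ t := by gcongr
      _ = 2 * P * (t ^ 2 * 8 ^ t) * b := by
          rw [h3, one_div_pow]
          field_simp
      _ ≤ 2 * P * (4 ^ t * 8 ^ t) * b := by gcongr
      _ = 2 * P * 32 ^ t * b := by
          rw [← mul_pow]
          norm_num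
      _ ≤ 2 * P * 32 ^ w * b := by
          gcongr
          norm_num
  obtain ⟨TT, hTT, hcount⟩ := count_fair (Z := cvars f) (r := r) (c := c) (E := E) (t := t)
    (P := P) (d := d) (b := b) (card_cvars f) hw hE2 hE hf.1 hm hc hP1 hf.2 hn0 hdb hδ hbud
  have hTB := terms_bound (k := k) (Z := cvars f) (a := fpat f) (r := r) (D := D) (e := e)
    (t := t) (b := a) (κ := κ) (w := w) (tight_of_fair hw (by omega) hf h20) hr1
    (fun i => (card_cvars f i).le) ha (by rw [← hde]; exact hD1) (by rw [← hde]; exact hD2)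
    (TT := TT) (fun T hT => by rw [(hTT T hT).1, ← hde]) (fun T hT => (hTT T hT).2)
    (F := toCNF f) (fun C hC => by
      obtain ⟨j, -, rfl⟩ := mem_image.1 hC
      exact ⟨j, fun x hx => (holds_iff f j x).2 hx⟩) href
  obtain ⟨S, hS⟩ : ∃ S, S = {T | ∃ i, L i T ≠ 0}.ncard := ⟨_, rfl⟩
  rw [← hS] at hcon hTB
  rw [← hde] at hTB
  have hlt := gen_ineq (n := n) (c := c) (E := E) (V := V) (G := G) (s := s) (P := P) (X := X)
    (M := M) (RT := RT) (W := W) (κ := κ) (d := d) (b := b) (e := e) (t := t) (S := S) (K := KT)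
    hc hE2 (by omega) hG hG1 hGs hPs hP hX hM hM1 ht hW hRt hRT2 hn4' hdb hde hen hb1 hnb hnκ
    hbn h2d hKRT hcon.le
  obtain ⟨Y, hY⟩ : ∃ Y, Y = (2 * ((e + 1) ^ t + n ^ t)) ^ κ := ⟨_, rfl⟩
  obtain ⟨Y2, hY2⟩ : ∃ Y2, Y2 = S * (((e + 1) ^ t + 2 * n ^ t) ^ κ *
    ∑ i ∈ range (d + 1), n.choose i) := ⟨_, rfl⟩
  rw [← hY, ← hY2] at hTB hlt
  have h1 : (Y * n.choose d : ℝ) ≤ Y * (2 * ((d + b).choose d) * TT.card) := by gcongr
  have h2 : ((Y * TT.card : ℕ) : ℝ) ≤ Y2 := by exact_mod_cast hTB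
  have h3 : ((2 * ((d + b).choose d) * Y2 : ℕ) : ℝ) < ((Y * n.choose d : ℕ) : ℝ) := by
    exact_mod_cast hlt
  push_cast at h2 h3
  have h4 : (2 * ((d + b).choose d) * (Y * TT.card) : ℝ) ≤ 2 * ((d + b).choose d) * Y2 := by
    gcongr
  have h5 : (Y * (2 * ((d + b).choose d) * TT.card) : ℝ) =
      2 * ((d + b).choose d) * (Y * TT.card) := by ring
  linarith

/-- The probability that a random CNF is not hard. -/
theorem pr_not_needs {k : Type} [Field k] [Fintype k] {c E a A V G s P X M R K B t : ℕ}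
    (hc : 1 ≤ c) (hE2 : 2 ≤ E) (ha : 1 ≤ a) (hA : 1 ≤ A)
    (hV : V = 160 * A * ((Fintype.card k) ^ 2 * (a + 1)))
    (hG : G = 6 * (16 * E) ^ 3 * (8 * 49152 * c)) (hs : s = 256 * V * G) (hP : P = 256 * V * s)
    (hX : X = 49152 * c * P) (hM : M = X ^ (8 * E)) (hR : R = 512 * V * P * (32 * M))
    (hK : R ^ 4 ≤ K) (hw : 3 ≤ w) (ht : 1 ≤ t) (hE : E * (t + 1) + w ≤ E * w)
    (hn : K ^ t * w ≤ n) (hwn : w ≤ n) (hn16 : 16 ≤ n)
    (hm1 : n * 2 ^ w ≤ m) (hm2 : m ≤ n * c ^ w)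
    (hfair : ∀ r : ℕ, A * (w * r) ≤ n →
      (n : ℝ) * pr (fun f : ClauseList n m w => ¬ Fair (8 * E) c (w - 2) r f) ≤ B) :
    (n : ℝ) * pr (fun f : ClauseList n m w => ¬ Needs k t a (2 ^ (n / K ^ t)) (toCNF f)) ≤
      B + 1 := by
  classical
  have hne := nonempty_emb hwn
  have hn' : (0 : ℝ) < n := by exact_mod_cast (by omega : 0 < n)
  obtain ⟨r, hr⟩ : ∃ r, r = n / (A * w) := ⟨_, rfl⟩
  have hmain : pr (fun f : ClauseList n m w => ¬ Needs k t a (2 ^ (n / K ^ t)) (toCNF f)) ≤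
      (3 / 4) ^ n + pr (fun f : ClauseList n m w => ¬ Fair (8 * E) c (w - 2) r f) := by
    refine le_trans (pr_mono (q := fun f : ClauseList n m w =>
      (∃ x : Fin n → Bool, ∀ i, ¬ ∀ e, x ((f i).1 e) ≠ (f i).2 e) ∨
        ¬ Fair (8 * E) c (w - 2) r f)
      fun f hf => ?_) ((pr_or _ _).trans (add_le_add (pr_sat hwn hm1) le_rfl))
    by_contra hcon
    rw [not_or] at hcon
    obtain ⟨h1, h2⟩ := hcon
    push Not at h1 h2
    refine hf ⟨fun x => ?_, fun l L href => ?_⟩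
    · obtain ⟨i, hi⟩ := h1 x
      refine ⟨_, mem_image_of_mem _ (mem_univ i), ?_⟩
      rintro ⟨l, hl, hl'⟩
      obtain ⟨e, -, rfl⟩ := mem_image.1 hl
      exact hi e hl'
    · exact det_bound hc hE2 ha hA hV hG hs hP hX hM hR hK hw ht hE hn hr hm2 h2 href
  have hfin := hfair r (by
    rw [← mul_assoc, hr]
    exact Nat.mul_div_le _ _)
  have hsat : (n : ℝ) * (3 / 4) ^ n ≤ 1 / 2 := by
    have key : ∀ k : ℕ, ((k + 16 : ℕ) : ℝ) * (3 / 4) ^ (k + 16) ≤ 1 / 2 := by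
      intro k
      induction k with
      | zero => norm_num
      | succ k ih =>
        have h1 : (0 : ℝ) < (3 / 4) ^ (k + 16) := by positivity
        have h2 : (3 / 4 : ℝ) ^ (k + 1 + 16) = (3 / 4) ^ (k + 16) * (3 / 4) := by
          rw [← pow_succ]
        rw [h2]
        push_cast at ih ⊢
        nlinarith
    obtain ⟨k, hk⟩ : ∃ k, n = k + 16 := ⟨n - 16, by omega⟩
    rw [hk]
    exact key k
  have h1 := mul_le_mul_of_nonneg_left hmain hn'.le
  rw [mul_add] at h1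
  linarith

/-- More premises are allowed. -/
theorem Needs.anti {k : Type} [Field k] {t a a' N : ℕ} (h : a ≤ a')
    {F : Finset (Clause (Fin n))} (hF : Needs k t a' N F) : Needs k t a N F := by
  refine ⟨hF.1, fun l L hL => hF.2 l L ⟨hL.1, hL.2.1, fun i => ?_⟩⟩
  rcases hL.2.2 i with h1 | ⟨P, h1, h2, h3⟩
  · exact Or.inl h1
  · exact Or.inr ⟨P, h1.trans h, h2, h3⟩

/-- The main result. -/
theorem general_main (k : Type) [Field k] [Fintype k] (a c E : ℕ) :
    ∃ K : ℕ, 0 < K ∧ ∀ n w m t : ℕ, 3 ≤ w → 1 ≤ t → E * (t + 1) + w ≤ E * w →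
    K ^ t * w ≤ n → n * 2 ^ w ≤ m → m ≤ n * c ^ w →
    n * {f : ClauseList n m w | ¬ Needs k t a (2 ^ (n / K ^ t)) (toCNF f)}.ncard ≤
      K * Fintype.card (ClauseList n m w) := by
  classical
  obtain ⟨N, hN⟩ : ∃ N, N = 8 * (E + 2) := ⟨_, rfl⟩
  obtain ⟨A, hA⟩ : ∃ A, A = (96 * (c + 1)) ^ (2 * N) := ⟨_, rfl⟩
  obtain ⟨B, hB⟩ : ∃ B : ℕ, B = 2 * N * (24 * (c + 1)) ^ (2 * N) + 1 := ⟨_, rfl⟩
  have hA1 : 1 ≤ A := by
    rw [hA]
    exact Nat.one_le_pow _ _ (by omega)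
  have hfair : ∀ {n m w : ℕ}, w ≤ n → 3 ≤ w → m ≤ n * (c + 1) ^ w → ∀ r : ℕ,
      A * (w * r) ≤ n →
      (n : ℝ) * pr (fun f : ClauseList n m w => ¬ Fair N (c + 1) (w - 2) r f) ≤ B := by
    intro n m w hw hw3 hm r hr
    rw [hA] at hr
    have h := pr_not_fair (c := c + 1) (N := N) hw hw3 (by omega : w - 2 + 2 ≤ w) (by omega) hm
      (by omega) hr
    rw [hB]
    push_cast at h ⊢
    exact h
  clear hA hB
  obtain ⟨V, hV⟩ : ∃ V, V = 160 * A * ((Fintype.card k) ^ 2 * ((a + 1) + 1)) := ⟨_, rfl⟩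
  obtain ⟨G, hG⟩ : ∃ G, G = 6 * (16 * (E + 2)) ^ 3 * (8 * 49152 * (c + 1)) := ⟨_, rfl⟩
  obtain ⟨s, hs⟩ : ∃ s, s = 256 * V * G := ⟨_, rfl⟩
  obtain ⟨P, hP⟩ : ∃ P, P = 256 * V * s := ⟨_, rfl⟩
  obtain ⟨X, hX⟩ : ∃ X, X = 49152 * (c + 1) * P := ⟨_, rfl⟩
  obtain ⟨M, hM⟩ : ∃ M, M = X ^ (8 * (E + 2)) := ⟨_, rfl⟩
  obtain ⟨R, hR⟩ : ∃ R, R = 512 * V * P * (32 * M) := ⟨_, rfl⟩
  obtain ⟨R4, hR4⟩ : ∃ R4, R4 = R ^ 4 := ⟨_, rfl⟩
  obtain ⟨K, hK⟩ : ∃ K, K = R4 + B + 16 := ⟨_, rfl⟩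
  refine ⟨K, by omega, fun n w m t hw ht hE hn hm1 hm2 => ?_⟩
  have hm2' : m ≤ n * (c + 1) ^ w :=
    hm2.trans (Nat.mul_le_mul_left _ (Nat.pow_le_pow_left (by omega) _))
  have hE' : (E + 2) * (t + 1) + w ≤ (E + 2) * w := by
    have h1 : t + 1 ≤ w := by
      by_contra h
      have h2 : E * w ≤ E * (t + 1) := Nat.mul_le_mul_left _ (by omega)
      omega
    have h2 : (E + 2) * (t + 1) = E * (t + 1) + 2 * (t + 1) := by ring
    have h3 : (E + 2) * w = E * w + 2 * w := by ring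
    omega
  have hKt : K ≤ K ^ t := Nat.le_self_pow (by omega) _
  have hKn : K * w ≤ n := le_trans (Nat.mul_le_mul_right _ hKt) hn
  have hwn : w ≤ n := le_trans (Nat.le_mul_of_pos_left _ (by omega)) hKn
  have hKn' : K ≤ n := le_trans (Nat.le_mul_of_pos_right _ (by omega)) hKn
  have h := pr_not_needs (k := k) (c := c + 1) (E := E + 2) (a := a + 1) (A := A) (B := B)
    (K := K) (t := t) (by omega) (by omega) (by omega) hA1 hV hG hs hP hX hM hR
    (by rw [← hR4]; omega) hw ht hE' hn hwn (by omega) hm1 hm2'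
    (fun r hr => by rw [← hN]; exact hfair hwn hw hm2' r hr)
  have hne := nonempty_emb hwn
  have h0 : {f : ClauseList n m w | ¬ Needs k t a (2 ^ (n / K ^ t)) (toCNF f)}.ncard ≤
      (univ.filter fun f : ClauseList n m w =>
        ¬ Needs k t (a + 1) (2 ^ (n / K ^ t)) (toCNF f)).card := by
    rw [← Set.ncard_coe_finset]
    refine Set.ncard_le_ncard (fun f hf => ?_) (Set.toFinite _)
    rw [mem_coe, mem_filter]
    exact ⟨mem_univ _, fun hcon => hf (hcon.anti (by omega))⟩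
  have hpos : (0 : ℝ) < Fintype.card (ClauseList n m w) := by exact_mod_cast Fintype.card_pos
  have hBK : (B : ℝ) + 1 ≤ K := by exact_mod_cast (by omega : B + 1 ≤ K)
  have h2 := h.trans hBK
  rw [pr_eq, ← mul_div_assoc, div_le_iff₀ hpos] at h2
  have h3 : (n : ℝ) * ({f : ClauseList n m w |
      ¬ Needs k t a (2 ^ (n / K ^ t)) (toCNF f)}.ncard : ℝ) ≤
      K * Fintype.card (ClauseList n m w) := by
    refine le_trans ?_ h2
    have h4 : ({f : ClauseList n m w |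
      ¬ Needs k t a (2 ^ (n / K ^ t)) (toCNF f)}.ncard : ℝ) ≤
      ((univ.filter fun f : ClauseList n m w =>
        ¬ Needs k t (a + 1) (2 ^ (n / K ^ t)) (toCNF f)).card : ℝ) := by exact_mod_cast h0
    gcongr
  exact_mod_cast h3

end Pool.Agent.MP_9cec2c_lc.FieldProof
end

section

/-!
Random CNFs: all degrees at the same time.
-/

set_option autoImplicit false
set_option linter.unusedSectionVars false

namespace Pool.Agent.MP_9cec2c_lc.SizeDeg

open Finset Pool.Agent.MP_9cec2c_lc.ResPoly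
open Pool.Agent.MP_9cec2c_lc.Lift (FalseAt clausePoly PC)
open Pool.Agent.MP_9cec2c_lc.LovSch (pr_sat nonempty_emb)
open Pool.Agent.MP_9cec2c_lc.SubstRed
open Pool.Agent.MP_9cec2c_lc.FormulaLines
open Pool.Agent.MP_9cec2c_lc.SumProd (cvars card_cvars Fair pr_not_fair bd_large_five)
open Pool.Agent.MP_9cec2c_lc.FieldProof (ClauseList toCNF fpat holds_iff tight_of_fair)

variable {n m w : ℕ} {K : Type} [Field K]

/-- Fair lists have no derivation of small degree. -/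
theorem not_pc_of_fair {c θ r D N : ℕ} (hw : 3 ≤ w) (hN : 16 ≤ N) {f : ClauseList n m w}
    (hf : Fair N c θ r f) (hD : 20 * D ≤ w * r) (hr : 1 ≤ r) (hwD : w ≤ D) :
    ¬ PC K (toCNF f) D 1 := by
  classical
  intro hPC
  obtain ⟨J, hJ1, hJ2, hJ3⟩ := exists_ideal K (fpat f) (tight_of_fair hw hN hf hD) hr
    fun i => (card_cvars f i).le.trans hwD
  have hmem : ∀ p : (Fin n → Bool) → K, PC K (toCNF f) D p → p ∈ J := by
    intro p hp
    induction hp with
    | ax C hC _ =>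
      obtain ⟨j, -, rfl⟩ := mem_image.1 hC
      have h1 : clausePoly K (univ.image fun e => ((f j).1 e, (f j).2 e)) =
          Fals K (cvars f) (fpat f) j := by
        funext x
        unfold clausePoly Fals
        have h2 := holds_iff f j x
        by_cases h3 : ∀ v ∈ cvars f j, x v = fpat f j v
        · rw [if_pos h3, if_pos]
          intro l hl hcon
          obtain ⟨v, hv, hne⟩ := h2.1 ⟨l, hl, hcon⟩
          exact hne (h3 v hv)
        · rw [if_neg h3, if_neg]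
          intro hfal
          push Not at h3
          obtain ⟨l, hl, hx⟩ := h2.2 h3
          exact hfal l hl hx
      rw [h1]
      exact hJ1 j
    | add p q _ _ hp hq => exact Submodule.add_mem _ hp hq
    | smul a p _ hp => exact Submodule.smul_mem _ _ hp
    | mul i a p _ hpa ha hp =>
      rw [mul_comm]
      exact hJ2 a 1 p _ ha hp hpa (mon_mem_Poly K (card_singleton _).le)
  have h1 : (1 : (Fin n → Bool) → K) = mon K ∅ := by
    funext x
    unfold mon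
    rw [if_pos fun v hv => absurd hv (notMem_empty v)]
    rfl
  have h2 : (1 : (Fin n → Bool) → K) = 0 := by
    refine hJ3 1 (Submodule.subset_span ⟨∅, fun I hI hb => ?_, h1⟩) (hmem 1 hPC)
    have h3 := bd_large_five (card_cvars f) hw hN (hf.1 I hI)
    rw [subset_empty.1 hb, card_empty, mul_zero, Nat.le_zero] at h3
    rcases Nat.mul_eq_zero.1 h3 with h4 | h4
    · omega
    · exact card_eq_zero.1 h4
  exact one_ne_zero (congrFun h2 fun _ => false)

/-- The numbers for random CNFs. -/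
theorem rand_numbers {n t q s A a H Q M D E T : ℕ} (hq : 1 ≤ q) (hs : 1 ≤ s) (hA : 1 ≤ A)
    (ha : 1 ≤ a) (ht : 1 ≤ t) (hT : T = q * t) (hH : H = 160 * A)
    (hQ : Q = 16 * s * q * H * (2 * H) ^ q)
    (hM1 : Q ^ 4 ≤ M) (hM2 : 640 * (A * (a * q)) ≤ M) (hMn : M ^ t ≤ n)
    (hD : D = n / (40 * A)) (hE : D ≤ E + 2 * (a * T)) :
    (n + 1) ^ T * 2 ^ (n / M ^ t) ≤
      2 ^ (E ^ (T + 1) / (s * T * (2 * n) ^ T)) := by
  have hH1 : 1 ≤ H := by omega
  have hT1 : 1 ≤ T := by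
    rw [hT]
    exact Nat.mul_pos (by omega) (by omega)
  have ht2 : t ≤ 2 ^ t := Nat.lt_two_pow_self.le
  have hM640 : 640 ≤ M := by
    have h1 : 1 ≤ A * (a * q) := Nat.mul_pos (by omega) (Nat.mul_pos (by omega) (by omega))
    omega
  have hMt : M ≤ M ^ t := Nat.le_self_pow (by omega) M
  have hn : 0 < n := by omega
  -- the bound for `E`
  have hnT : 320 * (A * (a * T)) ≤ n := by
    refine le_trans ?_ hMn
    calc 320 * (A * (a * T)) = 320 * (A * (a * q)) * t := by rw [hT]; ring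
      _ ≤ (320 * (A * (a * q))) ^ t * 2 ^ t :=
          Nat.mul_le_mul (Nat.le_self_pow (by omega) _) ht2
      _ = (640 * (A * (a * q))) ^ t := by rw [← mul_pow]; ring
      _ ≤ M ^ t := Nat.pow_le_pow_left hM2 t
  have hA80 : 80 * A ≤ n := by
    refine le_trans ?_ (hMt.trans hMn)
    have h1 : A * 1 ≤ A * (a * q) := Nat.mul_le_mul_left _ (Nat.mul_pos (by omega) (by omega))
    omega
  have hHE : n ≤ H * E := by
    have h1 := Nat.lt_div_mul_add (a := n) (show 0 < 40 * A by omega)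
    rw [← hD] at h1
    have h2 : 160 * A * D ≤ 160 * A * (E + 2 * (a * T)) := Nat.mul_le_mul_left _ hE
    have h3 : 160 * A * (E + 2 * (a * T)) = H * E + 320 * (A * (a * T)) := by rw [hH]; ring
    have h4 : 4 * (D * (40 * A)) = 160 * A * D := by ring
    omega
  -- the main exponent
  obtain ⟨Z, hZ⟩ : ∃ Z, Z = Q ^ t := ⟨_, rfl⟩
  have hZ4 : Z ^ 4 ≤ n := by
    refine le_trans ?_ hMn
    rw [hZ, ← pow_mul, mul_comm t 4, pow_mul]
    exact Nat.pow_le_pow_left hM1 t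
  have hexp : n / Z ≤ E ^ (T + 1) / (s * T * (2 * n) ^ T) := by
    have hX : 0 < s * T * (2 * n) ^ T := by positivity
    rw [Nat.le_div_iff_mul_le hX]
    have h1 : s * T * (2 ^ T * H ^ (T + 1)) ≤ Z := by
      calc s * T * (2 ^ T * H ^ (T + 1)) = (s * q * H) * t * (2 * H) ^ T := by
            rw [mul_pow, pow_succ]
            nth_rewrite 1 [hT]
            ring
        _ ≤ (s * q * H) ^ t * 2 ^ t * (2 * H) ^ T :=
            Nat.mul_le_mul_right _ (Nat.mul_le_mul (Nat.le_self_pow (by omega) _) ht2)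
        _ = (2 * s * q * H * (2 * H) ^ q) ^ t := by
            rw [hT, pow_mul, ← mul_pow, ← mul_pow]
            congr 1
            ring
        _ ≤ Z := by
            rw [hZ, hQ]
            refine Nat.pow_le_pow_left ?_ t
            have h2 : 2 * s * q * H * (2 * H) ^ q ≤ 8 * (2 * s * q * H * (2 * H) ^ q) :=
              Nat.le_mul_of_pos_left _ (by norm_num)
            refine h2.trans (le_of_eq ?_)
            ring
    have hHT : 0 < H ^ (T + 1) := pow_pos (by omega) _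
    refine Nat.le_of_mul_le_mul_left (c := H ^ (T + 1)) ?_ hHT
    calc H ^ (T + 1) * (n / Z * (s * T * (2 * n) ^ T)) =
        n / Z * (s * T * (2 ^ T * H ^ (T + 1))) * n ^ T := by
          rw [mul_pow]
          ring
      _ ≤ n / Z * Z * n ^ T := Nat.mul_le_mul_right _ (Nat.mul_le_mul_left _ h1)
      _ ≤ n * n ^ T := Nat.mul_le_mul_right _ (Nat.div_mul_le_self n Z)
      _ = n ^ (T + 1) := by ring
      _ ≤ (H * E) ^ (T + 1) := Nat.pow_le_pow_left hHE _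
      _ = H ^ (T + 1) * E ^ (T + 1) := mul_pow _ _ _
  refine le_trans ?_ (Nat.pow_le_pow_right (by norm_num) hexp)
  -- the fourth root of `n`
  obtain ⟨y, hy1, hy2⟩ : ∃ y, y ^ 4 ≤ n ∧ n + 1 ≤ (y + 1) ^ 4 := by
    refine ⟨Nat.findGreatest (fun y => y ^ 4 ≤ n) n, ?_, ?_⟩
    · exact Nat.findGreatest_spec (P := fun y => y ^ 4 ≤ n) (m := 0) (Nat.zero_le _)
        (by norm_num)
    · by_contra hcon
      push Not at hcon
      have h1 : (Nat.findGreatest (fun y => y ^ 4 ≤ n) n + 1) ^ 4 ≤ n := by omega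
      have h2 : Nat.findGreatest (fun y => y ^ 4 ≤ n) n + 1 ≤ n :=
        le_trans (Nat.le_self_pow (by norm_num) _) h1
      have h3 := Nat.le_findGreatest (P := fun y => y ^ 4 ≤ n) h2 h1
      omega
  have hZ0 : 0 < Z := by
    rw [hZ, hQ]
    positivity
  have hyZ : Z ≤ y := by
    by_contra hcon
    have h1 : (y + 1) ^ 4 ≤ Z ^ 4 := Nat.pow_le_pow_left (by omega) 4
    omega
  have hy0 : 0 < y := by omega
  have hn1 : (n + 1) ^ T ≤ 2 ^ (4 * y * T) := by
    rw [pow_mul]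
    refine Nat.pow_le_pow_left (hy2.trans ?_) T
    rw [mul_comm 4 y, pow_mul]
    exact Nat.pow_le_pow_left Nat.lt_two_pow_self 4
  have hTZ : 8 * T ≤ Z := by
    rw [hT, hZ]
    calc 8 * (q * t) = 8 * q * t := by ring
      _ ≤ (8 * q) ^ t * 2 ^ t := Nat.mul_le_mul (Nat.le_self_pow (by omega) _) ht2
      _ = (16 * q) ^ t := by rw [← mul_pow]; ring
      _ ≤ Q ^ t := by
        refine Nat.pow_le_pow_left ?_ t
        rw [hQ]
        have h1 : 1 ≤ s * (H * (2 * H) ^ q) := by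
          have : 0 < s * (H * (2 * H) ^ q) := by positivity
          omega
        calc 16 * q = 16 * q * 1 := by ring
          _ ≤ 16 * q * (s * (H * (2 * H) ^ q)) := Nat.mul_le_mul_left _ h1
          _ = 16 * s * q * H * (2 * H) ^ q := by ring
  have h8 : 2 * (Z * (4 * y * T)) ≤ n := by
    calc 2 * (Z * (4 * y * T)) = Z * y * (8 * T) := by ring
      _ ≤ y * y * y := Nat.mul_le_mul (Nat.mul_le_mul_right _ hyZ) (hTZ.trans hyZ)
      _ = y ^ 3 * 1 := by ring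
      _ ≤ y ^ 3 * y := Nat.mul_le_mul_left _ hy0
      _ = y ^ 4 := by ring
      _ ≤ n := hy1
  have hZM : 2 * Z ≤ M ^ t := by
    have h2Z : 2 ≤ Z := by omega
    calc 2 * Z ≤ Z * Z := Nat.mul_le_mul_right _ h2Z
      _ = Z ^ 2 := by ring
      _ ≤ Z ^ 4 := Nat.pow_le_pow_right hZ0 (by norm_num)
      _ = (Q ^ 4) ^ t := by rw [hZ, ← pow_mul, mul_comm t 4, pow_mul]
      _ ≤ M ^ t := Nat.pow_le_pow_left hM1 t
  have h9 : 2 * (Z * (n / M ^ t)) ≤ n := by
    calc 2 * (Z * (n / M ^ t)) = 2 * Z * (n / M ^ t) := by ring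
      _ ≤ M ^ t * (n / M ^ t) := Nat.mul_le_mul_right _ hZM
      _ ≤ n := Nat.mul_div_le _ _
  have h10 : 4 * y * T + n / M ^ t ≤ n / Z := by
    rw [Nat.le_div_iff_mul_le hZ0]
    have h1 : (4 * y * T + n / M ^ t) * Z = Z * (4 * y * T) + Z * (n / M ^ t) := by ring
    omega
  calc (n + 1) ^ T * 2 ^ (n / M ^ t) ≤ 2 ^ (4 * y * T) * 2 ^ (n / M ^ t) :=
        Nat.mul_le_mul_right _ hn1
    _ = 2 ^ (4 * y * T + n / M ^ t) := (pow_add _ _ _).symm
    _ ≤ 2 ^ (n / Z) := Nat.pow_le_pow_right (by norm_num) h10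

end Pool.Agent.MP_9cec2c_lc.SizeDeg
end
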