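import Pool.Agent.Lib.MP_9cec2c_lc.Mg.G042

section

/-!
Multipliers for few spaces of functions of small degree.
-/

set_option autoImplicit false
set_option linter.unusedSectionVars false

namespace Pool.Agent.MP_9cec2c_lc.SizeDeg

open Finset Pool.Agent.MP_9cec2c_lc.ResPoly

variable {n : ℕ} {K : Type} [Field K] [Fintype K] {J : Submodule K ((Fin n → Bool) → K)} {D : ℕ}

/-- There is a function `f` outside of `J` and products `∏ cf (q u j)` of elements of `L u` with
`f * l * ∏ cf (q u j) ∈ J` for all `l ∈ L u`. -/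
theorem exists_mult (hJ : Closed J D) (h1J : (1 : (Fin n → Bool) → K) ∉ J)
    {U : Type} [Fintype U] {L : U → Submodule K ((Fin n → Bool) → K)} {e t k N : ℕ}
    (hL : ∀ u, L u ≤ Pol K n t) (hN : ∀ u, Module.finrank K (L u) ≤ N)
    (hD : e + 3 * t + k * ((Fintype.card K - 1) * t) ≤ D)
    (hcount : Fintype.card U * (N * ((e + 1) ^ t + 2 * n ^ t) ^ k) <
      (2 * ((e + 1) ^ t + n ^ t)) ^ k) :
    ∃ f ∈ Pol K n (e + 2 * t), f ∉ J ∧ ∃ q : U → Fin k → (Fin n → Bool) → K,
      (∀ u j, q u j ∈ L u) ∧ ∀ u, ∀ l ∈ L u, f * (l * ∏ j, cf (q u j)) ∈ J := by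
  classical
  have hF := hJ.filt
  obtain ⟨B, hB⟩ : ∃ B : ∀ u, Module.Basis (Fin (Module.finrank K (L u))) K (L u),
      B = fun u => Module.finBasis K (L u) := ⟨_, rfl⟩
  have hg : ∀ u i, ((B u i : L u) : (Fin n → Bool) → K) ∈ Pol K n t := fun u i =>
    hL u (B u i).2
  have hspan : ∀ u, Submodule.span K (Set.range fun i => ((B u i : L u) : (Fin n → Bool) → K)) =
      L u := by
    intro u
    have h1 : (Set.range fun i => ((B u i : L u) : (Fin n → Bool) → K)) =
        (L u).subtype '' Set.range (B u) := by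
      rw [← Set.range_comp]
      rfl
    rw [h1, ← Submodule.map_span, (B u).span_eq, Submodule.map_top, Submodule.range_subtype]
  obtain ⟨r, hr⟩ : ∃ r, r = (e + 1) ^ t := ⟨_, rfl⟩
  have hr0 : 0 < r := by
    rw [hr]
    exact pow_pos (Nat.succ_pos e) t
  have hap := fun u => exists_prod hF (β := Fin (Module.finrank K (L u))) (t := t) (d := e + t)
    (r := (e + 1) ^ t) (R := (e + 1) ^ t + n ^ t) (c := (e + 1) ^ t + 2 * n ^ t) (E := 0)
    (by ring) (hg u) k (by omega) (fun s g hgs hD => rf_ratio hJ hgs e t hD)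
  choose q hq hrk using hap
  have he2 : e + t + t = e + 2 * t := by ring
  obtain ⟨H, hH⟩ : ∃ H, H = rf (fun d => Pol K n d) J 1 (e + 2 * t) := ⟨_, rfl⟩
  have hH0 : 0 < H := by
    rw [hH]
    unfold rf
    rw [Nat.pos_iff_ne_zero]
    intro h0
    have h1 := Submodule.finrank_eq_zero.1 h0
    have h2 : mq J (1 : (Fin n → Bool) → K) 1 ∈
        (Pol K n (e + 2 * t)).map (mq J (1 : (Fin n → Bool) → K)) :=
      Submodule.mem_map_of_mem (one_mem_Pol _)
    rw [h1, Submodule.mem_bot, mq_eq_zero, mul_one] at h2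
    exact h1J h2
  have hrk2 : ∀ u, (2 * ((e + 1) ^ t + n ^ t)) ^ k *
      ∑ i, rf (fun d => Pol K n d) J (((B u i : L u) : (Fin n → Bool) → K) *
        ∏ j, cf (q u j)) (e + 2 * t) ≤ N * ((e + 1) ^ t + 2 * n ^ t) ^ k * H := by
    intro u
    have h1 := hrk u
    rw [he2, ← hr, mul_zero, mul_zero, add_zero, Fintype.card_fin, ← hH] at h1
    have h2 := Nat.le_of_mul_le_mul_left h1 hr0
    rw [← hr]
    refine h2.trans ?_
    calc (r + 2 * n ^ t) ^ k * (Module.finrank K (L u) * H) ≤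
        (r + 2 * n ^ t) ^ k * (N * H) :=
          Nat.mul_le_mul_left _ (Nat.mul_le_mul_right _ (hN u))
      _ = N * (r + 2 * n ^ t) ^ k * H := by ring
  have hsum : ∑ z : Σ u : U, Fin (Module.finrank K (L u)), rf (fun d => Pol K n d) J
      (((B z.1 z.2 : L z.1) : (Fin n → Bool) → K) * ∏ j, cf (q z.1 j)) (e + 2 * t) < H := by
    refine Nat.lt_of_mul_lt_mul_left (a := (2 * ((e + 1) ^ t + n ^ t)) ^ k) ?_
    rw [Fintype.sum_sigma, mul_sum]
    calc ∑ u : U, (2 * ((e + 1) ^ t + n ^ t)) ^ k * ∑ i, rf (fun d => Pol K n d) J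
          (((B u i : L u) : (Fin n → Bool) → K) * ∏ j, cf (q u j)) (e + 2 * t) ≤
        ∑ _u : U, N * ((e + 1) ^ t + 2 * n ^ t) ^ k * H := sum_le_sum fun u _ => hrk2 u
      _ = Fintype.card U * (N * ((e + 1) ^ t + 2 * n ^ t) ^ k) * H := by
          rw [sum_const, smul_eq_mul, card_univ]
          ring
      _ < (2 * ((e + 1) ^ t + n ^ t)) ^ k * H := Nat.mul_lt_mul_of_pos_right hcount hH0
  rw [hH] at hsum
  obtain ⟨f, hfM, hfJ, hfe⟩ := exists_multiplier hsum
  refine ⟨f, hfM, hfJ, q, fun u j => ?_, fun u l hl => ?_⟩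
  · rw [← hspan u]
    exact hq u j
  · rw [← hspan u] at hl
    induction hl using Submodule.span_induction with
    | mem l hl =>
      obtain ⟨i, rfl⟩ := hl
      exact hfe ⟨u, i⟩
    | zero =>
      rw [zero_mul, mul_zero]
      exact Submodule.zero_mem _
    | add l l' _ _ hl hl' =>
      rw [add_mul, mul_add]
      exact Submodule.add_mem _ hl hl'
    | smul x l _ hl =>
      rw [smul_mul_assoc, mul_smul_comm]
      exact Submodule.smul_mem _ _ hl

/-- The properties of the multiplier `f` and the functions `P T` that belong to the terms in `U`. -/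
structure Mult (J : Submodule K ((Fin n → Bool) → K)) (D d τ t : ℕ)
    (U : Set (Set ((Fin n → Bool) → K))) (f : (Fin n → Bool) → K)
    (P : Set ((Fin n → Bool) → K) → (Fin n → Bool) → K) : Prop where
  f_mem : f ∈ Pol K n d
  P_mem : ∀ T ∈ U, P T ∈ Pol K n τ
  deg : ∀ T ∈ U, ∀ g ∈ T, g ∈ Pol K n t
  kill : ∀ T ∈ U, ∀ g ∈ T, f * P T * g ∈ J
  absorb : ∀ T ∈ U, ∀ (a : ℕ) (X : (Fin n → Bool) → K), X ∈ Pol K n a → a + τ ≤ D →
    (∀ g ∈ T, X * g ∈ J) → X * P T - X ∈ J
  f_notMem : f ∉ J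
  P_empty : P ∅ = 1

/-- Few terms have a multiplier. -/
theorem exists_Mult (hJ : Closed J D) (h1J : (1 : (Fin n → Bool) → K) ∉ J)
    (U : Finset (Set ((Fin n → Bool) → K))) {e t k : ℕ}
    (hU : ∀ T ∈ U, ∀ g ∈ T, g ∈ Pol K n t)
    (hD : e + 3 * t + k * ((Fintype.card K - 1) * t) ≤ D)
    (hcount : U.card * ((n + 1) ^ t * ((e + 1) ^ t + 2 * n ^ t) ^ k) <
      (2 * ((e + 1) ^ t + n ^ t)) ^ k) :
    ∃ f P, Mult J D (e + 2 * t) (k * ((Fintype.card K - 1) * t)) t (U : Set _) f P := by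
  classical
  have hL : ∀ u : {T // T ∈ U}, Submodule.span K u.1 ≤ Pol K n t := by
    rintro ⟨T, hT⟩
    rw [Submodule.span_le]
    exact hU T hT
  obtain ⟨f, hf, hfJ, q, hq, hfl⟩ := exists_mult hJ h1J (U := {T // T ∈ U})
    (L := fun u => Submodule.span K u.1) (e := e) (t := t) (k := k) (N := (n + 1) ^ t) hL
    (fun u => (Submodule.finrank_mono (hL u)).trans (finrank_Pol_le K n t)) hD
    (by rw [Fintype.card_coe]; exact hcount)
  obtain ⟨P, hP⟩ : ∃ P : Set ((Fin n → Bool) → K) → (Fin n → Bool) → K,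
      P = fun T => if h : T ∈ U then ∏ j, cf (q ⟨T, h⟩ j) else 1 := ⟨_, rfl⟩
  have hPT : ∀ T (h : T ∈ U), P T = ∏ j, cf (q ⟨T, h⟩ j) := by
    intro T h
    rw [hP]
    dsimp only
    rw [dif_pos h]
  refine ⟨f, P, hf, fun T hT => ?_, hU, fun T hT g hg => ?_, fun T hT a X hX ha hXg => ?_, hfJ, ?_⟩
  · rw [hPT T hT]
    exact prod_cf_mem fun j => hL ⟨T, hT⟩ (hq ⟨T, hT⟩ j)
  · rw [hPT T hT]
    have h1 := hfl ⟨T, hT⟩ g (Submodule.subset_span hg)
    rw [mul_assoc, mul_comm _ g]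
    exact h1
  · have hall : ∀ l ∈ Submodule.span K T, X * l ∈ J := by
      intro l hl
      induction hl using Submodule.span_induction with
      | mem l hl => exact hXg l hl
      | zero =>
        rw [mul_zero]
        exact Submodule.zero_mem _
      | add l l' _ _ hl hl' =>
        rw [mul_add]
        exact Submodule.add_mem _ hl hl'
      | smul x l _ hl =>
        rw [mul_smul_comm]
        exact Submodule.smul_mem _ _ hl
    rw [hPT T hT]
    exact kill_cf hJ.filt hX (fun j => hL ⟨T, hT⟩ (hq ⟨T, hT⟩ j))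
      (fun j => hall _ (hq ⟨T, hT⟩ j)) ha
  · by_cases h : (∅ : Set ((Fin n → Bool) → K)) ∈ U
    · rw [hPT ∅ h]
      refine prod_eq_one fun j _ => ?_
      have h1 := hq ⟨∅, h⟩ j
      rw [Submodule.span_empty, Submodule.mem_bot] at h1
      rw [h1]
      unfold cf
      have hK := one_lt_K (K := K)
      rw [zero_pow (by omega), sub_zero]
    · rw [hP]
      dsimp only
      rw [dif_neg h]

end Pool.Agent.MP_9cec2c_lc.SizeDeg
end

section

/-!
The rules of the polynomial calculus over terms are sound modulo `J`.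
-/

set_option autoImplicit false
set_option linter.unusedSectionVars false

namespace Pool.Agent.MP_9cec2c_lc.SizeDeg

open Finset Pool.Agent.MP_9cec2c_lc.ResPoly

variable {n : ℕ} {K : Type} [Field K] [Fintype K] {J : Submodule K ((Fin n → Bool) → K)}
  {D d τ t : ℕ} {U : Set (Set ((Fin n → Bool) → K))} {f : (Fin n → Bool) → K}
  {P : Set ((Fin n → Bool) → K) → (Fin n → Bool) → K}

/-- The product of terms. -/
theorem Mult.union (hM : Mult J D d τ t U f P) (hJ : Closed J D)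
    {Γ T : Set ((Fin n → Bool) → K)} (hΓ : Γ ∈ U) (hT : T ∈ U) (hΓT : Γ ∪ T ∈ U)
    (h1 : d + 3 * τ ≤ D) (h2 : d + 2 * τ + t ≤ D) :
    f * P (Γ ∪ T) - f * P T * P Γ ∈ J := by
  obtain ⟨X, hX⟩ : ∃ X, X = f * P (Γ ∪ T) := ⟨_, rfl⟩
  obtain ⟨Y, hY⟩ : ∃ Y, Y = f * P T * P Γ := ⟨_, rfl⟩
  have hXm : X ∈ Pol K n (d + τ) := by
    rw [hX]
    exact Poly_mul K hM.f_mem (hM.P_mem _ hΓT)
  have hXg : ∀ g ∈ Γ ∪ T, X * g ∈ J := by
    rw [hX]
    exact hM.kill _ hΓT
  have ha1 : X * P T - X ∈ J := hM.absorb T hT (d + τ) X hXm (by omega) fun g hg =>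
    hXg g (Or.inr hg)
  have ha2 : X * P T * P Γ - X * P T ∈ J := by
    refine hM.absorb Γ hΓ (d + τ + τ) _ (Poly_mul K hXm (hM.P_mem T hT)) (by omega)
      fun g hg => ?_
    have h3 : X * P T * g = X * g * P T := by ring
    rw [h3]
    exact hJ (d + τ + t) τ _ _ (by omega) (hXg g (Or.inl hg))
      (Poly_mul K hXm (hM.deg Γ hΓ g hg)) (hM.P_mem T hT)
  have ha3 : Y * P (Γ ∪ T) - Y ∈ J := by
    refine hM.absorb _ hΓT (d + τ + τ) _ ?_ (by omega) fun g hg => ?_
    · rw [hY]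
      exact Poly_mul K (Poly_mul K hM.f_mem (hM.P_mem T hT)) (hM.P_mem Γ hΓ)
    · rw [hY]
      rcases hg with hg | hg
      · have h3 : f * P T * P Γ * g = f * P Γ * g * P T := by ring
        rw [h3]
        exact hJ (d + τ + t) τ _ _ (by omega) (hM.kill Γ hΓ g hg)
          (Poly_mul K (Poly_mul K hM.f_mem (hM.P_mem Γ hΓ)) (hM.deg Γ hΓ g hg))
          (hM.P_mem T hT)
      · have h3 : f * P T * P Γ * g = f * P T * g * P Γ := by ring
        rw [h3]
        exact hJ (d + τ + t) τ _ _ (by omega) (hM.kill T hT g hg)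
          (Poly_mul K (Poly_mul K hM.f_mem (hM.P_mem T hT)) (hM.deg T hT g hg))
          (hM.P_mem Γ hΓ)
  have h3 : f * P (Γ ∪ T) - f * P T * P Γ = (Y * P (Γ ∪ T) - Y) -
      (X * P T * P Γ - X * P T) - (X * P T - X) := by
    rw [hX, hY]
    ring
  rw [h3]
  exact Submodule.sub_mem _ (Submodule.sub_mem _ ha3 ha2) ha1

/-- The indicator function of the points where exactly the equations in `σ` are true. -/
noncomputable def pat (A σ : Finset ((Fin n → Bool) → K)) : (Fin n → Bool) → K :=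
  open Classical in (∏ g ∈ σ, cf g) * ∏ g ∈ A \ σ, (1 - cf g)

theorem sum_pat (A : Finset ((Fin n → Bool) → K)) : ∑ σ ∈ A.powerset, pat A σ = 1 := by
  classical
  have h := prod_add (fun g : (Fin n → Bool) → K => cf g) (fun g => 1 - cf g) A
  unfold pat
  have h1 : ∏ g ∈ A, (cf g + (1 - cf g)) = 1 := prod_eq_one fun g _ => by ring
  rw [h1] at h
  refine Eq.trans (sum_congr rfl fun σ _ => ?_) h.symm
  congr!

theorem prod_mem_Pol {A : Finset ((Fin n → Bool) → K)} {h : ((Fin n → Bool) → K) →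
    (Fin n → Bool) → K} {p : ℕ} (hA : ∀ g ∈ A, h g ∈ Pol K n p) :
    ∏ g ∈ A, h g ∈ Pol K n (A.card * p) := by
  classical
  induction A using Finset.induction_on with
  | empty =>
    rw [prod_empty]
    exact one_mem_Pol _
  | insert a A ha ih =>
    rw [prod_insert ha, card_insert_of_notMem ha]
    have h1 : (A.card + 1) * p = p + A.card * p := by ring
    rw [h1]
    exact Poly_mul K (hA a (mem_insert_self _ _)) (ih fun g hg => hA g (mem_insert_of_mem hg))

theorem pat_mem {A σ : Finset ((Fin n → Bool) → K)} (hσ : σ ⊆ A)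
    (hA : ∀ g ∈ A, g ∈ Pol K n t) :
    pat A σ ∈ Pol K n (A.card * ((Fintype.card K - 1) * t)) := by
  classical
  unfold pat
  have h1 : A.card * ((Fintype.card K - 1) * t) = σ.card * ((Fintype.card K - 1) * t) +
      (A \ σ).card * ((Fintype.card K - 1) * t) := by
    rw [← add_mul, add_comm, card_sdiff_add_card_eq_card hσ]
  rw [h1]
  refine Poly_mul K (prod_mem_Pol fun g hg => cf_mem (hA g (hσ hg))) ?_
  exact prod_mem_Pol fun g hg => Submodule.sub_mem _ (one_mem_Pol _)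
    (cf_mem (hA g (mem_sdiff.1 hg).1))

/-- The pattern `σ` kills its elements. -/
theorem pat_mul {A σ : Finset ((Fin n → Bool) → K)} {g : (Fin n → Bool) → K} (hg : g ∈ σ) :
    pat A σ * g = 0 := by
  classical
  unfold pat
  rw [← mul_prod_erase σ (fun g => cf g) hg]
  have h := cf_mul_self g
  linear_combination ((∏ x ∈ σ.erase g, cf x) * ∏ g ∈ A \ σ, (1 - cf g)) * h

/-- The pattern `σ` is a multiple of the other elements of `A`. -/
theorem exists_pat_factor {A σ : Finset ((Fin n → Bool) → K)} (hσ : σ ⊆ A)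
    (hA : ∀ g ∈ A, g ∈ Pol K n t) {g : (Fin n → Bool) → K} (hg : g ∈ A) (hgσ : g ∉ σ) :
    ∃ y ∈ Pol K n ((Fintype.card K - 2) * t + (A.card - 1) * ((Fintype.card K - 1) * t)),
      pat A σ = g * y := by
  classical
  have hK := one_lt_K (K := K)
  have hgA : g ∈ A \ σ := mem_sdiff.2 ⟨hg, hgσ⟩
  refine ⟨g ^ (Fintype.card K - 2) * ((∏ g ∈ σ, cf g) * ∏ h ∈ (A \ σ).erase g, (1 - cf h)),
    ?_, ?_⟩
  · refine Poly_mul K (pow_mem_Pol (hA g hg) _) ?_
    have h1 : (A.card - 1) * ((Fintype.card K - 1) * t) =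
        σ.card * ((Fintype.card K - 1) * t) +
        ((A \ σ).erase g).card * ((Fintype.card K - 1) * t) := by
      rw [← add_mul, card_erase_of_mem hgA]
      congr 1
      have h2 := card_sdiff_add_card_eq_card hσ
      have h3 : 0 < (A \ σ).card := card_pos.2 ⟨g, hgA⟩
      omega
    rw [h1]
    refine Poly_mul K (prod_mem_Pol fun g hg => cf_mem (hA g (hσ hg))) ?_
    exact prod_mem_Pol fun h hh => Submodule.sub_mem _ (one_mem_Pol _)
      (cf_mem (hA h (mem_sdiff.1 (mem_of_mem_erase hh)).1))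
  · unfold pat
    rw [← mul_prod_erase (A \ σ) (fun g => 1 - cf g) hgA]
    have h1 : (1 : (Fin n → Bool) → K) - cf g = g * g ^ (Fintype.card K - 2) := by
      unfold cf
      rw [← pow_succ']
      have h2 : Fintype.card K - 2 + 1 = Fintype.card K - 1 := by omega
      rw [h2]
      ring
    rw [h1]
    ring

open Classical in
theorem pat_apply {A σ : Finset ((Fin n → Bool) → K)} (hσ : σ ⊆ A) (x : Fin n → Bool) :
    pat A σ x = if ∀ g ∈ A, g x = 0 ↔ g ∈ σ then 1 else 0 := by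
  unfold pat
  rw [Pi.mul_apply, Finset.prod_apply, Finset.prod_apply]
  by_cases h : ∀ g ∈ A, g x = 0 ↔ g ∈ σ
  · rw [if_pos h, prod_eq_one, prod_eq_one, one_mul]
    · intro g hg
      rw [mem_sdiff] at hg
      rw [Pi.sub_apply, Pi.one_apply, cf_apply, if_neg, sub_zero]
      exact fun h1 => hg.2 ((h g hg.1).1 h1)
    · intro g hg
      rw [cf_apply, if_pos ((h g (hσ hg)).2 hg)]
  · rw [if_neg h]
    push Not at h
    obtain ⟨g, hg, h1 | h1⟩ := h
    · refine mul_eq_zero_of_right _ (prod_eq_zero (mem_sdiff.2 ⟨hg, h1.2⟩) ?_)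
      rw [Pi.sub_apply, Pi.one_apply, cf_apply, if_pos h1.1, sub_self]
    · refine mul_eq_zero_of_left (prod_eq_zero h1.2 ?_) _
      rw [cf_apply, if_neg h1.1]

end Pool.Agent.MP_9cec2c_lc.SizeDeg
end
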