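import Pool.Agent.Lib.MP_9cec2c_lc.Mg.G048
import Pool.Agent.Lib.MP_9cec2c_lc.Mg.G042
import Pool.Agent.Lib.MP_9cec2c_lc.SZ.Defs

section

/-!
The axioms of the polynomial calculus over terms are sound modulo `J`.
-/

set_option autoImplicit false
set_option linter.unusedSectionVars false

namespace Pool.Agent.MP_9cec2c_lc.SizeDeg

open Finset Pool.Agent.MP_9cec2c_lc.ResPoly

variable {n : ℕ} {K : Type} [Field K] [Fintype K] {J : Submodule K ((Fin n → Bool) → K)}
  {D d τ t : ℕ} {U : Set (Set ((Fin n → Bool) → K))} {f : (Fin n → Bool) → K}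
  {P : Set ((Fin n → Bool) → K) → (Fin n → Bool) → K}

open Classical in
/-- Local axioms. -/
theorem Mult.local (hM : Mult J D d τ t U f P) (hJ : Closed J D)
    {Γ : Set ((Fin n → Bool) → K)} {A : Finset ((Fin n → Bool) → K)}
    {c : Finset ((Fin n → Bool) → K) → K} {w p : ℕ} {z : (Fin n → Bool) → K}
    (hp : p = (Fintype.card K - 1) * t)
    (hA : ∀ g ∈ A, g ∈ Pol K n t) (hU : ∀ B ⊆ A, c B ≠ 0 → Γ ∪ ↑B ∈ U)
    (hzJ : z ∈ J) (hzw : z ∈ Pol K n w)
    (hz : ∀ x, (∑ B ∈ A.powerset, if ∀ g ∈ B, g x = 0 then c B else 0) ≠ 0 → z x = 1)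
    (h1 : d + 2 * τ + A.card * p ≤ D) (h2 : d + τ + t + A.card * p ≤ D)
    (h3 : d + τ + w + A.card * p ≤ D) :
    ∑ B ∈ A.powerset, c B • (f * P (Γ ∪ ↑B)) ∈ J := by
  have hK := one_lt_K (K := K)
  have key : ∀ σ ∈ A.powerset, (∑ B ∈ A.powerset, c B • (f * P (Γ ∪ ↑B))) * pat A σ ∈ J := by
    intro σ hσ
    rw [mem_powerset] at hσ
    have hpat : pat A σ ∈ Pol K n (A.card * p) := by
      rw [hp]
      exact pat_mem hσ hA
    have hfP : ∀ T ∈ U, f * P T ∈ Pol K n (d + τ) := fun T hT =>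
      Poly_mul K hM.f_mem (hM.P_mem T hT)
    have hi : ∀ B ⊆ A, c B ≠ 0 → ¬ B ⊆ σ → f * P (Γ ∪ ↑B) * pat A σ ∈ J := by
      intro B hB hc hBσ
      obtain ⟨g, hg, hgσ⟩ := not_subset.1 hBσ
      obtain ⟨y, hy, hy2⟩ := exists_pat_factor hσ hA (hB hg) hgσ
      have h4 : f * P (Γ ∪ ↑B) * pat A σ = f * P (Γ ∪ ↑B) * g * y := by
        rw [hy2]
        ring
      rw [h4]
      have hT := hU B hB hc
      have hgT : g ∈ Γ ∪ ↑B := Or.inr (mem_coe.2 hg)
      refine hJ (d + τ + t) _ _ _ ?_ (hM.kill _ hT g hgT)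
        (Poly_mul K (hfP _ hT) (hM.deg _ hT g hgT)) hy
      rw [← hp]
      have h5 : 0 < A.card := card_pos.2 ⟨g, hB hg⟩
      have h6 : A.card * p = (A.card - 1) * p + p := by
        obtain ⟨a, ha⟩ : ∃ a, A.card = a + 1 := ⟨A.card - 1, by omega⟩
        rw [ha, Nat.add_sub_cancel]
        ring
      have h7 : (Fintype.card K - 2) * t ≤ p := by
        rw [hp]
        exact Nat.mul_le_mul_right _ (by omega)
      omega
    have hii : ∀ B ⊆ A, ∀ B' ⊆ A, c B ≠ 0 → c B' ≠ 0 → B ⊆ σ → B' ⊆ σ →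
        f * P (Γ ∪ ↑B) * pat A σ - f * P (Γ ∪ ↑B') * pat A σ ∈ J := by
      intro B hB B' hB' hc hc' hBσ hB'σ
      have hT := hU B hB hc
      have hT' := hU B' hB' hc'
      have habs : ∀ B1 ⊆ A, ∀ B2 ⊆ A, Γ ∪ ↑B1 ∈ U → Γ ∪ ↑B2 ∈ U → B2 ⊆ σ →
          f * P (Γ ∪ ↑B1) * pat A σ * P (Γ ∪ ↑B2) - f * P (Γ ∪ ↑B1) * pat A σ ∈ J := by
        intro B1 _ B2 _ hT1 hT2 hB2
        refine hM.absorb _ hT2 (d + τ + A.card * p) _ (Poly_mul K (hfP _ hT1) hpat) (by omega)
          fun g hg => ?_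
        rcases hg with hg | hg
        · have h4 : f * P (Γ ∪ ↑B1) * pat A σ * g = f * P (Γ ∪ ↑B1) * g * pat A σ := by ring
          rw [h4]
          have hgT : g ∈ Γ ∪ ↑B1 := Or.inl hg
          exact hJ (d + τ + t) _ _ _ (by omega) (hM.kill _ hT1 g hgT)
            (Poly_mul K (hfP _ hT1) (hM.deg _ hT1 g hgT)) hpat
        · have h4 : f * P (Γ ∪ ↑B1) * pat A σ * g = 0 := by
            rw [mul_assoc, pat_mul (hB2 (mem_coe.1 hg)), mul_zero]
          rw [h4]
          exact Submodule.zero_mem _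
      have h4 := habs B hB B' hB' hT hT' hB'σ
      have h5 := habs B' hB' B hB hT' hT hBσ
      have h6 : f * P (Γ ∪ ↑B) * pat A σ - f * P (Γ ∪ ↑B') * pat A σ =
          (f * P (Γ ∪ ↑B') * pat A σ * P (Γ ∪ ↑B) - f * P (Γ ∪ ↑B') * pat A σ) -
          (f * P (Γ ∪ ↑B) * pat A σ * P (Γ ∪ ↑B') - f * P (Γ ∪ ↑B) * pat A σ) := by ring
      rw [h6]
      exact Submodule.sub_mem _ h5 h4
    rw [sum_mul]
    simp only [smul_mul_assoc]
    by_cases hex : ∃ B0 ⊆ σ, c B0 ≠ 0
    · obtain ⟨B0, hB0, hc0⟩ := hex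
      obtain ⟨Y, hY⟩ : ∃ Y, Y = f * P (Γ ∪ ↑B0) * pat A σ := ⟨_, rfl⟩
      obtain ⟨N, hN⟩ : ∃ N : K, N = ∑ B ∈ A.powerset, if B ⊆ σ then c B else 0 := ⟨_, rfl⟩
      have h4 : ∑ B ∈ A.powerset, c B • (f * P (Γ ∪ ↑B) * pat A σ) =
          ∑ B ∈ A.powerset, (c B • (f * P (Γ ∪ ↑B) * pat A σ) -
            (if B ⊆ σ then c B else 0) • Y) + N • Y := by
        rw [sum_sub_distrib, hN, sum_smul]
        abel
      rw [h4]
      refine Submodule.add_mem _ (Submodule.sum_mem _ fun B hB => ?_) ?_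
      · rw [mem_powerset] at hB
        by_cases hc : c B = 0
        · rw [hc, zero_smul, ite_self, zero_smul, sub_zero]
          exact Submodule.zero_mem _
        by_cases hBσ : B ⊆ σ
        · rw [if_pos hBσ, ← smul_sub, hY]
          exact Submodule.smul_mem _ _ (hii B hB B0 (hB0.trans hσ) hc hc0 hBσ hB0)
        · rw [if_neg hBσ, zero_smul, sub_zero]
          exact Submodule.smul_mem _ _ (hi B hB hc hBσ)
      · by_cases hN0 : N = 0
        · rw [hN0, zero_smul]
          exact Submodule.zero_mem _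
        · have hYm : Y ∈ Pol K n (d + τ + A.card * p) := by
            rw [hY]
            exact Poly_mul K (hfP _ (hU B0 (hB0.trans hσ) hc0)) hpat
          have h5 : Y = z * Y := by
            funext x
            rw [Pi.mul_apply]
            by_cases h6 : pat A σ x = 0
            · have h7 : Y x = 0 := by
                rw [hY, Pi.mul_apply, h6, mul_zero]
              rw [h7, mul_zero]
            · rw [hz x, one_mul]
              rw [pat_apply hσ] at h6
              have h7 : ∀ g ∈ A, g x = 0 ↔ g ∈ σ := by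
                by_contra hcon
                exact h6 (if_neg hcon)
              have h8 : (∑ B ∈ A.powerset, if ∀ g ∈ B, g x = 0 then c B else 0) = N := by
                rw [hN]
                refine sum_congr rfl fun B hB => ?_
                rw [mem_powerset] at hB
                refine if_congr ?_ rfl rfl
                exact ⟨fun h g hg => (h7 g (hB hg)).1 (h g hg),
                  fun h g hg => (h7 g (hB hg)).2 (h hg)⟩
              rw [h8]
              exact hN0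
          rw [h5]
          exact Submodule.smul_mem _ _ (hJ w _ _ _ (by omega) hzJ hzw hYm)
    · push Not at hex
      refine Submodule.sum_mem _ fun B hB => ?_
      rw [mem_powerset] at hB
      by_cases hc : c B = 0
      · rw [hc, zero_smul]
        exact Submodule.zero_mem _
      · exact Submodule.smul_mem _ _ (hi B hB hc fun hBσ => hc (hex B hBσ))
  have h : ∑ B ∈ A.powerset, c B • (f * P (Γ ∪ ↑B)) = ∑ σ ∈ A.powerset,
      (∑ B ∈ A.powerset, c B • (f * P (Γ ∪ ↑B))) * pat A σ := by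
    rw [← mul_sum, sum_pat, mul_one]
  rw [h]
  exact Submodule.sum_mem _ key

end Pool.Agent.MP_9cec2c_lc.SizeDeg
end

section

/-!
The choice of the parameters for the polynomial calculus over terms.
-/

set_option autoImplicit false
set_option linter.unusedSectionVars false

namespace Pool.Agent.MP_9cec2c_lc.SizeDeg

open Finset

/-- The choice of the parameters. -/
theorem exists_numbers3 {n E T p : ℕ} (hT : 0 < T) (hp : 0 < p) (hE : E + 1 ≤ n)
    (hm : 0 < E ^ (T + 1) / (48 * p * (2 * n) ^ T)) :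
    ∃ e k : ℕ, e + 3 * (k * p) = E ∧
      2 ^ (E ^ (T + 1) / (48 * p * (2 * n) ^ T)) * ((e + 1) ^ T + 2 * n ^ T) ^ k ≤
        (2 * ((e + 1) ^ T + n ^ T)) ^ k := by
  obtain ⟨m, hme⟩ : ∃ m, m = E ^ (T + 1) / (48 * p * (2 * n) ^ T) := ⟨_, rfl⟩
  rw [← hme] at hm ⊢
  have hmE : m * (48 * p * (2 * n) ^ T) ≤ E ^ (T + 1) := by
    rw [hme]
    exact Nat.div_mul_le_self _ _
  have hn : 0 < n := by omega
  have hnT : 0 < n ^ T := pow_pos hn T
  have hEn : E ^ (T + 1) ≤ E * n ^ T := by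
    rw [pow_succ, mul_comm]
    exact Nat.mul_le_mul_left _ (Nat.pow_le_pow_left (by omega) T)
  have h96 : 96 * p ≤ E := by
    have h1 : 1 * (48 * p * (2 * n) ^ T) ≤ E * n ^ T :=
      (Nat.mul_le_mul_right _ hm).trans (hmE.trans hEn)
    rw [one_mul, mul_pow] at h1
    have h2 : 2 ≤ 2 ^ T := by
      calc 2 = 2 ^ 1 := (pow_one 2).symm
        _ ≤ 2 ^ T := Nat.pow_le_pow_right (by norm_num) hT
    refine Nat.le_of_mul_le_mul_right (c := n ^ T) ?_ hnT
    calc 96 * p * n ^ T = 48 * p * (2 * n ^ T) := by ring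
      _ ≤ 48 * p * (2 ^ T * n ^ T) := Nat.mul_le_mul_left _ (Nat.mul_le_mul_right _ h2)
      _ ≤ E * n ^ T := h1
  obtain ⟨k, hk⟩ : ∃ k, k = E / (6 * p) := ⟨_, rfl⟩
  have hk1 : k * (6 * p) ≤ E := by
    rw [hk]
    exact Nat.div_mul_le_self _ _
  have hk2 : E < (k + 1) * (6 * p) := by
    have h1 := Nat.lt_div_mul_add (a := E) (show 0 < 6 * p by omega)
    rw [← hk] at h1
    rw [add_mul, one_mul]
    exact h1
  have hkp : k * (6 * p) = 6 * (k * p) := by ring
  have hkp1 : (k + 1) * (6 * p) = 6 * (k * p) + 6 * p := by ring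
  rw [hkp] at hk1
  rw [hkp1] at hk2
  have hk12 : E ≤ 12 * (k * p) := by omega
  obtain ⟨e, he⟩ : ∃ e, e = E - 3 * (k * p) := ⟨_, rfl⟩
  have he1 : e + 3 * (k * p) = E := by omega
  refine ⟨e, k, he1, ?_⟩
  obtain ⟨B, hB⟩ : ∃ B, B = (e + 1) ^ T := ⟨_, rfl⟩
  obtain ⟨A, hA⟩ : ∃ A, A = (e + 1) ^ T + 2 * n ^ T := ⟨_, rfl⟩
  have hB0 : 0 < B := by
    rw [hB]
    exact pow_pos (Nat.succ_pos e) T
  have hBn : B ≤ n ^ T := by
    rw [hB]
    exact Nat.pow_le_pow_left (by omega) T
  have hA0 : 0 < A := by omega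
  have hAB : A + B ≤ 4 * n ^ T := by omega
  have hBE : E ^ T ≤ 2 ^ T * B := by
    rw [hB, ← mul_pow]
    exact Nat.pow_le_pow_left (by omega) T
  obtain ⟨q, hq⟩ : ∃ q, q = A / B + 1 := ⟨_, rfl⟩
  have hq1 : A ≤ q * B := by
    rw [hq]
    have h1 := Nat.lt_div_mul_add (a := A) hB0
    rw [add_mul, one_mul]
    omega
  have hq2 : q * B ≤ 4 * n ^ T := by
    rw [hq, add_mul, one_mul]
    exact (Nat.add_le_add_right (Nat.div_mul_le_self A B) B).trans hAB
  have hmq : m * q ≤ k := by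
    have hX : 0 < 48 * p * (2 * n) ^ T * B := by positivity
    refine Nat.le_of_mul_le_mul_right (c := 48 * p * (2 * n) ^ T * B) ?_ hX
    calc m * q * (48 * p * (2 * n) ^ T * B) = m * (48 * p * (2 * n) ^ T) * (q * B) := by ring
      _ ≤ E ^ (T + 1) * (4 * n ^ T) := Nat.mul_le_mul hmE hq2
      _ = 4 * n ^ T * E * E ^ T := by ring
      _ ≤ 4 * n ^ T * (12 * (k * p)) * (2 ^ T * B) :=
          Nat.mul_le_mul (Nat.mul_le_mul_left _ hk12) hBE
      _ = k * (48 * p * (2 * n) ^ T * B) := by rw [mul_pow]; ring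
  have h1 := pow_two_le hA0 hq1 hmq
  have h2 : 2 * ((e + 1) ^ T + n ^ T) = A + B := by omega
  rw [h2, ← hA]
  exact h1

end Pool.Agent.MP_9cec2c_lc.SizeDeg
end

section

/-!
The translation between the definitions.
-/

set_option autoImplicit false

namespace Pool.Agent.MP_9cec2c_lc.SZ

open Finset

variable {n : ℕ} {K : Type} [Field K]

theorem holds_iff_not {C : Clause n} {x : Fin n → Bool} : Holds C x ↔ ¬ Lift.FalseAt C x := by
  unfold Holds Lift.FalseAt
  push Not
  rfl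

theorem degree_eq (t : ℕ) : Degree K n t = SizeDeg.Pol K n t := rfl

theorem pc_of {F : Finset (Clause n)} {D : ℕ} {p : (Fin n → Bool) → K} (h : Lift.PC K F D p) :
    PC K F D p := by
  classical
  induction h with
  | ax C hC hD =>
    have h1 : Lift.clausePoly K C = fun x => if Holds C x then 0 else 1 := by
      funext x
      unfold Lift.clausePoly
      by_cases h : Lift.FalseAt C x
      · rw [if_pos h, if_neg]
        exact fun h1 => holds_iff_not.1 h1 h
      · rw [if_neg h, if_pos]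
        exact holds_iff_not.2 h
    rw [h1]
    exact PC.ax C hC hD
  | add p q _ _ hp hq => exact PC.add p q hp hq
  | smul c p _ hp => exact PC.smul c p hp
  | mul v a p _ hpa ha hp =>
    have h1 : ResPoly.mon K {v} * p = fun x => if x v = true then p x else 0 := by
      funext x
      rw [Pi.mul_apply]
      unfold ResPoly.mon
      by_cases h : x v = true
      · rw [if_pos h, if_pos, one_mul]
        intro u hu
        rw [mem_singleton.1 hu]
        exact h
      · rw [if_neg h, if_neg, zero_mul]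
        exact fun h1 => h (h1 v (mem_singleton_self v))
    rw [h1]
    exact PC.mul v a p hp hpa ha

/-- The translation of refutations in resolution over parities. -/
def ParityRefutation.old {F : Finset (Clause n)} {r S : ℕ} (π : ParityRefutation F r S) :
    SizeDeg.ParityRefutation F r S := by
  have hiff : ∀ (i : Fin S) (x : Fin n → Bool),
      SizeDeg.Holds ((fun f => 1 + f) '' π.line i) x ↔ SomeZero (π.line i) x := by
    intro i x
    have h2 : ∀ a : ZMod 2, 1 + a ≠ 0 ↔ a = 0 := by decide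
    constructor
    · rintro ⟨_, ⟨f, hf, rfl⟩, hx⟩
      exact ⟨f, hf, (h2 (f x)).1 hx⟩
    · rintro ⟨f, hf, hx⟩
      exact ⟨_, ⟨f, hf, rfl⟩, (h2 (f x)).2 hx⟩
  exact {
    line := fun i => (fun f => 1 + f) '' π.line i
    line_deg := by
      rintro i _ ⟨f, hf, rfl⟩
      exact Submodule.add_mem _ (SizeDeg.one_mem_Pol 1) (π.degree i f hf)
    rule := by
      intro i
      rcases π.rule i with ⟨C, hC, h⟩ | ⟨P, h1, h2, h3⟩
      · exact Or.inl ⟨C, hC, fun x hx => (hiff i x).2 (h x (holds_iff_not.2 hx))⟩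
      · exact Or.inr ⟨P, h1, h2, fun x hx => (hiff i x).2 (h3 x fun j hj => (hiff j x).1 (hx j hj))⟩
    last := by
      obtain ⟨i, hi⟩ := π.last
      exact ⟨i, fun x hx => hi x ((hiff i x).1 hx)⟩ }

/-- The translation of refutations. -/
def PolyRefutation.old {F : Finset (Clause n)} {t r S : ℕ} (π : PolyRefutation K F t r S) :
    SizeDeg.PolyRefutation K F t r S where
  line := π.line
  line_deg := π.degree
  rule := by
    intro i
    obtain ⟨B, hB, ⟨C, hC, h1, h2⟩ | ⟨P, A, hP, hBr, hA, h⟩⟩ := π.rule i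
    · exact Or.inl ⟨C, hC, B, h1, hB, fun x hx => h2 x (holds_iff_not.2 hx)⟩
    · exact Or.inr ⟨P, A, B, hP, hA, hBr, hB, h⟩
  last := π.last

/-- **Size and degree** for resolution over parities. -/
theorem parity_size {F : Finset (Clause n)} {w r S D : ℕ} (hw : ∀ C ∈ F, C.card ≤ w)
    (hPC : ¬ PC (ZMod 2) F D 1) (π : ParityRefutation F r S) :
    2 ^ ((D - (w + r ^ 2 + 4)) ^ 2 / (40 * n)) ≤ (n + 1) * S :=
  SizeDeg.parity_size hw (fun h => hPC (pc_of h)) π.old

/-- **Size and degree** for disjunctions of polynomial equations. -/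
theorem poly_size [Fintype K] {F : Finset (Clause n)} {w r S D t T : ℕ}
    (hw : ∀ C ∈ F, C.card ≤ w) (hT : T = (Fintype.card K - 1) * t) (ht : 1 ≤ t)
    (hPC : ¬ PC K F D 1) (π : PolyRefutation K F t r S) :
    2 ^ ((D - (w + (w + r + r ^ 2 + 3) * T)) ^ (T + 1) /
      (32 * ((Fintype.card K - 1) * T) * (2 * n) ^ T)) ≤ (n + 1) ^ T * S :=
  SizeDeg.poly_size hw hT ht (fun h => hPC (pc_of h)) π.old

end Pool.Agent.MP_9cec2c_lc.SZ
end
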