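import Pool.Agent.Lib.MP_9cec2c_lc.Mg.G050
import Pool.Agent.Lib.MP_9cec2c_lc.Mg.G052

section

/-!
Systems of small pieces under random pointers and random data: the estimate for a fixed set of
pointers.
-/

set_option autoImplicit false
set_option linter.unusedSectionVars false

namespace Pool.Agent.MP_9cec2c_lc.FormulaLines

open Finset
open Pool.Agent.MP_9cec2c_lc.SubstRed

/-- A system of pieces, evaluated at pointers `ζ`, data `r` and the hole value `u`. -/
structure Sys (X J ι : Type) where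
  /-- data read by a piece -/
  RX : ι → Finset X
  /-- pointers read by a piece -/
  RJ : ι → Finset J
  /-- value of a piece -/
  ev : ι → (J → X) → (X → Bool) → Bool → Bool
  congr : ∀ i ζ ζ' r r' u, (∀ j ∈ RJ i, ζ j = ζ' j) → (∀ a ∈ RX i, r a = r' a) →
    ev i ζ r u = ev i ζ' r' u

variable {X J ι : Type} [Fintype X] [DecidableEq X] [Fintype J] [DecidableEq J] [Fintype ι]
  [DecidableEq ι]

namespace Sys

variable (s : Sys X J ι)

/-- The pieces reading the data bit `a`. -/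
def at' (a : X) : Finset ι := univ.filter fun i => a ∈ s.RX i

/-- The data bits read by at least `D` pieces. -/
def heavy (D : ℕ) : Finset X := univ.filter fun a => D ≤ (s.at' a).card

/-- The bit at `a` is pivotal for the piece `i`. -/
def Piv (i : ι) (ζ : J → X) (r : X → Bool) (a : X) : Prop :=
  ∃ u, s.ev i ζ r u ≠ s.ev i ζ (flip a r) u

/-- The pointer `j` is relevant. -/
def Bad (M1 : ℕ) (ζ : J → X) (r : X → Bool) (j : J) : Prop :=
  ζ j ∉ s.heavy M1 ∧ ∃ i, ζ j ∈ s.RX i ∧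
    ((∃ j', j' ≠ j ∧ ζ j' ∉ s.heavy M1 ∧ ζ j' ∈ s.RX i) ∨ s.Piv i ζ r (ζ j))

/-- The weight of a data bit. -/
def wt (M1 : ℕ) (a : X) : ℕ := if a ∈ s.heavy M1 then 0 else (s.at' a).card

/-- The total weight of the live data bits is at most `Λ`. -/
def Good (M1 : ℕ) (Λ : ℝ) (ζ : J → X) : Prop := ((∑ j, s.wt M1 (ζ j) : ℕ) : ℝ) ≤ Λ

theorem mem_at {a : X} {i : ι} : i ∈ s.at' a ↔ a ∈ s.RX i := by simp [at']

theorem mem_heavy {a : X} {D : ℕ} : a ∈ s.heavy D ↔ D ≤ (s.at' a).card := by simp [heavy]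

theorem heavy_anti {D D' : ℕ} (h : D ≤ D') : s.heavy D' ⊆ s.heavy D := by
  intro a ha
  rw [mem_heavy] at *
  exact h.trans ha

/-- The data bits read together with `a`. -/
def nb (a : X) : Finset X := (s.at' a).biUnion s.RX

theorem mem_nb {a b : X} : b ∈ s.nb a ↔ ∃ i, a ∈ s.RX i ∧ b ∈ s.RX i := by
  simp [nb, at']

theorem nb_card {A : ℕ} (hA : ∀ i, (s.RX i).card ≤ A) (a : X) :
    (s.nb a).card ≤ (s.at' a).card * A := by
  unfold nb
  exact card_biUnion_le_card_mul _ _ _ fun i _ => hA i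

/-- The data bits whose pieces share a bit outside `heavy M2` with a piece of `a`. -/
def nb2 (M2 : ℕ) (a : X) : Finset X := (s.nb a \ s.heavy M2).biUnion s.nb

theorem mem_nb2 {M2 : ℕ} {a b : X} : b ∈ s.nb2 M2 a ↔
    ∃ i i' c, a ∈ s.RX i ∧ c ∈ s.RX i ∧ c ∉ s.heavy M2 ∧ c ∈ s.RX i' ∧ b ∈ s.RX i' := by
  simp only [nb2, mem_biUnion, mem_sdiff, mem_nb]
  constructor
  · rintro ⟨c, ⟨⟨i, h1, h2⟩, h3⟩, i', h4, h5⟩
    exact ⟨i, i', c, h1, h2, h3, h4, h5⟩
  · rintro ⟨i, i', c, h1, h2, h3, h4, h5⟩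
    exact ⟨c, ⟨⟨i, h1, h2⟩, h3⟩, i', h4, h5⟩

theorem nb2_card {A D0 M2 : ℕ} (hA : ∀ i, (s.RX i).card ≤ A) {a : X} (ha : a ∉ s.heavy D0) :
    (s.nb2 M2 a).card ≤ D0 * A * (M2 * A) := by
  unfold nb2
  have h1 : (s.nb a \ s.heavy M2).card ≤ D0 * A := by
    refine (card_le_card sdiff_subset).trans ((s.nb_card hA a).trans ?_)
    rw [mem_heavy] at ha
    gcongr
    omega
  refine (card_biUnion_le_card_mul _ _ (M2 * A) ?_).trans (Nat.mul_le_mul_right _ h1)
  intro c hc
  have h2 := (mem_sdiff.1 hc).2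
  rw [mem_heavy] at h2
  refine (s.nb_card hA c).trans ?_
  gcongr
  omega

end Sys

theorem pr_fst {Ω Ω' : Type*} [Fintype Ω] [Fintype Ω'] [Nonempty Ω'] (p : Ω → Prop) :
    pr (fun ω : Ω × Ω' => p ω.1) = pr p := by
  classical
  rw [pr_eq_av, pr_eq_av, av_prod_type]
  exact av_congr fun x => av_const (ind (p x))

theorem pr_mem_finset {Ω : Type*} [Fintype Ω] [DecidableEq Ω] (S : Finset Ω) :
    pr (fun x => x ∈ S) = (S.card : ℝ) / Fintype.card Ω := by
  classical
  rw [pr_eq]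
  congr 3
  ext x
  simp

namespace Sys

variable (s : Sys X J ι)

theorem ev3 [Nonempty X] {A : ℕ} (hA : ∀ i, (s.RX i).card ≤ A) (M1 : ℕ) {Λ x : ℝ} (hx : 0 ≤ x)
    (h3 : A * Λ ≤ x * Fintype.card X) (I : Finset J) :
    pr (fun ζ : J → X => s.Good M1 Λ ζ ∧ ∀ j ∈ I, ∃ j', j' ∉ I ∧ ζ j' ∉ s.heavy M1 ∧
      ∃ i, ζ j ∈ s.RX i ∧ ζ j' ∈ s.RX i) ≤ x ^ I.card := by
  classical
  have hN : (0 : ℝ) < Fintype.card X := by exact_mod_cast Fintype.card_pos
  let Q : (J → X) → Finset X := fun ζ =>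
    ((univ \ I).filter fun j => ζ j ∉ s.heavy M1).biUnion fun j => s.nb (ζ j)
  let M : J → (J → X) → X → Prop := fun _ ζ a =>
    ((∑ j ∈ univ \ I, s.wt M1 (ζ j) : ℕ) : ℝ) ≤ Λ ∧ a ∈ Q ζ
  refine le_trans (pr_mono (q := fun ζ : J → X => ∀ j ∈ I, M j ζ (ζ j)) ?_)
    (indep I M x ?_ ?_)
  · rintro ζ ⟨hG, h⟩ j hj
    refine ⟨le_trans ?_ hG, ?_⟩
    · exact_mod_cast sum_le_sum_of_subset (subset_univ _)
    · obtain ⟨j', h1, h2, i, h4, h5⟩ := h j hj
      simp only [Q, mem_biUnion, mem_filter, mem_sdiff, mem_univ, true_and]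
      exact ⟨j', ⟨h1, h2⟩, (s.mem_nb).2 ⟨i, h5, h4⟩⟩
  · intro i hi j hj H E a
    have e1 : ∀ j' ∈ univ \ I, Function.update H j E j' = H j' := by
      intro j' hj'
      rw [Function.update_of_ne]
      rintro rfl
      exact (mem_sdiff.1 hj').2 hj
    have e2 : Q (Function.update H j E) = Q H := by
      simp only [Q]
      have e3 : (univ \ I).filter (fun j' => Function.update H j E j' ∉ s.heavy M1) =
          (univ \ I).filter (fun j' => H j' ∉ s.heavy M1) :=
        filter_congr fun j' hj' => by rw [e1 j' hj']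
      rw [e3]
      exact biUnion_congr rfl fun j' hj' => by rw [e1 j' (mem_filter.1 hj').1]
    simp only [M]
    rw [e2, sum_congr rfl fun j' hj' => by rw [e1 j' hj']]
  · intro i hi H
    by_cases hG : ((∑ j ∈ univ \ I, s.wt M1 (H j) : ℕ) : ℝ) ≤ Λ
    · have h1 : pr (M i H) ≤ pr (fun a => a ∈ Q H) := pr_mono fun a ha => ha.2
      refine h1.trans ?_
      rw [pr_mem_finset, div_le_iff₀ hN]
      have h2 : (Q H).card ≤ A * ∑ j ∈ univ \ I, s.wt M1 (H j) := by
        refine card_biUnion_le.trans ?_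
        rw [mul_sum, sum_filter]
        refine sum_le_sum fun j _ => ?_
        unfold wt
        by_cases h : H j ∈ s.heavy M1
        · simp [h]
        · rw [if_pos h, if_neg h, mul_comm]
          exact s.nb_card hA _
      have h3' : ((Q H).card : ℝ) ≤ A * ((∑ j ∈ univ \ I, s.wt M1 (H j) : ℕ) : ℝ) := by
        exact_mod_cast h2
      refine h3'.trans (le_trans ?_ h3)
      gcongr
    · have h1 : pr (M i H) ≤ pr (fun _ : X => False) := pr_mono fun a ha => hG ha.1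
      rw [pr_false] at h1
      exact h1.trans hx

theorem ev4 [Nonempty X] {A D0 M2 : ℕ} (hA : ∀ i, (s.RX i).card ≤ A) {x : ℝ}
    (T I : Finset J)
    (h4 : (T.card : ℝ) * (D0 * A * (M2 * A)) ≤ x * Fintype.card X) :
    pr (fun ζ : J → X => ∀ j ∈ I, ∃ j', j' ∉ I ∧ j' ∈ T ∧ ζ j' ∉ s.heavy D0 ∧
      ζ j ∈ s.nb2 M2 (ζ j')) ≤ x ^ I.card := by
  classical
  have hN : (0 : ℝ) < Fintype.card X := by exact_mod_cast Fintype.card_pos
  let Q : (J → X) → Finset X := fun ζ =>
    ((T \ I).filter fun j => ζ j ∉ s.heavy D0).biUnion fun j => s.nb2 M2 (ζ j)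
  refine le_trans (pr_mono (q := fun ζ : J → X => ∀ j ∈ I, ζ j ∈ Q ζ) ?_)
    (indep I (fun _ ζ a => a ∈ Q ζ) x ?_ ?_)
  · intro ζ h j hj
    obtain ⟨j', h1, h2, h3, h4⟩ := h j hj
    simp only [Q, mem_biUnion, mem_filter, mem_sdiff]
    exact ⟨j', ⟨⟨h2, h1⟩, h3⟩, h4⟩
  · intro i hi j hj H E a
    have e1 : ∀ j' ∈ T \ I, Function.update H j E j' = H j' := by
      intro j' hj'
      rw [Function.update_of_ne]
      rintro rfl
      exact (mem_sdiff.1 hj').2 hj
    have e2 : Q (Function.update H j E) = Q H := by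
      simp only [Q]
      have e3 : (T \ I).filter (fun j' => Function.update H j E j' ∉ s.heavy D0) =
          (T \ I).filter (fun j' => H j' ∉ s.heavy D0) :=
        filter_congr fun j' hj' => by rw [e1 j' hj']
      rw [e3]
      exact biUnion_congr rfl fun j' hj' => by rw [e1 j' (mem_filter.1 hj').1]
    rw [e2]
  · intro i hi H
    rw [pr_mem_finset, div_le_iff₀ hN]
    have h2 : (Q H).card ≤ T.card * (D0 * A * (M2 * A)) := by
      refine (card_biUnion_le_card_mul _ _ (D0 * A * (M2 * A)) ?_).trans ?_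
      · intro j hj
        exact s.nb2_card hA (mem_filter.1 hj).2
      · refine Nat.mul_le_mul_right _ (card_le_card ?_)
        exact (filter_subset _ _).trans sdiff_subset
    refine le_trans ?_ h4
    exact_mod_cast h2

end Sys

end Pool.Agent.MP_9cec2c_lc.FormulaLines
end

section

/-!
The pivotal event for many pointers at once.
-/

set_option autoImplicit false
set_option linter.unusedSectionVars false

namespace Pool.Agent.MP_9cec2c_lc.FormulaLines

open Finset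
open Pool.Agent.MP_9cec2c_lc.SubstRed

variable {X J ι : Type} [Fintype X] [DecidableEq X] [Fintype J] [DecidableEq J] [Fintype ι]
  [DecidableEq ι]

namespace Sys

variable (s : Sys X J ι)

theorem piv_congr {i : ι} {ζ ζ' : J → X} {r r' : X → Bool} {a : X}
    (h1 : ∀ j ∈ s.RJ i, ζ j = ζ' j) (h2 : ∀ b ∈ s.RX i, r b = r' b) (ha : a ∈ s.RX i) :
    s.Piv i ζ r a ↔ s.Piv i ζ' r' a := by
  unfold Piv
  have h3 : ∀ b ∈ s.RX i, flip a r b = flip a r' b := by
    intro b hb
    by_cases h : b = a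
    · subst h
      simp only [flip, Function.update_self, h2 b hb]
    · rw [flip_of_ne h, flip_of_ne h, h2 b hb]
  have e1 : ∀ u, s.ev i ζ r u = s.ev i ζ' r' u := fun u => s.congr i ζ ζ' r r' u h1 h2
  have e2 : ∀ u, s.ev i ζ (flip a r) u = s.ev i ζ' (flip a r') u :=
    fun u => s.congr i ζ ζ' _ _ u h1 h3
  simp only [e1, e2]

/-- The probability weight of the position `a`. -/
noncomputable def phi (M2 : ℕ) (T : Finset J) (v : X → Bool) (ζ : J → X) (a : X) : ℝ :=
  if a ∈ s.heavy M2 then 0 else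
    ∑ i ∈ (s.at' a).filter (fun i => Disjoint (s.RJ i) T),
      pr (fun r : X → Bool => s.Piv i ζ (mix (s.heavy M2) v r) a)

theorem phi_nonneg (M2 : ℕ) (T : Finset J) (v : X → Bool) (ζ : J → X) (a : X) :
    0 ≤ s.phi M2 T v ζ a := by
  unfold phi
  split_ifs
  · exact le_refl _
  · exact sum_nonneg fun i _ => pr_nonneg _

theorem phi_update (M2 : ℕ) (T : Finset J) (v : X → Bool) (ζ : J → X) {j : J} (hj : j ∈ T)
    (E : X) : s.phi M2 T v (Function.update ζ j E) = s.phi M2 T v ζ := by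
  funext a
  unfold phi
  split_ifs
  · rfl
  · refine sum_congr rfl fun i hi => ?_
    rw [mem_filter, mem_at] at hi
    congr 1
    funext r
    refine propext (s.piv_congr (fun j' hj' => ?_) (fun _ _ => rfl) hi.1)
    rw [Function.update_of_ne]
    rintro rfl
    exact disjoint_left.1 hi.2 hj' hj

theorem phi_sum (M2 : ℕ) (T : Finset J) (v : X → Bool) (ζ : J → X) :
    ∑ a, s.phi M2 T v ζ a ≤ ∑ i, ∑ a ∈ univ \ s.heavy M2,
      pr (fun r : X → Bool => s.Piv i ζ (mix (s.heavy M2) v r) a) := by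
  classical
  have h1 : ∀ a, s.phi M2 T v ζ a ≤ if a ∈ univ \ s.heavy M2 then
      ∑ i, pr (fun r : X → Bool => s.Piv i ζ (mix (s.heavy M2) v r) a) else 0 := by
    intro a
    unfold phi
    by_cases h : a ∈ s.heavy M2
    · simp [h]
    · rw [if_neg h, if_pos (by simp [h])]
      exact sum_le_sum_of_subset_of_nonneg (subset_univ _) fun i _ _ => pr_nonneg _
  refine (sum_le_sum fun a _ => h1 a).trans ?_
  rw [← sum_filter, filter_mem_eq_inter, univ_inter, sum_comm]

theorem ev5 [Nonempty X] {M2 D0 : ℕ} (T I : Finset J) (hIT : I ⊆ T) {x : ℝ}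
    (hD : D0 ≤ M2)
    (hinf : ∀ (v : X → Bool) (ζ : J → X), ∑ i, ∑ a ∈ univ \ s.heavy M2,
      pr (fun r : X → Bool => s.Piv i ζ (mix (s.heavy M2) v r) a) ≤ x * Fintype.card X) :
    pr (fun ω : (J → X) × (X → Bool) =>
      (∀ j ∈ I, ω.1 j ∉ s.heavy D0 ∧ ∃ i, ω.1 j ∈ s.RX i ∧ Disjoint (s.RJ i) T ∧
        s.Piv i ω.1 ω.2 (ω.1 j)) ∧
      ∀ j ∈ I, ∀ j' ∈ I, j ≠ j' → ω.1 j ∉ s.nb2 M2 (ω.1 j')) ≤ x ^ I.card := by
  classical
  have hN : (0 : ℝ) < Fintype.card X := by exact_mod_cast Fintype.card_pos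
  obtain ⟨P, hP⟩ : ∃ P : (J → X) → (X → Bool) → J → Prop, P = fun ζ r j =>
    ∃ i, ζ j ∈ s.RX i ∧ Disjoint (s.RJ i) T ∧ s.Piv i ζ r (ζ j) := ⟨_, rfl⟩
  obtain ⟨E, hE⟩ : ∃ E : (J → X) → (X → Bool) → Prop, E = fun ζ r =>
    (∀ j ∈ I, ζ j ∉ s.heavy D0 ∧ P ζ r j) ∧
      ∀ j ∈ I, ∀ j' ∈ I, j ≠ j' → ζ j ∉ s.nb2 M2 (ζ j') := ⟨_, rfl⟩
  have h0 : pr (fun ω : (J → X) × (X → Bool) =>
      (∀ j ∈ I, ω.1 j ∉ s.heavy D0 ∧ ∃ i, ω.1 j ∈ s.RX i ∧ Disjoint (s.RJ i) T ∧
        s.Piv i ω.1 ω.2 (ω.1 j)) ∧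
      ∀ j ∈ I, ∀ j' ∈ I, j ≠ j' → ω.1 j ∉ s.nb2 M2 (ω.1 j')) =
      av (fun ζ => av (fun r => ind (E ζ r))) := by
    rw [pr_eq_av, av_prod_type, hE, hP]
  rw [h0]
  have key : ∀ (ζ : J → X) (v : X → Bool),
      av (fun r : X → Bool => ind (E ζ (mix (s.heavy M2) v r))) ≤
      ∏ j ∈ I, s.phi M2 T v ζ (ζ j) := by
    intro ζ v
    by_cases hc : (∀ j ∈ I, ζ j ∉ s.heavy D0) ∧
        ∀ j ∈ I, ∀ j' ∈ I, j ≠ j' → ζ j ∉ s.nb2 M2 (ζ j')
    · obtain ⟨hc1, hc2⟩ := hc
      obtain ⟨f, hf⟩ : ∃ f : J → (X → Bool) → ℝ, f = fun j r =>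
        ind (P ζ (mix (s.heavy M2) v r) j) := ⟨_, rfl⟩
      have hf0 : ∀ j r, 0 ≤ f j r := by
        intro j r
        rw [hf]
        exact ind_nonneg _
      have h1 : av (fun r => ∏ j ∈ I, f j r) = ∏ j ∈ I, av (f j) := by
        refine av_indep_prod I (fun j => s.nb (ζ j) \ s.heavy M2) f ?_ ?_
        · intro j _ r r' hrr
          rw [hf]
          refine ind_congr ?_
          rw [hP]
          refine exists_congr fun i => and_congr_right fun hi => and_congr_right fun _ => ?_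
          refine s.piv_congr (fun _ _ => rfl) (fun b hb => ?_) hi
          by_cases hbh : b ∈ s.heavy M2
          · rw [mix_mem hbh, mix_mem hbh]
          · rw [mix_not_mem hbh, mix_not_mem hbh]
            exact hrr b (mem_sdiff.2 ⟨(s.mem_nb).2 ⟨i, hi, hb⟩, hbh⟩)
        · intro j hj j' hj' hne
          rw [disjoint_left]
          intro c hc3 hc4
          rw [mem_sdiff, mem_nb] at hc3 hc4
          obtain ⟨⟨i, hi1, hi2⟩, hi3⟩ := hc3
          obtain ⟨⟨i', hi1', hi2'⟩, -⟩ := hc4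
          exact hc2 j hj j' hj' hne ((s.mem_nb2).2 ⟨i', i, c, hi1', hi2', hi3, hi2, hi1⟩)
      have h2 : ∀ r : X → Bool, ind (E ζ (mix (s.heavy M2) v r)) ≤ ∏ j ∈ I, f j r := by
        intro r
        by_cases h3 : E ζ (mix (s.heavy M2) v r)
        · rw [ind_pos h3]
          refine le_of_eq ?_
          symm
          refine prod_eq_one fun j hj => ?_
          rw [hf]
          rw [hE] at h3
          exact ind_pos (h3.1 j hj).2
        · rw [ind_neg h3]
          exact prod_nonneg fun j _ => hf0 j r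
      refine (av_mono h2).trans ?_
      rw [h1]
      refine prod_le_prod (fun j _ => av_nonneg fun r => hf0 j r) fun j hj => ?_
      have hnh : ζ j ∉ s.heavy M2 := fun h => hc1 j hj (s.heavy_anti hD h)
      have h3 : av (f j) = pr (fun r : X → Bool => P ζ (mix (s.heavy M2) v r) j) := by
        rw [pr_eq_av, hf]
      rw [h3]
      unfold phi
      rw [if_neg hnh]
      refine le_trans (pr_mono (q := fun r : X → Bool =>
        ∃ i ∈ (s.at' (ζ j)).filter (fun i => Disjoint (s.RJ i) T),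
          s.Piv i ζ (mix (s.heavy M2) v r) (ζ j)) ?_) (pr_exists _ _)
      intro r hr
      rw [hP] at hr
      obtain ⟨i, h4, h5, h6⟩ := hr
      exact ⟨i, mem_filter.2 ⟨(s.mem_at).2 h4, h5⟩, h6⟩
    · have h1 : ∀ r : X → Bool, ind (E ζ (mix (s.heavy M2) v r)) = 0 := by
        intro r
        refine ind_neg ?_
        rw [hE]
        rintro ⟨h2, h3⟩
        exact hc ⟨fun j hj => (h2 j hj).1, h3⟩
      rw [av_congr h1, av_const]
      exact prod_nonneg fun j _ => s.phi_nonneg _ _ _ _ _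
  calc av (fun ζ : J → X => av (fun r : X → Bool => ind (E ζ r)))
      = av (fun ζ : J → X => av (fun v : X → Bool => av (fun r : X → Bool =>
          ind (E ζ (mix (s.heavy M2) v r))))) := by
        refine av_congr fun ζ => ?_
        exact av_mix (s.heavy M2) _
    _ ≤ av (fun ζ : J → X => av (fun v : X → Bool => ∏ j ∈ I, s.phi M2 T v ζ (ζ j))) :=
        av_mono fun ζ => av_mono fun v => key ζ v
    _ = av (fun v : X → Bool => av (fun ζ : J → X => ∏ j ∈ I, s.phi M2 T v ζ (ζ j))) :=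
        av_comm _
    _ ≤ av (fun _ : X → Bool => x ^ I.card) := by
        refine av_mono fun v => ?_
        refine av_prod_coord I (s.phi M2 T v) (fun ζ a => s.phi_nonneg _ _ _ _ _)
          (fun j hj ζ E => s.phi_update M2 T v ζ (hIT hj) E) fun ζ => ?_
        unfold av
        rw [div_le_iff₀ hN]
        exact (s.phi_sum M2 T v ζ).trans (hinf v ζ)
    _ = x ^ I.card := av_const _

end Sys

end Pool.Agent.MP_9cec2c_lc.FormulaLines
end
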