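import Pool.Agent.Lib.MP_9cec2c_lc.Mg.G053

section

/-!
The estimate for a fixed set of pointers.
-/

set_option autoImplicit false
set_option linter.unusedSectionVars false

namespace Pool.Agent.MP_9cec2c_lc.FormulaLines

open Finset
open Pool.Agent.MP_9cec2c_lc.SubstRed

variable {X J ι : Type} [Fintype X] [DecidableEq X] [Fintype J] [DecidableEq J] [Fintype ι]
  [DecidableEq ι]

namespace Sys

variable (s : Sys X J ι)

/-- The data bits in pieces that read a pointer of `T`. -/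
def pos2 (T : Finset J) : Finset X :=
  (univ.filter fun i => ¬ Disjoint (s.RJ i) T).biUnion s.RX

theorem mem_pos2 {T : Finset J} {a : X} : a ∈ s.pos2 T ↔
    ∃ i, ¬ Disjoint (s.RJ i) T ∧ a ∈ s.RX i := by
  simp [pos2]

theorem exists_sub_indep {S : Finset J} {m : ℕ} (h : 3 * m ≤ S.card) (P : J → J → Prop)
    (hP : ∀ j ∈ S, ∃ j', j' ≠ j ∧ P j j') :
    ∃ I ⊆ S, I.card = m ∧ ∀ j ∈ I, ∃ j', j' ∉ I ∧ P j j' := by
  classical
  have hch : ∀ j, ∃ j', j ∈ S → j' ≠ j ∧ P j j' := by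
    intro j
    by_cases hj : j ∈ S
    · obtain ⟨j', h'⟩ := hP j hj
      exact ⟨j', fun _ => h'⟩
    · exact ⟨j, fun h' => absurd h' hj⟩
  choose φ hφ using hch
  obtain ⟨I0, h1, h2, h3⟩ := exists_indep_set φ S fun j hj => (hφ j hj).1
  obtain ⟨I, h4, h5⟩ := exists_subset_card_eq (show m ≤ I0.card by omega)
  exact ⟨I, h4.trans h1, h5, fun j hj => ⟨φ j, fun h => h3 j (h4 hj) (h4 h),
    (hφ j (h1 (h4 hj))).2⟩⟩

theorem fixed_T [Nonempty X] {A D0 M1 M2 m0 : ℕ} (hA : ∀ i, (s.RX i).card ≤ A)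
    {x Λ : ℝ} (hx : 0 ≤ x) (hD : D0 ≤ M2) (T : Finset J) (hT : T.card = 15 * m0)
    (h1 : ((s.heavy D0).card : ℝ) ≤ x * Fintype.card X)
    (h2 : ((s.pos2 T).card : ℝ) ≤ x * Fintype.card X)
    (h3 : A * Λ ≤ x * Fintype.card X)
    (h4 : (T.card : ℝ) * (D0 * A * (M2 * A)) ≤ x * Fintype.card X)
    (hinf : ∀ (v : X → Bool) (ζ : J → X), ∑ i, ∑ a ∈ univ \ s.heavy M2,
      pr (fun r : X → Bool => s.Piv i ζ (mix (s.heavy M2) v r) a) ≤ x * Fintype.card X) :
    pr (fun ω : (J → X) × (X → Bool) => s.Good M1 Λ ω.1 ∧ ∀ j ∈ T, s.Bad M1 ω.1 ω.2 j) ≤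
      5 * 2 ^ (15 * m0) * x ^ m0 := by
  classical
  have hN : (0 : ℝ) < Fintype.card X := by exact_mod_cast Fintype.card_pos
  have hmem : ∀ S : Finset X, (S.card : ℝ) ≤ x * Fintype.card X →
      pr (fun a => a ∈ S) ≤ x := by
    intro S hS
    rw [pr_mem_finset, div_le_iff₀ hN]
    exact hS
  let E1 : Finset J → (J → X) × (X → Bool) → Prop := fun I ω => ∀ j ∈ I, ω.1 j ∈ s.heavy D0
  let E2 : Finset J → (J → X) × (X → Bool) → Prop := fun I ω => ∀ j ∈ I, ω.1 j ∈ s.pos2 T
  let E3 : Finset J → (J → X) × (X → Bool) → Prop := fun I ω =>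
    s.Good M1 Λ ω.1 ∧ ∀ j ∈ I, ∃ j', j' ∉ I ∧ ω.1 j' ∉ s.heavy M1 ∧
      ∃ i, ω.1 j ∈ s.RX i ∧ ω.1 j' ∈ s.RX i
  let E4 : Finset J → (J → X) × (X → Bool) → Prop := fun I ω =>
    ∀ j ∈ I, ∃ j', j' ∉ I ∧ j' ∈ T ∧ ω.1 j' ∉ s.heavy D0 ∧ ω.1 j ∈ s.nb2 M2 (ω.1 j')
  let E5 : Finset J → (J → X) × (X → Bool) → Prop := fun I ω =>
    (∀ j ∈ I, ω.1 j ∉ s.heavy D0 ∧ ∃ i, ω.1 j ∈ s.RX i ∧ Disjoint (s.RJ i) T ∧
        s.Piv i ω.1 ω.2 (ω.1 j)) ∧
      ∀ j ∈ I, ∀ j' ∈ I, j ≠ j' → ω.1 j ∉ s.nb2 M2 (ω.1 j')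
  have hcov : ∀ ω : (J → X) × (X → Bool), (s.Good M1 Λ ω.1 ∧ ∀ j ∈ T, s.Bad M1 ω.1 ω.2 j) →
      ∃ I ∈ powersetCard m0 T, E1 I ω ∨ E2 I ω ∨ E3 I ω ∨ E4 I ω ∨ E5 I ω := by
    rintro ⟨ζ, r⟩ ⟨hG, hB⟩
    simp only at hG hB
    obtain ⟨C1, hC1⟩ : ∃ C, C = T.filter (fun j => ζ j ∈ s.heavy D0) := ⟨_, rfl⟩
    obtain ⟨C2, hC2⟩ : ∃ C, C = T.filter (fun j => ζ j ∈ s.pos2 T) := ⟨_, rfl⟩
    obtain ⟨C3, hC3⟩ : ∃ C, C = T.filter (fun j => ∃ j', j' ≠ j ∧ (ζ j' ∉ s.heavy M1 ∧
      ∃ i, ζ j ∈ s.RX i ∧ ζ j' ∈ s.RX i)) := ⟨_, rfl⟩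
    obtain ⟨C4, hC4⟩ : ∃ C, C = T.filter (fun j => ∃ j', j' ≠ j ∧ (j' ∈ T ∧
      ζ j' ∉ s.heavy D0 ∧ ζ j ∈ s.nb2 M2 (ζ j'))) := ⟨_, rfl⟩
    obtain ⟨C5, hC5⟩ : ∃ C, C = T.filter (fun j => j ∉ C1 ∧ j ∉ C2 ∧ j ∉ C3 ∧ j ∉ C4) :=
      ⟨_, rfl⟩
    have hsub : T ⊆ C1 ∪ (C2 ∪ (C3 ∪ (C4 ∪ C5))) := by
      intro j hj
      simp only [mem_union, hC5, mem_filter]
      tauto
    have hcard := card_le_card hsub
    have hc1 := card_union_le C1 (C2 ∪ (C3 ∪ (C4 ∪ C5)))
    have hc2 := card_union_le C2 (C3 ∪ (C4 ∪ C5))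
    have hc3 := card_union_le C3 (C4 ∪ C5)
    have hc4 := card_union_le C4 C5
    have hor : 3 * m0 ≤ C1.card ∨ 3 * m0 ≤ C2.card ∨ 3 * m0 ≤ C3.card ∨ 3 * m0 ≤ C4.card ∨
        3 * m0 ≤ C5.card := by omega
    have hsT : ∀ C : Finset J, C ⊆ T → ∀ I ⊆ C, I.card = m0 → I ∈ powersetCard m0 T :=
      fun C hC I hI hc => mem_powersetCard.2 ⟨hI.trans hC, hc⟩
    rcases hor with h | h | h | h | h
    · obtain ⟨I, hI1, hI2⟩ := exists_subset_card_eq (show m0 ≤ C1.card by omega)
      refine ⟨I, hsT C1 (hC1 ▸ filter_subset _ _) I hI1 hI2, Or.inl fun j hj => ?_⟩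
      have := hI1 hj
      rw [hC1, mem_filter] at this
      exact this.2
    · obtain ⟨I, hI1, hI2⟩ := exists_subset_card_eq (show m0 ≤ C2.card by omega)
      refine ⟨I, hsT C2 (hC2 ▸ filter_subset _ _) I hI1 hI2, Or.inr (Or.inl fun j hj => ?_)⟩
      have := hI1 hj
      rw [hC2, mem_filter] at this
      exact this.2
    · obtain ⟨I, hI1, hI2, hI3⟩ := exists_sub_indep h (fun j j' => ζ j' ∉ s.heavy M1 ∧
        ∃ i, ζ j ∈ s.RX i ∧ ζ j' ∈ s.RX i) fun j hj => by
          rw [hC3, mem_filter] at hj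
          exact hj.2
      exact ⟨I, hsT C3 (hC3 ▸ filter_subset _ _) I hI1 hI2,
        Or.inr (Or.inr (Or.inl ⟨hG, hI3⟩))⟩
    · obtain ⟨I, hI1, hI2, hI3⟩ := exists_sub_indep h (fun j j' => j' ∈ T ∧
        ζ j' ∉ s.heavy D0 ∧ ζ j ∈ s.nb2 M2 (ζ j')) fun j hj => by
          rw [hC4, mem_filter] at hj
          exact hj.2
      exact ⟨I, hsT C4 (hC4 ▸ filter_subset _ _) I hI1 hI2,
        Or.inr (Or.inr (Or.inr (Or.inl hI3)))⟩
    · obtain ⟨I, hI1, hI2⟩ := exists_subset_card_eq (show m0 ≤ C5.card by omega)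
      refine ⟨I, hsT C5 (hC5 ▸ filter_subset _ _) I hI1 hI2,
        Or.inr (Or.inr (Or.inr (Or.inr ⟨fun j hj => ?_, fun j hj j' hj' hne => ?_⟩)))⟩
      · have hj5 := hI1 hj
        rw [hC5, mem_filter] at hj5
        obtain ⟨hjT, hj1, hj2, hj3, -⟩ := hj5
        rw [hC1, mem_filter, not_and] at hj1
        rw [hC2, mem_filter, not_and] at hj2
        rw [hC3, mem_filter, not_and] at hj3
        refine ⟨hj1 hjT, ?_⟩
        obtain ⟨-, i, hi1, hi2⟩ := hB j hjT
        refine ⟨i, hi1, ?_, ?_⟩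
        · by_contra hcon
          exact hj2 hjT ((s.mem_pos2).2 ⟨i, hcon, hi1⟩)
        · rcases hi2 with ⟨j', g1, g2, g3⟩ | g
          · exact absurd ⟨j', g1, g2, i, hi1, g3⟩ (hj3 hjT)
          · exact g
      · have hj5 := hI1 hj
        rw [hC5, mem_filter] at hj5
        obtain ⟨hjT, -, -, -, hj4⟩ := hj5
        have hj5' := hI1 hj'
        rw [hC5, mem_filter] at hj5'
        obtain ⟨hjT', hj1', -, -, -⟩ := hj5'
        rw [hC1, mem_filter, not_and] at hj1'
        rw [hC4, mem_filter, not_and] at hj4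
        intro hcon
        exact hj4 hjT ⟨j', hne.symm, hjT', hj1' hjT', hcon⟩
  refine (pr_mono hcov).trans ((pr_exists _ _).trans ?_)
  have hbound : ∀ I ∈ powersetCard m0 T,
      pr (fun ω => E1 I ω ∨ E2 I ω ∨ E3 I ω ∨ E4 I ω ∨ E5 I ω) ≤ 5 * x ^ m0 := by
    intro I hI
    rw [mem_powersetCard] at hI
    have b1 : pr (E1 I) ≤ x ^ m0 := by
      have := pr_fst (Ω' := X → Bool) (fun ζ : J → X => ∀ j ∈ I, ζ j ∈ s.heavy D0)
      refine this.le.trans ?_
      rw [← hI.2]
      exact indep_fixed I (fun a => a ∈ s.heavy D0) x (hmem _ h1)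
    have b2 : pr (E2 I) ≤ x ^ m0 := by
      have := pr_fst (Ω' := X → Bool) (fun ζ : J → X => ∀ j ∈ I, ζ j ∈ s.pos2 T)
      refine this.le.trans ?_
      rw [← hI.2]
      exact indep_fixed I (fun a => a ∈ s.pos2 T) x (hmem _ h2)
    have b3 : pr (E3 I) ≤ x ^ m0 := by
      have := pr_fst (Ω' := X → Bool) (fun ζ : J → X => s.Good M1 Λ ζ ∧ ∀ j ∈ I,
        ∃ j', j' ∉ I ∧ ζ j' ∉ s.heavy M1 ∧ ∃ i, ζ j ∈ s.RX i ∧ ζ j' ∈ s.RX i)
      refine this.le.trans ?_
      rw [← hI.2]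
      exact s.ev3 hA M1 hx h3 I
    have b4 : pr (E4 I) ≤ x ^ m0 := by
      have := pr_fst (Ω' := X → Bool) (fun ζ : J → X => ∀ j ∈ I, ∃ j', j' ∉ I ∧ j' ∈ T ∧
        ζ j' ∉ s.heavy D0 ∧ ζ j ∈ s.nb2 M2 (ζ j'))
      refine this.le.trans ?_
      rw [← hI.2]
      exact s.ev4 hA T I h4
    have b5 : pr (E5 I) ≤ x ^ m0 := by
      rw [← hI.2]
      exact s.ev5 T I hI.1 hD hinf
    have c1 := pr_or (E1 I) (fun ω => E2 I ω ∨ E3 I ω ∨ E4 I ω ∨ E5 I ω)
    have c2 := pr_or (E2 I) (fun ω => E3 I ω ∨ E4 I ω ∨ E5 I ω)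
    have c3 := pr_or (E3 I) (fun ω => E4 I ω ∨ E5 I ω)
    have c4 := pr_or (E4 I) (E5 I)
    linarith
  refine (sum_le_sum hbound).trans ?_
  rw [sum_const, card_powersetCard, nsmul_eq_mul, hT]
  have h6 : ((15 * m0).choose m0 : ℝ) ≤ 2 ^ (15 * m0) := by
    exact_mod_cast Nat.choose_le_two_pow (15 * m0) m0
  have h7 : 0 ≤ x ^ m0 := pow_nonneg hx _
  nlinarith

end Sys

end Pool.Agent.MP_9cec2c_lc.FormulaLines
end

section

/-!
Tail estimates: few relevant pointers, except with exponentially small probability.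
-/

set_option autoImplicit false
set_option linter.unusedSectionVars false

namespace Pool.Agent.MP_9cec2c_lc.FormulaLines

open Finset
open Pool.Agent.MP_9cec2c_lc.SubstRed

section

variable {Ω J : Type*} [Fintype Ω] [DecidableEq J]

open scoped Classical in
/-- A moment estimate. -/
theorem many {m w : ℕ} (G : Ω → Prop) (P : Ω → J → Prop) (U : Finset J) {q : ℝ}
    (hq : ∀ T ⊆ U, T.card = m → pr (fun ω => G ω ∧ ∀ j ∈ T, P ω j) ≤ q) :
    pr (fun ω => G ω ∧ w ≤ (U.filter (P ω)).card) * w.choose m ≤ U.card.choose m * q := by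
  have h1 : ∀ ω, ind (G ω ∧ w ≤ (U.filter (P ω)).card) * w.choose m ≤
      ∑ T ∈ powersetCard m U, ind (G ω ∧ ∀ j ∈ T, P ω j) := by
    intro ω
    by_cases h : G ω ∧ w ≤ (U.filter (P ω)).card
    · rw [ind_pos h, one_mul]
      have h2 : ((powersetCard m (U.filter (P ω))).card : ℝ) ≤
          ∑ T ∈ powersetCard m (U.filter (P ω)), ind (G ω ∧ ∀ j ∈ T, P ω j) := by
        rw [card_eq_sum_ones, Nat.cast_sum]
        refine sum_le_sum fun T hT => ?_
        rw [ind_pos]
        · norm_num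
        · refine ⟨h.1, fun j hj => ?_⟩
          exact (mem_filter.1 ((mem_powersetCard.1 hT).1 hj)).2
      rw [card_powersetCard] at h2
      have h3 : (w.choose m : ℝ) ≤ ((U.filter (P ω)).card.choose m : ℝ) := by
        exact_mod_cast Nat.choose_le_choose m h.2
      refine h3.trans (h2.trans ?_)
      refine sum_le_sum_of_subset_of_nonneg ?_ fun _ _ _ => ind_nonneg _
      exact powersetCard_mono (filter_subset _ _)
    · rw [ind_neg h, zero_mul]
      exact sum_nonneg fun _ _ => ind_nonneg _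
  have h2 : pr (fun ω => G ω ∧ w ≤ (U.filter (P ω)).card) * w.choose m =
      av (fun ω => ind (G ω ∧ w ≤ (U.filter (P ω)).card) * w.choose m) := by
    have : ∀ ω, ind (G ω ∧ w ≤ (U.filter (P ω)).card) * w.choose m =
        w.choose m * ind (G ω ∧ w ≤ (U.filter (P ω)).card) := fun ω => mul_comm _ _
    simp only [this]
    rw [av_mul_left, pr_eq_av, mul_comm]
  rw [h2]
  refine (av_mono h1).trans ?_
  rw [av_sum]
  have h3 : ∑ T ∈ powersetCard m U, av (fun ω => ind (G ω ∧ ∀ j ∈ T, P ω j)) ≤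
      ∑ _T ∈ powersetCard m U, q := by
    refine sum_le_sum fun T hT => ?_
    rw [← pr_eq_av]
    rw [mem_powersetCard] at hT
    exact hq T hT.1 hT.2
  refine h3.trans ?_
  rw [sum_const, card_powersetCard, nsmul_eq_mul]

theorem choose_ratio {N m w : ℕ} (hw : 2 * m ≤ w) (hw0 : 0 < w) :
    (N.choose m : ℝ) ≤ (2 * N / w : ℝ) ^ m * w.choose m := by
  have hf : (0 : ℝ) < m.factorial := by exact_mod_cast Nat.factorial_pos m
  have h1 : (N.choose m : ℝ) * m.factorial ≤ (N : ℝ) ^ m := by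
    have h := Nat.descFactorial_le_pow N m
    rw [Nat.descFactorial_eq_factorial_mul_choose, mul_comm] at h
    exact_mod_cast h
  have h2 : ((w : ℝ) / 2) ^ m ≤ (w.choose m : ℝ) * m.factorial := by
    have h := Nat.pow_sub_le_descFactorial w m
    rw [Nat.descFactorial_eq_factorial_mul_choose, mul_comm (m.factorial)] at h
    have h3 : (((w + 1 - m : ℕ) : ℝ)) ^ m ≤ (w.choose m : ℝ) * m.factorial := by
      exact_mod_cast h
    refine le_trans ?_ h3
    refine pow_le_pow_left₀ (by positivity) ?_ _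
    rw [div_le_iff₀ (by norm_num)]
    have : w ≤ (w + 1 - m) * 2 := by omega
    exact_mod_cast this
  have hw' : (0 : ℝ) < w := by exact_mod_cast hw0
  have h4 : (N : ℝ) ^ m = (2 * N / w : ℝ) ^ m * ((w : ℝ) / 2) ^ m := by
    rw [← mul_pow]
    congr 1
    field_simp
  have h5 : (N.choose m : ℝ) * m.factorial ≤
      ((2 * N / w : ℝ) ^ m * w.choose m) * m.factorial := by
    rw [mul_assoc]
    refine h1.trans ?_
    rw [h4]
    gcongr
  exact le_of_mul_le_mul_right h5 hf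

open scoped Classical in
theorem many' {m w : ℕ} (hmw : 2 * m ≤ w) (hw0 : 0 < w) (G : Ω → Prop) (P : Ω → J → Prop)
    (U : Finset J) {q : ℝ} (hq0 : 0 ≤ q)
    (hq : ∀ T ⊆ U, T.card = m → pr (fun ω => G ω ∧ ∀ j ∈ T, P ω j) ≤ q) :
    pr (fun ω => G ω ∧ w ≤ (U.filter (P ω)).card) ≤ (2 * U.card / w : ℝ) ^ m * q := by
  have h1 := many (w := w) G P U hq
  have h2 := choose_ratio (N := U.card) hmw hw0
  have h3 : (0 : ℝ) < w.choose m := by exact_mod_cast Nat.choose_pos (show m ≤ w by omega)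
  have h4 : pr (fun ω => G ω ∧ w ≤ (U.filter (P ω)).card) * w.choose m ≤
      ((2 * U.card / w : ℝ) ^ m * q) * w.choose m := by
    refine h1.trans ?_
    calc (U.card.choose m : ℝ) * q ≤ ((2 * U.card / w : ℝ) ^ m * w.choose m) * q := by gcongr
      _ = _ := by ring
  exact le_of_mul_le_mul_right h4 h3

end

section

variable {X : Type*} [Fintype X] [DecidableEq X]

/-- Changing the values on a small set. -/
theorem pr_exists_change (Z : Finset X) {b : ℕ} (hZ : Z.card ≤ b) (K : (X → Bool) → Prop) :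
    pr (fun r : X → Bool => ∃ r' : X → Bool, (∀ a, a ∉ Z → r' a = r a) ∧ K r') ≤
      2 ^ b * pr K := by
  classical
  have hpos : (0 : ℝ) < Fintype.card (X → Bool) := by exact_mod_cast Fintype.card_pos
  rw [pr_eq, pr_eq, ← mul_div_assoc, div_le_div_iff_of_pos_right hpos]
  have h1 : (univ.filter (fun r : X → Bool => ∃ r' : X → Bool,
      (∀ a, a ∉ Z → r' a = r a) ∧ K r')) ⊆
      (univ.filter K).biUnion (fun r' => univ.filter (fun r => ∀ a, a ∉ Z → r' a = r a)) := by
    intro r hr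
    simp only [mem_filter, mem_univ, true_and, mem_biUnion] at hr ⊢
    obtain ⟨r', h2, h3⟩ := hr
    exact ⟨r', h3, h2⟩
  have h2 : ∀ r' : X → Bool, (univ.filter (fun r : X → Bool => ∀ a, a ∉ Z → r' a = r a)).card ≤
      2 ^ b := by
    intro r'
    have h3 : (univ.filter (fun r : X → Bool => ∀ a, a ∉ Z → r' a = r a)).card ≤
        Z.powerset.card := by
      refine card_le_card_of_injOn (fun r => Z.filter (fun a => r a = true)) ?_ ?_
      · intro r _
        simp only [coe_powerset]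
        intro x hx
        exact (mem_filter.1 hx).1
      · intro r1 hr1 r2 hr2 heq
        replace hr1 := (mem_filter.1 (mem_coe.1 hr1)).2
        replace hr2 := (mem_filter.1 (mem_coe.1 hr2)).2
        funext a
        by_cases ha : a ∈ Z
        · have h4 : a ∈ Z.filter (fun a => r1 a = true) ↔ a ∈ Z.filter (fun a => r2 a = true) := by
            simp only at heq
            rw [heq]
          simp only [mem_filter, ha, true_and] at h4
          cases h5 : r1 a <;> cases h6 : r2 a <;> simp_all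
        · rw [← hr1 a ha, ← hr2 a ha]
    refine h3.trans ?_
    rw [card_powerset]
    exact Nat.pow_le_pow_right (by norm_num) hZ
  have h3 := (card_le_card h1).trans (card_biUnion_le_card_mul _ _ _ fun r' _ => h2 r')
  have h4 : ((univ.filter (fun r : X → Bool => ∃ r' : X → Bool,
      (∀ a, a ∉ Z → r' a = r a) ∧ K r')).card : ℝ) ≤ (univ.filter K).card * 2 ^ b := by
    exact_mod_cast h3
  linarith

end

variable {X J ι : Type} [Fintype X] [DecidableEq X] [Fintype J] [DecidableEq J] [Fintype ι]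
  [DecidableEq ι]

namespace Sys

variable (s : Sys X J ι)

theorem sum_at {A : ℕ} (hA : ∀ i, (s.RX i).card ≤ A) :
    ∑ a, (s.at' a).card ≤ Fintype.card ι * A := by
  have h1 : ∑ a, (s.at' a).card = ∑ i, (s.RX i).card := by
    have : ∀ a, (s.at' a).card = ∑ i, if a ∈ s.RX i then 1 else 0 := by
      intro a
      rw [at', card_filter]
    simp only [this]
    rw [sum_comm]
    refine sum_congr rfl fun i _ => ?_
    rw [← card_filter, filter_mem_eq_inter, univ_inter]
  rw [h1]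
  refine (sum_le_sum fun i _ => hA i).trans ?_
  rw [sum_const, card_univ, smul_eq_mul]

theorem heavy_card {A : ℕ} (hA : ∀ i, (s.RX i).card ≤ A) (D : ℕ) :
    (s.heavy D).card * D ≤ Fintype.card ι * A := by
  refine le_trans ?_ (s.sum_at hA)
  have h1 : (s.heavy D).card * D ≤ ∑ a ∈ s.heavy D, (s.at' a).card := by
    rw [← smul_eq_mul]
    exact card_nsmul_le_sum _ _ _ fun a ha => (s.mem_heavy).1 ha
  exact h1.trans (sum_le_sum_of_subset (subset_univ _))

/-- The pointers read by at least `D` pieces. -/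
def hp (D : ℕ) : Finset J := univ.filter fun j => D ≤ (univ.filter fun i => j ∈ s.RJ i).card

theorem hp_card {A : ℕ} (hA : ∀ i, (s.RJ i).card ≤ A) (D : ℕ) :
    (s.hp D).card * D ≤ Fintype.card ι * A := by
  have h0 : ∑ j, (univ.filter fun i => j ∈ s.RJ i).card ≤ Fintype.card ι * A := by
    have h1 : ∑ j, (univ.filter fun i => j ∈ s.RJ i).card = ∑ i, (s.RJ i).card := by
      have : ∀ j, (univ.filter fun i => j ∈ s.RJ i).card = ∑ i, if j ∈ s.RJ i then 1 else 0 := by
        intro a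
        rw [card_filter]
      simp only [this]
      rw [sum_comm]
      refine sum_congr rfl fun i _ => ?_
      rw [← card_filter, filter_mem_eq_inter, univ_inter]
    rw [h1]
    refine (sum_le_sum fun i _ => hA i).trans ?_
    rw [sum_const, card_univ, smul_eq_mul]
  refine le_trans ?_ h0
  have h1 : (s.hp D).card * D ≤ ∑ j ∈ s.hp D, (univ.filter fun i => j ∈ s.RJ i).card := by
    rw [← smul_eq_mul]
    exact card_nsmul_le_sum _ _ _ fun a ha => (mem_filter.1 ha).2
  exact h1.trans (sum_le_sum_of_subset (subset_univ _))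

theorem pos2_card {A D : ℕ} (hA : ∀ i, (s.RX i).card ≤ A) {T : Finset J}
    (hT : Disjoint T (s.hp D)) : (s.pos2 T).card ≤ T.card * (D * A) := by
  have h1 : s.pos2 T ⊆ T.biUnion (fun j => (univ.filter fun i => j ∈ s.RJ i).biUnion s.RX) := by
    intro a ha
    rw [mem_pos2] at ha
    obtain ⟨i, h1, h2⟩ := ha
    rw [not_disjoint_iff] at h1
    obtain ⟨j, h3, h4⟩ := h1
    simp only [mem_biUnion, mem_filter, mem_univ, true_and]
    exact ⟨j, h4, i, h3, h2⟩
  refine (card_le_card h1).trans (card_biUnion_le_card_mul _ _ _ fun j hj => ?_)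
  refine (card_biUnion_le_card_mul _ _ _ fun i _ => hA i).trans ?_
  refine Nat.mul_le_mul_right _ ?_
  by_contra hcon
  push Not at hcon
  exact disjoint_left.1 hT hj (mem_filter.2 ⟨mem_univ _, hcon.le⟩)

theorem wt_lt {M1 : ℕ} (hM1 : 0 < M1) (a : X) : s.wt M1 a < M1 := by
  unfold wt
  split_ifs with h
  · exact hM1
  · rw [mem_heavy] at h
    omega

theorem exp_le_two {x : ℝ} (h0 : 0 ≤ x) (h1 : x ≤ 1) : Real.exp x ≤ 1 + 2 * x := by
  have h2 := Real.abs_exp_sub_one_sub_id_le (x := x) (by rw [abs_of_nonneg h0]; exact h1)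
  have h3 := (le_abs_self _).trans h2
  nlinarith

/-- The total weight of the live data is small. -/
theorem pr_not_good [Nonempty X] {A M1 : ℕ} (hM1 : 0 < M1) (hA : ∀ i, (s.RX i).card ≤ A)
    {Λ : ℝ} (h : (Fintype.card J : ℝ) * (Fintype.card ι * A) ≤ Fintype.card X * M1) :
    pr (fun ζ : J → X => ¬ s.Good M1 Λ ζ) ≤ Real.exp (2 - Λ / M1) := by
  classical
  have hN : (0 : ℝ) < Fintype.card X := by exact_mod_cast Fintype.card_pos
  have hM : (0 : ℝ) < M1 := by exact_mod_cast hM1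
  obtain ⟨q, hq⟩ : ∃ q : ℝ, q = 1 + 2 * ((Fintype.card ι * A : ℝ) / (M1 * Fintype.card X)) :=
    ⟨_, rfl⟩
  have h1 : av (fun ζ : J → X => ∏ j ∈ (univ : Finset J), Real.exp (s.wt M1 (ζ j) / M1)) ≤
      q ^ (univ : Finset J).card := by
    refine av_prod_coord univ (fun _ a => Real.exp (s.wt M1 a / M1)) (fun _ _ => by positivity)
      (fun _ _ _ _ => rfl) fun _ => ?_
    have h2 : ∀ a, Real.exp (s.wt M1 a / M1) ≤ 1 + 2 * ((s.wt M1 a : ℝ) / M1) := by
      intro a
      refine exp_le_two (by positivity) ?_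
      rw [div_le_one hM]
      exact_mod_cast (s.wt_lt hM1 a).le
    refine (av_mono h2).trans ?_
    unfold av
    rw [sum_add_distrib, ← mul_sum, ← sum_div, sum_const, card_univ, nsmul_eq_mul, mul_one,
      add_div, div_self hN.ne', hq]
    have h3 : (∑ a, (s.wt M1 a : ℝ)) ≤ Fintype.card ι * A := by
      have h4 : ∑ a, s.wt M1 a ≤ Fintype.card ι * A := by
        refine le_trans (sum_le_sum fun a _ => ?_) (s.sum_at hA)
        unfold wt
        split_ifs
        · exact Nat.zero_le _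
        · exact le_refl _
      exact_mod_cast h4
    gcongr 1 + ?_
    rw [mul_div_assoc, div_div]
    gcongr
  have h2 : ∀ ζ : J → X, ind (¬ s.Good M1 Λ ζ) ≤ Real.exp (-(Λ / M1)) *
      ∏ j ∈ (univ : Finset J), Real.exp (s.wt M1 (ζ j) / M1) := by
    intro ζ
    by_cases hG : s.Good M1 Λ ζ
    · rw [ind_neg (not_not.2 hG)]
      positivity
    · rw [ind_pos hG, ← Real.exp_sum, ← Real.exp_add]
      apply Real.one_le_exp
      unfold Good at hG
      push Not at hG
      rw [← sum_div, ← sub_eq_neg_add, sub_nonneg]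
      gcongr
      have : ((∑ j, s.wt M1 (ζ j) : ℕ) : ℝ) = ∑ j, (s.wt M1 (ζ j) : ℝ) := by push_cast; rfl
      rw [← this]
      exact hG.le
  rw [pr_eq_av]
  refine (av_mono h2).trans ?_
  rw [av_mul_left]
  have h3 : q ^ (univ : Finset J).card ≤ Real.exp 2 := by
    have h4 : q ≤ Real.exp (2 * ((Fintype.card ι * A : ℝ) / (M1 * Fintype.card X))) := by
      rw [hq, add_comm]
      exact Real.add_one_le_exp _
    have hq0 : 0 ≤ q := by rw [hq]; positivity
    refine (pow_le_pow_left₀ hq0 h4 _).trans ?_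
    rw [← Real.exp_nat_mul]
    apply Real.exp_le_exp.2
    rw [card_univ]
    have h5 : (Fintype.card J : ℝ) * ((Fintype.card ι * A : ℝ) / (M1 * Fintype.card X)) ≤ 1 := by
      rw [← mul_div_assoc, div_le_one (by positivity)]
      linarith
    linarith
  calc Real.exp (-(Λ / M1)) * av (fun ζ : J → X =>
        ∏ j ∈ (univ : Finset J), Real.exp (s.wt M1 (ζ j) / M1))
      ≤ Real.exp (-(Λ / M1)) * Real.exp 2 := by
        gcongr
        exact h1.trans h3
    _ = Real.exp (2 - Λ / M1) := by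
        rw [← Real.exp_add]
        congr 1
        ring

end Sys

end Pool.Agent.MP_9cec2c_lc.FormulaLines
end

section

/-!
The failure event and its probability.
-/

set_option autoImplicit false
set_option linter.unusedSectionVars false

namespace Pool.Agent.MP_9cec2c_lc.FormulaLines

open Finset
open Pool.Agent.MP_9cec2c_lc.SubstRed

variable {X J ι : Type} [Fintype X] [DecidableEq X] [Fintype J] [DecidableEq J] [Fintype ι]
  [DecidableEq ι]

namespace Sys

variable (s : Sys X J ι)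

/-- The pointers to heavy data bits. -/
def hv (M1 : ℕ) (ζ : J → X) : Finset J := univ.filter fun j => ζ j ∈ s.heavy M1

open scoped Classical in
/-- The relevant pointers. -/
noncomputable def bads (M1 : ℕ) (ζ : J → X) (r : X → Bool) : Finset J :=
  univ.filter fun j => s.Bad M1 ζ r j

/-- The failure event. -/
def Fail (M1 b w : ℕ) (ζ : J → X) (r : X → Bool) : Prop :=
  b ≤ (s.hv M1 ζ).card ∨
    ∃ r' : X → Bool, (∀ a, a ∉ (s.hv M1 ζ).image ζ → r' a = r a) ∧ w ≤ (s.bads M1 ζ r').card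

theorem pr_hv [Nonempty X] {M1 b : ℕ} {y : ℝ}
    (h : (Fintype.card J : ℝ) * (s.heavy M1).card ≤ y * Fintype.card X) :
    pr (fun ζ : J → X => b ≤ (s.hv M1 ζ).card) ≤ y ^ b := by
  classical
  have hN : (0 : ℝ) < Fintype.card X := by exact_mod_cast Fintype.card_pos
  have h1 := many (Ω := J → X) (m := b) (w := b) (fun _ => True)
    (fun ζ j => ζ j ∈ s.heavy M1) univ (q := ((s.heavy M1).card / Fintype.card X : ℝ) ^ b)
    (by
      intro T _ hT
      rw [← hT]
      refine le_trans (pr_mono (q := fun ζ : J → X => ∀ j ∈ T, ζ j ∈ s.heavy M1)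
        fun ζ h => h.2) ?_
      exact indep_fixed T (fun a => a ∈ s.heavy M1) _ (pr_mem_finset _).le)
  simp only [true_and, Nat.choose_self, Nat.cast_one, mul_one, card_univ] at h1
  have h2 : (fun ζ : J → X => b ≤ (s.hv M1 ζ).card) =
      fun ζ : J → X => b ≤ (univ.filter (fun j => ζ j ∈ s.heavy M1)).card := rfl
  rw [h2]
  have h1' : pr (fun ζ : J → X => b ≤ (univ.filter (fun j => ζ j ∈ s.heavy M1)).card) ≤
      ((Fintype.card J).choose b : ℝ) * ((s.heavy M1).card / Fintype.card X : ℝ) ^ b := by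
    convert h1
  refine h1'.trans ?_
  have h3 : ((Fintype.card J).choose b : ℝ) ≤ (Fintype.card J : ℝ) ^ b := by
    exact_mod_cast Nat.choose_le_pow _ _
  calc ((Fintype.card J).choose b : ℝ) * ((s.heavy M1).card / Fintype.card X : ℝ) ^ b
      ≤ (Fintype.card J : ℝ) ^ b * ((s.heavy M1).card / Fintype.card X : ℝ) ^ b := by gcongr
    _ = ((Fintype.card J : ℝ) * (s.heavy M1).card / Fintype.card X) ^ b := by
        rw [← mul_pow, mul_div_assoc]
    _ ≤ y ^ b := by
        refine pow_le_pow_left₀ (by positivity) ?_ _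
        rw [div_le_iff₀ hN]
        exact h

theorem pr_bads [Nonempty X] {A D0 M1 M2 M' m0 w w' : ℕ} (hM1 : 0 < M1)
    (hA : ∀ i, (s.RX i).card ≤ A)
    {x Λ : ℝ} (hx : 0 ≤ x) (hD : D0 ≤ M2)
    (h1 : ((s.heavy D0).card : ℝ) ≤ x * Fintype.card X)
    (h2 : (15 * m0 : ℝ) * (M' * A) ≤ x * Fintype.card X)
    (h3 : A * Λ ≤ x * Fintype.card X)
    (h4 : (15 * m0 : ℝ) * (D0 * A * (M2 * A)) ≤ x * Fintype.card X)
    (hinf : ∀ (v : X → Bool) (ζ : J → X), ∑ i, ∑ a ∈ univ \ s.heavy M2,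
      pr (fun r : X → Bool => s.Piv i ζ (mix (s.heavy M2) v r) a) ≤ x * Fintype.card X)
    (hgood : (Fintype.card J : ℝ) * (Fintype.card ι * A) ≤ Fintype.card X * M1)
    (hw : (s.hp M').card + w' ≤ w) (hmw : 30 * m0 ≤ w') (hw'0 : 0 < w') :
    pr (fun ω : (J → X) × (X → Bool) => w ≤ (s.bads M1 ω.1 ω.2).card) ≤
      Real.exp (2 - Λ / M1) +
        (2 * Fintype.card J / w' : ℝ) ^ (15 * m0) * (5 * 2 ^ (15 * m0) * x ^ m0) := by
  classical
  have hN : (0 : ℝ) < Fintype.card X := by exact_mod_cast Fintype.card_pos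
  obtain ⟨U, hU⟩ : ∃ U, U = univ \ s.hp M' := ⟨_, rfl⟩
  have hcov : ∀ ω : (J → X) × (X → Bool), w ≤ (s.bads M1 ω.1 ω.2).card →
      ¬ s.Good M1 Λ ω.1 ∨ (s.Good M1 Λ ω.1 ∧ w' ≤ (U.filter (s.Bad M1 ω.1 ω.2)).card) := by
    intro ω hω
    by_cases hG : s.Good M1 Λ ω.1
    · right
      refine ⟨hG, ?_⟩
      have h5 : s.bads M1 ω.1 ω.2 ⊆ s.hp M' ∪ U.filter (s.Bad M1 ω.1 ω.2) := by
        intro j hj
        rw [mem_union, mem_filter, hU, mem_sdiff]
        have := (mem_filter.1 hj).2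
        by_cases hj' : j ∈ s.hp M'
        · exact Or.inl hj'
        · exact Or.inr ⟨⟨mem_univ _, hj'⟩, this⟩
      have h6 := (card_le_card h5).trans (card_union_le _ _)
      omega
    · exact Or.inl hG
  refine (pr_mono hcov).trans ((pr_or _ _).trans (add_le_add ?_ ?_))
  · have := pr_fst (Ω' := X → Bool) (fun ζ : J → X => ¬ s.Good M1 Λ ζ)
    refine this.le.trans ?_
    exact s.pr_not_good hM1 hA hgood
  · have h6 : ∀ T ⊆ U, T.card = 15 * m0 →
        pr (fun ω : (J → X) × (X → Bool) => s.Good M1 Λ ω.1 ∧ ∀ j ∈ T, s.Bad M1 ω.1 ω.2 j) ≤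
          5 * 2 ^ (15 * m0) * x ^ m0 := by
      intro T hTU hT
      have hTc : (T.card : ℝ) = 15 * m0 := by rw [hT]; push_cast; ring
      refine s.fixed_T hA hx hD T hT h1 ?_ h3 ?_ hinf
      · have hdis : Disjoint T (s.hp M') := by
          rw [disjoint_left]
          intro j hj hj'
          have := hTU hj
          rw [hU, mem_sdiff] at this
          exact this.2 hj'
        have h7 := s.pos2_card hA hdis
        have h8 : ((s.pos2 T).card : ℝ) ≤ T.card * (M' * A) := by exact_mod_cast h7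
        rw [hTc] at h8
        exact h8.trans h2
      · rw [hTc]
        exact h4
    have h7 := many' (by omega) hw'0 (fun ω : (J → X) × (X → Bool) => s.Good M1 Λ ω.1)
      (fun ω j => s.Bad M1 ω.1 ω.2 j) U (by positivity) h6
    refine le_trans (le_of_eq ?_) (h7.trans ?_)
    · congr!
    · gcongr
      rw [hU]
      exact_mod_cast (card_le_univ _)

theorem pr_fail [Nonempty X] {M1 b w : ℕ} {y z : ℝ}
    (h : (Fintype.card J : ℝ) * (s.heavy M1).card ≤ y * Fintype.card X)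
    (hz : pr (fun ω : (J → X) × (X → Bool) => w ≤ (s.bads M1 ω.1 ω.2).card) ≤ z) :
    pr (fun ω : (J → X) × (X → Bool) => s.Fail M1 b w ω.1 ω.2) ≤ y ^ b + 2 ^ b * z := by
  classical
  have hcov : ∀ ω : (J → X) × (X → Bool), s.Fail M1 b w ω.1 ω.2 →
      b ≤ (s.hv M1 ω.1).card ∨ ((s.hv M1 ω.1).card ≤ b ∧
        ∃ r' : X → Bool, (∀ a, a ∉ (s.hv M1 ω.1).image ω.1 → r' a = ω.2 a) ∧
          w ≤ (s.bads M1 ω.1 r').card) := by
    intro ω hω
    by_cases hb : b ≤ (s.hv M1 ω.1).card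
    · exact Or.inl hb
    · rcases hω with h1 | h1
      · exact absurd h1 hb
      · exact Or.inr ⟨by omega, h1⟩
  refine (pr_mono hcov).trans ((pr_or _ _).trans (add_le_add ?_ ?_))
  · have := pr_fst (Ω' := X → Bool) (fun ζ : J → X => b ≤ (s.hv M1 ζ).card)
    exact this.le.trans (s.pr_hv h)
  · refine le_trans ?_ (mul_le_mul_of_nonneg_left hz (by positivity))
    rw [pr_eq_av, pr_eq_av, av_prod_type, av_prod_type, ← av_mul_left]
    refine av_mono fun ζ => ?_
    rw [← pr_eq_av (fun r : X → Bool => (s.hv M1 ζ).card ≤ b ∧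
        ∃ r' : X → Bool, (∀ a, a ∉ (s.hv M1 ζ).image ζ → r' a = r a) ∧
          w ≤ (s.bads M1 ζ r').card), ← pr_eq_av (fun r : X → Bool => w ≤ (s.bads M1 ζ r).card)]
    by_cases hb : (s.hv M1 ζ).card ≤ b
    · refine le_trans (pr_mono (q := fun r : X → Bool => ∃ r' : X → Bool,
        (∀ a, a ∉ (s.hv M1 ζ).image ζ → r' a = r a) ∧ w ≤ (s.bads M1 ζ r').card)
        fun r hr => hr.2) ?_
      exact pr_exists_change ((s.hv M1 ζ).image ζ) (card_image_le.trans hb)
        (fun r' => w ≤ (s.bads M1 ζ r').card)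
    · refine le_trans (pr_mono (q := fun _ : X → Bool => False) fun r hr => hb hr.1) ?_
      rw [pr_false]
      have := pr_nonneg (fun r : X → Bool => w ≤ (s.bads M1 ζ r).card)
      positivity

/-- Outside the failure event, the values of the pieces depend on few alive bits. -/
theorem shallow {M1 : ℕ} {ζ : J → X} {r' d d' : X → Bool}
    (hd : ∀ a, (∀ j, a = ζ j → ζ j ∈ s.heavy M1) → d a = r' a)
    (hd' : ∀ a, (∀ j, a = ζ j → ζ j ∈ s.heavy M1) → d' a = r' a)
    (hdd : ∀ j ∈ s.bads M1 ζ r', d (ζ j) = d' (ζ j)) (i : ι) (u : Bool) :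
    s.ev i ζ d u = s.ev i ζ d' u := by
  classical
  by_cases hex : ∃ j, ζ j ∉ s.heavy M1 ∧ ζ j ∈ s.RX i ∧ j ∉ s.bads M1 ζ r'
  · obtain ⟨j, h1, h2, h3⟩ := hex
    have h4 : ¬ s.Bad M1 ζ r' j := fun h => h3 (mem_filter.2 ⟨mem_univ _, h⟩)
    have h5 : (∀ j', j' ≠ j → ζ j' ∉ s.heavy M1 → ζ j' ∉ s.RX i) ∧ ¬ s.Piv i ζ r' (ζ j) := by
      constructor
      · intro j' g1 g2 g3
        exact h4 ⟨h1, i, h2, Or.inl ⟨j', g1, g2, g3⟩⟩
      · intro g
        exact h4 ⟨h1, i, h2, Or.inr g⟩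
    have key : ∀ e : X → Bool, (∀ a, (∀ j, a = ζ j → ζ j ∈ s.heavy M1) → e a = r' a) →
        s.ev i ζ e u = s.ev i ζ r' u := by
      intro e he
      by_cases he' : e (ζ j) = r' (ζ j)
      · refine s.congr i ζ ζ e r' u (fun _ _ => rfl) fun a ha => ?_
        by_cases ha' : a = ζ j
        · rw [ha', he']
        · refine he a fun j' hj' => ?_
          by_contra hcon
          refine h5.1 j' ?_ hcon (hj' ▸ ha)
          rintro rfl
          exact ha' hj'
      · have h6 : s.ev i ζ e u = s.ev i ζ (flip (ζ j) r') u := by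
          refine s.congr i ζ ζ e _ u (fun _ _ => rfl) fun a ha => ?_
          by_cases ha' : a = ζ j
          · rw [ha']
            unfold flip
            cases h7 : e (ζ j) <;> cases h8 : r' (ζ j) <;> simp_all
          · have h7 : flip (ζ j) r' a = r' a := by
              unfold flip
              simp [ha']
            rw [h7]
            refine he a fun j' hj' => ?_
            by_contra hcon
            refine h5.1 j' ?_ hcon (hj' ▸ ha)
            rintro rfl
            exact ha' hj'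
        rw [h6]
        by_contra hcon
        exact h5.2 ⟨u, fun h => hcon h.symm⟩
    rw [key d hd, key d' hd']
  · push Not at hex
    refine s.congr i ζ ζ d d' u (fun _ _ => rfl) fun a ha => ?_
    by_cases ha' : ∀ j, a = ζ j → ζ j ∈ s.heavy M1
    · rw [hd a ha', hd' a ha']
    · push Not at ha'
      obtain ⟨j, rfl, hj⟩ := ha'
      exact hdd j (hex j hj ha)

end Sys

end Pool.Agent.MP_9cec2c_lc.FormulaLines
end

section

/-!
The system of pieces of a formula, and shallow functions.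
-/

set_option autoImplicit false
set_option linter.unusedSectionVars false

namespace Pool.Agent.MP_9cec2c_lc.FormulaLines

open Finset
open Pool.Agent.MP_9cec2c_lc.SubstRed

/-- The variables of the lifted system: data bits and bits of pointers. -/
abbrev LV (B : ℕ) (J : Type) := (Fin B → Bool) ⊕ (J × Fin B)

variable {J : Type} [Fintype J] [DecidableEq J] {B : ℕ}

/-- The assignment with pointers `ζ` and data `r`. -/
def asg (ζ : J → Fin B → Bool) (r : (Fin B → Bool) → Bool) : LV B J → Bool :=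
  Sum.elim r fun p => ζ p.1 p.2

/-- The system of pieces of a formula. -/
def fsys (l k : ℕ) (φ : Formula (LV B J)) (hφ : φ.Local (k : ℝ)) :
    Sys (Fin B → Bool) J (Fin (pieces l φ).length) where
  RX i := univ.filter fun a => Sum.inl a ∈ ((pieces l φ).get i).reads
  RJ i := univ.filter fun j => ∃ β, Sum.inr (j, β) ∈ ((pieces l φ).get i).reads
  ev i ζ r u := ((pieces l φ).get i).eval (asg ζ r) u
  congr := by
    intro i ζ ζ' r r' u h1 h2
    refine Piece.eval_congr (k := k) _ (pieces_local φ hφ _ (List.get_mem _ _)) ?_ u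
    rintro (a | ⟨j, β⟩) hv
    · exact h2 a (mem_filter.2 ⟨mem_univ _, hv⟩)
    · have := h1 j (mem_filter.2 ⟨mem_univ _, β, hv⟩)
      simp only [asg, Sum.elim_inr]
      rw [this]

section

variable {l k : ℕ} {φ : Formula (LV B J)} {hφ : φ.Local (k : ℝ)}

theorem piece_reads_card (hl : 2 ≤ l) (hφ : φ.Local (k : ℝ)) (i : Fin (pieces l φ).length) :
    ((pieces l φ).get i).reads.card ≤ 2 * l * k := by
  have h1 := Piece.reads_card (k := k) ((pieces l φ).get i)
    (pieces_local φ hφ _ (List.get_mem _ _))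
  have h2 := pieces_size hl φ ((pieces l φ).get i) (List.get_mem _ _)
  exact h1.trans (Nat.mul_le_mul_right _ h2.le)

theorem fsys_RX (hl : 2 ≤ l) (i : Fin (pieces l φ).length) :
    ((fsys l k φ hφ).RX i).card ≤ 2 * l * k := by
  refine le_trans ?_ (piece_reads_card hl hφ i)
  refine card_le_card_of_injOn (fun a => Sum.inl a) ?_ ?_
  · intro a ha
    exact (mem_filter.1 ha).2
  · intro a _ b _ hab
    exact Sum.inl_injective hab

theorem fsys_RJ (hl : 2 ≤ l) (i : Fin (pieces l φ).length) :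
    ((fsys l k φ hφ).RJ i).card ≤ 2 * l * k := by
  classical
  refine le_trans ?_ (piece_reads_card hl hφ i)
  have hch : ∀ j : J, ∃ β : LV B J, (∃ β, Sum.inr (j, β) ∈ ((pieces l φ).get i).reads) →
      β ∈ ((pieces l φ).get i).reads ∧ ∃ γ, β = Sum.inr (j, γ) := by
    intro j
    by_cases h : ∃ β, Sum.inr (j, β) ∈ ((pieces l φ).get i).reads
    · obtain ⟨β, hβ⟩ := h
      exact ⟨Sum.inr (j, β), fun _ => ⟨hβ, β, rfl⟩⟩
    · exact ⟨Sum.inl fun _ => true, fun h' => absurd h' h⟩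
  choose c hc using hch
  refine card_le_card_of_injOn c ?_ ?_
  · intro j hj
    exact (hc j (mem_filter.1 hj).2).1
  · intro j hj j' hj' heq
    obtain ⟨γ, hγ⟩ := (hc j (mem_filter.1 hj).2).2
    obtain ⟨γ', hγ'⟩ := (hc j' (mem_filter.1 hj').2).2
    rw [hγ, hγ'] at heq
    have := Sum.inr_injective heq
    exact (Prod.ext_iff.1 this).1

theorem mix_flip {D : Finset (Fin B → Bool)} {v r : (Fin B → Bool) → Bool} {a : Fin B → Bool}
    (ha : a ∉ D) : flip a (mix D v r) = mix D v (flip a r) := by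
  funext b
  by_cases hb : b = a
  · subst hb
    simp only [flip, Function.update_self, mix, ha, if_false]
  · rw [flip_of_ne hb]
    unfold mix
    rw [flip_of_ne hb]

theorem coord_mix (ζ : J → Fin B → Bool) (D : Finset (Fin B → Bool))
    (v : (Fin B → Bool) → Bool) : Coord (fun r => asg ζ (mix D v r)) := by
  rintro (a | p)
  · refine ⟨{a}, by simp, fun r r' h => ?_⟩
    simp only [asg, Sum.elim_inl, mix]
    rw [h a (mem_singleton_self a)]
  · exact ⟨∅, by simp, fun r r' _ => rfl⟩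

theorem fsys_inf (hl : 2 ≤ l) {G : ℝ} (hG0 : 0 ≤ G) (hG : (k : ℝ) ^ 2 * (2 * l) ≤ G ^ 2)
    (M2 : ℕ) (v : (Fin B → Bool) → Bool) (ζ : J → Fin B → Bool) :
    ∑ i, ∑ a ∈ univ \ (fsys l k φ hφ).heavy M2,
      pr (fun r => (fsys l k φ hφ).Piv i ζ (mix ((fsys l k φ hφ).heavy M2) v r) a) ≤
      (pieces l φ).length * (2 * G) := by
  classical
  obtain ⟨D, hD⟩ : ∃ D, D = (fsys l k φ hφ).heavy M2 := ⟨_, rfl⟩
  rw [← hD]
  have h0 : ∀ i, ∑ a ∈ univ \ D,
      pr (fun r => (fsys l k φ hφ).Piv i ζ (mix D v r) a) ≤ 2 * G := by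
    intro i
    have h1 : ∀ u : Bool, ∑ a, pr (fun r : (Fin B → Bool) → Bool =>
        ((pieces l φ).get i).eval (asg ζ (mix D v r)) u ≠
          ((pieces l φ).get i).eval (asg ζ (mix D v (flip a r))) u) ≤ G := by
      intro u
      refine influence (coord_mix ζ D v) u _ (pieces_local φ hφ _ (List.get_mem _ _)) hG0 ?_
      refine le_trans ?_ hG
      gcongr
      have := pieces_size hl φ ((pieces l φ).get i) (List.get_mem _ _)
      exact_mod_cast this.le
    have h2 : ∀ a ∈ univ \ D, pr (fun r => (fsys l k φ hφ).Piv i ζ (mix D v r) a) ≤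
        pr (fun r : (Fin B → Bool) → Bool =>
          ((pieces l φ).get i).eval (asg ζ (mix D v r)) true ≠
            ((pieces l φ).get i).eval (asg ζ (mix D v (flip a r))) true) +
        pr (fun r : (Fin B → Bool) → Bool =>
          ((pieces l φ).get i).eval (asg ζ (mix D v r)) false ≠
            ((pieces l φ).get i).eval (asg ζ (mix D v (flip a r))) false) := by
      intro a ha
      refine le_trans (pr_mono fun r hr => ?_) (pr_or _ _)
      obtain ⟨u, hu⟩ := hr
      rw [mix_flip (mem_sdiff.1 ha).2] at hu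
      cases u
      · exact Or.inr hu
      · exact Or.inl hu
    refine (sum_le_sum h2).trans ?_
    rw [sum_add_distrib]
    have h3 : ∀ u : Bool, ∑ a ∈ univ \ D, pr (fun r : (Fin B → Bool) → Bool =>
        ((pieces l φ).get i).eval (asg ζ (mix D v r)) u ≠
          ((pieces l φ).get i).eval (asg ζ (mix D v (flip a r))) u) ≤ G := by
      intro u
      refine le_trans (sum_le_sum_of_subset_of_nonneg (subset_univ _)
        fun a _ _ => pr_nonneg _) (h1 u)
    linarith [h3 true, h3 false]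
  refine (sum_le_sum fun i _ => h0 i).trans ?_
  rw [sum_const, card_univ, Fintype.card_fin, nsmul_eq_mul]

end

/-- The function is decided after reading a few bits in two rounds. -/
def Shallow {β : Type*} (c : ℕ) (f : (J → Bool) → β) : Prop :=
  ∃ (D : Finset J) (R : (J → Bool) → Finset J), (∀ y, D ⊆ R y ∧ (R y).card ≤ c) ∧
    (∀ y y' : J → Bool, (∀ j ∈ D, y j = y' j) → R y = R y') ∧
    ∀ y y' : J → Bool, (∀ j ∈ R y, y j = y' j) → f y = f y'

theorem Shallow.top {β γ : Type*} {q c : ℕ} {f : Fin q → (J → Bool) → β}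
    (h : ∀ i, Shallow c (f i)) (top : (Fin q → β) → γ) :
    Shallow (q * c) (fun y => top fun i => f i y) := by
  classical
  choose D R h1 h2 h3 using h
  refine ⟨univ.biUnion D, fun y => univ.biUnion fun i => R i y, fun y => ⟨?_, ?_⟩, ?_, ?_⟩
  · exact biUnion_mono fun i _ => (h1 i y).1
  · refine (card_biUnion_le_card_mul _ _ c fun i _ => (h1 i y).2).trans ?_
    simp
  · intro y y' h
    refine biUnion_congr rfl fun i _ => h2 i y y' fun j hj => h j ?_
    exact mem_biUnion.2 ⟨i, mem_univ _, hj⟩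
  · intro y y' h
    refine congrArg top (funext fun i => ?_)
    exact h3 i y y' fun j hj => h j (mem_biUnion.2 ⟨i, mem_univ _, hj⟩)

open scoped Classical in
/-- The data with values `y` at the positions of the pointers. -/
noncomputable def dat (ζ : J → Fin B → Bool) (r : (Fin B → Bool) → Bool) (y : J → Bool) :
    (Fin B → Bool) → Bool :=
  fun a => if h : ∃ j, ζ j = a then y h.choose else r a

theorem dat_self {ζ : J → Fin B → Bool} (hζ : Function.Injective ζ)
    (r : (Fin B → Bool) → Bool) (y : J → Bool) (j : J) : dat ζ r y (ζ j) = y j := by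
  unfold dat
  have h : ∃ j', ζ j' = ζ j := ⟨j, rfl⟩
  rw [dif_pos h]
  congr 1
  exact hζ h.choose_spec

theorem dat_of_not {ζ : J → Fin B → Bool} {r : (Fin B → Bool) → Bool} {y : J → Bool}
    {a : Fin B → Bool} (h : ∀ j, ζ j ≠ a) : dat ζ r y a = r a := by
  unfold dat
  rw [dif_neg]
  rintro ⟨j, hj⟩
  exact h j hj

/-- Outside the failure event a restricted formula is shallow. -/
theorem shallow_formula {l k : ℕ} {φ : Formula (LV B J)} (hφ : φ.Local (k : ℝ)) {M1 b w : ℕ}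
    {ζ : J → Fin B → Bool} (hζ : Function.Injective ζ) {r : (Fin B → Bool) → Bool}
    (hF : ¬ (fsys l k φ hφ).Fail M1 b w ζ r) :
    Shallow (b + w) (fun y => φ.eval (asg ζ (dat ζ r y))) := by
  classical
  obtain ⟨s, hs⟩ : ∃ s, s = fsys l k φ hφ := ⟨_, rfl⟩
  rw [← hs] at hF
  unfold Sys.Fail at hF
  push Not at hF
  obtain ⟨hF1, hF2⟩ := hF
  obtain ⟨D, hD⟩ : ∃ D, D = s.hv M1 ζ := ⟨_, rfl⟩
  rw [← hD] at hF1 hF2
  have hmD : ∀ j, j ∈ D ↔ ζ j ∈ s.heavy M1 := by
    intro j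
    rw [hD]
    simp [Sys.hv]
  -- the data with only the heavy positions replaced
  obtain ⟨ρ, hρ⟩ : ∃ ρ : (J → Bool) → (Fin B → Bool) → Bool,
      ρ = fun y a => if a ∈ D.image ζ then dat ζ r y a else r a := ⟨_, rfl⟩
  have hρ1 : ∀ y a, a ∉ D.image ζ → ρ y a = r a := by
    intro y a ha
    rw [hρ]
    simp only [if_neg ha]
  have hρ2 : ∀ y a, (∀ j, a = ζ j → ζ j ∈ s.heavy M1) → dat ζ r y a = ρ y a := by
    intro y a ha
    by_cases h : a ∈ D.image ζ
    · rw [hρ]
      simp only [if_pos h]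
    · rw [hρ1 y a h]
      refine dat_of_not fun j hj => h ?_
      rw [mem_image]
      exact ⟨j, (hmD j).2 (ha j hj.symm), hj⟩
  have hρ3 : ∀ y y' : J → Bool, (∀ j ∈ D, y j = y' j) → ρ y = ρ y' := by
    intro y y' h
    funext a
    by_cases ha : a ∈ D.image ζ
    · rw [hρ]
      simp only [if_pos ha]
      obtain ⟨j, hj, rfl⟩ := mem_image.1 ha
      rw [dat_self hζ, dat_self hζ, h j hj]
    · rw [hρ1 y a ha, hρ1 y' a ha]
  refine ⟨D, fun y => D ∪ s.bads M1 ζ (ρ y), fun y => ⟨subset_union_left, ?_⟩, ?_, ?_⟩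
  · show (D ∪ s.bads M1 ζ (ρ y)).card ≤ b + w
    have h1 := card_union_le D (s.bads M1 ζ (ρ y))
    have h2 := hF2 (ρ y) (hρ1 y)
    omega
  · intro y y' h
    simp only [hρ3 y y' h]
  · intro y y' h
    have hDD : ∀ j ∈ D, y j = y' j := fun j hj => h j (mem_union_left _ hj)
    refine eval_eq_of_pieces (l := l) φ fun p hp u => ?_
    obtain ⟨i, hi⟩ := List.get_of_mem hp
    subst hs
    have h1 := (fsys l k φ hφ).shallow (M1 := M1) (ζ := ζ) (r' := ρ y) (d := dat ζ r y) (d' := dat ζ r y')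
      (hρ2 y) (by rw [hρ3 y y' hDD]; exact hρ2 y') (by
        intro j hj
        rw [dat_self hζ, dat_self hζ]
        exact h j (mem_union_right _ hj)) i u
    rw [← hi]
    exact h1

end Pool.Agent.MP_9cec2c_lc.FormulaLines
end
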