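import Mathlib

section

/-!
Substitution redundancy without new variables: the public definitions.
-/

set_option autoImplicit false

namespace Pool.Agent.MP_9cec2c_lc.SubstRed

/-- A literal over the variables `0, …, n - 1`.  The literal `(v, b)` is true under the
assignment `x` exactly when `x v = b`; so `(v, true)` is the variable itself and
`(v, false)` its negation. -/
abbrev Lit (n : ℕ) := Fin n × Bool

/-- The negation of a literal. -/
def negLit {n : ℕ} (l : Lit n) : Lit n := (l.1, !l.2)

/-- A clause is a finite set of literals, read as their disjunction. -/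
abbrev Clause (n : ℕ) := Finset (Lit n)

/-- The assignment `x` satisfies the clause `C`. -/
def Holds {n : ℕ} (x : Fin n → Bool) (C : Clause n) : Prop := ∃ l ∈ C, x l.1 = l.2

/-- `UnitProp Γ A l`: the literal `l` is obtained by unit propagation from the clauses in `Γ`
and the literals in `A` (taken as assumptions): either `l` is an assumption, or some clause
`G` of `Γ` contains `l` and the negations of all its other literals have been obtained. -/
inductive UnitProp {n : ℕ} (Γ : Set (Clause n)) (A : Set (Lit n)) : Lit n → Prop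
  | init (l : Lit n) : l ∈ A → UnitProp Γ A l
  | step (G : Clause n) (l : Lit n) : G ∈ Γ → l ∈ G →
      (∀ g ∈ G, g ≠ l → UnitProp Γ A (negLit g)) → UnitProp Γ A l

/-- Unit propagation from `Γ` under the assumptions `A` reaches a conflict: a clause of `Γ` all
of whose literals are refuted, or a literal obtained together with its negation. -/
def UPConflict {n : ℕ} (Γ : Set (Clause n)) (A : Set (Lit n)) : Prop :=
  (∃ G ∈ Γ, ∀ g ∈ G, UnitProp Γ A (negLit g)) ∨
    ∃ l, UnitProp Γ A l ∧ UnitProp Γ A (negLit l)

/-- `RUP Γ C`: the clause `C` has a reverse unit propagation proof from `Γ`, that is, unit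
propagation from `Γ` and the negation of `C` reaches a conflict. -/
def RUP {n : ℕ} (Γ : Set (Clause n)) (C : Clause n) : Prop :=
  UPConflict Γ {l | negLit l ∈ C}

/-- A substitution sends each variable to a truth value or to a literal. -/
abbrev Subst (n : ℕ) := Fin n → Bool ⊕ Lit n

/-- The image of a literal under a substitution: a truth value or a literal. -/
def substLit {n : ℕ} (τ : Subst n) (l : Lit n) : Bool ⊕ Lit n :=
  match τ l.1 with
  | Sum.inl c => Sum.inl (c == l.2)
  | Sum.inr p => Sum.inr (if l.2 then p else negLit p)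

/-- The clause `C|τ`: all literals that are images of literals of `C` (images that are truth
values are left out). -/
def substClause {n : ℕ} (τ : Subst n) (C : Clause n) : Clause n :=
  Finset.univ.filter (fun p => ∃ l ∈ C, substLit τ l = Sum.inr p)

/-- The substitution satisfies the clause: it sends a literal of `C` to true, or it sends two
literals of `C` to complementary literals. -/
def SubstSat {n : ℕ} (τ : Subst n) (C : Clause n) : Prop :=
  (∃ l ∈ C, substLit τ l = Sum.inl true) ∨
    ∃ p, p ∈ substClause τ C ∧ negLit p ∈ substClause τ C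

/-- `Redundant F Γ C`: for some substitution `τ` (of the same `n` variables), each clause `D`
of `F` and also `C` itself is either satisfied by `τ`, or the clause `C ∨ D|τ` has a reverse
unit propagation proof from `Γ`.  (The usual rule of substitution redundancy asks this for
all clauses `D` of `Γ`, not only for those of `F ⊆ Γ`.) -/
def Redundant {n : ℕ} (F Γ : Set (Clause n)) (C : Clause n) : Prop :=
  ∃ τ : Subst n, ∀ D : Clause n, (D ∈ F ∨ D = C) →
    SubstSat τ D ∨ RUP Γ (C ∪ substClause τ D)

/-- A refutation of `F` with the `S` lines `L 0, …, L (S - 1)`: one of the lines is the empty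
clause, and each line has a reverse unit propagation proof from, or is redundant over, the
clauses of `F` and the earlier lines. -/
def IsRefutation {n : ℕ} (F : Finset (Clause n)) (S : ℕ) (L : Fin S → Clause n) : Prop :=
  (∃ i, L i = ∅) ∧
    ∀ i : Fin S,
      RUP ({D | D ∈ F ∨ ∃ j < i, D = L j}) (L i) ∨
        Redundant {D | D ∈ F} {D | D ∈ F ∨ ∃ j < i, D = L j} (L i)

end Pool.Agent.MP_9cec2c_lc.SubstRed
end

section

/-!
Linear algebra over `ZMod 2`: certificates of unsatisfiability.
-/

set_option autoImplicit false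

namespace Pool.Agent.MP_9cec2c_lc.SubstRed

open Finset

/-- The element of `ZMod 2` given by a Boolean. -/
def bz (c : Bool) : ZMod 2 := if c then 1 else 0

@[simp] theorem bz_true : bz true = 1 := rfl
@[simp] theorem bz_false : bz false = 0 := rfl

theorem bz_surj (t : ZMod 2) : ∃ c, bz c = t := by
  revert t; decide

theorem bz_inj {c d : Bool} (h : bz c = bz d) : c = d := by
  revert c d; decide

theorem bz_beq (c s : Bool) : bz (c == s) = bz c + bz (!s) := by
  revert c s; decide

theorem bz_ne {c d : Bool} (h : c ≠ d) : bz c = bz d + 1 := by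
  revert c d; decide

theorem z2_cases (t : ZMod 2) : t = 0 ∨ t = 1 := by
  revert t; decide

theorem z2_add_self (t : ZMod 2) : t + t = 0 := by
  revert t; decide

theorem z2_eq_of_add (s t : ZMod 2) (h : s + t = 0) : s = t := by
  revert s t; decide

theorem z2_ne (s t : ZMod 2) (h : s ≠ t) : s = t + 1 := by
  revert s t; decide

/-- An unsatisfiable linear system over `ZMod 2` has a subset of its equations summing
to `0 = 1`. -/
theorem unsat_cert {ι : Type*} [DecidableEq ι] {n : ℕ} (A : ι → Fin n → ZMod 2)
    (b : ι → ZMod 2) (J : Finset ι)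
    (h : ∀ y : Fin n → ZMod 2, ¬ ∀ i ∈ J, ∑ v, A i v * y v = b i) :
    ∃ J' ⊆ J, (∀ v, ∑ i ∈ J', A i v = 0) ∧ ∑ i ∈ J', b i = 1 := by
  classical
  let V := (Fin n → ZMod 2) × ZMod 2
  let f : ι → V := fun i => (A i, b i)
  by_cases hmem : ((0, 1) : V) ∈ Submodule.span (ZMod 2) (f '' (J : Set ι))
  · rw [Submodule.mem_span_image_finset_iff_exists_fun'] at hmem
    obtain ⟨c, hc⟩ := hmem
    refine ⟨J.filter (fun i => c i = 1), filter_subset _ _, ?_, ?_⟩
    · intro v
      have h1 := congrArg (fun p : V => p.1 v) hc
      simp only [f, Prod.fst_sum, Finset.sum_apply] at h1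
      rw [Finset.sum_filter]
      refine Eq.trans ?_ h1
      refine Finset.sum_congr rfl fun i _ => ?_
      rcases z2_cases (c i) with h0 | h0 <;> simp [h0]
    · have h1 := congrArg (fun p : V => p.2) hc
      simp only [f, Prod.snd_sum] at h1
      rw [Finset.sum_filter]
      refine Eq.trans ?_ h1
      refine Finset.sum_congr rfl fun i _ => ?_
      rcases z2_cases (c i) with h0 | h0 <;> simp [h0]
  · exfalso
    obtain ⟨φ, hφ1, hφ2⟩ := Submodule.exists_le_ker_of_notMem hmem
    have h1 : φ (0, 1) = 1 := by
      rcases z2_cases (φ (0, 1)) with h0 | h0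
      · exact absurd h0 hφ1
      · exact h0
    refine h (fun v => φ (Pi.single v 1, 0)) fun i hi => ?_
    have h2 : φ (f i) = 0 := hφ2 (Submodule.subset_span ⟨i, hi, rfl⟩)
    have h3 : f i = (∑ v, (A i v) • ((Pi.single v 1, 0) : V)) + (b i) • ((0, 1) : V) := by
      refine Prod.ext ?_ ?_
      · funext w
        simp [f, Prod.fst_sum, Finset.sum_apply, Pi.single_apply]
      · simp [f, Prod.snd_sum]
    rw [h3, map_add, map_sum, map_smul, h1] at h2
    simp only [map_smul, smul_eq_mul, mul_one] at h2
    exact z2_eq_of_add _ _ h2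

/-- `y` extends the partial assignment `π`. -/
def Ext {n : ℕ} (π : Fin n → Option Bool) (y : Fin n → Bool) : Prop :=
  ∀ v c, π v = some c → y v = c

theorem exists_ext {n : ℕ} (π : Fin n → Option Bool) : ∃ y, Ext π y := by
  refine ⟨fun v => (π v).getD false, fun v c h => ?_⟩
  simp [h]

/-- Restricted version of `unsat_cert`. -/
theorem unsat_restr {ι : Type*} [DecidableEq ι] {n : ℕ} (A : ι → Fin n → ZMod 2)
    (b : ι → ZMod 2) (J : Finset ι) (π : Fin n → Option Bool)
    (h : ∀ y : Fin n → Bool, Ext π y → ¬ ∀ i ∈ J, ∑ v, A i v * bz (y v) = b i) :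
    ∃ J' ⊆ J, J'.Nonempty ∧ (∀ v, π v = none → ∑ i ∈ J', A i v = 0) ∧
      ∀ y : Fin n → Bool, Ext π y → ¬ ∀ i ∈ J', ∑ v, A i v * bz (y v) = b i := by
  classical
  let U : Finset (Fin n) := univ.filter (fun v => (π v).isSome)
  let A' : ι ⊕ Fin n → Fin n → ZMod 2 := Sum.elim A (fun u => Pi.single u 1)
  let b' : ι ⊕ Fin n → ZMod 2 := Sum.elim b (fun u => bz ((π u).getD false))
  have key : ∃ J' ⊆ J.disjSum U, (∀ v, ∑ i ∈ J', A' i v = 0) ∧ ∑ i ∈ J', b' i = 1 := by
    refine unsat_cert A' b' _ fun y hy => ?_
    choose z hz using fun v => bz_surj (y v)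
    refine h z (fun v c hv => ?_) (fun i hi => ?_)
    · have h1 := hy (Sum.inr v) (by simp [U, hv])
      simp only [A', b', Sum.elim_inr, Pi.single_apply, ite_mul, one_mul, zero_mul,
        Finset.sum_ite_eq', Finset.mem_univ, if_true, hv, Option.getD_some] at h1
      exact bz_inj ((hz v).trans h1)
    · have h1 := hy (Sum.inl i) (by simpa using hi)
      simpa [A', b', hz] using h1
  obtain ⟨J', hJ', h1, h2⟩ := key
  have hsplit : ∀ g : ι ⊕ Fin n → ZMod 2, ∑ i ∈ J', g i =
      ∑ i ∈ J'.toLeft, g (Sum.inl i) + ∑ u ∈ J'.toRight, g (Sum.inr u) := by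
    intro g
    conv_lhs => rw [← Finset.toLeft_disjSum_toRight (u := J')]
    rw [Finset.sum_disjSum]
  have hsub : ∀ u ∈ J'.toRight, (π u).isSome := by
    intro u hu
    have := hJ' (Finset.mem_toRight.1 hu)
    simpa [U] using this
  have hcon : ∀ y : Fin n → Bool, Ext π y →
      ¬ ∀ i ∈ J'.toLeft, ∑ v, A i v * bz (y v) = b i := by
    intro y hy hall
    have h3 : ∑ i ∈ J', b' i = ∑ i ∈ J', ∑ v, A' i v * bz (y v) := by
      rw [hsplit, hsplit]
      congr 1
      · exact (Finset.sum_congr rfl fun i hi => (hall i hi)).symm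
      · refine Finset.sum_congr rfl fun u hu => ?_
        obtain ⟨c, hc⟩ := Option.isSome_iff_exists.1 (hsub u hu)
        simp [A', b', Pi.single_apply, hc, hy u c hc]
    rw [Finset.sum_comm, h2] at h3
    simp only [← Finset.sum_mul, h1, zero_mul, Finset.sum_const_zero] at h3
    exact one_ne_zero h3
  refine ⟨J'.toLeft, ?_, ?_, ?_, hcon⟩
  · intro i hi
    have := hJ' (Finset.mem_toLeft.1 hi)
    simpa using this
  · by_contra hne
    rw [Finset.not_nonempty_iff_eq_empty] at hne
    obtain ⟨y, hy⟩ := exists_ext π
    refine hcon y hy ?_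
    simp [hne]
  · intro v hv
    have h4 := h1 v
    rw [hsplit] at h4
    have h5 : ∑ u ∈ J'.toRight, A' (Sum.inr u) v = 0 := by
      refine Finset.sum_eq_zero fun u hu => ?_
      have : v ≠ u := by
        rintro rfl
        have := hsub _ hu
        simp [hv] at this
      simp [A', this]
    rw [h5, add_zero] at h4
    exact h4

/-- Restricted implication of a linear equation. -/
theorem impl_restr {ι : Type*} [DecidableEq ι] {n : ℕ} (A : ι → Fin n → ZMod 2)
    (b : ι → ZMod 2) (J : Finset ι) (π : Fin n → Option Bool) (lam : Fin n → ZMod 2)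
    (β : ZMod 2)
    (hc : ∃ y : Fin n → Bool, Ext π y ∧ ∀ i ∈ J, ∑ v, A i v * bz (y v) = b i)
    (h : ∀ y : Fin n → Bool, Ext π y → (∀ i ∈ J, ∑ v, A i v * bz (y v) = b i) →
      ∑ v, lam v * bz (y v) = β) :
    ∃ J' ⊆ J, (∀ v, π v = none → ∑ i ∈ J', A i v = lam v) ∧
      ∀ y : Fin n → Bool, Ext π y → (∀ i ∈ J', ∑ v, A i v * bz (y v) = b i) →
        ∑ v, lam v * bz (y v) = β := by
  classical
  let A' : Option ι → Fin n → ZMod 2 := fun o => o.elim lam A
  let b' : Option ι → ZMod 2 := fun o => o.elim (β + 1) b
  obtain ⟨J', hJ', -, h1, h2⟩ := unsat_restr A' b' (insertNone J) π (by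
    intro y hy hall
    have h3 := h y hy (fun i hi => hall (some i) (by simpa using hi))
    have h4 := hall none (by simp)
    simp only [A', b', Option.elim_none] at h4
    rw [h3] at h4
    revert h4
    generalize β = t
    revert t
    decide)
  have hsub : ∀ i, some i ∈ J' → i ∈ J := fun i hi => by simpa using hJ' hi
  by_cases hnone : none ∈ J'
  · have hJe : insertNone (eraseNone J') = J' := by
      ext o
      cases o <;> simp [hnone]
    refine ⟨eraseNone J', fun i hi => hsub i (by simpa using hi), ?_, ?_⟩
    · intro v hv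
      have h3 := h1 v hv
      rw [← hJe, Finset.sum_insertNone] at h3
      simp only [A', Option.elim_none, Option.elim_some] at h3
      exact (z2_eq_of_add _ _ h3).symm
    · intro y hy hall
      by_contra hne
      refine h2 y hy fun o ho => ?_
      cases o with
      | none => exact z2_ne _ _ hne
      | some i => exact hall i (by simpa using ho)
  · exfalso
    obtain ⟨y, hy, hall⟩ := hc
    refine h2 y hy fun o ho => ?_
    cases o with
    | none => exact absurd ho hnone
    | some i => exact hall i (hsub i ho)

end Pool.Agent.MP_9cec2c_lc.SubstRed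
end
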