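import Pool.Agent.Lib.MP_9cec2c_lc.Mg.G058
import Pool.Agent.Lib.MP_9cec2c_lc.FGDefs

section

/-!
The functions that approximate formulas, and their degrees.
-/

set_option autoImplicit false
set_option linter.unusedSectionVars false

namespace Pool.Agent.MP_9cec2c_lc.FG

open Finset Frege

variable {K V : Type} [Field K] [Fintype K]

/-- The choice `H` of an approximation of the function 'all members of the list are 0'. -/
structure Choice (k : ℕ) (H : List (Fun K V) → Fun K V) : Prop where
  hor : ∀ L : List (Fun K V), (∀ g ∈ L, Bin g) → Hor k {g | g ∈ L} (H L)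
  one : ∀ g : Fun K V, Bin g → H [g] = 1 - g

variable {k : ℕ} {H : List (Fun K V) → Fun K V}

theorem Choice.bin (hH : Choice k H) {L : List (Fun K V)} (hL : ∀ g ∈ L, Bin g) : Bin (H L) :=
  (hH.hor L hL).bin

theorem Choice.mem (hH : Choice k H) {L : List (Fun K V)} (hL : ∀ g ∈ L, Bin g) {t : ℕ}
    (ht : ∀ g ∈ L, g ∈ Pol K V t) : H L ∈ Pol K V (k * (Fintype.card K - 1) * t) := by
  rw [mul_assoc]
  exact (hH.hor L hL).mem ht

theorem Choice.apply_eq_one (hH : Choice k H) {L : List (Fun K V)} (hL : ∀ g ∈ L, Bin g)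
    {x : V → Bool} (hx : ∀ g ∈ L, g x = 0) : H L x = 1 := by
  classical
  obtain ⟨q, hq, hh⟩ := hH.hor L hL
  rw [hh, Finset.prod_apply]
  refine prod_eq_one fun j _ => ?_
  rw [cf_apply, if_pos]
  have h1 : ∀ f ∈ Submodule.span K {g | g ∈ L}, f x = 0 := by
    intro f hf
    induction hf using Submodule.span_induction with
    | mem f hf => exact hx f hf
    | zero => rfl
    | add f g _ _ h1 h2 => rw [Pi.add_apply, h1, h2, add_zero]
    | smul c f _ h1 => rw [Pi.smul_apply, h1, smul_zero]
  exact h1 _ (hq j)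

theorem Choice.nil (hH : Choice k H) : H [] = 1 := by
  funext x
  exact hH.apply_eq_one (fun g hg => absurd hg List.not_mem_nil)
    (fun g hg => absurd hg List.not_mem_nil)

/-- The value of a formula, the values of the disjuncts after all disjunctions in it have been
merged, and the same for conjunctions. -/
noncomputable def val (H : List (Fun K V) → Fun K V) :
    Form V → Fun K V × List (Fun K V) × List (Fun K V)
  | .var v => (fun x => if x v = true then 1 else 0, [fun x => if x v = true then 1 else 0],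
      [fun x => if x v = true then 1 else 0])
  | .neg φ => (1 - (val H φ).1, [1 - (val H φ).1], [1 - (val H φ).1])
  | .conj m F => (H (((List.finRange m).flatMap fun i => (val H (F i)).2.2).map (1 - ·)),
      [H (((List.finRange m).flatMap fun i => (val H (F i)).2.2).map (1 - ·))],
      (List.finRange m).flatMap fun i => (val H (F i)).2.2)
  | .disj m F => (1 - H ((List.finRange m).flatMap fun i => (val H (F i)).2.1),
      (List.finRange m).flatMap fun i => (val H (F i)).2.1,
      [1 - H ((List.finRange m).flatMap fun i => (val H (F i)).2.1)])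
  | .count r m F => (cf ((∑ i, (val H (F i)).1) - (r : Fun K V)),
      [cf ((∑ i, (val H (F i)).1) - (r : Fun K V))],
      [cf ((∑ i, (val H (F i)).1) - (r : Fun K V))])

/-- The value of a formula. -/
noncomputable def pv (H : List (Fun K V) → Fun K V) (φ : Form V) : Fun K V := (val H φ).1

/-- The values of the disjuncts. -/
noncomputable def orl (H : List (Fun K V) → Fun K V) (φ : Form V) : List (Fun K V) :=
  (val H φ).2.1

/-- The values of the conjuncts. -/
noncomputable def andl (H : List (Fun K V) → Fun K V) (φ : Form V) : List (Fun K V) :=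
  (val H φ).2.2

theorem pv_neg (φ : Form V) : pv H (.neg φ) = 1 - pv H φ := rfl

theorem pv_conj (m : ℕ) (F : Fin m → Form V) :
    pv H (.conj m F) = H ((andl H (.conj m F)).map (1 - ·)) := rfl

theorem pv_disj (m : ℕ) (F : Fin m → Form V) : pv H (.disj m F) = 1 - H (orl H (.disj m F)) := rfl

theorem pv_count (r m : ℕ) (F : Fin m → Form V) :
    pv H (.count r m F) = cf ((∑ i, pv H (F i)) - (r : Fun K V)) := rfl

theorem orl_disj (m : ℕ) (F : Fin m → Form V) :
    orl H (.disj m F) = (List.finRange m).flatMap fun i => orl H (F i) := rfl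

theorem andl_conj (m : ℕ) (F : Fin m → Form V) :
    andl H (.conj m F) = (List.finRange m).flatMap fun i => andl H (F i) := rfl

theorem orl_of_not {φ : Form V} (h : ¬ φ.IsDisj) : orl H φ = [pv H φ] := by
  cases φ with
  | disj m F => exact absurd trivial h
  | _ => rfl

theorem andl_of_not {φ : Form V} (h : ¬ φ.IsConj) : andl H φ = [pv H φ] := by
  cases φ with
  | conj m F => exact absurd trivial h
  | _ => rfl

theorem pv_of_disj {φ : Form V} (h : φ.IsDisj) : pv H φ = 1 - H (orl H φ) := by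
  cases φ with
  | disj m F => rfl
  | _ => exact absurd h id

theorem pv_of_conj {φ : Form V} (h : φ.IsConj) : pv H φ = H ((andl H φ).map (1 - ·)) := by
  cases φ with
  | conj m F => rfl
  | _ => exact absurd h id

theorem bin_all (hH : Choice k H) (φ : Form V) : Bin (pv H φ) ∧ (∀ g ∈ orl H φ, Bin g) ∧
    ∀ g ∈ andl H φ, Bin g := by
  have h1 : ∀ (L : List (Fun K V)), (∀ g ∈ L, Bin g) → ∀ g ∈ L.map (1 - ·), Bin g := by
    intro L hL g hg
    obtain ⟨g', hg', rfl⟩ := List.mem_map.1 hg
    exact bin_one_sub (hL g' hg')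
  have h2 : ∀ g g' : Fun K V, Bin g → g' ∈ [g] → Bin g' := by
    intro g g' hg hg'
    rwa [List.mem_singleton.1 hg']
  induction φ with
  | var v =>
    have h3 : Bin (fun x : V → Bool => if x v = true then (1 : K) else 0) := by
      intro x
      by_cases h : x v = true
      · exact Or.inr (if_pos h)
      · exact Or.inl (if_neg h)
    exact ⟨h3, fun g => h2 _ g h3, fun g => h2 _ g h3⟩
  | neg φ ih =>
    have h3 := bin_one_sub ih.1
    exact ⟨h3, fun g => h2 _ g h3, fun g => h2 _ g h3⟩
  | conj m F ih =>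
    have h4 : ∀ g ∈ andl H (.conj m F), Bin g := by
      intro g hg
      rw [andl_conj, List.mem_flatMap] at hg
      obtain ⟨i, -, hi⟩ := hg
      exact (ih i).2.2 g hi
    have h3 : Bin (pv H (.conj m F)) := hH.bin (h1 _ h4)
    exact ⟨h3, fun g => h2 _ g h3, h4⟩
  | disj m F ih =>
    have h4 : ∀ g ∈ orl H (.disj m F), Bin g := by
      intro g hg
      rw [orl_disj, List.mem_flatMap] at hg
      obtain ⟨i, -, hi⟩ := hg
      exact (ih i).2.1 g hi
    have h3 : Bin (pv H (.disj m F)) := bin_one_sub (hH.bin h4)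
    exact ⟨h3, h4, fun g => h2 _ g h3⟩
  | count r m F ih =>
    have h3 : Bin (pv H (.count r m F)) := bin_cf _
    exact ⟨h3, fun g => h2 _ g h3, fun g => h2 _ g h3⟩

/-- The degree of the values of formulas of depth `d`. -/
def deg (K : Type) [Fintype K] (k d : ℕ) : ℕ := (k * (Fintype.card K - 1)) ^ d

theorem deg_succ (k d : ℕ) : deg K k (d + 1) = k * (Fintype.card K - 1) * deg K k d := by
  unfold deg
  rw [pow_succ, mul_comm]

theorem deg_mono (hk : 1 ≤ k) {d d' : ℕ} (h : d ≤ d') : deg K k d ≤ deg K k d' :=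
  Nat.pow_le_pow_right (Nat.mul_pos hk (card_sub_pos (K := K))) h

theorem deg_all (hH : Choice k H) (hk : 1 ≤ k) (φ : Form V) :
    pv H φ ∈ Pol K V (deg K k φ.depth) ∧
    (∀ g ∈ orl H φ, ∃ e, g ∈ Pol K V (deg K k e) ∧ (φ.IsDisj → e + 1 ≤ φ.depth) ∧
      e ≤ φ.depth) ∧
    ∀ g ∈ andl H φ, ∃ e, g ∈ Pol K V (deg K k e) ∧ (φ.IsConj → e + 1 ≤ φ.depth) ∧
      e ≤ φ.depth := by
  classical
  have h2 : ∀ (φ : Form V) (g : Fun K V), ¬ φ.IsDisj → pv H φ ∈ Pol K V (deg K k φ.depth) →
      g ∈ orl H φ → ∃ e, g ∈ Pol K V (deg K k e) ∧ (φ.IsDisj → e + 1 ≤ φ.depth) ∧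
      e ≤ φ.depth := by
    intro φ g hφ hp hg
    rw [orl_of_not hφ] at hg
    rw [List.mem_singleton.1 hg]
    exact ⟨φ.depth, hp, fun h => absurd h hφ, le_rfl⟩
  have h3 : ∀ (φ : Form V) (g : Fun K V), ¬ φ.IsConj → pv H φ ∈ Pol K V (deg K k φ.depth) →
      g ∈ andl H φ → ∃ e, g ∈ Pol K V (deg K k e) ∧ (φ.IsConj → e + 1 ≤ φ.depth) ∧
      e ≤ φ.depth := by
    intro φ g hφ hp hg
    rw [andl_of_not hφ] at hg
    rw [List.mem_singleton.1 hg]
    exact ⟨φ.depth, hp, fun h => absurd h hφ, le_rfl⟩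
  induction φ with
  | var v =>
    have h4 : pv H (.var v) ∈ Pol K V (deg K k (Form.depth (.var v))) := by
      have h5 : pv H (.var v) = mon K {v} := by
        funext x
        unfold mon
        by_cases h : x v = true
        · rw [if_pos fun u hu => by rw [mem_singleton.1 hu]; exact h]
          exact if_pos h
        · rw [if_neg fun hu => h (hu v (mem_singleton_self v))]
          exact if_neg h
      rw [h5]
      exact mon_mem (by
        rw [card_singleton]
        exact Nat.one_le_iff_ne_zero.2 (pow_ne_zero _ (Nat.mul_pos hk card_sub_pos).ne'))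
    exact ⟨h4, fun g => h2 _ g id h4, fun g => h3 _ g id h4⟩
  | neg φ ih =>
    have h4 : pv H (.neg φ) ∈ Pol K V (deg K k (Form.depth (.neg φ))) :=
      Submodule.sub_mem _ (one_mem _) ih.1
    exact ⟨h4, fun g => h2 _ g id h4, fun g => h3 _ g id h4⟩
  | conj m F ih =>
    have h5 : ∀ i, (F i).depth + (if (F i).IsConj then 0 else 1) ≤
        (Form.conj m F).depth := fun i =>
      Finset.le_sup (f := fun i => (F i).depth + if (F i).IsConj then 0 else 1) (mem_univ i)
    have h6 : ∀ g ∈ andl H (.conj m F), ∃ e, g ∈ Pol K V (deg K k e) ∧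
        e + 1 ≤ (Form.conj m F).depth := by
      intro g hg
      rw [andl_conj, List.mem_flatMap] at hg
      obtain ⟨i, -, hi⟩ := hg
      obtain ⟨e, he1, he2, he3⟩ := (ih i).2.2 g hi
      have h7 := h5 i
      refine ⟨e, he1, ?_⟩
      by_cases hc : (F i).IsConj
      · rw [if_pos hc] at h7
        have := he2 hc
        omega
      · rw [if_neg hc] at h7
        omega
    have h4 : pv H (.conj m F) ∈ Pol K V (deg K k (Form.depth (.conj m F))) := by
      have hb : ∀ g ∈ (andl H (.conj m F)).map (1 - ·), Bin g := by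
        intro g hg
        obtain ⟨g', hg', rfl⟩ := List.mem_map.1 hg
        exact bin_one_sub ((bin_all hH _).2.2 g' hg')
      rcases Nat.eq_zero_or_pos (Form.conj m F).depth with h0 | h0
      · have h8 : andl H (.conj m F) = [] := by
          rw [List.eq_nil_iff_forall_not_mem]
          intro g hg
          obtain ⟨e, -, he⟩ := h6 g hg
          omega
        rw [pv_conj, h8, List.map_nil, hH.nil]
        exact one_mem _
      · obtain ⟨e, he⟩ : ∃ e, (Form.conj m F).depth = e + 1 := ⟨_, (Nat.succ_pred_eq_of_pos h0).symm⟩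
        rw [he, deg_succ, pv_conj]
        refine hH.mem hb fun g hg => ?_
        obtain ⟨g', hg', rfl⟩ := List.mem_map.1 hg
        obtain ⟨e', he1, he2⟩ := h6 g' hg'
        exact Submodule.sub_mem _ (one_mem _) (Pol_mono (deg_mono hk (by omega)) he1)
    refine ⟨h4, fun g => h2 _ g id h4, fun g hg => ?_⟩
    obtain ⟨e, he1, he2⟩ := h6 g hg
    exact ⟨e, he1, fun _ => he2, by omega⟩
  | disj m F ih =>
    have h5 : ∀ i, (F i).depth + (if (F i).IsDisj then 0 else 1) ≤
        (Form.disj m F).depth := fun i =>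
      Finset.le_sup (f := fun i => (F i).depth + if (F i).IsDisj then 0 else 1) (mem_univ i)
    have h6 : ∀ g ∈ orl H (.disj m F), ∃ e, g ∈ Pol K V (deg K k e) ∧
        e + 1 ≤ (Form.disj m F).depth := by
      intro g hg
      rw [orl_disj, List.mem_flatMap] at hg
      obtain ⟨i, -, hi⟩ := hg
      obtain ⟨e, he1, he2, he3⟩ := (ih i).2.1 g hi
      have h7 := h5 i
      refine ⟨e, he1, ?_⟩
      by_cases hc : (F i).IsDisj
      · rw [if_pos hc] at h7
        have := he2 hc
        omega
      · rw [if_neg hc] at h7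
        omega
    have h4 : pv H (.disj m F) ∈ Pol K V (deg K k (Form.depth (.disj m F))) := by
      rw [pv_disj]
      refine Submodule.sub_mem _ (one_mem _) ?_
      rcases Nat.eq_zero_or_pos (Form.disj m F).depth with h0 | h0
      · have h8 : orl H (.disj m F) = [] := by
          rw [List.eq_nil_iff_forall_not_mem]
          intro g hg
          obtain ⟨e, -, he⟩ := h6 g hg
          omega
        rw [h8, hH.nil]
        exact one_mem _
      · obtain ⟨e, he⟩ : ∃ e, (Form.disj m F).depth = e + 1 := ⟨_, (Nat.succ_pred_eq_of_pos h0).symm⟩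
        rw [he, deg_succ]
        refine hH.mem (bin_all hH _).2.1 fun g hg => ?_
        obtain ⟨e', he1, he2⟩ := h6 g hg
        exact Pol_mono (deg_mono hk (by omega)) he1
    refine ⟨h4, fun g hg => ?_, fun g => h3 _ g id h4⟩
    obtain ⟨e, he1, he2⟩ := h6 g hg
    exact ⟨e, he1, fun _ => he2, by omega⟩
  | count r m F ih =>
    have h5 : ∀ i, (F i).depth + 1 ≤ (Form.count r m F).depth := fun i =>
      Finset.le_sup (f := fun i => (F i).depth + 1) (mem_univ i)
    have h4 : pv H (.count r m F) ∈ Pol K V (deg K k (Form.depth (.count r m F))) := by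
      rw [pv_count]
      rcases Nat.eq_zero_or_pos (Form.count r m F).depth with h0 | h0
      · have h8 : ∀ i : Fin m, False := fun i => by
          have := h5 i
          omega
        have h9 : (∑ i, pv H (F i)) = (0 : Fun K V) := by
          refine sum_eq_zero fun i _ => (h8 i).elim
        rw [h9, zero_sub]
        refine Submodule.sub_mem _ (one_mem _) ?_
        have h10 : (-(r : Fun K V)) ^ (Fintype.card K - 1) =
            ((-(r : K)) ^ (Fintype.card K - 1)) • (1 : Fun K V) := by
          funext x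
          simp
        rw [h10]
        exact Submodule.smul_mem _ _ (one_mem _)
      · obtain ⟨e, he⟩ : ∃ e, (Form.count r m F).depth = e + 1 :=
          ⟨_, (Nat.succ_pred_eq_of_pos h0).symm⟩
        rw [he, deg_succ]
        have h9 : (∑ i, pv H (F i)) - (r : Fun K V) ∈ Pol K V (deg K k e) := by
          refine Submodule.sub_mem _ (Submodule.sum_mem _ fun i _ => ?_) ?_
          · exact Pol_mono (deg_mono hk (by have := h5 i; omega)) (ih i).1
          · have h10 : (r : Fun K V) = (r : K) • (1 : Fun K V) := by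
              funext x
              simp
            rw [h10]
            exact Submodule.smul_mem _ _ (one_mem _)
        refine Pol_mono ?_ (cf_mem h9)
        calc (Fintype.card K - 1) * deg K k e = 1 * (Fintype.card K - 1) * deg K k e := by
              rw [one_mul]
          _ ≤ k * (Fintype.card K - 1) * deg K k e :=
              Nat.mul_le_mul_right _ (Nat.mul_le_mul_right _ hk)
    exact ⟨h4, fun g => h2 _ g id h4, fun g => h3 _ g id h4⟩

end Pool.Agent.MP_9cec2c_lc.FG
end

section

/-!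
Functions that act as zero, and the relations between the values of formulas.
-/

set_option autoImplicit false
set_option linter.unusedSectionVars false

namespace Pool.Agent.MP_9cec2c_lc.FG

open Finset Frege

variable {K V : Type} [Field K] [Fintype K] {A : ℕ} {Z : Submodule K (Fun K V)}

/-- The space `Z` is closed under multiplication by functions of small degree. -/
structure Kill (A : ℕ) (Z : Submodule K (Fun K V)) : Prop where
  mul : ∀ (e e' : ℕ) (P Q : Fun K V), P ∈ Pol K V e → Q ∈ Pol K V e' → Q ∈ Z → e + e' ≤ A →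
    P * Q ∈ Z
  one : (1 : Fun K V) ∉ Z

/-- A product that vanishes on `L` is unchanged by the horizon factors. -/
theorem Kill.hor (hZ : Kill A Z) {k t u : ℕ} {G : Set (Fun K V)} {h U : Fun K V}
    (hh : Hor k G h) (hG : ∀ g ∈ G, g ∈ Pol K V t) (hU : U ∈ Pol K V u)
    (hA : k * (Fintype.card K - 1) * t + u ≤ A) (h0 : ∀ g ∈ G, g * U ∈ Z) : U - h * U ∈ Z := by
  classical
  obtain ⟨q, hq, rfl⟩ := hh
  have hspan : Submodule.span K G ≤ Pol K V t := Submodule.span_le.2 hG
  have hqt : ∀ j, q j ∈ Pol K V t := fun j => hspan (hq j)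
  have hq0 : ∀ j, q j * U ∈ Z := by
    intro j
    have h1 : ∀ f ∈ Submodule.span K G, f * U ∈ Z := by
      intro f hf
      induction hf using Submodule.span_induction with
      | mem f hf => exact h0 f hf
      | zero => rw [zero_mul]; exact Z.zero_mem
      | add f g _ _ h1 h2 => rw [add_mul]; exact Z.add_mem h1 h2
      | smul c f _ h1 => rw [smul_mul_assoc]; exact Z.smul_mem c h1
    exact h1 _ (hq j)
  have hK := card_sub_pos (K := K)
  have key : ∀ s : Finset (Fin k), U - (∏ j ∈ s, cf (q j)) * U ∈ Z := by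
    intro s
    induction s using Finset.induction_on with
    | empty =>
      rw [prod_empty, one_mul, sub_self]
      exact Z.zero_mem
    | insert j s hj ih =>
      have hc : s.card + 1 ≤ k := by
        have h1 := card_le_univ (insert j s)
        rwa [card_insert_of_notMem hj, Fintype.card_fin] at h1
      have hsd : (∏ j ∈ s, cf (q j)) ∈ Pol K V (s.card * ((Fintype.card K - 1) * t)) :=
        Frege.prod_mem s fun i _ => cf_mem (hqt i)
      have e1 : (Fintype.card K - 1) * t + s.card * ((Fintype.card K - 1) * t) ≤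
          k * (Fintype.card K - 1) * t := by
        calc (Fintype.card K - 1) * t + s.card * ((Fintype.card K - 1) * t) =
              (s.card + 1) * ((Fintype.card K - 1) * t) := by ring
          _ ≤ k * ((Fintype.card K - 1) * t) := Nat.mul_le_mul_right _ hc
          _ = k * (Fintype.card K - 1) * t := (mul_assoc _ _ _).symm
      have h1 : U - (∏ i ∈ insert j s, cf (q i)) * U =
          q j ^ (Fintype.card K - 1 - 1) * (q j * U) +
            cf (q j) * (U - (∏ i ∈ s, cf (q i)) * U) := by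
        rw [prod_insert hj]
        have h2 : q j ^ (Fintype.card K - 1 - 1) * (q j * U) = q j ^ (Fintype.card K - 1) * U := by
          rw [← mul_assoc, ← pow_succ, Nat.sub_add_cancel hK]
        rw [h2]
        unfold cf
        ring
      rw [h1]
      have e2 : (Fintype.card K - 1 - 1) * t + (t + u) = (Fintype.card K - 1) * t + u := by
        have h3 : Fintype.card K - 1 = (Fintype.card K - 1 - 1) + 1 := by omega
        conv_rhs => rw [h3, add_mul, one_mul]
        ring
      refine Z.add_mem ?_ ?_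
      · exact hZ.mul _ _ _ _ (Frege.pow_mem (hqt j) _) (Frege.mul_mem (hqt j) hU) (hq0 j) (by omega)
      · refine hZ.mul _ _ _ _ (cf_mem (hqt j)) (Submodule.sub_mem _
          (Pol_mono (Nat.le_add_left u _) hU) (Frege.mul_mem hsd hU)) ih (by omega)
  exact key univ

/-- The error of the choice `H L` acts as zero. -/
def Clean (Z : Submodule K (Fun K V)) (H : List (Fun K V) → Fun K V) (L : List (Fun K V)) :
    Prop := ∀ g ∈ L, g * H L ∈ Z

variable {k : ℕ} {H : List (Fun K V) → Fun K V}

/-- If `U` kills all members of `L`, then it is unchanged by `H L`. -/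
theorem Kill.list (hZ : Kill A Z) (hH : Choice k H) {t u : ℕ}
    {L : List (Fun K V)} (hb : ∀ g ∈ L, Bin g) (hL : ∀ g ∈ L, g ∈ Pol K V t) {U : Fun K V}
    (hU : U ∈ Pol K V u) (hA : k * (Fintype.card K - 1) * t + u ≤ A) (h0 : ∀ g ∈ L, g * U ∈ Z) :
    U - H L * U ∈ Z :=
  hZ.hor (hH.hor L hb) hL hU hA h0

/-- The lists of the formula `φ` are clean. -/
def CleanForm (Z : Submodule K (Fun K V)) (H : List (Fun K V) → Fun K V) (φ : Form V) : Prop :=
  (φ.IsDisj → Clean Z H (orl H φ)) ∧ (φ.IsConj → Clean Z H ((andl H φ).map (1 - ·)))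

theorem orl_mem (hH : Choice k H) (hk : 1 ≤ k) {φ : Form V} {d : ℕ} (hd : φ.depth ≤ d) :
    ∀ g ∈ orl H φ, g ∈ Pol K V (deg K k d) := by
  intro g hg
  obtain ⟨e, h1, -, h2⟩ := (deg_all hH hk φ).2.1 g hg
  exact Pol_mono (deg_mono hk (h2.trans hd)) h1

theorem andl_mem (hH : Choice k H) (hk : 1 ≤ k) {φ : Form V} {d : ℕ} (hd : φ.depth ≤ d) :
    ∀ g ∈ (andl H φ).map (1 - ·), g ∈ Pol K V (deg K k d) := by
  intro g hg
  obtain ⟨g', hg', rfl⟩ := List.mem_map.1 hg
  obtain ⟨e, h1, -, h2⟩ := (deg_all hH hk φ).2.2 g' hg'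
  exact Submodule.sub_mem _ (Frege.one_mem _) (Pol_mono (deg_mono hk (h2.trans hd)) h1)

theorem pv_mem (hH : Choice k H) (hk : 1 ≤ k) {φ : Form V} {d : ℕ} (hd : φ.depth ≤ d) :
    pv H φ ∈ Pol K V (deg K k d) :=
  Pol_mono (deg_mono hk hd) (deg_all hH hk φ).1

theorem orl_bin (hH : Choice k H) (φ : Form V) : ∀ g ∈ orl H φ, Bin g := (bin_all hH φ).2.1

theorem andl_bin (hH : Choice k H) (φ : Form V) : ∀ g ∈ (andl H φ).map (1 - ·), Bin g := by
  intro g hg
  obtain ⟨g', hg', rfl⟩ := List.mem_map.1 hg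
  exact bin_one_sub ((bin_all hH φ).2.2 g' hg')

/-- If `U` kills the disjuncts of a formula, then it kills the formula. -/
theorem Kill.pv_of_orl (hZ : Kill A Z) (hH : Choice k H) (hk : 1 ≤ k) {φ : Form V} {d u : ℕ}
    (hd : φ.depth ≤ d) {U : Fun K V} (hU : U ∈ Pol K V u) (hA : deg K k (d + 1) + u ≤ A)
    (h0 : ∀ g ∈ orl H φ, g * U ∈ Z) : pv H φ * U ∈ Z := by
  by_cases hφ : φ.IsDisj
  · rw [pv_of_disj hφ]
    have h1 := hZ.list hH (orl_bin hH φ) (orl_mem hH hk hd) hU (by rwa [← deg_succ]) h0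
    have h2 : (1 - H (orl H φ)) * U = U - H (orl H φ) * U := by ring
    rwa [h2]
  · exact h0 _ (by rw [orl_of_not hφ]; exact List.mem_singleton.2 rfl)

/-- If `U` kills a formula, then it kills its disjuncts. -/
theorem Kill.orl_of_pv (hZ : Kill A Z) (hH : Choice k H) (hk : 1 ≤ k) {φ : Form V} {d u : ℕ}
    (hd : φ.depth ≤ d) (hc : CleanForm Z H φ) {U : Fun K V} (hU : U ∈ Pol K V u)
    (hA : deg K k (d + 1) + deg K k d + u ≤ A) (h0 : pv H φ * U ∈ Z) :
    ∀ g ∈ orl H φ, g * U ∈ Z := by
  intro g hg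
  by_cases hφ : φ.IsDisj
  · have hgm := orl_mem hH hk hd g hg
    have hHm : H (orl H φ) ∈ Pol K V (deg K k (d + 1)) := by
      rw [deg_succ]
      exact hH.mem (orl_bin hH φ) (orl_mem hH hk hd)
    have h1 : g * U = U * (g * H (orl H φ)) + g * (pv H φ * U) := by
      rw [pv_of_disj hφ]
      ring
    rw [h1]
    refine Z.add_mem ?_ ?_
    · exact hZ.mul _ _ _ _ hU (Frege.mul_mem hgm hHm) (hc.1 hφ g hg) (by omega)
    · exact hZ.mul _ _ _ _ hgm (Frege.mul_mem (Pol_mono (deg_mono hk (Nat.le_add_right d 1))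
        (pv_mem hH hk hd)) hU) h0 (by omega)
  · rw [orl_of_not hφ] at hg
    rwa [List.mem_singleton.1 hg]

/-- If `U` kills the negations of the conjuncts of a formula, then it kills the negation of the
formula. -/
theorem Kill.pv_of_andl (hZ : Kill A Z) (hH : Choice k H) (hk : 1 ≤ k) {φ : Form V} {d u : ℕ}
    (hd : φ.depth ≤ d) {U : Fun K V} (hU : U ∈ Pol K V u) (hA : deg K k (d + 1) + u ≤ A)
    (h0 : ∀ g ∈ (andl H φ).map (1 - ·), g * U ∈ Z) : (1 - pv H φ) * U ∈ Z := by
  by_cases hφ : φ.IsConj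
  · rw [pv_of_conj hφ]
    have h1 := hZ.list hH (andl_bin hH φ) (andl_mem hH hk hd) hU (by rwa [← deg_succ]) h0
    have h2 : (1 - H ((andl H φ).map (1 - ·))) * U = U - H ((andl H φ).map (1 - ·)) * U := by ring
    rwa [h2]
  · exact h0 _ (by rw [andl_of_not hφ]; exact List.mem_singleton.2 rfl)

/-- If `U` kills the negation of a formula, then it kills the negations of its conjuncts. -/
theorem Kill.andl_of_pv (hZ : Kill A Z) (hH : Choice k H) (hk : 1 ≤ k) {φ : Form V} {d u : ℕ}
    (hd : φ.depth ≤ d) (hc : CleanForm Z H φ) {U : Fun K V} (hU : U ∈ Pol K V u)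
    (hA : deg K k (d + 1) + deg K k d + u ≤ A) (h0 : (1 - pv H φ) * U ∈ Z) :
    ∀ g ∈ (andl H φ).map (1 - ·), g * U ∈ Z := by
  intro g hg
  by_cases hφ : φ.IsConj
  · have hgm := andl_mem hH hk hd g hg
    have hHm : H ((andl H φ).map (1 - ·)) ∈ Pol K V (deg K k (d + 1)) := by
      rw [deg_succ]
      exact hH.mem (andl_bin hH φ) (andl_mem hH hk hd)
    have h1 : g * U = U * (g * H ((andl H φ).map (1 - ·))) + g * ((1 - pv H φ) * U) := by
      rw [pv_of_conj hφ]
      ring
    rw [h1]
    refine Z.add_mem ?_ ?_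
    · exact hZ.mul _ _ _ _ hU (Frege.mul_mem hgm hHm) (hc.2 hφ g hg) (by omega)
    · exact hZ.mul _ _ _ _ hgm (Frege.mul_mem (Submodule.sub_mem _ (Frege.one_mem _)
        (Pol_mono (deg_mono hk (Nat.le_add_right d 1)) (pv_mem hH hk hd))) hU) h0 (by omega)
  · rw [andl_of_not hφ] at hg
    rwa [List.mem_singleton.1 hg]

/-! ### Sets of points that are covered by a function that acts as zero -/

/-- The set `B` of points of the cube is covered by a function of degree `n` in `Z`. -/
def Cov (Z : Submodule K (Fun K V)) (n : ℕ) (B : Set (V → Bool)) : Prop :=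
  ∃ v : Fun K V, Bin v ∧ v ∈ Pol K V n ∧ v ∈ Z ∧ ∀ x ∈ B, v x = 1

theorem Cov.mono {n m : ℕ} {B C : Set (V → Bool)} (h : Cov Z n B) (hnm : n ≤ m) (hCB : C ⊆ B) :
    Cov Z m C := by
  obtain ⟨v, h1, h2, h3, h4⟩ := h
  exact ⟨v, h1, Pol_mono hnm h2, h3, fun x hx => h4 x (hCB hx)⟩

theorem cov_empty : Cov Z 0 (∅ : Set (V → Bool)) :=
  ⟨0, fun _ => Or.inl rfl, Submodule.zero_mem _, Z.zero_mem, fun _ hx => absurd hx (by simp)⟩

theorem cov_of {n : ℕ} {u : Fun K V} (hb : Bin u) (hu : u ∈ Pol K V n) (hz : u ∈ Z) :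
    Cov Z n {x | u x ≠ 0} :=
  ⟨u, hb, hu, hz, fun x hx => (hb x).resolve_left hx⟩

theorem Kill.union (hZ : Kill A Z) {n m : ℕ} {B C : Set (V → Bool)} (h : Cov Z n B)
    (h' : Cov Z m C) (hA : n + m ≤ A) : Cov Z (n + m) (B ∪ C) := by
  obtain ⟨v, h1, h2, h3, h4⟩ := h
  obtain ⟨w, g1, g2, g3, g4⟩ := h'
  refine ⟨v + w - v * w, fun x => ?_, ?_, ?_, fun x hx => ?_⟩
  · rw [Pi.sub_apply, Pi.add_apply, Pi.mul_apply]
    rcases h1 x with h | h <;> rcases g1 x with g | g <;> rw [h, g] <;> simp
  · exact Submodule.sub_mem _ (Submodule.add_mem _ (Pol_mono (Nat.le_add_right _ _) h2)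
      (Pol_mono (Nat.le_add_left _ _) g2)) (Frege.mul_mem h2 g2)
  · exact Z.sub_mem (Z.add_mem h3 g3) (hZ.mul _ _ _ _ h2 g2 g3 hA)
  · rw [Pi.sub_apply, Pi.add_apply, Pi.mul_apply]
    rcases hx with hx | hx
    · rw [h4 x hx]
      ring
    · rw [g4 x hx]
      ring

theorem Kill.iUnion (hZ : Kill A Z) {m : ℕ} {n : Fin m → ℕ} {B : Fin m → Set (V → Bool)}
    (h : ∀ i, Cov Z (n i) (B i)) (hA : ∑ i, n i ≤ A) : Cov Z (∑ i, n i) (⋃ i, B i) := by
  induction m with
  | zero =>
    rw [Fin.sum_univ_zero]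
    exact cov_empty.mono le_rfl (by simp)
  | succ m ih =>
    rw [Fin.sum_univ_succ] at hA ⊢
    refine (hZ.union (h 0) (ih (fun i => h i.succ) (by omega)) hA).mono le_rfl ?_
    intro x hx
    obtain ⟨i, hi⟩ := Set.mem_iUnion.1 hx
    rcases Fin.eq_zero_or_eq_succ i with h0 | ⟨j, hj⟩
    · rw [h0] at hi
      exact Or.inl hi
    · rw [hj] at hi
      exact Or.inr (Set.mem_iUnion.2 ⟨j, hi⟩)

/-- A function of small degree that vanishes outside a covered set acts as zero. -/
theorem Kill.mem_of_cov (hZ : Kill A Z) {n e : ℕ} {B : Set (V → Bool)} (h : Cov Z n B)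
    {g : Fun K V} (hg : g ∈ Pol K V e) (h0 : ∀ x, x ∉ B → g x = 0) (hA : e + n ≤ A) : g ∈ Z := by
  obtain ⟨v, h1, h2, h3, h4⟩ := h
  have h5 : g = g * v := by
    funext x
    rw [Pi.mul_apply]
    by_cases hx : x ∈ B
    · rw [h4 x hx, mul_one]
    · rw [h0 x hx, zero_mul]
  rw [h5]
  exact hZ.mul _ _ _ _ hg h2 h3 hA

end Pool.Agent.MP_9cec2c_lc.FG
end

section

/-!
Instances of schemes by constants: outside a small set of points of the cube, the values of the
formulas in an instance of a scheme are those of an instance by constants.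
-/

set_option autoImplicit false
set_option linter.unusedSectionVars false

namespace Pool.Agent.MP_9cec2c_lc.FG

open Finset Frege

variable {K V : Type} [Field K] [Fintype K] {A k d : ℕ} {Z : Submodule K (Fun K V)}
  {H : List (Fun K V) → Fun K V}

theorem Choice.mem_deg (hH : Choice k H) {L : List (Fun K V)} (hL : ∀ g ∈ L, Bin g)
    (ht : ∀ g ∈ L, g ∈ Pol K V (deg K k d)) : H L ∈ Pol K V (deg K k (d + 1)) := by
  rw [deg_succ]
  exact hH.mem hL ht

/-- The bad points for the comparison of two clean lists. -/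
theorem Kill.cov_ne (hZ : Kill A Z) (hH : Choice k H) {L M : List (Fun K V)}
    (hL : ∀ g ∈ L, Bin g) (hLd : ∀ g ∈ L, g ∈ Pol K V (deg K k d))
    (hM : ∀ g ∈ M, Bin g) (hMd : ∀ g ∈ M, g ∈ Pol K V (deg K k d))
    (h1 : ∀ g ∈ M, g * H L ∈ Z) (h2 : ∀ g ∈ L, g * H M ∈ Z)
    (hA : 4 * deg K k (d + 1) ≤ A) :
    Cov Z (4 * deg K k (d + 1)) {x | H L x ≠ H M x} := by
  have hLm := hH.mem_deg hL hLd
  have hMm := hH.mem_deg hM hMd
  have g1 : H L - H M * H L ∈ Z :=
    hZ.list hH hM hMd hLm (by rw [← deg_succ]; omega) h1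
  have g2 : H M - H L * H M ∈ Z :=
    hZ.list hH hL hLd hMm (by rw [← deg_succ]; omega) h2
  have e1 : H L - H M * H L = H L * (1 - H M) := by ring
  have e2 : H M - H L * H M = H M * (1 - H L) := by ring
  rw [e1] at g1
  rw [e2] at g2
  have bL := hH.bin hL
  have bM := hH.bin hM
  have b1 : Bin (H L * (1 - H M)) := by
    intro x
    rw [Pi.mul_apply, Pi.sub_apply, Pi.one_apply]
    rcases bL x with h | h <;> rcases bM x with h' | h' <;> rw [h, h'] <;> simp
  have b2 : Bin (H M * (1 - H L)) := by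
    intro x
    rw [Pi.mul_apply, Pi.sub_apply, Pi.one_apply]
    rcases bL x with h | h <;> rcases bM x with h' | h' <;> rw [h, h'] <;> simp
  have c1 := cov_of (Z := Z) b1 (Frege.mul_mem hLm (Submodule.sub_mem _ (Frege.one_mem _) hMm)) g1
  have c2 := cov_of (Z := Z) b2 (Frege.mul_mem hMm (Submodule.sub_mem _ (Frege.one_mem _) hLm)) g2
  refine (hZ.union c1 c2 (by omega)).mono (by omega) ?_
  intro x hx
  have hx' : H L x ≠ H M x := hx
  by_contra hcon
  rw [Set.mem_union, not_or] at hcon
  have f1 : (H L * (1 - H M)) x = 0 := by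
    by_contra hne
    exact hcon.1 hne
  have f2 : (H M * (1 - H L)) x = 0 := by
    by_contra hne
    exact hcon.2 hne
  rw [Pi.mul_apply, Pi.sub_apply, Pi.one_apply] at f1 f2
  rcases bL x with h | h <;> rcases bM x with h' | h' <;> rw [h, h'] at f1 f2 hx' <;> simp_all

/-- The bad points for a list that is strung together from `m` lists. -/
theorem Kill.cov_concat (hZ : Kill A Z) (hH : Choice k H) (hk : 1 ≤ k) {m : ℕ} {L : Fin m → List (Fun K V)}
    (hL : ∀ i, ∀ g ∈ L i, Bin g) (hLd : ∀ i, ∀ g ∈ L i, g ∈ Pol K V (deg K k d))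
    (hc : ∀ i, Clean Z H (L i)) (hC : Clean Z H ((List.finRange m).flatMap L))
    (hA : (3 * m + 1) * deg K k (d + 1) ≤ A) (hA2 : 2 * deg K k (d + 1) ≤ A) :
    Cov Z ((3 * m + 1) * deg K k (d + 1))
      {x | ¬ (H ((List.finRange m).flatMap L) x = 1 ↔ ∀ i, H (L i) x = 1)} := by
  classical
  obtain ⟨T, hT⟩ : ∃ T, T = deg K k (d + 1) := ⟨_, rfl⟩
  have hLM : ∀ g ∈ (List.finRange m).flatMap L, Bin g := by
    intro g hg
    obtain ⟨i, -, hi⟩ := List.mem_flatMap.1 hg
    exact hL i g hi
  have hLMd : ∀ g ∈ (List.finRange m).flatMap L, g ∈ Pol K V (deg K k d) := by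
    intro g hg
    obtain ⟨i, -, hi⟩ := List.mem_flatMap.1 hg
    exact hLd i g hi
  have hm := hH.mem_deg hLM hLMd
  have hmi : ∀ i, H (L i) ∈ Pol K V (deg K k (d + 1)) := fun i => hH.mem_deg (hL i) (hLd i)
  have bM := hH.bin hLM
  have bL : ∀ i, Bin (H (L i)) := fun i => hH.bin (hL i)
  rw [← hT] at hm hmi hA hA2 ⊢
  -- if the whole list is 0 then all parts are 0
  have c1 : ∀ i, Cov Z (2 * T) {x | (H ((List.finRange m).flatMap L) * (1 - H (L i))) x ≠ 0} := by
    intro i
    have g1 : H ((List.finRange m).flatMap L) - H (L i) * H ((List.finRange m).flatMap L) ∈ Z := by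
      refine hZ.list hH (hL i) (hLd i) hm (by rw [← deg_succ, ← hT]; omega) fun g hg => ?_
      exact hC g (List.mem_flatMap.2 ⟨i, List.mem_finRange i, hg⟩)
    have e1 : H ((List.finRange m).flatMap L) - H (L i) * H ((List.finRange m).flatMap L) =
        H ((List.finRange m).flatMap L) * (1 - H (L i)) := by ring
    rw [e1] at g1
    refine (cov_of ?_ (Frege.mul_mem hm (Submodule.sub_mem _ (Frege.one_mem _) (hmi i))) g1).mono
      (by omega) subset_rfl
    intro x
    rw [Pi.mul_apply, Pi.sub_apply, Pi.one_apply]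
    rcases bM x with h | h <;> rcases bL i x with h' | h' <;> rw [h, h'] <;> simp
  have hsum : ∑ _i : Fin m, 2 * T = m * (2 * T) := by
    rw [sum_const, card_univ, Fintype.card_fin, smul_eq_mul]
  have hAm : (3 * m + 1) * T = m * (2 * T) + (m * T + T) := by ring
  have c1' := hZ.iUnion c1 (by rw [hsum]; omega)
  -- if all parts are 0 then the whole list is 0
  have hprod : (∏ i, H (L i)) ∈ Pol K V (m * T) := by
    have h1 := Frege.prod_mem (univ : Finset (Fin m)) fun i _ => hmi i
    rwa [card_univ, Fintype.card_fin] at h1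
  have bP : Bin (∏ i, H (L i)) := bin_prod _ fun i _ => bL i
  have g2 : (∏ i, H (L i)) * (1 - H ((List.finRange m).flatMap L)) ∈ Z := by
    rcases Nat.eq_zero_or_pos m with h0 | h0
    · subst h0
      have h1 : (List.finRange 0).flatMap L = [] := rfl
      rw [h1, hH.nil, sub_self, mul_zero]
      exact Z.zero_mem
    · have h1 : (∏ i, H (L i)) - H ((List.finRange m).flatMap L) * ∏ i, H (L i) ∈ Z := by
        refine hZ.list hH hLM hLMd hprod (by rw [← deg_succ, ← hT]; omega) fun g hg => ?_
        obtain ⟨i, -, hi⟩ := List.mem_flatMap.1 hg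
        have h2 : g * ∏ i, H (L i) = (∏ j ∈ univ.erase i, H (L j)) * (g * H (L i)) := by
          rw [← mul_prod_erase univ (fun j => H (L j)) (mem_univ i)]
          ring
        rw [h2]
        have h3 := Frege.prod_mem (univ.erase i) fun j _ => hmi j
        rw [card_erase_of_mem (mem_univ i), card_univ, Fintype.card_fin] at h3
        have hgd := hLd i g hi
        refine hZ.mul _ _ _ _ h3 (Frege.mul_mem hgd (hmi i)) (hc i g hi) ?_
        have h4 : deg K k d ≤ T := hT ▸ deg_mono hk (Nat.le_add_right d 1)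
        have h5 : (m - 1) * T + T = m * T := by
          rw [← Nat.succ_mul, Nat.succ_eq_add_one, Nat.sub_add_cancel h0]
        omega
      have e1 : (∏ i, H (L i)) - H ((List.finRange m).flatMap L) * ∏ i, H (L i) =
          (∏ i, H (L i)) * (1 - H ((List.finRange m).flatMap L)) := by ring
      rwa [e1] at h1
  have c2 := cov_of ?_ (Frege.mul_mem hprod (Submodule.sub_mem _ (Frege.one_mem _) hm)) g2
  swap
  · intro x
    rw [Pi.mul_apply, Pi.sub_apply, Pi.one_apply]
    rcases bM x with h | h <;> rcases bP x with h' | h' <;> rw [h, h'] <;> simp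
  refine (hZ.union c1' c2 (by rw [hsum]; omega)).mono (by rw [hsum]; omega) ?_
  intro x hx
  by_contra hcon
  rw [Set.mem_union, not_or] at hcon
  obtain ⟨hcon1, hcon2⟩ := hcon
  refine hx ⟨fun h1 i => ?_, fun h1 => ?_⟩
  · by_contra hne
    refine hcon1 (Set.mem_iUnion.2 ⟨i, ?_⟩)
    show (H ((List.finRange m).flatMap L) * (1 - H (L i))) x ≠ 0
    rw [Pi.mul_apply, Pi.sub_apply, Pi.one_apply, h1, (bL i x).resolve_right hne]
    simp
  · by_contra hne
    refine hcon2 ?_
    show ((∏ i, H (L i)) * (1 - H ((List.finRange m).flatMap L))) x ≠ 0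
    rw [Pi.mul_apply, Pi.sub_apply, Pi.one_apply, (bM x).resolve_right hne, Finset.prod_apply,
      prod_eq_one fun i _ => h1 i]
    simp

/-- The bad points for a list: all members are 0 but the sum is not. -/
theorem Kill.cov_sum (hZ : Kill A Z) (hH : Choice k H) (hk : 1 ≤ k) {L : List (Fun K V)}
    (hL : ∀ g ∈ L, Bin g) (hLd : ∀ g ∈ L, g ∈ Pol K V (deg K k d)) (hc : Clean Z H L)
    (hA : 3 * deg K k (d + 1) ≤ A) :
    Cov Z (2 * deg K k (d + 1)) {x | ¬ (H L x = 1 → (L.map fun g => g x).sum = 0)} := by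
  classical
  obtain ⟨T, hT⟩ : ∃ T, T = deg K k (d + 1) := ⟨_, rfl⟩
  have hm := hH.mem_deg hL hLd
  have bL := hH.bin hL
  have hs : L.sum ∈ Pol K V (deg K k d) := list_sum_mem hLd
  have hTT : (Fintype.card K - 1) * deg K k d ≤ T := by
    rw [hT, deg_succ]
    calc (Fintype.card K - 1) * deg K k d = 1 * (Fintype.card K - 1) * deg K k d := by
          rw [one_mul]
      _ ≤ k * (Fintype.card K - 1) * deg K k d :=
          Nat.mul_le_mul_right _ (Nat.mul_le_mul_right _ hk)
  have hT1 : deg K k d ≤ T := hT ▸ deg_mono hk (Nat.le_add_right d 1)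
  rw [← hT] at hm hA ⊢
  have hK := card_sub_pos (K := K)
  have h0 : L.sum * H L ∈ Z := by
    have h1 : ∀ M : List (Fun K V), (∀ g ∈ M, g * H L ∈ Z) → M.sum * H L ∈ Z := by
      intro M
      induction M with
      | nil =>
        intro _
        rw [List.sum_nil, zero_mul]
        exact Z.zero_mem
      | cons g M ih =>
        intro hM
        rw [List.sum_cons, add_mul]
        exact Z.add_mem (hM g List.mem_cons_self) (ih fun g' hg' => hM g' (List.mem_cons_of_mem _ hg'))
    exact h1 L hc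
  have h1 : H L * (1 - cf L.sum) ∈ Z := by
    have h2 : H L * (1 - cf L.sum) = L.sum ^ (Fintype.card K - 1 - 1) * (L.sum * H L) := by
      have h3 : L.sum ^ (Fintype.card K - 1 - 1) * (L.sum * H L) =
          L.sum ^ (Fintype.card K - 1) * H L := by
        rw [← mul_assoc, ← pow_succ, Nat.sub_add_cancel hK]
      rw [h3]
      unfold cf
      ring
    rw [h2]
    refine hZ.mul _ _ _ _ (Frege.pow_mem hs _) (Frege.mul_mem hs hm) h0 ?_
    have h4 : (Fintype.card K - 1 - 1) * deg K k d ≤ (Fintype.card K - 1) * deg K k d :=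
      Nat.mul_le_mul_right _ (Nat.sub_le _ _)
    omega
  have hb : Bin (H L * (1 - cf L.sum)) := by
    intro x
    rw [Pi.mul_apply, Pi.sub_apply, Pi.one_apply]
    rcases bL x with h | h <;> rcases bin_cf L.sum x with h' | h' <;> rw [h, h'] <;> simp
  refine (cov_of hb (Frege.mul_mem hm (Submodule.sub_mem _ (Frege.one_mem _) (cf_mem hs)))
    h1).mono (by omega) ?_
  intro x hx
  show (H L * (1 - cf L.sum)) x ≠ 0
  have hx1 : H L x = 1 := by
    by_contra hne
    exact hx fun h => absurd h hne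
  have hx2 : (L.map fun g => g x).sum ≠ 0 := by
    intro h
    exact hx fun _ => h
  have hx3 : L.sum x = (L.map fun g => g x).sum := by
    clear hx2 hx1 hx hb h1 h0 hs hm bL hc hLd hL
    induction L with
    | nil => rfl
    | cons g L ih => rw [List.sum_cons, Pi.add_apply, List.map_cons, List.sum_cons, ih]
  rw [Pi.mul_apply, Pi.sub_apply, Pi.one_apply, hx1, cf_apply, hx3, if_neg hx2]
  simp

/-- The bad points for a nonempty list: all members are 0 and all members are 1. -/
theorem Kill.cov_both (hZ : Kill A Z) (hH : Choice k H) {L : List (Fun K V)}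
    (hL : ∀ g ∈ L, Bin g) (hLd : ∀ g ∈ L, g ∈ Pol K V (deg K k d)) (hc : Clean Z H L)
    (hc' : Clean Z H (L.map (1 - ·))) (hA : 3 * deg K k (d + 1) ≤ A) (hk : 1 ≤ k) :
    Cov Z (2 * deg K k (d + 1)) {x | ¬ (H L x = 1 → H (L.map (1 - ·)) x = 1 → L = [])} := by
  classical
  rcases L.eq_nil_or_concat with h0 | ⟨L', g, h0⟩
  · refine cov_empty.mono (Nat.zero_le _) fun x hx => ?_
    exact absurd (fun _ _ => h0) hx
  have hg : g ∈ L := by
    rw [h0]
    simp
  have hM : ∀ g ∈ L.map (1 - ·), Bin g := by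
    intro g hg
    obtain ⟨g', hg', rfl⟩ := List.mem_map.1 hg
    exact bin_one_sub (hL g' hg')
  have hMd : ∀ g ∈ L.map (1 - ·), g ∈ Pol K V (deg K k d) := by
    intro g hg
    obtain ⟨g', hg', rfl⟩ := List.mem_map.1 hg
    exact Submodule.sub_mem _ (Frege.one_mem _) (hLd g' hg')
  have hm := hH.mem_deg hL hLd
  have hm' := hH.mem_deg hM hMd
  have hT1 : deg K k d ≤ deg K k (d + 1) := deg_mono hk (Nat.le_add_right d 1)
  have h1 : H L * H (L.map (1 - ·)) ∈ Z := by
    have h2 : H L * H (L.map (1 - ·)) = H (L.map (1 - ·)) * (g * H L) +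
        H L * ((1 - g) * H (L.map (1 - ·))) := by ring
    rw [h2]
    refine Z.add_mem ?_ ?_
    · exact hZ.mul _ _ _ _ hm' (Frege.mul_mem (hLd g hg) hm) (hc g hg) (by omega)
    · exact hZ.mul _ _ _ _ hm (Frege.mul_mem (hMd _ (List.mem_map.2 ⟨g, hg, rfl⟩)) hm')
        (hc' _ (List.mem_map.2 ⟨g, hg, rfl⟩)) (by omega)
  have hb : Bin (H L * H (L.map (1 - ·))) := by
    intro x
    rw [Pi.mul_apply]
    rcases hH.bin hL x with h | h <;> rcases hH.bin hM x with h' | h' <;> rw [h, h'] <;> simp
  refine (cov_of hb (Frege.mul_mem hm hm') h1).mono (by omega) ?_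
  intro x hx
  show (H L * H (L.map (1 - ·))) x ≠ 0
  have hx1 : H L x = 1 := by
    by_contra hne
    exact hx fun h => absurd h hne
  have hx2 : H (L.map (1 - ·)) x = 1 := by
    by_contra hne
    exact hx fun _ h => absurd h hne
  rw [Pi.mul_apply, hx1, hx2]
  simp

end Pool.Agent.MP_9cec2c_lc.FG
end
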