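import Pool.Agent.Lib.MP_9cec2c_lc.Mg.G055
import Pool.Agent.Lib.MP_9cec2c_lc.LOCore

section

/-!
Random CNFs are spread out, unsatisfiable, and their unbalanced clauses are rarely falsified.
-/

set_option autoImplicit false
set_option linter.unusedSectionVars false

namespace Pool.Agent.MP_9cec2c_lc.LovSch

open Finset
open Pool.Agent.MP_9cec2c_lc.SubstRed
open Pool.Agent.MP_9cec2c_lc.FormulaLines

variable {n m w : ℕ}

/-- A clause with many variables in a small set. -/
theorem pr_dense (hw : w ≤ n) (v : ℕ) (Z : Finset (Fin n)) :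
    pr (fun c : (Fin w ↪ Fin n) × (Fin w → Bool) =>
      2 * v ≤ (univ.filter fun e => c.1 e ∈ Z).card) ≤ 2 ^ w * ((Z.card : ℝ) / n) ^ (2 * v) := by
  classical
  have hne := nonempty_emb hw
  refine le_trans (pr_mono (q := fun c : (Fin w ↪ Fin n) × (Fin w → Bool) =>
    ∃ J ∈ powersetCard (2 * v) (univ : Finset (Fin w)), ∀ e ∈ J, c.1 e ∈ Z) fun c hc => ?_) ?_
  · obtain ⟨J, hJ1, hJ2⟩ := exists_subset_card_eq hc
    exact ⟨J, mem_powersetCard.2 ⟨subset_univ _, hJ2⟩, fun e he => (mem_filter.1 (hJ1 he)).2⟩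
  · refine (pr_exists _ _).trans ?_
    have h1 : ∀ J ∈ powersetCard (2 * v) (univ : Finset (Fin w)),
        pr (fun c : (Fin w ↪ Fin n) × (Fin w → Bool) => ∀ e ∈ J, c.1 e ∈ Z) ≤
          ((Z.card : ℝ) / n) ^ (2 * v) := by
      intro J hJ
      rw [pr_fst (Ω' := Fin w → Bool) (fun g : Fin w ↪ Fin n => ∀ e ∈ J, g e ∈ Z)]
      have := emb_pr hw J Z
      rwa [(mem_powersetCard.1 hJ).2] at this
    refine (sum_le_sum h1).trans ?_
    rw [sum_const, nsmul_eq_mul]
    gcongr
    have h2 : (powersetCard (2 * v) (univ : Finset (Fin w))).card ≤ 2 ^ w := by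
      rw [card_powersetCard, card_univ, Fintype.card_fin]
      exact Nat.choose_le_two_pow _ _
    exact_mod_cast h2

/-- The numerical bound for one size. -/
theorem spread_one (hw : w ≤ n) (hn : 0 < n) {v r t : ℕ} (hv0 : 0 < v)
    (ht0 : 0 < t) (htr : t ≤ r) (hm : m ≤ 3 ^ w)
    (hexp : (24 : ℝ) ^ w * (3 * (v * r : ℕ) / n : ℝ) ^ v ≤ 1) :
    pr (fun f : ClauseList n m w =>
      ∃ p ∈ (powersetCard t (univ : Finset (Fin m))) ×ˢ
        (powersetCard (v * t) (univ : Finset (Fin n))),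
        ∀ i ∈ p.1, 2 * v ≤ (univ.filter fun e => (f i).1 e ∈ p.2).card) ≤
          ((1 / 4 : ℝ) ^ w) ^ t := by
  classical
  have hne := nonempty_emb hw
  have hn' : (0 : ℝ) < n := by exact_mod_cast hn
  have hvt : 0 < v * t := Nat.mul_pos hv0 ht0
  have hvt' : (0 : ℝ) < ((v * t : ℕ) : ℝ) := by exact_mod_cast hvt
  refine (pr_exists _ _).trans ?_
  have h1 : ∀ p ∈ (powersetCard t (univ : Finset (Fin m))) ×ˢ
        (powersetCard (v * t) (univ : Finset (Fin n))),
      pr (fun f : ClauseList n m w =>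
        ∀ i ∈ p.1, 2 * v ≤ (univ.filter fun e => (f i).1 e ∈ p.2).card) ≤
          (2 ^ w * (((v * t : ℕ) : ℝ) / n) ^ (2 * v)) ^ t := by
    rintro ⟨T, Z⟩ hp
    rw [mem_product, mem_powersetCard, mem_powersetCard] at hp
    have h2 := indep_fixed (ι := Fin m) T (fun c : (Fin w ↪ Fin n) × (Fin w → Bool) =>
      2 * v ≤ (univ.filter fun e => c.1 e ∈ Z).card) _ (pr_dense hw v Z)
    rw [hp.1.2, hp.2.2] at h2
    exact h2
  refine (sum_le_sum h1).trans ?_
  rw [sum_const, card_product, card_powersetCard, card_powersetCard, card_univ, card_univ,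
    Fintype.card_fin, Fintype.card_fin, nsmul_eq_mul]
  push_cast
  have h2 : (m.choose t : ℝ) ≤ ((3 : ℝ) ^ w) ^ t := by
    have h3 : (m.choose t : ℝ) ≤ (m : ℝ) ^ t / t.factorial := Nat.choose_le_pow_div t m
    refine h3.trans ((div_le_self (by positivity) ?_).trans ?_)
    · exact_mod_cast Nat.factorial_pos t
    · refine pow_le_pow_left₀ (by positivity) ?_ _
      exact_mod_cast hm
  have h3 : (n.choose (v * t) : ℝ) ≤ ((3 * n / (v * t) : ℝ) ^ v) ^ t := by
    have := choose_le_three (n := n) (k := v * t) hvt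
    push_cast at this
    rw [← pow_mul]
    exact this
  have hz : (0 : ℝ) < (v : ℝ) * t := by
    have := hvt'
    push_cast at this
    exact this
  calc (m.choose t : ℝ) * (n.choose (v * t) : ℝ) * (2 ^ w * ((v : ℝ) * t / n) ^ (2 * v)) ^ t
      ≤ ((3 : ℝ) ^ w) ^ t * ((3 * n / (v * t) : ℝ) ^ v) ^ t *
          (2 ^ w * ((v : ℝ) * t / n) ^ (2 * v)) ^ t := by
        gcongr
    _ = ((3 : ℝ) ^ w * 2 ^ w * (3 * ((v : ℝ) * t) / n) ^ v) ^ t := by
        rw [← mul_pow, ← mul_pow]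
        congr 1
        rw [two_mul, pow_add, div_pow, div_pow, div_pow, mul_pow, mul_pow 3 ((v : ℝ) * t)]
        field_simp
    _ ≤ ((1 / 4 : ℝ) ^ w) ^ t := by
        refine pow_le_pow_left₀ (by positivity) ?_ _
        have h4 : (3 * ((v : ℝ) * t) / n) ^ v ≤ (3 * (v * r : ℕ) / n : ℝ) ^ v := by
          refine pow_le_pow_left₀ (by positivity) ?_ _
          rw [div_le_div_iff_of_pos_right hn']
          push_cast
          gcongr
        have h5 : (3 : ℝ) ^ w * 2 ^ w * (3 * ((v : ℝ) * t) / n) ^ v ≤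
            3 ^ w * 2 ^ w * (3 * (v * r : ℕ) / n : ℝ) ^ v := by gcongr
        have h6 : (3 : ℝ) ^ w * 2 ^ w * (3 * (v * r : ℕ) / n : ℝ) ^ v =
            (1 / 4) ^ w * (24 ^ w * (3 * (v * r : ℕ) / n : ℝ) ^ v) := by
          rw [← mul_pow, ← mul_assoc, ← mul_pow]
          norm_num
        rw [h6] at h5
        refine h5.trans ?_
        have h7 : (0 : ℝ) ≤ (1 / 4) ^ w := by positivity
        calc (1 / 4 : ℝ) ^ w * (24 ^ w * (3 * (v * r : ℕ) / n : ℝ) ^ v) ≤ (1 / 4) ^ w * 1 := by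
              gcongr
          _ = (1 / 4) ^ w := mul_one _

/-- Random CNFs are spread out. -/
theorem pr_not_spread (hw : w ≤ n) (hw0 : 0 < w) (hn : 0 < n) {v r : ℕ} (hv0 : 0 < v)
    (hvr : v * r ≤ n) (hm : m ≤ 3 ^ w)
    (hexp : (24 : ℝ) ^ w * (3 * (v * r : ℕ) / n : ℝ) ^ v ≤ 1) :
    pr (fun f : ClauseList n m w => ¬ Spread v r f) ≤ 2 * (1 / 4 : ℝ) ^ w := by
  classical
  refine le_trans (pr_mono (q := fun f : ClauseList n m w =>
      ∃ t ∈ Icc 1 r, ∃ p ∈ (powersetCard t (univ : Finset (Fin m))) ×ˢ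
        (powersetCard (v * t) (univ : Finset (Fin n))),
        ∀ i ∈ p.1, 2 * v ≤ (univ.filter fun e => (f i).1 e ∈ p.2).card) fun f hf => ?_) ?_
  · unfold Spread at hf
    push Not at hf
    obtain ⟨M, hM, Z, hZ, hlt⟩ := hf
    have hM0 : 0 < M.card := by
      by_contra h0
      have : M.card = 0 := by omega
      rw [this, mul_zero] at hlt
      omega
    obtain ⟨Z', hZ1, hZ2⟩ := exists_superset_card_eq (s := Z) (n := v * M.card) hlt.le (by
      rw [Fintype.card_fin]
      exact (Nat.mul_le_mul_left _ hM).trans hvr)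
    refine ⟨M.card, mem_Icc.2 ⟨hM0, hM⟩, (M, Z'), ?_, fun i hi => ?_⟩
    · rw [mem_product, mem_powersetCard, mem_powersetCard]
      exact ⟨⟨subset_univ _, rfl⟩, subset_univ _, hZ2⟩
    · refine (hZ i hi).trans (card_le_card fun e he => ?_)
      rw [mem_filter] at he ⊢
      exact ⟨he.1, hZ1 he.2⟩
  · refine (pr_exists _ _).trans ((sum_le_sum fun t ht => ?_).trans
      (b := ∑ t ∈ Icc 1 r, ((1 / 4 : ℝ) ^ w) ^ t) ?_)
    · rw [mem_Icc] at ht
      exact spread_one hw hn hv0 (by omega) ht.2 hm hexp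
    · have ha : ((1 / 4 : ℝ) ^ w) ≤ 1 / 4 := by
        calc ((1 / 4 : ℝ) ^ w) ≤ (1 / 4) ^ 1 :=
              pow_le_pow_of_le_one (by norm_num) (by norm_num) hw0
          _ = 1 / 4 := pow_one _
      have ha0 : (0 : ℝ) < (1 / 4 : ℝ) ^ w := by positivity
      have hgeo : ∀ k : ℕ, ∑ t ∈ Icc 1 k, ((1 / 4 : ℝ) ^ w) ^ t ≤
          2 * (1 / 4 : ℝ) ^ w - 2 * ((1 / 4 : ℝ) ^ w) ^ (k + 1) := by
        intro k
        induction k with
        | zero => simp
        | succ k ih =>
          rw [sum_Icc_succ_top (by omega)]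
          have h1 : (0 : ℝ) < ((1 / 4 : ℝ) ^ w) ^ (k + 1) := by positivity
          have h2 : ((1 / 4 : ℝ) ^ w) ^ (k + 1 + 1) ≤ ((1 / 4 : ℝ) ^ w) ^ (k + 1) * (1 / 4) := by
            rw [pow_succ _ (k + 1)]
            gcongr
          linarith
      refine (hgeo r).trans ?_
      have : (0 : ℝ) < ((1 / 4 : ℝ) ^ w) ^ (r + 1) := by positivity
      linarith

end Pool.Agent.MP_9cec2c_lc.LovSch
end

section

/-!
Clauses of random CNFs that are off balance are rarely falsified.
-/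

set_option autoImplicit false
set_option linter.unusedSectionVars false

namespace Pool.Agent.MP_9cec2c_lc.LovSch

open Finset
open Pool.Agent.MP_9cec2c_lc.SubstRed
open Pool.Agent.MP_9cec2c_lc.FormulaLines

variable {n m w : ℕ}

/-- Exponential moments of the number of literals in a set. -/
theorem av_posin_ge (hw : w ≤ n) (Z : Finset (Fin n)) {θ : ℝ} (hθ : 1 ≤ θ) :
    av (fun c : (Fin w ↪ Fin n) × (Fin w → Bool) => θ ^ (posin Z c).card) ≤
      (1 + (θ - 1) * (Z.card / n)) ^ w := by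
  classical
  have hne := nonempty_emb hw
  have h1 : ∀ c : (Fin w ↪ Fin n) × (Fin w → Bool), θ ^ (posin Z c).card =
      ∑ J : Finset (Fin w), (θ - 1) ^ J.card * ind (∀ e ∈ J, c.1 e ∈ Z) := by
    intro c
    have h2 := sum_pow_mul_eq_add_pow (θ - 1) 1 (posin Z c)
    rw [sub_add_cancel] at h2
    rw [← h2, ← sum_subset (subset_univ (posin Z c).powerset)]
    · refine sum_congr rfl fun J hJ => ?_
      rw [mem_powerset] at hJ
      rw [one_pow, ind_pos fun e he => (mem_filter.1 (hJ he)).2]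
    · intro J _ hJ
      rw [mem_powerset] at hJ
      rw [ind_neg fun h => hJ fun e he => mem_filter.2 ⟨mem_univ _, h e he⟩, mul_zero]
  rw [av_congr h1, av_sum]
  have h2 : ∀ J : Finset (Fin w), av (fun c : (Fin w ↪ Fin n) × (Fin w → Bool) =>
      (θ - 1) ^ J.card * ind (∀ e ∈ J, c.1 e ∈ Z)) ≤ ((θ - 1) * (Z.card / n)) ^ J.card := by
    intro J
    rw [av_mul_left, ← pr_eq_av, mul_pow,
      pr_fst (Ω' := Fin w → Bool) (fun g : Fin w ↪ Fin n => ∀ e ∈ J, g e ∈ Z)]
    exact mul_le_mul_of_nonneg_left (emb_pr hw J Z) (pow_nonneg (by linarith) _)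
  refine (sum_le_sum fun J _ => h2 J).trans (le_of_eq ?_)
  rw [sum_pow_card, Fintype.card_fin]

theorem posin_add (Z : Finset (Fin n)) (c : (Fin w ↪ Fin n) × (Fin w → Bool)) :
    (posin Z c).card + (posin Zᶜ c).card = w := by
  classical
  have h1 := card_filter_add_card_filter_not (s := (univ : Finset (Fin w)))
    (fun e => c.1 e ∈ Z)
  rw [card_univ, Fintype.card_fin] at h1
  unfold posin
  simp only [mem_compl]
  convert h1

theorem av_posin_le (hw : w ≤ n) (Z : Finset (Fin n)) (hn : 0 < n) {θ : ℝ} (hθ0 : 0 < θ)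
    (hθ : θ ≤ 1) :
    av (fun c : (Fin w ↪ Fin n) × (Fin w → Bool) => θ ^ (posin Z c).card) ≤
      (1 - (1 - θ) * (Z.card / n)) ^ w := by
  classical
  have hne := nonempty_emb hw
  have hn' : (0 : ℝ) < n := by exact_mod_cast hn
  have h1 : ∀ c : (Fin w ↪ Fin n) × (Fin w → Bool), θ ^ (posin Z c).card =
      θ ^ w * (1 / θ) ^ (posin Zᶜ c).card := by
    intro c
    have h2 := posin_add Z c
    have h3 : θ ^ w = θ ^ (posin Z c).card * θ ^ (posin Zᶜ c).card := by
      rw [← pow_add, h2]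
    rw [h3, mul_assoc, ← mul_pow, mul_one_div_cancel hθ0.ne', one_pow, mul_one]
  rw [av_congr h1, av_mul_left]
  have h2 := av_posin_ge hw Zᶜ (θ := 1 / θ) (by rw [le_div_iff₀ hθ0, one_mul]; exact hθ)
  refine (mul_le_mul_of_nonneg_left h2 (by positivity)).trans (le_of_eq ?_)
  rw [← mul_pow]
  congr 1
  rw [card_compl, Fintype.card_fin, Nat.cast_sub]
  · field_simp
    ring
  · have := card_le_univ Z
    rwa [Fintype.card_fin] at this

open scoped Classical in
/-- The weight of a clause that is off balance. -/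
noncomputable def offw (B₁ B₂ : Finset (Fin n)) (v u : ℕ)
    (c : (Fin w ↪ Fin n) × (Fin w → Bool)) : ℕ :=
  if Off B₁ B₂ v u c then 2 ^ min (posin B₁ c).card (posin B₂ c).card else 0

/-- The average weight. -/
theorem av_offw (hw : w ≤ n) (hn : 0 < n) (B₁ B₂ : Finset (Fin n))
    (v u : ℕ) {z : ℝ} (hz1 : z ≤ B₁.card / n) (hz2 : z ≤ B₂.card / n)
    {z' : ℝ} (hz' : ((B₁ ∪ B₂).card : ℝ) / n ≤ z') :
    av (fun c : (Fin w ↪ Fin n) × (Fin w → Bool) => (offw B₁ B₂ v u c : ℝ)) ≤
      2 * (8 ^ (2 * v) * (1 - 3 / 4 * z) ^ w) + (1 / 2) ^ u * (1 + 3 * z') ^ w := by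
  classical
  have hn' : (0 : ℝ) < n := by exact_mod_cast hn
  have h1 : ∀ c : (Fin w ↪ Fin n) × (Fin w → Bool), (offw B₁ B₂ v u c : ℝ) ≤
      8 ^ (2 * v) * (1 / 4) ^ (posin B₁ c).card + (8 ^ (2 * v) * (1 / 4) ^ (posin B₂ c).card +
        (1 / 2) ^ u * 4 ^ (posin (B₁ ∪ B₂) c).card) := by
    intro c
    have p1 : (0 : ℝ) ≤ 8 ^ (2 * v) * (1 / 4) ^ (posin B₁ c).card := by positivity
    have p2 : (0 : ℝ) ≤ 8 ^ (2 * v) * (1 / 4) ^ (posin B₂ c).card := by positivity
    have p3 : (0 : ℝ) ≤ (1 / 2) ^ u * 4 ^ (posin (B₁ ∪ B₂) c).card := by positivity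
    have hkey : ∀ p : ℕ, p < 2 * v → (2 : ℝ) ^ p ≤ 8 ^ (2 * v) * (1 / 4) ^ p := by
      intro p hp
      have e1 : (8 : ℝ) ^ p ≤ 8 ^ (2 * v) := pow_le_pow_right₀ (by norm_num) hp.le
      calc (2 : ℝ) ^ p = 8 ^ p * (1 / 4) ^ p := by
            rw [← mul_pow]
            norm_num
        _ ≤ 8 ^ (2 * v) * (1 / 4) ^ p := by gcongr
    unfold offw
    split_ifs with hoff
    · push_cast
      rcases hoff with h | h | h
      · have e1 := hkey _ h
        have e2 : (2 : ℝ) ^ min (posin B₁ c).card (posin B₂ c).card ≤ 2 ^ (posin B₁ c).card :=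
          pow_le_pow_right₀ (by norm_num) (min_le_left _ _)
        linarith
      · have e1 := hkey _ h
        have e2 : (2 : ℝ) ^ min (posin B₁ c).card (posin B₂ c).card ≤ 2 ^ (posin B₂ c).card :=
          pow_le_pow_right₀ (by norm_num) (min_le_right _ _)
        linarith
      · have e1 : (posin B₁ c).card ≤ (posin (B₁ ∪ B₂) c).card := by
          refine card_le_card fun e he => ?_
          exact mem_filter.2 ⟨mem_univ _, mem_union_left _ (mem_filter.1 he).2⟩
        have e2 : (2 : ℝ) ^ min (posin B₁ c).card (posin B₂ c).card ≤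
            2 ^ (posin (B₁ ∪ B₂) c).card :=
          pow_le_pow_right₀ (by norm_num) ((min_le_left _ _).trans e1)
        have e3 : (2 : ℝ) ^ u ≤ 2 ^ (posin (B₁ ∪ B₂) c).card :=
          pow_le_pow_right₀ (by norm_num) h.le
        have e4 : (2 : ℝ) ^ (posin (B₁ ∪ B₂) c).card ≤
            (1 / 2) ^ u * 4 ^ (posin (B₁ ∪ B₂) c).card := by
          have e5 : (4 : ℝ) ^ (posin (B₁ ∪ B₂) c).card =
              2 ^ (posin (B₁ ∪ B₂) c).card * 2 ^ (posin (B₁ ∪ B₂) c).card := by
            rw [← mul_pow]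
            norm_num
          have e6 : (1 / 2 : ℝ) ^ u * 2 ^ u = 1 := by
            rw [← mul_pow]
            norm_num
          rw [e5]
          calc (2 : ℝ) ^ (posin (B₁ ∪ B₂) c).card
              = (1 / 2) ^ u * 2 ^ u * 2 ^ (posin (B₁ ∪ B₂) c).card := by rw [e6, one_mul]
            _ ≤ (1 / 2) ^ u * 2 ^ (posin (B₁ ∪ B₂) c).card *
                2 ^ (posin (B₁ ∪ B₂) c).card := by gcongr
            _ = _ := by ring
        linarith
    · push_cast
      linarith
  have hB : ∀ B : Finset (Fin n), z ≤ B.card / n →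
      av (fun c : (Fin w ↪ Fin n) × (Fin w → Bool) =>
        8 ^ (2 * v) * (1 / 4 : ℝ) ^ (posin B c).card) ≤
        8 ^ (2 * v) * (1 - 3 / 4 * z) ^ w := by
    intro B hz
    have hB1 : (B.card : ℝ) / n ≤ 1 := by
      rw [div_le_one hn']
      have := card_le_univ B
      rw [Fintype.card_fin] at this
      exact_mod_cast this
    rw [av_mul_left]
    refine mul_le_mul_of_nonneg_left ?_ (by positivity)
    refine (av_posin_le hw B hn (by norm_num) (by norm_num)).trans ?_
    refine pow_le_pow_left₀ ?_ ?_ _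
    · linarith
    · linarith
  refine (av_mono h1).trans ?_
  have h2 : av (fun c : (Fin w ↪ Fin n) × (Fin w → Bool) =>
      (8 : ℝ) ^ (2 * v) * (1 / 4) ^ (posin B₁ c).card +
        (8 ^ (2 * v) * (1 / 4) ^ (posin B₂ c).card +
        (1 / 2) ^ u * 4 ^ (posin (B₁ ∪ B₂) c).card)) =
      av (fun c : (Fin w ↪ Fin n) × (Fin w → Bool) =>
        8 ^ (2 * v) * (1 / 4 : ℝ) ^ (posin B₁ c).card) +
      (av (fun c : (Fin w ↪ Fin n) × (Fin w → Bool) =>
        8 ^ (2 * v) * (1 / 4 : ℝ) ^ (posin B₂ c).card) +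
      av (fun c : (Fin w ↪ Fin n) × (Fin w → Bool) =>
        (1 / 2 : ℝ) ^ u * 4 ^ (posin (B₁ ∪ B₂) c).card)) := by
    unfold av
    rw [← add_div, ← add_div, ← sum_add_distrib, ← sum_add_distrib]
  rw [h2, av_mul_left ((1 / 2 : ℝ) ^ u)]
  have h3 := hB B₁ hz1
  have h4 := hB B₂ hz2
  have h5 := av_posin_ge hw (B₁ ∪ B₂) (θ := 4) (by norm_num)
  have h6 : (1 + ((4 : ℝ) - 1) * ((B₁ ∪ B₂).card / n)) ^ w ≤ (1 + 3 * z') ^ w := by
    refine pow_le_pow_left₀ (by positivity) ?_ _
    linarith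
  have h7 := mul_le_mul_of_nonneg_left (h5.trans h6) (by positivity : (0 : ℝ) ≤ (1 / 2) ^ u)
  linarith

/-- Large deviations. -/
theorem pr_chernoff {α : Type*} [Fintype α] [Nonempty α] (h : α → ℝ) {t a q : ℝ}
    (ht : 0 ≤ t) (h0 : ∀ x, 0 ≤ h x) (h1 : ∀ x, t * h x ≤ 1 / 2) (hq : m * av h ≤ q) :
    pr (fun H : Fin m → α => a ≤ ∑ i, h (H i)) ≤ Real.exp (2 * t * q - t * a) := by
  classical
  rw [pr_eq_av]
  have h2 : ∀ H : Fin m → α, ind (a ≤ ∑ i, h (H i)) ≤
      Real.exp (-(t * a)) * ∏ i, Real.exp (t * h (H i)) := by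
    intro H
    rw [← Real.exp_sum, ← Real.exp_add]
    by_cases hH : a ≤ ∑ i, h (H i)
    · rw [ind_pos hH]
      refine Real.one_le_exp ?_
      rw [← mul_sum]
      nlinarith
    · rw [ind_neg hH]
      exact (Real.exp_pos _).le
  refine (av_mono h2).trans ?_
  rw [av_mul_left]
  have h3 : av (fun x => Real.exp (t * h x)) ≤ 1 + 2 * t * av h := by
    have h4 : ∀ x, Real.exp (t * h x) ≤ 1 + 2 * t * h x := by
      intro x
      have g0 : 0 ≤ t * h x := mul_nonneg ht (h0 x)
      have g1 := Real.exp_bound_div_one_sub_of_interval g0 (by linarith [h1 x])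
      refine g1.trans ?_
      rw [div_le_iff₀ (by linarith [h1 x])]
      nlinarith [h1 x]
    refine (av_mono h4).trans (le_of_eq ?_)
    have h5 : av (fun x => 1 + 2 * t * h x) = av (fun _ : α => (1 : ℝ)) +
        av (fun x => 2 * t * h x) := by
      unfold av
      rw [← add_div, ← sum_add_distrib]
    rw [h5, av_const, av_mul_left]
  have h4 := av_prod_coord (ι := Fin m) univ (fun _ x => Real.exp (t * h x))
    (q := 1 + 2 * t * av h) (fun _ _ => (Real.exp_pos _).le) (fun _ _ _ _ => rfl)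
    (fun _ => h3)
  rw [card_univ, Fintype.card_fin] at h4
  have hav := av_nonneg h0
  calc Real.exp (-(t * a)) * av (fun H : Fin m → α => ∏ i, Real.exp (t * h (H i)))
      ≤ Real.exp (-(t * a)) * (1 + 2 * t * av h) ^ m := by gcongr
    _ ≤ Real.exp (-(t * a)) * (Real.exp (2 * t * av h)) ^ m := by
        gcongr
        have := Real.add_one_le_exp (2 * t * av h)
        linarith
    _ = Real.exp (2 * t * (m * av h) - t * a) := by
        rw [← Real.exp_nat_mul, ← Real.exp_add]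
        congr 1
        ring
    _ ≤ Real.exp (2 * t * q - t * a) := by
        refine Real.exp_le_exp.2 ?_
        have := mul_le_mul_of_nonneg_left hq (by linarith : 0 ≤ 2 * t)
        linarith

/-- Both sets contain at most half of the literals of the clause. -/
theorem offw_le {B₁ B₂ : Finset (Fin n)} (hd : Disjoint B₁ B₂) (v u : ℕ)
    (c : (Fin w ↪ Fin n) × (Fin w → Bool)) : offw B₁ B₂ v u c ^ 2 ≤ 2 ^ w := by
  classical
  have h1 := posin_add B₁ c
  have h2 : (posin B₂ c).card ≤ (posin B₁ᶜ c).card := by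
    refine card_le_card fun e he => ?_
    refine mem_filter.2 ⟨mem_univ _, ?_⟩
    rw [mem_compl]
    exact disjoint_right.1 hd (mem_filter.1 he).2
  unfold offw
  split_ifs
  · rw [← pow_mul]
    exact Nat.pow_le_pow_right (by norm_num) (by omega)
  · simp

/-- For most random CNFs, the clauses that are off balance have small weight, for all pairs of
sets. -/
theorem pr_heavy (hw : w ≤ n) (hn : 0 < n) (v u b : ℕ) {z z' : ℝ} (hz : z ≤ (b : ℝ) / n)
    (hz' : 2 * (b : ℝ) / n ≤ z') (hn2 : (4096 * n) ^ 2 ≤ 2 ^ w)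
    (hq : 256 * (m * (2 * (8 ^ (2 * v) * (1 - 3 / 4 * z) ^ w) +
      (1 / 2) ^ u * (1 + 3 * z') ^ w)) ≤ 2 ^ w) :
    pr (fun f : ClauseList n m w => ∃ B₁ B₂ : Finset (Fin n), Disjoint B₁ B₂ ∧ B₁.card = b ∧
      B₂.card = b ∧ 2 ^ w < 16 * ∑ i, offw B₁ B₂ v u (f i)) ≤ (1 / 4) ^ n := by
  classical
  have hne := nonempty_emb hw
  have hn' : (0 : ℝ) < n := by exact_mod_cast hn
  have h2w : (0 : ℝ) < 2 ^ w := by positivity
  have key : ∀ p : Finset (Fin n) × Finset (Fin n), pr (fun f : ClauseList n m w =>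
      Disjoint p.1 p.2 ∧ p.1.card = b ∧ p.2.card = b ∧
        2 ^ w < 16 * ∑ i, offw p.1 p.2 v u (f i)) ≤ (1 / 16) ^ n := by
    rintro ⟨B₁, B₂⟩
    by_cases hB : Disjoint B₁ B₂ ∧ B₁.card = b ∧ B₂.card = b
    · obtain ⟨hd, hb1, hb2⟩ := hB
      have hun : ((B₁ ∪ B₂).card : ℝ) / n ≤ z' := by
        refine le_trans ?_ hz'
        gcongr
        have := card_union_le B₁ B₂
        rw [hb1, hb2] at this
        have h1 : (((B₁ ∪ B₂).card : ℕ) : ℝ) ≤ ((b + b : ℕ) : ℝ) := by exact_mod_cast this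
        push_cast at h1
        linarith
      have hav := av_offw hw hn B₁ B₂ v u (z := z) (by rw [hb1]; exact hz)
        (by rw [hb2]; exact hz) hun
      have hch := pr_chernoff (m := m) (fun c : (Fin w ↪ Fin n) × (Fin w → Bool) =>
        (offw B₁ B₂ v u c : ℝ) / 2 ^ w) (t := 64 * n) (a := 1 / 16) (q := 1 / 256)
        (by positivity) (fun c => by positivity) (fun c => ?_) ?_
      · refine (pr_mono fun f hf => ?_).trans (hch.trans ?_)
        · have h1 : ((2 ^ w : ℕ) : ℝ) < ((16 * ∑ i, offw B₁ B₂ v u (f i) : ℕ) : ℝ) := by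
            exact_mod_cast hf.2.2.2
          push_cast at h1
          rw [← sum_div, div_le_div_iff₀ (by norm_num) h2w]
          linarith
        · have h1 : (2 * (64 * (n : ℝ)) * (1 / 256) - 64 * n * (1 / 16)) = n * (-(7 / 2)) := by
            ring
          rw [h1, Real.exp_nat_mul]
          refine pow_le_pow_left₀ (Real.exp_pos _).le ?_ _
          have h2 : Real.exp (-(7 / 2)) ≤ Real.exp (-3) := Real.exp_le_exp.2 (by norm_num)
          refine h2.trans ?_
          have h3 : Real.exp (-3) = (Real.exp 1 ^ 3)⁻¹ := by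
            rw [Real.exp_neg, ← Real.exp_nat_mul]
            norm_num
          rw [h3, one_div]
          refine inv_anti₀ (by norm_num) ?_
          have h4 := Real.exp_one_gt_d9
          calc (16 : ℝ) ≤ 2.7 ^ 3 := by norm_num
            _ ≤ Real.exp 1 ^ 3 := by
              refine pow_le_pow_left₀ (by norm_num) (by linarith) _
      · have h1 := offw_le hd v u c
        have h2 : (64 * n * offw B₁ B₂ v u c) * 2 ≤ 2 ^ w := by
          have h3 : ((64 * n * offw B₁ B₂ v u c) * 2) ^ 2 ≤ (2 ^ w) ^ 2 := by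
            calc ((64 * n * offw B₁ B₂ v u c) * 2) ^ 2
                = (128 * n) ^ 2 * (offw B₁ B₂ v u c) ^ 2 := by ring
              _ ≤ (4096 * n) ^ 2 * 2 ^ w := by
                  gcongr
                  norm_num
              _ ≤ 2 ^ w * 2 ^ w := by gcongr
              _ = (2 ^ w) ^ 2 := by ring
          exact (Nat.pow_le_pow_iff_left (by norm_num)).1 h3
        have h3 : ((64 * (n : ℝ) * offw B₁ B₂ v u c) * 2) ≤ 2 ^ w := by exact_mod_cast h2
        rw [← mul_div_assoc, div_le_div_iff₀ h2w (by norm_num)]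
        linarith
      · have h1 : av (fun c : (Fin w ↪ Fin n) × (Fin w → Bool) =>
            (offw B₁ B₂ v u c : ℝ) / 2 ^ w) =
            (1 / 2 ^ w) * av (fun c : (Fin w ↪ Fin n) × (Fin w → Bool) =>
            (offw B₁ B₂ v u c : ℝ)) := by
          rw [← av_mul_left]
          exact av_congr fun c => by ring
        rw [h1]
        have h2 := mul_le_mul_of_nonneg_left hav (by positivity : (0 : ℝ) ≤ m)
        have h3 : 256 * (m * av (fun c : (Fin w ↪ Fin n) × (Fin w → Bool) =>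
            (offw B₁ B₂ v u c : ℝ))) ≤ 2 ^ w := by linarith
        rw [mul_left_comm, one_div, inv_mul_le_iff₀ h2w]
        linarith
    · refine le_trans (le_of_eq ?_) (by positivity : (0 : ℝ) ≤ (1 / 16) ^ n)
      rw [pr_eq]
      have h1 : ∀ f : ClauseList n m w, ¬ (Disjoint B₁ B₂ ∧ B₁.card = b ∧ B₂.card = b ∧
          2 ^ w < 16 * ∑ i, offw B₁ B₂ v u (f i)) := fun f hf =>
        hB ⟨hf.1, hf.2.1, hf.2.2.1⟩
      rw [filter_false_of_mem fun f _ => h1 f]
      simp
  refine (pr_mono (q := fun f : ClauseList n m w => ∃ p : Finset (Fin n) × Finset (Fin n),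
    Disjoint p.1 p.2 ∧ p.1.card = b ∧ p.2.card = b ∧
      2 ^ w < 16 * ∑ i, offw p.1 p.2 v u (f i)) fun f hf => ?_).trans
    ((pr_exists_fintype _).trans ((sum_le_sum fun p _ => key p).trans ?_))
  · obtain ⟨B₁, B₂, h⟩ := hf
    exact ⟨(B₁, B₂), h⟩
  · rw [sum_const, card_univ, Fintype.card_prod, Fintype.card_finset, Fintype.card_fin,
      nsmul_eq_mul]
    push_cast
    rw [← mul_pow, ← mul_pow]
    norm_num

/-- Values of the variables outside `Z'` that falsify the literals outside `Z'` of a clause. -/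
theorem card_pairs (Z Z' : Finset (Fin n))
    (c : (Fin w ↪ Fin n) × (Fin w → Bool)) :
    (by classical exact ((univ : Finset ((Fin n → Bool) × (Fin n → Bool))).filter fun p =>
      FalseIn Z c p.2 ∧ FalseIn (Z ∪ Z')ᶜ c p.1).card) * 2 ^ w ≤
      2 ^ (2 * n) * 2 ^ (posin Z' c).card := by
  classical
  obtain ⟨W, hW⟩ : ∃ W, W = (posin Z'ᶜ c).image c.1 := ⟨_, rfl⟩
  have hWc : W.card = (posin Z'ᶜ c).card := by
    rw [hW]
    exact card_image_of_injective _ c.1.injective
  have hsum := posin_add Z' c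
  have hX : ((univ : Finset (Fin n → Bool)).filter fun z => FalseIn Z'ᶜ c z).card * 2 ^ W.card ≤
      2 ^ n := by
    rcases ((univ : Finset (Fin n → Bool)).filter fun z =>
      FalseIn Z'ᶜ c z).eq_empty_or_nonempty with h0 | ⟨x0, hx0⟩
    · rw [h0, card_empty, zero_mul]
      exact Nat.zero_le _
    · refine card_fixed _ x0 _ fun x hx u hu => ?_
      rw [mem_filter] at hx hx0
      rw [hW, mem_image] at hu
      obtain ⟨e, he, rfl⟩ := hu
      have he' := (mem_filter.1 he).2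
      have h1 := hx.2 e he'
      have h2 := hx0.2 e he'
      revert h1 h2
      cases x (c.1 e) <;> cases x0 (c.1 e) <;> cases c.2 e <;> simp
  have hle : ((univ : Finset ((Fin n → Bool) × (Fin n → Bool))).filter fun p =>
      FalseIn Z c p.2 ∧ FalseIn (Z ∪ Z')ᶜ c p.1).card ≤
      ((univ : Finset (Fin n → Bool)).filter fun z => FalseIn Z'ᶜ c z).card * 2 ^ n := by
    have h1 : ((univ : Finset (Fin n → Bool)).filter fun z => FalseIn Z'ᶜ c z).card * 2 ^ n =
        (((univ : Finset (Fin n → Bool)).filter fun z => FalseIn Z'ᶜ c z) ×ˢ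
          (univ : Finset (Fin n → Bool))).card := by
      rw [card_product, card_univ, Fintype.card_fun, Fintype.card_fin, Fintype.card_bool]
    rw [h1]
    refine card_le_card_of_injOn (fun p => (fun u => if u ∈ Z then p.2 u else p.1 u,
      fun u => if u ∈ Z then p.1 u else p.2 u)) ?_ ?_
    · rintro ⟨ρ, x⟩ hp
      have hp' := (mem_filter.1 (mem_coe.1 hp)).2
      refine mem_coe.2 (mem_product.2 ⟨mem_filter.2 ⟨mem_univ _, fun e he => ?_⟩,
        mem_univ _⟩)
      simp only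
      by_cases h2 : c.1 e ∈ Z
      · rw [if_pos h2]
        exact hp'.1 e h2
      · rw [if_neg h2]
        refine hp'.2 e ?_
        rw [mem_compl, mem_union, not_or]
        rw [mem_compl] at he
        exact ⟨h2, he⟩
    · rintro ⟨ρ, x⟩ - ⟨ρ', x'⟩ - heq
      simp only [Prod.mk.injEq] at heq
      obtain ⟨h2, h3⟩ := heq
      refine Prod.ext ?_ ?_
      · funext u
        have h4 := congrFun h2 u
        have h5 := congrFun h3 u
        by_cases hu : u ∈ Z
        · rwa [if_pos hu, if_pos hu] at h5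
        · rwa [if_neg hu, if_neg hu] at h4
      · funext u
        have h4 := congrFun h2 u
        have h5 := congrFun h3 u
        by_cases hu : u ∈ Z
        · rwa [if_pos hu, if_pos hu] at h4
        · rwa [if_neg hu, if_neg hu] at h5
  have hpow : 2 ^ w = 2 ^ W.card * 2 ^ (posin Z' c).card := by
    rw [← pow_add]
    congr 1
    omega
  calc ((univ : Finset ((Fin n → Bool) × (Fin n → Bool))).filter fun p =>
      FalseIn Z c p.2 ∧ FalseIn (Z ∪ Z')ᶜ c p.1).card * 2 ^ w
      ≤ (((univ : Finset (Fin n → Bool)).filter fun z => FalseIn Z'ᶜ c z).card * 2 ^ n) *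
          2 ^ w := Nat.mul_le_mul_right _ hle
    _ = (((univ : Finset (Fin n → Bool)).filter fun z => FalseIn Z'ᶜ c z).card * 2 ^ W.card) *
          2 ^ n * 2 ^ (posin Z' c).card := by
        rw [hpow]
        ring
    _ ≤ 2 ^ n * 2 ^ n * 2 ^ (posin Z' c).card := by gcongr
    _ = 2 ^ (2 * n) * 2 ^ (posin Z' c).card := by
        rw [← pow_add]
        congr 2
        omega

open scoped Classical in
/-- Pairs of values of the variables outside and inputs that falsify their part of a clause. -/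
theorem card_obad (Z Z' : Finset (Fin n)) (f : ClauseList n m w) (v u : ℕ) :
    (∑ ρ : Fin n → Bool, (univ.filter fun x => OBad Z Z' ρ v u f x).card) * 2 ^ w ≤
      2 ^ (2 * n) * ∑ i, offw Z Z' v u (f i) := by
  have h1 : ∑ ρ : Fin n → Bool, (univ.filter fun x => OBad Z Z' ρ v u f x).card ≤
      ∑ i ∈ univ.filter (fun i => Off Z Z' v u (f i) ∧
        (posin Z' (f i)).card ≤ (posin Z (f i)).card),
        ((univ : Finset ((Fin n → Bool) × (Fin n → Bool))).filter fun p =>
        FalseIn Z (f i) p.2 ∧ FalseIn (Z ∪ Z')ᶜ (f i) p.1).card := by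
    have h2 : ∑ ρ : Fin n → Bool, (univ.filter fun x => OBad Z Z' ρ v u f x).card =
        ((univ : Finset ((Fin n → Bool) × (Fin n → Bool))).filter fun p =>
          OBad Z Z' p.1 v u f p.2).card := by
      rw [← card_sigma]
      refine card_bij (fun p _ => (p.1, p.2)) (fun p hp => ?_) (fun p _ p' _ h => ?_)
        (fun p hp => ⟨⟨p.1, p.2⟩, ?_, rfl⟩)
      · exact mem_filter.2 ⟨mem_univ _, (mem_filter.1 (mem_sigma.1 hp).2).2⟩
      · simp only [Prod.mk.injEq] at h
        exact Sigma.ext h.1 (heq_of_eq h.2)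
      · exact mem_sigma.2 ⟨mem_univ _, mem_filter.2 ⟨mem_univ _, (mem_filter.1 hp).2⟩⟩
    rw [h2]
    refine le_trans (card_le_card ?_) card_biUnion_le
    intro p hp
    obtain ⟨i, h3, h3', h4, h5⟩ := (mem_filter.1 hp).2
    exact mem_biUnion.2 ⟨i, mem_filter.2 ⟨mem_univ _, h3, h3'⟩,
      mem_filter.2 ⟨mem_univ _, h4, h5⟩⟩
  refine (Nat.mul_le_mul_right _ h1).trans ?_
  rw [sum_mul, mul_sum]
  refine (sum_le_sum (g := fun i => 2 ^ (2 * n) * offw Z Z' v u (f i)) fun i hi => ?_).trans ?_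
  · obtain ⟨h2, h3⟩ := (mem_filter.1 hi).2
    have h4 := card_pairs Z Z' (f i)
    unfold offw
    rw [if_pos h2, min_eq_right h3]
    convert h4
  · exact sum_le_sum_of_subset (filter_subset _ _)

/-- Inputs are rarely bad. -/
theorem pr_obad (Z Z' : Finset (Fin n)) (f : ClauseList n m w) {v u : ℕ}
    (h : 16 * ∑ i, offw Z Z' v u (f i) ≤ 2 ^ w) :
    pr (fun ρ : Fin n → Bool => ¬ (by classical exact
      2 * (univ.filter fun x => OBad Z Z' ρ v u f x).card ≤ 2 ^ n)) ≤ 1 / 8 := by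
  classical
  have h1 := card_obad Z Z' f v u
  have h2 : (∑ ρ : Fin n → Bool, (univ.filter fun x => OBad Z Z' ρ v u f x).card) * 16 ≤
      2 ^ (2 * n) := by
    refine Nat.le_of_mul_le_mul_right (c := 2 ^ w) ?_ (by positivity)
    calc (∑ ρ : Fin n → Bool, (univ.filter fun x => OBad Z Z' ρ v u f x).card) * 16 * 2 ^ w
        = 16 * ((∑ ρ : Fin n → Bool, (univ.filter fun x => OBad Z Z' ρ v u f x).card) *
            2 ^ w) := by ring
      _ ≤ 16 * (2 ^ (2 * n) * ∑ i, offw Z Z' v u (f i)) := by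
          convert Nat.mul_le_mul_left 16 h1
      _ = 2 ^ (2 * n) * (16 * ∑ i, offw Z Z' v u (f i)) := by ring
      _ ≤ 2 ^ (2 * n) * 2 ^ w := Nat.mul_le_mul_left _ h
  rw [pr_eq, Fintype.card_fun, Fintype.card_fin, Fintype.card_bool,
    div_le_div_iff₀ (by positivity) (by norm_num)]
  have h3 : (univ.filter fun ρ : Fin n → Bool =>
      ¬ 2 * (univ.filter fun x => OBad Z Z' ρ v u f x).card ≤ 2 ^ n).card * 2 ^ n ≤
      2 * ∑ ρ : Fin n → Bool, (univ.filter fun x => OBad Z Z' ρ v u f x).card := by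
    rw [mul_sum, ← smul_eq_mul, ← sum_const]
    refine (sum_le_sum fun ρ hρ => ?_).trans (sum_le_sum_of_subset (filter_subset _ _))
    have := (mem_filter.1 hρ).2
    omega
  have h4 : (univ.filter fun ρ : Fin n → Bool =>
      ¬ 2 * (univ.filter fun x => OBad Z Z' ρ v u f x).card ≤ 2 ^ n).card * 8 ≤ 2 ^ n := by
    refine Nat.le_of_mul_le_mul_right (c := 2 ^ n) ?_ (by positivity)
    calc (univ.filter fun ρ : Fin n → Bool =>
        ¬ 2 * (univ.filter fun x => OBad Z Z' ρ v u f x).card ≤ 2 ^ n).card * 8 * 2 ^ n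
        = 8 * ((univ.filter fun ρ : Fin n → Bool =>
        ¬ 2 * (univ.filter fun x => OBad Z Z' ρ v u f x).card ≤ 2 ^ n).card * 2 ^ n) := by ring
      _ ≤ 8 * (2 * ∑ ρ : Fin n → Bool,
          (univ.filter fun x => OBad Z Z' ρ v u f x).card) := Nat.mul_le_mul_left _ h3
      _ = (∑ ρ : Fin n → Bool, (univ.filter fun x => OBad Z Z' ρ v u f x).card) * 16 := by
          ring
      _ ≤ 2 ^ (2 * n) := h2
      _ = 2 ^ n * 2 ^ n := by
          rw [← pow_add]
          congr 1
          omega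
  have h5 : ((((univ.filter fun ρ : Fin n → Bool =>
      ¬ 2 * (univ.filter fun x => OBad Z Z' ρ v u f x).card ≤ 2 ^ n).card * 8 : ℕ)) : ℝ) ≤
      ((2 ^ n : ℕ) : ℝ) := by exact_mod_cast h4
  push_cast at h5 ⊢
  linarith

/-- There are values of the variables outside with all the properties. -/
theorem exists_rho {B₁ B₂ : Finset (Fin n)} {f : ClauseList n m w} {v u r : ℕ}
    (h1 : 16 * ∑ i, offw B₁ B₂ v u (f i) ≤ 2 ^ w) (h2 : 16 * ∑ i, offw B₂ B₁ v u (f i) ≤ 2 ^ w)
    (h3 : pr (fun ρ : Fin n → Bool => ¬ Wide v u r f ρ) ≤ 1 / 4) : ∃ ρ : Fin n → Bool,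
      Wide v u r f ρ ∧
      (by classical exact 2 * (univ.filter fun x => OBad B₁ B₂ ρ v u f x).card ≤ 2 ^ n) ∧
      (by classical exact 2 * (univ.filter fun x => OBad B₂ B₁ ρ v u f x).card ≤ 2 ^ n) := by
  classical
  have h4 := pr_obad B₁ B₂ f h1
  have h5 := pr_obad B₂ B₁ f h2
  have h6 := exists_of_pr_lt_one (lt_of_le_of_lt ((pr_or _ _).trans (add_le_add h3
    ((pr_or _ _).trans (add_le_add h4 h5)))) (by norm_num))
  obtain ⟨ρ, hρ⟩ := h6
  rw [not_or, not_or, not_not, not_not, not_not] at hρ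
  exact ⟨ρ, hρ.1, hρ.2.1, hρ.2.2⟩

end Pool.Agent.MP_9cec2c_lc.LovSch
end

section

/-!
No small set of variables contains many literals of several clauses of a random CNF whose other
literals are false under given values of the variables.
-/

set_option autoImplicit false
set_option linter.unusedSectionVars false

namespace Pool.Agent.MP_9cec2c_lc.LovSch

open Finset
open Pool.Agent.MP_9cec2c_lc.SubstRed
open Pool.Agent.MP_9cec2c_lc.FormulaLines

variable {n m w : ℕ}

/-- The probability that a set of variables is dense in a random clause. -/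
theorem pr_dns (hw : w ≤ n) (v u : ℕ) (ρ : Fin n → Bool) (Y : Finset (Fin n)) {D : ℝ}
    (hD : 1 ≤ D) :
    pr (fun c : (Fin w ↪ Fin n) × (Fin w → Bool) => Dense v u ρ Y c) ≤
      (1 / 2) ^ w * (D ^ u * (1 + 4 / D) ^ w) * ((Y.card : ℝ) / n) ^ (2 * v) := by
  classical
  have hne := nonempty_emb hw
  obtain ⟨y, hy⟩ : ∃ y : ℝ, y = (Y.card : ℝ) / n := ⟨_, rfl⟩
  have hy0 : 0 ≤ y := by rw [hy]; positivity
  rw [← hy]
  refine le_trans (pr_mono (q := fun c : (Fin w ↪ Fin n) × (Fin w → Bool) =>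
    ∃ J ∈ (univ : Finset (Finset (Fin w))).filter (fun J => J.card ≤ u),
      (∃ I ∈ powersetCard (2 * v) J, ∀ e ∈ I, c.1 e ∈ Y) ∧ ∀ e ∈ Jᶜ, ρ (c.1 e) ≠ c.2 e)
    fun c hc => ?_) ?_
  · obtain ⟨J, h1, h2, h3⟩ := hc
    obtain ⟨I, hI1, hI2⟩ := exists_subset_card_eq h3
    refine ⟨J, mem_filter.2 ⟨mem_univ _, h1⟩, ⟨I, ?_, fun e he => ?_⟩, h2⟩
    · exact mem_powersetCard.2 ⟨hI1.trans (filter_subset _ _), hI2⟩
    · exact (mem_filter.1 (hI1 he)).2
  · refine (pr_exists _ _).trans ?_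
    have h1 : ∀ J : Finset (Fin w), pr (fun g : Fin w ↪ Fin n =>
        ∃ I ∈ powersetCard (2 * v) J, ∀ e ∈ I, g e ∈ Y) ≤ 2 ^ J.card * y ^ (2 * v) := by
      intro J
      refine (pr_exists _ _).trans ((sum_le_sum (g := fun _ => y ^ (2 * v)) fun I hI => ?_).trans
        ?_)
      · have h2 := emb_pr hw I Y
        rw [(mem_powersetCard.1 hI).2, ← hy] at h2
        exact h2
      · rw [sum_const, nsmul_eq_mul]
        gcongr
        rw [card_powersetCard]
        exact_mod_cast Nat.choose_le_two_pow _ _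
    have h2 : ∀ J ∈ (univ : Finset (Finset (Fin w))).filter (fun J => J.card ≤ u),
        pr (fun c : (Fin w ↪ Fin n) × (Fin w → Bool) =>
          (∃ I ∈ powersetCard (2 * v) J, ∀ e ∈ I, c.1 e ∈ Y) ∧
            ∀ e ∈ Jᶜ, ρ (c.1 e) ≠ c.2 e) ≤
          (1 / 2) ^ w * y ^ (2 * v) * (D ^ u * (4 / D) ^ J.card) := by
      intro J hJ
      refine (pr_and_le (fun g : Fin w ↪ Fin n => ∃ I ∈ powersetCard (2 * v) J, ∀ e ∈ I, g e ∈ Y)
        (fun g (b : Fin w → Bool) => ∀ e ∈ Jᶜ, ρ (g e) ≠ b e)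
        (fun g => sign_pr Jᶜ fun e => ρ (g e))).trans ?_
      refine (mul_le_mul_of_nonneg_right (h1 J) (by positivity)).trans ?_
      have h3 : J.card + (Jᶜ).card = w := by
        rw [card_add_card_compl, Fintype.card_fin]
      have h4 : (1 / 2 : ℝ) ^ (Jᶜ).card = (1 / 2) ^ w * 2 ^ J.card := by
        have h5 : (1 / 2 : ℝ) ^ w = (1 / 2) ^ (Jᶜ).card * (1 / 2) ^ J.card := by
          rw [← pow_add, add_comm, h3]
        rw [h5, mul_assoc, ← mul_pow]
        norm_num
      have h5 : (4 : ℝ) ^ J.card ≤ D ^ u * (4 / D) ^ J.card := by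
        have h6 : D ^ J.card ≤ D ^ u := pow_le_pow_right₀ hD (mem_filter.1 hJ).2
        have hD0 : 0 < D := by linarith
        calc (4 : ℝ) ^ J.card = D ^ J.card * (4 / D) ^ J.card := by
              rw [← mul_pow]
              congr 1
              field_simp
          _ ≤ D ^ u * (4 / D) ^ J.card := by gcongr
      calc 2 ^ J.card * y ^ (2 * v) * (1 / 2) ^ (Jᶜ).card
          = (1 / 2) ^ w * y ^ (2 * v) * 4 ^ J.card := by
            rw [h4, show (4 : ℝ) = 2 * 2 by norm_num, mul_pow]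
            ring
        _ ≤ (1 / 2) ^ w * y ^ (2 * v) * (D ^ u * (4 / D) ^ J.card) := by gcongr
    refine (sum_le_sum h2).trans ?_
    have hD0 : 0 < D := by linarith
    refine (sum_le_sum_of_subset_of_nonneg (subset_univ _) fun J _ _ => by positivity).trans
      (le_of_eq ?_)
    rw [← mul_sum, ← mul_sum, sum_pow_card, Fintype.card_fin]
    ring

/-- The numerical bound for one size. -/
theorem wide_one (hw : w ≤ n) (hn : 0 < n) {v u r t : ℕ} (hv0 : 0 < v) (ht0 : 0 < t)
    (htr : t ≤ r) (ρ : Fin n → Bool) {D : ℝ} (hD : 1 ≤ D) :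
    pr (fun f : ClauseList n m w =>
      ∃ p ∈ (powersetCard t (univ : Finset (Fin m))) ×ˢ
        (powersetCard (v * t) (univ : Finset (Fin n))),
        ∀ i ∈ p.1, Dense v u ρ p.2 (f i)) ≤
          (m * ((1 / 2) ^ w * (D ^ u * (1 + 4 / D) ^ w)) * (3 * (v * r : ℕ) / n : ℝ) ^ v) ^ t := by
  classical
  have hne := nonempty_emb hw
  have hn' : (0 : ℝ) < n := by exact_mod_cast hn
  have hvt : 0 < v * t := Nat.mul_pos hv0 ht0
  obtain ⟨q, hq⟩ : ∃ q : ℝ, q = (1 / 2) ^ w * (D ^ u * (1 + 4 / D) ^ w) := ⟨_, rfl⟩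
  have hq0 : 0 ≤ q := by
    rw [hq]
    positivity
  rw [← hq]
  refine (pr_exists _ _).trans ?_
  have h1 : ∀ p ∈ (powersetCard t (univ : Finset (Fin m))) ×ˢ
        (powersetCard (v * t) (univ : Finset (Fin n))),
      pr (fun f : ClauseList n m w => ∀ i ∈ p.1, Dense v u ρ p.2 (f i)) ≤
          (q * (((v * t : ℕ) : ℝ) / n) ^ (2 * v)) ^ t := by
    rintro ⟨T, Z⟩ hp
    rw [mem_product, mem_powersetCard, mem_powersetCard] at hp
    have h2 := indep_fixed (ι := Fin m) T (fun c : (Fin w ↪ Fin n) × (Fin w → Bool) =>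
      Dense v u ρ Z c) _ (pr_dns hw v u ρ Z hD)
    rw [hp.1.2, hp.2.2, ← hq] at h2
    exact h2
  refine (sum_le_sum h1).trans ?_
  rw [sum_const, card_product, card_powersetCard, card_powersetCard, card_univ, card_univ,
    Fintype.card_fin, Fintype.card_fin, nsmul_eq_mul]
  push_cast
  have h2 : (m.choose t : ℝ) ≤ (m : ℝ) ^ t := by
    have h3 : (m.choose t : ℝ) ≤ (m : ℝ) ^ t / t.factorial := Nat.choose_le_pow_div t m
    refine h3.trans (div_le_self (by positivity) ?_)
    exact_mod_cast Nat.factorial_pos t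
  have h3 : (n.choose (v * t) : ℝ) ≤ ((3 * n / (v * t) : ℝ) ^ v) ^ t := by
    have := choose_le_three (n := n) (k := v * t) hvt
    push_cast at this
    rw [← pow_mul]
    exact this
  have hz : (0 : ℝ) < (v : ℝ) * t := by
    have : (0 : ℝ) < ((v * t : ℕ) : ℝ) := by exact_mod_cast hvt
    push_cast at this
    exact this
  calc (m.choose t : ℝ) * (n.choose (v * t) : ℝ) * (q * ((v : ℝ) * t / n) ^ (2 * v)) ^ t
      ≤ (m : ℝ) ^ t * ((3 * n / (v * t) : ℝ) ^ v) ^ t *
          (q * ((v : ℝ) * t / n) ^ (2 * v)) ^ t := by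
        gcongr
    _ = (m * q * (3 * ((v : ℝ) * t) / n) ^ v) ^ t := by
        rw [← mul_pow, ← mul_pow]
        congr 1
        rw [two_mul, pow_add, div_pow, div_pow, div_pow, mul_pow, mul_pow 3 ((v : ℝ) * t)]
        field_simp
    _ ≤ (m * q * (3 * ((v : ℝ) * r) / n) ^ v) ^ t := by
        gcongr

/-- For given values of the variables, most CNFs are wide. -/
theorem pr_not_wide (hw : w ≤ n) (hn : 0 < n) {v u r : ℕ} (hv0 : 0 < v) (hvr : v * r ≤ n)
    (ρ : Fin n → Bool) {D P : ℝ} (hD : 1 ≤ D)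
    (hP : m * ((1 / 2) ^ w * (D ^ u * (1 + 4 / D) ^ w)) * (3 * (v * r : ℕ) / n : ℝ) ^ v ≤ P)
    (hP1 : P ≤ 1 / 2) :
    pr (fun f : ClauseList n m w => ¬ Wide v u r f ρ) ≤ 2 * P := by
  classical
  have hP0 : 0 ≤ P := by
    refine le_trans ?_ hP
    have : 0 < D := by linarith
    positivity
  refine le_trans (pr_mono (q := fun f : ClauseList n m w =>
      ∃ t ∈ Icc 1 r, ∃ p ∈ (powersetCard t (univ : Finset (Fin m))) ×ˢ
        (powersetCard (v * t) (univ : Finset (Fin n))),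
        ∀ i ∈ p.1, Dense v u ρ p.2 (f i)) fun f hf => ?_) ?_
  · unfold Wide at hf
    push Not at hf
    obtain ⟨M, hM, Z, hZ, hlt⟩ := hf
    have hM0 : 0 < M.card := by
      by_contra h0
      have : M.card = 0 := by omega
      rw [this, mul_zero] at hlt
      omega
    obtain ⟨Z', hZ1, hZ2⟩ := exists_superset_card_eq (s := Z) (n := v * M.card) hlt.le (by
      rw [Fintype.card_fin]
      exact (Nat.mul_le_mul_left _ hM).trans hvr)
    refine ⟨M.card, mem_Icc.2 ⟨hM0, hM⟩, (M, Z'), ?_, fun i hi => ?_⟩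
    · rw [mem_product, mem_powersetCard, mem_powersetCard]
      exact ⟨⟨subset_univ _, rfl⟩, subset_univ _, hZ2⟩
    · obtain ⟨J, h1, h2, h3⟩ := hZ i hi
      refine ⟨J, h1, h2, h3.trans (card_le_card fun e he => ?_)⟩
      rw [mem_filter] at he ⊢
      exact ⟨he.1, hZ1 he.2⟩
  · refine (pr_exists _ _).trans ((sum_le_sum fun t ht => ?_).trans
      (b := ∑ t ∈ Icc 1 r, P ^ t) ?_)
    · rw [mem_Icc] at ht
      refine (wide_one hw hn hv0 (by omega) ht.2 ρ hD).trans ?_
      refine pow_le_pow_left₀ ?_ hP _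
      have : 0 < D := by linarith
      positivity
    · have hgeo : ∀ k : ℕ, ∑ t ∈ Icc 1 k, P ^ t ≤ 2 * P - 2 * P ^ (k + 1) := by
        intro k
        induction k with
        | zero => simp
        | succ k ih =>
          rw [sum_Icc_succ_top (by omega)]
          have h1 : 0 ≤ P ^ (k + 1) := pow_nonneg hP0 _
          have h2 : P ^ (k + 1 + 1) ≤ P ^ (k + 1) * (1 / 2) := by
            rw [pow_succ _ (k + 1)]
            gcongr
          linarith
      refine (hgeo r).trans ?_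
      have : 0 ≤ P ^ (r + 1) := pow_nonneg hP0 _
      linarith

/-- Most CNFs are wide for most values of the variables. -/
theorem pr_rarely_wide (hw : w ≤ n) (hn : 0 < n) {v u r : ℕ} (hv0 : 0 < v) (hvr : v * r ≤ n)
    {D P : ℝ} (hD : 1 ≤ D)
    (hP : m * ((1 / 2) ^ w * (D ^ u * (1 + 4 / D) ^ w)) * (3 * (v * r : ℕ) / n : ℝ) ^ v ≤ P)
    (hP1 : P ≤ 1 / 2) :
    pr (fun f : ClauseList n m w =>
      ¬ pr (fun ρ : Fin n → Bool => ¬ Wide v u r f ρ) ≤ 1 / 4) ≤ 8 * P := by
  classical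
  have hne := nonempty_emb hw
  have h1 : ∀ f : ClauseList n m w, ind (¬ pr (fun ρ : Fin n → Bool => ¬ Wide v u r f ρ) ≤ 1 / 4) ≤
      4 * av (fun ρ : Fin n → Bool => ind (¬ Wide v u r f ρ)) := by
    intro f
    rw [← pr_eq_av]
    by_cases h : pr (fun ρ : Fin n → Bool => ¬ Wide v u r f ρ) ≤ 1 / 4
    · rw [ind_neg fun h' => h' h]
      have := pr_nonneg (fun ρ : Fin n → Bool => ¬ Wide v u r f ρ)
      linarith
    · rw [ind_pos h]
      linarith
  rw [pr_eq_av]
  refine (av_mono h1).trans ?_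
  rw [av_mul_left, av_comm]
  have h2 : av (fun ρ : Fin n → Bool => av (fun f : ClauseList n m w =>
      ind (¬ Wide v u r f ρ))) ≤ 2 * P := by
    have h3 : ∀ ρ : Fin n → Bool, av (fun f : ClauseList n m w => ind (¬ Wide v u r f ρ)) ≤
        2 * P := by
      intro ρ
      rw [← pr_eq_av]
      exact pr_not_wide hw hn hv0 hvr ρ hD hP hP1
    refine (av_mono h3).trans (le_of_eq (av_const _))
  linarith

end Pool.Agent.MP_9cec2c_lc.LovSch
end
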